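import Pool.Agent.H719R4.FX.Alg
open Complex Set Filter Topology Polynomial
open scoped Polynomial.Bivariate
namespace H719FX
open H738CZ

theorem tAEX : StAEX := by
  intro γ x hγ
  obtain ⟨p, r0, hp⟩ := hγ
  obtain ⟨ρ, hρ0, hρ⟩ := ENNReal.lt_iff_exists_nnreal_btwn.1 hp.r_pos
  have hρpos : (0 : ℝ) < ρ := by
    have : (0 : NNReal) < ρ := by exact_mod_cast hρ0
    exact_mod_cast this
  have hsum : Summable fun n => ‖p n‖ * (ρ : ℝ) ^ n :=
    p.summable_norm_mul_pow (lt_of_lt_of_le hρ hp.r_le)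
  have hcoef : ∀ n, ‖p.coeff n‖ ≤ ‖p n‖ := by
    intro n
    have h := (p n).le_opNorm (fun _ => (1 : ℝ))
    simp only [norm_one, Finset.prod_const_one, mul_one] at h
    exact h
  refine ⟨fun z => ∑' n : ℕ, p.coeff n * (z - (x : ℂ)) ^ n, ρ, hρpos, ?_, ?_⟩
  · refine Complex.differentiableOn_tsum_of_summable_norm (u := fun n => ‖p n‖ * (ρ : ℝ) ^ n) hsum
      (fun n => ?_) Metric.isOpen_ball (fun n w hw => ?_)
    · exact (((differentiable_id.sub_const _).pow n).const_mul _).differentiableOn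
    · rw [norm_mul, norm_pow]
      have h1 : ‖w - (x : ℂ)‖ ≤ ρ := by
        rw [Metric.mem_ball, dist_eq_norm] at hw
        exact hw.le
      exact mul_le_mul (hcoef n) (pow_le_pow_left₀ (norm_nonneg _) h1 n) (by positivity)
        (norm_nonneg _)
  · intro t ht
    have ht2 : |t - x| < ρ := by
      rw [Metric.mem_ball, dist_eq_norm, ← Complex.ofReal_sub, Complex.norm_real,
        Real.norm_eq_abs] at ht
      exact ht
    have hmem : t ∈ Metric.eball x r0 := by
      rw [Metric.mem_eball, edist_dist, Real.dist_eq]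
      refine lt_trans ?_ hρ
      rw [ENNReal.ofReal_lt_coe_iff (abs_nonneg _)]
      exact ht2
    have hs := hp.hasSum_sub hmem
    have h2 : (fun n : ℕ => p n fun _ => t - x) =
        fun n : ℕ => p.coeff n * ((t : ℂ) - (x : ℂ)) ^ n := by
      funext n
      rw [p.apply_eq_pow_smul_coeff]
      rw [← Complex.ofReal_sub, ← Complex.ofReal_pow, mul_comm, Complex.real_smul]
    rw [h2] at hs
    exact hs.tsum_eq


end H719FX
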