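import Pool.Agent.H719R4.FX.Alg2

/-!
# AFL: a polynomial relation extends along a smooth algebraic oval
-/

open Complex Set Filter Topology Polynomial

open scoped Polynomial.Bivariate ContDiff

namespace H719FX

open H738CZ

theorem AFL_ev1 (f : ℝ → ℂ) (hf : ContDiff ℝ ∞ f) (a : ℂ[X]) :
    ContDiff ℝ ∞ (fun s => a.eval (f s)) := by
  induction a using Polynomial.induction_on' with
  | add p q hp hq => simp only [eval_add]; exact hp.add hq
  | monomial n a => simp only [eval_monomial]; exact contDiff_const.mul (hf.pow n)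

theorem AFL_ev2 (f g : ℝ → ℂ) (hf : ContDiff ℝ ∞ f) (hg : ContDiff ℝ ∞ g) (q : ℂ[X][Y]) :
    ContDiff ℝ ∞ (fun s => q.evalEval (f s) (g s)) := by
  induction q using Polynomial.induction_on' with
  | add p q hp hq => simp only [evalEval_add]; exact hp.add hq
  | monomial n a =>
    have h1 : (fun s => (monomial n a : ℂ[X][Y]).evalEval (f s) (g s))
        = fun s => a.eval (f s) * g s ^ n := by
      funext s
      simp only [evalEval, eval_monomial, eval_mul, eval_pow, eval_C]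
    rw [h1]
    exact (AFL_ev1 f hf a).mul (hg.pow n)

theorem AFL_comp1 (x : ℂ) (p : ℂ[X]) (R : ℂ[X][Y]) :
    eval x (eval p R) = eval x (eval (C (eval x p)) R) := by
  induction R using Polynomial.induction_on' with
  | add p q hp hq => simp only [eval_add, hp, hq]
  | monomial n a => simp only [eval_monomial, eval_mul, eval_pow, eval_C]

theorem AFL_comp (x y : ℂ) (q R : ℂ[X][Y]) :
    (R.comp q).evalEval x y = R.evalEval x (q.evalEval x y) := by
  simp only [evalEval, eval_comp]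
  exact AFL_comp1 x _ R

theorem AFL_flat (S : Set ℝ) (s1 : ℝ) (hs1 : s1 ∈ closure S) (n : ℕ) :
    ∀ v : ℝ → ℂ, ContDiff ℝ ∞ v → (∀ s ∈ S, ∀ᶠ t in 𝓝 s, v t = 0) →
    ∃ C δ : ℝ, 0 ≤ C ∧ 0 < δ ∧ ∀ s, |s - s1| ≤ δ → ‖v s‖ ≤ C * |s - s1| ^ n := by
  induction n with
  | zero =>
    intro v hv _
    have h1 : ∀ᶠ s in 𝓝 s1, ‖v s‖ < ‖v s1‖ + 1 := by
      have hc : Continuous fun s => ‖v s‖ := hv.continuous.norm
      exact (hc.tendsto s1).eventually (gt_mem_nhds (by linarith))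
    obtain ⟨δ, hδ, h2⟩ := Metric.eventually_nhds_iff.1 h1
    refine ⟨‖v s1‖ + 1, δ / 2, by positivity, by positivity, fun s hs => ?_⟩
    rw [pow_zero, mul_one]
    exact (h2 (by rw [Real.dist_eq]; linarith)).le
  | succ n ih =>
    intro v hv hS
    have hv' : ContDiff ℝ ∞ (deriv v) := (contDiff_infty_iff_deriv.1 hv).2
    have hS' : ∀ s ∈ S, ∀ᶠ t in 𝓝 s, deriv v t = 0 := by
      intro s hs
      have h1 := (hS s hs).eventually_nhds
      filter_upwards [h1] with t ht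
      have h2 : v =ᶠ[𝓝 t] fun _ => 0 := ht
      rw [h2.deriv_eq]
      simp
    obtain ⟨C, δ, hC, hδ, h⟩ := ih (deriv v) hv' hS'
    refine ⟨C, δ, hC, hδ, fun s hs => ?_⟩
    have h0 : v s1 = 0 := by
      have hcl : IsClosed {s | v s = 0} := isClosed_eq hv.continuous continuous_const
      have h3 : closure S ⊆ {s | v s = 0} :=
        hcl.closure_subset_iff.2 fun s hs => (hS s hs).self_of_nhds
      exact h3 hs1
    have hd : Differentiable ℝ v := (contDiff_infty_iff_deriv.1 hv).1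
    have hb : ∀ x ∈ Metric.closedBall s1 |s - s1|, ‖deriv v x‖ ≤ C * |s - s1| ^ n := by
      intro x hx
      have hx' : |x - s1| ≤ |s - s1| := by
        rw [Metric.mem_closedBall, Real.dist_eq] at hx
        exact hx
      refine (h x (hx'.trans hs)).trans ?_
      gcongr
    have h2 := (convex_closedBall s1 |s - s1|).norm_image_sub_le_of_norm_deriv_le (f := v)
      (C := C * |s - s1| ^ n) (x := s1) (y := s)
      (fun x _ => hd x) hb (Metric.mem_closedBall_self (abs_nonneg _))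
      (by rw [Metric.mem_closedBall, Real.dist_eq])
    rw [h0, sub_zero, Real.norm_eq_abs] at h2
    rw [pow_succ, ← mul_assoc]
    exact h2

theorem AFL_low (γ : ℝ → ℂ) (s1 : ℝ) (d : ℂ) (hd : d ≠ 0) (hγ : HasDerivAt γ d s1) (p : ℂ[X])
    (hp : p ≠ 0) :
    ∃ (m : ℕ) (c : ℝ), 0 < c ∧ ∀ᶠ s in 𝓝 s1, c * |s - s1| ^ m ≤ ‖p.eval (γ s)‖ := by
  obtain ⟨p1, h1, h2⟩ := exists_eq_pow_rootMultiplicity_mul_and_not_dvd p hp (γ s1)
  have h3 : p1.eval (γ s1) ≠ 0 := fun h => h2 (dvd_iff_isRoot.2 h)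
  have hd0 : 0 < ‖d‖ := norm_pos_iff.2 hd
  have hp0 : 0 < ‖p1.eval (γ s1)‖ := norm_pos_iff.2 h3
  refine ⟨rootMultiplicity (γ s1) p, (‖d‖ / 2) ^ (rootMultiplicity (γ s1) p)
    * (‖p1.eval (γ s1)‖ / 2), by positivity, ?_⟩
  have e1 : ∀ᶠ s in 𝓝 s1, ‖d‖ / 2 * |s - s1| ≤ ‖γ s - γ s1‖ := by
    have h9 := (hasDerivAt_iff_isLittleO.1 hγ).def (half_pos hd0)
    filter_upwards [h9] with s hs
    have h4 : ‖(s - s1) • d‖ = |s - s1| * ‖d‖ := by rw [norm_smul, Real.norm_eq_abs]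
    have h5 : ‖(s - s1) • d‖ ≤ ‖γ s - γ s1‖ + ‖γ s - γ s1 - (s - s1) • d‖ := by
      have h6 : (s - s1) • d = (γ s - γ s1) - (γ s - γ s1 - (s - s1) • d) := by abel
      calc ‖(s - s1) • d‖ = ‖(γ s - γ s1) - (γ s - γ s1 - (s - s1) • d)‖ := by rw [← h6]
        _ ≤ _ := norm_sub_le _ _
    rw [Real.norm_eq_abs] at hs
    linarith
  have e2 : ∀ᶠ s in 𝓝 s1, ‖p1.eval (γ s1)‖ / 2 ≤ ‖p1.eval (γ s)‖ := by
    have hc : ContinuousAt (fun s => ‖p1.eval (γ s)‖) s1 :=
      ((p1.continuous.continuousAt (x := γ s1)).comp hγ.continuousAt).norm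
    have h6 : ‖p1.eval (γ s1)‖ / 2 < ‖p1.eval (γ s1)‖ := half_lt_self hp0
    exact (hc.eventually (lt_mem_nhds h6)).mono fun s hs => hs.le
  filter_upwards [e1, e2] with s h4 h5
  have h6 : p.eval (γ s) = (γ s - γ s1) ^ (rootMultiplicity (γ s1) p) * p1.eval (γ s) := by
    conv_lhs => rw [h1]
    simp only [eval_mul, eval_pow, eval_sub, eval_X, eval_C]
  rw [h6, norm_mul, norm_pow]
  calc (‖d‖ / 2) ^ (rootMultiplicity (γ s1) p) * (‖p1.eval (γ s1)‖ / 2)
        * |s - s1| ^ (rootMultiplicity (γ s1) p)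
      = (‖d‖ / 2 * |s - s1|) ^ (rootMultiplicity (γ s1) p) * (‖p1.eval (γ s1)‖ / 2) := by
        rw [mul_pow]; ring
    _ ≤ _ := by gcongr

theorem tAFL (hAFR : StAFR) : StAFL := by
  intro γ ρ hO hγ A hA hA0 q hq
  have hne : ∀ s : ℝ, (ρ s : ℂ) * I * cexp (s * I) ≠ 0 := by
    intro s
    have h1 : (ρ s : ℂ) ≠ 0 := by exact_mod_cast (hO.pos s).ne'
    exact mul_ne_zero (mul_ne_zero h1 I_ne_zero) (Complex.exp_ne_zero _)
  have hdeg : 0 < A.natDegree := by
    by_contra h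
    have h0 : A.natDegree = 0 := by omega
    obtain ⟨a, ha⟩ : ∃ a, A = C a := ⟨_, eq_C_of_natDegree_eq_zero h0⟩
    have ha0 : a ≠ 0 := by
      rintro rfl
      exact hA (by simpa using ha)
    obtain ⟨m, c, hc, h1⟩ := AFL_low γ 0 _ (hne 0) (hO.der 0) a ha0
    have h2 : ∀ᶠ s in 𝓝[≠] (0 : ℝ), c * |s - 0| ^ m ≤ ‖a.eval (γ s)‖ :=
      h1.filter_mono nhdsWithin_le_nhds
    have h2' : ∀ᶠ s in 𝓝[≠] (0 : ℝ), s ≠ 0 := self_mem_nhdsWithin
    obtain ⟨s, h3, h4⟩ := (h2.and h2').exists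
    have h5 : a.eval (γ s) = 0 := by
      have h6 := hA0 s
      rw [ha] at h6
      simpa [evalEval] using h6
    rw [h5, norm_zero] at h3
    have h7 : 0 < |s - 0| := by rw [sub_zero]; exact abs_pos.2 h4
    have h8 : 0 < c * |s - 0| ^ m := by positivity
    linarith
  obtain ⟨R, H, hR, hRH⟩ := hAFR A q hdeg
  obtain ⟨R1, hR1, hR2⟩ := exists_eq_pow_rootMultiplicity_mul_and_not_dvd R hR 0
  rw [C_0, sub_zero] at hR1 hR2
  have hp : R1.coeff 0 ≠ 0 := fun h => hR2 (X_dvd_iff.2 h)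
  set u : ℝ → ℂ := fun s => q.evalEval (γ s) ((starRingEnd ℂ) (γ s)) with hu
  have hconj : ContDiff ℝ ∞ (fun s => (starRingEnd ℂ) (γ s)) :=
    Complex.conjCLE.contDiff.comp hγ
  have huc : ContDiff ℝ ∞ u := AFL_ev2 _ _ hγ hconj q
  have hrel : ∀ s, u s ≠ 0 →
      (R1.coeff 0).eval (γ s) = - ((R1.divX).evalEval (γ s) (u s) * u s) := by
    intro s hs
    have h1 : (R.comp q).evalEval (γ s) ((starRingEnd ℂ) (γ s)) = 0 := by
      rw [hRH, evalEval_mul, hA0 s, zero_mul]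
    rw [AFL_comp] at h1
    change R.evalEval (γ s) (u s) = 0 at h1
    rw [hR1, evalEval_mul, evalEval_pow, evalEval_X] at h1
    have h2 : R1.evalEval (γ s) (u s) = 0 :=
      (mul_eq_zero.1 h1).resolve_left (pow_ne_zero _ hs)
    rw [← divX_mul_X_add R1, evalEval_add, evalEval_mul, evalEval_X, evalEval_C] at h2
    linear_combination h2
  have hw : Continuous fun s => (R1.divX).evalEval (γ s) (u s) :=
    (AFL_ev2 _ _ hγ huc R1.divX).continuous
  set S : Set ℝ := {s | ∀ᶠ t in 𝓝 s, u t = 0} with hS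
  have hopen : IsOpen S := by
    rw [isOpen_iff_mem_nhds]
    intro s hs
    exact (hs : ∀ᶠ t in 𝓝 s, u t = 0).eventually_nhds
  have hclosed : IsClosed S := by
    refine isClosed_of_closure_subset fun s1 hs1 => ?_
    have h0 : u s1 = 0 := by
      have hcl : IsClosed {s | u s = 0} := isClosed_eq huc.continuous continuous_const
      have h3 : closure S ⊆ {s | u s = 0} :=
        hcl.closure_subset_iff.2 fun s hs => (hs : ∀ᶠ t in 𝓝 s, u t = 0).self_of_nhds
      exact h3 hs1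
    obtain ⟨m, c, hc, h1⟩ := AFL_low γ s1 _ (hne s1) (hO.der s1) _ hp
    obtain ⟨K, δ, hK, hδ, h2⟩ := AFL_flat S s1 hs1 (m + 1) u huc (fun s hs => hs)
    have h3 : ∀ᶠ s in 𝓝 s1, ‖(R1.divX).evalEval (γ s) (u s)‖
        < ‖(R1.divX).evalEval (γ s1) (u s1)‖ + 1 :=
      (hw.norm.tendsto s1).eventually (gt_mem_nhds (by linarith))
    set L : ℝ := ‖(R1.divX).evalEval (γ s1) (u s1)‖ + 1 with hL
    have hL0 : 0 < L := by positivity
    have h4 : ∀ᶠ s in 𝓝 s1, |s - s1| < δ := by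
      have h5 : Continuous fun s : ℝ => |s - s1| := by fun_prop
      exact (h5.tendsto s1).eventually (gt_mem_nhds (by simpa using hδ))
    have h6 : ∀ᶠ s in 𝓝 s1, L * K * |s - s1| < c := by
      have h5 : Continuous fun s : ℝ => L * K * |s - s1| := by fun_prop
      exact (h5.tendsto s1).eventually (gt_mem_nhds (by simpa using hc))
    change ∀ᶠ t in 𝓝 s1, u t = 0
    filter_upwards [h1, h3, h4, h6] with s g1 g3 g4 g6
    by_contra hus
    have hss : s ≠ s1 := by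
      rintro rfl
      exact hus h0
    have hpos : 0 < |s - s1| := abs_pos.2 (sub_ne_zero.2 hss)
    have g7 := h2 s g4.le
    rw [hrel s hus, norm_neg, norm_mul] at g1
    have g8 : c * |s - s1| ^ m ≤ L * K * |s - s1| * |s - s1| ^ m := by
      refine g1.trans ?_
      calc ‖(R1.divX).evalEval (γ s) (u s)‖ * ‖u s‖ ≤ L * (K * |s - s1| ^ (m + 1)) :=
            mul_le_mul g3.le g7 (norm_nonneg _) hL0.le
        _ = _ := by ring
    have g9 : 0 < |s - s1| ^ m := by positivity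
    have g10 := le_of_mul_le_mul_right g8 g9
    linarith
  have huniv : S = univ := by
    obtain ⟨s0, hs0⟩ := hq
    exact IsClopen.eq_univ ⟨hclosed, hopen⟩ ⟨s0, hs0⟩
  intro s
  have h1 : s ∈ S := by rw [huniv]; trivial
  exact (h1 : ∀ᶠ t in 𝓝 s, u t = 0).self_of_nhds

end H719FX
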