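import Pool.Agent.H719R4.FX.Alg

/-!
# AGP: good points propagate in punctured discs (helper275)
-/

open Complex Set Filter Topology Polynomial

open scoped Polynomial.Bivariate

namespace H719FX

open H738CZ

theorem AGP_isOpen_PD (ε : ℝ) (N : ℕ) : IsOpen (PD ε N) := by
  have h : PD ε N = {t : ℂ | 0 < ‖t‖} ∩ {t : ℂ | ‖t‖ ^ N < ε} := rfl
  rw [h]
  exact (isOpen_lt continuous_const continuous_norm).inter
    (isOpen_lt (continuous_norm.pow N) continuous_const)

theorem AGP_pow_mem {ε : ℝ} {N : ℕ} {t : ℂ} (ht : t ∈ PD ε N) : t ^ N ∈ PD ε 1 := by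
  refine ⟨?_, ?_⟩
  · rw [norm_pow]
    exact pow_pos ht.1 N
  · rw [norm_pow, pow_one]
    exact ht.2

theorem AGP_norm_exp_pow (N : ℕ) (ζ : ℂ) : ‖Complex.exp ζ‖ ^ N = Real.exp (N * ζ.re) := by
  rw [Complex.norm_exp, ← Real.exp_nat_mul]

theorem tAGP (hAGS : StAGS) (hGRP : StGRP) : StAGP := by
  intro A B hA q W ε N hε hN hq hqd hW hAW t1 ht1 hAG
  set H : Set ℂ := {ζ : ℂ | (N : ℝ) * ζ.re < Real.log ε} with hH
  have hHo : IsOpen H := by
    rw [hH]
    exact isOpen_lt (continuous_const.mul Complex.continuous_re) continuous_const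
  have hHc : Convex ℝ H := by
    intro x hx y hy a b ha hb hab
    have hx' : (N : ℝ) * x.re < Real.log ε := hx
    have hy' : (N : ℝ) * y.re < Real.log ε := hy
    show (N : ℝ) * (a • x + b • y).re < Real.log ε
    have h1 : (a • x + b • y).re = a * x.re + b * y.re := by simp
    rw [h1]
    have h2 : (N : ℝ) * (a * x.re + b * y.re) = a * (N * x.re) + b * (N * y.re) := by ring
    rw [h2]
    rcases eq_or_lt_of_le ha with ha0 | ha0
    · rw [← ha0] at hab ⊢
      have hb1 : b = 1 := by linarith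
      rw [hb1]
      linarith
    · have h3 : a * ((N : ℝ) * x.re) < a * Real.log ε := mul_lt_mul_of_pos_left hx' ha0
      have h4 : b * ((N : ℝ) * y.re) ≤ b * Real.log ε := mul_le_mul_of_nonneg_left hy'.le hb
      have h5 : a * Real.log ε + b * Real.log ε = Real.log ε := by rw [← add_mul, hab, one_mul]
      linarith
  have hexp : ∀ ζ ∈ H, Complex.exp ζ ∈ PD ε N := by
    intro ζ hζ
    refine ⟨?_, ?_⟩
    · rw [Complex.norm_exp]
      exact Real.exp_pos _
    · rw [AGP_norm_exp_pow]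
      have h1 : (N : ℝ) * ζ.re < Real.log ε := hζ
      calc Real.exp (N * ζ.re) < Real.exp (Real.log ε) := Real.exp_lt_exp.mpr h1
        _ = ε := Real.exp_log hε
  have hlog : ∀ t ∈ PD ε N, Complex.log t ∈ H ∧ Complex.exp (Complex.log t) = t := by
    intro t ht
    have ht0 : t ≠ 0 := norm_pos_iff.mp ht.1
    refine ⟨?_, Complex.exp_log ht0⟩
    show (N : ℝ) * (Complex.log t).re < Real.log ε
    rw [Complex.log_re, ← Real.log_pow]
    exact Real.log_lt_log (pow_pos ht.1 N) ht.2
  have hPDo := AGP_isOpen_PD ε N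
  have hZ : DifferentiableOn ℂ (fun x => q (x ^ N)) (PD ε N) := by
    refine hq.comp (differentiable_pow N).differentiableOn ?_
    intro t ht
    exact AGP_pow_mem ht
  have hf : DifferentiableOn ℂ (fun ζ => q (Complex.exp ζ ^ N)) H :=
    hZ.comp Complex.differentiable_exp.differentiableOn hexp
  have hg : DifferentiableOn ℂ (fun ζ => W (Complex.exp ζ)) H :=
    hW.comp Complex.differentiable_exp.differentiableOn hexp
  have hprop : ∀ x ∈ H, deriv (fun ζ => q (Complex.exp ζ ^ N)) x ≠ 0 ∧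
      (fun ζ => q (Complex.exp ζ ^ N)) x ∉ B ∧
      A.evalEval ((fun ζ => q (Complex.exp ζ ^ N)) x) ((fun ζ => W (Complex.exp ζ)) x) = 0 := by
    intro x hx
    have h1 := hexp x hx
    have h2 := AGP_pow_mem h1
    refine ⟨?_, (hqd _ h2).2, hAW _ h1⟩
    have hqat : HasDerivAt q (deriv q (Complex.exp x ^ N)) (Complex.exp x ^ N) :=
      ((hq _ h2).differentiableAt ((AGP_isOpen_PD ε 1).mem_nhds h2)).hasDerivAt
    have hpw : HasDerivAt (fun ζ => Complex.exp ζ ^ N)
        ((N : ℂ) * Complex.exp x ^ (N - 1) * Complex.exp x) x :=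
      (Complex.hasDerivAt_exp x).pow N
    have hcomp := HasDerivAt.comp x hqat hpw
    have hd : deriv (fun ζ => q (Complex.exp ζ ^ N)) x =
        deriv q (Complex.exp x ^ N) * ((N : ℂ) * Complex.exp x ^ (N - 1) * Complex.exp x) :=
      hcomp.deriv
    rw [hd]
    refine mul_ne_zero (hqd _ h2).1 (mul_ne_zero (mul_ne_zero ?_ ?_) (Complex.exp_ne_zero x))
    · exact_mod_cast (by omega : N ≠ 0)
    · exact pow_ne_zero _ (Complex.exp_ne_zero x)
  intro t ht
  obtain ⟨ha, hea⟩ := hlog t1 ht1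
  obtain ⟨hb, heb⟩ := hlog t ht
  have key := hAGS A B hA H _ _ hHo hHc hf hg hprop (Complex.log t1) ha (by
    show AG A (q (Complex.exp (Complex.log t1) ^ N)) (W (Complex.exp (Complex.log t1)))
    rw [hea]
    exact hAG) (Complex.log t) hb
  obtain ⟨k1, k2⟩ := key
  have k1' : AG A (q (Complex.exp (Complex.log t) ^ N)) (W (Complex.exp (Complex.log t))) := k1
  rw [heb] at k1'
  refine ⟨k1', ?_⟩
  have hmem : Complex.exp (Complex.log t) ∈ PD ε N := by rw [heb]; exact ht
  have k3 := hGRP (fun x => q (x ^ N)) W Complex.exp (Complex.log t)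
    (Complex.differentiable_exp.analyticAt _)
    (by rw [Complex.deriv_exp]; exact Complex.exp_ne_zero _)
    (hZ.analyticAt (hPDo.mem_nhds hmem)) (hW.analyticAt (hPDo.mem_nhds hmem)) k2
  rwa [heb] at k3

end H719FX
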