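import Pool.Agent.H719R4.FX.Alg

/-! Task AGS of project FX (helper719): good points propagate in convex sets (helper827). -/

open Complex Set Filter Topology Polynomial

open scoped Polynomial.Bivariate

namespace H719FX

open H738CZ

theorem AGS_germ {Z W Z' W' : ℂ → ℂ} {t : ℂ} (hZ : Z =ᶠ[𝓝 t] Z')
    (hW : W =ᶠ[𝓝 t] W') (h : GoodAt Z W t) : GoodAt Z' W' t := by
  obtain ⟨Φ, ρ, hP, hG⟩ := h
  refine ⟨Φ, ρ, ⟨hP.aΦ, hP.aρ, hP.dΦ, hP.nρ, ?_, ?_⟩, hG⟩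
  · have h1 : deriv Z =ᶠ[𝓝 t] deriv Z' := EventuallyEq.deriv hZ
    filter_upwards [hP.eZ, h1] with s hs h1
    rw [← h1]; exact hs
  · have h1 : deriv W =ᶠ[𝓝 t] deriv W' := EventuallyEq.deriv hW
    filter_upwards [hP.eW, h1] with s hs h1
    rw [← h1]; exact hs

theorem AGS_Wr {Z W Z' W' : ℂ → ℂ} {t : ℂ} (hZ : Z =ᶠ[𝓝 t] Z')
    (hW : W =ᶠ[𝓝 t] W') : Wr Z W t = Wr Z' W' t := by
  have h1 : deriv Z =ᶠ[𝓝 t] deriv Z' := EventuallyEq.deriv hZ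
  have h2 : deriv W =ᶠ[𝓝 t] deriv W' := EventuallyEq.deriv hW
  have h3 : deriv (deriv Z) t = deriv (deriv Z') t := EventuallyEq.deriv_eq h1
  have h4 : deriv (deriv W) t = deriv (deriv W') t := EventuallyEq.deriv_eq h2
  have h5 : deriv Z t = deriv Z' t := h1.eq_of_nhds
  have h6 : deriv W t = deriv W' t := h2.eq_of_nhds
  unfold Wr
  rw [h3, h4, h5, h6]

theorem AGS_Wrid (ω : ℂ → ℂ) (z : ℂ) : Wr (fun x => x) ω z = deriv (deriv ω) z := by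
  unfold Wr
  have h1 : deriv (fun x : ℂ => x) = fun _ => 1 := by
    funext x
    exact deriv_id x
  rw [h1]
  simp

/-- near a point the lift is the composition with the sheet -/
theorem AGS_loc (hAMI : StAMI) (hALO : StALO) {A : ℂ[X][Y]} {B : Set ℂ} (hA : ACurve A B)
    {U : Set ℂ} {f g : ℂ → ℂ} (hU : IsOpen U) (hf : DifferentiableOn ℂ f U)
    (hg : DifferentiableOn ℂ g U)
    (h : ∀ x ∈ U, deriv f x ≠ 0 ∧ f x ∉ B ∧ A.evalEval (f x) (g x) = 0)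
    {x : ℂ} (hx : x ∈ U) (ω : ℂ → ℂ) (hω : Sheet A ω (f x) (g x)) :
    g =ᶠ[𝓝 x] (fun y => ω (f y)) ∧ deriv g x ≠ 0 ∧ Wr f g x ≠ 0 := by
  obtain ⟨h1, h2, h3⟩ := h x hx
  have hev := (hALO A B hA (f x) h2 (g x) h3).2 ω hω
  have hfa : AnalyticAt ℂ f x := hf.analyticAt (hU.mem_nhds hx)
  have hga : AnalyticAt ℂ g x := hg.analyticAt (hU.mem_nhds hx)
  have ht : Tendsto (fun y => (f y, g y)) (𝓝 x) (𝓝 (f x, g x)) :=
    hfa.continuousAt.prodMk_nhds hga.continuousAt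
  have hE : g =ᶠ[𝓝 x] (fun y => ω (f y)) := by
    filter_upwards [ht.eventually hev, hU.mem_nhds hx] with y hy hyU
    exact hy (h y hyU).2.2
  obtain ⟨k1, k2⟩ := hA.flex (f x) h2 ω hω.1 hω.2.2
  refine ⟨hE, ?_, ?_⟩
  · have e1 : deriv g x = deriv (fun y => ω (f y)) x := hE.deriv_eq
    have e2 : deriv (fun y => ω (f y)) x = deriv ω (f x) * deriv f x := by
      have := deriv_comp x hω.1.differentiableAt hfa.differentiableAt
      exact this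
    rw [e1, e2]
    exact mul_ne_zero k1 h1
  · have e1 : Wr f g x = Wr f (fun y => ω (f y)) x := AGS_Wr (EventuallyEq.refl _ _) hE
    rw [e1, (hAMI f ω x hfa hω.1).1, AGS_Wrid]
    exact mul_ne_zero (pow_ne_zero 3 h1) k2

theorem AGS_iff (hAGR : StAGR) (hAMI : StAMI) (hALO : StALO) {A : ℂ[X][Y]} {B : Set ℂ}
    (hA : ACurve A B)
    {U : Set ℂ} {f g : ℂ → ℂ} (hU : IsOpen U) (hf : DifferentiableOn ℂ f U)
    (hg : DifferentiableOn ℂ g U)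
    (h : ∀ x ∈ U, deriv f x ≠ 0 ∧ f x ∉ B ∧ A.evalEval (f x) (g x) = 0)
    {x : ℂ} (hx : x ∈ U) : AG A (f x) (g x) ↔ GoodAt f g x := by
  obtain ⟨h1, h2, h3⟩ := h x hx
  have hfa : AnalyticAt ℂ f x := hf.analyticAt (hU.mem_nhds hx)
  constructor
  · rintro ⟨ω, hω, hG⟩
    obtain ⟨hE, -, -⟩ := AGS_loc hAMI hALO hA hU hf hg h hx ω hω
    exact AGS_germ (EventuallyEq.refl _ _) hE.symm ((hAGR f ω x hfa h1 hω.1).2 hG)
  · intro hG
    obtain ⟨ω, hω⟩ := (hALO A B hA (f x) h2 (g x) h3).1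
    obtain ⟨hE, -, -⟩ := AGS_loc hAMI hALO hA hU hf hg h hx ω hω
    exact ⟨ω, hω, (hAGR f ω x hfa h1 hω.1).1 (AGS_germ (EventuallyEq.refl _ _) hE hG)⟩

theorem tAGS (hSEG : StSEG) (hAGR : StAGR) (hAMI : StAMI) (hALO : StALO) : StAGS := by
  intro A B hA U f g hU hUc hf hg h a ha hAG b hb
  have hGa : GoodAt f g a := (AGS_iff hAGR hAMI hALO hA hU hf hg h ha).1 hAG
  have hGb : GoodAt f g b := by
    refine hSEG f g U a b hU hf hg ?_ (hUc.segment_subset ha hb) hGa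
    intro t ht
    obtain ⟨h1, h2, h3⟩ := h t ht
    obtain ⟨ω, hω⟩ := (hALO A B hA (f t) h2 (g t) h3).1
    obtain ⟨-, h4, h5⟩ := AGS_loc hAMI hALO hA hU hf hg h ht ω hω
    exact ⟨h1, h4, h5⟩
  exact ⟨(AGS_iff hAGR hAMI hALO hA hU hf hg h hb).2 hGb, hGb⟩

end H719FX
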