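import Pool.Agent.H719R4.FX.Alg

/-!
# ALO: local sheets of an algebraic curve (implicit function theorem)
-/

open Complex Set Filter Topology Polynomial

open scoped Polynomial.Bivariate ContDiff

namespace H719FX

open H738CZ

theorem ALO_an (A : ℂ[X][Y]) (u : ℂ × ℂ) :
    AnalyticAt ℂ (fun p : ℂ × ℂ => A.evalEval p.1 p.2) u := by
  have h : (fun p : ℂ × ℂ => A.evalEval p.1 p.2) = fun p : ℂ × ℂ =>
      ∑ i ∈ Finset.range (A.natDegree + 1), (aeval p.1 (A.coeff i)) * p.2 ^ i := by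
    funext p
    unfold Polynomial.evalEval
    rw [Polynomial.eval_eq_sum_range (p := A), Polynomial.eval_finsetSum]
    refine Finset.sum_congr rfl fun i _ => ?_
    rw [Polynomial.eval_mul, Polynomial.eval_pow, Polynomial.eval_C, Polynomial.coe_aeval_eq_eval]
  rw [h]
  refine Finset.analyticAt_fun_sum _ fun i _ => ?_
  exact (AnalyticAt.aeval_polynomial analyticAt_fst (A.coeff i)).mul (analyticAt_snd.pow i)

theorem ALO_contDiff (A : ℂ[X][Y]) (u : ℂ × ℂ) :
    ContDiffAt ℂ ω (fun p : ℂ × ℂ => A.evalEval p.1 p.2) u :=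
  (ALO_an A u).contDiffAt

theorem ALO_hasDeriv (A : ℂ[X][Y]) (z0 w0 : ℂ) :
    HasDerivAt (fun w => A.evalEval z0 w) (A.derivative.evalEval z0 w0) w0 := by
  have h := (A.map (Polynomial.evalRingHom z0)).hasDerivAt w0
  rw [Polynomial.derivative_map, Polynomial.map_evalRingHom_eval] at h
  refine h.congr_of_eventuallyEq (Eventually.of_forall fun w => ?_)
  exact (Polynomial.map_evalRingHom_eval z0 w A).symm

theorem ALO_inv (A : ℂ[X][Y]) (z0 w0 : ℂ) (h : A.derivative.evalEval z0 w0 ≠ 0) :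
    (fderiv ℂ (fun p : ℂ × ℂ => A.evalEval p.1 p.2) (z0, w0) ∘L
      (ContinuousLinearMap.inr ℂ ℂ ℂ)).IsInvertible := by
  have hd : HasFDerivAt (fun p : ℂ × ℂ => A.evalEval p.1 p.2)
      (fderiv ℂ (fun p : ℂ × ℂ => A.evalEval p.1 p.2) (z0, w0)) (z0, w0) :=
    (ALO_an A (z0, w0)).differentiableAt.hasFDerivAt
  have h1 : HasDerivAt (fun w : ℂ => ((z0, w) : ℂ × ℂ)) ((0 : ℂ), (1 : ℂ)) w0 :=
    (hasDerivAt_const w0 z0).prodMk (hasDerivAt_id w0)
  have h2 := HasFDerivAt.comp_hasDerivAt w0 hd h1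
  have h3 := h2.unique (ALO_hasDeriv A z0 w0)
  refine ⟨ContinuousLinearEquiv.unitsEquivAut ℂ (Units.mk0 _ h), ?_⟩
  ext
  simp only [ContinuousLinearEquiv.coe_coe, ContinuousLinearEquiv.unitsEquivAut_apply,
    Units.val_mk0, one_mul, ContinuousLinearMap.comp_apply, ContinuousLinearMap.inr_apply]
  exact h3.symm

theorem tALO : StALO := by
  intro A B hA z0 hz0 w0 hw0
  have hsep := hA.sep z0 hz0 w0 hw0
  have hinv := ALO_inv A z0 w0 hsep
  have cdf : ContDiffAt ℂ ω (fun p : ℂ × ℂ => A.evalEval p.1 p.2) (z0, w0) :=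
    ALO_contDiff A (z0, w0)
  have hne : (ω : WithTop ℕ∞) ≠ 0 := by simp
  have hself := cdf.implicitFunction_apply_self hne hinv
  have hev := cdf.eventually_apply_implicitFunction hne hinv
  have hiff := cdf.eventually_apply_eq_iff_implicitFunction hne hinv
  have hcd := cdf.contDiffAt_implicitFunction hne hinv
  set ψ := cdf.implicitFunction hne hinv with hψ
  simp only at hself hev hiff hcd
  rw [hw0] at hev hiff
  refine ⟨⟨ψ, ?_, hself, hev⟩, ?_⟩
  · exact hcd.analyticAt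
  · rintro η ⟨hη, hη0, hηA⟩
    have ht : Tendsto (fun x => ((x, η x) : ℂ × ℂ)) (𝓝 z0) (𝓝 (z0, w0)) := by
      have h1 : ContinuousAt (fun x => ((x, η x) : ℂ × ℂ)) z0 :=
        continuousAt_id.prodMk hη.continuousAt
      have h2 := h1.tendsto
      rwa [hη0] at h2
    have h3 : ∀ᶠ x in 𝓝 z0, ψ x = η x := by
      filter_upwards [ht.eventually hiff, hηA] with x hx hx'
      exact hx.1 hx'
    have h4 : ∀ᶠ p : ℂ × ℂ in 𝓝 (z0, w0), ψ p.1 = η p.1 :=
      (continuous_fst.tendsto (z0, w0)).eventually h3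
    filter_upwards [hiff, h4] with p hp hp' h0
    rw [← hp', hp.1 h0]

end H719FX
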