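import Pool.Agent.H719R4.FX.Alg2

/-!
# AS2: an algebraic oval is analytic at some point
-/

open Complex Set Filter Topology Polynomial

open scoped Polynomial.Bivariate ContDiff

namespace H719FX

open H738CZ

theorem AS2_an (A : ℂ[X][Y]) (u : ℂ × ℂ) :
    AnalyticAt ℂ (fun p : ℂ × ℂ => A.evalEval p.1 p.2) u := by
  have h : (fun p : ℂ × ℂ => A.evalEval p.1 p.2) = fun p : ℂ × ℂ =>
      ∑ i ∈ Finset.range (A.natDegree + 1), (aeval p.1 (A.coeff i)) * p.2 ^ i := by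
    funext p
    unfold Polynomial.evalEval
    rw [Polynomial.eval_eq_sum_range (p := A), Polynomial.eval_finsetSum]
    refine Finset.sum_congr rfl fun i _ => ?_
    rw [Polynomial.eval_mul, Polynomial.eval_pow, Polynomial.eval_C, Polynomial.coe_aeval_eq_eval]
  rw [h]
  refine Finset.analyticAt_fun_sum _ fun i _ => ?_
  exact (AnalyticAt.aeval_polynomial analyticAt_fst (A.coeff i)).mul (analyticAt_snd.pow i)

theorem AS2_hasDeriv (A : ℂ[X][Y]) (z0 w0 : ℂ) :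
    HasDerivAt (fun w => A.evalEval z0 w) (A.derivative.evalEval z0 w0) w0 := by
  have h := (A.map (Polynomial.evalRingHom z0)).hasDerivAt w0
  rw [Polynomial.derivative_map, Polynomial.map_evalRingHom_eval] at h
  refine h.congr_of_eventuallyEq (Eventually.of_forall fun w => ?_)
  exact (Polynomial.map_evalRingHom_eval z0 w A).symm

theorem AS2_inv (A : ℂ[X][Y]) (z0 w0 : ℂ) (h : A.derivative.evalEval z0 w0 ≠ 0) :
    (fderiv ℂ (fun p : ℂ × ℂ => A.evalEval p.1 p.2) (z0, w0) ∘L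
      (ContinuousLinearMap.inr ℂ ℂ ℂ)).IsInvertible := by
  have hd : HasFDerivAt (fun p : ℂ × ℂ => A.evalEval p.1 p.2)
      (fderiv ℂ (fun p : ℂ × ℂ => A.evalEval p.1 p.2) (z0, w0)) (z0, w0) :=
    (AS2_an A (z0, w0)).differentiableAt.hasFDerivAt
  have h1 : HasDerivAt (fun w : ℂ => ((z0, w) : ℂ × ℂ)) ((0 : ℂ), (1 : ℂ)) w0 :=
    (hasDerivAt_const w0 z0).prodMk (hasDerivAt_id w0)
  have h2 := HasFDerivAt.comp_hasDerivAt w0 hd h1
  have h3 := h2.unique (AS2_hasDeriv A z0 w0)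
  refine ⟨ContinuousLinearEquiv.unitsEquivAut ℂ (Units.mk0 _ h), ?_⟩
  ext
  simp only [ContinuousLinearEquiv.coe_coe, ContinuousLinearEquiv.unitsEquivAut_apply,
    Units.val_mk0, one_mul, ContinuousLinearMap.comp_apply, ContinuousLinearMap.inr_apply]
  exact h3.symm

theorem AS2_imp (A : ℂ[X][Y]) (z0 w0 : ℂ) (hw0 : A.evalEval z0 w0 = 0)
    (h : A.derivative.evalEval z0 w0 ≠ 0) : ∃ ψ : ℂ → ℂ, AnalyticAt ℂ ψ z0 ∧
      ∀ᶠ p : ℂ × ℂ in 𝓝 (z0, w0), A.evalEval p.1 p.2 = 0 → p.2 = ψ p.1 := by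
  have hinv := AS2_inv A z0 w0 h
  have cdf : ContDiffAt ℂ ω (fun p : ℂ × ℂ => A.evalEval p.1 p.2) (z0, w0) :=
    (AS2_an A (z0, w0)).contDiffAt
  have hne : (ω : WithTop ℕ∞) ≠ 0 := by simp
  have hiff := cdf.eventually_apply_eq_iff_implicitFunction hne hinv
  have hcd := cdf.contDiffAt_implicitFunction hne hinv
  simp only at hiff hcd
  rw [hw0] at hiff
  refine ⟨_, hcd.analyticAt, ?_⟩
  filter_upwards [hiff] with p hp h0
  exact (hp.1 h0).symm

theorem AS2_const (γ : ℝ → ℂ) (ρ : ℝ → ℝ) (hγ : IsOval γ ρ) (s0 : ℝ) (c : ℂ)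
    (h : ∀ᶠ s in 𝓝 s0, γ s = c) : False := by
  have h1 : HasDerivAt γ 0 s0 :=
    (hasDerivAt_const s0 c).congr_of_eventuallyEq h
  have h2 := h1.unique (hγ.der s0)
  have h3 : (ρ s0 : ℂ) * I * cexp (s0 * I) ≠ 0 :=
    mul_ne_zero (mul_ne_zero (by exact_mod_cast (hγ.pos s0).ne') I_ne_zero) (exp_ne_zero _)
  exact h3 h2.symm

theorem AS2_zero (γ : ℝ → ℂ) (ρ : ℝ → ℝ) (hγ : IsOval γ ρ) (A : ℂ[X][Y]) (hA : A ≠ 0)
    (h0 : A.natDegree = 0) (a b : ℝ) (hab : a < b)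
    (h : ∀ s ∈ Ioo a b, A.evalEval (γ s) ((starRingEnd ℂ) (γ s)) = 0) : False := by
  obtain ⟨p, rfl⟩ := Polynomial.natDegree_eq_zero.1 h0
  have hp : p ≠ 0 := by
    rintro rfl
    exact hA (by simp)
  have h1 : ∀ s ∈ Ioo a b, p.IsRoot (γ s) := by
    intro s hs
    have := h s hs
    unfold Polynomial.evalEval at this
    rwa [Polynomial.eval_C] at this
  set s0 := (a + b) / 2 with hs0
  have hs0m : s0 ∈ Ioo a b := ⟨by rw [hs0]; linarith, by rw [hs0]; linarith⟩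
  have hfin : {x | p.IsRoot x}.Finite := Polynomial.finite_setOfPred_isRoot hp
  have hfin2 : ({x | p.IsRoot x} \ {γ s0}).Finite := hfin.sdiff
  have hop : ({x | p.IsRoot x} \ {γ s0})ᶜ ∈ 𝓝 (γ s0) :=
    hfin2.isClosed.isOpen_compl.mem_nhds fun hx => hx.2 rfl
  have hcont : ContinuousAt γ s0 := (hγ.der s0).continuousAt
  refine AS2_const γ ρ hγ s0 (γ s0) ?_
  filter_upwards [hcont.eventually hop, Ioo_mem_nhds hs0m.1 hs0m.2] with s hs hs2
  by_contra hne
  exact hs ⟨h1 s hs2, hne⟩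

theorem tAS2 : StAS2 := by
  intro γ ρ hγ A hA hAγ
  classical
  -- minimal degree
  have hex : ∃ n : ℕ, ∃ A1 : ℂ[X][Y], A1 ≠ 0 ∧ A1.natDegree = n ∧ ∃ a b : ℝ, a < b ∧
      ∀ s ∈ Ioo a b, A1.evalEval (γ s) ((starRingEnd ℂ) (γ s)) = 0 :=
    ⟨_, A, hA, rfl, 0, 1, zero_lt_one, fun s _ => hAγ s⟩
  obtain ⟨A1, hA1, hdeg, a, b, hab, h1⟩ := Nat.find_spec hex
  have hmin := fun m (hm : m < Nat.find hex) => Nat.find_min hex hm
  rcases Nat.eq_zero_or_pos (Nat.find hex) with hz | hpos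
  · exact (AS2_zero γ ρ hγ A1 hA1 (hdeg.trans hz) a b hab h1).elim
  have hd0 : A1.natDegree ≠ 0 := by omega
  have hdne : A1.derivative ≠ 0 := fun h => hd0 (Polynomial.derivative_eq_zero.1 h)
  have hdlt : A1.derivative.natDegree < Nat.find hex := by
    rw [← hdeg]
    exact Polynomial.natDegree_derivative_lt hd0
  have hs0 : ∃ s0 ∈ Ioo a b, A1.derivative.evalEval (γ s0) ((starRingEnd ℂ) (γ s0)) ≠ 0 := by
    by_contra hcon
    push Not at hcon
    exact hmin _ hdlt ⟨A1.derivative, hdne, rfl, a, b, hab, hcon⟩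
  obtain ⟨s0, hs0m, hs0d⟩ := hs0
  refine ⟨s0, ?_⟩
  obtain ⟨ψ, hψ, hψA⟩ := AS2_imp A1 (γ s0) ((starRingEnd ℂ) (γ s0)) (h1 s0 hs0m) hs0d
  have hcγ : ∀ s, ContinuousAt γ s := fun s => (hγ.der s).continuousAt
  have hder2 : ∀ s : ℝ, HasDerivAt (fun s => (starRingEnd ℂ) (γ s))
      ((ρ s : ℂ) * (-I) * cexp (-(s * I))) s := by
    intro s
    have h2 := (hγ.der s).star
    have e : star ((ρ s : ℂ) * I * cexp (s * I)) = (ρ s : ℂ) * (-I) * cexp (-(s * I)) := by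
      rw [star_def, map_mul, map_mul, ← exp_conj, map_mul, conj_ofReal, conj_I, conj_ofReal,
        show (s : ℂ) * -I = -(s * I) by ring]
    rw [e] at h2
    exact h2
  have hev1 : ∀ᶠ s in 𝓝 s0, (starRingEnd ℂ) (γ s) = ψ (γ s) := by
    have ht : Tendsto (fun s => ((γ s, (starRingEnd ℂ) (γ s)) : ℂ × ℂ)) (𝓝 s0)
        (𝓝 (γ s0, (starRingEnd ℂ) (γ s0))) :=
      ((hcγ s0).prodMk (hder2 s0).continuousAt)
    filter_upwards [ht.eventually hψA, Ioo_mem_nhds hs0m.1 hs0m.2] with s hs hs2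
    exact hs (h1 s hs2)
  have hρ : ∀ s, (ρ s : ℂ) ≠ 0 := fun s => by exact_mod_cast (hγ.pos s).ne'
  have hev2 : ∀ᶠ s in 𝓝 s0, deriv ψ (γ s) = -cexp (-(2 * s * I)) := by
    have han : ∀ᶠ s in 𝓝 s0, AnalyticAt ℂ ψ (γ s) :=
      (hcγ s0).eventually hψ.eventually_analyticAt
    filter_upwards [hev1.eventually_nhds, han] with s hs han
    have h3 : HasDerivAt (fun s => ψ (γ s)) (deriv ψ (γ s) * ((ρ s : ℂ) * I * cexp (s * I))) s :=
      HasDerivAt.comp s han.differentiableAt.hasDerivAt (hγ.der s)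
    have h4 := (hder2 s).unique (h3.congr_of_eventuallyEq hs)
    have h5 : cexp (s * I) * cexp (-(s * I)) = 1 := by rw [← exp_add]; simp
    have h6 : cexp (-(2 * s * I)) = cexp (-(s * I)) * cexp (-(s * I)) := by
      rw [← exp_add]
      congr 1
      ring
    have h7 : (ρ s : ℂ) * I * (deriv ψ (γ s) * cexp (s * I) + cexp (-(s * I))) = 0 := by
      linear_combination -h4
    have h8 : deriv ψ (γ s) * cexp (s * I) + cexp (-(s * I)) = 0 := by
      rcases mul_eq_zero.1 h7 with h | h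
      · exact absurd h (mul_ne_zero (hρ s) I_ne_zero)
      · exact h
    rw [h6]
    linear_combination cexp (-(s * I)) * h8 - deriv ψ (γ s) * h5
  -- second derivative
  have hψ1 : AnalyticAt ℂ (deriv ψ) (γ s0) := hψ.deriv
  have hE : ∀ s : ℝ, HasDerivAt (fun s : ℝ => -cexp (-(2 * (s : ℂ) * I)))
      (2 * I * cexp (-(2 * s * I))) s := by
    intro s
    have h2 : HasDerivAt (fun z : ℂ => -cexp (-(2 * z * I))) (2 * I * cexp (-(2 * s * I)))
        (s : ℂ) := by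
      have h3 : HasDerivAt (fun z : ℂ => (-(2 * I)) * z) ((-(2 * I)) * 1) (s : ℂ) :=
        (hasDerivAt_id (s : ℂ)).const_mul _
      have h4 : HasDerivAt (fun z : ℂ => (-1) * cexp ((-(2 * I)) * z))
          ((-1) * (cexp ((-(2 * I)) * (s : ℂ)) * ((-(2 * I)) * 1))) (s : ℂ) :=
        (h3.cexp).const_mul (-1)
      have e1 : (fun z : ℂ => -cexp (-(2 * z * I))) = fun z : ℂ => (-1) * cexp ((-(2 * I)) * z) := by
        funext z
        rw [show (-(2 * I)) * z = -(2 * z * I) by ring]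
        ring
      rw [e1]
      refine h4.congr_deriv ?_
      rw [show (-(2 * I)) * (s : ℂ) = -(2 * s * I) by ring]
      ring
    exact h2.comp_ofReal
  have hne2 : deriv (deriv ψ) (γ s0) ≠ 0 := by
    intro h0
    have h3 : HasDerivAt (fun s => deriv ψ (γ s))
        (deriv (deriv ψ) (γ s0) * ((ρ s0 : ℂ) * I * cexp (s0 * I))) s0 :=
      HasDerivAt.comp s0 hψ1.differentiableAt.hasDerivAt (hγ.der s0)
    have h4 := (hE s0).unique (h3.congr_of_eventuallyEq (hev2.mono fun s hs => hs.symm))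
    rw [h0, zero_mul] at h4
    exact mul_ne_zero (mul_ne_zero two_ne_zero I_ne_zero) (exp_ne_zero _) h4
  -- local inverse
  have cd : ContDiffAt ℂ ω (deriv ψ) (γ s0) := hψ1.contDiffAt
  have hfd : HasFDerivAt (deriv ψ)
      ((ContinuousLinearEquiv.unitsEquivAut ℂ (Units.mk0 _ hne2) : ℂ ≃L[ℂ] ℂ) : ℂ →L[ℂ] ℂ)
      (γ s0) := hψ1.differentiableAt.hasDerivAt.hasFDerivAt_equiv hne2
  have hne : (ω : WithTop ℕ∞) ≠ 0 := by simp
  have hinv := cd.to_localInverse hfd hne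
  have hleft := (cd.hasStrictFDerivAt' hfd hne).eventually_left_inverse
  have hev3 : ∀ᶠ s in 𝓝 s0, γ s = (cd.localInverse hfd hne) (-cexp (-(2 * (s : ℂ) * I))) := by
    filter_upwards [hev2, (hcγ s0).eventually hleft] with s hs hs2
    rw [← hs]
    exact hs2.symm
  have hE0 : deriv ψ (γ s0) = -cexp (-(2 * (s0 : ℂ) * I)) := hev2.self_of_nhds
  have hanI : AnalyticAt ℝ (cd.localInverse hfd hne) (-cexp (-(2 * (s0 : ℂ) * I))) := by
    rw [← hE0]
    exact hinv.analyticAt.restrictScalars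
  have hanE : AnalyticAt ℝ (fun s : ℝ => -cexp (-(2 * (s : ℂ) * I))) s0 := by
    have h2 : AnalyticAt ℂ (fun z : ℂ => -cexp (-(2 * z * I))) (s0 : ℂ) := by fun_prop
    exact h2.restrictScalars.comp_of_eq (Complex.ofRealCLM.analyticAt s0) rfl
  have hfin : AnalyticAt ℝ (fun s : ℝ => (cd.localInverse hfd hne) (-cexp (-(2 * (s : ℂ) * I)))) s0 :=
    hanI.comp_of_eq hanE rfl
  exact hfin.congr (hev3.mono fun s hs => hs.symm)

end H719FX
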