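import Pool.Agent.H719R4.FX.Geo
import Pool.Agent.H738R3.CZ.AVD

/-!
LC: propagation of good points in a disc.
-/

open Complex Set Filter Topology

namespace H719FX

open H738CZ

theorem LC_pair {Z W Φ ρ : ℂ → ℂ} {t : ℂ} (h : Pair Z W t Φ ρ) :
    deriv Z t ≠ 0 ∧ deriv W t ≠ 0 ∧ Wr Z W t ≠ 0 := by
  have hI : (I : ℂ) ≠ 0 := I_ne_zero
  set A : ℂ → ℂ := fun s => ρ (Φ s) * deriv Φ s with hA
  have hAt : A t ≠ 0 := mul_ne_zero h.nρ h.dΦ
  have hAa : AnalyticAt ℂ A t := (h.aρ.comp h.aΦ).mul h.aΦ.deriv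
  have hAd : HasDerivAt A (deriv A t) t := hAa.differentiableAt.hasDerivAt
  have hΦd : HasDerivAt Φ (deriv Φ t) t := h.aΦ.differentiableAt.hasDerivAt
  have hZ : deriv Z =ᶠ[𝓝 t] fun s => A s * (I * cexp (Φ s * I)) := h.eZ
  have hW : deriv W =ᶠ[𝓝 t] fun s => A s * (-(I * cexp (-(Φ s * I)))) := h.eW
  have hZ1 : deriv Z t = A t * (I * cexp (Φ t * I)) := hZ.eq_of_nhds
  have hW1 : deriv W t = A t * (-(I * cexp (-(Φ t * I)))) := hW.eq_of_nhds
  have hE1 : HasDerivAt (fun s => cexp (Φ s * I)) (cexp (Φ t * I) * (deriv Φ t * I)) t :=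
    (hΦd.mul_const I).cexp
  have hE2 : HasDerivAt (fun s => cexp (-(Φ s * I))) (cexp (-(Φ t * I)) * (-(deriv Φ t * I))) t :=
    ((hΦd.mul_const I).neg).cexp
  have hZ2 : deriv (deriv Z) t = deriv A t * (I * cexp (Φ t * I)) +
      A t * (I * (cexp (Φ t * I) * (deriv Φ t * I))) := by
    rw [hZ.deriv_eq]
    exact (hAd.mul (hE1.const_mul I)).deriv
  have hW2 : deriv (deriv W) t = deriv A t * (-(I * cexp (-(Φ t * I)))) +
      A t * (-(I * (cexp (-(Φ t * I)) * (-(deriv Φ t * I))))) := by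
    rw [hW.deriv_eq]
    exact (hAd.mul ((hE2.const_mul I).neg)).deriv
  have hee : cexp (Φ t * I) * cexp (-(Φ t * I)) = 1 := by
    rw [← Complex.exp_add]; simp
  refine ⟨?_, ?_, ?_⟩
  · rw [hZ1]
    exact mul_ne_zero hAt (mul_ne_zero hI (Complex.exp_ne_zero _))
  · rw [hW1]
    exact mul_ne_zero hAt (neg_ne_zero.2 (mul_ne_zero hI (Complex.exp_ne_zero _)))
  · have key : Wr Z W t = -2 * I * (A t) ^ 2 * deriv Φ t := by
      unfold Wr
      rw [hZ1, hW1, hZ2, hW2]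
      have hII : (I : ℂ) * I = -1 := I_mul_I
      have h3 : (I : ℂ) ^ 3 = -I := by rw [pow_succ, pow_two, hII]; ring
      linear_combination (-2 * I * A t ^ 2 * deriv Φ t) * (-(I ^ 2)) * hee * 1 +
        (A t ^ 2 * deriv Φ t) * 2 * h3
    rw [key]
    refine mul_ne_zero (mul_ne_zero (mul_ne_zero (by norm_num) hI) (pow_ne_zero 2 hAt)) h.dΦ

theorem LC_good {Z W : ℂ → ℂ} {t : ℂ} (h : GoodAt Z W t) :
    deriv Z t ≠ 0 ∧ deriv W t ≠ 0 ∧ Wr Z W t ≠ 0 := by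
  obtain ⟨Φ, ρ, hp, _⟩ := h
  exact LC_pair hp

theorem LC_diff {Z W : ℂ → ℂ} {U : Set ℂ} (hU : IsOpen U) (hZ : DifferentiableOn ℂ Z U)
    (hW : DifferentiableOn ℂ W U) :
    DifferentiableOn ℂ (fun t => deriv Z t * deriv W t * Wr Z W t) U := by
  have hZ1 := hZ.deriv hU
  have hW1 := hW.deriv hU
  have hZ2 := hZ1.deriv hU
  have hW2 := hW1.deriv hU
  unfold Wr
  exact (hZ1.mul hW1).mul ((hZ1.mul hW2).sub (hZ2.mul hW1))

theorem tLC (hSEG : StSEG) : StLC := by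
  intro Z W c r a b hZ hW ha hb hG h1 h2 h3
  obtain ⟨g1, g2, g3⟩ := LC_good hG
  have hf : DifferentiableOn ℂ (fun t => deriv Z t * deriv W t * Wr Z W t) (Metric.ball c r) :=
    LC_diff Metric.isOpen_ball hZ hW
  obtain ⟨p, hp1, hp2⟩ := tAVD (fun t => deriv Z t * deriv W t * Wr Z W t) c r a b hf ha hb
    (mul_ne_zero (mul_ne_zero g1 g2) g3) (mul_ne_zero (mul_ne_zero h1 h2) h3)
  have hU : IsOpen {t ∈ Metric.ball c r | (fun t => deriv Z t * deriv W t * Wr Z W t) t ≠ 0} :=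
    hf.continuousOn.isOpen_inter_preimage Metric.isOpen_ball isOpen_compl_singleton
  have hZ' : DifferentiableOn ℂ Z
      {t ∈ Metric.ball c r | (fun t => deriv Z t * deriv W t * Wr Z W t) t ≠ 0} :=
    hZ.mono fun t ht => ht.1
  have hW' : DifferentiableOn ℂ W
      {t ∈ Metric.ball c r | (fun t => deriv Z t * deriv W t * Wr Z W t) t ≠ 0} :=
    hW.mono fun t ht => ht.1
  have hn : ∀ t ∈ {t ∈ Metric.ball c r | (fun t => deriv Z t * deriv W t * Wr Z W t) t ≠ 0},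
      deriv Z t ≠ 0 ∧ deriv W t ≠ 0 ∧ Wr Z W t ≠ 0 := by
    intro t ht
    have h := ht.2
    simp only [ne_eq, mul_eq_zero, not_or] at h
    exact ⟨h.1.1, h.1.2, h.2⟩
  have s1 := hSEG Z W _ a p hU hZ' hW' hn hp1 hG
  exact hSEG Z W _ p b hU hZ' hW' hn hp2 s1

end H719FX
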