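import Pool.Agent.H719R4.FX.Alg
import Pool.Agent.H719R4.FX.LC

/-! # Algebraic ovals: start -/

open Complex Set Filter Topology Polynomial

open scoped Polynomial.Bivariate

namespace H719FX

open H738CZ

theorem AST_ne (γ : ℝ → ℂ) (ρ : ℝ → ℝ) (ho : IsOval γ ρ) (r : ℝ) (hr : 0 < r) :
    ∃ s ∈ Ioo (-r) r, ∃ t ∈ Ioo (-r) r, γ s ≠ γ t := by
  by_contra hcon
  push Not at hcon
  have h0 : (0 : ℝ) ∈ Ioo (-r) r := ⟨by linarith, hr⟩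
  have h1 : γ =ᶠ[𝓝 0] fun _ => γ 0 := by
    filter_upwards [Ioo_mem_nhds h0.1 h0.2] with t ht
    exact hcon t ht 0 h0
  have h6 := ho.der 0
  have h8 := h6.unique ((hasDerivAt_const (0 : ℝ) (γ 0)).congr_of_eventuallyEq h1)
  have h9 : (ρ 0 : ℂ) * I * cexp ((0 : ℝ) * I) ≠ 0 := by
    refine mul_ne_zero (mul_ne_zero ?_ I_ne_zero) (Complex.exp_ne_zero _)
    exact_mod_cast (ho.pos 0).ne'
  exact h9 h8

theorem tAST (hSTA : StSTA) (hSTZ : StSTZ) (hAEX : StAEX) : StAST := by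
  intro γ ρ ho K ε hε hK hrefl hnc hγ
  obtain ⟨Z, r1, hr1, hZ, hZγ⟩ := hAEX γ 0 (hγ 0)
  have hcγ : AnalyticAt ℝ (fun s => (starRingEnd ℂ) (γ s)) 0 :=
    (Complex.conjCLE.toContinuousLinearMap.analyticAt (γ 0)).comp (hγ 0)
  obtain ⟨W, r2, hr2, hW, hWγ⟩ := hAEX (fun s => (starRingEnd ℂ) (γ s)) 0 hcγ
  set r := min r1 r2 with hr
  have hrp : 0 < r := lt_min hr1 hr2
  have hb1 : Metric.ball (((0 : ℝ) : ℂ)) r ⊆ Metric.ball (((0 : ℝ) : ℂ)) r1 :=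
    Metric.ball_subset_ball (min_le_left _ _)
  have hb2 : Metric.ball (((0 : ℝ) : ℂ)) r ⊆ Metric.ball (((0 : ℝ) : ℂ)) r2 :=
    Metric.ball_subset_ball (min_le_right _ _)
  have hZ' := hZ.mono hb1
  have hW' := hW.mono hb2
  have hIoo : ∀ t ∈ Ioo (-r) r, (t : ℂ) ∈ Metric.ball (((0 : ℝ) : ℂ)) r := by
    intro t ht
    rw [Metric.mem_ball, Complex.ofReal_zero, dist_zero_right, Complex.norm_real,
      Real.norm_eq_abs, abs_lt]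
    exact ht
  obtain ⟨x, Φ, R, y, η, hx, hP, hΦ, hη, hR, hRρ⟩ := hSTZ γ ρ ho Z W ((0 : ℝ) : ℂ) r
    (fun t => t) (-r) r hZ' hW' continuousOn_id
    (fun t ht => ⟨hIoo t ht, hZγ t (hb1 (hIoo t ht)), hWγ t (hb2 (hIoo t ht))⟩)
    (AST_ne γ ρ ho r hrp)
  have hg : Good kcs R y := hSTA γ ρ ho K ε hε hK hrefl hnc R y η hη hR hRρ
  have hG : GoodAt Z W x := ⟨Φ, R, hP, by rw [hΦ]; exact hg⟩
  obtain ⟨g1, g2, g3⟩ := LC_good hG
  have hf : DifferentiableOn ℂ (fun t => deriv Z t * deriv W t * Wr Z W t)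
      (Metric.ball ((0 : ℝ) : ℂ) r) := LC_diff Metric.isOpen_ball hZ' hW'
  have hU : IsOpen {t ∈ Metric.ball ((0 : ℝ) : ℂ) r |
      (fun t => deriv Z t * deriv W t * Wr Z W t) t ≠ 0} :=
    hf.continuousOn.isOpen_inter_preimage Metric.isOpen_ball isOpen_compl_singleton
  obtain ⟨δ, hδ, hsub⟩ := Metric.isOpen_iff.1 hU (x : ℂ)
    ⟨hIoo x hx, mul_ne_zero (mul_ne_zero g1 g2) g3⟩
  have hs : Metric.ball (x : ℂ) δ ⊆ Metric.ball ((0 : ℝ) : ℂ) r := fun t ht => (hsub ht).1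
  refine ⟨x, Z, W, δ, hδ, hZ'.mono hs, hW'.mono hs, ?_, ?_, hG⟩
  · intro t ht
    exact ⟨hZγ t (hb1 (hs ht)), hWγ t (hb2 (hs ht))⟩
  · intro t ht
    have h := (hsub ht).2
    simp only [ne_eq, mul_eq_zero, not_or] at h
    exact ⟨h.1.1, h.1.2, h.2⟩

end H719FX
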