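import Pool.Agent.H719R4.FX.Alg

/-!
# AUN: uniqueness of lifts (helper298)
-/

set_option autoImplicit false

open Complex Set Filter Topology Polynomial

open scoped Polynomial.Bivariate

namespace H719FX

open H738CZ

theorem AUN_loc {n : ℕ} (ω : Fin n → ℂ → ℂ) {z0 : ℂ} {r : ℝ} (hr : 0 < r)
    (hω : ∀ i, DifferentiableOn ℂ (ω i) (Metric.ball z0 r))
    (hne : ∀ i j, i ≠ j → ω i z0 ≠ ω j z0) (f g : ℂ → ℂ) (x1 : ℂ) (hf : ContinuousAt f x1)
    (hfx : f x1 = z0) (hg : ContinuousAt g x1) (hl : ∀ᶠ y in 𝓝 x1, ∃ i, ω i (f y) = g y)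
    (i0 : Fin n) (hi0 : ω i0 z0 = g x1) : ∀ᶠ y in 𝓝 x1, ω i0 (f y) = g y := by
  have h1 : ∀ᶠ y in 𝓝 x1, ∀ i : Fin n, i ≠ i0 → ω i (f y) ≠ g y := by
    rw [Filter.eventually_all]
    intro i
    by_cases hi : i = i0
    · exact Filter.Eventually.of_forall (fun y h => absurd hi h)
    · have hc : ContinuousAt (fun y => ω i (f y)) x1 := by
        have h2 : ContinuousAt (ω i) (f x1) := by
          rw [hfx]
          exact ((hω i).differentiableAt (Metric.ball_mem_nhds z0 hr)).continuousAt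
        exact ContinuousAt.comp (g := ω i) (f := f) h2 hf
      have h3 : ω i (f x1) ≠ g x1 := by
        rw [hfx, ← hi0]
        exact hne i i0 hi
      have h4 : ∀ᶠ y in 𝓝 x1, ω i (f y) ≠ g y := hc.ne_iff_eventually_ne hg |>.mp h3
      filter_upwards [h4] with y hy _
      exact hy
  filter_upwards [h1, hl] with y hy1 hy2
  obtain ⟨i, hi⟩ := hy2
  by_cases h : i = i0
  · rw [← h]; exact hi
  · exact absurd hi (hy1 i h)

theorem tAUN (hASH : StASH) : StAUN := by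
  intro A B hA U f g1 g2 hU hconv hf hfB hg1 hg2 hlift a ha hab
  have hpre : IsPreconnected U := hconv.isPreconnected
  have hu : IsOpen {x | x ∈ U ∧ g1 x = g2 x} := by
    rw [isOpen_iff_mem_nhds]
    rintro x1 ⟨hx1, hx2⟩
    obtain ⟨r, n, ω, hr, hrB, hω, hne, hiff⟩ := hASH A B hA (f x1) (hfB x1 hx1)
    have hfc : ContinuousAt f x1 := hf.continuousAt (hU.mem_nhds hx1)
    have hg1c : ContinuousAt g1 x1 := hg1.continuousAt (hU.mem_nhds hx1)
    have hg2c : ContinuousAt g2 x1 := hg2.continuousAt (hU.mem_nhds hx1)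
    have hUe : ∀ᶠ y in 𝓝 x1, y ∈ U := hU.mem_nhds hx1
    have hbe : ∀ᶠ y in 𝓝 x1, f y ∈ Metric.ball (f x1) r := hfc (Metric.ball_mem_nhds _ hr)
    have hcen : f x1 ∈ Metric.ball (f x1) r := Metric.mem_ball_self hr
    obtain ⟨i0, hi0⟩ := (hiff _ hcen _).mp (hlift x1 hx1).1
    have hne0 : ∀ i j, i ≠ j → ω i (f x1) ≠ ω j (f x1) := fun i j hij => hne i j hij _ hcen
    have e1 := AUN_loc ω hr hω hne0 f g1 x1 hfc rfl hg1c (by
      filter_upwards [hUe, hbe] with y hy1 hy2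
      exact (hiff _ hy2 _).mp (hlift y hy1).1) i0 hi0
    have e2 := AUN_loc ω hr hω hne0 f g2 x1 hfc rfl hg2c (by
      filter_upwards [hUe, hbe] with y hy1 hy2
      exact (hiff _ hy2 _).mp (hlift y hy1).2) i0 (hi0.trans hx2)
    filter_upwards [hUe, e1, e2] with y hy1 hy2 hy3
    exact ⟨hy1, hy2.symm.trans hy3⟩
  have hv : IsOpen {x | x ∈ U ∧ g1 x ≠ g2 x} := by
    rw [isOpen_iff_mem_nhds]
    rintro x1 ⟨hx1, hx2⟩
    have hg1c : ContinuousAt g1 x1 := hg1.continuousAt (hU.mem_nhds hx1)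
    have hg2c : ContinuousAt g2 x1 := hg2.continuousAt (hU.mem_nhds hx1)
    have hUe : ∀ᶠ y in 𝓝 x1, y ∈ U := hU.mem_nhds hx1
    have h4 : ∀ᶠ y in 𝓝 x1, g1 y ≠ g2 y := hg1c.ne_iff_eventually_ne hg2c |>.mp hx2
    filter_upwards [hUe, h4] with y hy1 hy2
    exact ⟨hy1, hy2⟩
  have hsub : U ⊆ {x | x ∈ U ∧ g1 x = g2 x} := by
    refine IsPreconnected.subset_left_of_subset_union hu hv ?_ ?_ ?_ hpre
    · rw [Set.disjoint_left]
      rintro x ⟨_, h1⟩ ⟨_, h2⟩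
      exact h2 h1
    · intro x hx
      by_cases h : g1 x = g2 x
      · exact Or.inl ⟨hx, h⟩
      · exact Or.inr ⟨hx, h⟩
    · exact ⟨a, ha, ha, hab⟩
  intro x hx
  exact (hsub hx).2

end H719FX
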