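import Pool.Agent.H719R4.FX.Rat

/-!
# Algebraic ovals

Definitions and statements (`Prop`s) only; no proofs.  Seventh wave.
-/

open Complex Set Filter Topology Polynomial

open scoped Polynomial.Bivariate

namespace H719FX

open H738CZ

/-- an algebraic curve `A(z, w) = 0` and a finite set `B` of exceptional values of `z`
(`A.evalEval z w` is the value of `A`, a polynomial in `w` whose coefficients are polynomials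
in `z`) -/
structure ACurve (A : ℂ[X][Y]) (B : Set ℂ) : Prop where
  fin : B.Finite
  deg : 0 < A.natDegree
  lead : ∀ z ∉ B, A.leadingCoeff.eval z ≠ 0
  sep : ∀ z ∉ B, ∀ w, A.evalEval z w = 0 → A.derivative.evalEval z w ≠ 0
  flex : ∀ z ∉ B, ∀ ω : ℂ → ℂ, AnalyticAt ℂ ω z → (∀ᶠ x in 𝓝 z, A.evalEval x (ω x) = 0) →
    deriv ω z ≠ 0 ∧ deriv (deriv ω) z ≠ 0

/-- `ω` is a local sheet of the curve through `(z, w)` -/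
def Sheet (A : ℂ[X][Y]) (ω : ℂ → ℂ) (z w : ℂ) : Prop :=
  AnalyticAt ℂ ω z ∧ ω z = w ∧ ∀ᶠ x in 𝓝 z, A.evalEval x (ω x) = 0

/-- `(z, w)` is a good point of the curve -/
def AG (A : ℂ[X][Y]) (z w : ℂ) : Prop :=
  ∃ ω : ℂ → ℂ, Sheet A ω z w ∧ GoodAt (fun x => x) ω z

/-- a punctured disc -/
def PD (ε : ℝ) (N : ℕ) : Set ℂ := {t : ℂ | 0 < ‖t‖ ∧ ‖t‖ ^ N < ε}

/-- ALO: local sheets (implicit function theorem). -/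
def StALO : Prop := ∀ (A : ℂ[X][Y]) (B : Set ℂ), ACurve A B → ∀ z0 ∉ B, ∀ w0 : ℂ,
  A.evalEval z0 w0 = 0 → (∃ ω, Sheet A ω z0 w0) ∧
    ∀ ω, Sheet A ω z0 w0 → ∀ᶠ p : ℂ × ℂ in 𝓝 (z0, w0), A.evalEval p.1 p.2 = 0 → p.2 = ω p.1

/-- ASH: the curve is evenly covered outside `B` (from ALO). -/
def StASH : Prop := ∀ (A : ℂ[X][Y]) (B : Set ℂ), ACurve A B → ∀ z0 ∉ B,
  ∃ (r : ℝ) (n : ℕ) (ω : Fin n → ℂ → ℂ), 0 < r ∧ Metric.ball z0 r ⊆ Bᶜ ∧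
    (∀ i, DifferentiableOn ℂ (ω i) (Metric.ball z0 r)) ∧
    (∀ i j, i ≠ j → ∀ z ∈ Metric.ball z0 r, ω i z ≠ ω j z) ∧
    ∀ z ∈ Metric.ball z0 r, ∀ w, A.evalEval z w = 0 ↔ ∃ i, ω i z = w

/-- ACV: lifting (from ASH). -/
def StACV : Prop := ∀ (A : ℂ[X][Y]) (B : Set ℂ), ACurve A B → ∀ (U : Set ℂ) (f : ℂ → ℂ),
  IsOpen U → Convex ℝ U → DifferentiableOn ℂ f U → (∀ x ∈ U, f x ∉ B) →
  ∀ a ∈ U, ∀ w, A.evalEval (f a) w = 0 →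
    ∃ g : ℂ → ℂ, DifferentiableOn ℂ g U ∧ g a = w ∧ ∀ x ∈ U, A.evalEval (f x) (g x) = 0

/-- AUN: uniqueness of lifts (from ASH). -/
def StAUN : Prop := ∀ (A : ℂ[X][Y]) (B : Set ℂ), ACurve A B → ∀ (U : Set ℂ)
  (f g1 g2 : ℂ → ℂ), IsOpen U → Convex ℝ U → ContinuousOn f U → (∀ x ∈ U, f x ∉ B) →
  ContinuousOn g1 U → ContinuousOn g2 U →
  (∀ x ∈ U, A.evalEval (f x) (g1 x) = 0 ∧ A.evalEval (f x) (g2 x) = 0) →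
  ∀ a ∈ U, g1 a = g2 a → EqOn g1 g2 U

/-- AHP: places over a punctured disc (from ACV, AUN). -/
def StAHP : Prop := ∀ (A : ℂ[X][Y]) (B : Set ℂ), ACurve A B → ∀ (q : ℂ → ℂ) (ε : ℝ), 0 < ε →
  DifferentiableOn ℂ q (PD ε 1) → (∀ t ∈ PD ε 1, q t ∉ B) →
    ∃ (n : ℕ) (N : Fin n → ℕ) (W : Fin n → ℂ → ℂ),
      (∀ j, 1 ≤ N j ∧ DifferentiableOn ℂ (W j) (PD ε (N j)) ∧
        ∀ t ∈ PD ε (N j), A.evalEval (q (t ^ N j)) (W j t) = 0) ∧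
      ∀ s ∈ PD ε 1, ∀ w, A.evalEval (q s) w = 0 → ∃ (j : Fin n) (t : ℂ), t ^ N j = s ∧ W j t = w

/-- AME: places are meromorphic. -/
def StAME : Prop := ∀ (A : ℂ[X][Y]) (B : Set ℂ), ACurve A B → ∀ (q W : ℂ → ℂ) (ε : ℝ) (N : ℕ),
  0 < ε → 1 ≤ N → MeromorphicAt q 0 → (∀ t ∈ PD ε 1, q t ∉ B) →
  DifferentiableOn ℂ W (PD ε N) → (∀ t ∈ PD ε N, A.evalEval (q (t ^ N)) (W t) = 0) →
    MeromorphicAt W 0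

/-- AGR: good points and reparametrisation (from GRP). -/
def StAGR : Prop := ∀ (E ω : ℂ → ℂ) (s : ℂ), AnalyticAt ℂ E s → deriv E s ≠ 0 →
  AnalyticAt ℂ ω (E s) → (GoodAt E (fun x => ω (E x)) s ↔ GoodAt (fun x => x) ω (E s))

/-- AMI: covariance of `Mi` and `Wr`. -/
def StAMI : Prop := ∀ (E ω : ℂ → ℂ) (s : ℂ), AnalyticAt ℂ E s → AnalyticAt ℂ ω (E s) →
  Wr E (fun x => ω (E x)) s = deriv E s ^ 3 * Wr (fun x => x) ω (E s) ∧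
  Mi E (fun x => ω (E x)) s = deriv E s ^ 8 * Mi (fun x => x) ω (E s)

/-- AGS: good points propagate in convex sets (from SEG, AGR, ALO). -/
def StAGS : Prop := ∀ (A : ℂ[X][Y]) (B : Set ℂ), ACurve A B → ∀ (U : Set ℂ) (f g : ℂ → ℂ),
  IsOpen U → Convex ℝ U → DifferentiableOn ℂ f U → DifferentiableOn ℂ g U →
  (∀ x ∈ U, deriv f x ≠ 0 ∧ f x ∉ B ∧ A.evalEval (f x) (g x) = 0) →
  ∀ a ∈ U, AG A (f a) (g a) → ∀ b ∈ U, AG A (f b) (g b) ∧ GoodAt f g b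

/-- AGP: good points propagate in punctured discs (from AGS, GRP). -/
def StAGP : Prop := ∀ (A : ℂ[X][Y]) (B : Set ℂ), ACurve A B → ∀ (q W : ℂ → ℂ) (ε : ℝ) (N : ℕ),
  0 < ε → 1 ≤ N → DifferentiableOn ℂ q (PD ε 1) → (∀ t ∈ PD ε 1, deriv q t ≠ 0 ∧ q t ∉ B) →
  DifferentiableOn ℂ W (PD ε N) → (∀ t ∈ PD ε N, A.evalEval (q (t ^ N)) (W t) = 0) →
  ∀ t1 ∈ PD ε N, AG A (q (t1 ^ N)) (W t1) →
    ∀ t ∈ PD ε N, AG A (q (t ^ N)) (W t) ∧ GoodAt (fun x => q (x ^ N)) W t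

/-- ABD: uniform bound of the affine curvature near a point or infinity (from AHP, AME, AGP, PLC,
AMI, ALO). -/
def StABD : Prop := ∀ (A : ℂ[X][Y]) (B : Set ℂ), ACurve A B → ∀ (q : ℂ → ℂ) (ε : ℝ), 0 < ε →
  MeromorphicAt q 0 → DifferentiableOn ℂ q (PD ε 1) →
  (∀ t ∈ PD ε 1, deriv q t ≠ 0 ∧ q t ∉ B) →
    ∃ C ε' : ℝ, 0 < ε' ∧ ∀ s ∈ PD ε' 1, ∀ w, AG A (q s) w → ∀ ω, Sheet A ω (q s) w →
      ‖Mi (fun x => x) ω (q s)‖ ^ 3 ≤ C * ‖Wr (fun x => x) ω (q s)‖ ^ 8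

/-- ALI: Liouville's theorem with finitely many punctures. -/
def StALI : Prop := ∀ (B : Set ℂ) (P : ℂ → ℂ), B.Finite → DifferentiableOn ℂ P Bᶜ →
  (∀ b ∈ B, ∃ C : ℝ, ∀ᶠ z in 𝓝[≠] b, ‖P z‖ ≤ C) →
  (∃ C R : ℝ, ∀ z, R < ‖z‖ → ‖P z‖ ≤ C) → ∃ c, ∀ z ∉ B, P z = c

/-- AGL: the affine curvature of a good sheet is constant (from ALO, ASH, AGS, ABD, ALI). -/
def StAGL : Prop := ∀ (A : ℂ[X][Y]) (B : Set ℂ), ACurve A B → ∀ z0 ∉ B, ∀ (w0 : ℂ) (ω : ℂ → ℂ),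
  AG A z0 w0 → Sheet A ω z0 w0 → ∃ m0 : ℂ, ∀ᶠ x in 𝓝 z0,
    Mi (fun x => x) ω x ^ 3 = m0 * Wr (fun x => x) ω x ^ 8

/-- ABC: Bezout relation for a polynomial of minimal degree in a prime ideal. -/
def StABC : Prop := ∀ I : Ideal ℂ[X][Y], I.IsPrime → (∀ a : ℂ[X], C a ∈ I → a = 0) →
  ∀ A ∈ I, A ≠ 0 → (∀ A' ∈ I, A' ≠ 0 → A.natDegree ≤ A'.natDegree) →
  ∀ N ∉ I, ∃ (U V : ℂ[X][Y]) (D : ℂ[X]), D ≠ 0 ∧ U * A + V * N = C D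

/-- ABZ: a curve with its exceptional set (from ABC). -/
def StABZ : Prop := ∀ A : ℂ[X][Y], A ≠ 0 → ∀ (Z W : ℂ → ℂ) (c : ℂ) (r : ℝ), 0 < r →
  DifferentiableOn ℂ Z (Metric.ball c r) → DifferentiableOn ℂ W (Metric.ball c r) →
  (∀ t ∈ Metric.ball c r, deriv Z t ≠ 0 ∧ deriv W t ≠ 0 ∧ Wr Z W t ≠ 0 ∧
    A.evalEval (Z t) (W t) = 0) →
    ∃ (A' : ℂ[X][Y]) (B : Set ℂ), ACurve A' B ∧
      ∀ t ∈ Metric.ball c r, A'.evalEval (Z t) (W t) = 0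

/-- AEX: complex extension of a real analytic function. -/
def StAEX : Prop := ∀ (γ : ℝ → ℂ) (x : ℝ), AnalyticAt ℝ γ x →
  ∃ (Z : ℂ → ℂ) (r : ℝ), 0 < r ∧ DifferentiableOn ℂ Z (Metric.ball (x : ℂ) r) ∧
    ∀ t : ℝ, (t : ℂ) ∈ Metric.ball (x : ℂ) r → Z t = γ t

/-- AST: start (from STA, STZ, AEX). -/
def StAST : Prop := ∀ (γ : ℝ → ℂ) (ρ : ℝ → ℝ), IsOval γ ρ → ∀ (K : ℝ → ℝ → ℝ) (ε : ℝ), 0 < ε →
  AnalyticOnNhd ℝ (Function.uncurry K) {z | |z.2 - sup (γ z.1) z.1| < ε} →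
  (∀ s : ℝ, ∃ εs > 0, ∀ δ : ℝ, 0 < δ → δ < εs →
    K (s + δ) (sup (γ s) (s + δ)) = K (s - δ) (sup (γ s) (s - δ))) →
  (¬ ∃ c, ∀ φ p : ℝ, |p - sup (γ φ) φ| < ε → K φ p = c) →
  (∀ s : ℝ, AnalyticAt ℝ γ s) →
    ∃ (x : ℝ) (Z W : ℂ → ℂ) (r : ℝ), 0 < r ∧ DifferentiableOn ℂ Z (Metric.ball (x : ℂ) r) ∧
      DifferentiableOn ℂ W (Metric.ball (x : ℂ) r) ∧
      (∀ t : ℝ, (t : ℂ) ∈ Metric.ball (x : ℂ) r → Z t = γ t ∧ W t = (starRingEnd ℂ) (γ t)) ∧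
      (∀ t ∈ Metric.ball (x : ℂ) r, deriv Z t ≠ 0 ∧ deriv W t ≠ 0 ∧ Wr Z W t ≠ 0) ∧
      GoodAt Z W x

/-- AAX: the final theorem for algebraic ovals (from AST, LC, ABZ, AGR, AGL, CQU, CEL). -/
def StAAX : Prop := ∀ (γ : ℝ → ℂ) (ρ : ℝ → ℝ), IsOval γ ρ → ∀ (K : ℝ → ℝ → ℝ) (ε : ℝ), 0 < ε →
  AnalyticOnNhd ℝ (Function.uncurry K) {z | |z.2 - sup (γ z.1) z.1| < ε} →
  (∀ s : ℝ, ∃ εs > 0, ∀ δ : ℝ, 0 < δ → δ < εs →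
    K (s + δ) (sup (γ s) (s + δ)) = K (s - δ) (sup (γ s) (s - δ))) →
  (¬ ∃ c, ∀ φ p : ℝ, |p - sup (γ φ) φ| < ε → K φ p = c) →
  (∀ s : ℝ, AnalyticAt ℝ γ s) →
  ∀ A : ℂ[X][Y], A ≠ 0 → (∀ s : ℝ, A.evalEval (γ s) ((starRingEnd ℂ) (γ s)) = 0) →
    ∃ (c : ℂ) (a b d : ℝ), 0 < a ∧ 0 < a * d - b ^ 2 ∧
      Set.range γ = {x : ℂ | a * (x.re - c.re) ^ 2 + 2 * b * (x.re - c.re) * (x.im - c.im)
        + d * (x.im - c.im) ^ 2 = 1}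

end H719FX
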