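import Pool.Agent.H719R4.FX.Alg

/-!
# Smooth algebraic ovals

Definitions and statements (`Prop`s) only; no proofs.  Seventh wave, second part.
-/

open Complex Set Filter Topology Polynomial

open scoped Polynomial.Bivariate ContDiff

namespace H719FX

open H738CZ

/-- AS2: an algebraic oval is analytic at some point. -/
def StAS2 : Prop := ∀ (γ : ℝ → ℂ) (ρ : ℝ → ℝ), IsOval γ ρ → ∀ A : ℂ[X][Y], A ≠ 0 →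
  (∀ s : ℝ, A.evalEval (γ s) ((starRingEnd ℂ) (γ s)) = 0) → ∃ s0 : ℝ, AnalyticAt ℝ γ s0

/-- AT2: start at an analytic point (from STA, STZ, AEX; adapt AST). -/
def StAT2 : Prop := ∀ (γ : ℝ → ℂ) (ρ : ℝ → ℝ), IsOval γ ρ → ∀ (K : ℝ → ℝ → ℝ) (ε : ℝ), 0 < ε →
  AnalyticOnNhd ℝ (Function.uncurry K) {z | |z.2 - sup (γ z.1) z.1| < ε} →
  (∀ s : ℝ, ∃ εs > 0, ∀ δ : ℝ, 0 < δ → δ < εs →
    K (s + δ) (sup (γ s) (s + δ)) = K (s - δ) (sup (γ s) (s - δ))) →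
  (¬ ∃ c, ∀ φ p : ℝ, |p - sup (γ φ) φ| < ε → K φ p = c) →
  ∀ s0 : ℝ, AnalyticAt ℝ γ s0 →
    ∃ (x : ℝ) (Z W : ℂ → ℂ) (r : ℝ), 0 < r ∧ DifferentiableOn ℂ Z (Metric.ball (x : ℂ) r) ∧
      DifferentiableOn ℂ W (Metric.ball (x : ℂ) r) ∧
      (∀ t : ℝ, (t : ℂ) ∈ Metric.ball (x : ℂ) r → Z t = γ t ∧ W t = (starRingEnd ℂ) (γ t)) ∧
      (∀ t ∈ Metric.ball (x : ℂ) r, deriv Z t ≠ 0 ∧ deriv W t ≠ 0 ∧ Wr Z W t ≠ 0) ∧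
      GoodAt Z W x

/-- AFR: an algebraic relation between `z` and `q(z, w)` on the curve `A(z, w) = 0`. -/
def StAFR : Prop := ∀ A q : ℂ[X][Y], 0 < A.natDegree → ∃ R H : ℂ[X][Y], R ≠ 0 ∧
  R.comp q = A * H

/-- AFL: a polynomial relation extends along a smooth algebraic oval (from AFR). -/
def StAFL : Prop := ∀ (γ : ℝ → ℂ) (ρ : ℝ → ℝ), IsOval γ ρ → ContDiff ℝ ∞ γ →
  ∀ A : ℂ[X][Y], A ≠ 0 → (∀ s : ℝ, A.evalEval (γ s) ((starRingEnd ℂ) (γ s)) = 0) →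
  ∀ q : ℂ[X][Y], (∃ s0 : ℝ, ∀ᶠ s in 𝓝 s0, q.evalEval (γ s) ((starRingEnd ℂ) (γ s)) = 0) →
    ∀ s : ℝ, q.evalEval (γ s) ((starRingEnd ℂ) (γ s)) = 0

/-- AAY: the final theorem for smooth algebraic ovals (from AS2, AT2, LC, ABZ, AGR, AGL, CQU,
AFL, CEL; adapt AAX). -/
def StAAY : Prop := ∀ (γ : ℝ → ℂ) (ρ : ℝ → ℝ), IsOval γ ρ → ∀ (K : ℝ → ℝ → ℝ) (ε : ℝ), 0 < ε →
  AnalyticOnNhd ℝ (Function.uncurry K) {z | |z.2 - sup (γ z.1) z.1| < ε} →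
  (∀ s : ℝ, ∃ εs > 0, ∀ δ : ℝ, 0 < δ → δ < εs →
    K (s + δ) (sup (γ s) (s + δ)) = K (s - δ) (sup (γ s) (s - δ))) →
  (¬ ∃ c, ∀ φ p : ℝ, |p - sup (γ φ) φ| < ε → K φ p = c) →
  ContDiff ℝ ∞ γ →
  ∀ A : ℂ[X][Y], A ≠ 0 → (∀ s : ℝ, A.evalEval (γ s) ((starRingEnd ℂ) (γ s)) = 0) →
    ∃ (c : ℂ) (a b d : ℝ), 0 < a ∧ 0 < a * d - b ^ 2 ∧
      Set.range γ = {x : ℂ | a * (x.re - c.re) ^ 2 + 2 * b * (x.re - c.re) * (x.im - c.im)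
        + d * (x.im - c.im) ^ 2 = 1}

end H719FX
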