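import Pool.Agent.H719R4.FX.Rat

/-!
# CEL: an oval on a (complex) conic is an ellipse
-/

set_option autoImplicit false

open Complex Set Filter Topology

namespace H719FX.CEL

theorem facts (x y ρ : ℝ → ℝ) (hx : ∀ s, HasDerivAt x (-(ρ s * Real.sin s)) s)
    (hy : ∀ s, HasDerivAt y (ρ s * Real.cos s) s) (hρ : ∀ s, 0 < ρ s) (A B C D E F : ℝ)
    (hH : ∀ s, A * x s ^ 2 + B * (x s * y s) + C * y s ^ 2 + D * x s + E * y s + F = 0) :
    (∀ s, (B * x s + 2 * C * y s + E) * Real.cos s - (2 * A * x s + B * y s + D) * Real.sin s = 0) ∧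
    ∀ s, (2 * A * x s + B * y s + D) * Real.cos s + (B * x s + 2 * C * y s + E) * Real.sin s =
      2 * ρ s * (A * Real.sin s ^ 2 - B * (Real.sin s * Real.cos s) + C * Real.cos s ^ 2) := by
  have h1 : ∀ s, (B * x s + 2 * C * y s + E) * Real.cos s
      - (2 * A * x s + B * y s + D) * Real.sin s = 0 := by
    intro s
    have h2 : HasDerivAt (fun s => A * x s ^ 2 + B * (x s * y s) + C * y s ^ 2 + D * x s + E * y s + F)
        (A * (2 * x s * (-(ρ s * Real.sin s))) + B * ((-(ρ s * Real.sin s)) * y s + x s * (ρ s * Real.cos s))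
          + C * (2 * y s * (ρ s * Real.cos s)) + D * (-(ρ s * Real.sin s)) + E * (ρ s * Real.cos s)) s := by
      have := (((((((hx s).pow 2).const_mul A).add (((hx s).mul (hy s)).const_mul B)).add
        (((hy s).pow 2).const_mul C)).add ((hx s).const_mul D)).add ((hy s).const_mul E)).add_const F
      refine this.congr_deriv ?_
      push_cast
      ring
    have h3 : HasDerivAt (fun s => A * x s ^ 2 + B * (x s * y s) + C * y s ^ 2 + D * x s + E * y s + F)
        0 s := by
      have : (fun s => A * x s ^ 2 + B * (x s * y s) + C * y s ^ 2 + D * x s + E * y s + F)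
          = fun _ => 0 := funext hH
      rw [this]
      exact hasDerivAt_const _ _
    have h4 := h2.unique h3
    have h5 : ρ s * ((B * x s + 2 * C * y s + E) * Real.cos s
      - (2 * A * x s + B * y s + D) * Real.sin s) = 0 := by linarith
    rcases mul_eq_zero.mp h5 with h | h
    · exact absurd h (hρ s).ne'
    · exact h
  refine ⟨h1, fun s => ?_⟩
  have hP : HasDerivAt (fun s => 2 * A * x s + B * y s + D)
      (2 * A * (-(ρ s * Real.sin s)) + B * (ρ s * Real.cos s)) s :=
    (((hx s).const_mul (2 * A)).add ((hy s).const_mul B)).add_const D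
  have hQ : HasDerivAt (fun s => B * x s + 2 * C * y s + E)
      (B * (-(ρ s * Real.sin s)) + 2 * C * (ρ s * Real.cos s)) s :=
    (((hx s).const_mul B).add ((hy s).const_mul (2 * C))).add_const E
  have h2 := (hQ.mul (Real.hasDerivAt_cos s)).sub (hP.mul (Real.hasDerivAt_sin s))
  have h3 : HasDerivAt (fun s => (B * x s + 2 * C * y s + E) * Real.cos s
      - (2 * A * x s + B * y s + D) * Real.sin s) 0 s := by
    have : (fun s => (B * x s + 2 * C * y s + E) * Real.cos s
      - (2 * A * x s + B * y s + D) * Real.sin s) = fun _ => 0 := funext h1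
    rw [this]
    exact hasDerivAt_const _ _
  have h4 := h2.unique h3
  linarith

theorem signs (x y ρ : ℝ → ℝ) (hx : ∀ s, HasDerivAt x (-(ρ s * Real.sin s)) s)
    (hy : ∀ s, HasDerivAt y (ρ s * Real.cos s) s) (hρ : ∀ s, 0 < ρ s) (A B C D E F : ℝ)
    (hne : ¬ (A = 0 ∧ B = 0 ∧ C = 0 ∧ D = 0 ∧ E = 0 ∧ F = 0))
    (hH : ∀ s, A * x s ^ 2 + B * (x s * y s) + C * y s ^ 2 + D * x s + E * y s + F = 0) :
    (∀ s, 0 < A * Real.sin s ^ 2 - B * (Real.sin s * Real.cos s) + C * Real.cos s ^ 2) ∨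
    (∀ s, A * Real.sin s ^ 2 - B * (Real.sin s * Real.cos s) + C * Real.cos s ^ 2 < 0) := by
  obtain ⟨h1, h2⟩ := facts x y ρ hx hy hρ A B C D E F hH
  set N : ℝ → ℝ := fun s => A * Real.sin s ^ 2 - B * (Real.sin s * Real.cos s) + C * Real.cos s ^ 2 with hN
  set L : ℝ → ℝ := fun s => (2 * A * x s + B * y s + D) * Real.cos s
    + (B * x s + 2 * C * y s + E) * Real.sin s with hL
  have hNd : ∀ s, HasDerivAt N (2 * A * (Real.sin s * Real.cos s)
      - B * (Real.cos s ^ 2 - Real.sin s ^ 2) - 2 * C * (Real.sin s * Real.cos s)) s := by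
    intro s
    have := ((((Real.hasDerivAt_sin s).pow 2).const_mul A).sub
      (((Real.hasDerivAt_sin s).mul (Real.hasDerivAt_cos s)).const_mul B)).add
      (((Real.hasDerivAt_cos s).pow 2).const_mul C)
    refine this.congr_deriv ?_
    push_cast
    ring
  have hLd : ∀ s, HasDerivAt L (-(ρ s * (2 * A * (Real.sin s * Real.cos s)
      - B * (Real.cos s ^ 2 - Real.sin s ^ 2) - 2 * C * (Real.sin s * Real.cos s)))) s := by
    intro s
    have hP : HasDerivAt (fun s => 2 * A * x s + B * y s + D)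
        (2 * A * (-(ρ s * Real.sin s)) + B * (ρ s * Real.cos s)) s :=
      (((hx s).const_mul (2 * A)).add ((hy s).const_mul B)).add_const D
    have hQ : HasDerivAt (fun s => B * x s + 2 * C * y s + E)
        (B * (-(ρ s * Real.sin s)) + 2 * C * (ρ s * Real.cos s)) s :=
      (((hx s).const_mul B).add ((hy s).const_mul (2 * C))).add_const E
    have := (hP.mul (Real.hasDerivAt_cos s)).add (hQ.mul (Real.hasDerivAt_sin s))
    refine this.congr_deriv ?_
    have := h1 s
    linarith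
  have hK : ∀ s, HasDerivAt (fun s => L s ^ 2 * N s) 0 s := by
    intro s
    have := ((hLd s).pow 2).mul (hNd s)
    refine this.congr_deriv ?_
    have h3 : L s = 2 * ρ s * N s := h2 s
    rw [Pi.pow_apply, h3]
    push_cast
    ring
  have hconst : ∀ s, L s ^ 2 * N s = L 0 ^ 2 * N 0 := fun s =>
    is_const_of_deriv_eq_zero (f := fun s => L s ^ 2 * N s) (fun s => (hK s).differentiableAt)
      (fun s => (hK s).deriv) s 0
  have hcube : ∀ s, 4 * ρ s ^ 2 * N s ^ 3 = L 0 ^ 2 * N 0 := by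
    intro s
    rw [← hconst s]
    have h3 : L s = 2 * ρ s * N s := h2 s
    rw [h3]; ring
  rcases lt_trichotomy (L 0 ^ 2 * N 0) 0 with h | h | h
  · right
    intro s
    have h3 := hcube s
    have h4 : 0 < 4 * ρ s ^ 2 := by have := hρ s; positivity
    have h5 : N s ^ 3 < 0 := by
      by_contra h6
      push Not at h6
      have := mul_nonneg h4.le h6
      linarith
    exact (Odd.pow_neg_iff (by decide : Odd 3)).mp h5
  · exfalso
    have hN0 : ∀ s, N s = 0 := by
      intro s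
      have h3 := hcube s
      have h4 : 4 * ρ s ^ 2 ≠ 0 := by have := hρ s; positivity
      rw [h] at h3
      rcases mul_eq_zero.mp h3 with h5 | h5
      · exact absurd h5 h4
      · exact pow_eq_zero_iff (by norm_num) |>.mp h5
    have hC : C = 0 := by have := hN0 0; simpa [hN] using this
    have hA : A = 0 := by have := hN0 (Real.pi / 2); simpa [hN] using this
    have hB : B = 0 := by
      have h3 := hN0 (Real.pi / 4)
      simp only [hN, hA, hC, Real.sin_pi_div_four, Real.cos_pi_div_four] at h3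
      have h4 : (0 : ℝ) < Real.sqrt 2 := by positivity
      have h5 : B * (Real.sqrt 2 / 2 * (Real.sqrt 2 / 2)) = 0 := by linarith
      rcases mul_eq_zero.mp h5 with h6 | h6
      · exact h6
      · exfalso
        have : 0 < Real.sqrt 2 / 2 * (Real.sqrt 2 / 2) := by positivity
        linarith
    have h3 := h1 0
    have h4 := h2 0
    have h5 := hH 0
    have h6 := h1 (Real.pi / 2)
    have h7 := h2 (Real.pi / 2)
    simp only [hA, hB, hC, Real.cos_zero, Real.sin_zero, Real.cos_pi_div_two, Real.sin_pi_div_two] at h3 h4 h5 h6 h7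
    have hD : D = 0 := by linarith
    have hE : E = 0 := by linarith
    have hF : F = 0 := by rw [hD, hE] at h5; linarith
    exact hne ⟨hA, hB, hC, hD, hE, hF⟩
  · left
    intro s
    have h3 := hcube s
    have h4 : 0 < 4 * ρ s ^ 2 := by have := hρ s; positivity
    have h5 : 0 < N s ^ 3 := by
      by_contra h6
      push Not at h6
      have := mul_nonpos_of_nonneg_of_nonpos h4.le h6
      linarith
    exact (Odd.pow_pos_iff (by decide : Odd 3)).mp h5

theorem core1 (x y ρ : ℝ → ℝ) (hx : ∀ s, HasDerivAt x (-(ρ s * Real.sin s)) s)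
    (hy : ∀ s, HasDerivAt y (ρ s * Real.cos s) s) (hρ : ∀ s, 0 < ρ s) (A B C D E F : ℝ)
    (hH : ∀ s, A * x s ^ 2 + B * (x s * y s) + C * y s ^ 2 + D * x s + E * y s + F = 0)
    (hN : ∀ s, 0 < A * Real.sin s ^ 2 - B * (Real.sin s * Real.cos s) + C * Real.cos s ^ 2) :
    ∃ x0 y0 a b d : ℝ, 0 < a ∧ 0 < a * d - b ^ 2 ∧ ∀ u v : ℝ, (∃ s, x s = u ∧ y s = v) ↔
      a * (u - x0) ^ 2 + 2 * b * (u - x0) * (v - y0) + d * (v - y0) ^ 2 = 1 := by
  obtain ⟨h1, h2⟩ := facts x y ρ hx hy hρ A B C D E F hH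
  have hA : 0 < A := by have := hN (Real.pi / 2); simpa using this
  have hC : 0 < C := by have := hN 0; simpa using this
  have hΔ : 0 < 4 * A * C - B ^ 2 := by
    have hz : (⟨2 * A, B⟩ : ℂ) ≠ 0 := by
      intro h
      have := congrArg Complex.re h
      simp at this
      linarith
    have h3 := hN (Complex.arg ⟨2 * A, B⟩)
    rw [Complex.cos_arg hz, Complex.sin_arg] at h3
    have h4 : 0 < ‖(⟨2 * A, B⟩ : ℂ)‖ := norm_pos_iff.mpr hz
    set n := ‖(⟨2 * A, B⟩ : ℂ)‖
    simp only at h3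
    have h5 : A * (B / n) ^ 2 - B * (B / n * (2 * A / n)) + C * (2 * A / n) ^ 2
        = A * (4 * A * C - B ^ 2) / n ^ 2 := by
      field_simp
      ring
    rw [h5] at h3
    have h6 : 0 < A * (4 * A * C - B ^ 2) := by
      by_contra h7
      push Not at h7
      have := div_nonpos_of_nonpos_of_nonneg h7 (by positivity : (0 : ℝ) ≤ n ^ 2)
      linarith
    exact (mul_pos_iff_of_pos_left hA).mp h6
  set Δ := 4 * A * C - B ^ 2 with hΔdef
  obtain ⟨x0, y0, hx0, hy0⟩ : ∃ x0 y0 : ℝ, 2 * A * x0 + B * y0 = -D ∧ B * x0 + 2 * C * y0 = -E := by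
    refine ⟨(B * E - 2 * C * D) / Δ, (B * D - 2 * A * E) / Δ, ?_, ?_⟩
    · field_simp
      rw [hΔdef]; ring
    · field_simp
      rw [hΔdef]; ring
  set m := A * x0 ^ 2 + B * (x0 * y0) + C * y0 ^ 2 - F with hm
  have hform : ∀ s, A * (x s - x0) ^ 2 + B * ((x s - x0) * (y s - y0)) + C * (y s - y0) ^ 2 = m := by
    intro s
    have h3 := hH s
    have h4 : A * (x s - x0) ^ 2 + B * ((x s - x0) * (y s - y0)) + C * (y s - y0) ^ 2
      = (A * x s ^ 2 + B * (x s * y s) + C * y s ^ 2) - x s * (2 * A * x0 + B * y0)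
        - y s * (B * x0 + 2 * C * y0) + (A * x0 ^ 2 + B * (x0 * y0) + C * y0 ^ 2) := by ring
    rw [h4, hx0, hy0, hm]
    linarith
  have hP : ∀ s, 2 * A * x s + B * y s + D = 2 * A * (x s - x0) + B * (y s - y0) := by
    intro s; linarith
  have hQ : ∀ s, B * x s + 2 * C * y s + E = B * (x s - x0) + 2 * C * (y s - y0) := by
    intro s; linarith
  have hmpos : 0 < m := by
    have h3 := h2 0
    have h4 : 0 < 2 * ρ 0 * (A * Real.sin 0 ^ 2 - B * (Real.sin 0 * Real.cos 0) + C * Real.cos 0 ^ 2) :=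
      mul_pos (mul_pos two_pos (hρ 0)) (hN 0)
    rw [← h3, Real.cos_zero, Real.sin_zero, mul_one, mul_zero, add_zero, hP 0] at h4
    have h5 : 4 * A * m = (2 * A * (x 0 - x0) + B * (y 0 - y0)) ^ 2 + Δ * (y 0 - y0) ^ 2 := by
      rw [← hform 0, hΔdef]; ring
    have h6 : 0 < 4 * A * m := by
      rw [h5]
      have := pow_pos h4 2
      have := mul_nonneg hΔ.le (sq_nonneg (y 0 - y0))
      linarith
    exact (mul_pos_iff_of_pos_left (by positivity : 0 < 4 * A)).mp h6
  refine ⟨x0, y0, A / m, B / (2 * m), C / m, div_pos hA hmpos, ?_, ?_⟩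
  · have : A / m * (C / m) - (B / (2 * m)) ^ 2 = Δ / (4 * m ^ 2) := by
      rw [hΔdef]; field_simp; ring
    rw [this]
    positivity
  · intro u v
    have heq : A / m * (u - x0) ^ 2 + 2 * (B / (2 * m)) * (u - x0) * (v - y0) + C / m * (v - y0) ^ 2
        = (A * (u - x0) ^ 2 + B * ((u - x0) * (v - y0)) + C * (v - y0) ^ 2) / m := by
      field_simp
    rw [heq, div_eq_one_iff_eq hmpos.ne']
    constructor
    · rintro ⟨s, rfl, rfl⟩
      exact hform s
    · intro hUV
      set U := u - x0 with hU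
      set V := v - y0 with hV
      set p := 2 * A * U + B * V with hp
      set q := B * U + 2 * C * V with hq
      have hz : (⟨p, q⟩ : ℂ) ≠ 0 := by
        intro h
        have hp0 : p = 0 := congrArg Complex.re h
        have hq0 : q = 0 := congrArg Complex.im h
        have : 2 * m = p * U + q * V := by rw [← hUV, hp, hq]; ring
        rw [hp0, hq0] at this
        linarith
      have hμ : 0 < ‖(⟨p, q⟩ : ℂ)‖ := norm_pos_iff.mpr hz
      have hcos := Complex.cos_arg hz
      have hsin := Complex.sin_arg (⟨p, q⟩ : ℂ)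
      set μ := ‖(⟨p, q⟩ : ℂ)‖
      set s := Complex.arg ⟨p, q⟩
      simp only at hcos hsin
      have hc' : μ * Real.cos s = p := by rw [hcos]; field_simp
      have hs' : μ * Real.sin s = q := by rw [hsin]; field_simp
      have h3 := h1 s
      have h4 := h2 s
      rw [hP s, hQ s] at h3 h4
      have hL : 0 < 2 * ρ s * (A * Real.sin s ^ 2 - B * (Real.sin s * Real.cos s) + C * Real.cos s ^ 2) :=
        mul_pos (mul_pos two_pos (hρ s)) (hN s)
      set L := 2 * ρ s * (A * Real.sin s ^ 2 - B * (Real.sin s * Real.cos s) + C * Real.cos s ^ 2)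
      set X := x s - x0 with hX
      set Y := y s - y0 with hY
      have hsc := Real.sin_sq_add_cos_sq s
      have h5 : 2 * A * X + B * Y = L * Real.cos s := by
        rw [← h4]
        linear_combination (-(2 * A * X + B * Y)) * hsc - Real.sin s * h3
      have h6 : B * X + 2 * C * Y = L * Real.sin s := by
        rw [← h4]
        linear_combination (-(B * X + 2 * C * Y)) * hsc + Real.cos s * h3
      have h7 : 2 * A * (μ * X - L * U) + B * (μ * Y - L * V) = 0 := by
        have : 2 * A * (μ * X - L * U) + B * (μ * Y - L * V)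
          = μ * (2 * A * X + B * Y) - L * p := by rw [hp]; ring
        rw [this, h5, ← hc']; ring
      have h8 : B * (μ * X - L * U) + 2 * C * (μ * Y - L * V) = 0 := by
        have : B * (μ * X - L * U) + 2 * C * (μ * Y - L * V)
          = μ * (B * X + 2 * C * Y) - L * q := by rw [hq]; ring
        rw [this, h6, ← hs']; ring
      have h9 : Δ * (μ * X - L * U) = 0 := by
        rw [hΔdef]; linear_combination 2 * C * h7 - B * h8
      have h10 : Δ * (μ * Y - L * V) = 0 := by
        rw [hΔdef]; linear_combination 2 * A * h8 - B * h7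
      have h11 : μ * X = L * U := by
        rcases mul_eq_zero.mp h9 with h | h
        · exact absurd h hΔ.ne'
        · linarith
      have h12 : μ * Y = L * V := by
        rcases mul_eq_zero.mp h10 with h | h
        · exact absurd h hΔ.ne'
        · linarith
      have h13 : μ ^ 2 * m = L ^ 2 * m := by
        have e1 : μ ^ 2 * m = A * (μ * X) ^ 2 + B * ((μ * X) * (μ * Y)) + C * (μ * Y) ^ 2 := by
          rw [← hform s]; ring
        rw [e1, h11, h12, ← hUV]; ring
      have h14 : μ = L := by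
        have h15 : μ ^ 2 = L ^ 2 := mul_right_cancel₀ hmpos.ne' h13
        exact (pow_left_inj₀ hμ.le hL.le (by norm_num)).mp h15
      rw [h14] at h11 h12
      have h16 : X = U := mul_left_cancel₀ hL.ne' h11
      have h17 : Y = V := mul_left_cancel₀ hL.ne' h12
      exact ⟨s, by linarith, by linarith⟩

theorem core (x y ρ : ℝ → ℝ) (hx : ∀ s, HasDerivAt x (-(ρ s * Real.sin s)) s)
    (hy : ∀ s, HasDerivAt y (ρ s * Real.cos s) s) (hρ : ∀ s, 0 < ρ s) (A B C D E F : ℝ)
    (hne : ¬ (A = 0 ∧ B = 0 ∧ C = 0 ∧ D = 0 ∧ E = 0 ∧ F = 0))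
    (hH : ∀ s, A * x s ^ 2 + B * (x s * y s) + C * y s ^ 2 + D * x s + E * y s + F = 0) :
    ∃ x0 y0 a b d : ℝ, 0 < a ∧ 0 < a * d - b ^ 2 ∧ ∀ u v : ℝ, (∃ s, x s = u ∧ y s = v) ↔
      a * (u - x0) ^ 2 + 2 * b * (u - x0) * (v - y0) + d * (v - y0) ^ 2 = 1 := by
  rcases signs x y ρ hx hy hρ A B C D E F hne hH with h | h
  · exact core1 x y ρ hx hy hρ A B C D E F hH h
  · refine core1 x y ρ hx hy hρ (-A) (-B) (-C) (-D) (-E) (-F) (fun s => ?_) (fun s => ?_)
    · have := hH s; linarith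
    · have := h s; linarith

theorem final (γ : ℝ → ℂ) (ρ : ℝ → ℝ) (hρ : ∀ s, 0 < ρ s)
    (hder : ∀ s : ℝ, HasDerivAt γ ((ρ s : ℂ) * I * cexp (s * I)) s) (q0 q1 q2 q3 q4 q5 : ℂ)
    (hne : ¬ (q0 = 0 ∧ q1 = 0 ∧ q2 = 0 ∧ q3 = 0 ∧ q4 = 0 ∧ q5 = 0))
    (hq : ∀ φ : ℝ, q0 * γ φ ^ 2 + q1 * γ φ * (starRingEnd ℂ) (γ φ) + q2 * (starRingEnd ℂ) (γ φ) ^ 2
      + q3 * γ φ + q4 * (starRingEnd ℂ) (γ φ) + q5 = 0) :
    ∃ (c : ℂ) (a b d : ℝ), 0 < a ∧ 0 < a * d - b ^ 2 ∧
      Set.range γ = {x : ℂ | a * (x.re - c.re) ^ 2 + 2 * b * (x.re - c.re) * (x.im - c.im)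
        + d * (x.im - c.im) ^ 2 = 1} := by
  have hx : ∀ s, HasDerivAt (fun s => (γ s).re) (-(ρ s * Real.sin s)) s := by
    intro s
    have h := (Complex.reCLM.hasFDerivAt (x := γ s)).comp_hasDerivAt s (hder s)
    refine h.congr_deriv ?_
    simp [Complex.mul_re, Complex.exp_ofReal_mul_I_im, Complex.exp_ofReal_mul_I_re]
  have hy : ∀ s, HasDerivAt (fun s => (γ s).im) (ρ s * Real.cos s) s := by
    intro s
    have h := (Complex.imCLM.hasFDerivAt (x := γ s)).comp_hasDerivAt s (hder s)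
    refine h.congr_deriv ?_
    simp [Complex.mul_im, Complex.exp_ofReal_mul_I_im, Complex.exp_ofReal_mul_I_re]
  set A : ℂ := q0 + q1 + q2 with hA
  set B : ℂ := 2 * I * (q0 - q2) with hB
  set C : ℂ := q1 - q0 - q2 with hC
  set D : ℂ := q3 + q4 with hD
  set E : ℂ := I * (q3 - q4) with hE
  have hne' : ¬ (A = 0 ∧ B = 0 ∧ C = 0 ∧ D = 0 ∧ E = 0 ∧ q5 = 0) := by
    rintro ⟨h1, h2, h3, h4, h5, h6⟩
    apply hne
    have h7 : q0 - q2 = 0 := by
      rcases mul_eq_zero.mp h2 with h | h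
      · exact absurd h (by simp)
      · exact h
    have h8 : q3 - q4 = 0 := by
      rcases mul_eq_zero.mp h5 with h | h
      · exact absurd h I_ne_zero
      · exact h
    have e1 : q1 = 0 := by linear_combination (h1 + h3) / 2
    have e0 : q0 = 0 := by linear_combination (h1 - h3) / 4 + h7 / 2
    have e2 : q2 = 0 := by linear_combination (h1 - h3) / 4 - h7 / 2
    have e3 : q3 = 0 := by linear_combination (h4 + h8) / 2
    have e4 : q4 = 0 := by linear_combination (h4 - h8) / 2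
    exact ⟨e0, e1, e2, e3, e4, h6⟩
  have hH : ∀ s, A * ((γ s).re : ℂ) ^ 2 + B * (((γ s).re : ℂ) * ((γ s).im : ℂ)) + C * ((γ s).im : ℂ) ^ 2
      + D * ((γ s).re : ℂ) + E * ((γ s).im : ℂ) + q5 = 0 := by
    intro s
    have h := hq s
    have e1 : γ s = ((γ s).re : ℂ) + ((γ s).im : ℂ) * I := (Complex.re_add_im (γ s)).symm
    have e2 : (starRingEnd ℂ) (γ s) = ((γ s).re : ℂ) - ((γ s).im : ℂ) * I := by
      apply Complex.ext <;> simp
    rw [e2] at h
    generalize ((γ s).re : ℂ) = X at *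
    generalize ((γ s).im : ℂ) = Y at *
    rw [e1] at h
    rw [← h, hA, hB, hC, hD, hE]
    linear_combination (-(q0 * Y ^ 2) + q1 * Y ^ 2 - q2 * Y ^ 2) * I_sq
  have hre : ∀ s, A.re * (γ s).re ^ 2 + B.re * ((γ s).re * (γ s).im) + C.re * (γ s).im ^ 2
      + D.re * (γ s).re + E.re * (γ s).im + q5.re = 0 := by
    intro s
    have h := congrArg Complex.re (hH s)
    simpa [← Complex.ofReal_pow, ← Complex.ofReal_mul, Complex.re_mul_ofReal] using h
  have him : ∀ s, A.im * (γ s).re ^ 2 + B.im * ((γ s).re * (γ s).im) + C.im * (γ s).im ^ 2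
      + D.im * (γ s).re + E.im * (γ s).im + q5.im = 0 := by
    intro s
    have h := congrArg Complex.im (hH s)
    simpa [← Complex.ofReal_pow, ← Complex.ofReal_mul, Complex.im_mul_ofReal] using h
  have key : ∃ x0 y0 a b d : ℝ, 0 < a ∧ 0 < a * d - b ^ 2 ∧ ∀ u v : ℝ,
      (∃ s, (γ s).re = u ∧ (γ s).im = v) ↔
      a * (u - x0) ^ 2 + 2 * b * (u - x0) * (v - y0) + d * (v - y0) ^ 2 = 1 := by
    by_cases h0 : A.re = 0 ∧ B.re = 0 ∧ C.re = 0 ∧ D.re = 0 ∧ E.re = 0 ∧ q5.re = 0
    · refine core _ _ ρ hx hy hρ A.im B.im C.im D.im E.im q5.im ?_ him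
      rintro ⟨g1, g2, g3, g4, g5, g6⟩
      obtain ⟨f1, f2, f3, f4, f5, f6⟩ := h0
      exact hne' ⟨Complex.ext f1 g1, Complex.ext f2 g2, Complex.ext f3 g3, Complex.ext f4 g4,
        Complex.ext f5 g5, Complex.ext f6 g6⟩
    · exact core _ _ ρ hx hy hρ A.re B.re C.re D.re E.re q5.re h0 hre
  obtain ⟨x0, y0, a, b, d, ha, hd, hiff⟩ := key
  refine ⟨⟨x0, y0⟩, a, b, d, ha, hd, ?_⟩
  ext z
  simp only [Set.mem_range, Set.mem_ofPred_eq]
  rw [← hiff z.re z.im]
  exact exists_congr fun s => Complex.ext_iff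

end H719FX.CEL

namespace H719FX

open H738CZ

theorem tCEL : StCEL := fun γ ρ h q0 q1 q2 q3 q4 q5 hne hq =>
  CEL.final γ ρ h.pos h.der q0 q1 q2 q3 q4 q5 hne hq

end H719FX
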