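import Pool.Agent.H719R4.FX.LC

/-!
CH2: propagation of good points along a chain of discs.
-/

open Complex Set Filter Topology

namespace H719FX

open H738CZ

theorem CH2_pair {Z W Z' W' Φ ρ : ℂ → ℂ} {t : ℂ} (h : Pair Z W t Φ ρ) (hZ : Z' =ᶠ[𝓝 t] Z)
    (hW : W' =ᶠ[𝓝 t] W) : Pair Z' W' t Φ ρ where
  aΦ := h.aΦ
  aρ := h.aρ
  dΦ := h.dΦ
  nρ := h.nρ
  eZ := by
    filter_upwards [hZ.deriv, h.eZ] with s h1 h2
    rw [h1, h2]
  eW := by
    filter_upwards [hW.deriv, h.eW] with s h1 h2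
    rw [h1, h2]

theorem CH2_good {Z W Z' W' : ℂ → ℂ} {t : ℂ} (h : GoodAt Z W t) (hZ : Z' =ᶠ[𝓝 t] Z)
    (hW : W' =ᶠ[𝓝 t] W) : GoodAt Z' W' t := by
  obtain ⟨Φ, ρ, hp, hg⟩ := h
  exact ⟨Φ, ρ, CH2_pair hp hZ hW, hg⟩

theorem tCH2 (hLC : StLC) : StCH2 := by
  intro n a r Z W hC h0
  have key : ∀ i, i ≤ n → ∃ z ∈ Metric.ball (a i) (r i), GoodAt (Z i) (W i) z := by
    intro i
    induction i with
    | zero => intro _; exact h0
    | succ i ih =>
      intro hi
      obtain ⟨z, hz, hg⟩ := ih (by omega)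
      have hZi := hC.dZ i (by omega)
      have hWi := hC.dW i (by omega)
      obtain ⟨g1, g2, g3⟩ := LC_good hg
      set f : ℂ → ℂ := fun t => deriv (Z i) t * deriv (W i) t * Wr (Z i) (W i) t with hf
      have hfd : DifferentiableOn ℂ f (Metric.ball (a i) (r i)) :=
        LC_diff Metric.isOpen_ball hZi hWi
      have hfa : AnalyticOnNhd ℂ f (Metric.ball (a i) (r i)) :=
        hfd.analyticOnNhd Metric.isOpen_ball
      have hfz : f z ≠ 0 := mul_ne_zero (mul_ne_zero g1 g2) g3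
      obtain ⟨p, hp⟩ := hC.ne i (by omega)
      have hO : IsOpen (Metric.ball (a i) (r i) ∩ Metric.ball (a (i + 1)) (r (i + 1))) :=
        Metric.isOpen_ball.inter Metric.isOpen_ball
      have hnz : ∃ᶠ q in 𝓝[≠] p, f q ≠ 0 := by
        intro hcon
        have h1 : ∀ᶠ q in 𝓝[≠] p, f q = 0 := by
          filter_upwards [hcon] with q hq
          simpa using hq
        have h2 : EqOn f 0 (Metric.ball (a i) (r i)) :=
          hfa.eqOn_zero_of_preconnected_of_frequently_eq_zero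
            (convex_ball _ _).isPreconnected hp.1 h1.frequently
        exact hfz (h2 hz)
      have hev : ∀ᶠ q in 𝓝[≠] p,
          q ∈ Metric.ball (a i) (r i) ∩ Metric.ball (a (i + 1)) (r (i + 1)) :=
        nhdsWithin_le_nhds (hO.mem_nhds hp)
      obtain ⟨q, hq1, hq2⟩ := (hnz.and_eventually hev).exists
      have hq3 : deriv (Z i) q ≠ 0 ∧ deriv (W i) q ≠ 0 ∧ Wr (Z i) (W i) q ≠ 0 := by
        simp only [hf, ne_eq, mul_eq_zero, not_or] at hq1
        exact ⟨hq1.1.1, hq1.1.2, hq1.2⟩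
      have hG := hLC (Z i) (W i) (a i) (r i) z q hZi hWi hz hq2.1 hg hq3.1 hq3.2.1 hq3.2.2
      refine ⟨q, hq2.2, CH2_good hG ?_ ?_⟩
      · filter_upwards [hO.mem_nhds hq2] with s hs
        exact (hC.eZ i (by omega) hs).symm
      · filter_upwards [hO.mem_nhds hq2] with s hs
        exact (hC.eW i (by omega) hs).symm
  obtain ⟨z, hz, hg⟩ := key n le_rfl
  intro w hw h1 h2 h3
  exact hLC (Z n) (W n) (a n) (r n) z w (hC.dZ n le_rfl) (hC.dW n le_rfl) hz hw hg h1 h2 h3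

end H719FX
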