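import Pool.Agent.H719R4.FX.Cov

/-!
# TMP: vanishing affine curvature means parabola
-/

open Complex Set Filter Topology

namespace H719FX

open H738CZ

theorem TMP_deriv {F : ℂ → ℂ} (h : Differentiable ℂ F) : Differentiable ℂ (deriv F) := by
  rw [← differentiableOn_univ] at h ⊢
  exact h.deriv isOpen_univ

theorem TMP_const {F : ℂ → ℂ} {s0 : ℂ} {r : ℝ}
    (h : ∀ s ∈ Metric.ball s0 r, HasDerivAt F 0 s) : ∃ c, ∀ s ∈ Metric.ball s0 r, F s = c :=
  Metric.isOpen_ball.exists_is_const_of_deriv_eq_zero (convex_ball s0 r).isPreconnected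
    (fun s hs => (h s hs).differentiableAt.differentiableWithinAt)
    (fun s hs => (h s hs).deriv)

theorem TMP_root {D : ℂ → ℂ} (hD : Differentiable ℂ D) {s0 : ℂ} (h0 : D s0 ≠ 0) :
    ∃ r > 0, ∃ lam : ℂ → ℂ, ∀ s ∈ Metric.ball s0 r, D s ≠ 0 ∧ lam s ^ 3 = D s ∧
      HasDerivAt lam (lam s * deriv D s / (3 * D s)) s := by
  obtain ⟨l0, hl0⟩ := IsAlgClosed.exists_pow_nat_eq (D s0) (by norm_num : 0 < 3)
  have hc : Continuous (fun s => D s / D s0) := hD.continuous.div_const _
  have ho : IsOpen ((fun s => D s / D s0) ⁻¹' slitPlane) := isOpen_slitPlane.preimage hc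
  have hm : s0 ∈ (fun s => D s / D s0) ⁻¹' slitPlane := by
    rw [Set.mem_preimage, div_self h0]
    exact one_mem_slitPlane
  obtain ⟨r, hr, hball⟩ := Metric.isOpen_iff.1 ho s0 hm
  refine ⟨r, hr, fun s => l0 * cexp (Complex.log (D s / D s0) / 3), fun s hs => ?_⟩
  have hq : D s / D s0 ∈ slitPlane := hball hs
  have hq0 : D s / D s0 ≠ 0 := slitPlane_ne_zero hq
  have hDs : D s ≠ 0 := by
    intro h
    apply hq0
    rw [h, zero_div]
  refine ⟨hDs, ?_, ?_⟩
  · rw [mul_pow, hl0, ← Complex.exp_nat_mul]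
    have : ((3 : ℕ) : ℂ) * (Complex.log (D s / D s0) / 3) = Complex.log (D s / D s0) := by
      push_cast
      ring
    rw [this, Complex.exp_log hq0]
    field_simp
  · have h1 : HasDerivAt (fun s => D s / D s0) (deriv D s / D s0) s :=
      (hD s).hasDerivAt.div_const _
    have h2 : HasDerivAt (fun s => l0 * cexp (Complex.log (D s / D s0) / 3))
        (l0 * (cexp (Complex.log (D s / D s0) / 3) *
          (deriv D s / D s0 / (D s / D s0) / 3))) s :=
      ((h1.clog hq).div_const 3).cexp.const_mul l0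
    have h3 : deriv D s / D s0 / (D s / D s0) / 3 = deriv D s / (3 * D s) := by
      field_simp
    rw [h3] at h2
    convert h2 using 1
    ring

theorem TMP_alg {l d d1 d2 f f1 f2 g g1 g2 m : ℂ} (hd : d = f * g1 - f1 * g)
    (hd1 : d1 = f * g2 - f2 * g)
    (hM : 5 / 9 * d1 ^ 2 - 1 / 3 * d2 * d - (f1 * g2 - f2 * g1) * d = 0)
    (hm : m * (3 * d) = l * d1) :
    (m * (3 * f1 * d - f * d1) + l * ((3 * f2) * d + 3 * f1 * d1 - (f1 * d1 + f * d2))) *
      (3 * d ^ 2) - l * (3 * f1 * d - f * d1) * (3 * (2 * d * d1)) = 0 := by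
  have key : 9 * f2 * d ^ 2 - 9 * f1 * d1 * d + f * (5 * d1 ^ 2 - 3 * d * d2) = 0 := by
    linear_combination 9 * f * hM + 9 * d * f2 * hd - 9 * d * f1 * hd1
  linear_combination (3 * f1 * d - f * d1) * d * hm + l * d * key

theorem TMP_key {f g D lam : ℂ → ℂ} {s : ℂ} (hf : Differentiable ℂ f)
    (hD : Differentiable ℂ D) (hDs : D s = f s * deriv g s - deriv f s * g s)
    (hD1 : deriv D s = f s * deriv (deriv g) s - deriv (deriv f) s * g s)
    (hM : 5 / 9 * (deriv D s) ^ 2 - 1 / 3 * deriv (deriv D) s * D s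
      - (deriv f s * deriv (deriv g) s - deriv (deriv f) s * deriv g s) * D s = 0)
    (h0 : D s ≠ 0) (hl : HasDerivAt lam (lam s * deriv D s / (3 * D s)) s) :
    HasDerivAt (fun t => lam t * (3 * deriv f t * D t - f t * deriv D t) / (3 * D t ^ 2)) 0 s := by
  have h1 : HasDerivAt f (deriv f s) s := (hf s).hasDerivAt
  have h2 : HasDerivAt (deriv f) (deriv (deriv f) s) s := (TMP_deriv hf s).hasDerivAt
  have h3 : HasDerivAt D (deriv D s) s := (hD s).hasDerivAt
  have h4 : HasDerivAt (deriv D) (deriv (deriv D) s) s := (TMP_deriv hD s).hasDerivAt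
  have h6 : HasDerivAt (fun t => 3 * deriv f t * D t - f t * deriv D t)
      ((3 * deriv (deriv f) s) * D s + 3 * deriv f s * deriv D s -
        (deriv f s * deriv D s + f s * deriv (deriv D) s)) s :=
    ((h2.const_mul 3).mul h3).sub (h1.mul h4)
  have h7 : HasDerivAt (fun t => 3 * D t ^ 2) (3 * (2 * D s * deriv D s)) s := by
    have := (h3.pow 2).const_mul 3
    simpa using this
  have h8 : (3 : ℂ) * D s ^ 2 ≠ 0 := mul_ne_zero (by norm_num) (pow_ne_zero 2 h0)
  have h5 : HasDerivAt (fun t => lam t * (3 * deriv f t * D t - f t * deriv D t) / (3 * D t ^ 2))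
      (((lam s * deriv D s / (3 * D s) * (3 * deriv f s * D s - f s * deriv D s) +
        lam s * ((3 * deriv (deriv f) s) * D s + 3 * deriv f s * deriv D s -
        (deriv f s * deriv D s + f s * deriv (deriv D) s))) * (3 * D s ^ 2) -
        lam s * (3 * deriv f s * D s - f s * deriv D s) * (3 * (2 * D s * deriv D s))) /
        (3 * D s ^ 2) ^ 2) s := (hl.mul h6).div h7 h8
  rw [TMP_alg hDs hD1 hM (by field_simp), zero_div] at h5
  exact h5

theorem TMP_neg {F : ℂ → ℂ} {s : ℂ} (h : HasDerivAt (fun t => -F t) 0 s) :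
    HasDerivAt F 0 s := by
  have h2 : HasDerivAt (fun t => - -F t) (-0) s := h.neg
  simpa using h2

theorem TMP_congr {F : ℂ → ℂ} {s x y : ℂ} (h : HasDerivAt F x s) (e : x = y) :
    HasDerivAt F y s := e ▸ h

theorem TMP_eq {s0 : ℂ} {r : ℝ} (hr : 0 < r) (P : ℂ → ℂ) (hP : Differentiable ℂ P)
    (h : ∀ s ∈ Metric.ball s0 r, P s = 0) (s : ℂ) : P s = 0 := by
  have h1 : AnalyticOnNhd ℂ P univ := by
    intro x _
    exact hP.analyticAt x
  have h2 : AnalyticOnNhd ℂ (fun _ : ℂ => (0 : ℂ)) univ := fun _ _ => analyticAt_const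
  have h3 := h1.eq_of_eventuallyEq h2 (z₀ := s0)
    (Filter.eventually_of_mem (Metric.ball_mem_nhds s0 hr) h)
  exact congrFun h3 s

theorem tTMP : StTMP := by
  intro Z W hZ hW ⟨s0, hs0⟩ hM
  have hf := TMP_deriv hZ
  have hg := TMP_deriv hW
  have hf1 := TMP_deriv hf
  have hg1 := TMP_deriv hg
  have hD : Differentiable ℂ (Wr Z W) := by
    have : Wr Z W = fun t => deriv Z t * deriv (deriv W) t - deriv (deriv Z) t * deriv W t := rfl
    rw [this]
    exact (hf.mul hg1).sub (hf1.mul hg)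
  have hD1 : ∀ s, deriv (Wr Z W) s =
      deriv Z s * deriv (deriv (deriv W)) s - deriv (deriv (deriv Z)) s * deriv W s := by
    intro s
    have h1 : HasDerivAt (Wr Z W)
        ((deriv (deriv Z) s * deriv (deriv W) s + deriv Z s * deriv (deriv (deriv W)) s) -
          (deriv (deriv (deriv Z)) s * deriv W s + deriv (deriv Z) s * deriv (deriv W) s)) s :=
      ((hf s).hasDerivAt.mul (hg1 s).hasDerivAt).sub ((hf1 s).hasDerivAt.mul (hg s).hasDerivAt)
    rw [h1.deriv]
    ring
  obtain ⟨r, hr, lam, hlam⟩ := TMP_root hD hs0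
  have hl0 : ∀ s ∈ Metric.ball s0 r, lam s ≠ 0 := by
    intro s hs h
    obtain ⟨h1, h2, -⟩ := hlam s hs
    apply h1
    rw [← h2, h]
    norm_num
  -- the constants A and B
  obtain ⟨A, hA⟩ := TMP_const (F := fun t => lam t * (3 * deriv (deriv Z) t * Wr Z W t -
      deriv Z t * deriv (Wr Z W) t) / (3 * Wr Z W t ^ 2)) (s0 := s0) (r := r) (by
    intro s hs
    obtain ⟨h0, -, h2⟩ := hlam s hs
    exact TMP_key (g := deriv W) hf hD rfl (hD1 s) (hM s) h0 h2)
  obtain ⟨B, hB⟩ := TMP_const (F := fun t => lam t * (3 * deriv (deriv W) t * Wr Z W t -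
      deriv W t * deriv (Wr Z W) t) / (3 * Wr Z W t ^ 2)) (s0 := s0) (r := r) (by
    intro s hs
    obtain ⟨h0, -, h2⟩ := hlam s hs
    have hneg : Differentiable ℂ (fun t => -Wr Z W t) := hD.neg
    have hd1 : deriv (fun t => -Wr Z W t) = fun t => -deriv (Wr Z W) t := by
      ext t
      exact deriv.fun_neg
    have hd2 : deriv (deriv (fun t => -Wr Z W t)) = fun t => -deriv (deriv (Wr Z W)) t := by
      rw [hd1]
      ext t
      exact deriv.fun_neg
    have hMs := hM s
    unfold Mi at hMs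
    have h3 := TMP_key (f := deriv W) (g := deriv Z) (D := fun t => -Wr Z W t) (lam := lam) (s := s)
      hg hneg (by unfold Wr; ring)
      (by rw [hd1]; simp only; rw [hD1 s]; ring)
      (by rw [hd2, hd1]; simp only; linear_combination hMs)
      (neg_ne_zero.2 h0)
      (by rw [hd1]; convert h2 using 1; simp only; rw [mul_neg, mul_neg, neg_div_neg_eq])
    have h4 : (fun t => lam t * (3 * deriv (deriv W) t * (-Wr Z W t) -
        deriv W t * deriv (fun t => -Wr Z W t) t) / (3 * (-Wr Z W t) ^ 2)) =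
        fun t => -(lam t * (3 * deriv (deriv W) t * Wr Z W t -
      deriv W t * deriv (Wr Z W) t) / (3 * Wr Z W t ^ 2)) := by
      ext t
      rw [hd1]
      simp only
      rw [neg_sq]
      ring
    rw [h4] at h3
    exact TMP_neg h3)
  -- the derivative of `f / lam`
  have hA' : ∀ s ∈ Metric.ball s0 r, HasDerivAt (fun t => deriv Z t / lam t) (A * lam s) s := by
    intro s hs
    obtain ⟨h0, h1, h2⟩ := hlam s hs
    refine TMP_congr ((hf s).hasDerivAt.div h2 (hl0 s hs)) ?_
    rw [← hA s hs]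
    have := hl0 s hs
    field_simp
    rw [← h1]
  have hB' : ∀ s ∈ Metric.ball s0 r, HasDerivAt (fun t => deriv W t / lam t) (B * lam s) s := by
    intro s hs
    obtain ⟨h0, h1, h2⟩ := hlam s hs
    refine TMP_congr ((hg s).hasDerivAt.div h2 (hl0 s hs)) ?_
    rw [← hB s hs]
    have := hl0 s hs
    field_simp
    rw [← h1]
  have hBA : ∀ s ∈ Metric.ball s0 r, B * deriv Z s - A * deriv W s = lam s := by
    intro s hs
    obtain ⟨h0, h1, h2⟩ := hlam s hs
    rw [← hB s hs, ← hA s hs]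
    field_simp
    have : Wr Z W s = deriv Z s * deriv (deriv W) s - deriv (deriv Z) s * deriv W s := rfl
    rw [this]
    ring
  -- L
  have hL : ∀ s ∈ Metric.ball s0 r, HasDerivAt (fun t => B * Z t - A * W t) (lam s) s := by
    intro s hs
    rw [← hBA s hs]
    exact ((hZ s).hasDerivAt.const_mul B).sub ((hW s).hasDerivAt.const_mul A)
  obtain ⟨a, ha⟩ := TMP_const (F := fun t => deriv Z t / lam t - A * (B * Z t - A * W t))
    (s0 := s0) (r := r) (by
      intro s hs
      exact TMP_congr ((hA' s hs).sub ((hL s hs).const_mul A)) (sub_self _))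
  obtain ⟨b, hb⟩ := TMP_const (F := fun t => deriv W t / lam t - B * (B * Z t - A * W t))
    (s0 := s0) (r := r) (by
      intro s hs
      exact TMP_congr ((hB' s hs).sub ((hL s hs).const_mul B)) (sub_self _))
  have hZa : ∀ s ∈ Metric.ball s0 r, deriv Z s = lam s * (A * (B * Z s - A * W s) + a) := by
    intro s hs
    rw [← ha s hs]
    have := hl0 s hs
    field_simp
    ring
  have hWb : ∀ s ∈ Metric.ball s0 r, deriv W s = lam s * (B * (B * Z s - A * W s) + b) := by
    intro s hs
    rw [← hb s hs]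
    have := hl0 s hs
    field_simp
    ring
  obtain ⟨c1, hc1⟩ := TMP_const (F := fun t => Z t - (A / 2 * (B * Z t - A * W t) ^ 2 +
      a * (B * Z t - A * W t))) (s0 := s0) (r := r) (by
    intro s hs
    refine TMP_congr ((hZ s).hasDerivAt.sub ((((hL s hs).pow 2).const_mul (A / 2)).add
      ((hL s hs).const_mul a))) ?_
    rw [hZa s hs]
    push_cast
    ring)
  obtain ⟨c2, hc2⟩ := TMP_const (F := fun t => W t - (B / 2 * (B * Z t - A * W t) ^ 2 +
      b * (B * Z t - A * W t))) (s0 := s0) (r := r) (by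
    intro s hs
    refine TMP_congr ((hW s).hasDerivAt.sub ((((hL s hs).pow 2).const_mul (B / 2)).add
      ((hL s hs).const_mul b))) ?_
    rw [hWb s hs]
    push_cast
    ring)
  refine ⟨A, B, a, b, c1, c2, ?_, fun s => ⟨?_, ?_⟩⟩
  · have hs : s0 ∈ Metric.ball s0 r := Metric.mem_ball_self hr
    have h1 := hBA s0 hs
    rw [hZa s0 hs, hWb s0 hs] at h1
    have h2 := hl0 s0 hs
    have h3 : lam s0 * (B * a - A * b) = lam s0 * 1 := by linear_combination h1
    exact mul_left_cancel₀ h2 h3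
  · have := TMP_eq hr (fun t => Z t - (A / 2 * (B * Z t - A * W t) ^ 2 +
      a * (B * Z t - A * W t)) - c1) (by fun_prop) (fun s hs => by
        rw [hc1 s hs, sub_self]) s
    linear_combination this
  · have := TMP_eq hr (fun t => W t - (B / 2 * (B * Z t - A * W t) ^ 2 +
      b * (B * Z t - A * W t)) - c2) (by fun_prop) (fun s hs => by
        rw [hc2 s hs, sub_self]) s
    linear_combination this

end H719FX
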