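import Pool.Agent.H719R4.FX.Rat
import Pool.Agent.H719R4.FX.TMP

/-!
# CQU: constant affine curvature means conic
-/

open Complex Set Filter Topology

namespace H719FX

open H738CZ

private theorem CQU_root {D : ℂ → ℂ} {c : ℂ} {r : ℝ} (hr : 0 < r)
    (hD : DifferentiableOn ℂ D (Metric.ball c r)) (h0 : ∀ s ∈ Metric.ball c r, D s ≠ 0) :
    ∃ ρ > 0, ρ ≤ r ∧ ∃ lam : ℂ → ℂ, ∀ s ∈ Metric.ball c ρ, lam s ≠ 0 ∧ lam s ^ 3 = D s ∧
      HasDerivAt lam (lam s * deriv D s / (3 * D s)) s := by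
  have hDc : D c ≠ 0 := h0 c (Metric.mem_ball_self hr)
  obtain ⟨l0, hl0⟩ := IsAlgClosed.exists_pow_nat_eq (D c) (by norm_num : 0 < 3)
  have hcont : ContinuousAt (fun s => D s / D c) c :=
    (hD.differentiableAt (Metric.ball_mem_nhds c hr)).continuousAt.div_const _
  have hm : (fun s => D s / D c) ⁻¹' slitPlane ∈ 𝓝 c := by
    apply hcont.preimage_mem_nhds
    apply isOpen_slitPlane.mem_nhds
    rw [div_self hDc]
    exact one_mem_slitPlane
  obtain ⟨ρ', hρ', hball⟩ := Metric.mem_nhds_iff.1 hm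
  refine ⟨min ρ' r, lt_min hρ' hr, min_le_right _ _,
    fun s => l0 * cexp (Complex.log (D s / D c) / 3), fun s hs => ?_⟩
  have hs1 : s ∈ Metric.ball c ρ' := Metric.ball_subset_ball (min_le_left _ _) hs
  have hs2 : s ∈ Metric.ball c r := Metric.ball_subset_ball (min_le_right _ _) hs
  have hq : D s / D c ∈ slitPlane := hball hs1
  have hq0 : D s / D c ≠ 0 := slitPlane_ne_zero hq
  have hDs : D s ≠ 0 := h0 s hs2
  have hcube : (l0 * cexp (Complex.log (D s / D c) / 3)) ^ 3 = D s := by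
    rw [mul_pow, hl0, ← Complex.exp_nat_mul]
    have : ((3 : ℕ) : ℂ) * (Complex.log (D s / D c) / 3) = Complex.log (D s / D c) := by
      push_cast
      ring
    rw [this, Complex.exp_log hq0]
    field_simp
  refine ⟨?_, hcube, ?_⟩
  · intro h
    apply hDs
    rw [← hcube]
    exact (congrArg (· ^ 3) h).trans (by norm_num)
  · have h1 : HasDerivAt (fun s => D s / D c) (deriv D s / D c) s :=
      (hD.differentiableAt (Metric.isOpen_ball.mem_nhds hs2)).hasDerivAt.div_const _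
    have h2 : HasDerivAt (fun s => l0 * cexp (Complex.log (D s / D c) / 3))
        (l0 * (cexp (Complex.log (D s / D c) / 3) *
          (deriv D s / D c / (D s / D c) / 3))) s :=
      ((h1.clog hq).div_const 3).cexp.const_mul l0
    have h3 : deriv D s / D c / (D s / D c) / 3 = deriv D s / (3 * D s) := by
      field_simp
    rw [h3] at h2
    convert h2 using 1
    ring

private theorem CQU_alg {d d1 d2 f f1 f2 g g1 g2 l l1 : ℂ} (hd : d = f * g1 - f1 * g)
    (hd1 : d1 = f * g2 - f2 * g) (hl : l ≠ 0) (hd0 : d ≠ 0) (hl1 : l1 = l * d1 / (3 * d)) :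
    ((3 * f2 * d + 3 * f1 * d1 - (f1 * d1 + f * d2)) * (3 * (d * l ^ 2)) -
      (3 * f1 * d - f * d1) * (3 * (d1 * l ^ 2 + d * (2 * l * l1)))) / (3 * (d * l ^ 2)) ^ 2 =
    (5 / 9 * d1 ^ 2 - 1 / 3 * d2 * d - (f1 * g2 - f2 * g1) * d) / (d ^ 2 * l ^ 2) * f := by
  rw [hl1]
  have key : d * f2 - f1 * d1 = -f * (f1 * g2 - f2 * g1) := by
    rw [hd, hd1]; ring
  have e : (5 / 9 * d1 ^ 2 - 1 / 3 * d2 * d - (f1 * g2 - f2 * g1) * d) * f =
      f2 * d ^ 2 - f1 * d1 * d - 1 / 3 * f * d2 * d + 5 / 9 * f * d1 ^ 2 := by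
    linear_combination (-d) * key
  rw [div_mul_eq_mul_div, e]
  field_simp
  ring

private theorem CQU_X {f g D lam : ℂ → ℂ} {s f1 f2 g1 g2 d1 d2 : ℂ}
    {f' D' : ℂ → ℂ}
    (hf : HasDerivAt f f1 s) (hf' : HasDerivAt f' f2 s) (hD : HasDerivAt D d1 s)
    (hD' : HasDerivAt D' d2 s) (ef : f' s = f1) (eD : D' s = d1)
    (hl : HasDerivAt lam (lam s * d1 / (3 * D s)) s) (hl0 : lam s ≠ 0) (hD0 : D s ≠ 0)
    (hd : D s = f s * g1 - f1 * g s) (hd1 : d1 = f s * g2 - f2 * g s) :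
    HasDerivAt (fun t => (3 * f' t * D t - f t * D' t) / (3 * (D t * lam t ^ 2)))
      ((5 / 9 * d1 ^ 2 - 1 / 3 * d2 * D s - (f1 * g2 - f2 * g1) * D s) / (D s ^ 2 * lam s ^ 2)
        * f s) s := by
  have hn : HasDerivAt (fun t => 3 * f' t * D t - f t * D' t)
      (3 * f2 * D s + 3 * f' s * d1 - (f1 * D' s + f s * d2)) s :=
    ((hf'.const_mul 3).mul hD).sub (hf.mul hD')
  have hl2 : HasDerivAt (fun t => lam t ^ 2) (2 * lam s * (lam s * d1 / (3 * D s))) s := by
    have := hl.fun_pow 2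
    simpa using this
  have hden : HasDerivAt (fun t => 3 * (D t * lam t ^ 2))
      (3 * (d1 * lam s ^ 2 + D s * (2 * lam s * (lam s * d1 / (3 * D s))))) s :=
    (hD.mul hl2).const_mul 3
  have h0 : 3 * (D s * lam s ^ 2) ≠ 0 :=
    mul_ne_zero (by norm_num) (mul_ne_zero hD0 (pow_ne_zero 2 hl0))
  have h := hn.div hden h0
  rw [ef, eD] at h
  refine TMP_congr h ?_
  exact CQU_alg hd hd1 hl0 hD0 rfl


private theorem CQU_e1 {d d1 f f1 l : ℂ} : (3 * f1 * -d - f * -d1) / (3 * (-d * l ^ 2)) =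
    (3 * f1 * d - f * d1) / (3 * (d * l ^ 2)) := by
  rw [show 3 * f1 * -d - f * -d1 = -(3 * f1 * d - f * d1) by ring,
    show 3 * (-d * l ^ 2) = -(3 * (d * l ^ 2)) by ring, neg_div_neg_eq]

private theorem CQU_e2 {d d1 d2 l f1 f2 g1 g2 x : ℂ} :
    (5 / 9 * (-d1) ^ 2 - 1 / 3 * (-d2) * (-d) - (g1 * f2 - g2 * f1) * (-d)) /
      ((-d) ^ 2 * l ^ 2) * x =
    (5 / 9 * d1 ^ 2 - 1 / 3 * d2 * d - (f1 * g2 - f2 * g1) * d) / (d ^ 2 * l ^ 2) * x := by
  rw [show 5 / 9 * (-d1) ^ 2 - 1 / 3 * (-d2) * (-d) - (g1 * f2 - g2 * f1) * (-d) =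
    5 / 9 * d1 ^ 2 - 1 / 3 * d2 * d - (f1 * g2 - f2 * g1) * d by ring, neg_sq]

private theorem CQU_mu {Z W lam : ℂ → ℂ} {c m0 : ℂ} {ρ : ℝ} (hρ : 0 < ρ)
    (hc1 : ContinuousOn (Wr Z W) (Metric.ball c ρ)) (hc2 : ContinuousOn (Mi Z W) (Metric.ball c ρ))
    (hlc : ContinuousOn lam (Metric.ball c ρ))
    (h : ∀ s ∈ Metric.ball c ρ, lam s ≠ 0 ∧ lam s ^ 3 = Wr Z W s ∧ Wr Z W s ≠ 0 ∧
      Mi Z W s ^ 3 = m0 * Wr Z W s ^ 8) :
    ∀ s ∈ Metric.ball c ρ, Mi Z W s / (Wr Z W s ^ 2 * lam s ^ 2) =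
      Mi Z W c / (Wr Z W c ^ 2 * lam c ^ 2) := by
  obtain ⟨mu, hmudef⟩ : ∃ mu : ℂ → ℂ, mu = fun t =>
    Mi Z W t / (Wr Z W t ^ 2 * lam t ^ 2) := ⟨_, rfl⟩
  have hmu3 : ∀ s ∈ Metric.ball c ρ, mu s ^ 3 = m0 := by
    intro s hs
    obtain ⟨hl0, hl3, h0, h1⟩ := h s hs
    have e : mu s = Mi Z W s / (Wr Z W s ^ 2 * lam s ^ 2) := by rw [hmudef]
    rw [e, div_pow, h1]
    have : (Wr Z W s ^ 2 * lam s ^ 2) ^ 3 = Wr Z W s ^ 8 := by
      rw [show (Wr Z W s ^ 2 * lam s ^ 2) ^ 3 = Wr Z W s ^ 6 * (lam s ^ 3) ^ 2 by ring, hl3]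
      ring
    rw [this, mul_div_assoc, div_self (pow_ne_zero 8 h0), mul_one]
  have hmuc : ContinuousOn mu (Metric.ball c ρ) := by
    rw [hmudef]
    apply ContinuousOn.div hc2 ((hc1.pow 2).mul (hlc.pow 2))
    intro s hs
    obtain ⟨hl0, hl3, h0, h1⟩ := h s hs
    exact mul_ne_zero (pow_ne_zero 2 h0) (pow_ne_zero 2 hl0)
  have hfin : ({x : ℂ | x ^ 3 = m0} : Set ℂ).Finite := by
    have hp : (Polynomial.X ^ 3 - Polynomial.C m0 : Polynomial ℂ) ≠ 0 :=
      Polynomial.X_pow_sub_C_ne_zero (by norm_num) m0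
    refine (Polynomial.X ^ 3 - Polynomial.C m0 : Polynomial ℂ).roots.toFinset.finite_toSet.subset ?_
    intro x hx
    have hx' : x ^ 3 = m0 := hx
    rw [Finset.mem_coe, Multiset.mem_toFinset, Polynomial.mem_roots hp]
    simp [Polynomial.IsRoot, hx']
  have hpre : IsPreconnected (Metric.ball c ρ) := (convex_ball c ρ).isPreconnected
  intro s hs
  have := hpre.constant_of_mapsTo (T := {x : ℂ | x ^ 3 = m0}) hfin.isDiscrete hmuc
    (fun t ht => hmu3 t ht) hs (Metric.mem_ball_self hρ)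
  rwa [hmudef] at this

private theorem CQU_conic {k1 k2 E1 E2 E3 m : ℂ} {Z W X Y : ℂ}
    (hX : X = m * Z + k1) (hY : Y = m * W + k2)
    (h : E2 * X ^ 2 - 2 * E3 * X * Y + E1 * Y ^ 2 = -m) :
    (E2 * m ^ 2) * Z ^ 2 + (-2 * E3 * m ^ 2) * Z * W + (E1 * m ^ 2) * W ^ 2 +
      (2 * E2 * m * k1 - 2 * E3 * m * k2) * Z + (2 * E1 * m * k2 - 2 * E3 * m * k1) * W +
      (E2 * k1 ^ 2 - 2 * E3 * k1 * k2 + E1 * k2 ^ 2 + m) = 0 := by
  subst hX hY
  linear_combination h

theorem tCQU : StCQU := by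
  intro Z W c m0 r hr hZ hW hall
  have ho : IsOpen (Metric.ball c r) := Metric.isOpen_ball
  have hf := hZ.deriv ho
  have hg := hW.deriv ho
  have hf1 := hf.deriv ho
  have hg1 := hg.deriv ho
  have hf2 := hf1.deriv ho
  have hg2 := hg1.deriv ho
  have hD : DifferentiableOn ℂ (Wr Z W) (Metric.ball c r) := by
    have : Wr Z W = fun t => deriv Z t * deriv (deriv W) t - deriv (deriv Z) t * deriv W t := rfl
    rw [this]
    exact (hf.mul hg1).sub (hf1.mul hg)
  have hD1 := hD.deriv ho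
  have hD2 := hD1.deriv ho
  have at' : ∀ {F : ℂ → ℂ}, DifferentiableOn ℂ F (Metric.ball c r) →
      ∀ s ∈ Metric.ball c r, HasDerivAt F (deriv F s) s := fun hF s hs =>
    (hF.differentiableAt (ho.mem_nhds hs)).hasDerivAt
  have hDd : ∀ s ∈ Metric.ball c r, deriv (Wr Z W) s =
      deriv Z s * deriv (deriv (deriv W)) s - deriv (deriv (deriv Z)) s * deriv W s := by
    intro s hs
    have h1 : HasDerivAt (Wr Z W)
        ((deriv (deriv Z) s * deriv (deriv W) s + deriv Z s * deriv (deriv (deriv W)) s) -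
          (deriv (deriv (deriv Z)) s * deriv W s + deriv (deriv Z) s * deriv (deriv W) s)) s :=
      ((at' hf s hs).mul (at' hg1 s hs)).sub ((at' hf1 s hs).mul (at' hg s hs))
    rw [h1.deriv]
    ring
  obtain ⟨ρ, hρ, hρr, lam, hlam⟩ := CQU_root hr hD (fun s hs => (hall s hs).1)
  have sub : Metric.ball c ρ ⊆ Metric.ball c r := Metric.ball_subset_ball hρr
  -- the functions X, Y
  obtain ⟨X, hXdef⟩ : ∃ X : ℂ → ℂ, X = fun t =>
    (3 * deriv (deriv Z) t * Wr Z W t - deriv Z t * deriv (Wr Z W) t) /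
      (3 * (Wr Z W t * lam t ^ 2)) := ⟨_, rfl⟩
  obtain ⟨Y, hYdef⟩ : ∃ Y : ℂ → ℂ, Y = fun t =>
    (3 * deriv (deriv W) t * Wr Z W t - deriv W t * deriv (Wr Z W) t) /
      (3 * (Wr Z W t * lam t ^ 2)) := ⟨_, rfl⟩
  obtain ⟨mu, hmudef⟩ : ∃ mu : ℂ → ℂ, mu = fun t =>
    Mi Z W t / (Wr Z W t ^ 2 * lam t ^ 2) := ⟨_, rfl⟩
  have hX : ∀ s ∈ Metric.ball c ρ, HasDerivAt X (mu s * deriv Z s) s := by
    intro s hs
    obtain ⟨hl0, -, hl⟩ := hlam s hs
    have hs' := sub hs
    rw [hXdef, hmudef]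
    exact CQU_X (at' hf s hs') (at' hf1 s hs') (at' hD s hs') (at' hD1 s hs') rfl rfl hl hl0
      (hall s hs').1 rfl (hDd s hs')
  have hY : ∀ s ∈ Metric.ball c ρ, HasDerivAt Y (mu s * deriv W s) s := by
    intro s hs
    obtain ⟨hl0, -, hl⟩ := hlam s hs
    have hs' := sub hs
    have hneg := CQU_X (f := deriv W) (g := deriv Z) (D := fun t => -Wr Z W t) (lam := lam)
      (f' := deriv (deriv W)) (D' := fun t => -deriv (Wr Z W) t)
      (f1 := deriv (deriv W) s) (f2 := deriv (deriv (deriv W)) s)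
      (g1 := deriv (deriv Z) s) (g2 := deriv (deriv (deriv Z)) s)
      (d1 := -deriv (Wr Z W) s) (d2 := -deriv (deriv (Wr Z W)) s)
      (at' hg s hs') (at' hg1 s hs') (at' hD s hs').neg (at' hD1 s hs').neg rfl rfl
      (by convert hl using 1; rw [mul_neg, mul_neg, neg_div_neg_eq]) hl0
      (neg_ne_zero.2 (hall s hs').1) (by unfold Wr; ring) (by rw [hDd s hs']; ring)
    have e1 : (fun t => (3 * deriv (deriv W) t * -Wr Z W t - deriv W t * -deriv (Wr Z W) t) /
        (3 * (-Wr Z W t * lam t ^ 2))) = Y := by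
      rw [hYdef]
      funext t
      exact CQU_e1
    rw [e1] at hneg
    have e2 : mu s * deriv W s = (5 / 9 * (deriv (Wr Z W) s) ^ 2
        - 1 / 3 * deriv (deriv (Wr Z W)) s * Wr Z W s
        - (deriv (deriv Z) s * deriv (deriv (deriv W)) s
        - deriv (deriv (deriv Z)) s * deriv (deriv W) s) * Wr Z W s) /
        (Wr Z W s ^ 2 * lam s ^ 2) * deriv W s := by
      rw [hmudef]
      rfl
    rw [e2]
    exact TMP_congr hneg CQU_e2
  -- mu is constant
  have hcm : c ∈ Metric.ball c ρ := Metric.mem_ball_self hρ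
  have hmuconst : ∀ s ∈ Metric.ball c ρ, mu s = mu c := by
    have hMi : ContinuousOn (Mi Z W) (Metric.ball c ρ) := by
      have c1 := hD.continuousOn.mono sub
      have c2 := hD1.continuousOn.mono sub
      have c3 := hD2.continuousOn.mono sub
      have c4 := hf1.continuousOn.mono sub
      have c5 := hf2.continuousOn.mono sub
      have c6 := hg1.continuousOn.mono sub
      have c7 := hg2.continuousOn.mono sub
      exact ((continuousOn_const.mul (c2.pow 2)).sub ((continuousOn_const.mul c3).mul c1)).sub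
        (((c4.mul c7).sub (c5.mul c6)).mul c1)
    intro s hs
    have h := CQU_mu (lam := lam) (m0 := m0) hρ (hD.continuousOn.mono sub) hMi
      (fun s hs => (hlam s hs).2.2.continuousAt.continuousWithinAt)
      (fun s hs => ⟨(hlam s hs).1, (hlam s hs).2.1, (hall s (sub hs)).1, (hall s (sub hs)).2⟩) s hs
    rw [hmudef]
    exact h
  obtain ⟨m, hm⟩ : ∃ m, m = mu c := ⟨_, rfl⟩
  have hX' : ∀ s ∈ Metric.ball c ρ, HasDerivAt X (m * deriv Z s) s := by
    intro s hs
    rw [hm, ← hmuconst s hs]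
    exact hX s hs
  have hY' : ∀ s ∈ Metric.ball c ρ, HasDerivAt Y (m * deriv W s) s := by
    intro s hs
    rw [hm, ← hmuconst s hs]
    exact hY s hs
  -- A and B
  obtain ⟨A, hAdef⟩ : ∃ A : ℂ → ℂ, A = fun t => deriv Z t / lam t := ⟨_, rfl⟩
  obtain ⟨B, hBdef⟩ : ∃ B : ℂ → ℂ, B = fun t => deriv W t / lam t := ⟨_, rfl⟩
  have hfA : ∀ s ∈ Metric.ball c ρ, deriv Z s = lam s * A s := by
    intro s hs
    rw [hAdef]
    simp only
    rw [mul_div_cancel₀ _ (hlam s hs).1]
  have hgB : ∀ s ∈ Metric.ball c ρ, deriv W s = lam s * B s := by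
    intro s hs
    rw [hBdef]
    simp only
    rw [mul_div_cancel₀ _ (hlam s hs).1]
  have hA : ∀ s ∈ Metric.ball c ρ, HasDerivAt A (lam s * X s) s := by
    intro s hs
    obtain ⟨hl0, -, hl⟩ := hlam s hs
    have h0 := (hall s (sub hs)).1
    rw [hAdef, hXdef]
    refine TMP_congr ((at' hf s (sub hs)).div hl hl0) ?_
    field_simp
  have hB : ∀ s ∈ Metric.ball c ρ, HasDerivAt B (lam s * Y s) s := by
    intro s hs
    obtain ⟨hl0, -, hl⟩ := hlam s hs
    have h0 := (hall s (sub hs)).1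
    rw [hBdef, hYdef]
    refine TMP_congr ((at' hg s (sub hs)).div hl hl0) ?_
    field_simp
  have hdet : ∀ s ∈ Metric.ball c ρ, A s * Y s - X s * B s = 1 := by
    intro s hs
    obtain ⟨hl0, hl3, -⟩ := hlam s hs
    have h0 := (hall s (sub hs)).1
    have h3 : lam s ^ 3 = deriv Z s * deriv (deriv W) s - deriv (deriv Z) s * deriv W s := hl3
    rw [hAdef, hBdef, hXdef, hYdef]
    simp only
    field_simp
    rw [h3]
    ring
  have hev : ∀ {P : ℂ → Prop}, (∀ s ∈ Metric.ball c ρ, P s) → ∀ᶠ t in 𝓝 c, P t := fun h =>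
    Filter.eventually_of_mem (Metric.ball_mem_nhds c hρ) h
  by_cases hm0 : m = 0
  · -- parabola
    obtain ⟨A0, hA0⟩ := TMP_const (F := X) (s0 := c) (r := ρ) (by
      intro s hs
      have := hX' s hs
      rwa [hm0, zero_mul] at this)
    obtain ⟨B0, hB0⟩ := TMP_const (F := Y) (s0 := c) (r := ρ) (by
      intro s hs
      have := hY' s hs
      rwa [hm0, zero_mul] at this)
    have hL : ∀ s ∈ Metric.ball c ρ, HasDerivAt (fun t => B0 * Z t - A0 * W t) (lam s) s := by
      intro s hs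
      have h1 := hdet s hs
      rw [hA0 s hs, hB0 s hs] at h1
      refine TMP_congr (((at' hZ s (sub hs)).const_mul B0).sub
        ((at' hW s (sub hs)).const_mul A0)) ?_
      rw [hfA s hs, hgB s hs]
      linear_combination lam s * h1
    obtain ⟨a, ha⟩ := TMP_const (F := fun t => A t - A0 * (B0 * Z t - A0 * W t))
      (s0 := c) (r := ρ) (by
        intro s hs
        refine TMP_congr ((hA s hs).sub ((hL s hs).const_mul A0)) ?_
        rw [hA0 s hs]
        ring)
    obtain ⟨b, hb⟩ := TMP_const (F := fun t => B t - B0 * (B0 * Z t - A0 * W t))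
      (s0 := c) (r := ρ) (by
        intro s hs
        refine TMP_congr ((hB s hs).sub ((hL s hs).const_mul B0)) ?_
        rw [hB0 s hs]
        ring)
    have hab : B0 * a - A0 * b = 1 := by
      have h1 := hdet c hcm
      rw [hA0 c hcm, hB0 c hcm] at h1
      have h2 := ha c hcm
      have h3 := hb c hcm
      linear_combination h1 + B0 * (-h2) + A0 * h3
    obtain ⟨c1, hc1⟩ := TMP_const (F := fun t => Z t - (A0 / 2 * (B0 * Z t - A0 * W t) ^ 2 +
      a * (B0 * Z t - A0 * W t))) (s0 := c) (r := ρ) (by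
        intro s hs
        have hp : HasDerivAt (fun t => (B0 * Z t - A0 * W t) ^ 2)
            (2 * (B0 * Z s - A0 * W s) * lam s) s := by
          have := (hL s hs).fun_pow 2
          simpa using this
        refine TMP_congr ((at' hZ s (sub hs)).sub ((hp.const_mul (A0 / 2)).add
          ((hL s hs).const_mul a))) ?_
        have h2 := ha s hs
        rw [hfA s hs]
        linear_combination lam s * h2)
    obtain ⟨c2, hc2⟩ := TMP_const (F := fun t => W t - (B0 / 2 * (B0 * Z t - A0 * W t) ^ 2 +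
      b * (B0 * Z t - A0 * W t))) (s0 := c) (r := ρ) (by
        intro s hs
        have hp : HasDerivAt (fun t => (B0 * Z t - A0 * W t) ^ 2)
            (2 * (B0 * Z s - A0 * W s) * lam s) s := by
          have := (hL s hs).fun_pow 2
          simpa using this
        refine TMP_congr ((at' hW s (sub hs)).sub ((hp.const_mul (B0 / 2)).add
          ((hL s hs).const_mul b))) ?_
        have h2 := hb s hs
        rw [hgB s hs]
        linear_combination lam s * h2)
    by_cases hA00 : A0 = 0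
    · have hB00 : B0 ≠ 0 := by
        intro h
        rw [h, hA00] at hab
        norm_num at hab
      refine ⟨B0 / 2 * B0 ^ 2, -(B0 / 2 * (2 * B0 * A0)), B0 / 2 * A0 ^ 2, b * B0, -(1 + b * A0),
        c2, ?_, hev ?_⟩
      · rintro ⟨h, -⟩
        have : B0 / 2 * B0 ^ 2 ≠ 0 :=
          mul_ne_zero (div_ne_zero hB00 (by norm_num)) (pow_ne_zero 2 hB00)
        exact this h
      · intro s hs
        have h2 := hc2 s hs
        linear_combination -h2
    · refine ⟨A0 / 2 * B0 ^ 2, -(A0 / 2 * (2 * B0 * A0)), A0 / 2 * A0 ^ 2, -(1 - a * B0), -(a * A0),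
        c1, ?_, hev ?_⟩
      · rintro ⟨-, -, h, -⟩
        have : A0 / 2 * A0 ^ 2 ≠ 0 :=
          mul_ne_zero (div_ne_zero hA00 (by norm_num)) (pow_ne_zero 2 hA00)
        exact this h
      · intro s hs
        have h2 := hc1 s hs
        linear_combination -h2
  · -- ellipse or hyperbola
    obtain ⟨k1, hk1⟩ := TMP_const (F := fun t => X t - m * Z t) (s0 := c) (r := ρ) (by
      intro s hs
      exact TMP_congr ((hX' s hs).sub ((at' hZ s (sub hs)).const_mul m)) (sub_self _))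
    obtain ⟨k2, hk2⟩ := TMP_const (F := fun t => Y t - m * W t) (s0 := c) (r := ρ) (by
      intro s hs
      exact TMP_congr ((hY' s hs).sub ((at' hW s (sub hs)).const_mul m)) (sub_self _))
    have sq : ∀ {F : ℂ → ℂ} {F' s : ℂ}, HasDerivAt F F' s →
        HasDerivAt (fun t => F t ^ 2) (2 * F s * F') s := by
      intro F F' s h
      have := h.fun_pow 2
      simpa using this
    obtain ⟨E1, hE1⟩ := TMP_const (F := fun t => X t ^ 2 - m * A t ^ 2) (s0 := c) (r := ρ) (by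
      intro s hs
      refine TMP_congr ((sq (hX' s hs)).sub ((sq (hA s hs)).const_mul m)) ?_
      rw [hfA s hs]
      ring)
    obtain ⟨E2, hE2⟩ := TMP_const (F := fun t => Y t ^ 2 - m * B t ^ 2) (s0 := c) (r := ρ) (by
      intro s hs
      refine TMP_congr ((sq (hY' s hs)).sub ((sq (hB s hs)).const_mul m)) ?_
      rw [hgB s hs]
      ring)
    obtain ⟨E3, hE3⟩ := TMP_const (F := fun t => X t * Y t - m * (A t * B t)) (s0 := c) (r := ρ) (by
      intro s hs
      refine TMP_congr (((hX' s hs).mul (hY' s hs)).sub (((hA s hs).mul (hB s hs)).const_mul m)) ?_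
      rw [hfA s hs, hgB s hs]
      ring)
    refine ⟨E2 * m ^ 2, -2 * E3 * m ^ 2, E1 * m ^ 2, 2 * E2 * m * k1 - 2 * E3 * m * k2,
      2 * E1 * m * k2 - 2 * E3 * m * k1, E2 * k1 ^ 2 - 2 * E3 * k1 * k2 + E1 * k2 ^ 2 + m, ?_,
      hev ?_⟩
    · rintro ⟨h0, h1, h2, -, -, h5⟩
      have hm2 : m ^ 2 ≠ 0 := pow_ne_zero 2 hm0
      have e2 : E2 = 0 := (mul_eq_zero.1 h0).resolve_right hm2
      have e1 : E1 = 0 := (mul_eq_zero.1 h2).resolve_right hm2
      have e3 : E3 = 0 := by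
        have := (mul_eq_zero.1 h1).resolve_right hm2
        have h := (mul_eq_zero.1 this).resolve_left (by norm_num)
        exact h
      rw [e1, e2, e3] at h5
      apply hm0
      linear_combination h5
    · intro s hs
      have h1 := hk1 s hs
      have h2 := hk2 s hs
      have h3 := hE1 s hs
      have h4 := hE2 s hs
      have h5 := hE3 s hs
      have h6 := hdet s hs
      refine CQU_conic (X := X s) (Y := Y s) (by linear_combination h1)
        (by linear_combination h2) ?_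
      rw [← h3, ← h4, ← h5]
      linear_combination (-m * (A s * Y s - X s * B s) - m) * h6

end H719FX
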