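import Pool.Agent.H719R4.FX.Defs

/-!
# Sub-Gevrey bounds for the leading coefficients (helper742, after helper613's `CZ/CRC.lean`)
-/

set_option autoImplicit false

open Complex Set Filter Topology

namespace H719FX

open H738CZ

/-- the sub-Gevrey property is stable under unions -/
theorem CRC_unionk (g : ℕ → ℂ → ℂ) (S T : Set ℂ) (hS : SG g S) (hT : SG g T) : SG g (S ∪ T) := by
  obtain ⟨C1, s1, hC1, hs1, hs1', h1⟩ := hS
  obtain ⟨C2, s2, hC2, hs2, hs2', h2⟩ := hT
  refine ⟨max C1 C2, max s1 s2, le_max_of_le_left hC1, le_max_of_le_left hs1, max_lt hs1' hs2', ?_⟩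
  intro j hj t ht
  have hf : (1 : ℝ) ≤ ((2 * j).factorial : ℝ) := by
    exact_mod_cast Nat.one_le_iff_ne_zero.2 (Nat.factorial_ne_zero _)
  rcases ht with ht | ht
  · refine (h1 j hj t ht).trans ?_
    have a1 : C1 ^ j ≤ (max C1 C2) ^ j := pow_le_pow_left₀ (by linarith) (le_max_left _ _) j
    have a2 : ((2 * j).factorial : ℝ) ^ s1 ≤ ((2 * j).factorial : ℝ) ^ (max s1 s2) :=
      Real.rpow_le_rpow_of_exponent_le hf (le_max_left _ _)
    exact mul_le_mul a1 a2 (by positivity) (by positivity)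
  · refine (h2 j hj t ht).trans ?_
    have a1 : C2 ^ j ≤ (max C1 C2) ^ j := pow_le_pow_left₀ (by linarith) (le_max_right _ _) j
    have a2 : ((2 * j).factorial : ℝ) ^ s2 ≤ ((2 * j).factorial : ℝ) ^ (max s1 s2) :=
      Real.rpow_le_rpow_of_exponent_le hf (le_max_right _ _)
    exact mul_le_mul a1 a2 (by positivity) (by positivity)

theorem tCRC : StCRC := by
  intro p k R g G hR hSG hPol
  have hR2 : 0 < R / 2 := by linarith
  have hsub : Metric.sphere (0 : ℂ) (R / 2) ⊆ V3 R := by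
    intro z hz
    have hz' : ‖z‖ = R / 2 := by simpa using hz
    refine ⟨?_, ?_⟩
    · rw [mem_ball_zero_iff, hz']; linarith
    · simp only [mem_singleton_iff]
      intro h0
      rw [h0, norm_zero] at hz'
      linarith
  have hcov : SG g (Metric.sphere (0 : ℂ) (R / 2)) := by
    refine IsCompact.induction_on (isCompact_sphere (0 : ℂ) (R / 2)) ?_ ?_ ?_ ?_
    · exact ⟨1, 0, le_refl _, le_refl _, one_pos, fun j _ t ht => absurd ht (notMem_empty t)⟩
    · rintro s t hst ⟨C, e, h1, h2, h3, h4⟩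
      exact ⟨C, e, h1, h2, h3, fun j hj x hx => h4 j hj x (hst hx)⟩
    · intro s t hs ht
      exact CRC_unionk g s t hs ht
    · intro x hx
      obtain ⟨η, hη, _, h⟩ := hSG x (hsub hx)
      exact ⟨Metric.ball x η, mem_nhdsWithin_of_mem_nhds (Metric.ball_mem_nhds x hη), h⟩
  obtain ⟨C, s, hC, hs, hs', hG⟩ := hcov
  set K : ℝ := (max 1 (R / 2)) ^ (2 * p + 4 * k) with hK
  have hK1 : 1 ≤ K := one_le_pow₀ (le_max_left _ _)
  refine ⟨C * K, s, one_le_mul_of_one_le_of_one_le hC hK1, hs, hs', ?_⟩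
  intro j hj
  obtain ⟨hd, he⟩ := hPol j hj
  have hcl : Metric.closedBall (0 : ℂ) (R / 2) ⊆ Metric.ball 0 R :=
    Metric.closedBall_subset_ball (by linarith)
  refine Complex.norm_le_of_forall_mem_frontier_norm_le (U := Metric.ball (0 : ℂ) (R / 2))
    Metric.isBounded_ball (hd.diffContOnCl_ball hcl) ?_ (subset_closure (Metric.mem_ball_self hR2))
  intro z hz
  rw [frontier_ball (0 : ℂ) hR2.ne'] at hz
  have hz' : ‖z‖ = R / 2 := by simpa using hz
  rw [← he z (hsub hz), norm_mul, norm_pow, hz']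
  have h1 := hG j hj z hz
  have h2 : (R / 2) ^ ((2 * p + 4 * k) * (j - 1)) ≤ K ^ j := by
    calc (R / 2) ^ ((2 * p + 4 * k) * (j - 1)) ≤ (max 1 (R / 2)) ^ ((2 * p + 4 * k) * (j - 1)) :=
          pow_le_pow_left₀ hR2.le (le_max_right _ _) _
      _ = K ^ (j - 1) := by rw [hK, pow_mul]
      _ ≤ K ^ j := pow_le_pow_right₀ hK1 (Nat.sub_le _ _)
  calc ‖g j z‖ * (R / 2) ^ ((2 * p + 4 * k) * (j - 1)) ≤
      (C ^ j * ((2 * j).factorial : ℝ) ^ s) * K ^ j := by
        refine mul_le_mul h1 h2 (by positivity) (by positivity)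
    _ = (C * K) ^ j * ((2 * j).factorial : ℝ) ^ s := by rw [mul_pow]; ring

end H719FX
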