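import Pool.Agent.H719R4.FX.Geo

/-!
# Curves parametrised by trigonometric polynomials

Definitions and statements (`Prop`s) only; no proofs.
-/

open Complex Set Filter Topology

namespace H719FX

open H738CZ

/-- trigonometric polynomial with coefficients `c k`, `|k| ≤ N`, on the complex plane -/
noncomputable def tp (N : ℕ) (c : ℤ → ℂ) (s : ℂ) : ℂ :=
  ∑ k ∈ Finset.Icc (-(N : ℤ)) N, c k * cexp (k * s * I)

/-- coefficients of the conjugate trigonometric polynomial -/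
noncomputable def cjc (c : ℤ → ℂ) (k : ℤ) : ℂ := (starRingEnd ℂ) (c (-k))

/-- TRP: a trigonometric polynomial curve without complex inflection points and cusps. -/
def StTRP : Prop := ∀ (N : ℕ) (c : ℤ → ℂ), (∀ s : ℂ, Wr (tp N c) (tp N (cjc c)) s ≠ 0) →
  ∃ κ : ℤ, 0 < κ ∧ ∀ k : ℤ, |k| ≤ N → k ≠ 0 → c k ≠ 0 → k = κ ∨ k = -κ

/-- TRE: the ellipse. -/
def StTRE : Prop := ∀ (c0 u v : ℂ) (κ : ℤ), 0 < κ → ‖u‖ ≠ ‖v‖ →
  ∃ (c : ℂ) (a b d : ℝ), 0 < a ∧ 0 < a * d - b ^ 2 ∧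
    Set.range (fun t : ℝ => c0 + u * cexp (κ * t * I) + v * cexp (-(κ * t * I)))
      = {x : ℂ | a * (x.re - c.re) ^ 2 + 2 * b * (x.re - c.re) * (x.im - c.im)
        + d * (x.im - c.im) ^ 2 = 1}

/-- TRD: derivatives of `tp`. -/
def StTRD : Prop := ∀ (N : ℕ) (c : ℤ → ℂ), Differentiable ℂ (tp N c) ∧
  (∀ s : ℂ, deriv (tp N c) s = tp N (fun k => k * I * c k) s) ∧
  (∀ s : ℂ, (starRingEnd ℂ) (tp N c ((starRingEnd ℂ) s)) = tp N (cjc c) s)

end H719FX
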