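import Pool.Agent.H719R4.FX.Iso
import Pool.Agent.H719R4.FX.Trig

/-!
# Branches with `p = k`: the radius of curvature has no finite branch points

Definitions and statements (`Prop`s) only; no proofs.  Third wave.
-/

open Complex Set Filter Topology

namespace H719FX

open H738CZ

/-! ## Deck transformations -/

/-- deck transformation data (`q = 3` or `6`) -/
structure Dk (q k : ℕ) (u : ℂ → ℂ) (R : ℝ) (G : ℕ → ℂ → ℂ) (ω : ℂ) (L : ℕ) (e : ℂ → ℂ)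
    (γ : ℕ → ℂ → ℂ) : Prop where
  om : ω ^ (q * k) = 1
  L1 : 1 ≤ L
  de : DifferentiableOn ℂ e (Metric.ball 0 R)
  eq : ∀ τ ∈ Metric.ball (0 : ℂ) R, u ((ω * τ) ^ q) - u (τ ^ q) = τ ^ L * e τ
  dγ : ∀ j, 1 ≤ j → DifferentiableOn ℂ (γ j) (Metric.ball 0 R)
  Gγ : ∀ j, 1 ≤ j → ∀ τ ∈ Metric.ball (0 : ℂ) R, G j (ω * τ) - G j τ = τ ^ L * γ j τ

/-- DCK: existence of a deck transformation that changes `u`. -/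
def StDCK : Prop := ∀ (q k : ℕ) (u : ℂ → ℂ) (R : ℝ) (ω0 : ℂ), 1 ≤ q → 1 ≤ k → 0 < R →
  DifferentiableOn ℂ u (Metric.ball 0 (R ^ q)) → ω0 ^ k = 1 →
  (¬ ∀ z ∈ Metric.ball (0 : ℂ) (R ^ q), u (ω0 * z) = u z) →
    ∃ (ω : ℂ) (L : ℕ) (e : ℂ → ℂ), ω ^ (q * k) = 1 ∧ 1 ≤ L ∧ ¬ (q * k ∣ L) ∧
      DifferentiableOn ℂ e (Metric.ball 0 R) ∧ e 0 ≠ 0 ∧
      ∀ τ ∈ Metric.ball (0 : ℂ) R, u ((ω * τ) ^ q) - u (τ ^ q) = τ ^ L * e τ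

/-- NCB: Cauchy bound. -/
def StNCB : Prop := ∀ (w : ℕ) (R : ℝ) (g G γ : ℕ → ℂ → ℂ) (ω : ℂ) (L : ℕ), 0 < R → ‖ω‖ = 1 →
  (∀ τ ∈ V3 R, ∃ η' > 0, Metric.ball τ η' ⊆ V3 R ∧ SG g (Metric.ball τ η')) →
  (∀ j, 1 ≤ j → DifferentiableOn ℂ (G j) (Metric.ball 0 R) ∧
    ∀ τ ∈ V3 R, g j τ * τ ^ (w * (j - 1)) = G j τ) →
  (∀ j, 1 ≤ j → DifferentiableOn ℂ (γ j) (Metric.ball 0 R) ∧
    ∀ τ ∈ Metric.ball (0 : ℂ) R, G j (ω * τ) - G j τ = τ ^ L * γ j τ) →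
    ∃ C s : ℝ, 1 ≤ C ∧ 0 ≤ s ∧ s < 1 ∧
      ∀ j, 1 ≤ j → ‖γ j 0‖ ≤ C ^ j * ((2 * j).factorial : ℝ) ^ s

/-! ## Non-isotropic branches -/

/-- NML: the model law for `p = k` has only the trivial solution. -/
def StNML : Prop := ∀ (k : ℕ) (υ : ℂ) (β : ℕ → ℂ), 1 ≤ k → υ ≠ 0 → MLaw k k υ β →
  ∀ j, 2 ≤ j → β j = 0

/-- NDA: the deck transformation changes `G j` only to the order `L`. -/
def StNDA : Prop := ∀ (kc : ℕ → ℂ), Ker kc → ∀ (k : ℕ) (u : ℂ → ℂ) (R : ℝ), 1 ≤ k → UN u R →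
  ∀ (g G : ℕ → ℂ → ℂ), FI kc (dk k) (ρk k k u) (rk k k u) g (V3 R) →
  (∀ j, 1 ≤ j → Pol k k R g j (G j)) →
  ∀ (ω : ℂ) (L : ℕ) (e : ℂ → ℂ), ω ^ (3 * k) = 1 → 1 ≤ L →
  DifferentiableOn ℂ e (Metric.ball 0 R) →
  (∀ τ ∈ Metric.ball (0 : ℂ) R, u ((ω * τ) ^ 3) - u (τ ^ 3) = τ ^ L * e τ) →
    ∀ j, 1 ≤ j → ∃ γ : ℂ → ℂ, DifferentiableOn ℂ γ (Metric.ball 0 R) ∧
      ∀ τ ∈ Metric.ball (0 : ℂ) R, G j (ω * τ) - G j τ = τ ^ L * γ τ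

/-- the linearised law -/
def NLaw (σ υ ε : ℂ) (c : ℕ → ℂ) : Prop := ∀ J, 1 ≤ J → PowerSeries.coeff (2 * J + 1)
  (PowerSeries.C (-(ε * υ)) * binS σ * PowerSeries.X ^ 2
    + (∑ j ∈ Finset.Icc 2 J, PowerSeries.C (c j * υ ^ (2 * j) / 2 ^ j) * binS (σ + 2 - 2 * j)
        * PowerSeries.X ^ (2 * j))
    + PowerSeries.C (6 * υ * ε / ((σ + 1) * (σ + 2))) * binS (σ + 2)) = 0

/-- NDB: the leading differences satisfy the linearised law. -/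
def StNDB : Prop := ∀ (kc : ℕ → ℂ), Ker kc → ∀ (k : ℕ) (u : ℂ → ℂ) (R : ℝ), 1 ≤ k → UN u R →
  ∀ (g G : ℕ → ℂ → ℂ), FI kc (dk k) (ρk k k u) (rk k k u) g (V3 R) →
  (∀ j, 1 ≤ j → Pol k k R g j (G j)) → (∀ j, 2 ≤ j → G j 0 = 0) →
  ∀ (ω : ℂ) (L : ℕ) (e : ℂ → ℂ) (γ : ℕ → ℂ → ℂ), Dk 3 k u R G ω L e γ →
    NLaw ((L : ℂ) / (3 * k)) (u 0) (e 0) (fun j => γ j 0)

/-- NLD: the linearised law has no sub-Gevrey solution. -/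
def StNLD : Prop := ∀ (σ : ℝ) (υ ε : ℂ) (c : ℕ → ℂ), 0 < σ → (∀ n : ℕ, σ ≠ n) → υ ≠ 0 → ε ≠ 0 →
  NLaw σ υ ε c →
    ¬ ∃ C s : ℝ, 1 ≤ C ∧ 0 ≤ s ∧ s < 1 ∧ ∀ j, 1 ≤ j → ‖c j‖ ≤ C ^ j * ((2 * j).factorial : ℝ) ^ s

/-- NEX: the radius of curvature is not ramified at a non-isotropic branch. -/
def StNEX : Prop := ∀ (kc : ℕ → ℂ), Ker kc → ∀ (k : ℕ) (u : ℂ → ℂ) (R : ℝ) (ρ : ℂ → ℂ) (t1 : ℂ),
  1 ≤ k → UN u R → t1 ∈ Metric.ball (0 : ℂ) (R ^ 3) → t1 ≠ 0 →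
  (∀ᶠ t in 𝓝 t1, ρ (t ^ k) * t ^ k = t ^ k * u t ^ 3) → Good kc ρ (t1 ^ k) →
    ∀ ω : ℂ, ω ^ k = 1 → ∀ z ∈ Metric.ball (0 : ℂ) (R ^ 3), u (ω * z) = u z

/-! ## Isotropic branches -/

/-- IML: the model law for `p = k` has only the trivial solution. -/
def StIML : Prop := ∀ (k : ℕ) (υ : ℂ) (β : ℕ → ℂ), 1 ≤ k → υ ≠ 0 → MLawI k k υ β →
  ∀ j, 2 ≤ j → β j = 0

/-- IDA: the deck transformation changes `G j` only to the order `L`. -/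
def StIDA : Prop := ∀ (k : ℕ) (u : ℂ → ℂ) (R : ℝ), 1 ≤ k → UI u R →
  ∀ (g G : ℕ → ℂ → ℂ), FI kcs (di k) (ρi k k u) (ri k k u) g (V3 R) →
  (∀ j, 1 ≤ j → PolI k k R g j (G j)) →
  ∀ (ω : ℂ) (L : ℕ) (e : ℂ → ℂ), ω ^ (6 * k) = 1 → 1 ≤ L →
  DifferentiableOn ℂ e (Metric.ball 0 R) →
  (∀ τ ∈ Metric.ball (0 : ℂ) R, u ((ω * τ) ^ 6) - u (τ ^ 6) = τ ^ L * e τ) →
    ∀ j, 1 ≤ j → ∃ γ : ℂ → ℂ, DifferentiableOn ℂ γ (Metric.ball 0 R) ∧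
      ∀ τ ∈ Metric.ball (0 : ℂ) R, G j (ω * τ) - G j τ = τ ^ L * γ τ

/-- Taylor series of `∫₀^X exp(i ν s) sin(X-s) ds` -/
noncomputable def Ynu (ν : ℂ) : PowerSeries ℂ :=
  PowerSeries.mk fun n =>
    (∑ l ∈ Finset.range n, kcs (n - 1 - l) * (I * ν) ^ l) / (n.factorial : ℂ)

/-- the linearised law -/
def ILaw (σ υ ε : ℂ) (c : ℕ → ℂ) : Prop := ∀ J, 1 ≤ J → PowerSeries.coeff (2 * J + 1)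
  (PowerSeries.C (-(2 * ε / υ ^ 2)) * expS (I * (2 * σ - 1)) * (PowerSeries.C (υ ^ 3) * Ynu 3)
    + (∑ j ∈ Finset.Icc 2 J, PowerSeries.C (c j * (υ⁻¹) ^ j) * expS (I * (2 * σ + 2 - 3 * j))
        * (PowerSeries.C (υ ^ 3) * Ynu 3) ^ j)
    + PowerSeries.C (6 * υ * ε) * expS (-I) * Ynu (3 + 2 * σ)) = 0

/-- IDB: the leading differences satisfy the linearised law. -/
def StIDB : Prop := ∀ (k : ℕ) (u : ℂ → ℂ) (R : ℝ), 1 ≤ k → UI u R →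
  ∀ (g G : ℕ → ℂ → ℂ), FI kcs (di k) (ρi k k u) (ri k k u) g (V3 R) →
  (∀ j, 1 ≤ j → PolI k k R g j (G j)) → (∀ j, 2 ≤ j → G j 0 = 0) →
  ∀ (ω : ℂ) (L : ℕ) (e : ℂ → ℂ) (γ : ℕ → ℂ → ℂ), Dk 6 k u R G ω L e γ →
    ILaw ((L : ℂ) / (6 * k)) (u 0) (e 0) (fun j => γ j 0)

/-- the linearised law in the coordinate `w = 1 - exp (2 i X)` -/
def IStar (σ c2 : ℂ) (f : ℕ → ℂ) : Prop := f 0 = -c2 ∧ ∀ n, 1 ≤ n →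
  (∑ j ∈ (Finset.range n).filter (fun j => 2 * j < n),
    f j * (-1) ^ n * PowerSeries.coeff (n - 2 * j) (binS (2 * σ + 2 - 2 * j)))
    = c2 * (2 * σ + 3 - n) * (-1) ^ (n - 1) * PowerSeries.coeff (n - 1) (binS (σ + 1))

/-- coefficients in the coordinate `w` -/
noncomputable def fst (σ υ ε : ℂ) (c : ℕ → ℂ) (j : ℕ) : ℂ :=
  if j = 0 then -(3 * υ * ε / (2 * (1 + σ) * (2 + σ))) else
    if j = 1 then ε * υ / 4 else c j * (-(υ ^ 2 / 8)) ^ j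

/-- IRL: from the linearised law to the coordinate `w`. -/
def StIRL : Prop := ∀ (σ : ℝ) (υ ε : ℂ) (c : ℕ → ℂ), 0 < σ → υ ≠ 0 → ILaw σ υ ε c →
  IStar σ (3 * υ * ε / (2 * (1 + σ) * (2 + σ))) (fst σ υ ε c)

/-- coefficients of the Borel transform of `(v (v - 1))^(σ + 1)` -/
noncomputable def tI (σ : ℝ) (m : ℕ) : ℂ :=
  (-1) ^ m * PowerSeries.coeff m (binS ((σ : ℂ) + 1)) * (Complex.Gamma (m - 2 * σ - 2))⁻¹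

/-- Borel transform of `(v (v - 1))^(σ + 1)` (up to a power) -/
noncomputable def TI (σ : ℝ) (ζ : ℂ) : ℂ := ∑' m, tI σ m * ζ ^ m

/-- IBT: a sub-Gevrey solution forces zeros of the Borel transform. -/
def StIBT : Prop := ∀ (σ : ℝ) (c2 : ℂ) (f : ℕ → ℂ), 0 < σ → (∀ n : ℕ, σ ≠ n) → c2 ≠ 0 →
  IStar σ c2 f →
  (∃ C s : ℝ, 1 ≤ C ∧ 0 ≤ s ∧ s < 1 ∧ ∀ j, 1 ≤ j → ‖f j‖ ≤ C ^ j * ((2 * j).factorial : ℝ) ^ s) →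
    TI σ (2 * Real.pi * I) = 0 ∧ TI σ (4 * Real.pi * I) = 0

/-- STU: Sturm comparison. -/
def StSTU : Prop := ∀ (σ : ℝ) (y y' : ℝ → ℝ), 0 < σ →
  (∀ x ∈ Icc Real.pi (2 * Real.pi), HasDerivAt y (y' x) x ∧
    HasDerivAt y' ((2 * σ + 2) * y' x / x - y x) x) → y Real.pi = 0 → y (2 * Real.pi) = 0 →
    ∀ x ∈ Icc Real.pi (2 * Real.pi), y x = 0

/-- ITN: the Borel transform does not vanish at both points. -/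
def StITN : Prop := ∀ σ : ℝ, 0 < σ → (∀ n : ℕ, σ ≠ n) →
  ¬ (TI σ (2 * Real.pi * I) = 0 ∧ TI σ (4 * Real.pi * I) = 0)

/-- IEX: the radius of curvature is not ramified at an isotropic branch. -/
def StIEX : Prop := ∀ (k : ℕ) (v : ℂ → ℂ) (R : ℝ) (ρ Ψ : ℂ → ℂ) (s1 : ℂ),
  1 ≤ k → UI v R → s1 ∈ Metric.ball (0 : ℂ) (R ^ 6) → s1 ≠ 0 → AnalyticAt ℂ Ψ s1 →
  (∀ᶠ s in 𝓝 s1, cexp (2 * I * Ψ s) = s ^ k ∧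
    ρ (Ψ s) * cexp (I * Ψ s) = s ^ (k + k) * v s ^ 3) → Good kcs ρ (Ψ s1) →
    ∀ ω : ℂ, ω ^ k = 1 → ∀ z ∈ Metric.ball (0 : ℂ) (R ^ 6), v (ω * z) = v z

/-! ## Geometry -/

/-- `t0` is a regular place: up to a (possibly ramified) change of parameter the curve is immersed
without inflection there -/
def Reg (Z W : ℂ → ℂ) (t0 : ℂ) : Prop := ∃ h Z' W' : ℂ → ℂ, AnalyticAt ℂ h t0 ∧ h t0 = 0 ∧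
  AnalyticAt ℂ Z' 0 ∧ AnalyticAt ℂ W' 0 ∧ (∀ᶠ t in 𝓝 t0, Z t = Z' (h t)) ∧
  (∀ᶠ t in 𝓝 t0, W t = W' (h t)) ∧ Wr Z' W' 0 ≠ 0

/-- SIR: coordinates at a non-isotropic branch, with derivatives. -/
def StSIR : Prop := ∀ (Z W : ℂ → ℂ) (t0 : ℂ) (m k : ℕ), 1 ≤ k → AnalyticAt ℂ Z t0 →
  AnalyticAt ℂ W t0 → Br Z W t0 m k →
    ∃ (R : ℝ) (T u : ℂ → ℂ), UN u R ∧ T 0 = t0 ∧ deriv T 0 ≠ 0 ∧
      DifferentiableOn ℂ T (Metric.ball 0 (R ^ 3)) ∧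
      (∀ s ∈ Metric.ball (0 : ℂ) (R ^ 3), s ≠ 0 → T s ≠ t0) ∧
      (∃ Φ0 : ℂ, ∀ s ∈ Metric.ball (0 : ℂ) (R ^ 3), s ≠ 0 → ∀ Φ ρ : ℂ → ℂ, Pair Z W (T s) Φ ρ →
        ∃ (j : ℤ) (ω : ℂ), ω ≠ 0 ∧ Φ (T s) = Φ0 + Real.pi * j + s ^ k ∧
          ∀ᶠ s' in 𝓝 s, ρ (Φ0 + Real.pi * j + s' ^ k) * s' ^ k = s' ^ (m + 1) * (ω * u s') ^ 3) ∧
      ∃ c1 c2 : ℂ, c1 ≠ 0 ∧ c2 ≠ 0 ∧ ∀ s ∈ Metric.ball (0 : ℂ) (R ^ 3),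
        HasDerivAt (fun x => Z (T x)) (c1 * s ^ m * u s ^ 3 * cexp (s ^ k * I)) s ∧
        HasDerivAt (fun x => W (T x)) (c2 * s ^ m * u s ^ 3 * cexp (-(s ^ k * I))) s

/-- ISR: coordinates at an isotropic branch, with derivatives. -/
def StISR : Prop := ∀ (Z W : ℂ → ℂ) (t0 : ℂ) (m k : ℕ), 1 ≤ k → AnalyticAt ℂ Z t0 →
  AnalyticAt ℂ W t0 → BrI Z W t0 m k →
    ∃ (R : ℝ) (T v : ℂ → ℂ), UI v R ∧ T 0 = t0 ∧ deriv T 0 ≠ 0 ∧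
      DifferentiableOn ℂ T (Metric.ball 0 (R ^ 6)) ∧
      (∀ s ∈ Metric.ball (0 : ℂ) (R ^ 6), s ≠ 0 → T s ≠ t0) ∧
      (∀ s ∈ Metric.ball (0 : ℂ) (R ^ 6), s ≠ 0 → ∀ Φ ρ : ℂ → ℂ, Pair Z W (T s) Φ ρ →
        AnalyticAt ℂ (fun s' => Φ (T s')) s ∧ ∀ᶠ s' in 𝓝 s,
          cexp (2 * I * Φ (T s')) = s' ^ k ∧
            ρ (Φ (T s')) * cexp (I * Φ (T s')) = s' ^ (m + 1 + k) * v s' ^ 3) ∧
      ∃ c1 c2 : ℂ, c1 ≠ 0 ∧ c2 ≠ 0 ∧ ∀ s ∈ Metric.ball (0 : ℂ) (R ^ 6),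
        HasDerivAt (fun x => Z (T x)) (c1 * s ^ (m + k) * v s ^ 3) s ∧
        HasDerivAt (fun x => W (T x)) (c2 * s ^ m * v s ^ 3) s

/-- GIN: an analytic function invariant under the `k`-th roots of unity. -/
def StGIN : Prop := ∀ (k : ℕ) (r : ℝ) (f : ℂ → ℂ), 1 ≤ k → 0 < r →
  DifferentiableOn ℂ f (Metric.ball 0 r) →
  (∀ ω : ℂ, ω ^ k = 1 → ∀ s ∈ Metric.ball (0 : ℂ) r, f (ω * s) = f s) →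
    ∃ F : ℂ → ℂ, AnalyticAt ℂ F 0 ∧ ∀ᶠ s in 𝓝 (0 : ℂ), f s = F (s ^ k)

/-- GRN: non-isotropic branches with good points nearby are regular places. -/
def StGRN : Prop := ∀ (Z W : ℂ → ℂ) (t0 : ℂ) (m k : ℕ), m + 1 = k → AnalyticAt ℂ Z t0 →
  AnalyticAt ℂ W t0 → Br Z W t0 m k → (∀ᶠ t in 𝓝[≠] t0, GoodAt Z W t) → Reg Z W t0

/-- GRI: isotropic branches with good points nearby are regular places. -/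
def StGRI : Prop := ∀ (Z W : ℂ → ℂ) (t0 : ℂ) (m k : ℕ), m + 1 = k → AnalyticAt ℂ Z t0 →
  AnalyticAt ℂ W t0 → BrI Z W t0 m k → (∀ᶠ t in 𝓝[≠] t0, GoodAt Z W t) → Reg Z W t0

/-- REG: case distinction. -/
def StREG : Prop := ∀ (Z W : ℂ → ℂ) (t0 : ℂ), AnalyticAt ℂ Z t0 → AnalyticAt ℂ W t0 →
  (¬ ∀ᶠ t in 𝓝 t0, Wr Z W t = 0) →
  (∀ m k : ℕ, 1 ≤ k → Br Z W t0 m k → Reg Z W t0) →
  (∀ m k : ℕ, 1 ≤ k → BrI Z W t0 m k → Reg Z W t0) →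
  (∀ m k : ℕ, 1 ≤ k → BrI W Z t0 m k → Reg W Z t0) → Reg Z W t0

/-- FLZ: the final theorem. -/
def StFLZ : Prop := ∀ (γ : ℝ → ℂ) (ρ : ℝ → ℝ), IsOval γ ρ → ∀ (K : ℝ → ℝ → ℝ) (ε : ℝ), 0 < ε →
  AnalyticOnNhd ℝ (Function.uncurry K) {z | |z.2 - sup (γ z.1) z.1| < ε} →
  (∀ s : ℝ, ∃ εs > 0, ∀ δ : ℝ, 0 < δ → δ < εs →
    K (s + δ) (sup (γ s) (s + δ)) = K (s - δ) (sup (γ s) (s - δ))) →
  (¬ ∃ c, ∀ φ p : ℝ, |p - sup (γ φ) φ| < ε → K φ p = c) →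
  ∀ (n : ℕ) (a : ℕ → ℂ) (r : ℕ → ℝ) (Z W : ℕ → ℂ → ℂ), Chain2 n a r Z W →
  ∀ (θ : ℝ → ℝ) (x0 x1 : ℝ), ContinuousOn θ (Ioo x0 x1) →
  (∀ t ∈ Ioo x0 x1, (t : ℂ) ∈ Metric.ball (a 0) (r 0) ∧ Z 0 t = γ (θ t) ∧
    W 0 t = (starRingEnd ℂ) (γ (θ t))) →
  (∃ s ∈ Ioo x0 x1, ∃ t ∈ Ioo x0 x1, γ (θ s) ≠ γ (θ t)) →
    ∀ t0 ∈ Metric.ball (a n) (r n), (¬ ∀ᶠ t in 𝓝 t0, Wr (Z n) (W n) t = 0) ∧ Reg (Z n) (W n) t0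

/-! ## Trigonometric polynomials -/

/-- `Δ^2 μ λ^2`, where `Δ = Wr Z W = λ^3` and `μ` is the affine curvature -/
noncomputable def Mi (Z W : ℂ → ℂ) (t : ℂ) : ℂ :=
  5 / 9 * (deriv (Wr Z W) t) ^ 2 - 1 / 3 * deriv (deriv (Wr Z W)) t * Wr Z W t
    - (deriv (deriv Z) t * deriv (deriv (deriv W)) t
        - deriv (deriv (deriv Z)) t * deriv (deriv W) t) * Wr Z W t

/-- TMI: the affine curvature is bounded near a regular place. -/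
def StTMI : Prop := ∀ (Z W : ℂ → ℂ) (t0 : ℂ), Reg Z W t0 →
  ∃ C : ℝ, ∀ᶠ t in 𝓝 t0, ‖Mi Z W t‖ ^ 3 ≤ C * ‖Wr Z W t‖ ^ 8

/-- TMB: trigonometric polynomials with bounded affine curvature. -/
def StTMB : Prop := ∀ (N : ℕ) (c : ℤ → ℂ), (∃ s, Wr (tp N c) (tp N (cjc c)) s ≠ 0) →
  (∀ t0 : ℂ, ∃ C : ℝ, ∀ᶠ t in 𝓝 t0,
    ‖Mi (tp N c) (tp N (cjc c)) t‖ ^ 3 ≤ C * ‖Wr (tp N c) (tp N (cjc c)) t‖ ^ 8) →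
    (∀ s, Mi (tp N c) (tp N (cjc c)) s = 0) ∨ (∀ s, Wr (tp N c) (tp N (cjc c)) s ≠ 0)

/-- TMP: vanishing affine curvature. -/
def StTMP : Prop := ∀ Z W : ℂ → ℂ, Differentiable ℂ Z → Differentiable ℂ W →
  (∃ s, Wr Z W s ≠ 0) → (∀ s, Mi Z W s = 0) →
    ∃ A B a b c1 c2 : ℂ, B * a - A * b = 1 ∧ ∀ s,
      Z s = A / 2 * (B * Z s - A * W s) ^ 2 + a * (B * Z s - A * W s) + c1 ∧
      W s = B / 2 * (B * Z s - A * W s) ^ 2 + b * (B * Z s - A * W s) + c2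

/-- TMO: no oval on a parabola. -/
def StTMO : Prop := ∀ (γ : ℝ → ℂ) (ρ : ℝ → ℝ), IsOval γ ρ → ∀ A B a b c1 c2 : ℂ,
  B * a - A * b = 1 →
  (∀ φ : ℝ, γ φ = A / 2 * (B * γ φ - A * (starRingEnd ℂ) (γ φ)) ^ 2
      + a * (B * γ φ - A * (starRingEnd ℂ) (γ φ)) + c1 ∧
    (starRingEnd ℂ) (γ φ) = B / 2 * (B * γ φ - A * (starRingEnd ℂ) (γ φ)) ^ 2
      + b * (B * γ φ - A * (starRingEnd ℂ) (γ φ)) + c2) → False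

/-- TRX: the final theorem for trigonometric polynomials. -/
def StTRX : Prop := ∀ (γ : ℝ → ℂ) (ρ : ℝ → ℝ), IsOval γ ρ → ∀ (K : ℝ → ℝ → ℝ) (ε : ℝ), 0 < ε →
  AnalyticOnNhd ℝ (Function.uncurry K) {z | |z.2 - sup (γ z.1) z.1| < ε} →
  (∀ s : ℝ, ∃ εs > 0, ∀ δ : ℝ, 0 < δ → δ < εs →
    K (s + δ) (sup (γ s) (s + δ)) = K (s - δ) (sup (γ s) (s - δ))) →
  (¬ ∃ c, ∀ φ p : ℝ, |p - sup (γ φ) φ| < ε → K φ p = c) →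
  ∀ (N : ℕ) (c : ℤ → ℂ) (θ : ℝ → ℝ), Continuous θ → Function.Surjective θ →
  (∀ t : ℝ, γ (θ t) = ∑ k ∈ Finset.Icc (-(N : ℤ)) N, c k * cexp (k * t * I)) →
    ∃ (c : ℂ) (a b d : ℝ), 0 < a ∧ 0 < a * d - b ^ 2 ∧
      Set.range γ = {x : ℂ | a * (x.re - c.re) ^ 2 + 2 * b * (x.re - c.re) * (x.im - c.im)
        + d * (x.im - c.im) ^ 2 = 1}

end H719FX
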