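import Pool.Agent.H719R4.FX.Cov

/-!
# DCK: existence of a deck transformation that changes `u`
-/

open Complex Set Filter Topology

namespace H719FX

open H738CZ

theorem DCK_sum (N L : ℕ) (hN : N ≠ 0) (ω : ℂ) (hωN : ω ^ N = 1) (hnω : ‖ω‖ = 1) (R : ℝ)
    (hR : 0 < R) (H e : ℂ → ℂ) (he : DifferentiableOn ℂ e (Metric.ball 0 R)) (he0 : e 0 ≠ 0)
    (heq : ∀ τ ∈ Metric.ball (0 : ℂ) R, H (ω * τ) - H τ = τ ^ L * e τ) : ¬ N ∣ L := by
  intro hdvd
  have hωL : ω ^ L = 1 := by
    obtain ⟨m, rfl⟩ := hdvd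
    rw [pow_mul, hωN, one_pow]
  have hmem : ∀ (j : ℕ) (τ : ℂ), τ ∈ Metric.ball (0 : ℂ) R → ω ^ j * τ ∈ Metric.ball (0 : ℂ) R := by
    intro j τ hτ
    rw [mem_ball_zero_iff] at hτ ⊢
    rw [norm_mul, norm_pow, hnω, one_pow, one_mul]
    exact hτ
  have hzero : ∀ τ ∈ Metric.ball (0 : ℂ) R, τ ≠ 0 →
      ∑ j ∈ Finset.range N, e (ω ^ j * τ) = 0 := by
    intro τ hτ hτ0
    have h1 : ∑ j ∈ Finset.range N, (H (ω ^ (j + 1) * τ) - H (ω ^ j * τ)) = 0 := by
      rw [Finset.sum_range_sub (fun j => H (ω ^ j * τ)), hωN, pow_zero, sub_self]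
    have h2 : ∀ j ∈ Finset.range N, H (ω ^ (j + 1) * τ) - H (ω ^ j * τ) =
        τ ^ L * e (ω ^ j * τ) := by
      intro j _
      have h3 := heq _ (hmem j τ hτ)
      have h4 : ω * (ω ^ j * τ) = ω ^ (j + 1) * τ := by ring
      rw [h4] at h3
      rw [h3, mul_pow, ← pow_mul, mul_comm j L, pow_mul, hωL, one_pow, one_mul]
    rw [Finset.sum_congr rfl h2, ← Finset.mul_sum] at h1
    rcases mul_eq_zero.1 h1 with h | h
    · exact absurd h (pow_ne_zero _ hτ0)
    · exact h
  have hcont : ContinuousAt e 0 :=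
    (he.differentiableAt (Metric.isOpen_ball.mem_nhds (Metric.mem_ball_self hR))).continuousAt
  have hS : ContinuousAt (fun τ : ℂ => ∑ j ∈ Finset.range N, e (ω ^ j * τ)) 0 := by
    refine tendsto_finsetSum _ fun j _ => ?_
    have h1 : ContinuousAt (fun τ : ℂ => ω ^ j * τ) 0 := continuousAt_const.mul continuousAt_id
    have h2 : ContinuousAt e (ω ^ j * 0) := by rw [mul_zero]; exact hcont
    exact ContinuousAt.comp (f := fun τ : ℂ => ω ^ j * τ) h2 h1
  have h3 : Tendsto (fun τ : ℂ => ∑ j ∈ Finset.range N, e (ω ^ j * τ)) (𝓝[≠] 0)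
      (𝓝 (∑ j ∈ Finset.range N, e (ω ^ j * 0))) := hS.tendsto.mono_left nhdsWithin_le_nhds
  have h4 : Tendsto (fun τ : ℂ => ∑ j ∈ Finset.range N, e (ω ^ j * τ)) (𝓝[≠] 0) (𝓝 0) := by
    refine tendsto_const_nhds.congr' ?_
    have h5 : ∀ᶠ τ : ℂ in 𝓝[≠] 0, τ ∈ Metric.ball (0 : ℂ) R :=
      nhdsWithin_le_nhds (Metric.isOpen_ball.mem_nhds (Metric.mem_ball_self hR))
    filter_upwards [h5, self_mem_nhdsWithin] with τ h6 h7
    exact (hzero τ h6 h7).symm
  have h5 := tendsto_nhds_unique h3 h4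
  simp only [mul_zero, Finset.sum_const, Finset.card_range, nsmul_eq_mul] at h5
  rcases mul_eq_zero.1 h5 with h | h
  · exact hN (by exact_mod_cast h)
  · exact he0 h

theorem tDCK : StDCK := by
  intro q k u R ω0 hq hk hR hu hω0 hne
  obtain ⟨ω, hω⟩ := IsAlgClosed.exists_pow_nat_eq ω0 (n := q) (by omega)
  have hωN : ω ^ (q * k) = 1 := by rw [pow_mul, hω, hω0]
  have hN : q * k ≠ 0 := Nat.mul_ne_zero (by omega) (by omega)
  have hq0 : q ≠ 0 := by omega
  have hnω : ‖ω‖ = 1 := by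
    have h1 := congrArg norm hωN
    rw [norm_pow, norm_one] at h1
    exact (pow_eq_one_iff_of_nonneg (norm_nonneg _) hN).1 h1
  set H : ℂ → ℂ := fun t => u (t ^ q) with hH
  have hmaps : ∀ t ∈ Metric.ball (0 : ℂ) R, t ^ q ∈ Metric.ball (0 : ℂ) (R ^ q) := by
    intro t ht
    rw [mem_ball_zero_iff] at ht ⊢
    rw [norm_pow]
    exact pow_lt_pow_left₀ ht (norm_nonneg _) hq0
  have hωmaps : ∀ t ∈ Metric.ball (0 : ℂ) R, ω * t ∈ Metric.ball (0 : ℂ) R := by
    intro t ht
    rw [mem_ball_zero_iff] at ht ⊢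
    rw [norm_mul, hnω, one_mul]
    exact ht
  have hHd : DifferentiableOn ℂ H (Metric.ball 0 R) :=
    hu.comp ((differentiable_id.pow q).differentiableOn) hmaps
  set d : ℂ → ℂ := fun t => H (ω * t) - H t with hd
  have hdd : DifferentiableOn ℂ d (Metric.ball 0 R) :=
    (hHd.comp ((differentiable_id.const_mul ω).differentiableOn) hωmaps).sub hHd
  have hda : AnalyticOnNhd ℂ d (Metric.ball 0 R) := hdd.analyticOnNhd Metric.isOpen_ball
  have hd0 : d 0 = 0 := by simp [hd]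
  have hne' : ¬ ∀ᶠ z in 𝓝 (0 : ℂ), d z = 0 := by
    intro hev
    have h1 := hda.eqOn_zero_of_preconnected_of_eventuallyEq_zero
      (convex_ball (0 : ℂ) R).isPreconnected (Metric.mem_ball_self hR) hev
    apply hne
    intro z hz
    obtain ⟨t, ht⟩ := IsAlgClosed.exists_pow_nat_eq z (n := q) (by omega)
    have htR : t ∈ Metric.ball (0 : ℂ) R := by
      rw [mem_ball_zero_iff] at hz ⊢
      rw [← ht, norm_pow] at hz
      exact lt_of_pow_lt_pow_left₀ q hR.le hz
    have h2 : d t = 0 := h1 htR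
    have h3 : u ((ω * t) ^ q) - u (t ^ q) = 0 := h2
    rw [mul_pow, hω, ht] at h3
    exact sub_eq_zero.1 h3
  obtain ⟨L, g, hg, hg0, hgd⟩ :=
    (hda 0 (Metric.mem_ball_self hR)).exists_eventuallyEq_pow_smul_nonzero_iff.2 hne'
  have hL : 1 ≤ L := by
    rcases Nat.eq_zero_or_pos L with h | h
    · exfalso
      subst h
      have h1 := hgd.self_of_nhds
      rw [hd0, pow_zero, one_smul] at h1
      exact hg0 h1.symm
    · exact h
  classical
  set e : ℂ → ℂ := fun t => if t = 0 then g 0 else d t / t ^ L with he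
  have heg : e =ᶠ[𝓝 0] g := by
    filter_upwards [hgd] with z hz
    by_cases h : z = 0
    · simp [he, h]
    · simp only [he, if_neg h]
      rw [hz, sub_zero, smul_eq_mul, mul_div_cancel_left₀ _ (pow_ne_zero _ h)]
  have hed : DifferentiableOn ℂ e (Metric.ball 0 R) := by
    intro t ht
    by_cases h : t = 0
    · subst h
      exact (hg.differentiableAt.congr_of_eventuallyEq heg).differentiableWithinAt
    · have h1 : e =ᶠ[𝓝 t] fun t => d t / t ^ L := by
        filter_upwards [isOpen_ne.mem_nhds h] with z hz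
        simp only [he]
        rw [if_neg hz]
      exact (((hdd.differentiableAt (Metric.isOpen_ball.mem_nhds ht)).div
        (differentiableAt_id.pow L) (pow_ne_zero L h)).congr_of_eventuallyEq h1).differentiableWithinAt
  have he0 : e 0 ≠ 0 := by simpa [he] using hg0
  have heq : ∀ τ ∈ Metric.ball (0 : ℂ) R, H (ω * τ) - H τ = τ ^ L * e τ := by
    intro τ _
    by_cases h : τ = 0
    · subst h
      rw [mul_zero, sub_self, zero_pow (by omega), zero_mul]
    · simp only [he, if_neg h]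
      rw [mul_div_cancel₀ _ (pow_ne_zero _ h)]
  exact ⟨ω, L, e, hωN, hL, DCK_sum (q * k) L hN ω hωN hnω R hR H e hed he0 heq, hed, he0, heq⟩

end H719FX
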