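import Pool.Agent.H738R3.CZ.Defs

/-!
# Complex inflection points and cusps of the boundary obstruct analytic integrability

Definitions and statements (`Prop`s) only; no proofs.  `H719FX`.  This is the version of project
`CZ` (`Pool.Agent.H738R3.CZ`) for a branch `(p, p + k)` of the complexified boundary:
`φ = t ^ k`, `ρ = t ^ (p - k) * u t ^ 3`, `t = τ ^ 3`, where `u` has no zeros.
(Project `CZ` is the case `k = 1`, `p = m + 1`.)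
-/

open Complex Set Filter Topology

namespace H719FX

open H738CZ

/-! ## The singular point -/

/-- `dφ/dτ`, `φ = τ ^ (3 k)` -/
noncomputable def dk (k : ℕ) : ℂ → ℂ := fun τ => 3 * k * τ ^ (3 * k - 1)

/-- cube root of `ρ` -/
noncomputable def rk (p k : ℕ) (u : ℂ → ℂ) : ℂ → ℂ := fun τ => τ ^ p * u (τ ^ 3) / τ ^ k

noncomputable def ρk (p k : ℕ) (u : ℂ → ℂ) : ℂ → ℂ := fun τ => (rk p k u τ) ^ 3

/-- INT: passing to the coordinate `τ`. -/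
def StINT : Prop := ∀ (kc : ℕ → ℂ) (p k : ℕ) (u : ℂ → ℂ) (R : ℝ) (ρ : ℂ → ℂ) (t1 : ℂ), 1 ≤ p →
  1 ≤ k → UN u R → t1 ∈ Metric.ball (0 : ℂ) (R ^ 3) → t1 ≠ 0 →
  (∀ᶠ t in 𝓝 t1, ρ (t ^ k) * t ^ k = t ^ p * u t ^ 3) → Good kc ρ (t1 ^ k) →
    ∃ (ω τ1 : ℂ) (η : ℝ) (g : ℕ → ℂ → ℂ), ω ^ 3 = 1 ∧ 0 < η ∧ Metric.ball τ1 η ⊆ V3 R ∧
      FI kc (dk k) (ρk p k (fun z => ω * u z)) (rk p k (fun z => ω * u z)) g (Metric.ball τ1 η) ∧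
      SG g (Metric.ball τ1 η)

/-- pole order condition for `g j` -/
def Pol (p k : ℕ) (R : ℝ) (g : ℕ → ℂ → ℂ) (j : ℕ) (G : ℂ → ℂ) : Prop :=
  DifferentiableOn ℂ G (Metric.ball 0 R) ∧
    ∀ τ ∈ V3 R, g j τ * τ ^ ((2 * p + 4 * k) * (j - 1)) = G τ

/-- WT: pole order of the inhomogeneous term. -/
def StWT : Prop := ∀ (kc : ℕ → ℂ), Ker kc → ∀ (p k : ℕ) (u : ℂ → ℂ) (R : ℝ), 1 ≤ p → 1 ≤ k →
  UN u R → ∀ (g : ℕ → ℂ → ℂ) (J : ℕ), 2 ≤ J →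
  (∀ j, 1 ≤ j → j < J → DifferentiableOn ℂ (g j) (V3 R)) →
  (∀ j, 1 ≤ j → j < J → ∃ G, Pol p k R g j G) →
    ∃ F : ℂ → ℂ, DifferentiableOn ℂ F (Metric.ball 0 R) ∧ ∀ τ ∈ V3 R,
      ((rk p k u τ)⁻¹) ^ (2 * J) * Lo kc (dk k) (ρk p k u) (rk p k u) g J τ
        * τ ^ ((2 * p + 4 * k) * (J - 1) + 3 * k) = F τ

/-- EXT: extension to the punctured disc (no logarithms), with pole orders. -/
def StEXT : Prop := ∀ (kc : ℕ → ℂ), Ker kc → ∀ (p k : ℕ) (u : ℂ → ℂ) (R : ℝ), 1 ≤ p → 1 ≤ k →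
  UN u R → ∀ (g : ℕ → ℂ → ℂ) (τ1 : ℂ) (η : ℝ), 0 < η → Metric.ball τ1 η ⊆ V3 R →
  FI kc (dk k) (ρk p k u) (rk p k u) g (Metric.ball τ1 η) →
    ∃ g' : ℕ → ℂ → ℂ, FI kc (dk k) (ρk p k u) (rk p k u) g' (V3 R) ∧
      (∀ j, 1 ≤ j → EqOn (g' j) (g j) (Metric.ball τ1 η)) ∧
      ∃ G : ℕ → ℂ → ℂ, ∀ j, 1 ≤ j → Pol p k R g' j (G j)

/-- PRV: sub-Gevrey bounds propagate in the punctured disc. -/
def StPRV : Prop := ∀ (kc : ℕ → ℂ), Ker kc → ∀ (p k : ℕ) (u : ℂ → ℂ) (R : ℝ), 1 ≤ p → 1 ≤ k →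
  UN u R → ∀ (g : ℕ → ℂ → ℂ), FI kc (dk k) (ρk p k u) (rk p k u) g (V3 R) →
  ∀ (τ1 : ℂ) (η : ℝ), 0 < η → Metric.ball τ1 η ⊆ V3 R → SG g (Metric.ball τ1 η) →
    ∀ τ ∈ V3 R, ∃ η' > 0, Metric.ball τ η' ⊆ V3 R ∧ SG g (Metric.ball τ η')

/-- CRC: sub-Gevrey bounds for the leading coefficients. -/
def StCRC : Prop := ∀ (p k : ℕ) (R : ℝ) (g G : ℕ → ℂ → ℂ), 0 < R →
  (∀ τ ∈ V3 R, ∃ η' > 0, Metric.ball τ η' ⊆ V3 R ∧ SG g (Metric.ball τ η')) →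
  (∀ j, 1 ≤ j → Pol p k R g j (G j)) →
    ∃ C s : ℝ, 1 ≤ C ∧ 0 ≤ s ∧ s < 1 ∧
      ∀ j, 1 ≤ j → ‖G j 0‖ ≤ C ^ j * ((2 * j).factorial : ℝ) ^ s

/-- Taylor series of `υ³ ∫₀^X (1+s)^σ (X-s) ds`, `σ = (p - k) / k` -/
noncomputable def Yp (p k : ℕ) (υ : ℂ) : PowerSeries ℂ :=
  PowerSeries.mk fun n => if n < 2 then 0 else
    υ ^ 3 * (∏ i ∈ Finset.range (n - 2), (((p : ℂ) - k) / k - i)) / (n.factorial : ℂ)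

/-- the homogeneous (model) law -/
def MLaw (p k : ℕ) (υ : ℂ) (β : ℕ → ℂ) : Prop := ∀ J, 1 ≤ J →
  PowerSeries.coeff (2 * J + 1) (∑ j ∈ Finset.Icc 1 J,
    PowerSeries.C (β j) * binS ((2 * (p : ℂ) + 4 * k - (3 * p + 3 * k) * j) / (3 * k))
      * (Yp p k υ) ^ j) = 0

/-- LIM: the leading coefficients satisfy the model law. -/
def StLIM : Prop := ∀ (kc : ℕ → ℂ), Ker kc → ∀ (p k : ℕ) (u : ℂ → ℂ) (R : ℝ), 1 ≤ p → 1 ≤ k →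
  UN u R → ∀ (g G : ℕ → ℂ → ℂ), FI kc (dk k) (ρk p k u) (rk p k u) g (V3 R) →
  (∀ j, 1 ≤ j → Pol p k R g j (G j)) → MLaw p k (u 0) (fun j => G j 0 * ((u 0)⁻¹) ^ j)

/-! ## The model -/

noncomputable def Bm (p k : ℕ) (s : ℂ) : ℂ :=
  1 - ((p : ℂ) + k) / k * s ^ p + (p : ℂ) / k * s ^ (p + k)

/-- derivative of `Bm` -/
noncomputable def Bd (p k : ℕ) (s : ℂ) : ℂ :=
  (p : ℂ) * (p + k) / k * s ^ (p - 1) * (s ^ k - 1)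

noncomputable def Mo (k : ℕ) (s : ℂ) : ℂ := s * cexp (-(log (2 * s ^ k - 1) / k))

noncomputable def Mc (p k : ℕ) (s : ℂ) : ℂ :=
  cexp ((2 * (p : ℂ) + 4 * k) / (3 * k) * log (2 * s ^ k - 1))

/-- the model relation for coefficients `α` (`α 0` is not used) -/
def MRel (p k : ℕ) (α : ℕ → ℂ) : Prop := ∀ N : ℕ,
  (fun s : ℂ => ∑ j ∈ Finset.Ico 1 N, α j * Bm p k s ^ j
      - Mc p k s * ∑ j ∈ Finset.Ico 1 N, α j * Bm p k (Mo k s) ^ j)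
    =O[𝓝 1] fun s => (s - 1) ^ (2 * N + 1)

/-- MDL: from the model law to the model relation. -/
def StMDL : Prop := ∀ (p k : ℕ) (υ : ℂ) (β : ℕ → ℂ), 1 ≤ p → 1 ≤ k → υ ≠ 0 → MLaw p k υ β →
  MRel p k (fun j => β j * (υ ^ 3 * k ^ 2 / (p * (p + k))) ^ j)

/-- the closed sector in the exterior of the unit disc -/
def Dm (p k : ℕ) : Set ℂ := {s | 1 ≤ ‖s‖ ∧ |arg s| ≤ Real.pi / (p + k)}

/-- local uniformising coordinate `w`, `Bm (X w) = w²` -/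
structure Loc (p k : ℕ) (r c1 : ℝ) (X W : ℂ → ℂ) : Prop where
  r0 : 0 < r
  c0 : 0 < c1
  dX : DifferentiableOn ℂ X (Metric.ball 0 r)
  X0 : X 0 = 1
  X1 : deriv X 0 = c1
  BX : ∀ w ∈ Metric.ball (0 : ℂ) r, Bm p k (X w) = w ^ 2
  sl : ∀ w ∈ Metric.ball (0 : ℂ) r, 2 * X w ^ k - 1 ∈ slitPlane
  ge : ∀ w ∈ Metric.ball (0 : ℂ) r, 0 ≤ w.re → X w ∈ Dm p k
  imp : ∀ w ∈ Metric.ball (0 : ℂ) r, 0 ≤ w.im → 0 ≤ (X w).im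
  imn : ∀ w ∈ Metric.ball (0 : ℂ) r, w.im ≤ 0 → (X w).im ≤ 0
  aW : AnalyticAt ℂ W 1
  W0 : W 1 = 0
  XW : ∀ᶠ x in 𝓝 (1 : ℂ), X (W x) = x
  WX : ∀ᶠ w in 𝓝 (0 : ℂ), W (X w) = w

/-- LOC: existence of the local coordinate. -/
def StLOC : Prop := ∀ p k : ℕ, 1 ≤ p → 1 ≤ k → ∃ (r c1 : ℝ) (X W : ℂ → ℂ), Loc p k r c1 X W

/-- TE: expansions of the return map and the factor in the local coordinate. -/
def StTE : Prop := ∀ (p k : ℕ) (r c1 : ℝ) (X W : ℂ → ℂ), 1 ≤ p → 1 ≤ k → Loc p k r c1 X W →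
  AnalyticAt ℂ (fun w => - W (Mo k (X w))) 0 ∧ AnalyticAt ℂ (fun w => Mc p k (X w)) 0 ∧
  (fun w : ℂ => - W (Mo k (X w)) - (w - ((2 * (p : ℂ) + 4 * k) / 3 * c1) * w ^ 2))
    =O[𝓝 0] (fun w => w ^ 3) ∧
  (fun w : ℂ => Mc p k (X w) - (1 + 2 * ((2 * (p : ℂ) + 4 * k) / 3 * c1) * w))
    =O[𝓝 0] (fun w => w ^ 2)

/-- M4: convergence in the model. -/
def StM4 : Prop := ∀ (p k : ℕ) (α : ℕ → ℂ), 1 ≤ p → 1 ≤ k → MRel p k α →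
  (∃ C s : ℝ, 1 ≤ C ∧ 0 ≤ s ∧ s < 1 ∧ ∀ j, 1 ≤ j → ‖α j‖ ≤ C ^ j * ((2 * j).factorial : ℝ) ^ s) →
    ∃ C : ℝ, ∀ j, 1 ≤ j → ‖α j‖ ≤ C ^ j

/-! ## The model has no convergent solution unless `p = k` -/

/-- the vector field `Bm / Bd` divided by `s`, as a function of `v = 1 / s` -/
noncomputable def hf (p k : ℕ) (v : ℂ) : ℂ :=
  1 / ((p : ℂ) + k) - (k : ℂ) / (p * (p + k)) * v ^ k *
    (∑ i ∈ Finset.range p, v ^ i) / ∑ i ∈ Finset.range k, v ^ i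

noncomputable def vf (p k : ℕ) (s : ℂ) : ℂ := s * hf p k s⁻¹

/-- identities and inequalities, first part -/
structure VA (p k : ℕ) : Prop where
  /-- derivative of `Bm` -/
  dB : ∀ s : ℂ, HasDerivAt (Bm p k) (Bd p k s) s
  sl : ∀ s ∈ Dm p k, 2 * s ^ k - 1 ∈ slitPlane
  ge : ∀ s ∈ Dm p k, 1 ≤ ‖2 * s ^ k - 1‖
  gt : ∀ s ∈ Dm p k, s ≠ 1 → s ^ k ≠ 1 ∧ 1 < ‖2 * s ^ k - 1‖
  mo : ∀ s ∈ Dm p k, ‖Mo k s‖ ≤ 1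
  cj : ∀ s : ℂ, Bm p k ((starRingEnd ℂ) s) = (starRingEnd ℂ) (Bm p k s)

/-- identities, second part -/
structure VB (p k : ℕ) : Prop where
  /-- derivative of `Bm ∘ Mo` -/
  dM : ∀ s : ℂ, 2 * s ^ k - 1 ∈ slitPlane → HasDerivAt (fun y => Bm p k (Mo k y))
    (Bd p k s * cexp (-(((p : ℂ) + 2 * k) / k * log (2 * s ^ k - 1)))) s
  /-- the denominator of `hf` -/
  nz : ∀ s ∈ Dm p k, ∑ i ∈ Finset.range k, (s⁻¹) ^ i ≠ 0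
  vB : ∀ s ∈ Dm p k, vf p k s * Bd p k s = Bm p k s

/-- inequalities, third part -/
structure VC (p k : ℕ) : Prop where
  /-- positivity on the unit circle -/
  ar : ∀ s ∈ Dm p k, ‖s‖ = 1 → 0 ≤ (hf p k s⁻¹).re
  /-- `hf` is real on the real axis -/
  re : ∀ v : ℝ, (hf p k v).im = 0
  /-- sign of `Im Bm` on the boundary ray -/
  up : ∀ s ∈ Dm p k, arg s = Real.pi / (p + k) → (Bm p k s).im < 0

/-- VA: identities and inequalities for the model. -/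
def StVA : Prop := ∀ p k : ℕ, 1 ≤ p → 1 ≤ k → VA p k

/-- VB -/
def StVB : Prop := ∀ p k : ℕ, 1 ≤ p → 1 ≤ k → VB p k

/-- VC -/
def StVC : Prop := ∀ p k : ℕ, 1 ≤ p → 1 ≤ k → VC p k

/-- same half plane condition -/
def Sg (p k : ℕ) (s : ℂ) : Prop :=
  (0 ≤ s.im ∧ 0 ≤ (Bm p k s).im) ∨ (s.im ≤ 0 ∧ (Bm p k s).im ≤ 0)

/-- a trajectory of `vf` in the sector -/
structure Traj (p k : ℕ) (x0 : ℂ) (x : ℝ → ℂ) : Prop where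
  ini : x 0 = x0
  der : ∀ s, 0 ≤ s → HasDerivWithinAt x (vf p k (x s)) (Ici 0) s
  mem : ∀ s, 0 ≤ s → x s ∈ Dm p k
  val : ∀ s : ℝ, 0 ≤ s → Bm p k (x s) = Real.exp s * Bm p k x0

/-- FF: global trajectories. -/
def StFF : Prop := ∀ (p k : ℕ) (x0 : ℂ), 1 ≤ p → 1 ≤ k → x0 ∈ Dm p k → Sg p k x0 →
  ∃ x : ℝ → ℂ, Traj p k x0 x

/-- SS: starting points. -/
def StSS : Prop := ∀ (p k : ℕ) (ε : ℝ), 1 ≤ p → 1 ≤ k → 0 < ε → ∃ r > 0, ∀ q : ℂ, 0 < ‖q‖ →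
  ‖q‖ < r → ∃ x0 : ℂ, x0 ∈ Dm p k ∧ Sg p k x0 ∧ ‖x0 - 1‖ < ε ∧ Bm p k x0 = q ∧
    ‖Bm p k (Mo k x0)‖ < ‖q‖

/-- TT: contraction along trajectories. -/
def StTT : Prop := ∀ (p k : ℕ) (x0 : ℂ) (x : ℝ → ℂ), 1 ≤ p → 1 ≤ k → Traj p k x0 x →
  Bm p k x0 ≠ 0 → ‖Bm p k (Mo k x0)‖ < ‖Bm p k x0‖ →
    ∀ s, 0 ≤ s → ‖Bm p k (Mo k (x s))‖ < ‖Bm p k (x s)‖

/-- local relation at `1` -/
def Rel1 (p k : ℕ) (F : ℂ → ℂ) : Prop :=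
  ∀ᶠ x in 𝓝 (1 : ℂ), F (Bm p k x) = Mc p k x * F (Bm p k (Mo k x))

/-- relation near `x1`, where the left side is defined only for `‖Bm x‖ < R` -/
def RelAt (p k : ℕ) (F : ℂ → ℂ) (R : ℝ) (x1 : ℂ) : Prop :=
  ∀ᶠ x in 𝓝 x1, ‖Bm p k x‖ < R → F (Bm p k x) = Mc p k x * F (Bm p k (Mo k x))

/-- PP: continuation of the relation along trajectories. -/
def StPP : Prop := ∀ (p k : ℕ) (F : ℂ → ℂ) (R : ℝ), 1 ≤ p → 1 ≤ k → 0 < R →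
  DifferentiableOn ℂ F (Metric.ball 0 R) → Rel1 p k F → ∀ q1 : ℂ, q1 ≠ 0 → ‖q1‖ ≤ R →
    ∃ x1 : ℂ, x1 ∈ Dm p k ∧ Bm p k x1 = q1 ∧ ‖Bm p k (Mo k x1)‖ < ‖q1‖ ∧ RelAt p k F R x1

/-- EE: extension to an entire function. -/
def StEE : Prop := ∀ (p k : ℕ) (F : ℂ → ℂ) (R : ℝ), 1 ≤ p → 1 ≤ k → 0 < R →
  DifferentiableOn ℂ F (Metric.ball 0 R) → Rel1 p k F →
    ∃ F' : ℂ → ℂ, Differentiable ℂ F' ∧ EqOn F' F (Metric.ball 0 R)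

/-- G1: growth, hence `F` is affine. -/
def StG1 : Prop := ∀ (p k : ℕ) (F : ℂ → ℂ), 1 ≤ p → 1 ≤ k → Differentiable ℂ F → Rel1 p k F →
  ∀ q, F q = F 0 + deriv F 0 * q

/-- G2: a linear solution exists only for `p = k`. -/
def StG2 : Prop := ∀ (p k : ℕ), 1 ≤ p → 1 ≤ k → p ≠ k → ¬ Rel1 p k (fun q => q)

/-- RR: from the formal relation to the relation for the sum. -/
def StRR : Prop := ∀ (p k : ℕ) (α : ℕ → ℂ) (C : ℝ), 1 ≤ p → 1 ≤ k → MRel p k α →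
  (∀ j, 1 ≤ j → ‖α j‖ ≤ C ^ j) →
  ∃ (R : ℝ) (F : ℂ → ℂ), 0 < R ∧ DifferentiableOn ℂ F (Metric.ball 0 R) ∧ F 0 = 0 ∧
    deriv F 0 = α 1 ∧ Rel1 p k F

/-- S5: the model has no convergent solution. -/
def StS5 : Prop := ∀ (p k : ℕ) (α : ℕ → ℂ) (C : ℝ), 1 ≤ p → 1 ≤ k → p ≠ k → MRel p k α →
  (∀ j, 1 ≤ j → ‖α j‖ ≤ C ^ j) → α 1 = 0

/-- END: no sub-Gevrey formal integral near the branch, unless `p = k`. -/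
def StEND : Prop := ∀ (kc : ℕ → ℂ), Ker kc → ∀ (p k : ℕ) (u : ℂ → ℂ) (R : ℝ) (ρ : ℂ → ℂ) (t1 : ℂ),
  1 ≤ p → 1 ≤ k → p ≠ k → UN u R → t1 ∈ Metric.ball (0 : ℂ) (R ^ 3) → t1 ≠ 0 →
  (∀ᶠ t in 𝓝 t1, ρ (t ^ k) * t ^ k = t ^ p * u t ^ 3) → ¬ Good kc ρ (t1 ^ k)

end H719FX
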