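import Pool.Agent.H719R4.FX.Defs

/-! Task END (helper609, adapted from helper680): no sub-Gevrey formal integral near a branch. -/

open Complex Set Filter Topology

namespace H719FX

open H738CZ

theorem END_one {p k : ℕ} {R : ℝ} (hR : 0 < R) {g : ℕ → ℂ → ℂ} {G : ℂ → ℂ}
    (hone : ∀ t ∈ V3 R, g 1 t = 2) (hP : Pol p k R g 1 G) : G 0 = 2 := by
  obtain ⟨hd, hG⟩ := hP
  have hV : ∀ τ ∈ V3 R, G τ = 2 := by
    intro τ hτ
    rw [← hG τ hτ, hone τ hτ]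
    simp
  have hcont : ContinuousAt G 0 :=
    (hd.differentiableAt (Metric.ball_mem_nhds _ hR)).continuousAt
  have h1 : Tendsto G (𝓝[≠] 0) (𝓝 (G 0)) := hcont.tendsto.mono_left nhdsWithin_le_nhds
  have h2 : Tendsto G (𝓝[≠] 0) (𝓝 2) := by
    refine tendsto_const_nhds.congr' ?_
    have h3 : Metric.ball (0 : ℂ) R ∈ 𝓝 (0 : ℂ) := Metric.ball_mem_nhds _ hR
    filter_upwards [self_mem_nhdsWithin, mem_nhdsWithin_of_mem_nhds h3] with τ hτ hτ'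
    exact (hV τ ⟨hτ', hτ⟩).symm
  exact tendsto_nhds_unique h1 h2

theorem tEND (hINT : StINT) (hEXT : StEXT) (hPRV : StPRV) (hCRC : StCRC) (hLIM : StLIM)
    (hMDL : StMDL) (hM4 : StM4) (hS5 : StS5) : StEND := by
  intro kc hk p k u R ρ t1 hp hk1 hpk hUN ht1 ht10 hfac hgood
  have hR : 0 < R := hUN.pos
  have hR3 : 0 < R ^ 3 := by positivity
  obtain ⟨ω, τ1, η, g, hω, hη, hsub, hFI, hSG⟩ :=
    hINT kc p k u R ρ t1 hp hk1 hUN ht1 ht10 hfac hgood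
  have hω0 : ω ≠ 0 := by
    intro h
    rw [h] at hω
    norm_num at hω
  obtain ⟨u', hu'⟩ : ∃ u' : ℂ → ℂ, u' = fun z => ω * u z := ⟨_, rfl⟩
  rw [← hu'] at hFI
  have hUN' : UN u' R := by
    rw [hu']
    exact ⟨hUN.pos, hUN.df.const_mul ω, fun z hz => mul_ne_zero hω0 (hUN.nz z hz)⟩
  obtain ⟨g', hFI', heq, G, hG⟩ := hEXT kc hk p k u' R hp hk1 hUN' g τ1 η hη hsub hFI
  have hSG' : SG g' (Metric.ball τ1 η) := by
    obtain ⟨C, s, h1, h2, h3, h4⟩ := hSG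
    refine ⟨C, s, h1, h2, h3, fun j hj t ht => ?_⟩
    rw [heq j hj ht]
    exact h4 j hj t ht
  have hprv := hPRV kc hk p k u' R hp hk1 hUN' g' hFI' τ1 η hη hsub hSG'
  obtain ⟨C, s, hC, hs0, hs1, hbd⟩ := hCRC p k R g' G hR hprv hG
  have hlaw := hLIM kc hk p k u' R hp hk1 hUN' g' G hFI' hG
  have hυ : u' 0 ≠ 0 := hUN'.nz 0 (Metric.mem_ball_self hR3)
  have hrel := hMDL p k (u' 0) _ hp hk1 hυ hlaw
  obtain ⟨κ, hκ⟩ : ∃ κ : ℂ, κ = u' 0 ^ 3 * (k : ℂ) ^ 2 / ((p : ℂ) * (p + k)) := ⟨_, rfl⟩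
  rw [← hκ] at hrel
  have hk0 : (k : ℂ) ≠ 0 := by exact_mod_cast (show k ≠ 0 by omega)
  have hp0 : (p : ℂ) ≠ 0 := by exact_mod_cast (show p ≠ 0 by omega)
  have hpk0 : ((p : ℂ) + k) ≠ 0 := by exact_mod_cast (show p + k ≠ 0 by omega)
  have hκ0 : κ ≠ 0 := by
    rw [hκ]
    exact div_ne_zero (mul_ne_zero (pow_ne_zero _ hυ) (pow_ne_zero _ hk0)) (mul_ne_zero hp0 hpk0)
  obtain ⟨α, hα⟩ : ∃ α : ℕ → ℂ, α = fun j => (G j 0 * ((u' 0)⁻¹) ^ j) * κ ^ j := ⟨_, rfl⟩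
  have hrel' : MRel p k α := by rw [hα]; exact hrel
  obtain ⟨C1, hC1⟩ := hM4 p k α hp hk1 hrel' ⟨max 1 (C * (‖(u' 0)⁻¹‖ * ‖κ‖)), s, le_max_left _ _,
    hs0, hs1, fun j hj => by
      have e : ‖α j‖ = ‖G j 0‖ * (‖(u' 0)⁻¹‖ * ‖κ‖) ^ j := by
        rw [hα]
        show ‖(G j 0 * ((u' 0)⁻¹) ^ j) * κ ^ j‖ = _
        rw [norm_mul, norm_mul, norm_pow, norm_pow, mul_pow]
        ring
      rw [e]
      have hf : 0 ≤ ((2 * j).factorial : ℝ) ^ s := by positivity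
      calc ‖G j 0‖ * (‖(u' 0)⁻¹‖ * ‖κ‖) ^ j
          ≤ (C ^ j * ((2 * j).factorial : ℝ) ^ s) * (‖(u' 0)⁻¹‖ * ‖κ‖) ^ j :=
            mul_le_mul_of_nonneg_right (hbd j hj) (by positivity)
        _ = (C * (‖(u' 0)⁻¹‖ * ‖κ‖)) ^ j * ((2 * j).factorial : ℝ) ^ s := by
            rw [mul_pow]
            ring
        _ ≤ (max 1 (C * (‖(u' 0)⁻¹‖ * ‖κ‖))) ^ j * ((2 * j).factorial : ℝ) ^ s := by
            apply mul_le_mul_of_nonneg_right _ hf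
            exact pow_le_pow_left₀ (by positivity) (le_max_right _ _) _⟩
  have hα1 := hS5 p k α C1 hp hk1 hpk hrel' hC1
  have hG1 : G 1 0 = 2 := END_one hR hFI'.one (hG 1 le_rfl)
  rw [hα] at hα1
  have hα1' : (G 1 0 * ((u' 0)⁻¹) ^ 1) * κ ^ 1 = 0 := hα1
  rw [hG1] at hα1'
  exact (mul_ne_zero (mul_ne_zero two_ne_zero (pow_ne_zero _ (inv_ne_zero hυ)))
    (pow_ne_zero _ hκ0)) hα1'

end H719FX
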