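import Pool.Agent.H719R4.FX.Defs
import Pool.Agent.H738R3.CZ.F5

open Complex Set Filter Topology

namespace H719FX

open H738CZ
open scoped NNReal

theorem FF_th (p k : ℕ) (hp : 1 ≤ p) (hk : 1 ≤ k) :
    0 < Real.pi / ((p : ℝ) + k) ∧ Real.pi / ((p : ℝ) + k) ≤ Real.pi / 2 := by
  have h1 : (1 : ℝ) ≤ p := by exact_mod_cast hp
  have h2 : (1 : ℝ) ≤ k := by exact_mod_cast hk
  constructor
  · have := Real.pi_pos
    positivity
  · apply div_le_div_of_nonneg_left Real.pi_pos.le (by norm_num) (by linarith)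

/-- retraction on the half strip -/
noncomputable def FF_ret (θ : ℝ) (z : ℂ) : ℂ := ⟨max z.re 0, max 0 (min z.im θ)⟩

theorem FF_ret_re (θ : ℝ) (z : ℂ) : 0 ≤ (FF_ret θ z).re := le_max_right _ _

theorem FF_ret_im0 (θ : ℝ) (z : ℂ) : 0 ≤ (FF_ret θ z).im := le_max_left _ _

theorem FF_ret_im1 (θ : ℝ) (hθ : 0 ≤ θ) (z : ℂ) : (FF_ret θ z).im ≤ θ :=
  max_le hθ (min_le_right _ _)

theorem FF_ret_id (θ : ℝ) {z : ℂ} (h : 0 ≤ z.re) (h1 : 0 ≤ z.im) (h2 : z.im ≤ θ) :
    FF_ret θ z = z := by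
  apply Complex.ext
  · exact max_eq_left h
  · change max 0 (min z.im θ) = z.im
    rw [min_eq_left h2, max_eq_right h1]

theorem FF_clamp (θ a b : ℝ) : |max 0 (min a θ) - max 0 (min b θ)| ≤ |a - b| := by
  have h1 := le_abs_self (a - b)
  have h2 := neg_abs_le (a - b)
  have h3 := abs_nonneg (a - b)
  rw [abs_le]
  constructor <;>
  · rcases max_cases (0 : ℝ) (min a θ) with ha | ha <;>
    rcases max_cases (0 : ℝ) (min b θ) with hb | hb <;>
    rcases min_cases a θ with hc | hc <;>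
    rcases min_cases b θ with hd | hd <;>
    linarith [ha.1, ha.2, hb.1, hb.2, hc.1, hc.2, hd.1, hd.2]

theorem FF_ret_lip (θ : ℝ) (z w : ℂ) : ‖FF_ret θ z - FF_ret θ w‖ ≤ ‖z - w‖ := by
  have h1 : |max z.re 0 - max w.re 0| ≤ |z.re - w.re| := abs_max_sub_max_le_abs _ _ _
  have h2 := FF_clamp θ z.im w.im
  rw [Complex.norm_def, Complex.norm_def]
  apply Real.sqrt_le_sqrt
  rw [Complex.normSq_apply, Complex.normSq_apply]
  simp only [FF_ret, Complex.sub_re, Complex.sub_im]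
  nlinarith [sq_abs (max z.re 0 - max w.re 0), sq_abs (z.re - w.re),
    abs_nonneg (max z.re 0 - max w.re 0), abs_nonneg (z.re - w.re),
    sq_abs (max 0 (min z.im θ) - max 0 (min w.im θ)), sq_abs (z.im - w.im),
    abs_nonneg (max 0 (min z.im θ) - max 0 (min w.im θ)), abs_nonneg (z.im - w.im)]

/-- exponentials of the half strip -/
theorem FF_exp_mem (p k : ℕ) (hp : 1 ≤ p) (hk : 1 ≤ k) {z : ℂ} (h : 0 ≤ z.re) (h1 : 0 ≤ z.im)
    (h2 : z.im ≤ Real.pi / ((p : ℝ) + k)) : cexp z ∈ Dm p k ∧ arg (cexp z) = z.im := by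
  obtain ⟨ht0, ht1⟩ := FF_th p k hp hk
  have hpi := Real.pi_pos
  have harg : arg (cexp z) = z.im := by
    have := Complex.log_exp (x := z) (by linarith) (by linarith)
    rw [← Complex.log_im, this]
  refine ⟨⟨?_, ?_⟩, harg⟩
  · rw [Complex.norm_exp]
    exact Real.one_le_exp h
  · rw [harg, abs_of_nonneg h1]
    exact h2

/-- the compact sector -/
noncomputable def FF_T (θ : ℝ) : Set ℂ :=
  (fun q : ℝ × ℝ => (q.1 : ℂ) * cexp (-((q.2 : ℂ) * I))) '' (Icc 0 1 ×ˢ Icc 0 θ)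

theorem FF_T_cpt (θ : ℝ) : IsCompact (FF_T θ) := by
  unfold FF_T
  refine (isCompact_Icc.prod isCompact_Icc).image ?_
  fun_prop

theorem FF_exp_T (θ : ℝ) {z : ℂ} (h : 0 ≤ z.re) (h1 : 0 ≤ z.im) (h2 : z.im ≤ θ) :
    cexp (-z) ∈ FF_T θ := by
  refine ⟨(Real.exp (-z.re), z.im), ⟨⟨(Real.exp_pos _).le, ?_⟩, h1, h2⟩, ?_⟩
  · exact Real.exp_le_one_iff.2 (by linarith)
  · simp only
    rw [Complex.ofReal_exp, ← Complex.exp_add]
    congr 1
    rw [Complex.ofReal_neg, ← neg_add, Complex.re_add_im]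

theorem FF_T_nz (p k : ℕ) (hp : 1 ≤ p) (hk : 1 ≤ k) (hVB : VB p k) {v : ℂ}
    (hv : v ∈ FF_T (Real.pi / ((p : ℝ) + k))) : ∑ i ∈ Finset.range k, v ^ i ≠ 0 := by
  obtain ⟨⟨r, a⟩, ⟨⟨hr0, hr1⟩, ha0, ha1⟩, rfl⟩ := hv
  simp only at hr0 hr1 ha0 ha1 ⊢
  rcases hr0.eq_or_lt with h | h
  · rw [← h]
    obtain ⟨j, rfl⟩ : ∃ j, k = j + 1 := ⟨k - 1, by omega⟩
    rw [Finset.sum_range_succ']
    simp
  · have hz : (0 : ℝ) ≤ (((-Real.log r : ℝ) : ℂ) + a * I).re := by
      simp only [Complex.add_re, Complex.ofReal_re, Complex.mul_re, Complex.I_re, mul_zero,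
        Complex.ofReal_im, Complex.I_im, mul_one, sub_self, add_zero]
      have := Real.log_nonpos hr0 hr1
      linarith
    have him : (((-Real.log r : ℝ) : ℂ) + a * I).im = a := by simp
    have hm := (FF_exp_mem p k hp hk hz (by rw [him]; exact ha0) (by rw [him]; exact ha1)).1
    have := hVB.nz _ hm
    have he : (cexp (((-Real.log r : ℝ) : ℂ) + a * I))⁻¹ = (r : ℂ) * cexp (-((a : ℂ) * I)) := by
      rw [← Complex.exp_neg, neg_add, Complex.exp_add]
      congr 1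
      rw [Complex.ofReal_neg, neg_neg, ← Complex.ofReal_exp, Real.exp_log h]
    rw [he] at this
    exact this

theorem FF_dif (p k : ℕ) : DifferentiableOn ℂ (hf p k) {v | ∑ i ∈ Finset.range k, v ^ i ≠ 0} := by
  intro v hv
  have hv' : ∑ i ∈ Finset.range k, v ^ i ≠ 0 := hv
  apply DifferentiableAt.differentiableWithinAt
  unfold hf
  refine (differentiableAt_const _).sub (DifferentiableAt.div ?_ ?_ hv')
  · fun_prop
  · fun_prop

theorem FF_open (k : ℕ) : IsOpen {v : ℂ | ∑ i ∈ Finset.range k, v ^ i ≠ 0} := by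
  refine isOpen_ne_fun (by fun_prop) (by fun_prop)

/-- the vector field in the logarithmic coordinate -/
noncomputable def FF_v (p k : ℕ) (z : ℂ) : ℂ :=
  hf p k (cexp (-FF_ret (Real.pi / ((p : ℝ) + k)) z))

theorem FF_v_lip (p k : ℕ) (hp : 1 ≤ p) (hk : 1 ≤ k) (hVB : VB p k) :
    ∃ K L : ℝ≥0, LipschitzWith K (FF_v p k) ∧ ∀ z, ‖FF_v p k z‖ ≤ L := by
  obtain ⟨ht0, ht1⟩ := FF_th p k hp hk
  set θ := Real.pi / ((p : ℝ) + k) with hθ
  have hsub : FF_T θ ⊆ {v | ∑ i ∈ Finset.range k, v ^ i ≠ 0} := fun v hv =>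
    FF_T_nz p k hp hk hVB hv
  have hd := FF_dif p k
  have hd' := hd.deriv (FF_open k)
  obtain ⟨M0, hM0⟩ := (FF_T_cpt θ).exists_bound_of_continuousOn (hd.continuousOn.mono hsub)
  obtain ⟨M1, hM1⟩ := (FF_T_cpt θ).exists_bound_of_continuousOn (hd'.continuousOn.mono hsub)
  refine ⟨Real.toNNReal M1, Real.toNNReal M0, ?_, ?_⟩
  · refine LipschitzWith.of_dist_le_mul fun z w => ?_
    rw [dist_eq_norm, dist_eq_norm]
    let S : Set ℂ := {z | 0 ≤ z.re} ∩ ({z | 0 ≤ z.im} ∩ {z | z.im ≤ θ})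
    have hS : Convex ℝ S := (convex_halfSpace_re_ge 0).inter
      ((convex_halfSpace_im_ge 0).inter (convex_halfSpace_im_le θ))
    have hder : ∀ x ∈ S, HasDerivWithinAt (fun z : ℂ => hf p k (cexp (-z)))
        (deriv (hf p k) (cexp (-x)) * (cexp (-x) * (-1))) S x := by
      rintro x ⟨hx1, hx2, hx3⟩
      have hx : cexp (-x) ∈ {v | ∑ i ∈ Finset.range k, v ^ i ≠ 0} := hsub (FF_exp_T θ hx1 hx2 hx3)
      have h1 : HasDerivAt (hf p k) (deriv (hf p k) (cexp (-x))) (cexp (-x)) :=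
        ((hd _ hx).differentiableAt ((FF_open k).mem_nhds hx)).hasDerivAt
      have h2 : HasDerivAt (fun z : ℂ => cexp (-z)) (cexp (-x) * (-1)) x :=
        ((hasDerivAt_id x).neg).cexp
      exact (h1.comp x h2).hasDerivWithinAt
    have hb : ∀ x ∈ S, ‖deriv (hf p k) (cexp (-x)) * (cexp (-x) * (-1))‖ ≤
        ((Real.toNNReal M1 : ℝ≥0) : ℝ) := by
      rintro x ⟨hx1, hx2, hx3⟩
      rw [norm_mul, norm_mul, norm_neg, norm_one, mul_one]
      have e1 := hM1 _ (FF_exp_T θ hx1 hx2 hx3)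
      have e2 : ‖cexp (-x)‖ ≤ 1 := by
        rw [Complex.norm_exp, Real.exp_le_one_iff, Complex.neg_re]
        have : (0 : ℝ) ≤ x.re := hx1
        linarith
      refine (mul_le_of_le_one_right (norm_nonneg _) e2).trans (e1.trans (Real.le_coe_toNNReal _))
    have hm : ∀ z : ℂ, FF_ret θ z ∈ S := fun z =>
      ⟨FF_ret_re θ z, FF_ret_im0 θ z, FF_ret_im1 θ ht0.le z⟩
    have := hS.norm_image_sub_le_of_norm_hasDerivWithin_le hder hb (hm w) (hm z)
    refine this.trans ?_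
    exact mul_le_mul_of_nonneg_left (FF_ret_lip θ z w) (NNReal.coe_nonneg _)
  · intro z
    refine (hM0 _ (FF_exp_T θ (FF_ret_re θ z) (FF_ret_im0 θ z) (FF_ret_im1 θ ht0.le z))).trans
      (Real.le_coe_toNNReal _)

/-- barrier -/
theorem FF_bar (f f' : ℝ → ℝ) (hf : ∀ s, 0 ≤ s → HasDerivWithinAt f (f' s) (Ici 0) s)
    (h0 : 0 ≤ f 0) (hb : ∀ s, 0 ≤ s → f s ≤ 0 → 0 ≤ f' s) : ∀ s, 0 ≤ s → 0 ≤ f s := by
  intro s hs
  have key : ∀ ε : ℝ, 0 < ε → -(f s) ≤ ε * (s + 1) := by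
    intro ε hε
    have hcont : ContinuousOn (fun t => -(f t)) (Icc 0 s) := by
      intro t ht
      exact ((hf t ht.1).continuousWithinAt.mono (fun x hx => hx.1)).neg
    have := image_le_of_deriv_right_lt_deriv_boundary' (f := fun t => -(f t))
      (f' := fun t => -(f' t)) (a := 0) (b := s) hcont
      (fun t ht => ((hf t ht.1).mono (fun x hx => ht.1.trans hx)).neg)
      (B := fun t => ε * (t + 1)) (B' := fun _ => ε) (by nlinarith)
      (by fun_prop)
      (fun t _ => by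
        have h1 : HasDerivAt (fun t : ℝ => ε * (t + 1)) (ε * 1) t :=
          ((hasDerivAt_id t).add_const 1).const_mul ε
        rw [mul_one] at h1
        exact h1.hasDerivWithinAt)
      (fun t ht he => by
        have h1 : 0 < ε * (t + 1) := mul_pos hε (by linarith [ht.1])
        have h2 := hb t ht.1 (by linarith)
        linarith) (x := s) ⟨hs, le_refl _⟩
    exact this
  by_contra hcon
  push Not at hcon
  have h1 := key (-(f s) / (2 * (s + 1))) (by
    apply div_pos (by linarith) (by linarith))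
  have h2 : -(f s) / (2 * (s + 1)) * (s + 1) = -(f s) / 2 := by
    field_simp
  linarith

theorem FF_pos (p k : ℕ) (hp : 1 ≤ p) (hk : 1 ≤ k) (hVA : VA p k) (hVB : VB p k) (hVC : VC p k)
    (x0 : ℂ) (hx0 : x0 ∈ Dm p k) (him : 0 ≤ x0.im) (hBm : 0 ≤ (Bm p k x0).im) :
    ∃ x : ℝ → ℂ, Traj p k x0 x := by
  obtain ⟨ht0, ht1⟩ := FF_th p k hp hk
  obtain ⟨K, L, hK, hL⟩ := FF_v_lip p k hp hk hVB
  set θ := Real.pi / ((p : ℝ) + k) with hθ
  have hx0' : x0 ≠ 0 := by
    rintro rfl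
    have := hx0.1
    rw [norm_zero] at this
    linarith
  obtain ⟨γ, hγ0, hγ⟩ := F5_global (FF_v p k) K L hK hL (log x0)
  have hre0 : 0 ≤ (γ 0).re := by
    rw [hγ0, Complex.log_re]
    exact Real.log_nonneg hx0.1
  have him0 : 0 ≤ (γ 0).im := by
    rw [hγ0, Complex.log_im]
    exact Complex.arg_nonneg_iff.2 him
  have him1 : (γ 0).im ≤ θ := by
    rw [hγ0, Complex.log_im]
    exact (le_abs_self _).trans hx0.2
  have hder_re : ∀ s, 0 ≤ s →
      HasDerivWithinAt (fun s => (γ s).re) (FF_v p k (γ s)).re (Ici 0) s := by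
    intro s hs
    have := (Complex.reCLM.hasFDerivAt (x := γ s)).comp_hasDerivWithinAt s (hγ s hs)
    exact this
  have hder_im : ∀ s, 0 ≤ s →
      HasDerivWithinAt (fun s => (γ s).im) (FF_v p k (γ s)).im (Ici 0) s := by
    intro s hs
    have := (Complex.imCLM.hasFDerivAt (x := γ s)).comp_hasDerivWithinAt s (hγ s hs)
    exact this
  have hre : ∀ s, 0 ≤ s → 0 ≤ (γ s).re := by
    refine FF_bar _ _ hder_re hre0 fun s hs h => ?_
    have h1 : (FF_ret θ (γ s)).re = 0 := max_eq_right h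
    obtain ⟨h2, -⟩ := FF_exp_mem p k hp hk (FF_ret_re θ (γ s)) (FF_ret_im0 θ (γ s))
      (FF_ret_im1 θ ht0.le (γ s))
    have h3 : ‖cexp (FF_ret θ (γ s))‖ = 1 := by
      rw [Complex.norm_exp, h1, Real.exp_zero]
    have h4 := hVC.ar _ h2 h3
    rw [← Complex.exp_neg] at h4
    exact h4
  have him : ∀ s, 0 ≤ s → 0 ≤ (γ s).im := by
    refine FF_bar _ _ hder_im him0 fun s hs h => ?_
    have h1 : (FF_ret θ (γ s)).im = 0 := by
      change max 0 (min (γ s).im θ) = 0
      rw [max_eq_left]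
      exact (min_le_left _ _).trans h
    have h2 : FF_ret θ (γ s) = (((FF_ret θ (γ s)).re : ℝ) : ℂ) := by
      apply Complex.ext
      · simp
      · rw [h1]; simp
    have h3 : FF_v p k (γ s) = hf p k ((Real.exp (-(FF_ret θ (γ s)).re) : ℝ) : ℂ) := by
      unfold FF_v
      rw [← hθ, h2]
      simp
    rw [h3, hVC.re]
  -- where the curve stays in the strip
  have hder : ∀ s, 0 ≤ s → (γ s).im ≤ θ →
      HasDerivWithinAt (fun s => cexp (γ s)) (vf p k (cexp (γ s))) (Ici 0) s := by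
    intro s hs h
    have h1 := (hγ s hs).cexp
    have h2 : cexp (γ s) * FF_v p k (γ s) = vf p k (cexp (γ s)) := by
      unfold FF_v vf
      rw [← hθ, FF_ret_id θ (hre s hs) (him s hs) h, Complex.exp_neg]
    rw [h2] at h1
    exact h1
  have hini : cexp (γ 0) = x0 := by rw [hγ0, Complex.exp_log hx0']
  have hval : ∀ s, 0 ≤ s → (∀ t, 0 ≤ t → t ≤ s → (γ t).im ≤ θ) →
      Bm p k (cexp (γ s)) = Real.exp s * Bm p k x0 := by
    intro s hs hst
    have hB : ∀ t, 0 ≤ t → t ≤ s → HasDerivWithinAt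
        (fun t : ℝ => cexp (-(t : ℂ)) * Bm p k (cexp (γ t))) 0 (Ici 0) t := by
      intro t ht hts
      have h1 : HasDerivWithinAt (fun t : ℝ => Bm p k (cexp (γ t)))
          (Bd p k (cexp (γ t)) * vf p k (cexp (γ t))) (Ici 0) t := by
        have h0 := hVA.dB (cexp (γ t))
        exact HasDerivAt.comp_hasDerivWithinAt (h₂ := Bm p k) (h := fun s : ℝ => cexp (γ s)) t h0
          (hder t ht (hst t ht hts))
      have h2 : HasDerivWithinAt (fun t : ℝ => cexp (-(t : ℂ))) (cexp (-(t : ℂ)) * (-1))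
          (Ici 0) t := by
        have h3 : HasDerivAt (fun t : ℝ => -(t : ℂ)) (-1) t :=
          (Complex.ofRealCLM.hasDerivAt (x := t)).neg
        exact h3.cexp.hasDerivWithinAt
      have h3 := h2.mul h1
      have h4 := hVB.vB (cexp (γ t)) (FF_exp_mem p k hp hk (hre t ht) (him t ht) (hst t ht hts)).1
      rw [mul_comm (Bd p k (cexp (γ t))), h4] at h3
      have h6 : cexp (-(t : ℂ)) * (-1) * Bm p k (cexp (γ t)) +
          cexp (-(t : ℂ)) * Bm p k (cexp (γ t)) = 0 := by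
        ring
      rw [h6] at h3
      exact h3
    have hconst := constant_of_has_deriv_right_zero (a := 0) (b := s)
      (f := fun t : ℝ => cexp (-(t : ℂ)) * Bm p k (cexp (γ t)))
      (fun t ht => (hB t ht.1 ht.2).continuousWithinAt.mono (fun x hx => hx.1))
      (fun t ht => (hB t ht.1 ht.2.le).mono (fun x hx => ht.1.trans hx)) s ⟨hs, le_refl _⟩
    simp only [Complex.ofReal_zero, neg_zero, Complex.exp_zero, one_mul] at hconst
    rw [hini] at hconst
    rw [← hconst, ← mul_assoc, Complex.ofReal_exp, ← Complex.exp_add]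
    simp
  have himcont : ContinuousOn (fun s => (γ s).im) (Ici 0) := fun s hs =>
    (hder_im s hs).continuousWithinAt
  have hle : ∀ s, 0 ≤ s → (γ s).im ≤ θ := by
    intro s hs
    by_contra hcon
    push Not at hcon
    -- the first time
    let A : Set ℝ := Icc 0 s ∩ (fun s => (γ s).im) ⁻¹' (Ici θ)
    have hAc : IsClosed A := by
      have hc : ContinuousOn (fun s => (γ s).im) (Icc 0 s) := himcont.mono (fun x hx => hx.1)
      exact hc.preimage_isClosed_of_isClosed isClosed_Icc isClosed_Ici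
    have hAn : A.Nonempty := ⟨s, ⟨hs, le_refl _⟩, hcon.le⟩
    have hAb : BddBelow A := ⟨0, fun x hx => hx.1.1⟩
    set s1 := sInf A with hs1
    have hs1A : s1 ∈ A := hAc.csInf_mem hAn hAb
    have hbefore : ∀ t, 0 ≤ t → t < s1 → (γ t).im < θ := by
      intro t ht hts
      by_contra h
      push Not at h
      have : t ∈ A := ⟨⟨ht, hts.le.trans hs1A.1.2⟩, h⟩
      exact absurd (csInf_le hAb this) (not_le.2 hts)
    have heq : (γ s1).im = θ := by
      apply le_antisymm _ hs1A.2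
      rcases hs1A.1.1.eq_or_lt with h | h
      · rw [← h]; exact him1
      · have hc : ContinuousWithinAt (fun s => (γ s).im) (Ico 0 s1) s1 :=
          (himcont s1 hs1A.1.1).mono (fun x hx => hx.1)
        have hcl : s1 ∈ closure (Ico 0 s1) := by
          rw [closure_Ico h.ne]
          exact ⟨h.le, le_refl _⟩
        have : (𝓝[Ico 0 s1] s1).NeBot := mem_closure_iff_nhdsWithin_neBot.1 hcl
        refine le_of_tendsto hc ?_
        filter_upwards [self_mem_nhdsWithin] with t ht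
        exact (hbefore t ht.1 ht.2).le
    have hall : ∀ t, 0 ≤ t → t ≤ s1 → (γ t).im ≤ θ := by
      intro t ht hts
      rcases hts.eq_or_lt with h | h
      · rw [h]; exact heq.le
      · exact (hbefore t ht h).le
    have hv := hval s1 hs1A.1.1 hall
    obtain ⟨hm, harg⟩ := FF_exp_mem p k hp hk (hre s1 hs1A.1.1) (him s1 hs1A.1.1) heq.le
    have hup := hVC.up _ hm (by rw [harg, heq])
    rw [hv, Complex.im_ofReal_mul] at hup
    have : 0 ≤ Real.exp s1 * (Bm p k x0).im := mul_nonneg (Real.exp_pos _).le hBm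
    linarith
  refine ⟨fun s => cexp (γ s), hini, fun s hs => hder s hs (hle s hs), fun s hs => ?_, fun s hs => ?_⟩
  · exact (FF_exp_mem p k hp hk (hre s hs) (him s hs) (hle s hs)).1
  · exact hval s hs fun t ht _ => hle t ht

theorem FF_hf_conj (p k : ℕ) (v : ℂ) :
    hf p k ((starRingEnd ℂ) v) = (starRingEnd ℂ) (hf p k v) := by
  unfold hf
  simp [map_sub, map_div₀, map_mul, map_pow, map_sum]

theorem FF_vf_conj (p k : ℕ) (s : ℂ) :
    vf p k ((starRingEnd ℂ) s) = (starRingEnd ℂ) (vf p k s) := by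
  unfold vf
  rw [← map_inv₀, FF_hf_conj, map_mul]

theorem FF_Dm_conj (p k : ℕ) (hp : 1 ≤ p) (hk : 1 ≤ k) (s : ℂ) (hs : s ∈ Dm p k) :
    (starRingEnd ℂ) s ∈ Dm p k := by
  obtain ⟨ht0, ht1⟩ := FF_th p k hp hk
  have hpi := Real.pi_pos
  obtain ⟨h1, h2⟩ := hs
  have hne : arg s ≠ Real.pi := by
    intro h
    rw [h, abs_of_pos hpi] at h2
    linarith
  refine ⟨?_, ?_⟩
  · rw [Complex.norm_conj]; exact h1
  · rw [Complex.arg_conj, if_neg hne, abs_neg]
    exact h2

theorem tFF (hVA : StVA) (hVB : StVB) (hVC : StVC) : StFF := by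
  intro p k x0 hp hk hx0 hSg
  rcases hSg with ⟨h1, h2⟩ | ⟨h1, h2⟩
  · exact FF_pos p k hp hk (hVA p k hp hk) (hVB p k hp hk) (hVC p k hp hk) x0 hx0 h1 h2
  · obtain ⟨y, hy⟩ := FF_pos p k hp hk (hVA p k hp hk) (hVB p k hp hk) (hVC p k hp hk)
      ((starRingEnd ℂ) x0) (FF_Dm_conj p k hp hk x0 hx0) (by rw [Complex.conj_im]; linarith)
      (by rw [(hVA p k hp hk).cj, Complex.conj_im]; linarith)
    refine ⟨fun s => (starRingEnd ℂ) (y s), ?_, ?_, ?_, ?_⟩
    · rw [hy.ini, Complex.conj_conj]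
    · intro s hs
      have := (Complex.conjCLE.toContinuousLinearMap.hasFDerivAt
        (x := y s)).comp_hasDerivWithinAt s (hy.der s hs)
      rw [FF_vf_conj]
      exact this
    · intro s hs
      exact FF_Dm_conj p k hp hk _ (hy.mem s hs)
    · intro s hs
      rw [(hVA p k hp hk).cj, hy.val s hs, (hVA p k hp hk).cj, map_mul, Complex.conj_conj,
        Complex.conj_ofReal]

end H719FX
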