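import Pool.Agent.H719R4.FX.Geo

/-! Final assembly (conditional on the tasks). -/

open Complex Set Filter Topology

namespace H719FX

open H738CZ

theorem GoodAt_congr {Z W Z' W' : ℂ → ℂ} {t : ℂ} (hZ : ∀ᶠ s in 𝓝 t, Z' s = Z s)
    (hW : ∀ᶠ s in 𝓝 t, W' s = W s) (h : GoodAt Z W t) : GoodAt Z' W' t := by
  obtain ⟨Φ, ρ, hP, hg⟩ := h
  refine ⟨Φ, ρ, ⟨hP.aΦ, hP.aρ, hP.dΦ, hP.nρ, ?_, ?_⟩, hg⟩
  · filter_upwards [hP.eZ, hZ.eventually_nhds] with s h1 h2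
    rw [Filter.EventuallyEq.deriv_eq h2, h1]
  · filter_upwards [hP.eW, hW.eventually_nhds] with s h1 h2
    rw [Filter.EventuallyEq.deriv_eq h2, h1]

theorem tFLX (hSTA : StSTA) (hSTZ : StSTZ) (hCH2 : StCH2) (hNB : StNB) (hSIN : StSIN) :
    StFLX := by
  intro γ ρ ho K ε hε hK hrefl hnc n a r Z W hC θ x0 x1 hθ hZW hne t0 ht0 m k hk hBr
  obtain ⟨x, Φ, R, y, η, hx, hP, hΦ, hη, hR, hRρ⟩ := hSTZ γ ρ ho (Z 0) (W 0) (a 0) (r 0) θ x0 x1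
    (hC.dZ 0 (Nat.zero_le _)) (hC.dW 0 (Nat.zero_le _)) hθ hZW hne
  have hg : Good kcs R y := hSTA γ ρ ho K ε hε hK hrefl hnc R y η hη hR hRρ
  have hG0 : GoodAt (Z 0) (W 0) x := ⟨Φ, R, hP, by rw [hΦ]; exact hg⟩
  have hall := hCH2 n a r Z W hC ⟨x, (hZW x hx).1, hG0⟩
  have hb : Metric.ball (a n) (r n) ∈ 𝓝 t0 := Metric.isOpen_ball.mem_nhds ht0
  have haZ : AnalyticAt ℂ (Z n) t0 := (hC.dZ n le_rfl).analyticAt hb
  have haW : AnalyticAt ℂ (W n) t0 := (hC.dW n le_rfl).analyticAt hb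
  refine hSIN (Z n) (W n) t0 m k hk haZ haW hBr ?_
  filter_upwards [hNB (Z n) (W n) t0 m k hk haZ haW hBr, mem_nhdsWithin_of_mem_nhds hb] with t h1 h2
  exact hall t h2 h1.1 h1.2.1 h1.2.2

end H719FX
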