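import Pool.Agent.H719R4.FX.Defs

/-! Task G1 (helper403, adapted from CZ/G5.lean of helper680): growth. -/

open Complex Set Filter Topology

namespace H719FX

open H738CZ

theorem G1_cn1 (p k : ℕ) : ‖((p : ℂ) + k) / k‖ = ((p : ℝ) + k) / k := by
  have : ((p : ℂ) + k) / k = ((((p : ℝ) + k) / k : ℝ) : ℂ) := by push_cast; ring
  rw [this, Complex.norm_real, Real.norm_eq_abs, abs_of_nonneg (by positivity)]

theorem G1_cn2 (p k : ℕ) : ‖(p : ℂ) / k‖ = (p : ℝ) / k := by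
  have : (p : ℂ) / k = (((p : ℝ) / k : ℝ) : ℂ) := by push_cast; ring
  rw [this, Complex.norm_real, Real.norm_eq_abs, abs_of_nonneg (by positivity)]

theorem G1_Bm_le (p k : ℕ) {y : ℂ} (hy : ‖y‖ ≤ 1) :
    ‖Bm p k y‖ ≤ 1 + ((p : ℝ) + k) / k + (p : ℝ) / k := by
  unfold Bm
  have h1 : ‖y ^ p‖ ≤ 1 := by
    rw [norm_pow]; exact pow_le_one₀ (norm_nonneg _) hy
  have h2 : ‖y ^ (p + k)‖ ≤ 1 := by
    rw [norm_pow]; exact pow_le_one₀ (norm_nonneg _) hy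
  have e1 : ‖((p : ℂ) + k) / k * y ^ p‖ ≤ ((p : ℝ) + k) / k := by
    rw [norm_mul, G1_cn1]
    exact mul_le_of_le_one_right (by positivity) h1
  have e2 : ‖(p : ℂ) / k * y ^ (p + k)‖ ≤ (p : ℝ) / k := by
    rw [norm_mul, G1_cn2]
    exact mul_le_of_le_one_right (by positivity) h2
  have e3 := norm_add_le (1 - ((p : ℂ) + k) / k * y ^ p) ((p : ℂ) / k * y ^ (p + k))
  have e4 := norm_sub_le (1 : ℂ) (((p : ℂ) + k) / k * y ^ p)
  rw [norm_one] at e4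
  linarith

theorem G1_Bm_ge (p k : ℕ) (hp : 1 ≤ p) (hk : 1 ≤ k) {x : ℂ} (hx : 1 ≤ ‖x‖) :
    ‖x‖ ^ (p + k) ≤ (2 * ((p : ℝ) + k)) ^ (p + k) * (1 + ‖Bm p k x‖) := by
  have hp1 : (1 : ℝ) ≤ p := by exact_mod_cast hp
  have hk1 : (1 : ℝ) ≤ k := by exact_mod_cast hk
  have hk0 : (0 : ℝ) < k := by linarith
  have hB0 := norm_nonneg (Bm p k x)
  rcases le_or_gt (2 * ((p : ℝ) + k)) ‖x‖ with h | h
  · have e : (p : ℂ) / k * x ^ (p + k) = Bm p k x + (((p : ℂ) + k) / k * x ^ p - 1) := by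
      unfold Bm; ring
    have h1 : (p : ℝ) / k * ‖x‖ ^ (p + k) ≤ ‖Bm p k x‖ + (((p : ℝ) + k) / k * ‖x‖ ^ p + 1) := by
      calc (p : ℝ) / k * ‖x‖ ^ (p + k) = ‖(p : ℂ) / k * x ^ (p + k)‖ := by
            rw [norm_mul, G1_cn2, norm_pow]
        _ = ‖Bm p k x + (((p : ℂ) + k) / k * x ^ p - 1)‖ := by rw [e]
        _ ≤ ‖Bm p k x‖ + ‖((p : ℂ) + k) / k * x ^ p - 1‖ := norm_add_le _ _
        _ ≤ ‖Bm p k x‖ + (‖((p : ℂ) + k) / k * x ^ p‖ + ‖(1 : ℂ)‖) :=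
            add_le_add le_rfl (norm_sub_le _ _)
        _ = _ := by rw [norm_mul, G1_cn1, norm_pow, norm_one]
    have h1' : (p : ℝ) * ‖x‖ ^ (p + k) ≤ k * ‖Bm p k x‖ + (((p : ℝ) + k) * ‖x‖ ^ p + k) := by
      have h2 := mul_le_mul_of_nonneg_left h1 hk0.le
      have e1 : (k : ℝ) * ((p : ℝ) / k * ‖x‖ ^ (p + k)) = p * ‖x‖ ^ (p + k) := by
        field_simp
      have e2 : (k : ℝ) * (‖Bm p k x‖ + (((p : ℝ) + k) / k * ‖x‖ ^ p + 1)) =
          k * ‖Bm p k x‖ + (((p : ℝ) + k) * ‖x‖ ^ p + k) := by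
        field_simp
      rw [e1, e2] at h2
      exact h2
    have h2 : ((p : ℝ) + k) * ‖x‖ ^ p ≤ 1 / 2 * ‖x‖ ^ (p + k) := by
      have h3 : ‖x‖ ^ (p + 1) ≤ ‖x‖ ^ (p + k) := pow_le_pow_right₀ hx (by omega)
      have h4 : 0 ≤ ‖x‖ ^ p := by positivity
      have h5 : ‖x‖ ^ (p + 1) = ‖x‖ * ‖x‖ ^ p := by ring
      rw [h5] at h3
      nlinarith
    have h5 : 0 ≤ ‖x‖ ^ (p + k) := by positivity
    have h6 : ‖x‖ ^ (p + k) ≤ 2 * k * (1 + ‖Bm p k x‖) := by nlinarith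
    have h7 : 2 * ((p : ℝ) + k) ≤ (2 * ((p : ℝ) + k)) ^ (p + k) :=
      le_self_pow₀ (by linarith) (by omega)
    have h8 : 2 * (k : ℝ) ≤ (2 * ((p : ℝ) + k)) ^ (p + k) := by linarith
    exact h6.trans (mul_le_mul_of_nonneg_right h8 (by positivity))
  · have h1 : ‖x‖ ^ (p + k) ≤ (2 * ((p : ℝ) + k)) ^ (p + k) :=
      pow_le_pow_left₀ (norm_nonneg _) h.le _
    have h2 : (1 : ℝ) ≤ 1 + ‖Bm p k x‖ := by linarith
    calc ‖x‖ ^ (p + k) ≤ (2 * ((p : ℝ) + k)) ^ (p + k) * 1 := by rw [mul_one]; exact h1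
      _ ≤ _ := mul_le_mul_of_nonneg_left h2 (by positivity)

/-- an entire function with `|F| ^ N ≤ K (1 + |q|) ^ (2 N - 1)` is affine -/
theorem G1_affine (F : ℂ → ℂ) (hF : Differentiable ℂ F) (K : ℝ) (hK : 0 ≤ K) (N : ℕ)
    (hN : 1 ≤ N) (h : ∀ q, ‖F q‖ ^ N ≤ K * (1 + ‖q‖) ^ (2 * N - 1)) :
    ∀ q, F q = F 0 + deriv F 0 * q := by
  have hN0 : N ≠ 0 := by omega
  have hd : ∀ c, deriv (deriv F) c = 0 := by
    intro c
    have hn := norm_nonneg c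
    have key : ∀ R : ℝ, 1 ≤ R → ‖iteratedDeriv 2 F c‖ ^ N ≤
        2 ^ N * (K * (2 + ‖c‖) ^ (2 * N - 1)) / R := by
      intro R hR
      have hR0 : 0 < R := by linarith
      have hX : 0 ≤ K * (1 + ‖c‖ + R) ^ (2 * N - 1) := by positivity
      obtain ⟨C, hC⟩ : ∃ C : ℝ, C = (K * (1 + ‖c‖ + R) ^ (2 * N - 1)) ^ ((N : ℝ)⁻¹) := ⟨_, rfl⟩
      have hC9 : C ^ N = K * (1 + ‖c‖ + R) ^ (2 * N - 1) := by
        rw [hC]; exact Real.rpow_inv_natCast_pow hX hN0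
      have hC0 : 0 ≤ C := by rw [hC]; exact Real.rpow_nonneg hX _
      have h1 : ‖iteratedDeriv 2 F c‖ ≤ (2 : ℕ).factorial * C / R ^ 2 := by
        refine Complex.norm_iteratedDeriv_le_of_forall_mem_sphere_norm_le 2 hR0
          hF.diffContOnCl ?_
        intro z hz
        have hz' : ‖z‖ ≤ ‖c‖ + R := by
          have : ‖z - c‖ = R := by
            rw [← dist_eq_norm]; exact hz
          calc ‖z‖ = ‖c + (z - c)‖ := by congr 1; ring
            _ ≤ ‖c‖ + ‖z - c‖ := norm_add_le _ _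
            _ = ‖c‖ + R := by rw [this]
        have h2 : ‖F z‖ ^ N ≤ C ^ N := by
          rw [hC9]
          refine (h z).trans ?_
          apply mul_le_mul_of_nonneg_left _ hK
          apply pow_le_pow_left₀ (by positivity)
          linarith
        exact le_of_pow_le_pow_left₀ hN0 hC0 h2
      have h3 : ‖iteratedDeriv 2 F c‖ ^ N ≤ ((2 : ℕ).factorial * C / R ^ 2) ^ N :=
        pow_le_pow_left₀ (norm_nonneg _) h1 _
      refine h3.trans ?_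
      have h2f : (((2 : ℕ).factorial : ℕ) : ℝ) = 2 := by norm_num [Nat.factorial]
      rw [h2f, div_pow, mul_pow, hC9, ← pow_mul]
      have h4 : 1 + ‖c‖ + R ≤ (2 + ‖c‖) * R := by nlinarith
      have h5 : (1 + ‖c‖ + R) ^ (2 * N - 1) ≤ ((2 + ‖c‖) * R) ^ (2 * N - 1) :=
        pow_le_pow_left₀ (by positivity) h4 _
      rw [div_le_div_iff₀ (by positivity) hR0]
      have h6 : R ^ (2 * N) = R ^ (2 * N - 1) * R := by
        rw [← pow_succ]; congr 1; omega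
      calc 2 ^ N * (K * (1 + ‖c‖ + R) ^ (2 * N - 1)) * R
          ≤ 2 ^ N * (K * ((2 + ‖c‖) * R) ^ (2 * N - 1)) * R := by
            apply mul_le_mul_of_nonneg_right _ hR0.le
            apply mul_le_mul_of_nonneg_left _ (by positivity)
            exact mul_le_mul_of_nonneg_left h5 hK
        _ = 2 ^ N * (K * (2 + ‖c‖) ^ (2 * N - 1)) * R ^ (2 * N) := by
            rw [h6, mul_pow]; ring
    have hlim : Tendsto (fun R : ℝ => 2 ^ N * (K * (2 + ‖c‖) ^ (2 * N - 1)) / R) atTop (𝓝 0) :=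
      tendsto_const_nhds.div_atTop tendsto_id
    have h6 : ‖iteratedDeriv 2 F c‖ ^ N ≤ 0 :=
      ge_of_tendsto hlim (by filter_upwards [eventually_ge_atTop 1] with R hR using key R hR)
    have h7 : ‖iteratedDeriv 2 F c‖ ^ N = 0 := le_antisymm h6 (by positivity)
    have h8 : ‖iteratedDeriv 2 F c‖ = 0 := (pow_eq_zero_iff hN0).1 h7
    have h9 := norm_eq_zero.1 h8
    rw [iteratedDeriv_succ, iteratedDeriv_one] at h9
    exact h9
  have hF' : Differentiable ℂ (deriv F) := fun z =>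
    ((hF.differentiableOn (s := univ)).deriv isOpen_univ).differentiableAt
      (isOpen_univ.mem_nhds (mem_univ z))
  have hc : ∀ q, deriv F q = deriv F 0 := fun q => is_const_of_deriv_eq_zero hF' hd q 0
  have hG : Differentiable ℂ (fun q => F q - deriv F 0 * q) :=
    hF.sub ((differentiable_id).const_mul _)
  have hG' : ∀ q, deriv (fun q => F q - deriv F 0 * q) q = 0 := by
    intro q
    have e1 : HasDerivAt (fun q => F q - deriv F 0 * q) (deriv F q - deriv F 0 * 1) q :=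
      (hF q).hasDerivAt.sub ((hasDerivAt_id q).const_mul _)
    rw [e1.deriv, hc q]
    ring
  intro q
  have h1 := is_const_of_deriv_eq_zero hG hG' q 0
  simp only [mul_zero, sub_zero] at h1
  rw [← h1]
  ring

theorem G1_Mc {p k : ℕ} (hk : 1 ≤ k) {s : ℂ} (hs : 2 * s ^ k - 1 ≠ 0) :
    ‖Mc p k s‖ ^ (3 * k) = ‖2 * s ^ k - 1‖ ^ (2 * p + 4 * k) := by
  have hk0 : (k : ℂ) ≠ 0 := by exact_mod_cast (by omega : k ≠ 0)
  rw [← norm_pow, ← norm_pow]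
  unfold Mc
  rw [← Complex.exp_nat_mul]
  have h1 : ((3 * k : ℕ) : ℂ) * ((2 * (p : ℂ) + 4 * k) / (3 * k) * log (2 * s ^ k - 1)) =
      ((2 * p + 4 * k : ℕ) : ℂ) * log (2 * s ^ k - 1) := by
    push_cast
    field_simp
  rw [h1, Complex.exp_nat_mul, Complex.exp_log hs]

theorem tG1 (hPP : StPP) (hVA : StVA) : StG1 := by
  intro p k F hp hk hF hrel
  have hp1 : (1 : ℝ) ≤ p := by exact_mod_cast hp
  have hk1 : (1 : ℝ) ≤ k := by exact_mod_cast hk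
  have hk0 : (0 : ℝ) < k := by linarith
  have hV := hVA p k hp hk
  obtain ⟨K0, hK0⟩ := (isCompact_closedBall (0 : ℂ)
    (1 + ((p : ℝ) + k) / k + (p : ℝ) / k)).exists_bound_of_continuousOn
    hF.continuous.continuousOn
  have hK : 0 ≤ K0 := (norm_nonneg _).trans (hK0 0 (by
    rw [Metric.mem_closedBall, dist_self]; positivity))
  obtain ⟨T, hT⟩ : ∃ T : ℝ, T = (2 * ((p : ℝ) + k)) ^ (p + k) := ⟨_, rfl⟩
  have hT0 : 0 ≤ T := by rw [hT]; positivity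
  obtain ⟨N, hN⟩ : ∃ N : ℕ, N = 3 * k * (p + k) := ⟨_, rfl⟩
  have hN1 : 1 ≤ N := by rw [hN]; exact Nat.mul_pos (by omega) (by omega)
  obtain ⟨M, hM⟩ : ∃ M : ℕ, M = k * (2 * p + 4 * k) := ⟨_, rfl⟩
  have hMN : M ≤ 2 * N - 1 := by
    have h1 : M + 2 ≤ 2 * N := by
      rw [hM, hN]
      nlinarith [Nat.mul_le_mul hk hk, Nat.mul_le_mul hk hp]
    omega
  obtain ⟨K1, hK1⟩ : ∃ K1 : ℝ, K1 = K0 ^ N * (3 ^ ((2 * p + 4 * k) * (p + k)) * T ^ M) := ⟨_, rfl⟩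
  have hK10 : 0 ≤ K1 := by rw [hK1]; positivity
  refine G1_affine F hF (K1 + ‖F 0‖ ^ N) (by positivity) N hN1 ?_
  intro q
  have hq1 : 1 ≤ 1 + ‖q‖ := by linarith [norm_nonneg q]
  have hone : (1 : ℝ) ≤ (1 + ‖q‖) ^ (2 * N - 1) := one_le_pow₀ hq1
  by_cases hq : q = 0
  · subst hq
    have h2 : 0 ≤ ‖F 0‖ ^ N := by positivity
    calc ‖F 0‖ ^ N ≤ (K1 + ‖F 0‖ ^ N) * 1 := by linarith
      _ ≤ _ := mul_le_mul_of_nonneg_left hone (by positivity)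
  · obtain ⟨x1, hx1, hB, -, hcF⟩ := hPP p k F (‖q‖ + 1) hp hk (by positivity)
      hF.differentiableOn hrel q hq (by linarith)
    have eF := hcF.self_of_nhds (by rw [hB]; linarith)
    rw [hB] at eF
    have ht1 : 1 ≤ ‖x1‖ := hx1.1
    have hy : ‖F (Bm p k (Mo k x1))‖ ≤ K0 := by
      apply hK0
      rw [Metric.mem_closedBall, dist_zero_right]
      exact G1_Bm_le p k (hV.mo x1 hx1)
    have htk : 1 ≤ ‖x1‖ ^ k := one_le_pow₀ ht1
    have h2x : ‖2 * x1 ^ k - 1‖ ≤ 3 * ‖x1‖ ^ k := by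
      calc ‖2 * x1 ^ k - 1‖ ≤ ‖2 * x1 ^ k‖ + ‖(1 : ℂ)‖ := norm_sub_le _ _
        _ = 2 * ‖x1‖ ^ k + 1 := by rw [norm_mul, norm_one, norm_pow]; norm_num
        _ ≤ 3 * ‖x1‖ ^ k := by linarith
    have hne : 2 * x1 ^ k - 1 ≠ 0 := slitPlane_ne_zero (hV.sl x1 hx1)
    have hMc := G1_Mc (p := p) hk hne
    have hc9 : ‖Mc p k x1‖ ^ N ≤ 3 ^ ((2 * p + 4 * k) * (p + k)) * (T * (1 + ‖q‖)) ^ M := by
      calc ‖Mc p k x1‖ ^ N = (‖Mc p k x1‖ ^ (3 * k)) ^ (p + k) := by rw [hN, pow_mul]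
        _ = (‖2 * x1 ^ k - 1‖ ^ (2 * p + 4 * k)) ^ (p + k) := by rw [hMc]
        _ ≤ ((3 * ‖x1‖ ^ k) ^ (2 * p + 4 * k)) ^ (p + k) := by
            apply pow_le_pow_left₀ (by positivity)
            exact pow_le_pow_left₀ (norm_nonneg _) h2x _
        _ = 3 ^ ((2 * p + 4 * k) * (p + k)) * (‖x1‖ ^ (p + k)) ^ M := by
            rw [mul_pow, mul_pow, ← pow_mul, ← pow_mul, ← pow_mul, ← pow_mul, hM]
            congr 2
            ring
        _ ≤ 3 ^ ((2 * p + 4 * k) * (p + k)) * (T * (1 + ‖q‖)) ^ M := by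
            apply mul_le_mul_of_nonneg_left _ (by positivity)
            apply pow_le_pow_left₀ (by positivity)
            have := G1_Bm_ge p k hp hk ht1
            rw [hB, ← hT] at this
            exact this
    have hfin : ‖F q‖ ^ N ≤ K1 * (1 + ‖q‖) ^ M := by
      calc ‖F q‖ ^ N = ‖Mc p k x1‖ ^ N * ‖F (Bm p k (Mo k x1))‖ ^ N := by
            rw [eF, norm_mul, mul_pow]
        _ ≤ (3 ^ ((2 * p + 4 * k) * (p + k)) * (T * (1 + ‖q‖)) ^ M) * K0 ^ N := by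
            apply mul_le_mul hc9 (pow_le_pow_left₀ (norm_nonneg _) hy _) (by positivity)
              (by positivity)
        _ = _ := by rw [mul_pow, hK1]; ring
    refine hfin.trans ?_
    have h3 : (1 + ‖q‖) ^ M ≤ (1 + ‖q‖) ^ (2 * N - 1) := pow_le_pow_right₀ hq1 hMN
    have h4 : 0 ≤ ‖F 0‖ ^ N := by positivity
    calc K1 * (1 + ‖q‖) ^ M ≤ K1 * (1 + ‖q‖) ^ (2 * N - 1) := mul_le_mul_of_nonneg_left h3 hK10
      _ ≤ (K1 + ‖F 0‖ ^ N) * (1 + ‖q‖) ^ (2 * N - 1) :=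
          mul_le_mul_of_nonneg_right (by linarith) (by positivity)

end H719FX
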