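import Pool.Agent.H719R4.FX.Defs

set_option autoImplicit false

/-!
# Task G2: a linear solution exists only for `p = k`.
-/

open Complex Set Filter Topology

namespace H719FX

open H738CZ

/-- the real polynomial -/
noncomputable def G2_b (p k : ℕ) (x : ℝ) : ℝ :=
  1 - ((p : ℝ) + k) / k * x ^ p + (p : ℝ) / k * x ^ (p + k)

theorem G2_Bm (p k : ℕ) (x : ℝ) : Bm p k (x : ℂ) = (G2_b p k x : ℂ) := by
  unfold Bm G2_b
  push_cast
  ring

theorem G2_log (k : ℕ) (x : ℝ) (hL : 0 < 2 * x ^ k - 1) :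
    log (2 * (x : ℂ) ^ k - 1) = ((Real.log (2 * x ^ k - 1) : ℝ) : ℂ) := by
  rw [Complex.ofReal_log hL.le]
  push_cast
  rfl

theorem G2_Mo (k : ℕ) (x : ℝ) (hL : 0 < 2 * x ^ k - 1) :
    Mo k (x : ℂ) = ((x * Real.exp (-(Real.log (2 * x ^ k - 1) / k)) : ℝ) : ℂ) := by
  unfold Mo
  rw [G2_log k x hL]
  push_cast
  rfl

theorem G2_Mc (p k : ℕ) (x : ℝ) (hL : 0 < 2 * x ^ k - 1) :
    Mc p k (x : ℂ) = ((Real.exp ((2 * (p : ℝ) + 4 * k) / (3 * k) * Real.log (2 * x ^ k - 1)) : ℝ)
      : ℂ) := by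
  unfold Mc
  rw [G2_log k x hL]
  push_cast
  rfl

theorem G2_pos (p k : ℕ) (hp : 1 ≤ p) (hk : 1 ≤ k) (s : ℝ) (h0 : 0 ≤ s) (h1 : s < 1) :
    0 < G2_b p k s := by
  have hkr : (0 : ℝ) < k := by exact_mod_cast hk
  have hpr : (0 : ℝ) < p := by exact_mod_cast hp
  have hd : ∀ x : ℝ, HasDerivAt (G2_b p k)
      ((p : ℝ) * (p + k) / k * x ^ (p - 1) * (x ^ k - 1)) x := by
    intro x
    have e1 : HasDerivAt (fun x : ℝ => ((p : ℝ) + k) / k * x ^ p)
        (((p : ℝ) + k) / k * (p * x ^ (p - 1))) x := (hasDerivAt_pow p x).const_mul _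
    have e2 : HasDerivAt (fun x : ℝ => (p : ℝ) / k * x ^ (p + k))
        ((p : ℝ) / k * (((p + k : ℕ) : ℝ) * x ^ (p + k - 1))) x :=
      (hasDerivAt_pow (p + k) x).const_mul _
    have e3 := ((hasDerivAt_const x (1 : ℝ)).sub e1).add e2
    refine e3.congr_deriv ?_
    have e4 : p + k - 1 = (p - 1) + k := by omega
    rw [e4, pow_add]
    push_cast
    field_simp
    ring
  have hanti : StrictAntiOn (G2_b p k) (Icc 0 1) := by
    apply strictAntiOn_of_deriv_neg (convex_Icc 0 1)
    · exact fun x _ => (hd x).continuousAt.continuousWithinAt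
    · intro x hx
      rw [interior_Icc] at hx
      rw [(hd x).deriv]
      have h2 : x ^ k < 1 := pow_lt_one₀ hx.1.le hx.2 (by omega)
      have h3 : 0 < (p : ℝ) * (p + k) / k * x ^ (p - 1) := by
        have := hx.1
        positivity
      nlinarith
  have h2 := hanti ⟨h0, h1.le⟩ ⟨zero_le_one, le_rfl⟩ h1
  have h3 : G2_b p k 1 = 0 := by
    unfold G2_b
    field_simp
    ring
  linarith

/-- the difference of the two sides -/
noncomputable def G2_f (p k : ℕ) (z : ℂ) : ℂ := Bm p k z - Mc p k z * Bm p k (Mo k z)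

theorem G2_an (p k : ℕ) (z : ℂ) (hz : 2 * z ^ k - 1 ∈ slitPlane) :
    AnalyticAt ℂ (G2_f p k) z := by
  have hB : ∀ w, AnalyticAt ℂ (Bm p k) w := fun w => by
    unfold Bm
    fun_prop
  have hlog : AnalyticAt ℂ (fun z => log (2 * z ^ k - 1)) z := by
    apply AnalyticAt.clog
    · fun_prop
    · exact hz
  have hM : AnalyticAt ℂ (Mo k) z := by
    unfold Mo
    exact analyticAt_id.mul ((hlog.mul analyticAt_const).neg.cexp)
  have hMc : AnalyticAt ℂ (Mc p k) z := by
    unfold Mc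
    exact (analyticAt_const.mul hlog).cexp
  exact (hB z).sub (hMc.mul ((hB (Mo k z)).comp hM))

theorem G2_global (p k : ℕ) (h : Rel1 p k (fun q => q)) (x : ℝ) (hx : 1 ≤ x) :
    Bm p k (x : ℂ) = Mc p k (x : ℂ) * Bm p k (Mo k (x : ℂ)) := by
  set U : Set ℝ := {x : ℝ | 0 < x ∧ 1 < 2 * x ^ k} with hU
  have hUc : IsPreconnected U := by
    apply Set.OrdConnected.isPreconnected
    constructor
    intro a ha b _ c hc
    have h0 : 0 < c := lt_of_lt_of_le ha.1 hc.1
    exact ⟨h0, lt_of_lt_of_le ha.2 (by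
      have := pow_le_pow_left₀ ha.1.le hc.1 k
      linarith)⟩
  have hUan : AnalyticOnNhd ℝ (fun x : ℝ => G2_f p k (x : ℂ)) U := by
    intro y hy
    have h1 : 2 * (y : ℂ) ^ k - 1 ∈ slitPlane := by
      left
      have : (2 * (y : ℂ) ^ k - 1) = ((2 * y ^ k - 1 : ℝ) : ℂ) := by push_cast; rfl
      rw [this, ofReal_re]
      linarith [hy.2]
    have h2 : AnalyticAt ℝ (G2_f p k) (y : ℂ) := (G2_an p k y h1).restrictScalars
    exact h2.comp (Complex.ofRealCLM.analyticAt y)
  have hU0 : AnalyticOnNhd ℝ (fun _ : ℝ => (0 : ℂ)) U := fun _ _ => analyticAt_const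
  have h1U : (1 : ℝ) ∈ U := ⟨one_pos, by norm_num⟩
  have hev : (fun x : ℝ => G2_f p k (x : ℂ)) =ᶠ[𝓝 1] fun _ => 0 := by
    have ht : Tendsto (fun x : ℝ => (x : ℂ)) (𝓝 1) (𝓝 ((1 : ℝ) : ℂ)) :=
      Complex.continuous_ofReal.tendsto 1
    rw [ofReal_one] at ht
    filter_upwards [ht.eventually h] with y hy
    exact sub_eq_zero.2 hy
  have key := hUan.eqOn_of_preconnected_of_eventuallyEq hU0 hUc h1U hev
  have hxU : x ∈ U := ⟨by linarith, by
    have := one_le_pow₀ hx (n := k)
    linarith⟩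
  exact sub_eq_zero.1 (key hxU)

theorem tG2 : StG2 := by
  intro p k hp hk hpk h
  have hkr : (0 : ℝ) < k := by exact_mod_cast hk
  have hpr : (0 : ℝ) < p := by exact_mod_cast hp
  set c : ℝ := (2 * (p : ℝ) + 4 * k) / (3 * k) with hc
  set δ : ℝ := c * k - (p + k) with hδ
  have hδ0 : δ ≠ 0 := by
    have : δ = ((k : ℝ) - p) / 3 := by
      rw [hδ, hc]
      field_simp
      ring
    rw [this]
    have h2 : (k : ℝ) - p ≠ 0 := sub_ne_zero.2 (by exact_mod_cast (Ne.symm hpk))
    exact div_ne_zero h2 (by norm_num)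
  set m : ℝ → ℝ := fun x => 2 - (x ^ k)⁻¹ with hm
  set G : ℝ → ℝ := fun x => Real.exp (c * Real.log (m x)) *
    G2_b p k (Real.exp (-(Real.log (m x) / k))) with hG
  have hmlim : Tendsto m atTop (𝓝 2) := by
    have h1 : Tendsto (fun x : ℝ => (x ^ k)⁻¹) atTop (𝓝 0) :=
      (tendsto_pow_atTop (by omega)).inv_tendsto_atTop
    have h2 := (tendsto_const_nhds (x := (2 : ℝ))).sub h1
    rw [sub_zero] at h2
    exact h2
  have hbc : Continuous (G2_b p k) := by
    unfold G2_b
    fun_prop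
  set γ : ℝ := Real.exp (c * Real.log 2) * G2_b p k (Real.exp (-(Real.log 2 / k))) with hγ
  have hγ0 : 0 < γ := by
    apply mul_pos (Real.exp_pos _)
    apply G2_pos p k hp hk _ (Real.exp_pos _).le
    rw [Real.exp_lt_one_iff]
    have := Real.log_pos (by norm_num : (1 : ℝ) < 2)
    have : 0 < Real.log 2 / k := by positivity
    linarith
  have hGlim : Tendsto G atTop (𝓝 γ) := by
    have hl : Tendsto (fun x => Real.log (m x)) atTop (𝓝 (Real.log 2)) :=
      ((Real.continuousAt_log (by norm_num)).tendsto).comp hmlim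
    have h1 : Tendsto (fun x => Real.exp (c * Real.log (m x))) atTop
        (𝓝 (Real.exp (c * Real.log 2))) :=
      (Real.continuous_exp.tendsto _).comp (hl.const_mul c)
    have h2 : Tendsto (fun x => G2_b p k (Real.exp (-(Real.log (m x) / k)))) atTop
        (𝓝 (G2_b p k (Real.exp (-(Real.log 2 / k))))) :=
      ((hbc.comp Real.continuous_exp).tendsto _).comp ((hl.div_const (k : ℝ)).neg)
    exact h1.mul h2
  set A : ℝ → ℝ := fun x => (x ^ (p + k))⁻¹ - ((p : ℝ) + k) / k * (x ^ k)⁻¹ + (p : ℝ) / k with hA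
  have hAlim : Tendsto A atTop (𝓝 ((p : ℝ) / k)) := by
    have h1 : Tendsto (fun x : ℝ => (x ^ (p + k))⁻¹) atTop (𝓝 0) :=
      (tendsto_pow_atTop (by omega)).inv_tendsto_atTop
    have h2 : Tendsto (fun x : ℝ => (x ^ k)⁻¹) atTop (𝓝 0) :=
      (tendsto_pow_atTop (by omega)).inv_tendsto_atTop
    have h3 := (h1.sub (h2.const_mul (((p : ℝ) + k) / k))).add_const ((p : ℝ) / k)
    simpa using h3
  -- the equation
  have heq : ∀ᶠ x : ℝ in atTop, A x = Real.exp (δ * Real.log x) * G x := by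
    filter_upwards [eventually_ge_atTop (1 : ℝ)] with x hx
    have hx0 : 0 < x := by linarith
    have hxk : 1 ≤ x ^ k := one_le_pow₀ hx
    have hL : 0 < 2 * x ^ k - 1 := by linarith
    have h1 := G2_global p k h x hx
    rw [G2_Bm, G2_Mo k x hL, G2_Bm, G2_Mc p k x hL] at h1
    rw [← Complex.ofReal_mul] at h1
    have h2 : G2_b p k x = Real.exp (c * Real.log (2 * x ^ k - 1)) *
        G2_b p k (x * Real.exp (-(Real.log (2 * x ^ k - 1) / k))) := Complex.ofReal_injective h1
    have hmx : 0 < m x := by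
      show 0 < 2 - (x ^ k)⁻¹
      have : (x ^ k)⁻¹ ≤ 1 := inv_le_one_of_one_le₀ hxk
      linarith
    have h3 : Real.log (2 * x ^ k - 1) = k * Real.log x + Real.log (m x) := by
      have : 2 * x ^ k - 1 = x ^ k * m x := by
        show _ = x ^ k * (2 - (x ^ k)⁻¹)
        field_simp
      rw [this, Real.log_mul (by positivity) hmx.ne', Real.log_pow]
    have h4 : x * Real.exp (-(Real.log (2 * x ^ k - 1) / k)) = Real.exp (-(Real.log (m x) / k)) := by
      rw [h3]
      have e1 : -((k * Real.log x + Real.log (m x)) / k) =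
          -(Real.log x) + -(Real.log (m x) / k) := by
        field_simp
        ring
      rw [e1, Real.exp_add, Real.exp_neg, Real.exp_log hx0]
      field_simp
    have h5 : Real.exp (c * Real.log (2 * x ^ k - 1)) =
        x ^ (p + k) * (Real.exp (δ * Real.log x) * Real.exp (c * Real.log (m x))) := by
      have e2 : x ^ (p + k) = Real.exp (((p : ℝ) + k) * Real.log x) := by
        have : ((p : ℝ) + k) * Real.log x = Real.log (x ^ (p + k)) := by
          rw [Real.log_pow]
          push_cast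
          rfl
        rw [this, Real.exp_log (by positivity)]
      rw [h3, e2, ← Real.exp_add, ← Real.exp_add]
      congr 1
      rw [hδ]
      ring
    rw [h4, h5] at h2
    have h6 : A x = G2_b p k x / x ^ (p + k) := by
      show (x ^ (p + k))⁻¹ - ((p : ℝ) + k) / k * (x ^ k)⁻¹ + (p : ℝ) / k = _
      unfold G2_b
      rw [pow_add]
      field_simp
    rw [h6, h2]
    show _ = Real.exp (δ * Real.log x) * (Real.exp (c * Real.log (m x)) *
      G2_b p k (Real.exp (-(Real.log (m x) / k))))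
    field_simp
  have hratio : Tendsto (fun x : ℝ => Real.exp (δ * Real.log x)) atTop (𝓝 ((p : ℝ) / k / γ)) := by
    have h1 := hAlim.div hGlim hγ0.ne'
    refine h1.congr' ?_
    have hGne : ∀ᶠ x in atTop, G x ≠ 0 := hGlim.eventually_ne hγ0.ne'
    filter_upwards [heq, hGne] with x hx hne
    show A x / G x = _
    rw [hx]
    exact mul_div_cancel_right₀ _ hne
  have hlam : (0 : ℝ) < (p : ℝ) / k / γ := by positivity
  rcases lt_or_gt_of_ne hδ0 with hneg | hpos
  · have h1 : Tendsto (fun x : ℝ => Real.exp (δ * Real.log x)) atTop (𝓝 0) :=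
      Real.tendsto_exp_atBot.comp (Real.tendsto_log_atTop.const_mul_atTop_of_neg hneg)
    exact hlam.ne' (tendsto_nhds_unique hratio h1)
  · have h1 : Tendsto (fun x : ℝ => Real.exp (δ * Real.log x)) atTop atTop :=
      Real.tendsto_exp_atTop.comp (Real.tendsto_log_atTop.const_mul_atTop hpos)
    exact not_tendsto_nhds_of_tendsto_atTop h1 _ hratio

end H719FX
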