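import Pool.Agent.H719R4.FX.Geo

/-! Task INT: passing to the coordinate tau. -/

open Complex Set Filter Topology

namespace H719FX

open H738CZ

theorem INT_const {S : Set ℂ} (hS : IsPreconnected S) {f : ℂ → ℂ} (hc : ContinuousOn f S)
    (h3 : ∀ t ∈ S, f t ^ 3 = 1) {x y : ℂ} (hx : x ∈ S) (hy : y ∈ S) : f x = f y := by
  refine hS.constant_of_mapsTo (T := (↑(Polynomial.nthRootsFinset 3 (1 : ℂ)) : Set ℂ))
    (Finset.finite_toSet _).isDiscrete hc ?_ hx hy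
  intro t ht
  rw [Finset.mem_coe, Polynomial.mem_nthRootsFinset (by norm_num)]
  exact h3 t ht

theorem tINT (hCHG : StCHG) (hMON : StMON) : StINT := by
  intro kc p k u R ρ t1 hp hk hU ht1 ht10 hρ hG
  obtain ⟨η, hη, r0, g, hFI, C, s, hC, hs0, hs1, hGB⟩ := hG
  obtain ⟨ε, hε, hρε⟩ := Metric.eventually_nhds_iff_ball.1 hρ
  obtain ⟨τ1, hτ1⟩ : ∃ τ1 : ℂ, τ1 ^ 3 = t1 := IsAlgClosed.exists_pow_nat_eq t1 (by norm_num)
  have hτ10 : τ1 ≠ 0 := by
    rintro rfl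
    exact ht10 (by rw [← hτ1]; norm_num)
  have hτ1R : ‖τ1‖ < R := by
    have h1 : ‖τ1‖ ^ 3 < R ^ 3 := by
      rw [← norm_pow, hτ1]
      simpa using ht1
    exact lt_of_pow_lt_pow_left₀ 3 hU.pos.le h1
  have hcont : Continuous (fun τ : ℂ => τ ^ 3) := continuous_pow 3
  have hcontk : Continuous (fun τ : ℂ => τ ^ (3 * k)) := continuous_pow (3 * k)
  have hopen : IsOpen ((fun τ : ℂ => τ ^ (3 * k)) ⁻¹' (Metric.ball (t1 ^ k) η) ∩
      ((fun τ : ℂ => τ ^ 3) ⁻¹' (Metric.ball t1 ε ∩ Metric.ball 0 (R ^ 3)) ∩ V3 R)) :=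
    (Metric.isOpen_ball.preimage hcontk).inter
      (((Metric.isOpen_ball.inter Metric.isOpen_ball).preimage hcont).inter
        (Metric.isOpen_ball.sdiff isClosed_singleton))
  have hmem : τ1 ∈ ((fun τ : ℂ => τ ^ (3 * k)) ⁻¹' (Metric.ball (t1 ^ k) η) ∩
      ((fun τ : ℂ => τ ^ 3) ⁻¹' (Metric.ball t1 ε ∩ Metric.ball 0 (R ^ 3)) ∩ V3 R)) := by
    refine ⟨?_, ⟨?_, ?_⟩, ?_, ?_⟩
    · simp only [mem_preimage, pow_mul, hτ1]
      exact Metric.mem_ball_self hη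
    · simp only [hτ1]
      exact Metric.mem_ball_self hε
    · simp only [hτ1]
      exact ht1
    · simpa using hτ1R
    · simpa using hτ10
  obtain ⟨η', hη', hsub⟩ := Metric.isOpen_iff.1 hopen τ1 hmem
  have hmaps : MapsTo (fun τ : ℂ => τ ^ (3 * k)) (Metric.ball τ1 η') (Metric.ball (t1 ^ k) η) :=
    fun t ht => (hsub ht).1
  have hmapsε : MapsTo (fun τ : ℂ => τ ^ 3) (Metric.ball τ1 η') (Metric.ball t1 ε) :=
    fun t ht => (hsub ht).2.1.1
  have hmaps2 : MapsTo (fun τ : ℂ => τ ^ 3) (Metric.ball τ1 η') (Metric.ball 0 (R ^ 3)) :=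
    fun t ht => (hsub ht).2.1.2
  have hne : ∀ t ∈ Metric.ball τ1 η', t ≠ 0 := fun t ht => by
    have := (hsub ht).2.2.2
    simpa using this
  have hk0 : (k : ℂ) ≠ 0 := by
    have : k ≠ 0 := by omega
    exact_mod_cast this
  have h1 := hCHG kc (fun _ => 1) ρ r0 g (Metric.ball (t1 ^ k) η) (dk k) (fun τ => τ ^ (3 * k))
    (Metric.ball τ1 η') hFI Metric.isOpen_ball (differentiable_pow (3 * k)).differentiableOn hmaps
    (fun t _ => by
      unfold dk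
      rw [one_mul]
      simp)
    (fun t ht => by
      unfold dk
      exact mul_ne_zero (mul_ne_zero (by norm_num) hk0) (pow_ne_zero _ (hne t ht)))
  set f : ℂ → ℂ := fun τ => r0 (τ ^ (3 * k)) * τ ^ k / (τ ^ p * u (τ ^ 3)) with hf
  have hden : ∀ t ∈ Metric.ball τ1 η', t ^ p * u (t ^ 3) ≠ 0 := fun t ht =>
    mul_ne_zero (pow_ne_zero _ (hne t ht)) (hU.nz _ (hmaps2 ht))
  have hfc : ContinuousOn f (Metric.ball τ1 η') := by
    refine ContinuousOn.div ?_ ?_ hden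
    · exact (hFI.base.rd.continuousOn.comp hcontk.continuousOn hmaps).mul
        (continuous_pow k).continuousOn
    · exact (continuous_pow p).continuousOn.mul
        (hU.df.continuousOn.comp hcont.continuousOn hmaps2)
  have hf3 : ∀ t ∈ Metric.ball τ1 η', f t ^ 3 = 1 := by
    intro t ht
    have h2 : ρ (t ^ (3 * k)) = r0 (t ^ (3 * k)) ^ 3 := hFI.base.cube _ (hmaps ht)
    have h3 : ρ ((t ^ 3) ^ k) * (t ^ 3) ^ k = (t ^ 3) ^ p * u (t ^ 3) ^ 3 :=
      hρε _ (hmapsε ht)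
    rw [← pow_mul, h2] at h3
    have h4 := pow_ne_zero 3 (hden t ht)
    rw [hf]
    simp only
    rw [div_pow, div_eq_one_iff_eq h4, mul_pow, mul_pow, ← pow_mul, ← pow_mul, mul_comm k 3, h3,
      ← pow_mul, mul_comm 3 p]
  have hω := hf3 τ1 (Metric.mem_ball_self hη')
  have hr : ∀ t ∈ Metric.ball τ1 η', r0 (t ^ (3 * k)) = t ^ p * (f τ1 * u (t ^ 3)) / t ^ k := by
    intro t ht
    rw [← INT_const (convex_ball _ _).isPreconnected hfc hf3 ht (Metric.mem_ball_self hη')]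
    have h5 := hden t ht
    have h6 : t ^ k ≠ 0 := pow_ne_zero _ (hne t ht)
    rw [hf]
    simp only
    rw [eq_div_iff h6]
    have e : t ^ p * (r0 (t ^ (3 * k)) * t ^ k / (t ^ p * u (t ^ 3)) * u (t ^ 3)) =
        r0 (t ^ (3 * k)) * t ^ k * ((t ^ p * u (t ^ 3)) / (t ^ p * u (t ^ 3))) := by ring
    rw [e, div_self h5, mul_one]
  refine ⟨f τ1, τ1, η', fun j => g j ∘ (fun τ => τ ^ (3 * k)), hω, hη', fun t ht => (hsub ht).2.2, ?_,
    C, s, hC, hs0, hs1, ?_⟩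
  · refine hMON kc (dk k) (ρ ∘ fun τ => τ ^ (3 * k)) (r0 ∘ fun τ => τ ^ (3 * k)) (dk k) _ _
      (fun j => g j ∘ fun τ => τ ^ (3 * k)) _ (Metric.ball τ1 η') (Metric.ball τ1 η') h1
      Metric.isOpen_ball subset_rfl (fun _ _ => rfl) ?_ ?_ (fun _ _ _ _ => rfl)
    · intro t ht
      show (t ^ p * (f τ1 * u (t ^ 3)) / t ^ k) ^ 3 = ρ (t ^ (3 * k))
      rw [← hr t ht]
      exact (hFI.base.cube _ (hmaps ht)).symm
    · intro t ht
      show t ^ p * (f τ1 * u (t ^ 3)) / t ^ k = r0 (t ^ (3 * k))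
      exact (hr t ht).symm
  · intro j hj t ht
    exact hGB j hj _ (hmaps ht)

end H719FX
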