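import Pool.Agent.H719R4.FX.Geo

open Complex Set Filter Topology

namespace H719FX

open H738CZ

/-- the cofactor `k Bm = (x-1)² S` -/
noncomputable def LOC_S (p k : ℕ) (x : ℂ) : ℂ :=
  ∑ i ∈ Finset.range k, ∑ j ∈ Finset.range p, ∑ l ∈ Finset.Ico j (p + i), x ^ l

/-- the cofactor `Bm = (x-1)² C` -/
noncomputable def LOC_C (p k : ℕ) (x : ℂ) : ℂ := (k : ℂ)⁻¹ * LOC_S p k x

theorem LOC_S1 (p k : ℕ) (x : ℂ) : LOC_S p k x * (x - 1) =
    p * x ^ p * (∑ i ∈ Finset.range k, x ^ i) - k * ∑ j ∈ Finset.range p, x ^ j := by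
  unfold LOC_S
  have h1 : ∀ i ∈ Finset.range k, ∀ j ∈ Finset.range p,
      (∑ l ∈ Finset.Ico j (p + i), x ^ l) * (x - 1) = x ^ (p + i) - x ^ j := by
    intro i _ j hj
    exact geom_sum_Ico_mul x (by have := Finset.mem_range.1 hj; omega)
  rw [Finset.sum_mul]
  rw [Finset.sum_congr rfl (fun i hi => by
    rw [Finset.sum_mul, Finset.sum_congr rfl (fun j hj => h1 i hi j hj)])]
  simp only [Finset.sum_sub_distrib, Finset.sum_const, Finset.card_range, nsmul_eq_mul]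
  congr 1
  rw [Finset.mul_sum]
  apply Finset.sum_congr rfl
  intro i _
  rw [pow_add]
  ring

theorem LOC_fac (p k : ℕ) (hk : 1 ≤ k) (x : ℂ) : Bm p k x = (x - 1) ^ 2 * LOC_C p k x := by
  have hk0 : (k : ℂ) ≠ 0 := by
    have : k ≠ 0 := by omega
    exact_mod_cast this
  have h1 := LOC_S1 p k x
  have g1 := geom_sum_mul x k
  have g2 := geom_sum_mul x p
  have h2 : (x - 1) ^ 2 * LOC_S p k x = k - (p + k) * x ^ p + p * x ^ (p + k) := by
    have e : (x - 1) ^ 2 * LOC_S p k x = (LOC_S p k x * (x - 1)) * (x - 1) := by ring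
    rw [e, h1, pow_add]
    linear_combination (p * x ^ p : ℂ) * g1 - (k : ℂ) * g2
  have h3 : (x - 1) ^ 2 * LOC_C p k x = (k : ℂ)⁻¹ * ((x - 1) ^ 2 * LOC_S p k x) := by
    unfold LOC_C
    ring
  rw [h3, h2]
  unfold Bm
  field_simp

noncomputable def LOC_R (p k : ℕ) : ℝ :=
  (k : ℝ)⁻¹ * ∑ i ∈ Finset.range k, ∑ j ∈ Finset.range p, ∑ _l ∈ Finset.Ico j (p + i), (1 : ℝ)

noncomputable def LOC_D (p k : ℕ) : ℝ :=
  (k : ℝ)⁻¹ * ∑ i ∈ Finset.range k, ∑ j ∈ Finset.range p, ∑ l ∈ Finset.Ico j (p + i), (l : ℝ)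

theorem LOC_Rpos (p k : ℕ) (hp : 1 ≤ p) (hk : 1 ≤ k) : 0 < LOC_R p k := by
  unfold LOC_R
  have hk0 : (0 : ℝ) < k := by exact_mod_cast (by omega : 0 < k)
  apply mul_pos (inv_pos.2 hk0)
  apply Finset.sum_pos
  · intro i _
    apply Finset.sum_pos
    · intro j hj
      apply Finset.sum_pos
      · intro l _
        norm_num
      · refine ⟨j, Finset.mem_Ico.2 ⟨le_rfl, ?_⟩⟩
        have := Finset.mem_range.1 hj
        omega
    · exact ⟨0, Finset.mem_range.2 (by omega)⟩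
  · exact ⟨0, Finset.mem_range.2 (by omega)⟩

theorem LOC_Dnn (p k : ℕ) : 0 ≤ LOC_D p k := by
  unfold LOC_D
  apply mul_nonneg (by positivity)
  exact Finset.sum_nonneg (fun i _ => Finset.sum_nonneg (fun j _ =>
    Finset.sum_nonneg (fun l _ => by positivity)))

theorem LOC_C1 (p k : ℕ) : LOC_C p k 1 = (LOC_R p k : ℂ) := by
  unfold LOC_C LOC_S LOC_R
  push_cast
  simp only [one_pow]

theorem LOC_Cderiv (p k : ℕ) : HasDerivAt (LOC_C p k) (LOC_D p k : ℂ) 1 := by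
  have h : HasDerivAt (fun x : ℂ => (k : ℂ)⁻¹ * ∑ i ∈ Finset.range k, ∑ j ∈ Finset.range p,
      ∑ l ∈ Finset.Ico j (p + i), x ^ l)
      ((k : ℂ)⁻¹ * ∑ i ∈ Finset.range k, ∑ j ∈ Finset.range p,
      ∑ l ∈ Finset.Ico j (p + i), ((l : ℂ) * (1 : ℂ) ^ (l - 1))) 1 := by
    apply HasDerivAt.const_mul
    apply HasDerivAt.fun_sum
    intro i _
    apply HasDerivAt.fun_sum
    intro j _
    apply HasDerivAt.fun_sum
    intro l _
    exact hasDerivAt_pow l 1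
  have h2 : ((k : ℂ)⁻¹ * ∑ i ∈ Finset.range k, ∑ j ∈ Finset.range p,
      ∑ l ∈ Finset.Ico j (p + i), ((l : ℂ) * (1 : ℂ) ^ (l - 1))) =
      (LOC_D p k : ℂ) := by
    unfold LOC_D
    push_cast
    simp only [one_pow, mul_one]
  rw [h2] at h
  exact h

theorem LOC_Can (p k : ℕ) (x : ℂ) : AnalyticAt ℂ (LOC_C p k) x := by
  have : Differentiable ℂ (LOC_C p k) := by
    unfold LOC_C LOC_S; fun_prop
  exact this.analyticAt x

theorem LOC_Cconj (p k : ℕ) (x : ℂ) :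
    LOC_C p k ((starRingEnd ℂ) x) = (starRingEnd ℂ) (LOC_C p k x) := by
  unfold LOC_C LOC_S
  rw [map_mul, map_inv₀, map_natCast, map_sum]
  congr 1
  apply Finset.sum_congr rfl
  intro i _
  rw [map_sum]
  apply Finset.sum_congr rfl
  intro j _
  rw [map_sum]
  apply Finset.sum_congr rfl
  intro l _
  rw [map_pow]

noncomputable def LOC_g (p k : ℕ) (x : ℂ) : ℂ := (LOC_C p k x) ^ (1 / 2 : ℂ)

theorem LOC_slit (p k : ℕ) (hp : 1 ≤ p) (hk : 1 ≤ k) : LOC_C p k 1 ∈ slitPlane := by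
  rw [LOC_C1]
  exact Complex.ofReal_mem_slitPlane.mpr (LOC_Rpos p k hp hk)

theorem LOC_gan (p k : ℕ) (hp : 1 ≤ p) (hk : 1 ≤ k) : AnalyticAt ℂ (LOC_g p k) 1 := by
  unfold LOC_g
  exact (LOC_Can p k 1).cpow analyticAt_const (LOC_slit p k hp hk)

theorem LOC_g1 (p k : ℕ) (hp : 1 ≤ p) (hk : 1 ≤ k) :
    LOC_g p k 1 = ((LOC_R p k ^ (1 / 2 : ℝ) : ℝ) : ℂ) := by
  unfold LOC_g
  rw [LOC_C1, Complex.ofReal_cpow (LOC_Rpos p k hp hk).le]
  norm_num

theorem LOC_gd (p k : ℕ) (hp : 1 ≤ p) (hk : 1 ≤ k) : HasDerivAt (LOC_g p k)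
    ((1 / 2 * LOC_R p k ^ (-(1 / 2) : ℝ) * LOC_D p k : ℝ) : ℂ) 1 := by
  have h := (LOC_Cderiv p k).cpow_const (c := (1 / 2 : ℂ)) (LOC_slit p k hp hk)
  have h2 : (1 / 2 : ℂ) * (LOC_C p k 1) ^ ((1 / 2 : ℂ) - 1) * (LOC_D p k : ℂ) =
      ((1 / 2 * LOC_R p k ^ (-(1 / 2) : ℝ) * LOC_D p k : ℝ) : ℂ) := by
    rw [LOC_C1]
    push_cast
    rw [Complex.ofReal_cpow (LOC_Rpos p k hp hk).le]
    norm_num
  rw [h2] at h
  exact h

theorem LOC_g_sq (p k : ℕ) (hp : 1 ≤ p) (hk : 1 ≤ k) :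
    ∀ᶠ x in 𝓝 (1 : ℂ), LOC_g p k x ^ 2 = LOC_C p k x := by
  have h : ∀ᶠ x in 𝓝 (1 : ℂ), LOC_C p k x ≠ 0 := by
    apply (LOC_Can p k 1).continuousAt.eventually_ne
    rw [LOC_C1]
    exact_mod_cast (LOC_Rpos p k hp hk).ne'
  filter_upwards [h] with x hx
  unfold LOC_g
  rw [← Complex.cpow_nat_mul]
  norm_num

noncomputable def LOC_W (p k : ℕ) (x : ℂ) : ℂ := (x - 1) * LOC_g p k x

theorem LOC_Wan (p k : ℕ) (hp : 1 ≤ p) (hk : 1 ≤ k) : AnalyticAt ℂ (LOC_W p k) 1 := by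
  unfold LOC_W
  exact (analyticAt_id.sub analyticAt_const).mul (LOC_gan p k hp hk)

theorem LOC_W1 (p k : ℕ) : LOC_W p k 1 = 0 := by simp [LOC_W]

theorem LOC_Wd (p k : ℕ) (hp : 1 ≤ p) (hk : 1 ≤ k) :
    HasDerivAt (LOC_W p k) ((LOC_R p k ^ (1 / 2 : ℝ) : ℝ) : ℂ) 1 := by
  have h := ((hasDerivAt_id (1 : ℂ)).sub_const 1).mul (LOC_gd p k hp hk)
  simp only [id, sub_self, zero_mul, add_zero, one_mul] at h
  rw [LOC_g1 p k hp hk] at h
  exact h

theorem LOC_W_sq (p k : ℕ) (hp : 1 ≤ p) (hk : 1 ≤ k) :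
    ∀ᶠ x in 𝓝 (1 : ℂ), Bm p k x = LOC_W p k x ^ 2 := by
  filter_upwards [LOC_g_sq p k hp hk] with x hx
  rw [LOC_fac p k hk, LOC_W, mul_pow, hx]

/-- symmetry -/
theorem LOC_Wconj (p k : ℕ) (hp : 1 ≤ p) (hk : 1 ≤ k) :
    ∀ᶠ x in 𝓝 (1 : ℂ), LOC_W p k ((starRingEnd ℂ) x) = (starRingEnd ℂ) (LOC_W p k x) := by
  have h : ∀ᶠ x in 𝓝 (1 : ℂ), LOC_C p k x ∈ slitPlane :=
    (LOC_Can p k 1).continuousAt.eventually (isOpen_slitPlane.mem_nhds (LOC_slit p k hp hk))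
  filter_upwards [h] with x hx
  unfold LOC_W LOC_g
  rw [LOC_Cconj, map_mul, map_sub, map_one]
  congr 1
  have h2 : (starRingEnd ℂ) (1 / 2 : ℂ) = 1 / 2 := by
    rw [map_div₀, map_one, map_ofNat]
  rw [Complex.conj_cpow _ _ (Complex.mem_slitPlane_iff_arg.1 hx).1, h2]

/-- the sign of `Re W` inside the unit disc -/
theorem LOC_sign (p k : ℕ) (hp : 1 ≤ p) (hk : 1 ≤ k) :
    ∀ᶠ x in 𝓝 (1 : ℂ), ‖x‖ < 1 → (LOC_W p k x).re < 0 := by
  set σ : ℝ := LOC_R p k ^ (1 / 2 : ℝ) with hσ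
  have hσ0 : 0 < σ := Real.rpow_pos_of_pos (LOC_Rpos p k hp hk) _
  set κ : ℝ := 1 / 2 * LOC_R p k ^ (-(1 / 2) : ℝ) * LOC_D p k with hκ
  have hκ0 : 0 ≤ κ := by
    have := LOC_Dnn p k
    have := LOC_Rpos p k hp hk
    positivity
  -- second divided difference
  set h : ℂ → ℂ := dslope (LOC_g p k) 1 with hh
  have hhan : AnalyticAt ℂ h 1 := by
    obtain ⟨q, hq⟩ := LOC_gan p k hp hk
    exact (hq.has_fpower_series_dslope_fslope).analyticAt
  have hh1 : h 1 = (κ : ℂ) := by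
    rw [hh, dslope_same]
    exact (LOC_gd p k hp hk).deriv
  set kk : ℂ → ℂ := dslope h 1 with hkk
  have hkan : AnalyticAt ℂ kk 1 := by
    obtain ⟨q, hq⟩ := hhan
    exact (hq.has_fpower_series_dslope_fslope).analyticAt
  have hkb : ∀ᶠ x in 𝓝 (1 : ℂ), ‖kk x‖ < ‖kk 1‖ + 1 :=
    hkan.continuousAt.norm.eventually_lt continuousAt_const (by simp)
  set K : ℝ := ‖kk 1‖ + 1 with hK
  have hK0 : 0 < K := by positivity
  have hnear : ∀ᶠ x in 𝓝 (1 : ℂ), ‖x - 1‖ < min (σ / (2 * κ + 1)) (σ / (4 * K)) := by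
    have : Tendsto (fun x : ℂ => ‖x - 1‖) (𝓝 1) (𝓝 0) := by
      have h1 : ContinuousAt (fun x : ℂ => ‖x - 1‖) 1 := by fun_prop
      have := h1.tendsto
      simpa using this
    exact this.eventually_lt_const (by positivity)
  filter_upwards [hkb, hnear] with x hx1 hx2 hx3
  have e1 : LOC_g p k x = σ + (x - 1) * h x := by
    have := sub_smul_dslope (LOC_g p k) 1 x
    rw [smul_eq_mul, LOC_g1 p k hp hk] at this
    rw [hh]
    linear_combination this.symm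
  have e2 : h x = κ + (x - 1) * kk x := by
    have := sub_smul_dslope h 1 x
    rw [smul_eq_mul, hh1] at this
    rw [hkk]
    linear_combination this.symm
  set s : ℂ := 1 - x with hs
  have e3 : LOC_W p k x = -((σ : ℂ) * s - κ * s ^ 2 + kk x * s ^ 3) := by
    unfold LOC_W
    rw [e1, e2, hs]
    ring
  have hxs : x = 1 - s := by rw [hs]; ring
  have hsn : ‖s‖ < min (σ / (2 * κ + 1)) (σ / (4 * K)) := by
    rw [hs, norm_sub_rev]; exact hx2
  have hs1 : ‖s‖ < σ / (2 * κ + 1) := lt_of_lt_of_le hsn (min_le_left _ _)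
  have hs2 : ‖s‖ < σ / (4 * K) := lt_of_lt_of_le hsn (min_le_right _ _)
  have hnn : 0 ≤ ‖s‖ := norm_nonneg s
  have hsq : ‖s‖ ^ 2 = s.re ^ 2 + s.im ^ 2 := by
    rw [Complex.sq_norm, Complex.normSq_apply]; ring
  have hre : ‖s‖ ^ 2 / 2 < s.re := by
    have h5 : ‖x‖ ^ 2 < 1 := by
      have : 0 ≤ ‖x‖ := norm_nonneg x
      nlinarith
    have h6 : ‖x‖ ^ 2 = (1 - s.re) ^ 2 + s.im ^ 2 := by
      rw [Complex.sq_norm, Complex.normSq_apply, hxs]
      simp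
      ring
    nlinarith
  have hk3 : |(kk x * s ^ 3).re| ≤ K * ‖s‖ ^ 3 := by
    refine (Complex.abs_re_le_norm _).trans ?_
    rw [norm_mul, norm_pow]
    exact mul_le_mul_of_nonneg_right hx1.le (by positivity)
  have e4 : (LOC_W p k x).re = -(σ * s.re - κ * (s.re ^ 2 - s.im ^ 2) + (kk x * s ^ 3).re) := by
    rw [e3]
    have e5 : ((κ : ℂ) * s ^ 2).re = κ * (s.re ^ 2 - s.im ^ 2) := by
      rw [Complex.re_ofReal_mul, pow_two, Complex.mul_re]; ring
    rw [Complex.neg_re, Complex.add_re, Complex.sub_re, e5, Complex.re_ofReal_mul]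
  rw [e4]
  have hre_le : s.re ≤ ‖s‖ := (le_abs_self _).trans (Complex.abs_re_le_norm s)
  have hre0 : 0 < s.re := by
    have : 0 ≤ ‖s‖ ^ 2 / 2 := by positivity
    linarith
  have h7 : κ * s.re ^ 2 ≤ σ / 2 * s.re := by
    have h8 : ‖s‖ * (2 * κ + 1) < σ := by rwa [lt_div_iff₀ (by positivity)] at hs1
    have h9 : κ * s.re ≤ σ / 2 := by nlinarith
    nlinarith
  have h8 : K * ‖s‖ ^ 3 ≤ σ / 4 * ‖s‖ ^ 2 := by
    have h9 : ‖s‖ * (4 * K) < σ := by rwa [lt_div_iff₀ (by positivity)] at hs2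
    have h10 : K * ‖s‖ ≤ σ / 4 := by linarith
    nlinarith [sq_nonneg ‖s‖]
  have h9 := (abs_le.mp hk3).1
  have h10 : 0 ≤ κ * s.im ^ 2 := by positivity
  nlinarith

/-- a function with positive real derivative, symmetric under conjugation -/
theorem LOC_im (X : ℂ → ℂ) (c : ℝ) (hc : 0 < c) (hX : HasStrictDerivAt X (c : ℂ) 0)
    (hconj : ∀ᶠ w in 𝓝 (0 : ℂ), X ((starRingEnd ℂ) w) = (starRingEnd ℂ) (X w)) :
    ∀ᶠ w in 𝓝 (0 : ℂ), (0 ≤ w.im → 0 ≤ (X w).im) ∧ (w.im ≤ 0 → (X w).im ≤ 0) := by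
  have h1 := hX.hasStrictFDerivAt.isLittleO.def (half_pos hc)
  have h2 : Tendsto (fun w : ℂ => (w, (starRingEnd ℂ) w)) (𝓝 0) (𝓝 ((0 : ℂ), (0 : ℂ))) := by
    have h3 : ContinuousAt (fun w : ℂ => (w, (starRingEnd ℂ) w)) 0 :=
      continuousAt_id.prodMk Complex.continuous_conj.continuousAt
    have := h3.tendsto
    simpa using this
  filter_upwards [h2.eventually h1, hconj] with w hw hw2
  simp only [hw2] at hw
  have e1 : X w - (starRingEnd ℂ) (X w) = (2 * (X w).im : ℝ) * I := by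
    rw [Complex.sub_conj]
  have e2 : w - (starRingEnd ℂ) w = (2 * w.im : ℝ) * I := by
    rw [Complex.sub_conj]
  rw [e1, e2] at hw
  have e3 : ((2 * (X w).im : ℝ) : ℂ) * I -
      (ContinuousLinearMap.toSpanSingleton ℂ (c : ℂ)) (((2 * w.im : ℝ) : ℂ) * I) =
      ((2 * (X w).im - 2 * c * w.im : ℝ) : ℂ) * I := by
    simp only [ContinuousLinearMap.toSpanSingleton_apply, smul_eq_mul]
    push_cast
    ring
  rw [e3, norm_mul, norm_mul, Complex.norm_I, mul_one, mul_one, Complex.norm_real,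
    Complex.norm_real, Real.norm_eq_abs, Real.norm_eq_abs] at hw
  rw [abs_le] at hw
  constructor
  · intro h
    rw [abs_of_nonneg (by linarith)] at hw
    nlinarith [hw.1, hw.2]
  · intro h
    rw [abs_of_nonpos (by linarith)] at hw
    nlinarith [hw.1, hw.2]

theorem tLOC : StLOC := by
  intro p k hp hk
  set σ : ℝ := LOC_R p k ^ (1 / 2 : ℝ) with hσ
  have hσ0 : 0 < σ := Real.rpow_pos_of_pos (LOC_Rpos p k hp hk) _
  have hσc : (σ : ℂ) ≠ 0 := by exact_mod_cast hσ0.ne'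
  have hWan := LOC_Wan p k hp hk
  have hder : deriv (LOC_W p k) 1 = (σ : ℂ) := (LOC_Wd p k hp hk).deriv
  have hd : deriv (LOC_W p k) 1 ≠ 0 := by rw [hder]; exact hσc
  set X : ℂ → ℂ := hWan.hasStrictDerivAt.localInverse _ _ _ hd with hX
  have hXan : AnalyticAt ℂ X 0 := by
    have := hWan.analyticAt_localInverse hd
    rw [LOC_W1] at this
    exact this
  have hX0 : X 0 = 1 := by
    have : X (LOC_W p k 1) = 1 := HasStrictFDerivAt.localInverse_apply_image ..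
    rwa [LOC_W1] at this
  have hXW : ∀ᶠ x in 𝓝 (1 : ℂ), X (LOC_W p k x) = x :=
    HasStrictDerivAt.eventually_left_inverse hWan.hasStrictDerivAt hd
  have hWX : ∀ᶠ w in 𝓝 (0 : ℂ), LOC_W p k (X w) = w := by
    have := HasStrictDerivAt.eventually_right_inverse hWan.hasStrictDerivAt hd
    rw [LOC_W1] at this
    exact this
  have hX1 : deriv X 0 = ((σ⁻¹ : ℝ) : ℂ) := by
    have := HasStrictDerivAt.to_localInverse hWan.hasStrictDerivAt hd
    rw [LOC_W1] at this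
    have h2 : deriv X 0 = (deriv (LOC_W p k) 1)⁻¹ := this.hasDerivAt.deriv
    rw [h2, hder, Complex.ofReal_inv]
  have hXt : Tendsto X (𝓝 0) (𝓝 1) := by
    have := hXan.continuousAt.tendsto
    rwa [hX0] at this
  have hBX : ∀ᶠ w in 𝓝 (0 : ℂ), Bm p k (X w) = w ^ 2 := by
    filter_upwards [hXt.eventually (LOC_W_sq p k hp hk), hWX] with w h1 h2
    rw [h1, h2]
  have hsl : ∀ᶠ w in 𝓝 (0 : ℂ), 2 * X w ^ k - 1 ∈ slitPlane := by
    have h1 : ContinuousAt (fun w => 2 * X w ^ k - 1) 0 :=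
      ((hXan.continuousAt.pow k).const_mul 2).sub continuousAt_const
    apply h1.eventually (isOpen_slitPlane.mem_nhds _)
    simp only [hX0]
    norm_num
  have harg : ∀ᶠ w in 𝓝 (0 : ℂ), |arg (X w)| < Real.pi / (p + k) := by
    have h1 : ContinuousAt (fun w => |arg (X w)|) 0 := by
      apply ContinuousAt.abs
      apply ContinuousAt.comp (g := arg)
      · apply Complex.continuousAt_arg
        rw [hX0]
        norm_num
      · exact hXan.continuousAt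
    have h2 : |arg (X 0)| < Real.pi / (p + k) := by
      rw [hX0]
      simp only [arg_one, abs_zero]
      have : (0 : ℝ) < p + k := by exact_mod_cast (by omega : 0 < p + k)
      have := Real.pi_pos
      positivity
    exact h1.eventually (isOpen_Iio.mem_nhds h2)
  have hge : ∀ᶠ w in 𝓝 (0 : ℂ), 0 ≤ w.re → X w ∈ Dm p k := by
    filter_upwards [hXt.eventually (LOC_sign p k hp hk), hWX, harg] with w h1 h2 h3 h4
    refine ⟨?_, h3.le⟩
    by_contra h5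
    push Not at h5
    have := h1 h5
    rw [h2] at this
    linarith
  have hconj : ∀ᶠ w in 𝓝 (0 : ℂ), X ((starRingEnd ℂ) w) = (starRingEnd ℂ) (X w) := by
    have hct : Tendsto (fun x : ℂ => (starRingEnd ℂ) x) (𝓝 1) (𝓝 1) := by
      have := (Complex.continuous_conj.continuousAt (x := (1 : ℂ))).tendsto
      rwa [map_one] at this
    filter_upwards [hXt.eventually (LOC_Wconj p k hp hk), hWX,
      hXt.eventually (hct.eventually hXW)] with w h1 h2 h3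
    rw [h1, h2] at h3
    exact h3
  have him := LOC_im X σ⁻¹ (inv_pos.mpr hσ0) (by
    have := hXan.hasStrictDerivAt
    rwa [hX1] at this) hconj
  have hdx : ∀ᶠ w in 𝓝 (0 : ℂ), DifferentiableAt ℂ X w :=
    hXan.eventually_analyticAt.mono (fun w hw => hw.differentiableAt)
  obtain ⟨r, hr, hball⟩ := Metric.eventually_nhds_iff_ball.mp
    (hBX.and (hsl.and (hge.and (him.and hdx))))
  refine ⟨r, σ⁻¹, X, LOC_W p k, ?_⟩
  exact
    { r0 := hr
      c0 := inv_pos.mpr hσ0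
      dX := fun w hw => (hball w hw).2.2.2.2.differentiableWithinAt
      X0 := hX0
      X1 := hX1
      BX := fun w hw => (hball w hw).1
      sl := fun w hw => (hball w hw).2.1
      ge := fun w hw => (hball w hw).2.2.1
      imp := fun w hw => (hball w hw).2.2.2.1.1
      imn := fun w hw => (hball w hw).2.2.2.1.2
      aW := hWan
      W0 := LOC_W1 p k
      XW := hXW
      WX := hWX }

end H719FX
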