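import Pool.Agent.H719R4.FX.Defs
import Pool.Agent.H738R3.CZ.MDL

/-! MDL (helper666, adapted from helper847): from the model law to the model relation. -/

open Complex Set Filter Topology

namespace H719FX

open H738CZ Asymptotics

/-- the series of `(1+d)^ν - 1 - ν d` -/
noncomputable def MDLx_P (ν : ℂ) : PowerSeries ℂ :=
  binS ν - 1 - PowerSeries.C ν * PowerSeries.X

theorem MDLx_P_coeff (ν : ℂ) (k : ℕ) : PowerSeries.coeff k (MDLx_P ν) =
    if k < 2 then 0 else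
      ν * (ν - 1) * (∏ i ∈ Finset.range (k - 2), (ν - 2 - i)) / (k.factorial : ℂ) := by
  unfold MDLx_P
  rw [map_sub, map_sub, PowerSeries.coeff_C_mul, PowerSeries.coeff_X, PowerSeries.coeff_one, binS,
    PowerSeries.coeff_mk]
  rcases k with _ | _ | k
  · simp
  · simp
  · rw [if_neg (by omega), if_neg (by omega), if_neg (by omega), Finset.prod_range_succ',
      Finset.prod_range_succ']
    rw [show k + 1 + 1 - 2 = k by omega]
    have : ∀ i : ℕ, ν - ((i + 1 + 1 : ℕ) : ℂ) = ν - 2 - i := by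
      intro i; push_cast; ring
    rw [Finset.prod_congr rfl fun i _ => this i]
    push_cast
    ring

theorem MDLx_P_dvd (ν : ℂ) : (PowerSeries.X : PowerSeries ℂ) ^ 2 ∣ MDLx_P ν := by
  rw [PowerSeries.X_pow_dvd_iff]
  intro k hk
  rw [MDLx_P_coeff, if_pos hk]

/-- the exponent `ν` -/
noncomputable def MDLx_nu (p k : ℕ) : ℂ := ((p : ℂ) + k) / k

/-- the exponent `κ` -/
noncomputable def MDLx_ka (p k : ℕ) : ℂ := (2 * (p : ℂ) + 4 * k) / (3 * k)

theorem MDLx_Yp (p k : ℕ) (hp : 1 ≤ p) (hk : 1 ≤ k) (υ : ℂ) :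
    Yp p k υ = PowerSeries.C (υ ^ 3 * k ^ 2 / (p * (p + k))) * MDLx_P (MDLx_nu p k) := by
  have h1 : (p : ℂ) ≠ 0 := by exact_mod_cast (by omega : p ≠ 0)
  have h2 : (k : ℂ) ≠ 0 := by exact_mod_cast (by omega : k ≠ 0)
  have h3 : (p : ℂ) + k ≠ 0 := by exact_mod_cast (by omega : p + k ≠ 0)
  ext j
  rw [PowerSeries.coeff_C_mul, MDLx_P_coeff, Yp, PowerSeries.coeff_mk]
  by_cases hj : j < 2
  · rw [if_pos hj, if_pos hj, mul_zero]
  · rw [if_neg hj, if_neg hj]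
    have h4 : (j.factorial : ℂ) ≠ 0 := by exact_mod_cast j.factorial_ne_zero
    have h5 : ((p : ℂ) - k) / k = MDLx_nu p k - 2 := by
      unfold MDLx_nu; field_simp; ring
    have h6 : MDLx_nu p k * (MDLx_nu p k - 1) = (p : ℂ) * (p + k) / k ^ 2 := by
      unfold MDLx_nu; field_simp; ring
    rw [h5, h6]
    field_simp

/-- the series of `s` -/
noncomputable def MDLx_S (ν : ℂ) : PowerSeries ℂ := binS (-ν) * MDLx_P ν

theorem MDLx_S_dvd (ν : ℂ) (j : ℕ) : (PowerSeries.X : PowerSeries ℂ) ^ (2 * j) ∣ MDLx_S ν ^ j := by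
  rw [pow_mul]
  exact pow_dvd_pow_of_dvd ((MDLx_P_dvd ν).mul_left _) j

theorem MDLx_term (p k : ℕ) (hp : 1 ≤ p) (hk : 1 ≤ k) (υ b : ℂ) (j : ℕ) :
    PowerSeries.C b * binS ((2 * (p : ℂ) + 4 * k - (3 * p + 3 * k) * j) / (3 * k)) *
        (Yp p k υ) ^ j =
      binS (MDLx_ka p k) *
        (PowerSeries.C (b * (υ ^ 3 * k ^ 2 / (p * (p + k))) ^ j) * MDLx_S (MDLx_nu p k) ^ j) := by
  have h2 : (k : ℂ) ≠ 0 := by exact_mod_cast (by omega : k ≠ 0)
  have h1 : (2 * (p : ℂ) + 4 * k - (3 * p + 3 * k) * j) / (3 * k) =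
      MDLx_ka p k + -(MDLx_nu p k) * j := by
    unfold MDLx_ka MDLx_nu; field_simp; ring
  rw [h1, MDL_binS_add, ← MDL_binS_pow, MDLx_Yp p k hp hk, mul_pow, ← map_pow, map_mul, MDLx_S,
    mul_pow]
  ring

theorem MDLx_coeff {p k : ℕ} (hp : 1 ≤ p) (hk : 1 ≤ k) {υ : ℂ} {β : ℕ → ℂ} (h : MLaw p k υ β)
    (N i : ℕ) (hi : i < N) :
    PowerSeries.coeff (2 * i + 1) (binS (MDLx_ka p k) *
      ∑ j ∈ Finset.Ico 1 N,
        PowerSeries.C (β j * (υ ^ 3 * k ^ 2 / (p * (p + k))) ^ j) *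
          MDLx_S (MDLx_nu p k) ^ j) = 0 := by
  have h1 : Finset.Ico 1 N = Finset.Ico 1 (i + 1) ∪ Finset.Ico (i + 1) N := by
    rw [Finset.Ico_union_Ico_eq_Ico (by omega) (by omega)]
  rw [h1, Finset.sum_union (Finset.Ico_disjoint_Ico_consecutive _ _ _), mul_add, map_add]
  have h2 : PowerSeries.coeff (2 * i + 1) (binS (MDLx_ka p k) *
      ∑ j ∈ Finset.Ico (i + 1) N,
        PowerSeries.C (β j * (υ ^ 3 * k ^ 2 / (p * (p + k))) ^ j) *
          MDLx_S (MDLx_nu p k) ^ j) = 0 := by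
    have h3 : (PowerSeries.X : PowerSeries ℂ) ^ (2 * (i + 1)) ∣ binS (MDLx_ka p k) *
      ∑ j ∈ Finset.Ico (i + 1) N,
        PowerSeries.C (β j * (υ ^ 3 * k ^ 2 / (p * (p + k))) ^ j) *
          MDLx_S (MDLx_nu p k) ^ j := by
      refine Dvd.dvd.mul_left (Finset.dvd_sum fun j hj => Dvd.dvd.mul_left ?_ _) _
      rw [Finset.mem_Ico] at hj
      exact (pow_dvd_pow _ (by omega)).trans (MDLx_S_dvd _ j)
    exact PowerSeries.X_pow_dvd_iff.1 h3 _ (by omega)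
  rw [h2, add_zero]
  rcases Nat.eq_zero_or_pos i with rfl | hpos
  · simp
  · have h4 := h i hpos
    rw [← h4]
    congr 1
    have h5 : Finset.Ico 1 (i + 1) = Finset.Icc 1 i := by
      ext x; simp only [Finset.mem_Ico, Finset.mem_Icc]; omega
    rw [h5, Finset.mul_sum]
    refine Finset.sum_congr rfl fun j _ => ?_
    rw [MDLx_term p k hp hk]

/-- the function `s` -/
noncomputable def MDLx_s (ν d : ℂ) : ℂ := (1 + d) ^ (-ν) * ((1 + d) ^ ν - 1 - ν * d)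

theorem MDLx_s_R (ν : ℂ) : MDL_R (MDLx_s ν) (MDLx_S ν) := by
  unfold MDLx_s MDLx_S MDLx_P
  refine MDL_mul (MDL_cpow _) ?_
  have h1 := MDL_add (MDL_cpow ν)
    (MDL_polyR (-1 - Polynomial.C ν * Polynomial.X))
  have e1 : ((-1 - Polynomial.C ν * Polynomial.X : Polynomial ℂ) : PowerSeries ℂ) =
      -1 - PowerSeries.C ν * PowerSeries.X := by
    rw [Polynomial.coe_sub, Polynomial.coe_neg, Polynomial.coe_one, Polynomial.coe_mul,
      Polynomial.coe_C, Polynomial.coe_X]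
  rw [e1] at h1
  intro K
  have h2 := h1 K
  have e2 : binS ν + (-1 - PowerSeries.C ν * PowerSeries.X) =
      binS ν - 1 - PowerSeries.C ν * PowerSeries.X := by ring
  rw [e2] at h2
  refine h2.congr_left fun d => ?_
  simp only [Polynomial.eval_sub, Polynomial.eval_neg, Polynomial.eval_one, Polynomial.eval_mul,
    Polynomial.eval_C, Polynomial.eval_X]
  ring

theorem MDLx_s_eq (p k : ℕ) (hk : 1 ≤ k) {y : ℂ} (hy : y ≠ 0) (hre : 0 < (y ^ k).re)
    (hpow : (y ^ k) ^ (MDLx_nu p k) = y ^ (p + k)) :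
    MDLx_s (MDLx_nu p k) (-(1 - 1 / y ^ k)) = Bm p k y := by
  unfold MDLx_s Bm
  have hk0 : (k : ℂ) ≠ 0 := by exact_mod_cast (by omega : k ≠ 0)
  have h1 : 1 + -(1 - 1 / y ^ k) = (y ^ k)⁻¹ := by ring
  have harg : (y ^ k).arg ≠ Real.pi := by
    intro h
    have := MDL_re hre
    rw [h, abs_of_pos Real.pi_pos] at this
    linarith [Real.pi_pos]
  rw [h1, Complex.cpow_neg, Complex.inv_cpow _ _ harg, inv_inv, hpow]
  have h3 : y ^ (p + k) ≠ 0 := pow_ne_zero _ hy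
  have h4 : y ^ k ≠ 0 := pow_ne_zero _ hy
  have h5 : y ^ (p + k) * (1 / y ^ k) = y ^ p := by rw [pow_add]; field_simp
  have h6 : (p : ℂ) / k = MDLx_nu p k - 1 := by unfold MDLx_nu; field_simp; ring
  have h7 : ((p : ℂ) + k) / k = MDLx_nu p k := rfl
  rw [h6, h7]
  rw [← h5, mul_sub, mul_sub, mul_inv_cancel₀ h3]
  ring

/-- the function `Θ` -/
noncomputable def MDLx_T (ν κ : ℂ) (α : ℕ → ℂ) (N : ℕ) (d : ℂ) : ℂ :=
  (1 + d) ^ κ * ∑ j ∈ Finset.Ico 1 N, α j * MDLx_s ν d ^ j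

theorem MDLx_T_R (ν κ : ℂ) (α : ℕ → ℂ) (N : ℕ) :
    MDL_R (MDLx_T ν κ α N) (binS κ *
      ∑ j ∈ Finset.Ico 1 N, PowerSeries.C (α j) * MDLx_S ν ^ j) := by
  unfold MDLx_T
  exact MDL_mul (MDL_cpow _) (MDL_sum _ _ _ fun j _ =>
    MDL_mul (MDL_const _) (MDL_pow (MDLx_s_R ν) j))

theorem MDLx_eq (p k : ℕ) (hk : 1 ≤ k) (α : ℕ → ℂ) (N : ℕ) {s : ℂ} (hs : s ≠ 0)
    (hx : 0 < (s ^ k).re) (hx2 : 0 < (1 + (1 - 1 / s ^ k)).re)
    (hpow : (s ^ k) ^ (MDLx_nu p k) = s ^ (p + k))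
    (hs' : Mo k s ≠ 0) (hx' : 0 < ((Mo k s) ^ k).re)
    (hpow' : ((Mo k s) ^ k) ^ (MDLx_nu p k) = (Mo k s) ^ (p + k)) :
    ∑ j ∈ Finset.Ico 1 N, α j * Bm p k s ^ j
      - Mc p k s * ∑ j ∈ Finset.Ico 1 N, α j * Bm p k (Mo k s) ^ j =
    (s ^ k) ^ (MDLx_ka p k) *
      (MDLx_T (MDLx_nu p k) (MDLx_ka p k) α N (-(1 - 1 / s ^ k)) -
        MDLx_T (MDLx_nu p k) (MDLx_ka p k) α N (1 - 1 / s ^ k)) := by
  have hk0 : (k : ℂ) ≠ 0 := by exact_mod_cast (by omega : k ≠ 0)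
  have hMk : (Mo k s) ^ k = s ^ k / (2 * s ^ k - 1) := by
    have h0 : 2 * s ^ k - 1 ≠ 0 := by
      intro h
      have h1 : (1 + (1 - 1 / s ^ k)) * s ^ k = 2 * s ^ k - 1 := by
        have : s ^ k ≠ 0 := pow_ne_zero _ hs
        field_simp; ring
      rw [h] at h1
      rcases mul_eq_zero.1 h1 with h2 | h2
      · rw [h2] at hx2; simp at hx2
      · exact pow_ne_zero _ hs h2
    unfold Mo
    rw [mul_pow, ← Complex.exp_nat_mul]
    have : (k : ℂ) * -(log (2 * s ^ k - 1) / k) = -log (2 * s ^ k - 1) := by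
      field_simp
    rw [this, Complex.exp_neg, Complex.exp_log h0]
    rfl
  have e1 : MDLx_s (MDLx_nu p k) (-(1 - 1 / s ^ k)) = Bm p k s := MDLx_s_eq p k hk hs hx hpow
  have e2' := MDLx_s_eq p k hk hs' hx' hpow'
  set x := s ^ k with hxd
  have hx0 : x ≠ 0 := pow_ne_zero _ hs
  have h1 : 1 + (1 - 1 / x) ≠ 0 := by
    intro h
    rw [h] at hx2
    simp at hx2
  have h2 : (1 + (1 - 1 / x)) * x = 2 * x - 1 := by
    field_simp
    ring
  have h21 : 2 * x - 1 ≠ 0 := by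
    rw [← h2]
    exact mul_ne_zero h1 hx0
  have e2 : MDLx_s (MDLx_nu p k) (1 - 1 / x) = Bm p k (Mo k s) := by
    rw [← e2', hMk]
    congr 1
    field_simp
    ring
  have e3 : x ^ (MDLx_ka p k) * (1 + -(1 - 1 / x)) ^ (MDLx_ka p k) = 1 := by
    have : 1 + -(1 - 1 / x) = x⁻¹ := by ring
    rw [this, Complex.inv_cpow _ _ (fun h => ?_), mul_inv_cancel₀]
    · rw [Complex.cpow_ne_zero_iff]
      exact Or.inl hx0
    · have := MDL_re hx
      rw [h, abs_of_pos Real.pi_pos] at this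
      linarith [Real.pi_pos]
  have e4 : x ^ (MDLx_ka p k) * (1 + (1 - 1 / x)) ^ (MDLx_ka p k) = Mc p k s := by
    unfold Mc
    rw [← hxd, Complex.cpow_def_of_ne_zero hx0, Complex.cpow_def_of_ne_zero h1, ← Complex.exp_add,
      ← h2, Complex.log_mul h1 hx0]
    · congr 1
      unfold MDLx_ka
      ring
    · have a1 := abs_lt.1 (MDL_re hx)
      have a2 := abs_lt.1 (MDL_re hx2)
      constructor <;> linarith [a1.1, a1.2, a2.1, a2.2]
  unfold MDLx_T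
  rw [e1, e2, mul_sub, ← mul_assoc, ← mul_assoc, e3, e4, one_mul]

/-- the principal powers near 1 -/
theorem MDLx_ev (p k : ℕ) (hk : 1 ≤ k) : ∀ᶠ t : ℂ in 𝓝 1,
    t ≠ 0 ∧ 0 < (t ^ k).re ∧ (t ^ k) ^ (MDLx_nu p k) = t ^ (p + k) := by
  have hk0 : (k : ℂ) ≠ 0 := by exact_mod_cast (by omega : k ≠ 0)
  have g1 : ∀ᶠ t : ℂ in 𝓝 1, 0 < (t ^ k).re := by
    have hc : Continuous fun t : ℂ => (t ^ k).re := Complex.continuous_re.comp (continuous_pow k)
    refine (hc.tendsto 1).eventually (lt_mem_nhds ?_)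
    simp
  have g2 : ∀ᶠ t : ℂ in 𝓝 1, -Real.pi < ((k : ℂ) * log t).im ∧ ((k : ℂ) * log t).im < Real.pi := by
    have hc : ContinuousAt (fun t : ℂ => ((k : ℂ) * log t).im) 1 := by
      refine Complex.continuous_im.continuousAt.comp (ContinuousAt.mul continuousAt_const ?_)
      exact continuousAt_clog (by simp [slitPlane])
    have h0 : ((k : ℂ) * log 1).im = 0 := by simp
    refine (hc.tendsto.eventually (lt_mem_nhds ?_)).and (hc.tendsto.eventually (gt_mem_nhds ?_))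
    · rw [h0]; linarith [Real.pi_pos]
    · rw [h0]; exact Real.pi_pos
  filter_upwards [g1, g2, eventually_ne_nhds (one_ne_zero (α := ℂ))] with t h1 h2 h3
  refine ⟨h3, h1, ?_⟩
  have h4 : log (t ^ k) = k * log t := by
    rw [← Complex.log_exp h2.1 h2.2.le, Complex.exp_nat_mul, Complex.exp_log h3]
  rw [Complex.cpow_def_of_ne_zero (pow_ne_zero _ h3), h4]
  have h5 : (k : ℂ) * log t * MDLx_nu p k = ((p + k : ℕ) : ℂ) * log t := by
    unfold MDLx_nu
    push_cast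
    field_simp
  rw [h5, Complex.exp_nat_mul, Complex.exp_log h3]

theorem MDLx_Mo (k : ℕ) : Tendsto (Mo k) (𝓝 1) (𝓝 1) := by
  have hc : ContinuousAt (Mo k) 1 := by
    unfold Mo
    refine ContinuousAt.mul continuousAt_id ?_
    refine Complex.continuous_exp.continuousAt.comp (ContinuousAt.neg (ContinuousAt.div_const ?_ _))
    refine ContinuousAt.clog ?_ ?_
    · fun_prop
    · rw [one_pow]
      norm_num
  have h1 : Mo k 1 = 1 := by
    unfold Mo
    rw [one_pow]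
    norm_num
  have := hc.tendsto
  rwa [h1] at this

theorem tMDL : StMDL := by
  intro p k υ β hp hk hυ h N
  set α : ℕ → ℂ := fun j => β j * (υ ^ 3 * k ^ 2 / (p * (p + k))) ^ j with hα
  set T := MDLx_T (MDLx_nu p k) (MDLx_ka p k) α N with hT
  have h1 : (fun d => T (-d) - T d) =O[𝓝 0] fun d : ℂ => d ^ (2 * N + 1) :=
    MDL_parity (MDLx_T_R _ _ α N) N fun i hi => MDLx_coeff hp hk h N i hi
  have hD : HasDerivAt (fun x : ℂ => 1 - 1 / x ^ k) (-(-(k * 1 ^ (k - 1)) / (1 ^ k) ^ 2)) 1 := by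
    have h2 : HasDerivAt (fun x : ℂ => x ^ k) (k * 1 ^ (k - 1)) 1 := hasDerivAt_pow k 1
    have h3 := h2.inv (by simp)
    have h4 := h3.const_sub 1
    refine h4.congr_of_eventuallyEq (Eventually.of_forall fun x => ?_)
    simp [one_div]
  have ht : Tendsto (fun x : ℂ => 1 - 1 / x ^ k) (𝓝 1) (𝓝 0) := by
    have := hD.continuousAt.tendsto
    simpa using this
  have h2 := h1.comp_tendsto ht
  have h3 : (fun x : ℂ => (1 - 1 / x ^ k) ^ (2 * N + 1)) =O[𝓝 1] fun x => (x - 1) ^ (2 * N + 1) := by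
    refine IsBigO.pow ?_ _
    have h4 := hD.isBigO_sub
    refine h4.congr_left fun x => ?_
    simp
  have h6 : (fun x : ℂ => (x ^ k) ^ (MDLx_ka p k)) =O[𝓝 1] fun _ => (1 : ℂ) := by
    have : ContinuousAt (fun x : ℂ => (x ^ k) ^ (MDLx_ka p k)) 1 := by
      have h8 : ContinuousAt (fun y : ℂ => y ^ (MDLx_ka p k)) ((1 : ℂ) ^ k) :=
        continuousAt_cpow_const (by rw [one_pow]; simp [slitPlane])
      exact ContinuousAt.comp (f := fun x : ℂ => x ^ k) h8 (continuous_pow k).continuousAt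
    exact this.tendsto.isBigO_one ℂ
  have h7 := h6.mul (h2.trans h3)
  refine h7.congr' ?_ (Eventually.of_forall fun x => one_mul _)
  have g2 : ∀ᶠ x : ℂ in 𝓝 1, 0 < (1 + (1 - 1 / x ^ k)).re := by
    have : Tendsto (fun x : ℂ => (1 + (1 - 1 / x ^ k)).re) (𝓝 1) (𝓝 ((1 + 0 : ℂ)).re) :=
      (Complex.continuous_re.tendsto _).comp (tendsto_const_nhds.add ht)
    refine this.eventually (lt_mem_nhds ?_)
    simp
  filter_upwards [MDLx_ev p k hk, (MDLx_Mo k).eventually (MDLx_ev p k hk), g2] with s hs hs' hx2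
  exact (MDLx_eq p k hk α N hs.1 hs.2.1 hx2 hs.2.2 hs'.1 hs'.2.1 hs'.2.2).symm

end H719FX
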