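import Pool.Agent.H719R4.FX.Geo

/-!
# NB: near a branch the curve is regular
-/

open Complex Set Filter Topology

namespace H719FX

open H738CZ

/-- the Wronskian of two products with a common factor -/
theorem NB_wr (f g : ℂ → ℂ) (t0 t : ℂ) (m : ℕ) (A B : ℂ → ℂ)
    (hf : DifferentiableAt ℂ f t) (hg : DifferentiableAt ℂ g t)
    (hA : A =ᶠ[𝓝 t] fun t => (t - t0) ^ m * f t) (hB : B =ᶠ[𝓝 t] fun t => (t - t0) ^ m * g t) :
    A t * deriv B t - deriv A t * B t =
      ((t - t0) ^ m) ^ 2 * (f t * deriv g t - deriv f t * g t) := by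
  have hP : DifferentiableAt ℂ (fun t : ℂ => (t - t0) ^ m) t := by fun_prop
  have eA : deriv A t = deriv (fun t : ℂ => (t - t0) ^ m) t * f t + (t - t0) ^ m * deriv f t := by
    rw [hA.deriv_eq]
    exact deriv_fun_mul hP hf
  have eB : deriv B t = deriv (fun t : ℂ => (t - t0) ^ m) t * g t + (t - t0) ^ m * deriv g t := by
    rw [hB.deriv_eq]
    exact deriv_fun_mul hP hg
  rw [eA, eB, hA.eq_of_nhds, hB.eq_of_nhds]
  ring

theorem tNB : StNB := by
  rintro Z W t0 m k hk hZ hW ⟨f, g, h, hf, hg, hh, f0, g0, h0, eZ, eW, eE⟩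
  have hc : ∀ᶠ t in 𝓝 t0,
      k * f t * h t + (t - t0) * (f t * deriv h t - deriv f t * h t) ≠ 0 := by
    have hcont : ContinuousAt (fun t : ℂ =>
        k * f t * h t + (t - t0) * (f t * deriv h t - deriv f t * h t)) t0 := by
      have c1 := hf.continuousAt
      have c2 := hh.continuousAt
      have c3 := hf.deriv.continuousAt
      have c4 := hh.deriv.continuousAt
      fun_prop
    refine hcont.eventually_ne ?_
    simp only [sub_self, zero_mul, add_zero]
    have : (k : ℂ) ≠ 0 := by
      have : k ≠ 0 := by omega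
      exact_mod_cast this
    exact mul_ne_zero (mul_ne_zero this f0) h0
  rw [eventually_nhdsWithin_iff]
  filter_upwards [hf.eventually_analyticAt, hg.eventually_analyticAt, hh.eventually_analyticAt, hc,
    hf.continuousAt.eventually_ne f0, hg.continuousAt.eventually_ne g0, eZ.eventually_nhds,
    eW.eventually_nhds, eE.eventually_nhds] with t hft hgt hht hct hf1 hg1 hZ1 hW1 hE1 hne
  have hne' : t - t0 ≠ 0 := sub_ne_zero.2 hne
  have hP : (t - t0) ^ m ≠ 0 := pow_ne_zero _ hne'
  refine ⟨?_, ?_, ?_⟩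
  · rw [hZ1.self_of_nhds]
    exact mul_ne_zero hP hf1
  · rw [hW1.self_of_nhds]
    exact mul_ne_zero hP hg1
  · unfold Wr
    rw [NB_wr f g t0 t m _ _ hft.differentiableAt hgt.differentiableAt hZ1 hW1]
    refine mul_ne_zero (pow_ne_zero _ hP) ?_
    -- the second Wronskian
    obtain ⟨k', rfl⟩ : ∃ k', k = k' + 1 := ⟨k - 1, by omega⟩
    have hE2 : (fun t => g t * f t0 - f t * g t0) =ᶠ[𝓝 t] fun t => (t - t0) ^ (k' + 1) * h t := hE1
    have d1 : deriv (fun t => g t * f t0 - f t * g t0) t = deriv g t * f t0 - deriv f t * g t0 := by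
      rw [deriv_fun_sub (hgt.differentiableAt.mul_const _) (hft.differentiableAt.mul_const _),
        deriv_mul_const hgt.differentiableAt, deriv_mul_const hft.differentiableAt]
    have d2 : deriv (fun t => (t - t0) ^ (k' + 1) * h t) t =
        ((k' + 1 : ℕ) : ℂ) * (t - t0) ^ k' * h t + (t - t0) ^ (k' + 1) * deriv h t := by
      have hd : HasDerivAt (fun t : ℂ => (t - t0) ^ (k' + 1))
          (((k' + 1 : ℕ) : ℂ) * (t - t0) ^ k' * 1) t := by
        exact HasDerivAt.fun_pow ((hasDerivAt_id t).sub_const t0) (k' + 1)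
      have := (hd.mul hht.differentiableAt.hasDerivAt).deriv
      rw [mul_one] at this
      exact this
    have d3 := hE2.deriv_eq
    rw [d1, d2] at d3
    have e0 : g t * f t0 - f t * g t0 = (t - t0) ^ (k' + 1) * h t := hE2.eq_of_nhds
    have key : f t0 * (f t * deriv g t - deriv f t * g t) =
        (t - t0) ^ k' * (((k' + 1 : ℕ) : ℂ) * f t * h t +
          (t - t0) * (f t * deriv h t - deriv f t * h t)) := by
      have hp : (t - t0) ^ (k' + 1) = (t - t0) ^ k' * (t - t0) := pow_succ _ _
      rw [hp] at d3 e0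
      linear_combination f t * d3 - deriv f t * e0
    intro hz
    rw [hz, mul_zero] at key
    exact mul_ne_zero (pow_ne_zero _ hne') hct key.symm

end H719FX
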