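import Pool.Agent.H719R4.FX.Geo

/-!
# Existence and uniqueness of pairs (normal angle, radius of curvature)
-/

open Complex Set Filter Topology

namespace H719FX

open H738CZ

theorem PA_exp_pi (j : ℤ) : cexp (((Real.pi : ℂ) * j) * I) = (-1) ^ j := by
  rw [show ((Real.pi : ℂ) * j) * I = (j : ℂ) * (Real.pi * I) by ring, Complex.exp_int_mul,
    Complex.exp_pi_mul_I]

/-- existence of the angle -/
theorem PA_angle (Z W : ℂ → ℂ) (t : ℂ) (hZ : AnalyticAt ℂ Z t) (hW : AnalyticAt ℂ W t)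
    (hZ' : deriv Z t ≠ 0) (hW' : deriv W t ≠ 0) (hWr : Wr Z W t ≠ 0) :
    ∃ Φ : ℂ → ℂ, AnalyticAt ℂ Φ t ∧ deriv Φ t ≠ 0 ∧
      ∀ᶠ s in 𝓝 t, deriv Z s * cexp (-(Φ s * I)) = -(deriv W s * cexp (Φ s * I)) := by
  obtain ⟨q, hq⟩ : ∃ q : ℂ → ℂ, ∀ s, q s = -(deriv Z s / deriv W s) := ⟨_, fun _ => rfl⟩
  have hqa : AnalyticAt ℂ q t := by
    have h1 : AnalyticAt ℂ (fun s => -(deriv Z s / deriv W s)) t :=
      ((hZ.deriv).fun_div hW.deriv hW').fun_neg
    exact h1.congr (Eventually.of_forall fun s => (hq s).symm)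
  have hqt : q t ≠ 0 := by
    rw [hq]
    exact neg_ne_zero.2 (div_ne_zero hZ' hW')
  have hI : (2 * I : ℂ) ≠ 0 := mul_ne_zero two_ne_zero I_ne_zero
  obtain ⟨Φ, hΦ⟩ : ∃ Φ : ℂ → ℂ, ∀ s, Φ s = (log (q t) + log (q s / q t)) / (2 * I) :=
    ⟨_, fun _ => rfl⟩
  have hΦa : AnalyticAt ℂ Φ t := by
    have h1 : AnalyticAt ℂ (fun s => q s / q t) t := hqa.fun_div analyticAt_const hqt
    have h2 : AnalyticAt ℂ (fun s => log (q s / q t)) t := by
      refine h1.clog ?_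
      rw [div_self hqt]
      exact one_mem_slitPlane
    have h3 : AnalyticAt ℂ (fun s => (log (q t) + log (q s / q t)) / (2 * I)) t :=
      (analyticAt_const.fun_add h2).fun_div analyticAt_const hI
    exact h3.congr (Eventually.of_forall fun s => (hΦ s).symm)
  have hexp : ∀ s, q s ≠ 0 → cexp (Φ s * (2 * I)) = q s := by
    intro s hs
    rw [hΦ, div_mul_cancel₀ _ hI, Complex.exp_add, Complex.exp_log hqt,
      Complex.exp_log (div_ne_zero hs hqt), mul_div_cancel₀ _ hqt]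
  have hqne : ∀ᶠ s in 𝓝 t, q s ≠ 0 := hqa.continuousAt.eventually_ne hqt
  have hWne : ∀ᶠ s in 𝓝 t, deriv W s ≠ 0 := hW.deriv.continuousAt.eventually_ne hW'
  refine ⟨Φ, hΦa, ?_, ?_⟩
  · intro h0
    apply hWr
    have h1 : HasDerivAt (fun s => cexp (Φ s * (2 * I)))
        (cexp (Φ t * (2 * I)) * (deriv Φ t * (2 * I))) t :=
      ((hΦa.differentiableAt.hasDerivAt).mul_const (2 * I)).cexp
    have h2 : HasDerivAt q (cexp (Φ t * (2 * I)) * (deriv Φ t * (2 * I))) t :=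
      h1.congr_of_eventuallyEq (hqne.mono fun s hs => (hexp s hs).symm)
    rw [h0, zero_mul, mul_zero] at h2
    have h3 : HasDerivAt (fun s => -(deriv Z s / deriv W s))
        (-((deriv (deriv Z) t * deriv W t - deriv Z t * deriv (deriv W) t) / (deriv W t) ^ 2)) t :=
      ((hZ.deriv.differentiableAt.hasDerivAt).fun_div
        (hW.deriv.differentiableAt.hasDerivAt) hW').fun_neg
    have h4 : HasDerivAt q
        (-((deriv (deriv Z) t * deriv W t - deriv Z t * deriv (deriv W) t) / (deriv W t) ^ 2)) t :=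
      h3.congr_of_eventuallyEq (Eventually.of_forall fun s => hq s)
    have h5 := h4.unique h2
    rw [neg_eq_zero, div_eq_zero_iff] at h5
    rcases h5 with h5 | h5
    · unfold Wr
      linear_combination -h5
    · exact absurd h5 (pow_ne_zero 2 hW')
  · filter_upwards [hqne, hWne] with s hs hws
    have h1 := hexp s hs
    rw [hq] at h1
    have h2 : cexp (Φ s * (2 * I)) = cexp (Φ s * I) * cexp (Φ s * I) := by
      rw [← Complex.exp_add]; congr 1; ring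
    have h3 : cexp (-(Φ s * I)) * cexp (Φ s * I) = 1 := by
      rw [← Complex.exp_add, neg_add_cancel, Complex.exp_zero]
    rw [h2] at h1
    have h4 : deriv Z s = -(deriv W s * (cexp (Φ s * I) * cexp (Φ s * I))) := by
      rw [h1]; field_simp
    rw [h4]
    linear_combination (-(deriv W s * cexp (Φ s * I))) * h3

/-- the pair for an angle -/
theorem PA_pair (Z W : ℂ → ℂ) (t : ℂ) (hZ : AnalyticAt ℂ Z t) (hZ' : deriv Z t ≠ 0)
    (Φ : ℂ → ℂ) (hΦa : AnalyticAt ℂ Φ t) (hΦ' : deriv Φ t ≠ 0)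
    (hrel : ∀ᶠ s in 𝓝 t, deriv Z s * cexp (-(Φ s * I)) = -(deriv W s * cexp (Φ s * I))) :
    ∃ ρ : ℂ → ℂ, Pair Z W t Φ ρ := by
  let Ψ := hΦa.hasStrictDerivAt.localInverse _ _ _ hΦ'
  have hΨa : AnalyticAt ℂ Ψ (Φ t) := hΦa.analyticAt_localInverse hΦ'
  have hΨ : ∀ᶠ s in 𝓝 t, Ψ (Φ s) = s :=
    HasStrictDerivAt.eventually_left_inverse hΦa.hasStrictDerivAt hΦ'
  have hΨt : Ψ (Φ t) = t := hΨ.self_of_nhds
  have hIe : ∀ φ : ℂ, I * cexp (φ * I) ≠ 0 := fun φ => mul_ne_zero I_ne_zero (exp_ne_zero _)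
  have h1 : AnalyticAt ℂ (fun φ => deriv Z (Ψ φ)) (Φ t) := by
    refine AnalyticAt.comp (g := deriv Z) ?_ hΨa
    rw [hΨt]; exact hZ.deriv
  have h2 : AnalyticAt ℂ (fun φ => deriv Φ (Ψ φ)) (Φ t) := by
    refine AnalyticAt.comp (g := deriv Φ) ?_ hΨa
    rw [hΨt]; exact hΦa.deriv
  have h3 : AnalyticAt ℂ (fun φ : ℂ => I * cexp (φ * I)) (Φ t) :=
    analyticAt_const.fun_mul ((analyticAt_id.fun_mul analyticAt_const).cexp)
  have hne : deriv Φ (Ψ (Φ t)) * (I * cexp (Φ t * I)) ≠ 0 := by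
    rw [hΨt]
    exact mul_ne_zero hΦ' (hIe _)
  have hΦne : ∀ᶠ s in 𝓝 t, deriv Φ s ≠ 0 := hΦa.deriv.continuousAt.eventually_ne hΦ'
  refine ⟨fun φ => deriv Z (Ψ φ) / (deriv Φ (Ψ φ) * (I * cexp (φ * I))), hΦa,
    h1.fun_div (h2.fun_mul h3) hne, hΦ', ?_, ?_, ?_⟩
  · rw [hΨt] at hne
    simp only [hΨt]
    exact div_ne_zero hZ' hne
  · filter_upwards [hΨ, hΦne] with s hs hsne
    rw [hs]
    have h := hIe (Φ s)
    rw [mul_assoc, div_mul_cancel₀ _ (mul_ne_zero hsne h)]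
  · filter_upwards [hΨ, hΦne, hrel] with s hs hsne hr
    rw [hs]
    have h5 : cexp (-(Φ s * I)) * cexp (Φ s * I) = 1 := by
      rw [← Complex.exp_add, neg_add_cancel, Complex.exp_zero]
    have he : cexp (Φ s * I) ≠ 0 := exp_ne_zero _
    have h6 : deriv W s = -(deriv Z s * cexp (-(Φ s * I))) / cexp (Φ s * I) := by
      rw [hr, neg_neg, mul_div_cancel_right₀ _ he]
    rw [h6]
    have hI : I ≠ 0 := I_ne_zero
    field_simp

/-- nearby points -/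
theorem PA_near {Z W : ℂ → ℂ} {t : ℂ} {Φ ρ : ℂ → ℂ} (h : Pair Z W t Φ ρ) :
    ∀ᶠ s in 𝓝 t, Pair Z W s Φ ρ := by
  have h1 := h.aΦ.eventually_analyticAt
  have h2 := h.aΦ.continuousAt.eventually h.aρ.eventually_analyticAt
  have h3 : ∀ᶠ s in 𝓝 t, deriv Φ s ≠ 0 := h.aΦ.deriv.continuousAt.eventually_ne h.dΦ
  have h4 : ∀ᶠ s in 𝓝 t, ρ (Φ s) ≠ 0 :=
    h.aΦ.continuousAt.eventually (h.aρ.continuousAt.eventually_ne h.nρ)
  filter_upwards [h1, h2, h3, h4, h.eZ.eventually_nhds, h.eW.eventually_nhds]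
    with s g1 g2 g3 g4 g5 g6
  exact ⟨g1, g2, g3, g4, g5, g6⟩

/-- the relation between `Z'` and `W'` -/
theorem PA_rel {Z W : ℂ → ℂ} {t : ℂ} {Φ ρ : ℂ → ℂ} (h : Pair Z W t Φ ρ) :
    ∀ᶠ s in 𝓝 t, deriv Z s = -(deriv W s * cexp (Φ s * (2 * I))) := by
  filter_upwards [h.eZ, h.eW] with s h1 h2
  have h3 : cexp (Φ s * (2 * I)) = cexp (Φ s * I) * cexp (Φ s * I) := by
    rw [← Complex.exp_add]; congr 1; ring
  have h5 : cexp (-(Φ s * I)) * cexp (Φ s * I) = 1 := by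
    rw [← Complex.exp_add, neg_add_cancel, Complex.exp_zero]
  rw [h1, h2, h3]
  linear_combination (-(ρ (Φ s) * deriv Φ s * I * cexp (Φ s * I))) * h5

/-- uniqueness -/
theorem PA_uniq {Z W : ℂ → ℂ} {s : ℂ} {Φ ρ Φ' ρ' : ℂ → ℂ} (h : Pair Z W s Φ ρ)
    (h' : Pair Z W s Φ' ρ') :
    ∃ j : ℤ, Φ' s = Φ s + Real.pi * j ∧
      ∀ᶠ φ in 𝓝 (Φ s), ρ' (φ + Real.pi * j) = (-1) ^ j * ρ φ := by
  have hI : (2 * I : ℂ) ≠ 0 := mul_ne_zero two_ne_zero I_ne_zero
  have hπ : (Real.pi : ℂ) ≠ 0 := ofReal_ne_zero.2 Real.pi_ne_zero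
  -- the difference of the angles is a multiple of `π`
  have hint : ∀ᶠ x in 𝓝 s, ∃ n : ℤ, Φ' x = Φ x + Real.pi * n := by
    filter_upwards [PA_rel h, PA_rel h', PA_near h] with x h1 h2 h3
    have hW : deriv W x ≠ 0 := by
      rw [h3.eW.self_of_nhds]
      exact mul_ne_zero (mul_ne_zero h3.nρ h3.dΦ)
        (neg_ne_zero.2 (mul_ne_zero I_ne_zero (exp_ne_zero _)))
    have h4 : cexp (Φ' x * (2 * I)) = cexp (Φ x * (2 * I)) := by
      rw [h1] at h2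
      exact (mul_left_cancel₀ hW (neg_injective h2)).symm
    obtain ⟨n, hn⟩ := Complex.exp_eq_exp_iff_exists_int.1 h4
    refine ⟨n, ?_⟩
    apply mul_right_cancel₀ hI
    rw [hn]; ring
  obtain ⟨j, hj⟩ := hint.self_of_nhds
  have hcont : ContinuousAt (fun x => Φ' x - Φ x - Real.pi * j) s :=
    (h'.aΦ.continuousAt.sub h.aΦ.continuousAt).sub continuousAt_const
  have hsmall : ∀ᶠ x in 𝓝 s, ‖Φ' x - Φ x - Real.pi * j‖ < Real.pi := by
    have h0 : Φ' s - Φ s - Real.pi * j = 0 := by rw [hj]; ring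
    have h1 := hcont.norm
    refine h1.eventually_lt_const ?_
    show ‖Φ' s - Φ s - Real.pi * j‖ < Real.pi
    rw [h0, norm_zero]
    exact Real.pi_pos
  have hconst : ∀ᶠ x in 𝓝 s, Φ' x = Φ x + Real.pi * j := by
    filter_upwards [hint, hsmall] with x ⟨n, hn⟩ hx
    have h1 : Φ' x - Φ x - Real.pi * j = Real.pi * ((n - j : ℤ) : ℂ) := by
      rw [hn]; push_cast; ring
    rw [h1, norm_mul, Complex.norm_real, Real.norm_of_nonneg Real.pi_pos.le] at hx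
    have h2 : ‖((n - j : ℤ) : ℂ)‖ < 1 := by
      by_contra hcon
      push Not at hcon
      nlinarith [Real.pi_pos]
    rw [Complex.norm_intCast] at h2
    have h3 : |n - j| < 1 := by exact_mod_cast h2
    have h4 : n = j := by
      have := Int.abs_lt_one_iff.1 h3
      omega
    rw [hn, h4]
  refine ⟨j, hj, ?_⟩
  have hdc : ∀ᶠ x in 𝓝 s, deriv Φ' x = deriv Φ x := by
    filter_upwards [hconst.eventually_nhds] with x hx
    rw [Filter.EventuallyEq.deriv_eq (f := fun y => Φ y + Real.pi * j) hx]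
    exact deriv_add_const _
  have hmap : map Φ (𝓝 s) = 𝓝 (Φ s) := h.aΦ.hasStrictDerivAt.map_nhds_eq h.dΦ
  rw [← hmap, eventually_map]
  filter_upwards [hconst, hdc, h.eZ, h'.eZ, PA_near h] with x h1 h2 h3 h4 h5
  have h6 : cexp (Φ' x * I) = cexp (Φ x * I) * (-1) ^ j := by
    rw [h1, add_mul, Complex.exp_add, PA_exp_pi]
  rw [h2, h6, h1, h3] at h4
  have hne : deriv Φ x * (I * cexp (Φ x * I)) ≠ 0 :=
    mul_ne_zero h5.dΦ (mul_ne_zero I_ne_zero (exp_ne_zero _))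
  have h7 : ρ (Φ x) = ρ' (Φ x + Real.pi * j) * (-1) ^ j := by
    apply mul_right_cancel₀ hne
    linear_combination h4
  have h8 : ((-1 : ℂ) ^ j) * (-1) ^ j = 1 := by
    rw [← mul_zpow]; norm_num
  rw [h7]
  linear_combination (-(ρ' (Φ x + Real.pi * j))) * h8

/-- PA: existence of a pair, and any other pair nearby differs by a multiple of `π`. -/
theorem tPA : StPA := by
  intro Z W t hZ hW hZ' hW' hWr
  obtain ⟨Φ, hΦa, hΦ', hrel⟩ := PA_angle Z W t hZ hW hZ' hW' hWr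
  obtain ⟨ρ, hp⟩ := PA_pair Z W t hZ hZ' Φ hΦa hΦ' hrel
  have h1 : ∀ᶠ φ in 𝓝 (Φ t), DifferentiableAt ℂ ρ φ ∧ ρ φ ≠ 0 := by
    filter_upwards [hp.aρ.eventually_analyticAt, hp.aρ.continuousAt.eventually_ne hp.nρ]
      with φ g1 g2
    exact ⟨g1.differentiableAt, g2⟩
  obtain ⟨η, hη, hb⟩ := Metric.eventually_nhds_iff_ball.1 h1
  refine ⟨Φ, ρ, η, hη, hp, fun φ hφ => (hb φ hφ).1.differentiableWithinAt,
    fun φ hφ => (hb φ hφ).2, ?_⟩
  have h2 : ∀ᶠ s in 𝓝 t, Φ s ∈ Metric.ball (Φ t) η :=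
    hΦa.continuousAt.eventually (Metric.ball_mem_nhds _ hη)
  filter_upwards [h2, PA_near hp] with s g1 g2
  exact ⟨g1, fun Φ' ρ' h' => PA_uniq g2 h'⟩

end H719FX
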