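import Pool.Agent.H719R4.FX.Defs

/-! Task PRV: sub-Gevrey bounds propagate in the punctured disc. -/

open Complex Set Filter Topology

namespace H719FX

open H738CZ

/-- the local `M`-th root -/
noncomputable def PRV_th (M : ℕ) (τ0 z : ℂ) : ℂ := τ0 * (z / τ0 ^ M) ^ ((M : ℂ)⁻¹)

noncomputable def PRV_rr (M : ℕ) (R : ℝ) (τ0 : ℂ) : ℝ :=
  min (‖τ0‖ ^ M / 2) (min (R ^ M - ‖τ0‖ ^ M) 1)

noncomputable def PRV_de (M : ℕ) (R : ℝ) (τ0 : ℂ) : ℝ :=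
  min (‖τ0‖ / M) (PRV_rr M R τ0 / (4 * M * ((2 * ‖τ0‖) ^ (M - 1) + 1)))

theorem PRV_mem {R : ℝ} {τ0 : ℂ} : τ0 ∈ V3 R ↔ ‖τ0‖ < R ∧ τ0 ≠ 0 := by
  unfold V3
  rw [Set.mem_sdiff, mem_ball_zero_iff, Set.mem_singleton_iff]

theorem PRV_rr_pos {M : ℕ} (hM : 2 ≤ M) {R : ℝ} {τ0 : ℂ} (h : τ0 ∈ V3 R) :
    0 < PRV_rr M R τ0 := by
  rw [PRV_mem] at h
  have h1 : 0 < ‖τ0‖ := norm_pos_iff.2 h.2
  have h2 : ‖τ0‖ ^ M < R ^ M := pow_lt_pow_left₀ h.1 h1.le (by omega)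
  unfold PRV_rr
  refine lt_min (by positivity) (lt_min (by linarith) one_pos)

theorem PRV_de_pos {M : ℕ} (hM : 2 ≤ M) {R : ℝ} {τ0 : ℂ} (h : τ0 ∈ V3 R) :
    0 < PRV_de M R τ0 := by
  have h0 := PRV_rr_pos hM h
  rw [PRV_mem] at h
  have h1 : 0 < ‖τ0‖ := norm_pos_iff.2 h.2
  have hM' : (0 : ℝ) < M := by
    have : 0 < M := by omega
    exact_mod_cast this
  unfold PRV_de
  exact lt_min (by positivity) (by positivity)

theorem PRV_slit {M : ℕ} {R : ℝ} {τ0 z : ℂ} (h : τ0 ∈ V3 R)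
    (hz : z ∈ Metric.ball (τ0 ^ M) (PRV_rr M R τ0)) : z / τ0 ^ M ∈ slitPlane := by
  rw [PRV_mem] at h
  have h1 : 0 < ‖τ0‖ := norm_pos_iff.2 h.2
  have h2 : ‖z - τ0 ^ M‖ < ‖τ0‖ ^ M / 2 :=
    lt_of_lt_of_le (by rwa [mem_ball_iff_norm] at hz) (min_le_left _ _)
  have h3 : ‖z / τ0 ^ M - 1‖ < 1 := by
    have e : z / τ0 ^ M - 1 = (z - τ0 ^ M) / τ0 ^ M := by
      rw [sub_div, div_self (pow_ne_zero M h.2)]
    rw [e, norm_div, norm_pow, div_lt_one (by positivity)]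
    linarith [pow_pos h1 M]
  have h4 : z / τ0 ^ M = 1 + (z / τ0 ^ M - 1) := by ring
  rw [h4]
  exact mem_slitPlane_of_norm_lt_one h3

theorem PRV_cube {M : ℕ} (hM : 2 ≤ M) {R : ℝ} {τ0 z : ℂ} (h : τ0 ∈ V3 R) :
    PRV_th M τ0 z ^ M = z := by
  rw [PRV_mem] at h
  unfold PRV_th
  rw [mul_pow, cpow_nat_inv_pow _ (by omega), mul_div_cancel₀]
  exact pow_ne_zero M h.2

theorem PRV_diff {M : ℕ} {R : ℝ} {τ0 : ℂ} (h : τ0 ∈ V3 R) :
    DifferentiableOn ℂ (PRV_th M τ0) (Metric.ball (τ0 ^ M) (PRV_rr M R τ0)) := by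
  intro z hz
  have h1 := PRV_slit h hz
  unfold PRV_th
  refine DifferentiableAt.differentiableWithinAt ?_
  refine DifferentiableAt.const_mul ?_ _
  exact (differentiableAt_id.div_const _).cpow (differentiableAt_const _) h1

theorem PRV_maps {M : ℕ} (hM : 2 ≤ M) {R : ℝ} {τ0 : ℂ} (h : τ0 ∈ V3 R) :
    MapsTo (PRV_th M τ0) (Metric.ball (τ0 ^ M) (PRV_rr M R τ0)) (V3 R) := by
  intro z hz
  have h1 := PRV_cube (z := z) hM h
  have h' := h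
  rw [PRV_mem] at h'
  have hn : 0 < ‖τ0‖ := norm_pos_iff.2 h'.2
  have h2 : ‖z - τ0 ^ M‖ < PRV_rr M R τ0 := by rwa [mem_ball_iff_norm] at hz
  have h3 : ‖z - τ0 ^ M‖ < ‖τ0‖ ^ M / 2 := lt_of_lt_of_le h2 (min_le_left _ _)
  have h4 : ‖z - τ0 ^ M‖ < R ^ M - ‖τ0‖ ^ M :=
    lt_of_lt_of_le h2 ((min_le_right _ _).trans (min_le_left _ _))
  have h5 : ‖z‖ < R ^ M := by
    have := norm_add_le (z - τ0 ^ M) (τ0 ^ M)
    rw [sub_add_cancel, norm_pow] at this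
    linarith
  have h6 : z ≠ 0 := by
    rintro rfl
    rw [zero_sub, norm_neg, norm_pow] at h3
    linarith [pow_pos hn M]
  rw [PRV_mem]
  constructor
  · have h7 : ‖PRV_th M τ0 z‖ ^ M < R ^ M := by rw [← norm_pow, h1]; exact h5
    exact lt_of_pow_lt_pow_left₀ M (hn.le.trans h'.1.le) h7
  · intro h7
    rw [h7] at h1
    exact h6 (by rw [← h1, zero_pow (by omega)])

theorem PRV_deriv {k : ℕ} (hk : 1 ≤ k) {R : ℝ} {τ0 z : ℂ} (h : τ0 ∈ V3 R)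
    (hz : z ∈ Metric.ball (τ0 ^ (3 * k)) (PRV_rr (3 * k) R τ0)) :
    dk k (PRV_th (3 * k) τ0 z) * deriv (PRV_th (3 * k) τ0) z = 1 := by
  have h1 : DifferentiableAt ℂ (PRV_th (3 * k) τ0) z :=
    (PRV_diff h).differentiableAt (Metric.isOpen_ball.mem_nhds hz)
  have h2 : HasDerivAt (fun w => PRV_th (3 * k) τ0 w ^ (3 * k))
      (((3 * k : ℕ) : ℂ) * PRV_th (3 * k) τ0 z ^ (3 * k - 1) * deriv (PRV_th (3 * k) τ0) z) z :=
    h1.hasDerivAt.pow (3 * k)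
  have h3 : (fun w => PRV_th (3 * k) τ0 w ^ (3 * k)) = fun w => w := by
    funext w
    exact PRV_cube (by omega) h
  rw [h3] at h2
  have h4 := h2.unique (hasDerivAt_id' z)
  rw [← h4]
  unfold dk
  push_cast
  ring

theorem PRV_at {M : ℕ} {R : ℝ} {τ0 : ℂ} (h : τ0 ∈ V3 R) : PRV_th M τ0 (τ0 ^ M) = τ0 := by
  rw [PRV_mem] at h
  unfold PRV_th
  rw [div_self (pow_ne_zero M h.2), one_cpow, mul_one]

theorem PRV_pow {M : ℕ} {x y : ℂ} {B : ℝ} (hx : ‖x‖ ≤ B) (hy : ‖y‖ ≤ B) :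
    ‖x ^ M - y ^ M‖ ≤ ‖x - y‖ * (M * B ^ (M - 1)) := by
  have hB : 0 ≤ B := (norm_nonneg x).trans hx
  have e := (Commute.all x y).mul_geom_sum₂ M
  rw [← e, norm_mul]
  apply mul_le_mul_of_nonneg_left _ (norm_nonneg _)
  calc ‖∑ i ∈ Finset.range M, x ^ i * y ^ (M - 1 - i)‖
      ≤ ∑ i ∈ Finset.range M, ‖x ^ i * y ^ (M - 1 - i)‖ := norm_sum_le _ _
    _ ≤ ∑ _i ∈ Finset.range M, B ^ (M - 1) := by
        apply Finset.sum_le_sum
        intro i hi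
        rw [Finset.mem_range] at hi
        rw [norm_mul, norm_pow, norm_pow]
        calc ‖x‖ ^ i * ‖y‖ ^ (M - 1 - i) ≤ B ^ i * B ^ (M - 1 - i) :=
              mul_le_mul (pow_le_pow_left₀ (norm_nonneg _) hx _)
                (pow_le_pow_left₀ (norm_nonneg _) hy _) (by positivity) (by positivity)
          _ = B ^ (M - 1) := by rw [← pow_add]; congr 1; omega
    _ = M * B ^ (M - 1) := by rw [Finset.sum_const, Finset.card_range, nsmul_eq_mul]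

theorem PRV_inv {M : ℕ} (hM : 2 ≤ M) {R : ℝ} {τ0 τ : ℂ} (h : τ0 ∈ V3 R)
    (hτ : τ ∈ Metric.ball τ0 (PRV_de M R τ0)) :
    τ ^ M ∈ Metric.ball (τ0 ^ M) (PRV_rr M R τ0 / 4) ∧ PRV_th M τ0 (τ ^ M) = τ := by
  have hr := PRV_rr_pos hM h
  rw [PRV_mem] at h
  have hn : 0 < ‖τ0‖ := norm_pos_iff.2 h.2
  have hM' : (2 : ℝ) ≤ M := by exact_mod_cast hM
  have hM0 : (0 : ℝ) < M := by linarith
  have h0 : ‖τ - τ0‖ < PRV_de M R τ0 := by rwa [mem_ball_iff_norm] at hτ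
  have h1 : ‖τ - τ0‖ < ‖τ0‖ / M := lt_of_lt_of_le h0 (min_le_left _ _)
  have h2 : ‖τ - τ0‖ < PRV_rr M R τ0 / (4 * M * ((2 * ‖τ0‖) ^ (M - 1) + 1)) :=
    lt_of_lt_of_le h0 (min_le_right _ _)
  have h1' : ‖τ0‖ / M ≤ ‖τ0‖ := div_le_self hn.le (by linarith)
  have h3 : ‖τ‖ ≤ 2 * ‖τ0‖ := by
    have := norm_add_le (τ - τ0) τ0
    rw [sub_add_cancel] at this
    linarith
  constructor
  · rw [mem_ball_iff_norm]
    have h4 := PRV_pow (M := M) h3 (by linarith : ‖τ0‖ ≤ 2 * ‖τ0‖)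
    rw [lt_div_iff₀ (by positivity)] at h2
    have h5 : ‖τ - τ0‖ * (M * (2 * ‖τ0‖) ^ (M - 1)) ≤
        ‖τ - τ0‖ * (4 * M * ((2 * ‖τ0‖) ^ (M - 1) + 1)) / 4 := by
      have := mul_nonneg (norm_nonneg (τ - τ0)) hM0.le
      nlinarith
    linarith
  · have hw' : ‖τ / τ0 - 1‖ ≤ 1 / M := by
      have e : τ / τ0 - 1 = (τ - τ0) / τ0 := by
        have := h.2
        field_simp
      rw [e, norm_div, div_le_iff₀ hn]
      have : 1 / (M : ℝ) * ‖τ0‖ = ‖τ0‖ / M := by ring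
      linarith
    have hw : ‖τ / τ0 - 1‖ ≤ 1 / 2 :=
      hw'.trans (one_div_le_one_div_of_le (by norm_num) hM')
    have h5 := norm_log_one_add_half_le_self hw
    rw [add_sub_cancel] at h5
    have h6 : |(τ / τ0).arg| ≤ 3 / 2 * (1 / M) := by
      have h7 := abs_im_le_norm (log (τ / τ0))
      rw [log_im] at h7
      linarith
    rw [abs_le] at h6
    have hpi := Real.pi_gt_three
    have h9 : 3 / 2 * (1 / (M : ℝ)) < Real.pi / M := by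
      rw [mul_one_div, div_lt_div_iff_of_pos_right hM0]
      linarith
    have h8 : ((τ / τ0) ^ M) ^ ((M : ℂ)⁻¹) = τ / τ0 := by
      refine pow_cpow_nat_inv (by omega) ?_ ?_
      · linarith [h6.1]
      · linarith [h6.2]
    unfold PRV_th
    rw [← div_pow, h8]
    have := h.2
    field_simp

theorem PRV_sub {M : ℕ} (hM : 2 ≤ M) {R : ℝ} {τ0 : ℂ} (h : τ0 ∈ V3 R) :
    Metric.ball τ0 (PRV_de M R τ0) ⊆ V3 R := by
  intro τ hτ
  obtain ⟨h1, h2⟩ := PRV_inv hM h hτ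
  have h3 := PRV_maps hM h (Metric.ball_subset_ball (by linarith [PRV_rr_pos hM h]) h1)
  rwa [h2] at h3

theorem PRV_cont {M : ℕ} (hM : 2 ≤ M) (R : ℝ) : Continuous (PRV_de M R) := by
  have hM0 : (0 : ℝ) < M := by
    have : 0 < M := by omega
    exact_mod_cast this
  unfold PRV_de PRV_rr
  have h1 : Continuous fun τ : ℂ => ‖τ‖ := continuous_norm
  refine (h1.div_const _).min ?_
  refine Continuous.div ?_ (by fun_prop) ?_
  · exact ((h1.pow M).div_const _).min ((continuous_const.sub (h1.pow M)).min continuous_const)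
  · intro x
    positivity

theorem PRV_loc (hCHG : StCHG) (hSTB : StSTB) {kc : ℕ → ℂ} (hk : Ker kc) {p k : ℕ}
    (hk1 : 1 ≤ k) {u : ℂ → ℂ}
    {R : ℝ} {g : ℕ → ℂ → ℂ} (hF : FI kc (dk k) (ρk p k u) (rk p k u) g (V3 R)) {τ0 : ℂ}
    (h : τ0 ∈ V3 R) {η : ℝ} (hη : 0 < η) (hS : SG g (Metric.ball τ0 η)) :
    SG g (Metric.ball τ0 (PRV_de (3 * k) R τ0)) := by
  have hM : 2 ≤ 3 * k := by omega
  have hr := PRV_rr_pos hM h
  have hF2 := hCHG kc (dk k) (ρk p k u) (rk p k u) g (V3 R) (fun _ => 1) (PRV_th (3 * k) τ0)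
    (Metric.ball (τ0 ^ (3 * k)) (PRV_rr (3 * k) R τ0)) hF Metric.isOpen_ball (PRV_diff h)
    (PRV_maps hM h) (fun t ht => PRV_deriv hk1 h ht) (fun _ _ => one_ne_zero)
  have hc : ContinuousAt (PRV_th (3 * k) τ0) (τ0 ^ (3 * k)) :=
    ((PRV_diff h).differentiableAt (Metric.isOpen_ball.mem_nhds
      (Metric.mem_ball_self hr))).continuousAt
  rw [Metric.continuousAt_iff] at hc
  obtain ⟨e1, he1, h1⟩ := hc η hη
  rw [PRV_at h] at h1
  have hS2 : SG (fun j => g j ∘ PRV_th (3 * k) τ0)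
      (Metric.ball (τ0 ^ (3 * k)) (min e1 (PRV_rr (3 * k) R τ0))) := by
    obtain ⟨C, s, hC, hs0, hs1, hb⟩ := hS
    refine ⟨C, s, hC, hs0, hs1, ?_⟩
    intro j hj t ht
    refine hb j hj (PRV_th (3 * k) τ0 t) ?_
    rw [Metric.mem_ball] at ht ⊢
    exact h1 (lt_of_lt_of_le ht (min_le_left _ _))
  have hS3 := hSTB kc hk _ _ _ (τ0 ^ (3 * k)) (min e1 (PRV_rr (3 * k) R τ0))
    (PRV_rr (3 * k) R τ0)
    (lt_min he1 hr) (min_le_right _ _) ((min_le_right _ _).trans (min_le_right _ _)) hF2 hS2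
  obtain ⟨C, s, hC, hs0, hs1, hb⟩ := hS3
  refine ⟨C, s, hC, hs0, hs1, ?_⟩
  intro j hj t ht
  obtain ⟨h2, h3⟩ := PRV_inv hM h ht
  have h4 := hb j hj (t ^ (3 * k)) h2
  have h5 : (fun j => g j ∘ PRV_th (3 * k) τ0) j (t ^ (3 * k)) = g j t := by
    show g j (PRV_th (3 * k) τ0 (t ^ (3 * k))) = g j t
    rw [h3]
  rw [h5] at h4
  exact h4

theorem tPRV (hCHG : StCHG) (hSTB : StSTB) (hV3C : StV3C) : StPRV := by
  intro kc hk p k u R hp hk1 hu g hF τ1 η hη hsub hS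
  have hM : 2 ≤ 3 * k := by omega
  set S : Set ℂ := {τ | ∃ η' > 0, Metric.ball τ η' ⊆ V3 R ∧ SG g (Metric.ball τ η')} with hSd
  have hSG : ∀ {V W : Set ℂ}, W ⊆ V → SG g V → SG g W := by
    rintro V W hWV ⟨C, s, hC, hs0, hs1, hb⟩
    exact ⟨C, s, hC, hs0, hs1, fun j hj t ht => hb j hj t (hWV ht)⟩
  have hin : ∀ (τ0 : ℂ) (r : ℝ), Metric.ball τ0 r ⊆ V3 R → SG g (Metric.ball τ0 r) →
      Metric.ball τ0 r ⊆ S := by
    intro τ0 r h1 h2 τ hτ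
    have h3 : Metric.ball τ (r - dist τ τ0) ⊆ Metric.ball τ0 r := by
      refine Metric.ball_subset_ball' ?_
      linarith
    exact ⟨r - dist τ τ0, by rw [Metric.mem_ball] at hτ; linarith, h3.trans h1, hSG h3 h2⟩
  have hop : IsOpen S := by
    rw [Metric.isOpen_iff]
    rintro τ ⟨η', h1, h2, h3⟩
    exact ⟨η', h1, hin τ η' h2 h3⟩
  have hτ1 : τ1 ∈ S := ⟨η, hη, hsub, hS⟩
  have hτ1' : τ1 ∈ V3 R := hsub (Metric.mem_ball_self hη)
  have hcl : closure S ∩ V3 R ⊆ S := by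
    rintro τ ⟨h1, h2⟩
    have h3 : IsOpen {x : ℂ | dist τ x < PRV_de (3 * k) R x} :=
      isOpen_lt (continuous_const.dist continuous_id) (PRV_cont hM R)
    have h4 : τ ∈ {x : ℂ | dist τ x < PRV_de (3 * k) R x} := by
      show dist τ τ < PRV_de (3 * k) R τ
      rw [dist_self]
      exact PRV_de_pos hM h2
    obtain ⟨x, hx1, hx2⟩ := mem_closure_iff.1 h1 _ h3 h4
    obtain ⟨η', h5, h6, h7⟩ := hx2
    have hxV : x ∈ V3 R := h6 (Metric.mem_ball_self h5)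
    exact hin x (PRV_de (3 * k) R x) (PRV_sub hM hxV)
      (PRV_loc hCHG hSTB hk hk1 hF hxV h5 h7) hx1
  exact fun τ hτ => (hV3C R).subset_of_closure_inter_subset hop ⟨τ1, hτ1', hτ1⟩ hcl hτ

end H719FX
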