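import Pool.Agent.H719R4.FX.Defs
import Pool.Agent.H738R3.CZ.R5

set_option autoImplicit false

/-!
# Task RR: from the formal relation to the relation for the sum.
-/

open Complex Set Filter Topology

namespace H719FX

open H738CZ

theorem RR_pow (n : ℕ) : ∃ r : ℂ → ℂ, Continuous r ∧
    ∀ x : ℂ, x ^ n = 1 + n * (x - 1) + (x - 1) ^ 2 * r x := by
  induction n with
  | zero => exact ⟨fun _ => 0, continuous_const, fun x => by simp⟩
  | succ n ih =>
    obtain ⟨r, hr, h⟩ := ih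
    refine ⟨fun x => x * r x + n, by fun_prop, fun x => ?_⟩
    rw [pow_succ, h x]
    push_cast
    ring

theorem RR_Bm (p k : ℕ) (hk : 1 ≤ k) : ∃ r : ℂ → ℂ, Continuous r ∧
    ∀ x : ℂ, Bm p k x = (x - 1) ^ 2 * r x := by
  obtain ⟨r, hr, h⟩ := RR_pow p
  obtain ⟨r', hr', h'⟩ := RR_pow (p + k)
  have hk0 : (k : ℂ) ≠ 0 := by exact_mod_cast (by omega : k ≠ 0)
  refine ⟨fun x => -(((p : ℂ) + k) / k) * r x + (p : ℂ) / k * r' x, by fun_prop, fun x => ?_⟩
  rw [Bm, h x, h' x]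
  push_cast
  field_simp
  ring

theorem RR_Bm_one (p k : ℕ) (hk : 1 ≤ k) : Bm p k 1 = 0 := by
  obtain ⟨r, _, h⟩ := RR_Bm p k hk
  rw [h]
  simp

theorem RR_Bm_O (p k : ℕ) (hk : 1 ≤ k) : (fun x : ℂ => Bm p k x) =O[𝓝 1] fun x => (x - 1) ^ 2 := by
  obtain ⟨r, hr, h⟩ := RR_Bm p k hk
  have h1 : r =O[𝓝 1] (fun _ => (1 : ℂ)) := hr.continuousAt.isBigO_one ℂ
  have h2 := (Asymptotics.isBigO_refl (fun x : ℂ => (x - 1) ^ 2) (𝓝 1)).mul h1
  simp only [mul_one] at h2
  refine h2.congr_left ?_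
  intro x
  exact (h x).symm

theorem RR_Mo_one (k : ℕ) : Mo k 1 = 1 := by
  unfold Mo
  norm_num

theorem RR_Mo_an (k : ℕ) : AnalyticAt ℂ (Mo k) 1 := by
  unfold Mo
  apply AnalyticAt.mul analyticAt_id
  apply AnalyticAt.cexp
  apply AnalyticAt.neg
  apply AnalyticAt.mul _ analyticAt_const
  apply AnalyticAt.clog
  · fun_prop
  · norm_num

theorem RR_Mo_O (k : ℕ) : (fun x : ℂ => Mo k x - 1) =O[𝓝 1] fun x => (x - 1) := by
  have h := (RR_Mo_an k).differentiableAt.isBigO_sub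
  rw [RR_Mo_one] at h
  exact h

theorem RR_BMo_O (p k : ℕ) (hk : 1 ≤ k) :
    (fun x : ℂ => Bm p k (Mo k x)) =O[𝓝 1] fun x => (x - 1) ^ 2 := by
  have h1 : Tendsto (Mo k) (𝓝 1) (𝓝 1) := by
    have := (RR_Mo_an k).continuousAt.tendsto
    rwa [RR_Mo_one] at this
  have h2 := (RR_Bm_O p k hk).comp_tendsto h1
  exact h2.trans ((RR_Mo_O k).pow 2)

theorem RR_Mc_an (p k : ℕ) : AnalyticAt ℂ (Mc p k) 1 := by
  unfold Mc
  apply AnalyticAt.cexp
  apply AnalyticAt.mul analyticAt_const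
  apply AnalyticAt.clog
  · fun_prop
  · norm_num

theorem tRR : StRR := by
  intro p k α C hp hk hrel hα0
  set K : ℝ := |C| + 1 with hKdef
  have hK : 1 ≤ K := by have := abs_nonneg C; linarith
  have hK0 : 0 < K := by linarith
  have hα : ∀ j, 1 ≤ j → ‖α j‖ ≤ K ^ j := by
    intro j hj
    have hC : ‖α j‖ ≤ |C| ^ j := by
      calc ‖α j‖ ≤ C ^ j := hα0 j hj
        _ ≤ |C ^ j| := le_abs_self _
        _ = |C| ^ j := abs_pow _ _
    exact hC.trans (pow_le_pow_left₀ (abs_nonneg C) (by linarith) j)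
  have hR : (0 : ℝ) < (2 * K)⁻¹ := by positivity
  have hdiff := R5_diff α K hK hα
  have hF0 : R5_F α 0 = 0 := by
    have := R5_rem α K hK hα 0 (by simp; positivity) 1 le_rfl
    simpa using this
  have hFan : AnalyticAt ℂ (R5_F α) 0 :=
    hdiff.analyticAt (Metric.ball_mem_nhds 0 hR)
  -- remainders
  have hremO : ∀ N : ℕ, 1 ≤ N → ∀ u : ℂ → ℂ, ContinuousAt u 1 → u 1 = 0 →
      (u =O[𝓝 1] fun x => (x - 1) ^ 2) →
      (fun x => R5_F α (u x) - ∑ j ∈ Finset.Ico 1 N, α j * u x ^ j) =O[𝓝 1]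
        fun x => (x - 1) ^ (2 * N) := by
    intro N hN u hu hu1 huO
    have hsmall : ∀ᶠ x in 𝓝 (1 : ℂ), ‖u x‖ ≤ (2 * K)⁻¹ := by
      have h := hu.norm.tendsto
      simp only [hu1, norm_zero] at h
      exact (h.eventually_lt_const hR).mono fun x hx => hx.le
    have h1 : (fun x => R5_F α (u x) - ∑ j ∈ Finset.Ico 1 N, α j * u x ^ j) =O[𝓝 1]
        fun x => u x ^ N := by
      apply Asymptotics.IsBigO.of_bound (K ^ N * 2)
      filter_upwards [hsmall] with x hx
      refine (R5_rem α K hK hα (u x) hx N hN).trans (le_of_eq ?_)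
      rw [norm_pow, mul_pow]; ring
    refine h1.trans ?_
    have h2 := huO.pow N
    simpa [← pow_mul] using h2
  refine ⟨(2 * K)⁻¹, R5_F α, hR, hdiff, hF0, ?_, ?_⟩
  · -- derivative at zero
    have h1 : HasDerivAt (R5_F α) (α 1) 0 := by
      rw [hasDerivAt_iff_isLittleO]
      have h2 : (fun q : ℂ => R5_F α q - R5_F α 0 - (q - 0) • α 1) =O[𝓝 0] fun q => (q - 0) ^ 2 := by
        apply Asymptotics.IsBigO.of_bound (K ^ 2 * 2)
        have hsmall : ∀ᶠ q in 𝓝 (0 : ℂ), ‖q‖ ≤ (2 * K)⁻¹ := by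
          filter_upwards [Metric.ball_mem_nhds (0 : ℂ) hR] with q hq
          rw [mem_ball_zero_iff] at hq
          exact hq.le
        filter_upwards [hsmall] with q hq
        have h3 := R5_rem α K hK hα q hq 2 (by norm_num)
        rw [hF0]
        have e : R5_F α q - 0 - (q - 0) • α 1 =
            R5_F α q - ∑ j ∈ Finset.Ico 1 2, α j * q ^ j := by
          simp; ring
        rw [e]
        refine h3.trans (le_of_eq ?_)
        rw [norm_pow, sub_zero, mul_pow]; ring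
      refine h2.trans_isLittleO ?_
      have h4 : (fun q : ℂ => q ^ 2) =o[𝓝 0] fun q => q ^ 1 :=
        Asymptotics.isLittleO_pow_pow (by norm_num)
      simpa using h4
    exact h1.deriv
  · -- the relation
    have hBan : AnalyticAt ℂ (fun x => Bm p k x) 1 := by
      unfold Bm
      fun_prop
    have hBMan : AnalyticAt ℂ (fun x => Bm p k (Mo k x)) 1 := by
      have h : AnalyticAt ℂ (Bm p k) (Mo k 1) := by rw [RR_Mo_one]; exact hBan
      exact h.comp (RR_Mo_an k)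
    have hBM1 : Bm p k (Mo k 1) = 0 := by rw [RR_Mo_one, RR_Bm_one p k hk]
    have hD : AnalyticAt ℂ
        (fun x => R5_F α (Bm p k x) - Mc p k x * R5_F α (Bm p k (Mo k x))) 1 := by
      apply AnalyticAt.sub
      · have h : AnalyticAt ℂ (R5_F α) (Bm p k 1) := by rw [RR_Bm_one p k hk]; exact hFan
        exact AnalyticAt.comp (g := R5_F α) (f := fun x => Bm p k x) h hBan
      · apply (RR_Mc_an p k).mul
        have h : AnalyticAt ℂ (R5_F α) (Bm p k (Mo k 1)) := by rw [hBM1]; exact hFan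
        exact AnalyticAt.comp (g := R5_F α) (f := fun x => Bm p k (Mo k x)) h hBMan
    have hflat := R5_flat _ 1 hD ?_
    · filter_upwards [hflat] with x hx
      exact sub_eq_zero.mp hx
    intro N hN
    have h1 := hremO N hN (fun x => Bm p k x) hBan.continuousAt (RR_Bm_one p k hk) (RR_Bm_O p k hk)
    have h2 := hremO N hN (fun x => Bm p k (Mo k x)) hBMan.continuousAt hBM1 (RR_BMo_O p k hk)
    have h3 : (fun x => Mc p k x * (R5_F α (Bm p k (Mo k x)) -
        ∑ j ∈ Finset.Ico 1 N, α j * Bm p k (Mo k x) ^ j)) =O[𝓝 1] fun x => (x - 1) ^ (2 * N) := by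
      have h4 := ((RR_Mc_an p k).continuousAt.isBigO_one ℂ).mul h2
      simpa using h4
    have h5 : (fun x : ℂ => ∑ j ∈ Finset.Ico 1 N, α j * Bm p k x ^ j
      - Mc p k x * ∑ j ∈ Finset.Ico 1 N, α j * Bm p k (Mo k x) ^ j)
        =O[𝓝 1] fun x => (x - 1) ^ (2 * N) := by
      refine (hrel N).trans ?_
      apply Asymptotics.IsBigO.of_bound 1
      have hball : ∀ᶠ x in 𝓝 (1 : ℂ), ‖x - 1‖ ≤ 1 := by
        filter_upwards [Metric.ball_mem_nhds (1 : ℂ) one_pos] with x hx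
        rw [Metric.mem_ball, dist_eq_norm] at hx
        exact hx.le
      filter_upwards [hball] with x hx
      rw [norm_pow, norm_pow, one_mul]
      exact pow_le_pow_of_le_one (norm_nonneg _) hx (by omega)
    have h6 := (h1.sub h3).add h5
    refine h6.congr_left ?_
    intro x
    ring

end H719FX
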