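import Pool.Agent.H719R4.FX.Geo

/-! Task SGN: change of sign -/

open Complex Set Filter Topology

namespace H719FX

open H738CZ

theorem SGN_DD (d : ℂ → ℂ) (c : ℂ) (f : ℂ → ℂ) :
    DD d (fun u => c * f u) = fun u => c * DD d f u := by
  ext u
  unfold DD
  rw [deriv_const_mul_field]
  ring

theorem SGN_it (d : ℂ → ℂ) (c : ℂ) (l : ℕ) : ∀ f : ℂ → ℂ,
    (DD d)^[l] (fun u => c * f u) = fun u => c * ((DD d)^[l] f) u := by
  induction l with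
  | zero => intro f; rfl
  | succ l ih =>
    intro f
    rw [Function.iterate_succ_apply, SGN_DD, ih, Function.iterate_succ_apply]

theorem SGN_Es (d : ℂ → ℂ) (c : ℂ) (f : ℂ → ℂ) (t : ℂ) :
    Es d (fun u => c * f u) t = PowerSeries.C c * Es d f t := by
  ext n
  unfold Es
  rw [PowerSeries.coeff_C_mul, PowerSeries.coeff_mk, PowerSeries.coeff_mk, SGN_it]
  ring

theorem SGN_Ys (kc : ℕ → ℂ) (d : ℂ → ℂ) (c : ℂ) (ρ : ℂ → ℂ) (t : ℂ) :
    Ys kc d (fun u => c * ρ u) t = PowerSeries.C c * Ys kc d ρ t := by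
  ext n
  unfold Ys
  rw [PowerSeries.coeff_C_mul, PowerSeries.coeff_mk, PowerSeries.coeff_mk, mul_div_assoc',
    Finset.mul_sum]
  congr 1
  refine Finset.sum_congr rfl fun l _ => ?_
  rw [SGN_it]
  ring

theorem SGN_Tm (kc : ℕ → ℂ) (d ρ r0 : ℂ → ℂ) (g : ℕ → ℂ → ℂ) (j : ℕ) (t : ℂ) :
    Tm kc d (fun t => -ρ t) (fun t => -r0 t) g j t = Tm kc d ρ r0 g j t := by
  unfold Tm
  have h1 : (fun t => -ρ t) = fun t => (-1 : ℂ) * ρ t := by ext t; ring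
  have h2 : (fun u => g j u * ((-r0 u)⁻¹) ^ j) =
      fun u => ((-1 : ℂ) ^ j) * (g j u * ((r0 u)⁻¹) ^ j) := by
    ext u
    rw [inv_neg, neg_pow]
    ring
  rw [h1, h2, SGN_Es, SGN_Ys, mul_pow, ← map_pow]
  have h3 : PowerSeries.C ((-1 : ℂ) ^ j) * PowerSeries.C ((-1 : ℂ) ^ j) = 1 := by
    rw [← map_mul, ← mul_pow]
    simp
  calc _ = (PowerSeries.C ((-1 : ℂ) ^ j) * PowerSeries.C ((-1 : ℂ) ^ j)) *
        (Es d (fun u => g j u * (r0 u)⁻¹ ^ j) t * Ys kc d ρ t ^ j) := by ring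
    _ = _ := by rw [h3, one_mul]

theorem SGN_Cf (kc : ℕ → ℂ) (d ρ r0 : ℂ → ℂ) (g : ℕ → ℂ → ℂ) (J N : ℕ) (t : ℂ) :
    Cf kc d (fun t => -ρ t) (fun t => -r0 t) g J N t = Cf kc d ρ r0 g J N t := by
  unfold Cf
  congr 1
  exact Finset.sum_congr rfl fun j _ => SGN_Tm kc d ρ r0 g j t

theorem tSGN : StSGN := by
  rintro kc ρ a ⟨η, hη, r0, g, hF, hS⟩
  refine ⟨η, hη, fun t => -r0 t, g, ⟨⟨hF.base.op, hF.base.dd, hF.base.d0, hF.base.rd.neg,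
    fun t ht => neg_ne_zero.mpr (hF.base.rn t ht), fun t ht => ?_⟩, hF.gd, hF.one,
    fun J hJ t ht => ?_⟩, hS⟩
  · rw [hF.base.cube t ht]; ring
  · rw [SGN_Cf]; exact hF.law J hJ t ht

end H719FX
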