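import Pool.Agent.H719R4.FX.Defs

/-!
# Geometric part: holomorphic curves `(Z, W)` extending the boundary

Definitions and statements (`Prop`s) only; no proofs.
-/

open Complex Set Filter Topology

namespace H719FX

open H738CZ

/-- Taylor coefficients of the sine -/
noncomputable def kcs (i : ℕ) : ℂ := if Even i then 0 else (-1) ^ (i / 2)

/-- `Φ` is a normal angle of the curve `(Z, W)` near `t` and `ρ` its radius of curvature as a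
function of the normal angle -/
structure Pair (Z W : ℂ → ℂ) (t : ℂ) (Φ ρ : ℂ → ℂ) : Prop where
  aΦ : AnalyticAt ℂ Φ t
  aρ : AnalyticAt ℂ ρ (Φ t)
  dΦ : deriv Φ t ≠ 0
  nρ : ρ (Φ t) ≠ 0
  eZ : ∀ᶠ s in 𝓝 t, deriv Z s = ρ (Φ s) * deriv Φ s * (I * cexp (Φ s * I))
  eW : ∀ᶠ s in 𝓝 t, deriv W s = ρ (Φ s) * deriv Φ s * (-(I * cexp (-(Φ s * I))))

def GoodAt (Z W : ℂ → ℂ) (t : ℂ) : Prop :=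
  ∃ Φ ρ : ℂ → ℂ, Pair Z W t Φ ρ ∧ Good kcs ρ (Φ t)

/-- Wronskian of `Z'`, `W'` -/
noncomputable def Wr (Z W : ℂ → ℂ) (t : ℂ) : ℂ :=
  deriv Z t * deriv (deriv W) t - deriv (deriv Z) t * deriv W t

/-- STA: start (from the integral). -/
def StSTA : Prop := ∀ (γ : ℝ → ℂ) (ρ : ℝ → ℝ), IsOval γ ρ → ∀ (K : ℝ → ℝ → ℝ) (ε : ℝ), 0 < ε →
  AnalyticOnNhd ℝ (Function.uncurry K) {z | |z.2 - sup (γ z.1) z.1| < ε} →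
  (∀ s : ℝ, ∃ εs > 0, ∀ δ : ℝ, 0 < δ → δ < εs →
    K (s + δ) (sup (γ s) (s + δ)) = K (s - δ) (sup (γ s) (s - δ))) →
  (¬ ∃ c, ∀ φ p : ℝ, |p - sup (γ φ) φ| < ε → K φ p = c) →
  ∀ (R : ℂ → ℂ) (x r : ℝ), 0 < r → DifferentiableOn ℂ R (Metric.ball (x : ℂ) r) →
  (∀ y : ℝ, (y : ℂ) ∈ Metric.ball (x : ℂ) r → R y = ρ y) → Good kcs R x

/-- STZ: a pair at a real point. -/
def StSTZ : Prop := ∀ (γ : ℝ → ℂ) (ρ : ℝ → ℝ), IsOval γ ρ → ∀ (Z W : ℂ → ℂ) (c : ℂ) (r : ℝ)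
  (θ : ℝ → ℝ) (x0 x1 : ℝ), DifferentiableOn ℂ Z (Metric.ball c r) →
  DifferentiableOn ℂ W (Metric.ball c r) → ContinuousOn θ (Ioo x0 x1) →
  (∀ t ∈ Ioo x0 x1, (t : ℂ) ∈ Metric.ball c r ∧ Z t = γ (θ t) ∧
    W t = (starRingEnd ℂ) (γ (θ t))) →
  (∃ s ∈ Ioo x0 x1, ∃ t ∈ Ioo x0 x1, γ (θ s) ≠ γ (θ t)) →
    ∃ (x : ℝ) (Φ R : ℂ → ℂ) (y η : ℝ), x ∈ Ioo x0 x1 ∧ Pair Z W x Φ R ∧ Φ x = y ∧ 0 < η ∧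
      DifferentiableOn ℂ R (Metric.ball (y : ℂ) η) ∧
      ∀ v : ℝ, (v : ℂ) ∈ Metric.ball (y : ℂ) η → R v = ρ v

/-- PA: existence of a pair, and any other pair nearby differs by a multiple of `π`. -/
def StPA : Prop := ∀ (Z W : ℂ → ℂ) (t : ℂ), AnalyticAt ℂ Z t → AnalyticAt ℂ W t →
  deriv Z t ≠ 0 → deriv W t ≠ 0 → Wr Z W t ≠ 0 →
    ∃ (Φ ρ : ℂ → ℂ) (η : ℝ), 0 < η ∧ Pair Z W t Φ ρ ∧ DifferentiableOn ℂ ρ (Metric.ball (Φ t) η) ∧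
      (∀ φ ∈ Metric.ball (Φ t) η, ρ φ ≠ 0) ∧
      ∀ᶠ s in 𝓝 t, Φ s ∈ Metric.ball (Φ t) η ∧ ∀ Φ' ρ' : ℂ → ℂ, Pair Z W s Φ' ρ' →
        ∃ j : ℤ, Φ' s = Φ s + Real.pi * j ∧
          ∀ᶠ φ in 𝓝 (Φ s), ρ' (φ + Real.pi * j) = (-1) ^ j * ρ φ

/-- SGN: change of sign. -/
def StSGN : Prop := ∀ (kc : ℕ → ℂ) (ρ : ℂ → ℂ) (a : ℂ), Good kc ρ a → Good kc (fun t => -ρ t) a

/-- SEG: propagation along a segment. -/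
def StSEG : Prop := ∀ (Z W : ℂ → ℂ) (U : Set ℂ) (a b : ℂ), IsOpen U → DifferentiableOn ℂ Z U →
  DifferentiableOn ℂ W U → (∀ t ∈ U, deriv Z t ≠ 0 ∧ deriv W t ≠ 0 ∧ Wr Z W t ≠ 0) →
  segment ℝ a b ⊆ U → GoodAt Z W a → GoodAt Z W b

/-- LC: propagation in a disc. -/
def StLC : Prop := ∀ (Z W : ℂ → ℂ) (c : ℂ) (r : ℝ) (a b : ℂ),
  DifferentiableOn ℂ Z (Metric.ball c r) → DifferentiableOn ℂ W (Metric.ball c r) →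
  a ∈ Metric.ball c r → b ∈ Metric.ball c r → GoodAt Z W a →
  deriv Z b ≠ 0 → deriv W b ≠ 0 → Wr Z W b ≠ 0 → GoodAt Z W b

/-- `t0` is a branch of type `(m + 1, m + 1 + k)` with non-isotropic tangent -/
def Br (Z W : ℂ → ℂ) (t0 : ℂ) (m k : ℕ) : Prop :=
  ∃ f g h : ℂ → ℂ, AnalyticAt ℂ f t0 ∧ AnalyticAt ℂ g t0 ∧ AnalyticAt ℂ h t0 ∧
    f t0 ≠ 0 ∧ g t0 ≠ 0 ∧ h t0 ≠ 0 ∧
    (∀ᶠ t in 𝓝 t0, deriv Z t = (t - t0) ^ m * f t) ∧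
    (∀ᶠ t in 𝓝 t0, deriv W t = (t - t0) ^ m * g t) ∧
    ∀ᶠ t in 𝓝 t0, g t * f t0 - f t * g t0 = (t - t0) ^ k * h t

/-- NB: near a branch the curve is regular. -/
def StNB : Prop := ∀ (Z W : ℂ → ℂ) (t0 : ℂ) (m k : ℕ), 1 ≤ k → AnalyticAt ℂ Z t0 →
  AnalyticAt ℂ W t0 → Br Z W t0 m k →
    ∀ᶠ t in 𝓝[≠] t0, deriv Z t ≠ 0 ∧ deriv W t ≠ 0 ∧ Wr Z W t ≠ 0

/-- SIC: coordinates at a branch. -/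
def StSIC : Prop := ∀ (Z W : ℂ → ℂ) (t0 : ℂ) (m k : ℕ), 1 ≤ k → AnalyticAt ℂ Z t0 →
  AnalyticAt ℂ W t0 → Br Z W t0 m k →
    ∃ (R : ℝ) (T u : ℂ → ℂ), UN u R ∧ T 0 = t0 ∧
      DifferentiableOn ℂ T (Metric.ball 0 (R ^ 3)) ∧
      (∀ s ∈ Metric.ball (0 : ℂ) (R ^ 3), s ≠ 0 → T s ≠ t0) ∧
      ∃ Φ0 : ℂ, ∀ s ∈ Metric.ball (0 : ℂ) (R ^ 3), s ≠ 0 → ∀ Φ ρ : ℂ → ℂ, Pair Z W (T s) Φ ρ →
        ∃ (j : ℤ) (ω : ℂ), ω ≠ 0 ∧ Φ (T s) = Φ0 + Real.pi * j + s ^ k ∧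
          ∀ᶠ s' in 𝓝 s, ρ (Φ0 + Real.pi * j + s' ^ k) * s' ^ k = s' ^ (m + 1) * (ω * u s') ^ 3

/-- SIN: a branch of type `(m + 1, m + 1 + k)` with good points nearby has `m + 1 = k`. -/
def StSIN : Prop := ∀ (Z W : ℂ → ℂ) (t0 : ℂ) (m k : ℕ), 1 ≤ k → AnalyticAt ℂ Z t0 →
  AnalyticAt ℂ W t0 → Br Z W t0 m k → (∀ᶠ t in 𝓝[≠] t0, GoodAt Z W t) → m + 1 = k

/-- a chain of discs along which the curve is continued analytically -/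
structure Chain2 (n : ℕ) (a : ℕ → ℂ) (r : ℕ → ℝ) (Z W : ℕ → ℂ → ℂ) : Prop where
  dZ : ∀ i, i ≤ n → DifferentiableOn ℂ (Z i) (Metric.ball (a i) (r i))
  dW : ∀ i, i ≤ n → DifferentiableOn ℂ (W i) (Metric.ball (a i) (r i))
  ne : ∀ i, i < n → (Metric.ball (a i) (r i) ∩ Metric.ball (a (i + 1)) (r (i + 1))).Nonempty
  eZ : ∀ i, i < n → EqOn (Z i) (Z (i + 1))
    (Metric.ball (a i) (r i) ∩ Metric.ball (a (i + 1)) (r (i + 1)))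
  eW : ∀ i, i < n → EqOn (W i) (W (i + 1))
    (Metric.ball (a i) (r i) ∩ Metric.ball (a (i + 1)) (r (i + 1)))

/-- CH2: continuation along a chain of discs. -/
def StCH2 : Prop := ∀ (n : ℕ) (a : ℕ → ℂ) (r : ℕ → ℝ) (Z W : ℕ → ℂ → ℂ), Chain2 n a r Z W →
  (∃ z ∈ Metric.ball (a 0) (r 0), GoodAt (Z 0) (W 0) z) →
    ∀ z ∈ Metric.ball (a n) (r n), deriv (Z n) z ≠ 0 → deriv (W n) z ≠ 0 →
      Wr (Z n) (W n) z ≠ 0 → GoodAt (Z n) (W n) z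

/-- FLX: the final theorem. -/
def StFLX : Prop := ∀ (γ : ℝ → ℂ) (ρ : ℝ → ℝ), IsOval γ ρ → ∀ (K : ℝ → ℝ → ℝ) (ε : ℝ), 0 < ε →
  AnalyticOnNhd ℝ (Function.uncurry K) {z | |z.2 - sup (γ z.1) z.1| < ε} →
  (∀ s : ℝ, ∃ εs > 0, ∀ δ : ℝ, 0 < δ → δ < εs →
    K (s + δ) (sup (γ s) (s + δ)) = K (s - δ) (sup (γ s) (s - δ))) →
  (¬ ∃ c, ∀ φ p : ℝ, |p - sup (γ φ) φ| < ε → K φ p = c) →
  ∀ (n : ℕ) (a : ℕ → ℂ) (r : ℕ → ℝ) (Z W : ℕ → ℂ → ℂ), Chain2 n a r Z W →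
  ∀ (θ : ℝ → ℝ) (x0 x1 : ℝ), ContinuousOn θ (Ioo x0 x1) →
  (∀ t ∈ Ioo x0 x1, (t : ℂ) ∈ Metric.ball (a 0) (r 0) ∧ Z 0 t = γ (θ t) ∧
    W 0 t = (starRingEnd ℂ) (γ (θ t))) →
  (∃ s ∈ Ioo x0 x1, ∃ t ∈ Ioo x0 x1, γ (θ s) ≠ γ (θ t)) →
    ∀ t0 ∈ Metric.ball (a n) (r n), ∀ m k : ℕ, 1 ≤ k → Br (Z n) (W n) t0 m k → m + 1 = k

end H719FX
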