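import Mathlib
import Pool.Agent.H719R4.FX.Geo

/-! SIC: coordinates at a branch (helper896). -/

set_option autoImplicit false

open Complex Set Filter Topology

namespace H719FX

open H738CZ

/-- analytic `n`-th root -/
theorem SIC_root (F : ℂ → ℂ) (z0 : ℂ) (hF : AnalyticAt ℂ F z0) (h0 : F z0 ≠ 0) (n : ℕ)
    (hn : 0 < n) : ∃ G : ℂ → ℂ, AnalyticAt ℂ G z0 ∧ G z0 ≠ 0 ∧ ∀ᶠ z in 𝓝 z0, G z ^ n = F z := by
  obtain ⟨c, hc⟩ := IsAlgClosed.exists_pow_nat_eq (F z0) hn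
  have hc0 : c ≠ 0 := by
    rintro rfl
    rw [zero_pow hn.ne'] at hc
    exact h0 hc.symm
  have hq : AnalyticAt ℂ (fun z => F z / F z0) z0 := hF.div analyticAt_const h0
  have hl : AnalyticAt ℂ (fun z => log (F z / F z0)) z0 := by
    refine hq.clog ?_
    rw [div_self h0]
    exact one_mem_slitPlane
  refine ⟨fun z => c * cexp (log (F z / F z0) / n), ?_, ?_, ?_⟩
  · exact analyticAt_const.mul (hl.div_const).cexp
  · exact mul_ne_zero hc0 (exp_ne_zero _)
  · have hne : ∀ᶠ z in 𝓝 z0, F z ≠ 0 := hF.continuousAt.eventually_ne h0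
    filter_upwards [hne] with z hz
    rw [mul_pow, hc, ← Complex.exp_nat_mul]
    have hn' : (n : ℂ) ≠ 0 := by exact_mod_cast hn.ne'
    rw [mul_div_cancel₀ _ hn', Complex.exp_log (div_ne_zero hz h0)]
    field_simp

/-- analytic factor -/
theorem SIC_div (F : ℂ → ℂ) (z0 : ℂ) (hF : AnalyticAt ℂ F z0) (h0 : F z0 = 0)
    (h1 : deriv F z0 ≠ 0) : ∃ G : ℂ → ℂ, AnalyticAt ℂ G z0 ∧ G z0 ≠ 0 ∧
      ∀ z, F z = (z - z0) * G z := by
  obtain ⟨p, hp⟩ := hF
  refine ⟨dslope F z0, ⟨_, hp.has_fpower_series_dslope_fslope⟩, ?_, ?_⟩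
  · rwa [dslope_same]
  · intro z
    have := sub_smul_dslope F z0 z
    rw [h0, sub_zero, smul_eq_mul] at this
    exact this.symm

/-- analytic inverse -/
theorem SIC_inv (S : ℂ → ℂ) (t0 : ℂ) (hS : AnalyticAt ℂ S t0) (h0 : S t0 = 0)
    (h1 : deriv S t0 ≠ 0) : ∃ T : ℂ → ℂ, AnalyticAt ℂ T 0 ∧ T 0 = t0 ∧
      ∀ᶠ s in 𝓝 0, S (T s) = s := by
  refine ⟨hS.hasStrictDerivAt.localInverse _ _ _ h1, ?_, ?_, ?_⟩
  · have := hS.analyticAt_localInverse h1
    rwa [h0] at this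
  · have : (hS.hasStrictDerivAt.localInverse _ _ _ h1) (S t0) = t0 :=
      HasStrictFDerivAt.localInverse_apply_image ..
    rwa [h0] at this
  · have := HasStrictDerivAt.eventually_right_inverse hS.hasStrictDerivAt h1
    rwa [h0] at this

/-- the coordinates near `t0` -/
theorem SIC_loc (Z W : ℂ → ℂ) (t0 : ℂ) (m k : ℕ) (hk : 1 ≤ k) (hB : Br Z W t0 m k) :
    ∃ (Φ0 : ℂ) (Ψ S f g h2 : ℂ → ℂ), AnalyticAt ℂ S t0 ∧ S t0 = 0 ∧ deriv S t0 ≠ 0 ∧
      AnalyticAt ℂ f t0 ∧ AnalyticAt ℂ h2 t0 ∧ AnalyticAt ℂ Ψ t0 ∧ 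
      f t0 ≠ 0 ∧ h2 t0 ≠ 0 ∧
      ∀ᶠ t in 𝓝 t0, deriv Z t = (t - t0) ^ m * f t ∧ deriv W t = (t - t0) ^ m * g t ∧
        f t ≠ 0 ∧ g t ≠ 0 ∧ h2 t ≠ 0 ∧ S t = (t - t0) * h2 t ∧ Ψ t = Φ0 + S t ^ k ∧
        cexp (2 * I * Ψ t) = - f t / g t ∧ AnalyticAt ℂ Ψ t := by
  obtain ⟨f, g, h, af, ag, ah, nf, ng, nh, eZ, eW, eh⟩ := hB
  set H : ℂ → ℂ := fun t => h t / (g t * f t0) with hH
  have aH : AnalyticAt ℂ H t0 := ah.div (ag.mul analyticAt_const) (mul_ne_zero ng nf)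
  have nH : H t0 ≠ 0 := div_ne_zero nh (mul_ne_zero ng nf)
  set Φ0 : ℂ := log (-(f t0) / g t0) / (2 * I) with hΦ0
  have hI : (2 * I : ℂ) ≠ 0 := mul_ne_zero two_ne_zero I_ne_zero
  have eΦ0 : cexp (2 * I * Φ0) = -(f t0) / g t0 := by
    rw [hΦ0, mul_div_cancel₀ _ hI, exp_log]
    exact div_ne_zero (neg_ne_zero.2 nf) ng
  set F : ℂ → ℂ := fun w => log (1 - w) / (2 * I) with hF
  have aF : AnalyticAt ℂ F 0 := by
    refine AnalyticAt.div_const ?_
    refine AnalyticAt.clog (analyticAt_const.sub analyticAt_id) ?_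
    simp [one_mem_slitPlane]
  have F0 : F 0 = 0 := by simp [hF]
  have F1 : deriv F 0 ≠ 0 := by
    have hd : HasDerivAt F ((-1 / (1 - 0)) / (2 * I)) 0 := by
      refine HasDerivAt.div_const ?_ _
      refine HasDerivAt.clog ?_ ?_
      · simpa using (hasDerivAt_id (0 : ℂ)).const_sub 1
      · simp [one_mem_slitPlane]
    rw [hd.deriv]
    simp
  obtain ⟨L, aL, nL, eL⟩ := SIC_div F 0 aF F0 F1
  set P : ℂ → ℂ := fun t => (t - t0) ^ k * H t with hP
  have aP : AnalyticAt ℂ P t0 := ((analyticAt_id.sub analyticAt_const).pow k).mul aH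
  have P0 : P t0 = 0 := by
    simp only [hP, sub_self]
    rw [zero_pow (by omega), zero_mul]
  have aLP : AnalyticAt ℂ (fun t => L (P t)) t0 := by
    have : AnalyticAt ℂ L (P t0) := by rw [P0]; exact aL
    exact this.comp aP
  obtain ⟨h2, ah2, nh2, eh2⟩ := SIC_root (fun t => H t * L (P t)) t0 (aH.mul aLP)
    (mul_ne_zero nH (by rw [P0]; exact nL)) k (by omega)
  set S : ℂ → ℂ := fun t => (t - t0) * h2 t with hS
  have aS : AnalyticAt ℂ S t0 := (analyticAt_id.sub analyticAt_const).mul ah2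
  have dS : deriv S t0 ≠ 0 := by
    have hd : HasDerivAt S (1 * h2 t0 + (t0 - t0) * deriv h2 t0) t0 := by
      refine HasDerivAt.mul ?_ ah2.differentiableAt.hasDerivAt
      exact (hasDerivAt_id t0).sub_const t0
    rw [hd.deriv]
    simpa using nh2
  set Ψ : ℂ → ℂ := fun t => Φ0 + F (P t) with hΨ
  have aΨ : AnalyticAt ℂ Ψ t0 := by
    have : AnalyticAt ℂ F (P t0) := by rw [P0]; exact aF
    exact analyticAt_const.add (this.comp aP)
  refine ⟨Φ0, Ψ, S, f, g, h2, aS, by simp [hS], dS, af, ah2, aΨ, nf, nh2, ?_⟩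
  have n1 : ∀ᶠ t in 𝓝 t0, f t ≠ 0 := af.continuousAt.eventually_ne nf
  have n2 : ∀ᶠ t in 𝓝 t0, g t ≠ 0 := ag.continuousAt.eventually_ne ng
  have n3 : ∀ᶠ t in 𝓝 t0, h2 t ≠ 0 := ah2.continuousAt.eventually_ne nh2
  filter_upwards [eZ, eW, eh, n1, n2, n3, eh2, aΨ.eventually_analyticAt] with
    t tZ tW th t1 t2 t3 th2 tΨ
  refine ⟨tZ, tW, t1, t2, t3, rfl, ?_, ?_, tΨ⟩
  · simp only [hΨ]
    rw [eL, sub_zero]
    simp only [hS]
    rw [mul_pow, th2]
    simp only [hP]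
    ring
  · simp only [hΨ]
    have e1 : 1 - P t = f t * g t0 / (g t * f t0) := by
      simp only [hP, hH]
      field_simp
      linear_combination th
    rw [mul_add, Complex.exp_add, eΦ0]
    simp only [hF]
    rw [mul_div_cancel₀ _ hI, exp_log, e1]
    · field_simp
    · rw [e1]
      exact div_ne_zero (mul_ne_zero t1 ng) (mul_ne_zero t2 nf)

theorem SIC_exp_int (x y : ℂ) (h : cexp (2 * I * x) = cexp (2 * I * y)) :
    ∃ n : ℤ, x = y + Real.pi * n := by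
  obtain ⟨n, hn⟩ := Complex.exp_eq_exp_iff_exists_int.1 h
  refine ⟨n, ?_⟩
  have h2 : (2 * I : ℂ) ≠ 0 := mul_ne_zero two_ne_zero I_ne_zero
  apply mul_left_cancel₀ h2
  rw [hn]; ring

/-- two functions which agree modulo `π` -/
theorem SIC_const (x y : ℂ → ℂ) (t : ℂ) (hx : ContinuousAt x t) (hy : ContinuousAt y t)
    (h : ∀ᶠ s in 𝓝 t, ∃ n : ℤ, x s = y s + Real.pi * n) :
    ∃ j : ℤ, ∀ᶠ s in 𝓝 t, x s = y s + Real.pi * j := by
  obtain ⟨j, hj⟩ := h.self_of_nhds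
  refine ⟨j, ?_⟩
  have hc : ContinuousAt (fun s => x s - y s) t := hx.sub hy
  have h1 : ∀ᶠ s in 𝓝 t, dist (x s - y s) (x t - y t) < 1 :=
    hc.eventually (Metric.ball_mem_nhds _ one_pos)
  filter_upwards [h, h1] with s hs hd
  obtain ⟨n, hn⟩ := hs
  rw [hn, hj, dist_eq_norm] at hd
  have e1 : y s + Real.pi * n - y s - (y t + Real.pi * j - y t) = ((Real.pi * ((n - j : ℤ) : ℝ) : ℝ) : ℂ) := by
    push_cast; ring
  rw [e1, Complex.norm_real, Real.norm_eq_abs, abs_mul, abs_of_pos Real.pi_pos] at hd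
  have h3 := Real.pi_gt_three
  have h4 : |((n - j : ℤ) : ℝ)| < 1 := by
    have := abs_nonneg ((n - j : ℤ) : ℝ)
    nlinarith
  have h5 : |n - j| < 1 := by exact_mod_cast h4
  have h6 : n = j := by
    rw [Int.abs_lt_one_iff] at h5
    omega
  rw [hn, h6]

theorem SIC_exp_pi (j : ℤ) : cexp (Real.pi * j * I) ^ 2 = 1 := by
  rw [← Complex.exp_nat_mul]
  have : ((2 : ℕ) : ℂ) * (Real.pi * j * I) = j * (2 * Real.pi * I) := by push_cast; ring
  rw [this, Complex.exp_int_mul_two_pi_mul_I]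

theorem tSIC : StSIC := by
  intro Z W t0 m k hk aZ aW hB
  obtain ⟨Φ0, Ψ, S, f, g, h2, aS, S0, dS, af, ah2, aΨ, nf, nh2, hE⟩ := SIC_loc Z W t0 m k hk hB
  obtain ⟨T, aT, T0, eT⟩ := SIC_inv S t0 aS S0 dS
  have cT : ContinuousAt T 0 := aT.continuousAt
  have cT' : Tendsto T (𝓝 0) (𝓝 t0) := by
    have := cT.tendsto
    rwa [T0] at this
  -- the function A
  set A : ℂ → ℂ := fun s => f (T s) * deriv T s / (h2 (T s) ^ m * (I * cexp (I * Ψ (T s)))) / k
    with hA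
  have dT : deriv T 0 ≠ 0 := by
    intro h0
    have h1 : HasDerivAt T 0 0 := by
      have := aT.differentiableAt.hasDerivAt
      rwa [h0] at this
    have h3 : HasDerivAt S (deriv S t0) (T 0) := by
      rw [T0]; exact aS.differentiableAt.hasDerivAt
    have h2' := HasDerivAt.comp (0 : ℂ) h3 h1
    have h4 : HasDerivAt (fun s : ℂ => s) (deriv S t0 * 0) 0 :=
      h2'.congr_of_eventuallyEq (by filter_upwards [eT] with s hs; exact hs.symm)
    have h5 := h4.unique (hasDerivAt_id (0 : ℂ))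
    simp at h5
  have hkc : (k : ℂ) ≠ 0 := by
    have : k ≠ 0 := by omega
    exact_mod_cast this
  have aA : AnalyticAt ℂ A 0 := by
    have a1 : AnalyticAt ℂ (fun s => f (T s)) 0 := by
      have : AnalyticAt ℂ f (T 0) := by rw [T0]; exact af
      exact this.comp aT
    have a2 : AnalyticAt ℂ (fun s => h2 (T s)) 0 := by
      have : AnalyticAt ℂ h2 (T 0) := by rw [T0]; exact ah2
      exact this.comp aT
    have a3 : AnalyticAt ℂ (fun s => Ψ (T s)) 0 := by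
      have : AnalyticAt ℂ Ψ (T 0) := by rw [T0]; exact aΨ
      exact this.comp aT
    refine AnalyticAt.div_const (AnalyticAt.div (a1.mul aT.deriv)
      ((a2.pow m).mul (analyticAt_const.mul (analyticAt_const.mul a3).cexp)) ?_)
    show h2 (T 0) ^ m * (I * cexp (I * Ψ (T 0))) ≠ 0
    rw [T0]
    exact mul_ne_zero (pow_ne_zero _ nh2) (mul_ne_zero I_ne_zero (exp_ne_zero _))
  have nA : A 0 ≠ 0 := by
    simp only [hA]
    rw [T0]
    exact div_ne_zero (div_ne_zero (mul_ne_zero nf dT) (mul_ne_zero (pow_ne_zero _ nh2)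
      (mul_ne_zero I_ne_zero (exp_ne_zero _)))) hkc
  obtain ⟨u, au, nu, eu⟩ := SIC_root A 0 aA nA 3 (by norm_num)
  -- collect all the local statements
  have hev : ∀ᶠ s in 𝓝 (0 : ℂ), AnalyticAt ℂ T s ∧ AnalyticAt ℂ u s ∧ u s ≠ 0 ∧
      (∀ᶠ s' in 𝓝 s, S (T s') = s' ∧ u s' ^ 3 = A s') ∧
      (∀ᶠ t in 𝓝 (T s), deriv Z t = (t - t0) ^ m * f t ∧ deriv W t = (t - t0) ^ m * g t ∧
        f t ≠ 0 ∧ g t ≠ 0 ∧ h2 t ≠ 0 ∧ S t = (t - t0) * h2 t ∧ Ψ t = Φ0 + S t ^ k ∧
        cexp (2 * I * Ψ t) = - f t / g t ∧ AnalyticAt ℂ Ψ t) := by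
    filter_upwards [aT.eventually_analyticAt, au.eventually_analyticAt,
      au.continuousAt.eventually_ne nu, (eT.and eu).eventually_nhds,
      cT'.eventually hE.eventually_nhds] with s h1 h2 h3 h4 h5
    exact ⟨h1, h2, h3, h4, h5⟩
  obtain ⟨δ, hδ, hball⟩ := Metric.eventually_nhds_iff_ball.1 hev
  set R : ℝ := δ ^ ((1 : ℝ) / 3) with hR
  have hR3 : R ^ 3 = δ := by
    rw [hR, ← Real.rpow_natCast, ← Real.rpow_mul hδ.le]
    norm_num
  refine ⟨R, T, u, ⟨Real.rpow_pos_of_pos hδ _, ?_, ?_⟩, T0, ?_, ?_, Φ0, ?_⟩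
  · intro z hz
    rw [hR3] at hz
    exact (hball z hz).2.1.differentiableAt.differentiableWithinAt
  · intro z hz
    rw [hR3] at hz
    exact (hball z hz).2.2.1
  · intro z hz
    rw [hR3] at hz
    exact (hball z hz).1.differentiableAt.differentiableWithinAt
  · intro s hs hs0 hTs
    rw [hR3] at hs
    have := (hball s hs).2.2.2.1.self_of_nhds.1
    rw [hTs, S0] at this
    exact hs0 this.symm
  · intro s hs hs0 Φ ρ hP
    rw [hR3] at hs
    obtain ⟨aTs, aus, nus, hsu, hEs⟩ := hball s hs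
    have hTs : T s ≠ t0 := by
      intro hTs
      have := hsu.self_of_nhds.1
      rw [hTs, S0] at this
      exact hs0 this.symm
    -- the angle is Ψ modulo π
    have hne : ∀ᶠ t in 𝓝 (T s), t ≠ t0 := continuousAt_id.eventually_ne hTs
    have hmod : ∀ᶠ t in 𝓝 (T s), ∃ n : ℤ, Φ t = Ψ t + Real.pi * n := by
      filter_upwards [hEs, hne, hP.eZ, hP.eW] with t ht htn hZ hW
      obtain ⟨t1, t2, t3, t4, -, -, -, t8, -⟩ := ht
      apply SIC_exp_int
      rw [t8]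
      have hpw : (t - t0) ^ m ≠ 0 := pow_ne_zero _ (sub_ne_zero.2 htn)
      rw [t1] at hZ
      rw [t2] at hW
      have hρ : ρ (Φ t) * deriv Φ t ≠ 0 := by
        intro h0
        rw [h0, zero_mul] at hZ
        exact mul_ne_zero hpw t3 hZ
      have e1 : cexp (2 * I * Φ t) = cexp (Φ t * I) * cexp (Φ t * I) := by
        rw [← Complex.exp_add]; congr 1; ring
      have e2 : cexp (Φ t * I) * cexp (-(Φ t * I)) = 1 := by
        rw [← Complex.exp_add]; simp
      rw [e1, eq_div_iff t4]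
      apply mul_left_cancel₀ (mul_ne_zero hpw (mul_ne_zero hρ I_ne_zero))
      have hx : ∀ x y : ℂ, (t - t0) ^ m * f t = x → (t - t0) ^ m * g t = y →
          (t - t0) ^ m * f t * y = (t - t0) ^ m * g t * x := by
        intro x y hx hy; rw [hx, hy]; ring
      have h3 : (t - t0) ^ m * g t * (ρ (Φ t) * deriv Φ t * (I * cexp (Φ t * I))) =
          (t - t0) ^ m * f t * (ρ (Φ t) * deriv Φ t * (-(I * cexp (-(Φ t * I))))) :=
        (hx _ _ hZ hW).symm
      calc (t - t0) ^ m * (ρ (Φ t) * deriv Φ t * I) * (cexp (Φ t * I) * cexp (Φ t * I) * g t)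
          = ((t - t0) ^ m * g t * (ρ (Φ t) * deriv Φ t * (I * cexp (Φ t * I)))) *
            cexp (Φ t * I) := by ring
        _ = ((t - t0) ^ m * f t * (ρ (Φ t) * deriv Φ t * (-(I * cexp (-(Φ t * I)))))) *
            cexp (Φ t * I) := by rw [h3]
        _ = -((t - t0) ^ m * f t * (ρ (Φ t) * deriv Φ t * I)) *
            (cexp (Φ t * I) * cexp (-(Φ t * I))) := by ring
        _ = (t - t0) ^ m * (ρ (Φ t) * deriv Φ t * I) * (-f t) := by rw [e2]; ring
    have aΨs : AnalyticAt ℂ Ψ (T s) := hEs.self_of_nhds.2.2.2.2.2.2.2.2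
    obtain ⟨j, hj⟩ := SIC_const Φ Ψ (T s) hP.aΦ.continuousAt aΨs.continuousAt hmod
    set ω : ℂ := cexp (Real.pi * j * I) with hω
    have hω2 : ω ^ 2 = 1 := SIC_exp_pi j
    have hω0 : ω ≠ 0 := exp_ne_zero _
    refine ⟨j, ω, hω0, ?_, ?_⟩
    · rw [hj.self_of_nhds, hEs.self_of_nhds.2.2.2.2.2.2.1, hsu.self_of_nhds.1]
      ring
    · have hT : Tendsto T (𝓝 s) (𝓝 (T s)) := aTs.continuousAt
      have hjd : ∀ᶠ t in 𝓝 (T s), deriv Φ t = deriv Ψ t := by
        filter_upwards [hj.eventually_nhds] with t ht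
        have h1 : Φ =ᶠ[𝓝 t] fun t => Ψ t + Real.pi * j := ht
        rw [h1.deriv_eq, deriv_add_const]
      have hchain : ∀ᶠ s' in 𝓝 s, deriv Ψ (T s') * deriv T s' = k * s' ^ (k - 1) := by
        filter_upwards [hT.eventually hEs.eventually_nhds, hsu.eventually_nhds,
          aTs.eventually_analyticAt] with s' h1 h3 h4
        have h5 : AnalyticAt ℂ Ψ (T s') := h1.self_of_nhds.2.2.2.2.2.2.2.2
        have h6 := HasDerivAt.comp s' h5.differentiableAt.hasDerivAt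
          h4.differentiableAt.hasDerivAt
        have h7 : Tendsto T (𝓝 s') (𝓝 (T s')) := h4.continuousAt
        have h8 : ∀ᶠ s'' in 𝓝 s', Φ0 + s'' ^ k = (Ψ ∘ T) s'' := by
          filter_upwards [h7.eventually h1, h3] with s'' h9 h10
          rw [Function.comp, h9.2.2.2.2.2.2.1, h10.1]
        have h9 := h6.congr_of_eventuallyEq h8
        have h10 : HasDerivAt (fun s'' : ℂ => Φ0 + s'' ^ k) (k * s' ^ (k - 1)) s' :=
          (hasDerivAt_pow k s').const_add Φ0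
        exact h9.unique h10
      have hs0' : ∀ᶠ s' in 𝓝 s, s' ≠ 0 := continuousAt_id.eventually_ne hs0
      filter_upwards [hchain, hsu, hT.eventually hEs, hT.eventually hj, hT.eventually hjd,
        hT.eventually hP.eZ, hs0'] with s' h1 h3 h4 h5 h6 h7 h8
      obtain ⟨t1, t2, t3, t4, t5, t6, t7, t8, -⟩ := h4
      obtain ⟨h3a, h3b⟩ := h3
      have e1 : Φ (T s') = Φ0 + Real.pi * j + s' ^ k := by
        rw [h5, t7, h3a]; ring
      have e2 : cexp (Φ (T s') * I) = cexp (I * Ψ (T s')) * ω := by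
        rw [h5, hω, ← Complex.exp_add]; congr 1; ring
      have e3 : T s' - t0 = s' / h2 (T s') := by
        rw [eq_div_iff t5, ← t6, h3a]
      have e4 : s' ^ k = s' * s' ^ (k - 1) := by
        rw [← pow_succ']; congr 1; omega
      rw [h6, e2, e1] at h7
      rw [mul_pow, h3b]
      simp only [hA]
      have hE0 : cexp (I * Ψ (T s')) ≠ 0 := exp_ne_zero _
      -- Z' T' = ρ k s^(k-1) I e^{iΨ} ω
      have h9 : (s' / h2 (T s')) ^ m * f (T s') * deriv T s' =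
          ρ (Φ0 + Real.pi * j + s' ^ k) * (k * s' ^ (k - 1)) *
            (I * (cexp (I * Ψ (T s')) * ω)) := by
        rw [← e3, ← t1, h7, ← h1]; ring
      have h10 : ω ^ 3 = ω := by
        calc ω ^ 3 = ω ^ 2 * ω := by ring
          _ = ω := by rw [hω2, one_mul]
      rw [h10]
      have h11 : s' ^ (m + 1) * (ω * (f (T s') * deriv T s' /
          (h2 (T s') ^ m * (I * cexp (I * Ψ (T s')))) / k)) =
          ((s' / h2 (T s')) ^ m * f (T s') * deriv T s') * (s' * ω /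
            ((I * cexp (I * Ψ (T s'))) * k)) := by
        rw [div_pow]; field_simp; ring
      rw [h11, h9, e4]
      have h12 : ω * ω = 1 := by rw [← sq]; exact hω2
      have hI0 := I_ne_zero
      field_simp
      rw [hω2, mul_one]

end H719FX
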