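import Pool.Agent.H719R4.FX.Geo
import Pool.Agent.H738R3.CZ.TRL
import Pool.Agent.H738R3.CZ.CHG
import Pool.Agent.H738R3.CZ.MON

/-! # SIN: a branch of type `(m + 1, m + 1 + k)` with good points nearby has `m + 1 = k` -/

open Complex Set Filter Topology

namespace H719FX

open H738CZ

theorem SIN_ker : Ker kcs where
  even i := by simp [kcs]
  one := by simp [kcs]
  bd i := by
    unfold kcs
    split_ifs
    · simp
    · simp

theorem tSIN (hSIC : StSIC) (hEND : StEND) : StSIN := by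
  intro Z W t0 m k hk hZ hW hBr hgood
  by_contra hne
  obtain ⟨R, T, u, hUN, hT0, hTd, hTne, Φ0, hΦ⟩ := hSIC Z W t0 m k hk hZ hW hBr
  have hR3 : 0 < R ^ 3 := pow_pos hUN.pos 3
  have hball : Metric.ball (0 : ℂ) (R ^ 3) ∈ 𝓝 (0 : ℂ) := Metric.ball_mem_nhds _ hR3
  have hTc : ContinuousAt T 0 := (hTd.differentiableAt hball).continuousAt
  have hev1 : ∀ᶠ s in 𝓝[≠] (0 : ℂ), s ∈ Metric.ball (0 : ℂ) (R ^ 3) :=
    mem_nhdsWithin_of_mem_nhds hball
  have hev2 : ∀ᶠ s in 𝓝[≠] (0 : ℂ), s ≠ 0 := eventually_mem_nhdsWithin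
  have htend : Tendsto T (𝓝[≠] (0 : ℂ)) (𝓝[≠] t0) := by
    refine tendsto_nhdsWithin_iff.2 ⟨?_, ?_⟩
    · have h1 : Tendsto T (𝓝 0) (𝓝 (T 0)) := hTc
      rw [hT0] at h1
      exact h1.mono_left nhdsWithin_le_nhds
    · filter_upwards [hev1, hev2] with s hs1 hs2
      exact hTne s hs1 hs2
  obtain ⟨s, ⟨hs1, hs2⟩, hs3⟩ := ((hev1.and hev2).and (htend.eventually hgood)).exists
  obtain ⟨Φ, ρ, hP, hG⟩ := hs3
  obtain ⟨j, ω, hω, heq, hev⟩ := hΦ s hs1 hs2 Φ ρ hP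
  have hTRL := tTRL tCHG tMON
  have hG' := hTRL kcs ρ (fun t => ρ (t + (Φ0 + Real.pi * j))) (Φ (T s)) (Φ0 + Real.pi * j) hG
    (Filter.Eventually.of_forall fun t => rfl)
  have hsub : Φ (T s) - (Φ0 + Real.pi * j) = s ^ k := by rw [heq]; ring
  rw [hsub] at hG'
  refine hEND kcs SIN_ker (m + 1) k (fun z => ω * u z) R
    (fun t => ρ (t + (Φ0 + Real.pi * j))) s (by omega) hk hne
    ⟨hUN.pos, hUN.df.const_mul ω, fun z hz => mul_ne_zero hω (hUN.nz z hz)⟩ hs1 hs2 ?_ hG'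
  filter_upwards [hev] with t ht
  have : t ^ k + (Φ0 + Real.pi * j) = Φ0 + Real.pi * j + t ^ k := by ring
  simp only [this]
  exact ht

end H719FX
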