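import Pool.Agent.H719R4.FX.Geo
import Pool.Agent.H738R3.CZ.INN

/-! STA: start from the integral (adapted from CZ/INN.lean). -/

open Complex Set Filter Topology

namespace H719FX

open H738CZ

theorem tSTA (hLAW : StLAW) (hINI : StINI) (hCPX : StCPX) : StSTA := by
  intro γ ρ ho K ε hε hK hrefl hnc R x r hr hdR hR
  have hx : (x : ℂ) ∈ Metric.ball (x : ℂ) r := Metric.mem_ball_self hr
  show Good INN_kc R x
  have hγ : AnalyticAt ℝ γ x := INN_gamma γ ρ ho R (x : ℂ) r hdR hR x hx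
  have hh : AnalyticAt ℝ (fun s : ℝ => sup (γ s) s) x := INN_h γ x hγ
  have hcγ := INN_cont γ ρ ho
  have hch : Continuous fun s : ℝ => sup (γ s) s := by unfold sup; fun_prop
  have hL : AnalyticAt ℝ (Function.uncurry fun φ y : ℝ => K φ (sup (γ φ) φ - y)) (x, 0) := by
    have h1 : AnalyticAt ℝ (Function.uncurry K) (x, sup (γ x) x - 0) := by
      refine hK _ ?_
      simp [hε]
    have h2 : AnalyticAt ℝ (fun z : ℝ × ℝ => (z.1, sup (γ z.1) z.1 - z.2)) (x, 0) := by
      refine AnalyticAt.prod analyticAt_fst (AnalyticAt.sub ?_ analyticAt_snd)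
      exact AnalyticAt.comp (g := fun s : ℝ => sup (γ s) s) (f := Prod.fst) hh analyticAt_fst
    exact AnalyticAt.comp (g := Function.uncurry K)
      (f := fun z : ℝ × ℝ => (z.1, sup (γ z.1) z.1 - z.2)) h1 h2
  obtain ⟨b, η, M, rr, hBD, hsum⟩ := hCPX _ x hL
  obtain ⟨η1, hη1, hsub⟩ := Metric.isOpen_iff.1 (Metric.isOpen_ball (x := (x:ℂ)) (ε := r)) x hx
  have hη' : 0 < min η η1 := lt_min hBD.η0 hη1
  have hBD' : BD b x (min η η1) M rr :=
    ⟨hη', hBD.r0, fun j => (hBD.df j).mono (Metric.ball_subset_ball (min_le_left _ _)),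
      fun j t ht => hBD.bd j t (Metric.ball_subset_ball (min_le_left _ _) ht)⟩
  have hsub' : Metric.ball (x : ℂ) (min η η1) ⊆ Metric.ball (x : ℂ) r :=
    (Metric.ball_subset_ball (min_le_right _ _)).trans hsub
  have hdR' : DifferentiableOn ℂ R (Metric.ball (x : ℂ) (min η η1)) := hdR.mono hsub'
  have hEV : ∀ ψ : ℝ, |ψ - x| < min η η1 → EV Complex.sin R b ψ := by
    intro ψ hψ
    obtain ⟨εs, hεs, hs⟩ := hrefl ψ
    have hF : Continuous fun σ : ℝ => sup (γ (ψ + σ)) (ψ + σ) - sup (γ ψ) (ψ + σ) := by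
      unfold sup; fun_prop
    have hF0 : (fun σ : ℝ => sup (γ (ψ + σ)) (ψ + σ) - sup (γ ψ) (ψ + σ)) 0 = 0 := by simp
    have hev : ∀ᶠ σ in 𝓝 (0 : ℝ),
        |sup (γ (ψ + σ)) (ψ + σ) - sup (γ ψ) (ψ + σ)| < rr := by
      have h1 := hF.tendsto 0
      simp only at hF0
      rw [hF0] at h1
      have h2 := h1.eventually (Metric.ball_mem_nhds (0 : ℝ) hBD.r0)
      filter_upwards [h2] with σ hσ
      simpa [Real.dist_eq] using hσ
    obtain ⟨ε1, hε1, hball⟩ := Metric.eventually_nhds_iff.1 hev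
    have key : ∀ σ : ℝ, |σ| < ε1 → |σ| < min η η1 - |ψ - x| →
        ∑' j, b j ((ψ + σ : ℝ) : ℂ) * (Yf Complex.sin R ψ (σ : ℝ)) ^ j
          = ((K (ψ + σ) (sup (γ ψ) (ψ + σ)) : ℝ) : ℂ) := by
      intro σ h1 h2
      have h3 := INN_Y γ ρ ho R ψ σ (fun t ht => by
        have h4 := hsub' (INN_mem x ψ σ _ hψ h2 t ht)
        exact hR _ h4)
      rw [h3]
      have h5 : |ψ + σ - x| < η := by
        have h6 := INN_mem x ψ σ _ hψ h2 1 ⟨zero_le_one, le_refl _⟩
        rw [Metric.mem_ball, Complex.dist_eq, ← Complex.ofReal_sub, Complex.norm_real,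
          Real.norm_eq_abs, one_mul] at h6
        exact h6.trans_le (min_le_left _ _)
      have h7 : |sup (γ (ψ + σ)) (ψ + σ) - sup (γ ψ) (ψ + σ)| < rr := by
        refine hball ?_
        simpa [Real.dist_eq] using h1
      have h8 := (hsum (ψ + σ) _ h5 h7).tsum_eq
      rw [h8]
      congr 2
      ring
    refine ⟨min (min ε1 εs) (min η η1 - |ψ - x|), lt_min (lt_min hε1 hεs) (by linarith), ?_⟩
    intro δ hδ hδ'
    have h1 : |δ| < ε1 := by
      rw [abs_of_pos hδ]; exact hδ'.trans_le ((min_le_left _ _).trans (min_le_left _ _))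
    have h2 : |δ| < min η η1 - |ψ - x| := by
      rw [abs_of_pos hδ]; exact hδ'.trans_le (min_le_right _ _)
    have h3 : δ < εs := hδ'.trans_le ((min_le_left _ _).trans (min_le_right _ _))
    have h4 := key δ h1 h2
    have h5 := key (-δ) (by rwa [abs_neg]) (by rwa [abs_neg])
    have h6 := hs δ hδ h3
    push_cast at h4 h5
    rw [h4]
    rw [← sub_eq_add_neg, ← sub_eq_add_neg] at h5
    rw [h5, h6]
  have hne : ∃ j, 1 ≤ j ∧ ∃ t ∈ Metric.ball (x : ℂ) (min η η1), b j t ≠ 0 := by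
    by_contra hcon
    push Not at hcon
    have h0 := (hLAW Complex.sin INN_kc INN_KF INN_ker R x b (min η η1) M rr hBD' hdR' hEV).1
    have hLc : ∀ φ y : ℝ, |φ - x| < min η η1 → |y| < rr →
        ((K φ (sup (γ φ) φ - y) : ℝ) : ℂ) = b 0 x := by
      intro φ y hφ hy
      have h1 := hsum φ y (hφ.trans_le (min_le_left _ _)) hy
      have hφ' : (φ : ℂ) ∈ Metric.ball (x : ℂ) (min η η1) := by
        rw [Metric.mem_ball, Complex.dist_eq, ← Complex.ofReal_sub, Complex.norm_real,
          Real.norm_eq_abs]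
        exact hφ
      have h2 : HasSum (fun j => b j φ * (y : ℂ) ^ j) (b 0 φ * (y : ℂ) ^ 0) := by
        refine hasSum_single 0 fun j hj => ?_
        rw [hcon j (Nat.one_le_iff_ne_zero.2 hj) φ hφ', zero_mul]
      have h3 := h1.unique h2
      rw [pow_zero, mul_one, h0 φ hφ'] at h3
      exact h3
    have hc : ∀ φ p : ℝ, |φ - x| < min η η1 → |sup (γ φ) φ - p| < rr →
        K φ p = K x (sup (γ x) x) := by
      intro φ p hφ hp
      have h1 := hLc φ _ hφ hp
      have h2 := hLc x 0 (by simpa using hη') (by simpa using hBD.r0)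
      rw [← h2, Complex.ofReal_inj] at h1
      simpa using h1
    refine hnc ⟨K x (sup (γ x) x), ?_⟩
    have hpre : IsPreconnected {z : ℝ × ℝ | |z.2 - sup (γ z.1) z.1| < ε} := by
      have h1 : IsPreconnected ((Set.univ : Set ℝ) ×ˢ Metric.ball (0 : ℝ) ε) :=
        isPreconnected_univ.prod (convex_ball 0 ε).isPreconnected
      have h2 : Continuous fun z : ℝ × ℝ => (z.1, sup (γ z.1) z.1 + z.2) := by
        refine continuous_fst.prodMk ((hch.comp continuous_fst).add continuous_snd)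
      have h3 := h1.image _ h2.continuousOn
      convert h3 using 1
      ext z
      simp only [Set.mem_ofPred_eq, Set.mem_image, Set.mem_prod, Set.mem_univ, true_and,
        Metric.mem_ball, Real.dist_eq, sub_zero]
      constructor
      · intro hz
        exact ⟨(z.1, z.2 - sup (γ z.1) z.1), hz, by simp⟩
      · rintro ⟨w, hw, rfl⟩
        simpa using hw
    have hz0 : ((x, sup (γ x) x) : ℝ × ℝ) ∈ {z : ℝ × ℝ | |z.2 - sup (γ z.1) z.1| < ε} := by
      simpa using hε
    have hev : Function.uncurry K =ᶠ[𝓝 ((x, sup (γ x) x) : ℝ × ℝ)]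
        fun _ => K x (sup (γ x) x) := by
      have hc1 : Continuous fun z : ℝ × ℝ => |z.1 - x| := by fun_prop
      have hc2 : Continuous fun z : ℝ × ℝ => |sup (γ z.1) z.1 - z.2| :=
        ((hch.comp continuous_fst).sub continuous_snd).abs
      have h1 : ∀ᶠ z in 𝓝 ((x, sup (γ x) x) : ℝ × ℝ), |z.1 - x| < min η η1 :=
        (hc1.tendsto _).eventually_lt_const (by simpa using hη')
      have h2 : ∀ᶠ z in 𝓝 ((x, sup (γ x) x) : ℝ × ℝ), |sup (γ z.1) z.1 - z.2| < rr :=
        (hc2.tendsto _).eventually_lt_const (by simpa using hBD.r0)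
      filter_upwards [h1, h2] with z hz1 hz2
      exact hc z.1 z.2 hz1 hz2
    have heq := hK.eqOn_of_preconnected_of_eventuallyEq
      (g := fun _ => K x (sup (γ x) x)) analyticOnNhd_const hpre hz0 hev
    intro φ p hp
    exact heq (x := (φ, p)) hp
  refine hINI Complex.sin INN_kc INN_KF INN_ker R x b (min η η1) M rr hBD' hdR' ?_ hEV hne
  rw [hR x hx]
  exact Complex.ofReal_ne_zero.2 (ho.pos x).ne'

end H719FX
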