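import Pool.Agent.H719R4.FX.Geo

/-! Task STZ: a pair at a real point. -/

open Complex Set Filter Topology

namespace H719FX

open H738CZ

/-- differentiability of the normal angle -/
lemma STZ_der {γ : ℝ → ℂ} {ρ : ℝ → ℝ} (ho : IsOval γ ρ) {Z : ℂ → ℂ} {θ : ℝ → ℝ} {t : ℝ}
    (hZ : DifferentiableAt ℂ Z t) (hθ : ContinuousAt θ t)
    (he : ∀ᶠ s : ℝ in 𝓝 t, Z s = γ (θ s)) :
    ∃ θ' : ℝ, HasDerivAt θ θ' t ∧
      deriv Z t = (ρ (θ t) : ℂ) * θ' * (I * cexp (θ t * I)) := by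
  set a : ℂ := (starRingEnd ℂ) (I * cexp (θ t * I)) with ha
  have haa : a * (I * cexp (θ t * I)) = 1 := by
    rw [ha, ← normSq_eq_conj_mul_self, normSq_eq_norm_sq, norm_mul, norm_I, norm_exp_ofReal_mul_I]
    simp
  set h : ℝ → ℝ := fun s => (a * γ s).re with hh
  have hder : ∀ s : ℝ, HasDerivAt h ((a * ((ρ s : ℂ) * I * cexp (s * I))).re) s := by
    intro s
    exact (Complex.reCLM.hasFDerivAt.comp_hasDerivAt s ((ho.der s).const_mul a))
  have hcont : Continuous (fun s : ℝ => (a * ((ρ s : ℂ) * I * cexp (s * I))).re) := by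
    have := ho.cont
    fun_prop
  have hval : (a * ((ρ (θ t) : ℂ) * I * cexp (θ t * I))).re = ρ (θ t) := by
    have : a * ((ρ (θ t) : ℂ) * I * cexp (θ t * I)) = (ρ (θ t) : ℂ) * (a * (I * cexp (θ t * I))) := by
      ring
    rw [this, haa, mul_one, ofReal_re]
  have hstrict : HasStrictDerivAt h (ρ (θ t)) (θ t) := by
    have := hasStrictDerivAt_of_hasDerivAt_of_continuousAt (f := h) (x := θ t)
      (Eventually.of_forall hder) hcont.continuousAt
    rwa [hval] at this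
  have hρ : ρ (θ t) ≠ 0 := (ho.pos _).ne'
  have hleft := hstrict.eventually_left_inverse hρ
  have hg := (hstrict.to_localInverse hρ).hasDerivAt
  set g := hstrict.localInverse h (ρ (θ t)) (θ t) hρ with hgdef
  -- the projection of `Z`
  have hZr : HasDerivAt (fun s : ℝ => Z s) (deriv Z t) t := hZ.hasDerivAt.comp_ofReal
  have hk : HasDerivAt (fun s : ℝ => (a * Z s).re) ((a * deriv Z t).re) t :=
    Complex.reCLM.hasFDerivAt.comp_hasDerivAt t (hZr.const_mul a)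
  have hkt : (a * Z t).re = h (θ t) := by
    rw [he.self_of_nhds]
  have hgk : HasDerivAt (fun s : ℝ => g ((a * Z s).re)) ((ρ (θ t))⁻¹ * (a * deriv Z t).re) t := by
    have h1 : HasDerivAt g (ρ (θ t))⁻¹ ((a * Z t).re) := by rw [hkt]; exact hg
    exact h1.comp t hk
  have heq : θ =ᶠ[𝓝 t] fun s : ℝ => g ((a * Z s).re) := by
    filter_upwards [he, hθ.eventually hleft] with s h1 h2
    rw [h1]
    exact h2.symm
  have hθ' : HasDerivAt θ ((ρ (θ t))⁻¹ * (a * deriv Z t).re) t := hgk.congr_of_eventuallyEq heq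
  refine ⟨_, hθ', ?_⟩
  have h2 : HasDerivAt (fun s : ℝ => γ (θ s)) (((ρ (θ t))⁻¹ * (a * deriv Z t).re) •
      ((ρ (θ t) : ℂ) * I * cexp (θ t * I))) t := (ho.der (θ t)).scomp t hθ'
  have h3 := hZr.unique (h2.congr_of_eventuallyEq he)
  refine h3.trans ?_
  rw [real_smul]
  ring

theorem tSTZ : StSTZ := by
  intro γ ρ ho Z W c r θ x0 x1 hZ hW hθ hreal hne
  have hZd : ∀ t ∈ Ioo x0 x1, DifferentiableAt ℂ Z t := fun t ht =>
    hZ.differentiableAt (Metric.isOpen_ball.mem_nhds (hreal t ht).1)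
  have hWd : ∀ t ∈ Ioo x0 x1, DifferentiableAt ℂ W t := fun t ht =>
    hW.differentiableAt (Metric.isOpen_ball.mem_nhds (hreal t ht).1)
  have hZr : ∀ t ∈ Ioo x0 x1, HasDerivAt (fun s : ℝ => Z s) (deriv Z t) t := fun t ht =>
    (hZd t ht).hasDerivAt.comp_ofReal
  have hWr : ∀ t ∈ Ioo x0 x1, HasDerivAt (fun s : ℝ => W s) (deriv W t) t := fun t ht =>
    (hWd t ht).hasDerivAt.comp_ofReal
  obtain ⟨t1, ht1, hZ1⟩ : ∃ t1 ∈ Ioo x0 x1, deriv Z t1 ≠ 0 := by
    by_contra hcon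
    push Not at hcon
    obtain ⟨s, hs, t, ht, hst⟩ := hne
    apply hst
    rw [← (hreal s hs).2.1, ← (hreal t ht).2.1]
    exact isOpen_Ioo.is_const_of_deriv_eq_zero isPreconnected_Ioo (f := fun s : ℝ => Z s)
      (fun u hu => (hZr u hu).differentiableAt.differentiableWithinAt)
      (fun u hu => by rw [(hZr u hu).deriv]; exact hcon u hu) hs ht
  have hder : ∀ t ∈ Ioo x0 x1, ∃ θ' : ℝ, HasDerivAt θ θ' t ∧
      deriv Z t = (ρ (θ t) : ℂ) * θ' * (I * cexp (θ t * I)) := fun t ht =>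
    STZ_der ho (hZd t ht) (hθ.continuousAt (isOpen_Ioo.mem_nhds ht))
      (by filter_upwards [isOpen_Ioo.mem_nhds ht] with s hs using (hreal s hs).2.1)
  have hWc : ∀ t ∈ Ioo x0 x1, deriv W t = (starRingEnd ℂ) (deriv Z t) := by
    intro t ht
    have h1 : HasDerivAt (fun s : ℝ => (starRingEnd ℂ) (Z s)) ((starRingEnd ℂ) (deriv Z t)) t :=
      Complex.conjCLE.toContinuousLinearMap.hasFDerivAt.comp_hasDerivAt t (hZr t ht)
    apply (hWr t ht).unique
    apply h1.congr_of_eventuallyEq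
    filter_upwards [isOpen_Ioo.mem_nhds ht] with s hs
    rw [(hreal s hs).2.2, (hreal s hs).2.1]
  -- the quotient of the derivatives
  set q : ℂ → ℂ := fun s => -deriv Z s / deriv W s with hq
  have hqr : ∀ t ∈ Ioo x0 x1, deriv Z t ≠ 0 → q t = cexp (2 * θ t * I) := by
    intro t ht h0
    obtain ⟨θ', -, h1⟩ := hder t ht
    have h2 : deriv W t ≠ 0 := by
      rw [hWc t ht]
      exact (map_ne_zero _).mpr h0
    rw [hq]
    dsimp only
    rw [div_eq_iff h2, hWc t ht, h1]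
    simp only [map_mul, conj_ofReal, conj_I, ← exp_conj]
    have h3 : cexp (2 * θ t * I) = cexp (θ t * I) * cexp (θ t * I) := by
      rw [← Complex.exp_add]; ring_nf
    have h4 : cexp (θ t * I) * cexp (θ t * -I) = 1 := by
      rw [← Complex.exp_add]; simp
    rw [h3]
    linear_combination (ρ (θ t) : ℂ) * θ' * I * cexp (θ t * I) * h4
  have hmem : (t1 : ℂ) ∈ Metric.ball c r := (hreal t1 ht1).1
  have aZ : AnalyticAt ℂ Z t1 := hZ.analyticAt (Metric.isOpen_ball.mem_nhds hmem)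
  have aW : AnalyticAt ℂ W t1 := hW.analyticAt (Metric.isOpen_ball.mem_nhds hmem)
  have hW1 : deriv W t1 ≠ 0 := by
    rw [hWc t1 ht1]
    exact (map_ne_zero _).mpr hZ1
  have aq : AnalyticAt ℂ q t1 := aZ.deriv.neg.div aW.deriv hW1
  set y : ℝ := θ t1 with hy
  set E0 : ℂ := cexp (-(2 * y * I)) with hE0
  have hE0q : q t1 * E0 = 1 := by
    rw [hqr t1 ht1 hZ1, hE0, ← Complex.exp_add, ← hy]
    simp
  set Φ : ℂ → ℂ := fun s => y + (2 * I)⁻¹ * log (q s * E0) with hΦ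
  have hΦ1 : Φ t1 = y := by
    rw [hΦ]
    dsimp only
    rw [hE0q, log_one, mul_zero, add_zero]
  have aΦ : AnalyticAt ℂ Φ t1 := by
    have h1 : AnalyticAt ℂ (fun s => q s * E0) t1 := aq.mul analyticAt_const
    have h2 : AnalyticAt ℂ (fun s => log (q s * E0)) t1 :=
      h1.clog (by rw [hE0q]; exact one_mem_slitPlane)
    exact analyticAt_const.add (analyticAt_const.mul h2)
  have hI : (2 * I : ℂ) ≠ 0 := by simp
  -- the exponential of `Φ`
  have hexp : ∀ᶠ s in 𝓝 (t1 : ℂ), cexp (Φ s * I) * cexp (Φ s * I) = q s := by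
    have h1 : ∀ᶠ s in 𝓝 (t1 : ℂ), q s * E0 ≠ 0 := by
      have h2 : ContinuousAt (fun s => q s * E0) t1 := (aq.mul analyticAt_const).continuousAt
      apply h2.eventually_ne
      rw [hE0q]
      exact one_ne_zero
    filter_upwards [h1] with s hs
    rw [← Complex.exp_add, hΦ]
    dsimp only
    have e1 : (y + (2 * I)⁻¹ * log (q s * E0)) * I + (y + (2 * I)⁻¹ * log (q s * E0)) * I =
        2 * y * I + log (q s * E0) := by
      field_simp
      ring
    rw [e1, Complex.exp_add, Complex.exp_log hs, hE0]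
    have e2 : cexp (2 * y * I) * cexp (-(2 * y * I)) = 1 := by
      rw [← Complex.exp_add]; simp
    linear_combination q s * e2
  -- real points
  have hto : Tendsto (fun t : ℝ => (t : ℂ)) (𝓝 t1) (𝓝 (t1 : ℂ)) :=
    Complex.continuous_ofReal.continuousAt
  have hZne : ∀ᶠ s in 𝓝 (t1 : ℂ), deriv Z s ≠ 0 := aZ.deriv.continuousAt.eventually_ne hZ1
  have hWne : ∀ᶠ s in 𝓝 (t1 : ℂ), deriv W s ≠ 0 := aW.deriv.continuousAt.eventually_ne hW1
  have hIoo : ∀ᶠ t : ℝ in 𝓝 t1, t ∈ Ioo x0 x1 := isOpen_Ioo.mem_nhds ht1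
  have hΦθ : ∀ᶠ t : ℝ in 𝓝 t1, Φ t = θ t := by
    have h1 : ∀ᶠ t : ℝ in 𝓝 t1, |θ t - y| < 1 := by
      have h2 : ContinuousAt θ t1 := hθ.continuousAt (isOpen_Ioo.mem_nhds ht1)
      have h3 := h2.eventually (Metric.ball_mem_nhds (θ t1) one_pos)
      filter_upwards [h3] with t ht
      rw [← Real.dist_eq]
      exact ht
    filter_upwards [h1, hIoo, hto.eventually hZne] with t h2 h3 h4
    have e1 : q t * E0 = cexp (2 * (θ t - y) * I) := by
      rw [hqr t h3 h4, hE0, ← Complex.exp_add]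
      ring_nf
    have h5 := abs_lt.mp h2
    have hpi := Real.pi_gt_three
    have e2 : (2 * ((θ t : ℂ) - y) * I).im = 2 * (θ t - y) := by simp
    rw [hΦ]
    dsimp only
    rw [e1, log_exp (by rw [e2]; linarith) (by rw [e2]; linarith)]
    field_simp
    ring
  have hΦd : ∀ᶠ t : ℝ in 𝓝 t1, ∀ θ' : ℝ, HasDerivAt θ θ' t → deriv Φ t = θ' := by
    filter_upwards [hΦθ.eventually_nhds, hto.eventually aΦ.eventually_analyticAt] with t h1 h2 θ' h3
    have h4 : HasDerivAt (fun s : ℝ => Φ s) (deriv Φ t) t :=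
      h2.differentiableAt.hasDerivAt.comp_ofReal
    have h5 : HasDerivAt (fun s : ℝ => (θ s : ℂ)) (θ' : ℂ) t := h3.ofReal_comp
    exact h4.unique (h5.congr_of_eventuallyEq h1)
  obtain ⟨θ1', hθ1, hZθ1⟩ := hder t1 ht1
  have hθ1ne : θ1' ≠ 0 := by
    intro h0
    apply hZ1
    rw [hZθ1, h0]
    simp
  have hdΦ1 : deriv Φ t1 = θ1' := hΦd.self_of_nhds θ1' hθ1
  have hdΦ : deriv Φ t1 ≠ 0 := by
    rw [hdΦ1]
    exact_mod_cast hθ1ne
  have hdΦne : ∀ᶠ s in 𝓝 (t1 : ℂ), deriv Φ s ≠ 0 := aΦ.deriv.continuousAt.eventually_ne hdΦ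
  -- the local inverse
  obtain ⟨T, aT, hT⟩ : ∃ T : ℂ → ℂ, AnalyticAt ℂ T (Φ t1) ∧ ∀ᶠ s in 𝓝 (t1 : ℂ), T (Φ s) = s :=
    ⟨_, aΦ.analyticAt_localInverse hdΦ, HasStrictDerivAt.eventually_left_inverse _ _⟩
  have hT1 : T (Φ t1) = t1 := hT.self_of_nhds
  set R : ℂ → ℂ := fun φ => deriv Z (T φ) / (deriv Φ (T φ) * (I * cexp (φ * I))) with hR
  have hRΦ : ∀ᶠ s in 𝓝 (t1 : ℂ), R (Φ s) = deriv Z s / (deriv Φ s * (I * cexp (Φ s * I))) := by
    filter_upwards [hT] with s hs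
    rw [hR]
    dsimp only
    rw [hs]
  have aR : AnalyticAt ℂ R (Φ t1) := by
    have h1 : AnalyticAt ℂ (fun φ => deriv Z (T φ)) (Φ t1) := aZ.deriv.fun_comp_of_eq aT hT1
    have h2 : AnalyticAt ℂ (fun φ => deriv Φ (T φ)) (Φ t1) := aΦ.deriv.fun_comp_of_eq aT hT1
    have h3 : AnalyticAt ℂ (fun φ : ℂ => I * cexp (φ * I)) (Φ t1) := by fun_prop
    refine h1.div (h2.mul h3) ?_
    rw [hT1]
    exact mul_ne_zero hdΦ (mul_ne_zero I_ne_zero (Complex.exp_ne_zero _))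
  have hZeq : ∀ᶠ s in 𝓝 (t1 : ℂ), deriv Z s = R (Φ s) * deriv Φ s * (I * cexp (Φ s * I)) := by
    filter_upwards [hRΦ, hdΦne] with s h1 h2
    rw [h1]
    have h3 := Complex.exp_ne_zero (Φ s * I)
    have h4 := I_ne_zero
    field_simp
  have hWeq : ∀ᶠ s in 𝓝 (t1 : ℂ),
      deriv W s = R (Φ s) * deriv Φ s * (-(I * cexp (-(Φ s * I)))) := by
    filter_upwards [hZeq, hexp, hWne] with s h1 h2 h3
    have h4 : q s * deriv W s = -deriv Z s := by
      rw [hq]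
      dsimp only
      rw [div_mul_cancel₀ _ h3]
    have h5 : cexp (Φ s * I) * cexp (-(Φ s * I)) = 1 := by
      rw [← Complex.exp_add]; simp
    have h6 := Complex.exp_ne_zero (Φ s * I)
    have h7 : cexp (Φ s * I) * cexp (Φ s * I) ≠ 0 := mul_ne_zero h6 h6
    apply mul_left_cancel₀ h7
    rw [h2, h4, h1, ← h2]
    linear_combination (R (Φ s) * deriv Φ s * I * cexp (Φ s * I)) * h5
  -- the values at real points
  have hRρ : ∀ᶠ t : ℝ in 𝓝 t1, R (θ t : ℂ) = ρ (θ t) := by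
    filter_upwards [hΦθ, hΦd, hIoo, hto.eventually hRΦ, hto.eventually hdΦne] with t h1 h2 h3 h4 h5
    obtain ⟨θ', h6, h7⟩ := hder t h3
    have h8 := h2 θ' h6
    rw [h1, h7, h8] at h4
    rw [h8] at h5
    rw [h4]
    have h9 := Complex.exp_ne_zero (θ t * I)
    have h10 := I_ne_zero
    field_simp
  have hmap : map θ (𝓝 t1) = 𝓝 y := by
    have h1 : HasStrictDerivAt (fun t : ℝ => (Φ t).re) (deriv Φ t1).re t1 :=
      aΦ.hasStrictDerivAt.real_of_complex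
    have h2 : (deriv Φ t1).re ≠ 0 := by
      rw [hdΦ1, ofReal_re]
      exact hθ1ne
    have h3 := h1.map_nhds_eq h2
    have h4 : (fun t : ℝ => (Φ t).re) =ᶠ[𝓝 t1] θ := by
      filter_upwards [hΦθ] with t ht
      rw [ht, ofReal_re]
    rw [← map_congr h4, h3, hΦ1, ofReal_re]
  have hRv : ∀ᶠ v : ℝ in 𝓝 y, R v = ρ v := by
    rw [← hmap]
    exact hRρ
  obtain ⟨η1, hη1, hη1'⟩ := Metric.eventually_nhds_iff_ball.mp hRv
  rw [hΦ1] at aR
  obtain ⟨η2, hη2, hη2'⟩ := aR.exists_ball_analyticOnNhd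
  refine ⟨t1, Φ, R, y, min η1 η2, ht1, ⟨aΦ, by rw [hΦ1]; exact aR, hdΦ, ?_, hZeq, hWeq⟩, hΦ1,
    lt_min hη1 hη2, ?_, ?_⟩
  · intro h0
    apply hZ1
    rw [hZeq.self_of_nhds, h0]
    simp
  · intro z hz
    have h1 : z ∈ Metric.ball (y : ℂ) η2 := Metric.ball_subset_ball (min_le_right _ _) hz
    exact (hη2' z h1).differentiableAt.differentiableWithinAt
  · intro v hv
    apply hη1'
    rw [Metric.mem_ball] at hv ⊢
    rw [Complex.isometry_ofReal.dist_eq] at hv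
    exact hv.trans_le (min_le_left _ _)

end H719FX
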