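import Pool.Agent.H719R4.FX.Defs
import Pool.Agent.H738R3.CZ.TE

open Complex Set Filter Topology

namespace H719FX

open H738CZ

/-- derivative of `Mo` -/
lemma TE_dMo (k : ℕ) (hk : 1 ≤ k) (s : ℂ) (hs : 2 * s ^ k - 1 ∈ slitPlane) :
    HasDerivAt (Mo k) (-(cexp (-(log (2 * s ^ k - 1) / k)) / (2 * s ^ k - 1))) s := by
  have hne : 2 * s ^ k - 1 ≠ 0 := slitPlane_ne_zero hs
  have hk0 : (k : ℂ) ≠ 0 := by
    have : k ≠ 0 := by omega
    exact_mod_cast this
  have hpow : s * s ^ (k - 1) = s ^ k := by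
    rw [← pow_succ']
    congr 1
    omega
  have d1 : HasDerivAt (fun s : ℂ => 2 * s ^ k - 1) (2 * (k * s ^ (k - 1))) s :=
    ((hasDerivAt_pow k s).const_mul 2).sub_const 1
  have d2 := d1.clog hs
  have d3 := (d2.div_const (k : ℂ)).fun_neg.cexp
  have d4 := (hasDerivAt_id s).fun_mul d3
  have e : -(cexp (-(log (2 * s ^ k - 1) / k)) / (2 * s ^ k - 1)) =
      1 * cexp (-(log (2 * s ^ k - 1) / k)) + id s * (cexp (-(log (2 * s ^ k - 1) / k)) *
        -(2 * (k * s ^ (k - 1)) / (2 * s ^ k - 1) / k)) := by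
    have e1 : id s * (cexp (-(log (2 * s ^ k - 1) / k)) *
        -(2 * (k * s ^ (k - 1)) / (2 * s ^ k - 1) / k)) =
        cexp (-(log (2 * s ^ k - 1) / k)) * -(2 * s ^ k / (2 * s ^ k - 1)) := by
      rw [← hpow, id]
      field_simp
    rw [e1]
    field_simp
    ring
  rw [e]
  exact d4

/-- derivative of `Bm` -/
lemma TE_dB (p k : ℕ) (hp : 1 ≤ p) (hk : 1 ≤ k) (s : ℂ) : HasDerivAt (Bm p k) (Bd p k s) s := by
  have hk0 : (k : ℂ) ≠ 0 := by
    have : k ≠ 0 := by omega
    exact_mod_cast this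
  have d1 := ((hasDerivAt_pow p s).const_mul (((p : ℂ) + k) / k)).const_sub 1
  have d2 := (hasDerivAt_pow (p + k) s).const_mul ((p : ℂ) / k)
  have d3 := d1.fun_add d2
  have e : Bd p k s = -((((p : ℂ) + k) / k) * (p * s ^ (p - 1))) +
      (p : ℂ) / k * (((p + k : ℕ) : ℂ) * s ^ (p + k - 1)) := by
    have e1 : s ^ (p + k - 1) = s ^ (p - 1) * s ^ k := by
      rw [← pow_add]
      congr 1
      omega
    rw [e1, Bd]
    push_cast
    field_simp
    ring
  rw [e]
  exact d3

/-- derivative of `Bm ∘ Mo` -/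
lemma TE_dBM (p k : ℕ) (hp : 1 ≤ p) (hk : 1 ≤ k) (s : ℂ) (hs : 2 * s ^ k - 1 ∈ slitPlane) :
    HasDerivAt (fun y => Bm p k (Mo k y))
      (Bd p k s * cexp (-(((p : ℂ) + 2 * k) / k * log (2 * s ^ k - 1)))) s := by
  have hne : 2 * s ^ k - 1 ≠ 0 := slitPlane_ne_zero hs
  have hk0 : (k : ℂ) ≠ 0 := by
    have : k ≠ 0 := by omega
    exact_mod_cast this
  have d1 := (TE_dB p k hp hk (Mo k s)).comp s (TE_dMo k hk s hs)
  set Q := 2 * s ^ k - 1 with hQ
  set L := -(log Q / k) with hL
  have hLk : cexp L ^ k = Q⁻¹ := by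
    rw [← Complex.exp_nat_mul, hL]
    have : (k : ℂ) * -(log Q / k) = -log Q := by field_simp
    rw [this, Complex.exp_neg, Complex.exp_log hne]
  have hMo : Mo k s = s * cexp L := rfl
  have e : Bd p k s * cexp (-(((p : ℂ) + 2 * k) / k * log Q)) =
      Bd p k (Mo k s) * -(cexp L / Q) := by
    have e1 : cexp (-(((p : ℂ) + 2 * k) / k * log Q)) = cexp L ^ p * Q⁻¹ * Q⁻¹ := by
      rw [← hLk, ← pow_add, ← pow_add, ← Complex.exp_nat_mul, hL]
      congr 1
      push_cast
      field_simp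
      ring
    have e2 : cexp L ^ p = cexp L ^ (p - 1) * cexp L := by
      rw [← pow_succ]
      congr 1
      omega
    have e3 : s ^ k = (Q + 1) / 2 := by rw [hQ]; ring
    rw [e1, e2, hMo, Bd, Bd, mul_pow, mul_pow, hLk, e3]
    field_simp
    ring
  rw [e]
  exact d1

theorem tTE : StTE := by
  intro p k r c1 X W hp hk hL
  have hr := hL.r0
  have hk0 : (k : ℂ) ≠ 0 := by
    have : k ≠ 0 := by omega
    exact_mod_cast this
  have hc0 : (c1 : ℂ) ≠ 0 := by exact_mod_cast hL.c0.ne'
  have h0r : (0 : ℂ) ∈ Metric.ball (0 : ℂ) r := Metric.mem_ball_self hr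
  have hXa : AnalyticAt ℂ X 0 :=
    hL.dX.analyticAt (Metric.isOpen_ball.mem_nhds h0r)
  have hX0 := hL.X0
  have hWa := hL.aW
  have hsl1 : 2 * (1 : ℂ) ^ k - 1 ∈ slitPlane := by
    have : 2 * (1 : ℂ) ^ k - 1 = 1 := by rw [one_pow]; norm_num
    rw [this]
    exact one_mem_slitPlane
  -- analyticity
  have hLg : AnalyticAt ℂ (fun s : ℂ => log (2 * s ^ k - 1)) 1 := by
    apply AnalyticAt.clog
    · fun_prop
    · exact hsl1
  have hMo : AnalyticAt ℂ (Mo k) 1 := by
    unfold Mo
    exact analyticAt_id.mul (AnalyticAt.cexp (hLg.div analyticAt_const hk0).neg)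
  have hMo1 : Mo k 1 = 1 := by unfold Mo; norm_num
  have hMoX : AnalyticAt ℂ (fun w => Mo k (X w)) 0 := by
    apply AnalyticAt.fun_comp (g := Mo k) (f := X) (by rw [hX0]; exact hMo) hXa
  have hWMoX : AnalyticAt ℂ (fun w => W (Mo k (X w))) 0 := by
    apply AnalyticAt.fun_comp (g := W) (f := fun w => Mo k (X w)) (by rw [hX0, hMo1]; exact hWa)
      hMoX
  have hMc : AnalyticAt ℂ (Mc p k) 1 := by
    unfold Mc
    exact AnalyticAt.cexp (analyticAt_const.mul hLg)
  have hMcX : AnalyticAt ℂ (fun w => Mc p k (X w)) 0 := by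
    apply AnalyticAt.fun_comp (g := Mc p k) (f := X) (by rw [hX0]; exact hMc) hXa
  have dX : HasDerivAt X c1 0 := by
    have := hXa.differentiableAt.hasDerivAt
    rwa [hL.X1] at this
  have dQ : HasDerivAt (fun w => 2 * X w ^ k - 1) (2 * k * c1) 0 := by
    have d1 := ((dX.fun_pow k).const_mul 2).sub_const 1
    rw [hX0, one_pow] at d1
    have e : (2 * k * c1 : ℂ) = 2 * ((k : ℂ) * 1 * c1) := by ring
    rw [e]
    exact d1
  have dLg : HasDerivAt (fun w => log (2 * X w ^ k - 1)) (2 * k * c1) 0 := by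
    have h1 : 2 * X 0 ^ k - 1 ∈ slitPlane := hL.sl 0 h0r
    have d1 := dQ.clog h1
    rw [hX0, one_pow] at d1
    have e : (2 * k * c1 : ℂ) = 2 * k * c1 / (2 * 1 - 1) := by norm_num
    rw [e]
    exact d1
  refine ⟨hWMoX.neg, hMcX, ?_, ?_⟩
  · -- the return map
    obtain ⟨M, hM⟩ : ∃ M : ℂ → ℂ, M = fun w => - W (Mo k (X w)) := ⟨_, rfl⟩
    have hMa : AnalyticAt ℂ M 0 := by rw [hM]; exact hWMoX.neg
    have hM0 : M 0 = 0 := by rw [hM]; simp only [hX0, hMo1, hL.W0, neg_zero]
    have dW : HasDerivAt W (deriv W 1) 1 := hWa.differentiableAt.hasDerivAt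
    have hWc : deriv W 1 * c1 = 1 := by
      have d1 : HasDerivAt (fun w => W (X w)) (deriv W 1 * c1) 0 := by
        have := HasDerivAt.comp (h₂ := W) (h := X) (x := (0 : ℂ)) (h₂' := deriv W 1)
          (by rw [hX0]; exact dW) dX
        exact this
      have d2 : HasDerivAt (fun w : ℂ => W (X w)) 1 0 :=
        (hasDerivAt_id (0 : ℂ)).congr_of_eventuallyEq hL.WX
      exact d1.unique d2
    have hM1 : deriv M 0 = 1 := by
      have d1 : HasDerivAt (Mo k) (-1) 1 := by
        have := TE_dMo k hk 1 hsl1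
        rw [one_pow] at this
        have e : (-1 : ℂ) = -(cexp (-(log (2 * 1 - 1) / k)) / (2 * 1 - 1)) := by norm_num
        rw [e]
        exact this
      have d2 : HasDerivAt (fun w => Mo k (X w)) (-1 * c1) 0 := by
        have := HasDerivAt.comp (h₂ := Mo k) (h := X) (x := (0 : ℂ)) (h₂' := -1)
          (by rw [hX0]; exact d1) dX
        exact this
      have d3 : HasDerivAt (fun w => W (Mo k (X w))) (deriv W 1 * (-1 * c1)) 0 := by
        have := HasDerivAt.comp (h₂ := W) (h := fun w => Mo k (X w)) (x := (0 : ℂ))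
          (h₂' := deriv W 1) (by rw [hX0, hMo1]; exact dW) d2
        exact this
      have d4 : HasDerivAt M (-(deriv W 1 * (-1 * c1))) 0 := by
        rw [hM]; exact d3.fun_neg
      rw [d4.deriv]
      linear_combination hWc
    -- the function `E`
    obtain ⟨E, hE⟩ : ∃ E : ℂ → ℂ,
        E = fun w => cexp (-(((p : ℂ) + 2 * k) / k * log (2 * X w ^ k - 1))) := ⟨_, rfl⟩
    have dE : HasDerivAt E (-(2 * (p + 2 * k) * c1)) 0 := by
      have d1 := (dLg.const_mul (((p : ℂ) + 2 * k) / k)).fun_neg.cexp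
      have e : (-(2 * (p + 2 * k) * c1) : ℂ) = cexp (-(((p : ℂ) + 2 * k) / k *
          log (2 * X 0 ^ k - 1))) * -(((p : ℂ) + 2 * k) / k * (2 * k * c1)) := by
        rw [hX0, one_pow]
        norm_num
        field_simp
      rw [hE, e]
      exact d1
    -- `M² = Bm (Mo (X w))`
    have hBW : ∀ᶠ x in 𝓝 (1 : ℂ), Bm p k x = W x ^ 2 := by
      have h1 : ∀ᶠ x in 𝓝 (1 : ℂ), W x ∈ Metric.ball (0 : ℂ) r := by
        apply hWa.continuousAt.eventually
        rw [hL.W0]
        exact Metric.isOpen_ball.mem_nhds h0r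
      filter_upwards [h1, hL.XW] with x hx1 hx2
      have := hL.BX (W x) hx1
      rwa [hx2] at this
    have hMsq : ∀ᶠ w in 𝓝 (0 : ℂ), Bm p k (Mo k (X w)) = M w ^ 2 := by
      have h1 : Tendsto (fun w => Mo k (X w)) (𝓝 0) (𝓝 1) := by
        have := hMoX.continuousAt.tendsto
        rwa [hX0, hMo1] at this
      filter_upwards [h1.eventually hBW] with w hw
      rw [hw, hM, neg_sq]
    -- the differential equation
    have hODE : ∀ᶠ w in 𝓝 (0 : ℂ), M w * deriv M w = w * E w := by
      filter_upwards [hMsq.eventually_nhds, Metric.isOpen_ball.mem_nhds h0r,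
        hMa.eventually_analyticAt] with w hw1 hwr hMw
      have hXw : HasDerivAt X (deriv X w) w :=
        ((hL.dX w hwr).differentiableAt (Metric.isOpen_ball.mem_nhds hwr)).hasDerivAt
      have d1 : HasDerivAt (fun w => Bm p k (X w)) (Bd p k (X w) * deriv X w) w :=
        (TE_dB p k hp hk (X w)).comp w hXw
      have d2 : HasDerivAt (fun w => Bm p k (X w)) (2 * w) w := by
        have h1 : HasDerivAt (fun w : ℂ => w ^ 2) (2 * w) w := by
          have := hasDerivAt_pow 2 w
          simpa using this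
        refine h1.congr_of_eventuallyEq ?_
        filter_upwards [Metric.isOpen_ball.mem_nhds hwr] with v hv
        exact hL.BX v hv
      have e1 := d1.unique d2
      have d3 : HasDerivAt (fun w => Bm p k (Mo k (X w)))
          (Bd p k (X w) * cexp (-(((p : ℂ) + 2 * k) / k * log (2 * X w ^ k - 1))) * deriv X w) w :=
        HasDerivAt.comp (h₂ := fun y => Bm p k (Mo k y)) (h := X) w
          (TE_dBM p k hp hk (X w) (hL.sl w hwr)) hXw
      have d4 : HasDerivAt (fun w => Bm p k (Mo k (X w))) (2 * M w * deriv M w) w := by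
        have h1 : HasDerivAt (fun w : ℂ => M w ^ 2) (2 * M w * deriv M w) w := by
          have := hMw.differentiableAt.hasDerivAt.fun_pow 2
          simpa using this
        exact h1.congr_of_eventuallyEq hw1
      have e2 := d3.unique d4
      have e3 : E w = cexp (-(((p : ℂ) + 2 * k) / k * log (2 * X w ^ k - 1))) := by rw [hE]
      rw [e3]
      linear_combination (-1 / 2 : ℂ) * e2 +
        (1 / 2 : ℂ) * cexp (-(((p : ℂ) + 2 * k) / k * log (2 * X w ^ k - 1))) * e1
    -- division by `w`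
    obtain ⟨N, hN⟩ : ∃ N : ℂ → ℂ, N = dslope M 0 := ⟨_, rfl⟩
    have hNa : AnalyticAt ℂ N 0 := by
      obtain ⟨q, hq⟩ := hMa
      rw [hN]
      exact hq.has_fpower_series_dslope_fslope.analyticAt
    have hMN : ∀ w, M w = w * N w := by
      intro w
      have := sub_smul_dslope M 0 w
      rw [hM0, smul_eq_mul, sub_zero, sub_zero] at this
      rw [hN, this]
    have hN0 : N 0 = 1 := by rw [hN, dslope_same, hM1]
    have hNE : ∀ᶠ w in 𝓝 (0 : ℂ), N w * (N w + w * deriv N w) = E w := by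
      have hd : ∀ᶠ w in 𝓝 (0 : ℂ), deriv M w = N w + w * deriv N w := by
        filter_upwards [hNa.eventually_analyticAt] with w hw
        have h1 : M = fun w => w * N w := funext hMN
        have h2 : HasDerivAt (fun w => w * N w) (1 * N w + w * deriv N w) w :=
          (hasDerivAt_id w).fun_mul hw.differentiableAt.hasDerivAt
        rw [h1, h2.deriv, one_mul]
      have hpt : ∀ᶠ w in 𝓝[≠] (0 : ℂ), N w * (N w + w * deriv N w) = E w := by
        filter_upwards [nhdsWithin_le_nhds hd, nhdsWithin_le_nhds hODE, self_mem_nhdsWithin]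
          with w h1 h2 h3
        have h4 : w ≠ 0 := h3
        rw [h1, hMN w] at h2
        have h5 : w * (N w * (N w + w * deriv N w)) = w * E w := by linear_combination h2
        exact mul_left_cancel₀ h4 h5
      have h0 : N 0 * (N 0 + 0 * deriv N 0) = E 0 := by
        rw [hN0, hE]
        simp only [hX0, one_pow]
        norm_num
      rw [eventually_nhdsWithin_iff] at hpt
      filter_upwards [hpt] with w hw
      by_cases h : w = 0
      · rw [h]; exact h0
      · exact hw h
    have hb : deriv N 0 = -((2 * (p : ℂ) + 4 * k) / 3 * c1) := by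
      have dN : HasDerivAt N (deriv N 0) 0 := hNa.differentiableAt.hasDerivAt
      have dN' : HasDerivAt (deriv N) (deriv (deriv N) 0) 0 :=
        hNa.deriv.differentiableAt.hasDerivAt
      have d1 := dN.fun_mul (dN.fun_add ((hasDerivAt_id (0 : ℂ)).fun_mul dN'))
      have d2 : HasDerivAt (fun w => N w * (N w + w * deriv N w)) (-(2 * (p + 2 * k) * c1)) 0 :=
        dE.congr_of_eventuallyEq hNE
      have e1 := HasDerivAt.unique d1 d2
      rw [hN0] at e1
      simp only [id] at e1
      linear_combination (1 / 3 : ℂ) * e1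
    obtain ⟨b', g, hg, hNT⟩ := TE_T N 0 hNa
    have hfin : (fun w : ℂ => - W (Mo k (X w)) - (w - ((2 * (p : ℂ) + 4 * k) / 3 * c1) * w ^ 2)) =
        fun w => w ^ 3 * (b' + w * g w) := by
      funext w
      have e1 : - W (Mo k (X w)) = M w := by rw [hM]
      rw [e1, hMN w, hNT w, hN0, hb]
      ring
    rw [hfin]
    have : (fun w : ℂ => w ^ 3 * (b' + w * g w)) =O[𝓝 0] (fun w => w ^ 3 * (1 : ℂ)) := by
      refine (Asymptotics.isBigO_refl _ _).mul ?_
      have : ContinuousAt (fun w => b' + w * g w) 0 :=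
        continuousAt_const.add (continuousAt_id.mul hg)
      exact this.tendsto.isBigO_one ℂ
    simpa using this
  · obtain ⟨b, g, hg, hF⟩ := TE_T (fun w => Mc p k (X w)) 0 hMcX
    have h1 : Mc p k (X 0) = 1 := by
      rw [hX0]; unfold Mc; norm_num
    have h2 : deriv (fun w => Mc p k (X w)) 0 = 2 * ((2 * (p : ℂ) + 4 * k) / 3 * c1) := by
      have d3 := (dLg.const_mul ((2 * (p : ℂ) + 4 * k) / (3 * k))).cexp
      have : deriv (fun w => Mc p k (X w)) 0 = _ := d3.deriv
      rw [this, hX0, one_pow]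
      norm_num
      field_simp
    simp only [h1, h2] at hF
    have : (fun w : ℂ => Mc p k (X w) - (1 + 2 * ((2 * (p : ℂ) + 4 * k) / 3 * c1) * w))
        =O[𝓝 0] (fun w => w ^ 2 * (1 : ℂ)) := by
      have e : (fun w : ℂ => Mc p k (X w) - (1 + 2 * ((2 * (p : ℂ) + 4 * k) / 3 * c1) * w))
        = fun w => w ^ 2 * (b + w * g w) := by
        funext w
        rw [hF w]; ring
      rw [e]
      refine (Asymptotics.isBigO_refl _ _).mul ?_
      have : ContinuousAt (fun w => b + w * g w) 0 :=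
        continuousAt_const.add (continuousAt_id.mul hg)
      exact this.tendsto.isBigO_one ℂ
    simpa using this

end H719FX
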