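import Pool.Agent.H719R4.FX.Defs

/-!
Task TT: contraction along trajectories.
-/

open Complex Set Filter Topology

namespace H719FX

open H738CZ

/-- the factor in the derivative of `Bm ∘ Mo` -/
noncomputable def TT_fac (p k : ℕ) (s : ℂ) : ℂ :=
  cexp (-(((p : ℂ) + 2 * k) / k * log (2 * s ^ k - 1)))

theorem TT_fac_le (p k : ℕ) (s : ℂ) (h : 1 ≤ ‖2 * s ^ k - 1‖) : ‖TT_fac p k s‖ ≤ 1 := by
  unfold TT_fac
  rw [Complex.norm_exp, Real.exp_le_one_iff, Complex.neg_re]
  have e : ((p : ℂ) + 2 * k) / k = (((p : ℝ) + 2 * k) / k : ℝ) := by push_cast; rfl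
  rw [e, Complex.re_ofReal_mul, Complex.log_re]
  have h1 : 0 ≤ Real.log ‖2 * s ^ k - 1‖ := Real.log_nonneg h
  have h2 : 0 ≤ ((p : ℝ) + 2 * k) / k := by positivity
  have := mul_nonneg h2 h1
  linarith

theorem tTT (hVA : StVA) (hVB : StVB) : StTT := by
  intro p k x0 x hp hk hT hne hlt s hs
  have hA := hVA p k hp hk
  have hB := hVB p k hp hk
  set φ : ℝ → ℂ := fun s => Bm p k (Mo k (x s)) with hφ
  have hder : ∀ t, 0 ≤ t →
      HasDerivWithinAt φ (TT_fac p k (x t) * Bm p k (x t)) (Ici 0) t := by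
    intro t ht
    have hm := hT.mem t ht
    have h2 := hB.dM (x t) (hA.sl (x t) hm)
    have h3 := hT.der t ht
    have h4 := h2.comp_hasDerivWithinAt t h3
    have h5 := hB.vB (x t) hm
    have h6 : Bd p k (x t) * cexp (-(((p : ℂ) + 2 * k) / k * log (2 * x t ^ k - 1))) *
        vf p k (x t) = TT_fac p k (x t) * Bm p k (x t) := by
      rw [← h5]
      unfold TT_fac
      ring
    rw [h6] at h4
    exact h4
  have hcont : ContinuousOn φ (Icc 0 s) := by
    intro t ht
    exact ((hder t ht.1).continuousWithinAt).mono Icc_subset_Ici_self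
  have hnorm : ∀ t, 0 ≤ t → ‖Bm p k (x t)‖ = Real.exp t * ‖Bm p k x0‖ := by
    intro t ht
    rw [hT.val t ht, norm_mul, Complex.norm_real, Real.norm_eq_abs, abs_of_pos (Real.exp_pos t)]
  have key := image_norm_le_of_norm_deriv_right_le_deriv_boundary (f := φ)
    (f' := fun t => TT_fac p k (x t) * Bm p k (x t)) (a := 0) (b := s) hcont
    (fun t ht => (hder t ht.1).mono (Ici_subset_Ici.2 ht.1))
    (B := fun t => ‖φ 0‖ + (Real.exp t - 1) * ‖Bm p k x0‖)
    (B' := fun t => Real.exp t * ‖Bm p k x0‖) (by simp)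
    (fun t => by
      have := ((((Real.hasDerivAt_exp t).sub_const 1).mul_const ‖Bm p k x0‖).const_add ‖φ 0‖)
      exact this)
    (fun t ht => by
      have h1 := hA.ge (x t) (hT.mem t ht.1)
      rw [norm_mul, hnorm t ht.1]
      exact mul_le_of_le_one_left (by positivity) (TT_fac_le p k (x t) h1))
    (right_mem_Icc.2 hs)
  have h0 : φ 0 = Bm p k (Mo k x0) := by
    rw [hφ]
    simp only
    rw [hT.ini]
  rw [h0] at key
  rw [hnorm s hs]
  have h6 : ‖φ s‖ = ‖Bm p k (Mo k (x s))‖ := rfl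
  rw [← h6]
  linarith

end H719FX
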