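import Pool.Agent.H719R4.FX.Defs

/-!
# Task VA: identities and inequalities for the model, first part
-/

open Complex Set Filter Topology

namespace H719FX

open H738CZ

theorem VA_deriv (p k : ℕ) (hp : 1 ≤ p) (hk : 1 ≤ k) (s : ℂ) :
    HasDerivAt (Bm p k) (Bd p k s) s := by
  have hk0 : (k : ℂ) ≠ 0 := by exact_mod_cast (by omega : k ≠ 0)
  have h1 : HasDerivAt (fun y : ℂ => y ^ p) ((p : ℂ) * s ^ (p - 1)) s := hasDerivAt_pow p s
  have h2 : HasDerivAt (fun y : ℂ => y ^ (p + k)) (((p + k : ℕ) : ℂ) * s ^ (p + k - 1)) s :=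
    hasDerivAt_pow (p + k) s
  have h3 := ((h1.const_mul (((p : ℂ) + k) / k)).const_sub 1).add (h2.const_mul ((p : ℂ) / k))
  have h4 : HasDerivAt (Bm p k) (-((((p : ℂ) + k) / k) * ((p : ℂ) * s ^ (p - 1)))
      + ((p : ℂ) / k) * (((p + k : ℕ) : ℂ) * s ^ (p + k - 1))) s := h3
  convert h4 using 1
  unfold Bd
  have e : s ^ (p + k - 1) = s ^ (p - 1) * s ^ k := by
    rw [← pow_add]
    congr 1
    omega
  rw [e]
  push_cast
  field_simp
  ring

theorem VA_norm (x : ℂ) (hx : 1 ≤ ‖x‖) : 2 * ‖x‖ - 1 ≤ ‖2 * x - 1‖ := by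
  have h1 : ‖(2 : ℂ) * x‖ = 2 * ‖x‖ := by rw [norm_mul]; simp
  have h2 : ‖(2 : ℂ) * x‖ - ‖(1 : ℂ)‖ ≤ ‖2 * x - 1‖ := norm_sub_norm_le _ _
  rwa [h1, norm_one] at h2

theorem VA_strict (x : ℂ) (hx : 1 ≤ ‖x‖) (hx1 : x ≠ 1) : 1 < ‖2 * x - 1‖ := by
  by_contra hcon
  push Not at hcon
  apply hx1
  have h1 : (1 : ℝ) ≤ x.re ^ 2 + x.im ^ 2 := by
    have h2 : ‖x‖ ^ 2 = x.re ^ 2 + x.im ^ 2 := by
      rw [Complex.sq_norm, Complex.normSq_apply]; ring
    rw [← h2]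
    nlinarith
  have h3 : (2 * x.re - 1) ^ 2 + (2 * x.im) ^ 2 ≤ 1 := by
    have h4 : ‖2 * x - 1‖ ^ 2 = (2 * x.re - 1) ^ 2 + (2 * x.im) ^ 2 := by
      rw [Complex.sq_norm, Complex.normSq_apply]
      simp
      ring
    rw [← h4]
    have := norm_nonneg (2 * x - 1)
    nlinarith
  have h5 : 1 ≤ x.re := by nlinarith
  have h6 : x.re = 1 := by nlinarith [sq_nonneg x.im]
  have h7 : x.im = 0 := by
    rw [h6] at h3
    nlinarith [sq_nonneg x.im]
  apply Complex.ext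
  · simpa using h6
  · simpa using h7

/-- powers in the sector -/
theorem VA_arg (p k : ℕ) (hp : 1 ≤ p) (hk : 1 ≤ k) (s : ℂ) (hs : s ∈ Dm p k)
    (him : (s ^ k).im = 0) : s = (‖s‖ : ℂ) := by
  obtain ⟨h1, h2⟩ := hs
  have hs0 : 0 < ‖s‖ := by linarith
  have hpol : s = ‖s‖ * cexp (arg s * I) := (Complex.norm_mul_exp_arg_mul_I s).symm
  have hpow : s ^ k = ((‖s‖ ^ k : ℝ) : ℂ) * cexp (((k * arg s : ℝ) : ℂ) * I) := by
    conv_lhs => rw [hpol]
    rw [mul_pow, ← Complex.exp_nat_mul]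
    push_cast
    ring_nf
  have him2 : (s ^ k).im = ‖s‖ ^ k * Real.sin (k * arg s) := by
    rw [hpow, Complex.im_ofReal_mul, Complex.exp_ofReal_mul_I_im]
  rw [him2] at him
  have hsin : Real.sin (k * arg s) = 0 := by
    rcases mul_eq_zero.1 him with h | h
    · exact absurd h (pow_pos hs0 k).ne'
    · exact h
  have hkR : (1 : ℝ) ≤ k := by exact_mod_cast hk
  have hpR : (1 : ℝ) ≤ p := by exact_mod_cast hp
  have hlt : |k * arg s| < Real.pi := by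
    rw [abs_mul, abs_of_nonneg (by linarith : (0:ℝ) ≤ k)]
    calc (k : ℝ) * |arg s| ≤ k * (Real.pi / (p + k)) :=
          mul_le_mul_of_nonneg_left h2 (by linarith)
      _ < Real.pi := by
          rw [mul_div_assoc', div_lt_iff₀ (by linarith)]
          nlinarith [Real.pi_pos]
  have hz : (k : ℝ) * arg s = 0 :=
    (Real.sin_eq_zero_iff_of_lt_of_lt (abs_lt.1 hlt).1 (abs_lt.1 hlt).2).1 hsin
  have harg : arg s = 0 := by
    rcases mul_eq_zero.1 hz with h | h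
    · exfalso
      linarith
    · exact h
  conv_lhs => rw [hpol]
  rw [harg]
  simp

theorem VA_sl (p k : ℕ) (hp : 1 ≤ p) (hk : 1 ≤ k) (s : ℂ) (hs : s ∈ Dm p k) :
    2 * s ^ k - 1 ∈ slitPlane := by
  rw [Complex.mem_slitPlane_iff]
  by_contra hcon
  push Not at hcon
  obtain ⟨h1, h2⟩ := hcon
  have him : (s ^ k).im = 0 := by
    simp only [Complex.sub_im, Complex.mul_im, Complex.re_ofNat, Complex.im_ofNat,
      Complex.one_im] at h2
    linarith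
  have hs' := VA_arg p k hp hk s hs him
  have h3 : s ^ k = ((‖s‖ ^ k : ℝ) : ℂ) := by
    conv_lhs => rw [hs']
    push_cast
    rfl
  rw [h3] at h1
  have h4 : (1 : ℝ) ≤ ‖s‖ ^ k := one_le_pow₀ hs.1
  have h5 : (2 * ((‖s‖ ^ k : ℝ) : ℂ) - 1).re = 2 * ‖s‖ ^ k - 1 := by
    rw [Complex.sub_re, Complex.one_re, Complex.re_mul_ofReal]
    simp
  rw [h5] at h1
  linarith

theorem VA_gt (p k : ℕ) (hp : 1 ≤ p) (hk : 1 ≤ k) (s : ℂ) (hs : s ∈ Dm p k) (h : s ≠ 1) :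
    s ^ k ≠ 1 ∧ 1 < ‖2 * s ^ k - 1‖ := by
  have h1 : s ^ k ≠ 1 := by
    intro h2
    apply h
    have him : (s ^ k).im = 0 := by rw [h2]; simp
    have hs' := VA_arg p k hp hk s hs him
    have h3 : ‖s‖ ^ k = 1 := by
      rw [← norm_pow, h2, norm_one]
    have h4 : ‖s‖ = 1 := by
      rwa [pow_eq_one_iff_of_nonneg (norm_nonneg s) (by omega)] at h3
    rw [hs', h4]
    simp
  refine ⟨h1, VA_strict _ ?_ h1⟩
  rw [norm_pow]
  exact one_le_pow₀ hs.1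

theorem VA_mo (p k : ℕ) (hp : 1 ≤ p) (hk : 1 ≤ k) (s : ℂ) (hs : s ∈ Dm p k) :
    ‖Mo k s‖ ≤ 1 := by
  have hs0 : 0 < ‖s‖ := lt_of_lt_of_le one_pos hs.1
  have hkR : (0 : ℝ) < k := by exact_mod_cast (by omega : 0 < k)
  unfold Mo
  rw [norm_mul, Complex.norm_exp]
  have e1 : (-(log (2 * s ^ k - 1) / (k : ℂ))).re = -(Real.log ‖2 * s ^ k - 1‖ / k) := by
    rw [Complex.neg_re, Complex.div_natCast_re, Complex.log_re]
  rw [e1]
  have h1 : ‖s‖ ^ k ≤ ‖2 * s ^ k - 1‖ := by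
    have h2 : (1 : ℝ) ≤ ‖s ^ k‖ := by
      rw [norm_pow]
      exact one_le_pow₀ hs.1
    have h3 := VA_norm (s ^ k) h2
    rw [← norm_pow]
    linarith
  have h4 : Real.log ‖s‖ ≤ Real.log ‖2 * s ^ k - 1‖ / k := by
    rw [le_div_iff₀ hkR, mul_comm, ← Real.log_pow]
    exact Real.log_le_log (pow_pos hs0 k) h1
  calc ‖s‖ * Real.exp (-(Real.log ‖2 * s ^ k - 1‖ / k))
      ≤ ‖s‖ * Real.exp (-Real.log ‖s‖) := by
        refine mul_le_mul_of_nonneg_left (Real.exp_le_exp.2 (by linarith)) hs0.le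
    _ = 1 := by
        rw [Real.exp_neg, Real.exp_log hs0, mul_inv_cancel₀ hs0.ne']

theorem VA_cj (p k : ℕ) (s : ℂ) :
    Bm p k ((starRingEnd ℂ) s) = (starRingEnd ℂ) (Bm p k s) := by
  unfold Bm
  simp only [map_add, map_sub, map_one, map_mul, map_div₀, map_pow, map_natCast]

theorem tVA : StVA := by
  intro p k hp hk
  refine ⟨VA_deriv p k hp hk, VA_sl p k hp hk, ?_, VA_gt p k hp hk, VA_mo p k hp hk, VA_cj p k⟩
  intro s hs
  have h2 : (1 : ℝ) ≤ ‖s ^ k‖ := by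
    rw [norm_pow]
    exact one_le_pow₀ hs.1
  have h3 := VA_norm (s ^ k) h2
  linarith

end H719FX
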