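import Pool.Agent.H719R4.FX.Defs

/-!
# VB: identities for the model, second part
-/

open Complex Set Filter Topology

namespace H719FX

open H738CZ

theorem VB_mo (k : ℕ) (hk : 1 ≤ k) (s : ℂ) (hs : 2 * s ^ k - 1 ∈ slitPlane) :
    HasDerivAt (Mo k) (-(cexp (-(log (2 * s ^ k - 1) / k)) * cexp (-log (2 * s ^ k - 1)))) s := by
  have hk0 : (k : ℂ) ≠ 0 := by exact_mod_cast (by omega : k ≠ 0)
  have hne : 2 * s ^ k - 1 ≠ 0 := slitPlane_ne_zero hs
  have h1 : HasDerivAt (fun y : ℂ => 2 * y ^ k - 1) (2 * (k * s ^ (k - 1))) s :=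
    ((hasDerivAt_pow k s).const_mul 2).sub_const 1
  have h2 : HasDerivAt (fun y : ℂ => log (2 * y ^ k - 1))
      (2 * (k * s ^ (k - 1)) / (2 * s ^ k - 1)) s := h1.clog hs
  have h3 : HasDerivAt (fun y : ℂ => cexp (-(log (2 * y ^ k - 1) / k)))
      (cexp (-(log (2 * s ^ k - 1) / k)) * -(2 * (k * s ^ (k - 1)) / (2 * s ^ k - 1) / k)) s :=
    ((h2.div_const (k : ℂ)).neg).cexp
  have h4 := (hasDerivAt_id s).mul h3
  refine HasDerivAt.congr_deriv (f := Mo k) (f' := 1 * cexp (-(log (2 * s ^ k - 1) / k)) +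
      s * (cexp (-(log (2 * s ^ k - 1) / k)) *
        -(2 * (k * s ^ (k - 1)) / (2 * s ^ k - 1) / k))) ?_ ?_
  · exact h4
  · have h5 : s * s ^ (k - 1) = s ^ k := by
      rw [← pow_succ']
      congr 1
      omega
    have h6 : cexp (-log (2 * s ^ k - 1)) = (2 * s ^ k - 1)⁻¹ := by
      rw [Complex.exp_neg, Complex.exp_log hne]
    rw [h6]
    have h7 : s * (cexp (-(log (2 * s ^ k - 1) / k)) *
        -(2 * (k * s ^ (k - 1)) / (2 * s ^ k - 1) / k)) =
        -(cexp (-(log (2 * s ^ k - 1) / k)) * (2 * s ^ k * (2 * s ^ k - 1)⁻¹)) := by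
      rw [← h5]
      field_simp
    rw [h7]
    have h8 : 2 * s ^ k * (2 * s ^ k - 1)⁻¹ = 1 + (2 * s ^ k - 1)⁻¹ := by
      field_simp
      ring
    rw [h8]
    ring

theorem VB_dM (hVA : StVA) (p k : ℕ) (hp : 1 ≤ p) (hk : 1 ≤ k) (s : ℂ)
    (hs : 2 * s ^ k - 1 ∈ slitPlane) :
    HasDerivAt (fun y => Bm p k (Mo k y))
      (Bd p k s * cexp (-(((p : ℂ) + 2 * k) / k * log (2 * s ^ k - 1)))) s := by
  have hk0 : (k : ℂ) ≠ 0 := by exact_mod_cast (by omega : k ≠ 0)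
  have hne : 2 * s ^ k - 1 ≠ 0 := slitPlane_ne_zero hs
  have h1 := ((hVA p k hp hk).dB (Mo k s)).comp s (VB_mo k hk s hs)
  refine h1.congr_deriv ?_
  obtain ⟨e, he⟩ : ∃ e : ℂ, e = cexp (-(log (2 * s ^ k - 1) / k)) := ⟨_, rfl⟩
  obtain ⟨E, hE⟩ : ∃ E : ℂ, E = cexp (-log (2 * s ^ k - 1)) := ⟨_, rfl⟩
  have hek : e ^ k = E := by
    rw [he, hE, ← Complex.exp_nat_mul]
    congr 1
    field_simp
  have hE1 : E * (2 * s ^ k - 1) = 1 := by
    rw [hE, Complex.exp_neg, Complex.exp_log hne, inv_mul_cancel₀ hne]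
  have hfin : cexp (-(((p : ℂ) + 2 * k) / k * log (2 * s ^ k - 1))) = e ^ p * E ^ 2 := by
    rw [he, hE, ← Complex.exp_nat_mul, ← Complex.exp_nat_mul, ← Complex.exp_add]
    congr 1
    push_cast
    field_simp
    ring
  have hMo : Mo k s = s * e := by rw [he]; rfl
  rw [hfin, ← he, ← hE, hMo]
  unfold Bd
  rw [mul_pow, mul_pow, hek]
  have h2 : s ^ k * E - 1 = E * (1 - s ^ k) := by linear_combination hE1
  have h3 : e ^ (p - 1) * e = e ^ p := by
    rw [← pow_succ]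
    congr 1
    omega
  rw [h2, ← h3]
  ring

theorem tVB (hVA : StVA) : StVB := by
  intro p k hp hk
  have hk0 : (k : ℂ) ≠ 0 := by exact_mod_cast (by omega : k ≠ 0)
  have hp0 : (p : ℂ) ≠ 0 := by exact_mod_cast (by omega : p ≠ 0)
  have hpk : (p : ℂ) + k ≠ 0 := by exact_mod_cast (by omega : p + k ≠ 0)
  have hnz : ∀ s ∈ Dm p k, ∑ i ∈ Finset.range k, (s⁻¹) ^ i ≠ 0 := by
    intro s hs h0
    by_cases h1 : s = 1
    · rw [h1] at h0
      simp at h0
      omega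
    · have h2 := ((hVA p k hp hk).gt s hs h1).1
      apply h2
      have h3 := mul_neg_geom_sum (s⁻¹) k
      rw [h0, mul_zero] at h3
      have h4 : (s⁻¹) ^ k = 1 := by linear_combination h3
      rw [inv_pow, inv_eq_one] at h4
      exact h4
  refine ⟨fun s hs => VB_dM hVA p k hp hk s hs, hnz, ?_⟩
  intro s hs
  have hs0 : s ≠ 0 := by
    intro h
    have := hs.1
    rw [h, norm_zero] at this
    linarith
  have hS := hnz s hs
  obtain ⟨v, hv⟩ : ∃ v : ℂ, v = s⁻¹ := ⟨_, rfl⟩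
  have hsv : s * v = 1 := by rw [hv]; exact mul_inv_cancel₀ hs0
  rw [← hv] at hS
  have hsvk : s ^ k * v ^ k = 1 := by rw [← mul_pow, hsv, one_pow]
  have hsvp : s ^ p * v ^ p = 1 := by rw [← mul_pow, hsv, one_pow]
  have g1 := mul_neg_geom_sum v k
  have g2 := mul_neg_geom_sum v p
  unfold vf hf Bd Bm
  rw [← hv]
  generalize (∑ i ∈ Finset.range k, v ^ i) = S at *
  generalize (∑ i ∈ Finset.range p, v ^ i) = T at *
  have h5 : s * s ^ (p - 1) = s ^ p := by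
    rw [← pow_succ']
    congr 1
    omega
  have h6 : s * (1 / ((p : ℂ) + k) - (k : ℂ) / (p * (p + k)) * v ^ k * T / S) *
      ((p : ℂ) * (p + k) / k * s ^ (p - 1) * (s ^ k - 1)) =
      (p : ℂ) / k * s ^ p * (s ^ k - 1) - (s ^ p * ((s ^ k - 1) * v ^ k) * T / S) := by
    rw [← h5]
    field_simp
  have h7 : s ^ p * ((s ^ k - 1) * v ^ k) * T / S = s ^ p - 1 := by
    have h8 : (s ^ k - 1) * v ^ k = (1 - v) * S := by
      rw [g1]
      linear_combination hsvk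
    rw [h8, div_eq_iff hS]
    linear_combination (s ^ p * S) * g2 - S * hsvp
  rw [h6, h7, pow_add]
  field_simp
  ring

end H719FX
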