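import Pool.Agent.H719R4.FX.Geo
import Pool.Agent.H738R3.CZ.WT

/-!
# WT: pole order of the inhomogeneous term
-/

open Complex Set Filter Topology

namespace H719FX

open H738CZ

theorem WT_kDD {R : ℝ} {k : ℕ} (hk : 1 ≤ k) {w : ℤ} {f : ℂ → ℂ} (hf : WT_W R w f) :
    WT_W R (w + 3 * k) (DD (dk k) f) := by
  obtain ⟨F, h1, h2⟩ := hf
  have hd := h1.deriv Metric.isOpen_ball
  have hk0 : (k : ℂ) ≠ 0 := Nat.cast_ne_zero.2 (by omega)
  refine ⟨fun t => (deriv F t * t - w * F t) / (3 * k),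
    ((hd.mul differentiableOn_id).sub (h1.const_mul _)).div_const (3 * k), fun τ hτ => ?_⟩
  have h0 := WT_ne hτ
  have hev : f =ᶠ[𝓝 τ] fun s => F s * s ^ (-w) := by
    filter_upwards [(WT_open R).mem_nhds hτ] with s hs
    have hs0 := WT_ne hs
    rw [← h2 s hs, mul_assoc, ← zpow_add₀ hs0, add_neg_cancel, zpow_zero, mul_one]
  have hF : HasDerivAt F (deriv F τ) τ :=
    (h1.differentiableAt (Metric.isOpen_ball.mem_nhds (WT_ball hτ))).hasDerivAt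
  have hz := hasDerivAt_zpow (-w) τ (Or.inl h0)
  have h3 : deriv f τ = deriv F τ * τ ^ (-w) + F τ * (((-w : ℤ) : ℂ) * τ ^ (-w - 1)) := by
    rw [hev.deriv_eq]
    exact (hF.mul hz).deriv
  show deriv f τ / (3 * k * τ ^ (3 * k - 1)) * τ ^ (w + 3 * k) = (deriv F τ * τ - w * F τ) / (3 * k)
  have ha : τ ^ w ≠ 0 := zpow_ne_zero _ h0
  have e1 : τ ^ (-w) = (τ ^ w)⁻¹ := zpow_neg τ w
  have e2 : τ ^ (-w - 1) = (τ ^ w)⁻¹ * τ⁻¹ := by
    rw [zpow_sub₀ h0, zpow_neg, zpow_one, div_eq_mul_inv]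
  have e3 : τ ^ (w + 3 * k) = τ ^ w * (τ ^ (3 * k - 1) * τ) := by
    rw [zpow_add₀ h0, ← pow_succ]
    congr 1
    rw [← zpow_natCast]
    congr 1
    omega
  have hp : τ ^ (3 * k - 1) ≠ 0 := pow_ne_zero _ h0
  rw [h3, e1, e2, e3]
  push_cast
  field_simp
  ring

theorem WT_kDDl {R : ℝ} {k : ℕ} (hk : 1 ≤ k) {w : ℤ} {f : ℂ → ℂ} (hf : WT_W R w f) (l : ℕ) :
    WT_W R (w + 3 * k * l) ((DD (dk k))^[l] f) := by
  induction l with
  | zero => simpa using hf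
  | succ l ih =>
    rw [Function.iterate_succ_apply']
    have h1 := WT_kDD hk ih
    have e : w + 3 * k * ((l + 1 : ℕ) : ℤ) = w + 3 * k * l + 3 * k := by push_cast; ring
    rw [e]
    exact h1

/-- weight of a family of power series -/
def WT_kP (R : ℝ) (k : ℕ) (w : ℤ) (P : ℂ → PowerSeries ℂ) : Prop :=
  ∀ n : ℕ, WT_W R (w + 3 * k * n) (fun t => PowerSeries.coeff n (P t))

theorem WT_kPmul {R : ℝ} {k : ℕ} {w w' : ℤ} {P P' : ℂ → PowerSeries ℂ} (h : WT_kP R k w P)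
    (h' : WT_kP R k w' P') : WT_kP R k (w + w') (fun t => P t * P' t) := by
  intro n
  have h3 : ∀ p ∈ (Finset.HasAntidiagonal.antidiagonal n : Finset (ℕ × ℕ)),
      WT_W R (w + w' + 3 * k * n)
        (fun t => PowerSeries.coeff p.1 (P t) * PowerSeries.coeff p.2 (P' t)) := by
    intro p hp
    rw [Finset.HasAntidiagonal.mem_antidiagonal] at hp
    have h2 := WT_mul (h p.1) (h' p.2)
    have e : w + w' + 3 * k * (n : ℤ) = w + 3 * k * (p.1 : ℤ) + (w' + 3 * k * (p.2 : ℤ)) := by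
      rw [← hp]; push_cast; ring
    rw [e]
    exact h2
  have h1 := WT_sum (Finset.HasAntidiagonal.antidiagonal n : Finset (ℕ × ℕ))
    (fun p t => PowerSeries.coeff p.1 (P t) * PowerSeries.coeff p.2 (P' t)) h3
  refine WT_congr (fun t _ => ?_) h1
  exact PowerSeries.coeff_mul n (P t) (P' t)

theorem WT_kPpow {R : ℝ} {k : ℕ} {w : ℤ} {P : ℂ → PowerSeries ℂ} (h : WT_kP R k w P) (j : ℕ) :
    WT_kP R k (j * w) (fun t => P t ^ j) := by
  induction j with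
  | zero =>
    intro n
    by_cases hn : n = 0
    · subst hn
      have h1 := WT_one R
      simpa using h1
    · refine WT_congr (fun t _ => ?_) (WT_zero R _)
      simp [PowerSeries.coeff_one, hn]
  | succ j ih =>
    have h1 := WT_kPmul ih h
    have e : ((j + 1 : ℕ) : ℤ) * w = j * w + w := by push_cast; ring
    rw [e]
    intro n
    refine WT_congr (fun t _ => ?_) (h1 n)
    simp only [pow_succ]

theorem WT_kEs {R : ℝ} {k : ℕ} (hk : 1 ≤ k) {w : ℤ} {f : ℂ → ℂ} (hf : WT_W R w f) :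
    WT_kP R k w (fun t => Es (dk k) f t) := by
  intro l
  refine WT_congr (fun t _ => ?_) (WT_smul ((l.factorial : ℂ)⁻¹) (WT_kDDl hk hf l))
  simp only [Es, PowerSeries.coeff_mk]
  ring

theorem WT_kYs {kc : ℕ → ℂ} (hker : Ker kc) {R : ℝ} {k : ℕ} (hk : 1 ≤ k) {w : ℤ} {f : ℂ → ℂ}
    (hf : WT_W R w f) : WT_kP R k (w - 6 * k) (fun t => Ys kc (dk k) f t) := by
  intro n
  have hk0 : kc 0 = 0 := hker.even 0
  have h1 : WT_W R (w - 6 * k + 3 * k * n) (fun t => ∑ l ∈ Finset.range n,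
      kc (n - 1 - l) * ((DD (dk k))^[l] f) t) := by
    refine WT_sum _ (fun l t => kc (n - 1 - l) * ((DD (dk k))^[l] f) t) fun l hl => ?_
    rw [Finset.mem_range] at hl
    by_cases h : l + 1 = n
    · refine WT_congr (fun t _ => ?_) (WT_zero R _)
      show kc (n - 1 - l) * ((DD (dk k))^[l] f) t = 0
      rw [show n - 1 - l = 0 by omega, hk0, zero_mul]
    · refine WT_smul _ (WT_mono ?_ (WT_kDDl hk hf l))
      have h2 : (0 : ℤ) ≤ (k : ℤ) * ((n : ℤ) - l - 2) :=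
        mul_nonneg (Int.natCast_nonneg _) (by omega)
      nlinarith
  refine WT_congr (fun t _ => ?_) (WT_smul ((n.factorial : ℂ)⁻¹) h1)
  simp only [Ys, PowerSeries.coeff_mk]
  ring

theorem tWT : StWT := by
  intro kc hker p k u R hp hk hU g J hJ hg hG
  have hmaps : ∀ τ ∈ Metric.ball (0 : ℂ) R, τ ^ 3 ∈ Metric.ball (0 : ℂ) (R ^ 3) := by
    intro τ hτ
    rw [mem_ball_zero_iff] at hτ ⊢
    rw [norm_pow]
    exact pow_lt_pow_left₀ hτ (norm_nonneg _) (by norm_num)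
  have hu3 : DifferentiableOn ℂ (fun τ : ℂ => u (τ ^ 3)) (Metric.ball 0 R) :=
    hU.df.comp (differentiableOn_pow 3) hmaps
  -- weights of the building blocks
  have hρ : WT_W R (3 * (k : ℤ) - 3 * p) (ρk p k u) := by
    refine ⟨fun τ => u (τ ^ 3) ^ 3, hu3.pow 3, fun τ hτ => ?_⟩
    have h0 := WT_ne hτ
    show (τ ^ p * u (τ ^ 3) / τ ^ k) ^ 3 * τ ^ (3 * (k : ℤ) - 3 * p) = u (τ ^ 3) ^ 3
    have e : τ ^ (3 * (k : ℤ) - 3 * p) = (τ ^ k) ^ 3 * ((τ ^ p) ^ 3)⁻¹ := by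
      rw [zpow_sub₀ h0, div_eq_mul_inv, ← pow_mul, ← pow_mul]
      congr 1
      · rw [show (3 * k : ℤ) = ((k * 3 : ℕ) : ℤ) by push_cast; ring, zpow_natCast]
      · rw [show (3 * p : ℤ) = ((p * 3 : ℕ) : ℤ) by push_cast; ring, zpow_natCast]
    have h1 : τ ^ p ≠ 0 := pow_ne_zero _ h0
    have h2 : τ ^ k ≠ 0 := pow_ne_zero _ h0
    rw [e]
    field_simp
  have hr : WT_W R ((p : ℤ) - k) (fun t => (rk p k u t)⁻¹) := by
    refine ⟨fun τ => (u (τ ^ 3))⁻¹, hu3.inv (fun τ hτ => hU.nz _ (hmaps τ hτ)), fun τ hτ => ?_⟩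
    have h0 := WT_ne hτ
    have h1 := hU.nz _ (hmaps τ (WT_ball hτ))
    show (τ ^ p * u (τ ^ 3) / τ ^ k)⁻¹ * τ ^ ((p : ℤ) - k) = (u (τ ^ 3))⁻¹
    rw [zpow_sub₀ h0, zpow_natCast, zpow_natCast]
    have h2 : τ ^ p ≠ 0 := pow_ne_zero _ h0
    have h3 : τ ^ k ≠ 0 := pow_ne_zero _ h0
    field_simp
  have hgj : ∀ j, 1 ≤ j → j < J → WT_W R ((2 * p + 4 * k) * (j - 1) : ℤ) (g j) := by
    intro j h1 h2
    obtain ⟨G, hG1, hG2⟩ := hG j h1 h2
    refine ⟨G, hG1, fun τ hτ => ?_⟩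
    rw [← hG2 τ hτ]
    congr 1
    rw [show ((2 * p + 4 * k) * (j - 1) : ℤ) = (((2 * p + 4 * k) * (j - 1) : ℕ) : ℤ) by
      push_cast [Nat.cast_sub h1]; ring, zpow_natCast]
  have hT : ∀ j ∈ Finset.Ico 1 J, WT_kP R k (-(2 * p + 4 * k : ℤ))
      (fun t => Tm kc (dk k) (ρk p k u) (rk p k u) g j t) := by
    intro j hj
    rw [Finset.mem_Ico] at hj
    have h1 := WT_kEs hk (WT_mul (hgj j hj.1 hj.2) (WT_pow hr j))
    have h2 := WT_kPpow (WT_kYs hker hk hρ) j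
    have h3 := WT_kPmul h1 h2
    have e : ((2 * p + 4 * k) * (j - 1) : ℤ) + j * ((p : ℤ) - k) +
        j * (3 * (k : ℤ) - 3 * p - 6 * k) = -(2 * p + 4 * k : ℤ) := by
      ring
    rw [e] at h3
    exact h3
  have hL : WT_W R (-(2 * p + 4 * k : ℤ) + 3 * k * ((2 * J + 1 : ℕ) : ℤ))
      (fun t => Lo kc (dk k) (ρk p k u) (rk p k u) g J t) := by
    have h1 := WT_sum (Finset.Ico 1 J) (fun j t => PowerSeries.coeff (2 * J + 1)
      (Tm kc (dk k) (ρk p k u) (rk p k u) g j t)) (fun j hj => hT j hj (2 * J + 1))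
    refine WT_congr (fun t _ => ?_) h1
    show Lo kc (dk k) (ρk p k u) (rk p k u) g J t = _
    unfold Lo
    rw [map_sum]
  obtain ⟨F, hF1, hF2⟩ := WT_mul (WT_pow hr (2 * J)) hL
  refine ⟨F, hF1, fun τ hτ => ?_⟩
  rw [← hF2 τ hτ]
  congr 1
  have e : (((2 * J : ℕ) : ℤ) * ((p : ℤ) - k) + (-(2 * p + 4 * k : ℤ) +
      3 * k * ((2 * J + 1 : ℕ) : ℤ))) = (((2 * p + 4 * k) * (J - 1) + 3 * k : ℕ) : ℤ) := by
    push_cast [Nat.cast_sub (show 1 ≤ J by omega)]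
    ring
  rw [e, zpow_natCast]

end H719FX
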