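import Pool.Agent.H738R3.CZ.Fin
import Pool.Agent.H719R4.FX.Fin0
import Pool.Agent.H719R4.FX.INT
import Pool.Agent.H719R4.FX.WT
import Pool.Agent.H719R4.FX.EXT
import Pool.Agent.H719R4.FX.PRV
import Pool.Agent.H719R4.FX.CRC
import Pool.Agent.H719R4.FX.LIM
import Pool.Agent.H719R4.FX.MDL
import Pool.Agent.H719R4.FX.LOC
import Pool.Agent.H719R4.FX.TE
import Pool.Agent.H719R4.FX.M4
import Pool.Agent.H719R4.FX.VA
import Pool.Agent.H719R4.FX.VB
import Pool.Agent.H719R4.FX.VC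
import Pool.Agent.H719R4.FX.FF
import Pool.Agent.H719R4.FX.SS
import Pool.Agent.H719R4.FX.TT
import Pool.Agent.H719R4.FX.PP
import Pool.Agent.H719R4.FX.EE
import Pool.Agent.H719R4.FX.G1
import Pool.Agent.H719R4.FX.G2
import Pool.Agent.H719R4.FX.RR
import Pool.Agent.H719R4.FX.S5
import Pool.Agent.H719R4.FX.END
import Pool.Agent.H719R4.FX.STA
import Pool.Agent.H719R4.FX.STZ
import Pool.Agent.H719R4.FX.PA
import Pool.Agent.H719R4.FX.SGN
import Pool.Agent.H719R4.FX.SEG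
import Pool.Agent.H719R4.FX.LC
import Pool.Agent.H719R4.FX.NB
import Pool.Agent.H719R4.FX.SIC
import Pool.Agent.H719R4.FX.SIN
import Pool.Agent.H719R4.FX.CH2

/-! # Assembly, first part: non-isotropic branches -/

open Complex Set Filter Topology

namespace H719FX

open H738CZ

/-- the statements of project `CZ` that are used -/
theorem cz : StCHG ∧ StMON ∧ StSTB ∧ StV3C ∧ StPAR ∧ StLAW ∧ StINI ∧ StCPX ∧ StTRL ∧ StDSC := by
  have hREC := tREC
  have hMON := tMON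
  have hCHG := tCHG
  have hSOLV := tSOLV hREC
  have hOM := tOM
  have hDGJ := tDGJ hREC
  have hNAG := tNAG hOM hDGJ
  have hHAD := tHAD
  have hSTB := tSTB hNAG hHAD
  have hPRS := tPRS hSOLV hSTB hMON
  have hAVD := tAVD
  have hDSC := tDSC hPRS hAVD
  have hTRL := tTRL hCHG hMON
  have hV3C := tV3C
  have hZPF := tZPF
  have hPET := tPET
  have hPRD := tPRD
  have hBN := tBN
  have hHV := tHV hPET hPRD
  have hWAT := tWAT
  have hGLU := tGLU
  have hPA1 := tPA1 hZPF hBN hHV hWAT hGLU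
  have hPAR := tPAR hPA1
  have hYTA := tYTA
  have hLAW := tLAW hYTA
  have hROO := tROO
  have hINI := tINI hLAW hROO
  have hCPX := tCPX
  exact ⟨hCHG, hMON, hSTB, hV3C, hPAR, hLAW, hINI, hCPX, hTRL, hDSC⟩

theorem fin_end : StEND := by
  obtain ⟨hCHG, hMON, hSTB, hV3C, hPAR, -, -, -, -, -⟩ := cz
  have hVA := tVA
  have hVB := tVB hVA
  have hFF := tFF hVA hVB tVC
  have hSS := tSS tLOC hVA hVB
  have hTT := tTT hVA hVB
  have hPP := tPP hVA hFF hSS hTT
  exact tEND (tINT hCHG hMON) (tEXT tWT) (tPRV hCHG hSTB hV3C) tCRC tLIM tMDL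
    (tM4 tLOC tTE hPAR) (tS5 tRR (tEE hPP hVA) (tG1 hPP hVA) tG2)

theorem fin_ch2 : StCH2 := by
  obtain ⟨-, -, -, -, -, -, -, -, hTRL, hDSC⟩ := cz
  exact tCH2 (tLC (tSEG tPA tSGN hTRL hDSC))

theorem fin_sta : StSTA := by
  obtain ⟨-, -, -, -, -, hLAW, hINI, hCPX, -, -⟩ := cz
  exact tSTA hLAW hINI hCPX

theorem fin_sin : StSIN := tSIN tSIC fin_end

theorem fin_flx : StFLX := tFLX fin_sta tSTZ fin_ch2 tNB fin_sin

end H719FX
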