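import Pool.Agent.H719R4.FX.Geo

/-!
# Isotropic branches

Definitions and statements (`Prop`s) only; no proofs.  At a branch `(p, p + k)` with isotropic
tangent one has `exp (2 i φ) = s ^ k`, so `φ → i ∞`; the model is the same function `Bm p k`, with
the involution `s ↦ 1 / s` instead of `Mo k` and the factor `s ^ ((4 p + 2 k) / 3)`.
Covering: `s = τ ^ 6`.
-/

open Complex Set Filter Topology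

namespace H719FX

open H738CZ

/-- `dφ/dτ`, `φ = -3 i k log τ` -/
noncomputable def di (k : ℕ) : ℂ → ℂ := fun τ => -(3 * I * k) / τ

/-- cube root of `ρ` -/
noncomputable def ri (p k : ℕ) (u : ℂ → ℂ) : ℂ → ℂ := fun τ => τ ^ (2 * p + k) * u (τ ^ 6)

noncomputable def ρi (p k : ℕ) (u : ℂ → ℂ) : ℂ → ℂ := fun τ => (ri p k u τ) ^ 3

structure UI (u : ℂ → ℂ) (R : ℝ) : Prop where
  pos : 0 < R
  df : DifferentiableOn ℂ u (Metric.ball 0 (R ^ 6))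
  nz : ∀ z ∈ Metric.ball (0 : ℂ) (R ^ 6), u z ≠ 0

/-- IINT: passing to the coordinate `τ`. -/
def StIINT : Prop := ∀ (p k : ℕ) (v : ℂ → ℂ) (R : ℝ) (ρ Ψ : ℂ → ℂ) (s1 : ℂ), 1 ≤ p →
  1 ≤ k → UI v R → s1 ∈ Metric.ball (0 : ℂ) (R ^ 6) → s1 ≠ 0 → AnalyticAt ℂ Ψ s1 →
  (∀ᶠ s in 𝓝 s1, cexp (2 * I * Ψ s) = s ^ k ∧
    ρ (Ψ s) * cexp (I * Ψ s) = s ^ (p + k) * v s ^ 3) → Good kcs ρ (Ψ s1) →
    ∃ (ω τ1 : ℂ) (η : ℝ) (g : ℕ → ℂ → ℂ), ω ≠ 0 ∧ 0 < η ∧ Metric.ball τ1 η ⊆ V3 R ∧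
      FI kcs (di k) (ρi p k (fun z => ω * v z)) (ri p k (fun z => ω * v z)) g (Metric.ball τ1 η) ∧
      SG g (Metric.ball τ1 η)

/-- pole order condition for `g j` -/
def PolI (p k : ℕ) (R : ℝ) (g : ℕ → ℂ → ℂ) (j : ℕ) (G : ℂ → ℂ) : Prop :=
  DifferentiableOn ℂ G (Metric.ball 0 R) ∧
    ∀ τ ∈ V3 R, g j τ * τ ^ ((4 * p + 2 * k) * (j - 1)) = G τ

/-- IWT: pole order of the inhomogeneous term. -/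
def StIWT : Prop := ∀ (p k : ℕ) (u : ℂ → ℂ) (R : ℝ), 1 ≤ p → 1 ≤ k →
  UI u R → ∀ (g : ℕ → ℂ → ℂ) (J : ℕ), 2 ≤ J →
  (∀ j, 1 ≤ j → j < J → DifferentiableOn ℂ (g j) (V3 R)) →
  (∀ j, 1 ≤ j → j < J → ∃ G, PolI p k R g j G) →
    ∃ F : ℂ → ℂ, DifferentiableOn ℂ F (Metric.ball 0 R) ∧ ∀ τ ∈ V3 R,
      ((ri p k u τ)⁻¹) ^ (2 * J) * Lo kcs (di k) (ρi p k u) (ri p k u) g J τ
        * τ ^ ((4 * p + 2 * k) * (J - 1)) = F τ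

/-- IEXT: extension to the punctured disc (no logarithms), with pole orders. -/
def StIEXT : Prop := ∀ (p k : ℕ) (u : ℂ → ℂ) (R : ℝ), 1 ≤ p → 1 ≤ k →
  UI u R → ∀ (g : ℕ → ℂ → ℂ) (τ1 : ℂ) (η : ℝ), 0 < η → Metric.ball τ1 η ⊆ V3 R →
  FI kcs (di k) (ρi p k u) (ri p k u) g (Metric.ball τ1 η) →
    ∃ g' : ℕ → ℂ → ℂ, FI kcs (di k) (ρi p k u) (ri p k u) g' (V3 R) ∧
      (∀ j, 1 ≤ j → EqOn (g' j) (g j) (Metric.ball τ1 η)) ∧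
      ∃ G : ℕ → ℂ → ℂ, ∀ j, 1 ≤ j → PolI p k R g' j (G j)

/-- IPRV: sub-Gevrey bounds propagate in the punctured disc. -/
def StIPRV : Prop := ∀ (p k : ℕ) (u : ℂ → ℂ) (R : ℝ), 1 ≤ p → 1 ≤ k →
  UI u R → ∀ (g : ℕ → ℂ → ℂ), FI kcs (di k) (ρi p k u) (ri p k u) g (V3 R) →
  ∀ (τ1 : ℂ) (η : ℝ), 0 < η → Metric.ball τ1 η ⊆ V3 R → SG g (Metric.ball τ1 η) →
    ∀ τ ∈ V3 R, ∃ η' > 0, Metric.ball τ η' ⊆ V3 R ∧ SG g (Metric.ball τ η')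

/-- ICRC: sub-Gevrey bounds for the leading coefficients. -/
def StICRC : Prop := ∀ (p k : ℕ) (R : ℝ) (g G : ℕ → ℂ → ℂ), 0 < R →
  (∀ τ ∈ V3 R, ∃ η' > 0, Metric.ball τ η' ⊆ V3 R ∧ SG g (Metric.ball τ η')) →
  (∀ j, 1 ≤ j → PolI p k R g j (G j)) →
    ∃ C s : ℝ, 1 ≤ C ∧ 0 ≤ s ∧ s < 1 ∧
      ∀ j, 1 ≤ j → ‖G j 0‖ ≤ C ^ j * ((2 * j).factorial : ℝ) ^ s

/-- exponential series `exp (e X)` -/
noncomputable def expS (e : ℂ) : PowerSeries ℂ :=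
  PowerSeries.mk fun l => e ^ l / (l.factorial : ℂ)

/-- Taylor series of `υ³ ∫₀^X exp(i ν s) sin(X-s) ds`, `ν = (2 p + k) / k` -/
noncomputable def Yi (p k : ℕ) (υ : ℂ) : PowerSeries ℂ :=
  PowerSeries.mk fun n =>
    υ ^ 3 * (∑ l ∈ Finset.range n, kcs (n - 1 - l) * (I * (2 * p + k) / k) ^ l) / (n.factorial : ℂ)

/-- the homogeneous (model) law -/
def MLawI (p k : ℕ) (υ : ℂ) (β : ℕ → ℂ) : Prop := ∀ J, 1 ≤ J →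
  PowerSeries.coeff (2 * J + 1) (∑ j ∈ Finset.Icc 1 J,
    PowerSeries.C (β j) * expS (I * (2 * p + k) * (2 - 3 * j) / (3 * k)) * (Yi p k υ) ^ j) = 0

/-- ILIM: the leading coefficients satisfy the model law. -/
def StILIM : Prop := ∀ (p k : ℕ) (u : ℂ → ℂ) (R : ℝ), 1 ≤ p → 1 ≤ k →
  UI u R → ∀ (g G : ℕ → ℂ → ℂ), FI kcs (di k) (ρi p k u) (ri p k u) g (V3 R) →
  (∀ j, 1 ≤ j → PolI p k R g j (G j)) → MLawI p k (u 0) (fun j => G j 0 * ((u 0)⁻¹) ^ j)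

/-! ## The model -/

noncomputable def McI (p k : ℕ) (s : ℂ) : ℂ := cexp ((4 * (p : ℂ) + 2 * k) / 3 * log s)

/-- the model relation for coefficients `α` (`α 0` is not used) -/
def MRelI (p k : ℕ) (α : ℕ → ℂ) : Prop := ∀ N : ℕ,
  (fun s : ℂ => ∑ j ∈ Finset.Ico 1 N, α j * Bm p k s ^ j
      - McI p k s * ∑ j ∈ Finset.Ico 1 N, α j * Bm p k s⁻¹ ^ j)
    =O[𝓝 1] fun s => (s - 1) ^ (2 * N + 1)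

/-- IMDL: from the model law to the model relation. -/
def StIMDL : Prop := ∀ (p k : ℕ) (υ : ℂ) (β : ℕ → ℂ), 1 ≤ p → 1 ≤ k → υ ≠ 0 → MLawI p k υ β →
  MRelI p k (fun j => β j * (-(υ ^ 3 * k ^ 2 / (4 * p * (p + k)))) ^ j)

/-- ILG: strict inequality in the local coordinate. -/
def StILG : Prop := ∀ (p k : ℕ) (r c1 : ℝ) (X W : ℂ → ℂ), 1 ≤ p → 1 ≤ k → Loc p k r c1 X W →
  ∃ r' > 0, r' ≤ r ∧ ∀ w ∈ Metric.ball (0 : ℂ) r', 0 ≤ w.re → w ≠ 0 → 1 < ‖X w‖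

/-- ITE: expansions of the return map and the factor in the local coordinate. -/
def StITE : Prop := ∀ (p k : ℕ) (r c1 : ℝ) (X W : ℂ → ℂ), 1 ≤ p → 1 ≤ k → Loc p k r c1 X W →
  AnalyticAt ℂ (fun w => - W (X w)⁻¹) 0 ∧ AnalyticAt ℂ (fun w => McI p k (X w)) 0 ∧
  (fun w : ℂ => - W (X w)⁻¹ - (w - ((2 * (p : ℂ) + k) / 3 * c1) * w ^ 2))
    =O[𝓝 0] (fun w => w ^ 3) ∧
  (fun w : ℂ => McI p k (X w) - (1 + 2 * ((2 * (p : ℂ) + k) / 3 * c1) * w))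
    =O[𝓝 0] (fun w => w ^ 2)

/-- IM4: convergence in the model. -/
def StIM4 : Prop := ∀ (p k : ℕ) (α : ℕ → ℂ), 1 ≤ p → 1 ≤ k → MRelI p k α →
  (∃ C s : ℝ, 1 ≤ C ∧ 0 ≤ s ∧ s < 1 ∧ ∀ j, 1 ≤ j → ‖α j‖ ≤ C ^ j * ((2 * j).factorial : ℝ) ^ s) →
    ∃ C : ℝ, ∀ j, 1 ≤ j → ‖α j‖ ≤ C ^ j

/-- IVB: derivative of `Bm (1 / s)`. -/
def StIVB : Prop := ∀ (p k : ℕ) (s : ℂ), 1 ≤ p → 1 ≤ k → s ≠ 0 →
  HasDerivAt (fun y => Bm p k y⁻¹) (Bd p k s * (s⁻¹) ^ (2 * p + k)) s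

/-- ISS: starting points. -/
def StISS : Prop := ∀ (p k : ℕ) (ε : ℝ), 1 ≤ p → 1 ≤ k → 0 < ε → ∃ r > 0, ∀ q : ℂ, 0 < ‖q‖ →
  ‖q‖ < r → ∃ x0 : ℂ, x0 ∈ Dm p k ∧ Sg p k x0 ∧ ‖x0 - 1‖ < ε ∧ Bm p k x0 = q ∧
    ‖Bm p k x0⁻¹‖ < ‖q‖

/-- ITT: contraction along trajectories. -/
def StITT : Prop := ∀ (p k : ℕ) (x0 : ℂ) (x : ℝ → ℂ), 1 ≤ p → 1 ≤ k → Traj p k x0 x →
  Bm p k x0 ≠ 0 → ‖Bm p k x0⁻¹‖ < ‖Bm p k x0‖ →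
    ∀ s, 0 ≤ s → ‖Bm p k (x s)⁻¹‖ < ‖Bm p k (x s)‖

/-- local relation at `1` -/
def Rel1I (p k : ℕ) (F : ℂ → ℂ) : Prop :=
  ∀ᶠ x in 𝓝 (1 : ℂ), F (Bm p k x) = McI p k x * F (Bm p k x⁻¹)

/-- relation near `x1`, where the left side is defined only for `‖Bm x‖ < R` -/
def RelAtI (p k : ℕ) (F : ℂ → ℂ) (R : ℝ) (x1 : ℂ) : Prop :=
  ∀ᶠ x in 𝓝 x1, ‖Bm p k x‖ < R → F (Bm p k x) = McI p k x * F (Bm p k x⁻¹)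

/-- IPP: continuation of the relation along trajectories. -/
def StIPP : Prop := ∀ (p k : ℕ) (F : ℂ → ℂ) (R : ℝ), 1 ≤ p → 1 ≤ k → 0 < R →
  DifferentiableOn ℂ F (Metric.ball 0 R) → Rel1I p k F → ∀ q1 : ℂ, q1 ≠ 0 → ‖q1‖ ≤ R →
    ∃ x1 : ℂ, x1 ∈ Dm p k ∧ Bm p k x1 = q1 ∧ ‖Bm p k x1⁻¹‖ < ‖q1‖ ∧ RelAtI p k F R x1

/-- IEE: extension to an entire function. -/
def StIEE : Prop := ∀ (p k : ℕ) (F : ℂ → ℂ) (R : ℝ), 1 ≤ p → 1 ≤ k → 0 < R →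
  DifferentiableOn ℂ F (Metric.ball 0 R) → Rel1I p k F →
    ∃ F' : ℂ → ℂ, Differentiable ℂ F' ∧ EqOn F' F (Metric.ball 0 R)

/-- IG1: growth, hence `F` is affine. -/
def StIG1 : Prop := ∀ (p k : ℕ) (F : ℂ → ℂ), 1 ≤ p → 1 ≤ k → Differentiable ℂ F →
  Rel1I p k F → ∀ q, F q = F 0 + deriv F 0 * q

/-- IG2: a linear solution exists only for `p = k`. -/
def StIG2 : Prop := ∀ (p k : ℕ), 1 ≤ p → 1 ≤ k → p ≠ k → ¬ Rel1I p k (fun q => q)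

/-- IRR: from the formal relation to the relation for the sum. -/
def StIRR : Prop := ∀ (p k : ℕ) (α : ℕ → ℂ) (C : ℝ), 1 ≤ p → 1 ≤ k → MRelI p k α →
  (∀ j, 1 ≤ j → ‖α j‖ ≤ C ^ j) →
  ∃ (R : ℝ) (F : ℂ → ℂ), 0 < R ∧ DifferentiableOn ℂ F (Metric.ball 0 R) ∧ F 0 = 0 ∧
    deriv F 0 = α 1 ∧ Rel1I p k F

/-- IS5: the model has no convergent solution. -/
def StIS5 : Prop := ∀ (p k : ℕ) (α : ℕ → ℂ) (C : ℝ), 1 ≤ p → 1 ≤ k → p ≠ k → MRelI p k α →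
  (∀ j, 1 ≤ j → ‖α j‖ ≤ C ^ j) → α 1 = 0

/-- IEND: no sub-Gevrey formal integral near an isotropic branch, unless `p = k`. -/
def StIEND : Prop := ∀ (p k : ℕ) (v : ℂ → ℂ) (R : ℝ) (ρ Ψ : ℂ → ℂ) (s1 : ℂ),
  1 ≤ p → 1 ≤ k → p ≠ k → UI v R → s1 ∈ Metric.ball (0 : ℂ) (R ^ 6) → s1 ≠ 0 →
  AnalyticAt ℂ Ψ s1 → (∀ᶠ s in 𝓝 s1, cexp (2 * I * Ψ s) = s ^ k ∧
    ρ (Ψ s) * cexp (I * Ψ s) = s ^ (p + k) * v s ^ 3) → ¬ Good kcs ρ (Ψ s1)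

/-! ## Geometry -/

/-- `t0` is a branch of type `(m + 1, m + 1 + k)` whose tangent is the isotropic line `z = const` -/
def BrI (Z W : ℂ → ℂ) (t0 : ℂ) (m k : ℕ) : Prop :=
  ∃ f g : ℂ → ℂ, AnalyticAt ℂ f t0 ∧ AnalyticAt ℂ g t0 ∧ f t0 ≠ 0 ∧ g t0 ≠ 0 ∧
    (∀ᶠ t in 𝓝 t0, deriv Z t = (t - t0) ^ (m + k) * f t) ∧
    ∀ᶠ t in 𝓝 t0, deriv W t = (t - t0) ^ m * g t

/-- INB: near an isotropic branch the curve is regular. -/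
def StINB : Prop := ∀ (Z W : ℂ → ℂ) (t0 : ℂ) (m k : ℕ), 1 ≤ k → AnalyticAt ℂ Z t0 →
  AnalyticAt ℂ W t0 → BrI Z W t0 m k →
    ∀ᶠ t in 𝓝[≠] t0, deriv Z t ≠ 0 ∧ deriv W t ≠ 0 ∧ Wr Z W t ≠ 0

/-- ISIN: an isotropic branch with good points nearby has `m + 1 = k`. -/
def StISIN : Prop := ∀ (Z W : ℂ → ℂ) (t0 : ℂ) (m k : ℕ), 1 ≤ k → AnalyticAt ℂ Z t0 →
  AnalyticAt ℂ W t0 → BrI Z W t0 m k → (∀ᶠ t in 𝓝[≠] t0, GoodAt Z W t) → m + 1 = k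

/-- REF: exchanging `Z` and `W`. -/
def StREF : Prop := ∀ (Z W : ℂ → ℂ) (t : ℂ), GoodAt Z W t → GoodAt W Z t

/-- ORD: orders. -/
def StORD : Prop := ∀ (Z W : ℂ → ℂ) (t0 : ℂ), AnalyticAt ℂ Z t0 → AnalyticAt ℂ W t0 →
  (¬ ∀ᶠ t in 𝓝 t0, Wr Z W t = 0) →
  (∀ m k : ℕ, 1 ≤ k → Br Z W t0 m k → m + 1 = k) →
  (∀ m k : ℕ, 1 ≤ k → BrI Z W t0 m k → m + 1 = k) →
  (∀ m k : ℕ, 1 ≤ k → BrI W Z t0 m k → m + 1 = k) →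
    analyticOrderAt (Wr Z W) t0 =
      3 * min (analyticOrderAt (deriv Z) t0) (analyticOrderAt (deriv W) t0)

/-- FLY: the final theorem. -/
def StFLY : Prop := ∀ (γ : ℝ → ℂ) (ρ : ℝ → ℝ), IsOval γ ρ → ∀ (K : ℝ → ℝ → ℝ) (ε : ℝ), 0 < ε →
  AnalyticOnNhd ℝ (Function.uncurry K) {z | |z.2 - sup (γ z.1) z.1| < ε} →
  (∀ s : ℝ, ∃ εs > 0, ∀ δ : ℝ, 0 < δ → δ < εs →
    K (s + δ) (sup (γ s) (s + δ)) = K (s - δ) (sup (γ s) (s - δ))) →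
  (¬ ∃ c, ∀ φ p : ℝ, |p - sup (γ φ) φ| < ε → K φ p = c) →
  ∀ (n : ℕ) (a : ℕ → ℂ) (r : ℕ → ℝ) (Z W : ℕ → ℂ → ℂ), Chain2 n a r Z W →
  ∀ (θ : ℝ → ℝ) (x0 x1 : ℝ), ContinuousOn θ (Ioo x0 x1) →
  (∀ t ∈ Ioo x0 x1, (t : ℂ) ∈ Metric.ball (a 0) (r 0) ∧ Z 0 t = γ (θ t) ∧
    W 0 t = (starRingEnd ℂ) (γ (θ t))) →
  (∃ s ∈ Ioo x0 x1, ∃ t ∈ Ioo x0 x1, γ (θ s) ≠ γ (θ t)) →
    ∀ t0 ∈ Metric.ball (a n) (r n), analyticOrderAt (Wr (Z n) (W n)) t0 =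
      3 * min (analyticOrderAt (deriv (Z n)) t0) (analyticOrderAt (deriv (W n)) t0)

end H719FX
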