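import Pool.Agent.H719R4.FX.Fin0
import Pool.Agent.H719R4.FX.CH2
import Pool.Agent.H719R4.FX.Iso

/-! # Assembly, second part (conditional): all branches -/

open Complex Set Filter Topology

namespace H719FX

open H738CZ

/-- good points in the last disc -/
theorem CH2_key (hLC : StLC) {n : ℕ} {a : ℕ → ℂ} {r : ℕ → ℝ} {Z W : ℕ → ℂ → ℂ}
    (hC : Chain2 n a r Z W) (h0 : ∃ z ∈ Metric.ball (a 0) (r 0), GoodAt (Z 0) (W 0) z) :
    ∃ z ∈ Metric.ball (a n) (r n), GoodAt (Z n) (W n) z := by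
  have key : ∀ i, i ≤ n → ∃ z ∈ Metric.ball (a i) (r i), GoodAt (Z i) (W i) z := by
    intro i
    induction i with
    | zero => intro _; exact h0
    | succ i ih =>
      intro hi
      obtain ⟨z, hz, hg⟩ := ih (by omega)
      have hZi := hC.dZ i (by omega)
      have hWi := hC.dW i (by omega)
      obtain ⟨g1, g2, g3⟩ := LC_good hg
      set f : ℂ → ℂ := fun t => deriv (Z i) t * deriv (W i) t * Wr (Z i) (W i) t with hf
      have hfd : DifferentiableOn ℂ f (Metric.ball (a i) (r i)) :=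
        LC_diff Metric.isOpen_ball hZi hWi
      have hfa : AnalyticOnNhd ℂ f (Metric.ball (a i) (r i)) :=
        hfd.analyticOnNhd Metric.isOpen_ball
      have hfz : f z ≠ 0 := mul_ne_zero (mul_ne_zero g1 g2) g3
      obtain ⟨p, hp⟩ := hC.ne i (by omega)
      have hO : IsOpen (Metric.ball (a i) (r i) ∩ Metric.ball (a (i + 1)) (r (i + 1))) :=
        Metric.isOpen_ball.inter Metric.isOpen_ball
      have hnz : ∃ᶠ q in 𝓝[≠] p, f q ≠ 0 := by
        intro hcon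
        have h1 : ∀ᶠ q in 𝓝[≠] p, f q = 0 := by
          filter_upwards [hcon] with q hq
          simpa using hq
        have h2 : EqOn f 0 (Metric.ball (a i) (r i)) :=
          hfa.eqOn_zero_of_preconnected_of_frequently_eq_zero
            (convex_ball _ _).isPreconnected hp.1 h1.frequently
        exact hfz (h2 hz)
      have hev : ∀ᶠ q in 𝓝[≠] p,
          q ∈ Metric.ball (a i) (r i) ∩ Metric.ball (a (i + 1)) (r (i + 1)) :=
        nhdsWithin_le_nhds (hO.mem_nhds hp)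
      obtain ⟨q, hq1, hq2⟩ := (hnz.and_eventually hev).exists
      have hq3 : deriv (Z i) q ≠ 0 ∧ deriv (W i) q ≠ 0 ∧ Wr (Z i) (W i) q ≠ 0 := by
        simp only [hf, ne_eq, mul_eq_zero, not_or] at hq1
        exact ⟨hq1.1.1, hq1.1.2, hq1.2⟩
      have hG := hLC (Z i) (W i) (a i) (r i) z q hZi hWi hz hq2.1 hg hq3.1 hq3.2.1 hq3.2.2
      refine ⟨q, hq2.2, CH2_good hG ?_ ?_⟩
      · filter_upwards [hO.mem_nhds hq2] with s hs
        exact (hC.eZ i (by omega) hs).symm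
      · filter_upwards [hO.mem_nhds hq2] with s hs
        exact (hC.eW i (by omega) hs).symm
  exact key n le_rfl

theorem Wr_swap (Z W : ℂ → ℂ) (t : ℂ) : Wr W Z t = - Wr Z W t := by
  unfold Wr; ring

theorem tFLY (hSTA : StSTA) (hSTZ : StSTZ) (hLC : StLC) (hNB : StNB) (hSIN : StSIN)
    (hINB : StINB) (hISIN : StISIN) (hREF : StREF) (hORD : StORD) : StFLY := by
  intro γ ρ ho K ε hε hK hrefl hnc n a r Z W hC θ x0 x1 hθ hZW hne t0 ht0
  obtain ⟨x, Φ, R, y, η, hx, hP, hΦ, hη, hR, hRρ⟩ := hSTZ γ ρ ho (Z 0) (W 0) (a 0) (r 0) θ x0 x1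
    (hC.dZ 0 (Nat.zero_le _)) (hC.dW 0 (Nat.zero_le _)) hθ hZW hne
  have hg : Good kcs R y := hSTA γ ρ ho K ε hε hK hrefl hnc R y η hη hR hRρ
  have hG0 : GoodAt (Z 0) (W 0) x := ⟨Φ, R, hP, by rw [hΦ]; exact hg⟩
  obtain ⟨z, hz, hGz⟩ := CH2_key hLC hC ⟨x, (hZW x hx).1, hG0⟩
  have hall : ∀ t ∈ Metric.ball (a n) (r n), deriv (Z n) t ≠ 0 → deriv (W n) t ≠ 0 →
      Wr (Z n) (W n) t ≠ 0 → GoodAt (Z n) (W n) t := fun w hw h1 h2 h3 =>
    hLC (Z n) (W n) (a n) (r n) z w (hC.dZ n le_rfl) (hC.dW n le_rfl) hz hw hGz h1 h2 h3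
  have hb : Metric.ball (a n) (r n) ∈ 𝓝 t0 := Metric.isOpen_ball.mem_nhds ht0
  have haZ : AnalyticAt ℂ (Z n) t0 := (hC.dZ n le_rfl).analyticAt hb
  have haW : AnalyticAt ℂ (W n) t0 := (hC.dW n le_rfl).analyticAt hb
  obtain ⟨g1, g2, g3⟩ := LC_good hGz
  have hnz : ¬ ∀ᶠ t in 𝓝 t0, Wr (Z n) (W n) t = 0 := by
    intro hcon
    set f : ℂ → ℂ := fun t => deriv (Z n) t * deriv (W n) t * Wr (Z n) (W n) t with hf
    have hfd : DifferentiableOn ℂ f (Metric.ball (a n) (r n)) :=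
      LC_diff Metric.isOpen_ball (hC.dZ n le_rfl) (hC.dW n le_rfl)
    have hfa : AnalyticOnNhd ℂ f (Metric.ball (a n) (r n)) :=
      hfd.analyticOnNhd Metric.isOpen_ball
    have h1 : f =ᶠ[𝓝 t0] 0 := by
      filter_upwards [hcon] with t ht
      simp [hf, ht]
    have h2 : EqOn f 0 (Metric.ball (a n) (r n)) :=
      hfa.eqOn_zero_of_preconnected_of_eventuallyEq_zero (convex_ball _ _).isPreconnected ht0 h1
    exact mul_ne_zero (mul_ne_zero g1 g2) g3 (h2 hz)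
  refine hORD (Z n) (W n) t0 haZ haW hnz ?_ ?_ ?_
  · intro m k hk hBr
    refine hSIN (Z n) (W n) t0 m k hk haZ haW hBr ?_
    filter_upwards [hNB (Z n) (W n) t0 m k hk haZ haW hBr, mem_nhdsWithin_of_mem_nhds hb]
      with t h1 h2
    exact hall t h2 h1.1 h1.2.1 h1.2.2
  · intro m k hk hBr
    refine hISIN (Z n) (W n) t0 m k hk haZ haW hBr ?_
    filter_upwards [hINB (Z n) (W n) t0 m k hk haZ haW hBr, mem_nhdsWithin_of_mem_nhds hb]
      with t h1 h2
    exact hall t h2 h1.1 h1.2.1 h1.2.2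
  · intro m k hk hBr
    refine hISIN (W n) (Z n) t0 m k hk haW haZ hBr ?_
    filter_upwards [hINB (W n) (Z n) t0 m k hk haW haZ hBr, mem_nhdsWithin_of_mem_nhds hb]
      with t h1 h2
    refine hREF (Z n) (W n) t (hall t h2 h1.2.1 h1.1 ?_)
    intro h3
    apply h1.2.2
    rw [Wr_swap, h3, neg_zero]

end H719FX
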