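import Pool.Agent.H719R4.FX.Iso
import Pool.Agent.H719R4.FX.G1

/-! Task IG1 (helper303, adapted from FX/G1.lean of helper403): growth. -/

open Complex Set Filter Topology

namespace H719FX

open H738CZ

theorem IG1_McI {p k : ℕ} {s : ℂ} (hs : s ≠ 0) :
    ‖McI p k s‖ ^ 3 = ‖s‖ ^ (4 * p + 2 * k) := by
  rw [← norm_pow, ← norm_pow]
  unfold McI
  rw [← Complex.exp_nat_mul]
  have h1 : ((3 : ℕ) : ℂ) * ((4 * (p : ℂ) + 2 * k) / 3 * log s) =
      ((4 * p + 2 * k : ℕ) : ℂ) * log s := by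
    push_cast
    field_simp
  rw [h1, Complex.exp_nat_mul, Complex.exp_log hs]

theorem tIG1 (hIPP : StIPP) (_hVA : StVA) : StIG1 := by
  intro p k F hp hk hF hrel
  have hp1 : (1 : ℝ) ≤ p := by exact_mod_cast hp
  have hk1 : (1 : ℝ) ≤ k := by exact_mod_cast hk
  have hk0 : (0 : ℝ) < k := by linarith
  obtain ⟨K0, hK0⟩ := (isCompact_closedBall (0 : ℂ)
    (1 + ((p : ℝ) + k) / k + (p : ℝ) / k)).exists_bound_of_continuousOn
    hF.continuous.continuousOn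
  have hK : 0 ≤ K0 := (norm_nonneg _).trans (hK0 0 (by
    rw [Metric.mem_closedBall, dist_self]; positivity))
  obtain ⟨T, hT⟩ : ∃ T : ℝ, T = (2 * ((p : ℝ) + k)) ^ (p + k) := ⟨_, rfl⟩
  have hT0 : 0 ≤ T := by rw [hT]; positivity
  obtain ⟨N, hN⟩ : ∃ N : ℕ, N = 3 * (p + k) := ⟨_, rfl⟩
  have hN1 : 1 ≤ N := by omega
  obtain ⟨M, hM⟩ : ∃ M : ℕ, M = 4 * p + 2 * k := ⟨_, rfl⟩
  have hMN : M ≤ 2 * N - 1 := by omega
  obtain ⟨K1, hK1⟩ : ∃ K1 : ℝ, K1 = K0 ^ N * T ^ M := ⟨_, rfl⟩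
  have hK10 : 0 ≤ K1 := by rw [hK1]; positivity
  refine G1_affine F hF (K1 + ‖F 0‖ ^ N) (by positivity) N hN1 ?_
  intro q
  have hq1 : 1 ≤ 1 + ‖q‖ := by linarith [norm_nonneg q]
  have hone : (1 : ℝ) ≤ (1 + ‖q‖) ^ (2 * N - 1) := one_le_pow₀ hq1
  by_cases hq : q = 0
  · subst hq
    have h2 : 0 ≤ ‖F 0‖ ^ N := by positivity
    calc ‖F 0‖ ^ N ≤ (K1 + ‖F 0‖ ^ N) * 1 := by linarith
      _ ≤ _ := mul_le_mul_of_nonneg_left hone (by positivity)
  · obtain ⟨x1, hx1, hB, -, hcF⟩ := hIPP p k F (‖q‖ + 1) hp hk (by positivity)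
      hF.differentiableOn hrel q hq (by linarith)
    have eF := hcF.self_of_nhds (by rw [hB]; linarith)
    rw [hB] at eF
    have ht1 : 1 ≤ ‖x1‖ := hx1.1
    have hx0 : x1 ≠ 0 := by
      rintro rfl
      rw [norm_zero] at ht1
      linarith
    have hinv : ‖x1⁻¹‖ ≤ 1 := by
      rw [norm_inv]
      exact inv_le_one_of_one_le₀ ht1
    have hy : ‖F (Bm p k x1⁻¹)‖ ≤ K0 := by
      apply hK0
      rw [Metric.mem_closedBall, dist_zero_right]
      exact G1_Bm_le p k hinv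
    have hMc := IG1_McI (p := p) (k := k) hx0
    have hc9 : ‖McI p k x1‖ ^ N ≤ (T * (1 + ‖q‖)) ^ M := by
      calc ‖McI p k x1‖ ^ N = (‖McI p k x1‖ ^ 3) ^ (p + k) := by rw [hN, pow_mul]
        _ = (‖x1‖ ^ (p + k)) ^ M := by
            rw [hMc, ← pow_mul, ← pow_mul, hM]
            congr 1
            ring
        _ ≤ (T * (1 + ‖q‖)) ^ M := by
            apply pow_le_pow_left₀ (by positivity)
            have := G1_Bm_ge p k hp hk ht1
            rw [hB, ← hT] at this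
            exact this
    have hfin : ‖F q‖ ^ N ≤ K1 * (1 + ‖q‖) ^ M := by
      calc ‖F q‖ ^ N = ‖McI p k x1‖ ^ N * ‖F (Bm p k x1⁻¹)‖ ^ N := by
            rw [eF, norm_mul, mul_pow]
        _ ≤ ((T * (1 + ‖q‖)) ^ M) * K0 ^ N := by
            apply mul_le_mul hc9 (pow_le_pow_left₀ (norm_nonneg _) hy _) (by positivity)
              (by positivity)
        _ = _ := by rw [mul_pow, hK1]; ring
    refine hfin.trans ?_
    have h3 : (1 + ‖q‖) ^ M ≤ (1 + ‖q‖) ^ (2 * N - 1) := pow_le_pow_right₀ hq1 hMN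
    have h4 : 0 ≤ ‖F 0‖ ^ N := by positivity
    calc K1 * (1 + ‖q‖) ^ M ≤ K1 * (1 + ‖q‖) ^ (2 * N - 1) := mul_le_mul_of_nonneg_left h3 hK10
      _ ≤ (K1 + ‖F 0‖ ^ N) * (1 + ‖q‖) ^ (2 * N - 1) :=
          mul_le_mul_of_nonneg_right (by linarith) (by positivity)

end H719FX
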