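import Pool.Agent.H719R4.FX.Iso

set_option autoImplicit false

/-!
# Task IG2: a linear solution exists only for `p = k`.
-/

open Complex Set Filter Topology

namespace H719FX

open H738CZ

/-- the real polynomial -/
noncomputable def IG2_b (p k : ℕ) (x : ℝ) : ℝ :=
  1 - ((p : ℝ) + k) / k * x ^ p + (p : ℝ) / k * x ^ (p + k)

theorem IG2_Bm (p k : ℕ) (x : ℝ) : Bm p k (x : ℂ) = (IG2_b p k x : ℂ) := by
  unfold Bm IG2_b
  push_cast
  ring

theorem IG2_Mc (p k : ℕ) (x : ℝ) (hL : 0 < x) :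
    McI p k (x : ℂ) = ((Real.exp ((4 * (p : ℝ) + 2 * k) / 3 * Real.log x) : ℝ) : ℂ) := by
  unfold McI
  rw [← Complex.ofReal_log hL.le]
  push_cast
  rfl

/-- the difference of the two sides -/
noncomputable def IG2_f (p k : ℕ) (z : ℂ) : ℂ := Bm p k z - McI p k z * Bm p k z⁻¹

theorem IG2_an (p k : ℕ) (z : ℂ) (hz : z ∈ slitPlane) :
    AnalyticAt ℂ (IG2_f p k) z := by
  have hz0 : z ≠ 0 := slitPlane_ne_zero hz
  have hB : ∀ w, AnalyticAt ℂ (Bm p k) w := fun w => by
    unfold Bm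
    fun_prop
  have hlog : AnalyticAt ℂ (fun z => log z) z := analyticAt_clog hz
  have hM : AnalyticAt ℂ (fun z : ℂ => z⁻¹) z := analyticAt_inv hz0
  have hMc : AnalyticAt ℂ (McI p k) z := by
    unfold McI
    exact (analyticAt_const.mul hlog).cexp
  exact (hB z).sub (hMc.mul ((hB z⁻¹).comp hM))

theorem IG2_global (p k : ℕ) (h : Rel1I p k (fun q => q)) (x : ℝ) (hx : 1 ≤ x) :
    Bm p k (x : ℂ) = McI p k (x : ℂ) * Bm p k (x : ℂ)⁻¹ := by
  set U : Set ℝ := Ioi 0 with hU
  have hUc : IsPreconnected U := isPreconnected_Ioi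
  have hUan : AnalyticOnNhd ℝ (fun x : ℝ => IG2_f p k (x : ℂ)) U := by
    intro y hy
    have h1 : (y : ℂ) ∈ slitPlane := by
      left
      rw [ofReal_re]
      exact hy
    have h2 : AnalyticAt ℝ (IG2_f p k) (y : ℂ) := (IG2_an p k y h1).restrictScalars
    exact h2.comp (Complex.ofRealCLM.analyticAt y)
  have hU0 : AnalyticOnNhd ℝ (fun _ : ℝ => (0 : ℂ)) U := fun _ _ => analyticAt_const
  have h1U : (1 : ℝ) ∈ U := Set.mem_Ioi.2 one_pos
  have hev : (fun x : ℝ => IG2_f p k (x : ℂ)) =ᶠ[𝓝 1] fun _ => 0 := by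
    have ht : Tendsto (fun x : ℝ => (x : ℂ)) (𝓝 1) (𝓝 ((1 : ℝ) : ℂ)) :=
      Complex.continuous_ofReal.tendsto 1
    rw [ofReal_one] at ht
    filter_upwards [ht.eventually h] with y hy
    exact sub_eq_zero.2 hy
  have key := hUan.eqOn_of_preconnected_of_eventuallyEq hU0 hUc h1U hev
  have hxU : x ∈ U := Set.mem_Ioi.2 (lt_of_lt_of_le one_pos hx)
  exact sub_eq_zero.1 (key hxU)

theorem tIG2 : StIG2 := by
  intro p k hp hk hpk h
  have hkr : (0 : ℝ) < k := by exact_mod_cast hk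
  have hpr : (0 : ℝ) < p := by exact_mod_cast hp
  set c : ℝ := (4 * (p : ℝ) + 2 * k) / 3 with hc
  set δ : ℝ := c - (p + k) with hδ
  have hδ0 : δ ≠ 0 := by
    have : δ = ((p : ℝ) - k) / 3 := by
      rw [hδ, hc]
      ring
    rw [this]
    have h2 : (p : ℝ) - k ≠ 0 := sub_ne_zero.2 (by exact_mod_cast hpk)
    exact div_ne_zero h2 (by norm_num)
  set G : ℝ → ℝ := fun x => IG2_b p k x⁻¹ with hG
  have hbc : Continuous (IG2_b p k) := by
    unfold IG2_b
    fun_prop
  have hGlim : Tendsto G atTop (𝓝 1) := by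
    have h1 : Tendsto (fun x : ℝ => x⁻¹) atTop (𝓝 0) := tendsto_inv_atTop_zero
    have h2 := (hbc.tendsto 0).comp h1
    have h3 : IG2_b p k 0 = 1 := by
      unfold IG2_b
      rw [zero_pow (by omega), zero_pow (by omega)]
      ring
    rw [h3] at h2
    exact h2
  set A : ℝ → ℝ := fun x => (x ^ (p + k))⁻¹ - ((p : ℝ) + k) / k * (x ^ k)⁻¹ + (p : ℝ) / k with hA
  have hAlim : Tendsto A atTop (𝓝 ((p : ℝ) / k)) := by
    have h1 : Tendsto (fun x : ℝ => (x ^ (p + k))⁻¹) atTop (𝓝 0) :=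
      (tendsto_pow_atTop (by omega)).inv_tendsto_atTop
    have h2 : Tendsto (fun x : ℝ => (x ^ k)⁻¹) atTop (𝓝 0) :=
      (tendsto_pow_atTop (by omega)).inv_tendsto_atTop
    have h3 := (h1.sub (h2.const_mul (((p : ℝ) + k) / k))).add_const ((p : ℝ) / k)
    simpa using h3
  -- the equation
  have heq : ∀ᶠ x : ℝ in atTop, A x = Real.exp (δ * Real.log x) * G x := by
    filter_upwards [eventually_ge_atTop (1 : ℝ)] with x hx
    have hx0 : 0 < x := by linarith
    have h1 := IG2_global p k h x hx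
    rw [← Complex.ofReal_inv, IG2_Bm, IG2_Bm, IG2_Mc p k x hx0, ← Complex.ofReal_mul] at h1
    have h2 : IG2_b p k x = Real.exp (c * Real.log x) * IG2_b p k x⁻¹ :=
      Complex.ofReal_injective h1
    have h5 : Real.exp (c * Real.log x) = x ^ (p + k) * Real.exp (δ * Real.log x) := by
      have e2 : x ^ (p + k) = Real.exp (((p : ℝ) + k) * Real.log x) := by
        have : ((p : ℝ) + k) * Real.log x = Real.log (x ^ (p + k)) := by
          rw [Real.log_pow]
          push_cast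
          rfl
        rw [this, Real.exp_log (by positivity)]
      rw [e2, ← Real.exp_add]
      congr 1
      rw [hδ]
      ring
    rw [h5] at h2
    have h6 : A x = IG2_b p k x / x ^ (p + k) := by
      show (x ^ (p + k))⁻¹ - ((p : ℝ) + k) / k * (x ^ k)⁻¹ + (p : ℝ) / k = _
      unfold IG2_b
      rw [pow_add]
      field_simp
    rw [h6, h2]
    show _ = Real.exp (δ * Real.log x) * IG2_b p k x⁻¹
    field_simp
  have hratio : Tendsto (fun x : ℝ => Real.exp (δ * Real.log x)) atTop (𝓝 ((p : ℝ) / k / 1)) := by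
    have h1 := hAlim.div hGlim one_ne_zero
    refine h1.congr' ?_
    have hGne : ∀ᶠ x in atTop, G x ≠ 0 := hGlim.eventually_ne one_ne_zero
    filter_upwards [heq, hGne] with x hx hne
    show A x / G x = _
    rw [hx]
    exact mul_div_cancel_right₀ _ hne
  have hlam : (0 : ℝ) < (p : ℝ) / k / 1 := by positivity
  rcases lt_or_gt_of_ne hδ0 with hneg | hpos
  · have h1 : Tendsto (fun x : ℝ => Real.exp (δ * Real.log x)) atTop (𝓝 0) :=
      Real.tendsto_exp_atBot.comp (Real.tendsto_log_atTop.const_mul_atTop_of_neg hneg)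
    exact hlam.ne' (tendsto_nhds_unique hratio h1)
  · have h1 : Tendsto (fun x : ℝ => Real.exp (δ * Real.log x)) atTop atTop :=
      Real.tendsto_exp_atTop.comp (Real.tendsto_log_atTop.const_mul_atTop hpos)
    exact not_tendsto_nhds_of_tendsto_atTop h1 _ hratio

end H719FX
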