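import Pool.Agent.H719R4.FX.Iso

/-! Task IINT: passing to the coordinate tau at an isotropic branch. -/

open Complex Set Filter Topology

namespace H719FX

open H738CZ

theorem IINT_const {S : Set ℂ} (hS : IsPreconnected S) {f : ℂ → ℂ} (hc : ContinuousOn f S)
    (h3 : ∀ t ∈ S, f t ^ 6 = 1) {x y : ℂ} (hx : x ∈ S) (hy : y ∈ S) : f x = f y := by
  refine hS.constant_of_mapsTo (T := (↑(Polynomial.nthRootsFinset 6 (1 : ℂ)) : Set ℂ))
    (Finset.finite_toSet _).isDiscrete hc ?_ hx hy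
  intro t ht
  rw [Finset.mem_coe, Polynomial.mem_nthRootsFinset (by norm_num)]
  exact h3 t ht

theorem tIINT (hCHG : StCHG) (hMON : StMON) : StIINT := by
  intro p k v R ρ Ψ s1 hp hk hU hs1 hs10 hΨ hE hG
  obtain ⟨η, hη, r0, g, hFI, C, s, hC, hs0, hs1', hGB⟩ := hG
  have hΨe : ∀ᶠ s in 𝓝 s1, DifferentiableAt ℂ Ψ s :=
    hΨ.eventually_analyticAt.mono fun s hs => hs.differentiableAt
  obtain ⟨ε, hε, hEε⟩ := Metric.eventually_nhds_iff_ball.1 (hΨe.and hE)
  obtain ⟨τ1, hτ1⟩ : ∃ τ1 : ℂ, τ1 ^ 6 = s1 := IsAlgClosed.exists_pow_nat_eq s1 (by norm_num)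
  have hτ10 : τ1 ≠ 0 := by
    rintro rfl
    exact hs10 (by rw [← hτ1]; norm_num)
  have hτ1R : ‖τ1‖ < R := by
    have h1 : ‖τ1‖ ^ 6 < R ^ 6 := by
      rw [← norm_pow, hτ1]
      simpa using hs1
    exact lt_of_pow_lt_pow_left₀ 6 hU.pos.le h1
  have hcont : Continuous (fun τ : ℂ => τ ^ 6) := continuous_pow 6
  have hev : ∀ᶠ τ in 𝓝 τ1, (τ ^ 6 ∈ Metric.ball s1 ε ∧ τ ^ 6 ∈ Metric.ball (0 : ℂ) (R ^ 6)) ∧
      Ψ (τ ^ 6) ∈ Metric.ball (Ψ s1) η ∧ τ ∈ V3 R := by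
    refine Filter.Eventually.and (Filter.Eventually.and ?_ ?_) (Filter.Eventually.and ?_ ?_)
    · exact hcont.continuousAt.eventually_mem
        (Metric.isOpen_ball.mem_nhds (by simp only [hτ1]; exact Metric.mem_ball_self hε))
    · exact hcont.continuousAt.eventually_mem
        (Metric.isOpen_ball.mem_nhds (by simp only [hτ1]; exact hs1))
    · have h1 : ContinuousAt (fun τ : ℂ => Ψ (τ ^ 6)) τ1 := by
        apply ContinuousAt.comp (g := Ψ) (f := fun τ : ℂ => τ ^ 6)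
        · rw [hτ1]; exact hΨ.continuousAt
        · exact hcont.continuousAt
      exact h1.eventually_mem
        (Metric.isOpen_ball.mem_nhds (by simp only [hτ1]; exact Metric.mem_ball_self hη))
    · have h1 : IsOpen (V3 R) := Metric.isOpen_ball.sdiff isClosed_singleton
      refine h1.mem_nhds ⟨?_, ?_⟩
      · simpa using hτ1R
      · simpa using hτ10
  obtain ⟨η', hη', hsub⟩ := Metric.eventually_nhds_iff_ball.1 hev
  set χ : ℂ → ℂ := fun τ => Ψ (τ ^ 6) with hχ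
  have hmaps : MapsTo χ (Metric.ball τ1 η') (Metric.ball (Ψ s1) η) :=
    fun t ht => (hsub t ht).2.1
  have hmaps2 : MapsTo (fun τ : ℂ => τ ^ 6) (Metric.ball τ1 η') (Metric.ball 0 (R ^ 6)) :=
    fun t ht => (hsub t ht).1.2
  have hV3 : Metric.ball τ1 η' ⊆ V3 R := fun t ht => (hsub t ht).2.2
  have hne : ∀ t ∈ Metric.ball τ1 η', t ≠ 0 := fun t ht => by
    have := (hV3 ht).2
    simpa using this
  have hk0 : (k : ℂ) ≠ 0 := by
    have : k ≠ 0 := by omega
    exact_mod_cast this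
  -- derivative of Ψ
  have hdΨ : ∀ t ∈ Metric.ball τ1 η', HasDerivAt χ (di k t) t := by
    intro t ht
    have ht0 := hne t ht
    have htε := (hsub t ht).1.1
    have hd := (hEε _ htε).1.hasDerivAt
    have h1 : HasDerivAt (fun s => cexp (2 * I * Ψ s))
        (cexp (2 * I * Ψ (t ^ 6)) * (2 * I * deriv Ψ (t ^ 6))) (t ^ 6) :=
      (hd.const_mul (2 * I)).cexp
    have h2 : HasDerivAt (fun s : ℂ => s ^ k) (k * (t ^ 6) ^ (k - 1)) (t ^ 6) :=
      hasDerivAt_pow k _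
    have h3 : (fun s => cexp (2 * I * Ψ s)) =ᶠ[𝓝 (t ^ 6)] fun s => s ^ k := by
      filter_upwards [Metric.isOpen_ball.mem_nhds htε] with s hs
      exact (hEε s hs).2.1
    have h4 := (h1.congr_of_eventuallyEq h3.symm).unique h2
    rw [(hEε _ htε).2.1] at h4
    have h5 : (t ^ 6) ^ k = (t ^ 6) ^ (k - 1) * t ^ 6 := by
      rw [← pow_succ]
      congr 1
      omega
    have h6 : (t ^ 6) ^ (k - 1) ≠ 0 := pow_ne_zero _ (pow_ne_zero _ ht0)
    have h7 : t ^ 6 * (2 * I * deriv Ψ (t ^ 6)) = k := by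
      rw [h5] at h4
      apply mul_left_cancel₀ h6
      rw [← mul_assoc, h4]
      ring
    have h8 : HasDerivAt χ (deriv Ψ (t ^ 6) * ((6 : ℕ) * t ^ (6 - 1))) t :=
      HasDerivAt.comp t (h₂ := Ψ) hd (hasDerivAt_pow 6 t)
    have h9 : deriv Ψ (t ^ 6) * ((6 : ℕ) * t ^ (6 - 1)) = di k t := by
      unfold di
      rw [eq_div_iff ht0]
      push_cast
      have hI : I * I = -1 := I_mul_I
      have e1 : deriv Ψ (t ^ 6) * (6 * t ^ (6 - 1)) * t =
          -(3 * I * (t ^ 6 * (2 * I * deriv Ψ (t ^ 6)))) := by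
        have e2 : t ^ (6 - 1) = t ^ 5 := by norm_num
        rw [e2]
        linear_combination (6 * t ^ 6 * deriv Ψ (t ^ 6)) * hI
      rw [e1, h7]
    rw [← h9]
    exact h8
  have h1 := hCHG kcs (fun _ => 1) ρ r0 g (Metric.ball (Ψ s1) η) (di k) χ
    (Metric.ball τ1 η') hFI Metric.isOpen_ball
    (fun t ht => (hdΨ t ht).differentiableAt.differentiableWithinAt) hmaps
    (fun t ht => by
      rw [(hdΨ t ht).deriv, one_mul])
    (fun t ht => by
      unfold di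
      refine div_ne_zero (neg_ne_zero.2 (mul_ne_zero (mul_ne_zero (by norm_num) I_ne_zero) hk0))
        (hne t ht))
  set f : ℂ → ℂ := fun τ => r0 (χ τ) / (τ ^ (2 * p + k) * v (τ ^ 6)) with hf
  have hden : ∀ t ∈ Metric.ball τ1 η', t ^ (2 * p + k) * v (t ^ 6) ≠ 0 := fun t ht =>
    mul_ne_zero (pow_ne_zero _ (hne t ht)) (hU.nz _ (hmaps2 ht))
  have hχc : ContinuousOn χ (Metric.ball τ1 η') := fun t ht =>
    (hdΨ t ht).continuousAt.continuousWithinAt
  have hfc : ContinuousOn f (Metric.ball τ1 η') := by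
    refine ContinuousOn.div ?_ ?_ hden
    · exact hFI.base.rd.continuousOn.comp hχc hmaps
    · exact (continuous_pow _).continuousOn.mul
        (hU.df.continuousOn.comp hcont.continuousOn hmaps2)
  have hf3 : ∀ t ∈ Metric.ball τ1 η', f t ^ 6 = 1 := by
    intro t ht
    have ht0 := hne t ht
    have h2 : ρ (χ t) = r0 (χ t) ^ 3 := hFI.base.cube _ (hmaps ht)
    obtain ⟨-, h3, h4⟩ := hEε _ (hsub t ht).1.1
    have h5 := hden t ht
    have h6 : cexp (I * Ψ (t ^ 6)) ^ 2 = (t ^ 6) ^ k := by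
      rw [← Complex.exp_nat_mul, ← h3]
      congr 1
      push_cast
      ring
    have h7 : r0 (χ t) ^ 6 * (t ^ 6) ^ k = (t ^ (2 * p + k) * v (t ^ 6)) ^ 6 * (t ^ 6) ^ k := by
      calc r0 (χ t) ^ 6 * (t ^ 6) ^ k = (ρ (χ t) * cexp (I * Ψ (t ^ 6))) ^ 2 := by
            rw [h2, mul_pow, h6]
            ring
        _ = ((t ^ 6) ^ (p + k) * v (t ^ 6) ^ 3) ^ 2 := by rw [← h4]
        _ = _ := by ring
    have h8 : r0 (χ t) ^ 6 = (t ^ (2 * p + k) * v (t ^ 6)) ^ 6 :=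
      mul_right_cancel₀ (pow_ne_zero _ (pow_ne_zero _ ht0)) h7
    rw [hf]
    simp only
    rw [div_pow, div_eq_one_iff_eq (pow_ne_zero 6 h5)]
    exact h8
  have hω := hf3 τ1 (Metric.mem_ball_self hη')
  have hω0 : f τ1 ≠ 0 := by
    intro h
    rw [h] at hω
    norm_num at hω
  have hr : ∀ t ∈ Metric.ball τ1 η', r0 (χ t) = t ^ (2 * p + k) * (f τ1 * v (t ^ 6)) := by
    intro t ht
    rw [← IINT_const (convex_ball _ _).isPreconnected hfc hf3 ht (Metric.mem_ball_self hη')]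
    have h5 := hden t ht
    rw [hf]
    simp only
    have e : t ^ (2 * p + k) * (r0 (χ t) / (t ^ (2 * p + k) * v (t ^ 6)) * v (t ^ 6)) =
        r0 (χ t) * ((t ^ (2 * p + k) * v (t ^ 6)) / (t ^ (2 * p + k) * v (t ^ 6))) := by ring
    rw [e, div_self h5, mul_one]
  refine ⟨f τ1, τ1, η', fun j => g j ∘ χ, hω0, hη', hV3, ?_, C, s, hC, hs0, hs1', ?_⟩
  · refine hMON kcs (di k) (ρ ∘ χ) (r0 ∘ χ) (di k) _ _
      (fun j => g j ∘ χ) _ (Metric.ball τ1 η') (Metric.ball τ1 η') h1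
      Metric.isOpen_ball subset_rfl (fun _ _ => rfl) ?_ ?_ (fun _ _ _ _ => rfl)
    · intro t ht
      show (t ^ (2 * p + k) * (f τ1 * v (t ^ 6))) ^ 3 = ρ (χ t)
      rw [← hr t ht]
      exact (hFI.base.cube _ (hmaps ht)).symm
    · intro t ht
      show t ^ (2 * p + k) * (f τ1 * v (t ^ 6)) = r0 (χ t)
      exact (hr t ht).symm
  · intro j hj t ht
    exact hGB j hj _ (hmaps ht)

end H719FX
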