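import Pool.Agent.H719R4.FX.Iso

/-!
# ILG: strict inequality in the local coordinate
-/

open Complex Set Filter Topology

namespace H719FX

open H738CZ

theorem ILG_sin (a b : ℕ) (ha : 1 ≤ a) (hab : a < b) (θ : ℝ) (h0 : 0 < θ)
    (h1 : θ ≤ Real.pi / b) : (a : ℝ) * Real.sin (b * θ) < b * Real.sin (a * θ) := by
  have hb : (0 : ℝ) < b := by exact_mod_cast (by omega : 0 < b)
  have ha' : (0 : ℝ) < a := by exact_mod_cast (by omega : 0 < a)
  have hab' : (a : ℝ) < b := by exact_mod_cast hab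
  have hbθ : (b : ℝ) * θ ≤ Real.pi := by
    rw [le_div_iff₀ hb] at h1
    linarith
  have hbθ0 : 0 < (b : ℝ) * θ := mul_pos hb h0
  have hsc := strictConcaveOn_sin_Icc.2
  have key := @hsc ((b : ℝ) * θ) ⟨hbθ0.le, hbθ⟩ 0 ⟨le_rfl, Real.pi_pos.le⟩ hbθ0.ne'
    ((a : ℝ) / (b : ℝ)) (1 - (a : ℝ) / (b : ℝ)) (div_pos ha' hb)
    (by rw [sub_pos, div_lt_one hb]; exact hab') (by ring)
  simp only [smul_eq_mul, Real.sin_zero, mul_zero, add_zero] at key
  have e1 : (a : ℝ) / b * (b * θ) = a * θ := by field_simp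
  rw [e1] at key
  have e2 : (a : ℝ) * Real.sin (b * θ) = b * ((a : ℝ) / b * Real.sin (b * θ)) := by field_simp
  rw [e2]
  exact mul_lt_mul_of_pos_left key hb

theorem ILG_im (p k : ℕ) (θ : ℝ) : (Bm p k (cexp (θ * I))).im =
    -(((p : ℝ) + k) / k * Real.sin (p * θ)) + (p : ℝ) / k * Real.sin (((p + k : ℕ) : ℝ) * θ) := by
  have e1 : ∀ n : ℕ, cexp (θ * I) ^ n = cexp (((n * θ : ℝ) : ℂ) * I) := by
    intro n
    rw [← Complex.exp_nat_mul]
    congr 1
    push_cast
    ring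
  unfold Bm
  rw [e1, e1]
  have e2 : ((p : ℂ) + k) / k = ((((p : ℝ) + k) / k : ℝ) : ℂ) := by push_cast; ring
  have e3 : (p : ℂ) / k = (((p : ℝ) / k : ℝ) : ℂ) := by push_cast; ring
  rw [e2, e3, Complex.add_im, Complex.sub_im, Complex.im_ofReal_mul, Complex.im_ofReal_mul,
    Complex.exp_ofReal_mul_I_im, Complex.exp_ofReal_mul_I_im, Complex.one_im]
  ring

theorem ILG_neg (p k : ℕ) (hp : 1 ≤ p) (hk : 1 ≤ k) (θ : ℝ) (h0 : 0 < θ)
    (h1 : θ ≤ Real.pi / ((p : ℝ) + k)) : (Bm p k (cexp (θ * I))).im < 0 := by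
  have hk' : (0 : ℝ) < k := by exact_mod_cast (by omega : 0 < k)
  have h := ILG_sin p (p + k) hp (by omega) θ h0 (by push_cast; exact h1)
  rw [ILG_im]
  have e : -(((p : ℝ) + k) / k * Real.sin (p * θ)) +
      (p : ℝ) / k * Real.sin (((p + k : ℕ) : ℝ) * θ) =
      ((p : ℝ) * Real.sin (((p + k : ℕ) : ℝ) * θ) -
        ((p + k : ℕ) : ℝ) * Real.sin (p * θ)) / k := by
    push_cast
    field_simp
    ring
  rw [e]
  exact div_neg_of_neg_of_pos (by linarith) hk'

theorem ILG_pos (p k : ℕ) (hp : 1 ≤ p) (hk : 1 ≤ k) (θ : ℝ) (h0 : θ < 0)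
    (h1 : -(Real.pi / ((p : ℝ) + k)) ≤ θ) : 0 < (Bm p k (cexp (θ * I))).im := by
  have h := ILG_neg p k hp hk (-θ) (by linarith) (by linarith)
  rw [ILG_im] at h ⊢
  rw [mul_neg, mul_neg, Real.sin_neg, Real.sin_neg] at h
  linarith

theorem tILG : StILG := by
  intro p k r c1 X W hp hk hL
  refine ⟨r, hL.r0, le_rfl, ?_⟩
  intro w hw hre hw0
  obtain ⟨hn, harg⟩ := hL.ge w hw hre
  rcases hn.lt_or_eq with h | h
  · exact h
  exfalso
  obtain ⟨θ, hθ⟩ : ∃ θ : ℝ, θ = arg (X w) := ⟨_, rfl⟩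
  have hX : X w = cexp (θ * I) := by
    have := Complex.norm_mul_exp_arg_mul_I (X w)
    rw [← h, Complex.ofReal_one, one_mul] at this
    rw [hθ]
    exact this.symm
  have him : (X w).im = Real.sin θ := by rw [hX, Complex.exp_ofReal_mul_I_im]
  rw [← hθ] at harg
  obtain ⟨ha1, ha2⟩ := abs_le.1 harg
  have hpk : (0 : ℝ) < (p : ℝ) + k := by
    have : (0 : ℝ) < p := by exact_mod_cast (by omega : 0 < p)
    positivity
  have hlt : Real.pi / ((p : ℝ) + k) < Real.pi := by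
    rw [div_lt_iff₀ hpk]
    have h2 : (1 : ℝ) ≤ p := by exact_mod_cast hp
    have h3 : (1 : ℝ) ≤ k := by exact_mod_cast hk
    nlinarith [Real.pi_pos]
  have hB : (Bm p k (X w)).im = 2 * (w.re * w.im) := by
    rw [hL.BX w hw, sq, Complex.mul_im]
    ring
  have hθ0 : θ = 0 := by
    rcases lt_trichotomy θ 0 with h1 | h1 | h1
    · exfalso
      have h2 : w.im ≤ 0 := by
        by_contra hcon
        have h3 := hL.imp w hw (le_of_lt (not_le.1 hcon))
        rw [him] at h3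
        have := Real.sin_neg_of_neg_of_neg_pi_lt h1 (by linarith)
        linarith
      have h4 := ILG_pos p k hp hk θ h1 ha1
      rw [← hX, hB] at h4
      have := mul_nonpos_of_nonneg_of_nonpos hre h2
      linarith
    · exact h1
    · exfalso
      have h2 : 0 ≤ w.im := by
        by_contra hcon
        have h3 := hL.imn w hw (le_of_lt (not_le.1 hcon))
        rw [him] at h3
        have := Real.sin_pos_of_pos_of_lt_pi h1 (by linarith)
        linarith
      have h4 := ILG_neg p k hp hk θ h1 ha2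
      rw [← hX, hB] at h4
      have := mul_nonneg hre h2
      linarith
  have hX1 : X w = 1 := by rw [hX, hθ0]; simp
  have hk0 : (k : ℂ) ≠ 0 := by exact_mod_cast (by omega : k ≠ 0)
  have h5 := hL.BX w hw
  rw [hX1] at h5
  have h6 : Bm p k 1 = 0 := by
    unfold Bm
    rw [one_pow, one_pow]
    field_simp
    ring
  rw [h6] at h5
  exact hw0 (by simpa using h5.symm)

end H719FX
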