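import Pool.Agent.H719R4.FX.Iso

/-!
# ILIM: the leading coefficients satisfy the model law (isotropic branches)
-/

open Complex Set Filter Topology

namespace H719FX

open H738CZ

theorem ILIM_V3_open (R : ℝ) : IsOpen (V3 R) :=
  Metric.isOpen_ball.sdiff isClosed_singleton

theorem ILIM_V3_nhds {R : ℝ} (hR : 0 < R) : V3 R ∈ 𝓝[≠] (0 : ℂ) := by
  rw [mem_nhdsWithin]
  exact ⟨Metric.ball 0 R, Metric.isOpen_ball, Metric.mem_ball_self hR, fun x hx => ⟨hx.1, hx.2⟩⟩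

/-- iterated coordinate derivative of `F τ * τ^(-w)` -/
theorem ILIM_iter (k : ℕ) (hk : 1 ≤ k) (R : ℝ) (f F : ℂ → ℂ) (w : ℤ)
    (hF : DifferentiableOn ℂ F (Metric.ball 0 R))
    (h : ∀ τ ∈ V3 R, f τ = F τ * τ ^ (-w)) (l : ℕ) :
    ∃ F' : ℂ → ℂ, DifferentiableOn ℂ F' (Metric.ball 0 R) ∧
      (∀ τ ∈ V3 R, ((DD (di k))^[l] f) τ = F' τ * τ ^ (-w)) ∧
      F' 0 = (-(I * w) / (3 * k)) ^ l * F 0 := by
  have hk0 : (k : ℂ) ≠ 0 := by rw [Nat.cast_ne_zero]; omega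
  induction l with
  | zero => exact ⟨F, hF, fun τ hτ => by simpa using h τ hτ, by simp⟩
  | succ l ih =>
    obtain ⟨F', hF', h', h0⟩ := ih
    refine ⟨fun τ => I * (τ * deriv F' τ - w * F' τ) / (3 * k), ?_, ?_, ?_⟩
    · exact ((differentiableOn_const _).mul ((differentiableOn_id.mul
        (hF'.deriv Metric.isOpen_ball)).sub ((differentiableOn_const _).mul hF'))).div_const _
    · intro τ hτ
      have hτ0 : τ ≠ 0 := hτ.2
      rw [Function.iterate_succ_apply']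
      have hd : deriv ((DD (di k))^[l] f) τ = deriv (fun τ => F' τ * τ ^ (-w)) τ := by
        apply Filter.EventuallyEq.deriv_eq
        filter_upwards [(ILIM_V3_open R).mem_nhds hτ] with x hx using h' x hx
      have h1 : HasDerivAt F' (deriv F' τ) τ :=
        (hF'.differentiableAt (Metric.isOpen_ball.mem_nhds hτ.1)).hasDerivAt
      have h2 := hasDerivAt_zpow (-w) τ (Or.inl hτ0)
      have h3 : deriv (fun τ => F' τ * τ ^ (-w)) τ = _ := (h1.mul h2).deriv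
      show deriv ((DD (di k))^[l] f) τ / (-(3 * I * k) / τ) = _
      rw [hd, h3]
      have e2 : τ ^ (-w - 1) = τ ^ (-w) * τ⁻¹ := by
        rw [zpow_sub_one₀ hτ0]
      rw [e2]
      generalize τ ^ (-w) = z
      push_cast
      have hI : (I : ℂ) ≠ 0 := I_ne_zero
      have hI2 : I * I = -1 := I_mul_I
      rw [div_div_eq_mul_div, div_eq_iff (neg_ne_zero.2 (mul_ne_zero (mul_ne_zero
        (by norm_num) hI) hk0))]
      field_simp
      linear_combination ((τ * deriv F' τ) * z - (w : ℂ) * F' τ * z) * hI2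
    · show I * (0 * deriv F' 0 - w * F' 0) / (3 * k) = _
      rw [h0, pow_succ]
      field_simp
      ring

/-- weighted limits of the iterated derivatives -/
theorem ILIM_lim (k : ℕ) (hk : 1 ≤ k) (R : ℝ) (hR : 0 < R) (f F : ℂ → ℂ) (w : ℤ)
    (hF : DifferentiableOn ℂ F (Metric.ball 0 R))
    (h : ∀ τ ∈ V3 R, f τ = F τ * τ ^ (-w)) (l : ℕ) :
    Tendsto (fun τ => ((DD (di k))^[l] f) τ * τ ^ w) (𝓝[≠] 0)
      (𝓝 ((-(I * w) / (3 * k)) ^ l * F 0)) := by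
  obtain ⟨F', hF', h', h0⟩ := ILIM_iter k hk R f F w hF h l
  rw [← h0]
  have hc : Tendsto F' (𝓝[≠] 0) (𝓝 (F' 0)) :=
    ((hF'.differentiableAt (Metric.isOpen_ball.mem_nhds
      (Metric.mem_ball_self hR))).continuousAt.tendsto).mono_left nhdsWithin_le_nhds
  refine hc.congr' ?_
  filter_upwards [ILIM_V3_nhds hR] with τ hτ
  have hτ0 : τ ≠ 0 := hτ.2
  rw [h' τ hτ, mul_assoc, ← zpow_add₀ hτ0]
  simp

/-- coefficientwise weighted limits -/
def ILIM_PW (A : ℂ → PowerSeries ℂ) (w : ℤ) (a : PowerSeries ℂ) : Prop :=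
  ∀ n : ℕ, Tendsto (fun τ : ℂ => PowerSeries.coeff n (A τ) * τ ^ w)
    (𝓝[≠] 0) (𝓝 (PowerSeries.coeff n a))

theorem ILIM_mul {A B : ℂ → PowerSeries ℂ} {w v : ℤ} {a b : PowerSeries ℂ}
    (hA : ILIM_PW A w a) (hB : ILIM_PW B v b) :
    ILIM_PW (fun τ => A τ * B τ) (w + v) (a * b) := by
  intro n
  rw [PowerSeries.coeff_mul]
  have h : Tendsto (fun τ : ℂ => ∑ p ∈ Finset.HasAntidiagonal.antidiagonal n,
      (PowerSeries.coeff p.1 (A τ) * τ ^ w)
        * (PowerSeries.coeff p.2 (B τ) * τ ^ v)) (𝓝[≠] 0)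
      (𝓝 (∑ p ∈ Finset.HasAntidiagonal.antidiagonal n,
        PowerSeries.coeff p.1 a * PowerSeries.coeff p.2 b)) :=
    tendsto_finsetSum _ fun p _ => (hA p.1).mul (hB p.2)
  refine h.congr' ?_
  filter_upwards [self_mem_nhdsWithin] with τ hτ
  have hτ0 : τ ≠ 0 := hτ
  rw [PowerSeries.coeff_mul, Finset.sum_mul]
  refine Finset.sum_congr rfl fun p hp => ?_
  rw [zpow_add₀ hτ0]
  ring

theorem ILIM_one : ILIM_PW (fun _ => 1) 0 1 := by
  intro n
  simp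

theorem ILIM_pow {A : ℂ → PowerSeries ℂ} {w : ℤ} {a : PowerSeries ℂ} (hA : ILIM_PW A w a)
    (j : ℕ) : ILIM_PW (fun τ => A τ ^ j) (j * w) (a ^ j) := by
  induction j with
  | zero => simpa using ILIM_one
  | succ j ih =>
    have h := ILIM_mul ih hA
    have e : ((j : ℤ) * w + w) = ((j + 1 : ℕ) : ℤ) * w := by push_cast; ring
    rw [e] at h
    simpa only [pow_succ] using h

theorem ILIM_six {R : ℝ} {τ : ℂ} (h : τ ∈ Metric.ball (0 : ℂ) R) :
    τ ^ 6 ∈ Metric.ball (0 : ℂ) (R ^ 6) := by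
  rw [mem_ball_zero_iff] at h ⊢
  rw [norm_pow]
  exact pow_lt_pow_left₀ h (norm_nonneg _) (by norm_num)

theorem ILIM_du {u : ℂ → ℂ} {R : ℝ} (hu : UI u R) :
    DifferentiableOn ℂ (fun τ => u (τ ^ 6)) (Metric.ball 0 R) :=
  hu.df.comp (differentiableOn_pow 6) fun _ hτ => ILIM_six hτ

/-- the Taylor shift part -/
theorem ILIM_Es {p k : ℕ} (hk : 1 ≤ k) {u : ℂ → ℂ} {R : ℝ} (hu : UI u R) (g : ℕ → ℂ → ℂ)
    (G : ℂ → ℂ) (j : ℕ) (hj : 1 ≤ j) (hP : PolI p k R g j G) :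
    ILIM_PW (fun τ => Es (di k) (fun t => g j t * ((ri p k u t)⁻¹) ^ j) τ)
      ((2 * p + k) * (3 * j - 2))
      (PowerSeries.C (G 0 * ((u 0)⁻¹) ^ j) * expS (I * (2 * p + k) * (2 - 3 * j) / (3 * k))) := by
  have hk0 : (k : ℂ) ≠ 0 := by rw [Nat.cast_ne_zero]; omega
  intro l
  have hF : DifferentiableOn ℂ (fun τ => G τ * ((u (τ ^ 6))⁻¹) ^ j) (Metric.ball 0 R) :=
    hP.1.mul (((ILIM_du hu).inv fun τ hτ => hu.nz _ (ILIM_six hτ)).pow j)
  have h := ILIM_lim k hk R hu.pos (fun t => g j t * ((ri p k u t)⁻¹) ^ j) _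
    ((2 * p + k) * (3 * j - 2)) hF ?_ l
  · have h2 := h.div_const (l.factorial : ℂ)
    have e : PowerSeries.coeff l (PowerSeries.C (G 0 * ((u 0)⁻¹) ^ j)
        * expS (I * (2 * p + k) * (2 - 3 * j) / (3 * k)))
        = (-(I * (((2 * p + k) * (3 * j - 2) : ℤ) : ℂ)) / (3 * k)) ^ l
            * ((fun τ => G τ * ((u (τ ^ 6))⁻¹) ^ j) 0) / (l.factorial : ℂ) := by
      rw [PowerSeries.coeff_C_mul, expS, PowerSeries.coeff_mk]
      have e1 : (I * (2 * p + k) * (2 - 3 * j) / (3 * k) : ℂ)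
          = -(I * (((2 * p + k) * (3 * j - 2) : ℤ) : ℂ)) / (3 * k) := by
        push_cast
        ring
      rw [e1]
      simp only [ne_eq, OfNat.ofNat_ne_zero, not_false_eq_true, zero_pow]
      ring
    rw [e]
    refine h2.congr fun τ => ?_
    simp only [Es, PowerSeries.coeff_mk]
    ring
  · intro τ hτ
    have hτ0 : τ ≠ 0 := hτ.2
    have hun : u (τ ^ 6) ≠ 0 := hu.nz _ (ILIM_six hτ.1)
    have hg := hP.2 τ hτ
    show g j τ * ((ri p k u τ)⁻¹) ^ j = G τ * ((u (τ ^ 6))⁻¹) ^ j * _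
    rw [← hg, ri]
    have e : τ ^ (-((2 * (p : ℤ) + k) * (3 * j - 2)))
        = (τ ^ ((4 * p + 2 * k) * (j - 1)))⁻¹ * ((τ ^ (2 * p + k))⁻¹) ^ j := by
      rw [inv_pow, ← pow_mul, ← zpow_natCast τ, ← zpow_natCast τ,
        ← zpow_neg, ← zpow_neg, ← zpow_add₀ hτ0]
      congr 1
      push_cast [Nat.cast_sub hj]
      ring
    rw [e, mul_inv, mul_pow]
    have hp : τ ^ ((4 * p + 2 * k) * (j - 1)) ≠ 0 := pow_ne_zero _ hτ0
    field_simp

/-- the arc part -/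
theorem ILIM_Ys {p k : ℕ} (hk : 1 ≤ k) {u : ℂ → ℂ} {R : ℝ} (hu : UI u R) :
    ILIM_PW (fun τ => Ys kcs (di k) (ρi p k u) τ) (-(3 * (2 * p + k))) (Yi p k (u 0)) := by
  have hk0 : (k : ℂ) ≠ 0 := by rw [Nat.cast_ne_zero]; omega
  have hF : DifferentiableOn ℂ (fun τ => u (τ ^ 6) ^ 3) (Metric.ball 0 R) := (ILIM_du hu).pow 3
  have hl := ILIM_lim k hk R hu.pos (ρi p k u) _ (-(3 * (2 * (p : ℤ) + k))) hF (by
    intro τ hτ
    have hτ0 : τ ≠ 0 := hτ.2
    have e : τ ^ (- -(3 * (2 * (p : ℤ) + k))) = (τ ^ (2 * p + k)) ^ 3 := by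
      rw [← pow_mul, ← zpow_natCast τ]
      congr 1
      push_cast
      ring
    rw [ρi, ri, e, mul_pow]
    ring)
  intro n
  rw [Yi, PowerSeries.coeff_mk]
  have hs : Tendsto (fun τ : ℂ => (∑ l ∈ Finset.range n,
      kcs (n - 1 - l) * (((DD (di k))^[l] (ρi p k u)) τ
          * τ ^ (-(3 * (2 * (p : ℤ) + k))))) / (n.factorial : ℂ)) (𝓝[≠] 0)
      (𝓝 ((∑ l ∈ Finset.range n, kcs (n - 1 - l) *
        ((-(I * ((-(3 * (2 * (p : ℤ) + k)) : ℤ) : ℂ)) / (3 * k)) ^ l * (u 0) ^ 3)) /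
          (n.factorial : ℂ))) := by
    refine Tendsto.div_const ?_ _
    refine tendsto_finsetSum _ fun l hln => ?_
    have h2 := (hl l).const_mul (kcs (n - 1 - l))
    simpa using h2
  have e4 : (∑ l ∈ Finset.range n, kcs (n - 1 - l) *
        ((-(I * ((-(3 * (2 * (p : ℤ) + k)) : ℤ) : ℂ)) / (3 * k)) ^ l * (u 0) ^ 3)) /
          (n.factorial : ℂ) = u 0 ^ 3 * (∑ l ∈ Finset.range n, kcs (n - 1 - l) *
            (I * (2 * p + k) / k) ^ l) / (n.factorial : ℂ) := by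
    congr 1
    rw [Finset.mul_sum]
    refine Finset.sum_congr rfl fun l _ => ?_
    have e5 : (-(I * ((-(3 * (2 * (p : ℤ) + k)) : ℤ) : ℂ)) / (3 * k) : ℂ)
        = I * (2 * p + k) / k := by
      push_cast
      field_simp
    rw [e5]
    ring
  rw [e4] at hs
  refine hs.congr fun τ => ?_
  show _ = PowerSeries.coeff n (Ys kcs (di k) (ρi p k u) τ) * τ ^ (-(3 * (2 * (p : ℤ) + k)))
  simp only [Ys, PowerSeries.coeff_mk]
  rw [div_mul_eq_mul_div, Finset.sum_mul]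
  congr 1
  refine Finset.sum_congr rfl fun l _ => ?_
  ring

theorem tILIM : StILIM := by
  intro p k u R hp hk hu g G hFI hP J hJ
  have hz : Tendsto (fun τ : ℂ => Cf kcs (di k) (ρi p k u) (ri p k u) g J (2 * J + 1) τ
      * τ ^ (-(2 * (2 * (p : ℤ) + k)))) (𝓝[≠] 0) (𝓝 0) := by
    refine tendsto_const_nhds.congr' ?_
    filter_upwards [ILIM_V3_nhds hu.pos] with τ hτ
    rw [hFI.law J hJ τ hτ, zero_mul]
  have hl : Tendsto (fun τ : ℂ => Cf kcs (di k) (ρi p k u) (ri p k u) g J (2 * J + 1) τ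
      * τ ^ (-(2 * (2 * (p : ℤ) + k)))) (𝓝[≠] 0)
      (𝓝 (PowerSeries.coeff (2 * J + 1) (∑ j ∈ Finset.Icc 1 J,
        PowerSeries.C (G j 0 * ((u 0)⁻¹) ^ j)
          * expS (I * (2 * p + k) * (2 - 3 * j) / (3 * k)) * (Yi p k (u 0)) ^ j))) := by
    rw [map_sum]
    have hs := tendsto_finsetSum (Finset.Icc 1 J) fun j (hj : j ∈ Finset.Icc 1 J) =>
      ILIM_mul (ILIM_Es hk hu g (G j) j (Finset.mem_Icc.1 hj).1 (hP j (Finset.mem_Icc.1 hj).1))
        (ILIM_pow (ILIM_Ys hk hu (p := p)) j) (2 * J + 1)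
    refine hs.congr fun τ => ?_
    rw [Cf, map_sum, Finset.sum_mul]
    refine Finset.sum_congr rfl fun j _ => ?_
    have e : ((2 * (p : ℤ) + k) * (3 * j - 2) + (j : ℤ) * (-(3 * (2 * p + k))))
          = -(2 * (2 * (p : ℤ) + k)) := by
      ring
    rw [e, Tm]
  exact tendsto_nhds_unique hl hz

end H719FX
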