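import Pool.Agent.H719R4.FX.Iso

/-!
IM4: convergence in the model, isotropic branches (adapted by helper784 from `FX/M4.lean`).
-/

open Complex Set Filter Topology

namespace H719FX

open H738CZ

/-- the coefficients with `α 0` replaced by `0` -/
noncomputable def IM4_a (α : ℕ → ℂ) : ℕ → ℂ := fun j => if j = 0 then 0 else α j

theorem IM4_SN (α : ℕ → ℂ) (N : ℕ) (z y : ℂ) (h : y = z ^ 2) :
    SN (IM4_a α) N z = ∑ j ∈ Finset.Ico 1 N, α j * y ^ j := by
  unfold SN
  symm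
  have h1 : ∀ j ∈ Finset.Ico 1 N, α j * y ^ j = IM4_a α j * z ^ (2 * j) := by
    intro j hj
    have hj1 := (Finset.mem_Ico.1 hj).1
    unfold IM4_a
    rw [if_neg (by omega), h, pow_mul]
  rw [Finset.sum_congr rfl h1]
  apply Finset.sum_subset
  · intro j hj
    exact Finset.mem_range.2 (Finset.mem_Ico.1 hj).2
  · intro j hj hj'
    have hj0 : j = 0 := by
      by_contra h0
      exact hj' (Finset.mem_Ico.2 ⟨by omega, Finset.mem_range.1 hj⟩)
    unfold IM4_a
    rw [if_pos hj0, zero_mul]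

theorem IM4_inv : Tendsto (fun s : ℂ => s⁻¹) (𝓝 1) (𝓝 1) := by
  have h : ContinuousAt (fun s : ℂ => s⁻¹) 1 := continuousAt_inv₀ one_ne_zero
  have h2 := h.tendsto
  simpa using h2

theorem tIM4 (hLOC : StLOC) (hITE : StITE) (hPAR : StPAR) : StIM4 := by
  intro p k α hp hk hrel hsg
  obtain ⟨r, c1, X, W, hL⟩ := hLOC p k hp hk
  obtain ⟨haT, haE, heT, heE⟩ := hITE p k r c1 X W hp hk hL
  have hdX : DifferentiableAt ℂ X 0 :=
    hL.dX.differentiableAt (Metric.ball_mem_nhds _ hL.r0)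
  have hX : Tendsto X (𝓝 0) (𝓝 1) := by
    have := hdX.continuousAt.tendsto
    rwa [hL.X0] at this
  have hW : Tendsto W (𝓝 1) (𝓝 0) := by
    have := hL.aW.continuousAt.tendsto
    rwa [hL.W0] at this
  have hBW : ∀ᶠ y in 𝓝 (1 : ℂ), Bm p k y = W y ^ 2 := by
    filter_upwards [hL.XW, hW.eventually (Metric.ball_mem_nhds (0 : ℂ) hL.r0)] with y h1 h2
    rw [← hL.BX _ h2, h1]
  have hBT : ∀ᶠ w in 𝓝 (0 : ℂ), Bm p k (X w)⁻¹ = (- W (X w)⁻¹) ^ 2 := by
    filter_upwards [(IM4_inv.comp hX).eventually hBW] with w hw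
    rw [neg_sq]
    exact hw
  have hpar : Par ((2 * (p : ℝ) + k) / 3 * c1) (fun w => - W (X w)⁻¹)
      (fun w => McI p k (X w)) (IM4_a α) := by
    refine ⟨?_, haT, haE, ?_, ?_, ?_, ?_, ?_⟩
    · have := hL.c0
      positivity
    · simpa using heT
    · simpa using heE
    · simp [IM4_a]
    · obtain ⟨C, s, hC, hs0, hs1, hb⟩ := hsg
      refine ⟨C, s, hC, hs0, hs1, fun j => ?_⟩
      by_cases hj : j = 0
      · subst hj
        simp [IM4_a]
      · have h1 : IM4_a α j = α j := by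
          unfold IM4_a
          rw [if_neg hj]
        rw [h1]
        exact hb j (Nat.one_le_iff_ne_zero.2 hj)
    · intro N
      have h1 := (hrel N).comp_tendsto hX
      have h2 : (fun w => X w - 1) =O[𝓝 0] (fun w : ℂ => w) := by
        have h3 := hdX.isBigO_sub
        rw [hL.X0] at h3
        simpa using h3
      have h3 : (fun w => (X w - 1) ^ (2 * N + 1)) =O[𝓝 0] (fun w : ℂ => w ^ (2 * N + 1)) :=
        h2.pow _
      refine Asymptotics.IsBigO.congr' (h1.trans h3) ?_ (Eventually.of_forall fun w => rfl)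
      filter_upwards [hBT, Metric.ball_mem_nhds (0 : ℂ) hL.r0] with w hw1 hw2
      rw [IM4_SN α N w (Bm p k (X w)) (hL.BX w hw2), IM4_SN α N (-W (X w)⁻¹) (Bm p k (X w)⁻¹) hw1]
      rfl
  obtain ⟨C, hC⟩ := hPAR _ _ _ _ hpar
  refine ⟨C, fun j hj => ?_⟩
  have h1 := hC j
  unfold IM4_a at h1
  rwa [if_neg (by omega)] at h1

end H719FX
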