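import Pool.Agent.H719R4.FX.Iso
import Pool.Agent.H738R3.CZ.MDL

/-! IMDL (helper85): from the model law to the model relation, isotropic branches. -/

open Complex Set Filter Topology

namespace H719FX

open H738CZ Asymptotics

theorem IMDL_expS (e : ℂ) : expS e = PowerSeries.rescale e (PowerSeries.exp ℂ) := by
  ext n
  rw [expS, PowerSeries.coeff_mk, PowerSeries.coeff_rescale, PowerSeries.coeff_exp]
  simp [div_eq_mul_inv]

theorem IMDL_expS_add (a b : ℂ) : expS (a + b) = expS a * expS b := by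
  rw [IMDL_expS, IMDL_expS, IMDL_expS, PowerSeries.exp_mul_exp_eq_exp_add]

theorem IMDL_expS_zero : expS 0 = 1 := by
  rw [IMDL_expS, PowerSeries.rescale_zero_apply, PowerSeries.constantCoeff_exp, map_one]

theorem IMDL_expS_pow (a : ℂ) (j : ℕ) : expS a ^ j = expS (a * j) := by
  induction j with
  | zero => rw [pow_zero, Nat.cast_zero, mul_zero, IMDL_expS_zero]
  | succ j ih =>
    rw [pow_succ, ih, ← IMDL_expS_add]
    congr 1
    push_cast
    ring

theorem IMDL_exp (e : ℂ) : MDL_R (fun d => cexp (e * d)) (expS e) := by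
  intro K
  have h := Complex.exp_sub_sum_range_isBigO_pow K
  have ht : Tendsto (fun d : ℂ => e * d) (𝓝 0) (𝓝 0) := by
    have := (continuous_const_mul e).tendsto (0 : ℂ)
    rwa [mul_zero] at this
  have h2 := h.comp_tendsto ht
  have h3 : ((fun x : ℂ => x ^ K) ∘ fun d : ℂ => e * d) =O[𝓝 0] fun d : ℂ => d ^ K := by
    refine IsBigO.of_bound (‖e‖ ^ K) (Eventually.of_forall fun y => ?_)
    rw [Function.comp_apply, mul_pow, norm_mul, norm_pow]
  refine (h2.trans h3).congr_left fun d => ?_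
  rw [Function.comp_apply]
  congr 1
  rw [Polynomial.eval, PowerSeries.eval₂_trunc_eq_sum_range]
  refine Finset.sum_congr rfl fun i _ => ?_
  rw [RingHom.id_apply, expS, PowerSeries.coeff_mk, mul_pow]
  ring

theorem IMDL_kcs (m : ℕ) : kcs m * (2 * I) = I ^ m - (-I) ^ m := by
  unfold kcs
  rcases Nat.even_or_odd' m with ⟨n, rfl | rfl⟩
  · rw [if_pos ⟨n, by ring⟩, Even.neg_pow ⟨n, by ring⟩]
    ring
  · rw [if_neg (by rw [Nat.not_even_iff_odd]; exact ⟨n, rfl⟩), Odd.neg_pow ⟨n, rfl⟩]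
    have h1 : (2 * n + 1) / 2 = n := by omega
    rw [h1, pow_succ, pow_mul, I_sq]
    ring

theorem IMDL_sum (a : ℂ) (n : ℕ) :
    (a ^ 2 + 1) * ∑ l ∈ Finset.range n, kcs (n - 1 - l) * a ^ l =
      a ^ n - (a + I) / (2 * I) * I ^ n + (a - I) / (2 * I) * (-I) ^ n := by
  have h2I : (2 * I : ℂ) ≠ 0 := by simp
  have h1 : (∑ l ∈ Finset.range n, kcs (n - 1 - l) * a ^ l) * (2 * I) =
      ∑ l ∈ Finset.range n, a ^ l * I ^ (n - 1 - l) -
        ∑ l ∈ Finset.range n, a ^ l * (-I) ^ (n - 1 - l) := by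
    rw [Finset.sum_mul, ← Finset.sum_sub_distrib]
    refine Finset.sum_congr rfl fun l _ => ?_
    have := IMDL_kcs (n - 1 - l)
    linear_combination a ^ l * this
  have h2 := (Commute.all a I).geom_sum₂_mul n
  have h3 := (Commute.all a (-I)).geom_sum₂_mul n
  have h4 : (2 * I : ℂ) * ((a ^ 2 + 1) * ∑ l ∈ Finset.range n, kcs (n - 1 - l) * a ^ l) =
      (2 * I) * (a ^ n - (a + I) / (2 * I) * I ^ n + (a - I) / (2 * I) * (-I) ^ n) := by
    have e1 : (2 * I : ℂ) * (a ^ n - (a + I) / (2 * I) * I ^ n + (a - I) / (2 * I) * (-I) ^ n) =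
        2 * I * a ^ n - (a + I) * I ^ n + (a - I) * (-I) ^ n := by
      field_simp
    rw [e1]
    have e2 : a ^ 2 + 1 = (a - I) * (a + I) := by
      linear_combination I_sq
    rw [e2]
    linear_combination (a - I) * (a + I) * h1 + (a + I) * h2 - (a - I) * h3
  exact mul_left_cancel₀ h2I h4

/-- the constant -/
noncomputable def IMDL_c (p k : ℕ) (υ : ℂ) : ℂ := -(υ ^ 3 * k ^ 2 / (4 * p * (p + k)))

/-- the exponent `i ν` -/
noncomputable def IMDL_a (p k : ℕ) : ℂ := I * (2 * p + k) / k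

/-- the series of `Bm (exp (-2 i d / k))` -/
noncomputable def IMDL_B (p k : ℕ) : PowerSeries ℂ :=
  1 - PowerSeries.C (((p : ℂ) + k) / k) * expS (-(2 * I * p / k)) +
    PowerSeries.C ((p : ℂ) / k) * expS (-(2 * I * (p + k) / k))

theorem IMDL_Yi (p k : ℕ) (hp : 1 ≤ p) (hk : 1 ≤ k) (υ : ℂ) :
    Yi p k υ = PowerSeries.C (IMDL_c p k υ) * (expS (IMDL_a p k) -
      PowerSeries.C (((p : ℂ) + k) / k) * expS I + PowerSeries.C ((p : ℂ) / k) * expS (-I)) := by
  have h1 : (p : ℂ) ≠ 0 := by exact_mod_cast (by omega : p ≠ 0)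
  have h2 : (k : ℂ) ≠ 0 := by exact_mod_cast (by omega : k ≠ 0)
  have h3 : (p : ℂ) + k ≠ 0 := by exact_mod_cast (by omega : p + k ≠ 0)
  ext n
  rw [PowerSeries.coeff_C_mul, map_add, map_sub, PowerSeries.coeff_C_mul, PowerSeries.coeff_C_mul]
  unfold Yi expS
  rw [PowerSeries.coeff_mk, PowerSeries.coeff_mk, PowerSeries.coeff_mk, PowerSeries.coeff_mk]
  have h4 : (n.factorial : ℂ) ≠ 0 := by exact_mod_cast n.factorial_ne_zero
  have h5 := IMDL_sum (IMDL_a p k) n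
  have e1 : (IMDL_a p k + I) / (2 * I) = ((p : ℂ) + k) / k := by
    unfold IMDL_a
    field_simp
    ring
  have e2 : (IMDL_a p k - I) / (2 * I) = (p : ℂ) / k := by
    unfold IMDL_a
    field_simp
    ring
  have e3 : (IMDL_a p k) ^ 2 + 1 = -(4 * p * (p + k) / k ^ 2) := by
    unfold IMDL_a
    rw [div_pow, mul_pow, I_sq]
    field_simp
    ring
  rw [e1, e2, e3] at h5
  have e4 : I * (2 * (p : ℂ) + k) / k = IMDL_a p k := rfl
  rw [e4]
  have e5 : ∑ l ∈ Finset.range n, kcs (n - 1 - l) * (IMDL_a p k) ^ l =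
      -(k ^ 2 / (4 * p * (p + k))) * ((IMDL_a p k) ^ n - ((p : ℂ) + k) / k * I ^ n +
        (p : ℂ) / k * (-I) ^ n) := by
    rw [← h5]
    field_simp
  rw [e5]
  unfold IMDL_c
  ring

theorem IMDL_YiB (p k : ℕ) (hp : 1 ≤ p) (hk : 1 ≤ k) (υ : ℂ) :
    Yi p k υ = expS (IMDL_a p k) * (PowerSeries.C (IMDL_c p k υ) * IMDL_B p k) := by
  have h2 : (k : ℂ) ≠ 0 := by exact_mod_cast (by omega : k ≠ 0)
  rw [IMDL_Yi p k hp hk]
  have e1 : expS I = expS (IMDL_a p k) * expS (-(2 * I * p / k)) := by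
    rw [← IMDL_expS_add]
    congr 1
    unfold IMDL_a
    field_simp
    ring
  have e2 : expS (-I) = expS (IMDL_a p k) * expS (-(2 * I * (p + k) / k)) := by
    rw [← IMDL_expS_add]
    congr 1
    unfold IMDL_a
    field_simp
    ring
  rw [e1, e2, IMDL_B]
  ring

theorem IMDL_B_dvd (p k : ℕ) (hk : 1 ≤ k) : (PowerSeries.X : PowerSeries ℂ) ^ 2 ∣ IMDL_B p k := by
  have h2 : (k : ℂ) ≠ 0 := by exact_mod_cast (by omega : k ≠ 0)
  rw [PowerSeries.X_pow_dvd_iff]
  intro n hn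
  unfold IMDL_B expS
  rw [map_add, map_sub, PowerSeries.coeff_C_mul, PowerSeries.coeff_C_mul, PowerSeries.coeff_mk,
    PowerSeries.coeff_mk, PowerSeries.coeff_one]
  interval_cases n
  · simp
    field_simp
    ring
  · simp
    field_simp
    ring

theorem IMDL_Bj_dvd (p k : ℕ) (hk : 1 ≤ k) (j : ℕ) :
    (PowerSeries.X : PowerSeries ℂ) ^ (2 * j) ∣ IMDL_B p k ^ j := by
  rw [pow_mul]
  exact pow_dvd_pow_of_dvd (IMDL_B_dvd p k hk) j

/-- the exponent `2 i ν / 3` -/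
noncomputable def IMDL_e (p k : ℕ) : ℂ := I * (2 * p + k) * 2 / (3 * k)

theorem IMDL_term (p k : ℕ) (hp : 1 ≤ p) (hk : 1 ≤ k) (υ b : ℂ) (j : ℕ) :
    PowerSeries.C b * expS (I * (2 * p + k) * (2 - 3 * j) / (3 * k)) * (Yi p k υ) ^ j =
      expS (IMDL_e p k) * (PowerSeries.C (b * (IMDL_c p k υ) ^ j) * IMDL_B p k ^ j) := by
  have h2 : (k : ℂ) ≠ 0 := by exact_mod_cast (by omega : k ≠ 0)
  have h1 : expS (IMDL_e p k) = expS (I * (2 * p + k) * (2 - 3 * j) / (3 * k)) *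
      expS (IMDL_a p k) ^ j := by
    rw [IMDL_expS_pow, ← IMDL_expS_add]
    congr 1
    unfold IMDL_e IMDL_a
    field_simp
    ring
  rw [h1, IMDL_YiB p k hp hk, mul_pow, mul_pow, ← map_pow, map_mul]
  ring

theorem IMDL_coeff {p k : ℕ} (hp : 1 ≤ p) (hk : 1 ≤ k) {υ : ℂ} {β : ℕ → ℂ} (h : MLawI p k υ β)
    (N i : ℕ) (hi : i < N) :
    PowerSeries.coeff (2 * i + 1) (expS (IMDL_e p k) *
      ∑ j ∈ Finset.Ico 1 N,
        PowerSeries.C (β j * (IMDL_c p k υ) ^ j) * IMDL_B p k ^ j) = 0 := by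
  have h1 : Finset.Ico 1 N = Finset.Ico 1 (i + 1) ∪ Finset.Ico (i + 1) N := by
    rw [Finset.Ico_union_Ico_eq_Ico (by omega) (by omega)]
  rw [h1, Finset.sum_union (Finset.Ico_disjoint_Ico_consecutive _ _ _), mul_add, map_add]
  have h2 : PowerSeries.coeff (2 * i + 1) (expS (IMDL_e p k) *
      ∑ j ∈ Finset.Ico (i + 1) N,
        PowerSeries.C (β j * (IMDL_c p k υ) ^ j) * IMDL_B p k ^ j) = 0 := by
    have h3 : (PowerSeries.X : PowerSeries ℂ) ^ (2 * (i + 1)) ∣ expS (IMDL_e p k) *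
      ∑ j ∈ Finset.Ico (i + 1) N,
        PowerSeries.C (β j * (IMDL_c p k υ) ^ j) * IMDL_B p k ^ j := by
      refine Dvd.dvd.mul_left (Finset.dvd_sum fun j hj => Dvd.dvd.mul_left ?_ _) _
      rw [Finset.mem_Ico] at hj
      exact (pow_dvd_pow _ (by omega)).trans (IMDL_Bj_dvd p k hk j)
    exact PowerSeries.X_pow_dvd_iff.1 h3 _ (by omega)
  rw [h2, add_zero]
  rcases Nat.eq_zero_or_pos i with rfl | hpos
  · simp
  · have h4 := h i hpos
    rw [← h4]
    congr 1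
    have h5 : Finset.Ico 1 (i + 1) = Finset.Icc 1 i := by
      ext x; simp only [Finset.mem_Ico, Finset.mem_Icc]; omega
    rw [h5, Finset.mul_sum]
    refine Finset.sum_congr rfl fun j _ => ?_
    rw [IMDL_term p k hp hk]

/-- the function `Bm (exp (-2 i d / k))` -/
noncomputable def IMDL_b (p k : ℕ) (d : ℂ) : ℂ := Bm p k (cexp (-(2 * I / k) * d))

theorem IMDL_b_R (p k : ℕ) : MDL_R (IMDL_b p k) (IMDL_B p k) := by
  have h1 := MDL_mul (MDL_const (-(((p : ℂ) + k) / k))) (IMDL_exp (-(2 * I * p / k)))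
  have h2 := MDL_mul (MDL_const ((p : ℂ) / k)) (IMDL_exp (-(2 * I * (p + k) / k)))
  have h3 := MDL_add (MDL_add MDL_one h1) h2
  intro K
  have h4 := h3 K
  have e1 : (1 + PowerSeries.C (-(((p : ℂ) + k) / k)) * expS (-(2 * I * p / k)) +
      PowerSeries.C ((p : ℂ) / k) * expS (-(2 * I * (p + k) / k)) : PowerSeries ℂ) =
      IMDL_B p k := by
    rw [IMDL_B, map_neg]
    ring
  rw [e1] at h4
  refine h4.congr_left fun d => ?_
  unfold IMDL_b Bm
  rw [← Complex.exp_nat_mul, ← Complex.exp_nat_mul]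
  have e2 : (p : ℂ) * (-(2 * I / k) * d) = -(2 * I * p / k) * d := by ring
  have e3 : ((p + k : ℕ) : ℂ) * (-(2 * I / k) * d) = -(2 * I * (p + k) / k) * d := by
    push_cast; ring
  rw [e2, e3]
  ring

/-- the function `Θ` -/
noncomputable def IMDL_T (p k : ℕ) (α : ℕ → ℂ) (N : ℕ) (d : ℂ) : ℂ :=
  cexp (IMDL_e p k * d) * ∑ j ∈ Finset.Ico 1 N, α j * IMDL_b p k d ^ j

theorem IMDL_T_R (p k : ℕ) (α : ℕ → ℂ) (N : ℕ) :
    MDL_R (IMDL_T p k α N) (expS (IMDL_e p k) *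
      ∑ j ∈ Finset.Ico 1 N, PowerSeries.C (α j) * IMDL_B p k ^ j) := by
  unfold IMDL_T
  exact MDL_mul (IMDL_exp _) (MDL_sum _ _ _ fun j _ =>
    MDL_mul (MDL_const _) (MDL_pow (IMDL_b_R p k) j))

theorem IMDL_eq (p k : ℕ) (hk : 1 ≤ k) (α : ℕ → ℂ) (N : ℕ) {s : ℂ} (hs : s ≠ 0) :
    ∑ j ∈ Finset.Ico 1 N, α j * Bm p k s ^ j
      - McI p k s * ∑ j ∈ Finset.Ico 1 N, α j * Bm p k s⁻¹ ^ j =
    cexp ((2 * (p : ℂ) + k) / 3 * log s) *
      (IMDL_T p k α N (-(-(I * k / 2) * log s)) - IMDL_T p k α N (-(I * k / 2) * log s)) := by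
  have hk0 : (k : ℂ) ≠ 0 := by exact_mod_cast (by omega : k ≠ 0)
  have e1 : IMDL_b p k (-(-(I * k / 2) * log s)) = Bm p k s := by
    unfold IMDL_b
    have : -(2 * I / (k : ℂ)) * (-(-(I * k / 2) * log s)) = log s := by
      field_simp
      rw [I_sq]
      ring
    rw [this, Complex.exp_log hs]
  have e2 : IMDL_b p k (-(I * k / 2) * log s) = Bm p k s⁻¹ := by
    unfold IMDL_b
    have : -(2 * I / (k : ℂ)) * (-(I * k / 2) * log s) = -log s := by
      field_simp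
      rw [I_sq]
      ring
    rw [this, Complex.exp_neg, Complex.exp_log hs]
  have e3 : cexp ((2 * (p : ℂ) + k) / 3 * log s) *
      cexp (IMDL_e p k * (-(-(I * k / 2) * log s))) = 1 := by
    rw [← Complex.exp_add, Complex.exp_eq_one_iff]
    refine ⟨0, ?_⟩
    unfold IMDL_e
    field_simp
    rw [I_sq]
    ring
  have e4 : cexp ((2 * (p : ℂ) + k) / 3 * log s) *
      cexp (IMDL_e p k * (-(I * k / 2) * log s)) = McI p k s := by
    unfold McI
    rw [← Complex.exp_add]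
    congr 1
    unfold IMDL_e
    field_simp
    rw [I_sq]
    ring
  unfold IMDL_T
  rw [e1, e2, mul_sub, ← mul_assoc, ← mul_assoc, e3, e4, one_mul]

theorem tIMDL : StIMDL := by
  intro p k υ β hp hk hυ h N
  set α : ℕ → ℂ := fun j => β j * (-(υ ^ 3 * k ^ 2 / (4 * p * (p + k)))) ^ j with hα
  set T := IMDL_T p k α N with hT
  have h1 : (fun d => T (-d) - T d) =O[𝓝 0] fun d : ℂ => d ^ (2 * N + 1) :=
    MDL_parity (IMDL_T_R p k α N) N fun i hi => IMDL_coeff hp hk h N i hi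
  have hD : HasDerivAt (fun x : ℂ => -(I * k / 2) * log x) (-(I * k / 2) * (1 : ℂ)⁻¹) 1 :=
    (Complex.hasDerivAt_log (by simp [slitPlane])).const_mul _
  have ht : Tendsto (fun x : ℂ => -(I * k / 2) * log x) (𝓝 1) (𝓝 0) := by
    have := hD.continuousAt.tendsto
    simpa using this
  have h2 := h1.comp_tendsto ht
  have h3 : (fun x : ℂ => (-(I * k / 2) * log x) ^ (2 * N + 1)) =O[𝓝 1]
      fun x => (x - 1) ^ (2 * N + 1) := by
    refine IsBigO.pow ?_ _
    have h4 := hD.isBigO_sub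
    refine h4.congr_left fun x => ?_
    simp
  have h6 : (fun x : ℂ => cexp ((2 * (p : ℂ) + k) / 3 * log x)) =O[𝓝 1] fun _ => (1 : ℂ) := by
    have : ContinuousAt (fun x : ℂ => cexp ((2 * (p : ℂ) + k) / 3 * log x)) 1 := by
      refine Complex.continuous_exp.continuousAt.comp (ContinuousAt.mul continuousAt_const ?_)
      exact continuousAt_clog (by simp [slitPlane])
    exact this.tendsto.isBigO_one ℂ
  have h7 := h6.mul (h2.trans h3)
  refine h7.congr' ?_ (Eventually.of_forall fun x => one_mul _)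
  filter_upwards [eventually_ne_nhds (one_ne_zero (α := ℂ))] with s hs
  exact (IMDL_eq p k hk α N hs).symm

end H719FX
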