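import Pool.Agent.H719R4.FX.Iso
import Pool.Agent.H719R4.FX.NB

/-!
# INB: near an isotropic branch the curve is regular
-/

open Complex Set Filter Topology

namespace H719FX

open H738CZ

theorem tINB : StINB := by
  rintro Z W t0 m k hk hZ hW ⟨f, g, hf, hg, f0, g0, eZ, eW⟩
  have hc : ∀ᶠ t in 𝓝 t0,
      -(k * f t * g t) + (t - t0) * (f t * deriv g t - deriv f t * g t) ≠ 0 := by
    have hcont : ContinuousAt (fun t : ℂ =>
        -(k * f t * g t) + (t - t0) * (f t * deriv g t - deriv f t * g t)) t0 := by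
      have c1 := hf.continuousAt
      have c2 := hg.continuousAt
      have c3 := hf.deriv.continuousAt
      have c4 := hg.deriv.continuousAt
      fun_prop
    refine hcont.eventually_ne ?_
    simp only [sub_self, zero_mul, add_zero]
    have : (k : ℂ) ≠ 0 := by
      have : k ≠ 0 := by omega
      exact_mod_cast this
    exact neg_ne_zero.2 (mul_ne_zero (mul_ne_zero this f0) g0)
  rw [eventually_nhdsWithin_iff]
  filter_upwards [hf.eventually_analyticAt, hg.eventually_analyticAt, hc,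
    hf.continuousAt.eventually_ne f0, hg.continuousAt.eventually_ne g0, eZ.eventually_nhds,
    eW.eventually_nhds] with t hft hgt hct hf1 hg1 hZ1 hW1 hne
  have hne' : t - t0 ≠ 0 := sub_ne_zero.2 hne
  have hP : (t - t0) ^ m ≠ 0 := pow_ne_zero _ hne'
  refine ⟨?_, ?_, ?_⟩
  · rw [hZ1.self_of_nhds]
    exact mul_ne_zero (pow_ne_zero _ hne') hf1
  · rw [hW1.self_of_nhds]
    exact mul_ne_zero hP hg1
  · unfold Wr
    obtain ⟨k', rfl⟩ : ∃ k', k = k' + 1 := ⟨k - 1, by omega⟩
    have hd : HasDerivAt (fun t : ℂ => (t - t0) ^ (k' + 1))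
        (((k' + 1 : ℕ) : ℂ) * (t - t0) ^ k' * 1) t :=
      HasDerivAt.fun_pow ((hasDerivAt_id t).sub_const t0) (k' + 1)
    have hF : HasDerivAt (fun t : ℂ => (t - t0) ^ (k' + 1) * f t)
        (((k' + 1 : ℕ) : ℂ) * (t - t0) ^ k' * 1 * f t + (t - t0) ^ (k' + 1) * deriv f t) t :=
      hd.mul hft.differentiableAt.hasDerivAt
    have hA : (deriv Z) =ᶠ[𝓝 t] fun s => (s - t0) ^ m * ((s - t0) ^ (k' + 1) * f s) := by
      filter_upwards [hZ1] with s hs
      rw [hs, pow_add]
      ring
    have hB : (deriv W) =ᶠ[𝓝 t] fun s => (s - t0) ^ m * g s := hW1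
    have h1 := NB_wr (fun s => (s - t0) ^ (k' + 1) * f s) g t0 t m _ _ hF.differentiableAt
      hgt.differentiableAt hA hB
    rw [hF.deriv] at h1
    have key : deriv Z t * deriv (deriv W) t - deriv (deriv Z) t * deriv W t =
        ((t - t0) ^ m) ^ 2 * ((t - t0) ^ k' *
          (-(((k' + 1 : ℕ) : ℂ) * f t * g t) +
            (t - t0) * (f t * deriv g t - deriv f t * g t))) := by
      rw [h1]
      ring
    rw [key]
    exact mul_ne_zero (pow_ne_zero _ hP) (mul_ne_zero (pow_ne_zero _ hne') hct)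

end H719FX
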