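import Pool.Agent.H719R4.FX.Iso

/-!
# IPP: continuation of the relation along trajectories (isotropic branches)
-/

open Complex Set Filter Topology

namespace H719FX

open H738CZ

theorem IPP_Bm_an (p k : ℕ) (x : ℂ) : AnalyticAt ℂ (Bm p k) x := by
  unfold Bm
  fun_prop

theorem IPP_Mc_an (p k : ℕ) {x : ℂ} (hx : x ∈ slitPlane) :
    AnalyticAt ℂ (McI p k) x := by
  unfold McI
  exact (analyticAt_const.mul (analyticAt_clog hx)).cexp

theorem IPP_BMo_an (p k : ℕ) {x : ℂ} (hx : x ∈ slitPlane) :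
    AnalyticAt ℂ (fun y => Bm p k y⁻¹) x :=
  (IPP_Bm_an p k x⁻¹).comp (f := fun y : ℂ => y⁻¹) (analyticAt_inv (slitPlane_ne_zero hx))

/-- the local step -/
theorem IPP_local (p k : ℕ) (F : ℂ → ℂ) (R : ℝ) (hF : DifferentiableOn ℂ F (Metric.ball 0 R))
    (x0 : ℂ) (hd : deriv (Bm p k) x0 ≠ 0) (h2 : x0 ∈ slitPlane)
    (hR : ‖Bm p k x0⁻¹‖ < R) :
    ∃ U ∈ 𝓝 x0, ∀ y ∈ U, ‖Bm p k y‖ < R → RelAtI p k F R y → ∀ y' ∈ U, RelAtI p k F R y' := by
  have hc1 : ∀ᶠ x in 𝓝 x0, x ∈ slitPlane :=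
    isOpen_slitPlane.mem_nhds h2
  have hc2 : ∀ᶠ x in 𝓝 x0, ‖Bm p k x⁻¹‖ < R :=
    (IPP_BMo_an p k h2).continuousAt.norm.eventually_lt continuousAt_const hR
  obtain ⟨N, hN, hNo, hxN⟩ := eventually_nhds_iff.mp (hc1.and hc2)
  have hsd : HasStrictDerivAt (Bm p k) (deriv (Bm p k) x0) x0 := (IPP_Bm_an p k x0).hasStrictDerivAt
  have hsf := hsd.hasStrictFDerivAt_equiv hd
  set e : OpenPartialHomeomorph ℂ ℂ := hsf.toOpenPartialHomeomorph (Bm p k) with he
  have hex : ∀ x, e x = Bm p k x := fun x => rfl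
  have hxs : x0 ∈ e.source := hsf.mem_toOpenPartialHomeomorph_source
  have hqt : Bm p k x0 ∈ e.target := by
    rw [← hex]
    exact e.map_source hxs
  have hsymm : e.symm (Bm p k x0) = x0 := by
    rw [← hex]
    exact e.left_inv hxs
  have h3 : ∀ᶠ q in 𝓝 (Bm p k x0), q ∈ e.target ∧ e.symm q ∈ N := by
    have h4 : ContinuousAt e.symm (Bm p k x0) := e.continuousAt_symm hqt
    have h5 : ∀ᶠ q in 𝓝 (Bm p k x0), q ∈ e.target := e.open_target.mem_nhds hqt
    have h6 : ∀ᶠ q in 𝓝 (Bm p k x0), e.symm q ∈ N := by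
      refine h4.eventually ?_
      rw [hsymm]
      exact hNo.mem_nhds hxN
    exact h5.and h6
  obtain ⟨δ, hδ, hball⟩ := Metric.eventually_nhds_iff_ball.mp h3
  have hBc : Continuous (Bm p k) := by
    rw [continuous_iff_continuousAt]
    exact fun x => (IPP_Bm_an p k x).continuousAt
  set U : Set ℂ := e.source ∩ (Bm p k) ⁻¹' (Metric.ball (Bm p k x0) δ) with hU
  have hUo : IsOpen U := e.open_source.inter (Metric.isOpen_ball.preimage hBc)
  have hxU : x0 ∈ U := ⟨hxs, Metric.mem_ball_self hδ⟩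
  have hUN : ∀ y ∈ U, y ∈ N := by
    intro y hy
    have h4 := (hball _ hy.2).2
    rw [← hex, e.left_inv hy.1] at h4
    exact h4
  set W : Set ℂ := U ∩ (Bm p k) ⁻¹' (Metric.ball 0 R) with hW
  have hWo : IsOpen W := hUo.inter (Metric.isOpen_ball.preimage hBc)
  have hWim : W = e.symm '' (Metric.ball (Bm p k x0) δ ∩ Metric.ball 0 R) := by
    ext y
    constructor
    · rintro ⟨⟨h4, h5⟩, h6⟩
      refine ⟨Bm p k y, ⟨h5, h6⟩, ?_⟩
      rw [← hex, e.left_inv h4]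
    · rintro ⟨q, ⟨h4, h5⟩, rfl⟩
      have h6 := (hball q h4).1
      have h7 : Bm p k (e.symm q) = q := by
        rw [← hex, e.right_inv h6]
      refine ⟨⟨e.map_target h6, ?_⟩, ?_⟩
      · rw [mem_preimage, h7]
        exact h4
      · rw [mem_preimage, h7]
        exact h5
  have hWp : IsPreconnected W := by
    rw [hWim]
    refine IsPreconnected.image ?_ _ ?_
    · exact ((convex_ball _ _).inter (convex_ball _ _)).isPreconnected
    · exact e.continuousOn_symm.mono fun q hq => (hball q hq.1).1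
  refine ⟨U, hUo.mem_nhds hxU, fun y hy hyR hrel y' hy' => ?_⟩
  have hyW : y ∈ W := ⟨hy, by
    rw [mem_preimage, mem_ball_zero_iff]
    exact hyR⟩
  have hWy : ∀ᶠ x in 𝓝 y, x ∈ W := hWo.mem_nhds hyW
  have hFan : ∀ q, ‖q‖ < R → AnalyticAt ℂ F q := fun q hq =>
    hF.analyticAt (Metric.isOpen_ball.mem_nhds (by rw [mem_ball_zero_iff]; exact hq))
  have hf : AnalyticOnNhd ℂ (fun x => F (Bm p k x)) W := by
    intro x hx
    have h4 : ‖Bm p k x‖ < R := mem_ball_zero_iff.mp hx.2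
    exact (hFan _ h4).comp (IPP_Bm_an p k x)
  have hg : AnalyticOnNhd ℂ (fun x => McI p k x * F (Bm p k x⁻¹)) W := by
    intro x hx
    have h4 := hN x (hUN x hx.1)
    refine (IPP_Mc_an p k h4.1).mul ?_
    exact (hFan _ h4.2).comp (f := fun y => Bm p k y⁻¹) (IPP_BMo_an p k h4.1)
  have hfg : (fun x => F (Bm p k x)) =ᶠ[𝓝 y] (fun x => McI p k x * F (Bm p k x⁻¹)) := by
    filter_upwards [hrel, hWy] with x hx1 hx3
    exact hx1 (mem_ball_zero_iff.mp hx3.2)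
  have heq := hf.eqOn_of_preconnected_of_eventuallyEq hg hWp hyW hfg
  have hUy' : ∀ᶠ x in 𝓝 y', x ∈ U := hUo.mem_nhds hy'
  show ∀ᶠ x in 𝓝 y', ‖Bm p k x‖ < R → F (Bm p k x) = McI p k x * F (Bm p k x⁻¹)
  filter_upwards [hUy'] with x hx hxR
  exact heq ⟨hx, mem_ball_zero_iff.mpr hxR⟩

theorem IPP_start (p k : ℕ) (F : ℂ → ℂ) (R : ℝ) (h : Rel1I p k F) : ∃ ε > 0, ∀ x : ℂ, ‖x - 1‖ < ε →
    RelAtI p k F R x := by
  obtain ⟨ε, hε, hb⟩ := Metric.eventually_nhds_iff_ball.mp h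
  refine ⟨ε, hε, fun x hx => ?_⟩
  have hxb : x ∈ Metric.ball (1 : ℂ) ε := by rwa [Metric.mem_ball, dist_eq_norm]
  have hx2 : ∀ᶠ y in 𝓝 x, y ∈ Metric.ball (1 : ℂ) ε := Metric.isOpen_ball.mem_nhds hxb
  show ∀ᶠ y in 𝓝 x, ‖Bm p k y‖ < R → F (Bm p k y) = McI p k y * F (Bm p k y⁻¹)
  filter_upwards [hx2] with y hy _
  exact hb y hy

theorem IPP_sl (p k : ℕ) (hp : 1 ≤ p) (hk : 1 ≤ k) {s : ℂ} (hs : s ∈ Dm p k) : s ∈ slitPlane := by
  rw [mem_slitPlane_iff_arg]
  have h1 : (2 : ℝ) ≤ (p : ℝ) + k := by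
    have h2 : (1 : ℝ) ≤ p := by exact_mod_cast hp
    have h3 : (1 : ℝ) ≤ k := by exact_mod_cast hk
    linarith
  have h2 : Real.pi / (p + k) ≤ Real.pi / 2 :=
    div_le_div_of_nonneg_left Real.pi_pos.le (by norm_num) h1
  have h3 := hs.2
  have h4 := hs.1
  constructor
  · intro h
    rw [h, abs_of_pos Real.pi_pos] at h3
    linarith [Real.pi_pos]
  · intro h
    rw [h, norm_zero] at h4
    linarith

/-- IPP -/
theorem tIPP (hVA : StVA) (hFF : StFF) (hISS : StISS) (hITT : StITT) : StIPP := by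
  intro p k F R hp hk hR hF hrel q1 hq1 hqR
  obtain ⟨ε, hε, hstart⟩ := IPP_start p k F R hrel
  obtain ⟨r, hr, hS⟩ := hISS p k ε hp hk hε
  have hkC : (k : ℂ) ≠ 0 := by exact_mod_cast (show k ≠ 0 by omega)
  have hpC : (p : ℂ) ≠ 0 := by exact_mod_cast (show p ≠ 0 by omega)
  have hpkC : (p : ℂ) + k ≠ 0 := by exact_mod_cast (show p + k ≠ 0 by omega)
  obtain ⟨n, hn⟩ := exists_nat_gt (‖q1‖ / r)
  set S : ℝ := (n : ℝ) with hSdef
  have hS0 : 0 ≤ S := Nat.cast_nonneg n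
  set q0 : ℂ := Real.exp (-S) * q1 with hq0
  have hq0n : ‖q0‖ = Real.exp (-S) * ‖q1‖ := by
    rw [hq0, norm_mul, Complex.norm_real, Real.norm_of_nonneg (Real.exp_pos _).le]
  have hq1n : 0 < ‖q1‖ := norm_pos_iff.mpr hq1
  have hq0pos : 0 < ‖q0‖ := by
    rw [hq0n]
    positivity
  have hq0r : ‖q0‖ < r := by
    have h1 : S < Real.exp S := by
      have := Real.add_one_le_exp S
      linarith
    have h2 : ‖q1‖ / r < Real.exp S := hn.trans h1
    rw [div_lt_iff₀ hr] at h2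
    rw [hq0n, Real.exp_neg, inv_mul_lt_iff₀ (Real.exp_pos S)]
    exact h2
  obtain ⟨x0, hx0, hx0g, hx0ε, hBx0, hMx0⟩ := hS q0 hq0pos hq0r
  obtain ⟨x, hx⟩ := hFF p k x0 hp hk hx0 hx0g
  have hT := hITT p k x0 x hp hk hx (by rw [hBx0]; exact norm_pos_iff.mp hq0pos)
    (by rw [hBx0]; exact hMx0)
  have hval : ∀ s, 0 ≤ s → Bm p k (x s) = Real.exp (s - S) * q1 := by
    intro s hs
    rw [hx.val s hs, hBx0, hq0, ← mul_assoc, ← Complex.ofReal_mul, ← Real.exp_add,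
      sub_eq_add_neg]
  have hnorm : ∀ s, 0 ≤ s → ‖Bm p k (x s)‖ = Real.exp (s - S) * ‖q1‖ := by
    intro s hs
    rw [hval s hs, norm_mul, Complex.norm_real, Real.norm_of_nonneg (Real.exp_pos _).le]
  have hle : ∀ s, 0 ≤ s → s ≤ S → ‖Bm p k (x s)‖ ≤ R := by
    intro s hs hsS
    rw [hnorm s hs]
    have h1 : Real.exp (s - S) ≤ 1 := Real.exp_le_one_iff.mpr (by linarith)
    nlinarith
  have hlt : ∀ s, 0 ≤ s → s < S → ‖Bm p k (x s)‖ < R := by
    intro s hs hsS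
    rw [hnorm s hs]
    have h1 : Real.exp (s - S) < 1 := Real.exp_lt_one_iff.mpr (by linarith)
    nlinarith
  have hcont : ∀ s, 0 ≤ s → ContinuousWithinAt x (Ici 0) s := fun s hs =>
    (hx.der s hs).continuousWithinAt
  -- the local step along the trajectory
  have hloc : ∀ s, 0 ≤ s → s ≤ S → ∃ δ > 0, ∀ s1, 0 ≤ s1 → s1 < S → |s1 - s| < δ →
      RelAtI p k F R (x s1) → ∀ s2, 0 ≤ s2 → |s2 - s| < δ → RelAtI p k F R (x s2) := by
    intro s hs hsS
    have hmem := hx.mem s hs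
    have hge : 1 ≤ ‖x s‖ := hmem.1
    have hxs0 : x s ≠ 0 := by
      intro h
      rw [h, norm_zero] at hge
      linarith
    have hBne : Bm p k (x s) ≠ 0 := by
      rw [hval s hs]
      exact mul_ne_zero (by exact_mod_cast (Real.exp_pos _).ne') hq1
    have hxs1 : x s ≠ 1 := by
      intro h
      apply hBne
      rw [h]
      unfold Bm
      simp only [one_pow]
      field_simp
      ring
    have hxk : x s ^ k ≠ 1 := ((hVA p k hp hk).gt (x s) hmem hxs1).1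
    have hd : deriv (Bm p k) (x s) ≠ 0 := by
      rw [((hVA p k hp hk).dB (x s)).deriv]
      unfold Bd
      refine mul_ne_zero (mul_ne_zero (div_ne_zero (mul_ne_zero hpC hpkC) hkC)
        (pow_ne_zero _ hxs0)) (sub_ne_zero.mpr hxk)
    have h2x : x s ∈ slitPlane := IPP_sl p k hp hk hmem
    obtain ⟨U, hU, hUp⟩ := IPP_local p k F R hF (x s) hd h2x ((hT s hs).trans_le (hle s hs hsS))
    have h3 : ∀ᶠ s' in 𝓝[Ici 0] s, x s' ∈ U := (hcont s hs).eventually hU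
    rw [eventually_nhdsWithin_iff] at h3
    obtain ⟨δ, hδ, hb⟩ := Metric.eventually_nhds_iff.mp h3
    refine ⟨δ, hδ, fun s1 hs1 hs1S hs1δ hrel1 s2 hs2 hs2δ => ?_⟩
    refine hUp (x s1) (hb (by rwa [Real.dist_eq]) hs1) (hlt s1 hs1 hs1S) hrel1 (x s2)
      (hb (by rwa [Real.dist_eq]) hs2)
  set A : Set ℝ := {s | RelAtI p k F R (x s)} with hA
  have hA0 : (0 : ℝ) ∈ A := by
    show RelAtI p k F R (x 0)
    rw [hx.ini]
    exact hstart x0 hx0ε
  have hclosed : IsClosed (A ∩ Icc 0 S) := by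
    rw [← isSeqClosed_iff_isClosed]
    intro u s hu hus
    have hsI : s ∈ Icc 0 S := isClosed_Icc.mem_of_tendsto hus (Eventually.of_forall fun k => (hu k).2)
    refine ⟨?_, hsI⟩
    obtain ⟨δ, hδ, hl⟩ := hloc s hsI.1 hsI.2
    obtain ⟨k, hk⟩ := (hus.eventually (Metric.ball_mem_nhds s hδ)).exists
    rw [Real.dist_eq] at hk
    rcases lt_or_ge (u k) S with h4 | h4
    · exact hl (u k) (hu k).2.1 h4 hk (hu k).1 s hsI.1 (by simpa using hδ)
    · have h5 : u k = S := le_antisymm (hu k).2.2 h4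
      rcases lt_or_ge s S with h6 | h6
      · -- choose another index
        obtain ⟨k', hk', hk''⟩ := ((hus.eventually (Metric.ball_mem_nhds s hδ)).and
          (hus.eventually (Iio_mem_nhds h6))).exists
        rw [Real.dist_eq] at hk'
        exact hl (u k') (hu k').2.1 hk'' hk' (hu k').1 s hsI.1 (by simpa using hδ)
      · have h7 : s = S := le_antisymm hsI.2 h6
        rw [h7, ← h5]
        exact (hu k).1
  have hsub : Icc 0 S ⊆ A := by
    refine hclosed.Icc_subset_of_forall_mem_nhdsWithin hA0 ?_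
    rintro s ⟨hsA, hs0, hsS⟩
    obtain ⟨δ, hδ, hl⟩ := hloc s hs0 hsS.le
    rw [mem_nhdsGT_iff_exists_Ioo_subset]
    refine ⟨s + δ, by simpa using hδ, fun s2 hs2 => ?_⟩
    refine hl s hs0 hsS (by simpa using hδ) hsA s2 (hs0.trans hs2.1.le) ?_
    rw [abs_lt]
    constructor
    · linarith [hs2.1]
    · linarith [hs2.2]
  refine ⟨x S, hx.mem S hS0, ?_, ?_, hsub ⟨hS0, le_refl S⟩⟩
  · rw [hval S hS0, sub_self, Real.exp_zero, Complex.ofReal_one, one_mul]
  · have h1 := hT S hS0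
    rw [hnorm S hS0, sub_self, Real.exp_zero, one_mul] at h1
    exact h1

end H719FX
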