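import Pool.Agent.H719R4.FX.Iso

/-! Task IPRV: sub-Gevrey bounds propagate in the punctured disc (isotropic branches). -/

open Complex Set Filter Topology

namespace H719FX

open H738CZ

theorem IPRV_ker : Ker kcs where
  even i := by
    unfold kcs
    rw [if_pos (even_two_mul i)]
  one := by
    unfold kcs
    rw [if_neg (by decide)]
    simp
  bd i := by
    unfold kcs
    split_ifs
    · simp
    · simp

/-- the local inverse of `φ` -/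
noncomputable def IPRV_th (k : ℕ) (τ0 z : ℂ) : ℂ := τ0 * cexp (I * z / (3 * k))

noncomputable def IPRV_rr (R : ℝ) (τ0 : ℂ) : ℝ := (R - ‖τ0‖) / R

noncomputable def IPRV_de (k : ℕ) (R : ℝ) (τ0 : ℂ) : ℝ := ‖τ0‖ * (IPRV_rr R τ0 / (20 * k))

theorem IPRV_mem {R : ℝ} {τ0 : ℂ} : τ0 ∈ V3 R ↔ ‖τ0‖ < R ∧ τ0 ≠ 0 := by
  unfold V3
  rw [Set.mem_sdiff, mem_ball_zero_iff, Set.mem_singleton_iff]

theorem IPRV_rr_pos {R : ℝ} {τ0 : ℂ} (h : τ0 ∈ V3 R) :
    0 < IPRV_rr R τ0 ∧ IPRV_rr R τ0 ≤ 1 := by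
  rw [IPRV_mem] at h
  have h1 : 0 < ‖τ0‖ := norm_pos_iff.2 h.2
  have h2 : 0 < R := h1.trans h.1
  unfold IPRV_rr
  constructor
  · apply div_pos _ h2
    linarith [h.1]
  · rw [div_le_one h2]
    linarith

theorem IPRV_de_pos {k : ℕ} (hk : 1 ≤ k) {R : ℝ} {τ0 : ℂ} (h : τ0 ∈ V3 R) :
    0 < IPRV_de k R τ0 := by
  have h0 := (IPRV_rr_pos h).1
  rw [IPRV_mem] at h
  have h1 : 0 < ‖τ0‖ := norm_pos_iff.2 h.2
  have hk' : (0 : ℝ) < k := by exact_mod_cast hk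
  unfold IPRV_de
  positivity

theorem IPRV_diff (k : ℕ) (τ0 : ℂ) : Differentiable ℂ (IPRV_th k τ0) := by
  unfold IPRV_th
  fun_prop

theorem IPRV_maps {k : ℕ} (hk : 1 ≤ k) {R : ℝ} {τ0 : ℂ} (h : τ0 ∈ V3 R) :
    MapsTo (IPRV_th k τ0) (Metric.ball 0 (IPRV_rr R τ0)) (V3 R) := by
  intro z hz
  have hr := IPRV_rr_pos h
  rw [mem_ball_zero_iff] at hz
  have h' := h
  rw [IPRV_mem] at h'
  have hn : 0 < ‖τ0‖ := norm_pos_iff.2 h'.2
  have hR : 0 < R := hn.trans h'.1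
  have hk' : (1 : ℝ) ≤ k := by exact_mod_cast hk
  rw [IPRV_mem]
  constructor
  · unfold IPRV_th
    rw [norm_mul, Complex.norm_exp]
    set x : ℝ := (I * z / (3 * k)).re with hx
    have hx1 : x ≤ IPRV_rr R τ0 / 3 := by
      have h1 : x ≤ ‖I * z / (3 * k)‖ := Complex.re_le_norm _
      have h2 : ‖I * z / (3 * k)‖ = ‖z‖ / (3 * k) := by
        rw [norm_div, norm_mul, norm_I, one_mul, norm_mul]
        simp
      have h3 : ‖z‖ / (3 * k) ≤ IPRV_rr R τ0 / 3 := by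
        rw [div_le_div_iff₀ (by positivity) (by norm_num)]
        nlinarith [hr.1, norm_nonneg z]
      linarith
    have h4 : 1 - x ≤ Real.exp (-x) := by
      have := Real.add_one_le_exp (-x)
      linarith
    have h5 : ‖τ0‖ < R * Real.exp (-x) := by
      have h6 : R * (1 - x) ≤ R * Real.exp (-x) := mul_le_mul_of_nonneg_left h4 hR.le
      have h7 : R * x ≤ R * (IPRV_rr R τ0 / 3) := mul_le_mul_of_nonneg_left hx1 hR.le
      have h8 : R * (IPRV_rr R τ0 / 3) = (R - ‖τ0‖) / 3 := by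
        unfold IPRV_rr
        field_simp
      have h9 := h'.1
      nlinarith
    have h10 : Real.exp (-x) * Real.exp x = 1 := by
      rw [← Real.exp_add]; simp
    calc ‖τ0‖ * Real.exp x < R * Real.exp (-x) * Real.exp x :=
          mul_lt_mul_of_pos_right h5 (Real.exp_pos x)
      _ = R := by rw [mul_assoc, h10, mul_one]
  · unfold IPRV_th
    exact mul_ne_zero h'.2 (exp_ne_zero _)

theorem IPRV_deriv {k : ℕ} (hk : 1 ≤ k) {τ0 z : ℂ} (h : τ0 ≠ 0) :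
    di k (IPRV_th k τ0 z) * deriv (IPRV_th k τ0) z = 1 := by
  have hk' : (k : ℂ) ≠ 0 := by
    have : k ≠ 0 := by omega
    exact_mod_cast this
  have h1 : HasDerivAt (IPRV_th k τ0) (τ0 * (cexp (I * z / (3 * k)) * (I * 1 / (3 * k)))) z := by
    unfold IPRV_th
    apply HasDerivAt.const_mul
    apply HasDerivAt.cexp
    apply HasDerivAt.div_const
    exact (hasDerivAt_id' z).const_mul I
  rw [h1.deriv]
  unfold di IPRV_th
  have h2 : cexp (I * z / (3 * k)) ≠ 0 := exp_ne_zero _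
  field_simp
  rw [I_sq]
  norm_num

theorem IPRV_at {k : ℕ} {τ0 : ℂ} : IPRV_th k τ0 0 = τ0 := by
  unfold IPRV_th
  simp

theorem IPRV_inv {k : ℕ} (hk : 1 ≤ k) {R : ℝ} {τ0 τ : ℂ} (h : τ0 ∈ V3 R)
    (hτ : τ ∈ Metric.ball τ0 (IPRV_de k R τ0)) :
    -(3 * I * k) * log (τ / τ0) ∈ Metric.ball (0 : ℂ) (IPRV_rr R τ0 / 4) ∧
      IPRV_th k τ0 (-(3 * I * k) * log (τ / τ0)) = τ := by
  have hr := IPRV_rr_pos h
  rw [IPRV_mem] at h
  have hn : 0 < ‖τ0‖ := norm_pos_iff.2 h.2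
  have hk' : (1 : ℝ) ≤ k := by exact_mod_cast hk
  have hk0 : (k : ℂ) ≠ 0 := by
    have : k ≠ 0 := by omega
    exact_mod_cast this
  have h0 : ‖τ - τ0‖ < IPRV_de k R τ0 := by rwa [mem_ball_iff_norm] at hτ
  unfold IPRV_de at h0
  have e : τ / τ0 - 1 = (τ - τ0) / τ0 := by
    have := h.2
    field_simp
  have hw' : ‖τ / τ0 - 1‖ < IPRV_rr R τ0 / (20 * k) := by
    rw [e, norm_div, div_lt_iff₀ hn]
    linarith
  have hq : IPRV_rr R τ0 / (20 * k) ≤ 1 / 20 := by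
    rw [div_le_div_iff₀ (by positivity) (by norm_num)]
    nlinarith [hr.2]
  have hw : ‖τ / τ0 - 1‖ ≤ 1 / 2 := by linarith
  have h5 := norm_log_one_add_half_le_self hw
  rw [add_sub_cancel] at h5
  have hne : τ / τ0 ≠ 0 := by
    intro h6
    rw [h6, zero_sub, norm_neg, norm_one] at hw
    norm_num at hw
  constructor
  · rw [mem_ball_zero_iff, norm_mul, norm_neg, norm_mul, norm_mul, norm_I]
    have h6 : ‖(3 : ℂ)‖ = 3 := by norm_num
    have h7 : ‖(k : ℂ)‖ = k := by simp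
    rw [h6, h7, mul_one]
    have h8 : 3 * (k : ℝ) * ‖log (τ / τ0)‖ ≤ 3 * k * (3 / 2 * ‖τ / τ0 - 1‖) :=
      mul_le_mul_of_nonneg_left h5 (by positivity)
    have h9 : 3 * (k : ℝ) * (3 / 2 * ‖τ / τ0 - 1‖) < 3 * k * (3 / 2 * (IPRV_rr R τ0 / (20 * k))) := by
      have : (0 : ℝ) < 3 * k * (3 / 2) := by positivity
      nlinarith
    have h10 : 3 * (k : ℝ) * (3 / 2 * (IPRV_rr R τ0 / (20 * k))) = 9 / 40 * IPRV_rr R τ0 := by
      field_simp
      ring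
    linarith [hr.1]
  · unfold IPRV_th
    have h6 : I * (-(3 * I * k) * log (τ / τ0)) / (3 * k) = log (τ / τ0) := by
      have h7 : I * (-(3 * I * k) * log (τ / τ0)) / (3 * k) = -(I ^ 2) * log (τ / τ0) := by
        field_simp
      rw [h7, I_sq]
      ring
    rw [h6, exp_log hne]
    have := h.2
    field_simp

theorem IPRV_sub {k : ℕ} (hk : 1 ≤ k) {R : ℝ} {τ0 : ℂ} (h : τ0 ∈ V3 R) :
    Metric.ball τ0 (IPRV_de k R τ0) ⊆ V3 R := by
  intro τ hτ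
  obtain ⟨h1, h2⟩ := IPRV_inv hk h hτ
  have h3 := IPRV_maps hk h (Metric.ball_subset_ball (by linarith [(IPRV_rr_pos h).1]) h1)
  rwa [h2] at h3

theorem IPRV_cont (k : ℕ) (R : ℝ) : Continuous (IPRV_de k R) := by
  unfold IPRV_de IPRV_rr
  fun_prop

theorem IPRV_loc (hCHG : StCHG) (hSTB : StSTB) {kc : ℕ → ℂ} (hk : Ker kc) {p k : ℕ}
    (hk1 : 1 ≤ k) {u : ℂ → ℂ}
    {R : ℝ} {g : ℕ → ℂ → ℂ} (hF : FI kc (di k) (ρi p k u) (ri p k u) g (V3 R)) {τ0 : ℂ}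
    (h : τ0 ∈ V3 R) {η : ℝ} (hη : 0 < η) (hS : SG g (Metric.ball τ0 η)) :
    SG g (Metric.ball τ0 (IPRV_de k R τ0)) := by
  obtain ⟨hr, hr1⟩ := IPRV_rr_pos h
  have hF2 := hCHG kc (di k) (ρi p k u) (ri p k u) g (V3 R) (fun _ => 1) (IPRV_th k τ0)
    (Metric.ball 0 (IPRV_rr R τ0)) hF Metric.isOpen_ball (IPRV_diff k τ0).differentiableOn
    (IPRV_maps hk1 h) (fun t _ => IPRV_deriv hk1 (IPRV_mem.1 h).2) (fun _ _ => one_ne_zero)
  have hc : ContinuousAt (IPRV_th k τ0) 0 := (IPRV_diff k τ0).continuous.continuousAt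
  rw [Metric.continuousAt_iff] at hc
  obtain ⟨e1, he1, h1⟩ := hc η hη
  rw [IPRV_at] at h1
  have hS2 : SG (fun j => g j ∘ IPRV_th k τ0)
      (Metric.ball 0 (min e1 (IPRV_rr R τ0))) := by
    obtain ⟨C, s, hC, hs0, hs1, hb⟩ := hS
    refine ⟨C, s, hC, hs0, hs1, ?_⟩
    intro j hj t ht
    refine hb j hj (IPRV_th k τ0 t) ?_
    rw [Metric.mem_ball] at ht ⊢
    exact h1 (lt_of_lt_of_le ht (min_le_left _ _))
  have hS3 := hSTB kc hk _ _ _ 0 (min e1 (IPRV_rr R τ0)) (IPRV_rr R τ0)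
    (lt_min he1 hr) (min_le_right _ _) hr1 hF2 hS2
  obtain ⟨C, s, hC, hs0, hs1, hb⟩ := hS3
  refine ⟨C, s, hC, hs0, hs1, ?_⟩
  intro j hj t ht
  obtain ⟨h2, h3⟩ := IPRV_inv hk1 h ht
  have h4 := hb j hj _ h2
  have h5 : (fun j => g j ∘ IPRV_th k τ0) j (-(3 * I * k) * log (t / τ0)) = g j t := by
    show g j (IPRV_th k τ0 (-(3 * I * k) * log (t / τ0))) = g j t
    rw [h3]
  rw [h5] at h4
  exact h4

theorem tIPRV (hCHG : StCHG) (hSTB : StSTB) (hV3C : StV3C) : StIPRV := by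
  intro p k u R hp hk1 hu g hF τ1 η hη hsub hS
  set S : Set ℂ := {τ | ∃ η' > 0, Metric.ball τ η' ⊆ V3 R ∧ SG g (Metric.ball τ η')} with hSd
  have hSG : ∀ {V W : Set ℂ}, W ⊆ V → SG g V → SG g W := by
    rintro V W hWV ⟨C, s, hC, hs0, hs1, hb⟩
    exact ⟨C, s, hC, hs0, hs1, fun j hj t ht => hb j hj t (hWV ht)⟩
  have hin : ∀ (τ0 : ℂ) (r : ℝ), Metric.ball τ0 r ⊆ V3 R → SG g (Metric.ball τ0 r) →
      Metric.ball τ0 r ⊆ S := by
    intro τ0 r h1 h2 τ hτ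
    have h3 : Metric.ball τ (r - dist τ τ0) ⊆ Metric.ball τ0 r := by
      refine Metric.ball_subset_ball' ?_
      linarith
    exact ⟨r - dist τ τ0, by rw [Metric.mem_ball] at hτ; linarith, h3.trans h1, hSG h3 h2⟩
  have hop : IsOpen S := by
    rw [Metric.isOpen_iff]
    rintro τ ⟨η', h1, h2, h3⟩
    exact ⟨η', h1, hin τ η' h2 h3⟩
  have hτ1 : τ1 ∈ S := ⟨η, hη, hsub, hS⟩
  have hτ1' : τ1 ∈ V3 R := hsub (Metric.mem_ball_self hη)
  have hcl : closure S ∩ V3 R ⊆ S := by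
    rintro τ ⟨h1, h2⟩
    have h3 : IsOpen {x : ℂ | dist τ x < IPRV_de k R x} :=
      isOpen_lt (continuous_const.dist continuous_id) (IPRV_cont k R)
    have h4 : τ ∈ {x : ℂ | dist τ x < IPRV_de k R x} := by
      show dist τ τ < IPRV_de k R τ
      rw [dist_self]
      exact IPRV_de_pos hk1 h2
    obtain ⟨x, hx1, hx2⟩ := mem_closure_iff.1 h1 _ h3 h4
    obtain ⟨η', h5, h6, h7⟩ := hx2
    have hxV : x ∈ V3 R := h6 (Metric.mem_ball_self h5)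
    exact hin x (IPRV_de k R x) (IPRV_sub hk1 hxV)
      (IPRV_loc hCHG hSTB IPRV_ker hk1 hF hxV h5 h7) hx1
  exact fun τ hτ => (hV3C R).subset_of_closure_inter_subset hop ⟨τ1, hτ1', hτ1⟩ hcl hτ

end H719FX
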