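import Pool.Agent.H719R4.FX.Iso

/-!
# Isotropic branches: the model has no convergent solution unless `p = k`
-/

open Complex Set Filter Topology

namespace H719FX

open H738CZ

theorem IS5_Bm_one (p k : ℕ) (hk : 1 ≤ k) : Bm p k 1 = 0 := by
  have hk0 : (k : ℂ) ≠ 0 := by
    have : k ≠ 0 := by omega
    exact_mod_cast this
  unfold Bm
  simp only [one_pow, mul_one]
  field_simp
  ring

theorem IS5_Bm_tendsto (p k : ℕ) (hk : 1 ≤ k) : Tendsto (Bm p k) (𝓝 1) (𝓝 0) := by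
  have h : Continuous (Bm p k) := by
    unfold Bm
    fun_prop
  have h2 := h.tendsto 1
  rwa [IS5_Bm_one p k hk] at h2

theorem IS5_inv_tendsto : Tendsto (fun x : ℂ => x⁻¹) (𝓝 1) (𝓝 1) := by
  have h : ContinuousAt (fun x : ℂ => x⁻¹) 1 := continuousAt_inv₀ one_ne_zero
  have h2 := h.tendsto
  simpa using h2

theorem tIS5 (hIRR : StIRR) (hIEE : StIEE) (hIG1 : StIG1) (hIG2 : StIG2) : StIS5 := by
  intro p k α C hp hk hpk hrel hα
  by_contra hne
  obtain ⟨R, F, hR, hF, hF0, hdF, hRel⟩ := hIRR p k α C hp hk hrel hα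
  obtain ⟨F', hF', hEq⟩ := hIEE p k F R hp hk hR hF hRel
  have hball : Metric.ball (0 : ℂ) R ∈ 𝓝 (0:ℂ) := Metric.ball_mem_nhds _ hR
  have hB := IS5_Bm_tendsto p k hk
  have hRel' : Rel1I p k F' := by
    unfold Rel1I at hRel ⊢
    filter_upwards [hRel, hB.eventually hball, (hB.comp IS5_inv_tendsto).eventually hball]
      with x h1 h2 h3
    have e2 : F' (Bm p k x) = F (Bm p k x) := hEq h2
    have e3 : F' (Bm p k x⁻¹) = F (Bm p k x⁻¹) := hEq h3
    rw [e2, e3, h1]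
  have hc := hIG1 p k F' hp hk hF' hRel'
  have hd : deriv F' 0 = α 1 := by
    rw [← hdF]
    exact (hEq.eventuallyEq_of_mem hball).deriv_eq
  have h0 : F' 0 = 0 := (hEq (Metric.mem_ball_self hR)).trans hF0
  refine hIG2 p k hp hk hpk ?_
  unfold Rel1I at hRel' ⊢
  filter_upwards [hRel'] with x hx
  rw [hc (Bm p k x), hc (Bm p k x⁻¹), hd, h0, zero_add, zero_add] at hx
  refine mul_left_cancel₀ hne ?_
  rw [hx]
  ring

end H719FX
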