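import Pool.Agent.H719R4.FX.Iso

/-!
# Task ISS: starting points (isotropic branches)
-/

open Complex Set Filter Topology

namespace H719FX

open H738CZ

theorem ISS_sqrt (q : ℂ) : ∃ w : ℂ, w ^ 2 = q ∧ 0 ≤ w.re := by
  obtain ⟨w, hw⟩ := IsAlgClosed.exists_pow_nat_eq q (n := 2) (by norm_num)
  rcases le_total 0 w.re with h | h
  · exact ⟨w, hw, h⟩
  · refine ⟨-w, by rw [neg_sq]; exact hw, ?_⟩
    rw [Complex.neg_re]
    linarith

theorem ISS_Bm_one (p k : ℕ) (hk : 1 ≤ k) : Bm p k 1 = 0 := by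
  have hk0 : (k : ℂ) ≠ 0 := by exact_mod_cast (by omega : k ≠ 0)
  unfold Bm
  rw [one_pow, one_pow]
  field_simp
  ring

theorem tISS (hLOC : StLOC) (hILG : StILG) (hVA : StVA) (hIVB : StIVB) : StISS := by
  intro p k ε hp hk hε
  obtain ⟨r₀, c1, X, W, hL⟩ := hLOC p k hp hk
  obtain ⟨r', hr'0, hr'le, hlg⟩ := hILG p k r₀ c1 X W hp hk hL
  have hA := hVA p k hp hk
  have hXc : ContinuousAt X 0 :=
    (hL.dX.differentiableAt (Metric.isOpen_ball.mem_nhds (Metric.mem_ball_self hL.r0))).continuousAt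
  obtain ⟨δ', hδ', hδ⟩ := Metric.continuousAt_iff.1 hXc ε hε
  set δ := min δ' r' with hδdef
  have hδ0 : 0 < δ := lt_min hδ' hr'0
  refine ⟨δ ^ 2, by positivity, fun q hq0 hq => ?_⟩
  obtain ⟨w, hw, hwre⟩ := ISS_sqrt q
  have hwn : ‖w‖ ^ 2 = ‖q‖ := by rw [← hw, norm_pow]
  have hwδ : ‖w‖ < δ := by
    refine lt_of_pow_lt_pow_left₀ 2 hδ0.le ?_
    rw [hwn]
    exact hq
  have hwr' : ‖w‖ < r' := hwδ.trans_le (min_le_right _ _)
  have hwr : ‖w‖ < r₀ := hwr'.trans_le hr'le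
  have hw0 : 0 < ‖w‖ := by
    rcases (norm_nonneg w).eq_or_lt with h | h
    · rw [← h] at hwn
      norm_num at hwn
      rw [← hwn] at hq0
      simp at hq0
    · exact h
  have hwball : w ∈ Metric.ball (0 : ℂ) r₀ := by
    rw [mem_ball_zero_iff]
    exact hwr
  have hwball' : w ∈ Metric.ball (0 : ℂ) r' := by
    rw [mem_ball_zero_iff]
    exact hwr'
  refine ⟨X w, hL.ge w hwball hwre, ?_, ?_, by rw [hL.BX w hwball, hw], ?_⟩
  · -- same half plane
    have him : (w ^ 2).im = 2 * w.re * w.im := by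
      rw [pow_two, Complex.mul_im]
      ring
    unfold Sg
    rw [hL.BX w hwball, him]
    rcases le_total 0 w.im with h | h
    · exact Or.inl ⟨hL.imp w hwball h, by positivity⟩
    · refine Or.inr ⟨hL.imn w hwball h, ?_⟩
      exact mul_nonpos_of_nonneg_of_nonpos (by positivity) h
  · have h1 := hδ (x := w) (by rw [dist_zero_right]; exact hwδ.trans_le (min_le_left _ _))
    rw [hL.X0, dist_eq_norm] at h1
    exact h1
  -- the path
  have hball : ∀ t ∈ Icc (0 : ℝ) 1, (t : ℂ) * w ∈ Metric.ball (0 : ℂ) r₀ := by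
    intro t ht
    rw [mem_ball_zero_iff, norm_mul, Complex.norm_real, Real.norm_eq_abs, abs_of_nonneg ht.1]
    exact (mul_le_of_le_one_left (norm_nonneg _) ht.2).trans_lt hwr
  have hre : ∀ t ∈ Icc (0 : ℝ) 1, 0 ≤ ((t : ℂ) * w).re := by
    intro t ht
    rw [Complex.re_ofReal_mul]
    exact mul_nonneg ht.1 hwre
  have hge : ∀ t ∈ Icc (0 : ℝ) 1, X (t * w) ∈ Dm p k := fun t ht =>
    hL.ge _ (hball t ht) (hre t ht)
  have hXn : ∀ t ∈ Icc (0 : ℝ) 1, 1 ≤ ‖X (t * w)‖ := fun t ht => (hge t ht).1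
  have hXne : ∀ t ∈ Icc (0 : ℝ) 1, X (t * w) ≠ 0 := by
    intro t ht h
    have h1 := hXn t ht
    rw [h, norm_zero] at h1
    linarith
  set φ : ℝ → ℂ := fun t => Bm p k (X (t * w))⁻¹ with hφ
  set φ' : ℝ → ℂ := fun t => 2 * t * w ^ 2 * ((X (t * w))⁻¹) ^ (2 * p + k) with hφ'
  have hder : ∀ t ∈ Icc (0 : ℝ) 1, HasDerivAt φ (φ' t) t := by
    intro t ht
    have hb := hball t ht
    have hX : HasDerivAt X (deriv X (t * w)) (t * w) :=
      (hL.dX.differentiableAt (Metric.isOpen_ball.mem_nhds hb)).hasDerivAt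
    have h1 := hA.dB (X (t * w))
    have h4 := hIVB p k (X (t * w)) hp hk (hXne t ht)
    have hrel : Bd p k (X (t * w)) * deriv X (t * w) = 2 * (t * w) := by
      have h5 : HasDerivAt (fun ζ => Bm p k (X ζ))
          (Bd p k (X (t * w)) * deriv X (t * w)) (t * w) :=
        h1.comp (t * w) hX
      have h6 : HasDerivAt (fun ζ : ℂ => ζ ^ 2) (2 * (t * w)) (t * w) := by
        have := hasDerivAt_pow 2 ((t : ℂ) * w)
        simpa using this
      have h7 : (fun ζ => Bm p k (X ζ)) =ᶠ[𝓝 ((t : ℂ) * w)] fun ζ => ζ ^ 2 := by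
        filter_upwards [Metric.isOpen_ball.mem_nhds hb] with ζ hζ
        exact hL.BX ζ hζ
      exact h5.unique (h6.congr_of_eventuallyEq h7)
    have hmul : HasDerivAt (fun ζ : ℂ => ζ * w) w (t : ℂ) := hasDerivAt_mul_const w
    have h8 : HasDerivAt (fun ζ : ℂ => X (ζ * w)) (deriv X (t * w) * w) (t : ℂ) :=
      HasDerivAt.comp (t : ℂ) hX hmul
    have h9 : HasDerivAt (fun ζ : ℂ => Bm p k (X (ζ * w))⁻¹)
        ((Bd p k (X (t * w)) * ((X (t * w))⁻¹) ^ (2 * p + k)) *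
          (deriv X (t * w) * w)) (t : ℂ) :=
      HasDerivAt.comp (t : ℂ) (h₂ := fun y => Bm p k y⁻¹) h4 h8
    have h10 := h9.comp_ofReal
    convert h10 using 1
    rw [hφ']
    simp only
    linear_combination
      (-(w * ((X (t * w))⁻¹) ^ (2 * p + k))) * hrel
  have hXcont : ContinuousOn (fun t : ℝ => X (t * w)) (Icc 0 1) := by
    refine hL.dX.continuousOn.comp (by fun_prop) fun t ht => hball t ht
  have hφ'c : ContinuousOn φ' (Icc 0 1) := by
    rw [hφ']
    exact ContinuousOn.mul (by fun_prop) ((hXcont.inv₀ hXne).pow _)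
  have hφ0 : φ 0 = 0 := by
    rw [hφ]
    simp only [Complex.ofReal_zero, zero_mul]
    rw [hL.X0, inv_one, ISS_Bm_one p k hk]
  have hint : ∫ t in (0 : ℝ)..1, φ' t = φ 1 := by
    rw [intervalIntegral.integral_eq_sub_of_hasDerivAt (f := φ), hφ0, sub_zero]
    · intro t ht
      rw [uIcc_of_le zero_le_one] at ht
      exact hder t ht
    · refine ContinuousOn.intervalIntegrable ?_
      rw [uIcc_of_le zero_le_one]
      exact hφ'c
  have hnb : ∀ t ∈ Icc (0 : ℝ) 1, ‖φ' t‖ ≤ 2 * t * ‖w‖ ^ 2 := by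
    intro t ht
    rw [hφ']
    simp only
    rw [norm_mul, norm_mul, norm_mul, norm_pow, norm_pow, norm_inv, Complex.norm_real,
      Real.norm_eq_abs, abs_of_nonneg ht.1, Complex.norm_ofNat]
    have h2 : (‖X (t * w)‖⁻¹) ^ (2 * p + k) ≤ 1 :=
      pow_le_one₀ (inv_nonneg.2 (norm_nonneg _)) (inv_le_one_of_one_le₀ (hXn t ht))
    have h3 : 0 ≤ 2 * t * ‖w‖ ^ 2 := by have := ht.1; positivity
    exact mul_le_of_le_one_right h3 h2
  have hstrict : ‖φ' 1‖ < 2 * 1 * ‖w‖ ^ 2 := by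
    have h1 : 1 < ‖X w‖ := hlg w hwball' hwre (norm_pos_iff.1 hw0)
    rw [hφ']
    simp only [Complex.ofReal_one, one_mul]
    rw [norm_mul, norm_mul, norm_mul, norm_pow, norm_pow, norm_inv, norm_one,
      Complex.norm_ofNat]
    have h3 : (‖X w‖⁻¹) ^ (2 * p + k) < 1 :=
      pow_lt_one₀ (inv_nonneg.2 (norm_nonneg _)) (inv_lt_one_of_one_lt₀ h1) (by omega)
    have h4 : 0 < 2 * 1 * ‖w‖ ^ 2 := by positivity
    exact mul_lt_of_lt_one_right h4 h3
  have hfin : ‖φ 1‖ < ‖w‖ ^ 2 := by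
    rw [← hint]
    calc ‖∫ t in (0 : ℝ)..1, φ' t‖ ≤ ∫ t in (0 : ℝ)..1, ‖φ' t‖ :=
          intervalIntegral.norm_integral_le_integral_norm zero_le_one
      _ < ∫ t in (0 : ℝ)..1, 2 * t * ‖w‖ ^ 2 := by
          refine intervalIntegral.integral_lt_integral_of_continuousOn_of_le_of_exists_lt
            zero_lt_one hφ'c.norm (by fun_prop) (fun t ht => hnb t ⟨ht.1.le, ht.2⟩)
            ⟨1, right_mem_Icc.2 zero_le_one, hstrict⟩
      _ = ‖w‖ ^ 2 := by
          rw [intervalIntegral.integral_mul_const, intervalIntegral.integral_const_mul,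
            integral_id]
          ring
  rw [hφ, hwn] at hfin
  simpa using hfin

end H719FX
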