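import Pool.Agent.H719R4.FX.Iso

/-!
# Derivative of `Bm (1 / s)` (helper742)
-/

set_option autoImplicit false

open Complex Set Filter Topology

namespace H719FX

open H738CZ

theorem IVB_dB (p k : ℕ) (hp : 1 ≤ p) (z : ℂ) : HasDerivAt (Bm p k) (Bd p k z) z := by
  have h1 : HasDerivAt (fun y : ℂ => 1 - ((p : ℂ) + k) / k * y ^ p + (p : ℂ) / k * y ^ (p + k))
      (0 - ((p : ℂ) + k) / k * ((p : ℂ) * z ^ (p - 1)) +
        (p : ℂ) / k * (((p + k : ℕ) : ℂ) * z ^ (p + k - 1))) z := by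
    refine HasDerivAt.add (HasDerivAt.sub (hasDerivAt_const z 1) ?_) ?_
    · exact (hasDerivAt_pow p z).const_mul _
    · exact (hasDerivAt_pow (p + k) z).const_mul _
  have h2 : (0 - ((p : ℂ) + k) / k * ((p : ℂ) * z ^ (p - 1)) +
        (p : ℂ) / k * (((p + k : ℕ) : ℂ) * z ^ (p + k - 1))) = Bd p k z := by
    obtain ⟨m, rfl⟩ : ∃ m, p = m + 1 := ⟨p - 1, by omega⟩
    have e1 : m + 1 + k - 1 = m + k := by omega
    have e2 : m + 1 - 1 = m := by omega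
    unfold Bd
    rw [e1, e2, pow_add]
    push_cast
    ring
  rw [h2] at h1
  exact h1

theorem tIVB : StIVB := by
  intro p k s hp hk hs
  have h1 := (IVB_dB p k hp s⁻¹).comp s (hasDerivAt_inv hs)
  have h2 : Bd p k s⁻¹ * -(s ^ 2)⁻¹ = Bd p k s * (s⁻¹) ^ (2 * p + k) := by
    obtain ⟨m, rfl⟩ : ∃ m, p = m + 1 := ⟨p - 1, by omega⟩
    have e2 : m + 1 - 1 = m := by omega
    have e3 : 2 * (m + 1) + k = m + k + (m + 2) := by ring
    have h3 : s ^ m * (s⁻¹) ^ m = 1 := by rw [← mul_pow, mul_inv_cancel₀ hs, one_pow]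
    have h4 : s ^ k * (s⁻¹) ^ k = 1 := by rw [← mul_pow, mul_inv_cancel₀ hs, one_pow]
    unfold Bd
    rw [e2, e3, pow_add, pow_add, pow_add (s⁻¹) m 2, ← inv_pow]
    push_cast
    linear_combination (-((m : ℂ) + 1) * ((m : ℂ) + 1 + k) / k * s⁻¹ ^ m * s⁻¹ ^ 2 *
      (s ^ k * s⁻¹ ^ k - s⁻¹ ^ k)) * h3 - ((m : ℂ) + 1) * ((m : ℂ) + 1 + k) / k *
      s⁻¹ ^ m * s⁻¹ ^ 2 * h4
  rw [h2] at h1
  exact h1

end H719FX
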