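import Pool.Agent.H719R4.FX.Iso
import Pool.Agent.H738R3.CZ.WT

/-!
# IWT: pole order of the inhomogeneous term (isotropic branches)
-/

open Complex Set Filter Topology

namespace H719FX

open H738CZ

theorem IWT_DD {R : ℝ} {k : ℕ} (hk : 1 ≤ k) {w : ℤ} {f : ℂ → ℂ} (hf : WT_W R w f) :
    WT_W R w (DD (di k) f) := by
  obtain ⟨F, h1, h2⟩ := hf
  have hd := h1.deriv Metric.isOpen_ball
  have hk0 : (k : ℂ) ≠ 0 := Nat.cast_ne_zero.2 (by omega)
  refine ⟨fun t => (deriv F t * t - w * F t) / (-(3 * I * k)),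
    ((hd.mul differentiableOn_id).sub (h1.const_mul _)).div_const (-(3 * I * k)), fun τ hτ => ?_⟩
  have h0 := WT_ne hτ
  have hev : f =ᶠ[𝓝 τ] fun s => F s * s ^ (-w) := by
    filter_upwards [(WT_open R).mem_nhds hτ] with s hs
    have hs0 := WT_ne hs
    rw [← h2 s hs, mul_assoc, ← zpow_add₀ hs0, add_neg_cancel, zpow_zero, mul_one]
  have hF : HasDerivAt F (deriv F τ) τ :=
    (h1.differentiableAt (Metric.isOpen_ball.mem_nhds (WT_ball hτ))).hasDerivAt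
  have hz := hasDerivAt_zpow (-w) τ (Or.inl h0)
  have h3 : deriv f τ = deriv F τ * τ ^ (-w) + F τ * (((-w : ℤ) : ℂ) * τ ^ (-w - 1)) := by
    rw [hev.deriv_eq]
    exact (hF.mul hz).deriv
  show deriv f τ / (-(3 * I * k) / τ) * τ ^ w = (deriv F τ * τ - w * F τ) / (-(3 * I * k))
  have ha : τ ^ w ≠ 0 := zpow_ne_zero _ h0
  have e1 : τ ^ (-w) = (τ ^ w)⁻¹ := zpow_neg τ w
  have e2 : τ ^ (-w - 1) = (τ ^ w)⁻¹ * τ⁻¹ := by
    rw [zpow_sub₀ h0, zpow_neg, zpow_one, div_eq_mul_inv]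
  have hI : I ≠ 0 := I_ne_zero
  rw [h3, e1, e2]
  push_cast
  field_simp
  ring

theorem IWT_DDl {R : ℝ} {k : ℕ} (hk : 1 ≤ k) {w : ℤ} {f : ℂ → ℂ} (hf : WT_W R w f) (l : ℕ) :
    WT_W R w ((DD (di k))^[l] f) := by
  induction l with
  | zero => simpa using hf
  | succ l ih =>
    rw [Function.iterate_succ_apply']
    exact IWT_DD hk ih

/-- weight of a family of power series -/
def IWT_P (R : ℝ) (w : ℤ) (P : ℂ → PowerSeries ℂ) : Prop :=
  ∀ n : ℕ, WT_W R w (fun t => PowerSeries.coeff n (P t))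

theorem IWT_Pmul {R : ℝ} {w w' : ℤ} {P P' : ℂ → PowerSeries ℂ} (h : IWT_P R w P)
    (h' : IWT_P R w' P') : IWT_P R (w + w') (fun t => P t * P' t) := by
  intro n
  have h1 := WT_sum (Finset.HasAntidiagonal.antidiagonal n : Finset (ℕ × ℕ))
    (fun p t => PowerSeries.coeff p.1 (P t) * PowerSeries.coeff p.2 (P' t))
    (fun p _ => WT_mul (h p.1) (h' p.2))
  refine WT_congr (fun t _ => ?_) h1
  exact PowerSeries.coeff_mul n (P t) (P' t)

theorem IWT_Ppow {R : ℝ} {w : ℤ} {P : ℂ → PowerSeries ℂ} (h : IWT_P R w P) (j : ℕ) :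
    IWT_P R (j * w) (fun t => P t ^ j) := by
  induction j with
  | zero =>
    intro n
    by_cases hn : n = 0
    · subst hn
      have h1 := WT_one R
      simpa using h1
    · refine WT_congr (fun t _ => ?_) (WT_zero R _)
      simp [PowerSeries.coeff_one, hn]
  | succ j ih =>
    have h1 := IWT_Pmul ih h
    have e : ((j + 1 : ℕ) : ℤ) * w = j * w + w := by push_cast; ring
    rw [e]
    intro n
    refine WT_congr (fun t _ => ?_) (h1 n)
    simp only [pow_succ]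

theorem IWT_Es {R : ℝ} {k : ℕ} (hk : 1 ≤ k) {w : ℤ} {f : ℂ → ℂ} (hf : WT_W R w f) :
    IWT_P R w (fun t => Es (di k) f t) := by
  intro l
  refine WT_congr (fun t _ => ?_) (WT_smul ((l.factorial : ℂ)⁻¹) (IWT_DDl hk hf l))
  simp only [Es, PowerSeries.coeff_mk]
  ring

theorem IWT_Ys (kc : ℕ → ℂ) {R : ℝ} {k : ℕ} (hk : 1 ≤ k) {w : ℤ} {f : ℂ → ℂ}
    (hf : WT_W R w f) : IWT_P R w (fun t => Ys kc (di k) f t) := by
  intro n
  have h1 : WT_W R w (fun t => ∑ l ∈ Finset.range n,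
      kc (n - 1 - l) * ((DD (di k))^[l] f) t) :=
    WT_sum _ (fun l t => kc (n - 1 - l) * ((DD (di k))^[l] f) t) fun l _ =>
      WT_smul _ (IWT_DDl hk hf l)
  refine WT_congr (fun t _ => ?_) (WT_smul ((n.factorial : ℂ)⁻¹) h1)
  simp only [Ys, PowerSeries.coeff_mk]
  ring

theorem tIWT : StIWT := by
  intro p k u R hp hk hU g J hJ hg hG
  have hmaps : ∀ τ ∈ Metric.ball (0 : ℂ) R, τ ^ 6 ∈ Metric.ball (0 : ℂ) (R ^ 6) := by
    intro τ hτ
    rw [mem_ball_zero_iff] at hτ ⊢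
    rw [norm_pow]
    exact pow_lt_pow_left₀ hτ (norm_nonneg _) (by norm_num)
  have hu3 : DifferentiableOn ℂ (fun τ : ℂ => u (τ ^ 6)) (Metric.ball 0 R) :=
    hU.df.comp (differentiableOn_pow 6) hmaps
  -- weights of the building blocks
  have hρ : WT_W R (-(3 * (2 * (p : ℤ) + k))) (ρi p k u) := by
    refine ⟨fun τ => u (τ ^ 6) ^ 3, hu3.pow 3, fun τ hτ => ?_⟩
    have h0 := WT_ne hτ
    show (τ ^ (2 * p + k) * u (τ ^ 6)) ^ 3 * τ ^ (-(3 * (2 * (p : ℤ) + k))) = u (τ ^ 6) ^ 3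
    have e : τ ^ (-(3 * (2 * (p : ℤ) + k))) = ((τ ^ (2 * p + k)) ^ 3)⁻¹ := by
      rw [zpow_neg, ← pow_mul]
      congr 1
      rw [show (3 * (2 * (p : ℤ) + k)) = (((2 * p + k) * 3 : ℕ) : ℤ) by push_cast; ring,
        zpow_natCast]
    have h1 : τ ^ (2 * p + k) ≠ 0 := pow_ne_zero _ h0
    rw [e]
    field_simp
  have hr : WT_W R (2 * (p : ℤ) + k) (fun t => (ri p k u t)⁻¹) := by
    refine ⟨fun τ => (u (τ ^ 6))⁻¹, hu3.inv (fun τ hτ => hU.nz _ (hmaps τ hτ)), fun τ hτ => ?_⟩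
    have h0 := WT_ne hτ
    have h1 := hU.nz _ (hmaps τ (WT_ball hτ))
    show (τ ^ (2 * p + k) * u (τ ^ 6))⁻¹ * τ ^ (2 * (p : ℤ) + k) = (u (τ ^ 6))⁻¹
    rw [show (2 * (p : ℤ) + k) = ((2 * p + k : ℕ) : ℤ) by push_cast; ring, zpow_natCast]
    have h2 : τ ^ (2 * p + k) ≠ 0 := pow_ne_zero _ h0
    field_simp
  have hgj : ∀ j, 1 ≤ j → j < J → WT_W R ((4 * p + 2 * k) * (j - 1) : ℤ) (g j) := by
    intro j h1 h2
    obtain ⟨G, hG1, hG2⟩ := hG j h1 h2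
    refine ⟨G, hG1, fun τ hτ => ?_⟩
    rw [← hG2 τ hτ]
    congr 1
    rw [show ((4 * p + 2 * k) * (j - 1) : ℤ) = (((4 * p + 2 * k) * (j - 1) : ℕ) : ℤ) by
      push_cast [Nat.cast_sub h1]; ring, zpow_natCast]
  have hT : ∀ j ∈ Finset.Ico 1 J, IWT_P R (-(4 * p + 2 * k : ℤ))
      (fun t => Tm kcs (di k) (ρi p k u) (ri p k u) g j t) := by
    intro j hj
    rw [Finset.mem_Ico] at hj
    have h1 := IWT_Es hk (WT_mul (hgj j hj.1 hj.2) (WT_pow hr j))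
    have h2 := IWT_Ppow (IWT_Ys kcs hk hρ) j
    have h3 := IWT_Pmul h1 h2
    have e : ((4 * p + 2 * k) * (j - 1) : ℤ) + j * (2 * (p : ℤ) + k) +
        j * (-(3 * (2 * (p : ℤ) + k))) = -(4 * p + 2 * k : ℤ) := by
      ring
    rw [e] at h3
    exact h3
  have hL : WT_W R (-(4 * p + 2 * k : ℤ))
      (fun t => Lo kcs (di k) (ρi p k u) (ri p k u) g J t) := by
    have h1 := WT_sum (Finset.Ico 1 J) (fun j t => PowerSeries.coeff (2 * J + 1)
      (Tm kcs (di k) (ρi p k u) (ri p k u) g j t)) (fun j hj => hT j hj (2 * J + 1))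
    refine WT_congr (fun t _ => ?_) h1
    show Lo kcs (di k) (ρi p k u) (ri p k u) g J t = _
    unfold Lo
    rw [map_sum]
  obtain ⟨F, hF1, hF2⟩ := WT_mul (WT_pow hr (2 * J)) hL
  refine ⟨F, hF1, fun τ hτ => ?_⟩
  rw [← hF2 τ hτ]
  congr 1
  have e : (((2 * J : ℕ) : ℤ) * (2 * (p : ℤ) + k) + (-(4 * p + 2 * k : ℤ))) =
      (((4 * p + 2 * k) * (J - 1) : ℕ) : ℤ) := by
    push_cast [Nat.cast_sub (show 1 ≤ J by omega)]
    ring
  rw [e, zpow_natCast]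

end H719FX
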