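import Pool.Agent.H719R4.FX.Iso

/-! Task ORD: orders. -/

open Complex Set Filter Topology

namespace H719FX

open H738CZ

theorem ORD_deriv (A f : ℂ → ℂ) (t0 : ℂ) (a : ℕ) (hf : AnalyticAt ℂ f t0)
    (hA : ∀ᶠ t in 𝓝 t0, A t = (t - t0) ^ a * f t) :
    ∀ᶠ t in 𝓝 t0, (t - t0) * deriv A t =
      (t - t0) ^ a * (a * f t + (t - t0) * deriv f t) := by
  have h1 : ∀ᶠ t in 𝓝 t0, deriv A t = deriv (fun t => (t - t0) ^ a * f t) t := by
    have := (EventuallyEq.eventuallyEq_nhds hA : _)
    filter_upwards [this] with t ht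
    exact ht.deriv_eq
  filter_upwards [h1, hf.eventually_analyticAt] with t ht hft
  have hd : HasDerivAt (fun t => (t - t0) ^ a * f t)
      ((a * (t - t0) ^ (a - 1) * 1) * f t + (t - t0) ^ a * deriv f t) t :=
    (((hasDerivAt_id t).sub_const t0).pow a).mul hft.differentiableAt.hasDerivAt
  rw [ht, hd.deriv]
  rcases a with _ | a
  · simp
  · simp only [Nat.add_sub_cancel]
    rw [pow_succ]; ring

theorem ORD_wr (A B f g : ℂ → ℂ) (t0 : ℂ) (a b : ℕ) (hf : AnalyticAt ℂ f t0)
    (hg : AnalyticAt ℂ g t0) (hA : ∀ᶠ t in 𝓝 t0, A t = (t - t0) ^ a * f t)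
    (hB : ∀ᶠ t in 𝓝 t0, B t = (t - t0) ^ b * g t) :
    ∀ᶠ t in 𝓝 t0, (t - t0) * (A t * deriv B t - deriv A t * B t) =
      (t - t0) ^ (a + b) * (((b : ℂ) - a) * (f t * g t) +
        (t - t0) * (f t * deriv g t - deriv f t * g t)) := by
  filter_upwards [hA, hB, ORD_deriv A f t0 a hf hA, ORD_deriv B g t0 b hg hB] with t h1 h2 h3 h4
  calc (t - t0) * (A t * deriv B t - deriv A t * B t)
      = A t * ((t - t0) * deriv B t) - ((t - t0) * deriv A t) * B t := by ring
    _ = _ := by rw [h3, h4, h1, h2, pow_add]; ring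

theorem ORD_ord (w H : ℂ → ℂ) (t0 : ℂ) (n : ℕ) (hw : AnalyticAt ℂ w t0) (hH : AnalyticAt ℂ H t0)
    (he : ∀ᶠ t in 𝓝 t0, (t - t0) * w t = (t - t0) ^ n * H t) :
    1 + analyticOrderAt w t0 = n + analyticOrderAt H t0 := by
  have hid : AnalyticAt ℂ (fun t : ℂ => t - t0) t0 := analyticAt_id.sub analyticAt_const
  have h1 : analyticOrderAt (fun t : ℂ => t - t0) t0 = 1 := by
    have := (hid.analyticOrderAt_eq_natCast (n := 1)).2
      ⟨fun _ => 1, analyticAt_const, one_ne_zero, Eventually.of_forall fun t => by simp⟩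
    exact_mod_cast this
  have hpow : AnalyticAt ℂ (fun t : ℂ => (t - t0) ^ n) t0 := hid.pow n
  have h2 : analyticOrderAt (fun t : ℂ => (t - t0) ^ n) t0 = n := by
    exact (hpow.analyticOrderAt_eq_natCast (n := n)).2
      ⟨fun _ => 1, analyticAt_const, one_ne_zero, Eventually.of_forall fun t => by simp⟩
  have h3 : analyticOrderAt ((fun t : ℂ => t - t0) * w) t0 = 1 + analyticOrderAt w t0 := by
    rw [analyticOrderAt_mul hid hw, h1]
  have h4 : analyticOrderAt ((fun t : ℂ => (t - t0) ^ n) * H) t0 = n + analyticOrderAt H t0 := by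
    rw [analyticOrderAt_mul hpow hH, h2]
  rw [← h3, ← h4]
  exact analyticOrderAt_congr he

theorem ORD_zero (H : ℂ → ℂ) (t0 : ℂ) (hH : AnalyticAt ℂ H t0) (h0 : H t0 ≠ 0) :
    analyticOrderAt H t0 = 0 := by
  exact hH.analyticOrderAt_eq_zero.2 h0

theorem ORD_fac (A : ℂ → ℂ) (t0 : ℂ) (hA : AnalyticAt ℂ A t0) (h0 : ¬ ∀ᶠ t in 𝓝 t0, A t = 0) :
    ∃ (a : ℕ) (f : ℂ → ℂ), analyticOrderAt A t0 = a ∧ AnalyticAt ℂ f t0 ∧ f t0 ≠ 0 ∧
      ∀ᶠ t in 𝓝 t0, A t = (t - t0) ^ a * f t := by
  have htop : analyticOrderAt A t0 ≠ ⊤ := fun h => h0 (analyticOrderAt_eq_top.1 h)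
  obtain ⟨a, ha⟩ := ENat.ne_top_iff_exists.1 htop
  obtain ⟨f, h1, h2, h3⟩ := hA.analyticOrderAt_eq_natCast.1 ha.symm
  exact ⟨a, f, ha.symm, h1, h2, by simpa using h3⟩

theorem tORD : StORD := by
  intro Z W t0 hZ hW hWr hBr hI1 hI2
  have hZ' : AnalyticAt ℂ (deriv Z) t0 := hZ.deriv
  have hW' : AnalyticAt ℂ (deriv W) t0 := hW.deriv
  have hZ0 : ¬ ∀ᶠ t in 𝓝 t0, deriv Z t = 0 := by
    intro h
    apply hWr
    have h2 : ∀ᶠ t in 𝓝 t0, deriv (deriv Z) t = 0 := by
      have h' : deriv Z =ᶠ[𝓝 t0] fun _ => 0 := h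
      filter_upwards [h'.eventuallyEq_nhds] with t ht
      rw [ht.deriv_eq]; simp
    filter_upwards [h, h2] with t h1 h2
    unfold Wr
    rw [h1, h2]; ring
  have hW0 : ¬ ∀ᶠ t in 𝓝 t0, deriv W t = 0 := by
    intro h
    apply hWr
    have h2 : ∀ᶠ t in 𝓝 t0, deriv (deriv W) t = 0 := by
      have h' : deriv W =ᶠ[𝓝 t0] fun _ => 0 := h
      filter_upwards [h'.eventuallyEq_nhds] with t ht
      rw [ht.deriv_eq]; simp
    filter_upwards [h, h2] with t h1 h2
    unfold Wr
    rw [h1, h2]; ring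
  obtain ⟨a, f, ha, hf, hf0, hfe⟩ := ORD_fac _ t0 hZ' hZ0
  obtain ⟨b, g, hb, hg, hg0, hge⟩ := ORD_fac _ t0 hW' hW0
  have hWra : AnalyticAt ℂ (Wr Z W) t0 := by
    have : AnalyticAt ℂ (fun t => deriv Z t * deriv (deriv W) t - deriv (deriv Z) t * deriv W t) t0 :=
      (hZ'.mul hW'.deriv).sub (hZ'.deriv.mul hW')
    exact this
  have hid : AnalyticAt ℂ (fun t : ℂ => t - t0) t0 := analyticAt_id.sub analyticAt_const
  have hw1a : AnalyticAt ℂ (fun t => f t * deriv g t - deriv f t * g t) t0 :=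
    (hf.mul hg.deriv).sub (hf.deriv.mul hg)
  have hHa : AnalyticAt ℂ (fun t => ((b : ℂ) - a) * (f t * g t) +
      (t - t0) * (f t * deriv g t - deriv f t * g t)) t0 :=
    (analyticAt_const.mul (hf.mul hg)).add (hid.mul hw1a)
  have he := ORD_wr (deriv Z) (deriv W) f g t0 a b hf hg hfe hge
  have ho := ORD_ord (Wr Z W) _ t0 (a + b) hWra hHa he
  have htop : analyticOrderAt (Wr Z W) t0 ≠ ⊤ := fun h => hWr (analyticOrderAt_eq_top.1 h)
  obtain ⟨x, hx⟩ := ENat.ne_top_iff_exists.1 htop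
  rw [ha, hb]
  rw [← hx] at ho ⊢
  rcases lt_trichotomy a b with hab | hab | hab
  · -- `a < b`
    have hk : a + 1 = b - a := by
      refine hI2 a (b - a) (by omega) ⟨g, f, hg, hf, hg0, hf0, ?_, hfe⟩
      rw [show a + (b - a) = b by omega]
      exact hge
    have h0 : analyticOrderAt (fun t => ((b : ℂ) - a) * (f t * g t) +
        (t - t0) * (f t * deriv g t - deriv f t * g t)) t0 = 0 := by
      refine ORD_zero _ t0 hHa ?_
      have : ((b : ℂ) - a) ≠ 0 := by
        rw [sub_ne_zero]; exact_mod_cast hab.ne'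
      simp [this, hf0, hg0]
    rw [h0] at ho
    have ho' : 1 + x = a + b := by exact_mod_cast ho
    rw [min_eq_left (by exact_mod_cast hab.le)]
    have : x = 3 * a := by omega
    rw [this]; push_cast; rfl
  · -- `a = b`
    subst hab
    have hw1 : analyticOrderAt (fun t => ((a : ℂ) - a) * (f t * g t) +
        (t - t0) * (f t * deriv g t - deriv f t * g t)) t0 =
        1 + analyticOrderAt (fun t => f t * deriv g t - deriv f t * g t) t0 := by
      have h1 : analyticOrderAt (fun t : ℂ => t - t0) t0 = 1 := by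
        have := (hid.analyticOrderAt_eq_natCast (n := 1)).2
          ⟨fun _ => 1, analyticAt_const, one_ne_zero, Eventually.of_forall fun t => by simp⟩
        exact_mod_cast this
      rw [← h1, ← analyticOrderAt_mul hid hw1a]
      refine analyticOrderAt_congr (Eventually.of_forall fun t => ?_)
      simp
    rw [hw1] at ho
    -- the function `e`
    set e : ℂ → ℂ := fun t => g t * f t0 - f t * g t0 with hedef
    have hea : AnalyticAt ℂ e t0 := (hg.mul analyticAt_const).sub (hf.mul analyticAt_const)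
    have hew : ∀ᶠ t in 𝓝 t0, f t * deriv e t - deriv f t * e t =
        f t0 * (f t * deriv g t - deriv f t * g t) := by
      filter_upwards [hf.eventually_analyticAt, hg.eventually_analyticAt] with t h1 h2
      have hd : HasDerivAt e (deriv g t * f t0 - deriv f t * g t0) t :=
        (h2.differentiableAt.hasDerivAt.mul_const _).sub
          (h1.differentiableAt.hasDerivAt.mul_const _)
      rw [hd.deriv]
      simp only [hedef]
      ring
    have he0 : ¬ ∀ᶠ t in 𝓝 t0, e t = 0 := by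
      intro h
      have h2 : ∀ᶠ t in 𝓝 t0, deriv e t = 0 := by
        have h' : e =ᶠ[𝓝 t0] fun _ => 0 := h
        filter_upwards [h'.eventuallyEq_nhds] with t ht
        rw [ht.deriv_eq]; simp
      have h3 : ∀ᶠ t in 𝓝 t0, f t * deriv g t - deriv f t * g t = 0 := by
        filter_upwards [h, h2, hew] with t h1 h2 h3
        rw [h1, h2, mul_zero, mul_zero, sub_zero] at h3
        exact (mul_eq_zero.1 h3.symm).resolve_left hf0
      have h4 : analyticOrderAt (fun t => f t * deriv g t - deriv f t * g t) t0 = ⊤ :=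
        analyticOrderAt_eq_top.2 h3
      rw [h4] at ho
      simp at ho
    obtain ⟨k, h, hk, hh, hh0, hhe⟩ := ORD_fac e t0 hea he0
    have hk1 : 1 ≤ k := by
      rcases Nat.eq_zero_or_pos k with hk0 | hk0
      · exfalso
        have h1 := hhe.self_of_nhds
        rw [hk0, pow_zero, one_mul] at h1
        apply hh0
        rw [← h1]
        simp only [hedef]; ring
      · exact hk0
    have hmk : a + 1 = k := hBr a k hk1 ⟨f, g, h, hf, hg, hh, hf0, hg0, hh0, hfe, hge, hhe⟩
    have hE := ORD_wr f e f h t0 0 k hf hh (Eventually.of_forall fun t => by simp) hhe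
    have hHa2 : AnalyticAt ℂ (fun t => (f t0)⁻¹ * (((k : ℂ) - (0 : ℕ)) * (f t * h t) +
        (t - t0) * (f t * deriv h t - deriv f t * h t))) t0 :=
      analyticAt_const.mul ((analyticAt_const.mul (hf.mul hh)).add
        (hid.mul ((hf.mul hh.deriv).sub (hf.deriv.mul hh))))
    have ho2 := ORD_ord (fun t => f t * deriv g t - deriv f t * g t) _ t0 k hw1a hHa2 (by
      filter_upwards [hE, hew] with t h1 h2
      rw [h2, zero_add] at h1
      calc (t - t0) * (f t * deriv g t - deriv f t * g t)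
          = (f t0)⁻¹ * ((t - t0) * (f t0 * (f t * deriv g t - deriv f t * g t))) := by
            field_simp
        _ = _ := by rw [h1]; ring)
    rw [ORD_zero _ t0 hHa2 (by
      have : (k : ℂ) ≠ 0 := by exact_mod_cast (by omega : k ≠ 0)
      simp [hf0, hh0, this])] at ho2
    have htop2 : analyticOrderAt (fun t => f t * deriv g t - deriv f t * g t) t0 ≠ ⊤ := by
      intro h
      rw [h] at ho2
      simp at ho2
    obtain ⟨y, hy⟩ := ENat.ne_top_iff_exists.1 htop2
    rw [← hy] at ho ho2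
    have ho2' : 1 + y = k := by
      have : ((1 + y : ℕ) : ℕ∞) = k := by push_cast; simpa using ho2
      exact_mod_cast this
    have ho' : 1 + x = a + a + (1 + y) := by
      exact_mod_cast ho
    rw [min_self]
    have : x = 3 * a := by omega
    rw [this]; push_cast; rfl
  · -- `b < a`
    have hk : b + 1 = a - b := by
      refine hI1 b (a - b) (by omega) ⟨f, g, hf, hg, hf0, hg0, ?_, hge⟩
      rw [show b + (a - b) = a by omega]
      exact hfe
    have h0 : analyticOrderAt (fun t => ((b : ℂ) - a) * (f t * g t) +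
        (t - t0) * (f t * deriv g t - deriv f t * g t)) t0 = 0 := by
      refine ORD_zero _ t0 hHa ?_
      have : ((b : ℂ) - a) ≠ 0 := by
        rw [sub_ne_zero]; exact_mod_cast hab.ne
      simp [this, hf0, hg0]
    rw [h0] at ho
    have ho' : 1 + x = a + b := by exact_mod_cast ho
    rw [min_eq_right (by exact_mod_cast hab.le)]
    have : x = 3 * b := by omega
    rw [this]; push_cast; rfl

end H719FX
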