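import Pool.Agent.H719R4.FX.Iso
import Pool.Agent.H738R3.CZ.CHG

/-!
# REF: exchanging `Z` and `W`
-/

open Complex Set Filter Topology

namespace H719FX

open H738CZ

lemma REF_DD (f : ℂ → ℂ) (l : ℕ) (t : ℂ) :
    ((DD (fun _ => (-1 : ℂ)))^[l] f) t = (-1) ^ l * ((DD (fun _ => (1 : ℂ)))^[l] f) t := by
  have h : ∀ l : ℕ, (DD (fun _ => (-1 : ℂ)))^[l] f =
      fun t => (-1) ^ l * ((DD (fun _ => (1 : ℂ)))^[l] f) t := by
    intro l
    induction l with
    | zero => funext t; simp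
    | succ l ih =>
      rw [Function.iterate_succ_apply', Function.iterate_succ_apply', ih]
      funext t
      unfold DD
      rw [deriv_const_mul_field]
      ring
  rw [h l]

lemma REF_Es (f : ℂ → ℂ) (t : ℂ) :
    Es (fun _ => (-1 : ℂ)) f t = PowerSeries.rescale (-1 : ℂ) (Es (fun _ => (1 : ℂ)) f t) := by
  ext n
  rw [PowerSeries.coeff_rescale]
  unfold Es
  rw [PowerSeries.coeff_mk, PowerSeries.coeff_mk, REF_DD]
  ring

lemma REF_Ys (kc : ℕ → ℂ) (hk : ∀ i, kc (2 * i) = 0) (ρ : ℂ → ℂ) (t : ℂ) :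
    Ys kc (fun _ => (-1 : ℂ)) ρ t =
      PowerSeries.rescale (-1 : ℂ) (Ys kc (fun _ => (1 : ℂ)) ρ t) := by
  ext n
  rw [PowerSeries.coeff_rescale]
  unfold Ys
  rw [PowerSeries.coeff_mk, PowerSeries.coeff_mk, ← mul_div_assoc, Finset.mul_sum]
  congr 1
  apply Finset.sum_congr rfl
  intro l hl
  rw [Finset.mem_range] at hl
  rw [REF_DD]
  rcases Nat.even_or_odd (n - 1 - l) with h | h
  · obtain ⟨i, hi⟩ := h
    have : n - 1 - l = 2 * i := by omega
    rw [this, hk]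
    ring
  · have h2 : Even (n - l) := by
      obtain ⟨i, hi⟩ := h
      exact ⟨i + 1, by omega⟩
    have h3 : ((-1 : ℂ)) ^ n = (-1) ^ l := by
      have : n = (n - l) + l := by omega
      rw [this, pow_add, h2.neg_one_pow, one_mul]
    rw [h3]
    ring

lemma REF_Cf (kc : ℕ → ℂ) (hk : ∀ i, kc (2 * i) = 0) (ρ r0 : ℂ → ℂ) (g : ℕ → ℂ → ℂ)
    (J N : ℕ) (t : ℂ) : Cf kc (fun _ => (-1 : ℂ)) ρ r0 g J N t =
      (-1) ^ N * Cf kc (fun _ => (1 : ℂ)) ρ r0 g J N t := by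
  unfold Cf
  have h : ∑ j ∈ Finset.Icc 1 J, Tm kc (fun _ => (-1 : ℂ)) ρ r0 g j t =
      PowerSeries.rescale (-1 : ℂ) (∑ j ∈ Finset.Icc 1 J,
        Tm kc (fun _ => (1 : ℂ)) ρ r0 g j t) := by
    rw [map_sum]
    apply Finset.sum_congr rfl
    intro j _
    unfold Tm
    rw [map_mul, map_pow, REF_Es, REF_Ys kc hk]
  rw [h, PowerSeries.coeff_rescale]

lemma REF_kcs (i : ℕ) : kcs (2 * i) = 0 := by
  unfold kcs
  rw [if_pos (even_two_mul i)]

lemma REF_good (ρ : ℂ → ℂ) (a : ℂ) (h : Good kcs ρ a) :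
    Good kcs (fun x => ρ (-x)) (-a) := by
  obtain ⟨η, hη, r0, g, hFI, hSG⟩ := h
  have hmaps : MapsTo (fun x : ℂ => -x) (Metric.ball (-a) η) (Metric.ball a η) := by
    intro x hx
    rw [Metric.mem_ball, dist_eq_norm] at hx ⊢
    have : -x - a = -(x - -a) := by ring
    rw [this, norm_neg]
    exact hx
  have hF := tCHG kcs (fun _ => 1) ρ r0 g (Metric.ball a η) (fun _ => -1) (fun x => -x)
    (Metric.ball (-a) η) hFI Metric.isOpen_ball differentiable_neg.differentiableOn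
    hmaps (fun t _ => by
      rw [one_mul]
      simp) (fun t _ => by norm_num)
  refine ⟨η, hη, r0 ∘ (fun x => -x), fun j => g j ∘ (fun x => -x), ?_, ?_⟩
  · constructor
    · constructor
      · exact Metric.isOpen_ball
      · exact differentiableOn_const _
      · intro t _; exact one_ne_zero
      · exact hF.base.rd
      · exact hF.base.rn
      · exact hF.base.cube
    · exact hF.gd
    · exact hF.one
    · intro J hJ t ht
      have h1 := hF.law J hJ t ht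
      rw [REF_Cf kcs REF_kcs] at h1
      rcases mul_eq_zero.mp h1 with h2 | h2
      · exact absurd h2 (pow_ne_zero _ (by norm_num))
      · exact h2
  · obtain ⟨C, s, hC, hs0, hs1, hGB⟩ := hSG
    refine ⟨C, s, hC, hs0, hs1, ?_⟩
    intro j hj t ht
    exact hGB j hj (-t) (hmaps ht)

theorem tREF : StREF := by
  intro Z W t h
  obtain ⟨Φ, ρ, hP, hG⟩ := h
  refine ⟨fun s => -Φ s, fun x => ρ (-x), ?_, REF_good ρ _ hG⟩
  have hdΦ : ∀ s, deriv (fun s => -Φ s) s = - deriv Φ s := fun s => deriv.fun_neg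
  constructor
  · exact hP.aΦ.neg
  · have h1 : AnalyticAt ℂ ρ (-(-Φ t)) := by rw [neg_neg]; exact hP.aρ
    exact h1.comp (analyticAt_id.neg)
  · rw [hdΦ]; exact neg_ne_zero.mpr hP.dΦ
  · show ρ (-(-Φ t)) ≠ 0
    rw [neg_neg]; exact hP.nρ
  · filter_upwards [hP.eW] with s hs
    rw [hs, hdΦ]
    show _ = ρ (-(-Φ s)) * _ * _
    rw [neg_neg, neg_mul (Φ s) I]
    ring
  · filter_upwards [hP.eZ] with s hs
    rw [hs, hdΦ]
    show _ = ρ (-(-Φ s)) * _ * _
    rw [neg_neg, neg_mul (Φ s) I, neg_neg]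
    ring

end H719FX
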