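import Pool.Agent.H719R4.FX.Fin1
import Pool.Agent.H719R4.FX.Fin2a
import Pool.Agent.H719R4.FX.IINT
import Pool.Agent.H719R4.FX.IWT
import Pool.Agent.H719R4.FX.IEXT
import Pool.Agent.H719R4.FX.IPRV
import Pool.Agent.H719R4.FX.ICRC
import Pool.Agent.H719R4.FX.ILIM
import Pool.Agent.H719R4.FX.IMDL
import Pool.Agent.H719R4.FX.ILG
import Pool.Agent.H719R4.FX.ITE
import Pool.Agent.H719R4.FX.IM4
import Pool.Agent.H719R4.FX.IVB
import Pool.Agent.H719R4.FX.ISS
import Pool.Agent.H719R4.FX.ITT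
import Pool.Agent.H719R4.FX.IPP
import Pool.Agent.H719R4.FX.IEE
import Pool.Agent.H719R4.FX.IG1
import Pool.Agent.H719R4.FX.IG2
import Pool.Agent.H719R4.FX.IRR
import Pool.Agent.H719R4.FX.IS5
import Pool.Agent.H719R4.FX.IEND
import Pool.Agent.H719R4.FX.INB
import Pool.Agent.H719R4.FX.ISIN
import Pool.Agent.H719R4.FX.REF
import Pool.Agent.H719R4.FX.ORD

/-! # Assembly, second part: isotropic branches and the final theorem -/

open Complex Set Filter Topology

namespace H719FX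

open H738CZ

theorem fin_iend : StIEND := by
  obtain ⟨hCHG, hMON, hSTB, hV3C, hPAR, -, -, -, -, -⟩ := cz
  have hVA := tVA
  have hVB := tVB hVA
  have hFF := tFF hVA hVB tVC
  have hISS := tISS tLOC tILG hVA tIVB
  have hITT := tITT hVA hVB tIVB
  have hIPP := tIPP hVA hFF hISS hITT
  exact tIEND (tIINT hCHG hMON) (tIEXT tIWT) (tIPRV hCHG hSTB hV3C) tICRC tILIM tIMDL
    (tIM4 tLOC tITE hPAR) (tIS5 tIRR (tIEE hIPP hVA) (tIG1 hIPP hVA) tIG2)

theorem fin_fly : StFLY := by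
  obtain ⟨-, -, -, -, -, -, -, -, hTRL, hDSC⟩ := cz
  exact tFLY fin_sta tSTZ (tLC (tSEG tPA tSGN hTRL hDSC)) tNB fin_sin tINB (tISIN fin_iend)
    tREF tORD

end H719FX
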