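import Pool.Agent.H719R4.FX.Fin2a
import Pool.Agent.H719R4.FX.Cov

/-! # Assembly, third part (conditional): all places are regular -/

open Complex Set Filter Topology

namespace H719FX

open H738CZ

theorem tFLZ (hSTA : StSTA) (hSTZ : StSTZ) (hLC : StLC) (hNB : StNB) (hSIN : StSIN)
    (hINB : StINB) (hISIN : StISIN) (hREF : StREF) (hGRN : StGRN) (hGRI : StGRI)
    (hREG : StREG) : StFLZ := by
  intro γ ρ ho K ε hε hK hrefl hnc n a r Z W hC θ x0 x1 hθ hZW hne t0 ht0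
  obtain ⟨x, Φ, R, y, η, hx, hP, hΦ, hη, hR, hRρ⟩ := hSTZ γ ρ ho (Z 0) (W 0) (a 0) (r 0) θ x0 x1
    (hC.dZ 0 (Nat.zero_le _)) (hC.dW 0 (Nat.zero_le _)) hθ hZW hne
  have hg : Good kcs R y := hSTA γ ρ ho K ε hε hK hrefl hnc R y η hη hR hRρ
  have hG0 : GoodAt (Z 0) (W 0) x := ⟨Φ, R, hP, by rw [hΦ]; exact hg⟩
  obtain ⟨z, hz, hGz⟩ := CH2_key hLC hC ⟨x, (hZW x hx).1, hG0⟩
  have hall : ∀ t ∈ Metric.ball (a n) (r n), deriv (Z n) t ≠ 0 → deriv (W n) t ≠ 0 →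
      Wr (Z n) (W n) t ≠ 0 → GoodAt (Z n) (W n) t := fun w hw h1 h2 h3 =>
    hLC (Z n) (W n) (a n) (r n) z w (hC.dZ n le_rfl) (hC.dW n le_rfl) hz hw hGz h1 h2 h3
  have hb : Metric.ball (a n) (r n) ∈ 𝓝 t0 := Metric.isOpen_ball.mem_nhds ht0
  have haZ : AnalyticAt ℂ (Z n) t0 := (hC.dZ n le_rfl).analyticAt hb
  have haW : AnalyticAt ℂ (W n) t0 := (hC.dW n le_rfl).analyticAt hb
  obtain ⟨g1, g2, g3⟩ := LC_good hGz
  have hnz : ¬ ∀ᶠ t in 𝓝 t0, Wr (Z n) (W n) t = 0 := by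
    intro hcon
    set f : ℂ → ℂ := fun t => deriv (Z n) t * deriv (W n) t * Wr (Z n) (W n) t with hf
    have hfd : DifferentiableOn ℂ f (Metric.ball (a n) (r n)) :=
      LC_diff Metric.isOpen_ball (hC.dZ n le_rfl) (hC.dW n le_rfl)
    have hfa : AnalyticOnNhd ℂ f (Metric.ball (a n) (r n)) :=
      hfd.analyticOnNhd Metric.isOpen_ball
    have h1 : f =ᶠ[𝓝 t0] 0 := by
      filter_upwards [hcon] with t ht
      simp [hf, ht]
    have h2 : EqOn f 0 (Metric.ball (a n) (r n)) :=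
      hfa.eqOn_zero_of_preconnected_of_eventuallyEq_zero (convex_ball _ _).isPreconnected ht0 h1
    exact mul_ne_zero (mul_ne_zero g1 g2) g3 (h2 hz)
  refine ⟨hnz, hREG (Z n) (W n) t0 haZ haW hnz ?_ ?_ ?_⟩
  · intro m k hk hBr
    have hgood : ∀ᶠ t in 𝓝[≠] t0, GoodAt (Z n) (W n) t := by
      filter_upwards [hNB (Z n) (W n) t0 m k hk haZ haW hBr, mem_nhdsWithin_of_mem_nhds hb]
        with t h1 h2
      exact hall t h2 h1.1 h1.2.1 h1.2.2
    exact hGRN (Z n) (W n) t0 m k (hSIN (Z n) (W n) t0 m k hk haZ haW hBr hgood) haZ haW hBr hgood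
  · intro m k hk hBr
    have hgood : ∀ᶠ t in 𝓝[≠] t0, GoodAt (Z n) (W n) t := by
      filter_upwards [hINB (Z n) (W n) t0 m k hk haZ haW hBr, mem_nhdsWithin_of_mem_nhds hb]
        with t h1 h2
      exact hall t h2 h1.1 h1.2.1 h1.2.2
    exact hGRI (Z n) (W n) t0 m k (hISIN (Z n) (W n) t0 m k hk haZ haW hBr hgood) haZ haW hBr hgood
  · intro m k hk hBr
    have hgood : ∀ᶠ t in 𝓝[≠] t0, GoodAt (W n) (Z n) t := by
      filter_upwards [hINB (W n) (Z n) t0 m k hk haW haZ hBr, mem_nhdsWithin_of_mem_nhds hb]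
        with t h1 h2
      refine hREF (Z n) (W n) t (hall t h2 h1.2.1 h1.1 ?_)
      intro h3
      apply h1.2.2
      rw [Wr_swap, h3, neg_zero]
    exact hGRI (W n) (Z n) t0 m k (hISIN (W n) (Z n) t0 m k hk haW haZ hBr hgood) haW haZ hBr hgood

end H719FX
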