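import Pool.Agent.H719R4.FX.Cov

/-!
# Functions invariant under the roots of unity
-/

open Complex Set Filter Topology

namespace H719FX

open H738CZ

theorem tGIN : StGIN := by
  intro k r f hk hr hf hinv
  have hk0 : k ≠ 0 := by omega
  have key : ∀ a b : ℂ, a ^ k = b ^ k → ‖b‖ < r → f a = f b := by
    intro a b hab hb
    by_cases hb0 : b = 0
    · subst hb0
      rw [zero_pow hk0] at hab
      rw [pow_eq_zero_iff hk0] at hab
      rw [hab]
    · have h := hinv (a / b) (by rw [div_pow, hab, div_self (pow_ne_zero k hb0)]) b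
        (by simpa using hb)
      rw [div_mul_cancel₀ _ hb0] at h
      exact h
  have root : ∀ x : ℂ, (x ^ ((k : ℂ)⁻¹)) ^ k = x := fun x => Complex.cpow_nat_inv_pow x hk0
  have rootn : ∀ x : ℂ, ‖x‖ < r ^ k → ‖x ^ ((k : ℂ)⁻¹)‖ < r := by
    intro x hx
    have h1 : ‖x ^ ((k : ℂ)⁻¹)‖ ^ k = ‖x‖ := by rw [← norm_pow, root]
    exact lt_of_pow_lt_pow_left₀ k hr.le (by rw [h1]; exact hx)
  have hre : 0 < ((k : ℂ)⁻¹).re := by
    have h2 : ((k : ℂ)⁻¹) = (((k : ℝ)⁻¹ : ℝ) : ℂ) := by push_cast; rfl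
    rw [h2, Complex.ofReal_re]
    positivity
  have hcont : ContinuousAt (fun x : ℂ => x ^ ((k : ℂ)⁻¹)) 0 :=
    Complex.continuousAt_cpow_const_of_re_pos (Or.inl (by simp)) hre
  have h00 : (0 : ℂ) ^ ((k : ℂ)⁻¹) = 0 :=
    Complex.zero_cpow (inv_ne_zero (by exact_mod_cast hk0))
  refine ⟨fun x => f (x ^ ((k : ℂ)⁻¹)), ?_, ?_⟩
  · apply Complex.analyticAt_of_differentiable_on_punctured_nhds_of_continuousAt
    · have hev : ∀ᶠ x : ℂ in 𝓝 0, ‖x‖ < r ^ k := by
        have := Metric.ball_mem_nhds (0 : ℂ) (pow_pos hr k)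
        filter_upwards [this] with x hx
        simpa using hx
      filter_upwards [hev.filter_mono nhdsWithin_le_nhds, self_mem_nhdsWithin] with x1 hx1 hx1'
      have hx10 : x1 ≠ 0 := hx1'
      have hg : DifferentiableAt ℂ (fun x : ℂ => x1 ^ ((k : ℂ)⁻¹) * (x / x1) ^ ((k : ℂ)⁻¹)) x1 := by
        have h3 : DifferentiableAt ℂ (fun x : ℂ => x / x1) x1 := differentiableAt_id.div_const x1
        have h4 : x1 / x1 ∈ Complex.slitPlane := by
          rw [div_self hx10]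
          exact Complex.one_mem_slitPlane
        exact (h3.cpow_const h4).const_mul _
      have hg1 : x1 ^ ((k : ℂ)⁻¹) * (x1 / x1) ^ ((k : ℂ)⁻¹) = x1 ^ ((k : ℂ)⁻¹) := by
        rw [div_self hx10, Complex.one_cpow, mul_one]
      have hfd : DifferentiableAt ℂ f (x1 ^ ((k : ℂ)⁻¹) * (x1 / x1) ^ ((k : ℂ)⁻¹)) := by
        rw [hg1]
        apply hf.differentiableAt
        apply Metric.isOpen_ball.mem_nhds
        simpa using rootn x1 hx1
      have hcomp : DifferentiableAt ℂ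
          (fun x : ℂ => f (x1 ^ ((k : ℂ)⁻¹) * (x / x1) ^ ((k : ℂ)⁻¹))) x1 :=
        DifferentiableAt.comp x1 hfd hg
      refine hcomp.congr_of_eventuallyEq ?_
      have hball : ∀ᶠ x : ℂ in 𝓝 x1, ‖x1 ^ ((k : ℂ)⁻¹) * (x / x1) ^ ((k : ℂ)⁻¹)‖ < r := by
        have h5 : ContinuousAt (fun x : ℂ => ‖x1 ^ ((k : ℂ)⁻¹) * (x / x1) ^ ((k : ℂ)⁻¹)‖) x1 :=
          hg.continuousAt.norm
        apply h5.eventually_lt_const
        show ‖x1 ^ ((k : ℂ)⁻¹) * (x1 / x1) ^ ((k : ℂ)⁻¹)‖ < r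
        rw [hg1]
        exact rootn x1 hx1
      filter_upwards [hball] with x hx
      refine key _ _ ?_ hx
      rw [root, mul_pow, root, root, mul_div_cancel₀ _ hx10]
    · show ContinuousAt (fun x => f (x ^ ((k : ℂ)⁻¹))) 0
      have hf0 : ContinuousAt f ((fun x : ℂ => x ^ ((k : ℂ)⁻¹)) 0) := by
        show ContinuousAt f ((0 : ℂ) ^ ((k : ℂ)⁻¹))
        rw [h00]
        exact (hf.differentiableAt (Metric.ball_mem_nhds 0 hr)).continuousAt
      exact ContinuousAt.comp hf0 hcont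
  · filter_upwards [Metric.ball_mem_nhds (0 : ℂ) hr] with s hs
    refine (key _ _ ?_ (by simpa using hs)).symm
    rw [root]

end H719FX
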