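import Pool.Agent.H719R4.FX.Cov

/-! # GRI: isotropic branches with good points nearby are regular places (helper682) -/

open Complex Set Filter Topology

namespace H719FX

open H738CZ

/-- local inverse -/
theorem GRI_inv (S : ℂ → ℂ) (t0 : ℂ) (hS : AnalyticAt ℂ S t0) (h0 : S t0 = 0)
    (h1 : deriv S t0 ≠ 0) : ∃ T : ℂ → ℂ, AnalyticAt ℂ T 0 ∧ T 0 = t0 ∧
      ∀ᶠ s in 𝓝 0, S (T s) = s := by
  refine ⟨hS.hasStrictDerivAt.localInverse _ _ _ h1, ?_, ?_, ?_⟩
  · have := hS.analyticAt_localInverse h1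
    rwa [h0] at this
  · have : (hS.hasStrictDerivAt.localInverse _ _ _ h1) (S t0) = t0 :=
      HasStrictFDerivAt.localInverse_apply_image ..
    rwa [h0] at this
  · have := HasStrictDerivAt.eventually_right_inverse hS.hasStrictDerivAt h1
    rwa [h0] at this

theorem GRI_tend (k : ℕ) (hk : 1 ≤ k) :
    Tendsto (fun s : ℂ => s ^ k) (𝓝[≠] (0 : ℂ)) (𝓝[≠] (0 : ℂ)) := by
  refine tendsto_nhdsWithin_iff.2 ⟨?_, ?_⟩
  · have h1 : Tendsto (fun s : ℂ => s ^ k) (𝓝 0) (𝓝 (0 ^ k)) := (continuous_pow k).tendsto 0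
    rw [zero_pow (by omega)] at h1
    exact h1.mono_left nhdsWithin_le_nhds
  · filter_upwards [self_mem_nhdsWithin] with s hs
    exact pow_ne_zero _ hs

/-- identity for functions of `s ^ k` -/
theorem GRI_id (k : ℕ) (hk : 1 ≤ k) (f g : ℂ → ℂ) (hf : AnalyticAt ℂ f 0) (hg : AnalyticAt ℂ g 0)
    (h : ∀ᶠ s in 𝓝[≠] (0 : ℂ), f (s ^ k) = g (s ^ k)) : ∀ᶠ x in 𝓝 (0 : ℂ), f x = g x := by
  rw [← hf.frequently_eq_iff_eventually_eq hg]
  exact (GRI_tend k hk).frequently (p := fun x => f x = g x) h.frequently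

/-- invariance of a primitive -/
theorem GRI_invar (k n : ℕ) (r : ℝ) (F v : ℂ → ℂ) (c : ℂ) (hk : 1 ≤ k) (hr : 0 < r)
    (hn : ∃ a, n + 1 = k * a)
    (hF : ∀ s ∈ Metric.ball (0 : ℂ) r, HasDerivAt F (c * s ^ n * v s ^ 3) s)
    (hv : ∀ ω : ℂ, ω ^ k = 1 → ∀ s ∈ Metric.ball (0 : ℂ) r, v (ω * s) = v s) :
    ∀ ω : ℂ, ω ^ k = 1 → ∀ s ∈ Metric.ball (0 : ℂ) r, F (ω * s) = F s := by
  intro ω hω s hs
  have hω1 : ‖ω‖ = 1 := by
    have h1 := congrArg norm hω
    rw [norm_pow, norm_one] at h1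
    exact (pow_eq_one_iff_of_nonneg (norm_nonneg _) (by omega)).1 h1
  have hmem : ∀ s ∈ Metric.ball (0 : ℂ) r, ω * s ∈ Metric.ball (0 : ℂ) r := by
    intro s hs
    rw [mem_ball_zero_iff] at hs ⊢
    rw [norm_mul, hω1, one_mul]
    exact hs
  obtain ⟨a, ha⟩ := hn
  have hωn : ω ^ (n + 1) = 1 := by rw [ha, pow_mul, hω, one_pow]
  have hD : ∀ s ∈ Metric.ball (0 : ℂ) r, HasDerivAt (fun s => F (ω * s) - F s) 0 s := by
    intro s hs
    have h1 : HasDerivAt (fun s => F (ω * s)) (c * (ω * s) ^ n * v (ω * s) ^ 3 * ω) s := by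
      have h2 : HasDerivAt (fun s : ℂ => ω * s) ω s := by
        simpa using (hasDerivAt_id s).const_mul ω
      exact (hF _ (hmem s hs)).comp s h2
    have h3 := h1.sub (hF s hs)
    have e : c * (ω * s) ^ n * v (ω * s) ^ 3 * ω - c * s ^ n * v s ^ 3 = 0 := by
      rw [hv ω hω s hs, mul_pow]
      have : c * (ω ^ n * s ^ n) * v s ^ 3 * ω = ω ^ (n + 1) * (c * s ^ n * v s ^ 3) := by ring
      rw [this, hωn, one_mul, sub_self]
    rw [e] at h3
    exact h3
  have hconst : F (ω * s) - F s = F (ω * 0) - F 0 := by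
    have hconv : Convex ℝ (Metric.ball (0 : ℂ) r) := convex_ball 0 r
    refine (hconv.is_const_of_fderivWithin_eq_zero (𝕜 := ℂ) (f := fun s => F (ω * s) - F s)
      ?_ ?_ hs (Metric.mem_ball_self hr))
    · intro x hx
      exact (hD x hx).differentiableAt.differentiableWithinAt
    · intro x hx
      rw [fderivWithin_of_isOpen Metric.isOpen_ball hx]
      have := (hD x hx).hasFDerivAt.fderiv
      rw [this]
      ext
      simp
  rw [mul_zero, sub_self, sub_eq_zero] at hconst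
  exact hconst

theorem tGRI (hISR : StISR) (hIEX : StIEX) (hGIN : StGIN) : StGRI := by
  intro Z W t0 m k hmk hZ hW hBr hgood
  have hk : 1 ≤ k := by omega
  obtain ⟨R, T, v, hUI, hT0, hdT, hTd, hTne, hΦ, c1, c2, hc1, hc2, hder⟩ :=
    hISR Z W t0 m k hk hZ hW hBr
  have hR6 : 0 < R ^ 6 := pow_pos hUI.pos 6
  have hball : Metric.ball (0 : ℂ) (R ^ 6) ∈ 𝓝 (0 : ℂ) := Metric.ball_mem_nhds _ hR6
  have hTan : AnalyticAt ℂ T 0 := hTd.analyticAt hball
  have hTc : ContinuousAt T 0 := hTan.continuousAt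
  have hev1 : ∀ᶠ s in 𝓝[≠] (0 : ℂ), s ∈ Metric.ball (0 : ℂ) (R ^ 6) :=
    mem_nhdsWithin_of_mem_nhds hball
  have hev2 : ∀ᶠ s in 𝓝[≠] (0 : ℂ), s ≠ 0 := eventually_mem_nhdsWithin
  have htend : Tendsto T (𝓝[≠] (0 : ℂ)) (𝓝[≠] t0) := by
    refine tendsto_nhdsWithin_iff.2 ⟨?_, ?_⟩
    · have h1 : Tendsto T (𝓝 0) (𝓝 (T 0)) := hTc
      rw [hT0] at h1
      exact h1.mono_left nhdsWithin_le_nhds
    · filter_upwards [hev1, hev2] with s hs1 hs2
      exact hTne s hs1 hs2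
  obtain ⟨s, ⟨hs1, hs2⟩, hs3⟩ := ((hev1.and hev2).and (htend.eventually hgood)).exists
  obtain ⟨Φ, ρ, hP, hG⟩ := hs3
  obtain ⟨haΨ, hevΨ⟩ := hΦ s hs1 hs2 Φ ρ hP
  rw [hmk] at hevΨ
  have hvinv := hIEX k v R ρ (fun s' => Φ (T s')) s hk hUI hs1 hs2 haΨ hevΨ hG
  -- the functions of `s ^ k`
  have hZinv := GRI_invar k (m + k) (R ^ 6) (fun x => Z (T x)) v c1 hk hR6
    ⟨2, by omega⟩ (fun s hs => (hder s hs).1) hvinv
  have hWinv := GRI_invar k m (R ^ 6) (fun x => W (T x)) v c2 hk hR6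
    ⟨1, by omega⟩ (fun s hs => (hder s hs).2) hvinv
  obtain ⟨F1, aF1, eF1⟩ := hGIN k (R ^ 6) (fun x => Z (T x)) hk hR6
    (fun s hs => (hder s hs).1.differentiableAt.differentiableWithinAt) hZinv
  obtain ⟨F2, aF2, eF2⟩ := hGIN k (R ^ 6) (fun x => W (T x)) hk hR6
    (fun s hs => (hder s hs).2.differentiableAt.differentiableWithinAt) hWinv
  obtain ⟨V, aV, eV⟩ := hGIN k (R ^ 6) v hk hR6 hUI.df hvinv
  have hkc : (k : ℂ) ≠ 0 := by
    exact_mod_cast (show k ≠ 0 by omega)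
  have hpow : Tendsto (fun s : ℂ => s ^ k) (𝓝 0) (𝓝 0) := by
    have h1 : Tendsto (fun s : ℂ => s ^ k) (𝓝 0) (𝓝 (0 ^ k)) := (continuous_pow k).tendsto 0
    rwa [zero_pow (by omega)] at h1
  -- derivatives
  have hd1 : ∀ᶠ x in 𝓝 (0 : ℂ), deriv F1 x = (fun x => c1 / k * x * V x ^ 3) x := by
    refine GRI_id k hk (deriv F1) (fun x => c1 / k * x * V x ^ 3) aF1.deriv
      ((analyticAt_const.mul analyticAt_id).mul (aV.pow 3)) ?_
    have e1 : ∀ᶠ s in 𝓝 (0 : ℂ), s ≠ 0 → deriv F1 (s ^ k) = c1 / k * s ^ k * V (s ^ k) ^ 3 := by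
      filter_upwards [hball, eF1.eventually_nhds, eV,
        hpow.eventually aF1.eventually_analyticAt] with s h1 h2 h3 h4 h5
      have h6 : HasDerivAt (fun s : ℂ => F1 (s ^ k)) (deriv F1 (s ^ k) * (k * s ^ (k - 1))) s :=
        h4.differentiableAt.hasDerivAt.comp s (hasDerivAt_pow k s)
      have h7 : HasDerivAt (fun s : ℂ => F1 (s ^ k)) (c1 * s ^ (m + k) * v s ^ 3) s :=
        (hder s h1).1.congr_of_eventuallyEq (h2.mono fun x hx => hx.symm)
      have h8 := h6.unique h7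
      have h9 : s ^ (k - 1) ≠ 0 := pow_ne_zero _ h5
      have e2 : s ^ (m + k) = s ^ (k - 1) * s ^ k := by
        rw [← pow_add]; congr 1; omega
      rw [e2, h3] at h8
      have h10 : s ^ (k - 1) * (k * deriv F1 (s ^ k)) =
          s ^ (k - 1) * (c1 * s ^ k * V (s ^ k) ^ 3) := by linear_combination h8
      have h11 := mul_left_cancel₀ h9 h10
      field_simp
      linear_combination h11
    rw [eventually_nhdsWithin_iff]
    exact e1
  have hd2 : ∀ᶠ x in 𝓝 (0 : ℂ), deriv F2 x = (fun x => c2 / k * V x ^ 3) x := by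
    refine GRI_id k hk (deriv F2) (fun x => c2 / k * V x ^ 3) aF2.deriv
      (analyticAt_const.mul (aV.pow 3)) ?_
    have e1 : ∀ᶠ s in 𝓝 (0 : ℂ), s ≠ 0 → deriv F2 (s ^ k) = c2 / k * V (s ^ k) ^ 3 := by
      filter_upwards [hball, eF2.eventually_nhds, eV,
        hpow.eventually aF2.eventually_analyticAt] with s h1 h2 h3 h4 h5
      have h6 : HasDerivAt (fun s : ℂ => F2 (s ^ k)) (deriv F2 (s ^ k) * (k * s ^ (k - 1))) s :=
        h4.differentiableAt.hasDerivAt.comp s (hasDerivAt_pow k s)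
      have h7 : HasDerivAt (fun s : ℂ => F2 (s ^ k)) (c2 * s ^ m * v s ^ 3) s :=
        (hder s h1).2.congr_of_eventuallyEq (h2.mono fun x hx => hx.symm)
      have h8 := h6.unique h7
      have h9 : s ^ (k - 1) ≠ 0 := pow_ne_zero _ h5
      have e2 : s ^ m = s ^ (k - 1) := by congr 1; omega
      rw [e2, h3] at h8
      have h10 : s ^ (k - 1) * (k * deriv F2 (s ^ k)) =
          s ^ (k - 1) * (c2 * V (s ^ k) ^ 3) := by linear_combination h8
      have h11 := mul_left_cancel₀ h9 h10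
      field_simp
      linear_combination h11
    rw [eventually_nhdsWithin_iff]
    exact e1
  have hV0 : V 0 ≠ 0 := by
    have h1 := eV.self_of_nhds
    rw [zero_pow (by omega)] at h1
    rw [← h1]
    exact hUI.nz 0 (Metric.mem_ball_self hR6)
  have hF1 : deriv F1 0 = 0 := by
    rw [hd1.self_of_nhds]
    simp
  have hF2 : deriv F2 0 = c2 / k * V 0 ^ 3 := hd2.self_of_nhds
  have hF11 : deriv (deriv F1) 0 = c1 / k * V 0 ^ 3 := by
    rw [Filter.EventuallyEq.deriv_eq hd1]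
    have h1 : HasDerivAt (fun x : ℂ => c1 / k * x * V x ^ 3)
        (c1 / k * V 0 ^ 3 + c1 / k * 0 * (3 * V 0 ^ 2 * deriv V 0)) 0 := by
      have h2 : HasDerivAt (fun x : ℂ => c1 / k * x) (c1 / k) 0 := by
        simpa using (hasDerivAt_id (0 : ℂ)).const_mul (c1 / (k : ℂ))
      have h3 : HasDerivAt (fun x : ℂ => V x ^ 3) (3 * V 0 ^ 2 * deriv V 0) 0 := by
        simpa using aV.differentiableAt.hasDerivAt.fun_pow 3
      exact h2.mul h3
    rw [h1.deriv]
    ring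
  have hWr : Wr F1 F2 0 ≠ 0 := by
    unfold Wr
    rw [hF1, hF2, hF11, zero_mul, zero_sub]
    refine neg_ne_zero.2 (mul_ne_zero ?_ ?_)
    · exact mul_ne_zero (div_ne_zero hc1 hkc) (pow_ne_zero _ hV0)
    · exact mul_ne_zero (div_ne_zero hc2 hkc) (pow_ne_zero _ hV0)
  -- the local inverse of `T`
  obtain ⟨S, aS, hS0, hS⟩ := GRI_inv (fun z => T z - t0) 0 (hTan.sub analyticAt_const)
    (by rw [hT0, sub_self]) (by rw [deriv_sub_const]; exact hdT)
  have hsh : Tendsto (fun t : ℂ => t - t0) (𝓝 t0) (𝓝 0) := by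
    have : Tendsto (fun t : ℂ => t - t0) (𝓝 t0) (𝓝 (t0 - t0)) :=
      (continuous_id.sub continuous_const).tendsto t0
    rwa [sub_self] at this
  have aS' : AnalyticAt ℂ (fun t => S (t - t0)) t0 := by
    have h1 : AnalyticAt ℂ S (t0 - t0) := by rwa [sub_self]
    exact AnalyticAt.fun_comp h1 (analyticAt_id.sub analyticAt_const)
  have hSt : Tendsto (fun t : ℂ => S (t - t0)) (𝓝 t0) (𝓝 0) := by
    have h1 : Tendsto S (𝓝 0) (𝓝 (S 0)) := aS.continuousAt
    rw [hS0] at h1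
    exact h1.comp hsh
  refine ⟨fun t => S (t - t0) ^ k, F1, F2, aS'.pow k, ?_, aF1, aF2, ?_, ?_, hWr⟩
  · show S (t0 - t0) ^ k = 0
    rw [sub_self, hS0, zero_pow (by omega)]
  · filter_upwards [hsh.eventually hS, hSt.eventually eF1] with t h1 h2
    have h3 : T (S (t - t0)) = t := by linear_combination h1
    rw [h3] at h2
    exact h2
  · filter_upwards [hsh.eventually hS, hSt.eventually eF2] with t h1 h2
    have h3 : T (S (t - t0)) = t := by linear_combination h1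
    rw [h3] at h2
    exact h2

end H719FX
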