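import Pool.Agent.H719R4.FX.Cov
import Pool.Agent.H719R4.FX.SIC
import Pool.Agent.H719R4.FX.SIN

/-! # GRN: non-isotropic branches with good points nearby are regular places (helper404) -/

open Complex Set Filter Topology

namespace H719FX

open H738CZ

theorem GRN_inv (r : ℝ) (f f' : ℂ → ℂ)
    (hf : ∀ s ∈ Metric.ball (0 : ℂ) r, HasDerivAt f (f' s) s) (w : ℂ) (hw : ‖w‖ = 1)
    (h : ∀ s ∈ Metric.ball (0 : ℂ) r, w * f' (w * s) = f' s) :
    ∀ s ∈ Metric.ball (0 : ℂ) r, f (w * s) = f s := by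
  have hmem : ∀ s ∈ Metric.ball (0 : ℂ) r, w * s ∈ Metric.ball (0 : ℂ) r := by
    intro s hs
    rw [mem_ball_zero_iff] at hs ⊢
    rw [norm_mul, hw, one_mul]
    exact hs
  intro s hs
  have hr : 0 < r := by
    rw [mem_ball_zero_iff] at hs
    exact lt_of_le_of_lt (norm_nonneg _) hs
  have hd : ∀ s ∈ Metric.ball (0 : ℂ) r, HasDerivAt (fun x => f (w * x) - f x) 0 s := by
    intro s hs
    have h1 : HasDerivAt (fun x : ℂ => w * x) w s := by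
      simpa using (hasDerivAt_id s).const_mul w
    have h2 : HasDerivAt (fun x => f (w * x)) (f' (w * s) * w) s :=
      HasDerivAt.comp s (hf (w * s) (hmem s hs)) h1
    have h3 := h2.sub (hf s hs)
    have h4 : f' (w * s) * w - f' s = 0 := by
      rw [← h s hs]
      ring
    rw [h4] at h3
    exact h3
  have hc := (Metric.isOpen_ball (x := (0 : ℂ)) (ε := r)).is_const_of_deriv_eq_zero
    (convex_ball (0 : ℂ) r).isPreconnected
    (fun s hs => (hd s hs).differentiableAt.differentiableWithinAt)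
    (fun s hs => (hd s hs).deriv) hs (Metric.mem_ball_self hr)
  simp only [mul_zero, sub_self] at hc
  exact sub_eq_zero.1 hc

theorem GRN_root (k : ℕ) (hk : 1 ≤ k) (P : ℂ → Prop) (h : ∀ᶠ s in 𝓝 (0 : ℂ), P (s ^ k)) :
    ∀ᶠ x in 𝓝 (0 : ℂ), P x := by
  obtain ⟨ε, hε, hb⟩ := Metric.eventually_nhds_iff_ball.1 h
  refine Metric.eventually_nhds_iff_ball.2 ⟨ε ^ k, pow_pos hε k, fun x hx => ?_⟩
  obtain ⟨s, hs⟩ := IsAlgClosed.exists_pow_nat_eq x (by omega : 0 < k)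
  rw [← hs]
  apply hb
  rw [mem_ball_zero_iff] at hx ⊢
  rw [← hs, norm_pow] at hx
  exact lt_of_pow_lt_pow_left₀ k hε.le hx

/-- derivative of the function of `s ^ k` -/
theorem GRN_der (k m : ℕ) (hk : m + 1 = k) (f F u U E : ℂ → ℂ) (c : ℂ) (r : ℝ) (hr : 0 < r)
    (hf : ∀ s ∈ Metric.ball (0 : ℂ) r, HasDerivAt f (c * s ^ m * u s ^ 3 * E (s ^ k)) s)
    (hF : AnalyticAt ℂ F 0) (hU : AnalyticAt ℂ U 0) (hE : AnalyticAt ℂ E 0)
    (e1 : ∀ᶠ s in 𝓝 (0 : ℂ), f s = F (s ^ k)) (e2 : ∀ᶠ s in 𝓝 (0 : ℂ), u s ^ 3 = U (s ^ k)) :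
    ∀ᶠ x in 𝓝 (0 : ℂ), deriv F x = c / k * (U x * E x) := by
  have hk0 : (k : ℂ) ≠ 0 := by
    have : k ≠ 0 := by omega
    exact_mod_cast this
  have hpow : Tendsto (fun s : ℂ => s ^ k) (𝓝 0) (𝓝 0) := by
    have : ContinuousAt (fun s : ℂ => s ^ k) 0 := by fun_prop
    have h2 := this.tendsto
    simp only [zero_pow (by omega : k ≠ 0)] at h2
    exact h2
  have hFa : ∀ᶠ s in 𝓝 (0 : ℂ), AnalyticAt ℂ F (s ^ k) := hpow.eventually hF.eventually_analyticAt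
  have hball : ∀ᶠ s in 𝓝 (0 : ℂ), s ∈ Metric.ball (0 : ℂ) r := Metric.ball_mem_nhds _ hr
  have key : ∀ᶠ x in 𝓝 (0 : ℂ), x ≠ 0 → deriv F x = c / k * (U x * E x) := by
    refine GRN_root k (by omega) _ ?_
    filter_upwards [hFa, hball, e1.eventually_nhds, e2] with s h1 h2 h3 h4 hs
    have hs0 : s ≠ 0 := by
      rintro rfl
      exact hs (zero_pow (by omega))
    have d1 : HasDerivAt (fun x => F (x ^ k)) (deriv F (s ^ k) * ((k : ℂ) * s ^ (k - 1))) s :=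
      HasDerivAt.comp s h1.differentiableAt.hasDerivAt (hasDerivAt_pow k s)
    have d2 : HasDerivAt (fun x => F (x ^ k)) (c * s ^ m * u s ^ 3 * E (s ^ k)) s :=
      (hf s h2).congr_of_eventuallyEq (by filter_upwards [h3] with x hx; exact hx.symm)
    have h5 := d1.unique d2
    have h6 : k - 1 = m := by omega
    rw [h6, h4] at h5
    have hsm : s ^ m ≠ 0 := pow_ne_zero _ hs0
    have h7 : (k : ℂ) * s ^ m ≠ 0 := mul_ne_zero hk0 hsm
    apply mul_right_cancel₀ h7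
    rw [h5]
    field_simp
  have hA : AnalyticAt ℂ (deriv F) 0 := hF.deriv
  have hB : AnalyticAt ℂ (fun x => c / k * (U x * E x)) 0 := analyticAt_const.mul (hU.mul hE)
  refine (hA.frequently_eq_iff_eventually_eq hB).1 (Eventually.frequently ?_)
  have h8 : ∀ᶠ x in 𝓝[≠] (0 : ℂ), x ≠ 0 := eventually_mem_nhdsWithin
  filter_upwards [h8, key.filter_mono nhdsWithin_le_nhds] with x hx1 hx2
  exact hx2 hx1

/-- the local inverse -/
theorem GRN_loc (Z : ℂ → ℂ) (W : ℂ → ℂ) (T FZ FW : ℂ → ℂ) (t0 : ℂ) (k : ℕ) (hk : 1 ≤ k)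
    (aT : AnalyticAt ℂ T 0) (T0 : T 0 = t0) (dT : deriv T 0 ≠ 0)
    (eZ : ∀ᶠ s in 𝓝 (0 : ℂ), Z (T s) = FZ (s ^ k))
    (eW : ∀ᶠ s in 𝓝 (0 : ℂ), W (T s) = FW (s ^ k)) :
    ∃ h : ℂ → ℂ, AnalyticAt ℂ h t0 ∧ h t0 = 0 ∧ (∀ᶠ t in 𝓝 t0, Z t = FZ (h t)) ∧
      ∀ᶠ t in 𝓝 t0, W t = FW (h t) := by
  have h1 : deriv (fun s => T s - t0) 0 ≠ 0 := by
    rw [deriv_sub_const]
    exact dT
  obtain ⟨S1, aS1, S10, eS1⟩ := SIC_inv (fun s => T s - t0) 0 (aT.sub analyticAt_const)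
    (by simp [T0]) h1
  have ht : Tendsto (fun t : ℂ => t - t0) (𝓝 t0) (𝓝 0) := by
    have : ContinuousAt (fun t : ℂ => t - t0) t0 := by fun_prop
    simpa using this.tendsto
  have aS : AnalyticAt ℂ (fun t => S1 (t - t0)) t0 := by
    have h2 : AnalyticAt ℂ S1 (t0 - t0) := by rw [sub_self]; exact aS1
    have h3 : AnalyticAt ℂ (fun t : ℂ => t - t0) t0 := analyticAt_id.sub analyticAt_const
    exact AnalyticAt.comp (g := S1) (f := fun t : ℂ => t - t0) h2 h3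
  have hS0 : S1 (t0 - t0) = 0 := by rw [sub_self, S10]
  have hSt : Tendsto (fun t => S1 (t - t0)) (𝓝 t0) (𝓝 0) := by
    have := aS.continuousAt.tendsto
    rwa [hS0] at this
  have e3 : ∀ᶠ t in 𝓝 t0, T (S1 (t - t0)) = t := by
    filter_upwards [ht.eventually eS1] with t h4
    linear_combination h4
  refine ⟨fun t => (S1 (t - t0)) ^ k, aS.pow k, ?_, ?_, ?_⟩
  · simp only [hS0]
    exact zero_pow (by omega)
  · filter_upwards [e3, hSt.eventually eZ] with t h5 h6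
    rw [h5] at h6
    exact h6
  · filter_upwards [e3, hSt.eventually eW] with t h5 h6
    rw [h5] at h6
    exact h6

theorem GRN_wr (FZ FW U : ℂ → ℂ) (a1 a2 : ℂ) (ha1 : a1 ≠ 0) (ha2 : a2 ≠ 0)
    (hU : AnalyticAt ℂ U 0) (hU0 : U 0 ≠ 0)
    (e1 : ∀ᶠ x in 𝓝 (0 : ℂ), deriv FZ x = a1 * (U x * cexp (x * I)))
    (e2 : ∀ᶠ x in 𝓝 (0 : ℂ), deriv FW x = a2 * (U x * cexp (-(x * I)))) :
    Wr FZ FW 0 ≠ 0 := by
  have hUd : HasDerivAt U (deriv U 0) 0 := hU.differentiableAt.hasDerivAt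
  have hx : HasDerivAt (fun x : ℂ => x * I) I 0 := by
    simpa using (hasDerivAt_id (0 : ℂ)).mul_const I
  have d1 : HasDerivAt (fun x => a1 * (U x * cexp (x * I)))
      (a1 * (deriv U 0 * cexp (0 * I) + U 0 * (cexp (0 * I) * I))) 0 :=
    (hUd.mul hx.cexp).const_mul a1
  have d2 : HasDerivAt (fun x => a2 * (U x * cexp (-(x * I))))
      (a2 * (deriv U 0 * cexp (-(0 * I)) + U 0 * (cexp (-(0 * I)) * -I))) 0 :=
    (hUd.mul hx.neg.cexp).const_mul a2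
  have f1 : deriv (deriv FZ) 0 = a1 * (deriv U 0 + U 0 * I) := by
    rw [EventuallyEq.deriv_eq e1, d1.deriv]
    simp
  have f2 : deriv (deriv FW) 0 = a2 * (deriv U 0 + U 0 * -I) := by
    rw [EventuallyEq.deriv_eq e2, d2.deriv]
    simp
  have g1 : deriv FZ 0 = a1 * U 0 := by
    rw [e1.self_of_nhds]
    simp
  have g2 : deriv FW 0 = a2 * U 0 := by
    rw [e2.self_of_nhds]
    simp
  unfold Wr
  rw [f1, f2, g1, g2]
  have : a1 * U 0 * (a2 * (deriv U 0 + U 0 * -I)) - a1 * (deriv U 0 + U 0 * I) * (a2 * U 0)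
      = -(2 * I * a1 * a2 * U 0 ^ 2) := by ring
  rw [this]
  exact neg_ne_zero.2 (mul_ne_zero (mul_ne_zero (mul_ne_zero (mul_ne_zero two_ne_zero I_ne_zero)
    ha1) ha2) (pow_ne_zero _ hU0))

theorem tGRN (hSIR : StSIR) (hNEX : StNEX) (hGIN : StGIN) : StGRN := by
  intro Z W t0 m k hmk hZ hW hBr hgood
  have hk : 1 ≤ k := by omega
  obtain ⟨R, T, u, hUN, hT0, hdT, hTd, hTne, ⟨Φ0, hΦ⟩, c1, c2, hc1, hc2, hder⟩ :=
    hSIR Z W t0 m k hk hZ hW hBr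
  have hR3 : 0 < R ^ 3 := pow_pos hUN.pos 3
  have hball : Metric.ball (0 : ℂ) (R ^ 3) ∈ 𝓝 (0 : ℂ) := Metric.ball_mem_nhds _ hR3
  have hTc : ContinuousAt T 0 := (hTd.differentiableAt hball).continuousAt
  have aT : AnalyticAt ℂ T 0 := hTd.analyticAt hball
  have hev1 : ∀ᶠ s in 𝓝[≠] (0 : ℂ), s ∈ Metric.ball (0 : ℂ) (R ^ 3) :=
    mem_nhdsWithin_of_mem_nhds hball
  have hev2 : ∀ᶠ s in 𝓝[≠] (0 : ℂ), s ≠ 0 := eventually_mem_nhdsWithin
  have htend : Tendsto T (𝓝[≠] (0 : ℂ)) (𝓝[≠] t0) := by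
    refine tendsto_nhdsWithin_iff.2 ⟨?_, ?_⟩
    · have h1 : Tendsto T (𝓝 0) (𝓝 (T 0)) := hTc
      rw [hT0] at h1
      exact h1.mono_left nhdsWithin_le_nhds
    · filter_upwards [hev1, hev2] with s hs1 hs2
      exact hTne s hs1 hs2
  obtain ⟨s, ⟨hs1, hs2⟩, hs3⟩ := ((hev1.and hev2).and (htend.eventually hgood)).exists
  obtain ⟨Φ, ρ, hP, hG⟩ := hs3
  obtain ⟨j, ω, hω, heq, hev⟩ := hΦ s hs1 hs2 Φ ρ hP
  have hTRL := tTRL tCHG tMON
  have hG' := hTRL kcs ρ (fun t => ρ (t + (Φ0 + Real.pi * j))) (Φ (T s)) (Φ0 + Real.pi * j) hG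
    (Filter.Eventually.of_forall fun t => rfl)
  have hsub : Φ (T s) - (Φ0 + Real.pi * j) = s ^ k := by rw [heq]; ring
  rw [hsub] at hG'
  have huinv : ∀ w : ℂ, w ^ k = 1 → ∀ z ∈ Metric.ball (0 : ℂ) (R ^ 3), u (w * z) = u z := by
    intro w hw z hz
    have h1 := hNEX kcs SIN_ker k (fun z => ω * u z) R
      (fun t => ρ (t + (Φ0 + Real.pi * j))) s hk
      ⟨hUN.pos, hUN.df.const_mul ω, fun z hz => mul_ne_zero hω (hUN.nz z hz)⟩ hs1 hs2 ?_ hG' w hw z hz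
    · exact mul_left_cancel₀ hω h1
    · filter_upwards [hev] with t ht
      have : t ^ k + (Φ0 + Real.pi * j) = Φ0 + Real.pi * j + t ^ k := by ring
      simp only [this]
      rw [hmk] at ht
      exact ht
  have hnorm : ∀ w : ℂ, w ^ k = 1 → ‖w‖ = 1 := by
    intro w hw
    have h1 : ‖w‖ ^ k = 1 := by rw [← norm_pow, hw, norm_one]
    exact (pow_eq_one_iff_of_nonneg (norm_nonneg _) (by omega)).1 h1
  have hwm : ∀ w : ℂ, w ^ k = 1 → w * w ^ m = 1 := by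
    intro w hw
    rw [← pow_succ', hmk, hw]
  have invZ : ∀ w : ℂ, w ^ k = 1 → ∀ z ∈ Metric.ball (0 : ℂ) (R ^ 3), Z (T (w * z)) = Z (T z) := by
    intro w hw
    refine GRN_inv (R ^ 3) (fun x => Z (T x)) _ (fun s hs => (hder s hs).1) w (hnorm w hw) ?_
    intro x hx
    rw [huinv w hw x hx, mul_pow, mul_pow, hw, one_mul]
    linear_combination (c1 * x ^ m * u x ^ 3 * cexp (x ^ k * I)) * hwm w hw
  have invW : ∀ w : ℂ, w ^ k = 1 → ∀ z ∈ Metric.ball (0 : ℂ) (R ^ 3), W (T (w * z)) = W (T z) := by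
    intro w hw
    refine GRN_inv (R ^ 3) (fun x => W (T x)) _ (fun s hs => (hder s hs).2) w (hnorm w hw) ?_
    intro x hx
    rw [huinv w hw x hx, mul_pow, mul_pow, hw, one_mul]
    linear_combination (c2 * x ^ m * u x ^ 3 * cexp (-(x ^ k * I))) * hwm w hw
  obtain ⟨FZ, aFZ, eFZ⟩ := hGIN k (R ^ 3) (fun x => Z (T x)) hk hR3
    (fun s hs => (hder s hs).1.differentiableAt.differentiableWithinAt) invZ
  obtain ⟨FW, aFW, eFW⟩ := hGIN k (R ^ 3) (fun x => W (T x)) hk hR3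
    (fun s hs => (hder s hs).2.differentiableAt.differentiableWithinAt) invW
  obtain ⟨U, aU, eU⟩ := hGIN k (R ^ 3) (fun x => u x ^ 3) hk hR3 (hUN.df.pow 3)
    (by
      intro w hw z hz
      rw [huinv w hw z hz])
  have hk0 : (k : ℂ) ≠ 0 := by
    have : k ≠ 0 := by omega
    exact_mod_cast this
  have hexp1 : AnalyticAt ℂ (fun x : ℂ => cexp (x * I)) 0 := (analyticAt_id.mul analyticAt_const).cexp
  have hexp2 : AnalyticAt ℂ (fun x : ℂ => cexp (-(x * I))) 0 :=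
    (analyticAt_id.mul analyticAt_const).neg.cexp
  have D1 := GRN_der k m hmk (fun x => Z (T x)) FZ u U (fun x => cexp (x * I)) c1 (R ^ 3) hR3
    (fun s hs => (hder s hs).1) aFZ aU hexp1 eFZ eU
  have D2 := GRN_der k m hmk (fun x => W (T x)) FW u U (fun x => cexp (-(x * I))) c2 (R ^ 3) hR3
    (fun s hs => (hder s hs).2) aFW aU hexp2 eFW eU
  have hU0 : U 0 ≠ 0 := by
    have h1 := eU.self_of_nhds
    rw [zero_pow (by omega)] at h1
    rw [← h1]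
    exact pow_ne_zero _ (hUN.nz 0 (Metric.mem_ball_self hR3))
  obtain ⟨h, ah, h0, eZ, eW⟩ := GRN_loc Z W T FZ FW t0 k hk aT hT0 hdT eFZ eFW
  exact ⟨h, FZ, FW, ah, h0, aFZ, aFW, eZ, eW, GRN_wr FZ FW U (c1 / k) (c2 / k)
    (div_ne_zero hc1 hk0) (div_ne_zero hc2 hk0) aU hU0 D1 D2⟩

end H719FX
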