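import Pool.Agent.H719R4.FX.Cov

/-! IBT: Borel transform of the relation (helper991 for helper719) -/

open Complex Set Filter Topology

namespace H719FX

open H738CZ

/-- reciprocal Gamma -/
noncomputable def IBT_rg (z : ℂ) : ℂ := (Complex.Gamma z)⁻¹

theorem IBT_rg_succ (z : ℂ) : IBT_rg z = z * IBT_rg (z + 1) :=
  Complex.one_div_Gamma_eq_self_mul_one_div_Gamma_add_one z

/-- a recursive bound gives a bound of exponential type -/
theorem IBT_gen (a : ℕ → ℂ) (M : ℕ) (K : ℝ) (hK : 0 < K)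
    (h : ∀ m, M ≤ m → ‖a (m + 1)‖ * (m + 1) ≤ K * ‖a m‖) :
    ∃ A : ℝ, 0 ≤ A ∧ ∀ m, ‖a m‖ ≤ A * (K ^ m / (m.factorial : ℝ)) := by
  have hpos : ∀ m : ℕ, 0 < K ^ m / (m.factorial : ℝ) := fun m => by positivity
  refine ⟨∑ m ∈ Finset.range (M + 1), ‖a m‖ / (K ^ m / (m.factorial : ℝ)),
    Finset.sum_nonneg fun m _ => by positivity, ?_⟩
  set A := ∑ m ∈ Finset.range (M + 1), ‖a m‖ / (K ^ m / (m.factorial : ℝ)) with hA
  have h1 : ∀ m, m ≤ M → ‖a m‖ ≤ A * (K ^ m / (m.factorial : ℝ)) := by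
    intro m hm
    have h2 : ‖a m‖ / (K ^ m / (m.factorial : ℝ)) ≤ A := by
      rw [hA]
      exact Finset.single_le_sum (f := fun m => ‖a m‖ / (K ^ m / (m.factorial : ℝ)))
        (fun i _ => by positivity) (Finset.mem_range.2 (by omega))
    rwa [div_le_iff₀ (hpos m)] at h2
  intro m
  rcases le_total m M with hm | hm
  · exact h1 m hm
  · induction m, hm using Nat.le_induction with
    | base => exact h1 M le_rfl
    | succ m hm ih =>
      have h3 := h m hm
      have h4 : (0 : ℝ) < m + 1 := by positivity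
      have h5 : ‖a (m + 1)‖ ≤ K * ‖a m‖ / (m + 1) := by
        rw [le_div_iff₀ h4]
        exact h3
      refine h5.trans ?_
      calc K * ‖a m‖ / (m + 1) ≤ K * (A * (K ^ m / (m.factorial : ℝ))) / (m + 1) := by
            gcongr
        _ = A * (K ^ (m + 1) / ((m + 1).factorial : ℝ)) := by
            rw [Nat.factorial_succ]
            push_cast
            field_simp
            ring

theorem IBT_coeff_zero (e : ℂ) : PowerSeries.coeff 0 (binS e) = 1 := by
  simp [binS]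

theorem IBT_coeff_succ (e : ℂ) (m : ℕ) :
    PowerSeries.coeff (m + 1) (binS e) * (m + 1) = PowerSeries.coeff m (binS e) * (e - m) := by
  simp only [binS, PowerSeries.coeff_mk]
  rw [Finset.prod_range_succ, Nat.factorial_succ]
  have h1 : ((m.factorial : ℕ) : ℂ) ≠ 0 := Nat.cast_ne_zero.2 m.factorial_ne_zero
  have h2 : ((m : ℂ) + 1) ≠ 0 := Nat.cast_add_one_ne_zero m
  push_cast
  field_simp

theorem IBT_fall (e : ℂ) (m : ℕ) :
    (-1) ^ m * PowerSeries.coeff m (binS e) * IBT_rg (m - e) = IBT_rg (-e) / (m.factorial : ℂ) := by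
  induction m with
  | zero => simp [IBT_coeff_zero]
  | succ m ih =>
    have h2 : ((m : ℂ) + 1) ≠ 0 := Nat.cast_add_one_ne_zero m
    have h1 : ((m.factorial : ℕ) : ℂ) ≠ 0 := Nat.cast_ne_zero.2 m.factorial_ne_zero
    have h3 := IBT_rg_succ ((m : ℂ) - e)
    have h4 := IBT_coeff_succ e m
    have h5 : (((m + 1 : ℕ) : ℂ) - e) = (m : ℂ) - e + 1 := by push_cast; ring
    rw [h5, Nat.factorial_succ]
    rw [h3] at ih
    have h6 : IBT_rg (-e) = (-1) ^ m * PowerSeries.coeff m (binS e) *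
        (((m : ℂ) - e) * IBT_rg ((m : ℂ) - e + 1)) * (m.factorial : ℂ) := by
      rw [ih]
      field_simp
    rw [h6]
    have h7 : (-1 : ℂ) ^ (m + 1) * PowerSeries.coeff (m + 1) (binS e) *
        IBT_rg ((m : ℂ) - e + 1) * (m + 1) = (-1) ^ m * PowerSeries.coeff m (binS e) *
        (((m : ℂ) - e) * IBT_rg ((m : ℂ) - e + 1)) := by
      calc (-1 : ℂ) ^ (m + 1) * PowerSeries.coeff (m + 1) (binS e) *
          IBT_rg ((m : ℂ) - e + 1) * (m + 1) = (-1) ^ (m + 1) * IBT_rg ((m : ℂ) - e + 1) *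
            (PowerSeries.coeff (m + 1) (binS e) * (m + 1)) := by ring
        _ = _ := by rw [h4]; ring
    rw [← h7]
    push_cast
    field_simp

/-- the recursion for `tI` -/
theorem IBT_tI_succ (σ : ℝ) (m : ℕ) :
    ((m : ℂ) + 1) * (m - 2 * σ - 2) * tI σ (m + 1) = (m - σ - 1) * tI σ m := by
  unfold tI
  have h3 := IBT_rg_succ ((m : ℂ) - 2 * σ - 2)
  unfold IBT_rg at h3
  have h4 := IBT_coeff_succ ((σ : ℂ) + 1) m
  have h5 : (((m + 1 : ℕ) : ℂ) - 2 * σ - 2) = (m : ℂ) - 2 * σ - 2 + 1 := by push_cast; ring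
  rw [h5, h3]
  calc ((m : ℂ) + 1) * (m - 2 * σ - 2) * ((-1) ^ (m + 1) *
        PowerSeries.coeff (m + 1) (binS ((σ : ℂ) + 1)) * (Complex.Gamma (m - 2 * σ - 2 + 1))⁻¹)
      = (-1) ^ (m + 1) * ((m : ℂ) - 2 * σ - 2) * (Complex.Gamma (m - 2 * σ - 2 + 1))⁻¹ *
        (PowerSeries.coeff (m + 1) (binS ((σ : ℂ) + 1)) * (m + 1)) := by ring
    _ = _ := by rw [h4]; ring

theorem IBT_tI_bound (σ : ℝ) (hσ : 0 < σ) :
    ∃ A : ℝ, 0 ≤ A ∧ ∀ m, ‖tI σ m‖ ≤ A * (2 ^ m / (m.factorial : ℝ)) := by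
  obtain ⟨M, hM⟩ := exists_nat_ge (4 * σ + 4)
  refine IBT_gen (tI σ) M 2 two_pos ?_
  intro m hm
  have hmM : 4 * σ + 4 ≤ (m : ℝ) := hM.trans (by exact_mod_cast hm)
  have h1 := congrArg norm (IBT_tI_succ σ m)
  rw [norm_mul, norm_mul, norm_mul] at h1
  have e1 : ‖(m : ℂ) + 1‖ = m + 1 := by
    have : (m : ℂ) + 1 = ((m + 1 : ℝ) : ℂ) := by push_cast; ring
    rw [this, Complex.norm_real, Real.norm_eq_abs, abs_of_pos (by positivity)]
  have e2 : ‖(m : ℂ) - 2 * σ - 2‖ = m - 2 * σ - 2 := by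
    have : (m : ℂ) - 2 * σ - 2 = ((m - 2 * σ - 2 : ℝ) : ℂ) := by push_cast; ring
    rw [this, Complex.norm_real, Real.norm_eq_abs, abs_of_pos (by linarith)]
  have e3 : ‖(m : ℂ) - σ - 1‖ = m - σ - 1 := by
    have : (m : ℂ) - σ - 1 = ((m - σ - 1 : ℝ) : ℂ) := by push_cast; ring
    rw [this, Complex.norm_real, Real.norm_eq_abs, abs_of_pos (by linarith)]
  rw [e1, e2, e3] at h1
  have h2 : 0 < (m : ℝ) - 2 * σ - 2 := by linarith
  have h3 : (m : ℝ) - σ - 1 ≤ 2 * (m - 2 * σ - 2) := by linarith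
  have h4 : (‖tI σ (m + 1)‖ * (m + 1)) * (m - 2 * σ - 2) ≤
      (2 * ‖tI σ m‖) * (m - 2 * σ - 2) := by
    calc (‖tI σ (m + 1)‖ * (m + 1)) * (m - 2 * σ - 2)
        = (m + 1) * (m - 2 * σ - 2) * ‖tI σ (m + 1)‖ := by ring
      _ = (m - σ - 1) * ‖tI σ m‖ := h1
      _ ≤ (2 * (m - 2 * σ - 2)) * ‖tI σ m‖ := mul_le_mul_of_nonneg_right h3 (norm_nonneg _)
      _ = (2 * ‖tI σ m‖) * (m - 2 * σ - 2) := by ring
  exact le_of_mul_le_mul_right h4 h2

theorem IBT_rg_bound (σ : ℝ) (hσ : 0 < σ) :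
    ∃ A : ℝ, 0 ≤ A ∧ ∀ m : ℕ, ‖IBT_rg ((m : ℂ) - (2 * σ + 2))‖ ≤
      A * (2 ^ m / (m.factorial : ℝ)) := by
  obtain ⟨M, hM⟩ := exists_nat_ge (4 * σ + 5)
  refine IBT_gen (fun m : ℕ => IBT_rg ((m : ℂ) - (2 * σ + 2))) M 2 two_pos ?_
  intro m hm
  have hmM : 4 * σ + 5 ≤ (m : ℝ) := hM.trans (by exact_mod_cast hm)
  have h1 := IBT_rg_succ ((m : ℂ) - (2 * σ + 2))
  have h5 : ((m : ℂ) - (2 * σ + 2) + 1) = ((m + 1 : ℕ) : ℂ) - (2 * σ + 2) := by push_cast; ring
  rw [h5] at h1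
  have h2 := congrArg norm h1
  rw [norm_mul] at h2
  have e2 : ‖(m : ℂ) - (2 * σ + 2)‖ = m - 2 * σ - 2 := by
    have : (m : ℂ) - (2 * σ + 2) = ((m - 2 * σ - 2 : ℝ) : ℂ) := by push_cast; ring
    rw [this, Complex.norm_real, Real.norm_eq_abs, abs_of_pos (by linarith)]
  rw [e2] at h2
  rw [h2]
  have h3 : (m : ℝ) + 1 ≤ 2 * (m - 2 * σ - 2) := by linarith
  calc ‖IBT_rg (((m + 1 : ℕ) : ℂ) - (2 * σ + 2))‖ * (m + 1)
      ≤ ‖IBT_rg (((m + 1 : ℕ) : ℂ) - (2 * σ + 2))‖ * (2 * (m - 2 * σ - 2)) :=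
        mul_le_mul_of_nonneg_left h3 (norm_nonneg _)
    _ = 2 * ((m - 2 * σ - 2) * ‖IBT_rg (((m + 1 : ℕ) : ℂ) - (2 * σ + 2))‖) := by ring

/-- the relation, multiplied by the reciprocal Gamma factor -/
theorem IBT_rel (σ : ℝ) (c2 : ℂ) (f : ℕ → ℂ) (h : IStar σ c2 f) (n : ℕ) (hn : 1 ≤ n) :
    ∑ j ∈ (Finset.range n).filter (fun j => 2 * j < n),
      f j * IBT_rg (2 * j - (2 * σ + 2)) / ((n - 2 * j).factorial : ℂ) = -c2 * tI σ (n - 1) := by
  have h1 := congrArg (fun x => x * IBT_rg ((n : ℂ) - (2 * σ + 2))) (h.2 n hn)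
  rw [Finset.sum_mul] at h1
  have h2 : ∑ j ∈ (Finset.range n).filter (fun j => 2 * j < n),
      f j * IBT_rg (2 * j - (2 * σ + 2)) / ((n - 2 * j).factorial : ℂ) =
      ∑ j ∈ (Finset.range n).filter (fun j => 2 * j < n),
        f j * (-1) ^ n * PowerSeries.coeff (n - 2 * j) (binS (2 * (σ : ℂ) + 2 - 2 * j)) *
          IBT_rg ((n : ℂ) - (2 * σ + 2)) := by
    refine Finset.sum_congr rfl fun j hj => ?_
    have hj2 : 2 * j < n := (Finset.mem_filter.1 hj).2
    have h3 := IBT_fall (2 * (σ : ℂ) + 2 - 2 * j) (n - 2 * j)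
    have e1 : (((n - 2 * j : ℕ) : ℂ) - (2 * (σ : ℂ) + 2 - 2 * j)) = (n : ℂ) - (2 * σ + 2) := by
      rw [Nat.cast_sub hj2.le]
      push_cast
      ring
    have e2 : -(2 * (σ : ℂ) + 2 - 2 * j) = 2 * j - (2 * σ + 2) := by ring
    have e3 : (-1 : ℂ) ^ n = (-1) ^ (n - 2 * j) := by
      conv_lhs => rw [show n = (n - 2 * j) + 2 * j by omega]
      rw [pow_add, pow_mul]
      norm_num
    rw [e1, e2] at h3
    rw [e3, mul_div_assoc, ← h3]
    ring
  rw [h2, h1]
  unfold tI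
  have h3 := IBT_rg_succ (((n - 1 : ℕ) : ℂ) - 2 * σ - 2)
  have e4 : (((n - 1 : ℕ) : ℂ) - 2 * σ - 2 + 1) = (n : ℂ) - (2 * σ + 2) := by
    rw [Nat.cast_sub hn]
    push_cast
    ring
  rw [e4] at h3
  have e5 : (Complex.Gamma (((n - 1 : ℕ) : ℂ) - 2 * σ - 2))⁻¹ =
      (((n - 1 : ℕ) : ℂ) - 2 * σ - 2) * IBT_rg ((n : ℂ) - (2 * σ + 2)) := h3
  rw [e5, Nat.cast_sub hn]
  push_cast
  ring

/-- the series of the terms `x^j / ((2j)!)^(1-s)` converges -/
theorem IBT_summable (x s : ℝ) (hx : 0 < x) (hs : s < 1) :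
    Summable fun j : ℕ => x ^ j * ((2 * j).factorial : ℝ) ^ (s - 1) := by
  have hp : ∀ j : ℕ, (0 : ℝ) < ((2 * j).factorial : ℝ) := fun j => by positivity
  have hpos : ∀ j : ℕ, 0 < x ^ j * ((2 * j).factorial : ℝ) ^ (s - 1) := fun j =>
    mul_pos (pow_pos hx j) (Real.rpow_pos_of_pos (hp j) _)
  refine summable_of_ratio_test_tendsto_lt_one (l := 0) zero_lt_one
    (Eventually.of_forall fun j => (hpos j).ne') ?_
  have h1 : ∀ j : ℕ, ‖x ^ (j + 1) * ((2 * (j + 1)).factorial : ℝ) ^ (s - 1)‖ /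
      ‖x ^ j * ((2 * j).factorial : ℝ) ^ (s - 1)‖ =
      x * (((2 * j + 1) * (2 * j + 2) : ℝ)) ^ (-(1 - s)) := by
    intro j
    rw [Real.norm_eq_abs, Real.norm_eq_abs, abs_of_pos (hpos _), abs_of_pos (hpos _)]
    have e1 : ((2 * (j + 1)).factorial : ℝ) =
        ((2 * j + 1) * (2 * j + 2)) * ((2 * j).factorial : ℝ) := by
      rw [show 2 * (j + 1) = (2 * j + 1) + 1 by ring, Nat.factorial_succ, Nat.factorial_succ]
      push_cast
      ring
    have e2 : s - 1 = -(1 - s) := by ring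
    have h3 : (0 : ℝ) < ((2 * j).factorial : ℝ) ^ (-(1 - s)) := Real.rpow_pos_of_pos (hp j) _
    rw [e1, e2, Real.mul_rpow (by positivity) (hp j).le, pow_succ]
    field_simp
  simp_rw [h1]
  have h2 : Tendsto (fun j : ℕ => (((2 * j + 1) * (2 * j + 2) : ℝ))) atTop atTop := by
    refine tendsto_atTop_mono (fun j => ?_) (tendsto_natCast_atTop_atTop (R := ℝ))
    have : (0 : ℝ) ≤ j := Nat.cast_nonneg j
    nlinarith
  have h3 := (tendsto_rpow_neg_atTop (show 0 < 1 - s by linarith)).comp h2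
  have h4 := h3.const_mul x
  rw [mul_zero] at h4
  exact h4

/-- the core: a zero of `TI` at every nonzero `z` with `exp z = 1` -/
theorem IBT_core (σ : ℝ) (c2 : ℂ) (f : ℕ → ℂ) (hσ : 0 < σ) (hc2 : c2 ≠ 0) (h : IStar σ c2 f)
    (C s : ℝ) (hC : 1 ≤ C) (hs1 : s < 1)
    (hf : ∀ j, 1 ≤ j → ‖f j‖ ≤ C ^ j * ((2 * j).factorial : ℝ) ^ s) (z : ℂ) (hz : z ≠ 0)
    (hz1 : cexp z = 1) : TI σ z = 0 := by
  obtain ⟨A, hA0, hA⟩ := IBT_rg_bound σ hσ
  set b : ℕ → ℂ := fun j => f j * IBT_rg (2 * j - (2 * σ + 2)) with hb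
  have hf' : ∀ j, ‖f j‖ ≤ (1 + ‖f 0‖) * (C ^ j * ((2 * j).factorial : ℝ) ^ s) := by
    intro j
    rcases Nat.eq_zero_or_pos j with rfl | hj
    · simp
    · refine (hf j hj).trans ?_
      have h1 : 0 ≤ C ^ j * ((2 * j).factorial : ℝ) ^ s := by positivity
      nlinarith [norm_nonneg (f 0)]
  -- the even function
  set F : ℕ → ℂ := fun k => if Even k then b (k / 2) * z ^ k else 0 with hF
  have hF2 : ∀ j, F (2 * j) = b j * z ^ (2 * j) := by
    intro j
    simp only [hF]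
    rw [if_pos (even_two_mul j), Nat.mul_div_cancel_left j two_pos]
  have hx : 0 < C * 4 * (‖z‖ ^ 2) := by
    have : 0 < ‖z‖ := norm_pos_iff.2 hz
    positivity
  have hsF : Summable fun k => ‖F k‖ := by
    have hinj : Function.Injective (fun j : ℕ => 2 * j) := fun a b hab => by
      simp only at hab; omega
    rw [← hinj.summable_iff]
    · refine Summable.of_nonneg_of_le (fun j => norm_nonneg _) (fun j => ?_)
        ((IBT_summable (C * 4 * ‖z‖ ^ 2) s hx hs1).mul_left ((1 + ‖f 0‖) * A))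
      simp only [Function.comp]
      rw [hF2, norm_mul, norm_pow, hb]
      simp only
      rw [norm_mul]
      have h1 := hf' j
      have h2 := hA (2 * j)
      have e1 : ((2 * j : ℕ) : ℂ) = 2 * (j : ℂ) := by push_cast; ring
      rw [e1] at h2
      have hp : (0 : ℝ) < ((2 * j).factorial : ℝ) := by positivity
      have h3 : ((2 * j).factorial : ℝ) ^ (s - 1) =
          ((2 * j).factorial : ℝ) ^ s / ((2 * j).factorial : ℝ) := by
        rw [Real.rpow_sub hp, Real.rpow_one]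
      calc ‖f j‖ * ‖IBT_rg (2 * (j : ℂ) - (2 * σ + 2))‖ * ‖z‖ ^ (2 * j)
          ≤ ((1 + ‖f 0‖) * (C ^ j * ((2 * j).factorial : ℝ) ^ s)) *
            (A * (2 ^ (2 * j) / ((2 * j).factorial : ℝ))) * ‖z‖ ^ (2 * j) := by
            gcongr
        _ = (1 + ‖f 0‖) * A * ((C * 4 * ‖z‖ ^ 2) ^ j * ((2 * j).factorial : ℝ) ^ (s - 1)) := by
            rw [h3, mul_pow, mul_pow, pow_mul 2 2 j, pow_mul ‖z‖ 2 j]
            norm_num
            ring
    · intro k hk
      have : ¬ Even k := by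
        intro h4
        obtain ⟨r, hr⟩ := h4
        exact hk ⟨r, by simp only; omega⟩
      simp only [hF]
      rw [if_neg this, norm_zero]
  -- the exponential function without its constant term
  set G : ℕ → ℂ := fun m => if m = 0 then 0 else z ^ m / (m.factorial : ℂ) with hG
  have hse : Summable fun m : ℕ => z ^ m / (m.factorial : ℂ) :=
    NormedSpace.expSeries_div_summable z
  have hsG : Summable fun m => ‖G m‖ := by
    refine Summable.of_nonneg_of_le (fun j => norm_nonneg _) (fun j => ?_) hse.norm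
    simp only [hG]
    split_ifs
    · rw [norm_zero]; exact norm_nonneg _
    · exact le_rfl
  have hGz : ∑' m, G m = 0 := by
    have h1 : ∑' m : ℕ, z ^ m / (m.factorial : ℂ) = 1 := by
      rw [← hz1, Complex.exp_eq_exp_ℂ, NormedSpace.exp_eq_tsum_div]
    rw [hse.tsum_eq_zero_add] at h1
    rw [hsG.of_norm.tsum_eq_zero_add]
    simp only [hG, if_true, zero_add]
    simp only [pow_zero, Nat.factorial_zero, Nat.cast_one, div_one] at h1
    have h2 : ∑' b : ℕ, z ^ (b + 1) / ((b + 1).factorial : ℂ) = 0 := by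
      linear_combination h1
    rw [← h2]
    refine tsum_congr fun m => ?_
    rw [if_neg (Nat.succ_ne_zero m)]
  -- the Cauchy product
  have hprod := tsum_mul_tsum_eq_tsum_sum_range_of_summable_norm hsF hsG
  have hsum := (summable_norm_sum_mul_range_of_summable_norm hsF hsG).of_norm
  rw [hGz, mul_zero, hsum.tsum_eq_zero_add] at hprod
  have hc : ∀ n : ℕ, ∑ k ∈ Finset.range (n + 1 + 1), F k * G (n + 1 - k) =
      (-c2 * z) * (tI σ n * z ^ n) := by
    intro n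
    have h1 := IBT_rel σ c2 f h (n + 1) (by omega)
    rw [Nat.add_sub_cancel] at h1
    have h2 : ∑ k ∈ Finset.range (n + 1 + 1), F k * G (n + 1 - k) =
        ∑ k ∈ ((Finset.range (n + 1)).filter (fun j => 2 * j < n + 1)).image (fun j => 2 * j),
          F k * G (n + 1 - k) := by
      symm
      apply Finset.sum_subset
      · intro k hk
        obtain ⟨j, hj, rfl⟩ := Finset.mem_image.1 hk
        have := (Finset.mem_filter.1 hj).2
        rw [Finset.mem_range]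
        omega
      · intro k hk hk2
        rw [Finset.mem_range] at hk
        by_cases he : Even k
        · obtain ⟨r, hr⟩ := he
          have hkn : k = n + 1 := by
            by_contra hne
            apply hk2
            rw [Finset.mem_image]
            refine ⟨r, ?_, by omega⟩
            rw [Finset.mem_filter, Finset.mem_range]
            omega
          rw [hkn]
          simp [hG]
        · simp only [hF]
          rw [if_neg he, zero_mul]
    rw [h2, Finset.sum_image (fun a _ b _ hab => by omega)]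
    have h3 : (-c2 * z) * (tI σ n * z ^ n) = (-c2 * tI σ n) * z ^ (n + 1) := by ring
    rw [h3, ← h1, Finset.sum_mul]
    refine Finset.sum_congr rfl fun j hj => ?_
    have hj2 : 2 * j < n + 1 := (Finset.mem_filter.1 hj).2
    rw [hF2]
    simp only [hG]
    rw [if_neg (by omega)]
    have h4 : z ^ (n + 1) = z ^ (2 * j) * z ^ (n + 1 - 2 * j) := by
      rw [← pow_add]
      congr 1
      omega
    rw [h4]
    simp only [hb]
    ring
  simp_rw [hc] at hprod
  rw [tsum_mul_left] at hprod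
  simp only [zero_add, Finset.range_one, Finset.sum_singleton, Nat.sub_zero, hG, if_true,
    mul_zero] at hprod
  have h5 : (-c2 * z) ≠ 0 := mul_ne_zero (neg_ne_zero.2 hc2) hz
  rcases mul_eq_zero.1 hprod.symm with h6 | h6
  · exact absurd h6 h5
  · exact h6

theorem tIBT : StIBT := by
  intro σ c2 f hσ _ hc2 h ⟨C, s, hC, _, hs1, hf⟩
  constructor
  · refine IBT_core σ c2 f hσ hc2 h C s hC hs1 hf _ ?_ ?_
    · simp [Real.pi_ne_zero]
    · exact Complex.exp_two_pi_mul_I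
  · refine IBT_core σ c2 f hσ hc2 h C s hC hs1 hf _ ?_ ?_
    · simp [Real.pi_ne_zero]
    · have : (4 * Real.pi * I : ℂ) = 2 * Real.pi * I + 2 * Real.pi * I := by ring
      rw [this, Complex.exp_add, Complex.exp_two_pi_mul_I, one_mul]

end H719FX
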