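import Pool.Agent.H719R4.FX.Cov
import Pool.Agent.H719R4.FX.IWT
import Pool.Agent.H738R3.CZ.CHG
import Pool.Agent.H738R3.CZ.REC

/-!
# IDA: the deck transformation changes `G j` only to the order `L` (isotropic branches)
-/

open Complex Set Filter Topology

namespace H719FX

open H738CZ

/-! ## pairs of functions that agree to the order `L` -/

/-- a pair of functions of weight `w` that agree to the order `L` -/
def IDA_Q (R : ℝ) (L : ℕ) (w : ℤ) (f f' : ℂ → ℂ) : Prop :=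
  WT_W R w f ∧ WT_W R w f' ∧ WT_W R (w - L) (fun t => f' t - f t)

theorem IDA_diff {R : ℝ} {w : ℤ} {f : ℂ → ℂ} (hf : WT_W R w f) :
    DifferentiableOn ℂ f (V3 R) := by
  obtain ⟨F, h1, h2⟩ := hf
  have h3 : DifferentiableOn ℂ (fun τ => F τ * τ ^ (-w)) (V3 R) := by
    refine (h1.mono (fun t ht => WT_ball ht)).mul ?_
    intro τ hτ
    exact (differentiableAt_zpow.2 (Or.inl (WT_ne hτ))).differentiableWithinAt
  refine h3.congr (fun τ hτ => ?_)
  show f τ = F τ * τ ^ (-w)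
  rw [← h2 τ hτ, mul_assoc, ← zpow_add₀ (WT_ne hτ), add_neg_cancel, zpow_zero, mul_one]

theorem IDA_congr {R : ℝ} {L : ℕ} {w : ℤ} {f f' f1 f1' : ℂ → ℂ} (h : EqOn f1 f (V3 R))
    (h' : EqOn f1' f' (V3 R)) (hf : IDA_Q R L w f f') : IDA_Q R L w f1 f1' :=
  ⟨WT_congr h hf.1, WT_congr h' hf.2.1, WT_congr (fun t ht => by rw [h ht, h' ht]) hf.2.2⟩

theorem IDA_zero (R : ℝ) (L : ℕ) (w : ℤ) : IDA_Q R L w (fun _ => 0) (fun _ => 0) :=
  ⟨WT_zero R w, WT_zero R w, WT_congr (fun _ _ => sub_self 0) (WT_zero R _)⟩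

theorem IDA_one (R : ℝ) (L : ℕ) : IDA_Q R L 0 (fun _ => 1) (fun _ => 1) :=
  ⟨WT_one R, WT_one R, WT_congr (fun _ _ => sub_self 1) (WT_zero R _)⟩

theorem IDA_add {R : ℝ} {L : ℕ} {w : ℤ} {f f' h h' : ℂ → ℂ} (hf : IDA_Q R L w f f')
    (hh : IDA_Q R L w h h') : IDA_Q R L w (fun t => f t + h t) (fun t => f' t + h' t) :=
  ⟨WT_add hf.1 hh.1, WT_add hf.2.1 hh.2.1,
    WT_congr (fun t _ => by
      show f' t + h' t - (f t + h t) = (f' t - f t) + (h' t - h t)
      ring) (WT_add hf.2.2 hh.2.2)⟩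

theorem IDA_smul {R : ℝ} {L : ℕ} {w : ℤ} {f f' : ℂ → ℂ} (c : ℂ) (hf : IDA_Q R L w f f') :
    IDA_Q R L w (fun t => c * f t) (fun t => c * f' t) :=
  ⟨WT_smul c hf.1, WT_smul c hf.2.1,
    WT_congr (fun t _ => by
      show c * f' t - c * f t = c * (f' t - f t)
      ring) (WT_smul c hf.2.2)⟩

theorem IDA_mul {R : ℝ} {L : ℕ} {w w' : ℤ} {f f' h h' : ℂ → ℂ} (hf : IDA_Q R L w f f')
    (hh : IDA_Q R L w' h h') :
    IDA_Q R L (w + w') (fun t => f t * h t) (fun t => f' t * h' t) := by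
  refine ⟨WT_mul hf.1 hh.1, WT_mul hf.2.1 hh.2.1, ?_⟩
  have h1 := WT_mul hf.2.1 hh.2.2
  have h2 := WT_mul hf.2.2 hh.1
  have e1 : w + (w' - L) = w + w' - L := by ring
  have e2 : (w - L) + w' = w + w' - L := by ring
  rw [e1] at h1
  rw [e2] at h2
  refine WT_congr (fun t _ => ?_) (WT_add h1 h2)
  show f' t * h' t - f t * h t = f' t * (h' t - h t) + (f' t - f t) * h t
  ring

theorem IDA_sum {R : ℝ} {L : ℕ} {w : ℤ} {ι : Type} (s : Finset ι) (f f' : ι → ℂ → ℂ)
    (h : ∀ i ∈ s, IDA_Q R L w (f i) (f' i)) :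
    IDA_Q R L w (fun t => ∑ i ∈ s, f i t) (fun t => ∑ i ∈ s, f' i t) := by
  classical
  induction s using Finset.induction_on with
  | empty => simpa using IDA_zero R L w
  | insert a s ha ih =>
    have h1 := IDA_add (h a (Finset.mem_insert_self a s))
      (ih (fun i hi => h i (Finset.mem_insert_of_mem hi)))
    refine IDA_congr (fun t _ => ?_) (fun t _ => ?_) h1
    · exact Finset.sum_insert ha
    · exact Finset.sum_insert ha

theorem IDA_pow {R : ℝ} {L : ℕ} {w : ℤ} {f f' : ℂ → ℂ} (hf : IDA_Q R L w f f') (j : ℕ) :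
    IDA_Q R L (j * w) (fun t => f t ^ j) (fun t => f' t ^ j) := by
  induction j with
  | zero => simpa using IDA_one R L
  | succ j ih =>
    have h1 := IDA_mul ih hf
    have e : ((j + 1 : ℕ) : ℤ) * w = j * w + w := by push_cast; ring
    rw [e]
    refine IDA_congr (fun t _ => ?_) (fun t _ => ?_) h1 <;> simp only [pow_succ]

theorem IDA_DD {R : ℝ} {k L : ℕ} (hk : 1 ≤ k) {w : ℤ} {f f' : ℂ → ℂ}
    (h : IDA_Q R L w f f') : IDA_Q R L w (DD (di k) f) (DD (di k) f') := by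
  refine ⟨IWT_DD hk h.1, IWT_DD hk h.2.1, ?_⟩
  refine WT_congr (fun t ht => ?_) (IWT_DD hk h.2.2)
  have h1 := ((IDA_diff h.1).differentiableAt ((WT_open R).mem_nhds ht))
  have h2 := ((IDA_diff h.2.1).differentiableAt ((WT_open R).mem_nhds ht))
  show deriv f' t / di k t - deriv f t / di k t = deriv (fun t => f' t - f t) t / di k t
  rw [deriv_fun_sub h2 h1, sub_div]

theorem IDA_DDl {R : ℝ} {k L : ℕ} (hk : 1 ≤ k) {w : ℤ} {f f' : ℂ → ℂ}
    (h : IDA_Q R L w f f') (l : ℕ) :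
    IDA_Q R L w ((DD (di k))^[l] f) ((DD (di k))^[l] f') := by
  induction l with
  | zero => simpa using h
  | succ l ih =>
    rw [Function.iterate_succ_apply', Function.iterate_succ_apply']
    exact IDA_DD hk ih

/-- pairs of families of power series -/
def IDA_P (R : ℝ) (L : ℕ) (w : ℤ) (P P' : ℂ → PowerSeries ℂ) : Prop :=
  ∀ n : ℕ, IDA_Q R L w (fun t => PowerSeries.coeff n (P t)) (fun t => PowerSeries.coeff n (P' t))

theorem IDA_Pmul {R : ℝ} {L : ℕ} {w w' : ℤ} {P P' S S' : ℂ → PowerSeries ℂ}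
    (h : IDA_P R L w P P') (h' : IDA_P R L w' S S') :
    IDA_P R L (w + w') (fun t => P t * S t) (fun t => P' t * S' t) := by
  intro n
  have h1 := IDA_sum (Finset.HasAntidiagonal.antidiagonal n : Finset (ℕ × ℕ))
    (fun p t => PowerSeries.coeff p.1 (P t) * PowerSeries.coeff p.2 (S t))
    (fun p t => PowerSeries.coeff p.1 (P' t) * PowerSeries.coeff p.2 (S' t))
    (fun p _ => IDA_mul (h p.1) (h' p.2))
  refine IDA_congr (fun t _ => ?_) (fun t _ => ?_) h1
  · exact PowerSeries.coeff_mul n (P t) (S t)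
  · exact PowerSeries.coeff_mul n (P' t) (S' t)

theorem IDA_Ppow {R : ℝ} {L : ℕ} {w : ℤ} {P P' : ℂ → PowerSeries ℂ} (h : IDA_P R L w P P')
    (j : ℕ) : IDA_P R L (j * w) (fun t => P t ^ j) (fun t => P' t ^ j) := by
  induction j with
  | zero =>
    intro n
    by_cases hn : n = 0
    · subst hn
      have h1 := IDA_one R L
      simpa using h1
    · refine IDA_congr (fun t _ => ?_) (fun t _ => ?_) (IDA_zero R L _) <;>
        simp [PowerSeries.coeff_one, hn]
  | succ j ih =>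
    have h1 := IDA_Pmul ih h
    have e : ((j + 1 : ℕ) : ℤ) * w = j * w + w := by push_cast; ring
    rw [e]
    intro n
    refine IDA_congr (fun t _ => ?_) (fun t _ => ?_) (h1 n) <;> simp only [pow_succ]

theorem IDA_Es {R : ℝ} {k L : ℕ} (hk : 1 ≤ k) {w : ℤ} {f f' : ℂ → ℂ}
    (hf : IDA_Q R L w f f') :
    IDA_P R L w (fun t => Es (di k) f t) (fun t => Es (di k) f' t) := by
  intro l
  refine IDA_congr (fun t _ => ?_) (fun t _ => ?_)
    (IDA_smul ((l.factorial : ℂ)⁻¹) (IDA_DDl hk hf l)) <;>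
  · simp only [Es, PowerSeries.coeff_mk]
    ring

theorem IDA_Ys (kc : ℕ → ℂ) {R : ℝ} {k L : ℕ} (hk : 1 ≤ k) {w : ℤ} {f f' : ℂ → ℂ}
    (hf : IDA_Q R L w f f') :
    IDA_P R L w (fun t => Ys kc (di k) f t) (fun t => Ys kc (di k) f' t) := by
  intro n
  have h1 := IDA_sum (Finset.range n)
      (fun l t => kc (n - 1 - l) * ((DD (di k))^[l] f) t)
      (fun l t => kc (n - 1 - l) * ((DD (di k))^[l] f') t)
      (fun l _ => IDA_smul (kc (n - 1 - l)) (IDA_DDl hk hf l))
  refine IDA_congr (fun t _ => ?_) (fun t _ => ?_) (IDA_smul ((n.factorial : ℂ)⁻¹) h1) <;>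
  · simp only [Ys, PowerSeries.coeff_mk]
    ring

theorem IDA_base {R : ℝ} {L : ℕ} (z : ℤ) {F F' E : ℂ → ℂ}
    (hF : DifferentiableOn ℂ F (Metric.ball 0 R)) (hF' : DifferentiableOn ℂ F' (Metric.ball 0 R))
    (hE : DifferentiableOn ℂ E (Metric.ball 0 R))
    (h : ∀ t ∈ V3 R, F' t - F t = t ^ L * E t) :
    IDA_Q R L (-z) (fun t => t ^ z * F t) (fun t => t ^ z * F' t) := by
  refine ⟨⟨F, hF, fun t ht => ?_⟩, ⟨F', hF', fun t ht => ?_⟩, ⟨E, hE, fun t ht => ?_⟩⟩
  · have h0 := zpow_ne_zero z (WT_ne ht)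
    show t ^ z * F t * t ^ (-z) = F t
    rw [zpow_neg]
    field_simp
  · have h0 := zpow_ne_zero z (WT_ne ht)
    show t ^ z * F' t * t ^ (-z) = F' t
    rw [zpow_neg]
    field_simp
  · have h0 := zpow_ne_zero z (WT_ne ht)
    have h1 : t ^ L ≠ 0 := pow_ne_zero _ (WT_ne ht)
    show (t ^ z * F' t - t ^ z * F t) * t ^ (-z - L) = E t
    rw [← mul_sub, h t ht, zpow_sub₀ (WT_ne ht), zpow_neg, zpow_natCast]
    field_simp

/-! ## scaling -/

theorem IDA_sc (d f : ℂ → ℂ) (c : ℂ) (l : ℕ) :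
    (DD d)^[l] (fun t => c * f t) = fun t => c * ((DD d)^[l] f) t := by
  induction l with
  | zero => rfl
  | succ l ih =>
    rw [Function.iterate_succ_apply', Function.iterate_succ_apply', ih]
    funext t
    show deriv (fun t => c * ((DD d)^[l] f) t) t / d t = c * (deriv ((DD d)^[l] f) t / d t)
    rw [deriv_const_mul_field, mul_div_assoc]

theorem IDA_scE (d f : ℂ → ℂ) (c : ℂ) (t : ℂ) :
    Es d (fun t => c * f t) t = PowerSeries.C c * Es d f t := by
  ext n
  rw [PowerSeries.coeff_C_mul]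
  simp only [Es, PowerSeries.coeff_mk]
  rw [IDA_sc, mul_div_assoc]

theorem IDA_scY (kc : ℕ → ℂ) (d f : ℂ → ℂ) (c : ℂ) (t : ℂ) :
    Ys kc d (fun t => c * f t) t = PowerSeries.C c * Ys kc d f t := by
  ext n
  rw [PowerSeries.coeff_C_mul]
  simp only [Ys, PowerSeries.coeff_mk]
  rw [← mul_div_assoc, Finset.mul_sum]
  congr 1
  refine Finset.sum_congr rfl (fun l _ => ?_)
  rw [IDA_sc]
  ring

theorem IDA_scT (kc : ℕ → ℂ) (d ρ r0 : ℂ → ℂ) (g : ℕ → ℂ → ℂ) (s : ℂ) (hs : s ^ 2 = 1) (j : ℕ)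
    (t : ℂ) : Tm kc d (fun t => s * ρ t) (fun t => s * r0 t) g j t = Tm kc d ρ r0 g j t := by
  have hs' : s⁻¹ = s := by
    have h0 : s ≠ 0 := by
      rintro rfl
      norm_num at hs
    field_simp
    rw [hs]
  unfold Tm
  have e : (fun u => g j u * ((s * r0 u)⁻¹) ^ j) = fun u => s ^ j * (g j u * ((r0 u)⁻¹) ^ j) := by
    funext u
    rw [mul_inv, hs', mul_pow]
    ring
  rw [e, IDA_scE, IDA_scY, mul_pow, ← map_pow]
  have e2 : (PowerSeries.C (s ^ j) : PowerSeries ℂ) * PowerSeries.C (s ^ j) = 1 := by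
    rw [← map_mul, ← mul_pow, ← pow_two, hs, one_pow, map_one]
  calc PowerSeries.C (s ^ j) * Es d (fun u => g j u * ((r0 u)⁻¹) ^ j) t *
        (PowerSeries.C (s ^ j) * Ys kc d ρ t ^ j)
      = (PowerSeries.C (s ^ j) * PowerSeries.C (s ^ j)) *
        (Es d (fun u => g j u * ((r0 u)⁻¹) ^ j) t * Ys kc d ρ t ^ j) := by ring
    _ = _ := by rw [e2, one_mul]

/-! ## the order of vanishing -/

theorem IDA_cont {R : ℝ} (hR : 0 < R) {φ : ℂ → ℂ} (hφ : ContinuousOn φ (Metric.ball 0 R))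
    (h : ∀ t ∈ V3 R, φ t = 0) : φ 0 = 0 := by
  have hb : Metric.ball (0 : ℂ) R ∈ 𝓝 (0 : ℂ) := Metric.ball_mem_nhds 0 hR
  have h1 : Tendsto φ (𝓝[≠] (0 : ℂ)) (𝓝 (φ 0)) :=
    ((hφ.continuousAt hb).tendsto).mono_left nhdsWithin_le_nhds
  have h2 : Tendsto φ (𝓝[≠] (0 : ℂ)) (𝓝 0) := by
    refine Tendsto.congr' ?_ tendsto_const_nhds
    filter_upwards [mem_nhdsWithin_of_mem_nhds hb, self_mem_nhdsWithin] with t ht ht0
    exact (h t ⟨ht, ht0⟩).symm
  exact tendsto_nhds_unique h1 h2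

theorem IDA_fin {R : ℝ} (hR : 0 < R) {N L M : ℕ} (hM : 1 ≤ M) {ω : ℂ} (hωM : ω ^ M = 1)
    (hωN : ω ^ N = 1) {G H : ℂ → ℂ} (hG : DifferentiableOn ℂ G (Metric.ball 0 R))
    (hH : DifferentiableOn ℂ H (Metric.ball 0 R))
    (h : ∀ t ∈ V3 R, t * deriv (fun t => G (ω * t) - G t) t - N * (G (ω * t) - G t)
      = t ^ L * H t) :
    ∃ γ : ℂ → ℂ, DifferentiableOn ℂ γ (Metric.ball 0 R) ∧
      ∀ τ ∈ Metric.ball (0 : ℂ) R, G (ω * τ) - G τ = τ ^ L * γ τ := by
  have hω1 : ‖ω‖ = 1 := by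
    have h1 : ‖ω‖ ^ M = 1 := by rw [← norm_pow, hωM, norm_one]
    exact (pow_eq_one_iff_of_nonneg (norm_nonneg _) (by omega)).1 h1
  have hmap : ∀ (i : ℕ), ∀ t ∈ Metric.ball (0 : ℂ) R, ω ^ i * t ∈ Metric.ball (0 : ℂ) R := by
    intro i t ht
    rw [mem_ball_zero_iff] at ht ⊢
    rw [norm_mul, norm_pow, hω1, one_pow, one_mul]
    exact ht
  have hd : DifferentiableOn ℂ (fun t => G (ω * t) - G t) (Metric.ball 0 R) := by
    refine DifferentiableOn.sub (hG.comp (differentiableOn_id.const_mul ω) (fun t ht => ?_)) hG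
    have := hmap 1 t ht
    rwa [pow_one] at this
  have key : ∀ l ≤ L, ∃ γ : ℂ → ℂ, DifferentiableOn ℂ γ (Metric.ball 0 R) ∧
      ∀ τ ∈ Metric.ball (0 : ℂ) R, G (ω * τ) - G τ = τ ^ l * γ τ := by
    intro l
    induction l with
    | zero =>
      intro _
      exact ⟨_, hd, fun τ _ => by rw [pow_zero, one_mul]⟩
    | succ l ih =>
      intro hl
      obtain ⟨γ, hγ, heq⟩ := ih (by omega)
      have hγd := hγ.deriv Metric.isOpen_ball
      have hγ0 : γ 0 = 0 := by
        by_cases hlN : l = N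
        · -- average over the rotations
          have h1 : ∀ t ∈ V3 R, ∑ i ∈ Finset.range M, γ (ω ^ i * t) = 0 := by
            intro t ht
            have h2 : ∑ i ∈ Finset.range M, (G (ω ^ (i + 1) * t) - G (ω ^ i * t)) = 0 := by
              rw [Finset.sum_range_sub (fun i => G (ω ^ i * t)), hωM, pow_zero, sub_self]
            have h3 : ∀ i ∈ Finset.range M, G (ω ^ (i + 1) * t) - G (ω ^ i * t)
                = t ^ N * γ (ω ^ i * t) := by
              intro i _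
              have h4 := heq _ (hmap i t (WT_ball ht))
              rw [hlN, mul_pow, ← pow_mul, mul_comm i N, pow_mul, hωN, one_pow, one_mul] at h4
              rw [← h4, ← mul_assoc, ← pow_succ']
            rw [Finset.sum_congr rfl h3, ← Finset.mul_sum] at h2
            exact (mul_eq_zero.1 h2).resolve_left (pow_ne_zero _ (WT_ne ht))
          have hc : ContinuousOn (fun t => ∑ i ∈ Finset.range M, γ (ω ^ i * t))
              (Metric.ball 0 R) := by
            refine continuousOn_finsetSum _ (fun i _ => ?_)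
            exact hγ.continuousOn.comp (continuousOn_const.mul continuousOn_id)
              (fun t ht => hmap i t ht)
          have h5 := IDA_cont hR hc h1
          simp only [mul_zero, Finset.sum_const, Finset.card_range, nsmul_eq_mul] at h5
          exact (mul_eq_zero.1 h5).resolve_left (Nat.cast_ne_zero.2 (by omega))
        · -- the differential equation
          have h1 : ∀ t ∈ V3 R, ((l : ℂ) - N) * γ t + t * deriv γ t - t ^ (L - l) * H t = 0 := by
            intro t ht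
            have h0 := WT_ne ht
            have hev : (fun t => G (ω * t) - G t) =ᶠ[𝓝 t] fun t => t ^ l * γ t := by
              filter_upwards [Metric.isOpen_ball.mem_nhds (WT_ball ht)] with s hs
              exact heq s hs
            have hder : HasDerivAt γ (deriv γ t) t :=
              (hγ.differentiableAt (Metric.isOpen_ball.mem_nhds (WT_ball ht))).hasDerivAt
            have h2 := h t ht
            rw [hev.deriv_eq, heq t (WT_ball ht)] at h2
            have h3 : deriv (fun t => t ^ l * γ t) t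
                = (l : ℂ) * t ^ (l - 1) * γ t + t ^ l * deriv γ t :=
              ((hasDerivAt_pow l t).mul hder).deriv
            rw [h3] at h2
            have h4 : t * ((l : ℂ) * t ^ (l - 1)) = l * t ^ l := by
              rcases Nat.eq_zero_or_pos l with h | h
              · subst h; simp
              · calc t * ((l : ℂ) * t ^ (l - 1)) = l * (t ^ (l - 1) * t) := by ring
                  _ = l * t ^ l := by rw [← pow_succ, Nat.sub_add_cancel h]
            have h5 : t ^ L = t ^ l * t ^ (L - l) := by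
              rw [← pow_add]
              congr 1
              omega
            rw [h5] at h2
            have h6 : t ^ l * (((l : ℂ) - N) * γ t + t * deriv γ t - t ^ (L - l) * H t) = 0 := by
              linear_combination h2 - γ t * h4
            exact (mul_eq_zero.1 h6).resolve_left (pow_ne_zero _ h0)
          have hc : ContinuousOn
              (fun t => ((l : ℂ) - N) * γ t + t * deriv γ t - t ^ (L - l) * H t)
              (Metric.ball 0 R) := by
            refine ((continuousOn_const.mul hγ.continuousOn).add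
              (continuousOn_id.mul hγd.continuousOn)).sub
              ((continuousOn_id.pow _).mul hH.continuousOn)
          have h2 := IDA_cont hR hc h1
          simp only [zero_mul, add_zero, zero_pow (show L - l ≠ 0 by omega), sub_zero] at h2
          refine (mul_eq_zero.1 h2).resolve_left ?_
          exact sub_ne_zero.2 (by exact_mod_cast hlN)
      refine ⟨dslope γ 0, (Complex.differentiableOn_dslope
        (Metric.ball_mem_nhds 0 hR)).2 hγ, fun τ hτ => ?_⟩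
      rw [heq τ hτ, pow_succ, mul_assoc]
      congr 1
      have := sub_smul_dslope γ 0 τ
      rw [sub_zero, hγ0, sub_zero, smul_eq_mul] at this
      exact this.symm
  exact key L le_rfl

/-! ## the theorem -/

theorem IDA_ker : Ker kcs where
  even i := by
    simp [kcs]
  one := by
    have : ¬ Even 1 := by decide
    simp [kcs, this]
  bd i := by
    unfold kcs
    split_ifs
    · simp
    · simp

theorem tIDA : StIDA := by
  intro k u R hk hU g G hFI hG ω L e hω hL he heq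
  have hR := hU.pos
  have hk6 : 6 * k ≠ 0 := by omega
  have hω0 : ω ≠ 0 := by
    rintro rfl
    rw [zero_pow hk6] at hω
    exact zero_ne_one hω
  have hω1 : ‖ω‖ = 1 := by
    have h1 : ‖ω‖ ^ (6 * k) = 1 := by rw [← norm_pow, hω, norm_one]
    exact (pow_eq_one_iff_of_nonneg (norm_nonneg _) hk6).1 h1
  have hmb : ∀ t ∈ Metric.ball (0 : ℂ) R, ω * t ∈ Metric.ball (0 : ℂ) R := by
    intro t ht
    rw [mem_ball_zero_iff] at ht ⊢
    rw [norm_mul, hω1, one_mul]
    exact ht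
  have hmV : ∀ t ∈ V3 R, ω * t ∈ V3 R := fun t ht =>
    ⟨hmb t (WT_ball ht), mul_ne_zero hω0 (WT_ne ht)⟩
  have hmaps : ∀ τ ∈ Metric.ball (0 : ℂ) R, τ ^ 6 ∈ Metric.ball (0 : ℂ) (R ^ 6) := by
    intro τ hτ
    rw [mem_ball_zero_iff] at hτ ⊢
    rw [norm_pow]
    exact pow_lt_pow_left₀ hτ (norm_nonneg _) (by norm_num)
  -- the functions `u (τ ^ 6)` and `u ((ω τ) ^ 6)`
  have hU1 : DifferentiableOn ℂ (fun τ : ℂ => u (τ ^ 6)) (Metric.ball 0 R) :=
    hU.df.comp (differentiableOn_pow 6) hmaps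
  have hU2 : DifferentiableOn ℂ (fun τ : ℂ => u ((ω * τ) ^ 6)) (Metric.ball 0 R) :=
    hU1.comp (differentiableOn_id.const_mul ω) hmb
  have hn1 : ∀ τ ∈ Metric.ball (0 : ℂ) R, u (τ ^ 6) ≠ 0 := fun τ hτ => hU.nz _ (hmaps τ hτ)
  have hn2 : ∀ τ ∈ Metric.ball (0 : ℂ) R, u ((ω * τ) ^ 6) ≠ 0 :=
    fun τ hτ => hU.nz _ (hmaps _ (hmb τ hτ))
  -- the rotated data
  set s : ℂ := ω ^ (2 * k + k) with hs
  have hs2 : s ^ 2 = 1 := by
    rw [hs, ← pow_mul, show (2 * k + k) * 2 = 6 * k by ring, hω]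
  set rO : ℂ → ℂ := fun τ => τ ^ (2 * k + k) * u ((ω * τ) ^ 6) with hrO
  set ρO : ℂ → ℂ := fun τ => rO τ ^ 3 with hρO
  have hr' : (ri k k u ∘ fun τ => ω * τ) = fun τ => s * rO τ := by
    funext τ
    show (ω * τ) ^ (2 * k + k) * u ((ω * τ) ^ 6) = s * (τ ^ (2 * k + k) * u ((ω * τ) ^ 6))
    rw [mul_pow]
    ring
  have hρ' : (ρi k k u ∘ fun τ => ω * τ) = fun τ => s * ρO τ := by
    funext τ
    have h1 : ri k k u (ω * τ) = s * rO τ := congrFun hr' τ
    show (ri k k u (ω * τ)) ^ 3 = s * rO τ ^ 3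
    rw [h1, mul_pow, pow_succ s 2, hs2, one_mul]
  have hFI' : FI kcs (di k) (ρi k k u ∘ fun τ => ω * τ) (ri k k u ∘ fun τ => ω * τ)
      (fun j => g j ∘ fun τ => ω * τ) (V3 R) := by
    refine tCHG kcs (di k) (ρi k k u) (ri k k u) g (V3 R) (di k) (fun τ => ω * τ) (V3 R) hFI
      (WT_open R) (differentiableOn_id.const_mul ω) (fun t ht => hmV t ht) ?_ ?_
    · intro t ht
      have h0 := WT_ne ht
      have h1 : deriv (fun τ : ℂ => ω * τ) t = ω := by
        simp
      rw [h1]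
      show -(3 * I * k) / (ω * t) * ω = -(3 * I * k) / t
      field_simp
    · intro t ht
      exact hFI.base.d0 t ht
  -- the recursion for both
  have hA : ∀ J, 1 ≤ J → ∀ t ∈ V3 R, DD (di k) (g J) t
      = -(2 * ((ri k k u t)⁻¹) ^ 2) ^ J * Lo kcs (di k) (ρi k k u) (ri k k u) g J t := by
    intro J hJ t ht
    have h1 := tREC kcs IDA_ker (di k) (ρi k k u) (ri k k u) (V3 R) hFI.base g J hJ
      (hFI.gd J hJ) t ht
    rw [hFI.law J hJ t ht] at h1
    have h0 := hFI.base.rn t ht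
    have h2 : (2 * ((ri k k u t)⁻¹) ^ 2) ^ J * (ri k k u t ^ 2 / 2) ^ J = 1 := by
      rw [← mul_pow]
      have : 2 * ((ri k k u t)⁻¹) ^ 2 * (ri k k u t ^ 2 / 2) = 1 := by field_simp
      rw [this, one_pow]
    linear_combination (-(2 * ((ri k k u t)⁻¹) ^ 2) ^ J) * h1 - (DD (di k) (g J) t) * h2
  have hA' : ∀ J, 1 ≤ J → ∀ t ∈ V3 R, DD (di k) (fun τ => g J (ω * τ)) t
      = -(2 * ((rO t)⁻¹) ^ 2) ^ J * Lo kcs (di k) ρO rO (fun j τ => g j (ω * τ)) J t := by
    intro J hJ t ht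
    have h1 := tREC kcs IDA_ker (di k) _ _ (V3 R) hFI'.base (fun j => g j ∘ fun τ => ω * τ) J hJ
      (hFI'.gd J hJ) t ht
    rw [hFI'.law J hJ t ht, hr', hρ'] at h1
    have h3 : Lo kcs (di k) (fun τ => s * ρO τ) (fun τ => s * rO τ)
        (fun j => g j ∘ fun τ => ω * τ) J t
        = Lo kcs (di k) ρO rO (fun j τ => g j (ω * τ)) J t := by
      unfold Lo
      rw [Finset.sum_congr rfl (fun j _ => IDA_scT kcs (di k) ρO rO _ s hs2 j t)]
      rfl
    rw [h3] at h1
    have h0 : rO t ≠ 0 := mul_ne_zero (pow_ne_zero _ (WT_ne ht)) (hn2 t (WT_ball ht))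
    have h4 : (s * rO t) ^ 2 = rO t ^ 2 := by rw [mul_pow, hs2, one_mul]
    rw [h4] at h1
    have h2 : (2 * ((rO t)⁻¹) ^ 2) ^ J * (rO t ^ 2 / 2) ^ J = 1 := by
      rw [← mul_pow]
      have : 2 * ((rO t)⁻¹) ^ 2 * (rO t ^ 2 / 2) = 1 := by field_simp
      rw [this, one_pow]
    have h5 : DD (di k) (g J ∘ fun τ => ω * τ) t = DD (di k) (fun τ => g J (ω * τ)) t := rfl
    rw [h5] at h1
    linear_combination (-(2 * ((rO t)⁻¹) ^ 2) ^ J) * h1
      - (DD (di k) (fun τ => g J (ω * τ)) t) * h2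
  -- weights of the building blocks
  have hqρ : IDA_Q R L (-(3 * (3 * (k : ℤ)))) (ρi k k u) ρO := by
    have h1 := IDA_base (R := R) (L := L) (3 * (3 * (k : ℤ))) (hU1.pow 3) (hU2.pow 3)
      (he.mul (((hU2.pow 2).add (hU2.mul hU1)).add (hU1.pow 2))) (fun t ht => by
        have h2 := heq t (WT_ball ht)
        show u ((ω * t) ^ 6) ^ 3 - u (t ^ 6) ^ 3 = t ^ L * (e t * (u ((ω * t) ^ 6) ^ 2
          + u ((ω * t) ^ 6) * u (t ^ 6) + u (t ^ 6) ^ 2))
        linear_combination (u ((ω * t) ^ 6) ^ 2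
          + u ((ω * t) ^ 6) * u (t ^ 6) + u (t ^ 6) ^ 2) * h2)
    refine IDA_congr (fun t _ => ?_) (fun t _ => ?_) h1
    · show (t ^ (2 * k + k) * u (t ^ 6)) ^ 3 = t ^ (3 * (3 * (k : ℤ))) * u (t ^ 6) ^ 3
      rw [mul_pow, ← pow_mul, show (3 * (3 * (k : ℤ))) = (((2 * k + k) * 3 : ℕ) : ℤ) by
        push_cast; ring, zpow_natCast]
    · show (t ^ (2 * k + k) * u ((ω * t) ^ 6)) ^ 3 = t ^ (3 * (3 * (k : ℤ))) * u ((ω * t) ^ 6) ^ 3
      rw [mul_pow, ← pow_mul, show (3 * (3 * (k : ℤ))) = (((2 * k + k) * 3 : ℕ) : ℤ) by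
        push_cast; ring, zpow_natCast]
  have hqr : IDA_Q R L (3 * (k : ℤ)) (fun t => (ri k k u t)⁻¹) (fun t => (rO t)⁻¹) := by
    have h1 := IDA_base (R := R) (L := L) (-(3 * (k : ℤ))) (hU1.inv hn1) (hU2.inv hn2)
      (he.mul ((hU1.mul hU2).inv (fun τ hτ => mul_ne_zero (hn1 τ hτ) (hn2 τ hτ)))).neg
      (fun t ht => by
        have h2 := heq t (WT_ball ht)
        have h3 := hn1 t (WT_ball ht)
        have h4 := hn2 t (WT_ball ht)
        show (u ((ω * t) ^ 6))⁻¹ - (u (t ^ 6))⁻¹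
          = t ^ L * -(e t * (u (t ^ 6) * u ((ω * t) ^ 6))⁻¹)
        have h5 : t ^ L * -(e t * (u (t ^ 6) * u ((ω * t) ^ 6))⁻¹)
          = -(t ^ L * e t) * (u (t ^ 6) * u ((ω * t) ^ 6))⁻¹ := by ring
        rw [h5, ← h2]
        clear h5 h2
        generalize u (t ^ 6) = a at h3 ⊢
        generalize u ((ω * t) ^ 6) = b at h4 ⊢
        field_simp
        ring)
    rw [neg_neg] at h1
    refine IDA_congr (fun t _ => ?_) (fun t _ => ?_) h1
    · show (t ^ (2 * k + k) * u (t ^ 6))⁻¹ = t ^ (-(3 * (k : ℤ))) * (u (t ^ 6))⁻¹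
      rw [mul_inv, zpow_neg, show (3 * (k : ℤ)) = ((2 * k + k : ℕ) : ℤ) by
        push_cast; ring, zpow_natCast]
    · show (t ^ (2 * k + k) * u ((ω * t) ^ 6))⁻¹ = t ^ (-(3 * (k : ℤ))) * (u ((ω * t) ^ 6))⁻¹
      rw [mul_inv, zpow_neg, show (3 * (k : ℤ)) = ((2 * k + k : ℕ) : ℤ) by
        push_cast; ring, zpow_natCast]
  -- powers of `ω`
  have hωN : ∀ j, ω ^ ((4 * k + 2 * k) * (j - 1)) = 1 := by
    intro j
    rw [show (4 * k + 2 * k) = 6 * k by ring, pow_mul, hω, one_pow]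
  -- the induction
  intro j
  induction j using Nat.strong_induction_on with
  | _ J ih =>
  intro hJ
  have hqg : ∀ j, 1 ≤ j → j < J → IDA_Q R L ((6 * (k : ℤ)) * (j - 1)) (g j)
      (fun τ => g j (ω * τ)) := by
    intro j hj hjJ
    obtain ⟨γ, hγ, hγe⟩ := ih j hjJ hj
    obtain ⟨hG1, hG2⟩ := hG j hj
    have h1 := IDA_base (R := R) (L := L) (-((6 * (k : ℤ)) * (j - 1))) hG1
      (hG1.comp (differentiableOn_id.const_mul ω) hmb) hγ (fun t ht => hγe t (WT_ball ht))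
    rw [neg_neg] at h1
    have e : ((6 * (k : ℤ)) * (j - 1)) = (((4 * k + 2 * k) * (j - 1) : ℕ) : ℤ) := by
      push_cast [Nat.cast_sub hj]
      ring
    refine IDA_congr (fun t ht => ?_) (fun t ht => ?_) h1
    · have h0 := pow_ne_zero ((4 * k + 2 * k) * (j - 1)) (WT_ne ht)
      show g j t = t ^ (-((6 * (k : ℤ)) * (j - 1))) * G j t
      rw [← hG2 t ht, e, zpow_neg, zpow_natCast]
      field_simp
    · have h0 := pow_ne_zero ((4 * k + 2 * k) * (j - 1)) (WT_ne ht)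
      show g j (ω * t) = t ^ (-((6 * (k : ℤ)) * (j - 1))) * G j (ω * t)
      rw [← hG2 _ (hmV t ht), e, zpow_neg, zpow_natCast, mul_pow, hωN, one_mul]
      field_simp
  have hqT : ∀ j ∈ Finset.Ico 1 J, IDA_P R L (-(6 * (k : ℤ)))
      (fun t => Tm kcs (di k) (ρi k k u) (ri k k u) g j t)
      (fun t => Tm kcs (di k) ρO rO (fun j τ => g j (ω * τ)) j t) := by
    intro j hj
    rw [Finset.mem_Ico] at hj
    have h1 := IDA_Es hk (IDA_mul (hqg j hj.1 hj.2) (IDA_pow hqr j))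
    have h2 := IDA_Ppow (IDA_Ys kcs hk hqρ) j
    have h3 := IDA_Pmul h1 h2
    have e : (6 * (k : ℤ)) * (j - 1) + j * (3 * (k : ℤ)) + j * (-(3 * (3 * (k : ℤ))))
        = -(6 * (k : ℤ)) := by ring
    rw [e] at h3
    exact h3
  have hqL : IDA_Q R L (-(6 * (k : ℤ)))
      (fun t => Lo kcs (di k) (ρi k k u) (ri k k u) g J t)
      (fun t => Lo kcs (di k) ρO rO (fun j τ => g j (ω * τ)) J t) := by
    have h1 := IDA_sum (Finset.Ico 1 J) (fun j t => PowerSeries.coeff (2 * J + 1)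
      (Tm kcs (di k) (ρi k k u) (ri k k u) g j t)) (fun j t => PowerSeries.coeff (2 * J + 1)
      (Tm kcs (di k) ρO rO (fun j τ => g j (ω * τ)) j t)) (fun j hj => hqT j hj (2 * J + 1))
    refine IDA_congr (fun t _ => ?_) (fun t _ => ?_) h1
    · show Lo kcs (di k) (ρi k k u) (ri k k u) g J t = _
      unfold Lo
      rw [map_sum]
    · show Lo kcs (di k) ρO rO (fun j τ => g j (ω * τ)) J t = _
      unfold Lo
      rw [map_sum]
  have hqA := IDA_mul (IDA_pow (IDA_smul 2 (IDA_pow hqr 2)) J) hqL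
  obtain ⟨H, hH1, hH2⟩ := hqA.2.2
  obtain ⟨hG1, hG2⟩ := hG J hJ
  set N : ℕ := (4 * k + 2 * k) * (J - 1) with hN
  refine IDA_fin (N := N) (M := 6 * k) hR (by omega) hω (hωN J) hG1
    (hH1.const_mul (3 * I * k)) (fun t ht => ?_)
  have h0 := WT_ne ht
  have hev : (fun t => G J (ω * t) - G J t) =ᶠ[𝓝 t]
      fun t => (g J (ω * t) - g J t) * t ^ N := by
    filter_upwards [(WT_open R).mem_nhds ht] with x hx
    rw [← hG2 _ (hmV x hx), ← hG2 x hx, mul_pow, hωN J, one_mul, sub_mul]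
  have hd1 : DifferentiableAt ℂ (g J) t := (hFI.gd J hJ).differentiableAt ((WT_open R).mem_nhds ht)
  have hd2 : DifferentiableAt ℂ (fun τ => g J (ω * τ)) t :=
    (hFI'.gd J hJ).differentiableAt ((WT_open R).mem_nhds ht)
  have hder : HasDerivAt (fun t => (g J (ω * t) - g J t) * t ^ N)
      ((deriv (fun τ => g J (ω * τ)) t - deriv (g J) t) * t ^ N
        + (g J (ω * t) - g J t) * (N * t ^ (N - 1))) t :=
    (hd2.hasDerivAt.sub hd1.hasDerivAt).mul (hasDerivAt_pow N t)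
  have hN1 : t * ((N : ℂ) * t ^ (N - 1)) = N * t ^ N := by
    rcases Nat.eq_zero_or_pos N with h | h
    · rw [h]; simp
    · calc t * ((N : ℂ) * t ^ (N - 1)) = N * (t ^ (N - 1) * t) := by ring
        _ = N * t ^ N := by rw [← pow_succ, Nat.sub_add_cancel h]
  have hk0 : (k : ℂ) ≠ 0 := Nat.cast_ne_zero.2 (by omega)
  have hI : I ≠ 0 := I_ne_zero
  have hg1 : t * deriv (g J) t = -(3 * I * k) * DD (di k) (g J) t := by
    show _ = -(3 * I * k) * (deriv (g J) t / (-(3 * I * k) / t))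
    field_simp
  have hg2 : t * deriv (fun τ => g J (ω * τ)) t
      = -(3 * I * k) * DD (di k) (fun τ => g J (ω * τ)) t := by
    show _ = -(3 * I * k) * (deriv (fun τ => g J (ω * τ)) t / (-(3 * I * k) / t))
    field_simp
  have hH3 := hH2 t ht
  have e : ((J : ℤ) * (((2 : ℕ) : ℤ) * (3 * (k : ℤ))) + -(6 * (k : ℤ)) - (L : ℤ))
      = (N : ℤ) - L := by
    rw [hN]
    push_cast [Nat.cast_sub hJ]
    ring
  rw [e, zpow_sub₀ h0, zpow_natCast, zpow_natCast] at hH3
  have hL0 : t ^ L ≠ 0 := pow_ne_zero _ h0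
  have hH4 : (DD (di k) (g J) t - DD (di k) (fun τ => g J (ω * τ)) t) * t ^ N = t ^ L * H t := by
    rw [hA J hJ t ht, hA' J hJ t ht, ← hH3]
    field_simp
    ring
  have hev0 : G J (ω * t) - G J t = (g J (ω * t) - g J t) * t ^ N := hev.self_of_nhds
  rw [hev.deriv_eq, hder.deriv, hev0]
  linear_combination (3 * I * k) * hH4 + (t ^ N) * hg2 - (t ^ N) * hg1
    + (g J (ω * t) - g J t) * hN1

end H719FX
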