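import Pool.Agent.H719R4.FX.Cov
import Pool.Agent.H719R4.FX.ILIM

/-!
# IDB: the leading differences satisfy the linearised law (isotropic branches)
-/

open Complex Set Filter Topology

namespace H719FX

open H738CZ

/-! ## The operator `DD (di k)` -/

theorem IDB_rot1 (k : ℕ) (ω : ℂ) (f : ℂ → ℂ) :
    DD (di k) (fun x => f (ω * x)) = fun τ => (DD (di k) f) (ω * τ) := by
  funext τ
  show deriv (fun x => f (ω * x)) τ / (-(3 * I * k) / τ) = deriv f (ω * τ) / (-(3 * I * k) / (ω * τ))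
  rw [deriv_comp_mul_left, div_div_eq_mul_div, div_div_eq_mul_div, smul_eq_mul]
  ring

theorem IDB_rot (k : ℕ) (ω : ℂ) (l : ℕ) : ∀ (f : ℂ → ℂ) (τ : ℂ),
    ((DD (di k))^[l] f) (ω * τ) = ((DD (di k))^[l] (fun x => f (ω * x))) τ := by
  induction l with
  | zero => intro f τ; rfl
  | succ l ih =>
    intro f τ
    rw [Function.iterate_succ_apply, Function.iterate_succ_apply, ih (DD (di k) f) τ, IDB_rot1]

theorem IDB_cmul (k : ℕ) (c : ℂ) (l : ℕ) : ∀ (f : ℂ → ℂ) (τ : ℂ),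
    ((DD (di k))^[l] (fun x => c * f x)) τ = c * ((DD (di k))^[l] f) τ := by
  induction l with
  | zero => intro f τ; rfl
  | succ l ih =>
    intro f τ
    rw [Function.iterate_succ_apply, Function.iterate_succ_apply]
    have h : DD (di k) (fun x => c * f x) = fun x => c * DD (di k) f x := by
      funext x
      show deriv (fun x => c * f x) x / di k x = c * (deriv f x / di k x)
      rw [deriv_const_mul_field]
      ring
    rw [h, ih]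

theorem IDB_diff (k : ℕ) (hk : 1 ≤ k) (R : ℝ) (f : ℂ → ℂ) (hf : DifferentiableOn ℂ f (V3 R))
    (l : ℕ) : DifferentiableOn ℂ ((DD (di k))^[l] f) (V3 R) := by
  induction l with
  | zero => exact hf
  | succ l ih =>
    rw [Function.iterate_succ_apply']
    have hk0 : (k : ℂ) ≠ 0 := by rw [Nat.cast_ne_zero]; omega
    have hne : (-(3 * I * k) : ℂ) ≠ 0 :=
      neg_ne_zero.2 (mul_ne_zero (mul_ne_zero (by norm_num) I_ne_zero) hk0)
    refine (ih.deriv (ILIM_V3_open R)).div ?_ ?_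
    · exact (differentiableOn_const _).div differentiableOn_id (fun x hx => hx.2)
    · intro x hx
      exact div_ne_zero hne hx.2

theorem IDB_sub (k : ℕ) (hk : 1 ≤ k) (R : ℝ) (f f' : ℂ → ℂ) (hf : DifferentiableOn ℂ f (V3 R))
    (hf' : DifferentiableOn ℂ f' (V3 R)) (l : ℕ) : ∀ τ ∈ V3 R,
    ((DD (di k))^[l] (fun x => f x - f' x)) τ
      = ((DD (di k))^[l] f) τ - ((DD (di k))^[l] f') τ := by
  induction l with
  | zero => intro τ _; rfl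
  | succ l ih =>
    intro τ hτ
    rw [Function.iterate_succ_apply', Function.iterate_succ_apply', Function.iterate_succ_apply']
    show deriv ((DD (di k))^[l] (fun x => f x - f' x)) τ / di k τ =
      deriv ((DD (di k))^[l] f) τ / di k τ - deriv ((DD (di k))^[l] f') τ / di k τ
    have h1 : deriv ((DD (di k))^[l] (fun x => f x - f' x)) τ =
        deriv (fun x => ((DD (di k))^[l] f) x - ((DD (di k))^[l] f') x) τ := by
      apply Filter.EventuallyEq.deriv_eq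
      filter_upwards [(ILIM_V3_open R).mem_nhds hτ] with x hx using ih x hx
    have hd1 := (IDB_diff k hk R f hf l).differentiableAt ((ILIM_V3_open R).mem_nhds hτ)
    have hd2 := (IDB_diff k hk R f' hf' l).differentiableAt ((ILIM_V3_open R).mem_nhds hτ)
    rw [h1, deriv_fun_sub hd1 hd2, sub_div]

theorem IDB_Es_rot (k : ℕ) (ω : ℂ) (f : ℂ → ℂ) (τ : ℂ) :
    Es (di k) f (ω * τ) = Es (di k) (fun x => f (ω * x)) τ := by
  ext l
  simp only [Es, PowerSeries.coeff_mk, IDB_rot]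

theorem IDB_Es_cmul (k : ℕ) (c : ℂ) (f : ℂ → ℂ) (τ : ℂ) :
    Es (di k) (fun x => c * f x) τ = PowerSeries.C c * Es (di k) f τ := by
  ext l
  simp only [Es, PowerSeries.coeff_mk, IDB_cmul, PowerSeries.coeff_C_mul]
  ring

theorem IDB_Es_sub (k : ℕ) (hk : 1 ≤ k) (R : ℝ) (f f' : ℂ → ℂ)
    (hf : DifferentiableOn ℂ f (V3 R)) (hf' : DifferentiableOn ℂ f' (V3 R)) (τ : ℂ)
    (hτ : τ ∈ V3 R) :
    Es (di k) (fun x => f x - f' x) τ = Es (di k) f τ - Es (di k) f' τ := by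
  ext l
  rw [map_sub]
  simp only [Es, PowerSeries.coeff_mk]
  rw [IDB_sub k hk R f f' hf hf' l τ hτ]
  ring

theorem IDB_Ys_rot (k : ℕ) (ω : ℂ) (f : ℂ → ℂ) (τ : ℂ) :
    Ys kcs (di k) f (ω * τ) = Ys kcs (di k) (fun x => f (ω * x)) τ := by
  ext n
  simp only [Ys, PowerSeries.coeff_mk, IDB_rot]

theorem IDB_Ys_cmul (k : ℕ) (c : ℂ) (f : ℂ → ℂ) (τ : ℂ) :
    Ys kcs (di k) (fun x => c * f x) τ = PowerSeries.C c * Ys kcs (di k) f τ := by
  ext n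
  simp only [Ys, PowerSeries.coeff_mk, IDB_cmul, PowerSeries.coeff_C_mul]
  rw [← mul_div_assoc, Finset.mul_sum]
  congr 1
  refine Finset.sum_congr rfl fun l _ => ?_
  ring

theorem IDB_Ys_sub (k : ℕ) (hk : 1 ≤ k) (R : ℝ) (f f' : ℂ → ℂ)
    (hf : DifferentiableOn ℂ f (V3 R)) (hf' : DifferentiableOn ℂ f' (V3 R)) (τ : ℂ)
    (hτ : τ ∈ V3 R) :
    Ys kcs (di k) (fun x => f x - f' x) τ = Ys kcs (di k) f τ - Ys kcs (di k) f' τ := by
  ext n
  rw [map_sub]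
  simp only [Ys, PowerSeries.coeff_mk]
  rw [← sub_div, ← Finset.sum_sub_distrib]
  congr 1
  refine Finset.sum_congr rfl fun l _ => ?_
  rw [IDB_sub k hk R f f' hf hf' l τ hτ]
  ring

/-! ## Weighted limits -/

theorem IDB_Es (k : ℕ) (hk : 1 ≤ k) (R : ℝ) (hR : 0 < R) (f F : ℂ → ℂ) (w : ℤ) (ε : ℂ)
    (hF : DifferentiableOn ℂ F (Metric.ball 0 R))
    (h : ∀ τ ∈ V3 R, f τ = F τ * τ ^ (-w)) (hε : ε = -(I * w) / (3 * k)) :
    ILIM_PW (fun τ => Es (di k) f τ) w (PowerSeries.C (F 0) * expS ε) := by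
  intro l
  have h2 := (ILIM_lim k hk R hR f F w hF h l).div_const (l.factorial : ℂ)
  rw [← hε] at h2
  have e : PowerSeries.coeff l (PowerSeries.C (F 0) * expS ε)
      = ε ^ l * F 0 / (l.factorial : ℂ) := by
    rw [PowerSeries.coeff_C_mul, expS, PowerSeries.coeff_mk]
    ring
  rw [e]
  refine h2.congr fun τ => ?_
  simp only [Es, PowerSeries.coeff_mk]
  ring

theorem IDB_Ys (k : ℕ) (hk : 1 ≤ k) (R : ℝ) (hR : 0 < R) (f F : ℂ → ℂ) (w : ℤ) (ν : ℂ)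
    (hF : DifferentiableOn ℂ F (Metric.ball 0 R))
    (h : ∀ τ ∈ V3 R, f τ = F τ * τ ^ (-w)) (hν : I * ν = -(I * w) / (3 * k)) :
    ILIM_PW (fun τ => Ys kcs (di k) f τ) w (PowerSeries.C (F 0) * Ynu ν) := by
  intro n
  have hl := ILIM_lim k hk R hR f F w hF h
  rw [← hν] at hl
  have e : PowerSeries.coeff n (PowerSeries.C (F 0) * Ynu ν)
      = (∑ l ∈ Finset.range n, kcs (n - 1 - l) * ((I * ν) ^ l * F 0)) / (n.factorial : ℂ) := by
    rw [PowerSeries.coeff_C_mul, Ynu, PowerSeries.coeff_mk, ← mul_div_assoc, Finset.mul_sum]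
    congr 1
    refine Finset.sum_congr rfl fun l _ => ?_
    ring
  rw [e]
  have hs : Tendsto (fun τ : ℂ => (∑ l ∈ Finset.range n,
      kcs (n - 1 - l) * (((DD (di k))^[l] f) τ * τ ^ w)) / (n.factorial : ℂ)) (𝓝[≠] 0)
      (𝓝 ((∑ l ∈ Finset.range n, kcs (n - 1 - l) * ((I * ν) ^ l * F 0)) /
          (n.factorial : ℂ))) := by
    refine Tendsto.div_const ?_ _
    exact tendsto_finsetSum _ fun l _ => (hl l).const_mul (kcs (n - 1 - l))
  refine hs.congr fun τ => ?_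
  simp only [Ys, PowerSeries.coeff_mk]
  rw [div_mul_eq_mul_div, Finset.sum_mul]
  congr 1
  refine Finset.sum_congr rfl fun l _ => ?_
  ring

theorem IDB_add {A B : ℂ → PowerSeries ℂ} {w : ℤ} {a b : PowerSeries ℂ}
    (hA : ILIM_PW A w a) (hB : ILIM_PW B w b) : ILIM_PW (fun τ => A τ + B τ) w (a + b) := by
  intro n
  rw [map_add]
  refine ((hA n).add (hB n)).congr fun τ => ?_
  rw [map_add]
  ring

theorem IDB_sum (s : Finset ℕ) {A : ℕ → ℂ → PowerSeries ℂ} {w : ℤ} {a : ℕ → PowerSeries ℂ}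
    (hA : ∀ j ∈ s, ILIM_PW (A j) w (a j)) :
    ILIM_PW (fun τ => ∑ j ∈ s, A j τ) w (∑ j ∈ s, a j) := by
  intro n
  rw [map_sum]
  refine (tendsto_finsetSum s fun j hj => hA j hj n).congr fun τ => ?_
  rw [map_sum, Finset.sum_mul]

theorem IDB_cast {A : ℂ → PowerSeries ℂ} {w w' : ℤ} {a a' : PowerSeries ℂ}
    (hA : ILIM_PW A w a) (hw : w = w') (ha : a = a') : ILIM_PW A w' a' := by
  subst hw; subst ha; exact hA

/-! ## The rotated data -/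

theorem IDB_norm {k : ℕ} (hk : 1 ≤ k) {ω : ℂ} (h : ω ^ (6 * k) = 1) : ‖ω‖ = 1 :=
  Complex.norm_eq_one_of_pow_eq_one h (by omega)

theorem IDB_ball {k : ℕ} (hk : 1 ≤ k) {ω : ℂ} (h : ω ^ (6 * k) = 1) {R : ℝ} {τ : ℂ}
    (hτ : τ ∈ Metric.ball (0 : ℂ) R) : ω * τ ∈ Metric.ball (0 : ℂ) R := by
  rw [mem_ball_zero_iff] at hτ ⊢
  rw [norm_mul, IDB_norm hk h, one_mul]
  exact hτ

theorem IDB_V3 {k : ℕ} (hk : 1 ≤ k) {ω : ℂ} (h : ω ^ (6 * k) = 1) {R : ℝ} {τ : ℂ}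
    (hτ : τ ∈ V3 R) : ω * τ ∈ V3 R := by
  refine ⟨IDB_ball hk h hτ.1, ?_⟩
  have hω : ω ≠ 0 := by
    intro h0
    rw [h0, zero_pow (by omega)] at h
    exact zero_ne_one h
  exact mul_ne_zero hω hτ.2

/-- difference of the inverse powers -/
theorem IDB_alg (a b E G G' γ x : ℂ) (j : ℕ) (ha : a ≠ 0) (hb : b ≠ 0) (h1 : a - b = x * E)
    (h2 : G' - G = x * γ) :
    G' * (a⁻¹) ^ j - G * (b⁻¹) ^ j = x * (γ * (a⁻¹) ^ j - G * (E *
      (∑ i ∈ Finset.range j, a ^ i * b ^ (j - 1 - i)) * ((a⁻¹) ^ j * (b⁻¹) ^ j))) := by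
  have h3 : (∑ i ∈ Finset.range j, a ^ i * b ^ (j - 1 - i)) * (a - b) = a ^ j - b ^ j :=
    (Commute.all a b).geom_sum₂_mul j
  have h4 : a ^ j * (a⁻¹) ^ j = 1 := by rw [← mul_pow, mul_inv_cancel₀ ha, one_pow]
  have h5 : b ^ j * (b⁻¹) ^ j = 1 := by rw [← mul_pow, mul_inv_cancel₀ hb, one_pow]
  generalize hS : (∑ i ∈ Finset.range j, a ^ i * b ^ (j - 1 - i)) = S at *
  generalize (a⁻¹) ^ j = A at *
  generalize (b⁻¹) ^ j = B at *
  have h6 : x * E * S = a ^ j - b ^ j := by rw [← h1, ← h3]; ring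
  have h7 : x * (γ * A - G * (E * S * (A * B))) = (G' - G) * A - G * ((a ^ j - b ^ j) * (A * B)) := by
    rw [h2, ← h6]; ring
  rw [h7]
  linear_combination (G * B) * h4 - (G * A) * h5

/-- the coefficient functions in weighted form -/
theorem IDB_form {k : ℕ} (hk : 1 ≤ k) {u : ℂ → ℂ} {R : ℝ} (hu : UI u R) (g : ℕ → ℂ → ℂ)
    (G : ℂ → ℂ) (j : ℕ) (hj : 1 ≤ j) (hP : PolI k k R g j G) (τ : ℂ) (hτ : τ ∈ V3 R) :
    g j τ * ((ri k k u τ)⁻¹) ^ j = (G τ * ((u (τ ^ 6))⁻¹) ^ j) *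
      τ ^ (-(3 * (k : ℤ) * (3 * j - 2))) := by
  have hτ0 : τ ≠ 0 := hτ.2
  have hun : u (τ ^ 6) ≠ 0 := hu.nz _ (ILIM_six hτ.1)
  have hg := hP.2 τ hτ
  rw [← hg, ri]
  have e : τ ^ (-(3 * (k : ℤ) * (3 * j - 2)))
      = (τ ^ ((4 * k + 2 * k) * (j - 1)))⁻¹ * ((τ ^ (2 * k + k))⁻¹) ^ j := by
    rw [inv_pow, ← pow_mul, ← zpow_natCast τ, ← zpow_natCast τ,
      ← zpow_neg, ← zpow_neg, ← zpow_add₀ hτ0]
    congr 1
    push_cast [Nat.cast_sub hj]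
    ring
  rw [e, mul_inv, mul_pow]
  have hp : τ ^ ((4 * k + 2 * k) * (j - 1)) ≠ 0 := pow_ne_zero _ hτ0
  field_simp

theorem IDB_formO {k : ℕ} (hk : 1 ≤ k) {u : ℂ → ℂ} {R : ℝ} (hu : UI u R) (g : ℕ → ℂ → ℂ)
    (G : ℂ → ℂ) (j : ℕ) (hj : 1 ≤ j) (hP : PolI k k R g j G) (ω : ℂ) (hω : ω ^ (6 * k) = 1)
    (τ : ℂ) (hτ : τ ∈ V3 R) :
    (ω ^ (3 * k)) ^ j * (g j (ω * τ) * ((ri k k u (ω * τ))⁻¹) ^ j) =
      (G (ω * τ) * ((u ((ω * τ) ^ 6))⁻¹) ^ j) * τ ^ (-(3 * (k : ℤ) * (3 * j - 2))) := by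
  have hω0 : ω ≠ 0 := by
    intro h0
    rw [h0, zero_pow (by omega)] at hω
    exact zero_ne_one hω
  rw [IDB_form hk hu g G j hj hP (ω * τ) (IDB_V3 hk hω hτ), mul_zpow]
  have e1 : (ω ^ (3 * k)) ^ j * ω ^ (-(3 * (k : ℤ) * (3 * j - 2))) = 1 := by
    rw [← pow_mul, ← zpow_natCast ω, ← zpow_add₀ hω0]
    have e2 : ((3 * k * j : ℕ) : ℤ) + -(3 * (k : ℤ) * (3 * j - 2)) = ((6 * k : ℕ) : ℤ) * (1 - j) := by
      push_cast; ring
    rw [e2, zpow_mul, zpow_natCast, hω, one_zpow]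
  calc _ = ((ω ^ (3 * k)) ^ j * ω ^ (-(3 * (k : ℤ) * (3 * j - 2)))) *
        (G (ω * τ) * ((u ((ω * τ) ^ 6))⁻¹) ^ j * τ ^ (-(3 * (k : ℤ) * (3 * j - 2)))) := by ring
    _ = _ := by rw [e1, one_mul]

theorem tIDB : StIDB := by
  intro k u R hk hu g G hFI hP hG0 ω L e γ hD J hJ
  have hk0 : (k : ℂ) ≠ 0 := by rw [Nat.cast_ne_zero]; omega
  have hR := hu.pos
  have hω := hD.om
  have hω0 : ω ≠ 0 := by
    intro h0
    rw [h0, zero_pow (by omega)] at hω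
    exact zero_ne_one hω
  have hs2 : ω ^ (3 * k) * ω ^ (3 * k) = 1 := by
    rw [← pow_add, ← hω]; congr 1; ring
  have h0b : (0 : ℂ) ∈ Metric.ball (0 : ℂ) R := Metric.mem_ball_self hR
  have hbd : DifferentiableOn ℂ (fun τ => u (τ ^ 6)) (Metric.ball 0 R) := ILIM_du hu
  have had : DifferentiableOn ℂ (fun τ => u ((ω * τ) ^ 6)) (Metric.ball 0 R) :=
    hbd.comp ((differentiableOn_const _).mul differentiableOn_id) fun _ hτ => IDB_ball hk hω hτ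
  have hbn : ∀ τ ∈ Metric.ball (0 : ℂ) R, u (τ ^ 6) ≠ 0 := fun τ hτ => hu.nz _ (ILIM_six hτ)
  have han : ∀ τ ∈ Metric.ball (0 : ℂ) R, u ((ω * τ) ^ 6) ≠ 0 :=
    fun τ hτ => hbn _ (IDB_ball hk hω hτ)
  have hab : ∀ τ ∈ Metric.ball (0 : ℂ) R, u ((ω * τ) ^ 6) - u (τ ^ 6) = τ ^ L * e τ := hD.eq
  have hb0 : u ((0 : ℂ) ^ 6) = u 0 := by rw [zero_pow (by norm_num)]
  have ha0 : u ((ω * 0) ^ 6) = u 0 := by rw [mul_zero, zero_pow (by norm_num)]
  have hu0 : u 0 ≠ 0 := by rw [← hb0]; exact hbn 0 h0b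
  -- the functions
  set h : ℕ → ℂ → ℂ := fun j x => g j x * ((ri k k u x)⁻¹) ^ j with hh
  set hO : ℕ → ℂ → ℂ := fun j x => (ω ^ (3 * k)) ^ j *
    (g j (ω * x) * ((ri k k u (ω * x))⁻¹) ^ j) with hhO
  set ρO : ℂ → ℂ := fun x => ω ^ (3 * k) * ρi k k u (ω * x) with hρO
  set Δ : ℕ → ℂ → ℂ := fun j τ => γ j τ * ((u ((ω * τ) ^ 6))⁻¹) ^ j - G j τ * (e τ *
      (∑ i ∈ Finset.range j, u ((ω * τ) ^ 6) ^ i * u (τ ^ 6) ^ (j - 1 - i)) *
      (((u ((ω * τ) ^ 6))⁻¹) ^ j * ((u (τ ^ 6))⁻¹) ^ j)) with hΔ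
  -- differentiability
  have hhd : ∀ j, 1 ≤ j → DifferentiableOn ℂ (h j) (V3 R) := fun j hj =>
    (hFI.gd j hj).mul ((hFI.base.rd.inv hFI.base.rn).pow j)
  have hmap : MapsTo (fun x : ℂ => ω * x) (V3 R) (V3 R) := fun x hx => IDB_V3 hk hω hx
  have hωd : DifferentiableOn ℂ (fun x : ℂ => ω * x) (V3 R) :=
    (differentiableOn_const _).mul differentiableOn_id
  have hhOd : ∀ j, 1 ≤ j → DifferentiableOn ℂ (hO j) (V3 R) := fun j hj =>
    (differentiableOn_const _).mul ((hhd j hj).comp hωd hmap)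
  have hρd : DifferentiableOn ℂ (ρi k k u) (V3 R) := by
    have h1 : DifferentiableOn ℂ (fun x => ri k k u x ^ 3) (V3 R) := hFI.base.rd.pow 3
    exact h1
  have hρOd : DifferentiableOn ℂ ρO (V3 R) :=
    (differentiableOn_const _).mul (hρd.comp hωd hmap)
  have hΔd : ∀ j, 1 ≤ j → DifferentiableOn ℂ (Δ j) (Metric.ball 0 R) := by
    intro j hj
    refine ((hD.dγ j hj).mul ((had.inv han).pow j)).sub ((hP j hj).1.mul
      ((hD.de.mul ?_).mul (((had.inv han).pow j).mul ((hbd.inv hbn).pow j))))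
    exact DifferentiableOn.fun_sum fun i _ => (had.pow i).mul (hbd.pow (j - 1 - i))
  -- weighted forms
  have fδ : ∀ j, 1 ≤ j → ∀ τ ∈ V3 R, hO j τ - h j τ =
      Δ j τ * τ ^ (-(3 * (k : ℤ) * (3 * j - 2) - L)) := by
    intro j hj τ hτ
    have hτ0 : τ ≠ 0 := hτ.2
    have e1 : hO j τ = _ := IDB_formO hk hu g (G j) j hj (hP j hj) ω hω τ hτ
    have e2 : h j τ = _ := IDB_form hk hu g (G j) j hj (hP j hj) τ hτ
    rw [e1, e2, ← sub_mul, IDB_alg _ _ (e τ) (G j τ) (G j (ω * τ)) (γ j τ) (τ ^ L) j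
      (han τ hτ.1) (hbn τ hτ.1) (hab τ hτ.1) (hD.Gγ j hj τ hτ.1)]
    have e3 : τ ^ (-(3 * (k : ℤ) * (3 * j - 2) - L)) =
        τ ^ L * τ ^ (-(3 * (k : ℤ) * (3 * j - 2))) := by
      rw [← zpow_natCast τ L, ← zpow_add₀ hτ0]; congr 1; ring
    rw [e3]
    ring
  have fρ : ∀ τ ∈ V3 R, ρi k k u τ = u (τ ^ 6) ^ 3 * τ ^ (-(-(9 * (k : ℤ)))) := by
    intro τ hτ
    have e1 : τ ^ (-(-(9 * (k : ℤ)))) = (τ ^ (2 * k + k)) ^ 3 := by
      rw [← pow_mul, ← zpow_natCast τ]; congr 1; push_cast; ring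
    rw [ρi, ri, e1, mul_pow]; ring
  have fρO : ∀ τ ∈ V3 R, ρO τ = u ((ω * τ) ^ 6) ^ 3 * τ ^ (-(-(9 * (k : ℤ)))) := by
    intro τ hτ
    have e1 : τ ^ (-(-(9 * (k : ℤ)))) = (τ ^ (3 * k)) ^ 3 := by
      rw [← pow_mul, ← zpow_natCast τ]; congr 1; push_cast; ring
    have e2 : (ω * τ) ^ (2 * k + k) = ω ^ (3 * k) * τ ^ (3 * k) := by
      rw [← mul_pow]; congr 1; ring
    show ω ^ (3 * k) * ρi k k u (ω * τ) = _
    rw [ρi, ri, e1, e2]
    linear_combination (u ((ω * τ) ^ 6) ^ 3 * (τ ^ (3 * k)) ^ 3 *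
      (1 + ω ^ (3 * k) * ω ^ (3 * k))) * hs2
  have fδρ : ∀ τ ∈ V3 R, ρO τ - ρi k k u τ = (e τ * (u ((ω * τ) ^ 6) ^ 2 +
      u ((ω * τ) ^ 6) * u (τ ^ 6) + u (τ ^ 6) ^ 2)) * τ ^ (-(-(9 * (k : ℤ) + L))) := by
    intro τ hτ
    have hτ0 : τ ≠ 0 := hτ.2
    rw [fρ τ hτ, fρO τ hτ]
    have e3 : τ ^ (-(-(9 * (k : ℤ) + L))) = τ ^ L * τ ^ (-(-(9 * (k : ℤ)))) := by
      rw [← zpow_natCast τ L, ← zpow_add₀ hτ0]; congr 1; ring
    rw [e3]
    have e4 := hab τ hτ.1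
    linear_combination (τ ^ (-(-(9 * (k : ℤ)))) * (u ((ω * τ) ^ 6) ^ 2 +
      u ((ω * τ) ^ 6) * u (τ ^ 6) + u (τ ^ 6) ^ 2)) * e4
  -- the values at `0`
  have hG10 : G 1 0 = 2 := by
    have h1 : Tendsto (G 1) (𝓝[≠] 0) (𝓝 (G 1 0)) :=
      (((hP 1 le_rfl).1.differentiableAt (Metric.isOpen_ball.mem_nhds h0b)).continuousAt.tendsto).mono_left
        nhdsWithin_le_nhds
    have h2 : Tendsto (G 1) (𝓝[≠] 0) (𝓝 2) := by
      refine tendsto_const_nhds.congr' ?_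
      filter_upwards [ILIM_V3_nhds hR] with τ hτ
      rw [← (hP 1 le_rfl).2 τ hτ, hFI.one τ hτ]
      simp
    exact tendsto_nhds_unique h1 h2
  have hγ10 : γ 1 0 = 0 := by
    have h1 : Tendsto (γ 1) (𝓝[≠] 0) (𝓝 (γ 1 0)) :=
      (((hD.dγ 1 le_rfl).differentiableAt (Metric.isOpen_ball.mem_nhds h0b)).continuousAt.tendsto).mono_left
        nhdsWithin_le_nhds
    have h2 : Tendsto (γ 1) (𝓝[≠] 0) (𝓝 0) := by
      refine tendsto_const_nhds.congr' ?_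
      filter_upwards [ILIM_V3_nhds hR] with τ hτ
      have e1 := hD.Gγ 1 le_rfl τ hτ.1
      have e2 : G 1 (ω * τ) = 2 := by
        rw [← (hP 1 le_rfl).2 _ (IDB_V3 hk hω hτ), hFI.one _ (IDB_V3 hk hω hτ)]; simp
      have e3 : G 1 τ = 2 := by
        rw [← (hP 1 le_rfl).2 _ hτ, hFI.one _ hτ]; simp
      rw [e2, e3, sub_self] at e1
      exact ((mul_eq_zero.1 e1.symm).resolve_left (pow_ne_zero _ hτ.2)).symm
    exact tendsto_nhds_unique h1 h2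
  -- weighted limits
  set σ : ℂ := (L : ℂ) / (6 * k) with hσ
  set Y3 : PowerSeries ℂ := PowerSeries.C (u 0 ^ 3) * Ynu 3 with hY3
  have pY : ILIM_PW (fun τ => Ys kcs (di k) (ρi k k u) τ) (-(9 * (k : ℤ))) Y3 := by
    refine IDB_cast (IDB_Ys k hk R hR _ (fun τ => u (τ ^ 6) ^ 3) _ 3 (hbd.pow 3) fρ ?_) rfl ?_
    · push_cast; field_simp; ring
    · rw [hb0]
  have pYO : ILIM_PW (fun τ => Ys kcs (di k) ρO τ) (-(9 * (k : ℤ))) Y3 := by
    refine IDB_cast (IDB_Ys k hk R hR _ (fun τ => u ((ω * τ) ^ 6) ^ 3) _ 3 (had.pow 3) fρO ?_) rfl ?_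
    · push_cast; field_simp; ring
    · rw [ha0]
  have pδρ : ILIM_PW (fun τ => Ys kcs (di k) (fun x => ρO x - ρi k k u x) τ)
      (-(9 * (k : ℤ) + L)) (PowerSeries.C (3 * u 0 ^ 2 * e 0) * Ynu (3 + 2 * σ)) := by
    refine IDB_cast (IDB_Ys k hk R hR _ (fun τ => e τ * (u ((ω * τ) ^ 6) ^ 2 +
      u ((ω * τ) ^ 6) * u (τ ^ 6) + u (τ ^ 6) ^ 2)) _ (3 + 2 * σ)
      (hD.de.mul (((had.pow 2).add (had.mul hbd)).add (hbd.pow 2))) fδρ ?_) rfl ?_
    · rw [hσ]; push_cast; field_simp; ring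
    · congr 2
      rw [ha0, hb0]; ring
  have ph : ∀ j, 1 ≤ j → ILIM_PW (fun τ => Es (di k) (h j) τ) (3 * (k : ℤ) * (3 * j - 2))
      (PowerSeries.C (G j 0 * ((u 0)⁻¹) ^ j) * expS (I * (2 - 3 * j))) := by
    intro j hj
    refine IDB_cast (IDB_Es k hk R hR (h j) (fun τ => G j τ * ((u (τ ^ 6))⁻¹) ^ j) _
      (I * (2 - 3 * j))
      ((hP j hj).1.mul ((hbd.inv hbn).pow j)) (fun τ hτ => IDB_form hk hu g (G j) j hj (hP j hj)
        τ hτ) ?_) rfl ?_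
    · push_cast; field_simp; ring
    · rw [hb0]
  have pδ : ∀ j, 1 ≤ j → ILIM_PW (fun τ => Es (di k) (fun x => hO j x - h j x) τ)
      (3 * (k : ℤ) * (3 * j - 2) - L)
      (PowerSeries.C (Δ j 0) * expS (I * (2 * σ + 2 - 3 * j))) := by
    intro j hj
    refine IDB_Es k hk R hR _ (Δ j) _ _ (hΔd j hj) (fδ j hj) ?_
    rw [hσ]; push_cast; field_simp; ring
  -- the terms
  set A : ℕ → ℂ → PowerSeries ℂ := fun j τ =>
    Es (di k) (fun x => hO j x - h j x) τ * Ys kcs (di k) ρO τ ^ j +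
    Es (di k) (h j) τ * (Ys kcs (di k) (fun x => ρO x - ρi k k u x) τ *
      ∑ i ∈ Finset.range j, Ys kcs (di k) ρO τ ^ i * Ys kcs (di k) (ρi k k u) τ ^ (j - 1 - i))
    with hA
  set B : ℕ → PowerSeries ℂ := fun j =>
    (PowerSeries.C (Δ j 0) * expS (I * (2 * σ + 2 - 3 * j))) * Y3 ^ j +
    (PowerSeries.C (G j 0 * ((u 0)⁻¹) ^ j) * expS (I * (2 - 3 * j))) *
      ((PowerSeries.C (3 * u 0 ^ 2 * e 0) * Ynu (3 + 2 * σ)) *
      ∑ i ∈ Finset.range j, Y3 ^ i * Y3 ^ (j - 1 - i)) with hB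
  have pA : ∀ j ∈ Finset.Icc 1 J, ILIM_PW (A j) (-(6 * (k : ℤ) + L)) (B j) := by
    intro j hj
    have hj1 : 1 ≤ j := (Finset.mem_Icc.1 hj).1
    refine IDB_add (IDB_cast (ILIM_mul (pδ j hj1) (ILIM_pow pYO j)) ?_ rfl)
      (IDB_cast (ILIM_mul (ph j hj1) (ILIM_mul pδρ (IDB_sum (Finset.range j)
        (w := ((j : ℤ) - 1) * (-(9 * (k : ℤ))))
        (fun i hi => IDB_cast (ILIM_mul (ILIM_pow pYO i) (ILIM_pow pY (j - 1 - i))) ?_ rfl)))) ?_ rfl)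
    · ring
    · have hi' := Finset.mem_range.1 hi
      have e1 : ((j - 1 - i : ℕ) : ℤ) = (j : ℤ) - 1 - i := by omega
      rw [e1]; ring
    · ring
  have pS := IDB_sum (Finset.Icc 1 J) pA (2 * J + 1)
  -- the law
  have hzero : ∀ τ ∈ V3 R, PowerSeries.coeff (2 * J + 1) (∑ j ∈ Finset.Icc 1 J, A j τ) = 0 := by
    intro τ hτ
    have l1 := hFI.law J hJ τ hτ
    have l2 := hFI.law J hJ (ω * τ) (IDB_V3 hk hω hτ)
    rw [Cf] at l1 l2
    have e1 : ∑ j ∈ Finset.Icc 1 J, A j τ =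
        ∑ j ∈ Finset.Icc 1 J, Tm kcs (di k) (ρi k k u) (ri k k u) g j (ω * τ) -
        ∑ j ∈ Finset.Icc 1 J, Tm kcs (di k) (ρi k k u) (ri k k u) g j τ := by
      rw [← Finset.sum_sub_distrib]
      refine Finset.sum_congr rfl fun j hj => ?_
      have hj1 : 1 ≤ j := (Finset.mem_Icc.1 hj).1
      have e2 : Tm kcs (di k) (ρi k k u) (ri k k u) g j (ω * τ) =
          Es (di k) (hO j) τ * Ys kcs (di k) ρO τ ^ j := by
        have e3 : Es (di k) (hO j) τ = PowerSeries.C ((ω ^ (3 * k)) ^ j) *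
            Es (di k) (h j) (ω * τ) := by
          rw [IDB_Es_rot, ← IDB_Es_cmul]
        have e4 : Ys kcs (di k) ρO τ = PowerSeries.C (ω ^ (3 * k)) *
            Ys kcs (di k) (ρi k k u) (ω * τ) := by
          rw [IDB_Ys_rot, ← IDB_Ys_cmul]
        have e5 : PowerSeries.C ((ω ^ (3 * k)) ^ j) * (PowerSeries.C (ω ^ (3 * k))) ^ j
            = (1 : PowerSeries ℂ) := by
          rw [← map_pow, ← map_mul, ← mul_pow, hs2, one_pow, map_one]
        rw [e3, e4, Tm, mul_pow]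
        calc _ = 1 * (Es (di k) (h j) (ω * τ) * Ys kcs (di k) (ρi k k u) (ω * τ) ^ j) := by
              rw [one_mul]
          _ = _ := by rw [← e5]; ring
      rw [e2, Tm]
      have e6 : Es (di k) (fun x => hO j x - h j x) τ = Es (di k) (hO j) τ - Es (di k) (h j) τ :=
        IDB_Es_sub k hk R (hO j) (h j) (hhOd j hj1) (hhd j hj1) τ hτ
      have e7 : Ys kcs (di k) (fun x => ρO x - ρi k k u x) τ =
          Ys kcs (di k) ρO τ - Ys kcs (di k) (ρi k k u) τ :=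
        IDB_Ys_sub k hk R ρO (ρi k k u) hρOd hρd τ hτ
      have e8 := (Commute.all (Ys kcs (di k) ρO τ) (Ys kcs (di k) (ρi k k u) τ)).geom_sum₂_mul j
      show Es (di k) (fun x => hO j x - h j x) τ * Ys kcs (di k) ρO τ ^ j +
        Es (di k) (h j) τ * (Ys kcs (di k) (fun x => ρO x - ρi k k u x) τ *
        ∑ i ∈ Finset.range j, Ys kcs (di k) ρO τ ^ i * Ys kcs (di k) (ρi k k u) τ ^ (j - 1 - i)) =
        Es (di k) (hO j) τ * Ys kcs (di k) ρO τ ^ j -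
          Es (di k) (h j) τ * Ys kcs (di k) (ρi k k u) τ ^ j
      rw [e6, e7]
      linear_combination (Es (di k) (h j) τ) * e8
    rw [e1, map_sub, l1, l2, sub_self]
  have hlim : PowerSeries.coeff (2 * J + 1) (∑ j ∈ Finset.Icc 1 J, B j) = 0 := by
    refine tendsto_nhds_unique pS ?_
    refine tendsto_const_nhds.congr' ?_
    filter_upwards [ILIM_V3_nhds hR] with τ hτ
    rw [hzero τ hτ, zero_mul]
  -- conclusion
  have hB1 : B 1 = PowerSeries.C (-(2 * e 0 / u 0 ^ 2)) * expS (I * (2 * σ - 1)) *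
      (PowerSeries.C (u 0 ^ 3) * Ynu 3) +
      PowerSeries.C (6 * u 0 * e 0) * expS (-I) * Ynu (3 + 2 * σ) := by
    have d1 : Δ 1 0 = -(2 * e 0 / u 0 ^ 2) := by
      simp only [hΔ, ha0, hb0, hγ10, hG10, Finset.sum_range_one]
      field_simp
      simp
    have d2 : PowerSeries.C (G 1 0 * ((u 0)⁻¹) ^ 1) * PowerSeries.C (3 * u 0 ^ 2 * e 0) =
        PowerSeries.C (6 * u 0 * e 0) := by
      rw [← map_mul, hG10]
      congr 1
      field_simp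
      ring
    have d3 : (I * (2 * σ + 2 - 3 * ((1 : ℕ) : ℂ))) = I * (2 * σ - 1) := by push_cast; ring
    have d4 : (I * (2 - 3 * ((1 : ℕ) : ℂ))) = -I := by push_cast; ring
    simp only [hB, d1, d3, d4, Finset.sum_range_one, pow_one, hY3]
    rw [← d2]
    simp only [pow_one, Nat.sub_self, pow_zero, mul_one, Nat.sub_zero]
    ring
  have hBj : ∀ j ∈ Finset.Icc 2 J, B j = PowerSeries.C (γ j 0 * ((u 0)⁻¹) ^ j) *
      expS (I * (2 * σ + 2 - 3 * j)) * (PowerSeries.C (u 0 ^ 3) * Ynu 3) ^ j := by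
    intro j hj
    have hj2 : 2 ≤ j := (Finset.mem_Icc.1 hj).1
    have d1 : Δ j 0 = γ j 0 * ((u 0)⁻¹) ^ j := by
      simp only [hΔ, ha0, hG0 j hj2, zero_mul, sub_zero]
    simp only [hB, d1, hG0 j hj2, zero_mul, map_zero, add_zero, hY3]
  have hsplit : Finset.Icc 1 J = insert 1 (Finset.Icc 2 J) := by
    ext x
    simp only [Finset.mem_insert, Finset.mem_Icc]
    omega
  rw [hsplit, Finset.sum_insert (by simp), hB1, Finset.sum_congr rfl hBj] at hlim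
  refine Eq.trans (congrArg _ ?_) hlim
  ring

end H719FX
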