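import Pool.Agent.H719R4.FX.Cov

/-! Task IEX (helper553): assembly for isotropic branches. -/

open Complex Set Filter Topology

namespace H719FX

open H738CZ

theorem IEX_norm {n : ℕ} (hn : n ≠ 0) {ω : ℂ} (h : ω ^ n = 1) : ‖ω‖ = 1 := by
  have h1 : ‖ω‖ ^ n = 1 := by rw [← norm_pow, h, norm_one]
  exact (pow_eq_one_iff_of_nonneg (norm_nonneg _) hn).1 h1

theorem tIEX (hIINT : StIINT) (hIEXT : StIEXT) (hIPRV : StIPRV) (hILIM : StILIM) (hIML : StIML)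
    (hIDA : StIDA) (hIDB : StIDB) (hNCB : StNCB) (hIRL : StIRL) (hIBT : StIBT) (hITN : StITN)
    (hDCK : StDCK) : StIEX := by
  intro k v R ρ Ψ s1 hk1 hUI hs1 hs10 hΨ hfac hgood ω0 hω0 
  by_contra hcon
  have hR : 0 < R := hUI.pos
  have hR6 : 0 < R ^ 6 := by positivity
  obtain ⟨om, τ1, η, g, hom, hη, hsub, hFI, hSG⟩ :=
    hIINT k k v R ρ Ψ s1 hk1 hk1 hUI hs1 hs10 hΨ hfac hgood
  obtain ⟨u, hu⟩ : ∃ u : ℂ → ℂ, u = fun z => om * v z := ⟨_, rfl⟩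
  rw [← hu] at hFI
  have hUI' : UI u R := by
    rw [hu]
    exact ⟨hUI.pos, hUI.df.const_mul om, fun z hz => mul_ne_zero hom (hUI.nz z hz)⟩
  obtain ⟨g', hFI', heq, G, hG⟩ := hIEXT k k u R hk1 hk1 hUI' g τ1 η hη hsub hFI
  have hSG' : SG g' (Metric.ball τ1 η) := by
    obtain ⟨C, s, h1, h2, h3, h4⟩ := hSG
    refine ⟨C, s, h1, h2, h3, fun j hj t ht => ?_⟩
    rw [heq j hj ht]
    exact h4 j hj t ht
  have hprv := hIPRV k k u R hk1 hk1 hUI' g' hFI' τ1 η hη hsub hSG'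
  have hlaw := hILIM k k u R hk1 hk1 hUI' g' G hFI' hG
  have hυ : u 0 ≠ 0 := hUI'.nz 0 (Metric.mem_ball_self hR6)
  have hG0 : ∀ j, 2 ≤ j → G j 0 = 0 := by
    intro j hj
    have h1 : G j 0 * ((u 0)⁻¹) ^ j = 0 := hIML k (u 0) _ hk1 hυ hlaw j hj
    exact (mul_eq_zero.1 h1).resolve_right (pow_ne_zero _ (inv_ne_zero hυ))
  have hcon' : ¬ ∀ z ∈ Metric.ball (0 : ℂ) (R ^ 6), u (ω0 * z) = u z := by
    intro h
    apply hcon
    intro z hz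
    have h1 := h z hz
    rw [hu] at h1
    exact mul_left_cancel₀ hom h1
  obtain ⟨ω, L, e, hω, hL1, hL, hde, he0, hee⟩ :=
    hDCK 6 k u R ω0 (by norm_num) hk1 hR hUI'.df hω0 hcon'
  have hγ := hIDA k u R hk1 hUI' g' G hFI' hG ω L e hω hL1 hde hee
  choose! γ hγ1 hγ2 using hγ
  have hDk : Dk 6 k u R G ω L e γ := ⟨hω, hL1, hde, hee, hγ1, hγ2⟩
  have hlin := hIDB k u R hk1 hUI' g' G hFI' hG hG0 ω L e γ hDk
  obtain ⟨C, s, hC, hs0, hs1', hbd⟩ := hNCB (4 * k + 2 * k) R g' G γ ω L hR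
    (IEX_norm (by omega) hω) hprv (fun j hj => hG j hj) (fun j hj => ⟨hγ1 j hj, hγ2 j hj⟩)
  -- the exponent
  obtain ⟨σ, hσ⟩ : ∃ σ : ℝ, σ = (L : ℝ) / (6 * k) := ⟨_, rfl⟩
  have hk0 : (0 : ℝ) < k := by exact_mod_cast hk1
  have hL0 : (0 : ℝ) < L := by exact_mod_cast hL1
  have hσ0 : 0 < σ := by rw [hσ]; positivity
  have hσc : ((L : ℂ) / (6 * k)) = ((σ : ℝ) : ℂ) := by rw [hσ]; push_cast; rfl
  have hσn : ∀ n : ℕ, σ ≠ n := by
    intro n hn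
    apply hL
    rw [hσ, div_eq_iff (by positivity)] at hn
    have : L = n * (6 * k) := by exact_mod_cast hn
    exact ⟨n, by rw [this]; ring⟩
  rw [hσc] at hlin
  have hstar := hIRL σ (u 0) (e 0) (fun j => γ j 0) hσ0 hυ hlin
  have h1σ : (1 + (σ : ℂ)) ≠ 0 := by
    have : (0 : ℝ) < 1 + σ := by linarith
    exact_mod_cast this.ne'
  have h2σ : (2 + (σ : ℂ)) ≠ 0 := by
    have : (0 : ℝ) < 2 + σ := by linarith
    exact_mod_cast this.ne'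
  have hc2 : 3 * u 0 * e 0 / (2 * (1 + (σ : ℂ)) * (2 + σ)) ≠ 0 :=
    div_ne_zero (mul_ne_zero (mul_ne_zero three_ne_zero hυ) he0)
      (mul_ne_zero (mul_ne_zero two_ne_zero h1σ) h2σ)
  refine hITN σ hσ0 hσn (hIBT σ _ _ hσ0 hσn hc2 hstar ?_)
  refine ⟨max 1 (max (C * ‖u 0 ^ 2 / 8‖) ‖e 0 * u 0 / 4‖), s, le_max_left _ _, hs0, hs1',
    fun j hj => ?_⟩
  have hfac1 : (1 : ℝ) ≤ ((2 * j).factorial : ℝ) ^ s := by
    apply Real.one_le_rpow _ hs0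
    exact_mod_cast Nat.factorial_pos _
  by_cases h1 : j = 1
  · subst h1
    have e1 : fst σ (u 0) (e 0) (fun j => γ j 0) 1 = e 0 * u 0 / 4 := by
      unfold fst
      simp
    rw [e1]
    calc ‖e 0 * u 0 / 4‖ ≤ max 1 (max (C * ‖u 0 ^ 2 / 8‖) ‖e 0 * u 0 / 4‖) :=
          (le_max_right _ _).trans (le_max_right _ _)
      _ = (max 1 (max (C * ‖u 0 ^ 2 / 8‖) ‖e 0 * u 0 / 4‖)) ^ 1 * 1 := by ring
      _ ≤ _ := mul_le_mul_of_nonneg_left hfac1 (by positivity)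
  · have e1 : fst σ (u 0) (e 0) (fun j => γ j 0) j = γ j 0 * (-(u 0 ^ 2 / 8)) ^ j := by
      unfold fst
      rw [if_neg (by omega), if_neg h1]
    have e2 : ‖γ j 0 * (-(u 0 ^ 2 / 8)) ^ j‖ = ‖γ j 0‖ * ‖u 0 ^ 2 / 8‖ ^ j := by
      rw [norm_mul, norm_pow, norm_neg]
    rw [e1, e2]
    calc ‖γ j 0‖ * ‖u 0 ^ 2 / 8‖ ^ j
        ≤ (C ^ j * ((2 * j).factorial : ℝ) ^ s) * ‖u 0 ^ 2 / 8‖ ^ j :=
          mul_le_mul_of_nonneg_right (hbd j hj) (by positivity)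
      _ = (C * ‖u 0 ^ 2 / 8‖) ^ j * ((2 * j).factorial : ℝ) ^ s := by
          rw [mul_pow]; ring
      _ ≤ (max 1 (max (C * ‖u 0 ^ 2 / 8‖) ‖e 0 * u 0 / 4‖)) ^ j *
          ((2 * j).factorial : ℝ) ^ s := by
          apply mul_le_mul_of_nonneg_right _ (by positivity)
          exact pow_le_pow_left₀ (by positivity) ((le_max_left _ _).trans (le_max_right _ _)) _

end H719FX
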