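import Pool.Agent.H719R4.FX.Cov

/-!
# IML: the isotropic model law for `p = k` is trivial (helper202)
-/

open Complex Set Filter Topology

namespace H719FX

open H738CZ

namespace IML

theorem expS_eq (e : ℂ) : expS e = PowerSeries.rescale e (PowerSeries.exp ℂ) := by
  ext n
  simp [expS, PowerSeries.coeff_rescale, PowerSeries.coeff_exp, div_eq_mul_inv]

theorem expS_mul (a b : ℂ) : expS a * expS b = expS (a + b) := by
  rw [expS_eq, expS_eq, expS_eq, PowerSeries.exp_mul_exp_eq_exp_add]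

theorem kcs_two (m : ℕ) : kcs (m + 2) = - kcs m := by
  unfold kcs
  by_cases h : Even m
  · have h2 : Even (m + 2) := by
      rw [Nat.even_add]
      simp [h]
    rw [if_pos h2, if_pos h, neg_zero]
  · have h2 : ¬ Even (m + 2) := by
      rw [Nat.even_add]
      simp [h]
    rw [if_neg h2, if_neg h]
    have h3 : (m + 2) / 2 = m / 2 + 1 := by omega
    rw [h3, pow_succ]
    ring

theorem kcs_zero : kcs 0 = 0 := by simp [kcs]

theorem kcs_one : kcs 1 = 1 := by simp [kcs]

/-- the numerators of the Taylor coefficients of `Ynu 3` -/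
noncomputable def an (n : ℕ) : ℂ := ∑ l ∈ Finset.range n, kcs (n - 1 - l) * (3 * I) ^ l

theorem an_zero : an 0 = 0 := by simp [an]

theorem an_one : an 1 = 0 := by simp [an, kcs_zero]

theorem an_two (n : ℕ) : an (n + 2) = - an n + (3 * I) ^ n := by
  unfold an
  rw [Finset.sum_range_succ, Finset.sum_range_succ]
  have h1 : n + 2 - 1 - n = 1 := by omega
  have h2 : n + 2 - 1 - (n + 1) = 0 := by omega
  rw [h1, h2, kcs_one, kcs_zero, ← Finset.sum_neg_distrib]
  have h3 : ∑ x ∈ Finset.range n, kcs (n + 2 - 1 - x) * (3 * I) ^ x =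
      ∑ x ∈ Finset.range n, -(kcs (n - 1 - x) * (3 * I) ^ x) := by
    refine Finset.sum_congr rfl fun x hx => ?_
    have hx' := Finset.mem_range.1 hx
    have h4 : n + 2 - 1 - x = (n - 1 - x) + 2 := by omega
    rw [h4, kcs_two]
    ring
  rw [h3]
  ring

theorem an_eq : ∀ n : ℕ, an n = -(1 / 8) * ((3 * I) ^ n - 2 * I ^ n + (-I) ^ n)
  | 0 => by rw [an_zero]; norm_num
  | 1 => by rw [an_one]; ring
  | n + 2 => by
    rw [an_two, an_eq n]
    have hI : I ^ 2 = -1 := I_sq
    have h1 : (3 * I) ^ (n + 2) = -9 * (3 * I) ^ n := by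
      rw [pow_add, mul_pow 3 I 2, hI]; ring
    have h2 : I ^ (n + 2) = - I ^ n := by
      rw [pow_add, hI]; ring
    have h3 : (-I) ^ (n + 2) = - (-I) ^ n := by
      rw [pow_add, neg_sq, hI]; ring
    rw [h1, h2, h3]
    ring

/-- the Taylor series of `∫₀^X exp(3 i s) sin (X - s) ds` -/
noncomputable def Y : PowerSeries ℂ := PowerSeries.mk fun n => an n / (n.factorial : ℂ)

theorem Y_eq : Y = PowerSeries.C (-(1 / 8) : ℂ) * (expS (3 * I) - 2 * expS I + expS (-I)) := by
  ext n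
  rw [PowerSeries.coeff_C_mul]
  have h2 : (2 : PowerSeries ℂ) = PowerSeries.C (2 : ℂ) := (map_ofNat PowerSeries.C 2).symm
  rw [h2, map_add, map_sub, PowerSeries.coeff_C_mul]
  simp only [Y, expS, PowerSeries.coeff_mk, an_eq]
  ring

theorem Yi_eq (k : ℕ) (υ : ℂ) (hk : 1 ≤ k) : Yi k k υ = PowerSeries.C (υ ^ 3) * Y := by
  ext n
  rw [PowerSeries.coeff_C_mul]
  have hk' : (k : ℂ) ≠ 0 := by
    have : k ≠ 0 := by omega
    exact_mod_cast this
  have h1 : I * (2 * (k : ℂ) + k) / k = 3 * I := by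
    field_simp
    ring
  simp only [Yi, Y, PowerSeries.coeff_mk, h1, an]
  ring

/-- `Y / X^2` -/
noncomputable def Z : PowerSeries ℂ := PowerSeries.mk fun n => an (n + 2) / ((n + 2).factorial : ℂ)

theorem Y_eq_XZ : Y = PowerSeries.X ^ 2 * Z := by
  ext n
  rw [PowerSeries.coeff_X_pow_mul']
  by_cases h : 2 ≤ n
  · rw [if_pos h]
    obtain ⟨m, rfl⟩ := Nat.exists_eq_add_of_le h
    have h1 : 2 + m - 2 = m := by omega
    rw [h1, add_comm 2 m]
    simp only [Y, Z, PowerSeries.coeff_mk]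
  · rw [if_neg h]
    have h1 : n = 0 ∨ n = 1 := by omega
    rcases h1 with rfl | rfl
    · simp [Y, an_zero]
    · simp [Y, an_one]

theorem Z_zero : PowerSeries.constantCoeff Z = 1 / 2 := by
  rw [← PowerSeries.coeff_zero_eq_constantCoeff_apply]
  simp only [Z, PowerSeries.coeff_mk, an_two, an_zero]
  norm_num [Nat.factorial]

theorem Z_one : PowerSeries.coeff 1 Z = I / 2 := by
  simp only [Z, PowerSeries.coeff_mk]
  rw [an_two 1, an_one]
  norm_num [Nat.factorial]
  ring

theorem coeff_one_mul (a b : PowerSeries ℂ) : PowerSeries.coeff 1 (a * b) =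
    PowerSeries.coeff 1 a * PowerSeries.constantCoeff b +
      PowerSeries.constantCoeff a * PowerSeries.coeff 1 b := by
  rw [PowerSeries.coeff_mul, Finset.Nat.antidiagonal_succ]
  simp
  ring

theorem coeff_one_pow (a : PowerSeries ℂ) : ∀ n : ℕ, PowerSeries.coeff 1 (a ^ (n + 1)) =
    (n + 1) * (PowerSeries.constantCoeff a) ^ n * PowerSeries.coeff 1 a
  | 0 => by simp
  | n + 1 => by
    rw [pow_succ, coeff_one_mul, coeff_one_pow a n, map_pow]
    push_cast
    ring

/-- the diagonal term -/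
theorem diag (J : ℕ) (hJ : 2 ≤ J) (υ : ℂ) :
    PowerSeries.coeff (2 * J + 1) (expS (I * (2 - 3 * J)) * (PowerSeries.C (υ ^ 3) * Y) ^ J) =
      (υ ^ 3) ^ J * (1 / 2) ^ J * (I * (2 - 2 * J)) := by
  have h1 : expS (I * (2 - 3 * (J : ℂ))) * (PowerSeries.C (υ ^ 3) * Y) ^ J =
      PowerSeries.C ((υ ^ 3) ^ J) * (PowerSeries.X ^ (2 * J) *
        (expS (I * (2 - 3 * J)) * Z ^ J)) := by
    have h0 : PowerSeries.C ((υ ^ 3) ^ J) = (PowerSeries.C (υ ^ 3)) ^ J := map_pow _ _ _
    rw [Y_eq_XZ, mul_pow, mul_pow, h0, pow_mul PowerSeries.X 2 J]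
    generalize PowerSeries.C (υ ^ 3) = c
    ring
  rw [h1, PowerSeries.coeff_C_mul, PowerSeries.coeff_X_pow_mul', if_pos (by omega)]
  have h2 : 2 * J + 1 - 2 * J = 1 := by omega
  rw [h2, coeff_one_mul]
  obtain ⟨n, rfl⟩ := Nat.exists_eq_add_of_le hJ
  have h3 : 2 + n = (n + 1) + 1 := by omega
  have h4 : PowerSeries.coeff 1 (Z ^ (2 + n)) = ((n : ℂ) + 2) * (1 / 2) ^ (n + 1) * (I / 2) := by
    rw [h3, coeff_one_pow, Z_zero, Z_one]
    push_cast
    ring
  rw [h4, map_pow, Z_zero]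
  have h5 : PowerSeries.coeff 1 (expS (I * (2 - 3 * ((2 + n : ℕ) : ℂ)))) =
      I * (2 - 3 * ((2 + n : ℕ) : ℂ)) := by
    simp [expS]
  have h6 : PowerSeries.constantCoeff (expS (I * (2 - 3 * ((2 + n : ℕ) : ℂ)))) = 1 := by
    rw [← PowerSeries.coeff_zero_eq_constantCoeff_apply]
    simp [expS]
  rw [h5, h6]
  push_cast
  ring

/-- the first term -/
theorem first (J : ℕ) (υ : ℂ) :
    PowerSeries.coeff (2 * J + 1) (expS (-I) * (PowerSeries.C (υ ^ 3) * Y)) = 0 := by
  have h1 : expS (-I) * (PowerSeries.C (υ ^ 3) * Y) =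
      PowerSeries.C (υ ^ 3) * (PowerSeries.C (-(1 / 8) : ℂ) *
        (expS (2 * I) - PowerSeries.C (2 : ℂ) * expS 0 + expS (-(2 * I)))) := by
    have e1 : expS (2 * I) = expS (-I) * expS (3 * I) := by
      rw [expS_mul]; congr 1; ring
    have e2 : expS 0 = expS (-I) * expS I := by
      rw [expS_mul]; congr 1; ring
    have e3 : expS (-(2 * I)) = expS (-I) * expS (-I) := by
      rw [expS_mul]; congr 1; ring
    have h2 : (2 : PowerSeries ℂ) = PowerSeries.C (2 : ℂ) := (map_ofNat PowerSeries.C 2).symm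
    rw [e1, e2, e3, Y_eq, h2]
    ring
  rw [h1, PowerSeries.coeff_C_mul, PowerSeries.coeff_C_mul, map_add, map_sub,
    PowerSeries.coeff_C_mul]
  simp only [expS, PowerSeries.coeff_mk]
  have h3 : (-(2 * I)) ^ (2 * J + 1) = - (2 * I) ^ (2 * J + 1) := by
    rw [neg_pow, Odd.neg_one_pow ⟨J, rfl⟩]
    ring
  rw [h3, zero_pow (by omega)]
  ring

end IML

open IML in
theorem tIML : StIML := by
  intro k υ β hk hυ hlaw j
  induction j using Nat.strong_induction_on with
  | _ J ih =>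
    intro hJ
    have h := hlaw J (by omega)
    have hk' : (k : ℂ) ≠ 0 := by
      have : k ≠ 0 := by omega
      exact_mod_cast this
    rw [Yi_eq k υ hk, map_sum] at h
    have hexp : ∀ j : ℕ, I * (2 * (k : ℂ) + k) * (2 - 3 * j) / (3 * k) = I * (2 - 3 * j) := by
      intro j
      field_simp
      ring
    rw [Finset.sum_eq_single J] at h
    · rw [hexp, mul_assoc, PowerSeries.coeff_C_mul, diag J hJ υ] at h
      have h1 : (υ ^ 3) ^ J * (1 / 2) ^ J * (I * (2 - 2 * (J : ℂ))) ≠ 0 := by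
        have h2 : (2 : ℂ) - 2 * J ≠ 0 := by
          intro h3
          have h4 : (J : ℂ) = 1 := by linear_combination (-(1 / 2) : ℂ) * h3
          have h5 : J = 1 := by exact_mod_cast h4
          omega
        have h6 : (υ ^ 3) ^ J ≠ 0 := pow_ne_zero _ (pow_ne_zero _ hυ)
        have h7 : ((1 : ℂ) / 2) ^ J ≠ 0 := pow_ne_zero _ (by norm_num)
        exact mul_ne_zero (mul_ne_zero h6 h7) (mul_ne_zero I_ne_zero h2)
      exact (mul_eq_zero.1 h).resolve_right h1
    · intro j hj hjJ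
      have hj' := Finset.mem_Icc.1 hj
      by_cases h1 : j = 1
      · subst h1
        have e1 : I * (2 * (k : ℂ) + k) * (2 - 3 * ((1 : ℕ) : ℂ)) / (3 * k) = -I := by
          rw [hexp]
          push_cast
          ring
        rw [e1, pow_one, mul_assoc, PowerSeries.coeff_C_mul, first, mul_zero]
      · rw [ih j (by omega) (by omega)]
        simp
    · intro h1
      exact absurd (Finset.mem_Icc.2 ⟨by omega, le_refl J⟩) h1

end H719FX
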