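import Pool.Agent.H719R4.FX.Cov
import Pool.Agent.H719R4.FX.IMDL

/-! IRL (helper873): from the linearised law to the coordinate `w = 1 - exp (2 i X)`. -/

open Complex Set Filter Topology

namespace H719FX

open H738CZ Asymptotics

/-- `Ynu` as a combination of exponentials -/
theorem IRL_Y (s : ℂ) (h1 : 1 + s ≠ 0) (h2 : 2 + s ≠ 0) :
    Ynu (3 + 2 * s) = PowerSeries.C (-(1 / (4 * (1 + s) * (2 + s)))) *
      (expS (I * (3 + 2 * s)) - PowerSeries.C (2 + s) * expS I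
        + PowerSeries.C (1 + s) * expS (-I)) := by
  ext n
  rw [PowerSeries.coeff_C_mul, map_add, map_sub, PowerSeries.coeff_C_mul, PowerSeries.coeff_C_mul]
  unfold Ynu expS
  rw [PowerSeries.coeff_mk, PowerSeries.coeff_mk, PowerSeries.coeff_mk, PowerSeries.coeff_mk]
  have h4 : (n.factorial : ℂ) ≠ 0 := by exact_mod_cast n.factorial_ne_zero
  have h5 := IMDL_sum (I * (3 + 2 * s)) n
  have e1 : (I * (3 + 2 * s) + I) / (2 * I) = 2 + s := by
    field_simp
    ring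
  have e2 : (I * (3 + 2 * s) - I) / (2 * I) = 1 + s := by
    field_simp
    ring
  have e3 : (I * (3 + 2 * s)) ^ 2 + 1 = -(4 * (1 + s) * (2 + s)) := by
    rw [mul_pow, I_sq]
    ring
  rw [e1, e2, e3] at h5
  have e5 : ∑ l ∈ Finset.range n, kcs (n - 1 - l) * (I * (3 + 2 * s)) ^ l =
      -(1 / (4 * (1 + s) * (2 + s))) * ((I * (3 + 2 * s)) ^ n - (2 + s) * I ^ n +
        (1 + s) * (-I) ^ n) := by
    rw [← h5]
    field_simp
  rw [e5]
  ring

theorem IRL_Y2 (s : ℂ) (h1 : 1 + s ≠ 0) (h2 : 2 + s ≠ 0) :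
    expS (-I) * Ynu (3 + 2 * s) = PowerSeries.C (-(1 / (4 * (1 + s) * (2 + s)))) *
      (expS (2 * I * (1 + s)) - PowerSeries.C (2 + s) + PowerSeries.C (1 + s) * expS (-(2 * I))) := by
  rw [IRL_Y s h1 h2]
  have e1 : expS (2 * I * (1 + s)) = expS (-I) * expS (I * (3 + 2 * s)) := by
    rw [← IMDL_expS_add]; congr 1; ring
  have e2 : (1 : PowerSeries ℂ) = expS (-I) * expS I := by
    rw [← IMDL_expS_add, neg_add_cancel, IMDL_expS_zero]
  have e3 : expS (-(2 * I)) = expS (-I) * expS (-I) := by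
    rw [← IMDL_expS_add]; congr 1; ring
  rw [e1, e3]
  have e4 : (PowerSeries.C (2 + s) : PowerSeries ℂ) = PowerSeries.C (2 + s) * (expS (-I) * expS I) := by
    rw [← e2, mul_one]
  conv_rhs => rw [e4]
  ring

theorem IRL_Y3 : Ynu 3 = PowerSeries.C (-(1 / 8)) * expS (-I) * (expS (2 * I) - 1) ^ 2 := by
  have h := IRL_Y 0 (by norm_num) (by norm_num)
  have e0 : (3 : ℂ) + 2 * 0 = 3 := by norm_num
  rw [e0] at h
  rw [h]
  have e1 : expS (I * 3) = expS (-I) * (expS (2 * I) * expS (2 * I)) := by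
    rw [← IMDL_expS_add, ← IMDL_expS_add]; congr 1; ring
  have e2 : expS I = expS (-I) * expS (2 * I) := by
    rw [← IMDL_expS_add]; congr 1; ring
  rw [e1, e2]
  have e3 : (PowerSeries.C (2 + 0 : ℂ) : PowerSeries ℂ) = 2 := by
    rw [add_zero, map_ofNat]
  have e4 : (PowerSeries.C (1 + 0 : ℂ) : PowerSeries ℂ) = 1 := by
    rw [add_zero, map_one]
  rw [e3, e4]
  have e5 : (-(1 / (4 * (1 + 0) * (2 + 0))) : ℂ) = -(1 / 8) := by norm_num
  rw [e5]
  ring

/-- the terms -/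
noncomputable def IRL_t (s : ℂ) (f : ℕ → ℂ) (j : ℕ) : PowerSeries ℂ :=
  PowerSeries.C (f j) * expS (2 * I * (s + 1 - 2 * j)) * (expS (2 * I) - 1) ^ (2 * j)

/-- the last term -/
noncomputable def IRL_l (s c2 : ℂ) : PowerSeries ℂ :=
  PowerSeries.C c2 *
    (expS (2 * I * (1 + s)) - PowerSeries.C (2 + s) + PowerSeries.C (1 + s) * expS (-(2 * I)))

theorem IRL_term (s υ b : ℂ) (j : ℕ) :
    PowerSeries.C b * expS (I * (2 * s + 2 - 3 * j)) * (PowerSeries.C (υ ^ 3) * Ynu 3) ^ j =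
      PowerSeries.C (b * (υ ^ 3 * (-(1 / 8))) ^ j) * expS (2 * I * (s + 1 - 2 * j))
        * (expS (2 * I) - 1) ^ (2 * j) := by
  have e1 : expS (2 * I * (s + 1 - 2 * j)) = expS (I * (2 * s + 2 - 3 * j)) * expS (-I) ^ j := by
    rw [IMDL_expS_pow, ← IMDL_expS_add]; congr 1; ring
  rw [e1, IRL_Y3, pow_mul]
  simp only [map_mul, map_pow, mul_pow]
  ring

theorem IRL_series {s υ ε : ℂ} (c : ℕ → ℂ) (hυ : υ ≠ 0) (h1 : 1 + s ≠ 0) (h2 : 2 + s ≠ 0)
    (J : ℕ) (hJ : 1 ≤ J) :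
    PowerSeries.C (-(2 * ε / υ ^ 2)) * expS (I * (2 * s - 1)) * (PowerSeries.C (υ ^ 3) * Ynu 3)
    + (∑ j ∈ Finset.Icc 2 J, PowerSeries.C (c j * (υ⁻¹) ^ j) * expS (I * (2 * s + 2 - 3 * j))
        * (PowerSeries.C (υ ^ 3) * Ynu 3) ^ j)
    + PowerSeries.C (6 * υ * ε) * expS (-I) * Ynu (3 + 2 * s) =
      (∑ j ∈ Finset.Icc 1 J, IRL_t s (fst s υ ε c) j)
        - IRL_l s (3 * υ * ε / (2 * (1 + s) * (2 + s))) := by
  have hIcc : Finset.Icc 1 J = insert 1 (Finset.Icc 2 J) := by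
    ext x; simp only [Finset.mem_Icc, Finset.mem_insert]; omega
  rw [hIcc, Finset.sum_insert (by simp)]
  have t1 : PowerSeries.C (-(2 * ε / υ ^ 2)) * expS (I * (2 * s - 1)) *
      (PowerSeries.C (υ ^ 3) * Ynu 3) = IRL_t s (fst s υ ε c) 1 := by
    have h := IRL_term s υ (-(2 * ε / υ ^ 2)) 1
    rw [pow_one] at h
    have e1 : I * (2 * s + 2 - 3 * ((1 : ℕ) : ℂ)) = I * (2 * s - 1) := by push_cast; ring
    rw [e1] at h
    rw [h, IRL_t]
    congr 3
    unfold fst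
    rw [if_neg (by norm_num), if_pos rfl, pow_one]
    field_simp
    ring
  have t2 : ∀ j ∈ Finset.Icc 2 J, PowerSeries.C (c j * (υ⁻¹) ^ j) *
      expS (I * (2 * s + 2 - 3 * j)) * (PowerSeries.C (υ ^ 3) * Ynu 3) ^ j =
      IRL_t s (fst s υ ε c) j := by
    intro j hj
    rw [Finset.mem_Icc] at hj
    rw [IRL_term, IRL_t]
    congr 3
    unfold fst
    rw [if_neg (by omega), if_neg (by omega), mul_assoc, ← mul_pow]
    congr 2
    field_simp
  have t3 : PowerSeries.C (6 * υ * ε) * expS (-I) * Ynu (3 + 2 * s) =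
      - IRL_l s (3 * υ * ε / (2 * (1 + s) * (2 + s))) := by
    rw [mul_assoc, IRL_Y2 s h1 h2, ← mul_assoc, ← map_mul, IRL_l]
    have e : 6 * υ * ε * -(1 / (4 * (1 + s) * (2 + s))) =
        -(3 * υ * ε / (2 * (1 + s) * (2 + s))) := by
      field_simp
      ring
    rw [e, map_neg, neg_mul]
  rw [t1, Finset.sum_congr rfl t2, t3]
  ring

theorem IRL_dvd (s : ℂ) (f : ℕ → ℂ) (j : ℕ) :
    (PowerSeries.X : PowerSeries ℂ) ^ (2 * j) ∣ IRL_t s f j := by
  unfold IRL_t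
  refine Dvd.dvd.mul_left ?_ _
  apply pow_dvd_pow_of_dvd
  rw [PowerSeries.X_dvd_iff, map_sub, ← PowerSeries.coeff_zero_eq_constantCoeff_apply]
  unfold expS
  rw [PowerSeries.coeff_mk]
  simp

theorem IRL_coeff {s υ ε : ℂ} {c : ℕ → ℂ} (hυ : υ ≠ 0) (h1 : 1 + s ≠ 0) (h2 : 2 + s ≠ 0)
    (h : ILaw s υ ε c) (N i : ℕ) (hi : i < N) :
    PowerSeries.coeff (2 * i + 1) ((∑ j ∈ Finset.Icc 1 N, IRL_t s (fst s υ ε c) j)
        - IRL_l s (3 * υ * ε / (2 * (1 + s) * (2 + s)))) = 0 := by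
  have hs : Finset.Icc 1 N = Finset.Icc 1 i ∪ Finset.Icc (i + 1) N := by
    ext x; simp only [Finset.mem_Icc, Finset.mem_union]; omega
  have hd : Disjoint (Finset.Icc 1 i) (Finset.Icc (i + 1) N) := by
    rw [Finset.disjoint_left]
    intro x hx hx'
    rw [Finset.mem_Icc] at hx hx'
    omega
  rw [hs, Finset.sum_union hd, add_sub_right_comm, map_add]
  have h3 : PowerSeries.coeff (2 * i + 1)
      (∑ j ∈ Finset.Icc (i + 1) N, IRL_t s (fst s υ ε c) j) = 0 := by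
    have h4 : (PowerSeries.X : PowerSeries ℂ) ^ (2 * (i + 1)) ∣
        ∑ j ∈ Finset.Icc (i + 1) N, IRL_t s (fst s υ ε c) j := by
      refine Finset.dvd_sum fun j hj => ?_
      rw [Finset.mem_Icc] at hj
      exact (pow_dvd_pow _ (by omega)).trans (IRL_dvd s _ j)
    exact PowerSeries.X_pow_dvd_iff.1 h4 _ (by omega)
  rw [h3, add_zero]
  rcases Nat.eq_zero_or_pos i with rfl | hpos
  · rw [Finset.Icc_eq_empty (by omega : ¬ (1 : ℕ) ≤ 0), Finset.sum_empty, zero_sub, map_neg, IRL_l, PowerSeries.coeff_C_mul, map_add, map_sub,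
      PowerSeries.coeff_C_mul]
    unfold expS
    rw [PowerSeries.coeff_mk, PowerSeries.coeff_mk, PowerSeries.coeff_C]
    simp
    ring_nf
    simp
  · have h5 := h i hpos
    rw [IRL_series c hυ h1 h2 i hpos] at h5
    exact h5

theorem IRL_sub {f g : ℂ → ℂ} {P Q : PowerSeries ℂ} (hf : MDL_R f P) (hg : MDL_R g Q) :
    MDL_R (fun d => f d - g d) (P - Q) := by
  intro K
  refine ((hf K).sub (hg K)).congr_left fun d => ?_
  rw [map_sub, Polynomial.eval_sub]
  ring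

theorem IRL_uniq {f : ℂ → ℂ} {P : PowerSeries ℂ} (h : MDL_R f P) {K : ℕ}
    (hK : f =O[𝓝 0] fun d => d ^ K) : ∀ n, n < K → PowerSeries.coeff n P = 0 := by
  intro n
  induction n using Nat.strong_induction_on with
  | _ n ih =>
    intro hn
    have h1 := h (n + 1)
    have h2 : ∀ d : ℂ, (PowerSeries.trunc (n + 1) P).eval d = PowerSeries.coeff n P * d ^ n := by
      intro d
      have h20 : ∑ i ∈ Finset.range n, (RingHom.id ℂ) (PowerSeries.coeff i P) * d ^ i = 0 := by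
        refine Finset.sum_eq_zero fun i hi => ?_
        rw [Finset.mem_range] at hi
        have h21 : PowerSeries.coeff i P = 0 := ih i hi (by omega)
        rw [h21, RingHom.id_apply, zero_mul]
      rw [Polynomial.eval, PowerSeries.eval₂_trunc_eq_sum_range, Finset.sum_range_succ, h20,
        zero_add, RingHom.id_apply]
    have h3 : (fun d : ℂ => d ^ K) =O[𝓝 0] fun d : ℂ => d ^ (n + 1) := by
      rcases Nat.lt_or_ge (n + 1) K with hlt | hge
      · exact (isLittleO_pow_pow hlt).isBigO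
      · have : K = n + 1 := by omega
        rw [this]
    have h4 : (fun d : ℂ => PowerSeries.coeff n P * d ^ n) =O[𝓝 0] fun d : ℂ => d ^ (n + 1) := by
      refine ((hK.trans h3).sub h1).congr_left fun d => ?_
      rw [h2]
      ring
    have h5 : (fun d : ℂ => PowerSeries.coeff n P * d ^ n) =o[𝓝 0] fun d : ℂ => d ^ n :=
      h4.trans_isLittleO (isLittleO_pow_pow (Nat.lt_succ_self n))
    by_contra hne
    have hpos : 0 < ‖PowerSeries.coeff n P‖ := norm_pos_iff.2 hne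
    have h6 := h5.def (c := ‖PowerSeries.coeff n P‖ / 2) (by positivity)
    have h7 : ∀ᶠ d in 𝓝[≠] (0 : ℂ), ‖PowerSeries.coeff n P * d ^ n‖ ≤
        ‖PowerSeries.coeff n P‖ / 2 * ‖d ^ n‖ := h6.filter_mono nhdsWithin_le_nhds
    obtain ⟨d, hd, hd0⟩ := (h7.and self_mem_nhdsWithin).exists
    have hd1 : 0 < ‖d ^ n‖ := norm_pos_iff.2 (pow_ne_zero _ hd0)
    rw [norm_mul] at hd
    nlinarith

/-- the function of `X` -/
noncomputable def IRL_f (s c2 : ℂ) (f : ℕ → ℂ) (N : ℕ) (X : ℂ) : ℂ :=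
  (∑ j ∈ Finset.Icc 1 N, f j * cexp (2 * I * (s + 1 - 2 * j) * X) *
    (cexp (2 * I * X) - 1) ^ (2 * j)) -
  c2 * (cexp (2 * I * (1 + s) * X) - (2 + s) + (1 + s) * cexp (-(2 * I) * X))

theorem IRL_f_R (s c2 : ℂ) (f : ℕ → ℂ) (N : ℕ) : MDL_R (IRL_f s c2 f N)
    ((∑ j ∈ Finset.Icc 1 N, IRL_t s f j) - IRL_l s c2) := by
  unfold IRL_f IRL_t IRL_l
  refine IRL_sub (MDL_sum _ _ _ fun j _ => MDL_mul (MDL_mul (MDL_const _) (IMDL_exp _))
    (MDL_pow (IRL_sub (IMDL_exp _) MDL_one) _)) (MDL_mul (MDL_const _)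
    (MDL_add (IRL_sub (IMDL_exp _) (MDL_const _)) (MDL_mul (MDL_const _) (IMDL_exp _))))

/-- the function of `d = x - 1` -/
noncomputable def IRL_g (s c2 : ℂ) (f : ℕ → ℂ) (N : ℕ) (d : ℂ) : ℂ :=
  (∑ j ∈ Finset.Icc 1 N, f j * ((1 + d) ^ (2 * s + 2 - 2 * j) * d ^ (2 * j)))
    - (∑ j ∈ Finset.Icc 1 N, f j * d ^ (2 * j))
    - c2 * ((1 + d) ^ (2 * s + 2) - 1 + (1 + s) * ((1 + d) ^ s - (1 + d) ^ (s + 2)))

/-- its series -/
noncomputable def IRL_G (s c2 : ℂ) (f : ℕ → ℂ) (N : ℕ) : PowerSeries ℂ :=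
  (∑ j ∈ Finset.Icc 1 N, PowerSeries.C (f j) * (binS (2 * s + 2 - 2 * j) *
      PowerSeries.X ^ (2 * j)))
    - (∑ j ∈ Finset.Icc 1 N, PowerSeries.C (f j) * PowerSeries.X ^ (2 * j))
    - PowerSeries.C c2 * (binS (2 * s + 2) - 1 + PowerSeries.C (1 + s) * (binS s - binS (s + 2)))

theorem IRL_X (j : ℕ) : MDL_R (fun d => d ^ j) (PowerSeries.X ^ j) := by
  have h := MDL_polyR (Polynomial.X ^ j)
  rw [Polynomial.coe_pow, Polynomial.coe_X] at h
  intro K
  refine (h K).congr_left fun d => ?_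
  simp only [Polynomial.eval_pow, Polynomial.eval_X]

theorem IRL_g_R (s c2 : ℂ) (f : ℕ → ℂ) (N : ℕ) : MDL_R (IRL_g s c2 f N) (IRL_G s c2 f N) := by
  unfold IRL_g IRL_G
  exact IRL_sub (IRL_sub (MDL_sum _ _ _ fun j _ => MDL_mul (MDL_const _)
    (MDL_mul (MDL_cpow _) (IRL_X _))) (MDL_sum _ _ _ fun j _ => MDL_mul (MDL_const _) (IRL_X _)))
    (MDL_mul (MDL_const _) (MDL_add (IRL_sub (MDL_cpow _) MDL_one) (MDL_mul (MDL_const _)
      (IRL_sub (MDL_cpow _) (MDL_cpow _)))))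

theorem IRL_fg (s c2 : ℂ) (f : ℕ → ℂ) (N : ℕ) {d : ℂ} (hd : 1 + d ≠ 0) :
    cexp ((s + 1) * log (1 + d)) * (IRL_f s c2 f N (-(-(-(I / 2) * log (1 + d))))
      - IRL_f s c2 f N (-(-(I / 2) * log (1 + d)))) = IRL_g s c2 f N d := by
  set L := log (1 + d) with hL
  have hx : cexp L = 1 + d := Complex.exp_log hd
  have hcp : ∀ e : ℂ, (1 + d) ^ e = cexp (e * L) := fun e => by
    rw [Complex.cpow_def_of_ne_zero hd, mul_comm]
  have hI : ∀ e : ℂ, 2 * I * e * (-(-(-(I / 2) * L))) = e * L := fun e => by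
    have : 2 * I * e * (-(-(-(I / 2) * L))) = -(I ^ 2) * e * L := by ring
    rw [this, I_sq]; ring
  have hI' : ∀ e : ℂ, 2 * I * e * (-(-(I / 2) * L)) = -(e * L) := fun e => by
    have : 2 * I * e * (-(-(I / 2) * L)) = I ^ 2 * e * L := by ring
    rw [this, I_sq]; ring
  have h1 : 2 * I * (-(-(-(I / 2) * L))) = L := by
    have := hI 1; rw [mul_one, one_mul] at this; exact this
  have h1' : 2 * I * (-(-(I / 2) * L)) = -L := by
    have := hI' 1; rw [mul_one, one_mul] at this; exact this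
  have h2 : -(2 * I) * (-(-(-(I / 2) * L))) = -L := by
    rw [neg_mul, h1]
  have h2' : -(2 * I) * (-(-(I / 2) * L)) = L := by
    rw [neg_mul, h1', neg_neg]
  unfold IRL_f IRL_g
  simp only [hI, hI', h1, h1', h2, h2', hcp, hx]
  have hinv : cexp (-L) = (1 + d)⁻¹ := by rw [Complex.exp_neg, hx]
  have hA : ∀ j : ℕ, cexp ((s + 1) * L) * (f j * cexp ((s + 1 - 2 * j) * L) *
      (1 + d - 1) ^ (2 * j)) = f j * (cexp ((2 * s + 2 - 2 * j) * L) * d ^ (2 * j)) := by
    intro j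
    have e1 : cexp ((2 * s + 2 - 2 * j) * L) = cexp ((s + 1) * L) * cexp ((s + 1 - 2 * j) * L) := by
      rw [← Complex.exp_add]; congr 1; ring
    rw [e1]; ring
  have hB : ∀ j : ℕ, cexp ((s + 1) * L) * (f j * cexp (-((s + 1 - 2 * j) * L)) *
      (cexp (-L) - 1) ^ (2 * j)) = f j * d ^ (2 * j) := by
    intro j
    have e1 : cexp (-L) - 1 = -(d * cexp (-L)) := by
      rw [hinv]
      field_simp
      ring
    have e2 : cexp (-L) ^ (2 * j) = cexp (-((2 * j : ℂ) * L)) := by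
      rw [← Complex.exp_nat_mul]
      congr 1
      push_cast
      ring
    have e3 : cexp ((s + 1) * L) * (cexp (-((s + 1 - 2 * j) * L)) * cexp (-((2 * j : ℂ) * L))) = 1 := by
      rw [← Complex.exp_add, ← Complex.exp_add]
      have : (s + 1) * L + (-((s + 1 - 2 * j) * L) + -((2 * j : ℂ) * L)) = 0 := by ring
      rw [this, Complex.exp_zero]
    rw [e1, Even.neg_pow ⟨j, by ring⟩, mul_pow, e2]
    calc cexp ((s + 1) * L) * (f j * cexp (-((s + 1 - 2 * j) * L)) *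
        (d ^ (2 * j) * cexp (-((2 * j : ℂ) * L)))) =
        f j * d ^ (2 * j) * (cexp ((s + 1) * L) * (cexp (-((s + 1 - 2 * j) * L)) *
          cexp (-((2 * j : ℂ) * L)))) := by ring
      _ = _ := by rw [e3, mul_one]
  have hS1 : cexp ((s + 1) * L) * ∑ j ∈ Finset.Icc 1 N, f j * cexp ((s + 1 - 2 * j) * L) *
      (1 + d - 1) ^ (2 * j) =
      ∑ j ∈ Finset.Icc 1 N, f j * (cexp ((2 * s + 2 - 2 * j) * L) * d ^ (2 * j)) := by
    rw [Finset.mul_sum]
    exact Finset.sum_congr rfl fun j _ => hA j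
  have hS2 : cexp ((s + 1) * L) * ∑ j ∈ Finset.Icc 1 N, f j * cexp (-((s + 1 - 2 * j) * L)) *
      (cexp (-L) - 1) ^ (2 * j) = ∑ j ∈ Finset.Icc 1 N, f j * d ^ (2 * j) := by
    rw [Finset.mul_sum]
    exact Finset.sum_congr rfl fun j _ => hB j
  have g1 : cexp ((2 * s + 2) * L) = cexp ((s + 1) * L) * cexp ((1 + s) * L) := by
    rw [← Complex.exp_add]; congr 1; ring
  have g2 : cexp (s * L) = cexp ((s + 1) * L) * cexp (-L) := by
    rw [← Complex.exp_add]; congr 1; ring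
  have g3 : cexp ((s + 2) * L) = cexp ((s + 1) * L) * (1 + d) := by
    rw [← hx, ← Complex.exp_add]; congr 1; ring
  have g4 : cexp ((s + 1) * L) * cexp (-((1 + s) * L)) = 1 := by
    rw [← Complex.exp_add]
    have : (s + 1) * L + -((1 + s) * L) = 0 := by ring
    rw [this, Complex.exp_zero]
  rw [g1, g2, g3, ← hS1, ← hS2]
  linear_combination c2 * g4

theorem IRL_bigO {s υ ε : ℂ} {c : ℕ → ℂ} (hυ : υ ≠ 0) (h1 : 1 + s ≠ 0) (h2 : 2 + s ≠ 0)
    (h : ILaw s υ ε c) (N : ℕ) :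
    IRL_g s (3 * υ * ε / (2 * (1 + s) * (2 + s))) (fst s υ ε c) N =O[𝓝 0]
      fun d : ℂ => d ^ (2 * N + 1) := by
  have h3 := MDL_parity (IRL_f_R s (3 * υ * ε / (2 * (1 + s) * (2 + s))) (fst s υ ε c) N) N
    fun i hi => IRL_coeff hυ h1 h2 h N i hi
  have hD : HasDerivAt (fun d : ℂ => -(-(I / 2) * log (1 + d))) (-(-(I / 2) * (1 / (1 + 0)))) 0 := by
    have h5 : HasDerivAt (fun d : ℂ => 1 + d) 1 0 := (hasDerivAt_id (0 : ℂ)).const_add 1
    exact ((h5.clog (by simp [slitPlane])).const_mul _).neg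
  have ht : Tendsto (fun d : ℂ => -(-(I / 2) * log (1 + d))) (𝓝 0) (𝓝 0) := by
    have := hD.continuousAt.tendsto
    simpa using this
  have h4 := h3.comp_tendsto ht
  have h5 : (fun d : ℂ => (-(-(I / 2) * log (1 + d))) ^ (2 * N + 1)) =O[𝓝 0]
      fun d => d ^ (2 * N + 1) := by
    refine IsBigO.pow ?_ _
    have h6 := hD.isBigO_sub
    refine (h6.congr_left fun x => ?_).congr_right fun x => ?_
    · simp
    · simp
  have h6 : (fun d : ℂ => cexp ((s + 1) * log (1 + d))) =O[𝓝 0] fun _ => (1 : ℂ) := by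
    have : ContinuousAt (fun d : ℂ => cexp ((s + 1) * log (1 + d))) 0 := by
      refine Complex.continuous_exp.continuousAt.comp (ContinuousAt.mul continuousAt_const ?_)
      exact ContinuousAt.clog (by fun_prop) (by simp [slitPlane])
    exact this.tendsto.isBigO_one ℂ
  have h7 := h6.mul (h4.trans h5)
  refine h7.congr' ?_ (Eventually.of_forall fun x => one_mul _)
  have hne : ∀ᶠ d in 𝓝 (0 : ℂ), 1 + d ≠ 0 := by
    have hc : ContinuousAt (fun d : ℂ => 1 + d) 0 := by fun_prop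
    exact hc.eventually_ne (by simp)
  filter_upwards [hne] with d hd
  exact IRL_fg s _ _ N hd

theorem IRL_bin (s : ℂ) (m : ℕ) :
    (1 + s) * (PowerSeries.coeff (m + 1) (binS (s + 2)) - PowerSeries.coeff (m + 1) (binS s)) =
      (2 * s + 2 - m) * PowerSeries.coeff m (binS (s + 1)) := by
  unfold binS
  rw [PowerSeries.coeff_mk, PowerSeries.coeff_mk, PowerSeries.coeff_mk]
  set q := ∏ i ∈ Finset.range m, (s + 1 - (i : ℂ)) with hq
  have hA : ∏ i ∈ Finset.range (m + 1), (s + 2 - (i : ℂ)) = q * (s + 2) := by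
    rw [Finset.prod_range_succ', hq]
    congr 1
    · refine Finset.prod_congr rfl fun i _ => ?_
      push_cast
      ring
    · push_cast
      ring
  have hB : (1 + s) * ∏ i ∈ Finset.range (m + 1), (s - (i : ℂ)) = q * (s + 1 - m) * (s - m) := by
    have h1 : ∏ i ∈ Finset.range (m + 2), (s + 1 - (i : ℂ)) =
        (∏ i ∈ Finset.range (m + 1), (s - (i : ℂ))) * (s + 1) := by
      rw [Finset.prod_range_succ']
      congr 1
      · refine Finset.prod_congr rfl fun i _ => ?_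
        push_cast
        ring
      · push_cast
        ring
    have h2 : ∏ i ∈ Finset.range (m + 2), (s + 1 - (i : ℂ)) = q * (s + 1 - m) * (s - m) := by
      rw [Finset.prod_range_succ, Finset.prod_range_succ, ← hq]
      push_cast
      ring
    rw [← h2, h1]
    ring
  have hF : (m.factorial : ℂ) ≠ 0 := by exact_mod_cast m.factorial_ne_zero
  have hm : ((m : ℂ) + 1) ≠ 0 := by exact_mod_cast Nat.succ_ne_zero m
  rw [hA, Nat.factorial_succ]
  push_cast
  have e1 : (1 + s) * (q * (s + 2) / (((m : ℂ) + 1) * m.factorial) -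
      (∏ i ∈ Finset.range (m + 1), (s - (i : ℂ))) / (((m : ℂ) + 1) * m.factorial)) =
      ((1 + s) * (q * (s + 2)) - (1 + s) * ∏ i ∈ Finset.range (m + 1), (s - (i : ℂ))) /
        (((m : ℂ) + 1) * m.factorial) := by
    ring
  rw [e1, hB]
  field_simp
  ring

theorem IRL_main {s υ ε : ℂ} {c : ℕ → ℂ} (hυ : υ ≠ 0) (h1 : 1 + s ≠ 0) (h2 : 2 + s ≠ 0)
    (h : ILaw s υ ε c) : IStar s (3 * υ * ε / (2 * (1 + s) * (2 + s))) (fst s υ ε c) := by
  have hf0 : fst s υ ε c 0 = -(3 * υ * ε / (2 * (1 + s) * (2 + s))) := by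
    unfold fst
    rw [if_pos rfl]
  refine ⟨hf0, fun n hn => ?_⟩
  have hb := IRL_bigO hυ h1 h2 h n
  have hR := IRL_g_R s (3 * υ * ε / (2 * (1 + s) * (2 + s))) (fst s υ ε c) n
  have hz := IRL_uniq hR hb n (by omega)
  set c2 := 3 * υ * ε / (2 * (1 + s) * (2 + s)) with hc2
  set f := fst s υ ε c with hf
  unfold IRL_G at hz
  rw [map_sub, map_sub, map_sum, map_sum, PowerSeries.coeff_C_mul, map_add, map_sub,
    PowerSeries.coeff_C_mul, map_sub, PowerSeries.coeff_one, if_neg (by omega : ¬ n = 0)] at hz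
  have hT : ∀ j ∈ Finset.Icc 1 n, PowerSeries.coeff n (PowerSeries.C (f j) *
      (binS (2 * s + 2 - 2 * j) * PowerSeries.X ^ (2 * j))) -
      PowerSeries.coeff n (PowerSeries.C (f j) * PowerSeries.X ^ (2 * j)) =
      if 2 * j < n then f j * PowerSeries.coeff (n - 2 * j) (binS (2 * s + 2 - 2 * j)) else 0 := by
    intro j _
    rw [PowerSeries.coeff_C_mul, PowerSeries.coeff_C_mul, PowerSeries.coeff_mul_X_pow',
      PowerSeries.coeff_X_pow]
    rcases lt_trichotomy (2 * j) n with hlt | heq | hgt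
    · rw [if_pos hlt.le, if_neg (by omega), if_pos hlt, mul_zero, sub_zero]
    · rw [if_pos heq.le, if_pos heq.symm, if_neg (by omega), ← heq, Nat.sub_self]
      have h0 : PowerSeries.coeff 0 (binS (2 * s + 2 - 2 * j)) = 1 := by
        unfold binS
        rw [PowerSeries.coeff_mk]
        simp
      rw [h0, sub_self]
    · rw [if_neg (by omega), if_neg (by omega), if_neg (by omega), mul_zero, sub_zero]
  rw [← Finset.sum_sub_distrib, Finset.sum_congr rfl hT] at hz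
  have hS : ∑ j ∈ (Finset.range n).filter (fun j => 2 * j < n),
      f j * PowerSeries.coeff (n - 2 * j) (binS (2 * s + 2 - 2 * j)) =
      (∑ j ∈ Finset.Icc 1 n, if 2 * j < n then
        f j * PowerSeries.coeff (n - 2 * j) (binS (2 * s + 2 - 2 * j)) else 0) +
        -c2 * PowerSeries.coeff n (binS (2 * s + 2)) := by
    rw [Finset.sum_filter]
    have e1 : Finset.range (n + 1) = insert 0 (Finset.Icc 1 n) := by
      ext x; simp only [Finset.mem_Icc, Finset.mem_insert, Finset.mem_range]; omega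
    have e2 := Finset.sum_range_succ (fun j => if 2 * j < n then
        f j * PowerSeries.coeff (n - 2 * j) (binS (2 * s + 2 - 2 * j)) else 0) n
    rw [e1, Finset.sum_insert (by simp), if_neg (by omega : ¬ 2 * n < n), add_zero,
      if_pos (by omega : 2 * 0 < n)] at e2
    rw [← e2, hf0, mul_zero, Nat.sub_zero, Nat.cast_zero, mul_zero, sub_zero]
    ring
  obtain ⟨m, rfl⟩ : ∃ m, n = m + 1 := ⟨n - 1, by omega⟩
  have hB := IRL_bin s m
  rw [Nat.add_sub_cancel]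
  have e3 : ∑ j ∈ (Finset.range (m + 1)).filter (fun j => 2 * j < m + 1),
      f j * (-1) ^ (m + 1) * PowerSeries.coeff (m + 1 - 2 * j) (binS (2 * s + 2 - 2 * j)) =
      (-1) ^ (m + 1) * ∑ j ∈ (Finset.range (m + 1)).filter (fun j => 2 * j < m + 1),
      f j * PowerSeries.coeff (m + 1 - 2 * j) (binS (2 * s + 2 - 2 * j)) := by
    rw [Finset.mul_sum]
    exact Finset.sum_congr rfl fun j _ => by ring
  rw [e3, hS]
  push_cast
  rw [pow_succ]
  linear_combination (-(-1) ^ m) * hz + c2 * (-1) ^ m * hB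

theorem tIRL : StIRL := by
  intro σ υ ε c hσ hυ h
  refine IRL_main hυ ?_ ?_ h
  · exact_mod_cast (by positivity : (1 : ℝ) + σ ≠ 0)
  · exact_mod_cast (by positivity : (2 : ℝ) + σ ≠ 0)

end H719FX
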