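import Pool.Agent.H719R4.FX.Cov
import Pool.Agent.H719R4.FX.ISIN

/-! # ISR: coordinates at an isotropic branch, with derivatives -/

set_option autoImplicit false

open Complex Set Filter Topology

namespace H719FX

open H738CZ

theorem tISR : StISR := by
  intro Z W t0 m k hk hZ hW hB
  obtain ⟨f, g, af, ag, nf, ng, eZ, eW⟩ := hB
  obtain ⟨h1, ah1, nh1, eh1⟩ := SIC_root (fun t => -f t / g t) t0 (af.neg.div ag ng)
    (div_ne_zero (neg_ne_zero.2 nf) ng) k (by omega)
  set S : ℂ → ℂ := fun t => (t - t0) * h1 t with hS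
  have aS : AnalyticAt ℂ S t0 := (analyticAt_id.sub analyticAt_const).mul ah1
  have S0 : S t0 = 0 := by simp [hS]
  have dS : deriv S t0 ≠ 0 := by
    have hd : HasDerivAt S (1 * h1 t0 + (t0 - t0) * deriv h1 t0) t0 := by
      refine HasDerivAt.mul ?_ ah1.differentiableAt.hasDerivAt
      exact (hasDerivAt_id t0).sub_const t0
    rw [hd.deriv]
    simpa using nh1
  obtain ⟨T, aT, T0, eT⟩ := SIC_inv S t0 aS S0 dS
  have cT : ContinuousAt T 0 := aT.continuousAt
  have cT' : Tendsto T (𝓝 0) (𝓝 t0) := by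
    have := cT.tendsto
    rwa [T0] at this
  have dT : deriv T 0 ≠ 0 := by
    intro h0
    have h1' : HasDerivAt T 0 0 := by
      have := aT.differentiableAt.hasDerivAt
      rwa [h0] at this
    have h3 : HasDerivAt S (deriv S t0) (T 0) := by
      rw [T0]; exact aS.differentiableAt.hasDerivAt
    have h2' := HasDerivAt.comp (0 : ℂ) h3 h1'
    have h4 : HasDerivAt (fun s : ℂ => s) (deriv S t0 * 0) 0 :=
      h2'.congr_of_eventuallyEq (by filter_upwards [eT] with s hs; exact hs.symm)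
    have h5 := h4.unique (hasDerivAt_id (0 : ℂ))
    simp at h5
  have hkc : (k : ℂ) ≠ 0 := by
    have : k ≠ 0 := by omega
    exact_mod_cast this
  set A : ℂ → ℂ := fun s => 2 / k * (f (T s) * deriv T s / h1 (T s) ^ (m + k)) with hA
  have aA : AnalyticAt ℂ A 0 := by
    have a1 : AnalyticAt ℂ (fun s => f (T s)) 0 := by
      have : AnalyticAt ℂ f (T 0) := by rw [T0]; exact af
      exact this.comp aT
    have a2 : AnalyticAt ℂ (fun s => h1 (T s)) 0 := by
      have : AnalyticAt ℂ h1 (T 0) := by rw [T0]; exact ah1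
      exact this.comp aT
    refine analyticAt_const.mul (AnalyticAt.div (a1.mul aT.deriv) (a2.pow (m + k)) ?_)
    show h1 (T 0) ^ (m + k) ≠ 0
    rw [T0]
    exact pow_ne_zero _ nh1
  have nA : A 0 ≠ 0 := by
    simp only [hA]
    rw [T0]
    exact mul_ne_zero (div_ne_zero two_ne_zero hkc)
      (div_ne_zero (mul_ne_zero nf dT) (pow_ne_zero _ nh1))
  obtain ⟨v, av, nv, ev⟩ := SIC_root A 0 aA nA 3 (by norm_num)
  have hE : ∀ᶠ t in 𝓝 t0, deriv Z t = (t - t0) ^ (m + k) * f t ∧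
      deriv W t = (t - t0) ^ m * g t ∧ f t ≠ 0 ∧ g t ≠ 0 ∧ h1 t ≠ 0 ∧
      h1 t ^ k = -f t / g t := by
    filter_upwards [eZ, eW, af.continuousAt.eventually_ne nf, ag.continuousAt.eventually_ne ng,
      ah1.continuousAt.eventually_ne nh1, eh1] with t h2 h3 h4 h5 h6 h7
    exact ⟨h2, h3, h4, h5, h6, h7⟩
  have hE2 : ∀ᶠ t in 𝓝 t0, AnalyticAt ℂ Z t ∧ AnalyticAt ℂ W t :=
    hZ.eventually_analyticAt.and hW.eventually_analyticAt
  have hev : ∀ᶠ s in 𝓝 (0 : ℂ), AnalyticAt ℂ T s ∧ AnalyticAt ℂ v s ∧ v s ≠ 0 ∧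
      (∀ᶠ s' in 𝓝 s, S (T s') = s' ∧ v s' ^ 3 = A s') ∧
      (∀ᶠ t in 𝓝 (T s), deriv Z t = (t - t0) ^ (m + k) * f t ∧
      deriv W t = (t - t0) ^ m * g t ∧ f t ≠ 0 ∧ g t ≠ 0 ∧ h1 t ≠ 0 ∧
      h1 t ^ k = -f t / g t) ∧ (AnalyticAt ℂ Z (T s) ∧ AnalyticAt ℂ W (T s)) := by
    filter_upwards [aT.eventually_analyticAt, av.eventually_analyticAt,
      av.continuousAt.eventually_ne nv, (eT.and ev).eventually_nhds,
      cT'.eventually hE.eventually_nhds, cT'.eventually hE2] with s h1 h2 h3 h4 h5 h6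
    exact ⟨h1, h2, h3, h4, h5, h6⟩
  obtain ⟨δ, hδ, hball⟩ := Metric.eventually_nhds_iff_ball.1 hev
  set R : ℝ := δ ^ ((1 : ℝ) / 6) with hR
  have hR6 : R ^ 6 = δ := by
    rw [hR, ← Real.rpow_natCast, ← Real.rpow_mul hδ.le]
    norm_num
  have hUI : UI v R := by
    refine ⟨Real.rpow_pos_of_pos hδ _, ?_, ?_⟩
    · intro z hz
      rw [hR6] at hz
      exact (hball z hz).2.1.differentiableAt.differentiableWithinAt
    · intro z hz
      rw [hR6] at hz
      exact (hball z hz).2.2.1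
  have hTne : ∀ s ∈ Metric.ball (0 : ℂ) δ, s ≠ 0 → T s ≠ t0 := by
    intro s hs hs0 hTs
    have := (hball s hs).2.2.2.1.self_of_nhds.1
    rw [hTs, S0] at this
    exact hs0 this.symm
  refine ⟨R, T, v, hUI, T0, dT, ?_, ?_, ?_, (k : ℂ) / 2, -((k : ℂ) / 2), ?_, ?_, ?_⟩
  · intro s hs
    rw [hR6] at hs
    exact (hball s hs).1.differentiableAt.differentiableWithinAt
  · intro s hs
    rw [hR6] at hs
    exact hTne s hs
  · intro s1 hs1 hs0 Φ ρ hP
    rw [hR6] at hs1
    obtain ⟨aTs, avs, nvs, hsu, hEs, -⟩ := hball s1 hs1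
    have hT : Tendsto T (𝓝 s1) (𝓝 (T s1)) := aTs.continuousAt
    have hTs : T s1 ≠ t0 := hTne s1 hs1 hs0
    -- the exponential of the angle
    have hexp : ∀ᶠ s in 𝓝 s1, cexp (2 * I * Φ (T s)) = s ^ k := by
      have hne' : ∀ᶠ t in 𝓝 (T s1), t ≠ t0 := continuousAt_id.eventually_ne hTs
      filter_upwards [hsu, hT.eventually hEs, hT.eventually hne', hT.eventually hP.eZ,
        hT.eventually hP.eW] with s h2 h3 h4 h5 h6
      obtain ⟨t1, t2, t3, t4, t5, t6⟩ := h3
      have e1 : cexp (2 * I * Φ (T s)) = cexp (Φ (T s) * I) * cexp (Φ (T s) * I) := by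
        rw [← Complex.exp_add]; congr 1; ring
      have e2 : cexp (Φ (T s) * I) * cexp (-(Φ (T s) * I)) = 1 := by
        rw [← Complex.exp_add]; simp
      rw [e1, ISIN_alg (ρ (Φ (T s)) * deriv Φ (T s)) (cexp (Φ (T s) * I))
        (cexp (-(Φ (T s) * I))) (deriv Z (T s)) (deriv W (T s)) (T s - t0) (f (T s)) (g (T s)) m k
        (sub_ne_zero.2 h4) t4 e2 h5 h6 t1 t2, ← t6, ← mul_pow]
      have h7 : (T s - t0) * h1 (T s) = s := h2.1
      rw [h7]
    have aΨ : AnalyticAt ℂ (fun s => Φ (T s)) s1 := hP.aΦ.comp aTs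
    have hs0' : ∀ᶠ s in 𝓝 s1, s ≠ 0 := continuousAt_id.eventually_ne hs0
    have hI := I_ne_zero
    -- the derivative of the angle
    have hder : ∀ᶠ s in 𝓝 s1, deriv Φ (T s) * deriv T s * (2 * I * s) = k := by
      filter_upwards [hexp.eventually_nhds, hs0', aTs.eventually_analyticAt,
        hT.eventually hP.aΦ.eventually_analyticAt] with s h2 h3 h4 h5
      have h6 := HasDerivAt.comp s h5.differentiableAt.hasDerivAt h4.differentiableAt.hasDerivAt
      have h7 : HasDerivAt (fun s' => cexp (2 * I * Φ (T s')))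
          (cexp (2 * I * Φ (T s)) * (2 * I * (deriv Φ (T s) * deriv T s))) s :=
        (h6.const_mul (2 * I)).cexp
      have h8 : HasDerivAt (fun s' => cexp (2 * I * Φ (T s'))) (k * s ^ (k - 1)) s :=
        (hasDerivAt_pow k s).congr_of_eventuallyEq h2
      have h9 := h7.unique h8
      rw [h2.self_of_nhds] at h9
      have e4 : s ^ k = s * s ^ (k - 1) := by
        rw [← pow_succ']; congr 1; omega
      have h10 : s ^ (k - 1) ≠ 0 := pow_ne_zero _ h3
      apply mul_left_cancel₀ h10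
      rw [e4] at h9
      linear_combination h9
    refine ⟨aΨ, ?_⟩
    filter_upwards [hexp, hder, hsu, hT.eventually hEs, hT.eventually hP.eZ, hs0'] with
      s h2 h3 h4 h5 h6 h7
    refine ⟨h2, ?_⟩
    obtain ⟨t1, t2, t3, t4, t5, t6⟩ := h5
    obtain ⟨h4a, h4b⟩ := h4
    have e3 : T s - t0 = s / h1 (T s) := by
      rw [eq_div_iff t5]
      exact h4a
    have e5 : cexp (I * Φ (T s)) = cexp (Φ (T s) * I) := by
      congr 1; ring
    rw [h4b, e5]
    simp only [hA]
    rw [t1, e3] at h6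
    have h8 : (s / h1 (T s)) ^ (m + k) * f (T s) * deriv T s * (2 * s) =
        ρ (Φ (T s)) * cexp (Φ (T s) * I) * k := by
      rw [h6, ← h3]
      ring
    have h9 : ρ (Φ (T s)) * cexp (Φ (T s) * I) =
        (s / h1 (T s)) ^ (m + k) * f (T s) * deriv T s * (2 * s) / k := by
      rw [h8, mul_div_assoc, div_self hkc, mul_one]
    rw [h9, div_pow]
    field_simp
    ring
  · exact div_ne_zero hkc two_ne_zero
  · exact neg_ne_zero.2 (div_ne_zero hkc two_ne_zero)
  · intro s hs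
    rw [hR6] at hs
    obtain ⟨aTs, avs, nvs, hsu, hEs, aZs, aWs⟩ := hball s hs
    obtain ⟨h4a, h4b⟩ := hsu.self_of_nhds
    obtain ⟨t1, t2, t3, t4, t5, t6⟩ := hEs.self_of_nhds
    have e3 : T s - t0 = s / h1 (T s) := by
      rw [eq_div_iff t5]
      exact h4a
    have e4 : g (T s) = -f (T s) / h1 (T s) ^ k := by
      rw [t6]
      field_simp
    constructor
    · have h6 := HasDerivAt.comp s aZs.differentiableAt.hasDerivAt
        aTs.differentiableAt.hasDerivAt
      have h7 : deriv Z (T s) * deriv T s = (k : ℂ) / 2 * s ^ (m + k) * v s ^ 3 := by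
        rw [h4b]
        simp only [hA]
        rw [t1, e3, div_pow]
        field_simp
      rw [← h7]
      exact h6
    · have h6 := HasDerivAt.comp s aWs.differentiableAt.hasDerivAt
        aTs.differentiableAt.hasDerivAt
      have h7 : deriv W (T s) * deriv T s = -((k : ℂ) / 2) * s ^ m * v s ^ 3 := by
        rw [h4b]
        simp only [hA]
        rw [t2, e3, e4, div_pow, pow_add]
        field_simp
      rw [← h7]
      exact h6

end H719FX
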