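import Pool.Agent.H719R4.FX.IBT

/-! ITN: the Borel transform does not vanish at both points (helper991 for helper719) -/

open Complex Set Filter Topology

namespace H719FX

open H738CZ

/-- coefficients of exponential type -/
def ITN_E (a : ℕ → ℂ) : Prop := ∃ A K : ℝ, 0 ≤ A ∧ 0 < K ∧
  ∀ m, ‖a m‖ ≤ A * (K ^ m / (m.factorial : ℝ))

/-- the entire function with the given coefficients -/
noncomputable def ITN_F (a : ℕ → ℂ) (z : ℂ) : ℂ := ∑' m, a m * z ^ m

/-- the coefficients of the derivative -/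
def ITN_D (a : ℕ → ℂ) (m : ℕ) : ℂ := (m + 1) * a (m + 1)

/-- the coefficients of `z f z` -/
def ITN_S (a : ℕ → ℂ) (m : ℕ) : ℂ := if m = 0 then 0 else a (m - 1)

theorem ITN_E_D {a : ℕ → ℂ} (h : ITN_E a) : ITN_E (ITN_D a) := by
  obtain ⟨A, K, hA, hK, h⟩ := h
  refine ⟨A * K, K, by positivity, hK, fun m => ?_⟩
  unfold ITN_D
  have e1 : ‖(m : ℂ) + 1‖ = m + 1 := by
    have : (m : ℂ) + 1 = ((m + 1 : ℝ) : ℂ) := by push_cast; ring
    rw [this, Complex.norm_real, Real.norm_eq_abs, abs_of_pos (by positivity)]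
  rw [norm_mul, e1]
  calc ((m : ℝ) + 1) * ‖a (m + 1)‖ ≤
      ((m : ℝ) + 1) * (A * (K ^ (m + 1) / ((m + 1).factorial : ℝ))) :=
        mul_le_mul_of_nonneg_left (h (m + 1)) (by positivity)
    _ = A * K * (K ^ m / (m.factorial : ℝ)) := by
        rw [Nat.factorial_succ]
        push_cast
        field_simp
        ring

theorem ITN_summable {a : ℕ → ℂ} (h : ITN_E a) (z : ℂ) : Summable fun m => ‖a m * z ^ m‖ := by
  obtain ⟨A, K, hA, hK, h⟩ := h
  refine Summable.of_nonneg_of_le (fun m => norm_nonneg _) (fun m => ?_)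
    ((Real.summable_pow_div_factorial (K * ‖z‖)).mul_left A)
  rw [norm_mul, norm_pow]
  calc ‖a m‖ * ‖z‖ ^ m ≤ (A * (K ^ m / (m.factorial : ℝ))) * ‖z‖ ^ m :=
        mul_le_mul_of_nonneg_right (h m) (by positivity)
    _ = A * ((K * ‖z‖) ^ m / (m.factorial : ℝ)) := by rw [mul_pow]; ring

theorem ITN_deriv {a : ℕ → ℂ} (h : ITN_E a) (z : ℂ) :
    HasDerivAt (ITN_F a) (ITN_F (ITN_D a) z) z := by
  have hD := ITN_summable (ITN_E_D h)
  set ρ : ℝ := ‖z‖ + 1 with hρ
  have hρ0 : 0 < ρ := by positivity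
  have hsum : Summable fun m : ℕ => ‖a m‖ * (m * ρ ^ (m - 1)) := by
    rw [← summable_nat_add_iff 1]
    have h1 := hD (ρ : ℂ)
    refine h1.congr fun m => ?_
    unfold ITN_D
    have e1 : ‖(m : ℂ) + 1‖ = m + 1 := by
      have : (m : ℂ) + 1 = ((m + 1 : ℝ) : ℂ) := by push_cast; ring
      rw [this, Complex.norm_real, Real.norm_eq_abs, abs_of_pos (by positivity)]
    rw [norm_mul, norm_mul, norm_pow, e1, Complex.norm_real, Real.norm_eq_abs, abs_of_pos hρ0,
      Nat.add_sub_cancel]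
    push_cast
    ring
  have hz : z ∈ Metric.ball (0 : ℂ) ρ := by
    rw [mem_ball_zero_iff]
    linarith
  have key := hasDerivAt_tsum_of_isPreconnected (g := fun (m : ℕ) (y : ℂ) => a m * y ^ m)
    (g' := fun (m : ℕ) (y : ℂ) => a m * (m * y ^ (m - 1))) hsum Metric.isOpen_ball
    (convex_ball (0 : ℂ) ρ).isPreconnected
    (fun m y _ => (hasDerivAt_pow m y).const_mul (a m))
    (fun m y hy => by
      rw [norm_mul, norm_mul, norm_pow, Complex.norm_natCast]
      rw [mem_ball_zero_iff] at hy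
      gcongr) hz (ITN_summable h z).of_norm hz
  have e : ∑' m : ℕ, a m * (m * z ^ (m - 1)) = ITN_F (ITN_D a) z := by
    have hs2 : Summable fun m : ℕ => a m * (m * z ^ (m - 1)) := by
      refine Summable.of_norm_bounded hsum fun m => ?_
      rw [norm_mul, norm_mul, norm_pow, Complex.norm_natCast]
      gcongr
      linarith
    rw [hs2.tsum_eq_zero_add]
    unfold ITN_F ITN_D
    simp only [Nat.cast_zero, zero_mul, mul_zero, zero_add]
    refine tsum_congr fun m => ?_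
    rw [Nat.add_sub_cancel]
    push_cast
    ring
  rw [e] at key
  exact key

theorem ITN_shift {a : ℕ → ℂ} (h : ITN_E a) (z : ℂ) :
    (Summable fun m => ITN_S a m * z ^ m) ∧ z * ITN_F a z = ITN_F (ITN_S a) z := by
  have hs : Summable fun m => ITN_S a m * z ^ m := by
    rw [← summable_nat_add_iff 1]
    refine ((ITN_summable h z).of_norm.mul_left z).congr fun m => ?_
    unfold ITN_S
    rw [if_neg (Nat.succ_ne_zero m), Nat.add_sub_cancel]
    ring
  refine ⟨hs, ?_⟩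
  unfold ITN_F
  rw [hs.tsum_eq_zero_add, ← tsum_mul_left]
  simp only [ITN_S, if_true, zero_mul, zero_add]
  refine tsum_congr fun m => ?_
  rw [if_neg (Nat.succ_ne_zero m), Nat.add_sub_cancel]
  ring

theorem ITN_coef_zero : ∀ (n : ℕ) (a : ℕ → ℂ), ITN_E a → (∀ z, ITN_F a z = 0) → a n = 0 := by
  intro n
  induction n with
  | zero =>
    intro a h h0
    have h1 := h0 0
    unfold ITN_F at h1
    rw [(ITN_summable h 0).of_norm.tsum_eq_zero_add] at h1
    simpa using h1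
  | succ n ih =>
    intro a h h0
    have h1 : ∀ z, ITN_F (ITN_D a) z = 0 := by
      intro z
      have h2 := ITN_deriv h z
      have h3 : ITN_F a = fun _ => 0 := funext h0
      rw [h3] at h2
      exact h2.unique (hasDerivAt_const z (0 : ℂ))
    have h4 := ih (ITN_D a) (ITN_E_D h) h1
    unfold ITN_D at h4
    rcases mul_eq_zero.1 h4 with h5 | h5
    · exact absurd h5 (Nat.cast_add_one_ne_zero n)
    · exact h5

theorem ITN_E_tI (σ : ℝ) (hσ : 0 < σ) : ITN_E (tI σ) := by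
  obtain ⟨A, hA, h⟩ := IBT_tI_bound σ hσ
  exact ⟨A, 2, hA, two_pos, h⟩

/-- the differential equation of `TI` -/
theorem ITN_ode (σ : ℝ) (hσ : 0 < σ) (z : ℂ) :
    z * ITN_F (ITN_D (ITN_D (tI σ))) z =
      (z + (2 * σ + 2)) * ITN_F (ITN_D (tI σ)) z - (σ + 1) * ITN_F (tI σ) z := by
  have hE := ITN_E_tI σ hσ
  have hE1 := ITN_E_D hE
  have hE2 := ITN_E_D hE1
  obtain ⟨hs2, e2⟩ := ITN_shift hE2 z
  obtain ⟨hs1, e1⟩ := ITN_shift hE1 z
  rw [e2, add_mul, e1]
  have h1 := (ITN_summable hE1 z).of_norm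
  have h0 := (ITN_summable hE z).of_norm
  unfold ITN_F
  rw [← tsum_mul_left, ← tsum_mul_left, ← hs1.tsum_add (h1.mul_left _),
    ← (hs1.add (h1.mul_left _)).tsum_sub (h0.mul_left _)]
  refine tsum_congr fun m => ?_
  rcases Nat.eq_zero_or_pos m with rfl | hm
  · have h3 := IBT_tI_succ σ 0
    simp only [ITN_S, ITN_D, if_true, zero_add, pow_zero, mul_one, Nat.cast_zero] at h3 ⊢
    linear_combination h3
  · obtain ⟨n, rfl⟩ : ∃ n, m = n + 1 := ⟨m - 1, by omega⟩
    have h3 := IBT_tI_succ σ (n + 1)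
    simp only [ITN_S, ITN_D, Nat.add_sub_cancel]
    rw [if_neg (Nat.succ_ne_zero n), if_neg (Nat.succ_ne_zero n)]
    push_cast at h3 ⊢
    linear_combination z ^ (n + 1) * h3

/-- the function on the real line -/
noncomputable def ITN_P (σ : ℝ) (x : ℝ) : ℂ := cexp (-(I * x)) * ITN_F (tI σ) (2 * I * x)

noncomputable def ITN_P1 (σ : ℝ) (x : ℝ) : ℂ :=
  cexp (-(I * x)) * (-I * ITN_F (tI σ) (2 * I * x) + 2 * I * ITN_F (ITN_D (tI σ)) (2 * I * x))

theorem ITN_hasDeriv_F {a : ℕ → ℂ} (h : ITN_E a) (x : ℝ) :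
    HasDerivAt (fun x : ℝ => ITN_F a (2 * I * x)) (2 * I * ITN_F (ITN_D a) (2 * I * x)) x := by
  have h1 := ITN_deriv h (2 * I * x)
  have h2 : HasDerivAt (fun x : ℝ => 2 * I * (x : ℂ)) (2 * I) x := by
    have := (Complex.ofRealCLM.hasDerivAt (x := x)).const_mul (2 * I)
    simpa using this
  exact (h1.comp x h2).congr_deriv (mul_comm _ _)

theorem ITN_hasDeriv_e (x : ℝ) :
    HasDerivAt (fun x : ℝ => cexp (-(I * x))) (-I * cexp (-(I * x))) x := by
  have h2 : HasDerivAt (fun x : ℝ => -(I * (x : ℂ))) (-I) x := by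
    have := ((Complex.ofRealCLM.hasDerivAt (x := x)).const_mul I).fun_neg
    simpa using this
  exact h2.cexp.congr_deriv (mul_comm _ _)

theorem ITN_P_deriv (σ : ℝ) (hσ : 0 < σ) (x : ℝ) :
    HasDerivAt (ITN_P σ) (ITN_P1 σ x) x := by
  have hE := ITN_E_tI σ hσ
  have h := (ITN_hasDeriv_e x).mul (ITN_hasDeriv_F hE x)
  refine h.congr_deriv ?_
  unfold ITN_P1
  ring

theorem ITN_P1_deriv (σ : ℝ) (hσ : 0 < σ) (x : ℝ) (hx : x ≠ 0) :
    HasDerivAt (ITN_P1 σ) ((2 * σ + 2) * ITN_P1 σ x / x - ITN_P σ x) x := by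
  have hE := ITN_E_tI σ hσ
  have hE1 := ITN_E_D hE
  have h := (ITN_hasDeriv_e x).mul
    (((ITN_hasDeriv_F hE x).const_mul (-I)).add ((ITN_hasDeriv_F hE1 x).const_mul (2 * I)))
  refine h.congr_deriv ?_
  have hx' : (x : ℂ) ≠ 0 := Complex.ofReal_ne_zero.2 hx
  have ho := ITN_ode σ hσ (2 * I * x)
  unfold ITN_P1 ITN_P
  rw [eq_sub_iff_add_eq, eq_div_iff hx']
  simp only [Pi.add_apply]
  generalize ITN_F (tI σ) (2 * I * x) = T at ho ⊢
  generalize ITN_F (ITN_D (tI σ)) (2 * I * x) = T1 at ho ⊢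
  generalize ITN_F (ITN_D (ITN_D (tI σ))) (2 * I * x) = T2 at ho ⊢
  generalize cexp (-(I * x)) = E
  have hI2 : I ^ 2 = -1 := Complex.I_sq
  linear_combination (2 * I * E) * ho + (E * x * T) * hI2

theorem ITN_tI_ne (σ : ℝ) (hσ : 0 < σ) (hne : ∀ n : ℕ, σ ≠ n) (m : ℕ) (hm : 2 * σ + 2 < m) :
    tI σ m ≠ 0 := by
  unfold tI
  refine mul_ne_zero (mul_ne_zero (pow_ne_zero _ (by norm_num)) ?_) (inv_ne_zero ?_)
  · simp only [binS, PowerSeries.coeff_mk]
    refine div_ne_zero (Finset.prod_ne_zero_iff.2 fun i _ h => ?_)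
      (Nat.cast_ne_zero.2 m.factorial_ne_zero)
    have h1 : ((σ + 1 - i : ℝ) : ℂ) = 0 := by push_cast; exact h
    have h2 : σ + 1 - i = 0 := Complex.ofReal_eq_zero.1 h1
    rcases Nat.eq_zero_or_pos i with rfl | hi
    · simp only [Nat.cast_zero] at h2
      linarith
    · obtain ⟨n, rfl⟩ : ∃ n, i = n + 1 := ⟨i - 1, by omega⟩
      apply hne n
      push_cast at h2
      linarith
  · apply Complex.Gamma_ne_zero_of_re_pos
    have h1 : (m : ℂ) - 2 * σ - 2 = ((m - 2 * σ - 2 : ℝ) : ℂ) := by push_cast; ring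
    rw [h1, Complex.ofReal_re]
    linarith

theorem ITN_P_zero (hSTU : StSTU) (σ : ℝ) (hσ : 0 < σ) (h1 : ITN_P σ Real.pi = 0)
    (h2 : ITN_P σ (2 * Real.pi) = 0) : ∀ x ∈ Icc Real.pi (2 * Real.pi), ITN_P σ x = 0 := by
  have hx0 : ∀ x ∈ Icc Real.pi (2 * Real.pi), x ≠ 0 := fun x hx =>
    (Real.pi_pos.trans_le hx.1).ne'
  have hre : ∀ x ∈ Icc Real.pi (2 * Real.pi), (ITN_P σ x).re = 0 := by
    refine hSTU σ (fun x => (ITN_P σ x).re) (fun x => (ITN_P1 σ x).re) hσ ?_ ?_ ?_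
    · intro x hx
      refine ⟨?_, ?_⟩
      · exact Complex.reCLM.hasFDerivAt.comp_hasDerivAt x (ITN_P_deriv σ hσ x)
      · have h3 := Complex.reCLM.hasFDerivAt.comp_hasDerivAt x (ITN_P1_deriv σ hσ x (hx0 x hx))
        refine h3.congr_deriv ?_
        rw [Complex.reCLM_apply, Complex.sub_re, Complex.div_ofReal_re]
        have : (2 * (σ : ℂ) + 2) = ((2 * σ + 2 : ℝ) : ℂ) := by push_cast; ring
        rw [this, Complex.re_ofReal_mul]
    · simp only [h1, Complex.zero_re]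
    · simp only [h2, Complex.zero_re]
  have him : ∀ x ∈ Icc Real.pi (2 * Real.pi), (ITN_P σ x).im = 0 := by
    refine hSTU σ (fun x => (ITN_P σ x).im) (fun x => (ITN_P1 σ x).im) hσ ?_ ?_ ?_
    · intro x hx
      refine ⟨?_, ?_⟩
      · exact Complex.imCLM.hasFDerivAt.comp_hasDerivAt x (ITN_P_deriv σ hσ x)
      · have h3 := Complex.imCLM.hasFDerivAt.comp_hasDerivAt x (ITN_P1_deriv σ hσ x (hx0 x hx))
        refine h3.congr_deriv ?_
        rw [Complex.imCLM_apply, Complex.sub_im, Complex.div_ofReal_im]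
        have : (2 * (σ : ℂ) + 2) = ((2 * σ + 2 : ℝ) : ℂ) := by push_cast; ring
        rw [this, Complex.im_ofReal_mul]
    · simp only [h1, Complex.zero_im]
    · simp only [h2, Complex.zero_im]
  intro x hx
  exact Complex.ext (hre x hx) (him x hx)

theorem tITN (hSTU : StSTU) : StITN := by
  intro σ hσ hne ⟨h1, h2⟩
  have hE := ITN_E_tI σ hσ
  have hTI : ∀ z, TI σ z = ITN_F (tI σ) z := fun z => rfl
  have p1 : ITN_P σ Real.pi = 0 := by
    unfold ITN_P
    have e : (2 * I * (Real.pi : ℂ)) = 2 * Real.pi * I := by ring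
    rw [e, ← hTI, h1, mul_zero]
  have p2 : ITN_P σ (2 * Real.pi) = 0 := by
    unfold ITN_P
    have e : (2 * I * ((2 * Real.pi : ℝ) : ℂ)) = 4 * Real.pi * I := by push_cast; ring
    rw [e, ← hTI, h2, mul_zero]
  have hP := ITN_P_zero hSTU σ hσ p1 p2
  have hF : ∀ x ∈ Icc Real.pi (2 * Real.pi), ITN_F (tI σ) (2 * I * x) = 0 := by
    intro x hx
    have h3 := hP x hx
    unfold ITN_P at h3
    exact (mul_eq_zero.1 h3).resolve_left (Complex.exp_ne_zero _)
  have han : AnalyticOnNhd ℂ (ITN_F (tI σ)) univ := by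
    refine DifferentiableOn.analyticOnNhd ?_ isOpen_univ
    intro z _
    exact (ITN_deriv hE z).differentiableAt.differentiableWithinAt
  set x0 : ℝ := 3 / 2 * Real.pi with hx0
  have hmem : Icc Real.pi (2 * Real.pi) ∈ 𝓝 x0 := by
    apply Icc_mem_nhds
    · linarith [Real.pi_pos]
    · linarith [Real.pi_pos]
  have htend : Tendsto (fun x : ℝ => 2 * I * (x : ℂ)) (𝓝[≠] x0) (𝓝[≠] (2 * I * (x0 : ℂ))) := by
    refine tendsto_nhdsWithin_of_tendsto_nhds_of_eventually_within _ ?_ ?_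
    · have hc : Continuous (fun x : ℝ => 2 * I * (x : ℂ)) := by fun_prop
      exact hc.continuousAt.tendsto.mono_left nhdsWithin_le_nhds
    · filter_upwards [self_mem_nhdsWithin] with x hx
      intro h
      apply hx
      have h3 : (x : ℂ) = x0 := mul_left_cancel₀ (by simp) h
      exact_mod_cast h3
  have hfreq : ∃ᶠ z in 𝓝[≠] (2 * I * (x0 : ℂ)), ITN_F (tI σ) z = 0 := by
    refine htend.frequently (Eventually.frequently ?_)
    filter_upwards [nhdsWithin_le_nhds hmem] with x hx using hF x hx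
  have hzero := han.eqOn_zero_of_preconnected_of_frequently_eq_zero isPreconnected_univ
    (mem_univ _) hfreq
  obtain ⟨m, hm⟩ := exists_nat_gt (2 * σ + 2)
  exact ITN_tI_ne σ hσ hne m hm (ITN_coef_zero m (tI σ) hE fun z => hzero (mem_univ z))

end H719FX
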