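import Pool.Agent.H719R4.FX.Cov
import Pool.Agent.H719R4.FX.CRC

/-!
# Cauchy bound (adapted from `CRC.lean`)
-/

set_option autoImplicit false

open Complex Set Filter Topology

namespace H719FX

open H738CZ

theorem tNCB : StNCB := by
  intro w R g G γ ω L hR hω hSG hG hγ
  have hR2 : 0 < R / 2 := by linarith
  have hsub : Metric.sphere (0 : ℂ) (R / 2) ⊆ V3 R := by
    intro z hz
    have hz' : ‖z‖ = R / 2 := by simpa using hz
    refine ⟨?_, ?_⟩
    · rw [mem_ball_zero_iff, hz']; linarith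
    · simp only [mem_singleton_iff]
      intro h0
      rw [h0, norm_zero] at hz'
      linarith
  have hcov : SG g (Metric.sphere (0 : ℂ) (R / 2)) := by
    refine IsCompact.induction_on (isCompact_sphere (0 : ℂ) (R / 2)) ?_ ?_ ?_ ?_
    · exact ⟨1, 0, le_refl _, le_refl _, one_pos, fun j _ t ht => absurd ht (notMem_empty t)⟩
    · rintro s t hst ⟨C, e, h1, h2, h3, h4⟩
      exact ⟨C, e, h1, h2, h3, fun j hj x hx => h4 j hj x (hst hx)⟩
    · intro s t hs ht
      exact CRC_unionk g s t hs ht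
    · intro x hx
      obtain ⟨η, hη, _, h⟩ := hSG x (hsub hx)
      exact ⟨Metric.ball x η, mem_nhdsWithin_of_mem_nhds (Metric.ball_mem_nhds x hη), h⟩
  obtain ⟨C, s, hC, hs, hs', hg⟩ := hcov
  set K : ℝ := (max 1 (R / 2)) ^ w with hK
  have hK1 : 1 ≤ K := one_le_pow₀ (le_max_left _ _)
  set M : ℝ := max 1 (2 * (1 / (R / 2) ^ L)) with hM
  have hM1 : 1 ≤ M := le_max_left _ _
  have hM2 : 2 * (1 / (R / 2) ^ L) ≤ M := le_max_right _ _
  refine ⟨C * K * M, s, one_le_mul_of_one_le_of_one_le (one_le_mul_of_one_le_of_one_le hC hK1) hM1,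
    hs, hs', ?_⟩
  intro j hj
  -- bound for `G j` on the circle
  have hB : ∀ z ∈ Metric.sphere (0 : ℂ) (R / 2),
      ‖G j z‖ ≤ (C * K) ^ j * ((2 * j).factorial : ℝ) ^ s := by
    intro z hz
    have hz' : ‖z‖ = R / 2 := by simpa using hz
    obtain ⟨_, he⟩ := hG j hj
    rw [← he z (hsub hz), norm_mul, norm_pow, hz']
    have h1 := hg j hj z hz
    have h2 : (R / 2) ^ (w * (j - 1)) ≤ K ^ j := by
      calc (R / 2) ^ (w * (j - 1)) ≤ (max 1 (R / 2)) ^ (w * (j - 1)) :=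
            pow_le_pow_left₀ hR2.le (le_max_right _ _) _
        _ = K ^ (j - 1) := by rw [hK, pow_mul]
        _ ≤ K ^ j := pow_le_pow_right₀ hK1 (Nat.sub_le _ _)
    calc ‖g j z‖ * (R / 2) ^ (w * (j - 1)) ≤
        (C ^ j * ((2 * j).factorial : ℝ) ^ s) * K ^ j := by
          refine mul_le_mul h1 h2 (by positivity) (by positivity)
      _ = (C * K) ^ j * ((2 * j).factorial : ℝ) ^ s := by rw [mul_pow]; ring
  obtain ⟨hd, he⟩ := hγ j hj
  have hcl : Metric.closedBall (0 : ℂ) (R / 2) ⊆ Metric.ball 0 R :=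
    Metric.closedBall_subset_ball (by linarith)
  refine Complex.norm_le_of_forall_mem_frontier_norm_le (U := Metric.ball (0 : ℂ) (R / 2))
    Metric.isBounded_ball (hd.diffContOnCl_ball hcl) ?_ (subset_closure (Metric.mem_ball_self hR2))
  intro z hz
  rw [frontier_ball (0 : ℂ) hR2.ne'] at hz
  have hz' : ‖z‖ = R / 2 := by simpa using hz
  have hωz : ω * z ∈ Metric.sphere (0 : ℂ) (R / 2) := by
    rw [mem_sphere_zero_iff_norm, norm_mul, hω, one_mul, hz']
  have h3 := he z (hsub hz).1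
  have h4 : ‖z ^ L * γ j z‖ ≤ 2 * ((C * K) ^ j * ((2 * j).factorial : ℝ) ^ s) := by
    rw [← h3]
    have := norm_sub_le (G j (ω * z)) (G j z)
    have h5 := hB _ hωz
    have h6 := hB _ hz
    linarith
  rw [norm_mul, norm_pow, hz'] at h4
  have hpL : 0 < (R / 2) ^ L := by positivity
  have hBn : 0 ≤ (C * K) ^ j * ((2 * j).factorial : ℝ) ^ s := by
    have : 0 ≤ C * K := by nlinarith
    positivity
  calc ‖γ j z‖ = (1 / (R / 2) ^ L) * ((R / 2) ^ L * ‖γ j z‖) := by
        field_simp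
    _ ≤ (1 / (R / 2) ^ L) * (2 * ((C * K) ^ j * ((2 * j).factorial : ℝ) ^ s)) := by
        gcongr
    _ = (2 * (1 / (R / 2) ^ L)) * ((C * K) ^ j * ((2 * j).factorial : ℝ) ^ s) := by ring
    _ ≤ M * ((C * K) ^ j * ((2 * j).factorial : ℝ) ^ s) := mul_le_mul_of_nonneg_right hM2 hBn
    _ ≤ M ^ j * ((C * K) ^ j * ((2 * j).factorial : ℝ) ^ s) := by
        refine mul_le_mul_of_nonneg_right ?_ hBn
        calc M = M ^ 1 := (pow_one M).symm
          _ ≤ M ^ j := pow_le_pow_right₀ hM1 hj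
    _ = (C * K * M) ^ j * ((2 * j).factorial : ℝ) ^ s := by rw [mul_pow (C * K) M]; ring

end H719FX
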