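import Pool.Agent.H719R4.FX.Cov
import Pool.Agent.H719R4.FX.WT
import Pool.Agent.H738R3.CZ.REC
import Pool.Agent.H738R3.CZ.CHG

/-!
# NDA: the deck transformation changes `G j` only to the order `L`
-/

open Complex Set Filter Topology

namespace H719FX

open H738CZ

/-- two functions of weight `w` whose difference has weight `w - L` -/
structure NDA_W (R : ℝ) (L : ℕ) (w : ℤ) (f f' : ℂ → ℂ) : Prop where
  a : WT_W R w f
  b : WT_W R w f'
  c : WT_W R (w - L) (fun t => f' t - f t)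

theorem NDA_congr {R : ℝ} {L : ℕ} {w : ℤ} {f f' h h' : ℂ → ℂ} (e : EqOn h f (V3 R))
    (e' : EqOn h' f' (V3 R)) (H : NDA_W R L w f f') : NDA_W R L w h h' :=
  ⟨WT_congr e H.a, WT_congr e' H.b, WT_congr (fun t ht => by
    show h' t - h t = f' t - f t
    rw [e ht, e' ht]) H.c⟩

theorem NDA_const {R : ℝ} {L : ℕ} {w : ℤ} {f : ℂ → ℂ} (h : WT_W R w f) : NDA_W R L w f f :=
  ⟨h, h, WT_congr (fun t _ => by
    show f t - f t = 0
    rw [sub_self]) (WT_zero R _)⟩

theorem NDA_add {R : ℝ} {L : ℕ} {w : ℤ} {f f' h h' : ℂ → ℂ} (H : NDA_W R L w f f')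
    (H' : NDA_W R L w h h') : NDA_W R L w (fun t => f t + h t) (fun t => f' t + h' t) :=
  ⟨WT_add H.a H'.a, WT_add H.b H'.b, WT_congr (fun t _ => by
    show f' t + h' t - (f t + h t) = (f' t - f t) + (h' t - h t)
    ring) (WT_add H.c H'.c)⟩

theorem NDA_mul {R : ℝ} {L : ℕ} {w w' : ℤ} {f f' h h' : ℂ → ℂ} (H : NDA_W R L w f f')
    (H' : NDA_W R L w' h h') :
    NDA_W R L (w + w') (fun t => f t * h t) (fun t => f' t * h' t) := by
  refine ⟨WT_mul H.a H'.a, WT_mul H.b H'.b, ?_⟩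
  have h1 := WT_mul H.b H'.c
  have h2 := WT_mul H.c H'.a
  have e1 : w + (w' - L) = w + w' - L := by ring
  have e2 : w - L + w' = w + w' - L := by ring
  rw [e1] at h1
  rw [e2] at h2
  refine WT_congr (fun t _ => ?_) (WT_add h1 h2)
  show f' t * h' t - f t * h t = f' t * (h' t - h t) + (f' t - f t) * h t
  ring

theorem NDA_smul {R : ℝ} {L : ℕ} {w : ℤ} {f f' : ℂ → ℂ} (c : ℂ) (H : NDA_W R L w f f') :
    NDA_W R L w (fun t => c * f t) (fun t => c * f' t) :=
  ⟨WT_smul c H.a, WT_smul c H.b, WT_congr (fun t _ => by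
    show c * f' t - c * f t = c * (f' t - f t)
    ring) (WT_smul c H.c)⟩

theorem NDA_mono {R : ℝ} {L : ℕ} {w w' : ℤ} {f f' : ℂ → ℂ} (h : w ≤ w') (H : NDA_W R L w f f') :
    NDA_W R L w' f f' :=
  ⟨WT_mono h H.a, WT_mono h H.b, WT_mono (by omega) H.c⟩

theorem NDA_sum {R : ℝ} {L : ℕ} {w : ℤ} {ι : Type} (s : Finset ι) (f f' : ι → ℂ → ℂ)
    (h : ∀ i ∈ s, NDA_W R L w (f i) (f' i)) :
    NDA_W R L w (fun t => ∑ i ∈ s, f i t) (fun t => ∑ i ∈ s, f' i t) := by
  refine ⟨WT_sum s f fun i hi => (h i hi).a, WT_sum s f' fun i hi => (h i hi).b, ?_⟩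
  refine WT_congr (fun t _ => ?_) (WT_sum s (fun i t => f' i t - f i t) fun i hi => (h i hi).c)
  show ∑ i ∈ s, f' i t - ∑ i ∈ s, f i t = ∑ i ∈ s, (f' i t - f i t)
  rw [Finset.sum_sub_distrib]

theorem NDA_pow {R : ℝ} {L : ℕ} {w : ℤ} {f f' : ℂ → ℂ} (H : NDA_W R L w f f') (j : ℕ) :
    NDA_W R L (j * w) (fun t => f t ^ j) (fun t => f' t ^ j) := by
  induction j with
  | zero =>
    have h1 : NDA_W R L 0 (fun _ => (1 : ℂ)) (fun _ => 1) := NDA_const (WT_one R)
    simpa using h1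
  | succ j ih =>
    have h1 := NDA_mul ih H
    have e : ((j + 1 : ℕ) : ℤ) * w = j * w + w := by push_cast; ring
    rw [e]
    refine NDA_congr (fun t _ => ?_) (fun t _ => ?_) h1
    · simp only [pow_succ]
    · simp only [pow_succ]

theorem NDA_diff {R : ℝ} {w : ℤ} {f : ℂ → ℂ} (hf : WT_W R w f) {t : ℂ} (ht : t ∈ V3 R) :
    DifferentiableAt ℂ f t := by
  obtain ⟨F, h1, h2⟩ := hf
  have h0 := WT_ne ht
  have hev : f =ᶠ[𝓝 t] fun s => F s * s ^ (-w) := by
    filter_upwards [(WT_open R).mem_nhds ht] with s hs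
    have hs0 := WT_ne hs
    rw [← h2 s hs, mul_assoc, ← zpow_add₀ hs0, add_neg_cancel, zpow_zero, mul_one]
  have hF : DifferentiableAt ℂ F t :=
    h1.differentiableAt (Metric.isOpen_ball.mem_nhds (WT_ball ht))
  exact (hF.mul (differentiableAt_zpow.2 (Or.inl h0))).congr_of_eventuallyEq hev

theorem NDA_DD {R : ℝ} {L k : ℕ} (hk : 1 ≤ k) {w : ℤ} {f f' : ℂ → ℂ} (H : NDA_W R L w f f') :
    NDA_W R L (w + 3 * k) (DD (dk k) f) (DD (dk k) f') := by
  refine ⟨WT_kDD hk H.a, WT_kDD hk H.b, ?_⟩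
  have h1 := WT_kDD hk H.c
  have e : w - L + 3 * k = w + 3 * k - L := by ring
  rw [e] at h1
  refine WT_congr (fun t ht => ?_) h1
  show deriv f' t / dk k t - deriv f t / dk k t = deriv (fun t => f' t - f t) t / dk k t
  have h2 : deriv (fun t => f' t - f t) t = deriv f' t - deriv f t :=
    deriv_fun_sub (NDA_diff H.b ht) (NDA_diff H.a ht)
  rw [h2, sub_div]

theorem NDA_DDl {R : ℝ} {L k : ℕ} (hk : 1 ≤ k) {w : ℤ} {f f' : ℂ → ℂ} (H : NDA_W R L w f f')
    (l : ℕ) : NDA_W R L (w + 3 * k * l) ((DD (dk k))^[l] f) ((DD (dk k))^[l] f') := by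
  induction l with
  | zero => simpa using H
  | succ l ih =>
    rw [Function.iterate_succ_apply', Function.iterate_succ_apply']
    have h1 := NDA_DD hk ih
    have e : w + 3 * k * ((l + 1 : ℕ) : ℤ) = w + 3 * k * l + 3 * k := by push_cast; ring
    rw [e]
    exact h1

/-- weights of two families of power series -/
def NDA_P (R : ℝ) (L k : ℕ) (w : ℤ) (P P' : ℂ → PowerSeries ℂ) : Prop :=
  ∀ n : ℕ, NDA_W R L (w + 3 * k * n) (fun t => PowerSeries.coeff n (P t))
    (fun t => PowerSeries.coeff n (P' t))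

theorem NDA_Pmul {R : ℝ} {L k : ℕ} {w w' : ℤ} {P P' Q Q' : ℂ → PowerSeries ℂ}
    (h : NDA_P R L k w P P') (h' : NDA_P R L k w' Q Q') :
    NDA_P R L k (w + w') (fun t => P t * Q t) (fun t => P' t * Q' t) := by
  intro n
  have h3 : ∀ p ∈ (Finset.HasAntidiagonal.antidiagonal n : Finset (ℕ × ℕ)),
      NDA_W R L (w + w' + 3 * k * n)
        (fun t => PowerSeries.coeff p.1 (P t) * PowerSeries.coeff p.2 (Q t))
        (fun t => PowerSeries.coeff p.1 (P' t) * PowerSeries.coeff p.2 (Q' t)) := by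
    intro p hp
    rw [Finset.HasAntidiagonal.mem_antidiagonal] at hp
    have h2 := NDA_mul (h p.1) (h' p.2)
    have e : w + w' + 3 * k * (n : ℤ) = w + 3 * k * (p.1 : ℤ) + (w' + 3 * k * (p.2 : ℤ)) := by
      rw [← hp]; push_cast; ring
    rw [e]
    exact h2
  have h1 := NDA_sum (Finset.HasAntidiagonal.antidiagonal n : Finset (ℕ × ℕ))
    (fun p t => PowerSeries.coeff p.1 (P t) * PowerSeries.coeff p.2 (Q t))
    (fun p t => PowerSeries.coeff p.1 (P' t) * PowerSeries.coeff p.2 (Q' t)) h3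
  refine NDA_congr (fun t _ => ?_) (fun t _ => ?_) h1
  · exact PowerSeries.coeff_mul n (P t) (Q t)
  · exact PowerSeries.coeff_mul n (P' t) (Q' t)

theorem NDA_Ppow {R : ℝ} {L k : ℕ} {w : ℤ} {P P' : ℂ → PowerSeries ℂ}
    (h : NDA_P R L k w P P') (j : ℕ) :
    NDA_P R L k (j * w) (fun t => P t ^ j) (fun t => P' t ^ j) := by
  induction j with
  | zero =>
    intro n
    by_cases hn : n = 0
    · subst hn
      have h1 : NDA_W R L 0 (fun _ => (1 : ℂ)) (fun _ => 1) := NDA_const (WT_one R)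
      simpa using h1
    · refine NDA_congr (fun t _ => ?_) (fun t _ => ?_) (NDA_const (WT_zero R _))
      · simp [PowerSeries.coeff_one, hn]
      · simp [PowerSeries.coeff_one, hn]
  | succ j ih =>
    have h1 := NDA_Pmul ih h
    have e : ((j + 1 : ℕ) : ℤ) * w = j * w + w := by push_cast; ring
    rw [e]
    intro n
    refine NDA_congr (fun t _ => ?_) (fun t _ => ?_) (h1 n)
    · simp only [pow_succ]
    · simp only [pow_succ]

theorem NDA_Es {R : ℝ} {L k : ℕ} (hk : 1 ≤ k) {w : ℤ} {f f' : ℂ → ℂ} (H : NDA_W R L w f f') :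
    NDA_P R L k w (fun t => Es (dk k) f t) (fun t => Es (dk k) f' t) := by
  intro l
  refine NDA_congr (fun t _ => ?_) (fun t _ => ?_)
    (NDA_smul ((l.factorial : ℂ)⁻¹) (NDA_DDl hk H l))
  · simp only [Es, PowerSeries.coeff_mk]
    ring
  · simp only [Es, PowerSeries.coeff_mk]
    ring

theorem NDA_Ys {kc : ℕ → ℂ} (hker : Ker kc) {R : ℝ} {L k : ℕ} (hk : 1 ≤ k) {w : ℤ}
    {f f' : ℂ → ℂ} (H : NDA_W R L w f f') :
    NDA_P R L k (w - 6 * k) (fun t => Ys kc (dk k) f t) (fun t => Ys kc (dk k) f' t) := by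
  intro n
  have hk0 : kc 0 = 0 := hker.even 0
  have h1 : NDA_W R L (w - 6 * k + 3 * k * n) (fun t => ∑ l ∈ Finset.range n,
      kc (n - 1 - l) * ((DD (dk k))^[l] f) t) (fun t => ∑ l ∈ Finset.range n,
      kc (n - 1 - l) * ((DD (dk k))^[l] f') t) := by
    refine NDA_sum _ (fun l t => kc (n - 1 - l) * ((DD (dk k))^[l] f) t)
      (fun l t => kc (n - 1 - l) * ((DD (dk k))^[l] f') t) fun l hl => ?_
    rw [Finset.mem_range] at hl
    by_cases h : l + 1 = n
    · refine NDA_congr (fun t _ => ?_) (fun t _ => ?_) (NDA_const (WT_zero R _))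
      · show kc (n - 1 - l) * ((DD (dk k))^[l] f) t = 0
        rw [show n - 1 - l = 0 by omega, hk0, zero_mul]
      · show kc (n - 1 - l) * ((DD (dk k))^[l] f') t = 0
        rw [show n - 1 - l = 0 by omega, hk0, zero_mul]
    · refine NDA_smul _ (NDA_mono ?_ (NDA_DDl hk H l))
      have h2 : (0 : ℤ) ≤ (k : ℤ) * ((n : ℤ) - l - 2) :=
        mul_nonneg (Int.natCast_nonneg _) (by omega)
      nlinarith
  refine NDA_congr (fun t _ => ?_) (fun t _ => ?_) (NDA_smul ((n.factorial : ℂ)⁻¹) h1)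
  · simp only [Ys, PowerSeries.coeff_mk]
    ring
  · simp only [Ys, PowerSeries.coeff_mk]
    ring

/-- a continuous function vanishing on the punctured disc vanishes at `0` -/
theorem NDA_zero_at {R : ℝ} (hR : 0 < R) {H : ℂ → ℂ} (hc : ContinuousAt H 0)
    (h : ∀ τ ∈ V3 R, H τ = 0) : H 0 = 0 := by
  have h1 : Tendsto H (𝓝[≠] 0) (𝓝 (H 0)) := hc.tendsto.mono_left nhdsWithin_le_nhds
  have h2 : ∀ᶠ τ in 𝓝[≠] (0 : ℂ), H τ = 0 := by
    filter_upwards [self_mem_nhdsWithin, mem_nhdsWithin_of_mem_nhds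
      (Metric.isOpen_ball.mem_nhds (Metric.mem_ball_self hR))] with τ h3 h4
    exact h τ ⟨h4, h3⟩
  have h5 : Tendsto H (𝓝[≠] 0) (𝓝 0) :=
    (tendsto_congr' h2).2 tendsto_const_nhds
  exact tendsto_nhds_unique h1 h5

/-- division by `τ` -/
theorem NDA_div {R : ℝ} (hR : 0 < R) {γ : ℂ → ℂ} (hγ : DifferentiableOn ℂ γ (Metric.ball 0 R))
    (h0 : γ 0 = 0) : ∃ γ' : ℂ → ℂ, DifferentiableOn ℂ γ' (Metric.ball 0 R) ∧
      ∀ τ ∈ Metric.ball (0 : ℂ) R, γ τ = τ * γ' τ := by
  refine ⟨dslope γ 0, ?_, fun τ _ => ?_⟩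
  · exact (Complex.differentiableOn_dslope
      (Metric.isOpen_ball.mem_nhds (Metric.mem_ball_self hR))).2 hγ
  · have h1 := sub_smul_dslope γ 0 τ
    rw [h0, sub_zero, sub_zero, smul_eq_mul] at h1
    exact h1.symm

/-- the order of vanishing -/
theorem NDA_ord {R : ℝ} (hR : 0 < R) {k M L : ℕ} {ω : ℂ} (hk : 1 ≤ k) (hω : ω ^ (3 * k) = 1)
    (hωM : ω ^ M = 1) {G F : ℂ → ℂ}
    (hG : DifferentiableOn ℂ G (Metric.ball 0 R)) (hF : DifferentiableOn ℂ F (Metric.ball 0 R))
    (hrot : ∀ τ ∈ Metric.ball (0 : ℂ) R, ω * τ ∈ Metric.ball (0 : ℂ) R)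
    (hd : ∀ τ ∈ V3 R, τ * deriv (fun s => G (ω * s) - G s) τ - M * (G (ω * τ) - G τ)
      = τ ^ L * F τ) :
    ∀ n : ℕ, n ≤ L → ∃ γ : ℂ → ℂ, DifferentiableOn ℂ γ (Metric.ball 0 R) ∧
      ∀ τ ∈ Metric.ball (0 : ℂ) R, G (ω * τ) - G τ = τ ^ n * γ τ := by
  have h0m : (0 : ℂ) ∈ Metric.ball (0 : ℂ) R := Metric.mem_ball_self hR
  intro n
  induction n with
  | zero =>
    intro _
    refine ⟨fun s => G (ω * s) - G s, ?_, fun τ _ => by simp⟩
    exact (hG.comp (by fun_prop) hrot).sub hG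
  | succ n ih =>
    intro hn
    obtain ⟨γ, h1, h2⟩ := ih (by omega)
    have hγ0 : γ 0 = 0 := by
      by_cases hnM : n = M
      · -- iterated rotation
        have hro : ∀ i : ℕ, ∀ τ ∈ Metric.ball (0 : ℂ) R, ω ^ i * τ ∈ Metric.ball (0 : ℂ) R := by
          intro i
          induction i with
          | zero => intro τ hτ; simpa using hτ
          | succ i ih =>
            intro τ hτ
            have h := hrot _ (ih τ hτ)
            rwa [← mul_assoc, ← pow_succ'] at h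
        have hs : ∀ τ ∈ V3 R, ∑ i ∈ Finset.range (3 * k), γ (ω ^ i * τ) = 0 := by
          intro τ hτ
          have hb := WT_ball hτ
          have h3 : ∑ i ∈ Finset.range (3 * k), (G (ω ^ (i + 1) * τ) - G (ω ^ i * τ)) = 0 := by
            rw [Finset.sum_range_sub (fun i => G (ω ^ i * τ)), hω]
            simp
          have h4 : ∀ i ∈ Finset.range (3 * k), G (ω ^ (i + 1) * τ) - G (ω ^ i * τ)
              = τ ^ n * γ (ω ^ i * τ) := by
            intro i _
            have h5 := h2 _ (hro i τ hb)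
            rw [← mul_assoc, ← pow_succ'] at h5
            rw [h5, mul_pow, hnM, ← pow_mul, mul_comm i M, pow_mul, hωM, one_pow, one_mul]
          rw [Finset.sum_congr rfl h4, ← Finset.mul_sum] at h3
          exact (mul_eq_zero.1 h3).resolve_left (pow_ne_zero _ (WT_ne hτ))
        have hc : ContinuousAt (fun τ => ∑ i ∈ Finset.range (3 * k), γ (ω ^ i * τ)) 0 := by
          have hca : ∀ i ∈ Finset.range (3 * k), ContinuousAt (fun τ => γ (ω ^ i * τ)) 0 := by
            intro i _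
            have h6 : ContinuousAt γ (ω ^ i * 0) := by
              rw [mul_zero]
              exact (h1.differentiableAt (Metric.isOpen_ball.mem_nhds h0m)).continuousAt
            exact ContinuousAt.comp (f := fun τ : ℂ => ω ^ i * τ) h6
              (continuousAt_const.mul continuousAt_id)
          exact tendsto_finsetSum _ hca
        have h7 := NDA_zero_at hR hc hs
        simp only [mul_zero, Finset.sum_const, Finset.card_range, nsmul_eq_mul] at h7
        refine (mul_eq_zero.1 h7).resolve_left ?_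
        exact Nat.cast_ne_zero.2 (by omega)
      · have hs : ∀ τ ∈ V3 R, ((n : ℂ) - M) * γ τ + τ * deriv γ τ - τ ^ (L - n) * F τ = 0 := by
          intro τ hτ
          have hb := WT_ball hτ
          have h3 : deriv (fun s => G (ω * s) - G s) τ
              = (n : ℂ) * τ ^ (n - 1) * γ τ + τ ^ n * deriv γ τ := by
            have hev : (fun s => G (ω * s) - G s) =ᶠ[𝓝 τ] fun s => s ^ n * γ s := by
              filter_upwards [Metric.isOpen_ball.mem_nhds hb] with s hs
              exact h2 s hs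
            rw [hev.deriv_eq]
            have hγ : HasDerivAt γ (deriv γ τ) τ :=
              (h1.differentiableAt (Metric.isOpen_ball.mem_nhds hb)).hasDerivAt
            exact ((hasDerivAt_pow n τ).mul hγ).deriv
          have h4 := hd τ hτ
          rw [h3, h2 τ hb] at h4
          have h5 : τ * ((n : ℂ) * τ ^ (n - 1)) = n * τ ^ n := by
            rcases Nat.eq_zero_or_pos n with h | h
            · subst h; simp
            · obtain ⟨m, rfl⟩ : ∃ m, n = m + 1 := ⟨n - 1, by omega⟩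
              rw [Nat.add_sub_cancel, pow_succ]
              ring
          have h6 : τ ^ L = τ ^ n * τ ^ (L - n) := by
            rw [← pow_add]
            congr 1
            omega
          have h7 : τ ^ n * (((n : ℂ) - M) * γ τ + τ * deriv γ τ - τ ^ (L - n) * F τ) = 0 := by
            rw [h6] at h4
            linear_combination h4 - γ τ * h5
          exact (mul_eq_zero.1 h7).resolve_left (pow_ne_zero _ (WT_ne hτ))
        have hc : ContinuousAt (fun τ => ((n : ℂ) - M) * γ τ + τ * deriv γ τ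
            - τ ^ (L - n) * F τ) 0 := by
          have hn0 := Metric.isOpen_ball.mem_nhds h0m
          have c1 : ContinuousAt γ 0 := (h1.differentiableAt hn0).continuousAt
          have c2 : ContinuousAt (deriv γ) 0 :=
            ((h1.deriv Metric.isOpen_ball).differentiableAt hn0).continuousAt
          have c3 : ContinuousAt F 0 := (hF.differentiableAt hn0).continuousAt
          exact ((continuousAt_const.mul c1).add (continuousAt_id.mul c2)).sub
            ((continuousAt_id.pow _).mul c3)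
        have h8 := NDA_zero_at hR hc hs
        have h9 : (0 : ℂ) ^ (L - n) = 0 := zero_pow (by omega)
        simp only [zero_mul, h9, add_zero, sub_zero] at h8
        exact (mul_eq_zero.1 h8).resolve_left
          (sub_ne_zero.2 (fun h => hnM (Nat.cast_injective h)))
    obtain ⟨γ', h3, h4⟩ := NDA_div hR h1 hγ0
    refine ⟨γ', h3, fun τ hτ => ?_⟩
    rw [h2 τ hτ, h4 τ hτ, pow_succ]
    ring

theorem tNDA : StNDA := by
  intro kc hker k u R hk hU g G hFI hPol ω L e hω hL he hue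
  have hR := hU.pos
  have hωn : ‖ω‖ = 1 := norm_eq_one_of_pow_eq_one hω (by omega)
  have hω0 : ω ≠ 0 := by
    intro h
    rw [h, norm_zero] at hωn
    exact zero_ne_one hωn
  have hrot : ∀ τ ∈ Metric.ball (0 : ℂ) R, ω * τ ∈ Metric.ball (0 : ℂ) R := by
    intro τ hτ
    rw [mem_ball_zero_iff] at hτ ⊢
    rwa [norm_mul, hωn, one_mul]
  have hrotV : ∀ τ ∈ V3 R, ω * τ ∈ V3 R := by
    intro τ hτ
    exact ⟨hrot τ hτ.1, mul_ne_zero hω0 hτ.2⟩
  have hmaps : ∀ τ ∈ Metric.ball (0 : ℂ) R, τ ^ 3 ∈ Metric.ball (0 : ℂ) (R ^ 3) := by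
    intro τ hτ
    rw [mem_ball_zero_iff] at hτ ⊢
    rw [norm_pow]
    exact pow_lt_pow_left₀ hτ (norm_nonneg _) (by norm_num)
  have hωj : ∀ j : ℕ, ω ^ ((2 * k + 4 * k) * (j - 1)) = 1 := by
    intro j
    have e : (2 * k + 4 * k) * (j - 1) = 3 * k * (2 * (j - 1)) := by ring
    rw [e, pow_mul, hω, one_pow]
  -- the rotated formal integral
  have hFIr : FI kc (dk k) (ρk k k u ∘ fun t => ω * t) (rk k k u ∘ fun t => ω * t)
      (fun j => g j ∘ fun t => ω * t) (V3 R) := by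
    refine tCHG kc (dk k) (ρk k k u) (rk k k u) g (V3 R) (dk k) (fun t => ω * t) (V3 R) hFI
      (WT_open R) (by fun_prop) (fun t ht => hrotV t ht) ?_ hFI.base.d0
    intro t _
    have h1 : deriv (fun t => ω * t) t = ω := by
      rw [deriv_const_mul _ differentiableAt_id, deriv_id'', mul_one]
    rw [h1]
    unfold dk
    have h2 : ω ^ (3 * k - 1) * ω = 1 := by
      rw [← pow_succ, show 3 * k - 1 + 1 = 3 * k by omega, hω]
    rw [mul_pow]
    linear_combination (3 * k * t ^ (3 * k - 1)) * h2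
  -- values of `rk`
  have hrk : ∀ τ ∈ V3 R, rk k k u τ = u (τ ^ 3) := by
    intro τ hτ
    show τ ^ k * u (τ ^ 3) / τ ^ k = u (τ ^ 3)
    rw [mul_comm, mul_div_assoc, div_self (pow_ne_zero _ (WT_ne hτ)), mul_one]
  have hu3 : DifferentiableOn ℂ (fun τ : ℂ => u (τ ^ 3)) (Metric.ball 0 R) :=
    hU.df.comp (differentiableOn_pow 3) hmaps
  have hu3r : DifferentiableOn ℂ (fun τ : ℂ => u ((ω * τ) ^ 3)) (Metric.ball 0 R) :=
    hu3.comp (f := fun τ : ℂ => ω * τ) (by fun_prop) hrot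
  -- weights of the building blocks
  have hr : NDA_W R L 0 (rk k k u) (rk k k u ∘ fun t => ω * t) := by
    refine ⟨⟨_, hu3, fun τ hτ => ?_⟩, ⟨_, hu3r, fun τ hτ => ?_⟩, ⟨e, he, fun τ hτ => ?_⟩⟩
    · rw [zpow_zero, mul_one]
      exact hrk τ hτ
    · rw [zpow_zero, mul_one]
      exact hrk _ (hrotV τ hτ)
    · show (rk k k u (ω * τ) - rk k k u τ) * τ ^ ((0 : ℤ) - L) = e τ
      rw [hrk _ (hrotV τ hτ), hrk τ hτ, hue τ (WT_ball hτ), zero_sub, zpow_neg, zpow_natCast]
      have h1 : τ ^ L ≠ 0 := pow_ne_zero _ (WT_ne hτ)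
      field_simp
  have hρ : NDA_W R L 0 (ρk k k u) (ρk k k u ∘ fun t => ω * t) := by
    have h1 := NDA_pow hr 3
    rw [mul_zero] at h1
    exact h1
  have hri : NDA_W R L 0 (fun t => (rk k k u t)⁻¹) (fun t => ((rk k k u ∘ fun t => ω * t) t)⁻¹) := by
    have hinv : WT_W R 0 (fun t => (rk k k u t)⁻¹) := by
      refine ⟨fun τ => (u (τ ^ 3))⁻¹, hu3.inv (fun τ hτ => hU.nz _ (hmaps τ hτ)), fun τ hτ => ?_⟩
      rw [zpow_zero, mul_one]
      show (rk k k u τ)⁻¹ = _
      rw [hrk τ hτ]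
    have hinvr : WT_W R 0 (fun t => ((rk k k u ∘ fun t => ω * t) t)⁻¹) := by
      refine ⟨fun τ => (u ((ω * τ) ^ 3))⁻¹, hu3r.inv (fun τ hτ => hU.nz _ (hmaps _ (hrot τ hτ))),
        fun τ hτ => ?_⟩
      rw [zpow_zero, mul_one]
      show (rk k k u (ω * τ))⁻¹ = _
      rw [hrk _ (hrotV τ hτ)]
    refine ⟨hinv, hinvr, ?_⟩
    have h1 := WT_smul (-1) (WT_mul (WT_mul hinv hinvr) hr.c)
    have e1 : (0 : ℤ) + 0 + (0 - L) = 0 - L := by ring
    rw [e1] at h1
    refine WT_congr (fun t ht => ?_) h1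
    have h2 := hFI.base.rn t ht
    have h3 := hFIr.base.rn t ht
    show ((rk k k u ∘ fun t => ω * t) t)⁻¹ - (rk k k u t)⁻¹ = -1 * ((rk k k u t)⁻¹ *
      ((rk k k u ∘ fun t => ω * t) t)⁻¹ * ((rk k k u ∘ fun t => ω * t) t - rk k k u t))
    field_simp
    ring
  -- the induction
  intro j
  induction j using Nat.strong_induction_on with
  | _ J ih =>
    intro hJ
    by_cases hJ1 : J = 1
    · subst hJ1
      refine ⟨fun _ => 0, differentiableOn_const 0, fun τ hτ => ?_⟩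
      have h1 : ∀ τ ∈ V3 R, G 1 τ = 2 := by
        intro τ hτ
        have h2 := (hPol 1 le_rfl).2 τ hτ
        rw [hFI.one τ hτ] at h2
        simpa using h2.symm
      rw [mul_zero]
      by_cases h0 : τ = 0
      · rw [h0, mul_zero, sub_self]
      · rw [h1 τ ⟨hτ, h0⟩, h1 (ω * τ) (hrotV τ ⟨hτ, h0⟩), sub_self]
    have hJ2 : 2 ≤ J := by omega
    have hgj : ∀ j, 1 ≤ j → j < J → NDA_W R L ((6 * k) * (j - 1) : ℤ) (g j)
        (g j ∘ fun t => ω * t) := by
      intro j h1 h2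
      obtain ⟨hG1, hG2⟩ := hPol j h1
      obtain ⟨γ, hγ1, hγ2⟩ := ih j h2 h1
      have ew : ((6 * k) * (j - 1) : ℤ) = (((2 * k + 4 * k) * (j - 1) : ℕ) : ℤ) := by
        push_cast [Nat.cast_sub h1]; ring
      have hrG : ∀ τ ∈ V3 R, g j (ω * τ) * τ ^ ((2 * k + 4 * k) * (j - 1)) = G j (ω * τ) := by
        intro τ hτ
        have h3 := hG2 (ω * τ) (hrotV τ hτ)
        rwa [mul_pow, hωj j, one_mul] at h3
      refine ⟨⟨G j, hG1, fun τ hτ => ?_⟩, ⟨fun τ => G j (ω * τ), hG1.comp (by fun_prop) hrot,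
        fun τ hτ => ?_⟩, ⟨γ, hγ1, fun τ hτ => ?_⟩⟩
      · rw [ew, zpow_natCast]
        exact hG2 τ hτ
      · rw [ew, zpow_natCast]
        exact hrG τ hτ
      · show (g j (ω * τ) - g j τ) * τ ^ ((6 * k) * (j - 1) - L : ℤ) = γ τ
        have h0 := WT_ne hτ
        have h3 := hγ2 τ (WT_ball hτ)
        rw [← hrG τ hτ, ← hG2 τ hτ] at h3
        rw [zpow_sub₀ h0, ew, zpow_natCast, zpow_natCast]
        have h4 : τ ^ L ≠ 0 := pow_ne_zero _ h0
        field_simp
        linear_combination h3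
    have hT : ∀ j ∈ Finset.Ico 1 J, NDA_P R L k (-(6 * k : ℤ))
        (fun t => Tm kc (dk k) (ρk k k u) (rk k k u) g j t)
        (fun t => Tm kc (dk k) (ρk k k u ∘ fun t => ω * t) (rk k k u ∘ fun t => ω * t)
          (fun j => g j ∘ fun t => ω * t) j t) := by
      intro j hj
      rw [Finset.mem_Ico] at hj
      have h1 := NDA_Es hk (NDA_mul (hgj j hj.1 hj.2) (NDA_pow hri j))
      have h2 := NDA_Ppow (NDA_Ys hker hk hρ) j
      have h3 := NDA_Pmul h1 h2
      have e : ((6 * k) * (j - 1) : ℤ) + j * 0 + j * (0 - 6 * (k : ℤ)) = -(6 * k : ℤ) := by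
        ring
      rw [e] at h3
      exact h3
    have hLo : NDA_W R L (-(6 * k : ℤ) + 3 * k * ((2 * J + 1 : ℕ) : ℤ))
        (fun t => Lo kc (dk k) (ρk k k u) (rk k k u) g J t)
        (fun t => Lo kc (dk k) (ρk k k u ∘ fun t => ω * t) (rk k k u ∘ fun t => ω * t)
          (fun j => g j ∘ fun t => ω * t) J t) := by
      have h1 := NDA_sum (Finset.Ico 1 J) (fun j t => PowerSeries.coeff (2 * J + 1)
          (Tm kc (dk k) (ρk k k u) (rk k k u) g j t))
        (fun j t => PowerSeries.coeff (2 * J + 1)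
          (Tm kc (dk k) (ρk k k u ∘ fun t => ω * t) (rk k k u ∘ fun t => ω * t)
          (fun j => g j ∘ fun t => ω * t) j t)) (fun j hj => hT j hj (2 * J + 1))
      refine NDA_congr (fun t _ => ?_) (fun t _ => ?_) h1
      · show Lo kc (dk k) (ρk k k u) (rk k k u) g J t = _
        unfold Lo
        rw [map_sum]
      · show Lo kc (dk k) (ρk k k u ∘ fun t => ω * t) (rk k k u ∘ fun t => ω * t)
          (fun j => g j ∘ fun t => ω * t) J t = _
        unfold Lo
        rw [map_sum]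
    obtain ⟨F, hF1, hF2⟩ := (NDA_mul (NDA_pow hri (2 * J)) hLo).c
    have hG1 := (hPol J hJ).1
    have hG2 := (hPol J hJ).2
    have hG2r : ∀ τ ∈ V3 R, g J (ω * τ) * τ ^ ((2 * k + 4 * k) * (J - 1)) = G J (ω * τ) := by
      intro τ hτ
      have h3 := hG2 (ω * τ) (hrotV τ hτ)
      rwa [mul_pow, hωj J, one_mul] at h3
    -- solving the recursion for the derivative
    have hsolve : ∀ {ρ r0 : ℂ → ℂ} {h : ℕ → ℂ → ℂ}, FI kc (dk k) ρ r0 h (V3 R) → ∀ t ∈ V3 R,
        deriv (h J) t = -(2 ^ J) * dk k t * (((r0 t)⁻¹) ^ (2 * J) * Lo kc (dk k) ρ r0 h J t) := by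
      intro ρ r0 h hf t ht
      have h1 := tREC kc hker (dk k) ρ r0 (V3 R) hf.base h J hJ (hf.gd J hJ) t ht
      rw [hf.law J hJ t ht] at h1
      have hr0 := hf.base.rn t ht
      have hd0 := hf.base.d0 t ht
      have h4 : (r0 t ^ 2 / 2) ^ J * ((r0 t)⁻¹ ^ (2 * J) * 2 ^ J) = 1 := by
        rw [pow_mul, ← mul_pow, ← mul_pow]
        have : r0 t ^ 2 / 2 * ((r0 t)⁻¹ ^ 2 * 2) = 1 := by
          field_simp
        rw [this, one_pow]
      have h5 : DD (dk k) (h J) t = deriv (h J) t / dk k t := rfl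
      have h6 : deriv (h J) t = dk k t * DD (dk k) (h J) t := by
        rw [h5]
        field_simp
      rw [h6]
      linear_combination (-(dk k t) * ((r0 t)⁻¹ ^ (2 * J) * 2 ^ J)) * h1 -
        (dk k t * DD (dk k) (h J) t) * h4
    have hdg : ∀ t ∈ V3 R, (deriv (fun s => g J (ω * s)) t - deriv (g J) t)
        * t ^ ((2 * k + 4 * k) * (J - 1) + 1) = t ^ L * (-(2 ^ J) * (3 * k) * F t) := by
      intro t ht
      have h0 := WT_ne ht
      have h1 := hsolve hFI t ht
      have h2 := hsolve hFIr t ht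
      have h3 := hF2 t ht
      beta_reduce at h3
      have h2' : deriv (fun s => g J (ω * s)) t = -(2 ^ J) * dk k t *
        ((((rk k k u ∘ fun t => ω * t) t)⁻¹) ^ (2 * J) *
          Lo kc (dk k) (ρk k k u ∘ fun t => ω * t) (rk k k u ∘ fun t => ω * t)
          (fun j => g j ∘ fun t => ω * t) J t) := h2
      have ew : (((2 * J : ℕ) : ℤ) * 0 + (-(6 * k : ℤ) + 3 * k * ((2 * J + 1 : ℕ) : ℤ)) - L)
          = (((2 * k + 4 * k) * (J - 1) + 3 * k : ℕ) : ℤ) - L := by
        push_cast [Nat.cast_sub hJ]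
        ring
      rw [ew, zpow_sub₀ h0, zpow_natCast, zpow_natCast] at h3
      have h4 : t ^ L ≠ 0 := pow_ne_zero _ h0
      have h5 : dk k t * t ^ ((2 * k + 4 * k) * (J - 1) + 1)
          = 3 * k * t ^ ((2 * k + 4 * k) * (J - 1) + 3 * k) := by
        unfold dk
        rw [mul_assoc, ← pow_add]
        congr 2
        omega
      rw [h2', h1, ← h3]
      generalize Lo kc (dk k) (ρk k k u) (rk k k u) g J t = A
      generalize Lo kc (dk k) (ρk k k u ∘ fun t => ω * t) (rk k k u ∘ fun t => ω * t)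
          (fun j => g j ∘ fun t => ω * t) J t = B
      generalize ((((rk k k u ∘ fun t => ω * t) t)⁻¹) ^ (2 * J)) = C
      generalize (((rk k k u t)⁻¹) ^ (2 * J)) = D
      have h6 : t ^ L * (t ^ ((2 * k + 4 * k) * (J - 1) + 3 * k) / t ^ L)
          = t ^ ((2 * k + 4 * k) * (J - 1) + 3 * k) := by
        field_simp
      linear_combination (-(2 ^ J) * (C * B - D * A)) * h5
        + (2 ^ J * (3 * k) * (C * B - D * A)) * h6
    have hM1 : 1 ≤ (2 * k + 4 * k) * (J - 1) := by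
      have : 1 ≤ J - 1 := by omega
      nlinarith
    refine NDA_ord hR (M := (2 * k + 4 * k) * (J - 1)) hk hω (hωj J) hG1
      (hF1.const_mul (-(2 ^ J) * (3 * k))) hrot ?_ L le_rfl
    intro t ht
    have h0 := WT_ne ht
    have hgd : ∀ s ∈ V3 R, DifferentiableAt ℂ (g J) s := fun s hs =>
      (hFI.gd J hJ).differentiableAt ((WT_open R).mem_nhds hs)
    have hgdr : DifferentiableAt ℂ (fun s => g J (ω * s)) t :=
      (hFIr.gd J hJ).differentiableAt ((WT_open R).mem_nhds ht)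
    have hev : (fun s => G J (ω * s) - G J s) =ᶠ[𝓝 t]
        fun s => (g J (ω * s) - g J s) * s ^ ((2 * k + 4 * k) * (J - 1)) := by
      filter_upwards [(WT_open R).mem_nhds ht] with s hs
      rw [← hG2r s hs, ← hG2 s hs]
      ring
    have hder : deriv (fun s => G J (ω * s) - G J s) t
        = (deriv (fun s => g J (ω * s)) t - deriv (g J) t) * t ^ ((2 * k + 4 * k) * (J - 1))
          + (g J (ω * t) - g J t) * (((2 * k + 4 * k) * (J - 1) : ℕ) *
            t ^ ((2 * k + 4 * k) * (J - 1) - 1)) := by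
      rw [hev.deriv_eq]
      exact ((hgdr.hasDerivAt.sub (hgd t ht).hasDerivAt).mul
        (hasDerivAt_pow ((2 * k + 4 * k) * (J - 1)) t)).deriv
    have h1 := hdg t ht
    rw [hder, ← hG2r t ht, ← hG2 t ht]
    obtain ⟨M, hM⟩ : ∃ M, (2 * k + 4 * k) * (J - 1) = M + 1 := ⟨_, (Nat.sub_add_cancel hM1).symm⟩
    rw [hM] at h1 ⊢
    rw [Nat.add_sub_cancel]
    linear_combination h1

end H719FX
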