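import Pool.Agent.H719R4.FX.Cov
import Pool.Agent.H719R4.FX.LIM
import Pool.Agent.H738R3.CZ.CHG

/-!
# NDB: the leading differences satisfy the linearised law
-/

open Complex Set Filter Topology

namespace H719FX

open H738CZ

/-- the iterated coordinate derivative of a difference -/
theorem NDB_sub {d : ℂ → ℂ} {V : Set ℂ} (hV : IsOpen V) (hd : DifferentiableOn ℂ d V)
    (h0 : ∀ t ∈ V, d t ≠ 0) {f g : ℂ → ℂ} (hf : DifferentiableOn ℂ f V)
    (hg : DifferentiableOn ℂ g V) (l : ℕ) : ∀ t ∈ V,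
    ((DD d)^[l] (fun t => f t - g t)) t = ((DD d)^[l] f) t - ((DD d)^[l] g) t := by
  induction l with
  | zero => intro t _; rfl
  | succ l ih =>
    intro t ht
    rw [Function.iterate_succ_apply', Function.iterate_succ_apply', Function.iterate_succ_apply']
    have h1 : (DD d)^[l] (fun t => f t - g t)
        =ᶠ[𝓝 t] fun t => ((DD d)^[l] f) t - ((DD d)^[l] g) t := by
      filter_upwards [hV.mem_nhds ht] with s hs using ih s hs
    have hF := (CHG_diff hV hd h0 hf l).differentiableAt (hV.mem_nhds ht)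
    have hG := (CHG_diff hV hd h0 hg l).differentiableAt (hV.mem_nhds ht)
    show deriv _ t / d t = deriv _ t / d t - deriv _ t / d t
    rw [h1.deriv_eq, deriv_fun_sub hF hG, sub_div]

theorem NDB_Es {d : ℂ → ℂ} {V : Set ℂ} (hV : IsOpen V) (hd : DifferentiableOn ℂ d V)
    (h0 : ∀ t ∈ V, d t ≠ 0) {f g : ℂ → ℂ} (hf : DifferentiableOn ℂ f V)
    (hg : DifferentiableOn ℂ g V) : ∀ t ∈ V,
    Es d (fun t => f t - g t) t = Es d f t - Es d g t := by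
  intro t ht
  ext l
  simp only [Es, PowerSeries.coeff_mk, map_sub]
  rw [NDB_sub hV hd h0 hf hg l t ht, sub_div]

theorem NDB_Ys {kc : ℕ → ℂ} {d : ℂ → ℂ} {V : Set ℂ} (hV : IsOpen V)
    (hd : DifferentiableOn ℂ d V)
    (h0 : ∀ t ∈ V, d t ≠ 0) {f g : ℂ → ℂ} (hf : DifferentiableOn ℂ f V)
    (hg : DifferentiableOn ℂ g V) : ∀ t ∈ V,
    Ys kc d (fun t => f t - g t) t = Ys kc d f t - Ys kc d g t := by
  intro t ht
  ext n
  simp only [Ys, PowerSeries.coeff_mk, map_sub]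
  rw [← sub_div, ← Finset.sum_sub_distrib]
  congr 1
  refine Finset.sum_congr rfl fun l _ => ?_
  rw [NDB_sub hV hd h0 hf hg l t ht, mul_sub]

theorem NDB_add {k : ℕ} {A B : ℂ → PowerSeries ℂ} {w : ℤ} {a b : PowerSeries ℂ}
    (hA : LIM_PW k A w a) (hB : LIM_PW k B w b) :
    LIM_PW k (fun τ => A τ + B τ) w (a + b) := by
  intro n
  have h := (hA n).add (hB n)
  simpa [add_mul] using h

theorem NDB_sum {k : ℕ} {s : Finset ℕ} {A : ℕ → ℂ → PowerSeries ℂ} {w : ℤ}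
    {a : ℕ → PowerSeries ℂ} (h : ∀ j ∈ s, LIM_PW k (A j) w (a j)) :
    LIM_PW k (fun τ => ∑ j ∈ s, A j τ) w (∑ j ∈ s, a j) := by
  intro n
  have h2 := tendsto_finsetSum s fun j hj => h j hj n
  simpa [Finset.sum_mul, map_sum] using h2

theorem NDB_congr {k : ℕ} {R : ℝ} (hR : 0 < R) {A B : ℂ → PowerSeries ℂ} {w : ℤ}
    {a : PowerSeries ℂ} (hA : LIM_PW k A w a) (h : ∀ τ ∈ V3 R, A τ = B τ) :
    LIM_PW k B w a := by
  intro n
  refine (hA n).congr' ?_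
  filter_upwards [LIM_V3_nhds hR] with τ hτ
  rw [h τ hτ]

/-- weighted limit of a Taylor shift -/
theorem NDB_EsL (k : ℕ) (hk : 1 ≤ k) (R : ℝ) (hR : 0 < R) (f F : ℂ → ℂ) (w : ℤ)
    (hF : DifferentiableOn ℂ F (Metric.ball 0 R)) (h : ∀ τ ∈ V3 R, f τ = F τ * τ ^ (-w)) :
    LIM_PW k (fun τ => Es (dk k) f τ) w (PowerSeries.C (F 0) * binS (-(w : ℂ) / (3 * k))) := by
  intro l
  have h2 := (LIM_lim k hk R hR f F w hF h l).div_const (l.factorial : ℂ)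
  have e : PowerSeries.coeff l (PowerSeries.C (F 0) * binS (-(w : ℂ) / (3 * k)))
      = (∏ i ∈ Finset.range l, (-(w : ℂ) / (3 * k) - i)) * F 0 / (l.factorial : ℂ) := by
    rw [PowerSeries.coeff_C_mul, binS, PowerSeries.coeff_mk]
    ring
  rw [e]
  refine h2.congr fun τ => ?_
  simp only [Es, PowerSeries.coeff_mk]
  ring

/-- weighted limit of the arc part -/
theorem NDB_YsL {kc : ℕ → ℂ} (hkc : Ker kc) (k : ℕ) (hk : 1 ≤ k) (R : ℝ) (hR : 0 < R)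
    (f F : ℂ → ℂ) (w : ℤ)
    (hF : DifferentiableOn ℂ F (Metric.ball 0 R)) (h : ∀ τ ∈ V3 R, f τ = F τ * τ ^ (-w)) :
    LIM_PW k (fun τ => Ys kc (dk k) f τ) (w - 6 * k)
      (PowerSeries.mk fun n => if n < 2 then 0 else
        F 0 * (∏ i ∈ Finset.range (n - 2), (-(w : ℂ) / (3 * k) - i)) / (n.factorial : ℂ)) := by
  have k0 : kc 0 = 0 := by simpa using hkc.even 0
  have hl := LIM_lim k hk R hR f F w hF h
  intro n
  rw [PowerSeries.coeff_mk]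
  rcases n with _ | _ | n
  · simp [Ys]
  · simp [Ys, k0]
  · rw [if_neg (by omega)]
    have hs : Tendsto (fun τ : ℂ => ∑ l ∈ Finset.range (n + 2),
        kc (n + 2 - 1 - l) * (((DD (dk k))^[l] f) τ
            * τ ^ (w + 3 * (k : ℤ) * (l : ℤ))
          * τ ^ (3 * (k : ℤ) * (n : ℤ) - 3 * (k : ℤ) * (l : ℤ)))) (𝓝[≠] 0)
        (𝓝 (∑ l ∈ Finset.range (n + 2), if l = n then
          F 0 * ∏ i ∈ Finset.range n, (-(w : ℂ) / (3 * k) - i) else 0)) := by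
      refine tendsto_finsetSum _ fun l hln => ?_
      rw [Finset.mem_range] at hln
      rcases lt_trichotomy l n with h | h | h
      · rw [if_neg (by omega)]
        have h1 : Tendsto (fun τ : ℂ => τ ^ (3 * (k : ℤ) * (n : ℤ) - 3 * (k : ℤ) * (l : ℤ)))
            (𝓝[≠] 0) (𝓝 0) := by
          have e : (3 * (k : ℤ) * (n : ℤ) - 3 * (k : ℤ) * (l : ℤ)) = ((3 * k * (n - l) : ℕ) : ℤ) := by
            push_cast [Nat.cast_sub h.le]
            ring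
          rw [e]
          simp only [zpow_natCast]
          have hne : 3 * k * (n - l) ≠ 0 := by
            have h1 : 0 < n - l := by omega
            positivity
          have hc : Tendsto (fun τ : ℂ => τ ^ (3 * k * (n - l))) (𝓝 0)
              (𝓝 (0 ^ (3 * k * (n - l)))) :=
            (continuous_pow _).tendsto 0
          rw [zero_pow hne] at hc
          exact hc.mono_left nhdsWithin_le_nhds
        have h2 := ((hl l).mul h1).const_mul (kc (n + 2 - 1 - l))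
        rw [mul_zero, mul_zero] at h2
        exact h2
      · subst h
        rw [if_pos rfl]
        have e : l + 2 - 1 - l = 1 := by omega
        rw [e, hkc.one]
        have h2 := hl l
        rw [mul_comm _ (F 0)] at h2
        refine h2.congr fun τ => ?_
        simp
      · rw [if_neg (by omega)]
        have e : n + 2 - 1 - l = 0 := by omega
        rw [e, k0]
        simp
    rw [Finset.sum_ite_eq' (Finset.range (n + 2)) n, if_pos (by simp)] at hs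
    have hs2 := hs.div_const (((n + 2).factorial : ℕ) : ℂ)
    have e4 : n + 1 + 1 - 2 = n := by omega
    rw [e4]
    refine hs2.congr' ?_
    filter_upwards [self_mem_nhdsWithin] with τ hτ
    have hτ0 : τ ≠ 0 := hτ
    rw [Ys, PowerSeries.coeff_mk, div_mul_eq_mul_div, Finset.sum_mul]
    congr 1
    refine Finset.sum_congr rfl fun l _ => ?_
    have e : τ ^ (w - 6 * k + 3 * (k : ℤ) * ((n + 1 + 1 : ℕ) : ℤ))
        = τ ^ (w + 3 * (k : ℤ) * (l : ℤ))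
          * τ ^ (3 * (k : ℤ) * (n : ℤ) - 3 * (k : ℤ) * (l : ℤ)) := by
      rw [← zpow_add₀ hτ0]
      congr 1
      push_cast
      ring
    rw [e]
    ring

theorem NDB_Q (υ : ℂ) (k : ℕ) : (PowerSeries.mk fun n => if n < 2 then 0 else
        υ ^ 3 * (∏ i ∈ Finset.range (n - 2), (-((0 : ℤ) : ℂ) / (3 * k) - i)) / (n.factorial : ℂ))
    = PowerSeries.C (υ ^ 3 / 2) * (PowerSeries.X : PowerSeries ℂ) ^ 2 := by
  ext n
  rw [PowerSeries.coeff_mk, PowerSeries.coeff_C_mul, PowerSeries.coeff_X_pow]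
  rcases n with _ | _ | _ | n
  · simp
  · simp
  · simp
  · rw [if_neg (by omega), if_neg (by omega)]
    have : ∏ i ∈ Finset.range (n + 1 + 1 + 1 - 2), (-((0 : ℤ) : ℂ) / (3 * k) - i) = 0 := by
      apply Finset.prod_eq_zero (i := 0)
      · rw [Finset.mem_range]; omega
      · simp
    rw [this]
    simp

/-- `rk` on the punctured disc -/
theorem NDB_rk {k : ℕ} (u : ℂ → ℂ) {τ : ℂ} (hτ : τ ≠ 0) : rk k k u τ = u (τ ^ 3) := by
  rw [rk, mul_comm, mul_div_assoc, div_self (pow_ne_zero _ hτ), mul_one]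

theorem NDB_dk {k : ℕ} (hk : 1 ≤ k) {ω : ℂ} (hω : ω ^ (3 * k) = 1) (τ : ℂ) :
    dk k (ω * τ) * ω = dk k τ := by
  unfold dk
  have e : ω ^ (3 * k - 1) * ω = 1 := by
    rw [← pow_succ, ← hω]
    congr 1
    omega
  calc 3 * (k : ℂ) * (ω * τ) ^ (3 * k - 1) * ω
      = 3 * (k : ℂ) * τ ^ (3 * k - 1) * (ω ^ (3 * k - 1) * ω) := by rw [mul_pow]; ring
    _ = _ := by rw [e, mul_one]

theorem NDB_dk0 {k : ℕ} (hk : 1 ≤ k) {τ : ℂ} (hτ : τ ≠ 0) : dk k τ ≠ 0 := by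
  unfold dk
  have hk0 : (k : ℂ) ≠ 0 := by rw [Nat.cast_ne_zero]; omega
  exact mul_ne_zero (mul_ne_zero (by norm_num) hk0) (pow_ne_zero _ hτ)

theorem NDB_norm {k : ℕ} (hk : 1 ≤ k) {ω : ℂ} (hω : ω ^ (3 * k) = 1) : ‖ω‖ = 1 :=
  Complex.norm_eq_one_of_pow_eq_one hω (by omega)

/-- the difference of the functions `h j` -/
theorem NDB_F {k : ℕ} {u : ℂ → ℂ} {R : ℝ} (hu : UN u R) {g G : ℕ → ℂ → ℂ} (hk : 1 ≤ k)
    {ω : ℂ} {L : ℕ} {e : ℂ → ℂ} {γ : ℕ → ℂ → ℂ} (hD : Dk 3 k u R G ω L e γ) (j : ℕ)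
    (hj : 1 ≤ j) (hP : Pol k k R g j (G j)) : ∀ τ ∈ V3 R,
    g j (ω * τ) * ((rk k k u (ω * τ))⁻¹) ^ j - g j τ * ((rk k k u τ)⁻¹) ^ j
      = (γ j τ * ((u ((ω * τ) ^ 3))⁻¹) ^ j - G j τ * (e τ * ((u ((ω * τ) ^ 3))⁻¹ * (u (τ ^ 3))⁻¹))
          * ∑ i ∈ Finset.range j, ((u ((ω * τ) ^ 3))⁻¹) ^ i * ((u (τ ^ 3))⁻¹) ^ (j - 1 - i))
        * τ ^ (-(6 * (k : ℤ) * ((j : ℤ) - 1) - L)) := by
  intro τ hτ
  have hω : ‖ω‖ = 1 := NDB_norm hk hD.om
  have hω0 : ω ≠ 0 := by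
    intro h
    rw [h, norm_zero] at hω
    exact zero_ne_one hω
  have hτ0 : τ ≠ 0 := hτ.2
  have hb : ω * τ ∈ Metric.ball (0 : ℂ) R := by
    have := hτ.1
    rw [mem_ball_zero_iff] at this ⊢
    rwa [norm_mul, hω, one_mul]
  have hτ' : ω * τ ∈ V3 R := ⟨hb, mul_ne_zero hω0 hτ0⟩
  rw [NDB_rk u hτ0, NDB_rk u hτ'.2]
  have h1 := hP.2 τ hτ
  have h2 := hP.2 (ω * τ) hτ'
  have h3 := hD.Gγ j hj τ hτ.1
  have h4 := hD.eq τ hτ.1
  have hu1 : u (τ ^ 3) ≠ 0 := hu.nz _ (LIM_cube hτ.1)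
  have hu2 : u ((ω * τ) ^ 3) ≠ 0 := hu.nz _ (LIM_cube hb)
  have e1 : (ω * τ) ^ ((2 * k + 4 * k) * (j - 1)) = τ ^ ((2 * k + 4 * k) * (j - 1)) := by
    rw [mul_pow, show (2 * k + 4 * k) * (j - 1) = 3 * k * (2 * (j - 1)) by ring, pow_mul ω,
      hD.om, one_pow, one_mul]
  rw [e1] at h2
  have e2 : τ ^ (-(6 * (k : ℤ) * ((j : ℤ) - 1) - L))
      = (τ ^ ((2 * k + 4 * k) * (j - 1)))⁻¹ * τ ^ L := by
    rw [← zpow_natCast τ ((2 * k + 4 * k) * (j - 1)), ← zpow_natCast τ L, ← zpow_neg,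
      ← zpow_add₀ hτ0]
    congr 1
    push_cast [Nat.cast_sub hj]
    ring
  have hz : τ ^ ((2 * k + 4 * k) * (j - 1)) ≠ 0 := pow_ne_zero _ hτ0
  have g1 : g j τ = G j τ * (τ ^ ((2 * k + 4 * k) * (j - 1)))⁻¹ := by
    rw [← h1, mul_assoc, mul_inv_cancel₀ hz, mul_one]
  have g2 : g j (ω * τ) = (G j τ + τ ^ L * γ j τ) * (τ ^ ((2 * k + 4 * k) * (j - 1)))⁻¹ := by
    rw [← h3, add_sub_cancel, ← h2, mul_assoc, mul_inv_cancel₀ hz, mul_one]
  have hd : (u ((ω * τ) ^ 3))⁻¹ - (u (τ ^ 3))⁻¹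
      = -(τ ^ L * e τ * ((u ((ω * τ) ^ 3))⁻¹ * (u (τ ^ 3))⁻¹)) := by
    rw [← h4, inv_sub_inv hu2 hu1, div_eq_mul_inv, mul_inv]
    ring
  have hs := (Commute.all ((u ((ω * τ) ^ 3))⁻¹) ((u (τ ^ 3))⁻¹)).geom_sum₂_mul j
  rw [hd] at hs
  rw [e2, g1, g2]
  generalize (∑ i ∈ Finset.range j, ((u ((ω * τ) ^ 3))⁻¹) ^ i * ((u (τ ^ 3))⁻¹) ^ (j - 1 - i)) = S
    at hs ⊢
  have hs2 : ((u ((ω * τ) ^ 3))⁻¹) ^ j = ((u (τ ^ 3))⁻¹) ^ j
      + S * -(τ ^ L * e τ * ((u ((ω * τ) ^ 3))⁻¹ * (u (τ ^ 3))⁻¹)) := by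
    rw [hs]; ring
  rw [show (G j τ + τ ^ L * γ j τ) * (τ ^ ((2 * k + 4 * k) * (j - 1)))⁻¹
      * ((u ((ω * τ) ^ 3))⁻¹) ^ j = G j τ * (τ ^ ((2 * k + 4 * k) * (j - 1)))⁻¹
      * ((u ((ω * τ) ^ 3))⁻¹) ^ j + τ ^ L * γ j τ * (τ ^ ((2 * k + 4 * k) * (j - 1)))⁻¹
      * ((u ((ω * τ) ^ 3))⁻¹) ^ j by ring]
  rw [show G j τ * (τ ^ ((2 * k + 4 * k) * (j - 1)))⁻¹ * ((u ((ω * τ) ^ 3))⁻¹) ^ j
      = G j τ * (τ ^ ((2 * k + 4 * k) * (j - 1)))⁻¹ * (((u (τ ^ 3))⁻¹) ^ j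
      + S * -(τ ^ L * e τ * ((u ((ω * τ) ^ 3))⁻¹ * (u (τ ^ 3))⁻¹))) by rw [← hs2]]
  ring

/-- the product in the coefficients of `binS (σ + 2)` -/
theorem NDB_prod (σ : ℂ) (n : ℕ) : ∏ i ∈ Finset.range (n + 2), (σ + 2 - i)
    = (σ + 1) * (σ + 2) * ∏ i ∈ Finset.range n, (σ - i) := by
  rw [Finset.prod_range_succ', Finset.prod_range_succ']
  have : ∏ i ∈ Finset.range n, (σ + 2 - ((i + 1 + 1 : ℕ) : ℂ)) = ∏ i ∈ Finset.range n, (σ - i) := by
    refine Finset.prod_congr rfl fun i _ => ?_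
    push_cast
    ring
  rw [this]
  push_cast
  ring

theorem NDB_binS0 : binS 0 = 1 := by
  ext n
  rw [binS, PowerSeries.coeff_mk, PowerSeries.coeff_one]
  rcases n with _ | n
  · simp
  · rw [if_neg (by omega)]
    have : ∏ i ∈ Finset.range (n + 1), ((0 : ℂ) - i) = 0 := by
      apply Finset.prod_eq_zero (i := 0)
      · rw [Finset.mem_range]; omega
      · simp
    rw [this, zero_div]

theorem tNDB : StNDB := by
  intro kc hkc k u R hk hu g G hFI hP hG0 ω L e γ hD J hJ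
  have hR := hu.pos
  have hk0 : (k : ℂ) ≠ 0 := by rw [Nat.cast_ne_zero]; omega
  have hω : ‖ω‖ = 1 := NDB_norm hk hD.om
  have hω0 : ω ≠ 0 := by
    intro h
    rw [h, norm_zero] at hω
    exact zero_ne_one hω
  have hVo : IsOpen (V3 R) := LIM_V3_open R
  have hrot : ∀ τ ∈ Metric.ball (0 : ℂ) R, ω * τ ∈ Metric.ball (0 : ℂ) R := by
    intro τ hτ
    rw [mem_ball_zero_iff] at hτ ⊢
    rwa [norm_mul, hω, one_mul]
  have hrotV : ∀ τ ∈ V3 R, ω * τ ∈ V3 R := fun τ hτ => ⟨hrot τ hτ.1, mul_ne_zero hω0 hτ.2⟩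
  have hdm : Differentiable ℂ (fun τ : ℂ => ω * τ) := differentiable_id.const_mul ω
  have h00 : (0 : ℂ) ∈ Metric.ball (0 : ℂ) R := Metric.mem_ball_self hR
  have hu0 : u 0 ≠ 0 := by
    have := hu.nz (0 ^ 3) (LIM_cube h00)
    simpa using this
  have hFI' : FI kc (dk k) (ρk k k u ∘ fun τ => ω * τ) (rk k k u ∘ fun τ => ω * τ)
      (fun j => g j ∘ fun τ => ω * τ) (V3 R) := by
    refine tCHG kc (dk k) (ρk k k u) (rk k k u) g (V3 R) (dk k) (fun τ => ω * τ) (V3 R) hFI hVo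
      hdm.differentiableOn hrotV ?_ fun t ht => NDB_dk0 hk ht.2
    intro t _
    have : deriv (fun τ : ℂ => ω * τ) t = ω := by simp
    rw [this]
    exact NDB_dk hk hD.om t
  have hB := hFI.base
  have hB' := hFI'.base
  have hdu := LIM_du hu
  have hduO : DifferentiableOn ℂ (fun τ => u ((ω * τ) ^ 3)) (Metric.ball 0 R) :=
    hdu.comp hdm.differentiableOn hrot
  have hi : DifferentiableOn ℂ (fun τ => (u (τ ^ 3))⁻¹) (Metric.ball 0 R) :=
    hdu.inv fun τ hτ => hu.nz _ (LIM_cube hτ)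
  have hiO : DifferentiableOn ℂ (fun τ => (u ((ω * τ) ^ 3))⁻¹) (Metric.ball 0 R) :=
    hduO.inv fun τ hτ => hu.nz _ (LIM_cube (hrot τ hτ))
  have hdh : ∀ j, 1 ≤ j → DifferentiableOn ℂ (fun t => g j t * ((rk k k u t)⁻¹) ^ j) (V3 R) :=
    fun j hj => (hFI.gd j hj).mul ((hB.rd.inv hB.rn).pow j)
  have hdhO : ∀ j, 1 ≤ j →
      DifferentiableOn ℂ (fun t => g j (ω * t) * ((rk k k u (ω * t))⁻¹) ^ j) (V3 R) :=
    fun j hj => (hFI'.gd j hj).mul ((hB'.rd.inv hB'.rn).pow j)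
  have hdρ : DifferentiableOn ℂ (ρk k k u) (V3 R) := (hB.rd.pow 3).congr hB.cube
  have hdρO : DifferentiableOn ℂ (ρk k k u ∘ fun τ => ω * τ) (V3 R) :=
    (hB'.rd.pow 3).congr hB'.cube
  -- the limits of `Y` and of its rotation
  obtain ⟨Q, hQ⟩ : ∃ Q : PowerSeries ℂ, Q = PowerSeries.C (u 0 ^ 3 / 2) * PowerSeries.X ^ 2 :=
    ⟨_, rfl⟩
  have hYO : LIM_PW k (fun τ => Ys kc (dk k) (ρk k k u ∘ fun τ => ω * τ) τ) (0 - 6 * k) Q := by
    have h := NDB_YsL hkc k hk R hR (ρk k k u ∘ fun τ => ω * τ) (fun τ => u ((ω * τ) ^ 3) ^ 3) 0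
      (hduO.pow 3) (by
        intro τ hτ
        show (rk k k u (ω * τ)) ^ 3 = _
        rw [NDB_rk u (hrotV τ hτ).2]
        simp)
    simp only [mul_zero, ne_eq, OfNat.ofNat_ne_zero, not_false_eq_true, zero_pow] at h
    rw [NDB_Q, ← hQ] at h
    exact h
  have hY : LIM_PW k (fun τ => Ys kc (dk k) (ρk k k u) τ) (0 - 6 * k) Q := by
    have h := NDB_YsL hkc k hk R hR (ρk k k u) (fun τ => u (τ ^ 3) ^ 3) 0
      (hdu.pow 3) (by
        intro τ hτ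
        show (rk k k u τ) ^ 3 = _
        rw [NDB_rk u hτ.2]
        simp)
    simp only [ne_eq, OfNat.ofNat_ne_zero, not_false_eq_true, zero_pow] at h
    rw [NDB_Q, ← hQ] at h
    exact h
  obtain ⟨D, hDD⟩ : ∃ D : PowerSeries ℂ, D = (PowerSeries.mk fun n => if n < 2 then 0 else
        (3 * u 0 ^ 2 * e 0) * (∏ i ∈ Finset.range (n - 2),
          (-((-(L : ℤ) : ℤ) : ℂ) / (3 * k) - i)) / (n.factorial : ℂ)) := ⟨_, rfl⟩
  have hYD : LIM_PW k (fun τ => Ys kc (dk k) (ρk k k u ∘ fun τ => ω * τ) τ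
      - Ys kc (dk k) (ρk k k u) τ) (-(L : ℤ) - 6 * k) D := by
    have h := NDB_YsL hkc k hk R hR
      (fun t => (ρk k k u ∘ fun τ => ω * τ) t - ρk k k u t)
      (fun τ => e τ * (u ((ω * τ) ^ 3) ^ 2 + u ((ω * τ) ^ 3) * u (τ ^ 3) + u (τ ^ 3) ^ 2))
      (-(L : ℤ)) (hD.de.mul (((hduO.pow 2).add (hduO.mul hdu)).add (hdu.pow 2))) (by
        intro τ hτ
        show (rk k k u (ω * τ)) ^ 3 - (rk k k u τ) ^ 3 = _
        rw [NDB_rk u (hrotV τ hτ).2, NDB_rk u hτ.2, neg_neg, zpow_natCast]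
        have h4 := hD.eq τ hτ.1
        calc u ((ω * τ) ^ 3) ^ 3 - u (τ ^ 3) ^ 3
            = (u ((ω * τ) ^ 3) - u (τ ^ 3))
              * (u ((ω * τ) ^ 3) ^ 2 + u ((ω * τ) ^ 3) * u (τ ^ 3) + u (τ ^ 3) ^ 2) := by ring
          _ = _ := by rw [h4]; ring)
    have e0 : (e 0 * (u ((ω * 0) ^ 3) ^ 2 + u ((ω * 0) ^ 3) * u (0 ^ 3) + u (0 ^ 3) ^ 2))
        = 3 * u 0 ^ 2 * e 0 := by
      simp only [mul_zero, ne_eq, OfNat.ofNat_ne_zero, not_false_eq_true, zero_pow]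
      ring
    simp only [e0] at h
    rw [← hDD] at h
    exact NDB_congr hR h (NDB_Ys hVo hB.dd hB.d0 hdρO hdρ)
  -- the limits of the Taylor shifts
  obtain ⟨F, hFdef⟩ : ∃ F : ℕ → ℂ → ℂ, F = fun j τ =>
      (γ j τ * ((u ((ω * τ) ^ 3))⁻¹) ^ j - G j τ * (e τ * ((u ((ω * τ) ^ 3))⁻¹ * (u (τ ^ 3))⁻¹))
          * ∑ i ∈ Finset.range j, ((u ((ω * τ) ^ 3))⁻¹) ^ i * ((u (τ ^ 3))⁻¹) ^ (j - 1 - i)) :=
    ⟨_, rfl⟩
  have h1 : ∀ j, 1 ≤ j → LIM_PW k (fun τ => Es (dk k) (fun t =>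
      g j (ω * t) * ((rk k k u (ω * t))⁻¹) ^ j - g j t * ((rk k k u t)⁻¹) ^ j) τ)
      (6 * (k : ℤ) * ((j : ℤ) - 1) - L) (PowerSeries.C (F j 0)
        * binS (-((6 * (k : ℤ) * ((j : ℤ) - 1) - L : ℤ) : ℂ) / (3 * k))) := by
    intro j hj
    refine NDB_EsL k hk R hR _ (F j) _ ?_ ?_
    · rw [hFdef]
      exact ((hD.dγ j hj).mul (hiO.pow j)).sub (((hP j hj).1.mul (hD.de.mul (hiO.mul hi))).mul
        (DifferentiableOn.fun_sum fun i _ => (hiO.pow i).mul (hi.pow (j - 1 - i))))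
    · intro τ hτ
      rw [hFdef]
      exact NDB_F hu hk hD j hj (hP j hj) τ hτ
  have h2 : ∀ j, 1 ≤ j → LIM_PW k (fun τ => Es (dk k) (fun t => g j t * ((rk k k u t)⁻¹) ^ j) τ)
      ((3 * k + 3 * k) * j - (2 * k + 4 * k)) (PowerSeries.C (G j 0 * ((u 0)⁻¹) ^ j)
        * binS ((2 * (k : ℂ) + 4 * k - (3 * k + 3 * k) * j) / (3 * k))) := fun j hj =>
    LIM_Es hk hu g (G j) j hj (hP j hj)
  have hS : ∀ j, LIM_PW k (fun τ => ∑ i ∈ Finset.range j,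
      Ys kc (dk k) (ρk k k u ∘ fun τ => ω * τ) τ ^ i * Ys kc (dk k) (ρk k k u) τ ^ (j - 1 - i))
      (((j : ℤ) - 1) * (0 - 6 * k)) (∑ i ∈ Finset.range j, Q ^ i * Q ^ (j - 1 - i)) := by
    intro j
    refine NDB_sum fun i hi => ?_
    rw [Finset.mem_range] at hi
    have h := LIM_mul (LIM_pow hYO i) (LIM_pow hY (j - 1 - i))
    have ew : (i : ℤ) * (0 - 6 * k) + ((j - 1 - i : ℕ) : ℤ) * (0 - 6 * k)
        = ((j : ℤ) - 1) * (0 - 6 * k) := by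
      rw [Nat.cast_sub (by omega), Nat.cast_sub (by omega)]
      push_cast
      ring
    rwa [ew] at h
  have hA : ∀ j, 1 ≤ j → LIM_PW k (fun τ => Es (dk k) (fun t =>
      g j (ω * t) * ((rk k k u (ω * t))⁻¹) ^ j - g j t * ((rk k k u t)⁻¹) ^ j) τ
        * Ys kc (dk k) (ρk k k u ∘ fun τ => ω * τ) τ ^ j
      + Es (dk k) (fun t => g j t * ((rk k k u t)⁻¹) ^ j) τ
        * ((Ys kc (dk k) (ρk k k u ∘ fun τ => ω * τ) τ - Ys kc (dk k) (ρk k k u) τ)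
          * ∑ i ∈ Finset.range j, Ys kc (dk k) (ρk k k u ∘ fun τ => ω * τ) τ ^ i
            * Ys kc (dk k) (ρk k k u) τ ^ (j - 1 - i))) (-(6 * (k : ℤ)) - L)
      (PowerSeries.C (F j 0) * binS (-((6 * (k : ℤ) * ((j : ℤ) - 1) - L : ℤ) : ℂ) / (3 * k))
          * Q ^ j
        + PowerSeries.C (G j 0 * ((u 0)⁻¹) ^ j)
          * binS ((2 * (k : ℂ) + 4 * k - (3 * k + 3 * k) * j) / (3 * k))
          * (D * ∑ i ∈ Finset.range j, Q ^ i * Q ^ (j - 1 - i))) := by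
    intro j hj
    have a := LIM_mul (h1 j hj) (LIM_pow hYO j)
    have b := LIM_mul (h2 j hj) (LIM_mul hYD (hS j))
    have ea : 6 * (k : ℤ) * ((j : ℤ) - 1) - L + (j : ℤ) * (0 - 6 * k) = -(6 * (k : ℤ)) - L := by
      ring
    have eb : (3 * (k : ℤ) + 3 * k) * j - (2 * k + 4 * k) + (-(L : ℤ) - 6 * k
        + ((j : ℤ) - 1) * (0 - 6 * k)) = -(6 * (k : ℤ)) - L := by
      ring
    rw [ea] at a
    rw [eb] at b
    exact NDB_add a b
  have hsum := NDB_sum (s := Finset.Icc 1 J) fun j hj => hA j (Finset.mem_Icc.1 hj).1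
  have hcoef : PowerSeries.coeff (2 * J + 1) (∑ j ∈ Finset.Icc 1 J,
      (PowerSeries.C (F j 0) * binS (-((6 * (k : ℤ) * ((j : ℤ) - 1) - L : ℤ) : ℂ) / (3 * k))
          * Q ^ j
        + PowerSeries.C (G j 0 * ((u 0)⁻¹) ^ j)
          * binS ((2 * (k : ℂ) + 4 * k - (3 * k + 3 * k) * j) / (3 * k))
          * (D * ∑ i ∈ Finset.range j, Q ^ i * Q ^ (j - 1 - i)))) = 0 := by
    refine tendsto_nhds_unique (hsum (2 * J + 1)) ?_
    refine tendsto_const_nhds.congr' ?_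
    filter_upwards [LIM_V3_nhds hR] with τ hτ
    have l1 := hFI.law J hJ τ hτ
    have l2 := hFI'.law J hJ τ hτ
    have e : (∑ j ∈ Finset.Icc 1 J, (Es (dk k) (fun t =>
      g j (ω * t) * ((rk k k u (ω * t))⁻¹) ^ j - g j t * ((rk k k u t)⁻¹) ^ j) τ
        * Ys kc (dk k) (ρk k k u ∘ fun τ => ω * τ) τ ^ j
      + Es (dk k) (fun t => g j t * ((rk k k u t)⁻¹) ^ j) τ
        * ((Ys kc (dk k) (ρk k k u ∘ fun τ => ω * τ) τ - Ys kc (dk k) (ρk k k u) τ)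
          * ∑ i ∈ Finset.range j, Ys kc (dk k) (ρk k k u ∘ fun τ => ω * τ) τ ^ i
            * Ys kc (dk k) (ρk k k u) τ ^ (j - 1 - i))))
        = (∑ j ∈ Finset.Icc 1 J, Tm kc (dk k) (ρk k k u ∘ fun τ => ω * τ)
            (rk k k u ∘ fun τ => ω * τ) (fun j => g j ∘ fun τ => ω * τ) j τ)
          - ∑ j ∈ Finset.Icc 1 J, Tm kc (dk k) (ρk k k u) (rk k k u) g j τ := by
      rw [← Finset.sum_sub_distrib]
      refine Finset.sum_congr rfl fun j hj => ?_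
      have hj1 := (Finset.mem_Icc.1 hj).1
      have a1 : Es (dk k) (fun t =>
          g j (ω * t) * ((rk k k u (ω * t))⁻¹) ^ j - g j t * ((rk k k u t)⁻¹) ^ j) τ = _ :=
        NDB_Es hVo hB.dd hB.d0 (hdhO j hj1) (hdh j hj1) τ hτ
      have a2 := (Commute.all (Ys kc (dk k) (ρk k k u ∘ fun τ => ω * τ) τ)
        (Ys kc (dk k) (ρk k k u) τ)).geom_sum₂_mul j
      rw [a1, mul_comm (Ys kc (dk k) (ρk k k u ∘ fun τ => ω * τ) τ - Ys kc (dk k) (ρk k k u) τ),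
        a2]
      show _ = Es (dk k) (fun t => g j (ω * t) * ((rk k k u (ω * t))⁻¹) ^ j) τ
          * Ys kc (dk k) (ρk k k u ∘ fun τ => ω * τ) τ ^ j
        - Es (dk k) (fun t => g j t * ((rk k k u t)⁻¹) ^ j) τ * Ys kc (dk k) (ρk k k u) τ ^ j
      ring
    rw [e, map_sub]
    rw [Cf] at l1 l2
    rw [l1, l2, sub_zero, zero_mul]
  -- conclusion
  have hF0 : ∀ j, F j 0 = γ j 0 * ((u 0)⁻¹) ^ j - G j 0 * (e 0 * ((u 0)⁻¹ * (u 0)⁻¹))
          * ∑ i ∈ Finset.range j, ((u 0)⁻¹) ^ i * ((u 0)⁻¹) ^ (j - 1 - i) := by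
    intro j
    rw [hFdef]
    simp
  have hG1 : G 1 0 = 2 := by
    have hc : Tendsto (G 1) (𝓝[≠] 0) (𝓝 (G 1 0)) :=
      (((hP 1 le_rfl).1.differentiableAt (Metric.isOpen_ball.mem_nhds h00)).continuousAt.tendsto).mono_left
        nhdsWithin_le_nhds
    refine tendsto_nhds_unique hc (tendsto_const_nhds.congr' ?_)
    filter_upwards [LIM_V3_nhds hR] with τ hτ
    have := (hP 1 le_rfl).2 τ hτ
    rw [← this, hFI.one τ hτ]
    simp
  have hγ1 : γ 1 0 = 0 := by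
    have hc : Tendsto (γ 1) (𝓝[≠] 0) (𝓝 (γ 1 0)) :=
      (((hD.dγ 1 le_rfl).differentiableAt (Metric.isOpen_ball.mem_nhds h00)).continuousAt.tendsto).mono_left
        nhdsWithin_le_nhds
    refine tendsto_nhds_unique hc (tendsto_const_nhds.congr' ?_)
    filter_upwards [LIM_V3_nhds hR] with τ hτ
    have a1 := (hP 1 le_rfl).2 τ hτ
    have a2 := (hP 1 le_rfl).2 (ω * τ) (hrotV τ hτ)
    have a3 := hD.Gγ 1 le_rfl τ hτ.1
    rw [← a1, ← a2, hFI.one τ hτ, hFI.one _ (hrotV τ hτ)] at a3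
    simp only [Nat.sub_self, mul_zero, pow_zero, sub_self] at a3
    rcases mul_eq_zero.1 a3.symm with h | h
    · exact absurd h (pow_ne_zero _ hτ.2)
    · exact h.symm
  obtain ⟨σ, hσ⟩ : ∃ σ : ℂ, σ = (L : ℂ) / (3 * k) := ⟨_, rfl⟩
  have hσ1 : σ + 1 ≠ 0 := by
    rw [hσ]
    intro h
    have h3 : (L : ℂ) + 3 * k = 0 := by
      have : (L : ℂ) / (3 * k) + 1 = ((L : ℂ) + 3 * k) / (3 * k) := by field_simp
      rw [this, div_eq_zero_iff] at h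
      rcases h with h | h
      · exact h
      · exact absurd h (mul_ne_zero (by norm_num) hk0)
    have h4 : ((L + 3 * k : ℕ) : ℂ) = 0 := by push_cast; exact h3
    rw [Nat.cast_eq_zero] at h4
    omega
  have hσ2 : σ + 2 ≠ 0 := by
    rw [hσ]
    intro h
    have h3 : (L : ℂ) + 6 * k = 0 := by
      have : (L : ℂ) / (3 * k) + 2 = ((L : ℂ) + 6 * k) / (3 * k) := by field_simp; ring
      rw [this, div_eq_zero_iff] at h
      rcases h with h | h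
      · exact h
      · exact absurd h (mul_ne_zero (by norm_num) hk0)
    have h4 : ((L + 6 * k : ℕ) : ℂ) = 0 := by push_cast; exact h3
    rw [Nat.cast_eq_zero] at h4
    omega
  rw [← hσ]
  have eI : Finset.Icc 1 J = insert 1 (Finset.Icc 2 J) := by
    ext x
    simp only [Finset.mem_Icc, Finset.mem_insert]
    omega
  rw [eI, Finset.sum_insert (by simp)] at hcoef
  have t1 : (PowerSeries.C (F 1 0)
      * binS (-((6 * (k : ℤ) * (((1 : ℕ) : ℤ) - 1) - L : ℤ) : ℂ) / (3 * k)) * Q ^ 1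
        + PowerSeries.C (G 1 0 * ((u 0)⁻¹) ^ 1)
          * binS ((2 * (k : ℂ) + 4 * k - (3 * k + 3 * k) * ((1 : ℕ) : ℂ)) / (3 * k))
          * (D * ∑ i ∈ Finset.range 1, Q ^ i * Q ^ (1 - 1 - i)))
      = PowerSeries.C (-(e 0 * u 0)) * binS σ * PowerSeries.X ^ 2
        + PowerSeries.C (2 * (u 0)⁻¹) * D := by
    have b1 : -((6 * (k : ℤ) * (((1 : ℕ) : ℤ) - 1) - L : ℤ) : ℂ) / (3 * k) = σ := by
      rw [hσ]; push_cast; ring
    have b2 : (2 * (k : ℂ) + 4 * k - (3 * k + 3 * k) * ((1 : ℕ) : ℂ)) / (3 * k) = 0 := by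
      push_cast
      rw [show 2 * (k : ℂ) + 4 * k - (3 * k + 3 * k) * 1 = 0 by ring, zero_div]
    rw [b1, b2, NDB_binS0, hF0, hγ1, hG1, hQ]
    simp only [Finset.range_one, Finset.sum_singleton, pow_zero, Nat.sub_self, mul_one, pow_one,
      zero_mul, zero_sub]
    have b3 : PowerSeries.C (-(2 * (e 0 * ((u 0)⁻¹ * (u 0)⁻¹)))) * binS σ
        * (PowerSeries.C (u 0 ^ 3 / 2) * PowerSeries.X ^ 2)
        = (PowerSeries.C (-(2 * (e 0 * ((u 0)⁻¹ * (u 0)⁻¹)))) * PowerSeries.C (u 0 ^ 3 / 2))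
          * binS σ * (PowerSeries.X : PowerSeries ℂ) ^ 2 := by ring
    rw [b3, ← map_mul]
    congr 4
    field_simp
  have t2 : ∀ j ∈ Finset.Icc 2 J, (PowerSeries.C (F j 0)
      * binS (-((6 * (k : ℤ) * ((j : ℤ) - 1) - L : ℤ) : ℂ) / (3 * k)) * Q ^ j
        + PowerSeries.C (G j 0 * ((u 0)⁻¹) ^ j)
          * binS ((2 * (k : ℂ) + 4 * k - (3 * k + 3 * k) * j) / (3 * k))
          * (D * ∑ i ∈ Finset.range j, Q ^ i * Q ^ (j - 1 - i)))
      = PowerSeries.C (γ j 0 * u 0 ^ (2 * j) / 2 ^ j) * binS (σ + 2 - 2 * j)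
        * PowerSeries.X ^ (2 * j) := by
    intro j hj
    have hj2 := (Finset.mem_Icc.1 hj).1
    have b1 : -((6 * (k : ℤ) * ((j : ℤ) - 1) - L : ℤ) : ℂ) / (3 * k) = σ + 2 - 2 * j := by
      rw [hσ]; push_cast; field_simp; ring
    rw [b1, hF0, hG0 j hj2, hQ]
    simp only [zero_mul, sub_zero, map_zero, add_zero]
    have b3 : PowerSeries.C (γ j 0 * ((u 0)⁻¹) ^ j) * binS (σ + 2 - 2 * j)
        * (PowerSeries.C (u 0 ^ 3 / 2) * PowerSeries.X ^ 2) ^ j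
        = (PowerSeries.C (γ j 0 * ((u 0)⁻¹) ^ j) * PowerSeries.C (u 0 ^ 3 / 2) ^ j)
          * binS (σ + 2 - 2 * j) * (PowerSeries.X : PowerSeries ℂ) ^ (2 * j) := by
      rw [mul_pow, pow_mul]; ring
    rw [b3, ← map_pow, ← map_mul]
    congr 3
    rw [div_pow, ← pow_mul, inv_pow, show 3 * j = 2 * j + j by ring, pow_add]
    have := pow_ne_zero j hu0
    field_simp
  rw [t1, Finset.sum_congr rfl t2] at hcoef
  rw [map_add, map_add] at hcoef ⊢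
  beta_reduce
  have t3 : PowerSeries.coeff (2 * J + 1) (PowerSeries.C (2 * (u 0)⁻¹) * D)
      = PowerSeries.coeff (2 * J + 1)
        (PowerSeries.C (6 * u 0 * e 0 / ((σ + 1) * (σ + 2))) * binS (σ + 2)) := by
    rw [PowerSeries.coeff_C_mul, PowerSeries.coeff_C_mul, hDD, binS, PowerSeries.coeff_mk,
      PowerSeries.coeff_mk, if_neg (by omega)]
    have b1 : -((-(L : ℤ) : ℤ) : ℂ) / (3 * k) = σ := by rw [hσ]; push_cast; ring
    rw [b1, show 2 * J + 1 = (2 * J + 1 - 2) + 2 by omega, NDB_prod, Nat.add_sub_cancel]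
    field_simp
    ring
  rw [← t3]
  linear_combination hcoef

end H719FX
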