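import Pool.Agent.H719R4.FX.Cov

/-! Task NEX (helper399): the radius of curvature is not ramified at a non-isotropic branch. -/

open Complex Set Filter Topology

namespace H719FX

open H738CZ

theorem tNEX (hINT : StINT) (hEXT : StEXT) (hPRV : StPRV) (hLIM : StLIM) (hNML : StNML)
    (hNDA : StNDA) (hNDB : StNDB) (hNCB : StNCB) (hNLD : StNLD) (hDCK : StDCK) : StNEX := by
  intro kc hk k u R ρ t1 hk1 hUN ht1 ht10 hfac hgood
  have hR : 0 < R := hUN.pos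
  have hR3 : 0 < R ^ 3 := by positivity
  obtain ⟨ω, τ1, η, g, hω, hη, hsub, hFI, hSG⟩ :=
    hINT kc k k u R ρ t1 hk1 hk1 hUN ht1 ht10 hfac hgood
  have hω0 : ω ≠ 0 := by
    intro h
    rw [h] at hω
    norm_num at hω
  obtain ⟨u', hu'⟩ : ∃ u' : ℂ → ℂ, u' = fun z => ω * u z := ⟨_, rfl⟩
  rw [← hu'] at hFI
  have hUN' : UN u' R := by
    rw [hu']
    exact ⟨hUN.pos, hUN.df.const_mul ω, fun z hz => mul_ne_zero hω0 (hUN.nz z hz)⟩
  obtain ⟨g', hFI', heq, G, hG⟩ := hEXT kc hk k k u' R hk1 hk1 hUN' g τ1 η hη hsub hFI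
  have hSG' : SG g' (Metric.ball τ1 η) := by
    obtain ⟨C, s, h1, h2, h3, h4⟩ := hSG
    refine ⟨C, s, h1, h2, h3, fun j hj t ht => ?_⟩
    rw [heq j hj ht]
    exact h4 j hj t ht
  have hprv := hPRV kc hk k k u' R hk1 hk1 hUN' g' hFI' τ1 η hη hsub hSG'
  have hlaw := hLIM kc hk k k u' R hk1 hk1 hUN' g' G hFI' hG
  have hυ : u' 0 ≠ 0 := hUN'.nz 0 (Metric.mem_ball_self hR3)
  have hβ := hNML k (u' 0) _ hk1 hυ hlaw
  have hG0 : ∀ j, 2 ≤ j → G j 0 = 0 := fun j hj =>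
    (mul_eq_zero.mp (hβ j hj)).resolve_right (pow_ne_zero _ (inv_ne_zero hυ))
  intro ω0 hω0'
  by_contra hcon
  have hcon' : ¬ ∀ z ∈ Metric.ball (0 : ℂ) (R ^ 3), u' (ω0 * z) = u' z := by
    intro h
    refine hcon fun z hz => ?_
    have h1 := h z hz
    rw [hu'] at h1
    exact mul_left_cancel₀ hω0 h1
  obtain ⟨ωd, L, e, hωd, hL1, hLd, he, he0, hee⟩ :=
    hDCK 3 k u' R ω0 (by norm_num) hk1 hR hUN'.df hω0' hcon'
  have h3k : 3 * k ≠ 0 := by omega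
  have hnorm : ‖ωd‖ = 1 := norm_eq_one_of_pow_eq_one hωd h3k
  have hγ := hNDA kc hk k u' R hk1 hUN' g' G hFI' hG ωd L e hωd hL1 he hee
  choose! γ hγd hγe using hγ
  have hDk : Dk 3 k u' R G ωd L e γ := ⟨hωd, hL1, he, hee, hγd, hγe⟩
  have hNL := hNDB kc hk k u' R hk1 hUN' g' G hFI' hG hG0 ωd L e γ hDk
  have hCB := hNCB (6 * k) R g' G γ ωd L hR hnorm hprv (fun j hj => ⟨(hG j hj).1, fun τ hτ => by
    have h1 := (hG j hj).2 τ hτ
    rw [show 6 * k * (j - 1) = (2 * k + 4 * k) * (j - 1) by ring]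
    exact h1⟩) (fun j hj => ⟨hγd j hj, hγe j hj⟩)
  have hk0 : (0 : ℝ) < k := by exact_mod_cast hk1
  have hL0 : (0 : ℝ) < L := by exact_mod_cast hL1
  refine hNLD ((L : ℝ) / (3 * k)) (u' 0) (e 0) (fun j => γ j 0) (by positivity) ?_ hυ he0 ?_ hCB
  · intro n hn
    apply hLd
    refine ⟨n, ?_⟩
    have h1 : (L : ℝ) = 3 * k * n := by
      rw [div_eq_iff (by positivity)] at hn
      rw [hn]; ring
    exact_mod_cast h1
  · have h1 : (((L : ℝ) / (3 * k) : ℝ) : ℂ) = (L : ℂ) / (3 * k) := by push_cast; rfl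
    rw [h1]
    exact hNL

end H719FX
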