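import Pool.Agent.H719R4.FX.Cov

/-!
# The linearised law has no sub-Gevrey solution
-/

open Complex Set Filter Topology

namespace H719FX

open H738CZ

/-- falling factorial -/
noncomputable def NLD_fall (x : ℂ) (n : ℕ) : ℂ := ∏ i ∈ Finset.range n, (x - i)

theorem NLD_fall_add (x : ℂ) (m n : ℕ) :
    NLD_fall x (m + n) = NLD_fall x m * NLD_fall (x - m) n := by
  unfold NLD_fall
  rw [Finset.prod_range_add]
  congr 1
  apply Finset.prod_congr rfl
  intro i _
  push_cast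
  ring

theorem NLD_fall_succ (x : ℂ) (n : ℕ) :
    NLD_fall (x + 1) (n + 1) = (x + 1) * NLD_fall x n := by
  unfold NLD_fall
  rw [Finset.prod_range_succ', mul_comm]
  congr 1
  · push_cast
    ring
  · apply Finset.prod_congr rfl
    intro i _
    push_cast
    ring

theorem NLD_coeff (x : ℂ) (n : ℕ) :
    PowerSeries.coeff n (binS x) = NLD_fall x n / (n.factorial : ℂ) := by
  unfold binS NLD_fall
  rw [PowerSeries.coeff_mk]

theorem NLD_kappa (σ : ℝ) (hσ : 0 < σ) (h : ∀ n : ℕ, σ ≠ n) :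
    ∃ κ : ℝ, 0 < κ ∧ ∀ i : ℕ, κ * ((i : ℝ) + 1) ≤ |σ + 1 - i| := by
  have hne : ∀ i : ℕ, 0 < |σ + 1 - (i : ℝ)| := by
    intro i
    rw [abs_pos]
    intro h0
    rcases i with _ | i
    · simp at h0
      linarith
    · push_cast at h0
      exact h i (by linarith)
  obtain ⟨N, hN⟩ := exists_nat_gt (2 * σ + 3)
  obtain ⟨i0, hi0, hmin⟩ := Finset.exists_min_image (Finset.range (N + 1))
    (fun i : ℕ => |σ + 1 - (i : ℝ)| / ((i : ℝ) + 1)) ⟨0, by simp⟩
  refine ⟨min (|σ + 1 - (i0 : ℝ)| / ((i0 : ℝ) + 1)) (1 / 2),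
    lt_min (div_pos (hne i0) (by positivity)) (by norm_num), ?_⟩
  intro i
  have hi1 : (0 : ℝ) < i + 1 := by positivity
  by_cases hi : i < N + 1
  · have h1 := hmin i (Finset.mem_range.2 hi)
    calc min (|σ + 1 - (i0 : ℝ)| / ((i0 : ℝ) + 1)) (1 / 2) * ((i : ℝ) + 1)
        ≤ |σ + 1 - (i0 : ℝ)| / ((i0 : ℝ) + 1) * ((i : ℝ) + 1) :=
          mul_le_mul_of_nonneg_right (min_le_left _ _) hi1.le
      _ ≤ |σ + 1 - (i : ℝ)| / ((i : ℝ) + 1) * ((i : ℝ) + 1) :=
          mul_le_mul_of_nonneg_right h1 hi1.le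
      _ = |σ + 1 - (i : ℝ)| := div_mul_cancel₀ _ hi1.ne'
  · have h2 : (N : ℝ) + 1 ≤ i := by exact_mod_cast not_lt.1 hi
    calc min (|σ + 1 - (i0 : ℝ)| / ((i0 : ℝ) + 1)) (1 / 2) * ((i : ℝ) + 1)
        ≤ 1 / 2 * ((i : ℝ) + 1) := mul_le_mul_of_nonneg_right (min_le_right _ _) hi1.le
      _ ≤ -(σ + 1 - i) := by linarith
      _ ≤ |σ + 1 - (i : ℝ)| := neg_le_abs _

theorem NLD_fall_lower (σ κ : ℝ) (hκ : 0 < κ) (h : ∀ i : ℕ, κ * ((i : ℝ) + 1) ≤ |σ + 1 - i|)
    (n : ℕ) : κ ^ n * (n.factorial : ℝ) ≤ ‖NLD_fall ((σ : ℂ) + 1) n‖ := by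
  induction n with
  | zero => simp [NLD_fall]
  | succ n ih =>
    have h1 : NLD_fall ((σ : ℂ) + 1) (n + 1) = NLD_fall ((σ : ℂ) + 1) n * ((σ : ℂ) + 1 - n) := by
      unfold NLD_fall
      rw [Finset.prod_range_succ]
    have h2 : ‖(σ : ℂ) + 1 - n‖ = |σ + 1 - n| := by
      have h3 : (σ : ℂ) + 1 - n = ((σ + 1 - n : ℝ) : ℂ) := by
        push_cast
        rfl
      rw [h3, Complex.norm_real, Real.norm_eq_abs]
    rw [h1, norm_mul, h2, pow_succ, Nat.factorial_succ]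
    push_cast
    calc κ ^ n * κ * (((n : ℝ) + 1) * (n.factorial : ℝ))
        = (κ ^ n * (n.factorial : ℝ)) * (κ * ((n : ℝ) + 1)) := by ring
      _ ≤ ‖NLD_fall ((σ : ℂ) + 1) n‖ * |σ + 1 - n| :=
          mul_le_mul ih (h n) (by positivity) (norm_nonneg _)

/-- the coefficients `F` -/
noncomputable def NLD_F (υ ε : ℂ) (c : ℕ → ℂ) (m : ℕ) : ℂ :=
  if m = 1 then -(ε * υ) else c m * υ ^ (2 * m) / 2 ^ m

/-- the coefficients `a` -/
noncomputable def NLD_a (σ : ℝ) (υ ε : ℂ) (c : ℕ → ℂ) (m : ℕ) : ℂ :=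
  if m = 0 then 6 * υ * ε / (((σ : ℂ) + 1) * (σ + 2)) * (σ + 2) else
    NLD_F υ ε c m / NLD_fall ((σ : ℂ) + 1) (2 * m - 1)

theorem NLD_law (σ υ ε : ℂ) (c : ℕ → ℂ) (h : NLaw σ υ ε c) (J : ℕ) (hJ : 1 ≤ J) :
    -(ε * υ) * (NLD_fall σ (2 * J - 1) / ((2 * J - 1).factorial : ℂ)) +
    (∑ j ∈ Finset.Icc 2 J, (c j * υ ^ (2 * j) / 2 ^ j) *
      (NLD_fall (σ + 2 - 2 * j) (2 * J + 1 - 2 * j) / ((2 * J + 1 - 2 * j).factorial : ℂ))) +
    6 * υ * ε / ((σ + 1) * (σ + 2)) * (NLD_fall (σ + 2) (2 * J + 1) /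
      ((2 * J + 1).factorial : ℂ)) = 0 := by
  have h1 := h J hJ
  rw [map_add, map_add, PowerSeries.coeff_mul_X_pow', if_pos (by omega), PowerSeries.coeff_C_mul,
    PowerSeries.coeff_C_mul, NLD_coeff, NLD_coeff, map_sum] at h1
  rw [show 2 * J + 1 - 2 = 2 * J - 1 by omega] at h1
  rw [← h1]
  congr 2
  apply Finset.sum_congr rfl
  intro j hj
  rw [Finset.mem_Icc] at hj
  rw [PowerSeries.coeff_mul_X_pow', if_pos (by omega), PowerSeries.coeff_C_mul, NLD_coeff]

theorem NLD_sum (σ : ℝ) (υ ε : ℂ) (c : ℕ → ℂ) (hf : ∀ n, NLD_fall ((σ : ℂ) + 1) n ≠ 0)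
    (h : NLaw σ υ ε c) (J : ℕ) (hJ : 1 ≤ J) :
    ∑ m ∈ Finset.range (J + 1), NLD_a σ υ ε c m / ((2 * (J - m) + 1).factorial : ℂ) = 0 := by
  have hP := hf (2 * J)
  have key : (∑ m ∈ Finset.range (J + 1), NLD_a σ υ ε c m / ((2 * (J - m) + 1).factorial : ℂ)) *
      NLD_fall ((σ : ℂ) + 1) (2 * J) = 0 := by
    rw [← NLD_law σ υ ε c h J hJ, Finset.sum_mul]
    have hset : Finset.range (J + 1) = insert 0 (insert 1 (Finset.Icc 2 J)) := by
      ext i
      simp only [Finset.mem_range, Finset.mem_insert, Finset.mem_Icc]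
      omega
    rw [hset, Finset.sum_insert (by simp), Finset.sum_insert (by simp)]
    have hmul : ∀ m, 1 ≤ m → m ≤ J → NLD_fall ((σ : ℂ) + 1) (2 * J) =
        NLD_fall ((σ : ℂ) + 1) (2 * m - 1) *
          NLD_fall ((σ : ℂ) + 2 - 2 * m) (2 * J + 1 - 2 * m) := by
      intro m hm1 hmJ
      rw [show 2 * J = (2 * m - 1) + (2 * J + 1 - 2 * m) by omega, NLD_fall_add]
      congr 2
      · rw [Nat.cast_sub (by omega)]
        push_cast
        ring
      · omega
    have t0 : NLD_a σ υ ε c 0 / ((2 * (J - 0) + 1).factorial : ℂ) *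
        NLD_fall ((σ : ℂ) + 1) (2 * J) =
        6 * υ * ε / (((σ : ℂ) + 1) * (σ + 2)) * (NLD_fall ((σ : ℂ) + 2) (2 * J + 1) /
      ((2 * J + 1).factorial : ℂ)) := by
      have e1 : NLD_fall ((σ : ℂ) + 2) (2 * J + 1) =
          ((σ : ℂ) + 2) * NLD_fall ((σ : ℂ) + 1) (2 * J) := by
        have := NLD_fall_succ ((σ : ℂ) + 1) (2 * J)
        rw [show (σ : ℂ) + 1 + 1 = (σ : ℂ) + 2 by ring] at this
        exact this
      rw [e1]
      unfold NLD_a
      rw [if_pos rfl, Nat.sub_zero]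
      ring
    have tm : ∀ m, 1 ≤ m → m ≤ J → NLD_a σ υ ε c m / ((2 * (J - m) + 1).factorial : ℂ) *
        NLD_fall ((σ : ℂ) + 1) (2 * J) = NLD_F υ ε c m *
        (NLD_fall ((σ : ℂ) + 2 - 2 * m) (2 * J + 1 - 2 * m) /
          ((2 * J + 1 - 2 * m).factorial : ℂ)) := by
      intro m hm1 hmJ
      rw [hmul m hm1 hmJ, show 2 * (J - m) + 1 = 2 * J + 1 - 2 * m by omega]
      unfold NLD_a
      rw [if_neg (by omega)]
      have := hf (2 * m - 1)
      field_simp
    rw [t0, tm 1 le_rfl hJ, Finset.sum_congr rfl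
      (fun m hm => tm m (by rw [Finset.mem_Icc] at hm; omega) (Finset.mem_Icc.1 hm).2)]
    have e2 : ∑ x ∈ Finset.Icc 2 J, NLD_F υ ε c x *
        (NLD_fall ((σ : ℂ) + 2 - 2 * x) (2 * J + 1 - 2 * x) /
          ((2 * J + 1 - 2 * x).factorial : ℂ)) =
        ∑ j ∈ Finset.Icc 2 J, (c j * υ ^ (2 * j) / 2 ^ j) *
      (NLD_fall ((σ : ℂ) + 2 - 2 * j) (2 * J + 1 - 2 * j) /
        ((2 * J + 1 - 2 * j).factorial : ℂ)) := by
      apply Finset.sum_congr rfl
      intro j hj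
      rw [Finset.mem_Icc] at hj
      unfold NLD_F
      rw [if_neg (by omega)]
    rw [e2]
    have e3 : NLD_F υ ε c 1 = -(ε * υ) := by
      unfold NLD_F
      rw [if_pos rfl]
    rw [e3, show (σ : ℂ) + 2 - 2 * ((1 : ℕ) : ℂ) = σ by push_cast; ring,
      show 2 * J + 1 - 2 * 1 = 2 * J - 1 by omega]
    ring
  exact (mul_eq_zero.1 key).resolve_right hP

theorem NLD_superexp (B t : ℝ) (hB : 1 ≤ B) (ht : 0 < t) :
    ∃ K : ℝ, 0 ≤ K ∧ ∀ n : ℕ, B ^ n / (n.factorial : ℝ) ^ t ≤ K * (1 / 2) ^ n := by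
  have hB0 : 0 < B := by linarith
  set x : ℝ := (2 * B) ^ (1 / t) with hx
  have hx0 : 0 ≤ x := by positivity
  refine ⟨(Real.exp x) ^ t, by positivity, fun n => ?_⟩
  have h1 : x ^ n / (n.factorial : ℝ) ≤ Real.exp x := Real.pow_div_factorial_le_exp x hx0 n
  have h2 : (x ^ n / (n.factorial : ℝ)) ^ t ≤ (Real.exp x) ^ t :=
    Real.rpow_le_rpow (by positivity) h1 ht.le
  have h3 : (x ^ n / (n.factorial : ℝ)) ^ t = (2 * B) ^ n / (n.factorial : ℝ) ^ t := by
    rw [Real.div_rpow (by positivity) (by positivity)]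
    congr 1
    rw [hx, ← Real.rpow_natCast, ← Real.rpow_mul (by positivity), ← Real.rpow_mul (by positivity)]
    rw [show 1 / t * ((n : ℝ) * t) = n by field_simp]
    rw [Real.rpow_natCast]
  rw [h3, mul_pow] at h2
  have h4 : B ^ n / (n.factorial : ℝ) ^ t = (2 ^ n * B ^ n / (n.factorial : ℝ) ^ t) * (1 / 2) ^ n := by
    rw [one_div, inv_pow]
    field_simp
  rw [h4]
  exact mul_le_mul_of_nonneg_right h2 (by positivity)

theorem tNLD : StNLD := by
  rintro σ υ ε c hσ hσn hυ hε hlaw ⟨C, s, hC, hs0, hs1, hc⟩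
  obtain ⟨κ, hκ, hκi⟩ := NLD_kappa σ hσ hσn
  have hlow := NLD_fall_lower σ κ hκ hκi
  have hf : ∀ n, NLD_fall ((σ : ℂ) + 1) n ≠ 0 := by
    intro n h0
    have := hlow n
    rw [h0, norm_zero] at this
    have h1 : 0 < κ ^ n * (n.factorial : ℝ) := by positivity
    linarith
  have hsum := NLD_sum σ υ ε c hf hlaw
  -- summability of `a m * z ^ m`
  set z : ℂ := -((Real.pi : ℂ) ^ 2) with hz
  have hzn : ‖z‖ = Real.pi ^ 2 := by
    rw [hz, norm_neg, norm_pow, Complex.norm_real, Real.norm_eq_abs, abs_of_pos Real.pi_pos]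
  have hsa : Summable (fun m => ‖NLD_a σ υ ε c m * z ^ m‖) := by
    set E : ℝ := C * ‖υ‖ ^ 2 / 2 / κ ^ 2 with hE
    have hE0 : 0 ≤ E := by positivity
    set B : ℝ := 4 * E * Real.pi ^ 2 + 1 with hB
    have hB1 : 1 ≤ B := by
      have : 0 ≤ 4 * E * Real.pi ^ 2 := by positivity
      linarith
    obtain ⟨K, hK0, hK⟩ := NLD_superexp B (1 - s) hB1 (by linarith)
    rw [← summable_nat_add_iff 2]
    have hgeo : Summable (fun m : ℕ => κ * (K * (1 / 2 : ℝ) ^ (2 * (m + 2)))) := by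
      apply Summable.mul_left
      apply Summable.mul_left
      have : (fun m : ℕ => (1 / 2 : ℝ) ^ (2 * (m + 2))) =
          fun m : ℕ => (1 / 4 : ℝ) ^ m * (1 / 16) := by
        funext m
        rw [mul_add, pow_add, pow_mul]
        norm_num
      rw [this]
      exact (summable_geometric_of_lt_one (by norm_num) (by norm_num)).mul_right _
    refine Summable.of_nonneg_of_le (fun m => norm_nonneg _) (fun m => ?_) hgeo
    obtain ⟨n, hn⟩ : ∃ n, n = m + 2 := ⟨_, rfl⟩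
    rw [← hn]
    have hn2 : 2 ≤ n := by omega
    have ea : NLD_a σ υ ε c n = c n * υ ^ (2 * n) / 2 ^ n /
        NLD_fall ((σ : ℂ) + 1) (2 * n - 1) := by
      unfold NLD_a NLD_F
      rw [if_neg (by omega), if_neg (by omega)]
    rw [ea, norm_mul, norm_div, norm_div, norm_mul, norm_pow, norm_pow, norm_pow, hzn]
    have hl := hlow (2 * n - 1)
    have hcn := hc n (by omega)
    have hfac : ((2 * n).factorial : ℝ) = 2 * n * ((2 * n - 1).factorial : ℝ) := by
      have : (2 * n).factorial = 2 * n * (2 * n - 1).factorial := by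
        rw [Nat.mul_factorial_pred (by omega)]
      rw [this]
      push_cast
      ring
    have hfp : (0 : ℝ) < ((2 * n - 1).factorial : ℝ) := by positivity
    have hfp2 : (0 : ℝ) < ((2 * n).factorial : ℝ) := by positivity
    have h2n : (2 : ℝ) * n ≤ 4 ^ n := by
      have : 2 * n < 4 ^ n := by
        have h5 : n < 2 ^ n := Nat.lt_two_pow_self
        calc 2 * n < 2 * 2 ^ n := by omega
          _ ≤ 2 ^ n * 2 ^ n := Nat.mul_le_mul_right _ (by
              calc 2 = 2 ^ 1 := by norm_num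
                _ ≤ 2 ^ n := Nat.pow_le_pow_right (by norm_num) (by omega))
          _ = 4 ^ n := by
              rw [← mul_pow]
              norm_num
      exact_mod_cast this.le
    have hnorm2 : ‖(2 : ℂ)‖ = 2 := by simp
    rw [hnorm2]
    calc ‖c n‖ * ‖υ‖ ^ (2 * n) / 2 ^ n / ‖NLD_fall ((σ : ℂ) + 1) (2 * n - 1)‖ * (Real.pi ^ 2) ^ n
        ≤ (C ^ n * ((2 * n).factorial : ℝ) ^ s) * ‖υ‖ ^ (2 * n) / 2 ^ n /
            (κ ^ (2 * n - 1) * ((2 * n - 1).factorial : ℝ)) * (Real.pi ^ 2) ^ n := by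
          gcongr
      _ = κ * ((2 * n) * (E * Real.pi ^ 2) ^ n * (((2 * n).factorial : ℝ) ^ s /
            ((2 * n).factorial : ℝ))) := by
          rw [hfac, hE]
          have e5 : κ ^ (2 * n) = κ ^ (2 * n - 1) * κ := by
            rw [← pow_succ]
            congr 1
            omega
          have e6 : (C * ‖υ‖ ^ 2 / 2 / κ ^ 2 * Real.pi ^ 2) ^ n =
              C ^ n * ‖υ‖ ^ (2 * n) / 2 ^ n / (κ ^ (2 * n - 1) * κ) * (Real.pi ^ 2) ^ n := by
            rw [← e5, pow_mul κ 2 n, pow_mul ‖υ‖ 2 n, mul_pow, div_pow, div_pow, mul_pow]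
          rw [e6]
          have hn0 : (n : ℝ) ≠ 0 := by
            have : (2 : ℝ) ≤ n := by exact_mod_cast hn2
            linarith
          field_simp
      _ ≤ κ * (4 ^ n * (E * Real.pi ^ 2) ^ n * (((2 * n).factorial : ℝ) ^ s /
            ((2 * n).factorial : ℝ))) := by
          gcongr
      _ = κ * ((4 * E * Real.pi ^ 2) ^ n * (1 / ((2 * n).factorial : ℝ) ^ (1 - s))) := by
          rw [Real.rpow_sub hfp2, Real.rpow_one, ← mul_pow, mul_assoc 4 E]
          congr 2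
          field_simp
      _ ≤ κ * (B ^ (2 * n) * (1 / ((2 * n).factorial : ℝ) ^ (1 - s))) := by
          have h7 : (4 * E * Real.pi ^ 2) ^ n ≤ B ^ n :=
            pow_le_pow_left₀ (by positivity) (by rw [hB]; linarith) n
          have h8 : B ^ n ≤ B ^ (2 * n) := pow_le_pow_right₀ hB1 (by omega)
          have h9 := h7.trans h8
          gcongr
      _ ≤ κ * (K * (1 / 2) ^ (2 * n)) := by
          have := hK (2 * n)
          rw [mul_one_div]
          gcongr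
  -- the sine series
  have hsin : HasSum (fun l : ℕ => z ^ l / ((2 * l + 1).factorial : ℂ)) 0 := by
    have h1 := Complex.hasSum_sin (Real.pi : ℂ)
    rw [Complex.sin_pi] at h1
    have h2 := h1.div_const (Real.pi : ℂ)
    rw [zero_div] at h2
    have hpi : (Real.pi : ℂ) ≠ 0 := by exact_mod_cast Real.pi_ne_zero
    have h3 : (fun l : ℕ => z ^ l / ((2 * l + 1).factorial : ℂ)) = fun l : ℕ =>
        (-1) ^ l * (Real.pi : ℂ) ^ (2 * l + 1) / ((2 * l + 1).factorial : ℂ) / (Real.pi : ℂ) := by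
      funext l
      rw [hz, neg_eq_neg_one_mul, mul_pow, ← pow_mul, pow_succ]
      field_simp
    rw [h3]
    exact h2
  have hsb : Summable (fun l : ℕ => ‖z ^ l / ((2 * l + 1).factorial : ℂ)‖) := hsin.summable.norm
  have hprod := tsum_mul_tsum_eq_tsum_sum_antidiagonal_of_summable_norm hsa hsb
  rw [hsin.tsum_eq, mul_zero] at hprod
  have hterm : ∀ n : ℕ, (∑ kl ∈ Finset.HasAntidiagonal.antidiagonal n,
      NLD_a σ υ ε c kl.1 * z ^ kl.1 * (z ^ kl.2 / ((2 * kl.2 + 1).factorial : ℂ))) =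
      if n = 0 then NLD_a σ υ ε c 0 else 0 := by
    intro n
    rw [Finset.Nat.sum_antidiagonal_eq_sum_range_succ
      (fun k l => NLD_a σ υ ε c k * z ^ k * (z ^ l / ((2 * l + 1).factorial : ℂ)))]
    split_ifs with h0
    · subst h0
      simp
    · have h1 := hsum n (by omega)
      have h2 : ∀ k ∈ Finset.range n.succ,
          NLD_a σ υ ε c k * z ^ k * (z ^ (n - k) / ((2 * (n - k) + 1).factorial : ℂ)) =
          z ^ n * (NLD_a σ υ ε c k / ((2 * (n - k) + 1).factorial : ℂ)) := by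
        intro k hk
        rw [Finset.mem_range] at hk
        have h3 : z ^ n = z ^ k * z ^ (n - k) := by
          rw [← pow_add]
          congr 1
          omega
        rw [h3]
        ring
      rw [Finset.sum_congr rfl h2, ← Finset.mul_sum, h1, mul_zero]
  simp_rw [hterm] at hprod
  rw [tsum_ite_eq] at hprod
  unfold NLD_a at hprod
  rw [if_pos rfl] at hprod
  have hs1' : (σ : ℂ) + 1 ≠ 0 := by
    have : σ + 1 ≠ 0 := by linarith
    exact_mod_cast this
  have hs2' : (σ : ℂ) + 2 ≠ 0 := by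
    have : σ + 2 ≠ 0 := by linarith
    exact_mod_cast this
  have : (6 : ℂ) * υ * ε / (((σ : ℂ) + 1) * (σ + 2)) * (σ + 2) ≠ 0 := by
    apply mul_ne_zero _ hs2'
    apply div_ne_zero _ (mul_ne_zero hs1' hs2')
    exact mul_ne_zero (mul_ne_zero (by norm_num) hυ) hε
  exact this hprod.symm

end H719FX
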