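import Pool.Agent.H719R4.FX.Cov

/-!
# NML: the model law for `p = k` has only the trivial solution
-/

open Complex Set Filter Topology

namespace H719FX

open H738CZ

theorem NML_Yp (k : ℕ) (υ : ℂ) :
    Yp k k υ = PowerSeries.C (υ ^ 3 / 2) * PowerSeries.X ^ 2 := by
  ext n
  rw [PowerSeries.coeff_C_mul, PowerSeries.coeff_X_pow, Yp, PowerSeries.coeff_mk]
  by_cases h2 : n < 2
  · rw [if_pos h2, if_neg (by omega), mul_zero]
  · rw [if_neg h2]
    by_cases h3 : n = 2
    · subst h3
      simp
    · rw [if_neg h3, mul_zero]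
      have : ∏ i ∈ Finset.range (n - 2), (((k : ℂ) - k) / k - i) = 0 := by
        apply Finset.prod_eq_zero (Finset.mem_range.2 (by omega : 0 < n - 2))
        simp
      rw [this]
      simp

theorem NML_term (k : ℕ) (hk : 1 ≤ k) (υ b : ℂ) (J j : ℕ) (hj : j ≤ J) :
    PowerSeries.coeff (2 * J + 1) (PowerSeries.C b *
      binS ((2 * (k : ℂ) + 4 * k - (3 * k + 3 * k) * j) / (3 * k)) * (Yp k k υ) ^ j) =
      b * (υ ^ 3 / 2) ^ j * PowerSeries.coeff (2 * (J - j) + 1) (binS (2 - 2 * (j : ℂ))) := by
  have hk' : (k : ℂ) ≠ 0 := by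
    have : k ≠ 0 := by omega
    exact_mod_cast this
  have he : (2 * (k : ℂ) + 4 * k - (3 * k + 3 * k) * j) / (3 * k) = 2 - 2 * (j : ℂ) := by
    field_simp
    ring
  rw [he, NML_Yp, mul_pow, ← pow_mul, ← map_pow]
  have h1 : PowerSeries.C b * binS (2 - 2 * (j : ℂ)) *
      (PowerSeries.C ((υ ^ 3 / 2) ^ j) * PowerSeries.X ^ (2 * j)) =
      (PowerSeries.C (b * (υ ^ 3 / 2) ^ j) * binS (2 - 2 * (j : ℂ))) *
        PowerSeries.X ^ (2 * j) := by
    rw [map_mul]
    ring
  rw [h1, PowerSeries.coeff_mul_X_pow', if_pos (by omega), PowerSeries.coeff_C_mul]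
  congr 3
  omega

theorem tNML : StNML := by
  intro k υ β hk hυ hM j
  induction j using Nat.strong_induction_on with
  | _ J ih =>
    intro hJ
    have h := hM J (by omega)
    rw [map_sum, Finset.sum_eq_single_of_mem J (Finset.mem_Icc.2 ⟨by omega, le_refl J⟩)] at h
    · rw [NML_term k hk υ (β J) J J le_rfl, Nat.sub_self, mul_zero, zero_add, binS,
        PowerSeries.coeff_mk] at h
      have h2 : (∏ i ∈ Finset.range 1, ((2 - 2 * (J : ℂ)) - i)) / ((1 : ℕ).factorial : ℂ) =
          2 - 2 * (J : ℂ) := by simp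
      rw [h2] at h
      rcases mul_eq_zero.1 h with h3 | h3
      · rcases mul_eq_zero.1 h3 with h4 | h4
        · exact h4
        · exfalso
          have h5 := pow_eq_zero_iff (n := J) (by omega) |>.1 h4
          rw [div_eq_zero_iff] at h5
          rcases h5 with h5 | h5
          · exact hυ (pow_eq_zero_iff (n := 3) (by norm_num) |>.1 h5)
          · norm_num at h5
      · exfalso
        have h4 : (J : ℂ) = 1 := by linear_combination (-1 / 2) * h3
        have h5 : J = 1 := by exact_mod_cast h4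
        omega
    · intro j hj hjJ
      rw [Finset.mem_Icc] at hj
      rw [NML_term k hk υ (β j) J j hj.2]
      by_cases h1 : j = 1
      · subst h1
        rw [binS, PowerSeries.coeff_mk]
        have : ∏ i ∈ Finset.range (2 * (J - 1) + 1), ((2 - 2 * ((1 : ℕ) : ℂ)) - i) = 0 := by
          apply Finset.prod_eq_zero (Finset.mem_range.2 (by omega : 0 < 2 * (J - 1) + 1))
          simp
        rw [this]
        simp
      · rw [ih j (by omega) (by omega)]
        simp

end H719FX
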