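import Pool.Agent.H719R4.FX.Cov
import Pool.Agent.H719R4.FX.ORD

/-! Task REG: case distinction. -/

open Complex Set Filter Topology

namespace H719FX

open H738CZ

theorem REG_swap (Z W : ℂ → ℂ) (t0 : ℂ) (h : Reg W Z t0) : Reg Z W t0 := by
  obtain ⟨h, Z', W', h1, h2, h3, h4, h5, h6, h7⟩ := h
  refine ⟨h, W', Z', h1, h2, h4, h3, h6, h5, ?_⟩
  intro h8
  apply h7
  unfold Wr at h8 ⊢
  linear_combination -h8

theorem tREG : StREG := by
  intro Z W t0 hZ hW hWr hBr hI1 hI2
  have hZ' : AnalyticAt ℂ (deriv Z) t0 := hZ.deriv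
  have hW' : AnalyticAt ℂ (deriv W) t0 := hW.deriv
  have hZ0 : ¬ ∀ᶠ t in 𝓝 t0, deriv Z t = 0 := by
    intro h
    apply hWr
    have h2 : ∀ᶠ t in 𝓝 t0, deriv (deriv Z) t = 0 := by
      have h' : deriv Z =ᶠ[𝓝 t0] fun _ => 0 := h
      filter_upwards [h'.eventuallyEq_nhds] with t ht
      rw [ht.deriv_eq]; simp
    filter_upwards [h, h2] with t h1 h2
    unfold Wr
    rw [h1, h2]; ring
  have hW0 : ¬ ∀ᶠ t in 𝓝 t0, deriv W t = 0 := by
    intro h
    apply hWr
    have h2 : ∀ᶠ t in 𝓝 t0, deriv (deriv W) t = 0 := by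
      have h' : deriv W =ᶠ[𝓝 t0] fun _ => 0 := h
      filter_upwards [h'.eventuallyEq_nhds] with t ht
      rw [ht.deriv_eq]; simp
    filter_upwards [h, h2] with t h1 h2
    unfold Wr
    rw [h1, h2]; ring
  obtain ⟨a, f, ha, hf, hf0, hfe⟩ := ORD_fac _ t0 hZ' hZ0
  obtain ⟨b, g, hb, hg, hg0, hge⟩ := ORD_fac _ t0 hW' hW0
  have hWra : AnalyticAt ℂ (Wr Z W) t0 := by
    have : AnalyticAt ℂ (fun t => deriv Z t * deriv (deriv W) t - deriv (deriv Z) t * deriv W t) t0 :=
      (hZ'.mul hW'.deriv).sub (hZ'.deriv.mul hW')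
    exact this
  have hid : AnalyticAt ℂ (fun t : ℂ => t - t0) t0 := analyticAt_id.sub analyticAt_const
  have hw1a : AnalyticAt ℂ (fun t => f t * deriv g t - deriv f t * g t) t0 :=
    (hf.mul hg.deriv).sub (hf.deriv.mul hg)
  have hHa : AnalyticAt ℂ (fun t => ((b : ℂ) - a) * (f t * g t) +
      (t - t0) * (f t * deriv g t - deriv f t * g t)) t0 :=
    (analyticAt_const.mul (hf.mul hg)).add (hid.mul hw1a)
  have he := ORD_wr (deriv Z) (deriv W) f g t0 a b hf hg hfe hge
  have ho := ORD_ord (Wr Z W) _ t0 (a + b) hWra hHa he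
  rcases lt_trichotomy a b with hab | hab | hab
  · -- `a < b`
    apply REG_swap
    refine hI2 a (b - a) (by omega) ⟨g, f, hg, hf, hg0, hf0, ?_, hfe⟩
    rw [show a + (b - a) = b by omega]
    exact hge
  · -- `a = b`
    subst hab
    have hw1 : analyticOrderAt (fun t => ((a : ℂ) - a) * (f t * g t) +
        (t - t0) * (f t * deriv g t - deriv f t * g t)) t0 =
        1 + analyticOrderAt (fun t => f t * deriv g t - deriv f t * g t) t0 := by
      have h1 : analyticOrderAt (fun t : ℂ => t - t0) t0 = 1 := by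
        have := (hid.analyticOrderAt_eq_natCast (n := 1)).2
          ⟨fun _ => 1, analyticAt_const, one_ne_zero, Eventually.of_forall fun t => by simp⟩
        exact_mod_cast this
      rw [← h1, ← analyticOrderAt_mul hid hw1a]
      refine analyticOrderAt_congr (Eventually.of_forall fun t => ?_)
      simp
    rw [hw1] at ho
    -- the function `e`
    set e : ℂ → ℂ := fun t => g t * f t0 - f t * g t0 with hedef
    have hea : AnalyticAt ℂ e t0 := (hg.mul analyticAt_const).sub (hf.mul analyticAt_const)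
    have hew : ∀ᶠ t in 𝓝 t0, f t * deriv e t - deriv f t * e t =
        f t0 * (f t * deriv g t - deriv f t * g t) := by
      filter_upwards [hf.eventually_analyticAt, hg.eventually_analyticAt] with t h1 h2
      have hd : HasDerivAt e (deriv g t * f t0 - deriv f t * g t0) t :=
        (h2.differentiableAt.hasDerivAt.mul_const _).sub
          (h1.differentiableAt.hasDerivAt.mul_const _)
      rw [hd.deriv]
      simp only [hedef]
      ring
    have he0 : ¬ ∀ᶠ t in 𝓝 t0, e t = 0 := by
      intro h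
      have h2 : ∀ᶠ t in 𝓝 t0, deriv e t = 0 := by
        have h' : e =ᶠ[𝓝 t0] fun _ => 0 := h
        filter_upwards [h'.eventuallyEq_nhds] with t ht
        rw [ht.deriv_eq]; simp
      have h3 : ∀ᶠ t in 𝓝 t0, f t * deriv g t - deriv f t * g t = 0 := by
        filter_upwards [h, h2, hew] with t h1 h2 h3
        rw [h1, h2, mul_zero, mul_zero, sub_zero] at h3
        exact (mul_eq_zero.1 h3.symm).resolve_left hf0
      have h4 : analyticOrderAt (fun t => f t * deriv g t - deriv f t * g t) t0 = ⊤ :=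
        analyticOrderAt_eq_top.2 h3
      rw [h4] at ho
      simp at ho
      exact hWr (analyticOrderAt_eq_top.1 ho)
    obtain ⟨k, h, hk, hh, hh0, hhe⟩ := ORD_fac e t0 hea he0
    have hk1 : 1 ≤ k := by
      rcases Nat.eq_zero_or_pos k with hk0 | hk0
      · exfalso
        have h1 := hhe.self_of_nhds
        rw [hk0, pow_zero, one_mul] at h1
        apply hh0
        rw [← h1]
        simp only [hedef]; ring
      · exact hk0
    exact hBr a k hk1 ⟨f, g, h, hf, hg, hh, hf0, hg0, hh0, hfe, hge, hhe⟩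
  · -- `b < a`
    refine hI1 b (a - b) (by omega) ⟨f, g, hf, hg, hf0, hg0, ?_, hge⟩
    rw [show b + (a - b) = a by omega]
    exact hfe

end H719FX
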