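import Pool.Agent.H719R4.FX.SIC
import Pool.Agent.H719R4.FX.Cov

/-! SIR: coordinates at a branch, with the derivatives (helper896, helper213). -/

set_option autoImplicit false

open Complex Set Filter Topology

namespace H719FX

open H738CZ

theorem tSIR : StSIR := by
  intro Z W t0 m k hk aZ aW hB
  obtain ⟨Φ0, Ψ, S, f, g, h2, aS, S0, dS, af, ah2, aΨ, nf, nh2, hE⟩ := SIC_loc Z W t0 m k hk hB
  obtain ⟨T, aT, T0, eT⟩ := SIC_inv S t0 aS S0 dS
  have cT : ContinuousAt T 0 := aT.continuousAt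
  have cT' : Tendsto T (𝓝 0) (𝓝 t0) := by
    have := cT.tendsto
    rwa [T0] at this
  -- the function A
  set A : ℂ → ℂ := fun s => f (T s) * deriv T s / (h2 (T s) ^ m * (I * cexp (I * Ψ (T s)))) / k
    with hA
  have dT : deriv T 0 ≠ 0 := by
    intro h0
    have h1 : HasDerivAt T 0 0 := by
      have := aT.differentiableAt.hasDerivAt
      rwa [h0] at this
    have h3 : HasDerivAt S (deriv S t0) (T 0) := by
      rw [T0]; exact aS.differentiableAt.hasDerivAt
    have h2' := HasDerivAt.comp (0 : ℂ) h3 h1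
    have h4 : HasDerivAt (fun s : ℂ => s) (deriv S t0 * 0) 0 :=
      h2'.congr_of_eventuallyEq (by filter_upwards [eT] with s hs; exact hs.symm)
    have h5 := h4.unique (hasDerivAt_id (0 : ℂ))
    simp at h5
  have hkc : (k : ℂ) ≠ 0 := by
    have : k ≠ 0 := by omega
    exact_mod_cast this
  have aA : AnalyticAt ℂ A 0 := by
    have a1 : AnalyticAt ℂ (fun s => f (T s)) 0 := by
      have : AnalyticAt ℂ f (T 0) := by rw [T0]; exact af
      exact this.comp aT
    have a2 : AnalyticAt ℂ (fun s => h2 (T s)) 0 := by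
      have : AnalyticAt ℂ h2 (T 0) := by rw [T0]; exact ah2
      exact this.comp aT
    have a3 : AnalyticAt ℂ (fun s => Ψ (T s)) 0 := by
      have : AnalyticAt ℂ Ψ (T 0) := by rw [T0]; exact aΨ
      exact this.comp aT
    refine AnalyticAt.div_const (AnalyticAt.div (a1.mul aT.deriv)
      ((a2.pow m).mul (analyticAt_const.mul (analyticAt_const.mul a3).cexp)) ?_)
    show h2 (T 0) ^ m * (I * cexp (I * Ψ (T 0))) ≠ 0
    rw [T0]
    exact mul_ne_zero (pow_ne_zero _ nh2) (mul_ne_zero I_ne_zero (exp_ne_zero _))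
  have nA : A 0 ≠ 0 := by
    simp only [hA]
    rw [T0]
    exact div_ne_zero (div_ne_zero (mul_ne_zero nf dT) (mul_ne_zero (pow_ne_zero _ nh2)
      (mul_ne_zero I_ne_zero (exp_ne_zero _)))) hkc
  obtain ⟨u, au, nu, eu⟩ := SIC_root A 0 aA nA 3 (by norm_num)
  -- collect all the local statements
  have hev : ∀ᶠ s in 𝓝 (0 : ℂ), AnalyticAt ℂ T s ∧ AnalyticAt ℂ u s ∧ u s ≠ 0 ∧
      (∀ᶠ s' in 𝓝 s, S (T s') = s' ∧ u s' ^ 3 = A s') ∧
      (∀ᶠ t in 𝓝 (T s), deriv Z t = (t - t0) ^ m * f t ∧ deriv W t = (t - t0) ^ m * g t ∧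
        f t ≠ 0 ∧ g t ≠ 0 ∧ h2 t ≠ 0 ∧ S t = (t - t0) * h2 t ∧ Ψ t = Φ0 + S t ^ k ∧
        cexp (2 * I * Ψ t) = - f t / g t ∧ AnalyticAt ℂ Ψ t) ∧
      AnalyticAt ℂ Z (T s) ∧ AnalyticAt ℂ W (T s) := by
    filter_upwards [aT.eventually_analyticAt, au.eventually_analyticAt,
      au.continuousAt.eventually_ne nu, (eT.and eu).eventually_nhds,
      cT'.eventually hE.eventually_nhds, cT'.eventually aZ.eventually_analyticAt,
      cT'.eventually aW.eventually_analyticAt] with s h1 h2 h3 h4 h5 h6 h7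
    exact ⟨h1, h2, h3, h4, h5, h6, h7⟩
  obtain ⟨δ, hδ, hball⟩ := Metric.eventually_nhds_iff_ball.1 hev
  set R : ℝ := δ ^ ((1 : ℝ) / 3) with hR
  have hR3 : R ^ 3 = δ := by
    rw [hR, ← Real.rpow_natCast, ← Real.rpow_mul hδ.le]
    norm_num
  refine ⟨R, T, u, ⟨Real.rpow_pos_of_pos hδ _, ?_, ?_⟩, T0, dT, ?_, ?_, ⟨Φ0, ?_⟩,
    k * I * cexp (I * Φ0), -(k * I * cexp (-(I * Φ0))), ?_, ?_, ?_⟩
  · intro z hz
    rw [hR3] at hz
    exact (hball z hz).2.1.differentiableAt.differentiableWithinAt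
  · intro z hz
    rw [hR3] at hz
    exact (hball z hz).2.2.1
  · intro z hz
    rw [hR3] at hz
    exact (hball z hz).1.differentiableAt.differentiableWithinAt
  · intro s hs hs0 hTs
    rw [hR3] at hs
    have := (hball s hs).2.2.2.1.self_of_nhds.1
    rw [hTs, S0] at this
    exact hs0 this.symm
  · intro s hs hs0 Φ ρ hP
    rw [hR3] at hs
    obtain ⟨aTs, aus, nus, hsu, hEs, -, -⟩ := hball s hs
    have hTs : T s ≠ t0 := by
      intro hTs
      have := hsu.self_of_nhds.1
      rw [hTs, S0] at this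
      exact hs0 this.symm
    -- the angle is Ψ modulo π
    have hne : ∀ᶠ t in 𝓝 (T s), t ≠ t0 := continuousAt_id.eventually_ne hTs
    have hmod : ∀ᶠ t in 𝓝 (T s), ∃ n : ℤ, Φ t = Ψ t + Real.pi * n := by
      filter_upwards [hEs, hne, hP.eZ, hP.eW] with t ht htn hZ hW
      obtain ⟨t1, t2, t3, t4, -, -, -, t8, -⟩ := ht
      apply SIC_exp_int
      rw [t8]
      have hpw : (t - t0) ^ m ≠ 0 := pow_ne_zero _ (sub_ne_zero.2 htn)
      rw [t1] at hZ
      rw [t2] at hW
      have hρ : ρ (Φ t) * deriv Φ t ≠ 0 := by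
        intro h0
        rw [h0, zero_mul] at hZ
        exact mul_ne_zero hpw t3 hZ
      have e1 : cexp (2 * I * Φ t) = cexp (Φ t * I) * cexp (Φ t * I) := by
        rw [← Complex.exp_add]; congr 1; ring
      have e2 : cexp (Φ t * I) * cexp (-(Φ t * I)) = 1 := by
        rw [← Complex.exp_add]; simp
      rw [e1, eq_div_iff t4]
      apply mul_left_cancel₀ (mul_ne_zero hpw (mul_ne_zero hρ I_ne_zero))
      have hx : ∀ x y : ℂ, (t - t0) ^ m * f t = x → (t - t0) ^ m * g t = y →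
          (t - t0) ^ m * f t * y = (t - t0) ^ m * g t * x := by
        intro x y hx hy; rw [hx, hy]; ring
      have h3 : (t - t0) ^ m * g t * (ρ (Φ t) * deriv Φ t * (I * cexp (Φ t * I))) =
          (t - t0) ^ m * f t * (ρ (Φ t) * deriv Φ t * (-(I * cexp (-(Φ t * I))))) :=
        (hx _ _ hZ hW).symm
      calc (t - t0) ^ m * (ρ (Φ t) * deriv Φ t * I) * (cexp (Φ t * I) * cexp (Φ t * I) * g t)
          = ((t - t0) ^ m * g t * (ρ (Φ t) * deriv Φ t * (I * cexp (Φ t * I)))) *
            cexp (Φ t * I) := by ring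
        _ = ((t - t0) ^ m * f t * (ρ (Φ t) * deriv Φ t * (-(I * cexp (-(Φ t * I)))))) *
            cexp (Φ t * I) := by rw [h3]
        _ = -((t - t0) ^ m * f t * (ρ (Φ t) * deriv Φ t * I)) *
            (cexp (Φ t * I) * cexp (-(Φ t * I))) := by ring
        _ = (t - t0) ^ m * (ρ (Φ t) * deriv Φ t * I) * (-f t) := by rw [e2]; ring
    have aΨs : AnalyticAt ℂ Ψ (T s) := hEs.self_of_nhds.2.2.2.2.2.2.2.2
    obtain ⟨j, hj⟩ := SIC_const Φ Ψ (T s) hP.aΦ.continuousAt aΨs.continuousAt hmod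
    set ω : ℂ := cexp (Real.pi * j * I) with hω
    have hω2 : ω ^ 2 = 1 := SIC_exp_pi j
    have hω0 : ω ≠ 0 := exp_ne_zero _
    refine ⟨j, ω, hω0, ?_, ?_⟩
    · rw [hj.self_of_nhds, hEs.self_of_nhds.2.2.2.2.2.2.1, hsu.self_of_nhds.1]
      ring
    · have hT : Tendsto T (𝓝 s) (𝓝 (T s)) := aTs.continuousAt
      have hjd : ∀ᶠ t in 𝓝 (T s), deriv Φ t = deriv Ψ t := by
        filter_upwards [hj.eventually_nhds] with t ht
        have h1 : Φ =ᶠ[𝓝 t] fun t => Ψ t + Real.pi * j := ht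
        rw [h1.deriv_eq, deriv_add_const]
      have hchain : ∀ᶠ s' in 𝓝 s, deriv Ψ (T s') * deriv T s' = k * s' ^ (k - 1) := by
        filter_upwards [hT.eventually hEs.eventually_nhds, hsu.eventually_nhds,
          aTs.eventually_analyticAt] with s' h1 h3 h4
        have h5 : AnalyticAt ℂ Ψ (T s') := h1.self_of_nhds.2.2.2.2.2.2.2.2
        have h6 := HasDerivAt.comp s' h5.differentiableAt.hasDerivAt
          h4.differentiableAt.hasDerivAt
        have h7 : Tendsto T (𝓝 s') (𝓝 (T s')) := h4.continuousAt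
        have h8 : ∀ᶠ s'' in 𝓝 s', Φ0 + s'' ^ k = (Ψ ∘ T) s'' := by
          filter_upwards [h7.eventually h1, h3] with s'' h9 h10
          rw [Function.comp, h9.2.2.2.2.2.2.1, h10.1]
        have h9 := h6.congr_of_eventuallyEq h8
        have h10 : HasDerivAt (fun s'' : ℂ => Φ0 + s'' ^ k) (k * s' ^ (k - 1)) s' :=
          (hasDerivAt_pow k s').const_add Φ0
        exact h9.unique h10
      have hs0' : ∀ᶠ s' in 𝓝 s, s' ≠ 0 := continuousAt_id.eventually_ne hs0
      filter_upwards [hchain, hsu, hT.eventually hEs, hT.eventually hj, hT.eventually hjd,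
        hT.eventually hP.eZ, hs0'] with s' h1 h3 h4 h5 h6 h7 h8
      obtain ⟨t1, t2, t3, t4, t5, t6, t7, t8, -⟩ := h4
      obtain ⟨h3a, h3b⟩ := h3
      have e1 : Φ (T s') = Φ0 + Real.pi * j + s' ^ k := by
        rw [h5, t7, h3a]; ring
      have e2 : cexp (Φ (T s') * I) = cexp (I * Ψ (T s')) * ω := by
        rw [h5, hω, ← Complex.exp_add]; congr 1; ring
      have e3 : T s' - t0 = s' / h2 (T s') := by
        rw [eq_div_iff t5, ← t6, h3a]
      have e4 : s' ^ k = s' * s' ^ (k - 1) := by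
        rw [← pow_succ']; congr 1; omega
      rw [h6, e2, e1] at h7
      rw [mul_pow, h3b]
      simp only [hA]
      have hE0 : cexp (I * Ψ (T s')) ≠ 0 := exp_ne_zero _
      -- Z' T' = ρ k s^(k-1) I e^{iΨ} ω
      have h9 : (s' / h2 (T s')) ^ m * f (T s') * deriv T s' =
          ρ (Φ0 + Real.pi * j + s' ^ k) * (k * s' ^ (k - 1)) *
            (I * (cexp (I * Ψ (T s')) * ω)) := by
        rw [← e3, ← t1, h7, ← h1]; ring
      have h10 : ω ^ 3 = ω := by
        calc ω ^ 3 = ω ^ 2 * ω := by ring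
          _ = ω := by rw [hω2, one_mul]
      rw [h10]
      have h11 : s' ^ (m + 1) * (ω * (f (T s') * deriv T s' /
          (h2 (T s') ^ m * (I * cexp (I * Ψ (T s')))) / k)) =
          ((s' / h2 (T s')) ^ m * f (T s') * deriv T s') * (s' * ω /
            ((I * cexp (I * Ψ (T s'))) * k)) := by
        rw [div_pow]; field_simp; ring
      rw [h11, h9, e4]
      have h12 : ω * ω = 1 := by rw [← sq]; exact hω2
      have hI0 := I_ne_zero
      field_simp
      rw [hω2, mul_one]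
  · exact mul_ne_zero (mul_ne_zero hkc I_ne_zero) (exp_ne_zero _)
  · exact neg_ne_zero.2 (mul_ne_zero (mul_ne_zero hkc I_ne_zero) (exp_ne_zero _))
  · intro s hs
    rw [hR3] at hs
    obtain ⟨aTs, aus, nus, hsu, hEs, aZs, aWs⟩ := hball s hs
    obtain ⟨t1, t2, t3, t4, t5, t6, t7, t8, -⟩ := hEs.self_of_nhds
    obtain ⟨h3a, h3b⟩ := hsu.self_of_nhds
    have hE0 : cexp (I * Ψ (T s)) ≠ 0 := exp_ne_zero _
    have e1 : f (T s) * deriv T s = k * u s ^ 3 * (h2 (T s) ^ m * (I * cexp (I * Ψ (T s)))) := by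
      rw [h3b]
      simp only [hA]
      have hI0 := I_ne_zero
      have hh : h2 (T s) ^ m ≠ 0 := pow_ne_zero _ t5
      field_simp
    have e2 : (T s - t0) ^ m * h2 (T s) ^ m = s ^ m := by
      rw [← mul_pow, ← t6, h3a]
    have e3 : Ψ (T s) = Φ0 + s ^ k := by rw [t7, h3a]
    have e4 : cexp (I * Ψ (T s)) = cexp (I * Φ0) * cexp (s ^ k * I) := by
      rw [e3, ← Complex.exp_add]; congr 1; ring
    have e5 : g (T s) * (cexp (I * Ψ (T s)) * cexp (I * Ψ (T s))) = - f (T s) := by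
      have : cexp (2 * I * Ψ (T s)) = cexp (I * Ψ (T s)) * cexp (I * Ψ (T s)) := by
        rw [← Complex.exp_add]; congr 1; ring
      rw [← this, t8]
      field_simp
    have e6 : cexp (I * Ψ (T s)) * (cexp (-(I * Φ0)) * cexp (-(s ^ k * I))) = 1 := by
      rw [e3, ← Complex.exp_add, ← Complex.exp_add, ← Complex.exp_zero]; congr 1; ring
    constructor
    · have h6 := HasDerivAt.comp s aZs.differentiableAt.hasDerivAt aTs.differentiableAt.hasDerivAt
      have h7 : deriv Z (T s) * deriv T s =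
          k * I * cexp (I * Φ0) * s ^ m * u s ^ 3 * cexp (s ^ k * I) := by
        rw [t1]
        calc (T s - t0) ^ m * f (T s) * deriv T s = (T s - t0) ^ m * (f (T s) * deriv T s) := by
              ring
          _ = ((T s - t0) ^ m * h2 (T s) ^ m) * (k * u s ^ 3 * (I * cexp (I * Ψ (T s)))) := by
              rw [e1]; ring
          _ = _ := by rw [e2, e4]; ring
      rw [← h7]
      exact h6
    · have h6 := HasDerivAt.comp s aWs.differentiableAt.hasDerivAt aTs.differentiableAt.hasDerivAt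
      have h7 : deriv W (T s) * deriv T s =
          -(k * I * cexp (-(I * Φ0))) * s ^ m * u s ^ 3 * cexp (-(s ^ k * I)) := by
        rw [t2]
        have e7 : g (T s) = - f (T s) * (cexp (-(I * Φ0)) * cexp (-(s ^ k * I))) *
            (cexp (-(I * Φ0)) * cexp (-(s ^ k * I))) := by
          rw [← e5]
          calc g (T s) = g (T s) * (cexp (I * Ψ (T s)) * (cexp (-(I * Φ0)) *
                cexp (-(s ^ k * I)))) * (cexp (I * Ψ (T s)) * (cexp (-(I * Φ0)) *
                cexp (-(s ^ k * I)))) := by rw [e6]; ring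
            _ = _ := by ring
        rw [e7]
        calc (T s - t0) ^ m * (- f (T s) * (cexp (-(I * Φ0)) * cexp (-(s ^ k * I))) *
              (cexp (-(I * Φ0)) * cexp (-(s ^ k * I)))) * deriv T s
            = -((T s - t0) ^ m * (f (T s) * deriv T s) * (cexp (-(I * Φ0)) * cexp (-(s ^ k * I))) *
              (cexp (-(I * Φ0)) * cexp (-(s ^ k * I)))) := by ring
          _ = -(((T s - t0) ^ m * h2 (T s) ^ m) * (k * u s ^ 3 * I) *
              (cexp (I * Ψ (T s)) * (cexp (-(I * Φ0)) * cexp (-(s ^ k * I)))) *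
              (cexp (-(I * Φ0)) * cexp (-(s ^ k * I)))) := by rw [e1]; ring
          _ = _ := by rw [e2, e6]; ring
      rw [← h7]
      exact h6

end H719FX
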