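import Pool.Agent.H719R4.FX.Fin2
import Pool.Agent.H719R4.FX.Fin3a
import Pool.Agent.H719R4.FX.DCK
import Pool.Agent.H719R4.FX.NCB
import Pool.Agent.H719R4.FX.NML
import Pool.Agent.H719R4.FX.NDA
import Pool.Agent.H719R4.FX.NDB
import Pool.Agent.H719R4.FX.NLD
import Pool.Agent.H719R4.FX.NEX
import Pool.Agent.H719R4.FX.IML
import Pool.Agent.H719R4.FX.IDA
import Pool.Agent.H719R4.FX.IDB
import Pool.Agent.H719R4.FX.IRL
import Pool.Agent.H719R4.FX.IBT
import Pool.Agent.H719R4.FX.STU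
import Pool.Agent.H719R4.FX.ITN
import Pool.Agent.H719R4.FX.IEX
import Pool.Agent.H719R4.FX.SIR
import Pool.Agent.H719R4.FX.ISR
import Pool.Agent.H719R4.FX.GIN
import Pool.Agent.H719R4.FX.GRN
import Pool.Agent.H719R4.FX.GRI
import Pool.Agent.H719R4.FX.REG

/-! # Assembly, third part: all places are regular -/

open Complex Set Filter Topology

namespace H719FX

open H738CZ

theorem fin_nex : StNEX := by
  obtain ⟨hCHG, hMON, hSTB, hV3C, -, -, -, -, -, -⟩ := cz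
  exact tNEX (tINT hCHG hMON) (tEXT tWT) (tPRV hCHG hSTB hV3C) tLIM tNML tNDA tNDB tNCB tNLD tDCK

theorem fin_iex : StIEX := by
  obtain ⟨hCHG, hMON, hSTB, hV3C, -, -, -, -, -, -⟩ := cz
  exact tIEX (tIINT hCHG hMON) (tIEXT tIWT) (tIPRV hCHG hSTB hV3C) tILIM tIML tIDA tIDB tNCB tIRL
    tIBT (tITN tSTU) tDCK

theorem fin_lc : StLC := by
  obtain ⟨-, -, -, -, -, -, -, -, hTRL, hDSC⟩ := cz
  exact tLC (tSEG tPA tSGN hTRL hDSC)

theorem fin_flz : StFLZ :=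
  tFLZ fin_sta tSTZ fin_lc tNB fin_sin tINB (tISIN fin_iend) tREF (tGRN tSIR fin_nex tGIN)
    (tGRI tISR fin_iex tGIN) tREG

end H719FX
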