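import Pool.Agent.H719R4.FX.Out
import Pool.Agent.H719R4.FX.GRN

/-! # OBR: places with good points nearby are regular (outer billiards; helper404) -/

open Complex Set Filter Topology

namespace H719FX

open H738CZ

/-- the coordinate and the slope -/
theorem OBR_coord (X Y : ℂ → ℂ) (t0 : ℂ) (hX : AnalyticAt ℂ X t0) (hY : AnalyticAt ℂ Y t0)
    (hW : ¬ ∀ᶠ t in 𝓝 t0, Wr X Y t = 0)
    (hord : analyticOrderAt (deriv X) t0 ≤ analyticOrderAt (deriv Y) t0) :
    ∃ (m : ℕ) (r : ℝ) (T sl : ℂ → ℂ), 0 < r ∧ T 0 = t0 ∧ deriv T 0 ≠ 0 ∧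
      ∀ s ∈ Metric.ball (0 : ℂ) r, AnalyticAt ℂ T s ∧ deriv T s ≠ 0 ∧ AnalyticAt ℂ X (T s) ∧
        AnalyticAt ℂ Y (T s) ∧ X (T s) = X t0 + s ^ (m + 1) ∧ AnalyticAt ℂ sl s ∧
        deriv Y (T s) = sl s * deriv X (T s) ∧ (s ≠ 0 → T s ≠ t0) := by
  have hX' : AnalyticAt ℂ (deriv X) t0 := hX.deriv
  have hY' : AnalyticAt ℂ (deriv Y) t0 := hY.deriv
  have hfin : analyticOrderAt (deriv X) t0 ≠ ⊤ := by
    intro h
    apply hW
    have h2 : analyticOrderAt (deriv Y) t0 = ⊤ := by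
      rw [h] at hord
      exact top_le_iff.1 hord
    rw [analyticOrderAt_eq_top] at h h2
    filter_upwards [h, h2] with t h3 h4
    unfold Wr
    rw [h3, h4]
    ring
  obtain ⟨m, hm⟩ := ENat.ne_top_iff_exists.1 hfin
  obtain ⟨g, ag, ng, eg⟩ := (hX'.analyticOrderAt_eq_natCast).1 hm.symm
  obtain ⟨g2, ag2, eg2⟩ := (natCast_le_analyticOrderAt hY').1 (le_trans hm.le hord)
  have hordX : analyticOrderAt (fun t => X t - X t0) t0 = ((m + 1 : ℕ) : ℕ∞) := by
    have := hX.analyticOrderAt_deriv_add_one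
    rw [← this, ← hm]
    push_cast
    rfl
  have aX0 : AnalyticAt ℂ (fun t => X t - X t0) t0 := hX.sub analyticAt_const
  obtain ⟨G, aG, nG, eG⟩ := (aX0.analyticOrderAt_eq_natCast).1 hordX
  obtain ⟨h2, ah2, nh2, eh2⟩ := SIC_root G t0 aG nG (m + 1) (by omega)
  set S : ℂ → ℂ := fun t => (t - t0) * h2 t with hS
  have aS : AnalyticAt ℂ S t0 := (analyticAt_id.sub analyticAt_const).mul ah2
  have S0 : S t0 = 0 := by simp [hS]
  have dS : deriv S t0 ≠ 0 := by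
    have hd : HasDerivAt S (1 * h2 t0 + (t0 - t0) * deriv h2 t0) t0 := by
      refine HasDerivAt.mul ?_ ah2.differentiableAt.hasDerivAt
      exact (hasDerivAt_id t0).sub_const t0
    rw [hd.deriv]
    simpa using nh2
  obtain ⟨T, aT, T0, eT⟩ := SIC_inv S t0 aS S0 dS
  have cT : ContinuousAt T 0 := aT.continuousAt
  have cT' : Tendsto T (𝓝 0) (𝓝 t0) := by
    have := cT.tendsto
    rwa [T0] at this
  have dT : deriv T 0 ≠ 0 := by
    intro h0
    have h1 : HasDerivAt T 0 0 := by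
      have := aT.differentiableAt.hasDerivAt
      rwa [h0] at this
    have h3 : HasDerivAt S (deriv S t0) (T 0) := by
      rw [T0]; exact aS.differentiableAt.hasDerivAt
    have h2' := HasDerivAt.comp (0 : ℂ) h3 h1
    have h4 : HasDerivAt (fun s : ℂ => s) (deriv S t0 * 0) 0 :=
      h2'.congr_of_eventuallyEq (by filter_upwards [eT] with s hs; exact hs.symm)
    have h5 := h4.unique (hasDerivAt_id (0 : ℂ))
    simp at h5
  have asl : AnalyticAt ℂ (fun s => g2 (T s) / g (T s)) 0 := by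
    have a1 : AnalyticAt ℂ (fun s => g2 (T s)) 0 := by
      have : AnalyticAt ℂ g2 (T 0) := by rw [T0]; exact ag2
      exact this.comp aT
    have a2 : AnalyticAt ℂ (fun s => g (T s)) 0 := by
      have : AnalyticAt ℂ g (T 0) := by rw [T0]; exact ag
      exact this.comp aT
    refine a1.div a2 ?_
    rw [T0]
    exact ng
  have hE : ∀ᶠ t in 𝓝 t0, deriv X t = (t - t0) ^ m * g t ∧ deriv Y t = (t - t0) ^ m * g2 t ∧
      g t ≠ 0 ∧ X t - X t0 = S t ^ (m + 1) := by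
    filter_upwards [eg, eg2, ag.continuousAt.eventually_ne ng, eG, eh2] with t h3 h4 h5 h6 h7
    refine ⟨h3, h4, h5, ?_⟩
    rw [h6, hS, mul_pow, h7, smul_eq_mul]
  have hev : ∀ᶠ s in 𝓝 (0 : ℂ), AnalyticAt ℂ T s ∧ deriv T s ≠ 0 ∧ AnalyticAt ℂ X (T s) ∧
        AnalyticAt ℂ Y (T s) ∧ X (T s) = X t0 + s ^ (m + 1) ∧
        AnalyticAt ℂ (fun s => g2 (T s) / g (T s)) s ∧
        deriv Y (T s) = (g2 (T s) / g (T s)) * deriv X (T s) ∧ (s ≠ 0 → T s ≠ t0) := by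
    filter_upwards [aT.eventually_analyticAt, aT.deriv.continuousAt.eventually_ne dT,
      cT'.eventually hX.eventually_analyticAt, cT'.eventually hY.eventually_analyticAt,
      asl.eventually_analyticAt, cT'.eventually hE, eT] with s h1 h3 h4 h5 h6 h7 h8
    obtain ⟨h9, h10, h11, h12⟩ := h7
    refine ⟨h1, h3, h4, h5, ?_, h6, ?_, ?_⟩
    · rw [h8] at h12
      linear_combination h12
    · rw [h9, h10]
      field_simp
    · intro hs hts
      rw [hts, S0] at h8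
      exact hs h8.symm
  obtain ⟨r, hr, hball⟩ := Metric.eventually_nhds_iff_ball.1 hev
  exact ⟨m, r, T, fun s => g2 (T s) / g (T s), hr, T0, dT, hball⟩

/-- the derivative identities -/
theorem OBR_ids (X Y T sl : ℂ → ℂ) (c : ℂ) (m : ℕ) (r : ℝ)
    (hb : ∀ s ∈ Metric.ball (0 : ℂ) r, AnalyticAt ℂ T s ∧ AnalyticAt ℂ X (T s) ∧
        AnalyticAt ℂ Y (T s) ∧ X (T s) = c + s ^ (m + 1) ∧ AnalyticAt ℂ sl s ∧
        deriv Y (T s) = sl s * deriv X (T s)) :
    ∀ s ∈ Metric.ball (0 : ℂ) r, deriv X (T s) * deriv T s = (m + 1) * s ^ m ∧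
      Wr X Y (T s) * deriv T s ^ 3 = deriv sl s * ((m + 1) * s ^ m) ^ 2 := by
  intro s hs
  obtain ⟨aT, aX, aY, e1, asl, e2⟩ := hb s hs
  have hnb : ∀ᶠ x in 𝓝 s, x ∈ Metric.ball (0 : ℂ) r := Metric.isOpen_ball.mem_nhds hs
  have dT := aT.differentiableAt.hasDerivAt
  have i1 : deriv X (T s) * deriv T s = (m + 1) * s ^ m := by
    have d1 : HasDerivAt (fun x => X (T x)) (deriv X (T s) * deriv T s) s :=
      HasDerivAt.comp s aX.differentiableAt.hasDerivAt dT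
    have d2 : HasDerivAt (fun x : ℂ => c + x ^ (m + 1)) (((m + 1 : ℕ) : ℂ) * s ^ (m + 1 - 1)) s :=
      (hasDerivAt_pow (m + 1) s).const_add c
    have d3 : HasDerivAt (fun x : ℂ => c + x ^ (m + 1)) (deriv X (T s) * deriv T s) s :=
      d1.congr_of_eventuallyEq (by
        filter_upwards [hnb] with x hx
        exact ((hb x hx).2.2.2.1).symm)
    have := d3.unique d2
    rw [this]
    push_cast
    simp
  refine ⟨i1, ?_⟩
  have d4 : HasDerivAt (fun x => deriv Y (T x)) (deriv (deriv Y) (T s) * deriv T s) s :=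
    HasDerivAt.comp s aY.deriv.differentiableAt.hasDerivAt dT
  have d5 : HasDerivAt (fun x => deriv X (T x)) (deriv (deriv X) (T s) * deriv T s) s :=
    HasDerivAt.comp s aX.deriv.differentiableAt.hasDerivAt dT
  have d6 : HasDerivAt (fun x => sl x * deriv X (T x))
      (deriv sl s * deriv X (T s) + sl s * (deriv (deriv X) (T s) * deriv T s)) s :=
    asl.differentiableAt.hasDerivAt.mul d5
  have d7 : HasDerivAt (fun x => deriv Y (T x))
      (deriv sl s * deriv X (T s) + sl s * (deriv (deriv X) (T s) * deriv T s)) s :=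
    d6.congr_of_eventuallyEq (by
      filter_upwards [hnb] with x hx
      exact (hb x hx).2.2.2.2.2)
  have i2 := d4.unique d7
  unfold Wr
  rw [← i1, e2]
  linear_combination (deriv X (T s) * deriv T s ^ 2) * i2

/-- derivative of the function of `s ^ k` -/
theorem OBR_der (m : ℕ) (f F V U : ℂ → ℂ) (r : ℝ) (hr : 0 < r)
    (hf : ∀ s ∈ Metric.ball (0 : ℂ) r, HasDerivAt f ((m + 1) * s ^ m * V s) s)
    (hF : AnalyticAt ℂ F 0) (hU : AnalyticAt ℂ U 0)
    (e1 : ∀ᶠ s in 𝓝 (0 : ℂ), f s = F (s ^ (m + 1)))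
    (e2 : ∀ᶠ s in 𝓝 (0 : ℂ), V s = U (s ^ (m + 1))) :
    ∀ᶠ x in 𝓝 (0 : ℂ), deriv F x = U x := by
  have hk0 : ((m : ℂ) + 1) ≠ 0 := by exact_mod_cast Nat.succ_ne_zero m
  have hpow : Tendsto (fun s : ℂ => s ^ (m + 1)) (𝓝 0) (𝓝 0) := by
    have : ContinuousAt (fun s : ℂ => s ^ (m + 1)) 0 := by fun_prop
    have h2 := this.tendsto
    simp only [zero_pow (by omega : m + 1 ≠ 0)] at h2
    exact h2
  have hFa : ∀ᶠ s in 𝓝 (0 : ℂ), AnalyticAt ℂ F (s ^ (m + 1)) :=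
    hpow.eventually hF.eventually_analyticAt
  have hball : ∀ᶠ s in 𝓝 (0 : ℂ), s ∈ Metric.ball (0 : ℂ) r := Metric.ball_mem_nhds _ hr
  have key : ∀ᶠ x in 𝓝 (0 : ℂ), x ≠ 0 → deriv F x = U x := by
    refine GRN_root (m + 1) (by omega) _ ?_
    filter_upwards [hFa, hball, e1.eventually_nhds, e2] with s h1 h2 h3 h4 hs
    have hs0 : s ≠ 0 := by
      rintro rfl
      exact hs (zero_pow (by omega))
    have d1 : HasDerivAt (fun x => F (x ^ (m + 1)))
        (deriv F (s ^ (m + 1)) * (((m + 1 : ℕ) : ℂ) * s ^ (m + 1 - 1))) s :=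
      HasDerivAt.comp s h1.differentiableAt.hasDerivAt (hasDerivAt_pow (m + 1) s)
    have d2 : HasDerivAt (fun x => F (x ^ (m + 1))) ((m + 1) * s ^ m * V s) s :=
      (hf s h2).congr_of_eventuallyEq (by filter_upwards [h3] with x hx; exact hx.symm)
    have h5 := d1.unique d2
    rw [h4] at h5
    rw [Nat.add_sub_cancel] at h5
    push_cast at h5
    have h7 : ((m : ℂ) + 1) * s ^ m ≠ 0 := mul_ne_zero hk0 (pow_ne_zero _ hs0)
    apply mul_right_cancel₀ h7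
    rw [h5]
    ring
  refine (hF.deriv.frequently_eq_iff_eventually_eq hU).1 (Eventually.frequently ?_)
  have h8 : ∀ᶠ x in 𝓝[≠] (0 : ℂ), x ≠ 0 := eventually_mem_nhdsWithin
  filter_upwards [h8, key.filter_mono nhdsWithin_le_nhds] with x hx1 hx2
  exact hx2 hx1

theorem tOBR (hEND : StEND) (hNEX : StNEX) (hGIN : StGIN) : StOBR := by
  intro X Y t0 hX hY hW hord hgood
  obtain ⟨m, r, T, sl, hr, T0, dT, hb⟩ := OBR_coord X Y t0 hX hY hW hord
  have hk0 : ((m : ℂ) + 1) ≠ 0 := by exact_mod_cast Nat.succ_ne_zero m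
  have ids := OBR_ids X Y T sl (X t0) m r
    (fun s hs => ⟨(hb s hs).1, (hb s hs).2.2.1, (hb s hs).2.2.2.1, (hb s hs).2.2.2.2.1,
      (hb s hs).2.2.2.2.2.1, (hb s hs).2.2.2.2.2.2.1⟩)
  have hb0 : (0 : ℂ) ∈ Metric.ball (0 : ℂ) r := Metric.mem_ball_self hr
  have aT : AnalyticAt ℂ T 0 := (hb 0 hb0).1
  have asl : AnalyticAt ℂ sl 0 := (hb 0 hb0).2.2.2.2.2.1
  have hball : ∀ᶠ s in 𝓝 (0 : ℂ), s ∈ Metric.ball (0 : ℂ) r := Metric.ball_mem_nhds _ hr
  have hev1 : ∀ᶠ s in 𝓝[≠] (0 : ℂ), s ∈ Metric.ball (0 : ℂ) r := mem_nhdsWithin_of_mem_nhds hball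
  have hev2 : ∀ᶠ s in 𝓝[≠] (0 : ℂ), s ≠ 0 := eventually_mem_nhdsWithin
  have htend : Tendsto T (𝓝[≠] (0 : ℂ)) (𝓝[≠] t0) := by
    refine tendsto_nhdsWithin_iff.2 ⟨?_, ?_⟩
    · have h1 : Tendsto T (𝓝 0) (𝓝 (T 0)) := aT.continuousAt
      rw [T0] at h1
      exact h1.mono_left nhdsWithin_le_nhds
    · filter_upwards [hev1, hev2] with s hs1 hs2
      exact (hb s hs1).2.2.2.2.2.2.2 hs2
  -- the derivative of the slope is not identically zero
  have aWr : AnalyticAt ℂ (Wr X Y) t0 :=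
    (hX.deriv.mul hY.deriv.deriv).sub (hX.deriv.deriv.mul hY.deriv)
  have hfin : analyticOrderAt (deriv sl) 0 ≠ ⊤ := by
    intro h
    rw [analyticOrderAt_eq_top] at h
    apply hW
    refine aWr.frequently_zero_iff_eventually_zero.1 ?_
    refine htend.frequently (Eventually.frequently ?_)
    filter_upwards [hev1, h.filter_mono nhdsWithin_le_nhds] with s hs1 hs2
    have := (ids s hs1).2
    rw [hs2, zero_mul] at this
    rcases mul_eq_zero.1 this with h3 | h3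
    · exact h3
    · exact absurd (pow_eq_zero_iff (by norm_num) |>.1 h3) (hb s hs1).2.1
  obtain ⟨b, hbo⟩ := ENat.ne_top_iff_exists.1 hfin
  obtain ⟨w, aw, nw, ew⟩ := (asl.deriv.analyticOrderAt_eq_natCast).1 hbo.symm
  obtain ⟨u, au, nu, eu⟩ := SIC_root (fun s => w s / (m + 1)) 0 (aw.div_const)
    (div_ne_zero nw hk0) 3 (by norm_num)
  have hev : ∀ᶠ s in 𝓝 (0 : ℂ), s ∈ Metric.ball (0 : ℂ) r ∧ AnalyticAt ℂ u s ∧ u s ≠ 0 ∧
      deriv sl s = (m + 1) * s ^ b * u s ^ 3 := by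
    filter_upwards [hball, au.eventually_analyticAt, au.continuousAt.eventually_ne nu, ew, eu] with
      s h1 h2 h3 h4 h5
    refine ⟨h1, h2, h3, ?_⟩
    rw [h4, h5, sub_zero, smul_eq_mul]
    field_simp
  obtain ⟨δ, hδ, hbδ⟩ := Metric.eventually_nhds_iff_ball.1 hev
  set R : ℝ := δ ^ ((1 : ℝ) / 3) with hR
  have hR3 : R ^ 3 = δ := by
    rw [hR, ← Real.rpow_natCast, ← Real.rpow_mul hδ.le]
    norm_num
  have hRpos : 0 < R := Real.rpow_pos_of_pos hδ _
  have hUN : UN u R := by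
    refine ⟨hRpos, ?_, ?_⟩
    · intro z hz
      rw [hR3] at hz
      exact (hbδ z hz).2.1.differentiableAt.differentiableWithinAt
    · intro z hz
      rw [hR3] at hz
      exact (hbδ z hz).2.2.1
  -- a good point
  have hevδ : ∀ᶠ s in 𝓝[≠] (0 : ℂ), s ∈ Metric.ball (0 : ℂ) δ :=
    mem_nhdsWithin_of_mem_nhds (Metric.ball_mem_nhds _ hδ)
  obtain ⟨s, ⟨hs1, hs2⟩, hs3⟩ := ((hevδ.and hev2).and (htend.eventually hgood)).exists
  obtain ⟨-, -, ρ, aρ, eρ, hG⟩ := hs3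
  have hsr : s ∈ Metric.ball (0 : ℂ) r := (hbδ s hs1).1
  have hXs : X (T s) = X t0 + s ^ (m + 1) := (hb s hsr).2.2.2.2.1
  have hTRL := tTRL tCHG tMON
  have hG' := hTRL OUT_kc ρ (fun t => ρ (t + X t0)) (X (T s)) (X t0) hG
    (Filter.Eventually.of_forall fun t => rfl)
  have hsub : X (T s) - X t0 = s ^ (m + 1) := by rw [hXs]; ring
  rw [hsub] at hG'
  have hlaw : ∀ᶠ t in 𝓝 s, (fun t => ρ (t + X t0)) (t ^ (m + 1)) * t ^ (m + 1)
      = t ^ (b + 1) * u t ^ 3 := by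
    have cTs : Tendsto T (𝓝 s) (𝓝 (T s)) := (hb s hsr).1.continuousAt
    have h1 : ∀ᶠ t in 𝓝 s, t ∈ Metric.ball (0 : ℂ) δ := Metric.isOpen_ball.mem_nhds hs1
    have h2 : ∀ᶠ t in 𝓝 s, t ≠ 0 := isOpen_ne.mem_nhds hs2
    filter_upwards [h1, h2, cTs.eventually eρ] with t ht1 ht2 ht3
    obtain ⟨htr, -, -, h3⟩ := hbδ t ht1
    obtain ⟨i1, i2⟩ := ids t htr
    have hXt : X (T t) = X t0 + t ^ (m + 1) := (hb t htr).2.2.2.2.1
    rw [hXt] at ht3
    have h4 : ρ (X t0 + t ^ (m + 1)) * ((m + 1) * t ^ m) ^ 3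
        = (m + 1) * t ^ b * u t ^ 3 * ((m + 1) * t ^ m) ^ 2 := by
      rw [← h3, ← i2, ← ht3, ← i1]
      ring
    have h5 : ((m + 1) * t ^ m : ℂ) ≠ 0 := mul_ne_zero hk0 (pow_ne_zero _ ht2)
    have h6 : ρ (X t0 + t ^ (m + 1)) * t ^ m = t ^ b * u t ^ 3 := by
      have h7 : ((m : ℂ) + 1) * ((m + 1) * t ^ m) ^ 2 ≠ 0 := mul_ne_zero hk0 (pow_ne_zero _ h5)
      apply mul_right_cancel₀ h7
      linear_combination h4
    show ρ (t ^ (m + 1) + X t0) * t ^ (m + 1) = t ^ (b + 1) * u t ^ 3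
    rw [add_comm (t ^ (m + 1)) (X t0)]
    linear_combination t * h6
  have hs1' : s ∈ Metric.ball (0 : ℂ) (R ^ 3) := by rw [hR3]; exact hs1
  have hbm : b = m := by
    by_contra hne
    exact hEND OUT_kc OUT_ker (b + 1) (m + 1) u R (fun t => ρ (t + X t0)) s (by omega) (by omega)
      (by omega) hUN hs1' hs2 hlaw hG'
  subst hbm
  have huinv : ∀ w : ℂ, w ^ (b + 1) = 1 → ∀ z ∈ Metric.ball (0 : ℂ) (R ^ 3), u (w * z) = u z :=
    hNEX OUT_kc OUT_ker (b + 1) u R (fun t => ρ (t + X t0)) s (by omega) hUN hs1' hs2 hlaw hG'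
  rw [hR3] at huinv
  have hnorm : ∀ w : ℂ, w ^ (b + 1) = 1 → ‖w‖ = 1 := by
    intro w hw
    have h1 : ‖w‖ ^ (b + 1) = 1 := by rw [← norm_pow, hw, norm_one]
    exact (pow_eq_one_iff_of_nonneg (norm_nonneg _) (by omega)).1 h1
  have hwm : ∀ w : ℂ, w ^ (b + 1) = 1 → w * w ^ b = 1 := by
    intro w hw
    rw [← pow_succ', hw]
  have dsl : ∀ s ∈ Metric.ball (0 : ℂ) δ, HasDerivAt sl ((b + 1) * s ^ b * u s ^ 3) s := by
    intro s hs
    rw [← (hbδ s hs).2.2.2]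
    exact (hb s (hbδ s hs).1).2.2.2.2.2.1.differentiableAt.hasDerivAt
  have dYT : ∀ s ∈ Metric.ball (0 : ℂ) δ, HasDerivAt (fun x => Y (T x)) ((b + 1) * s ^ b * sl s) s := by
    intro s hs
    have hsr := (hbδ s hs).1
    have d1 : HasDerivAt (fun x => Y (T x)) (deriv Y (T s) * deriv T s) s :=
      HasDerivAt.comp s (hb s hsr).2.2.2.1.differentiableAt.hasDerivAt
        (hb s hsr).1.differentiableAt.hasDerivAt
    have h1 : deriv Y (T s) * deriv T s = (b + 1) * s ^ b * sl s := by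
      rw [(hb s hsr).2.2.2.2.2.2.1]
      linear_combination sl s * (ids s hsr).1
    rw [h1] at d1
    exact d1
  have invsl : ∀ w : ℂ, w ^ (b + 1) = 1 → ∀ z ∈ Metric.ball (0 : ℂ) δ, sl (w * z) = sl z := by
    intro w hw
    refine GRN_inv δ sl _ dsl w (hnorm w hw) ?_
    intro x hx
    rw [huinv w hw x hx, mul_pow]
    linear_combination ((b + 1) * x ^ b * u x ^ 3) * hwm w hw
  have invY : ∀ w : ℂ, w ^ (b + 1) = 1 → ∀ z ∈ Metric.ball (0 : ℂ) δ, Y (T (w * z)) = Y (T z) := by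
    intro w hw
    refine GRN_inv δ (fun x => Y (T x)) _ dYT w (hnorm w hw) ?_
    intro x hx
    rw [invsl w hw x hx, mul_pow]
    linear_combination ((b + 1) * x ^ b * sl x) * hwm w hw
  obtain ⟨FY, aFY, eFY⟩ := hGIN (b + 1) δ (fun x => Y (T x)) (by omega) hδ
    (fun s hs => (dYT s hs).differentiableAt.differentiableWithinAt) invY
  obtain ⟨FS, aFS, eFS⟩ := hGIN (b + 1) δ sl (by omega) hδ
    (fun s hs => (dsl s hs).differentiableAt.differentiableWithinAt) invsl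
  obtain ⟨U, aU, eU⟩ := hGIN (b + 1) δ (fun x => u x ^ 3) (by omega) hδ
    (fun s hs => ((hbδ s hs).2.1.differentiableAt.pow 3).differentiableWithinAt)
    (by
      intro w hw z hz
      rw [huinv w hw z hz])
  have D1 := OBR_der b (fun x => Y (T x)) FY sl FS δ hδ dYT aFY aFS eFY eFS
  have D2 := OBR_der b sl FS (fun x => u x ^ 3) U δ hδ dsl aFS aU eFS eU
  have hU0 : U 0 ≠ 0 := by
    have h1 := eU.self_of_nhds
    rw [zero_pow (by omega)] at h1
    rw [← h1]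
    exact pow_ne_zero _ nu
  have eX : ∀ᶠ s in 𝓝 (0 : ℂ), X (T s) = (fun x => X t0 + x) (s ^ (b + 1)) := by
    filter_upwards [hball] with s hs
    exact (hb s hs).2.2.2.2.1
  obtain ⟨h, ah, h0, eZ, eW⟩ := GRN_loc X Y T (fun x => X t0 + x) FY t0 (b + 1) (by omega) aT T0 dT
    eX eFY
  refine ⟨h, fun x => X t0 + x, FY, ah, h0, analyticAt_const.add analyticAt_id, aFY, eZ, eW, ?_⟩
  have f1 : deriv (fun x => X t0 + x) = fun _ => 1 := by
    funext x
    simp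
  have f2 : deriv (deriv FY) 0 = U 0 := by
    rw [EventuallyEq.deriv_eq D1, D2.self_of_nhds]
  unfold Wr
  rw [f1, f2]
  simpa using hU0

end H719FX
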