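import Pool.Agent.H719R4.FX.Out

/-!
OCH: propagation of good points along a chain of discs (outer billiards).
-/

open Complex Set Filter Topology

namespace H719FX

open H738CZ

theorem OCH_wr {X Y X' Y' : ℂ → ℂ} {t : ℂ} (hX : X' =ᶠ[𝓝 t] X) (hY : Y' =ᶠ[𝓝 t] Y) :
    Wr X' Y' =ᶠ[𝓝 t] Wr X Y := by
  filter_upwards [hX.deriv, hY.deriv, hX.deriv.deriv, hY.deriv.deriv] with s h1 h2 h3 h4
  unfold Wr
  rw [h1, h2, h3, h4]

theorem OCH_good {X Y X' Y' : ℂ → ℂ} {t : ℂ} (h : GoodO X Y t) (hX : X' =ᶠ[𝓝 t] X)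
    (hY : Y' =ᶠ[𝓝 t] Y) : GoodO X' Y' t := by
  obtain ⟨h1, h2, ρ, h3, h4, h5⟩ := h
  have e1 : X' t = X t := hX.eq_of_nhds
  have e2 : deriv X' t = deriv X t := hX.deriv.eq_of_nhds
  have e3 : Wr X' Y' t = Wr X Y t := (OCH_wr hX hY).eq_of_nhds
  refine ⟨by rw [e2]; exact h1, by rw [e3]; exact h2, ρ, by rw [e1]; exact h3, ?_,
    by rw [e1]; exact h5⟩
  filter_upwards [hX, hX.deriv, OCH_wr hX hY, h4] with s k1 k2 k3 k4
  rw [k1, k2, k3, k4]

theorem OCH_diff {X Y : ℂ → ℂ} {U : Set ℂ} (hU : IsOpen U) (hX : DifferentiableOn ℂ X U)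
    (hY : DifferentiableOn ℂ Y U) :
    DifferentiableOn ℂ (fun t => deriv X t * Wr X Y t) U := by
  have hX1 := hX.deriv hU
  have hY1 := hY.deriv hU
  have hX2 := hX1.deriv hU
  have hY2 := hY1.deriv hU
  unfold Wr
  exact hX1.mul ((hX1.mul hY2).sub (hX2.mul hY1))

theorem tOCH (hOLC : StOLC) : StOCH := by
  intro n a r X Y hC h0
  have key : ∀ i, i ≤ n → ∃ z ∈ Metric.ball (a i) (r i), GoodO (X i) (Y i) z := by
    intro i
    induction i with
    | zero => intro _; exact h0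
    | succ i ih =>
      intro hi
      obtain ⟨z, hz, hg⟩ := ih (by omega)
      have hXi := hC.dZ i (by omega)
      have hYi := hC.dW i (by omega)
      have g1 := hg.1
      have g2 := hg.2.1
      set f : ℂ → ℂ := fun t => deriv (X i) t * Wr (X i) (Y i) t with hf
      have hfd : DifferentiableOn ℂ f (Metric.ball (a i) (r i)) :=
        OCH_diff Metric.isOpen_ball hXi hYi
      have hfa : AnalyticOnNhd ℂ f (Metric.ball (a i) (r i)) :=
        hfd.analyticOnNhd Metric.isOpen_ball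
      have hfz : f z ≠ 0 := mul_ne_zero g1 g2
      obtain ⟨p, hp⟩ := hC.ne i (by omega)
      have hO : IsOpen (Metric.ball (a i) (r i) ∩ Metric.ball (a (i + 1)) (r (i + 1))) :=
        Metric.isOpen_ball.inter Metric.isOpen_ball
      have hnz : ∃ᶠ q in 𝓝[≠] p, f q ≠ 0 := by
        intro hcon
        have h1 : ∀ᶠ q in 𝓝[≠] p, f q = 0 := by
          filter_upwards [hcon] with q hq
          simpa using hq
        have h2 : EqOn f 0 (Metric.ball (a i) (r i)) :=
          hfa.eqOn_zero_of_preconnected_of_frequently_eq_zero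
            (convex_ball _ _).isPreconnected hp.1 h1.frequently
        exact hfz (h2 hz)
      have hev : ∀ᶠ q in 𝓝[≠] p,
          q ∈ Metric.ball (a i) (r i) ∩ Metric.ball (a (i + 1)) (r (i + 1)) :=
        nhdsWithin_le_nhds (hO.mem_nhds hp)
      obtain ⟨q, hq1, hq2⟩ := (hnz.and_eventually hev).exists
      have hq3 : deriv (X i) q ≠ 0 ∧ Wr (X i) (Y i) q ≠ 0 := by
        simp only [hf, ne_eq, mul_eq_zero, not_or] at hq1
        exact ⟨hq1.1, hq1.2⟩
      have hG := hOLC (X i) (Y i) (a i) (r i) z q hXi hYi hz hq2.1 hg hq3.1 hq3.2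
      refine ⟨q, hq2.2, OCH_good hG ?_ ?_⟩
      · filter_upwards [hO.mem_nhds hq2] with s hs
        exact (hC.eZ i (by omega) hs).symm
      · filter_upwards [hO.mem_nhds hq2] with s hs
        exact (hC.eW i (by omega) hs).symm
  exact key n le_rfl

end H719FX
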