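import Pool.Agent.H719R4.FX.Out
import Pool.Agent.H719R4.FX.Geo

/-! # Outer billiards: all places of the complexified oval are regular (conditional assembly) -/

open Complex Set Filter Topology

namespace H719FX

open H738CZ

theorem OFO_der {Z W : ℂ → ℂ} {S : Set ℂ} (hS : IsOpen S) (hZ : DifferentiableOn ℂ Z S)
    (hW : DifferentiableOn ℂ W S) (t : ℂ) (ht : t ∈ S) :
    deriv (fun t => (Z t + W t) / 2) t = (deriv Z t + deriv W t) / 2 ∧
    deriv (fun t => (Z t - W t) / (2 * I)) t = (deriv Z t - deriv W t) / (2 * I) := by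
  have h1 : HasDerivAt Z (deriv Z t) t := (hZ.differentiableAt (hS.mem_nhds ht)).hasDerivAt
  have h2 : HasDerivAt W (deriv W t) t := (hW.differentiableAt (hS.mem_nhds ht)).hasDerivAt
  exact ⟨((h1.add h2).div_const 2).deriv, ((h1.sub h2).div_const (2 * I)).deriv⟩

theorem OFO_wr {Z W : ℂ → ℂ} {S : Set ℂ} (hS : IsOpen S) (hZ : DifferentiableOn ℂ Z S)
    (hW : DifferentiableOn ℂ W S) (t : ℂ) (ht : t ∈ S) :
    Wr (fun t => (Z t + W t) / 2) (fun t => (Z t - W t) / (2 * I)) t = -Wr Z W t / (2 * I) := by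
  have hI : (I : ℂ) ≠ 0 := I_ne_zero
  have hZ' := hZ.deriv hS
  have hW' := hW.deriv hS
  have e1 : deriv (fun t => (Z t + W t) / 2) =ᶠ[𝓝 t] fun t => (deriv Z t + deriv W t) / 2 := by
    filter_upwards [hS.mem_nhds ht] with s hs
    exact (OFO_der hS hZ hW s hs).1
  have e2 : deriv (fun t => (Z t - W t) / (2 * I)) =ᶠ[𝓝 t]
      fun t => (deriv Z t - deriv W t) / (2 * I) := by
    filter_upwards [hS.mem_nhds ht] with s hs
    exact (OFO_der hS hZ hW s hs).2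
  have d1 := (OFO_der hS hZ' hW' t ht).1
  have d2 := (OFO_der hS hZ' hW' t ht).2
  have d3 := (OFO_der hS hZ hW t ht).1
  have d4 := (OFO_der hS hZ hW t ht).2
  unfold Wr
  rw [e1.deriv_eq, e2.deriv_eq, d1, d2, d3, d4]
  field_simp
  ring

theorem OFO_swap (X Y : ℂ → ℂ) (t : ℂ) : Wr Y X t = -Wr X Y t := by
  unfold Wr; ring

theorem OFO_near {X Y : ℂ → ℂ} {c : ℂ} {r : ℝ} (hX : DifferentiableOn ℂ X (Metric.ball c r))
    (hY : DifferentiableOn ℂ Y (Metric.ball c r)) {z : ℂ} (hz : z ∈ Metric.ball c r)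
    (h1 : deriv X z ≠ 0) (h2 : Wr X Y z ≠ 0) {t0 : ℂ} (ht0 : t0 ∈ Metric.ball c r) :
    ∀ᶠ t in 𝓝[≠] t0, deriv X t ≠ 0 ∧ Wr X Y t ≠ 0 := by
  have hU : IsOpen (Metric.ball c r) := Metric.isOpen_ball
  have hX1 := hX.deriv hU
  have hY1 := hY.deriv hU
  have hX2 := hX1.deriv hU
  have hY2 := hY1.deriv hU
  have hfd : DifferentiableOn ℂ (fun t => deriv X t * Wr X Y t) (Metric.ball c r) := by
    unfold Wr
    exact hX1.mul ((hX1.mul hY2).sub (hX2.mul hY1))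
  have hfa := hfd.analyticOnNhd hU
  rcases (hfa t0 ht0).eventually_eq_zero_or_eventually_ne_zero with h | h
  · exfalso
    have h3 : EqOn (fun t => deriv X t * Wr X Y t) 0 (Metric.ball c r) :=
      hfa.eqOn_zero_of_preconnected_of_eventuallyEq_zero (convex_ball _ _).isPreconnected ht0 h
    exact mul_ne_zero h1 h2 (h3 hz)
  · filter_upwards [h] with t ht
    exact ⟨left_ne_zero_of_mul ht, right_ne_zero_of_mul ht⟩

theorem OFO_real (y ε : ℝ) (hε : 0 < ε) : ∃ v : ℝ, |v - y| < ε ∧ Real.sin v ≠ 0 ∧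
    Real.cos v ≠ 0 := by
  have key : ∃ v : ℝ, |v - y| < ε ∧ Real.sin (2 * v) ≠ 0 := by
    by_cases h : Real.sin (2 * y) = 0
    · set δ : ℝ := min (ε / 2) 1 with hδ
      have hδ0 : 0 < δ := lt_min (by linarith) one_pos
      have hδ1 : δ ≤ 1 := min_le_right _ _
      have hδ2 : δ ≤ ε / 2 := min_le_left _ _
      refine ⟨y + δ, ?_, ?_⟩
      · rw [add_sub_cancel_left, abs_of_pos hδ0]
        linarith
      · have hs : 0 < Real.sin (2 * δ) := by
          apply Real.sin_pos_of_pos_of_lt_pi (by linarith)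
          linarith [Real.pi_gt_three]
        have hc : Real.cos (2 * y) ≠ 0 := by
          intro hc
          have := Real.sin_sq_add_cos_sq (2 * y)
          rw [h, hc] at this
          norm_num at this
        rw [mul_add, Real.sin_add, h, zero_mul, zero_add]
        exact mul_ne_zero hc hs.ne'
    · exact ⟨y, by simpa using hε, h⟩
  obtain ⟨v, hv, h⟩ := key
  rw [Real.sin_two_mul] at h
  exact ⟨v, hv, fun h1 => h (by rw [h1]; ring), fun h1 => h (by rw [h1]; ring)⟩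

theorem OFO_reg_swap {X Y : ℂ → ℂ} {t0 : ℂ} (h : Reg X Y t0) : Reg Y X t0 := by
  obtain ⟨g, X', Y', h1, h2, h3, h4, h5, h6, h7⟩ := h
  refine ⟨g, Y', X', h1, h2, h4, h3, h6, h5, ?_⟩
  rw [OFO_swap]
  exact neg_ne_zero.2 h7

theorem tOFO (hSTZ : StSTZ) (hOST : StOST) (hOTP : StOTP) (hOLC : StOLC) (hOCH : StOCH)
    (hOBR : StOBR) (hRLI : StRLI) : StOFO := by
  intro γ ρ ho K U hOI n a r Z W hC θ x0 x1 hθ hZW hne t0 ht0
  have hI : (I : ℂ) ≠ 0 := I_ne_zero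
  obtain ⟨x, Φ, R, y, η, hx, hP, hΦ, hη, hR, hRρ⟩ := hSTZ γ ρ ho (Z 0) (W 0) (a 0) (r 0) θ x0 x1
    (hC.dZ 0 (Nat.zero_le _)) (hC.dW 0 (Nat.zero_le _)) hθ hZW hne
  -- primitives
  have hRs : DifferentiableOn ℂ (fun z => -(R z * Complex.sin z)) (Metric.ball (y : ℂ) η) :=
    (hR.mul Complex.differentiable_sin.differentiableOn).neg
  have hRc : DifferentiableOn ℂ (fun z => R z * Complex.cos z) (Metric.ball (y : ℂ) η) :=
    hR.mul Complex.differentiable_cos.differentiableOn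
  obtain ⟨X1, hX1⟩ := hRs.isExactOn_ball
  obtain ⟨Y1, hY1⟩ := hRc.isExactOn_ball
  have hgood1 := hOST γ ρ ho K U hOI R X1 Y1 y η hη hR hRρ (fun z hz => ⟨hX1 z hz, hY1 z hz⟩)
  -- the chain in the coordinates `x`, `y`
  set X : ℕ → ℂ → ℂ := fun i t => (Z i t + W i t) / 2 with hX
  set Y : ℕ → ℂ → ℂ := fun i t => (Z i t - W i t) / (2 * I) with hY
  have hdX : ∀ i, i ≤ n → DifferentiableOn ℂ (X i) (Metric.ball (a i) (r i)) := fun i hi =>
    ((hC.dZ i hi).add (hC.dW i hi)).div_const 2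
  have hdY : ∀ i, i ≤ n → DifferentiableOn ℂ (Y i) (Metric.ball (a i) (r i)) := fun i hi =>
    ((hC.dZ i hi).sub (hC.dW i hi)).div_const (2 * I)
  have heX : ∀ i, i < n → EqOn (X i) (X (i + 1))
      (Metric.ball (a i) (r i) ∩ Metric.ball (a (i + 1)) (r (i + 1))) := by
    intro i hi s hs
    simp only [hX]
    rw [hC.eZ i hi hs, hC.eW i hi hs]
  have heY : ∀ i, i < n → EqOn (Y i) (Y (i + 1))
      (Metric.ball (a i) (r i) ∩ Metric.ball (a (i + 1)) (r (i + 1))) := by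
    intro i hi s hs
    simp only [hY]
    rw [hC.eZ i hi hs, hC.eW i hi hs]
  have hC1 : Chain2 n a r X Y := ⟨hdX, hdY, hC.ne, heX, heY⟩
  have hC2 : Chain2 n a r Y X := ⟨hdY, hdX, hC.ne, heY, heX⟩
  -- a real value of the normal angle
  have hb0 : Metric.ball (a 0) (r 0) ∈ 𝓝 (x : ℂ) := Metric.isOpen_ball.mem_nhds (hZW x hx).1
  have hΦc : ContinuousAt Φ x := hP.aΦ.continuousAt
  have hby : Metric.ball (y : ℂ) η ∈ 𝓝 (Φ x) := by
    rw [hΦ]
    exact Metric.isOpen_ball.mem_nhds (Metric.mem_ball_self hη)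
  have hrel : ∀ᶠ s in 𝓝 (x : ℂ), deriv (X 0) s = deriv X1 (Φ s) * deriv Φ s ∧
      deriv (Y 0) s = deriv Y1 (Φ s) * deriv Φ s := by
    filter_upwards [hP.eZ, hP.eW, hb0, hΦc.eventually hby] with s h1 h2 h3 h4
    have hd := OFO_der Metric.isOpen_ball (hC.dZ 0 (Nat.zero_le _)) (hC.dW 0 (Nat.zero_le _)) s h3
    rw [(hX1 (Φ s) h4).deriv, (hY1 (Φ s) h4).deriv]
    have e1 : cexp (Φ s * I) = Complex.cos (Φ s) + Complex.sin (Φ s) * I :=
      Complex.exp_mul_I (Φ s)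
    have e2 : cexp (-(Φ s * I)) = Complex.cos (Φ s) - Complex.sin (Φ s) * I := by
      have := Complex.exp_mul_I (-Φ s)
      rw [Complex.cos_neg, Complex.sin_neg] at this
      rw [← neg_mul, this]
      ring
    constructor
    · show deriv (fun t => (Z 0 t + W 0 t) / 2) s = _
      rw [hd.1, h1, h2, e1, e2]
      ring_nf
      rw [I_sq]
      ring
    · show deriv (fun t => (Z 0 t - W 0 t) / (2 * I)) s = _
      rw [hd.2, h1, h2, e1, e2]
      field_simp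
      ring
  have hdΦ : ∀ᶠ s in 𝓝 (x : ℂ), deriv Φ s ≠ 0 :=
    hP.aΦ.deriv.continuousAt.eventually_ne hP.dΦ
  have hall : ∀ᶠ s in 𝓝 (x : ℂ), (s ∈ Metric.ball (a 0) (r 0) ∧ Φ s ∈ Metric.ball (y : ℂ) η ∧
      deriv Φ s ≠ 0 ∧ AnalyticAt ℂ Φ s) ∧ ∀ᶠ s' in 𝓝 s,
        deriv (X 0) s' = deriv X1 (Φ s') * deriv Φ s' ∧
        deriv (Y 0) s' = deriv Y1 (Φ s') * deriv Φ s' := by
    filter_upwards [hb0, hΦc.eventually hby, hdΦ, hP.aΦ.eventually_analyticAt,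
      hrel.eventually_nhds] with s h1 h2 h3 h4 h5
    exact ⟨⟨h1, h2, h3, h4⟩, h5⟩
  have hmap : Filter.map Φ (𝓝 (x : ℂ)) = 𝓝 (Φ x) :=
    (hP.aΦ.hasStrictDerivAt).map_nhds_eq hP.dΦ
  have himg : Φ '' {s | (s ∈ Metric.ball (a 0) (r 0) ∧ Φ s ∈ Metric.ball (y : ℂ) η ∧
      deriv Φ s ≠ 0 ∧ AnalyticAt ℂ Φ s) ∧ ∀ᶠ s' in 𝓝 s,
        deriv (X 0) s' = deriv X1 (Φ s') * deriv Φ s' ∧
        deriv (Y 0) s' = deriv Y1 (Φ s') * deriv Φ s'} ∈ 𝓝 (y : ℂ) := by
    have h := Filter.image_mem_map (m := Φ) hall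
    rw [hmap, hΦ] at h
    exact h
  obtain ⟨ε, hε, hball⟩ := Metric.mem_nhds_iff.1 himg
  obtain ⟨v, hv, hvs, hvc⟩ := OFO_real y ε hε
  have hvb : (v : ℂ) ∈ Metric.ball (y : ℂ) ε := by
    rw [Metric.mem_ball, Complex.dist_eq, ← Complex.ofReal_sub, Complex.norm_real,
      Real.norm_eq_abs]
    exact hv
  obtain ⟨t, ⟨⟨ht1, ht2, ht3, ht4⟩, ht5⟩, htv⟩ := hball hvb
  have hvη : (v : ℂ) ∈ Metric.ball (y : ℂ) η := by rw [← htv]; exact ht2
  have haX1 : ∀ w ∈ Metric.ball (y : ℂ) η, AnalyticAt ℂ X1 w := fun w hw =>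
    DifferentiableOn.analyticAt (s := Metric.ball (y : ℂ) η)
      (fun z hz => (hX1 z hz).differentiableAt.differentiableWithinAt)
      (Metric.isOpen_ball.mem_nhds hw)
  have haY1 : ∀ w ∈ Metric.ball (y : ℂ) η, AnalyticAt ℂ Y1 w := fun w hw =>
    DifferentiableOn.analyticAt (s := Metric.ball (y : ℂ) η)
      (fun z hz => (hY1 z hz).differentiableAt.differentiableWithinAt)
      (Metric.isOpen_ball.mem_nhds hw)
  have haX : AnalyticAt ℂ (X 0) t :=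
    (hdX 0 (Nat.zero_le _)).analyticAt (Metric.isOpen_ball.mem_nhds ht1)
  have haY : AnalyticAt ℂ (Y 0) t :=
    (hdY 0 (Nat.zero_le _)).analyticAt (Metric.isOpen_ball.mem_nhds ht1)
  have hg := hgood1 v hvη
  rw [← htv] at hg
  have hGX : GoodO (X 0) (Y 0) t := hOTP (X 0) (Y 0) X1 Y1 Φ t haX haY ht4 ht3
    (haX1 _ ht2) (haY1 _ ht2) ht5 (hg.1 hvs)
  have hGY : GoodO (Y 0) (X 0) t := hOTP (Y 0) (X 0) Y1 X1 Φ t haY haX ht4 ht3
    (haY1 _ ht2) (haX1 _ ht2) (ht5.mono fun s hs => ⟨hs.2, hs.1⟩) (hg.2 hvc)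
  -- continuation
  obtain ⟨z, hz, hGz⟩ := hOCH n a r X Y hC1 ⟨t, ht1, hGX⟩
  obtain ⟨z', hz', hGz'⟩ := hOCH n a r Y X hC2 ⟨t, ht1, hGY⟩
  have hb : Metric.ball (a n) (r n) ∈ 𝓝 t0 := Metric.isOpen_ball.mem_nhds ht0
  have haXn : AnalyticAt ℂ (X n) t0 := (hdX n le_rfl).analyticAt hb
  have haYn : AnalyticAt ℂ (Y n) t0 := (hdY n le_rfl).analyticAt hb
  have hn1 := OFO_near (hdX n le_rfl) (hdY n le_rfl) hz hGz.1 hGz.2.1 ht0
  have hn2 := OFO_near (hdY n le_rfl) (hdX n le_rfl) hz' hGz'.1 hGz'.2.1 ht0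
  have hgx : ∀ᶠ s in 𝓝[≠] t0, GoodO (X n) (Y n) s := by
    filter_upwards [hn1, mem_nhdsWithin_of_mem_nhds hb] with s h1 h2
    exact hOLC (X n) (Y n) (a n) (r n) z s (hdX n le_rfl) (hdY n le_rfl) hz h2 hGz h1.1 h1.2
  have hgy : ∀ᶠ s in 𝓝[≠] t0, GoodO (Y n) (X n) s := by
    filter_upwards [hn2, mem_nhdsWithin_of_mem_nhds hb] with s h1 h2
    exact hOLC (Y n) (X n) (a n) (r n) z' s (hdY n le_rfl) (hdX n le_rfl) hz' h2 hGz' h1.1 h1.2
  have hnz : ¬ ∀ᶠ s in 𝓝 t0, Wr (X n) (Y n) s = 0 := by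
    intro hcon
    have h1 : ∀ᶠ s in 𝓝[≠] t0, False := by
      filter_upwards [hn1, hcon.filter_mono nhdsWithin_le_nhds] with s h2 h3
      exact h2.2 h3
    obtain ⟨_, h⟩ := h1.exists
    exact h
  have hnz' : ¬ ∀ᶠ s in 𝓝 t0, Wr (Y n) (X n) s = 0 := by
    intro hcon
    apply hnz
    filter_upwards [hcon] with s hs
    rw [OFO_swap, hs, neg_zero]
  have hReg : Reg (X n) (Y n) t0 := by
    rcases le_total (analyticOrderAt (deriv (X n)) t0) (analyticOrderAt (deriv (Y n)) t0) with h | h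
    · exact hOBR (X n) (Y n) t0 haXn haYn hnz h hgx
    · exact OFO_reg_swap (hOBR (Y n) (X n) t0 haYn haXn hnz' h hgy)
  refine ⟨?_, ?_⟩
  · intro hcon
    apply hnz
    filter_upwards [hcon, hb] with s hs hsb
    have := OFO_wr Metric.isOpen_ball (hC.dZ n le_rfl) (hC.dW n le_rfl) s hsb
    show Wr (fun t => (Z n t + W n t) / 2) (fun t => (Z n t - W n t) / (2 * I)) s = 0
    rw [this, hs, neg_zero, zero_div]
  · refine hRLI (X n) (Y n) (Z n) (W n) t0 hReg (Eventually.of_forall fun s => ?_)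
    simp only [hX, hY]
    constructor
    · field_simp
      ring
    · field_simp
      ring

end H719FX
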