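import Pool.Agent.H719R4.FX.Out

/-!
# OGD: good points on a graph (cut out of the proof of `tOUT`, `H738R3.CZ.OUT`)
-/

open Complex Set Filter Topology

namespace H719FX

open H738CZ

theorem tOGD (hINI : StINI) (hCPX : StCPX) (hLAW : StLAW) : StOGD := by
  intro f f' f2 x0 x1 _ hf K U hUo hUc hfU hK hinv hnc R x ηR hηR hxI hRd hR
  set η0 : ℝ := min ηR (min (x - x0) (x1 - x)) with hη0def
  have hη0 : 0 < η0 := lt_min hηR (lt_min (sub_pos.2 hxI.1) (sub_pos.2 hxI.2))
  have hsub : Metric.ball (x : ℂ) η0 ⊆ Metric.ball (x : ℂ) ηR :=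
    Metric.ball_subset_ball (min_le_left _ _)
  have hIoo : ∀ y : ℝ, |y - x| < η0 → y ∈ Ioo x0 x1 := by
    intro y hy
    have h1 : |y - x| < x - x0 := hy.trans_le ((min_le_right _ _).trans (min_le_left _ _))
    have h2 : |y - x| < x1 - x := hy.trans_le ((min_le_right _ _).trans (min_le_right _ _))
    rw [abs_lt] at h1 h2
    constructor <;> linarith
  have hd0 : DifferentiableOn ℂ R (Metric.ball (x : ℂ) η0) :=
    hRd.mono hsub
  have hf0 : ∀ y : ℝ, |y - x| < η0 → HasDerivAt f (f' y) y ∧ HasDerivAt f' (f2 y) y :=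
    fun y hy => ⟨(hf y (hIoo y hy)).1, (hf y (hIoo y hy)).2.1⟩
  have he0 : ∀ y : ℝ, |y - x| < η0 → R y = f2 y := fun y hy =>
    hR y (hsub (OUT_mem hy)) (hIoo y hy)
  have hfa : AnalyticAt ℝ f x := OUT_analytic hη0 hd0 hf0 he0
  set L : ℝ → ℝ → ℝ := fun φ y => K φ (f φ - y) with hLdef
  have hL : AnalyticAt ℝ (Function.uncurry L) (x, 0) := by
    have h1 : AnalyticAt ℝ (Function.uncurry K) ((fun p : ℝ × ℝ => (p.1, f p.1 - p.2)) (x, 0)) := by
      simp only [sub_zero]
      exact hK _ (hfU x hxI)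
    have h2 : AnalyticAt ℝ (fun p : ℝ × ℝ => (p.1, f p.1 - p.2)) (x, 0) := by
      have h3 : AnalyticAt ℝ (fun p : ℝ × ℝ => f p.1) (x, 0) :=
        AnalyticAt.comp (g := f) (f := Prod.fst) (x := ((x, 0) : ℝ × ℝ)) hfa analyticAt_fst
      exact analyticAt_fst.prod (h3.sub analyticAt_snd)
    exact AnalyticAt.comp (g := Function.uncurry K)
      (f := fun p : ℝ × ℝ => (p.1, f p.1 - p.2)) (x := ((x, 0) : ℝ × ℝ)) h1 h2
  obtain ⟨b, η1, M, rr, hBD, hsum⟩ := hCPX L x hL
  set η : ℝ := min η0 η1 with hηdef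
  have hη : 0 < η := lt_min hη0 hBD.η0
  have hηη0 : η ≤ η0 := min_le_left _ _
  have hηη1 : η ≤ η1 := min_le_right _ _
  have hBD' : BD b x η M rr :=
    ⟨hη, hBD.r0, fun j => (hBD.df j).mono (Metric.ball_subset_ball hηη1),
      fun j t ht => hBD.bd j t (Metric.ball_subset_ball hηη1 ht)⟩
  have hd' : DifferentiableOn ℂ R (Metric.ball (x : ℂ) η) :=
    hd0.mono (Metric.ball_subset_ball hηη0)
  have hxx : |x - x| < η := by simpa using hη
  have hEV : ∀ ψ : ℝ, |ψ - x| < η → EV (fun z => z) R b ψ := by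
    intro ψ hψ
    have hψ0 : |ψ - x| < η0 := hψ.trans_le hηη0
    obtain ⟨εψ, hεψ, hinvψ⟩ := hinv ψ (hIoo ψ hψ0)
    set u : ℝ → ℝ := fun δ => f (ψ + δ) - f ψ - f' ψ * δ with hu
    have hucont : ContinuousAt u 0 := by
      have h1 : ContinuousAt (fun δ : ℝ => f (ψ + δ)) 0 := by
        have h2 : ContinuousAt f (ψ + 0) := by
          rw [add_zero]; exact (hf0 ψ hψ0).1.continuousAt
        exact ContinuousAt.comp (g := f) (f := fun δ : ℝ => ψ + δ) h2 (by fun_prop)
      exact (h1.sub continuousAt_const).sub (by fun_prop)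
    have hu0 : u 0 = 0 := by simp [hu]
    obtain ⟨ε2, hε2, hε2u⟩ := Metric.continuousAt_iff.1 hucont rr hBD.r0
    refine ⟨min εψ (min ε2 (η - |ψ - x|)), lt_min hεψ (lt_min hε2 (sub_pos.2 hψ)), ?_⟩
    intro δ hδ0 hδ
    have g1 : δ < εψ := hδ.trans_le (min_le_left _ _)
    have g2 : δ < ε2 := hδ.trans_le ((min_le_right _ _).trans (min_le_left _ _))
    have g3 : δ < η - |ψ - x| := hδ.trans_le ((min_le_right _ _).trans (min_le_right _ _))
    have k1 : |ψ + δ - x| < η := by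
      have : ψ + δ - x = (ψ - x) + δ := by ring
      rw [this]
      refine (abs_add_le _ _).trans_lt ?_
      rw [abs_of_pos hδ0]
      linarith
    have k2 : |ψ + -δ - x| < η := by
      have : ψ + -δ - x = (ψ - x) + -δ := by ring
      rw [this]
      refine (abs_add_le _ _).trans_lt ?_
      rw [abs_neg, abs_of_pos hδ0]
      linarith
    have l1 : |u δ| < rr := by
      have := hε2u (x := δ) (by rw [Real.dist_eq, sub_zero, abs_of_pos hδ0]; exact g2)
      rwa [hu0, Real.dist_eq, sub_zero] at this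
    have l2 : |u (-δ)| < rr := by
      have := hε2u (x := -δ) (by rw [Real.dist_eq, sub_zero, abs_neg, abs_of_pos hδ0]; exact g2)
      rwa [hu0, Real.dist_eq, sub_zero] at this
    have m1 := OUT_Yf hd0 hf0 he0 hψ0 (k1.trans_le hηη0)
    have m2 := OUT_Yf hd0 hf0 he0 hψ0 (k2.trans_le hηη0)
    have n1 := (hsum (ψ + δ) (u δ) (k1.trans_le hηη1) l1).tsum_eq
    have n2 := (hsum (ψ + -δ) (u (-δ)) (k2.trans_le hηη1) l2).tsum_eq
    have c1 : ((ψ + -δ : ℝ) : ℂ) = (ψ : ℂ) - (δ : ℂ) := by push_cast; ring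
    have c2 : ((-δ : ℝ) : ℂ) = -(δ : ℂ) := by push_cast; ring
    have c3 : ((ψ + δ : ℝ) : ℂ) = (ψ : ℂ) + (δ : ℂ) := by push_cast; ring
    rw [c2] at m2
    rw [m1, m2]
    rw [c3] at n1
    rw [c1] at n2
    have q1 : L (ψ + δ) (u δ) = K (ψ + δ) (f ψ + f' ψ * δ) := by
      simp only [hLdef, hu]
      congr 1
      ring
    have q2 : L (ψ + -δ) (u (-δ)) = K (ψ - δ) (f ψ - f' ψ * δ) := by
      simp only [hLdef, hu]
      rw [← sub_eq_add_neg]
      congr 1
      ring
    have q3 := hinvψ δ hδ0 g1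
    refine n1.trans (Eq.trans ?_ n2.symm)
    rw [q1, q2, q3]
  have hnon : ∃ j, 1 ≤ j ∧ ∃ t ∈ Metric.ball (x : ℂ) η, b j t ≠ 0 := by
    by_contra hcon
    push Not at hcon
    obtain ⟨hb0, -⟩ := hLAW (fun z => z) OUT_kc OUT_KF OUT_ker R x b η M rr hBD' hd' hEV
    have hLc : ∀ φ y : ℝ, |φ - x| < η → |y| < rr → ((L φ y : ℝ) : ℂ) = b 0 x := by
      intro φ y hφ hy
      have h := hsum φ y (hφ.trans_le hηη1) hy
      have h' : HasSum (fun j => b j φ * (y : ℂ) ^ j) (b 0 φ * (y : ℂ) ^ 0) := by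
        apply hasSum_single
        intro j hj
        rw [hcon j (Nat.one_le_iff_ne_zero.2 hj) _ (OUT_mem hφ), zero_mul]
      rw [h.unique h', pow_zero, mul_one, hb0 _ (OUT_mem hφ)]
    have hLc' : ∀ φ y : ℝ, |φ - x| < η → |y| < rr → L φ y = L x 0 := by
      intro φ y hφ hy
      have := (hLc φ y hφ hy).trans (hLc x 0 hxx (by simpa using hBD.r0)).symm
      exact_mod_cast this
    apply hnc
    refine ⟨L x 0, ?_⟩
    have hev : Function.uncurry K =ᶠ[𝓝 (x, f x)] fun _ => L x 0 := by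
      have hcont : ContinuousAt (fun p : ℝ × ℝ => f p.1 - p.2) (x, f x) := by
        have h2 : ContinuousAt f x := (hf x hxI).1.continuousAt
        have h3 : ContinuousAt (fun p : ℝ × ℝ => f p.1) (x, f x) :=
          ContinuousAt.comp (g := f) (f := Prod.fst) (x := ((x, f x) : ℝ × ℝ)) h2 continuousAt_fst
        exact h3.sub continuousAt_snd
      have h1 : ∀ᶠ p : ℝ × ℝ in 𝓝 (x, f x), |f p.1 - p.2| < rr := by
        have h4 := hcont.abs
        apply h4.eventually_lt continuousAt_const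
        simpa using hBD.r0
      have h2 : ∀ᶠ p : ℝ × ℝ in 𝓝 (x, f x), |p.1 - x| < η := by
        have h4 : ContinuousAt (fun p : ℝ × ℝ => |p.1 - x|) (x, f x) :=
          (continuousAt_fst.sub continuousAt_const).abs
        apply h4.eventually_lt continuousAt_const
        simpa using hη
      filter_upwards [h1, h2] with p hp1 hp2
      have h3 := hLc' p.1 (f p.1 - p.2) hp2 hp1
      rw [← h3]
      simp only [hLdef, Function.uncurry, sub_sub_cancel]
    have := hK.eqOn_of_preconnected_of_eventuallyEq analyticOnNhd_const hUc (hfU x hxI) hev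
    intro z hz
    exact this hz
  have hR0x : R x ≠ 0 := by
    rw [he0 x (by simpa using hη0)]
    exact_mod_cast (hf x hxI).2.2.ne'
  have hgood : Good OUT_kc R x :=
    hINI (fun z => z) OUT_kc OUT_KF OUT_ker R x b η M rr hBD' hd' hR0x hEV hnon
  exact hgood

end H719FX
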