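import Pool.Agent.H719R4.FX.Out
import Pool.Agent.H738R3.CZ.AVD

/-!
OLC: propagation of good points of the outer billiard in a disc.
-/

open Complex Set Filter Topology

namespace H719FX

open H738CZ

theorem OLC_diff {X Y : ℂ → ℂ} {U : Set ℂ} (hU : IsOpen U) (hX : DifferentiableOn ℂ X U)
    (hY : DifferentiableOn ℂ Y U) :
    DifferentiableOn ℂ (fun t => deriv X t * Wr X Y t) U := by
  have hX1 := hX.deriv hU
  have hY1 := hY.deriv hU
  have hX2 := hX1.deriv hU
  have hY2 := hY1.deriv hU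
  unfold Wr
  exact hX1.mul ((hX1.mul hY2).sub (hX2.mul hY1))

theorem tOLC (hOSG : StOSG) : StOLC := by
  intro X Y c r a b hX hY ha hb hG h1 h2
  have g1 : deriv X a ≠ 0 := hG.1
  have g2 : Wr X Y a ≠ 0 := hG.2.1
  have hf : DifferentiableOn ℂ (fun t => deriv X t * Wr X Y t) (Metric.ball c r) :=
    OLC_diff Metric.isOpen_ball hX hY
  obtain ⟨p, hp1, hp2⟩ := tAVD (fun t => deriv X t * Wr X Y t) c r a b hf ha hb
    (mul_ne_zero g1 g2) (mul_ne_zero h1 h2)
  have hU : IsOpen {t ∈ Metric.ball c r | (fun t => deriv X t * Wr X Y t) t ≠ 0} :=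
    hf.continuousOn.isOpen_inter_preimage Metric.isOpen_ball isOpen_compl_singleton
  have hX' : DifferentiableOn ℂ X
      {t ∈ Metric.ball c r | (fun t => deriv X t * Wr X Y t) t ≠ 0} :=
    hX.mono fun t ht => ht.1
  have hY' : DifferentiableOn ℂ Y
      {t ∈ Metric.ball c r | (fun t => deriv X t * Wr X Y t) t ≠ 0} :=
    hY.mono fun t ht => ht.1
  have hn : ∀ t ∈ {t ∈ Metric.ball c r | (fun t => deriv X t * Wr X Y t) t ≠ 0},
      deriv X t ≠ 0 ∧ Wr X Y t ≠ 0 := by
    intro t ht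
    have h := ht.2
    simp only [ne_eq, mul_eq_zero, not_or] at h
    exact h
  have s1 := hOSG X Y _ a p hU hX' hY' hn hp1 hG
  exact hOSG X Y _ p b hU hX' hY' hn hp2 s1

end H719FX
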