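import Pool.Agent.H719R4.FX.Out

/-!
# OSG: propagation of good points of outer billiards along a segment (helper227)
-/

open Complex Set Filter Topology

namespace H719FX

open H738CZ

/-- `Good` depends only on the germ -/
theorem OSG_germ (hTRL : StTRL) {kc : ℕ → ℂ} {ρ ρ' : ℂ → ℂ} {a : ℂ} (h : ∀ᶠ x in 𝓝 a, ρ' x = ρ x)
    (hG : Good kc ρ a) : Good kc ρ' a := by
  have := hTRL kc ρ ρ' a 0 hG (by
    rw [sub_zero]
    filter_upwards [h] with x hx
    rw [add_zero]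
    exact hx)
  rwa [sub_zero] at this

theorem OSG_wr {X Y : ℂ → ℂ} {t : ℂ} (hX : AnalyticAt ℂ X t) (hY : AnalyticAt ℂ Y t) :
    AnalyticAt ℂ (Wr X Y) t := by
  have h : Wr X Y = (deriv X * deriv (deriv Y)) - (deriv (deriv X) * deriv Y) := rfl
  rw [h]
  exact (hX.deriv.mul hY.deriv.deriv).sub (hX.deriv.deriv.mul hY.deriv)

theorem OSG_loc (hTRL : StTRL) (hDSC : StDSC) (X Y : ℂ → ℂ) (t : ℂ)
    (hX : AnalyticAt ℂ X t) (hY : AnalyticAt ℂ Y t) (h1 : deriv X t ≠ 0)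
    (h2 : Wr X Y t ≠ 0) :
    ∀ᶠ s in 𝓝 t, (GoodO X Y t → GoodO X Y s) ∧ (GoodO X Y s → GoodO X Y t) := by
  have hs : HasStrictDerivAt X (deriv X t) t := hX.hasStrictDerivAt
  set e := (hs.hasStrictFDerivAt_equiv h1).toOpenPartialHomeomorph X with he
  have hcoe : ∀ s, e s = X s := fun s => rfl
  have htsrc : t ∈ e.source := (hs.hasStrictFDerivAt_equiv h1).mem_toOpenPartialHomeomorph_source
  have hnear : ∀ᶠ s in 𝓝 t, (AnalyticAt ℂ X s ∧ AnalyticAt ℂ Y s) ∧
      (deriv X s ≠ 0 ∧ Wr X Y s ≠ 0) ∧ s ∈ e.source :=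
    (hX.eventually_analyticAt.and hY.eventually_analyticAt).and
      (((hX.deriv.continuousAt.eventually_ne h1).and
        ((OSG_wr hX hY).continuousAt.eventually_ne h2)).and (e.open_source.mem_nhds htsrc))
  obtain ⟨ε, hε, hball⟩ := Metric.eventually_nhds_iff_ball.mp hnear
  have htgt : X t ∈ e.target := e.map_source htsrc
  have hψt : e.symm (X t) = t := e.left_inv htsrc
  have hψc : ContinuousAt e.symm (X t) := e.continuousAt_symm htgt
  have hev2 : ∀ᶠ x in 𝓝 (X t), e.symm x ∈ Metric.ball t ε ∧ x ∈ e.target := by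
    have h3 : ∀ᶠ x in 𝓝 (X t), e.symm x ∈ Metric.ball t ε := by
      apply hψc.eventually_mem
      rw [hψt]
      exact Metric.ball_mem_nhds t hε
    have h4 : ∀ᶠ x in 𝓝 (X t), x ∈ e.target := e.open_target.mem_nhds htgt
    exact h3.and h4
  obtain ⟨η, hη, hball2⟩ := Metric.eventually_nhds_iff_ball.mp hev2
  set ρt : ℂ → ℂ := fun x => Wr X Y (e.symm x) / (deriv X (e.symm x)) ^ 3 with hρt
  have hd : DifferentiableOn ℂ ρt (Metric.ball (X t) η) := by
    intro x hx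
    obtain ⟨hx1, hx2⟩ := hball2 x hx
    obtain ⟨⟨a1, a2⟩, ⟨a3, a4⟩, a5⟩ := hball _ hx1
    have hder : HasDerivAt e.symm (deriv X (e.symm x))⁻¹ x :=
      e.hasDerivAt_symm hx2 a3 a1.differentiableAt.hasDerivAt
    have d1 : DifferentiableAt ℂ (fun x => Wr X Y (e.symm x)) x :=
      DifferentiableAt.comp x (OSG_wr a1 a2).differentiableAt hder.differentiableAt
    have d2 : DifferentiableAt ℂ (fun x => deriv X (e.symm x)) x :=
      DifferentiableAt.comp x a1.deriv.differentiableAt hder.differentiableAt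
    exact (d1.div (d2.pow 3) (pow_ne_zero 3 a3)).differentiableWithinAt
  have hnz : ∀ x ∈ Metric.ball (X t) η, ρt x ≠ 0 := by
    intro x hx
    obtain ⟨hx1, hx2⟩ := hball2 x hx
    obtain ⟨⟨a1, a2⟩, ⟨a3, a4⟩, a5⟩ := hball _ hx1
    exact div_ne_zero a4 (pow_ne_zero 3 a3)
  -- the good neighbourhood
  have hnhd : ∀ s, s ∈ Metric.ball t ε → X s ∈ Metric.ball (X t) η →
      ∀ᶠ u in 𝓝 s, u ∈ Metric.ball t ε ∧ X u ∈ Metric.ball (X t) η := by
    intro s hs1 hs2
    obtain ⟨⟨a1, -⟩, -, -⟩ := hball _ hs1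
    have h3 : ∀ᶠ u in 𝓝 s, u ∈ Metric.ball t ε := Metric.isOpen_ball.mem_nhds hs1
    exact h3.and (a1.continuousAt.eventually_mem (Metric.isOpen_ball.mem_nhds hs2))
  have heq : ∀ u, u ∈ Metric.ball t ε → ρt (X u) * deriv X u ^ 3 = Wr X Y u := by
    intro u hu
    obtain ⟨-, ⟨a3, a4⟩, a5⟩ := hball _ hu
    have hl : e.symm (X u) = u := e.left_inv a5
    simp only [hρt, hl]
    exact div_mul_cancel₀ _ (pow_ne_zero 3 a3)
  have hiff : ∀ s, s ∈ Metric.ball t ε → X s ∈ Metric.ball (X t) η →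
      (GoodO X Y s ↔ Good OUT_kc ρt (X s)) := by
    intro s hs1 hs2
    obtain ⟨⟨a1, a2⟩, ⟨a3, a4⟩, a5⟩ := hball _ hs1
    have hl : e.symm (X s) = s := e.left_inv a5
    constructor
    · rintro ⟨-, -, ρ, hρ, hρe, hG⟩
      refine OSG_germ hTRL ?_ hG
      have hc : ContinuousAt e.symm (X s) := e.continuousAt_symm (e.map_source a5)
      have hx1 : ∀ᶠ x in 𝓝 (X s), ρ (X (e.symm x)) * deriv X (e.symm x) ^ 3 =
          Wr X Y (e.symm x) := hc.eventually (by rw [hl]; exact hρe)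
      have hx2 : ∀ᶠ x in 𝓝 (X s), x ∈ Metric.ball (X t) η := Metric.isOpen_ball.mem_nhds hs2
      filter_upwards [hx1, hx2] with x hx hxb
      obtain ⟨hy1, hy2⟩ := hball2 x hxb
      obtain ⟨-, ⟨b3, b4⟩, b5⟩ := hball _ hy1
      have hr : X (e.symm x) = x := e.right_inv hy2
      rw [hr] at hx
      simp only [hρt]
      rw [← hx, mul_div_cancel_right₀ _ (pow_ne_zero 3 b3)]
    · intro hG
      refine ⟨a3, a4, ρt, hd.analyticAt (Metric.isOpen_ball.mem_nhds hs2), ?_, hG⟩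
      filter_upwards [hnhd s hs1 hs2] with u hu
      exact heq u hu.1
  have ht1 : t ∈ Metric.ball t ε := Metric.mem_ball_self hε
  have ht2 : X t ∈ Metric.ball (X t) η := Metric.mem_ball_self hη
  filter_upwards [hnhd t ht1 ht2] with s hs
  constructor
  · intro hG
    exact (hiff s hs.1 hs.2).2 (hDSC OUT_kc OUT_ker ρt (X t) η (X t) (X s) hd ht2 hs.2
      (hnz _ hs.2) ((hiff t ht1 ht2).1 hG))
  · intro hG
    exact (hiff t ht1 ht2).2 (hDSC OUT_kc OUT_ker ρt (X t) η (X s) (X t) hd hs.2 ht2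
      (hnz _ ht2) ((hiff s hs.1 hs.2).1 hG))

theorem tOSG (hTRL : StTRL) (hDSC : StDSC) : StOSG := by
  intro X Y U a b hU hX hY hne hsub hG
  have hpre : IsPreconnected (segment ℝ a b) := (convex_segment a b).isPreconnected
  have hloc : ∀ t ∈ segment ℝ a b, ∀ᶠ s in 𝓝[segment ℝ a b] t,
      (GoodO X Y t → GoodO X Y s) ∧ (GoodO X Y s → GoodO X Y t) := by
    intro t ht
    have htU := hsub ht
    obtain ⟨h1, h2⟩ := hne t htU
    exact mem_nhdsWithin_of_mem_nhds (OSG_loc hTRL hDSC X Y t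
      (hX.analyticAt (hU.mem_nhds htU)) (hY.analyticAt (hU.mem_nhds htU)) h1 h2)
  have := hpre.induction₂' (fun x y => GoodO X Y x → GoodO X Y y) hloc
    (fun x y z _ _ _ h1 h2 h3 => h2 (h1 h3)) (left_mem_segment ℝ a b) (right_mem_segment ℝ a b)
  exact this hG

end H719FX
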