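import Pool.Agent.H719R4.FX.Out
import Pool.Agent.H738R3.CZ.TRL
import Pool.Agent.H738R3.CZ.CHG
import Pool.Agent.H738R3.CZ.MON

/-!
# OST: start for an oval in the coordinates `x` and `y`
-/

open Complex Set Filter Topology

namespace H719FX

open H738CZ

/-- OGD without the sign condition -/
theorem OST_ogd (hOGD : StOGD) (hSGN : StSGN) (f f' f2 : ℝ → ℝ) (x0 x1 : ℝ) (h01 : x0 < x1)
    (hf : ∀ x ∈ Ioo x0 x1, HasDerivAt f (f' x) x ∧ HasDerivAt f' (f2 x) x)
    (hs : (∀ x ∈ Ioo x0 x1, 0 < f2 x) ∨ (∀ x ∈ Ioo x0 x1, f2 x < 0))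
    (K : ℝ → ℝ → ℝ) (U : Set (ℝ × ℝ)) (hU : IsOpen U) (hUc : IsPreconnected U)
    (hfU : ∀ x ∈ Ioo x0 x1, (x, f x) ∈ U) (hK : AnalyticOnNhd ℝ (Function.uncurry K) U)
    (hinv : ∀ x ∈ Ioo x0 x1, ∃ ε > 0, ∀ δ : ℝ, 0 < δ → δ < ε →
      K (x + δ) (f x + f' x * δ) = K (x - δ) (f x - f' x * δ))
    (hnc : ¬ ∃ c, ∀ z ∈ U, K z.1 z.2 = c)
    (R : ℂ → ℂ) (x η : ℝ) (hη : 0 < η) (hx : x ∈ Ioo x0 x1)
    (hR : DifferentiableOn ℂ R (Metric.ball (x : ℂ) η))
    (hRf : ∀ v : ℝ, (v : ℂ) ∈ Metric.ball (x : ℂ) η → v ∈ Ioo x0 x1 → R v = f2 v) :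
    Good OUT_kc R x := by
  rcases hs with hs | hs
  · exact hOGD f f' f2 x0 x1 h01 (fun z hz => ⟨(hf z hz).1, (hf z hz).2, hs z hz⟩) K U hU hUc hfU hK
      hinv hnc R x η hη hx hR hRf
  · set e : ℝ × ℝ ≃ₜ ℝ × ℝ := (Homeomorph.refl ℝ).prodCongr (Homeomorph.neg ℝ) with he
    have hee : ∀ z : ℝ × ℝ, e z = (z.1, -z.2) := fun z => rfl
    have h1 : Good OUT_kc (fun t => -R t) x := by
      refine hOGD (fun z => -f z) (fun z => -f' z) (fun z => -f2 z) x0 x1 h01
        (fun z hz => ⟨(hf z hz).1.neg, (hf z hz).2.neg, neg_pos.mpr (hs z hz)⟩)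
        (fun a b => K a (-b)) (e ⁻¹' U) (hU.preimage e.continuous)
        (e.isPreconnected_preimage.mpr hUc) ?_ ?_ ?_ ?_ (fun t => -R t) x η hη hx hR.neg ?_
      · intro z hz
        rw [mem_preimage, hee]
        simpa using hfU z hz
      · intro z hz
        rw [mem_preimage, hee] at hz
        have h2 : AnalyticAt ℝ (fun p : ℝ × ℝ => (p.1, -p.2)) z :=
          analyticAt_fst.prod analyticAt_snd.neg
        have h3 : AnalyticAt ℝ (Function.uncurry K) ((fun p : ℝ × ℝ => (p.1, -p.2)) z) := hK _ hz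
        exact AnalyticAt.comp (g := Function.uncurry K)
          (f := fun p : ℝ × ℝ => (p.1, -p.2)) (x := z) h3 h2
      · intro z hz
        obtain ⟨ε, hε, h⟩ := hinv z hz
        refine ⟨ε, hε, fun δ h1 h2 => ?_⟩
        have h3 := h δ h1 h2
        have e1 : -(-f z + -f' z * δ) = f z + f' z * δ := by ring
        have e2 : -(-f z - -f' z * δ) = f z - f' z * δ := by ring
        simp only [e1, e2]
        exact h3
      · rintro ⟨c, hc⟩
        apply hnc
        refine ⟨c, fun z hz => ?_⟩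
        have h3 := hc (z.1, -z.2) (by rw [mem_preimage, hee]; simpa using hz)
        simpa using h3
      · intro v hv hv2
        rw [hRf v hv hv2]
        push_cast
        ring
    have h2 := hSGN OUT_kc _ _ h1
    simpa using h2

/-- general lemma: a graph over the first coordinate -/
theorem OST_gl (hOGD : StOGD) (hSGN : StSGN) (X Y : ℂ → ℂ) (v α β : ℝ) (hv : v ∈ Ioo α β)
    (x1 y1 p m m' : ℝ → ℝ) (hx : ∀ s ∈ Ioo α β, HasDerivAt x1 (p s) s)
    (hy : ∀ s ∈ Ioo α β, HasDerivAt y1 (m s * p s) s) (hm : ∀ s ∈ Ioo α β, HasDerivAt m (m' s) s)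
    (hpc : ContinuousAt p v) (hp : ∀ s ∈ Ioo α β, p s ≠ 0)
    (hs : (∀ s ∈ Ioo α β, 0 < m' s * (p s)⁻¹) ∨ (∀ s ∈ Ioo α β, m' s * (p s)⁻¹ < 0))
    (K : ℝ → ℝ → ℝ) (U : Set (ℝ × ℝ)) (hU : IsOpen U) (hUc : IsPreconnected U)
    (hfU : ∀ s ∈ Ioo α β, (x1 s, y1 s) ∈ U) (hK : AnalyticOnNhd ℝ (Function.uncurry K) U)
    (hinv : ∀ s ∈ Ioo α β, ∃ ε > 0, ∀ δ : ℝ, 0 < δ → δ < ε →
      K (x1 s + δ) (y1 s + m s * δ) = K (x1 s - δ) (y1 s - m s * δ))
    (hnc : ¬ ∃ c, ∀ z ∈ U, K z.1 z.2 = c) (hX : AnalyticAt ℂ X v) (hY : AnalyticAt ℂ Y v)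
    (hXd : ∀ s ∈ Ioo α β, HasDerivAt X (p s : ℂ) (s : ℂ))
    (hW : ∀ s ∈ Ioo α β, Wr X Y s = m' s * (p s : ℂ) ^ 2) : GoodO X Y v := by
  have hpv : (p v : ℂ) ≠ 0 := by exact_mod_cast hp v hv
  have hdX : deriv X v ≠ 0 := by rw [(hXd v hv).deriv]; exact hpv
  have hm'0 : ∀ s ∈ Ioo α β, m' s ≠ 0 := by
    intro s hs1 h0
    rcases hs with h | h
    · have := h s hs1
      rw [h0, zero_mul] at this
      exact lt_irrefl _ this
    · have := h s hs1
      rw [h0, zero_mul] at this
      exact lt_irrefl _ this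
  have hWv : Wr X Y v ≠ 0 := by
    rw [hW v hv]
    refine mul_ne_zero ?_ (pow_ne_zero _ hpv)
    exact_mod_cast hm'0 v hv
  -- the constant
  obtain ⟨c0, hc0⟩ : ∃ c0 : ℂ, ∀ s ∈ Ioo α β, X s = (x1 s : ℂ) + c0 := by
    refine ⟨X v - x1 v, fun s hs1 => ?_⟩
    have hd : ∀ t ∈ Ioo α β, HasDerivAt (fun t : ℝ => X (t : ℂ) - (x1 t : ℂ)) 0 t := by
      intro t ht
      have h1 : HasDerivAt (fun t : ℝ => X (t : ℂ)) (p t : ℂ) t := (hXd t ht).comp_ofReal
      have h2 : HasDerivAt (fun t : ℝ => (x1 t : ℂ)) (p t : ℂ) t := (hx t ht).ofReal_comp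
      have h3 := h1.sub h2
      rwa [sub_self] at h3
    have h4 := isOpen_Ioo.is_const_of_deriv_eq_zero (f := fun t : ℝ => X (t : ℂ) - (x1 t : ℂ))
      isPreconnected_Ioo (fun t ht => (hd t ht).differentiableAt.differentiableWithinAt)
      (fun t ht => (hd t ht).deriv) hs1 hv
    rw [← h4]
    ring
  -- the inverse of X
  set g : ℂ → ℂ := hX.hasStrictDerivAt.localInverse _ _ _ hdX with hg
  have hga : AnalyticAt ℂ g (X v) := hX.analyticAt_localInverse hdX
  have hgv : g (X v) = v := HasStrictFDerivAt.localInverse_apply_image ..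
  have hgX : ∀ᶠ s in 𝓝 (v : ℂ), g (X s) = s :=
    HasStrictDerivAt.eventually_left_inverse hX.hasStrictDerivAt hdX
  have hXv : X v = (x1 v : ℂ) + c0 := hc0 v hv
  -- rho
  set ρX : ℂ → ℂ := fun w => Wr X Y (g w) / (deriv X (g w)) ^ 3 with hρX
  have hWa : AnalyticAt ℂ (Wr X Y) v :=
    (hX.deriv.mul hY.deriv.deriv).sub (hX.deriv.deriv.mul hY.deriv)
  have hρa : AnalyticAt ℂ ρX (X v) := by
    have h1 : AnalyticAt ℂ (fun w => Wr X Y (g w)) (X v) :=
      AnalyticAt.comp (g := Wr X Y) (f := g) (x := X v) (by rw [hgv]; exact hWa) hga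
    have h2 : AnalyticAt ℂ (fun w => deriv X (g w)) (X v) :=
      AnalyticAt.comp (g := deriv X) (f := g) (x := X v) (by rw [hgv]; exact hX.deriv) hga
    refine h1.div (h2.pow 3) ?_
    rw [hgv]
    exact pow_ne_zero _ hdX
  refine ⟨hdX, hWv, ρX, hρa, ?_, ?_⟩
  · have h1 : ∀ᶠ s in 𝓝 (v : ℂ), deriv X s ≠ 0 := hX.deriv.continuousAt.eventually_ne hdX
    filter_upwards [hgX, h1] with s h2 h3
    rw [hρX]
    simp only
    rw [h2, div_mul_cancel₀ _ (pow_ne_zero _ h3)]
  -- translation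
  have hTRL : StTRL := tTRL tCHG tMON
  set Rt : ℂ → ℂ := fun w => ρX (w + c0) with hRt
  have hmain : Good OUT_kc Rt (x1 v : ℂ) := by
    -- the real inverse
    have hN : ∀ᶠ s in 𝓝 v, s ∈ Ioo α β ∧ g (X (s : ℂ)) = s := by
      filter_upwards [Ioo_mem_nhds hv.1 hv.2,
        (Complex.continuous_ofReal.tendsto v).eventually hgX] with s h1 h2
      exact ⟨h1, h2⟩
    have hstrict : HasStrictDerivAt x1 (p v) v := by
      apply hasStrictDerivAt_of_hasDerivAt_of_continuousAt (f' := p) _ hpc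
      filter_upwards [Ioo_mem_nhds hv.1 hv.2] with s hs1 using hx s hs1
    have hmap := hstrict.map_nhds_eq (hp v hv)
    have hI1 : ∀ᶠ x in 𝓝 (x1 v), ∃ s, (s ∈ Ioo α β ∧ g (X (s : ℂ)) = s) ∧ x1 s = x := by
      rw [← hmap]
      rw [eventually_map]
      filter_upwards [hN] with s hs1
      exact ⟨s, hs1, rfl⟩
    have hcont1 : Tendsto (fun x : ℝ => (x : ℂ) + c0) (𝓝 (x1 v)) (𝓝 (X v)) := by
      rw [hXv]
      exact (Complex.continuous_ofReal.tendsto _).add_const c0
    have hI2 : ∀ᶠ x : ℝ in 𝓝 (x1 v), AnalyticAt ℂ g ((x : ℂ) + c0) :=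
      hcont1.eventually hga.eventually_analyticAt
    obtain ⟨x0, x2, hx02, hsub⟩ := mem_nhds_iff_exists_Ioo_subset.mp (hI1.and hI2)
    set σ : ℝ → ℝ := fun x => (g ((x : ℂ) + c0)).re with hσ
    have hσ1 : ∀ x ∈ Ioo x0 x2, σ x ∈ Ioo α β ∧ x1 (σ x) = x ∧ g ((x : ℂ) + c0) = (σ x : ℂ) := by
      intro x hx1
      obtain ⟨⟨s, ⟨hs1, hs2⟩, hs3⟩, _⟩ := hsub hx1
      have h1 : g ((x : ℂ) + c0) = s := by rw [← hs3, ← hc0 s hs1]; exact hs2
      have h2 : σ x = s := by
        rw [hσ]
        simp only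
        rw [h1, Complex.ofReal_re]
      rw [h2]
      exact ⟨hs1, hs3, h1⟩
    have hσc : ∀ x ∈ Ioo x0 x2, ContinuousAt σ x := by
      intro x hx1
      have h1 : AnalyticAt ℂ g ((x : ℂ) + c0) := (hsub hx1).2
      have h2 : ContinuousAt (fun x : ℝ => g ((x : ℂ) + c0)) x := by
        apply ContinuousAt.comp (g := g) (f := fun x : ℝ => (x : ℂ) + c0) h1.continuousAt
        exact (Complex.continuous_ofReal.continuousAt).add continuousAt_const
      exact Complex.continuous_re.continuousAt.comp h2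
    have hσd : ∀ x ∈ Ioo x0 x2, HasDerivAt σ (p (σ x))⁻¹ x := by
      intro x hx1
      apply HasDerivAt.of_local_left_inverse (f := x1) (hσc x hx1) (hx _ (hσ1 x hx1).1)
        (hp _ (hσ1 x hx1).1)
      filter_upwards [isOpen_Ioo.mem_nhds hx1] with z hz using (hσ1 z hz).2.1
    -- a ball for the function R
    have hRa : AnalyticAt ℂ Rt (x1 v : ℂ) := by
      apply AnalyticAt.comp (g := ρX) (f := fun w : ℂ => w + c0) (x := (x1 v : ℂ))
      · rw [← hXv]; exact hρa
      · exact analyticAt_id.add analyticAt_const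
    obtain ⟨η, hη, hηa⟩ := Metric.eventually_nhds_iff_ball.mp hRa.eventually_analyticAt
    have hx1v : x1 v ∈ Ioo x0 x2 := hx02
    refine OST_ogd hOGD hSGN (fun x => y1 (σ x)) (fun x => m (σ x))
      (fun x => m' (σ x) * (p (σ x))⁻¹) x0 x2 (hx1v.1.trans hx1v.2) ?_ ?_ K U hU hUc ?_ hK ?_ hnc
      Rt (x1 v) η hη hx1v (fun w hw => (hηa w hw).differentiableAt.differentiableWithinAt) ?_
    · intro x hx1
      have h1 := (hσ1 x hx1).1
      constructor
      · have h2 := (hy _ h1).comp x (hσd x hx1)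
        rw [mul_assoc, mul_inv_cancel₀ (hp _ h1), mul_one] at h2
        exact h2
      · exact (hm _ h1).comp x (hσd x hx1)
    · rcases hs with h | h
      · exact Or.inl fun x hx1 => h _ (hσ1 x hx1).1
      · exact Or.inr fun x hx1 => h _ (hσ1 x hx1).1
    · intro x hx1
      have h1 := hfU _ (hσ1 x hx1).1
      rw [(hσ1 x hx1).2.1] at h1
      exact h1
    · intro x hx1
      obtain ⟨ε, hε, h⟩ := hinv _ (hσ1 x hx1).1
      refine ⟨ε, hε, fun δ h1 h2 => ?_⟩
      have h3 := h δ h1 h2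
      rw [(hσ1 x hx1).2.1] at h3
      exact h3
    · intro x _ hx1
      obtain ⟨h1, _, h3⟩ := hσ1 x hx1
      rw [hRt, hρX]
      simp only
      rw [h3, hW _ h1, (hXd _ h1).deriv]
      have h4 : (p (σ x) : ℂ) ≠ 0 := by exact_mod_cast hp _ h1
      push_cast
      field_simp
  have h5 := hTRL OUT_kc Rt ρX (x1 v : ℂ) (-c0) hmain (by
    apply Eventually.of_forall
    intro t
    rw [hRt]
    simp)
  rw [sub_neg_eq_add, ← hXv] at h5
  exact h5

theorem OST_hol {R X Y : ℂ → ℂ} {y η : ℝ} (hR : DifferentiableOn ℂ R (Metric.ball (y : ℂ) η))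
    (hXY : ∀ z ∈ Metric.ball (y : ℂ) η, HasDerivAt X (-(R z * Complex.sin z)) z ∧
      HasDerivAt Y (R z * Complex.cos z) z) {z : ℂ} (hz : z ∈ Metric.ball (y : ℂ) η) :
    AnalyticAt ℂ X z ∧ AnalyticAt ℂ Y z ∧ Wr X Y z = R z ^ 2 ∧ Wr Y X z = -(R z ^ 2) := by
  have ho : IsOpen (Metric.ball (y : ℂ) η) := Metric.isOpen_ball
  have hXa : AnalyticAt ℂ X z := DifferentiableOn.analyticAt (s := Metric.ball (y : ℂ) η)
    (fun w hw => (hXY w hw).1.differentiableAt.differentiableWithinAt) (ho.mem_nhds hz)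
  have hYa : AnalyticAt ℂ Y z := DifferentiableOn.analyticAt (s := Metric.ball (y : ℂ) η)
    (fun w hw => (hXY w hw).2.differentiableAt.differentiableWithinAt) (ho.mem_nhds hz)
  have hRd : HasDerivAt R (deriv R z) z := (hR.differentiableAt (ho.mem_nhds hz)).hasDerivAt
  have h1 : deriv X z = -(R z * Complex.sin z) := (hXY z hz).1.deriv
  have h2 : deriv Y z = R z * Complex.cos z := (hXY z hz).2.deriv
  have e1 : deriv X =ᶠ[𝓝 z] fun w => -(R w * Complex.sin w) := by
    filter_upwards [ho.mem_nhds hz] with w hw using (hXY w hw).1.deriv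
  have e2 : deriv Y =ᶠ[𝓝 z] fun w => R w * Complex.cos w := by
    filter_upwards [ho.mem_nhds hz] with w hw using (hXY w hw).2.deriv
  have h3 : deriv (deriv X) z = -(deriv R z * Complex.sin z + R z * Complex.cos z) := by
    rw [e1.deriv_eq]
    exact ((hRd.mul (Complex.hasDerivAt_sin z)).neg).deriv
  have h4 : deriv (deriv Y) z = deriv R z * Complex.cos z + R z * (-Complex.sin z) := by
    rw [e2.deriv_eq]
    exact (hRd.mul (Complex.hasDerivAt_cos z)).deriv
  have h5 := Complex.sin_sq_add_cos_sq z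
  refine ⟨hXa, hYa, ?_, ?_⟩
  · unfold Wr
    rw [h1, h2, h3, h4]
    linear_combination (R z ^ 2) * h5
  · unfold Wr
    rw [h1, h2, h3, h4]
    linear_combination -(R z ^ 2) * h5

/-- OST -/
theorem tOST (hOGD : StOGD) (hSGN : StSGN) : StOST := by
  intro γ ρ hγ K U hO R X Y y η hη hR hRρ hXY v hv
  have ho : IsOpen (Metric.ball (y : ℂ) η) := Metric.isOpen_ball
  obtain ⟨hXa, hYa, -, -⟩ := OST_hol hR hXY hv
  have hball : ∀ᶠ s : ℝ in 𝓝 v, (s : ℂ) ∈ Metric.ball (y : ℂ) η :=
    (Complex.continuous_ofReal.tendsto v).eventually (ho.mem_nhds hv)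
  have hre : ∀ s : ℝ, HasDerivAt (fun s => (γ s).re) (-(ρ s * Real.sin s)) s := by
    intro s
    have h1 := Complex.reCLM.hasFDerivAt.comp_hasDerivAt s (hγ.der s)
    have h2 : Complex.reCLM ((ρ s : ℂ) * I * cexp (s * I)) = -(ρ s * Real.sin s) := by
      rw [Complex.reCLM_apply, Complex.exp_mul_I, ← Complex.ofReal_cos, ← Complex.ofReal_sin]
      simp
      exact Or.inl (Complex.sin_ofReal_re s)
    rw [h2] at h1
    exact h1
  have him : ∀ s : ℝ, HasDerivAt (fun s => (γ s).im) (ρ s * Real.cos s) s := by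
    intro s
    have h1 := Complex.imCLM.hasFDerivAt.comp_hasDerivAt s (hγ.der s)
    have h2 : Complex.imCLM ((ρ s : ℂ) * I * cexp (s * I)) = ρ s * Real.cos s := by
      rw [Complex.imCLM_apply, Complex.exp_mul_I, ← Complex.ofReal_cos, ← Complex.ofReal_sin]
      simp
      exact Or.inl (Complex.cos_ofReal_re s)
    rw [h2] at h1
    exact h1
  constructor
  · intro hsin
    have hsg : ∀ᶠ s : ℝ in 𝓝 v, 0 < Real.sin s * Real.sin v := by
      have h1 : ContinuousAt (fun s : ℝ => Real.sin s * Real.sin v) v := by fun_prop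
      exact h1.eventually (lt_mem_nhds (mul_self_pos.mpr hsin))
    obtain ⟨α, β, hvI, hsub⟩ := mem_nhds_iff_exists_Ioo_subset.mp (hball.and hsg)
    have hne : ∀ s ∈ Ioo α β, Real.sin s ≠ 0 := by
      intro s hs h0
      have := (hsub hs).2
      rw [h0, zero_mul] at this
      exact lt_irrefl _ this
    have hRs : ∀ s ∈ Ioo α β, R (s : ℂ) = ρ s := fun s hs => hRρ s (hsub hs).1
    refine OST_gl hOGD hSGN X Y v α β hvI (fun s => (γ s).re) (fun s => (γ s).im)
      (fun s => -(ρ s * Real.sin s)) (fun s => -(Real.cos s / Real.sin s))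
      (fun s => 1 / Real.sin s ^ 2) (fun s _ => hre s) ?_ ?_ ?_ ?_ ?_ K U hO.op hO.pc
      (fun s _ => hO.mem s) hO.an ?_ hO.nc hXa hYa ?_ ?_
    · intro s hs
      have h1 := him s
      have h2 : -(Real.cos s / Real.sin s) * -(ρ s * Real.sin s) = ρ s * Real.cos s := by
        have := hne s hs
        field_simp
      rw [h2]
      exact h1
    · intro s hs
      have h1 := ((Real.hasDerivAt_cos s).div (Real.hasDerivAt_sin s) (hne s hs)).neg
      have h2 : -((-Real.sin s * Real.sin s - Real.cos s * Real.cos s) / Real.sin s ^ 2) =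
          1 / Real.sin s ^ 2 := by
        have h3 := Real.sin_sq_add_cos_sq s
        rw [← neg_div]
        congr 1
        linear_combination h3
      rw [h2] at h1
      exact h1
    · exact ((hγ.cont.continuousAt).mul Real.continuous_sin.continuousAt).neg
    · intro s hs
      exact neg_ne_zero.mpr (mul_ne_zero (hγ.pos s).ne' (hne s hs))
    · rcases lt_or_gt_of_ne hsin with h | h
      · left
        intro s hs
        have h1 : Real.sin s < 0 := by
          by_contra h2
          have := (hsub hs).2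
          nlinarith [mul_nonneg (not_lt.mp h2) (neg_nonneg.mpr h.le)]
        have h3 : 0 < -(ρ s * Real.sin s) := by
          have := mul_neg_of_pos_of_neg (hγ.pos s) h1
          linarith
        have h4 := hne s hs
        positivity
      · right
        intro s hs
        have h1 : 0 < Real.sin s := by
          by_contra h2
          have := (hsub hs).2
          nlinarith [mul_nonneg (neg_nonneg.mpr (not_lt.mp h2)) h.le]
        have h3 : -(ρ s * Real.sin s) < 0 := by
          have := mul_pos (hγ.pos s) h1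
          linarith
        exact mul_neg_of_pos_of_neg (by positivity) (inv_lt_zero.mpr h3)
    · intro s hs
      obtain ⟨ε, hε, h⟩ := hO.inv s
      have h4 := hne s hs
      refine ⟨ε * |Real.sin s|, mul_pos hε (abs_pos.mpr h4), fun δ h1 h2 => ?_⟩
      have h5 := h (δ / |Real.sin s|) (div_pos h1 (abs_pos.mpr h4))
        (by rw [div_lt_iff₀ (abs_pos.mpr h4)]; exact h2)
      rcases lt_or_gt_of_ne h4 with h6 | h6
      · rw [abs_of_neg h6] at h5
        have e1 : δ / -Real.sin s * Real.sin s = -δ := by field_simp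
        have e2 : δ / -Real.sin s * Real.cos s = -(Real.cos s / Real.sin s) * δ := by field_simp
        rw [e1, e2] at h5
        simpa [sub_eq_add_neg] using h5
      · rw [abs_of_pos h6] at h5
        have e1 : δ / Real.sin s * Real.sin s = δ := by field_simp
        have e2 : δ / Real.sin s * Real.cos s = -(-(Real.cos s / Real.sin s) * δ) := by field_simp
        rw [e1, e2] at h5
        simpa [sub_eq_add_neg] using h5.symm
    · intro s hs
      have h1 := (hXY s (hsub hs).1).1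
      rw [hRs s hs] at h1
      have h2 : -((ρ s : ℂ) * Complex.sin s) = ((-(ρ s * Real.sin s) : ℝ) : ℂ) := by push_cast; ring
      rw [h2] at h1
      exact h1
    · intro s hs
      rw [(OST_hol hR hXY (hsub hs).1).2.2.1, hRs s hs]
      have h4 : (Real.sin s : ℂ) ≠ 0 := by exact_mod_cast hne s hs
      push_cast
      rw [Complex.ofReal_sin] at h4
      field_simp
  · intro hcos
    have hsg : ∀ᶠ s : ℝ in 𝓝 v, 0 < Real.cos s * Real.cos v := by
      have h1 : ContinuousAt (fun s : ℝ => Real.cos s * Real.cos v) v := by fun_prop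
      exact h1.eventually (lt_mem_nhds (mul_self_pos.mpr hcos))
    obtain ⟨α, β, hvI, hsub⟩ := mem_nhds_iff_exists_Ioo_subset.mp (hball.and hsg)
    have hne : ∀ s ∈ Ioo α β, Real.cos s ≠ 0 := by
      intro s hs h0
      have := (hsub hs).2
      rw [h0, zero_mul] at this
      exact lt_irrefl _ this
    have hRs : ∀ s ∈ Ioo α β, R (s : ℂ) = ρ s := fun s hs => hRρ s (hsub hs).1
    set e : ℝ × ℝ ≃ₜ ℝ × ℝ := Homeomorph.prodComm ℝ ℝ with he
    have hee : ∀ z : ℝ × ℝ, e z = (z.2, z.1) := fun z => rfl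
    refine OST_gl hOGD hSGN Y X v α β hvI (fun s => (γ s).im) (fun s => (γ s).re)
      (fun s => ρ s * Real.cos s) (fun s => -(Real.sin s / Real.cos s))
      (fun s => -(1 / Real.cos s ^ 2)) (fun s _ => him s) ?_ ?_ ?_ ?_ ?_ (fun a b => K b a)
      (e ⁻¹' U) (hO.op.preimage e.continuous) (e.isPreconnected_preimage.mpr hO.pc)
      (fun s _ => by rw [mem_preimage, hee]; exact hO.mem s) ?_ ?_ ?_ hYa hXa ?_ ?_
    · intro s hs
      have h1 := hre s
      have h2 : -(Real.sin s / Real.cos s) * (ρ s * Real.cos s) = -(ρ s * Real.sin s) := by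
        have := hne s hs
        field_simp
      rw [h2]
      exact h1
    · intro s hs
      have h1 := ((Real.hasDerivAt_sin s).div (Real.hasDerivAt_cos s) (hne s hs)).neg
      have h2 : -((Real.cos s * Real.cos s - Real.sin s * -Real.sin s) / Real.cos s ^ 2) =
          -(1 / Real.cos s ^ 2) := by
        have h3 := Real.sin_sq_add_cos_sq s
        congr 2
        linear_combination h3
      rw [h2] at h1
      exact h1
    · exact (hγ.cont.continuousAt).mul Real.continuous_cos.continuousAt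
    · intro s hs
      exact mul_ne_zero (hγ.pos s).ne' (hne s hs)
    · rcases lt_or_gt_of_ne hcos with h | h
      · left
        intro s hs
        have h1 : Real.cos s < 0 := by
          by_contra h2
          have := (hsub hs).2
          nlinarith [mul_nonneg (not_lt.mp h2) (neg_nonneg.mpr h.le)]
        have h3 : ρ s * Real.cos s < 0 := mul_neg_of_pos_of_neg (hγ.pos s) h1
        have h4 := hne s hs
        exact mul_pos_of_neg_of_neg (neg_lt_zero.mpr (by positivity)) (inv_lt_zero.mpr h3)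
      · right
        intro s hs
        have h1 : 0 < Real.cos s := by
          by_contra h2
          have := (hsub hs).2
          nlinarith [mul_nonneg (neg_nonneg.mpr (not_lt.mp h2)) h.le]
        have h3 : 0 < ρ s * Real.cos s := mul_pos (hγ.pos s) h1
        exact mul_neg_of_neg_of_pos (neg_lt_zero.mpr (by positivity)) (inv_pos.mpr h3)
    · intro z hz
      rw [mem_preimage, hee] at hz
      have h2 : AnalyticAt ℝ (fun p : ℝ × ℝ => (p.2, p.1)) z := analyticAt_snd.prod analyticAt_fst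
      have h3 : AnalyticAt ℝ (Function.uncurry K) ((fun p : ℝ × ℝ => (p.2, p.1)) z) := hO.an _ hz
      exact AnalyticAt.comp (g := Function.uncurry K)
        (f := fun p : ℝ × ℝ => (p.2, p.1)) (x := z) h3 h2
    · intro s hs
      obtain ⟨ε, hε, h⟩ := hO.inv s
      have h4 := hne s hs
      refine ⟨ε * |Real.cos s|, mul_pos hε (abs_pos.mpr h4), fun δ h1 h2 => ?_⟩
      have h5 := h (δ / |Real.cos s|) (div_pos h1 (abs_pos.mpr h4))
        (by rw [div_lt_iff₀ (abs_pos.mpr h4)]; exact h2)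
      rcases lt_or_gt_of_ne h4 with h6 | h6
      · rw [abs_of_neg h6] at h5
        have e1 : δ / -Real.cos s * Real.cos s = -δ := by field_simp
        have e2 : δ / -Real.cos s * Real.sin s = -(Real.sin s / Real.cos s) * δ := by field_simp
        rw [e1, e2] at h5
        simpa [sub_eq_add_neg] using h5.symm
      · rw [abs_of_pos h6] at h5
        have e1 : δ / Real.cos s * Real.cos s = δ := by field_simp
        have e2 : δ / Real.cos s * Real.sin s = -(-(Real.sin s / Real.cos s) * δ) := by field_simp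
        rw [e1, e2] at h5
        simpa [sub_eq_add_neg] using h5
    · rintro ⟨c, hc⟩
      apply hO.nc
      refine ⟨c, fun z hz => ?_⟩
      exact hc (z.2, z.1) (by rw [mem_preimage, hee]; simpa using hz)
    · intro s hs
      have h1 := (hXY s (hsub hs).1).2
      rw [hRs s hs] at h1
      have h2 : (ρ s : ℂ) * Complex.cos s = ((ρ s * Real.cos s : ℝ) : ℂ) := by push_cast; ring
      rw [h2] at h1
      exact h1
    · intro s hs
      rw [(OST_hol hR hXY (hsub hs).1).2.2.2, hRs s hs]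
      have h4 : (Real.cos s : ℂ) ≠ 0 := by exact_mod_cast hne s hs
      push_cast
      rw [Complex.ofReal_cos] at h4
      field_simp

end H719FX
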