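import Pool.Agent.H719R4.FX.Out
import Pool.Agent.H738R3.CZ.TRL
import Pool.Agent.H738R3.CZ.CHG
import Pool.Agent.H738R3.CZ.MON

/-! OTP: invariance of good points under reparametrisation and translation. -/

open Complex Set Filter Topology

namespace H719FX

open H738CZ

/-- an analytic function with derivative zero near a point is constant near the point -/
theorem OTP_const (f : ℂ → ℂ) (t : ℂ) (hf : AnalyticAt ℂ f t) (h : ∀ᶠ s in 𝓝 t, deriv f s = 0) :
    ∀ᶠ s in 𝓝 t, f s = f t := by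
  have h1 : ∀ᶠ s in 𝓝 t, DifferentiableAt ℂ f s :=
    hf.eventually_analyticAt.mono fun s hs => hs.differentiableAt
  obtain ⟨ε, hε, hb⟩ := Metric.eventually_nhds_iff_ball.1 (h.and h1)
  filter_upwards [Metric.ball_mem_nhds t hε] with s hs
  refine (Metric.isOpen_ball.is_const_of_deriv_eq_zero (convex_ball t ε).isPreconnected
    (fun y hy => (hb y hy).2.differentiableWithinAt) (fun y hy => (hb y hy).1) hs
    (Metric.mem_ball_self hε))

/-- second derivatives of a composition -/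
theorem OTP_second (X X1 Φ : ℂ → ℂ) (t : ℂ) (hΦ : AnalyticAt ℂ Φ t)
    (hX1 : AnalyticAt ℂ X1 (Φ t)) (h : ∀ᶠ s in 𝓝 t, deriv X s = deriv X1 (Φ s) * deriv Φ s) :
    ∀ᶠ s in 𝓝 t, deriv (deriv X) s = deriv (deriv X1) (Φ s) * deriv Φ s ^ 2 +
      deriv X1 (Φ s) * deriv (deriv Φ) s := by
  have h1 : ∀ᶠ s in 𝓝 t, AnalyticAt ℂ Φ s := hΦ.eventually_analyticAt
  have h2 : ∀ᶠ s in 𝓝 t, AnalyticAt ℂ X1 (Φ s) :=
    hΦ.continuousAt.eventually hX1.eventually_analyticAt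
  filter_upwards [h.eventually_nhds, h1, h2] with s hs hs1 hs2
  rw [EventuallyEq.deriv_eq hs]
  have e1 : HasDerivAt (fun s => deriv X1 (Φ s)) (deriv (deriv X1) (Φ s) * deriv Φ s) s :=
    (hs2.deriv.differentiableAt.hasDerivAt).comp s hs1.differentiableAt.hasDerivAt
  have e2 : HasDerivAt (deriv Φ) (deriv (deriv Φ) s) s :=
    hs1.deriv.differentiableAt.hasDerivAt
  have e3 := (e1.mul e2).deriv
  have e4 : deriv (fun s => deriv X1 (Φ s) * deriv Φ s) s =
      deriv (deriv X1) (Φ s) * deriv Φ s * deriv Φ s + deriv X1 (Φ s) * deriv (deriv Φ) s := e3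
  rw [e4]
  ring

theorem tOTP : StOTP := by
  intro X Y X1 Y1 Φ t hX hY hΦ hΦ0 hX1 hY1 hev hG
  obtain ⟨g1, g2, ρ, g3, g4, g5⟩ := hG
  have hXe : ∀ᶠ s in 𝓝 t, deriv X s = deriv X1 (Φ s) * deriv Φ s := hev.mono fun s h => h.1
  have hYe : ∀ᶠ s in 𝓝 t, deriv Y s = deriv Y1 (Φ s) * deriv Φ s := hev.mono fun s h => h.2
  -- the Wronskian
  have hWr : ∀ᶠ s in 𝓝 t, Wr X Y s = Wr X1 Y1 (Φ s) * deriv Φ s ^ 3 := by
    filter_upwards [hXe, hYe, OTP_second X X1 Φ t hΦ hX1 hXe, OTP_second Y Y1 Φ t hΦ hY1 hYe]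
      with s a1 a2 a3 a4
    unfold Wr
    rw [a1, a2, a3, a4]
    ring
  -- the difference of `X` and `X1 ∘ Φ` is constant
  have hcomp : AnalyticAt ℂ (fun s => X1 (Φ s)) t := hX1.comp hΦ
  have hconst : ∀ᶠ s in 𝓝 t, X s - X1 (Φ s) = X t - X1 (Φ t) := by
    refine OTP_const (fun s => X s - X1 (Φ s)) t (hX.sub hcomp) ?_
    have h1 : ∀ᶠ s in 𝓝 t, AnalyticAt ℂ Φ s := hΦ.eventually_analyticAt
    have h2 : ∀ᶠ s in 𝓝 t, AnalyticAt ℂ X1 (Φ s) :=
      hΦ.continuousAt.eventually hX1.eventually_analyticAt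
    filter_upwards [hXe, h1, h2, hX.eventually_analyticAt] with s a1 a2 a3 a4
    have e1 : HasDerivAt (fun s => X1 (Φ s)) (deriv X1 (Φ s) * deriv Φ s) s :=
      (a3.differentiableAt.hasDerivAt).comp s a2.differentiableAt.hasDerivAt
    have e2 := (a4.differentiableAt.hasDerivAt.sub e1).deriv
    have e3 : deriv (fun s => X s - X1 (Φ s)) s = deriv X s - deriv X1 (Φ s) * deriv Φ s := e2
    rw [e3, a1, sub_self]
  have hXt := hXe.self_of_nhds
  have hWt := hWr.self_of_nhds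
  refine ⟨?_, ?_, fun x => ρ (x - (X t - X1 (Φ t))), ?_, ?_, ?_⟩
  · rw [hXt]
    exact mul_ne_zero g1 hΦ0
  · rw [hWt]
    exact mul_ne_zero g2 (pow_ne_zero _ hΦ0)
  · refine AnalyticAt.fun_comp (g := ρ) (f := fun x => x - (X t - X1 (Φ t))) ?_ (by fun_prop)
    have : X t - (X t - X1 (Φ t)) = X1 (Φ t) := by ring
    simp only [this]
    exact g3
  · filter_upwards [hXe, hWr, hconst, hΦ.continuousAt.eventually g4] with s a1 a2 a3 a4
    have e : X s - (X t - X1 (Φ t)) = X1 (Φ s) := by rw [← a3]; ring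
    rw [e, a2, ← a4, a1]
    ring
  · have h := tTRL tCHG tMON OUT_kc ρ (fun x => ρ (x - (X t - X1 (Φ t)))) (X1 (Φ t))
      (-(X t - X1 (Φ t))) g5 (Eventually.of_forall fun x => by simp only [sub_eq_add_neg])
    have e : X1 (Φ t) - -(X t - X1 (Φ t)) = X t := by ring
    rw [e] at h
    exact h

end H719FX
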