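import Pool.Agent.H719R4.FX.Out

open Complex Set Filter Topology

namespace H719FX

open H738CZ

theorem tOTX (hOFO : StOFO) (hTRG : StTRG) (hTRD : StTRD) : StOTX := by
  intro γ ρ hOv K U hOI N c θ hθ hθs hγ
  have hZ : ∀ t : ℝ, tp N c t = γ (θ t) := by
    intro t
    rw [hγ]
    rfl
  have hW : ∀ t : ℝ, tp N (cjc c) t = (starRingEnd ℂ) (γ (θ t)) := by
    intro t
    rw [← (hTRD N c).2.2, Complex.conj_ofReal, hZ]
  have hdZ : Differentiable ℂ (tp N c) := (hTRD N c).1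
  have hdW : Differentiable ℂ (tp N (cjc c)) := (hTRD N (cjc c)).1
  -- the curve is not constant
  obtain ⟨s1, t1, hst⟩ : ∃ s1 t1 : ℝ, γ (θ s1) ≠ γ (θ t1) := by
    by_contra hcon
    push Not at hcon
    have h1 : γ = fun _ => γ 0 := by
      funext s
      obtain ⟨x, hx⟩ := hθs s
      obtain ⟨y, hy⟩ := hθs 0
      have := hcon x y
      rw [hx, hy] at this
      exact this
    have h2 := hOv.der 0
    have h3 : HasDerivAt γ 0 0 := by
      rw [h1]
      exact hasDerivAt_const (0 : ℝ) (γ 0)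
    have h4 := h2.unique h3
    have h5 : (ρ 0 : ℂ) ≠ 0 := by exact_mod_cast (hOv.pos 0).ne'
    exact (mul_ne_zero (mul_ne_zero h5 I_ne_zero) (Complex.exp_ne_zero _)) h4
  refine hTRG γ ρ hOv N c θ hθs hγ ?_
  intro t0
  obtain ⟨r, hr⟩ : ∃ r : ℝ, r = |s1| + |t1| + ‖t0‖ + 1 := ⟨_, rfl⟩
  have a1 := abs_nonneg s1
  have a2 := abs_nonneg t1
  have a3 := norm_nonneg t0
  have hmem : ∀ x : ℝ, |x| < r → x ∈ Ioo (-r) r := by
    intro x hx
    exact abs_lt.mp hx
  refine hOFO γ ρ hOv K U hOI 0 (fun _ => 0) (fun _ => r) (fun _ => tp N c)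
    (fun _ => tp N (cjc c)) ⟨fun i _ => hdZ.differentiableOn, fun i _ => hdW.differentiableOn,
      fun i hi => absurd hi (Nat.not_lt_zero i), fun i hi => absurd hi (Nat.not_lt_zero i),
      fun i hi => absurd hi (Nat.not_lt_zero i)⟩ θ (-r) r hθ.continuousOn ?_ ?_ t0 ?_
  · intro t ht
    refine ⟨?_, hZ t, hW t⟩
    rw [mem_ball_zero_iff, Complex.norm_real, Real.norm_eq_abs]
    exact abs_lt.mpr ht
  · exact ⟨s1, hmem s1 (by linarith), t1, hmem t1 (by linarith), hst⟩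
  · rw [mem_ball_zero_iff]
    linarith

end H719FX
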