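import Pool.Agent.H719R4.FX.Out

/-! Task RLI (helper196): linear invariance of regular places. -/

open Complex Set Filter Topology

namespace H719FX

open H738CZ

theorem RLI_lin (c : ℂ) {X Y : ℂ → ℂ} {t : ℂ} (hX : AnalyticAt ℂ X t) (hY : AnalyticAt ℂ Y t) :
    deriv (fun s => X s + c * Y s) t = deriv X t + c * deriv Y t ∧
    deriv (deriv (fun s => X s + c * Y s)) t = deriv (deriv X) t + c * deriv (deriv Y) t := by
  have h1 : ∀ᶠ s in 𝓝 t, deriv (fun s => X s + c * Y s) s = deriv X s + c * deriv Y s := by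
    filter_upwards [hX.eventually_analyticAt, hY.eventually_analyticAt] with s h2 h3
    rw [deriv_fun_add h2.differentiableAt (h3.differentiableAt.const_mul c),
      deriv_const_mul c h3.differentiableAt]
  refine ⟨h1.self_of_nhds, ?_⟩
  have h2 : deriv (fun s => X s + c * Y s) =ᶠ[𝓝 t] fun s => deriv X s + c * deriv Y s := h1
  rw [h2.deriv_eq, deriv_fun_add hX.deriv.differentiableAt
    (hY.deriv.differentiableAt.const_mul c), deriv_const_mul c hY.deriv.differentiableAt]

theorem tRLI : StRLI := by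
  intro X Y Z W t0 hReg hev
  obtain ⟨h, X', Y', hh, h0, hX', hY', hX, hY, hWr⟩ := hReg
  refine ⟨h, fun s => X' s + I * Y' s, fun s => X' s + (-I) * Y' s, hh, h0, ?_, ?_, ?_, ?_, ?_⟩
  · exact hX'.add (analyticAt_const.mul hY')
  · exact hX'.add (analyticAt_const.mul hY')
  · filter_upwards [hev, hX, hY] with t h1 h2 h3
    rw [h1.1, h2, h3]
  · filter_upwards [hev, hX, hY] with t h1 h2 h3
    rw [h1.2, h2, h3]
    ring
  · obtain ⟨a1, a2⟩ := RLI_lin I hX' hY'
    obtain ⟨b1, b2⟩ := RLI_lin (-I) hX' hY'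
    unfold Wr at hWr ⊢
    rw [a1, a2, b1, b2]
    have e : (deriv X' 0 + I * deriv Y' 0) * (deriv (deriv X') 0 + -I * deriv (deriv Y') 0) -
        (deriv (deriv X') 0 + I * deriv (deriv Y') 0) * (deriv X' 0 + -I * deriv Y' 0) =
        (-2 * I) * (deriv X' 0 * deriv (deriv Y') 0 - deriv (deriv X') 0 * deriv Y' 0) := by ring
    rw [e]
    exact mul_ne_zero (mul_ne_zero (by norm_num) I_ne_zero) hWr

end H719FX
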