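import Mathlib
import Pool.Agent.H719R4.FX.Cov

/-!
# TMB: trigonometric polynomials with bounded affine curvature

(by helper804 for the project of helper719)
-/

open Complex Set Filter Topology

namespace H719FX

open H738CZ

open Polynomial in
/-- `d/ds` on `x^(-a) F(x)`, `x = e^(is)` -/
noncomputable def TMB_d (a : ℂ) (F : ℂ[X]) : ℂ[X] :=
  Polynomial.C I * (Polynomial.X * derivative F - Polynomial.C a * F)

/-- `x^(-a) F(x)`, `x = e^(is)` -/
noncomputable def TMB_L (a : ℂ) (F : Polynomial ℂ) (s : ℂ) : ℂ :=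
  cexp (-(a * s * I)) * F.eval (cexp (s * I))

theorem TMB_L_hasDeriv (a : ℂ) (F : Polynomial ℂ) (s : ℂ) :
    HasDerivAt (TMB_L a F) (TMB_L a (TMB_d a F) s) s := by
  have h1 : HasDerivAt (fun s : ℂ => cexp (s * I)) (cexp (s * I) * (1 * I)) s :=
    ((hasDerivAt_id s).mul_const I).cexp
  have h2 : HasDerivAt (fun s : ℂ => F.eval (cexp (s * I)))
      (F.derivative.eval (cexp (s * I)) * (cexp (s * I) * (1 * I))) s :=
    HasDerivAt.comp s (F.hasDerivAt _) h1
  have h3 : HasDerivAt (fun s : ℂ => cexp (-(a * s * I)))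
      (cexp (-(a * s * I)) * (-(a * 1 * I))) s :=
    ((((hasDerivAt_id s).const_mul a).mul_const I).neg).cexp
  refine HasDerivAt.congr_deriv (h3.mul h2) ?_
  unfold TMB_L TMB_d
  simp only [Polynomial.eval_mul, Polynomial.eval_sub, Polynomial.eval_C, Polynomial.eval_X]
  ring

theorem TMB_L_deriv (a : ℂ) (F : Polynomial ℂ) : deriv (TMB_L a F) = TMB_L a (TMB_d a F) :=
  funext fun s => (TMB_L_hasDeriv a F s).deriv

theorem TMB_L_mul (a b : ℂ) (F G : Polynomial ℂ) (s : ℂ) :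
    TMB_L a F s * TMB_L b G s = TMB_L (a + b) (F * G) s := by
  unfold TMB_L
  rw [Polynomial.eval_mul, show -((a + b) * s * I) = -(a * s * I) + -(b * s * I) by ring,
    Complex.exp_add]
  ring

theorem TMB_L_sub (a : ℂ) (F G : Polynomial ℂ) (s : ℂ) :
    TMB_L a F s - TMB_L a G s = TMB_L a (F - G) s := by
  unfold TMB_L
  rw [Polynomial.eval_sub]
  ring

theorem TMB_L_C (a c : ℂ) (F : Polynomial ℂ) (s : ℂ) :
    c * TMB_L a F s = TMB_L a (Polynomial.C c * F) s := by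
  unfold TMB_L
  rw [Polynomial.eval_mul, Polynomial.eval_C]
  ring

theorem TMB_L_zero (a : ℂ) (s : ℂ) : TMB_L a 0 s = 0 := by
  unfold TMB_L
  rw [Polynomial.eval_zero, mul_zero]

/-- the polynomial of a trigonometric polynomial -/
noncomputable def TMB_F (N : ℕ) (c : ℤ → ℂ) : Polynomial ℂ :=
  ∑ k ∈ Finset.Icc (-(N : ℤ)) N, Polynomial.C (c k) * Polynomial.X ^ (k + N).toNat

theorem TMB_tp (N : ℕ) (c : ℤ → ℂ) : tp N c = TMB_L N (TMB_F N c) := by
  funext s
  unfold tp TMB_L TMB_F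
  rw [Polynomial.eval_finsetSum, Finset.mul_sum]
  refine Finset.sum_congr rfl fun k hk => ?_
  rw [Finset.mem_Icc] at hk
  have h1 : (((k + N).toNat : ℕ) : ℂ) = (k : ℂ) + N := by
    have h2 : (((k + N).toNat : ℕ) : ℤ) = k + N := Int.toNat_of_nonneg (by omega)
    calc (((k + N).toNat : ℕ) : ℂ) = ((((k + N).toNat : ℕ) : ℤ) : ℂ) := by push_cast; rfl
      _ = _ := by rw [h2]; push_cast; rfl
  rw [Polynomial.eval_mul, Polynomial.eval_C, Polynomial.eval_pow, Polynomial.eval_X,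
    ← Complex.exp_nat_mul, h1]
  have h3 : (k : ℂ) * s * I = -(N * s * I) + (k + N) * (s * I) := by ring
  rw [h3, Complex.exp_add]
  ring

/-- the polynomial of `Wr` -/
noncomputable def TMB_P (a : ℂ) (F G : Polynomial ℂ) : Polynomial ℂ :=
  F * TMB_d a G - TMB_d a F * G

/-- the polynomial of `Mi` -/
noncomputable def TMB_Q (a : ℂ) (F G : Polynomial ℂ) : Polynomial ℂ :=
  Polynomial.C (5 / 9) * (TMB_d (a + a) (TMB_P a F G) * TMB_d (a + a) (TMB_P a F G))
    - Polynomial.C (1 / 3) * (TMB_d (a + a) (TMB_d (a + a) (TMB_P a F G)) * TMB_P a F G)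
    - TMB_P a (TMB_d a F) (TMB_d a G) * TMB_P a F G

theorem TMB_Wr (a : ℂ) (F G : Polynomial ℂ) :
    Wr (TMB_L a F) (TMB_L a G) = TMB_L (a + a) (TMB_P a (TMB_d a F) (TMB_d a G)) := by
  funext s
  unfold Wr TMB_P
  rw [TMB_L_deriv, TMB_L_deriv, TMB_L_deriv, TMB_L_deriv, TMB_L_mul, TMB_L_mul, TMB_L_sub]

theorem TMB_Mi (a : ℂ) (F G : Polynomial ℂ) :
    Mi (TMB_L a F) (TMB_L a G)
      = TMB_L (a + a + (a + a)) (TMB_Q a (TMB_d a F) (TMB_d a G)) := by
  funext s
  unfold Mi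
  rw [TMB_Wr, TMB_L_deriv, TMB_L_deriv, TMB_L_deriv, TMB_L_deriv, TMB_L_deriv, TMB_L_deriv,
    TMB_L_deriv, TMB_L_deriv, sq, mul_assoc (1 / 3 : ℂ), TMB_L_mul, TMB_L_mul, TMB_L_mul,
    TMB_L_mul, TMB_L_sub, TMB_L_mul, TMB_L_C, TMB_L_C, TMB_L_sub, TMB_L_sub]
  rfl

/-! ## Degrees -/

theorem TMB_d_coeff (a : ℂ) (F : Polynomial ℂ) (n : ℕ) :
    (TMB_d a F).coeff n = I * (n - a) * F.coeff n := by
  unfold TMB_d
  rw [Polynomial.coeff_C_mul, Polynomial.coeff_sub, Polynomial.coeff_C_mul]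
  cases n with
  | zero =>
    rw [Polynomial.coeff_X_mul_zero]
    push_cast
    ring
  | succ m =>
    rw [Polynomial.coeff_X_mul, Polynomial.coeff_derivative]
    push_cast
    ring

theorem TMB_d_lin (a k : ℂ) (F G : Polynomial ℂ) :
    TMB_d a (G - Polynomial.C k * F) = TMB_d a G - Polynomial.C k * TMB_d a F := by
  unfold TMB_d
  rw [Polynomial.derivative_sub, Polynomial.derivative_C_mul]
  ring

theorem TMB_d_zero (a : ℂ) : TMB_d a 0 = 0 := by
  unfold TMB_d
  simp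

theorem TMB_sub_deg {p q : Polynomial ℂ} {n : ℕ} (hp : p.natDegree ≤ n) (hq : q.natDegree ≤ n) :
    (p - q).natDegree ≤ n :=
  (Polynomial.natDegree_sub_le_of_le hp hq).trans (max_le le_rfl le_rfl)

theorem TMB_d_deg (a : ℂ) (F : Polynomial ℂ) : (TMB_d a F).natDegree ≤ F.natDegree := by
  rw [Polynomial.natDegree_le_iff_coeff_eq_zero]
  intro n hn
  rw [TMB_d_coeff, Polynomial.coeff_eq_zero_of_natDegree_lt hn, mul_zero]

theorem TMB_d_dvd (a : ℂ) {F : Polynomial ℂ} {n : ℕ} (h : Polynomial.X ^ n ∣ F) :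
    Polynomial.X ^ n ∣ TMB_d a F := by
  rw [Polynomial.X_pow_dvd_iff] at h ⊢
  intro d hd
  rw [TMB_d_coeff, h d hd, mul_zero]

theorem TMB_P_lin (a k : ℂ) (F G : Polynomial ℂ) :
    TMB_P a F (G - Polynomial.C k * F) = TMB_P a F G := by
  unfold TMB_P
  rw [TMB_d_lin]
  ring

theorem TMB_P_swap (a : ℂ) (F G : Polynomial ℂ) : TMB_P a G F = - TMB_P a F G := by
  unfold TMB_P
  ring

theorem TMB_top0 (a : ℂ) (F G : Polynomial ℂ) (hG : G ≠ 0) (h : G.natDegree < F.natDegree) :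
    (TMB_P a (TMB_d a F) (TMB_d a G)).natDegree ≤ (TMB_P a F G).natDegree := by
  have hF : F ≠ 0 := by
    rintro rfl
    simp at h
  have h1 : (TMB_P a F G).coeff (F.natDegree + G.natDegree) ≠ 0 := by
    unfold TMB_P
    rw [Polynomial.coeff_sub, Polynomial.coeff_mul_add_eq_of_natDegree_le le_rfl (TMB_d_deg a G),
      Polynomial.coeff_mul_add_eq_of_natDegree_le (TMB_d_deg a F) le_rfl, TMB_d_coeff, TMB_d_coeff]
    have h2 : F.coeff F.natDegree ≠ 0 := by
      rw [Polynomial.coeff_natDegree]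
      exact Polynomial.leadingCoeff_ne_zero.2 hF
    have h3 : G.coeff G.natDegree ≠ 0 := by
      rw [Polynomial.coeff_natDegree]
      exact Polynomial.leadingCoeff_ne_zero.2 hG
    have h4 : (G.natDegree : ℂ) - F.natDegree ≠ 0 := by
      rw [sub_ne_zero]
      exact_mod_cast h.ne
    have h5 : F.coeff F.natDegree * (I * (G.natDegree - a) * G.coeff G.natDegree)
        - I * (F.natDegree - a) * F.coeff F.natDegree * G.coeff G.natDegree
        = I * ((G.natDegree : ℂ) - F.natDegree) * F.coeff F.natDegree * G.coeff G.natDegree := by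
      ring
    rw [h5]
    exact mul_ne_zero (mul_ne_zero (mul_ne_zero I_ne_zero h4) h2) h3
  refine le_trans ?_ (Polynomial.le_natDegree_of_ne_zero h1)
  unfold TMB_P
  refine TMB_sub_deg ?_ ?_
  · exact Polynomial.natDegree_mul_le_of_le (TMB_d_deg a F)
      ((TMB_d_deg a _).trans (TMB_d_deg a G))
  · exact Polynomial.natDegree_mul_le_of_le ((TMB_d_deg a _).trans (TMB_d_deg a F))
      (TMB_d_deg a G)

theorem TMB_top (a : ℂ) (F G : Polynomial ℂ) (hP : TMB_P a F G ≠ 0) :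
    (TMB_P a (TMB_d a F) (TMB_d a G)).natDegree ≤ (TMB_P a F G).natDegree := by
  have key : ∀ F G : Polynomial ℂ, TMB_P a F G ≠ 0 → G.natDegree ≤ F.natDegree →
      (TMB_P a (TMB_d a F) (TMB_d a G)).natDegree ≤ (TMB_P a F G).natDegree := by
    intro F G hP h
    have hF : F ≠ 0 := by
      rintro rfl
      apply hP
      unfold TMB_P
      rw [TMB_d_zero, zero_mul, zero_mul, sub_zero]
    have hFn : F.coeff F.natDegree ≠ 0 := by
      rw [Polynomial.coeff_natDegree]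
      exact Polynomial.leadingCoeff_ne_zero.2 hF
    obtain ⟨k, hk⟩ : ∃ k, G.coeff F.natDegree = k * F.coeff F.natDegree :=
      ⟨G.coeff F.natDegree / F.coeff F.natDegree, (div_mul_cancel₀ _ hFn).symm⟩
    rw [← TMB_P_lin a k F G, ← TMB_P_lin a k (TMB_d a F) (TMB_d a G), ← TMB_d_lin]
    have hG' : G - Polynomial.C k * F ≠ 0 := by
      intro h0
      apply hP
      rw [← TMB_P_lin a k F G, h0]
      unfold TMB_P
      rw [TMB_d_zero, mul_zero, mul_zero, sub_zero]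
    refine TMB_top0 a F _ hG' ?_
    have h1 : (G - Polynomial.C k * F).natDegree ≤ F.natDegree :=
      TMB_sub_deg h (Polynomial.natDegree_C_mul_le k F)
    refine lt_of_le_of_ne h1 fun h2 => ?_
    have h3 : (G - Polynomial.C k * F).coeff F.natDegree = 0 := by
      rw [Polynomial.coeff_sub, Polynomial.coeff_C_mul, hk, sub_self]
    rw [← h2, Polynomial.coeff_natDegree, Polynomial.leadingCoeff_eq_zero] at h3
    exact hG' h3
  rcases le_total G.natDegree F.natDegree with h | h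
  · exact key F G hP h
  · have h1 := key G F (by rw [TMB_P_swap]; exact neg_ne_zero.2 hP) h
    rwa [TMB_P_swap a F G, TMB_P_swap a (TMB_d a F), Polynomial.natDegree_neg,
      Polynomial.natDegree_neg] at h1

theorem TMB_coeff_low {p q : Polynomial ℂ} {m n : ℕ} (hp : Polynomial.X ^ m ∣ p)
    (hq : Polynomial.X ^ n ∣ q) : (p * q).coeff (m + n) = p.coeff m * q.coeff n := by
  obtain ⟨p, rfl⟩ := hp
  obtain ⟨q, rfl⟩ := hq
  have h1 : Polynomial.X ^ m * p * (Polynomial.X ^ n * q)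
      = Polynomial.X ^ (m + n) * (p * q) := by ring
  rw [h1, Polynomial.coeff_X_pow_mul', Polynomial.coeff_X_pow_mul', Polynomial.coeff_X_pow_mul',
    if_pos le_rfl, if_pos le_rfl, if_pos le_rfl, Nat.sub_self, Nat.sub_self, Nat.sub_self,
    Polynomial.mul_coeff_zero]

theorem TMB_X_dvd (F : Polynomial ℂ) : Polynomial.X ^ F.natTrailingDegree ∣ F := by
  rw [Polynomial.X_pow_dvd_iff]
  intro d hd
  exact Polynomial.coeff_eq_zero_of_lt_natTrailingDegree hd

theorem TMB_bot0 (a : ℂ) (F G : Polynomial ℂ) (hF : F ≠ 0) (hG : G ≠ 0)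
    (h : F.natTrailingDegree < G.natTrailingDegree) :
    Polynomial.X ^ (TMB_P a F G).natTrailingDegree ∣ TMB_P a (TMB_d a F) (TMB_d a G) := by
  have dF := TMB_X_dvd F
  have dG := TMB_X_dvd G
  have h1 : (TMB_P a F G).coeff (F.natTrailingDegree + G.natTrailingDegree) ≠ 0 := by
    unfold TMB_P
    rw [Polynomial.coeff_sub, TMB_coeff_low dF (TMB_d_dvd a dG),
      TMB_coeff_low (TMB_d_dvd a dF) dG, TMB_d_coeff, TMB_d_coeff]
    have h2 : F.coeff F.natTrailingDegree ≠ 0 := Polynomial.trailingCoeff_nonzero_iff_nonzero.2 hF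
    have h3 : G.coeff G.natTrailingDegree ≠ 0 := Polynomial.trailingCoeff_nonzero_iff_nonzero.2 hG
    have h4 : (G.natTrailingDegree : ℂ) - F.natTrailingDegree ≠ 0 := by
      rw [sub_ne_zero]
      exact_mod_cast h.ne'
    have h5 : F.coeff F.natTrailingDegree
          * (I * (G.natTrailingDegree - a) * G.coeff G.natTrailingDegree)
        - I * (F.natTrailingDegree - a) * F.coeff F.natTrailingDegree
          * G.coeff G.natTrailingDegree
        = I * ((G.natTrailingDegree : ℂ) - F.natTrailingDegree) * F.coeff F.natTrailingDegree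
          * G.coeff G.natTrailingDegree := by
      ring
    rw [h5]
    exact mul_ne_zero (mul_ne_zero (mul_ne_zero I_ne_zero h4) h2) h3
  refine (pow_dvd_pow _ (Polynomial.natTrailingDegree_le_of_ne_zero h1)).trans ?_
  unfold TMB_P
  rw [pow_add]
  refine dvd_sub ?_ ?_
  · exact mul_dvd_mul (TMB_d_dvd a dF) (TMB_d_dvd a (TMB_d_dvd a dG))
  · exact mul_dvd_mul (TMB_d_dvd a (TMB_d_dvd a dF)) (TMB_d_dvd a dG)

theorem TMB_bot (a : ℂ) (F G : Polynomial ℂ) (hP : TMB_P a F G ≠ 0) :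
    Polynomial.X ^ (TMB_P a F G).natTrailingDegree ∣ TMB_P a (TMB_d a F) (TMB_d a G) := by
  have key : ∀ F G : Polynomial ℂ, TMB_P a F G ≠ 0 →
      F.natTrailingDegree ≤ G.natTrailingDegree →
      Polynomial.X ^ (TMB_P a F G).natTrailingDegree ∣ TMB_P a (TMB_d a F) (TMB_d a G) := by
    intro F G hP h
    have hF : F ≠ 0 := by
      rintro rfl
      apply hP
      unfold TMB_P
      rw [TMB_d_zero, zero_mul, zero_mul, sub_zero]
    have hFn : F.coeff F.natTrailingDegree ≠ 0 :=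
      Polynomial.trailingCoeff_nonzero_iff_nonzero.2 hF
    obtain ⟨k, hk⟩ : ∃ k, G.coeff F.natTrailingDegree = k * F.coeff F.natTrailingDegree :=
      ⟨G.coeff F.natTrailingDegree / F.coeff F.natTrailingDegree, (div_mul_cancel₀ _ hFn).symm⟩
    rw [← TMB_P_lin a k F G, ← TMB_P_lin a k (TMB_d a F) (TMB_d a G), ← TMB_d_lin]
    have hG' : G - Polynomial.C k * F ≠ 0 := by
      intro h0
      apply hP
      rw [← TMB_P_lin a k F G, h0]
      unfold TMB_P
      rw [TMB_d_zero, mul_zero, mul_zero, sub_zero]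
    refine TMB_bot0 a F _ hF hG' ?_
    refine Nat.lt_of_succ_le (Polynomial.le_natTrailingDegree hG' fun m hm => ?_)
    rw [Polynomial.coeff_sub, Polynomial.coeff_C_mul]
    rcases Nat.lt_succ_iff_lt_or_eq.1 hm with h1 | rfl
    · rw [Polynomial.coeff_eq_zero_of_lt_natTrailingDegree h1,
        Polynomial.coeff_eq_zero_of_lt_natTrailingDegree (h1.trans_le h), mul_zero, sub_zero]
    · rw [hk, sub_self]
  rcases le_total F.natTrailingDegree G.natTrailingDegree with h | h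
  · exact key F G hP h
  · have h1 := key G F (by rw [TMB_P_swap]; exact neg_ne_zero.2 hP) h
    rwa [TMB_P_swap a F G, TMB_P_swap a (TMB_d a F), Polynomial.natTrailingDegree_neg,
      dvd_neg] at h1

theorem TMB_Q_deg (a : ℂ) (F G : Polynomial ℂ) (hP : TMB_P a F G ≠ 0) :
    (TMB_Q a F G).natDegree ≤ 2 * (TMB_P a F G).natDegree := by
  have h0 := TMB_top a F G hP
  have h1 := TMB_d_deg (a + a) (TMB_P a F G)
  have h2 := (TMB_d_deg (a + a) (TMB_d (a + a) (TMB_P a F G))).trans h1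
  rw [two_mul]
  unfold TMB_Q
  refine TMB_sub_deg (TMB_sub_deg ?_ ?_) ?_
  · exact (Polynomial.natDegree_C_mul_le _ _).trans (Polynomial.natDegree_mul_le_of_le h1 h1)
  · exact (Polynomial.natDegree_C_mul_le _ _).trans (Polynomial.natDegree_mul_le_of_le h2 le_rfl)
  · exact Polynomial.natDegree_mul_le_of_le h0 le_rfl

theorem TMB_Q_dvd (a : ℂ) (F G : Polynomial ℂ) (hP : TMB_P a F G ≠ 0) :
    Polynomial.X ^ (2 * (TMB_P a F G).natTrailingDegree) ∣ TMB_Q a F G := by
  have h0 := TMB_bot a F G hP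
  have hP1 := TMB_X_dvd (TMB_P a F G)
  have h1 := TMB_d_dvd (a + a) hP1
  have h2 := TMB_d_dvd (a + a) h1
  rw [two_mul, pow_add]
  unfold TMB_Q
  refine dvd_sub (dvd_sub ?_ ?_) ?_
  · exact (mul_dvd_mul h1 h1).mul_left _
  · exact (mul_dvd_mul h2 hP1).mul_left _
  · exact mul_dvd_mul h0 hP1

/-! ## Counting zeros -/

theorem TMB_count (P Q : Polynomial ℂ) (hP : P ≠ 0)
    (hdeg : Q.natDegree ≤ 2 * P.natDegree)
    (h0 : 2 * P.rootMultiplicity 0 ≤ Q.rootMultiplicity 0)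
    (h : ∀ x : ℂ, x ≠ 0 → 8 * P.rootMultiplicity x ≤ 3 * Q.rootMultiplicity x) :
    ∀ x : ℂ, x ≠ 0 → P.eval x ≠ 0 := by
  classical
  have tot : ∀ R : Polynomial ℂ, Multiset.card R.roots
      = Multiset.card (R.roots.filter (fun x => ¬ x = 0)) + R.rootMultiplicity 0 := by
    intro R
    have h1 := Multiset.filter_add_not (fun x : ℂ => x = 0) R.roots
    have h2 := congrArg Multiset.card h1
    rw [Multiset.card_add, Multiset.filter_eq', Multiset.card_replicate,
      Polynomial.count_roots] at h2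
    omega
  have h8 : 8 • (P.roots.filter (fun x => ¬ x = 0)) ≤ 3 • (Q.roots.filter (fun x => ¬ x = 0)) := by
    rw [Multiset.le_iff_count]
    intro x
    rw [Multiset.count_nsmul, Multiset.count_nsmul, Multiset.count_filter, Multiset.count_filter]
    by_cases hx : x = 0
    · rw [if_neg (not_not.2 hx), if_neg (not_not.2 hx)]
    · rw [if_pos hx, if_pos hx, Polynomial.count_roots, Polynomial.count_roots]
      exact h x hx
  have h9 := Multiset.card_le_card h8
  rw [Multiset.card_nsmul, Multiset.card_nsmul] at h9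
  have h10 := tot P
  have h11 := tot Q
  have h12 : P.natDegree = Multiset.card P.roots := (IsAlgClosed.splits P).natDegree_eq_card_roots
  have h13 := Polynomial.card_roots' Q
  have h14 : Multiset.card (P.roots.filter (fun x => ¬ x = 0)) = 0 := by omega
  intro x hx hx0
  have h15 : x ∈ P.roots.filter (fun x => ¬ x = 0) := by
    rw [Multiset.mem_filter, Polynomial.mem_roots hP]
    exact ⟨hx0, hx⟩
  rw [Multiset.card_eq_zero.1 h14] at h15
  exact Multiset.notMem_zero x h15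

theorem TMB_mult (P Q : Polynomial ℂ) (hP : P ≠ 0) (hQ : Q ≠ 0) (x : ℂ → ℂ) (t0 : ℂ)
    (hx : ContinuousAt x t0) (hne : ∀ᶠ t in 𝓝[≠] t0, x t ≠ x t0) (f : ℂ → ℝ)
    (hf : ContinuousAt f t0)
    (hb : ∀ᶠ t in 𝓝[≠] t0, ‖Q.eval (x t)‖ ^ 3 ≤ f t * ‖P.eval (x t)‖ ^ 8) :
    8 * P.rootMultiplicity (x t0) ≤ 3 * Q.rootMultiplicity (x t0) := by
  by_contra hcon
  push Not at hcon
  obtain ⟨P₂, hP2, -⟩ := Polynomial.exists_eq_pow_rootMultiplicity_mul_and_not_dvd P hP (x t0)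
  obtain ⟨Q₂, hQ2, hQ3⟩ := Polynomial.exists_eq_pow_rootMultiplicity_mul_and_not_dvd Q hQ (x t0)
  set m := P.rootMultiplicity (x t0)
  set q := Q.rootMultiplicity (x t0)
  obtain ⟨e, he, he'⟩ : ∃ e : ℕ, 8 * m = 3 * q + e ∧ e ≠ 0 := ⟨8 * m - 3 * q, by omega, by omega⟩
  have hQ4 : Q₂.eval (x t0) ≠ 0 := fun h0 => hQ3 (Polynomial.dvd_iff_isRoot.2 h0)
  have hb2 : ∀ᶠ t in 𝓝[≠] t0, ‖Q₂.eval (x t)‖ ^ 3
      ≤ f t * (‖x t - x t0‖ ^ e * ‖P₂.eval (x t)‖ ^ 8) := by
    filter_upwards [hb, hne] with t h1 h2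
    have h3 : 0 < ‖x t - x t0‖ := norm_pos_iff.2 (sub_ne_zero.2 h2)
    have h4 : ‖Q.eval (x t)‖ ^ 3 = ‖x t - x t0‖ ^ (3 * q) * ‖Q₂.eval (x t)‖ ^ 3 := by
      conv_lhs => rw [hQ2]
      rw [Polynomial.eval_mul, Polynomial.eval_pow, Polynomial.eval_sub, Polynomial.eval_X,
        Polynomial.eval_C, norm_mul, norm_pow, mul_pow, ← pow_mul, mul_comm q 3]
    have h5 : ‖P.eval (x t)‖ ^ 8
        = ‖x t - x t0‖ ^ (3 * q) * (‖x t - x t0‖ ^ e * ‖P₂.eval (x t)‖ ^ 8) := by
      conv_lhs => rw [hP2]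
      rw [Polynomial.eval_mul, Polynomial.eval_pow, Polynomial.eval_sub, Polynomial.eval_X,
        Polynomial.eval_C, norm_mul, norm_pow, mul_pow, ← pow_mul, mul_comm m 8, he, pow_add]
      ring
    rw [h4, h5] at h1
    refine le_of_mul_le_mul_left ?_ (pow_pos h3 (3 * q))
    calc _ ≤ _ := h1
      _ = _ := by ring
  have hx' : Tendsto x (𝓝[≠] t0) (𝓝 (x t0)) := hx.mono_left nhdsWithin_le_nhds
  have hf' : Tendsto f (𝓝[≠] t0) (𝓝 (f t0)) := hf.mono_left nhdsWithin_le_nhds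
  have hlim1 : Tendsto (fun t => ‖Q₂.eval (x t)‖ ^ 3) (𝓝[≠] t0) (𝓝 (‖Q₂.eval (x t0)‖ ^ 3)) :=
    (((Polynomial.continuous Q₂).tendsto _).comp hx').norm.pow 3
  have hlim2 : Tendsto (fun t => f t * (‖x t - x t0‖ ^ e * ‖P₂.eval (x t)‖ ^ 8)) (𝓝[≠] t0)
      (𝓝 (f t0 * (‖x t0 - x t0‖ ^ e * ‖P₂.eval (x t0)‖ ^ 8))) :=
    hf'.mul (((hx'.sub_const (x t0)).norm.pow e).mul
      ((((Polynomial.continuous P₂).tendsto _).comp hx').norm.pow 8))
  have h6 := le_of_tendsto_of_tendsto hlim1 hlim2 hb2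
  rw [sub_self, norm_zero, zero_pow he', zero_mul, mul_zero] at h6
  exact absurd h6 (not_le.2 (pow_pos (norm_pos_iff.2 hQ4) 3))

theorem tTMB : StTMB := by
  intro N c hW hb
  set F := TMB_d N (TMB_F N c) with hF
  set G := TMB_d N (TMB_F N (cjc c)) with hG
  have hWr : Wr (tp N c) (tp N (cjc c)) = TMB_L (N + N) (TMB_P N F G) := by
    rw [TMB_tp, TMB_tp, TMB_Wr]
  have hMi : Mi (tp N c) (tp N (cjc c)) = TMB_L (N + N + (N + N)) (TMB_Q N F G) := by
    rw [TMB_tp, TMB_tp, TMB_Mi]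
  rw [hWr] at hW hb ⊢
  rw [hMi] at hb ⊢
  have hP : TMB_P N F G ≠ 0 := by
    intro h0
    obtain ⟨s, hs⟩ := hW
    rw [h0, TMB_L_zero] at hs
    exact hs rfl
  by_cases hQ : TMB_Q N F G = 0
  · left
    intro s
    rw [hQ, TMB_L_zero]
  right
  have hmul : ∀ x : ℂ, x ≠ 0 → 8 * (TMB_P N F G).rootMultiplicity x
      ≤ 3 * (TMB_Q N F G).rootMultiplicity x := by
    intro x0 hx0
    obtain ⟨t0, rfl⟩ : ∃ t0 : ℂ, cexp (t0 * I) = x0 := by
      refine ⟨-(Complex.log x0 * I), ?_⟩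
      have h1 : -(Complex.log x0 * I) * I = Complex.log x0 := by
        rw [neg_mul, mul_assoc, I_mul_I]
        ring
      rw [h1, Complex.exp_log hx0]
    obtain ⟨K, hK⟩ := hb t0
    have hd : HasDerivAt (fun s : ℂ => cexp (s * I)) (cexp (t0 * I) * (1 * I)) t0 :=
      ((hasDerivAt_id t0).mul_const I).cexp
    refine TMB_mult _ _ hP hQ (fun t => cexp (t * I)) t0 hd.continuousAt
      (hd.eventually_ne (mul_ne_zero (Complex.exp_ne_zero _) (by simp)))
      (fun t => K * ‖cexp (-((4 * N) * t * I))‖) (by fun_prop) ?_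
    refine (hK.filter_mono nhdsWithin_le_nhds).mono fun t ht => ?_
    unfold TMB_L at ht
    rw [norm_mul, norm_mul, mul_pow, mul_pow] at ht
    have h1 : ‖cexp (-((N + N + (N + N)) * t * I))‖ ^ 3 * ‖cexp (-((4 * N) * t * I))‖
        = ‖cexp (-((N + N) * t * I))‖ ^ 8 := by
      rw [← norm_pow, ← norm_pow, ← norm_mul, ← Complex.exp_nat_mul, ← Complex.exp_nat_mul,
        ← Complex.exp_add]
      congr 2
      push_cast
      ring
    have h2 : 0 < ‖cexp (-((N + N + (N + N)) * t * I))‖ ^ 3 :=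
      pow_pos (norm_pos_iff.2 (Complex.exp_ne_zero _)) 3
    refine le_of_mul_le_mul_left ?_ h2
    calc _ ≤ _ := ht
      _ = _ := by
        rw [← h1]
        ring
  have h2 : 2 * (TMB_P N F G).rootMultiplicity 0 ≤ (TMB_Q N F G).rootMultiplicity 0 := by
    rw [Polynomial.le_rootMultiplicity_iff hQ, Polynomial.C_0, sub_zero,
      Polynomial.rootMultiplicity_eq_natTrailingDegree']
    exact TMB_Q_dvd N F G hP
  have h3 := TMB_count _ _ hP (TMB_Q_deg N F G hP) h2 hmul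
  intro s
  exact mul_ne_zero (Complex.exp_ne_zero _) (h3 _ (Complex.exp_ne_zero _))

end H719FX
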