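import Pool.Agent.H719R4.FX.Cov

/-!
# Task TMI of project FX: invariance of the affine curvature under reparametrisation

Proved by helper528 for project FX (helper719).
-/

open Complex Set Filter Topology

namespace H719FX

open H738CZ

/-- chain rule in a neighbourhood -/
lemma TMI_chain {A h : ℂ → ℂ} {t0 : ℂ} (hA : AnalyticAt ℂ A (h t0)) (hh : AnalyticAt ℂ h t0) :
    ∀ᶠ t in 𝓝 t0, HasDerivAt (fun t => A (h t)) (deriv A (h t) * deriv h t) t := by
  have h1 : ∀ᶠ t in 𝓝 t0, AnalyticAt ℂ A (h t) :=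
    hh.continuousAt.eventually hA.eventually_analyticAt
  have h2 := hh.eventually_analyticAt
  filter_upwards [h1, h2] with t a1 a2
  exact a1.differentiableAt.hasDerivAt.comp t a2.differentiableAt.hasDerivAt

/-- derivative near a point of analyticity -/
lemma TMI_self {h : ℂ → ℂ} {t0 : ℂ} (hh : AnalyticAt ℂ h t0) :
    ∀ᶠ t in 𝓝 t0, HasDerivAt h (deriv h t) t := by
  filter_upwards [hh.eventually_analyticAt] with t a2
  exact a2.differentiableAt.hasDerivAt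

/-- derivatives up to order three of a composition -/
lemma TMI_three {Z A h : ℂ → ℂ} {t0 : ℂ} (hA : AnalyticAt ℂ A (h t0)) (hh : AnalyticAt ℂ h t0)
    (hZ : ∀ᶠ t in 𝓝 t0, Z t = A (h t)) :
    ∀ᶠ t in 𝓝 t0, deriv Z t = deriv A (h t) * deriv h t ∧
      deriv (deriv Z) t = deriv (deriv A) (h t) * deriv h t ^ 2 +
        deriv A (h t) * deriv (deriv h) t ∧
      deriv (deriv (deriv Z)) t = deriv (deriv (deriv A)) (h t) * deriv h t ^ 3 +
        3 * deriv (deriv A) (h t) * deriv h t * deriv (deriv h) t +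
        deriv A (h t) * deriv (deriv (deriv h)) t := by
  have e1 : deriv Z =ᶠ[𝓝 t0] fun t => deriv A (h t) * deriv h t := by
    have : deriv Z =ᶠ[𝓝 t0] deriv (fun t => A (h t)) :=
      EventuallyEq.deriv (show Z =ᶠ[𝓝 t0] fun t => A (h t) from hZ)
    filter_upwards [this, TMI_chain hA hh] with t b1 b2
    rw [b1, b2.deriv]
  have e2 : deriv (deriv Z) =ᶠ[𝓝 t0] fun t => deriv (deriv A) (h t) * deriv h t ^ 2 +
        deriv A (h t) * deriv (deriv h) t := by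
    filter_upwards [e1.deriv, TMI_chain hA.deriv hh, TMI_self hh.deriv] with t b1 b2 b3
    rw [b1, (b2.fun_mul b3).deriv]
    ring
  have e3 : deriv (deriv (deriv Z)) =ᶠ[𝓝 t0] fun t =>
      deriv (deriv (deriv A)) (h t) * deriv h t ^ 3 +
        3 * deriv (deriv A) (h t) * deriv h t * deriv (deriv h) t +
        deriv A (h t) * deriv (deriv (deriv h)) t := by
    filter_upwards [e2.deriv, TMI_chain hA.deriv.deriv hh, TMI_chain hA.deriv hh,
      TMI_self hh.deriv, TMI_self hh.deriv.deriv] with t b1 b2 b3 b4 b5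
    rw [b1, ((b2.fun_mul (b4.fun_pow 2)).fun_add (b3.fun_mul b5)).deriv]
    push_cast
    ring
  filter_upwards [e1, e2, e3] with t c1 c2 c3
  exact ⟨c1, c2, c3⟩

/-- the Wronskian of an analytic pair is analytic -/
lemma TMI_wr_an {A B : ℂ → ℂ} {s0 : ℂ} (hA : AnalyticAt ℂ A s0) (hB : AnalyticAt ℂ B s0) :
    AnalyticAt ℂ (Wr A B) s0 := by
  have : Wr A B = fun t => deriv A t * deriv (deriv B) t - deriv (deriv A) t * deriv B t := rfl
  rw [this]
  exact (hA.deriv.fun_mul hB.deriv.deriv).fun_sub (hA.deriv.deriv.fun_mul hB.deriv)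

/-- the derivative of the Wronskian -/
lemma TMI_wr_deriv {A B : ℂ → ℂ} {s0 : ℂ} (hA : AnalyticAt ℂ A s0) (hB : AnalyticAt ℂ B s0) :
    ∀ᶠ s in 𝓝 s0, deriv (Wr A B) s = deriv A s * deriv (deriv (deriv B)) s -
      deriv (deriv (deriv A)) s * deriv B s := by
  have : Wr A B = fun t => deriv A t * deriv (deriv B) t - deriv (deriv A) t * deriv B t := rfl
  rw [this]
  filter_upwards [TMI_self hA.deriv, TMI_self hA.deriv.deriv, TMI_self hB.deriv,
    TMI_self hB.deriv.deriv] with s b1 b2 b3 b4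
  rw [((b1.fun_mul b4).fun_sub (b2.fun_mul b3)).deriv]
  ring

theorem tTMI : StTMI := by
  rintro Z W t0 ⟨h, A, B, hh, h0, hA, hB, hZ, hW, hw⟩
  rw [← h0] at hA hB
  -- the Wronskian
  have eW : Wr Z W =ᶠ[𝓝 t0] fun t => deriv h t ^ 3 * Wr A B (h t) := by
    filter_upwards [TMI_three hA hh hZ, TMI_three hB hh hW] with t ⟨a1, a2, a3⟩ ⟨b1, b2, b3⟩
    simp only [Wr]
    rw [a1, a2, b1, b2]
    ring
  have hwa := TMI_wr_an hA hB
  have eW1 : deriv (Wr Z W) =ᶠ[𝓝 t0] fun t => 3 * deriv h t ^ 2 * deriv (deriv h) t *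
      Wr A B (h t) + deriv h t ^ 4 * deriv (Wr A B) (h t) := by
    filter_upwards [eW.deriv, TMI_chain hwa hh, TMI_self hh.deriv] with t b1 b2 b3
    rw [b1, ((b3.fun_pow 3).fun_mul b2).deriv]
    push_cast
    ring
  have eW2 : deriv (deriv (Wr Z W)) =ᶠ[𝓝 t0] fun t =>
      (6 * deriv h t * deriv (deriv h) t ^ 2 + 3 * deriv h t ^ 2 * deriv (deriv (deriv h)) t) *
        Wr A B (h t) + 7 * deriv h t ^ 3 * deriv (deriv h) t * deriv (Wr A B) (h t) +
        deriv h t ^ 5 * deriv (deriv (Wr A B)) (h t) := by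
    filter_upwards [eW1.deriv, TMI_chain hwa hh, TMI_chain hwa.deriv hh, TMI_self hh.deriv,
      TMI_self hh.deriv.deriv] with t b1 b2 b3 b4 b5
    rw [b1, ((((((b4.fun_pow 2).const_mul 3).fun_mul b5)).fun_mul b2).fun_add
      ((b4.fun_pow 4).fun_mul b3)).deriv]
    push_cast
    ring
  have hwd : ∀ᶠ t in 𝓝 t0, deriv (Wr A B) (h t) =
      deriv A (h t) * deriv (deriv (deriv B)) (h t) -
        deriv (deriv (deriv A)) (h t) * deriv B (h t) :=
    hh.continuousAt.eventually (TMI_wr_deriv hA hB)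
  have eM : ∀ᶠ t in 𝓝 t0, Mi Z W t = deriv h t ^ 8 * Mi A B (h t) := by
    filter_upwards [TMI_three hA hh hZ, TMI_three hB hh hW, eW, eW1, eW2, hwd] with t
      ⟨a1, a2, a3⟩ ⟨b1, b2, b3⟩ c0 c1 c2 c3
    simp only [Mi]
    rw [c0, c1, c2, a2, a3, b2, b3, c3]
    simp only [Wr]
    ring
  -- bounds
  have hMan : AnalyticAt ℂ (Mi A B) (h t0) := by
    have : Mi A B = fun t => 5 / 9 * (deriv (Wr A B) t) ^ 2 -
      1 / 3 * deriv (deriv (Wr A B)) t * Wr A B t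
      - (deriv (deriv A) t * deriv (deriv (deriv B)) t
        - deriv (deriv (deriv A)) t * deriv (deriv B) t) * Wr A B t := rfl
    rw [this]
    exact (((analyticAt_const.fun_mul (hwa.deriv.fun_pow 2)).fun_sub
      ((analyticAt_const.fun_mul hwa.deriv.deriv).fun_mul hwa)).fun_sub
      (((hA.deriv.deriv.fun_mul hB.deriv.deriv.deriv).fun_sub
        (hA.deriv.deriv.deriv.fun_mul hB.deriv.deriv)).fun_mul hwa))
  have hcM : ContinuousAt (fun t => ‖Mi A B (h t)‖) t0 :=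
    (ContinuousAt.comp (f := h) (g := Mi A B) hMan.continuousAt hh.continuousAt).norm
  have hcW : ContinuousAt (fun t => ‖Wr A B (h t)‖) t0 :=
    (ContinuousAt.comp (f := h) (g := Wr A B) hwa.continuousAt hh.continuousAt).norm
  have hw0 : 0 < ‖Wr A B (h t0)‖ := by rw [h0]; exact norm_pos_iff.mpr hw
  have bM : ∀ᶠ t in 𝓝 t0, ‖Mi A B (h t)‖ < ‖Mi A B (h t0)‖ + 1 :=
    hcM.eventually_lt_const (lt_add_one _)
  have bW : ∀ᶠ t in 𝓝 t0, ‖Wr A B (h t0)‖ / 2 < ‖Wr A B (h t)‖ :=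
    hcW.eventually_const_lt (half_lt_self hw0)
  set M := ‖Mi A B (h t0)‖ + 1 with hMdef
  set δ := ‖Wr A B (h t0)‖ / 2 with hδdef
  have hδ : 0 < δ := half_pos hw0
  refine ⟨M ^ 3 / δ ^ 8, ?_⟩
  filter_upwards [eW, eM, bM, bW] with t c1 c2 c3 c4
  rw [c1, c2, norm_mul, norm_mul, norm_pow, norm_pow, mul_pow, mul_pow, ← pow_mul, ← pow_mul]
  have hM0 : ‖Mi A B (h t)‖ ^ 3 ≤ M ^ 3 := pow_le_pow_left₀ (norm_nonneg _) c3.le 3
  have hW0 : δ ^ 8 ≤ ‖Wr A B (h t)‖ ^ 8 := pow_le_pow_left₀ hδ.le c4.le 8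
  have ha : (0 : ℝ) ≤ ‖deriv h t‖ ^ 24 := by positivity
  have hMp : (0 : ℝ) ≤ M ^ 3 := by positivity
  have h8 : (0 : ℝ) < δ ^ 8 := by positivity
  norm_num
  calc ‖deriv h t‖ ^ 24 * ‖Mi A B (h t)‖ ^ 3 ≤ ‖deriv h t‖ ^ 24 * M ^ 3 :=
        mul_le_mul_of_nonneg_left hM0 ha
    _ = ‖deriv h t‖ ^ 24 * (M ^ 3 / δ ^ 8 * δ ^ 8) := by field_simp
    _ ≤ ‖deriv h t‖ ^ 24 * (M ^ 3 / δ ^ 8 * ‖Wr A B (h t)‖ ^ 8) := by
        apply mul_le_mul_of_nonneg_left _ ha
        exact mul_le_mul_of_nonneg_left hW0 (by positivity)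
    _ = M ^ 3 / δ ^ 8 * (‖deriv h t‖ ^ 24 * ‖Wr A B (h t)‖ ^ 8) := by ring

end H719FX
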