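import Pool.Agent.H719R4.FX.Cov

/-! Task TMO of project FX: no oval lies on a parabola. -/

open Complex Set Filter Topology

namespace H719FX

open H738CZ

theorem tTMO : StTMO := by
  intro γ ρ hov A B a b c1 c2 _ hid
  -- derivative of the conjugate
  have hc : ∀ s : ℝ, HasDerivAt (fun φ : ℝ => (starRingEnd ℂ) (γ φ))
      ((starRingEnd ℂ) ((ρ s : ℂ) * I * cexp (s * I))) s := fun s => by
    have := (hov.der s).star
    simpa using this
  have hcv : ∀ s : ℝ, (starRingEnd ℂ) ((ρ s : ℂ) * I * cexp (s * I))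
      = -((ρ s : ℂ) * I * cexp (-(s * I))) := by
    intro s
    rw [map_mul, map_mul, Complex.conj_ofReal, Complex.conj_I, ← Complex.exp_conj, map_mul,
      Complex.conj_ofReal, Complex.conj_I]
    ring_nf
  set L : ℝ → ℂ := fun φ => B * γ φ - A * (starRingEnd ℂ) (γ φ) with hL
  have key : ∀ φ : ℝ, L φ * (B * cexp (φ * I) + A * cexp (-(φ * I)))
        = -(a * cexp (-(φ * I)) + b * cexp (φ * I)) ∧
      B * cexp (φ * I) + A * cexp (-(φ * I)) ≠ 0 := by
    intro s
    have hρ : (ρ s : ℂ) ≠ 0 := by exact_mod_cast (hov.pos s).ne'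
    have hLd : HasDerivAt L (B * ((ρ s : ℂ) * I * cexp (s * I))
        - A * (-((ρ s : ℂ) * I * cexp (-(s * I))))) s := by
      have h1 := (hov.der s).const_mul B
      have h2 := (hc s).const_mul A
      rw [hcv] at h2
      exact h1.sub h2
    have hLd' : HasDerivAt L ((ρ s : ℂ) * I * (B * cexp (s * I) + A * cexp (-(s * I)))) s := by
      convert hLd using 1
      ring
    have q1 : HasDerivAt (fun φ => A / 2 * L φ ^ 2 + a * L φ + c1)
        ((A * L s + a) * ((ρ s : ℂ) * I * (B * cexp (s * I) + A * cexp (-(s * I))))) s := by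
      have := (((hLd'.pow 2).const_mul (A / 2)).add (hLd'.const_mul a)).add_const c1
      refine HasDerivAt.congr_deriv this ?_
      push_cast
      ring
    have q2 : HasDerivAt (fun φ => B / 2 * L φ ^ 2 + b * L φ + c2)
        ((B * L s + b) * ((ρ s : ℂ) * I * (B * cexp (s * I) + A * cexp (-(s * I))))) s := by
      have := (((hLd'.pow 2).const_mul (B / 2)).add (hLd'.const_mul b)).add_const c2
      refine HasDerivAt.congr_deriv this ?_
      push_cast
      ring
    have f1 : γ = fun φ => A / 2 * L φ ^ 2 + a * L φ + c1 := funext fun φ => (hid φ).1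
    have f2 : (fun φ : ℝ => (starRingEnd ℂ) (γ φ)) = fun φ => B / 2 * L φ ^ 2 + b * L φ + c2 :=
      funext fun φ => (hid φ).2
    have d1 : (ρ s : ℂ) * I * cexp (s * I)
        = (A * L s + a) * ((ρ s : ℂ) * I * (B * cexp (s * I) + A * cexp (-(s * I)))) := by
      have h1 := hov.der s
      rw [← f1] at q1
      exact h1.unique q1
    have d2 : -((ρ s : ℂ) * I * cexp (-(s * I)))
        = (B * L s + b) * ((ρ s : ℂ) * I * (B * cexp (s * I) + A * cexp (-(s * I)))) := by
      have h1 := hc s
      rw [hcv] at h1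
      rw [← f2] at q2
      exact h1.unique q2
    have hI : (ρ s : ℂ) * I ≠ 0 := mul_ne_zero hρ I_ne_zero
    have hEE : cexp (s * I) * cexp (-(s * I)) = 1 := by
      rw [← Complex.exp_add]; simp
    have hE : cexp (s * I) ≠ 0 := Complex.exp_ne_zero _
    have w1 : cexp (s * I) = (A * L s + a) * (B * cexp (s * I) + A * cexp (-(s * I))) := by
      apply mul_left_cancel₀ hI
      rw [d1]; ring
    have w2 : -cexp (-(s * I)) = (B * L s + b) * (B * cexp (s * I) + A * cexp (-(s * I))) := by
      apply mul_left_cancel₀ hI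
      have : (ρ s : ℂ) * I * -cexp (-(s * I)) = -((ρ s : ℂ) * I * cexp (-(s * I))) := by ring
      rw [this, d2]; ring
    have hW : B * cexp (s * I) + A * cexp (-(s * I)) ≠ 0 := by
      intro h
      rw [h, mul_zero] at w1
      exact hE w1
    refine ⟨?_, hW⟩
    apply mul_left_cancel₀ hW
    have v1 : (A * L s + a) * (B * cexp (s * I) + A * cexp (-(s * I))) * cexp (-(s * I)) = 1 := by
      rw [← w1, hEE]
    have v2 : (B * L s + b) * (B * cexp (s * I) + A * cexp (-(s * I))) * cexp (s * I) = -1 := by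
      rw [← w2]
      linear_combination -hEE
    linear_combination v1 + v2
  have hper : ∀ φ : ℝ, L (φ + Real.pi) = L φ := by
    intro φ
    obtain ⟨k1, k2⟩ := key φ
    obtain ⟨k3, _⟩ := key (φ + Real.pi)
    have e1 : cexp (((φ + Real.pi : ℝ) : ℂ) * I) = -cexp (φ * I) := by
      push_cast
      rw [add_mul, Complex.exp_add, Complex.exp_pi_mul_I]
      ring
    have e2 : cexp (-(((φ + Real.pi : ℝ) : ℂ) * I)) = -cexp (-(φ * I)) := by
      push_cast
      rw [add_mul, neg_add, Complex.exp_add, Complex.exp_neg (Real.pi * I), Complex.exp_pi_mul_I]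
      ring
    rw [e1, e2] at k3
    apply mul_right_cancel₀ k2
    rw [k1]
    linear_combination -k3
  have hγ : γ Real.pi = γ 0 := by
    have h1 := (hid Real.pi).1
    have h2 := (hid 0).1
    have h3 := hper 0
    rw [zero_add] at h3
    have h4 : B * γ Real.pi - A * (starRingEnd ℂ) (γ Real.pi)
        = B * γ 0 - A * (starRingEnd ℂ) (γ 0) := h3
    rw [h4] at h1
    rw [h1]
    exact h2.symm
  -- the real part is strictly decreasing on `[0, π]`
  have hre : ∀ s : ℝ, HasDerivAt (fun φ : ℝ => (γ φ).re) (-(ρ s * Real.sin s)) s := by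
    intro s
    have h1 := Complex.reCLM.hasFDerivAt.comp_hasDerivAt s (hov.der s)
    have h2 : Complex.reCLM ((ρ s : ℂ) * I * cexp (s * I)) = -(ρ s * Real.sin s) := by
      rw [Complex.reCLM_apply, Complex.exp_mul_I]
      simp [Complex.cos_ofReal_re, Complex.sin_ofReal_re, Complex.cos_ofReal_im,
        Complex.sin_ofReal_im]
    rw [h2] at h1
    exact h1
  have hanti : StrictAntiOn (fun φ : ℝ => (γ φ).re) (Icc 0 Real.pi) := by
    apply strictAntiOn_of_deriv_neg (convex_Icc 0 Real.pi)
    · exact fun s _ => (hre s).continuousAt.continuousWithinAt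
    · intro s hs
      rw [interior_Icc] at hs
      rw [(hre s).deriv]
      have := mul_pos (hov.pos s) (Real.sin_pos_of_pos_of_lt_pi hs.1 hs.2)
      linarith
  have := hanti (left_mem_Icc.2 Real.pi_pos.le) (right_mem_Icc.2 Real.pi_pos.le) Real.pi_pos
  simp only [hγ] at this
  exact lt_irrefl _ this

end H719FX
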