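import Pool.Agent.H719R4.FX.Trig

set_option autoImplicit false

open Complex Set Filter Topology

namespace H719FX

open H738CZ

theorem TRD_term (c : ℂ) (k : ℤ) (s : ℂ) :
    HasDerivAt (fun s : ℂ => c * cexp (k * s * I)) (k * I * c * cexp (k * s * I)) s := by
  have h1 : HasDerivAt (fun s : ℂ => (k : ℂ) * s * I) (k * I) s := by
    have h2 := ((hasDerivAt_id s).const_mul (k : ℂ)).mul_const I
    simpa using h2
  have h3 := (h1.cexp).const_mul c
  exact h3.congr_deriv (by ring)

theorem TRD_sum (N : ℕ) (c : ℤ → ℂ) (s : ℂ) :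
    HasDerivAt (tp N c) (tp N (fun k => k * I * c k) s) s := by
  unfold tp
  exact HasDerivAt.fun_sum fun k _ => TRD_term (c k) k s

theorem tTRD : StTRD := by
  intro N c
  refine ⟨fun s => (TRD_sum N c s).differentiableAt, fun s => (TRD_sum N c s).deriv, ?_⟩
  intro s
  unfold tp cjc
  rw [map_sum]
  refine Finset.sum_nbij' (fun k => -k) (fun k => -k) ?_ ?_ ?_ ?_ ?_
  · intro k hk
    simp only [Finset.mem_Icc] at hk ⊢
    omega
  · intro k hk
    simp only [Finset.mem_Icc] at hk ⊢
    omega
  · intro k _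
    exact neg_neg k
  · intro k _
    exact neg_neg k
  · intro k _
    rw [map_mul, ← Complex.exp_conj, neg_neg]
    congr 2
    simp

end H719FX
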