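import Pool.Agent.H719R4.FX.Trig

set_option autoImplicit false

open Complex Set Filter Topology

namespace H719FX

open H738CZ

theorem tTRE : StTRE := by
  intro c0 u v κ hκ huv
  have hD : normSq u - normSq v ≠ 0 := by
    intro h
    apply huv
    have h1 : ‖u‖ ^ 2 = ‖v‖ ^ 2 := by
      rw [← Complex.normSq_eq_norm_sq, ← Complex.normSq_eq_norm_sq]
      linarith
    exact (sq_eq_sq₀ (norm_nonneg _) (norm_nonneg _)).mp h1
  obtain ⟨u1, u2⟩ := u
  obtain ⟨v1, v2⟩ := v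
  rw [Complex.normSq_mk, Complex.normSq_mk] at hD
  set D : ℝ := u1 * u1 + u2 * u2 - (v1 * v1 + v2 * v2) with hDdef
  have hD2 : 0 < D ^ 2 := by positivity
  refine ⟨c0, ((u1 - v1) ^ 2 + (u2 + v2) ^ 2) / D ^ 2,
    ((u1 - v1) * (u2 - v2) - (u2 + v2) * (u1 + v1)) / D ^ 2,
    ((u2 - v2) ^ 2 + (u1 + v1) ^ 2) / D ^ 2, ?_, ?_, ?_⟩
  · apply div_pos _ hD2
    by_contra hc
    push Not at hc
    have h1 : u1 - v1 = 0 := by nlinarith [sq_nonneg (u1 - v1), sq_nonneg (u2 + v2)]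
    have h2 : u2 + v2 = 0 := by nlinarith [sq_nonneg (u1 - v1), sq_nonneg (u2 + v2)]
    apply hD
    rw [hDdef, show u1 = v1 by linarith, show u2 = -v2 by linarith]
    ring
  · have h : ((u1 - v1) ^ 2 + (u2 + v2) ^ 2) / D ^ 2 * (((u2 - v2) ^ 2 + (u1 + v1) ^ 2) / D ^ 2)
        - (((u1 - v1) * (u2 - v2) - (u2 + v2) * (u1 + v1)) / D ^ 2) ^ 2 = 1 / D ^ 2 := by
      have h3 : ((u1 - v1) ^ 2 + (u2 + v2) ^ 2) * ((u2 - v2) ^ 2 + (u1 + v1) ^ 2)
        - ((u1 - v1) * (u2 - v2) - (u2 + v2) * (u1 + v1)) ^ 2 = D ^ 2 := by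
        rw [hDdef]; ring
      field_simp
      linarith
    rw [h]
    positivity
  · have key : ∀ (w : ℂ), (c0 + ⟨u1, u2⟩ * w + ⟨v1, v2⟩ * (starRingEnd ℂ) w).re - c0.re =
        (u1 + v1) * w.re + (v2 - u2) * w.im := by
      intro w
      simp only [Complex.add_re, Complex.mul_re, Complex.conj_re, Complex.conj_im]
      ring
    have key2 : ∀ (w : ℂ), (c0 + ⟨u1, u2⟩ * w + ⟨v1, v2⟩ * (starRingEnd ℂ) w).im - c0.im =
        (u2 + v2) * w.re + (u1 - v1) * w.im := by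
      intro w
      simp only [Complex.add_im, Complex.mul_im, Complex.conj_re, Complex.conj_im]
      ring
    have hconj : ∀ t : ℝ, cexp (-(κ * t * I)) = (starRingEnd ℂ) (cexp (κ * t * I)) := by
      intro t
      rw [← Complex.exp_conj]
      congr 1
      simp
    ext x
    simp only [Set.mem_range, Set.mem_ofPred_eq]
    constructor
    · rintro ⟨t, rfl⟩
      rw [hconj t]
      have hw : normSq (cexp (κ * t * I)) = 1 := by
        rw [Complex.normSq_eq_norm_sq]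
        have : (κ : ℂ) * t * I = ((κ * t : ℝ) : ℂ) * I := by push_cast; ring
        rw [this, Complex.norm_exp_ofReal_mul_I]
        norm_num
      rw [Complex.normSq_apply] at hw
      rw [key, key2]
      set p := (cexp (κ * t * I)).re
      set q := (cexp (κ * t * I)).im
      have h3 : ((u1 - v1) ^ 2 + (u2 + v2) ^ 2) * ((u1 + v1) * p + (v2 - u2) * q) ^ 2
          + 2 * ((u1 - v1) * (u2 - v2) - (u2 + v2) * (u1 + v1)) *
            ((u1 + v1) * p + (v2 - u2) * q) * ((u2 + v2) * p + (u1 - v1) * q)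
          + ((u2 - v2) ^ 2 + (u1 + v1) ^ 2) * ((u2 + v2) * p + (u1 - v1) * q) ^ 2
          = D ^ 2 * (p * p + q * q) := by
        rw [hDdef]; ring
      rw [hw, mul_one] at h3
      field_simp
      linarith
    · intro hx
      set X := x.re - c0.re with hX
      set Y := x.im - c0.im with hY
      set p := ((u1 - v1) * X + (u2 - v2) * Y) / D with hp
      set q := (-(u2 + v2) * X + (u1 + v1) * Y) / D with hq
      have hpq : p * p + q * q = 1 := by
        rw [← hx, hp, hq]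
        field_simp
        ring
      have hw : ‖(⟨p, q⟩ : ℂ)‖ = 1 := by
        have h1 : ‖(⟨p, q⟩ : ℂ)‖ ^ 2 = 1 := by
          rw [← Complex.normSq_eq_norm_sq, Complex.normSq_mk, hpq]
        nlinarith [norm_nonneg (⟨p, q⟩ : ℂ)]
      have hκ' : (κ : ℝ) ≠ 0 := by
        have : (0 : ℝ) < κ := by exact_mod_cast hκ
        exact this.ne'
      refine ⟨Complex.arg ⟨p, q⟩ / κ, ?_⟩
      have he : cexp (κ * ((Complex.arg ⟨p, q⟩ / κ : ℝ) : ℂ) * I) = ⟨p, q⟩ := by
        have h1 : (κ : ℂ) * ((Complex.arg ⟨p, q⟩ / κ : ℝ) : ℂ) * I =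
            (Complex.arg ⟨p, q⟩ : ℂ) * I := by
          have h2 : (κ : ℂ) * ((Complex.arg ⟨p, q⟩ / κ : ℝ) : ℂ) =
              ((κ * (Complex.arg ⟨p, q⟩ / κ) : ℝ) : ℂ) := by push_cast; ring
          rw [h2, mul_div_cancel₀ _ hκ']
        rw [h1]
        have h3 := Complex.norm_mul_exp_arg_mul_I (⟨p, q⟩ : ℂ)
        rw [hw] at h3
        simpa using h3
      rw [hconj, he]
      have e1 := key (⟨p, q⟩ : ℂ)
      have e2 := key2 (⟨p, q⟩ : ℂ)
      have f1 : (u1 + v1) * p + (v2 - u2) * q = X := by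
        rw [hp, hq]
        field_simp
        rw [hDdef]; ring
      have f2 : (u2 + v2) * p + (u1 - v1) * q = Y := by
        rw [hp, hq]
        field_simp
        rw [hDdef]; ring
      apply Complex.ext
      · have : (c0 + ⟨u1, u2⟩ * ⟨p, q⟩ + ⟨v1, v2⟩ * (starRingEnd ℂ) ⟨p, q⟩ : ℂ).re - c0.re = X := by
          rw [e1]; exact f1
        linarith
      · have : (c0 + ⟨u1, u2⟩ * ⟨p, q⟩ + ⟨v1, v2⟩ * (starRingEnd ℂ) ⟨p, q⟩ : ℂ).im - c0.im = Y := by
          rw [e2]; exact f2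
        linarith

end H719FX
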