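import Pool.Agent.H719R4.FX.Cov

open Complex Set Filter Topology

namespace H719FX

open H738CZ

/-- a trigonometric polynomial with at most three terms -/
theorem TRX_three (N : ℕ) (c : ℤ → ℂ) (κ : ℤ) (hκ : 0 < κ)
    (h : ∀ k : ℤ, |k| ≤ N → k ≠ 0 → c k ≠ 0 → k = κ ∨ k = -κ) (s : ℂ) :
    tp N c s = c 0 + (if κ ≤ N then c κ else 0) * cexp (κ * s * I)
      + (if κ ≤ N then c (-κ) else 0) * cexp (-(κ * s * I)) := by
  unfold tp
  by_cases hN : κ ≤ N
  · rw [if_pos hN, if_pos hN]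
    have hsub : ({0, κ, -κ} : Finset ℤ) ⊆ Finset.Icc (-(N : ℤ)) N := by
      intro k hk
      simp only [Finset.mem_insert, Finset.mem_singleton] at hk
      rw [Finset.mem_Icc]
      omega
    rw [← Finset.sum_subset hsub]
    · rw [Finset.sum_insert, Finset.sum_insert, Finset.sum_singleton]
      · rw [add_assoc]
        congr 1
        · simp
        · congr 2
          push_cast
          ring_nf
      · rw [Finset.mem_singleton]
        omega
      · simp only [Finset.mem_insert, Finset.mem_singleton]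
        omega
    · intro k hk hk2
      simp only [Finset.mem_insert, Finset.mem_singleton, not_or] at hk2
      rw [Finset.mem_Icc] at hk
      by_cases hc : c k = 0
      · rw [hc, zero_mul]
      · exfalso
        rcases h k (abs_le.mpr hk) hk2.1 hc with h1 | h1
        · exact hk2.2.1 h1
        · exact hk2.2.2 h1
  · rw [if_neg hN, if_neg hN]
    rw [Finset.sum_eq_single 0]
    · simp
    · intro k hk hk0
      rw [Finset.mem_Icc] at hk
      by_cases hc : c k = 0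
      · rw [hc, zero_mul]
      · exfalso
        rcases h k (abs_le.mpr hk) hk0 hc with h1 | h1
        · omega
        · omega
    · intro hh
      exfalso
      apply hh
      rw [Finset.mem_Icc]
      omega

theorem TRX_norm (N : ℕ) (c : ℤ → ℂ) (κ : ℤ) (hκ : 0 < κ)
    (h : ∀ k : ℤ, |k| ≤ N → k ≠ 0 → c k ≠ 0 → k = κ ∨ k = -κ) (hTRD : StTRD)
    (hW : Wr (tp N c) (tp N (cjc c)) 0 ≠ 0) :
    ‖(if κ ≤ N then c κ else 0)‖ ≠ ‖(if κ ≤ N then c (-κ) else 0)‖ := by
  intro hEq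
  apply hW
  have hd : ∀ c' : ℤ → ℂ, deriv (tp N c') = tp N (fun k => k * I * c' k) := fun c' =>
    funext (hTRD N c').2.1
  have hcj : ∀ k : ℤ, |k| ≤ N → k ≠ 0 → cjc c k ≠ 0 → k = κ ∨ k = -κ := by
    intro k hk hk0 hck
    have h1 : c (-k) ≠ 0 := by
      intro h2
      apply hck
      unfold cjc
      rw [h2, map_zero]
    rcases h (-k) (by rw [abs_neg]; exact hk) (by omega) h1 with h3 | h3
    · right; omega
    · left; omega
  have hmul : ∀ c' : ℤ → ℂ, (∀ k : ℤ, |k| ≤ N → k ≠ 0 → c' k ≠ 0 → k = κ ∨ k = -κ) →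
      ∀ k : ℤ, |k| ≤ N → k ≠ 0 → (fun k : ℤ => (k : ℂ) * I * c' k) k ≠ 0 → k = κ ∨ k = -κ := by
    intro c' hc' k hk hk0 hck
    apply hc' k hk hk0
    intro h2
    apply hck
    show (k : ℂ) * I * c' k = 0
    rw [h2, mul_zero]
  unfold Wr
  rw [hd c, hd (cjc c), hd, hd, TRX_three N _ κ hκ (hmul _ h),
    TRX_three N _ κ hκ (hmul _ hcj), TRX_three N _ κ hκ (hmul _ (hmul _ h)),
    TRX_three N _ κ hκ (hmul _ (hmul _ hcj))]
  by_cases hN : κ ≤ N
  · simp only [if_pos hN] at hEq ⊢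
    have h1 : (starRingEnd ℂ) (c κ) * c κ = (starRingEnd ℂ) (c (-κ)) * c (-κ) := by
      rw [← Complex.normSq_eq_conj_mul_self, ← Complex.normSq_eq_conj_mul_self,
        Complex.normSq_eq_norm_sq, Complex.normSq_eq_norm_sq, hEq]
    unfold cjc
    simp only [neg_neg, neg_zero, Int.cast_zero, zero_mul, mul_zero, Int.cast_neg,
      Complex.exp_zero, mul_one, zero_add]
    linear_combination (2 * (κ : ℂ) ^ 3 * I ^ 3) * h1
  · simp only [if_neg hN]
    simp

theorem tTRX (hFLZ : StFLZ) (hTMI : StTMI) (hTMB : StTMB) (hTMP : StTMP) (hTMO : StTMO)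
    (hTRP : StTRP) (hTRD : StTRD) (hTRE : StTRE) : StTRX := by
  intro γ ρ hOv K ε hε hK hsym hnc N c θ hθ hθs hγ
  have hZ : ∀ t : ℝ, tp N c t = γ (θ t) := by
    intro t
    rw [hγ]
    rfl
  have hW : ∀ t : ℝ, tp N (cjc c) t = (starRingEnd ℂ) (γ (θ t)) := by
    intro t
    rw [← (hTRD N c).2.2, Complex.conj_ofReal, hZ]
  have hdZ : Differentiable ℂ (tp N c) := (hTRD N c).1
  have hdW : Differentiable ℂ (tp N (cjc c)) := (hTRD N (cjc c)).1
  -- the curve is not constant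
  obtain ⟨s1, t1, hst⟩ : ∃ s1 t1 : ℝ, γ (θ s1) ≠ γ (θ t1) := by
    by_contra hcon
    push Not at hcon
    have h1 : γ = fun _ => γ 0 := by
      funext s
      obtain ⟨x, hx⟩ := hθs s
      obtain ⟨y, hy⟩ := hθs 0
      have := hcon x y
      rw [hx, hy] at this
      exact this
    have h2 := hOv.der 0
    have h3 : HasDerivAt γ 0 0 := by
      rw [h1]
      exact hasDerivAt_const (0 : ℝ) (γ 0)
    have h4 := h2.unique h3
    have h5 : (ρ 0 : ℂ) ≠ 0 := by exact_mod_cast (hOv.pos 0).ne'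
    exact (mul_ne_zero (mul_ne_zero h5 I_ne_zero) (Complex.exp_ne_zero _)) h4
  have hmain : ∀ t0 : ℂ, (¬ ∀ᶠ t in 𝓝 t0, Wr (tp N c) (tp N (cjc c)) t = 0) ∧
      Reg (tp N c) (tp N (cjc c)) t0 := by
    intro t0
    obtain ⟨r, hr⟩ : ∃ r : ℝ, r = |s1| + |t1| + ‖t0‖ + 1 := ⟨_, rfl⟩
    have a1 := abs_nonneg s1
    have a2 := abs_nonneg t1
    have a3 := norm_nonneg t0
    have hmem : ∀ x : ℝ, |x| < r → x ∈ Ioo (-r) r := by
      intro x hx
      exact abs_lt.mp hx
    refine hFLZ γ ρ hOv K ε hε hK hsym hnc 0 (fun _ => 0) (fun _ => r) (fun _ => tp N c)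
      (fun _ => tp N (cjc c)) ⟨fun i _ => hdZ.differentiableOn, fun i _ => hdW.differentiableOn,
        fun i hi => absurd hi (Nat.not_lt_zero i), fun i hi => absurd hi (Nat.not_lt_zero i),
        fun i hi => absurd hi (Nat.not_lt_zero i)⟩ θ (-r) r hθ.continuousOn ?_ ?_ t0 ?_
    · intro t ht
      refine ⟨?_, hZ t, hW t⟩
      rw [mem_ball_zero_iff, Complex.norm_real, Real.norm_eq_abs]
      exact abs_lt.mpr ht
    · exact ⟨s1, hmem s1 (by linarith), t1, hmem t1 (by linarith), hst⟩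
    · rw [mem_ball_zero_iff]
      linarith
  have hWr : ∃ s, Wr (tp N c) (tp N (cjc c)) s ≠ 0 := by
    by_contra hcon
    push Not at hcon
    exact (hmain 0).1 (Filter.Eventually.of_forall hcon)
  rcases hTMB N c hWr (fun t0 => hTMI _ _ t0 (hmain t0).2) with hMi | hWne
  · exfalso
    obtain ⟨A, B, a, b, c1, c2, hBA, hid⟩ := hTMP _ _ hdZ hdW hWr hMi
    apply hTMO γ ρ hOv A B a b c1 c2 hBA
    intro φ
    obtain ⟨t, rfl⟩ := hθs φ
    have := hid t
    rw [hZ, hW] at this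
    exact this
  · obtain ⟨κ, hκ, hsp⟩ := hTRP N c hWne
    have hne := TRX_norm N c κ hκ hsp hTRD (hWne 0)
    obtain ⟨x, a, b, d, ha, hdet, hr⟩ := hTRE (c 0) _ _ κ hκ hne
    refine ⟨x, a, b, d, ha, hdet, ?_⟩
    rw [← hr]
    ext y
    constructor
    · rintro ⟨φ, rfl⟩
      obtain ⟨t, rfl⟩ := hθs φ
      refine ⟨t, ?_⟩
      rw [← hZ, TRX_three N c κ hκ hsp]
    · rintro ⟨t, rfl⟩
      refine ⟨θ t, ?_⟩
      rw [← hZ, TRX_three N c κ hκ hsp]

end H719FX
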