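import Pool.Agent.H719R4.FX.Out
import Pool.Agent.H719R4.FX.TRX

open Complex Set Filter Topology

namespace H719FX

open H738CZ

theorem tTRG (hTMI : StTMI) (hTMB : StTMB) (hTMP : StTMP) (hTMO : StTMO)
    (hTRP : StTRP) (hTRD : StTRD) (hTRE : StTRE) : StTRG := by
  intro γ ρ hOv N c θ hθs hγ hmain
  have hZ : ∀ t : ℝ, tp N c t = γ (θ t) := by
    intro t
    rw [hγ]
    rfl
  have hW : ∀ t : ℝ, tp N (cjc c) t = (starRingEnd ℂ) (γ (θ t)) := by
    intro t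
    rw [← (hTRD N c).2.2, Complex.conj_ofReal, hZ]
  have hdZ : Differentiable ℂ (tp N c) := (hTRD N c).1
  have hdW : Differentiable ℂ (tp N (cjc c)) := (hTRD N (cjc c)).1
  have hWr : ∃ s, Wr (tp N c) (tp N (cjc c)) s ≠ 0 := by
    by_contra hcon
    push Not at hcon
    exact (hmain 0).1 (Filter.Eventually.of_forall hcon)
  rcases hTMB N c hWr (fun t0 => hTMI _ _ t0 (hmain t0).2) with hMi | hWne
  · exfalso
    obtain ⟨A, B, a, b, c1, c2, hBA, hid⟩ := hTMP _ _ hdZ hdW hWr hMi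
    apply hTMO γ ρ hOv A B a b c1 c2 hBA
    intro φ
    obtain ⟨t, rfl⟩ := hθs φ
    have := hid t
    rw [hZ, hW] at this
    exact this
  · obtain ⟨κ, hκ, hsp⟩ := hTRP N c hWne
    have hne := TRX_norm N c κ hκ hsp hTRD (hWne 0)
    obtain ⟨x, a, b, d, ha, hdet, hr⟩ := hTRE (c 0) _ _ κ hκ hne
    refine ⟨x, a, b, d, ha, hdet, ?_⟩
    rw [← hr]
    ext y
    constructor
    · rintro ⟨φ, rfl⟩
      obtain ⟨t, rfl⟩ := hθs φ
      refine ⟨t, ?_⟩
      rw [← hZ, TRX_three N c κ hκ hsp]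
    · rintro ⟨t, rfl⟩
      refine ⟨θ t, ?_⟩
      rw [← hZ, TRX_three N c κ hκ hsp]

end H719FX
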