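import Pool.Agent.H719R4.FX.Trig

set_option autoImplicit false

/-! TRP: a trigonometric polynomial curve without complex inflection points and cusps. -/

open Complex Set Filter Topology

namespace H719FX

open H738CZ

/-- the polynomial of a trigonometric polynomial -/
noncomputable def TRP2_P (M : ℕ) (c : ℤ → ℂ) : Polynomial ℂ :=
  ∑ n ∈ Finset.range (2 * M + 1), Polynomial.C (c ((n : ℤ) - M)) * Polynomial.X ^ n

theorem TRP2_tp (M : ℕ) (c : ℤ → ℂ) (s : ℂ) :
    tp M c s = cexp (-(M * s * I)) * (TRP2_P M c).eval (cexp (s * I)) := by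
  unfold tp TRP2_P
  rw [Polynomial.eval_finsetSum, Finset.mul_sum]
  refine Finset.sum_nbij' (fun k => (k + M).toNat) (fun n => (n : ℤ) - M) ?_ ?_ ?_ ?_ ?_
  · intro k hk
    simp only [Finset.mem_Icc, Finset.mem_range] at hk ⊢
    omega
  · intro k hk
    simp only [Finset.mem_Icc, Finset.mem_range] at hk ⊢
    omega
  · intro k hk
    simp only [Finset.mem_Icc] at hk
    omega
  · intro k hk
    simp only [Finset.mem_range] at hk
    omega
  · intro k hk
    simp only [Finset.mem_Icc] at hk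
    have h1 : (((k + M).toNat : ℕ) : ℤ) = k + M := Int.toNat_of_nonneg (by omega)
    have h2 : (((k + M).toNat : ℕ) : ℂ) = (k : ℂ) + M := by exact_mod_cast h1
    rw [h1, Polynomial.eval_mul, Polynomial.eval_C, Polynomial.eval_pow, Polynomial.eval_X,
      ← Complex.exp_nat_mul, h2, mul_left_comm, ← Complex.exp_add]
    congr 2
    · congr 1
      ring
    · ring

theorem TRP2_coeff (M : ℕ) (c : ℤ → ℂ) (n : ℕ) :
    (TRP2_P M c).coeff n = if n < 2 * M + 1 then c ((n : ℤ) - M) else 0 := by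
  unfold TRP2_P
  rw [Polynomial.finsetSum_coeff]
  simp only [Polynomial.coeff_C_mul_X_pow]
  rw [Finset.sum_ite_eq]
  simp only [Finset.mem_range]

/-- the derivative coefficients -/
noncomputable def TRP2_D (c : ℤ → ℂ) (k : ℤ) : ℂ := k * I * c k

theorem TRP2_cjD (c : ℤ → ℂ) : cjc (TRP2_D c) = TRP2_D (cjc c) := by
  funext k
  unfold cjc TRP2_D
  rw [map_mul, map_mul, Complex.conj_I]
  have : (starRingEnd ℂ) ((-k : ℤ) : ℂ) = -(k : ℂ) := by
    rw [map_intCast]
    push_cast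
    ring
  rw [this]
  ring

theorem TRP2_cjcj (c : ℤ → ℂ) : cjc (cjc c) = c := by
  funext k
  unfold cjc
  rw [neg_neg, Complex.conj_conj]

theorem TRP2_root (V : Polynomial ℂ) (hV : ∀ x : ℂ, x ≠ 0 → V.eval x ≠ 0) :
    ∃ (v : ℂ) (e : ℕ), v ≠ 0 ∧ ∀ x : ℂ, V.eval x = x ^ e * v := by
  have hV0 : V ≠ 0 := by
    rintro rfl
    exact hV 1 one_ne_zero (by simp)
  obtain ⟨Q, h1, h2⟩ := Polynomial.exists_eq_pow_rootMultiplicity_mul_and_not_dvd V hV0 0
  have h3 : ∀ x, Q.eval x ≠ 0 := by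
    intro x hx
    by_cases h0 : x = 0
    · apply h2
      rw [Polynomial.dvd_iff_isRoot, ← h0]
      exact hx
    · apply hV x h0
      rw [h1, Polynomial.eval_mul, hx, mul_zero]
  have h4 : Q.degree = 0 := by
    by_contra h
    obtain ⟨x, hx⟩ := IsAlgClosed.exists_root Q h
    exact h3 x hx
  have h5 := Polynomial.eq_C_of_degree_eq_zero h4
  refine ⟨Q.coeff 0, V.rootMultiplicity 0, ?_, ?_⟩
  · have := h3 0
    rwa [← Polynomial.coeff_zero_eq_eval_zero] at this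
  · intro x
    conv_lhs => rw [h1]
    rw [Polynomial.eval_mul, Polynomial.eval_pow, Polynomial.eval_sub, Polynomial.eval_X,
      Polynomial.eval_C, sub_zero]
    congr 1
    rw [h5, Polynomial.eval_C, ← h5]

theorem TRP2_main (hTRD : StTRD) (M : ℕ) (c : ℤ → ℂ) (hM : 0 < M) (hc : c M ≠ 0 ∨ c (-M) ≠ 0)
    (hW : ∀ s : ℂ, Wr (tp M c) (tp M (cjc c)) s ≠ 0) :
    ∀ k : ℤ, |k| ≤ M → k ≠ 0 → c k ≠ 0 → k = M ∨ k = -M := by
  obtain ⟨d, hd⟩ : ∃ d, d = cjc c := ⟨_, rfl⟩
  rw [← hd] at hW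
  have hder : ∀ (c : ℤ → ℂ), deriv (tp M c) = tp M (TRP2_D c) := fun c =>
    funext fun s => (hTRD M c).2.1 s
  have hdiff : ∀ (c : ℤ → ℂ) (s : ℂ), HasDerivAt (tp M c) (tp M (TRP2_D c) s) s := by
    intro c s
    rw [← hder]
    exact ((hTRD M c).1 s).hasDerivAt
  obtain ⟨c1, hc1⟩ : ∃ c1, c1 = TRP2_D c := ⟨_, rfl⟩
  obtain ⟨c2, hc2⟩ : ∃ c2, c2 = TRP2_D c1 := ⟨_, rfl⟩
  obtain ⟨c3, hc3⟩ : ∃ c3, c3 = TRP2_D c2 := ⟨_, rfl⟩
  obtain ⟨d1, hd1⟩ : ∃ d1, d1 = TRP2_D d := ⟨_, rfl⟩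
  obtain ⟨d2, hd2⟩ : ∃ d2, d2 = TRP2_D d1 := ⟨_, rfl⟩
  obtain ⟨d3, hd3⟩ : ∃ d3, d3 = TRP2_D d2 := ⟨_, rfl⟩
  have hWr : ∀ s, Wr (tp M c) (tp M d) s = tp M c1 s * tp M d2 s - tp M c2 s * tp M d1 s := by
    intro s
    unfold Wr
    rw [hder c, hder d, ← hc1, ← hd1, hder c1, hder d1, ← hc2, ← hd2]
  obtain ⟨V, hVdef⟩ : ∃ V, V = TRP2_P M c1 * TRP2_P M d2 - TRP2_P M c2 * TRP2_P M d1 := ⟨_, rfl⟩
  have hWV : ∀ s, Wr (tp M c) (tp M d) s =
      cexp (-(2 * M * s * I)) * V.eval (cexp (s * I)) := by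
    intro s
    have h2 : cexp (-(2 * M * s * I)) = cexp (-(M * s * I)) * cexp (-(M * s * I)) := by
      rw [← Complex.exp_add]
      congr 1
      ring
    rw [hWr, TRP2_tp, TRP2_tp, TRP2_tp, TRP2_tp, hVdef, Polynomial.eval_sub, Polynomial.eval_mul,
      Polynomial.eval_mul, h2]
    ring
  have hsurj : ∀ x : ℂ, x ≠ 0 → ∃ s : ℂ, cexp (s * I) = x := by
    intro x hx
    refine ⟨-(Complex.log x * I), ?_⟩
    have : -(Complex.log x * I) * I = Complex.log x := by
      rw [neg_mul, mul_assoc, Complex.I_mul_I]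
      ring
    rw [this, Complex.exp_log hx]
  have hV : ∀ x : ℂ, x ≠ 0 → V.eval x ≠ 0 := by
    intro x hx h0
    obtain ⟨s, rfl⟩ := hsurj x hx
    apply hW s
    rw [hWV, h0, mul_zero]
  obtain ⟨v, e, hv, hVe⟩ := TRP2_root V hV
  have hWv : ∀ s : ℂ, Wr (tp M c) (tp M d) s = v * cexp (((e : ℂ) - 2 * M) * s * I) := by
    intro s
    rw [hWV, hVe, ← Complex.exp_nat_mul, ← mul_assoc, ← Complex.exp_add, mul_comm]
    congr 2
    ring
  -- symmetry
  have hsym : ∀ s : ℝ, (starRingEnd ℂ) (Wr (tp M c) (tp M d) s) = -Wr (tp M c) (tp M d) s := by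
    intro s
    have hcj : ∀ c : ℤ → ℂ, (starRingEnd ℂ) (tp M c s) = tp M (cjc c) s := by
      intro c
      have := (hTRD M c).2.2 s
      rwa [Complex.conj_ofReal] at this
    have e1 : cjc c1 = d1 := by rw [hc1, TRP2_cjD, ← hd, hd1]
    have e2 : cjc c2 = d2 := by rw [hc2, TRP2_cjD, e1, hd2]
    have e3 : cjc d1 = c1 := by rw [← e1, TRP2_cjcj]
    have e4 : cjc d2 = c2 := by rw [← e2, TRP2_cjcj]
    rw [hWr, map_sub, map_mul, map_mul, hcj, hcj, hcj, hcj, e1, e2, e3, e4]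
    ring
  have he : (e : ℝ) - 2 * M = 0 := by
    by_contra hne
    obtain ⟨h, hh⟩ : ∃ h : ℝ, h = (e : ℝ) - 2 * M := ⟨_, rfl⟩
    rw [← hh] at hne
    have hh' : (e : ℂ) - 2 * M = (h : ℂ) := by rw [hh]; push_cast; rfl
    have h0 := hsym 0
    have h1 := hsym (Real.pi / 2 / h)
    rw [hWv, hh'] at h0 h1
    rw [Complex.ofReal_zero, mul_zero, zero_mul, Complex.exp_zero, mul_one] at h0
    have h2 : (h : ℂ) * ((Real.pi / 2 / h : ℝ) : ℂ) * I = (Real.pi / 2 : ℂ) * I := by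
      have : (h : ℂ) ≠ 0 := by exact_mod_cast hne
      push_cast
      field_simp
    rw [h2, Complex.exp_pi_div_two_mul_I, map_mul, h0, Complex.conj_I] at h1
    apply hv
    have h3 : v * (2 * I) = 0 := by linear_combination h1
    rcases mul_eq_zero.1 h3 with h4 | h4
    · exact h4
    · exfalso
      rcases mul_eq_zero.1 h4 with h5 | h5
      · norm_num at h5
      · exact Complex.I_ne_zero h5
  have he' : (e : ℂ) - 2 * M = 0 := by exact_mod_cast he
  have hconst : ∀ s : ℂ, tp M c1 s * tp M d2 s - tp M c2 s * tp M d1 s = v := by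
    intro s
    rw [← hWr, hWv, he', zero_mul, zero_mul, Complex.exp_zero, mul_one]
  -- differentiate
  have hderiv : ∀ s : ℂ, tp M c1 s * tp M d3 s - tp M c3 s * tp M d1 s = 0 := by
    intro s
    have h1 := ((hdiff c1 s).mul (hdiff d2 s)).sub ((hdiff c2 s).mul (hdiff d1 s))
    rw [← hc2, ← hd3, ← hc3, ← hd2] at h1
    have h2 : HasDerivAt (fun s : ℂ => v) 0 s := hasDerivAt_const s v
    have h3 : (tp M c1 * tp M d2 - tp M c2 * tp M d1) = fun s : ℂ => v := by
      funext s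
      exact hconst s
    rw [h3] at h1
    have h4 := h1.unique h2
    linear_combination h4
  have hpoly : TRP2_P M c1 * TRP2_P M d3 = TRP2_P M c3 * TRP2_P M d1 := by
    apply Polynomial.eq_of_infinite_eval_eq
    apply Set.Infinite.mono _ (Set.finite_singleton (0 : ℂ)).infinite_compl
    intro x hx
    obtain ⟨s, rfl⟩ := hsurj x hx
    have h1 := hderiv s
    rw [TRP2_tp, TRP2_tp, TRP2_tp, TRP2_tp] at h1
    have h2 : cexp (-(M * s * I)) ≠ 0 := Complex.exp_ne_zero _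
    show Polynomial.eval _ _ = Polynomial.eval _ _
    rw [Polynomial.eval_mul, Polynomial.eval_mul]
    have h3 : (cexp (-(M * s * I)) * cexp (-(M * s * I))) *
        ((TRP2_P M c1).eval (cexp (s * I)) * (TRP2_P M d3).eval (cexp (s * I)) -
        (TRP2_P M c3).eval (cexp (s * I)) * (TRP2_P M d1).eval (cexp (s * I))) = 0 := by
      linear_combination h1
    rcases mul_eq_zero.1 h3 with h4 | h4
    · exact absurd h4 (mul_ne_zero h2 h2)
    · linear_combination h4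
  have hcop : IsCoprime (TRP2_P M c1) (TRP2_P M d1) := by
    rw [Polynomial.isCoprime_iff_aeval_ne_zero_of_isAlgClosed ℂ ℂ]
    intro x
    by_contra hx
    push Not at hx
    rw [Polynomial.coe_aeval_eq_eval] at hx
    by_cases h0 : x = 0
    · rw [h0, ← Polynomial.coeff_zero_eq_eval_zero, ← Polynomial.coeff_zero_eq_eval_zero,
        TRP2_coeff, TRP2_coeff, if_pos (by omega), if_pos (by omega), hc1, hd1, hd] at hx
      unfold TRP2_D cjc at hx
      have hMI : (((0 : ℕ) : ℤ) - M : ℤ) * I ≠ 0 := by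
        apply mul_ne_zero _ Complex.I_ne_zero
        have : (((0 : ℕ) : ℤ) - M : ℤ) ≠ 0 := by omega
        exact_mod_cast this
      obtain ⟨h1, h2⟩ := hx
      have h1' := (mul_eq_zero.1 h1).resolve_left hMI
      have h2' := (mul_eq_zero.1 h2).resolve_left hMI
      rw [map_eq_zero] at h2'
      rcases hc with hc | hc
      · apply hc
        rw [← h2']
        congr 1
        omega
      · apply hc
        rw [← h1']
        congr 1
        omega
    · apply hV x h0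
      rw [hVdef, Polynomial.eval_sub, Polynomial.eval_mul, Polynomial.eval_mul, hx.1, hx.2]
      ring
  have hdvd : TRP2_P M c1 ∣ TRP2_P M c3 := by
    apply hcop.dvd_of_dvd_mul_right
    exact ⟨_, hpoly.symm⟩
  obtain ⟨Q, hQ⟩ := hdvd
  have hk0 : ∃ k0 : ℤ, (k0 = M ∨ k0 = -M) ∧ c k0 ≠ 0 := by
    rcases hc with hc | hc
    · exact ⟨M, Or.inl rfl, hc⟩
    · exact ⟨-M, Or.inr rfl, hc⟩
  have hcf : ∀ (c : ℤ → ℂ) (k : ℤ), |k| ≤ M → (TRP2_P M c).coeff (k + M).toNat = c k := by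
    intro c k hk
    rw [abs_le] at hk
    rw [TRP2_coeff, if_pos (by omega)]
    congr 1
    omega
  obtain ⟨k0, hk0M, hk0c⟩ := hk0
  have hk0a : |k0| ≤ M := by
    rw [abs_le]
    omega
  have hne1 : TRP2_P M c1 ≠ 0 := by
    intro h
    have h1 := hcf c1 k0 hk0a
    rw [h, Polynomial.coeff_zero, hc1] at h1
    unfold TRP2_D at h1
    have : (k0 : ℂ) * I * c k0 ≠ 0 := by
      apply mul_ne_zero (mul_ne_zero _ Complex.I_ne_zero) hk0c
      have : k0 ≠ 0 := by omega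
      exact_mod_cast this
    exact this h1.symm
  have hc3c1 : ∀ k, c3 k = -(k : ℂ) ^ 2 * c1 k := by
    intro k
    rw [hc3, hc2]
    unfold TRP2_D
    linear_combination ((k : ℂ) ^ 2 * c1 k) * Complex.I_sq
  have hdeg : (TRP2_P M c3).natDegree ≤ (TRP2_P M c1).natDegree := by
    rw [Polynomial.natDegree_le_iff_coeff_eq_zero]
    intro n hn
    have h1 := Polynomial.coeff_eq_zero_of_natDegree_lt hn
    rw [TRP2_coeff] at h1 ⊢
    split_ifs with h
    · rw [if_pos h] at h1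
      rw [hc3c1, h1, mul_zero]
    · rfl
  have hQdeg : Q.natDegree = 0 := by
    by_cases hQ0 : Q = 0
    · rw [hQ0, Polynomial.natDegree_zero]
    · rw [hQ, Polynomial.natDegree_mul hne1 hQ0] at hdeg
      omega
  obtain ⟨q, hq⟩ := Polynomial.natDegree_eq_zero.1 hQdeg
  have hall : ∀ k : ℤ, |k| ≤ M → k ≠ 0 → c k ≠ 0 → -(k : ℂ) ^ 2 = q := by
    intro k hk hk0 hck
    have h1 := hcf c3 k hk
    have h2 := hcf c1 k hk
    rw [hQ, ← hq, Polynomial.coeff_mul_C, h2, hc3c1] at h1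
    have h3 : c1 k ≠ 0 := by
      rw [hc1]
      unfold TRP2_D
      apply mul_ne_zero (mul_ne_zero _ Complex.I_ne_zero) hck
      exact_mod_cast hk0
    apply mul_right_cancel₀ h3
    rw [← h1]
    ring
  intro k hk hk0 hck
  have h1 := hall k hk hk0 hck
  have h2 := hall k0 hk0a (by omega) hk0c
  have h3 : (k : ℂ) ^ 2 = (k0 : ℂ) ^ 2 := by linear_combination h2 - h1
  have h4 : k ^ 2 = k0 ^ 2 := by exact_mod_cast h3
  rcases sq_eq_sq_iff_eq_or_eq_neg.1 h4 with h5 | h5 <;> omega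

theorem tTRP2 (hTRD : StTRD) : StTRP := by
  classical
  intro N c hW
  by_cases hS : ∃ k : ℤ, |k| ≤ N ∧ k ≠ 0 ∧ c k ≠ 0
  · obtain ⟨T, hT⟩ : ∃ T, T = (Finset.Icc (-(N : ℤ)) N).filter (fun k => k ≠ 0 ∧ c k ≠ 0) :=
      ⟨_, rfl⟩
    have hTne : T.Nonempty := by
      obtain ⟨k, h1, h2⟩ := hS
      refine ⟨k, ?_⟩
      rw [hT, Finset.mem_filter, Finset.mem_Icc]
      exact ⟨abs_le.1 h1, h2⟩
    obtain ⟨k0, hk0, hmax⟩ := Finset.exists_max_image T (fun k => k.natAbs) hTne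
    rw [hT, Finset.mem_filter, Finset.mem_Icc] at hk0
    obtain ⟨M, hM⟩ : ∃ M : ℕ, M = k0.natAbs := ⟨_, rfl⟩
    rw [← hM] at hmax
    have hle : ∀ k : ℤ, |k| ≤ N → k ≠ 0 → c k ≠ 0 → |k| ≤ M := by
      intro k h1 h2 h3
      have := hmax k (by rw [hT, Finset.mem_filter, Finset.mem_Icc]; exact ⟨abs_le.1 h1, h2, h3⟩)
      rw [abs_le]
      omega
    have hM0 : 0 < M := by omega
    have hMN : M ≤ N := by omega
    have htp : ∀ c' : ℤ → ℂ, (∀ k : ℤ, |k| ≤ N → ¬ |k| ≤ M → c' k = 0) → tp N c' = tp M c' := by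
      intro c' h
      funext s
      unfold tp
      symm
      apply Finset.sum_subset
      · intro k hk
        rw [Finset.mem_Icc] at hk ⊢
        omega
      · intro k hk hk'
        rw [Finset.mem_Icc] at hk hk'
        rw [h k (abs_le.2 hk) (fun h => hk' (abs_le.1 h)), zero_mul]
    have h1 : ∀ k : ℤ, |k| ≤ N → ¬ |k| ≤ M → c k = 0 := by
      intro k hk hk'
      by_contra h
      exact hk' (hle k hk (by rintro rfl; apply hk'; simp) h)
    have h2 : ∀ k : ℤ, |k| ≤ N → ¬ |k| ≤ M → cjc c k = 0 := by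
      intro k hk hk'
      unfold cjc
      rw [h1 (-k) (by rwa [abs_neg]) (by rwa [abs_neg]), map_zero]
    rw [htp c h1, htp (cjc c) h2] at hW
    have h3 := TRP2_main hTRD M c hM0 (by
      rcases Int.natAbs_eq k0 with h | h
      · left
        rw [hM, ← h]
        exact hk0.2.2
      · right
        rw [hM, ← h]
        exact hk0.2.2) hW
    refine ⟨M, by exact_mod_cast hM0, fun k hk hk0 hck => h3 k (hle k hk hk0 hck) hk0 hck⟩
  · refine ⟨1, one_pos, fun k hk hk0 hck => ?_⟩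
    exact absurd ⟨k, hk, hk0, hck⟩ hS

end H719FX
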