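import Pool.Agent.H719R4.FX.Fin3
import Pool.Agent.H719R4.FX.OSG
import Pool.Agent.H719R4.FX.OLC
import Pool.Agent.H719R4.FX.OCH
import Pool.Agent.H719R4.FX.OGD
import Pool.Agent.H719R4.FX.OST
import Pool.Agent.H719R4.FX.OTP
import Pool.Agent.H719R4.FX.OBR
import Pool.Agent.H719R4.FX.RLI
import Pool.Agent.H719R4.FX.OFO
import Pool.Agent.H719R4.FX.TRG
import Pool.Agent.H719R4.FX.OTX
import Pool.Agent.H719R4.FX.TMI
import Pool.Agent.H719R4.FX.TMB
import Pool.Agent.H719R4.FX.TMP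
import Pool.Agent.H719R4.FX.TMO
import Pool.Agent.H719R4.FX.TRP2
import Pool.Agent.H719R4.FX.TRD
import Pool.Agent.H719R4.FX.TRE
import Pool.Agent.H719R4.FX.TRX

/-! # Assembly, fourth part: trigonometric ovals, outer billiards -/

open Complex Set Filter Topology

namespace H719FX

open H738CZ

theorem fin_trp : StTRP := tTRP2 tTRD

theorem fin_trg : StTRG := tTRG tTMI tTMB tTMP tTMO fin_trp tTRD tTRE

theorem fin_trx : StTRX := tTRX fin_flz tTMI tTMB tTMP tTMO fin_trp tTRD tTRE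

theorem fin_ofo : StOFO := by
  obtain ⟨-, -, -, -, -, hLAW, hINI, hCPX, hTRL, hDSC⟩ := cz
  have hOLC := tOLC (tOSG hTRL hDSC)
  exact tOFO tSTZ (tOST (tOGD hINI hCPX hLAW) tSGN) tOTP hOLC (tOCH hOLC)
    (tOBR fin_end fin_nex tGIN) tRLI

theorem fin_otx : StOTX := tOTX fin_ofo fin_trg tTRD

end H719FX
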