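import Pool.Agent.H719R4.FX.NegI
import Pool.Agent.H719R4.FX.EE

set_option autoImplicit false

/-!
Task JEE of project FX: extension to an entire function (helper221, adapted from FX/IEE.lean).
-/

open Complex Set Filter Topology

namespace H719FX

open H738CZ

theorem JEE_McJ_an (a b : ℕ) (x : ℂ) (h : x ∈ slitPlane) : AnalyticAt ℂ (McJ a b) x := by
  unfold McJ
  exact (analyticAt_const.mul (analyticAt_clog h)).cexp

theorem JEE_Bn_one (a b : ℕ) (ha : 1 ≤ a) : Bn a b 1 = 0 := by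
  have h : (a : ℂ) + b ≠ 0 := by exact_mod_cast (by omega : a + b ≠ 0)
  unfold Bn
  simp only [inv_one, one_pow, mul_one]
  field_simp
  ring

theorem JEE_Bn_an (a b : ℕ) (x : ℂ) (hx : x ≠ 0) : AnalyticAt ℂ (Bn a b) x := by
  unfold Bn
  have h1 : AnalyticAt ℂ (fun s : ℂ => s⁻¹) x := analyticAt_inv hx
  exact ((analyticAt_const.mul (h1.pow a)).add
    (analyticAt_const.mul (analyticAt_id.pow b))).sub analyticAt_const

theorem JEE_slit {a b : ℕ} (ha : 1 ≤ a) (hb : a < b) {x : ℂ} (hx : x ∈ Dn b) : x ∈ slitPlane := by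
  have h1 : 1 ≤ ‖x‖ := hx.1
  have hx0 : x ≠ 0 := by
    rintro rfl
    rw [norm_zero] at h1
    linarith
  rw [Complex.mem_slitPlane_iff_arg]
  refine ⟨?_, hx0⟩
  intro h
  have h2 := hx.2
  rw [h, abs_of_pos Real.pi_pos] at h2
  have h3 : (2 : ℝ) ≤ (b : ℝ) := by exact_mod_cast (by omega : 2 ≤ b)
  have h4 : Real.pi / (b : ℝ) ≤ Real.pi / 2 :=
    div_le_div_of_nonneg_left Real.pi_pos.le (by norm_num) h3
  linarith [Real.pi_pos]

theorem JEE_local (hJPP : StJPP) (hVA : StNVA) (a b : ℕ) (F : ℂ → ℂ) (R : ℝ) (ha : 1 ≤ a) (hb : a < b)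
    (hR : 0 < R) (hF : DifferentiableOn ℂ F (Metric.ball 0 R)) (hrel : Rel1J a b F) (q1 : ℂ)
    (hq1 : ‖q1‖ = R) :
    ∃ E : ℂ → ℂ, AnalyticAt ℂ E q1 ∧ ∀ᶠ q in 𝓝 q1, ‖q‖ < R → E q = F q := by
  have hq0 : q1 ≠ 0 := by
    rintro rfl
    rw [norm_zero] at hq1
    exact hR.ne hq1
  obtain ⟨x1, hx1, hB, hlt, hrelc⟩ := hJPP a b F R ha hb hR hF hrel q1 hq0 hq1.le
  unfold RelAtJ at hrelc
  have hx0 : x1 ≠ 0 := by
    rintro rfl
    have := hx1.1
    rw [norm_zero] at this
    linarith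
  have hx1' : x1 ≠ 1 := by
    rintro rfl
    exact hq0 (by rw [← hB]; exact JEE_Bn_one a b ha)
  have V := hVA a b ha hb
  have hder := V.dB x1 hx0
  have hsl := JEE_slit ha hb hx1
  have hd : deriv (Bn a b) x1 ≠ 0 := by
    rw [hder.deriv]
    unfold Bnd
    have h1 : (a : ℂ) ≠ 0 := by exact_mod_cast (by omega : a ≠ 0)
    have h2 : (a : ℂ) + b ≠ 0 := by exact_mod_cast (by omega : a + b ≠ 0)
    have h3 : (b : ℂ) ≠ 0 := by exact_mod_cast (by omega : b ≠ 0)
    exact mul_ne_zero (mul_ne_zero (div_ne_zero (mul_ne_zero h1 h3) h2)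
      (pow_ne_zero _ (inv_ne_zero hx0))) (sub_ne_zero.mpr (V.gt x1 hx1 hx1').1)
  have hBan := JEE_Bn_an a b x1 hx0
  set ξ : ℂ → ℂ := hBan.hasStrictDerivAt.localInverse _ _ _ hd with hξ
  have hξan : AnalyticAt ℂ ξ q1 := by
    rw [← hB]; exact hBan.analyticAt_localInverse hd
  have hξ1 : ξ q1 = x1 := by
    rw [← hB]
    exact HasStrictFDerivAt.localInverse_apply_image ..
  have hξr : ∀ᶠ q in 𝓝 q1, Bn a b (ξ q) = q := by
    have := HasStrictDerivAt.eventually_right_inverse hBan.hasStrictDerivAt hd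
    rwa [hB] at this
  refine ⟨fun q => McJ a b (ξ q) * F (Bn a b (ξ q)⁻¹), ?_, ?_⟩
  · have e1 : AnalyticAt ℂ (fun q => McJ a b (ξ q)) q1 := by
      apply AnalyticAt.fun_comp (g := McJ a b) _ hξan
      rw [hξ1]
      exact JEE_McJ_an a b x1 hsl
    have e2 : AnalyticAt ℂ (fun q => (ξ q)⁻¹) q1 :=
      hξan.fun_inv (by rw [hξ1]; exact hx0)
    have e3 : AnalyticAt ℂ (fun q => Bn a b (ξ q)⁻¹) q1 :=
      AnalyticAt.fun_comp (g := Bn a b) (JEE_Bn_an a b _ (by rw [hξ1]; exact inv_ne_zero hx0)) e2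
    have e4 : AnalyticAt ℂ (fun q => F (Bn a b (ξ q)⁻¹)) q1 := by
      apply AnalyticAt.fun_comp (g := F) _ e3
      apply hF.analyticAt
      apply Metric.isOpen_ball.mem_nhds
      rw [hξ1, mem_ball_zero_iff, ← hq1]
      exact hlt
    exact e1.mul e4
  · have hcont : Tendsto ξ (𝓝 q1) (𝓝 x1) := by
      have := hξan.continuousAt.tendsto
      rwa [hξ1] at this
    filter_upwards [hξr, hcont.eventually hrelc] with q hq hq2 hqR
    rw [hq] at hq2
    exact (hq2 hqR).symm

theorem JEE_step (hJPP : StJPP) (hVA : StNVA) (a b : ℕ) (F : ℂ → ℂ) (R : ℝ) (ha : 1 ≤ a) (hb : a < b)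
    (hR : 0 < R) (hF : DifferentiableOn ℂ F (Metric.ball 0 R)) (hrel : Rel1J a b F) :
    ∃ (R' : ℝ) (H : ℂ → ℂ), R < R' ∧ DifferentiableOn ℂ H (Metric.ball 0 R') ∧ EqOn H F (Metric.ball 0 R) := by
  classical
  -- local extensions
  have hloc : ∀ y : Metric.sphere (0 : ℂ) R, ∃ (E : ℂ → ℂ) (r : ℝ), 0 < r ∧
      DifferentiableOn ℂ E (Metric.ball (y : ℂ) r) ∧ ∀ q ∈ Metric.ball (y : ℂ) r, ‖q‖ < R → E q = F q := by
    rintro ⟨y, hy⟩
    have hy' : ‖y‖ = R := by simpa using hy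
    obtain ⟨E, hE, hEF⟩ := JEE_local hJPP hVA a b F R ha hb hR hF hrel y hy'
    have h1 := hE.eventually_analyticAt
    obtain ⟨r, hr, hball⟩ := Metric.eventually_nhds_iff_ball.mp (h1.and hEF)
    exact ⟨E, r, hr, fun q hq => (hball q hq).1.differentiableAt.differentiableWithinAt,
      fun q hq => (hball q hq).2⟩
  choose E0 r0 hr0 hE0 hEF0 using hloc
  obtain ⟨δ, hδ, hleb⟩ := lebesgue_number_lemma_of_metric (s := Metric.sphere (0 : ℂ) R)
    (c := fun y : Metric.sphere (0 : ℂ) R => Metric.ball (y : ℂ) (r0 y)) (isCompact_sphere _ _)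
    (fun _ => Metric.isOpen_ball) (fun z hz => mem_iUnion.mpr ⟨⟨z, hz⟩, Metric.mem_ball_self (hr0 _)⟩)
  have hext : ∀ z : ℂ, ∃ E : ℂ → ℂ, z ∈ Metric.sphere (0 : ℂ) R →
      DifferentiableOn ℂ E (Metric.ball z δ) ∧ ∀ q ∈ Metric.ball z δ, ‖q‖ < R → E q = F q := by
    intro z
    by_cases hz : z ∈ Metric.sphere (0 : ℂ) R
    · obtain ⟨y, hy⟩ := hleb z hz
      exact ⟨E0 y, fun _ => ⟨(hE0 y).mono hy, fun q hq => hEF0 y q (hy hq)⟩⟩
    · exact ⟨F, fun h => absurd h hz⟩
  choose E hE using hext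
  -- overlaps
  have hover : ∀ z ∈ Metric.sphere (0 : ℂ) R, ∀ z' ∈ Metric.sphere (0 : ℂ) R, ∀ w ∈ Metric.ball z δ,
      w ∈ Metric.ball z' δ → E z w = E z' w := by
    intro z hz z' hz' w hw hw'
    rcases eq_or_ne z z' with rfl | hne
    · rfl
    have hzn : ‖z‖ = R := by simpa using hz
    have hzn' : ‖z'‖ = R := by simpa using hz'
    obtain ⟨hd, hag⟩ := hE z hz
    obtain ⟨hd', hag'⟩ := hE z' hz'
    set M : ℂ := (1 / 2 : ℝ) • (z + z') with hM
    have hMn : ‖M‖ < R := by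
      rw [← hzn]; exact (norm_midpoint_lt_iff (by rw [hzn, hzn'])).mpr hne
    have hzz : dist z z' < 2 * δ := by
      have h1 := dist_triangle z w z'
      rw [Metric.mem_ball] at hw hw'
      rw [dist_comm] at hw
      linarith
    have hMz : M ∈ Metric.ball z δ := by
      rw [Metric.mem_ball, dist_eq_norm]
      have e : M - z = (1 / 2 : ℝ) • (z' - z) := by
        rw [hM]; simp only [Complex.real_smul]; push_cast; ring
      rw [e, norm_smul, Real.norm_of_nonneg (by norm_num), ← dist_eq_norm, dist_comm]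
      linarith
    have hMz' : M ∈ Metric.ball z' δ := by
      rw [Metric.mem_ball, dist_eq_norm]
      have e : M - z' = (1 / 2 : ℝ) • (z - z') := by
        rw [hM]; simp only [Complex.real_smul]; push_cast; ring
      rw [e, norm_smul, Real.norm_of_nonneg (by norm_num), ← dist_eq_norm]
      linarith
    have hU : IsPreconnected (Metric.ball z δ ∩ Metric.ball z' δ) :=
      ((convex_ball z δ).inter (convex_ball z' δ)).isPreconnected
    have hopen : IsOpen (Metric.ball z δ ∩ Metric.ball z' δ) := Metric.isOpen_ball.inter Metric.isOpen_ball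
    have ha : AnalyticOnNhd ℂ (E z) (Metric.ball z δ ∩ Metric.ball z' δ) :=
      (hd.mono inter_subset_left).analyticOnNhd hopen
    have ha' : AnalyticOnNhd ℂ (E z') (Metric.ball z δ ∩ Metric.ball z' δ) :=
      (hd'.mono inter_subset_right).analyticOnNhd hopen
    have hev : E z =ᶠ[𝓝 M] E z' := by
      have h1 : ∀ᶠ q in 𝓝 M, q ∈ Metric.ball z δ ∩ Metric.ball z' δ := hopen.mem_nhds ⟨hMz, hMz'⟩
      have h2 : ∀ᶠ q in 𝓝 M, ‖q‖ < R := by
        have : Metric.ball (0 : ℂ) R ∈ 𝓝 M := Metric.isOpen_ball.mem_nhds (by simpa using hMn)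
        filter_upwards [this] with q hq
        simpa using hq
      filter_upwards [h1, h2] with q hq hqR
      rw [hag q hq.1 hqR, hag' q hq.2 hqR]
    exact ha.eqOn_of_preconnected_of_eventuallyEq ha' hU ⟨hMz, hMz'⟩ hev ⟨hw, hw'⟩
  -- the projection on the sphere
  have hproj : ∀ q : ℂ, R ≤ ‖q‖ → ((R / ‖q‖ : ℝ) • q) ∈ Metric.sphere (0 : ℂ) R ∧
      dist q ((R / ‖q‖ : ℝ) • q) = ‖q‖ - R := by
    intro q hq
    have hq0 : 0 < ‖q‖ := lt_of_lt_of_le hR hq
    constructor
    · rw [mem_sphere_zero_iff_norm, norm_smul, Real.norm_of_nonneg (by positivity), div_mul_cancel₀ _ hq0.ne']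
    · rw [dist_eq_norm]
      have e : q - (R / ‖q‖ : ℝ) • q = (1 - R / ‖q‖ : ℝ) • q := by rw [sub_smul, one_smul]
      rw [e, norm_smul, Real.norm_of_nonneg (by rw [sub_nonneg, div_le_one hq0]; exact hq)]
      field_simp
  set H : ℂ → ℂ := fun q => if ‖q‖ < R then F q else E ((R / ‖q‖ : ℝ) • q) q with hH
  refine ⟨R + δ, H, by linarith, ?_, ?_⟩
  · intro q0 hq0
    apply DifferentiableAt.differentiableWithinAt
    rw [mem_ball_zero_iff] at hq0
    rcases lt_or_ge ‖q0‖ R with h | h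
    · have hmem : Metric.ball (0 : ℂ) R ∈ 𝓝 q0 := Metric.isOpen_ball.mem_nhds (by simpa using h)
      have : H =ᶠ[𝓝 q0] F := by
        filter_upwards [hmem] with q hq
        rw [mem_ball_zero_iff] at hq
        simp only [hH, if_pos hq]
      exact this.differentiableAt_iff.mpr (hF.differentiableAt hmem)
    · obtain ⟨hz0, hdist⟩ := hproj q0 h
      set z0 : ℂ := (R / ‖q0‖ : ℝ) • q0 with hz0def
      obtain ⟨hd0, hag0⟩ := hE z0 hz0
      have hq0z : q0 ∈ Metric.ball z0 δ := by rw [Metric.mem_ball, hdist]; linarith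
      have h1 : Metric.ball z0 δ ∈ 𝓝 q0 := Metric.isOpen_ball.mem_nhds hq0z
      have h2 : Metric.ball (0 : ℂ) (R + δ) ∈ 𝓝 q0 := Metric.isOpen_ball.mem_nhds (by simpa using hq0)
      have : H =ᶠ[𝓝 q0] E z0 := by
        filter_upwards [h1, h2] with q hq hq2
        rw [mem_ball_zero_iff] at hq2
        by_cases hqR : ‖q‖ < R
        · simp only [hH, if_pos hqR]
          exact (hag0 q hq hqR).symm
        · simp only [hH, if_neg hqR]
          have hqR' := not_lt.mp hqR
          obtain ⟨a1, a2⟩ := hproj q hqR'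
          exact hover _ a1 z0 hz0 q (by rw [Metric.mem_ball, a2]; linarith) hq
      exact this.differentiableAt_iff.mpr (hd0.differentiableAt h1)
  · intro q hq
    rw [mem_ball_zero_iff] at hq
    simp only [hH, if_pos hq]

theorem tJEE (hJPP : StJPP) (hVA : StNVA) : StJEE := by
  intro a b F R ha hb hR hF hrel
  have hFan : AnalyticAt ℂ F 0 := hF.analyticAt (Metric.isOpen_ball.mem_nhds (Metric.mem_ball_self hR))
  obtain ⟨p, hp⟩ := hFan
  have hrad : ∀ s : ℝ, 0 < s → s < R → ENNReal.ofReal s ≤ p.radius :=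
    fun s hs0 hs => EE_radius F R hF p hp s hs0 hs
  have hpos : 0 < p.radius := by
    have h1 : (0 : ℝ) < R / 2 := by linarith
    have h2 := hrad (R / 2) h1 (by linarith)
    refine lt_of_lt_of_le ?_ h2
    exact ENNReal.ofReal_pos.mpr h1
  have hRle : ENNReal.ofReal R ≤ p.radius := by
    refine le_of_forall_lt fun c hc => ?_
    have hcne : c ≠ ⊤ := ne_top_of_lt hc
    have hc' : c.toReal < R := (ENNReal.lt_ofReal_iff_toReal_lt hcne).mp hc
    have hc0 : 0 ≤ c.toReal := ENNReal.toReal_nonneg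
    set s : ℝ := (c.toReal + R) / 2 with hs
    have hs0 : 0 < s := by rw [hs]; linarith
    have hsR : s < R := by rw [hs]; linarith
    have hcs : c.toReal < s := by rw [hs]; linarith
    refine lt_of_lt_of_le ?_ (hrad s hs0 hsR)
    rw [← ENNReal.ofReal_toReal hcne]
    exact (ENNReal.ofReal_lt_ofReal_iff hs0).mpr hcs
  have hsum := p.hasFPowerSeriesOnBall hpos
  set G : ℂ → ℂ := p.sum with hG
  have hGF0 : G =ᶠ[𝓝 0] F := by
    have h1 := hp.eventually_hasSum
    have h2 := hsum.hasFPowerSeriesAt.eventually_hasSum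
    filter_upwards [h1, h2] with y hy1 hy2
    rw [zero_add] at hy1 hy2
    exact hy2.unique hy1
  have hball : ∀ r : ℝ, ENNReal.ofReal r ≤ p.radius → DifferentiableOn ℂ G (Metric.ball 0 r) := by
    intro r hr
    have h1 := hsum.differentiableOn
    refine h1.mono ?_
    intro x hx
    have : x ∈ Metric.eball (0 : ℂ) (ENNReal.ofReal r) := by
      rwa [Metric.eball_ofReal]
    exact Metric.eball_subset_eball hr this
  have hGF : EqOn G F (Metric.ball 0 R) := by
    have h1 : AnalyticOnNhd ℂ G (Metric.ball 0 R) := (hball R hRle).analyticOnNhd Metric.isOpen_ball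
    have h2 : AnalyticOnNhd ℂ F (Metric.ball 0 R) := hF.analyticOnNhd Metric.isOpen_ball
    exact h1.eqOn_of_preconnected_of_eventuallyEq h2 (convex_ball 0 R).isPreconnected
      (Metric.mem_ball_self hR) hGF0
  by_cases htop : p.radius = ⊤
  · refine ⟨G, ?_, hGF⟩
    intro x
    have h1 := hball (‖x‖ + 1) (by rw [htop]; exact le_top)
    apply h1.differentiableAt
    apply Metric.isOpen_ball.mem_nhds
    rw [mem_ball_zero_iff]; linarith
  · exfalso
    set R0 : ℝ := p.radius.toReal with hR0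
    have hR0pos : 0 < R0 := ENNReal.toReal_pos hpos.ne' htop
    have hofR0 : ENNReal.ofReal R0 = p.radius := ENNReal.ofReal_toReal htop
    have hrelG : Rel1J a b G := by
      unfold Rel1J at hrel ⊢
      have hB1 : Tendsto (Bn a b) (𝓝 1) (𝓝 0) := by
        have := (JEE_Bn_an a b 1 one_ne_zero).continuousAt.tendsto
        rwa [JEE_Bn_one a b ha] at this
      have hM1 : Tendsto (fun x : ℂ => x⁻¹) (𝓝 1) (𝓝 1) := by
        have := (continuousAt_inv₀ (one_ne_zero : (1 : ℂ) ≠ 0)).tendsto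
        rwa [inv_one] at this
      have hmem : Metric.ball (0 : ℂ) R ∈ 𝓝 (0 : ℂ) := Metric.isOpen_ball.mem_nhds (Metric.mem_ball_self hR)
      filter_upwards [hrel, hB1.eventually hmem, (hB1.comp hM1).eventually hmem] with x hx h1 h2
      rw [hGF h1]
      have h2' : Bn a b x⁻¹ ∈ Metric.ball (0 : ℂ) R := h2
      rw [hGF h2']
      exact hx
    obtain ⟨R', H, hRR', hHd, hHG⟩ := JEE_step hJPP hVA a b G R0 ha hb hR0pos (hball R0 hofR0.le) hrelG
    have hHp : HasFPowerSeriesAt H p 0 := by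
      refine hsum.hasFPowerSeriesAt.congr ?_
      have hmem : Metric.ball (0 : ℂ) R0 ∈ 𝓝 (0 : ℂ) := Metric.isOpen_ball.mem_nhds (Metric.mem_ball_self hR0pos)
      filter_upwards [hmem] with x hx
      exact (hHG hx).symm
    set s : ℝ := (R0 + R') / 2 with hs
    have hs0 : 0 < s := by rw [hs]; linarith
    have h2 := EE_radius H R' hHd p hHp s hs0 (by rw [hs]; linarith)
    rw [← hofR0, ENNReal.ofReal_le_ofReal_iff hR0pos.le] at h2
    rw [hs] at h2
    linarith

end H719FX
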