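import Pool.Agent.H719R4.FX.NegI
import Pool.Agent.H738R3.CZ.EXT
import Pool.Agent.H738R3.CZ.REC
import Pool.Agent.H738R3.CZ.EXV
import Pool.Agent.H738R3.CZ.EX1
import Pool.Agent.H738R3.CZ.EX2
import Pool.Agent.H738R3.CZ.EX3
import Pool.Agent.H738R3.CZ.EXA
import Pool.Agent.H738R3.CZ.PRI
import Pool.Agent.H738R3.CZ.MON
import Pool.Agent.H738R3.CZ.V3C

/-!
# JEXT: extension to the punctured disc, with pole orders (places at infinity with an inflectional
asymptote, isotropic direction; adapted from `FX/IEXT.lean` by helper196)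
-/

open Complex Set Filter Topology

namespace H719FX

open H738CZ

lemma JEXT_ball {t : ℂ} {R : ℝ} (ht : t ∈ V3 R) : t ^ 6 ∈ Metric.ball (0 : ℂ) (R ^ 6) := by
  have h1 : ‖t‖ < R := by simpa using ht.1
  simp only [Metric.mem_ball, dist_zero_right, norm_pow]
  exact pow_lt_pow_left₀ h1 (norm_nonneg _) (by norm_num)

lemma JEXT_ker : Ker kcs where
  even := by
    intro i
    simp [kcs]
  one := by simp [kcs]
  bd := by
    intro i
    unfold kcs
    split
    · simp
    · simp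

lemma JEXT_base {a b : ℕ} {u : ℂ → ℂ} {R : ℝ} (ha : 1 ≤ a) (hU : UI u R) :
    Base (di (a + b)) (ρj a b u) (rj a b u) (V3 R) where
  op := EXT_open R
  dd := by
    unfold di
    refine DifferentiableOn.div (differentiableOn_const _) differentiableOn_id ?_
    intro t ht
    exact ht.2
  d0 := by
    intro t ht
    have h2 : t ≠ 0 := ht.2
    have h3 : ((a + b : ℕ) : ℂ) ≠ 0 := by
      rw [Nat.cast_ne_zero]; omega
    exact div_ne_zero (neg_ne_zero.2 (mul_ne_zero (mul_ne_zero (by norm_num) I_ne_zero) h3)) h2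
  rd := by
    unfold rj
    refine DifferentiableOn.mul (by fun_prop) ?_
    refine hU.df.comp (by fun_prop) ?_
    intro t ht
    exact JEXT_ball ht
  rn := by
    intro t ht
    have h2 : t ≠ 0 := ht.2
    exact mul_ne_zero (pow_ne_zero _ h2) (hU.nz _ (JEXT_ball ht))
  cube := by
    intro t _
    rfl

/-- the inductive step -/
lemma JEXT_step (hREC : StREC) (hEXV : StEXV) (hWT : StJWT) (hPRI : StPRI) (hMON : StMON)
    (hV3C : StV3C) {a b : ℕ} {u : ℂ → ℂ} {R : ℝ} (ha : 1 ≤ a) (hab : a < b)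
    (hU : UI u R) {g : ℕ → ℂ → ℂ} {τ1 : ℂ} {η : ℝ} (hη : 0 < η)
    (hsub : Metric.ball τ1 η ⊆ V3 R)
    (hFI : FI kcs (di (a + b)) (ρj a b u) (rj a b u) g (Metric.ball τ1 η)) (J : ℕ) (hJ : 2 ≤ J)
    (h G : ℕ → ℂ → ℂ) (hd : ∀ i, 1 ≤ i → i < J → DifferentiableOn ℂ (h i) (V3 R))
    (he : ∀ i, 1 ≤ i → i < J → EqOn (h i) (g i) (Metric.ball τ1 η))
    (hG : ∀ i, 1 ≤ i → i < J → PolJ a b R h i (G i)) :
    ∃ f F : ℂ → ℂ, DifferentiableOn ℂ f (V3 R) ∧ EqOn f (g J) (Metric.ball τ1 η) ∧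
      DifferentiableOn ℂ F (Metric.ball 0 R) ∧
      ∀ τ ∈ V3 R, f τ * τ ^ ((2 * (b - a)) * (J - 1)) = F τ := by
  have hB := JEXT_base (b := b) ha hU
  have hkc := JEXT_ker
  have hτ1 : τ1 ∈ Metric.ball τ1 η := Metric.mem_ball_self hη
  -- the modified family
  set h' : ℕ → ℂ → ℂ := fun j => if j < J then h j else g j with hh'
  have hFI' : FI kcs (di (a + b)) (ρj a b u) (rj a b u) h' (Metric.ball τ1 η) := by
    refine hMON kcs (di (a + b)) (ρj a b u) (rj a b u) (di (a + b)) (ρj a b u) (rj a b u) g h' _ _ hFI Metric.isOpen_ball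
      Subset.rfl (fun _ _ => rfl) (fun _ _ => rfl) (fun _ _ => rfl) ?_
    intro j hj
    by_cases hjJ : j < J
    · simp only [hh', hjJ, if_true]; exact he j hj hjJ
    · simp only [hh', hjJ, if_false]; exact fun _ _ => rfl
  have hTm : ∀ j, j < J → ∀ t, Tm kcs (di (a + b)) (ρj a b u) (rj a b u) h' j t
      = Tm kcs (di (a + b)) (ρj a b u) (rj a b u) h j t := by
    intro j hj t
    simp only [Tm, hh', hj, if_true]
  have hCf : ∀ i, i < J → ∀ N t, Cf kcs (di (a + b)) (ρj a b u) (rj a b u) h' i N t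
      = Cf kcs (di (a + b)) (ρj a b u) (rj a b u) h i N t := by
    intro i hi N t
    unfold Cf
    congr 1
    refine Finset.sum_congr rfl fun j hj => ?_
    rw [Finset.mem_Icc] at hj
    exact hTm j (by omega) t
  have hLo : ∀ t, Lo kcs (di (a + b)) (ρj a b u) (rj a b u) h' J t
      = Lo kcs (di (a + b)) (ρj a b u) (rj a b u) h J t := by
    intro t
    unfold Lo
    congr 1
    refine Finset.sum_congr rfl fun j hj => ?_
    rw [Finset.mem_Ico] at hj
    exact hTm j hj.2 t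
  have hlaw : ∀ i, 1 ≤ i → i < J → ∀ t ∈ V3 R,
      Cf kcs (di (a + b)) (ρj a b u) (rj a b u) h i (2 * i + 1) t = 0 := by
    intro i hi hiJ
    refine EXT_ident (EXT_open R) (hV3C R) Metric.isOpen_ball hsub hτ1
      (EXT_Cf hB (fun j hj hji => hd j hj (by omega)) _) ?_
    intro t ht
    rw [← hCf i hiJ]
    exact hFI'.law i hi t ht
  have hone : ∀ t ∈ V3 R, h 1 t = 2 := by
    have h1 : ∀ t ∈ V3 R, h 1 t - 2 = 0 := by
      refine EXT_ident (EXT_open R) (hV3C R) Metric.isOpen_ball hsub hτ1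
        ((hd 1 le_rfl (by omega)).sub_const 2) ?_
      intro t ht
      rw [he 1 le_rfl (by omega) ht, hFI.one t ht, sub_self]
    intro t ht
    exact sub_eq_zero.mp (h1 t ht)
  obtain ⟨P, hPd, hP⟩ := hEXV kcs hkc (di (a + b)) (ρj a b u) (rj a b u) (V3 R) hB h J hJ hd hone hlaw
  -- derivative of `g J`
  have hder : ∀ t ∈ Metric.ball τ1 η, deriv (g J) t = -2 ^ J * deriv P t := by
    intro t ht
    have h1 := hREC kcs hkc (di (a + b)) (ρj a b u) (rj a b u) (Metric.ball τ1 η) hFI'.base h' J (by omega)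
      (hFI'.gd J (by omega)) t ht
    rw [hFI'.law J (by omega) t ht, hLo t] at h1
    have h2 : h' J = g J := by simp [hh']
    rw [h2] at h1
    have h3 := hP t (hsub ht)
    have hr := hB.rn t (hsub ht)
    have hd0 := hB.d0 t (hsub ht)
    unfold DD at h1 h3
    have h4 : (rj a b u t ^ 2 / 2) ^ J * ((rj a b u t)⁻¹ ^ (2 * J) * 2 ^ J) = 1 := by
      rw [pow_mul, ← mul_pow, ← mul_pow]
      have : rj a b u t ^ 2 / 2 * ((rj a b u t)⁻¹ ^ 2 * 2) = 1 := by
        field_simp
      rw [this, one_pow]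
    have h5 : deriv (g J) t / (di (a + b)) t = -2 ^ J * (deriv P t / (di (a + b)) t) := by
      rw [h3]
      linear_combination (-((rj a b u t)⁻¹ ^ (2 * J) * 2 ^ J)) * h1 -
        (deriv (g J) t / (di (a + b)) t) * h4
    field_simp at h5
    linear_combination h5
  obtain ⟨c, hc⟩ : ∃ c : ℂ, EqOn (g J) (fun t => -2 ^ J * P t + c) (Metric.ball τ1 η) := by
    have hcd : DifferentiableOn ℂ (fun t => -2 ^ J * P t) (Metric.ball τ1 η) :=
      (hPd.mono hsub).const_mul _
    refine Metric.isOpen_ball.exists_eq_add_of_deriv_eq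
      (Metric.isPreconnected_ball) (hFI.gd J (by omega)) hcd ?_
    intro t ht
    rw [hder t ht]
    have hPt : DifferentiableAt ℂ P t :=
      (hPd t (hsub ht)).differentiableAt ((EXT_open R).mem_nhds (hsub ht))
    rw [deriv_const_mul _ hPt]
  obtain ⟨F, hFd, hF⟩ := hWT a b u R ha hab hU h J hJ hd
    (fun j hj hjJ => ⟨G j, hG j hj hjJ⟩)
  have hfd : DifferentiableOn ℂ (fun t => -2 ^ J * P t + c) (V3 R) :=
    (hPd.const_mul _).add_const c
  have hfder : ∀ τ ∈ V3 R, deriv (fun t => -2 ^ J * P t + c) τ = -2 ^ J * deriv P τ := by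
    intro t ht
    have hPt : DifferentiableAt ℂ P t :=
      (hPd t ht).differentiableAt ((EXT_open R).mem_nhds ht)
    rw [deriv_add_const, deriv_const_mul _ hPt]
  obtain ⟨G', hG'd, hG'⟩ := hPRI R ((2 * (b - a)) * (J - 1)) (fun t => -2 ^ J * P t + c)
    (fun τ => 2 ^ J * (3 * I * ((a + b : ℕ) : ℂ)) * F τ) hU.pos (by
      have e1 : 1 ≤ J - 1 := by omega
      have e2 : 1 ≤ b - a := by omega
      calc 1 = 1 * 1 := by norm_num
        _ ≤ (2 * (b - a)) * (J - 1) := Nat.mul_le_mul (by omega) e1) hfd (hFd.const_mul _) (by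
      intro τ hτ
      rw [hfder τ hτ, ← hF τ hτ, ← hP τ hτ]
      have hd0 := hB.d0 τ hτ
      have e1 : deriv P τ = (di (a + b)) τ * DD (di (a + b)) P τ := by
        unfold DD; field_simp
      rw [e1]
      have hτ0 : τ ≠ 0 := hτ.2
      generalize DD (di (a + b)) P τ = X
      unfold di
      rw [pow_succ]
      field_simp)
  exact ⟨fun t => -2 ^ J * P t + c, G', hfd, fun t ht => (hc ht).symm, hG'd, hG'⟩

theorem tJEXT (hWT : StJWT) : StJEXT := by
  have hREC : StREC := tREC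
  have hEX1 := tEX1
  have hEXV : StEXV := tEXV (tEXA hEX1 tEX2 (tEX3 hEX1))
  have hPRI : StPRI := tPRI
  have hMON : StMON := tMON
  have hV3C : StV3C := tV3C
  intro a b u R ha hab hU g τ1 η hη hsub hFI
  have hB := JEXT_base (b := b) ha hU
  have hτ1 : τ1 ∈ Metric.ball τ1 η := Metric.mem_ball_self hη
  have key : ∀ J : ℕ, 1 ≤ J → ∃ f F : ℂ → ℂ, DifferentiableOn ℂ f (V3 R) ∧
      EqOn f (g J) (Metric.ball τ1 η) ∧ DifferentiableOn ℂ F (Metric.ball 0 R) ∧
      ∀ τ ∈ V3 R, f τ * τ ^ ((2 * (b - a)) * (J - 1)) = F τ := by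
    intro J
    induction J using Nat.strong_induction_on with
    | _ J ih =>
      intro hJ
      by_cases hJ1 : J = 1
      · subst hJ1
        refine ⟨fun _ => 2, fun _ => 2, differentiableOn_const _, ?_, differentiableOn_const _, ?_⟩
        · intro t ht
          exact (hFI.one t ht).symm
        · intro τ _
          simp
      · have hJ2 : 2 ≤ J := by omega
        choose! h G h1 h2 h3 h4 using ih
        exact JEXT_step hREC hEXV hWT hPRI hMON hV3C ha hab hU hη hsub hFI J hJ2 h G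
          (fun i hi hiJ => h1 i hiJ hi) (fun i hi hiJ => h2 i hiJ hi)
          (fun i hi hiJ => ⟨h3 i hiJ hi, h4 i hiJ hi⟩)
  choose! h G h1 h2 h3 h4 using key
  have hFI' : FI kcs (di (a + b)) (ρj a b u) (rj a b u) h (Metric.ball τ1 η) :=
    hMON kcs (di (a + b)) (ρj a b u) (rj a b u) (di (a + b)) (ρj a b u) (rj a b u) g h _ _ hFI Metric.isOpen_ball
      Subset.rfl (fun _ _ => rfl) (fun _ _ => rfl) (fun _ _ => rfl) h2
  refine ⟨h, ⟨hB, h1, ?_, ?_⟩, h2, G, fun j hj => ⟨h3 j hj, h4 j hj⟩⟩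
  · have h5 : ∀ t ∈ V3 R, h 1 t - 2 = 0 := by
      refine EXT_ident (EXT_open R) (hV3C R) Metric.isOpen_ball hsub hτ1
        ((h1 1 le_rfl).sub_const 2) ?_
      intro t ht
      rw [h2 1 le_rfl ht, hFI.one t ht, sub_self]
    intro t ht
    exact sub_eq_zero.mp (h5 t ht)
  · intro J hJ
    exact EXT_ident (EXT_open R) (hV3C R) Metric.isOpen_ball hsub hτ1
      (EXT_Cf hB (fun j hj _ => h1 j hj) _) (fun t ht => hFI'.law J hJ t ht)

end H719FX
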