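import Pool.Agent.H719R4.FX.NegI
import Pool.Agent.H719R4.FX.G1

/-! Task JG1 (helper714; the affinity lemma is `G1_affine` of helper403): growth, by iteration of
the relation: if `‖x‖` is bounded then so is `F q`, otherwise `‖Bn (1/x)‖ ≤ ‖q‖ / 2` and linear
growth propagates. -/

open Complex Set Filter Topology

namespace H719FX

open H738CZ

theorem JG1_Mc {a b : ℕ} (hab : a < b) {s : ℂ} (hs : s ≠ 0) :
    ‖McJ a b s‖ ^ 3 = ‖s‖ ^ (2 * (b - a)) := by
  rw [← norm_pow, ← norm_pow]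
  unfold McJ
  rw [← Complex.exp_nat_mul]
  have h1 : ((3 : ℕ) : ℂ) * (2 * ((b : ℂ) - a) / 3 * log s) =
      ((2 * (b - a) : ℕ) : ℂ) * log s := by
    push_cast [Nat.cast_sub hab.le]
    field_simp
  rw [h1, Complex.exp_nat_mul, Complex.exp_log hs]

theorem JG1_c1 {a b : ℕ} (ha : 1 ≤ a) : ‖(b : ℂ) / (a + b)‖ ≤ 1 := by
  have h : (b : ℂ) / (a + b) = (((b : ℝ) / (a + b) : ℝ) : ℂ) := by push_cast; rfl
  have ha1 : (1 : ℝ) ≤ a := by exact_mod_cast ha
  have hb : (0 : ℝ) ≤ b := Nat.cast_nonneg b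
  rw [h, Complex.norm_real, Real.norm_eq_abs, abs_of_nonneg (by positivity),
    div_le_one (by positivity)]
  linarith

theorem JG1_c2 {a b : ℕ} : ‖(a : ℂ) / (a + b)‖ = (a : ℝ) / (a + b) := by
  have h : (a : ℂ) / (a + b) = (((a : ℝ) / (a + b) : ℝ) : ℂ) := by push_cast; rfl
  rw [h, Complex.norm_real, Real.norm_eq_abs, abs_of_nonneg (by positivity)]

theorem JG1_inv {a b : ℕ} (ha : 1 ≤ a) {x : ℂ} (hx : 1 ≤ ‖x‖) :
    ‖Bn a b x⁻¹‖ ≤ ‖x‖ ^ a + 2 := by
  have hi : ‖x⁻¹‖ ≤ 1 := by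
    rw [norm_inv]
    exact inv_le_one_of_one_le₀ hx
  have ha1 : (1 : ℝ) ≤ a := by exact_mod_cast ha
  have hb : (0 : ℝ) ≤ b := Nat.cast_nonneg b
  have h2 : (a : ℝ) / (a + b) ≤ 1 := by
    rw [div_le_one (by positivity)]
    linarith
  unfold Bn
  rw [inv_inv]
  calc ‖(b : ℂ) / (a + b) * x ^ a + (a : ℂ) / (a + b) * (x⁻¹) ^ b - 1‖
      ≤ ‖(b : ℂ) / (a + b) * x ^ a‖ + ‖(a : ℂ) / (a + b) * (x⁻¹) ^ b‖ + ‖(1 : ℂ)‖ :=
        (norm_sub_le _ _).trans (add_le_add (norm_add_le _ _) le_rfl)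
    _ ≤ 1 * ‖x‖ ^ a + 1 * 1 + 1 := by
        rw [norm_mul, norm_mul, norm_pow, norm_pow, norm_one]
        refine add_le_add (add_le_add ?_ ?_) le_rfl
        · exact mul_le_mul_of_nonneg_right (JG1_c1 ha) (by positivity)
        · exact mul_le_mul (by rw [JG1_c2]; exact h2) (pow_le_one₀ (norm_nonneg _) hi)
            (by positivity) zero_le_one
    _ = _ := by ring

theorem JG1_ge {a b : ℕ} (ha : 1 ≤ a) {x : ℂ} (hx : 1 ≤ ‖x‖) :
    ‖x‖ ^ b ≤ ((a : ℝ) + b) * (‖Bn a b x‖ + 2) := by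
  have hi : ‖x⁻¹‖ ≤ 1 := by
    rw [norm_inv]
    exact inv_le_one_of_one_le₀ hx
  have ha1 : (1 : ℝ) ≤ a := by exact_mod_cast ha
  have hb : (0 : ℝ) ≤ b := Nat.cast_nonneg b
  have e : (a : ℂ) / (a + b) * x ^ b = Bn a b x + 1 - (b : ℂ) / (a + b) * (x⁻¹) ^ a := by
    unfold Bn; ring
  have h1 : (a : ℝ) / (a + b) * ‖x‖ ^ b ≤ ‖Bn a b x‖ + 2 := by
    calc (a : ℝ) / (a + b) * ‖x‖ ^ b = ‖(a : ℂ) / (a + b) * x ^ b‖ := by
          rw [norm_mul, JG1_c2, norm_pow]
      _ = ‖Bn a b x + 1 - (b : ℂ) / (a + b) * (x⁻¹) ^ a‖ := by rw [e]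
      _ ≤ ‖Bn a b x‖ + ‖(1 : ℂ)‖ + ‖(b : ℂ) / (a + b) * (x⁻¹) ^ a‖ :=
          (norm_sub_le _ _).trans (add_le_add (norm_add_le _ _) le_rfl)
      _ ≤ ‖Bn a b x‖ + 1 + 1 * 1 := by
          rw [norm_mul, norm_pow, norm_one]
          refine add_le_add le_rfl ?_
          exact mul_le_mul (JG1_c1 ha) (pow_le_one₀ (norm_nonneg _) hi)
            (by positivity) zero_le_one
      _ = _ := by ring
  have h2 : (a : ℝ) / (a + b) * ‖x‖ ^ b * (a + b) = a * ‖x‖ ^ b := by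
    field_simp
  have h3 : (a : ℝ) * ‖x‖ ^ b ≤ (‖Bn a b x‖ + 2) * (a + b) := by
    rw [← h2]
    exact mul_le_mul_of_nonneg_right h1 (by positivity)
  have h4 : 1 * ‖x‖ ^ b ≤ (a : ℝ) * ‖x‖ ^ b :=
    mul_le_mul_of_nonneg_right ha1 (by positivity)
  linarith

theorem tJG1 (hPP : StJPP) (_hVA : StNVA) : StJG1 := by
  intro a b F ha hab hF hrel
  have ha1 : (1 : ℝ) ≤ a := by exact_mod_cast ha
  have hb1 : (1 : ℝ) ≤ b := by exact_mod_cast (by omega : 1 ≤ b)
  obtain ⟨s, hs⟩ : ∃ s : ℝ, s = (a : ℝ) + b := ⟨_, rfl⟩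
  have hs1 : 1 ≤ s := by rw [hs]; linarith
  obtain ⟨T, hT⟩ : ∃ T : ℝ, T = 512 * s ^ 3 := ⟨_, rfl⟩
  have hss : s ≤ s ^ 3 := by
    nlinarith [mul_nonneg (sub_nonneg.2 hs1) (sub_nonneg.2 hs1), mul_nonneg (by linarith : 0 ≤ s)
      (mul_nonneg (sub_nonneg.2 hs1) (sub_nonneg.2 hs1))]
  have hT1 : 1 ≤ T := by rw [hT]; nlinarith
  have hTs : 8 * s ≤ T := by rw [hT]; nlinarith
  obtain ⟨K0, hK0⟩ := (isCompact_closedBall (0 : ℂ) (T ^ a + 2)).exists_bound_of_continuousOn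
    hF.continuous.continuousOn
  have hK : 0 ≤ K0 := (norm_nonneg _).trans (hK0 0 (by
    rw [Metric.mem_closedBall, dist_self]; positivity))
  obtain ⟨A, hA⟩ : ∃ A : ℝ, A = T ^ (b - a) * K0 := ⟨_, rfl⟩
  have hTba : 1 ≤ T ^ (b - a) := one_le_pow₀ hT1
  have hKA : K0 ≤ A := by
    rw [hA]
    exact le_mul_of_one_le_left hK hTba
  have hA0 : 0 ≤ A := hK.trans hKA
  have hbase : ∀ q : ℂ, ‖q‖ ≤ 1 → ‖F q‖ ≤ A * (1 + ‖q‖) := by
    intro q hq
    have h1 : ‖F q‖ ≤ K0 := by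
      apply hK0
      rw [Metric.mem_closedBall, dist_zero_right]
      have : 0 ≤ T ^ a := by positivity
      linarith
    calc ‖F q‖ ≤ A * 1 := by linarith
      _ ≤ A * (1 + ‖q‖) := mul_le_mul_of_nonneg_left (by linarith [norm_nonneg q]) hA0
  have key : ∀ n : ℕ, ∀ q : ℂ, ‖q‖ ≤ 2 ^ n → ‖F q‖ ≤ A * (1 + ‖q‖) := by
    intro n
    induction n with
    | zero => intro q hq; exact hbase q (by simpa using hq)
    | succ n ih =>
      intro q hq
      by_cases hq0 : q = 0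
      · exact hbase q (by rw [hq0, norm_zero]; exact zero_le_one)
      obtain ⟨x, hx, hB, -, hcF⟩ := hPP a b F (‖q‖ + 1) ha hab (by positivity)
        hF.differentiableOn hrel q hq0 (by linarith)
      have eF := hcF.self_of_nhds (by rw [hB]; linarith)
      rw [hB] at eF
      have ht1 : 1 ≤ ‖x‖ := hx.1
      have hx0 : x ≠ 0 := by
        rintro rfl
        rw [norm_zero] at ht1
        linarith
      have hM := JG1_Mc hab hx0
      have hinv := JG1_inv (b := b) ha ht1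
      have hge := JG1_ge (b := b) ha ht1
      rw [hB, ← hs] at hge
      have hq1 : 0 ≤ ‖q‖ := norm_nonneg q
      obtain ⟨t, ht⟩ : ∃ t : ℝ, t = ‖x‖ := ⟨_, rfl⟩
      obtain ⟨d, hd⟩ : ∃ d : ℕ, d = b - a := ⟨_, rfl⟩
      have hd1 : 1 ≤ d := by omega
      have hbd : b = a + d := by omega
      rw [← ht] at ht1 hM hinv hge
      rw [← hd] at hM hTba hA
      have hta : 1 ≤ t ^ a := one_le_pow₀ ht1
      rcases le_or_gt T t with hc | hc
      · -- large `t`
        have htd : T ≤ t ^ d := hc.trans (le_self_pow₀ ht1 (by omega))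
        have htb : t ^ b = t ^ a * t ^ d := by rw [hbd, pow_add]
        have hsm : 8 * s * t ^ a ≤ t ^ b := by
          rw [htb, mul_comm]
          exact mul_le_mul_of_nonneg_left (hTs.trans htd) (by positivity)
        have hs0 : 0 < s := by linarith
        -- `2 s (1 + ‖q‖) ≥ t ^ b`
        have hlow : t ^ b ≤ 2 * s * (1 + ‖q‖) := by
          have : 8 * s ≤ t ^ b := le_trans (by nlinarith) hsm
          nlinarith
        have hhalf : ‖Bn a b x⁻¹‖ ≤ 2 ^ n := by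
          have h1 : 8 * s * t ^ a ≤ s * (‖q‖ + 2) := hsm.trans hge
          have h2 : 8 * t ^ a ≤ ‖q‖ + 2 := by
            refine le_of_mul_le_mul_left ?_ hs0
            linarith
          have h3 : ‖q‖ ≤ 2 * 2 ^ n := by
            rw [pow_succ] at hq
            linarith
          linarith
        have hI := ih _ hhalf
        have h4 : 1 + ‖Bn a b x⁻¹‖ ≤ 4 * t ^ a := by linarith
        have h5 : ‖F (Bn a b x⁻¹)‖ ≤ A * (4 * t ^ a) :=
          hI.trans (mul_le_mul_of_nonneg_left h4 hA0)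
        have h6 : ‖F q‖ ^ 3 ≤ (A * (1 + ‖q‖)) ^ 3 := by
          calc ‖F q‖ ^ 3 = ‖McJ a b x‖ ^ 3 * ‖F (Bn a b x⁻¹)‖ ^ 3 := by
                rw [eF, norm_mul, mul_pow]
            _ ≤ t ^ (2 * d) * (A * (4 * t ^ a)) ^ 3 := by
                rw [hM]
                exact mul_le_mul_of_nonneg_left (pow_le_pow_left₀ (norm_nonneg _) h5 3)
                  (by positivity)
            _ = A ^ 3 * (64 * (t ^ a) ^ 3 * (t ^ d) ^ 2) := by
                rw [mul_comm 2 d, pow_mul]; ring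
            _ ≤ A ^ 3 * (1 + ‖q‖) ^ 3 := by
                refine mul_le_mul_of_nonneg_left ?_ (by positivity)
                have h7 : 8 * s ^ 3 * (64 * (t ^ a) ^ 3 * (t ^ d) ^ 2)
                    ≤ 8 * s ^ 3 * (1 + ‖q‖) ^ 3 := by
                  calc 8 * s ^ 3 * (64 * (t ^ a) ^ 3 * (t ^ d) ^ 2)
                      = (512 * s ^ 3) * ((t ^ a) ^ 3 * (t ^ d) ^ 2) := by ring
                    _ ≤ t ^ d * ((t ^ a) ^ 3 * (t ^ d) ^ 2) := by
                        refine mul_le_mul_of_nonneg_right ?_ (by positivity)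
                        rw [← hT]
                        exact htd
                    _ = (t ^ b) ^ 3 := by rw [htb]; ring
                    _ ≤ (2 * s * (1 + ‖q‖)) ^ 3 := pow_le_pow_left₀ (by positivity) hlow 3
                    _ = _ := by ring
                exact le_of_mul_le_mul_left h7 (by positivity)
            _ = _ := by ring
        exact le_of_pow_le_pow_left₀ (by norm_num) (by positivity) h6
      · -- small `t`
        have h1 : ‖F (Bn a b x⁻¹)‖ ≤ K0 := by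
          apply hK0
          rw [Metric.mem_closedBall, dist_zero_right]
          have : t ^ a ≤ T ^ a := pow_le_pow_left₀ (by linarith) hc.le a
          linarith
        have h2 : ‖McJ a b x‖ ≤ T ^ d := by
          have h3 : ‖McJ a b x‖ ^ 3 ≤ (T ^ d) ^ 3 := by
            rw [hM]
            calc t ^ (2 * d) ≤ T ^ (2 * d) := pow_le_pow_left₀ (by linarith) hc.le _
              _ ≤ T ^ (d * 3) := pow_le_pow_right₀ hT1 (by omega)
              _ = _ := by rw [pow_mul]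
          exact le_of_pow_le_pow_left₀ (by norm_num) (by positivity) h3
        calc ‖F q‖ = ‖McJ a b x‖ * ‖F (Bn a b x⁻¹)‖ := by rw [eF, norm_mul]
          _ ≤ T ^ d * K0 := mul_le_mul h2 h1 (norm_nonneg _) (by positivity)
          _ = A * 1 := by rw [hA, mul_one]
          _ ≤ A * (1 + ‖q‖) := mul_le_mul_of_nonneg_left (by linarith) hA0
  refine G1_affine F hF A hA0 1 le_rfl ?_
  intro q
  obtain ⟨n, hn⟩ := pow_unbounded_of_one_lt ‖q‖ (by norm_num : (1 : ℝ) < 2)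
  simpa using key n q hn.le

end H719FX
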