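import Pool.Agent.H719R4.FX.NegI

set_option autoImplicit false

/-!
# Task JG2: there is no linear solution (`a < b`).
-/

open Complex Set Filter Topology

namespace H719FX

open H738CZ

/-- the real function -/
noncomputable def JG2_b (a b : ℕ) (x : ℝ) : ℝ :=
  (b : ℝ) / (a + b) * (x⁻¹) ^ a + (a : ℝ) / (a + b) * x ^ b - 1

theorem JG2_Bn (a b : ℕ) (x : ℝ) : Bn a b (x : ℂ) = (JG2_b a b x : ℂ) := by
  unfold Bn JG2_b
  push_cast
  ring

theorem JG2_Mc (a b : ℕ) (x : ℝ) (hL : 0 < x) :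
    McJ a b (x : ℂ) = ((Real.exp (2 * ((b : ℝ) - a) / 3 * Real.log x) : ℝ) : ℂ) := by
  unfold McJ
  rw [← Complex.ofReal_log hL.le]
  push_cast
  rfl

/-- the difference of the two sides -/
noncomputable def JG2_f (a b : ℕ) (z : ℂ) : ℂ := Bn a b z - McJ a b z * Bn a b z⁻¹

theorem JG2_an (a b : ℕ) (z : ℂ) (hz : z ∈ slitPlane) :
    AnalyticAt ℂ (JG2_f a b) z := by
  have hz0 : z ≠ 0 := slitPlane_ne_zero hz
  have hB : ∀ w, w ≠ 0 → AnalyticAt ℂ (Bn a b) w := fun w hw => by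
    have hi : AnalyticAt ℂ (fun z : ℂ => z⁻¹) w := analyticAt_inv hw
    unfold Bn
    exact ((analyticAt_const.mul (hi.pow a)).add (analyticAt_const.mul (analyticAt_id.pow b))).sub
      analyticAt_const
  have hlog : AnalyticAt ℂ (fun z => log z) z := analyticAt_clog hz
  have hM : AnalyticAt ℂ (fun z : ℂ => z⁻¹) z := analyticAt_inv hz0
  have hMc : AnalyticAt ℂ (McJ a b) z := by
    unfold McJ
    exact (analyticAt_const.mul hlog).cexp
  exact (hB z hz0).sub (hMc.mul ((hB z⁻¹ (inv_ne_zero hz0)).comp hM))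

theorem JG2_global (a b : ℕ) (h : Rel1J a b (fun q => q)) (x : ℝ) (hx : 1 ≤ x) :
    Bn a b (x : ℂ) = McJ a b (x : ℂ) * Bn a b (x : ℂ)⁻¹ := by
  set U : Set ℝ := Ioi 0 with hU
  have hUc : IsPreconnected U := isPreconnected_Ioi
  have hUan : AnalyticOnNhd ℝ (fun x : ℝ => JG2_f a b (x : ℂ)) U := by
    intro y hy
    have h1 : (y : ℂ) ∈ slitPlane := by
      left
      rw [ofReal_re]
      exact hy
    have h2 : AnalyticAt ℝ (JG2_f a b) (y : ℂ) := (JG2_an a b y h1).restrictScalars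
    exact h2.comp (Complex.ofRealCLM.analyticAt y)
  have hU0 : AnalyticOnNhd ℝ (fun _ : ℝ => (0 : ℂ)) U := fun _ _ => analyticAt_const
  have h1U : (1 : ℝ) ∈ U := Set.mem_Ioi.2 one_pos
  have hev : (fun x : ℝ => JG2_f a b (x : ℂ)) =ᶠ[𝓝 1] fun _ => 0 := by
    have ht : Tendsto (fun x : ℝ => (x : ℂ)) (𝓝 1) (𝓝 ((1 : ℝ) : ℂ)) :=
      Complex.continuous_ofReal.tendsto 1
    rw [ofReal_one] at ht
    filter_upwards [ht.eventually h] with y hy
    exact sub_eq_zero.2 hy
  have key := hUan.eqOn_of_preconnected_of_eventuallyEq hU0 hUc h1U hev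
  have hxU : x ∈ U := Set.mem_Ioi.2 (lt_of_lt_of_le one_pos hx)
  exact sub_eq_zero.1 (key hxU)

theorem tJG2 : StJG2 := by
  intro a b ha hab h
  have har : (0 : ℝ) < a := by exact_mod_cast ha
  have habr : (a : ℝ) < b := by exact_mod_cast hab
  set δ : ℝ := ((a : ℝ) - b) / 3 with hδ
  have hδ0 : δ < 0 := by
    rw [hδ]
    linarith
  -- the two normalised sides
  set G : ℝ → ℝ := fun x => (b : ℝ) / (a + b) + (a : ℝ) / (a + b) * (x ^ (a + b))⁻¹ - (x ^ a)⁻¹
    with hG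
  have hGlim : Tendsto G atTop (𝓝 ((b : ℝ) / (a + b))) := by
    have h1 : Tendsto (fun x : ℝ => (x ^ (a + b))⁻¹) atTop (𝓝 0) :=
      (tendsto_pow_atTop (by omega)).inv_tendsto_atTop
    have h2 : Tendsto (fun x : ℝ => (x ^ a)⁻¹) atTop (𝓝 0) :=
      (tendsto_pow_atTop (by omega)).inv_tendsto_atTop
    have h3 := ((h1.const_mul ((a : ℝ) / (a + b))).const_add ((b : ℝ) / (a + b))).sub h2
    simpa using h3
  set A : ℝ → ℝ := fun x => (b : ℝ) / (a + b) * (x ^ (a + b))⁻¹ + (a : ℝ) / (a + b) - (x ^ b)⁻¹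
    with hA
  have hAlim : Tendsto A atTop (𝓝 ((a : ℝ) / (a + b))) := by
    have h1 : Tendsto (fun x : ℝ => (x ^ (a + b))⁻¹) atTop (𝓝 0) :=
      (tendsto_pow_atTop (by omega)).inv_tendsto_atTop
    have h2 : Tendsto (fun x : ℝ => (x ^ b)⁻¹) atTop (𝓝 0) :=
      (tendsto_pow_atTop (by omega)).inv_tendsto_atTop
    have h3 := ((h1.const_mul ((b : ℝ) / (a + b))).add_const ((a : ℝ) / (a + b))).sub h2
    simpa using h3
  -- the equation
  have heq : ∀ᶠ x : ℝ in atTop, A x = Real.exp (δ * Real.log x) * G x := by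
    filter_upwards [eventually_ge_atTop (1 : ℝ)] with x hx
    have hx0 : 0 < x := by linarith
    have h1 := JG2_global a b h x hx
    rw [← Complex.ofReal_inv, JG2_Bn, JG2_Bn, JG2_Mc a b x hx0, ← Complex.ofReal_mul] at h1
    have h2 : JG2_b a b x = Real.exp (2 * ((b : ℝ) - a) / 3 * Real.log x) * JG2_b a b x⁻¹ :=
      Complex.ofReal_injective h1
    have h5 : Real.exp (2 * ((b : ℝ) - a) / 3 * Real.log x) * x ^ a =
        x ^ b * Real.exp (δ * Real.log x) := by
      have e2 : ∀ n : ℕ, x ^ n = Real.exp ((n : ℝ) * Real.log x) := by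
        intro n
        have : (n : ℝ) * Real.log x = Real.log (x ^ n) := by
          rw [Real.log_pow]
        rw [this, Real.exp_log (by positivity)]
      rw [e2 a, e2 b, ← Real.exp_add, ← Real.exp_add]
      congr 1
      rw [hδ]
      ring
    have hab0 : (a : ℝ) + b ≠ 0 := by linarith
    have h6 : x ^ b * A x = JG2_b a b x := by
      show x ^ b * ((b : ℝ) / (a + b) * (x ^ (a + b))⁻¹ + (a : ℝ) / (a + b) - (x ^ b)⁻¹) = _
      unfold JG2_b
      rw [pow_add, inv_pow]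
      field_simp
    have h7 : x ^ a * G x = JG2_b a b x⁻¹ := by
      show x ^ a * ((b : ℝ) / (a + b) + (a : ℝ) / (a + b) * (x ^ (a + b))⁻¹ - (x ^ a)⁻¹) = _
      unfold JG2_b
      rw [pow_add, inv_inv, inv_pow]
      field_simp
    rw [← h6, ← h7, ← mul_assoc, h5, mul_assoc] at h2
    exact mul_left_cancel₀ (by positivity) h2
  have hratio : Tendsto (fun x : ℝ => Real.exp (δ * Real.log x) * G x) atTop
      (𝓝 ((a : ℝ) / (a + b))) := hAlim.congr' heq
  have h1 : Tendsto (fun x : ℝ => Real.exp (δ * Real.log x)) atTop (𝓝 0) :=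
    Real.tendsto_exp_atBot.comp (Real.tendsto_log_atTop.const_mul_atTop_of_neg hδ0)
  have h2 := h1.mul hGlim
  rw [zero_mul] at h2
  have h3 := tendsto_nhds_unique hratio h2
  have h4 : (0 : ℝ) < (a : ℝ) / (a + b) := by positivity
  exact h4.ne' h3

end H719FX
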