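import Pool.Agent.H719R4.FX.NegI
import Pool.Agent.H719R4.FX.ILIM

/-!
# JLIM: the leading coefficients satisfy the model law (isotropic places at infinity)
-/

open Complex Set Filter Topology

namespace H719FX

open H738CZ

/-- the Taylor shift part -/
theorem JLIM_Es {a b : ℕ} (ha : 1 ≤ a) (hab : a < b) {u : ℂ → ℂ} {R : ℝ} (hu : UI u R)
    (g : ℕ → ℂ → ℂ) (G : ℂ → ℂ) (j : ℕ) (hj : 1 ≤ j) (hP : PolJ a b R g j G) :
    ILIM_PW (fun τ => Es (di (a + b)) (fun t => g j t * ((rj a b u t)⁻¹) ^ j) τ)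
      (((b : ℤ) - a) * (3 * j - 2))
      (PowerSeries.C (G 0 * ((u 0)⁻¹) ^ j) *
        expS (I * ((b : ℂ) - a) * (2 - 3 * j) / (3 * (a + b)))) := by
  intro l
  have hF : DifferentiableOn ℂ (fun τ => G τ * ((u (τ ^ 6))⁻¹) ^ j) (Metric.ball 0 R) :=
    hP.1.mul (((ILIM_du hu).inv fun τ hτ => hu.nz _ (ILIM_six hτ)).pow j)
  have h := ILIM_lim (a + b) (by omega) R hu.pos (fun t => g j t * ((rj a b u t)⁻¹) ^ j) _
    (((b : ℤ) - a) * (3 * j - 2)) hF ?_ l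
  · have h2 := h.div_const (l.factorial : ℂ)
    have e : PowerSeries.coeff l (PowerSeries.C (G 0 * ((u 0)⁻¹) ^ j)
        * expS (I * ((b : ℂ) - a) * (2 - 3 * j) / (3 * (a + b))))
        = (-(I * (((((b : ℤ) - a) * (3 * j - 2) : ℤ)) : ℂ)) / (3 * ((a + b : ℕ) : ℂ))) ^ l
            * ((fun τ => G τ * ((u (τ ^ 6))⁻¹) ^ j) 0) / (l.factorial : ℂ) := by
      rw [PowerSeries.coeff_C_mul, expS, PowerSeries.coeff_mk]
      have e1 : (I * ((b : ℂ) - a) * (2 - 3 * j) / (3 * (a + b)) : ℂ)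
          = -(I * (((((b : ℤ) - a) * (3 * j - 2) : ℤ)) : ℂ)) / (3 * ((a + b : ℕ) : ℂ)) := by
        push_cast
        ring
      rw [e1]
      simp only [ne_eq, OfNat.ofNat_ne_zero, not_false_eq_true, zero_pow]
      ring
    rw [e]
    refine h2.congr fun τ => ?_
    simp only [Es, PowerSeries.coeff_mk]
    ring
  · intro τ hτ
    have hτ0 : τ ≠ 0 := hτ.2
    have hun : u (τ ^ 6) ≠ 0 := hu.nz _ (ILIM_six hτ.1)
    have hg := hP.2 τ hτ
    show g j τ * ((rj a b u τ)⁻¹) ^ j = G τ * ((u (τ ^ 6))⁻¹) ^ j * _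
    rw [← hg, rj]
    have e : τ ^ (-(((b : ℤ) - a) * (3 * j - 2)))
        = (τ ^ ((2 * (b - a)) * (j - 1)))⁻¹ * ((τ ^ (b - a))⁻¹) ^ j := by
      rw [inv_pow, ← pow_mul, ← zpow_natCast τ, ← zpow_natCast τ,
        ← zpow_neg, ← zpow_neg, ← zpow_add₀ hτ0]
      congr 1
      push_cast [Nat.cast_sub hj, Nat.cast_sub hab.le]
      ring
    rw [e, mul_inv, mul_pow]
    have hp : τ ^ ((2 * (b - a)) * (j - 1)) ≠ 0 := pow_ne_zero _ hτ0
    field_simp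

/-- the arc part -/
theorem JLIM_Ys {a b : ℕ} (ha : 1 ≤ a) (hab : a < b) {u : ℂ → ℂ} {R : ℝ} (hu : UI u R) :
    ILIM_PW (fun τ => Ys kcs (di (a + b)) (ρj a b u) τ) (-(3 * ((b : ℤ) - a)))
      (Yj a b (u 0)) := by
  have hk0 : ((a : ℂ) + b) ≠ 0 := by
    have : ((a + b : ℕ) : ℂ) ≠ 0 := by rw [Nat.cast_ne_zero]; omega
    push_cast at this
    exact this
  have hF : DifferentiableOn ℂ (fun τ => u (τ ^ 6) ^ 3) (Metric.ball 0 R) := (ILIM_du hu).pow 3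
  have hl := ILIM_lim (a + b) (by omega) R hu.pos (ρj a b u) _ (-(3 * ((b : ℤ) - a))) hF (by
    intro τ hτ
    have hτ0 : τ ≠ 0 := hτ.2
    have e : τ ^ (- -(3 * ((b : ℤ) - a))) = (τ ^ (b - a)) ^ 3 := by
      rw [← pow_mul, ← zpow_natCast τ]
      congr 1
      push_cast [Nat.cast_sub hab.le]
      ring
    rw [ρj, rj, e, mul_pow]
    ring)
  intro n
  rw [Yj, PowerSeries.coeff_mk]
  have hs : Tendsto (fun τ : ℂ => (∑ l ∈ Finset.range n,
      kcs (n - 1 - l) * (((DD (di (a + b)))^[l] (ρj a b u)) τ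
          * τ ^ (-(3 * ((b : ℤ) - a))))) / (n.factorial : ℂ)) (𝓝[≠] 0)
      (𝓝 ((∑ l ∈ Finset.range n, kcs (n - 1 - l) *
        ((-(I * ((-(3 * ((b : ℤ) - a)) : ℤ) : ℂ)) / (3 * ((a + b : ℕ) : ℂ))) ^ l * (u 0) ^ 3)) /
          (n.factorial : ℂ))) := by
    refine Tendsto.div_const ?_ _
    refine tendsto_finsetSum _ fun l hln => ?_
    have h2 := (hl l).const_mul (kcs (n - 1 - l))
    simpa using h2
  have e4 : (∑ l ∈ Finset.range n, kcs (n - 1 - l) *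
        ((-(I * ((-(3 * ((b : ℤ) - a)) : ℤ) : ℂ)) / (3 * ((a + b : ℕ) : ℂ))) ^ l * (u 0) ^ 3)) /
          (n.factorial : ℂ) = u 0 ^ 3 * (∑ l ∈ Finset.range n, kcs (n - 1 - l) *
            (I * ((b : ℂ) - a) / (a + b)) ^ l) / (n.factorial : ℂ) := by
    congr 1
    rw [Finset.mul_sum]
    refine Finset.sum_congr rfl fun l _ => ?_
    have e5 : (-(I * ((-(3 * ((b : ℤ) - a)) : ℤ) : ℂ)) / (3 * ((a + b : ℕ) : ℂ)) : ℂ)
        = I * ((b : ℂ) - a) / (a + b) := by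
      push_cast
      field_simp
    rw [e5]
    ring
  rw [e4] at hs
  refine hs.congr fun τ => ?_
  show _ = PowerSeries.coeff n (Ys kcs (di (a + b)) (ρj a b u) τ) * τ ^ (-(3 * ((b : ℤ) - a)))
  simp only [Ys, PowerSeries.coeff_mk]
  rw [div_mul_eq_mul_div, Finset.sum_mul]
  congr 1
  refine Finset.sum_congr rfl fun l _ => ?_
  ring

theorem tJLIM : StJLIM := by
  intro a b u R ha hab hu g G hFI hP J hJ
  have hz : Tendsto (fun τ : ℂ => Cf kcs (di (a + b)) (ρj a b u) (rj a b u) g J (2 * J + 1) τ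
      * τ ^ (-(2 * ((b : ℤ) - a)))) (𝓝[≠] 0) (𝓝 0) := by
    refine tendsto_const_nhds.congr' ?_
    filter_upwards [ILIM_V3_nhds hu.pos] with τ hτ
    rw [hFI.law J hJ τ hτ, zero_mul]
  have hl : Tendsto (fun τ : ℂ => Cf kcs (di (a + b)) (ρj a b u) (rj a b u) g J (2 * J + 1) τ
      * τ ^ (-(2 * ((b : ℤ) - a)))) (𝓝[≠] 0)
      (𝓝 (PowerSeries.coeff (2 * J + 1) (∑ j ∈ Finset.Icc 1 J,
        PowerSeries.C (G j 0 * ((u 0)⁻¹) ^ j)
          * expS (I * ((b : ℂ) - a) * (2 - 3 * j) / (3 * (a + b))) * (Yj a b (u 0)) ^ j))) := by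
    rw [map_sum]
    have hs := tendsto_finsetSum (Finset.Icc 1 J) fun j (hj : j ∈ Finset.Icc 1 J) =>
      ILIM_mul (JLIM_Es ha hab hu g (G j) j (Finset.mem_Icc.1 hj).1
        (hP j (Finset.mem_Icc.1 hj).1))
        (ILIM_pow (JLIM_Ys ha hab hu) j) (2 * J + 1)
    refine hs.congr fun τ => ?_
    rw [Cf, map_sum, Finset.sum_mul]
    refine Finset.sum_congr rfl fun j _ => ?_
    have e : (((b : ℤ) - a) * (3 * j - 2) + (j : ℤ) * (-(3 * ((b : ℤ) - a))))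
          = -(2 * ((b : ℤ) - a)) := by
      ring
    rw [e, Tm]
  exact tendsto_nhds_unique hl hz

end H719FX
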