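import Pool.Agent.H719R4.FX.NegI
import Pool.Agent.H719R4.FX.IMDL

/-! JMDL: from the model law to the model relation, isotropic places at infinity. -/

open Complex Set Filter Topology

namespace H719FX

open H738CZ Asymptotics

/-- the constant -/
noncomputable def JMDL_c (a b : ℕ) (υ : ℂ) : ℂ := -(υ ^ 3 * (a + b) ^ 2 / (4 * a * b))

/-- the exponent `i ν` -/
noncomputable def JMDL_a (a b : ℕ) : ℂ := I * ((b : ℂ) - a) / (a + b)

/-- the series of `Bn (exp (-2 i d / k))` -/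
noncomputable def JMDL_B (a b : ℕ) : PowerSeries ℂ :=
  PowerSeries.C ((b : ℂ) / (a + b)) * expS (2 * I * a / (a + b)) +
    PowerSeries.C ((a : ℂ) / (a + b)) * expS (-(2 * I * b / (a + b))) - 1

theorem JMDL_Yj (a b : ℕ) (ha : 1 ≤ a) (hb : 1 ≤ b) (υ : ℂ) :
    Yj a b υ = PowerSeries.C (JMDL_c a b υ) * (PowerSeries.C ((b : ℂ) / (a + b)) * expS I +
      PowerSeries.C ((a : ℂ) / (a + b)) * expS (-I) - expS (JMDL_a a b)) := by
  have h1 : (a : ℂ) ≠ 0 := by exact_mod_cast (by omega : a ≠ 0)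
  have h2 : (b : ℂ) ≠ 0 := by exact_mod_cast (by omega : b ≠ 0)
  have h3 : (a : ℂ) + b ≠ 0 := by exact_mod_cast (by omega : a + b ≠ 0)
  ext n
  rw [PowerSeries.coeff_C_mul, map_sub, map_add, PowerSeries.coeff_C_mul, PowerSeries.coeff_C_mul]
  unfold Yj expS
  rw [PowerSeries.coeff_mk, PowerSeries.coeff_mk, PowerSeries.coeff_mk, PowerSeries.coeff_mk]
  have h4 : (n.factorial : ℂ) ≠ 0 := by exact_mod_cast n.factorial_ne_zero
  have h5 := IMDL_sum (JMDL_a a b) n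
  have e1 : (JMDL_a a b + I) / (2 * I) = (b : ℂ) / (a + b) := by
    unfold JMDL_a
    field_simp
    ring
  have e2 : (JMDL_a a b - I) / (2 * I) = -((a : ℂ) / (a + b)) := by
    unfold JMDL_a
    field_simp
    ring
  have e3 : (JMDL_a a b) ^ 2 + 1 = 4 * a * b / (a + b) ^ 2 := by
    unfold JMDL_a
    rw [div_pow, mul_pow, I_sq]
    field_simp
    ring
  rw [e1, e2, e3] at h5
  have e4 : I * ((b : ℂ) - a) / (a + b) = JMDL_a a b := rfl
  rw [e4]
  have e5 : ∑ l ∈ Finset.range n, kcs (n - 1 - l) * (JMDL_a a b) ^ l =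
      ((a + b) ^ 2 / (4 * a * b)) * ((JMDL_a a b) ^ n - (b : ℂ) / (a + b) * I ^ n +
        -((a : ℂ) / (a + b)) * (-I) ^ n) := by
    rw [← h5]
    field_simp
  rw [e5]
  unfold JMDL_c
  ring

theorem JMDL_YjB (a b : ℕ) (ha : 1 ≤ a) (hb : 1 ≤ b) (υ : ℂ) :
    Yj a b υ = expS (JMDL_a a b) * (PowerSeries.C (JMDL_c a b υ) * JMDL_B a b) := by
  have h3 : (a : ℂ) + b ≠ 0 := by exact_mod_cast (by omega : a + b ≠ 0)
  rw [JMDL_Yj a b ha hb]
  have e1 : expS I = expS (JMDL_a a b) * expS (2 * I * a / (a + b)) := by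
    rw [← IMDL_expS_add]
    congr 1
    unfold JMDL_a
    field_simp
    ring
  have e2 : expS (-I) = expS (JMDL_a a b) * expS (-(2 * I * b / (a + b))) := by
    rw [← IMDL_expS_add]
    congr 1
    unfold JMDL_a
    field_simp
    ring
  rw [e1, e2, JMDL_B]
  ring

theorem JMDL_B_dvd (a b : ℕ) (ha : 1 ≤ a) :
    (PowerSeries.X : PowerSeries ℂ) ^ 2 ∣ JMDL_B a b := by
  have h3 : (a : ℂ) + b ≠ 0 := by exact_mod_cast (by omega : a + b ≠ 0)
  rw [PowerSeries.X_pow_dvd_iff]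
  intro n hn
  unfold JMDL_B expS
  rw [map_sub, map_add, PowerSeries.coeff_C_mul, PowerSeries.coeff_C_mul, PowerSeries.coeff_mk,
    PowerSeries.coeff_mk, PowerSeries.coeff_one]
  interval_cases n
  · simp
    field_simp
    ring
  · simp
    field_simp
    ring

theorem JMDL_Bj_dvd (a b : ℕ) (ha : 1 ≤ a) (j : ℕ) :
    (PowerSeries.X : PowerSeries ℂ) ^ (2 * j) ∣ JMDL_B a b ^ j := by
  rw [pow_mul]
  exact pow_dvd_pow_of_dvd (JMDL_B_dvd a b ha) j

/-- the exponent `2 i ν / 3` -/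
noncomputable def JMDL_e (a b : ℕ) : ℂ := I * ((b : ℂ) - a) * 2 / (3 * (a + b))

theorem JMDL_term (a b : ℕ) (ha : 1 ≤ a) (hb : 1 ≤ b) (υ β : ℂ) (j : ℕ) :
    PowerSeries.C β * expS (I * ((b : ℂ) - a) * (2 - 3 * j) / (3 * (a + b))) * (Yj a b υ) ^ j =
      expS (JMDL_e a b) * (PowerSeries.C (β * (JMDL_c a b υ) ^ j) * JMDL_B a b ^ j) := by
  have h3 : (a : ℂ) + b ≠ 0 := by exact_mod_cast (by omega : a + b ≠ 0)
  have h1 : expS (JMDL_e a b) = expS (I * ((b : ℂ) - a) * (2 - 3 * j) / (3 * (a + b))) *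
      expS (JMDL_a a b) ^ j := by
    rw [IMDL_expS_pow, ← IMDL_expS_add]
    congr 1
    unfold JMDL_e JMDL_a
    field_simp
    ring
  rw [h1, JMDL_YjB a b ha hb, mul_pow, mul_pow, ← map_pow, map_mul]
  ring

theorem JMDL_coeff {a b : ℕ} (ha : 1 ≤ a) (hb : 1 ≤ b) {υ : ℂ} {β : ℕ → ℂ} (h : MLawJ a b υ β)
    (N i : ℕ) (hi : i < N) :
    PowerSeries.coeff (2 * i + 1) (expS (JMDL_e a b) *
      ∑ j ∈ Finset.Ico 1 N,
        PowerSeries.C (β j * (JMDL_c a b υ) ^ j) * JMDL_B a b ^ j) = 0 := by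
  have h1 : Finset.Ico 1 N = Finset.Ico 1 (i + 1) ∪ Finset.Ico (i + 1) N := by
    rw [Finset.Ico_union_Ico_eq_Ico (by omega) (by omega)]
  rw [h1, Finset.sum_union (Finset.Ico_disjoint_Ico_consecutive _ _ _), mul_add, map_add]
  have h2 : PowerSeries.coeff (2 * i + 1) (expS (JMDL_e a b) *
      ∑ j ∈ Finset.Ico (i + 1) N,
        PowerSeries.C (β j * (JMDL_c a b υ) ^ j) * JMDL_B a b ^ j) = 0 := by
    have h3 : (PowerSeries.X : PowerSeries ℂ) ^ (2 * (i + 1)) ∣ expS (JMDL_e a b) *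
      ∑ j ∈ Finset.Ico (i + 1) N,
        PowerSeries.C (β j * (JMDL_c a b υ) ^ j) * JMDL_B a b ^ j := by
      refine Dvd.dvd.mul_left (Finset.dvd_sum fun j hj => Dvd.dvd.mul_left ?_ _) _
      rw [Finset.mem_Ico] at hj
      exact (pow_dvd_pow _ (by omega)).trans (JMDL_Bj_dvd a b ha j)
    exact PowerSeries.X_pow_dvd_iff.1 h3 _ (by omega)
  rw [h2, add_zero]
  rcases Nat.eq_zero_or_pos i with rfl | hpos
  · simp
  · have h4 := h i hpos
    rw [← h4]
    congr 1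
    have h5 : Finset.Ico 1 (i + 1) = Finset.Icc 1 i := by
      ext x; simp only [Finset.mem_Ico, Finset.mem_Icc]; omega
    rw [h5, Finset.mul_sum]
    refine Finset.sum_congr rfl fun j _ => ?_
    rw [JMDL_term a b ha hb]

/-- the function `Bn (exp (-2 i d / k))` -/
noncomputable def JMDL_b (a b : ℕ) (d : ℂ) : ℂ := Bn a b (cexp (-(2 * I / (a + b)) * d))

theorem JMDL_b_R (a b : ℕ) : MDL_R (JMDL_b a b) (JMDL_B a b) := by
  have h1 := MDL_mul (MDL_const ((b : ℂ) / (a + b))) (IMDL_exp (2 * I * a / (a + b)))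
  have h2 := MDL_mul (MDL_const ((a : ℂ) / (a + b))) (IMDL_exp (-(2 * I * b / (a + b))))
  have h3 := MDL_add (MDL_add h1 h2) (MDL_const (-1))
  intro K
  have h4 := h3 K
  have e1 : (PowerSeries.C ((b : ℂ) / (a + b)) * expS (2 * I * a / (a + b)) +
      PowerSeries.C ((a : ℂ) / (a + b)) * expS (-(2 * I * b / (a + b))) + PowerSeries.C (-1)
        : PowerSeries ℂ) = JMDL_B a b := by
    rw [JMDL_B, map_neg, map_one]
    ring
  rw [e1] at h4
  refine h4.congr_left fun d => ?_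
  unfold JMDL_b Bn
  rw [← Complex.exp_neg, ← Complex.exp_nat_mul, ← Complex.exp_nat_mul]
  have e2 : (a : ℂ) * -(-(2 * I / ((a : ℂ) + b)) * d) = 2 * I * a / (a + b) * d := by ring
  have e3 : (b : ℂ) * (-(2 * I / ((a : ℂ) + b)) * d) = -(2 * I * b / (a + b)) * d := by ring
  rw [e2, e3]
  ring

/-- the function `Θ` -/
noncomputable def JMDL_T (a b : ℕ) (α : ℕ → ℂ) (N : ℕ) (d : ℂ) : ℂ :=
  cexp (JMDL_e a b * d) * ∑ j ∈ Finset.Ico 1 N, α j * JMDL_b a b d ^ j

theorem JMDL_T_R (a b : ℕ) (α : ℕ → ℂ) (N : ℕ) :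
    MDL_R (JMDL_T a b α N) (expS (JMDL_e a b) *
      ∑ j ∈ Finset.Ico 1 N, PowerSeries.C (α j) * JMDL_B a b ^ j) := by
  unfold JMDL_T
  exact MDL_mul (IMDL_exp _) (MDL_sum _ _ _ fun j _ =>
    MDL_mul (MDL_const _) (MDL_pow (JMDL_b_R a b) j))

theorem JMDL_eq (a b : ℕ) (ha : 1 ≤ a) (α : ℕ → ℂ) (N : ℕ) {s : ℂ} (hs : s ≠ 0) :
    ∑ j ∈ Finset.Ico 1 N, α j * Bn a b s ^ j
      - McJ a b s * ∑ j ∈ Finset.Ico 1 N, α j * Bn a b s⁻¹ ^ j =
    cexp (((b : ℂ) - a) / 3 * log s) *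
      (JMDL_T a b α N (-(-(I * (a + b) / 2) * log s)) -
        JMDL_T a b α N (-(I * (a + b) / 2) * log s)) := by
  have hk0 : (a : ℂ) + b ≠ 0 := by exact_mod_cast (by omega : a + b ≠ 0)
  have e1 : JMDL_b a b (-(-(I * (a + b) / 2) * log s)) = Bn a b s := by
    unfold JMDL_b
    have : -(2 * I / ((a : ℂ) + b)) * (-(-(I * (a + b) / 2) * log s)) = log s := by
      field_simp
      rw [I_sq]
      ring
    rw [this, Complex.exp_log hs]
  have e2 : JMDL_b a b (-(I * (a + b) / 2) * log s) = Bn a b s⁻¹ := by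
    unfold JMDL_b
    have : -(2 * I / ((a : ℂ) + b)) * (-(I * (a + b) / 2) * log s) = -log s := by
      field_simp
      rw [I_sq]
      ring
    rw [this, Complex.exp_neg, Complex.exp_log hs]
  have e3 : cexp (((b : ℂ) - a) / 3 * log s) *
      cexp (JMDL_e a b * (-(-(I * (a + b) / 2) * log s))) = 1 := by
    rw [← Complex.exp_add, Complex.exp_eq_one_iff]
    refine ⟨0, ?_⟩
    unfold JMDL_e
    field_simp
    rw [I_sq]
    ring
  have e4 : cexp (((b : ℂ) - a) / 3 * log s) *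
      cexp (JMDL_e a b * (-(I * (a + b) / 2) * log s)) = McJ a b s := by
    unfold McJ
    rw [← Complex.exp_add]
    congr 1
    unfold JMDL_e
    field_simp
    rw [I_sq]
    ring
  unfold JMDL_T
  rw [e1, e2, mul_sub, ← mul_assoc, ← mul_assoc, e3, e4, one_mul]

theorem tJMDL : StJMDL := by
  intro a b υ β ha hab hυ h N
  have hb : 1 ≤ b := by omega
  set α : ℕ → ℂ := fun j => β j * (-(υ ^ 3 * (a + b) ^ 2 / (4 * a * b))) ^ j with hα
  set T := JMDL_T a b α N with hT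
  have h1 : (fun d => T (-d) - T d) =O[𝓝 0] fun d : ℂ => d ^ (2 * N + 1) :=
    MDL_parity (JMDL_T_R a b α N) N fun i hi => JMDL_coeff ha hb h N i hi
  have hD : HasDerivAt (fun x : ℂ => -(I * (a + b) / 2) * log x)
      (-(I * (a + b) / 2) * (1 : ℂ)⁻¹) 1 :=
    (Complex.hasDerivAt_log (by simp [slitPlane])).const_mul _
  have ht : Tendsto (fun x : ℂ => -(I * (a + b) / 2) * log x) (𝓝 1) (𝓝 0) := by
    have := hD.continuousAt.tendsto
    simpa using this
  have h2 := h1.comp_tendsto ht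
  have h3 : (fun x : ℂ => (-(I * (a + b) / 2) * log x) ^ (2 * N + 1)) =O[𝓝 1]
      fun x => (x - 1) ^ (2 * N + 1) := by
    refine IsBigO.pow ?_ _
    have h4 := hD.isBigO_sub
    refine h4.congr_left fun x => ?_
    simp
  have h6 : (fun x : ℂ => cexp (((b : ℂ) - a) / 3 * log x)) =O[𝓝 1] fun _ => (1 : ℂ) := by
    have : ContinuousAt (fun x : ℂ => cexp (((b : ℂ) - a) / 3 * log x)) 1 := by
      refine Complex.continuous_exp.continuousAt.comp (ContinuousAt.mul continuousAt_const ?_)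
      exact continuousAt_clog (by simp [slitPlane])
    exact this.tendsto.isBigO_one ℂ
  have h7 := h6.mul (h2.trans h3)
  refine h7.congr' ?_ (Eventually.of_forall fun x => one_mul _)
  filter_upwards [eventually_ne_nhds (one_ne_zero (α := ℂ))] with s hs
  exact (JMDL_eq a b ha α N hs).symm

end H719FX
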