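import Pool.Agent.H719R4.FX.NegI
import Pool.Agent.H719R4.FX.IPRV

/-! Task JPRV: sub-Gevrey bounds propagate in the punctured disc (places at infinity,
isotropic direction). -/

open Complex Set Filter Topology

namespace H719FX

open H738CZ

theorem JPRV_loc (hCHG : StCHG) (hSTB : StSTB) {kc : ℕ → ℂ} (hk : Ker kc) {k : ℕ}
    (hk1 : 1 ≤ k) {ρ r : ℂ → ℂ}
    {R : ℝ} {g : ℕ → ℂ → ℂ} (hF : FI kc (di k) ρ r g (V3 R)) {τ0 : ℂ}
    (h : τ0 ∈ V3 R) {η : ℝ} (hη : 0 < η) (hS : SG g (Metric.ball τ0 η)) :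
    SG g (Metric.ball τ0 (IPRV_de k R τ0)) := by
  obtain ⟨hr, hr1⟩ := IPRV_rr_pos h
  have hF2 := hCHG kc (di k) ρ r g (V3 R) (fun _ => 1) (IPRV_th k τ0)
    (Metric.ball 0 (IPRV_rr R τ0)) hF Metric.isOpen_ball (IPRV_diff k τ0).differentiableOn
    (IPRV_maps hk1 h) (fun t _ => IPRV_deriv hk1 (IPRV_mem.1 h).2) (fun _ _ => one_ne_zero)
  have hc : ContinuousAt (IPRV_th k τ0) 0 := (IPRV_diff k τ0).continuous.continuousAt
  rw [Metric.continuousAt_iff] at hc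
  obtain ⟨e1, he1, h1⟩ := hc η hη
  rw [IPRV_at] at h1
  have hS2 : SG (fun j => g j ∘ IPRV_th k τ0)
      (Metric.ball 0 (min e1 (IPRV_rr R τ0))) := by
    obtain ⟨C, s, hC, hs0, hs1, hb⟩ := hS
    refine ⟨C, s, hC, hs0, hs1, ?_⟩
    intro j hj t ht
    refine hb j hj (IPRV_th k τ0 t) ?_
    rw [Metric.mem_ball] at ht ⊢
    exact h1 (lt_of_lt_of_le ht (min_le_left _ _))
  have hS3 := hSTB kc hk _ _ _ 0 (min e1 (IPRV_rr R τ0)) (IPRV_rr R τ0)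
    (lt_min he1 hr) (min_le_right _ _) hr1 hF2 hS2
  obtain ⟨C, s, hC, hs0, hs1, hb⟩ := hS3
  refine ⟨C, s, hC, hs0, hs1, ?_⟩
  intro j hj t ht
  obtain ⟨h2, h3⟩ := IPRV_inv hk1 h ht
  have h4 := hb j hj _ h2
  have h5 : (fun j => g j ∘ IPRV_th k τ0) j (-(3 * I * k) * log (t / τ0)) = g j t := by
    show g j (IPRV_th k τ0 (-(3 * I * k) * log (t / τ0))) = g j t
    rw [h3]
  rw [h5] at h4
  exact h4

theorem tJPRV (hCHG : StCHG) (hSTB : StSTB) (hV3C : StV3C) : StJPRV := by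
  intro a b u R ha hab hu g hF τ1 η hη hsub hS
  have hk1 : 1 ≤ a + b := by omega
  set S : Set ℂ := {τ | ∃ η' > 0, Metric.ball τ η' ⊆ V3 R ∧ SG g (Metric.ball τ η')} with hSd
  have hSG : ∀ {V W : Set ℂ}, W ⊆ V → SG g V → SG g W := by
    rintro V W hWV ⟨C, s, hC, hs0, hs1, hb⟩
    exact ⟨C, s, hC, hs0, hs1, fun j hj t ht => hb j hj t (hWV ht)⟩
  have hin : ∀ (τ0 : ℂ) (r : ℝ), Metric.ball τ0 r ⊆ V3 R → SG g (Metric.ball τ0 r) →
      Metric.ball τ0 r ⊆ S := by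
    intro τ0 r h1 h2 τ hτ
    have h3 : Metric.ball τ (r - dist τ τ0) ⊆ Metric.ball τ0 r := by
      refine Metric.ball_subset_ball' ?_
      linarith
    exact ⟨r - dist τ τ0, by rw [Metric.mem_ball] at hτ; linarith, h3.trans h1, hSG h3 h2⟩
  have hop : IsOpen S := by
    rw [Metric.isOpen_iff]
    rintro τ ⟨η', h1, h2, h3⟩
    exact ⟨η', h1, hin τ η' h2 h3⟩
  have hτ1 : τ1 ∈ S := ⟨η, hη, hsub, hS⟩
  have hτ1' : τ1 ∈ V3 R := hsub (Metric.mem_ball_self hη)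
  have hcl : closure S ∩ V3 R ⊆ S := by
    rintro τ ⟨h1, h2⟩
    have h3 : IsOpen {x : ℂ | dist τ x < IPRV_de (a + b) R x} :=
      isOpen_lt (continuous_const.dist continuous_id) (IPRV_cont (a + b) R)
    have h4 : τ ∈ {x : ℂ | dist τ x < IPRV_de (a + b) R x} := by
      show dist τ τ < IPRV_de (a + b) R τ
      rw [dist_self]
      exact IPRV_de_pos hk1 h2
    obtain ⟨x, hx1, hx2⟩ := mem_closure_iff.1 h1 _ h3 h4
    obtain ⟨η', h5, h6, h7⟩ := hx2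
    have hxV : x ∈ V3 R := h6 (Metric.mem_ball_self h5)
    exact hin x (IPRV_de (a + b) R x) (IPRV_sub hk1 hxV)
      (JPRV_loc hCHG hSTB IPRV_ker hk1 hF hxV h5 h7) hx1
  exact fun τ hτ => (hV3C R).subset_of_closure_inter_subset hop ⟨τ1, hτ1', hτ1⟩ hcl hτ

end H719FX
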