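import Pool.Agent.H719R4.FX.NegI

/-!
# Places at infinity, isotropic direction: the model has no convergent solution
-/

open Complex Set Filter Topology

namespace H719FX

open H738CZ

theorem JS5_Bn_one (a b : ℕ) (ha : 1 ≤ a) (hab : a < b) : Bn a b 1 = 0 := by
  have ha0 : (a : ℂ) ≠ 0 := by
    have : a ≠ 0 := by omega
    exact_mod_cast this
  have hb0 : (b : ℂ) ≠ 0 := by
    have : b ≠ 0 := by omega
    exact_mod_cast this
  have hab0 : (a : ℂ) + b ≠ 0 := by
    have : a + b ≠ 0 := by omega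
    exact_mod_cast this
  unfold Bn
  simp only [one_pow, mul_one]
  field_simp
  ring

theorem JS5_Bn_tendsto (a b : ℕ) (ha : 1 ≤ a) (hab : a < b) : Tendsto (Bn a b) (𝓝 1) (𝓝 0) := by
  have hi : ContinuousAt (fun x : ℂ => x⁻¹) 1 := continuousAt_inv₀ one_ne_zero
  have h : ContinuousAt (Bn a b) 1 := by
    unfold Bn
    exact ((continuousAt_const.mul (hi.pow a)).add
      (continuousAt_const.mul (continuousAt_id.pow b))).sub continuousAt_const
  have h2 := h.tendsto
  rwa [JS5_Bn_one a b ha hab] at h2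

theorem JS5_inv_tendsto : Tendsto (fun x : ℂ => x⁻¹) (𝓝 1) (𝓝 1) := by
  have h : ContinuousAt (fun x : ℂ => x⁻¹) 1 := continuousAt_inv₀ one_ne_zero
  have h2 := h.tendsto
  simpa using h2

theorem tJS5 (hRR : StJRR) (hEE : StJEE) (hG1 : StJG1) (hG2 : StJG2) : StJS5 := by
  intro a b α C ha hab hrel hα
  by_contra hne
  obtain ⟨R, F, hR, hF, hF0, hdF, hRel⟩ := hRR a b α C ha hab hrel hα
  obtain ⟨F', hF', hEq⟩ := hEE a b F R ha hab hR hF hRel
  have hball : Metric.ball (0 : ℂ) R ∈ 𝓝 (0:ℂ) := Metric.ball_mem_nhds _ hR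
  have hB := JS5_Bn_tendsto a b ha hab
  have hRel' : Rel1J a b F' := by
    unfold Rel1J at hRel ⊢
    filter_upwards [hRel, hB.eventually hball, (hB.comp JS5_inv_tendsto).eventually hball]
      with x h1 h2 h3
    have e2 : F' (Bn a b x) = F (Bn a b x) := hEq h2
    have e3 : F' (Bn a b x⁻¹) = F (Bn a b x⁻¹) := hEq h3
    rw [e2, e3, h1]
  have hc := hG1 a b F' ha hab hF' hRel'
  have hd : deriv F' 0 = α 1 := by
    rw [← hdF]
    exact (hEq.eventuallyEq_of_mem hball).deriv_eq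
  have h0 : F' 0 = 0 := (hEq (Metric.mem_ball_self hR)).trans hF0
  refine hG2 a b ha hab ?_
  unfold Rel1J at hRel' ⊢
  filter_upwards [hRel'] with x hx
  rw [hc (Bn a b x), hc (Bn a b x⁻¹), hd, h0, zero_add, zero_add] at hx
  refine mul_left_cancel₀ hne ?_
  rw [hx]
  ring

end H719FX
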