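import Pool.Agent.H719R4.FX.NegI
import Pool.Agent.H719R4.FX.TE

open Complex Set Filter Topology

namespace H719FX

open H738CZ

/-- derivative of `Bn` -/
lemma JTE_dB (a b : ℕ) (ha : 1 ≤ a) (hab : a < b) (s : ℂ) (hs : s ≠ 0) :
    HasDerivAt (Bn a b) (Bnd a b s) s := by
  have hsp : s⁻¹ ≠ 0 := inv_ne_zero hs
  have hab0 : ((a : ℂ) + b) ≠ 0 := by
    have : ((a + b : ℕ) : ℂ) ≠ 0 := Nat.cast_ne_zero.mpr (by omega)
    push_cast at this
    exact this
  have d1 : HasDerivAt (fun y : ℂ => (y⁻¹) ^ a) ((a : ℂ) * (s⁻¹) ^ (a - 1) * -(s ^ 2)⁻¹) s :=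
    (hasDerivAt_inv hs).fun_pow a
  have d2 : HasDerivAt (fun y : ℂ => y ^ b) ((b : ℂ) * s ^ (b - 1)) s := hasDerivAt_pow b s
  have d3 := ((d1.const_mul ((b : ℂ) / (a + b))).fun_add
    (d2.const_mul ((a : ℂ) / (a + b)))).sub_const (1 : ℂ)
  have e : Bnd a b s = (b : ℂ) / (a + b) * ((a : ℂ) * (s⁻¹) ^ (a - 1) * -(s ^ 2)⁻¹) +
      (a : ℂ) / (a + b) * ((b : ℂ) * s ^ (b - 1)) := by
    obtain ⟨a', rfl⟩ : ∃ a', a = a' + 1 := ⟨a - 1, by omega⟩
    obtain ⟨b', rfl⟩ : ∃ b', b = b' + 1 := ⟨b - 1, by omega⟩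
    unfold Bnd
    have e1 : (s⁻¹) ^ (a' + 1 + 1) * s ^ (a' + 1 + (b' + 1)) = s ^ b' := by
      have h1 : a' + 1 + (b' + 1) = (a' + 1 + 1) + b' := by ring
      rw [h1, pow_add s, ← mul_assoc, ← mul_pow, inv_mul_cancel₀ hs, one_pow, one_mul]
    have e2 : (s⁻¹) ^ a' * (s ^ 2)⁻¹ = (s⁻¹) ^ (a' + 1 + 1) := by
      rw [← inv_pow]; ring
    rw [Nat.add_sub_cancel, Nat.add_sub_cancel]
    set C : ℂ := ((a' + 1 : ℕ) : ℂ) * ((b' + 1 : ℕ) : ℂ) /
      (((a' + 1 : ℕ) : ℂ) + ((b' + 1 : ℕ) : ℂ)) with hC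
    calc C * (s⁻¹) ^ (a' + 1 + 1) * (s ^ (a' + 1 + (b' + 1)) - 1)
        = C * ((s⁻¹) ^ (a' + 1 + 1) * s ^ (a' + 1 + (b' + 1)) - (s⁻¹) ^ (a' + 1 + 1)) := by ring
      _ = C * (s ^ b' - (s⁻¹) ^ a' * (s ^ 2)⁻¹) := by rw [e1, e2]
      _ = _ := by rw [hC]; ring
  rw [e]
  exact d3

/-- derivative of `Bn (1 / s)` -/
lemma JTE_dBM (a b : ℕ) (ha : 1 ≤ a) (hab : a < b) (s : ℂ) (hs : s ≠ 0) :
    HasDerivAt (fun y => Bn a b y⁻¹) (Bnd a b s * (s⁻¹) ^ (b - a)) s := by
  have hsp : s⁻¹ ≠ 0 := inv_ne_zero hs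
  have d1 := (JTE_dB a b ha hab s⁻¹ hsp).comp s (hasDerivAt_inv hs)
  have e : Bnd a b s * (s⁻¹) ^ (b - a) = Bnd a b s⁻¹ * -(s ^ 2)⁻¹ := by
    obtain ⟨a', rfl⟩ : ∃ a', a = a' + 1 := ⟨a - 1, by omega⟩
    obtain ⟨c, rfl⟩ : ∃ c, b = (a' + 1) + c := ⟨b - (a' + 1), by omega⟩
    unfold Bnd
    rw [inv_inv, Nat.add_sub_cancel_left, ← inv_pow]
    have hn : a' + 1 + (a' + 1 + c) = a' + a' + 2 + c := by ring
    rw [hn]
    have e1 : s ^ (a' + a' + 2 + c) * (s⁻¹) ^ (a' + a' + 2 + c) = 1 := by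
      rw [← mul_pow, mul_inv_cancel₀ hs, one_pow]
    have e2 : s ^ (a' + 1 + 1) * (s⁻¹) ^ 2 = s ^ a' := by
      have h1 : s ^ (a' + 1 + 1) = s ^ a' * s ^ 2 := by ring
      rw [h1, mul_assoc, ← mul_pow, mul_inv_cancel₀ hs, one_pow, mul_one]
    have e3 : (s⁻¹) ^ (a' + 1 + 1) * (s⁻¹) ^ c = s ^ a' * (s⁻¹) ^ (a' + a' + 2 + c) := by
      have h1 : (s⁻¹) ^ (a' + a' + 2 + c) = (s⁻¹) ^ a' * ((s⁻¹) ^ (a' + 1 + 1) * (s⁻¹) ^ c) := by
        ring
      rw [h1, ← mul_assoc (s ^ a'), ← mul_pow, mul_inv_cancel₀ hs, one_pow, one_mul]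
    set C : ℂ := ((a' + 1 : ℕ) : ℂ) * ((a' + 1 + c : ℕ) : ℂ) /
      (((a' + 1 : ℕ) : ℂ) + ((a' + 1 + c : ℕ) : ℂ)) with hC
    calc C * (s⁻¹) ^ (a' + 1 + 1) * (s ^ (a' + a' + 2 + c) - 1) * (s⁻¹) ^ c
        = C * (s ^ (a' + a' + 2 + c) - 1) * ((s⁻¹) ^ (a' + 1 + 1) * (s⁻¹) ^ c) := by ring
      _ = C * (s ^ (a' + a' + 2 + c) - 1) * (s ^ a' * (s⁻¹) ^ (a' + a' + 2 + c)) := by rw [e3]
      _ = C * s ^ a' * (s ^ (a' + a' + 2 + c) * (s⁻¹) ^ (a' + a' + 2 + c)
          - (s⁻¹) ^ (a' + a' + 2 + c)) := by ring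
      _ = C * s ^ a' * (1 - (s⁻¹) ^ (a' + a' + 2 + c)) := by rw [e1]
      _ = C * (s ^ (a' + 1 + 1) * (s⁻¹) ^ 2) * (1 - (s⁻¹) ^ (a' + a' + 2 + c)) := by rw [e2]
      _ = C * s ^ (a' + 1 + 1) * ((s⁻¹) ^ (a' + a' + 2 + c) - 1) * -(s⁻¹) ^ 2 := by ring
  rw [e]
  exact d1

theorem tJTE : StJTE := by
  intro a b r c1 X W ha hab hL
  have hr := hL.r0
  have h0r : (0 : ℂ) ∈ Metric.ball (0 : ℂ) r := Metric.mem_ball_self hr
  have hXa : AnalyticAt ℂ X 0 :=
    hL.dX.analyticAt (Metric.isOpen_ball.mem_nhds h0r)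
  have hX0 := hL.X0
  have hWa := hL.aW
  have hcab : (((b - a : ℕ) : ℕ) : ℂ) = (b : ℂ) - a := Nat.cast_sub hab.le
  have hXne : ∀ᶠ w in 𝓝 (0 : ℂ), X w ≠ 0 := by
    apply hXa.continuousAt.eventually_ne
    rw [hX0]; exact one_ne_zero
  -- analyticity
  have hXi : AnalyticAt ℂ (fun w => (X w)⁻¹) 0 := hXa.fun_inv (by rw [hX0]; exact one_ne_zero)
  have hXi0 : (X 0)⁻¹ = 1 := by rw [hX0, inv_one]
  have hWMoX : AnalyticAt ℂ (fun w => W (X w)⁻¹) 0 := by
    apply AnalyticAt.fun_comp (g := W) (f := fun w => (X w)⁻¹) (by rw [hXi0]; exact hWa)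
      hXi
  have hMcX : AnalyticAt ℂ (fun w => McJ a b (X w)) 0 := by
    unfold McJ
    refine AnalyticAt.cexp (analyticAt_const.mul (hXa.clog ?_))
    rw [hX0]
    exact one_mem_slitPlane
  have dX : HasDerivAt X c1 0 := by
    have := hXa.differentiableAt.hasDerivAt
    rwa [hL.X1] at this
  have dXi : HasDerivAt (fun w => (X w)⁻¹) (-c1) 0 := by
    have d1 := dX.fun_inv (by rw [hX0]; exact one_ne_zero)
    rw [hX0] at d1
    have e : (-c1 : ℂ) = -c1 / 1 ^ 2 := by norm_num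
    rw [e]
    exact d1
  have dLg : HasDerivAt (fun w => log (X w)) c1 0 := by
    have h1 : X 0 ∈ slitPlane := by rw [hX0]; exact one_mem_slitPlane
    have d1 := dX.clog h1
    rw [hX0] at d1
    have e : (c1 : ℂ) = c1 / 1 := by norm_num
    rw [e]
    exact d1
  refine ⟨hWMoX.neg, hMcX, ?_, ?_⟩
  · -- the return map
    obtain ⟨M, hM⟩ : ∃ M : ℂ → ℂ, M = fun w => - W (X w)⁻¹ := ⟨_, rfl⟩
    have hMa : AnalyticAt ℂ M 0 := by rw [hM]; exact hWMoX.neg
    have hM0 : M 0 = 0 := by rw [hM]; simp only [hXi0, hL.W0, neg_zero]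
    have dW : HasDerivAt W (deriv W 1) 1 := hWa.differentiableAt.hasDerivAt
    have hWc : deriv W 1 * c1 = 1 := by
      have d1 : HasDerivAt (fun w => W (X w)) (deriv W 1 * c1) 0 := by
        have := HasDerivAt.comp (h₂ := W) (h := X) (x := (0 : ℂ)) (h₂' := deriv W 1)
          (by rw [hX0]; exact dW) dX
        exact this
      have d2 : HasDerivAt (fun w : ℂ => W (X w)) 1 0 :=
        (hasDerivAt_id (0 : ℂ)).congr_of_eventuallyEq hL.WX
      exact d1.unique d2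
    have hM1 : deriv M 0 = 1 := by
      have d3 : HasDerivAt (fun w => W (X w)⁻¹) (deriv W 1 * (-c1)) 0 := by
        have := HasDerivAt.comp (h₂ := W) (h := fun w => (X w)⁻¹) (x := (0 : ℂ))
          (h₂' := deriv W 1) (by rw [hXi0]; exact dW) dXi
        exact this
      have d4 : HasDerivAt M (-(deriv W 1 * (-c1))) 0 := by
        rw [hM]; exact d3.fun_neg
      rw [d4.deriv]
      linear_combination hWc
    -- the function `E`
    obtain ⟨E, hE⟩ : ∃ E : ℂ → ℂ, E = fun w => ((X w)⁻¹) ^ (b - a) := ⟨_, rfl⟩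
    have dE : HasDerivAt E (-(((b : ℂ) - a) * c1)) 0 := by
      have d1 := dXi.fun_pow (b - a)
      rw [hXi0, one_pow] at d1
      have e : (-(((b : ℂ) - a) * c1) : ℂ) = ((b - a : ℕ) : ℂ) * 1 * -c1 := by
        rw [hcab]
        ring
      rw [hE, e]
      exact d1
    -- `M² = Bn (1 / X w)`
    have hBW : ∀ᶠ x in 𝓝 (1 : ℂ), Bn a b x = W x ^ 2 := by
      have h1 : ∀ᶠ x in 𝓝 (1 : ℂ), W x ∈ Metric.ball (0 : ℂ) r := by
        apply hWa.continuousAt.eventually
        rw [hL.W0]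
        exact Metric.isOpen_ball.mem_nhds h0r
      filter_upwards [h1, hL.XW] with x hx1 hx2
      have := hL.BX (W x) hx1
      rwa [hx2] at this
    have hMsq : ∀ᶠ w in 𝓝 (0 : ℂ), Bn a b (X w)⁻¹ = M w ^ 2 := by
      have h1 : Tendsto (fun w => (X w)⁻¹) (𝓝 0) (𝓝 1) := by
        have := hXi.continuousAt.tendsto
        rwa [hXi0] at this
      filter_upwards [h1.eventually hBW] with w hw
      rw [hw, hM, neg_sq]
    -- the differential equation
    have hODE : ∀ᶠ w in 𝓝 (0 : ℂ), M w * deriv M w = w * E w := by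
      filter_upwards [hMsq.eventually_nhds, Metric.isOpen_ball.mem_nhds h0r,
        hMa.eventually_analyticAt, hXne] with w hw1 hwr hMw hXw0
      have hXw : HasDerivAt X (deriv X w) w :=
        ((hL.dX w hwr).differentiableAt (Metric.isOpen_ball.mem_nhds hwr)).hasDerivAt
      have d1 : HasDerivAt (fun w => Bn a b (X w)) (Bnd a b (X w) * deriv X w) w :=
        (JTE_dB a b ha hab (X w) hXw0).comp w hXw
      have d2 : HasDerivAt (fun w => Bn a b (X w)) (2 * w) w := by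
        have h1 : HasDerivAt (fun w : ℂ => w ^ 2) (2 * w) w := by
          have := hasDerivAt_pow 2 w
          simpa using this
        refine h1.congr_of_eventuallyEq ?_
        filter_upwards [Metric.isOpen_ball.mem_nhds hwr] with v hv
        exact hL.BX v hv
      have e1 := d1.unique d2
      have d3 : HasDerivAt (fun w => Bn a b (X w)⁻¹)
          (Bnd a b (X w) * ((X w)⁻¹) ^ (b - a) * deriv X w) w :=
        HasDerivAt.comp (h₂ := fun y => Bn a b y⁻¹) (h := X) w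
          (JTE_dBM a b ha hab (X w) hXw0) hXw
      have d4 : HasDerivAt (fun w => Bn a b (X w)⁻¹) (2 * M w * deriv M w) w := by
        have h1 : HasDerivAt (fun w : ℂ => M w ^ 2) (2 * M w * deriv M w) w := by
          have := hMw.differentiableAt.hasDerivAt.fun_pow 2
          simpa using this
        exact h1.congr_of_eventuallyEq hw1
      have e2 := d3.unique d4
      have e3 : E w = ((X w)⁻¹) ^ (b - a) := by rw [hE]
      rw [e3]
      linear_combination (-1 / 2 : ℂ) * e2 +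
        (1 / 2 : ℂ) * ((X w)⁻¹) ^ (b - a) * e1
    -- division by `w`
    obtain ⟨N, hN⟩ : ∃ N : ℂ → ℂ, N = dslope M 0 := ⟨_, rfl⟩
    have hNa : AnalyticAt ℂ N 0 := by
      obtain ⟨q, hq⟩ := hMa
      rw [hN]
      exact hq.has_fpower_series_dslope_fslope.analyticAt
    have hMN : ∀ w, M w = w * N w := by
      intro w
      have := sub_smul_dslope M 0 w
      rw [hM0, smul_eq_mul, sub_zero, sub_zero] at this
      rw [hN, this]
    have hN0 : N 0 = 1 := by rw [hN, dslope_same, hM1]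
    have hNE : ∀ᶠ w in 𝓝 (0 : ℂ), N w * (N w + w * deriv N w) = E w := by
      have hd : ∀ᶠ w in 𝓝 (0 : ℂ), deriv M w = N w + w * deriv N w := by
        filter_upwards [hNa.eventually_analyticAt] with w hw
        have h1 : M = fun w => w * N w := funext hMN
        have h2 : HasDerivAt (fun w => w * N w) (1 * N w + w * deriv N w) w :=
          (hasDerivAt_id w).fun_mul hw.differentiableAt.hasDerivAt
        rw [h1, h2.deriv, one_mul]
      have hpt : ∀ᶠ w in 𝓝[≠] (0 : ℂ), N w * (N w + w * deriv N w) = E w := by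
        filter_upwards [nhdsWithin_le_nhds hd, nhdsWithin_le_nhds hODE, self_mem_nhdsWithin]
          with w h1 h2 h3
        have h4 : w ≠ 0 := h3
        rw [h1, hMN w] at h2
        have h5 : w * (N w * (N w + w * deriv N w)) = w * E w := by linear_combination h2
        exact mul_left_cancel₀ h4 h5
      have h0 : N 0 * (N 0 + 0 * deriv N 0) = E 0 := by
        rw [hN0, hE]
        simp only [hXi0, one_pow]
        norm_num
      rw [eventually_nhdsWithin_iff] at hpt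
      filter_upwards [hpt] with w hw
      by_cases h : w = 0
      · rw [h]; exact h0
      · exact hw h
    have hb : deriv N 0 = -(((b : ℂ) - a) / 3 * c1) := by
      have dN : HasDerivAt N (deriv N 0) 0 := hNa.differentiableAt.hasDerivAt
      have dN' : HasDerivAt (deriv N) (deriv (deriv N) 0) 0 :=
        hNa.deriv.differentiableAt.hasDerivAt
      have d1 := dN.fun_mul (dN.fun_add ((hasDerivAt_id (0 : ℂ)).fun_mul dN'))
      have d2 : HasDerivAt (fun w => N w * (N w + w * deriv N w)) (-(((b : ℂ) - a) * c1)) 0 :=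
        dE.congr_of_eventuallyEq hNE
      have e1 := HasDerivAt.unique d1 d2
      rw [hN0] at e1
      simp only [id] at e1
      linear_combination (1 / 3 : ℂ) * e1
    obtain ⟨b', g, hg, hNT⟩ := TE_T N 0 hNa
    have hfin : (fun w : ℂ => - W (X w)⁻¹ - (w - (((b : ℂ) - a) / 3 * c1) * w ^ 2)) =
        fun w => w ^ 3 * (b' + w * g w) := by
      funext w
      have e1 : - W (X w)⁻¹ = M w := by rw [hM]
      rw [e1, hMN w, hNT w, hN0, hb]
      ring
    rw [hfin]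
    have : (fun w : ℂ => w ^ 3 * (b' + w * g w)) =O[𝓝 0] (fun w => w ^ 3 * (1 : ℂ)) := by
      refine (Asymptotics.isBigO_refl _ _).mul ?_
      have : ContinuousAt (fun w => b' + w * g w) 0 :=
        continuousAt_const.add (continuousAt_id.mul hg)
      exact this.tendsto.isBigO_one ℂ
    simpa using this
  · obtain ⟨b', g, hg, hF⟩ := TE_T (fun w => McJ a b (X w)) 0 hMcX
    have h1 : McJ a b (X 0) = 1 := by
      rw [hX0]; unfold McJ; norm_num
    have h2 : deriv (fun w => McJ a b (X w)) 0 = 2 * (((b : ℂ) - a) / 3 * c1) := by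
      have d3 := (dLg.const_mul (2 * ((b : ℂ) - a) / 3)).cexp
      have : deriv (fun w => McJ a b (X w)) 0 = _ := d3.deriv
      rw [this, hX0]
      norm_num
      ring
    simp only [h1, h2] at hF
    have : (fun w : ℂ => McJ a b (X w) - (1 + 2 * (((b : ℂ) - a) / 3 * c1) * w))
        =O[𝓝 0] (fun w => w ^ 2 * (1 : ℂ)) := by
      have e : (fun w : ℂ => McJ a b (X w) - (1 + 2 * (((b : ℂ) - a) / 3 * c1) * w))
        = fun w => w ^ 2 * (b' + w * g w) := by
        funext w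
        rw [hF w]; ring
      rw [e]
      refine (Asymptotics.isBigO_refl _ _).mul ?_
      have : ContinuousAt (fun w => b' + w * g w) 0 :=
        continuousAt_const.add (continuousAt_id.mul hg)
      exact this.tendsto.isBigO_one ℂ
    simpa using this

end H719FX
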