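import Pool.Agent.H719R4.FX.NegI

/-!
# Derivative of `Bn (1 / s)`
-/

set_option autoImplicit false

open Complex Set Filter Topology

namespace H719FX

open H738CZ

theorem tJVB : StJVB := by
  intro a b s ha hab hs
  have h1 : HasDerivAt (fun y : ℂ => (b : ℂ) / (a + b) * y ^ a + (a : ℂ) / (a + b) * (y⁻¹) ^ b - 1)
      ((b : ℂ) / (a + b) * ((a : ℂ) * s ^ (a - 1)) +
        (a : ℂ) / (a + b) * ((b : ℂ) * (s⁻¹) ^ (b - 1) * (-(s ^ 2)⁻¹))) s := by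
    refine HasDerivAt.sub_const _ (HasDerivAt.add ?_ ?_)
    · exact (hasDerivAt_pow a s).const_mul _
    · exact ((hasDerivAt_inv hs).pow b).const_mul _
  have h2 : (b : ℂ) / (a + b) * ((a : ℂ) * s ^ (a - 1)) +
        (a : ℂ) / (a + b) * ((b : ℂ) * (s⁻¹) ^ (b - 1) * (-(s ^ 2)⁻¹)) =
      Bnd a b s * (s⁻¹) ^ (b - a) := by
    obtain ⟨m, rfl⟩ : ∃ m, a = m + 1 := ⟨a - 1, by omega⟩
    obtain ⟨c, rfl⟩ : ∃ c, b = m + 1 + c := ⟨b - (m + 1), by omega⟩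
    have e1 : m + 1 - 1 = m := by omega
    have e2 : m + 1 + c - 1 = m + c := by omega
    have e3 : m + 1 + c - (m + 1) = c := by omega
    have h3 : s ^ (m + 2 + c) * (s⁻¹) ^ (m + 2 + c) = 1 := by
      rw [← mul_pow, mul_inv_cancel₀ hs, one_pow]
    unfold Bnd
    rw [e1, e2, e3]
    have e4 : s ^ (m + 1 + (m + 1 + c)) = s ^ m * s ^ (m + 2 + c) := by ring
    have e5 : (s⁻¹) ^ (m + 1 + 1) * (s⁻¹) ^ c = (s⁻¹) ^ (m + 2 + c) := by ring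
    have e6 : (s⁻¹) ^ (m + c) * (s ^ 2)⁻¹ = (s⁻¹) ^ (m + 2 + c) := by
      rw [← inv_pow]; ring
    rw [e4]
    push_cast
    linear_combination (-(((m : ℂ) + 1) * ((m : ℂ) + 1 + c) / ((m : ℂ) + 1 + ((m : ℂ) + 1 + c)))) * e6
      - (((m : ℂ) + 1) * ((m : ℂ) + 1 + c) / ((m : ℂ) + 1 + ((m : ℂ) + 1 + c))) *
        (s ^ m * s ^ (m + 2 + c) - 1) * e5
      - (((m : ℂ) + 1) * ((m : ℂ) + 1 + c) / ((m : ℂ) + 1 + ((m : ℂ) + 1 + c))) * s ^ m * h3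
  rw [h2] at h1
  have h3 : (fun y : ℂ => Bn a b y⁻¹) =
      fun y : ℂ => (b : ℂ) / (a + b) * y ^ a + (a : ℂ) / (a + b) * (y⁻¹) ^ b - 1 := by
    funext y
    unfold Bn
    rw [inv_inv]
  rw [h3]
  exact h1

end H719FX
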