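import Pool.Agent.H719R4.FX.NegI
import Pool.Agent.H719R4.FX.IWT

/-!
# JWT: pole order of the inhomogeneous term (places at infinity, isotropic direction)
-/

open Complex Set Filter Topology

namespace H719FX

open H738CZ

theorem tJWT : StJWT := by
  intro a b u R ha hab hU g J hJ hg hG
  have hk : 1 ≤ a + b := by omega
  obtain ⟨e, he⟩ : ∃ e : ℕ, e = b - a := ⟨_, rfl⟩
  have hmaps : ∀ τ ∈ Metric.ball (0 : ℂ) R, τ ^ 6 ∈ Metric.ball (0 : ℂ) (R ^ 6) := by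
    intro τ hτ
    rw [mem_ball_zero_iff] at hτ ⊢
    rw [norm_pow]
    exact pow_lt_pow_left₀ hτ (norm_nonneg _) (by norm_num)
  have hu3 : DifferentiableOn ℂ (fun τ : ℂ => u (τ ^ 6)) (Metric.ball 0 R) :=
    hU.df.comp (differentiableOn_pow 6) hmaps
  -- weights of the building blocks
  have hρ : WT_W R (-(3 * (e : ℤ))) (ρj a b u) := by
    refine ⟨fun τ => u (τ ^ 6) ^ 3, hu3.pow 3, fun τ hτ => ?_⟩
    have h0 := WT_ne hτ
    show (τ ^ (b - a) * u (τ ^ 6)) ^ 3 * τ ^ (-(3 * (e : ℤ))) = u (τ ^ 6) ^ 3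
    rw [← he]
    have e1 : τ ^ (-(3 * (e : ℤ))) = ((τ ^ e) ^ 3)⁻¹ := by
      rw [zpow_neg, ← pow_mul]
      congr 1
      rw [show (3 * (e : ℤ)) = ((e * 3 : ℕ) : ℤ) by push_cast; ring, zpow_natCast]
    have h1 : τ ^ e ≠ 0 := pow_ne_zero _ h0
    rw [e1]
    field_simp
  have hr : WT_W R (e : ℤ) (fun t => (rj a b u t)⁻¹) := by
    refine ⟨fun τ => (u (τ ^ 6))⁻¹, hu3.inv (fun τ hτ => hU.nz _ (hmaps τ hτ)), fun τ hτ => ?_⟩
    have h0 := WT_ne hτ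
    have h1 := hU.nz _ (hmaps τ (WT_ball hτ))
    show (τ ^ (b - a) * u (τ ^ 6))⁻¹ * τ ^ (e : ℤ) = (u (τ ^ 6))⁻¹
    rw [← he, zpow_natCast]
    have h2 : τ ^ e ≠ 0 := pow_ne_zero _ h0
    field_simp
  have hgj : ∀ j, 1 ≤ j → j < J → WT_W R ((2 * e) * (j - 1) : ℤ) (g j) := by
    intro j h1 h2
    obtain ⟨G, hG1, hG2⟩ := hG j h1 h2
    refine ⟨G, hG1, fun τ hτ => ?_⟩
    rw [← hG2 τ hτ, ← he]
    congr 1
    rw [show ((2 * e) * (j - 1) : ℤ) = (((2 * e) * (j - 1) : ℕ) : ℤ) by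
      push_cast [Nat.cast_sub h1]; ring, zpow_natCast]
  have hT : ∀ j ∈ Finset.Ico 1 J, IWT_P R (-(2 * e : ℤ))
      (fun t => Tm kcs (di (a + b)) (ρj a b u) (rj a b u) g j t) := by
    intro j hj
    rw [Finset.mem_Ico] at hj
    have h1 := IWT_Es hk (WT_mul (hgj j hj.1 hj.2) (WT_pow hr j))
    have h2 := IWT_Ppow (IWT_Ys kcs hk hρ) j
    have h3 := IWT_Pmul h1 h2
    have e2 : ((2 * e) * (j - 1) : ℤ) + j * (e : ℤ) + j * (-(3 * (e : ℤ))) = -(2 * e : ℤ) := by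
      ring
    rw [e2] at h3
    exact h3
  have hL : WT_W R (-(2 * e : ℤ))
      (fun t => Lo kcs (di (a + b)) (ρj a b u) (rj a b u) g J t) := by
    have h1 := WT_sum (Finset.Ico 1 J) (fun j t => PowerSeries.coeff (2 * J + 1)
      (Tm kcs (di (a + b)) (ρj a b u) (rj a b u) g j t)) (fun j hj => hT j hj (2 * J + 1))
    refine WT_congr (fun t _ => ?_) h1
    show Lo kcs (di (a + b)) (ρj a b u) (rj a b u) g J t = _
    unfold Lo
    rw [map_sum]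
  obtain ⟨F, hF1, hF2⟩ := WT_mul (WT_pow hr (2 * J)) hL
  refine ⟨F, hF1, fun τ hτ => ?_⟩
  rw [← hF2 τ hτ, ← he]
  congr 1
  have e3 : (((2 * J : ℕ) : ℤ) * (e : ℤ) + (-(2 * e : ℤ))) = (((2 * e) * (J - 1) : ℕ) : ℤ) := by
    push_cast [Nat.cast_sub (show 1 ≤ J by omega)]
    ring
  rw [e3, zpow_natCast]

end H719FX
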