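import Pool.Agent.H719R4.FX.Neg
import Pool.Agent.H719R4.FX.FF

/-! Task NFF (helper250): global trajectories; adapted from `FX/FF.lean` (helper470). -/

open Complex Set Filter Topology

namespace H719FX

open H738CZ
open scoped NNReal

theorem NFF_th (a b : ℕ) (ha : 1 ≤ a) (hab : a < b) :
    0 < Real.pi / (b : ℝ) ∧ Real.pi / (b : ℝ) ≤ Real.pi / 2 := by
  have h1 : (2 : ℝ) ≤ b := by exact_mod_cast (show 2 ≤ b by omega)
  constructor
  · have := Real.pi_pos
    positivity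
  · apply div_le_div_of_nonneg_left Real.pi_pos.le (by norm_num) h1

/-- exponentials of the half strip -/
theorem NFF_exp_mem (a b : ℕ) (ha : 1 ≤ a) (hab : a < b) {z : ℂ} (h : 0 ≤ z.re) (h1 : 0 ≤ z.im)
    (h2 : z.im ≤ Real.pi / (b : ℝ)) : cexp z ∈ Dn b ∧ arg (cexp z) = z.im := by
  obtain ⟨ht0, ht1⟩ := NFF_th a b ha hab
  have hpi := Real.pi_pos
  have harg : arg (cexp z) = z.im := by
    have := Complex.log_exp (x := z) (by linarith) (by linarith)
    rw [← Complex.log_im, this]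
  refine ⟨⟨?_, ?_⟩, harg⟩
  · rw [Complex.norm_exp]
    exact Real.one_le_exp h
  · rw [harg, abs_of_nonneg h1]
    exact h2

theorem NFF_T_nz (a b : ℕ) (ha : 1 ≤ a) (hab : a < b) (hVB : VBN a b) {v : ℂ}
    (hv : v ∈ FF_T (Real.pi / (b : ℝ))) : ∑ i ∈ Finset.range (a + b), v ^ i ≠ 0 := by
  obtain ⟨⟨r, c⟩, ⟨⟨hr0, hr1⟩, ha0, ha1⟩, rfl⟩ := hv
  simp only at hr0 hr1 ha0 ha1 ⊢
  rcases hr0.eq_or_lt with h | h
  · rw [← h]
    obtain ⟨j, hj⟩ : ∃ j, a + b = j + 1 := ⟨a + b - 1, by omega⟩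
    rw [hj, Finset.sum_range_succ']
    simp
  · have hz : (0 : ℝ) ≤ (((-Real.log r : ℝ) : ℂ) + c * I).re := by
      simp only [Complex.add_re, Complex.ofReal_re, Complex.mul_re, Complex.I_re, mul_zero,
        Complex.ofReal_im, Complex.I_im, mul_one, sub_self, add_zero]
      have := Real.log_nonpos hr0 hr1
      linarith
    have him : (((-Real.log r : ℝ) : ℂ) + c * I).im = c := by simp
    have hm := (NFF_exp_mem a b ha hab hz (by rw [him]; exact ha0) (by rw [him]; exact ha1)).1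
    have := hVB.nz _ hm
    have he : (cexp (((-Real.log r : ℝ) : ℂ) + c * I))⁻¹ = (r : ℂ) * cexp (-((c : ℂ) * I)) := by
      rw [← Complex.exp_neg, neg_add, Complex.exp_add]
      congr 1
      rw [Complex.ofReal_neg, neg_neg, ← Complex.ofReal_exp, Real.exp_log h]
    rw [he] at this
    exact this

theorem NFF_dif (a b : ℕ) : DifferentiableOn ℂ (hfn a b) {v | ∑ i ∈ Finset.range (a + b), v ^ i ≠ 0} := by
  intro v hv
  have hv' : ∑ i ∈ Finset.range (a + b), v ^ i ≠ 0 := hv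
  apply DifferentiableAt.differentiableWithinAt
  unfold hfn
  refine (differentiableAt_const _).sub (DifferentiableAt.div ?_ ?_ hv')
  · fun_prop
  · fun_prop

theorem NFF_open (k : ℕ) : IsOpen {v : ℂ | ∑ i ∈ Finset.range k, v ^ i ≠ 0} := by
  refine isOpen_ne_fun (by fun_prop) (by fun_prop)

/-- the vector field in the logarithmic coordinate -/
noncomputable def NFF_v (a b : ℕ) (z : ℂ) : ℂ :=
  hfn a b (cexp (-FF_ret (Real.pi / (b : ℝ)) z))

theorem NFF_v_lip (a b : ℕ) (ha : 1 ≤ a) (hab : a < b) (hVB : VBN a b) :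
    ∃ K L : ℝ≥0, LipschitzWith K (NFF_v a b) ∧ ∀ z, ‖NFF_v a b z‖ ≤ L := by
  obtain ⟨ht0, ht1⟩ := NFF_th a b ha hab
  set θ := Real.pi / (b : ℝ) with hθ
  have hsub : FF_T θ ⊆ {v | ∑ i ∈ Finset.range (a + b), v ^ i ≠ 0} := fun v hv =>
    NFF_T_nz a b ha hab hVB hv
  have hd := NFF_dif a b
  have hd' := hd.deriv (NFF_open (a + b))
  obtain ⟨M0, hM0⟩ := (FF_T_cpt θ).exists_bound_of_continuousOn (hd.continuousOn.mono hsub)
  obtain ⟨M1, hM1⟩ := (FF_T_cpt θ).exists_bound_of_continuousOn (hd'.continuousOn.mono hsub)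
  refine ⟨Real.toNNReal M1, Real.toNNReal M0, ?_, ?_⟩
  · refine LipschitzWith.of_dist_le_mul fun z w => ?_
    rw [dist_eq_norm, dist_eq_norm]
    let S : Set ℂ := {z | 0 ≤ z.re} ∩ ({z | 0 ≤ z.im} ∩ {z | z.im ≤ θ})
    have hS : Convex ℝ S := (convex_halfSpace_re_ge 0).inter
      ((convex_halfSpace_im_ge 0).inter (convex_halfSpace_im_le θ))
    have hder : ∀ x ∈ S, HasDerivWithinAt (fun z : ℂ => hfn a b (cexp (-z)))
        (deriv (hfn a b) (cexp (-x)) * (cexp (-x) * (-1))) S x := by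
      rintro x ⟨hx1, hx2, hx3⟩
      have hx : cexp (-x) ∈ {v | ∑ i ∈ Finset.range (a + b), v ^ i ≠ 0} := hsub (FF_exp_T θ hx1 hx2 hx3)
      have h1 : HasDerivAt (hfn a b) (deriv (hfn a b) (cexp (-x))) (cexp (-x)) :=
        ((hd _ hx).differentiableAt ((NFF_open (a + b)).mem_nhds hx)).hasDerivAt
      have h2 : HasDerivAt (fun z : ℂ => cexp (-z)) (cexp (-x) * (-1)) x :=
        ((hasDerivAt_id x).neg).cexp
      exact (h1.comp x h2).hasDerivWithinAt
    have hb : ∀ x ∈ S, ‖deriv (hfn a b) (cexp (-x)) * (cexp (-x) * (-1))‖ ≤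
        ((Real.toNNReal M1 : ℝ≥0) : ℝ) := by
      rintro x ⟨hx1, hx2, hx3⟩
      rw [norm_mul, norm_mul, norm_neg, norm_one, mul_one]
      have e1 := hM1 _ (FF_exp_T θ hx1 hx2 hx3)
      have e2 : ‖cexp (-x)‖ ≤ 1 := by
        rw [Complex.norm_exp, Real.exp_le_one_iff, Complex.neg_re]
        have : (0 : ℝ) ≤ x.re := hx1
        linarith
      refine (mul_le_of_le_one_right (norm_nonneg _) e2).trans (e1.trans (Real.le_coe_toNNReal _))
    have hm : ∀ z : ℂ, FF_ret θ z ∈ S := fun z =>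
      ⟨FF_ret_re θ z, FF_ret_im0 θ z, FF_ret_im1 θ ht0.le z⟩
    have := hS.norm_image_sub_le_of_norm_hasDerivWithin_le hder hb (hm w) (hm z)
    refine this.trans ?_
    exact mul_le_mul_of_nonneg_left (FF_ret_lip θ z w) (NNReal.coe_nonneg _)
  · intro z
    refine (hM0 _ (FF_exp_T θ (FF_ret_re θ z) (FF_ret_im0 θ z) (FF_ret_im1 θ ht0.le z))).trans
      (Real.le_coe_toNNReal _)

theorem NFF_pos (a b : ℕ) (ha : 1 ≤ a) (hab : a < b) (hVA : VAN a b) (hVB : VBN a b) (hVC : VCN a b)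
    (x0 : ℂ) (hx0 : x0 ∈ Dn b) (him : 0 ≤ x0.im) (hBm : 0 ≤ (Bn a b x0).im) :
    ∃ x : ℝ → ℂ, TrajN a b x0 x := by
  obtain ⟨ht0, ht1⟩ := NFF_th a b ha hab
  obtain ⟨K, L, hK, hL⟩ := NFF_v_lip a b ha hab hVB
  set θ := Real.pi / (b : ℝ) with hθ
  have hx0' : x0 ≠ 0 := by
    rintro rfl
    have := hx0.1
    rw [norm_zero] at this
    linarith
  obtain ⟨γ, hγ0, hγ⟩ := F5_global (NFF_v a b) K L hK hL (log x0)
  have hre0 : 0 ≤ (γ 0).re := by
    rw [hγ0, Complex.log_re]
    exact Real.log_nonneg hx0.1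
  have him0 : 0 ≤ (γ 0).im := by
    rw [hγ0, Complex.log_im]
    exact Complex.arg_nonneg_iff.2 him
  have him1 : (γ 0).im ≤ θ := by
    rw [hγ0, Complex.log_im]
    exact (le_abs_self _).trans hx0.2
  have hder_re : ∀ s, 0 ≤ s →
      HasDerivWithinAt (fun s => (γ s).re) (NFF_v a b (γ s)).re (Ici 0) s := by
    intro s hs
    have := (Complex.reCLM.hasFDerivAt (x := γ s)).comp_hasDerivWithinAt s (hγ s hs)
    exact this
  have hder_im : ∀ s, 0 ≤ s →
      HasDerivWithinAt (fun s => (γ s).im) (NFF_v a b (γ s)).im (Ici 0) s := by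
    intro s hs
    have := (Complex.imCLM.hasFDerivAt (x := γ s)).comp_hasDerivWithinAt s (hγ s hs)
    exact this
  have hre : ∀ s, 0 ≤ s → 0 ≤ (γ s).re := by
    refine FF_bar _ _ hder_re hre0 fun s hs h => ?_
    have h1 : (FF_ret θ (γ s)).re = 0 := max_eq_right h
    obtain ⟨h2, -⟩ := NFF_exp_mem a b ha hab (FF_ret_re θ (γ s)) (FF_ret_im0 θ (γ s))
      (FF_ret_im1 θ ht0.le (γ s))
    have h3 : ‖cexp (FF_ret θ (γ s))‖ = 1 := by
      rw [Complex.norm_exp, h1, Real.exp_zero]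
    have h4 := hVC.ar _ h2 h3
    rw [← Complex.exp_neg] at h4
    exact h4
  have him : ∀ s, 0 ≤ s → 0 ≤ (γ s).im := by
    refine FF_bar _ _ hder_im him0 fun s hs h => ?_
    have h1 : (FF_ret θ (γ s)).im = 0 := by
      change max 0 (min (γ s).im θ) = 0
      rw [max_eq_left]
      exact (min_le_left _ _).trans h
    have h2 : FF_ret θ (γ s) = (((FF_ret θ (γ s)).re : ℝ) : ℂ) := by
      apply Complex.ext
      · simp
      · rw [h1]; simp
    have h3 : NFF_v a b (γ s) = hfn a b ((Real.exp (-(FF_ret θ (γ s)).re) : ℝ) : ℂ) := by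
      unfold NFF_v
      rw [← hθ, h2]
      simp
    rw [h3, hVC.re]
  -- where the curve stays in the strip
  have hder : ∀ s, 0 ≤ s → (γ s).im ≤ θ →
      HasDerivWithinAt (fun s => cexp (γ s)) (vfn a b (cexp (γ s))) (Ici 0) s := by
    intro s hs h
    have h1 := (hγ s hs).cexp
    have h2 : cexp (γ s) * NFF_v a b (γ s) = vfn a b (cexp (γ s)) := by
      unfold NFF_v vfn
      rw [← hθ, FF_ret_id θ (hre s hs) (him s hs) h, Complex.exp_neg]
    rw [h2] at h1
    exact h1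
  have hini : cexp (γ 0) = x0 := by rw [hγ0, Complex.exp_log hx0']
  have hval : ∀ s, 0 ≤ s → (∀ t, 0 ≤ t → t ≤ s → (γ t).im ≤ θ) →
      Bn a b (cexp (γ s)) = Real.exp s * Bn a b x0 := by
    intro s hs hst
    have hB : ∀ t, 0 ≤ t → t ≤ s → HasDerivWithinAt
        (fun t : ℝ => cexp (-(t : ℂ)) * Bn a b (cexp (γ t))) 0 (Ici 0) t := by
      intro t ht hts
      have h1 : HasDerivWithinAt (fun t : ℝ => Bn a b (cexp (γ t)))
          (Bnd a b (cexp (γ t)) * vfn a b (cexp (γ t))) (Ici 0) t := by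
        have h0 := hVA.dB (cexp (γ t)) (Complex.exp_ne_zero _)
        exact HasDerivAt.comp_hasDerivWithinAt (h₂ := Bn a b) (h := fun s : ℝ => cexp (γ s)) t h0
          (hder t ht (hst t ht hts))
      have h2 : HasDerivWithinAt (fun t : ℝ => cexp (-(t : ℂ))) (cexp (-(t : ℂ)) * (-1))
          (Ici 0) t := by
        have h3 : HasDerivAt (fun t : ℝ => -(t : ℂ)) (-1) t :=
          (Complex.ofRealCLM.hasDerivAt (x := t)).neg
        exact h3.cexp.hasDerivWithinAt
      have h3 := h2.mul h1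
      have h4 := hVB.vB (cexp (γ t)) (NFF_exp_mem a b ha hab (hre t ht) (him t ht) (hst t ht hts)).1
      rw [mul_comm (Bnd a b (cexp (γ t))), h4] at h3
      have h6 : cexp (-(t : ℂ)) * (-1) * Bn a b (cexp (γ t)) +
          cexp (-(t : ℂ)) * Bn a b (cexp (γ t)) = 0 := by
        ring
      rw [h6] at h3
      exact h3
    have hconst := constant_of_has_deriv_right_zero (a := 0) (b := s)
      (f := fun t : ℝ => cexp (-(t : ℂ)) * Bn a b (cexp (γ t)))
      (fun t ht => (hB t ht.1 ht.2).continuousWithinAt.mono (fun x hx => hx.1))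
      (fun t ht => (hB t ht.1 ht.2.le).mono (fun x hx => ht.1.trans hx)) s ⟨hs, le_refl _⟩
    simp only [Complex.ofReal_zero, neg_zero, Complex.exp_zero, one_mul] at hconst
    rw [hini] at hconst
    rw [← hconst, ← mul_assoc, Complex.ofReal_exp, ← Complex.exp_add]
    simp
  have himcont : ContinuousOn (fun s => (γ s).im) (Ici 0) := fun s hs =>
    (hder_im s hs).continuousWithinAt
  have hle : ∀ s, 0 ≤ s → (γ s).im ≤ θ := by
    intro s hs
    by_contra hcon
    push Not at hcon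
    -- the first time
    let A : Set ℝ := Icc 0 s ∩ (fun s => (γ s).im) ⁻¹' (Ici θ)
    have hAc : IsClosed A := by
      have hc : ContinuousOn (fun s => (γ s).im) (Icc 0 s) := himcont.mono (fun x hx => hx.1)
      exact hc.preimage_isClosed_of_isClosed isClosed_Icc isClosed_Ici
    have hAn : A.Nonempty := ⟨s, ⟨hs, le_refl _⟩, hcon.le⟩
    have hAb : BddBelow A := ⟨0, fun x hx => hx.1.1⟩
    set s1 := sInf A with hs1
    have hs1A : s1 ∈ A := hAc.csInf_mem hAn hAb
    have hbefore : ∀ t, 0 ≤ t → t < s1 → (γ t).im < θ := by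
      intro t ht hts
      by_contra h
      push Not at h
      have : t ∈ A := ⟨⟨ht, hts.le.trans hs1A.1.2⟩, h⟩
      exact absurd (csInf_le hAb this) (not_le.2 hts)
    have heq : (γ s1).im = θ := by
      apply le_antisymm _ hs1A.2
      rcases hs1A.1.1.eq_or_lt with h | h
      · rw [← h]; exact him1
      · have hc : ContinuousWithinAt (fun s => (γ s).im) (Ico 0 s1) s1 :=
          (himcont s1 hs1A.1.1).mono (fun x hx => hx.1)
        have hcl : s1 ∈ closure (Ico 0 s1) := by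
          rw [closure_Ico h.ne]
          exact ⟨h.le, le_refl _⟩
        have : (𝓝[Ico 0 s1] s1).NeBot := mem_closure_iff_nhdsWithin_neBot.1 hcl
        refine le_of_tendsto hc ?_
        filter_upwards [self_mem_nhdsWithin] with t ht
        exact (hbefore t ht.1 ht.2).le
    have hall : ∀ t, 0 ≤ t → t ≤ s1 → (γ t).im ≤ θ := by
      intro t ht hts
      rcases hts.eq_or_lt with h | h
      · rw [h]; exact heq.le
      · exact (hbefore t ht h).le
    have hv := hval s1 hs1A.1.1 hall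
    obtain ⟨hm, harg⟩ := NFF_exp_mem a b ha hab (hre s1 hs1A.1.1) (him s1 hs1A.1.1) heq.le
    have hup := hVC.up _ hm (by rw [harg, heq])
    rw [hv, Complex.im_ofReal_mul] at hup
    have : 0 ≤ Real.exp s1 * (Bn a b x0).im := mul_nonneg (Real.exp_pos _).le hBm
    linarith
  refine ⟨fun s => cexp (γ s), hini, fun s hs => hder s hs (hle s hs), fun s hs => ?_, fun s hs => ?_⟩
  · exact (NFF_exp_mem a b ha hab (hre s hs) (him s hs) (hle s hs)).1
  · exact hval s hs fun t ht _ => hle t ht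

theorem NFF_hf_conj (a b : ℕ) (v : ℂ) :
    hfn a b ((starRingEnd ℂ) v) = (starRingEnd ℂ) (hfn a b v) := by
  unfold hfn
  simp [map_sub, map_div₀, map_mul, map_pow, map_sum]

theorem NFF_vf_conj (a b : ℕ) (s : ℂ) :
    vfn a b ((starRingEnd ℂ) s) = (starRingEnd ℂ) (vfn a b s) := by
  unfold vfn
  rw [← map_inv₀, NFF_hf_conj, map_mul]

theorem NFF_Dm_conj (a b : ℕ) (ha : 1 ≤ a) (hab : a < b) (s : ℂ) (hs : s ∈ Dn b) :
    (starRingEnd ℂ) s ∈ Dn b := by
  obtain ⟨ht0, ht1⟩ := NFF_th a b ha hab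
  have hpi := Real.pi_pos
  obtain ⟨h1, h2⟩ := hs
  have hne : arg s ≠ Real.pi := by
    intro h
    rw [h, abs_of_pos hpi] at h2
    linarith
  refine ⟨?_, ?_⟩
  · rw [Complex.norm_conj]; exact h1
  · rw [Complex.arg_conj, if_neg hne, abs_neg]
    exact h2

theorem tNFF (hVA : StNVA) (hVB : StNVB) (hVC : StNVC) : StNFF := by
  intro a b x0 ha hab hx0 hSg
  rcases hSg with ⟨h1, h2⟩ | ⟨h1, h2⟩
  · exact NFF_pos a b ha hab (hVA a b ha hab) (hVB a b ha hab) (hVC a b ha hab) x0 hx0 h1 h2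
  · obtain ⟨y, hy⟩ := NFF_pos a b ha hab (hVA a b ha hab) (hVB a b ha hab) (hVC a b ha hab)
      ((starRingEnd ℂ) x0) (NFF_Dm_conj a b ha hab x0 hx0) (by rw [Complex.conj_im]; linarith)
      (by rw [(hVA a b ha hab).cj, Complex.conj_im]; linarith)
    refine ⟨fun s => (starRingEnd ℂ) (y s), ?_, ?_, ?_, ?_⟩
    · rw [hy.ini, Complex.conj_conj]
    · intro s hs
      have := (Complex.conjCLE.toContinuousLinearMap.hasFDerivAt
        (x := y s)).comp_hasDerivWithinAt s (hy.der s hs)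
      rw [NFF_vf_conj]
      exact this
    · intro s hs
      exact NFF_Dm_conj a b ha hab _ (hy.mem s hs)
    · intro s hs
      rw [(hVA a b ha hab).cj, hy.val s hs, (hVA a b ha hab).cj, map_mul, Complex.conj_conj,
        Complex.conj_ofReal]

end H719FX
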