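import Pool.Agent.H719R4.FX.Neg
import Pool.Agent.H719R4.FX.LOC

/-!
# NLOC: the local uniformising coordinate for places at infinity
-/

open Complex Set Filter Topology

namespace H719FX

open H738CZ

/-! ### closed forms of the sums in `LOC` -/

theorem NLOC_gauss (n : ℕ) : ∑ l ∈ Finset.range n, (l : ℝ) = n * (n - 1) / 2 := by
  induction n with
  | zero => simp
  | succ n ih =>
    rw [Finset.sum_range_succ, ih]
    push_cast
    ring

theorem NLOC_ico (p i j : ℕ) (h : j ≤ p + i) : ∑ l ∈ Finset.Ico j (p + i), (l : ℝ) =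
    ((p + i) * (p + i - 1) - j * (j - 1)) / 2 := by
  rw [Finset.sum_Ico_eq_sub _ h, NLOC_gauss, NLOC_gauss]
  push_cast
  ring

theorem NLOC_q1 (p k : ℕ) : ∑ i ∈ Finset.range k, ((p : ℝ) + i) * (p + i - 1) =
    ((p + k) * (p + k - 1) * (p + k - 2) - p * (p - 1) * (p - 2)) / 3 := by
  induction k with
  | zero => simp
  | succ n ih =>
    rw [Finset.sum_range_succ, ih]
    push_cast
    ring

theorem NLOC_q2 (p : ℕ) : ∑ j ∈ Finset.range p, (j : ℝ) * (j - 1) =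
    p * (p - 1) * (p - 2) / 3 := by
  induction p with
  | zero => simp
  | succ n ih =>
    rw [Finset.sum_range_succ, ih]
    push_cast
    ring

theorem NLOC_R (p k : ℕ) (hk : 1 ≤ k) : LOC_R p k = p * (p + k) / 2 := by
  have hk0 : (k : ℝ) ≠ 0 := by exact_mod_cast (by omega : k ≠ 0)
  unfold LOC_R
  have h1 : ∀ i ∈ Finset.range k, ∑ j ∈ Finset.range p, ∑ _l ∈ Finset.Ico j (p + i), (1 : ℝ) =
      p * (p + i) - p * (p - 1) / 2 := by
    intro i _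
    have h2 : ∀ j ∈ Finset.range p, ∑ _l ∈ Finset.Ico j (p + i), (1 : ℝ) = (p + i) - j := by
      intro j hj
      have := Finset.mem_range.1 hj
      rw [Finset.sum_const, Nat.card_Ico, nsmul_eq_mul, mul_one, Nat.cast_sub (by omega)]
      push_cast
      ring
    rw [Finset.sum_congr rfl h2, Finset.sum_sub_distrib, NLOC_gauss, Finset.sum_const,
      Finset.card_range, nsmul_eq_mul]
  rw [Finset.sum_congr rfl h1, Finset.sum_sub_distrib, ← Finset.mul_sum, Finset.sum_add_distrib,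
    NLOC_gauss, Finset.sum_const, Finset.sum_const, Finset.card_range, nsmul_eq_mul, nsmul_eq_mul]
  field_simp
  ring

theorem NLOC_D (p k : ℕ) (hk : 1 ≤ k) : LOC_D p k = p * (p + k) * (2 * p + k - 3) / 6 := by
  have hk0 : (k : ℝ) ≠ 0 := by exact_mod_cast (by omega : k ≠ 0)
  unfold LOC_D
  have h1 : ∀ i ∈ Finset.range k, ∑ j ∈ Finset.range p, ∑ l ∈ Finset.Ico j (p + i), (l : ℝ) =
      p * (((p : ℝ) + i) * (p + i - 1)) / 2 - p * (p - 1) * (p - 2) / 3 / 2 := by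
    intro i _
    have h2 : ∀ j ∈ Finset.range p, ∑ l ∈ Finset.Ico j (p + i), (l : ℝ) =
        ((p : ℝ) + i) * (p + i - 1) / 2 - (j : ℝ) * (j - 1) / 2 := by
      intro j hj
      have := Finset.mem_range.1 hj
      rw [NLOC_ico p i j (by omega)]
      ring
    rw [Finset.sum_congr rfl h2, Finset.sum_sub_distrib, Finset.sum_const, ← Finset.sum_div,
      NLOC_q2, Finset.card_range, nsmul_eq_mul]
    ring
  rw [Finset.sum_congr rfl h1, Finset.sum_sub_distrib, ← Finset.sum_div, ← Finset.mul_sum,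
    NLOC_q1, Finset.sum_const, Finset.card_range, nsmul_eq_mul]
  field_simp
  ring

/-! ### the cofactor -/

/-- the cofactor `Bn = (x-1)² C` -/
noncomputable def NLOC_C (a b : ℕ) (x : ℂ) : ℂ :=
  (b : ℂ) / (a + b) * (x⁻¹) ^ a * LOC_C a b x

theorem NLOC_fac (a b : ℕ) (hb : 1 ≤ b) (x : ℂ) (hx : x ≠ 0) :
    Bn a b x = (x - 1) ^ 2 * NLOC_C a b x := by
  have hb0 : (b : ℂ) ≠ 0 := by exact_mod_cast (by omega : b ≠ 0)
  have hab0 : ((a : ℂ) + b) ≠ 0 := by exact_mod_cast (by omega : a + b ≠ 0)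
  have h := LOC_fac a b hb x
  have h2 : (x - 1) ^ 2 * NLOC_C a b x = (b : ℂ) / (a + b) * (x⁻¹) ^ a * Bm a b x := by
    rw [h]
    unfold NLOC_C
    ring
  rw [h2]
  unfold Bm Bn
  have hxa : (x⁻¹) ^ a * x ^ a = 1 := by
    rw [← mul_pow, inv_mul_cancel₀ hx, one_pow]
  have hxb : (x⁻¹) ^ a * x ^ (a + b) = x ^ b := by
    rw [pow_add, ← mul_assoc, hxa, one_mul]
  have e : (b : ℂ) / (a + b) * (x⁻¹) ^ a * (1 - ((a : ℂ) + b) / b * x ^ a + (a : ℂ) / b * x ^ (a + b))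
      = (b : ℂ) / (a + b) * (x⁻¹) ^ a - (b : ℂ) / (a + b) * (((a : ℂ) + b) / b) * ((x⁻¹) ^ a * x ^ a)
        + (b : ℂ) / (a + b) * ((a : ℂ) / b) * ((x⁻¹) ^ a * x ^ (a + b)) := by ring
  rw [e, hxa, hxb]
  field_simp
  ring

noncomputable def NLOC_Rn (a b : ℕ) : ℝ := (b : ℝ) / (a + b) * LOC_R a b

noncomputable def NLOC_Dn (a b : ℕ) : ℝ := (b : ℝ) / (a + b) * (LOC_D a b - a * LOC_R a b)

theorem NLOC_Rpos (a b : ℕ) (ha : 1 ≤ a) (hb : 1 ≤ b) : 0 < NLOC_Rn a b := by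
  unfold NLOC_Rn
  have hb0 : (0 : ℝ) < b := by exact_mod_cast (by omega : 0 < b)
  have ha0 : (0 : ℝ) < a := by exact_mod_cast (by omega : 0 < a)
  exact mul_pos (by positivity) (LOC_Rpos a b ha hb)

theorem NLOC_Dge (a b : ℕ) (ha : 1 ≤ a) (hab : a < b) :
    -(2 / 3 * NLOC_Rn a b) ≤ NLOC_Dn a b := by
  have hb0 : (0 : ℝ) < b := by exact_mod_cast (by omega : 0 < b)
  have ha0 : (0 : ℝ) < a := by exact_mod_cast (by omega : 0 < a)
  have hab' : (a : ℝ) + 1 ≤ b := by exact_mod_cast hab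
  unfold NLOC_Rn NLOC_Dn
  rw [NLOC_R a b (by omega), NLOC_D a b (by omega)]
  have e : (b : ℝ) / (a + b) * (a * (a + b) * (2 * a + b - 3) / 6 - a * (a * (a + b) / 2)) +
      2 / 3 * ((b : ℝ) / (a + b) * (a * (a + b) / 2)) = a * b * (b - a - 1) / 6 := by
    field_simp
    ring
  have h2 : 0 ≤ (a : ℝ) * b * (b - a - 1) / 6 := by
    have : 0 ≤ (b : ℝ) - a - 1 := by linarith
    positivity
  linarith

theorem NLOC_C1 (a b : ℕ) : NLOC_C a b 1 = (NLOC_Rn a b : ℂ) := by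
  unfold NLOC_C NLOC_Rn
  rw [LOC_C1]
  push_cast
  simp

theorem NLOC_Cderiv (a b : ℕ) : HasDerivAt (NLOC_C a b) (NLOC_Dn a b : ℂ) 1 := by
  have h1 : HasDerivAt (fun x : ℂ => x⁻¹) (-1) 1 := by
    have := hasDerivAt_inv (one_ne_zero : (1 : ℂ) ≠ 0)
    simpa using this
  have h2 : HasDerivAt (fun x : ℂ => (x⁻¹) ^ a) (-(a : ℂ)) 1 := by
    have := h1.fun_pow a
    simpa using this
  have h3 := (h2.const_mul ((b : ℂ) / (a + b))).mul (LOC_Cderiv a b)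
  have h4 : HasDerivAt (NLOC_C a b) (((b : ℂ) / (a + b)) * (-(a : ℂ)) * LOC_C a b 1 +
      ((b : ℂ) / (a + b)) * ((1 : ℂ)⁻¹) ^ a * (LOC_D a b : ℂ)) 1 := h3
  convert h4 using 1
  rw [LOC_C1]
  unfold NLOC_Dn
  push_cast
  simp only [inv_one, one_pow]
  ring

theorem NLOC_Can (a b : ℕ) (x : ℂ) (hx : x ≠ 0) : AnalyticAt ℂ (NLOC_C a b) x := by
  have h : AnalyticAt ℂ (fun x : ℂ => (b : ℂ) / (a + b) * (x⁻¹) ^ a * LOC_C a b x) x :=
    (analyticAt_const.mul ((analyticAt_id.inv hx).pow a)).mul (LOC_Can a b x)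
  exact h

theorem NLOC_Cconj (a b : ℕ) (x : ℂ) :
    NLOC_C a b ((starRingEnd ℂ) x) = (starRingEnd ℂ) (NLOC_C a b x) := by
  unfold NLOC_C
  rw [LOC_Cconj, map_mul, map_mul, map_div₀, map_add, map_natCast, map_natCast, map_pow, map_inv₀]

noncomputable def NLOC_g (a b : ℕ) (x : ℂ) : ℂ := (NLOC_C a b x) ^ (1 / 2 : ℂ)

theorem NLOC_slit (a b : ℕ) (ha : 1 ≤ a) (hb : 1 ≤ b) : NLOC_C a b 1 ∈ slitPlane := by
  rw [NLOC_C1]
  exact Complex.ofReal_mem_slitPlane.mpr (NLOC_Rpos a b ha hb)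

theorem NLOC_gan (a b : ℕ) (ha : 1 ≤ a) (hb : 1 ≤ b) : AnalyticAt ℂ (NLOC_g a b) 1 := by
  unfold NLOC_g
  exact (NLOC_Can a b 1 one_ne_zero).cpow analyticAt_const (NLOC_slit a b ha hb)

theorem NLOC_g1 (a b : ℕ) (ha : 1 ≤ a) (hb : 1 ≤ b) :
    NLOC_g a b 1 = ((NLOC_Rn a b ^ (1 / 2 : ℝ) : ℝ) : ℂ) := by
  unfold NLOC_g
  rw [NLOC_C1, Complex.ofReal_cpow (NLOC_Rpos a b ha hb).le]
  norm_num

theorem NLOC_gd (a b : ℕ) (ha : 1 ≤ a) (hb : 1 ≤ b) : HasDerivAt (NLOC_g a b)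
    ((1 / 2 * NLOC_Rn a b ^ (-(1 / 2) : ℝ) * NLOC_Dn a b : ℝ) : ℂ) 1 := by
  have h := (NLOC_Cderiv a b).cpow_const (c := (1 / 2 : ℂ)) (NLOC_slit a b ha hb)
  have h2 : (1 / 2 : ℂ) * (NLOC_C a b 1) ^ ((1 / 2 : ℂ) - 1) * (NLOC_Dn a b : ℂ) =
      ((1 / 2 * NLOC_Rn a b ^ (-(1 / 2) : ℝ) * NLOC_Dn a b : ℝ) : ℂ) := by
    rw [NLOC_C1]
    push_cast
    rw [Complex.ofReal_cpow (NLOC_Rpos a b ha hb).le]
    norm_num
  rw [h2] at h
  exact h

theorem NLOC_g_sq (a b : ℕ) (ha : 1 ≤ a) (hb : 1 ≤ b) :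
    ∀ᶠ x in 𝓝 (1 : ℂ), NLOC_g a b x ^ 2 = NLOC_C a b x := by
  have h : ∀ᶠ x in 𝓝 (1 : ℂ), NLOC_C a b x ≠ 0 := by
    apply (NLOC_Can a b 1 one_ne_zero).continuousAt.eventually_ne
    rw [NLOC_C1]
    exact_mod_cast (NLOC_Rpos a b ha hb).ne'
  filter_upwards [h] with x hx
  unfold NLOC_g
  rw [← Complex.cpow_nat_mul]
  norm_num

noncomputable def NLOC_W (a b : ℕ) (x : ℂ) : ℂ := (x - 1) * NLOC_g a b x

theorem NLOC_Wan (a b : ℕ) (ha : 1 ≤ a) (hb : 1 ≤ b) : AnalyticAt ℂ (NLOC_W a b) 1 := by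
  unfold NLOC_W
  exact (analyticAt_id.sub analyticAt_const).mul (NLOC_gan a b ha hb)

theorem NLOC_W1 (a b : ℕ) : NLOC_W a b 1 = 0 := by simp [NLOC_W]

theorem NLOC_Wd (a b : ℕ) (ha : 1 ≤ a) (hb : 1 ≤ b) :
    HasDerivAt (NLOC_W a b) ((NLOC_Rn a b ^ (1 / 2 : ℝ) : ℝ) : ℂ) 1 := by
  have h := ((hasDerivAt_id (1 : ℂ)).sub_const 1).mul (NLOC_gd a b ha hb)
  simp only [id, sub_self, zero_mul, add_zero, one_mul] at h
  rw [NLOC_g1 a b ha hb] at h
  exact h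

theorem NLOC_W_sq (a b : ℕ) (ha : 1 ≤ a) (hb : 1 ≤ b) :
    ∀ᶠ x in 𝓝 (1 : ℂ), Bn a b x = NLOC_W a b x ^ 2 := by
  filter_upwards [NLOC_g_sq a b ha hb, isOpen_ne.mem_nhds (one_ne_zero : (1 : ℂ) ≠ 0)] with x hx h0
  rw [NLOC_fac a b hb x h0, NLOC_W, mul_pow, hx]

/-- symmetry -/
theorem NLOC_Wconj (a b : ℕ) (ha : 1 ≤ a) (hb : 1 ≤ b) :
    ∀ᶠ x in 𝓝 (1 : ℂ), NLOC_W a b ((starRingEnd ℂ) x) = (starRingEnd ℂ) (NLOC_W a b x) := by
  have h : ∀ᶠ x in 𝓝 (1 : ℂ), NLOC_C a b x ∈ slitPlane :=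
    (NLOC_Can a b 1 one_ne_zero).continuousAt.eventually
      (isOpen_slitPlane.mem_nhds (NLOC_slit a b ha hb))
  filter_upwards [h] with x hx
  unfold NLOC_W NLOC_g
  rw [NLOC_Cconj, map_mul, map_sub, map_one]
  congr 1
  have h2 : (starRingEnd ℂ) (1 / 2 : ℂ) = 1 / 2 := by
    rw [map_div₀, map_one, map_ofNat]
  rw [Complex.conj_cpow _ _ (Complex.mem_slitPlane_iff_arg.1 hx).1, h2]

/-- the sign of `Re W` in the closed unit disc -/
theorem NLOC_sign (a b : ℕ) (ha : 1 ≤ a) (hab : a < b) :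
    ∀ᶠ x in 𝓝 (1 : ℂ), x ≠ 1 → ‖x‖ ≤ 1 → (NLOC_W a b x).re < 0 := by
  have hb : 1 ≤ b := by omega
  set σ : ℝ := NLOC_Rn a b ^ (1 / 2 : ℝ) with hσ
  have hRpos := NLOC_Rpos a b ha hb
  have hσ0 : 0 < σ := Real.rpow_pos_of_pos hRpos _
  set κ : ℝ := 1 / 2 * NLOC_Rn a b ^ (-(1 / 2) : ℝ) * NLOC_Dn a b with hκ
  have hκ0 : -(σ / 3) ≤ κ := by
    have h1 := NLOC_Dge a b ha hab
    have h2 : 0 < NLOC_Rn a b ^ (-(1 / 2) : ℝ) := Real.rpow_pos_of_pos hRpos _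
    have h3 : NLOC_Rn a b ^ (-(1 / 2) : ℝ) * NLOC_Rn a b = σ := by
      rw [hσ]
      nth_rewrite 2 [← Real.rpow_one (NLOC_Rn a b)]
      rw [← Real.rpow_add hRpos]
      norm_num
    have h5 := mul_le_mul_of_nonneg_left h1 h2.le
    rw [hκ, ← h3]
    linarith
  -- second divided difference
  set h : ℂ → ℂ := dslope (NLOC_g a b) 1 with hh
  have hhan : AnalyticAt ℂ h 1 := by
    obtain ⟨q, hq⟩ := NLOC_gan a b ha hb
    exact (hq.has_fpower_series_dslope_fslope).analyticAt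
  have hh1 : h 1 = (κ : ℂ) := by
    rw [hh, dslope_same]
    exact (NLOC_gd a b ha hb).deriv
  set kk : ℂ → ℂ := dslope h 1 with hkk
  have hkan : AnalyticAt ℂ kk 1 := by
    obtain ⟨q, hq⟩ := hhan
    exact (hq.has_fpower_series_dslope_fslope).analyticAt
  have hkb : ∀ᶠ x in 𝓝 (1 : ℂ), ‖kk x‖ < ‖kk 1‖ + 1 :=
    hkan.continuousAt.norm.eventually_lt continuousAt_const (by simp)
  set K : ℝ := ‖kk 1‖ + 1 with hK
  have hK0 : 0 < K := by positivity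
  have hnear : ∀ᶠ x in 𝓝 (1 : ℂ), ‖x - 1‖ < min (σ / (12 * |κ| + 1)) (σ / (24 * K)) := by
    have : Tendsto (fun x : ℂ => ‖x - 1‖) (𝓝 1) (𝓝 0) := by
      have h1 : ContinuousAt (fun x : ℂ => ‖x - 1‖) 1 := by fun_prop
      have := h1.tendsto
      simpa using this
    exact this.eventually_lt_const (by positivity)
  filter_upwards [hkb, hnear] with x hx1 hx2 hx0 hx3
  have e1 : NLOC_g a b x = σ + (x - 1) * h x := by
    have := sub_smul_dslope (NLOC_g a b) 1 x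
    rw [smul_eq_mul, NLOC_g1 a b ha hb] at this
    rw [hh]
    linear_combination this.symm
  have e2 : h x = κ + (x - 1) * kk x := by
    have := sub_smul_dslope h 1 x
    rw [smul_eq_mul, hh1] at this
    rw [hkk]
    linear_combination this.symm
  set s : ℂ := 1 - x with hs
  have e3 : NLOC_W a b x = -((σ : ℂ) * s - κ * s ^ 2 + kk x * s ^ 3) := by
    unfold NLOC_W
    rw [e1, e2, hs]
    ring
  have hxs : x = 1 - s := by rw [hs]; ring
  have hsn : ‖s‖ < min (σ / (12 * |κ| + 1)) (σ / (24 * K)) := by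
    rw [hs, norm_sub_rev]; exact hx2
  have hs1 : ‖s‖ < σ / (12 * |κ| + 1) := lt_of_lt_of_le hsn (min_le_left _ _)
  have hs2 : ‖s‖ < σ / (24 * K) := lt_of_lt_of_le hsn (min_le_right _ _)
  have hs0 : s ≠ 0 := by
    rw [hs]
    exact sub_ne_zero.2 (Ne.symm hx0)
  have hnn : 0 < ‖s‖ := norm_pos_iff.2 hs0
  have hsq : ‖s‖ ^ 2 = s.re ^ 2 + s.im ^ 2 := by
    rw [Complex.sq_norm, Complex.normSq_apply]; ring
  have hre : ‖s‖ ^ 2 / 2 ≤ s.re := by
    have h5 : ‖x‖ ^ 2 ≤ 1 := by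
      have : 0 ≤ ‖x‖ := norm_nonneg x
      nlinarith
    have h6 : ‖x‖ ^ 2 = (1 - s.re) ^ 2 + s.im ^ 2 := by
      rw [Complex.sq_norm, Complex.normSq_apply, hxs]
      simp
      ring
    nlinarith
  have hk3 : |(kk x * s ^ 3).re| ≤ K * ‖s‖ ^ 3 := by
    refine (Complex.abs_re_le_norm _).trans ?_
    rw [norm_mul, norm_pow]
    exact mul_le_mul_of_nonneg_right hx1.le (by positivity)
  have e4 : (NLOC_W a b x).re =
      -(σ * s.re - κ * (s.re ^ 2 - s.im ^ 2) + (kk x * s ^ 3).re) := by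
    rw [e3]
    have e5 : ((κ : ℂ) * s ^ 2).re = κ * (s.re ^ 2 - s.im ^ 2) := by
      rw [Complex.re_ofReal_mul, pow_two, Complex.mul_re]; ring
    rw [Complex.neg_re, Complex.add_re, Complex.sub_re, e5, Complex.re_ofReal_mul]
  rw [e4]
  have hre_le : s.re ≤ ‖s‖ := (le_abs_self _).trans (Complex.abs_re_le_norm s)
  have hre0 : 0 < s.re := by
    have : 0 < ‖s‖ ^ 2 / 2 := by positivity
    linarith
  have h7 : κ * s.re ^ 2 ≤ σ / 12 * s.re := by
    have h8 : ‖s‖ * (12 * |κ| + 1) < σ := by rwa [lt_div_iff₀ (by positivity)] at hs1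
    have h8b : |κ| * ‖s‖ ≤ σ / 12 := by linarith
    have h9 : |κ| * s.re ≤ σ / 12 := by
      have := mul_le_mul_of_nonneg_left hre_le (abs_nonneg κ)
      linarith
    have h10 : κ * s.re ≤ |κ| * s.re := mul_le_mul_of_nonneg_right (le_abs_self κ) hre0.le
    have h11 : κ * s.re ≤ σ / 12 := le_trans h10 h9
    calc κ * s.re ^ 2 = κ * s.re * s.re := by ring
      _ ≤ σ / 12 * s.re := mul_le_mul_of_nonneg_right h11 hre0.le
  have h8 : K * ‖s‖ ^ 3 < σ / 24 * ‖s‖ ^ 2 := by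
    have h9 : ‖s‖ * (24 * K) < σ := by rwa [lt_div_iff₀ (by positivity)] at hs2
    have h10 : K * ‖s‖ < σ / 24 := by linarith
    have h11 : 0 < ‖s‖ ^ 2 := by positivity
    calc K * ‖s‖ ^ 3 = K * ‖s‖ * ‖s‖ ^ 2 := by ring
      _ < σ / 24 * ‖s‖ ^ 2 := mul_lt_mul_of_pos_right h10 h11
  have h9 := (abs_le.mp hk3).1
  have h10 : -(σ / 3) * ‖s‖ ^ 2 ≤ κ * s.im ^ 2 := by
    have h11 : s.im ^ 2 ≤ ‖s‖ ^ 2 := by
      rw [hsq]
      exact le_add_of_nonneg_left (sq_nonneg _)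
    have h12 : 0 ≤ s.im ^ 2 := sq_nonneg _
    have h13 : -(σ / 3) * s.im ^ 2 ≤ κ * s.im ^ 2 := mul_le_mul_of_nonneg_right hκ0 h12
    have h14 : σ / 3 * s.im ^ 2 ≤ σ / 3 * ‖s‖ ^ 2 :=
      mul_le_mul_of_nonneg_left h11 (by positivity)
    linarith
  have h11 : σ * (‖s‖ ^ 2 / 2) ≤ σ * s.re := mul_le_mul_of_nonneg_left hre hσ0.le
  have h12 : 0 < σ * ‖s‖ ^ 2 := by positivity
  linarith

theorem tNLOC : StNLOC := by
  intro a b ha hab
  have hb : 1 ≤ b := by omega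
  set σ : ℝ := NLOC_Rn a b ^ (1 / 2 : ℝ) with hσ
  have hσ0 : 0 < σ := Real.rpow_pos_of_pos (NLOC_Rpos a b ha hb) _
  have hσc : (σ : ℂ) ≠ 0 := by exact_mod_cast hσ0.ne'
  have hWan := NLOC_Wan a b ha hb
  have hder : deriv (NLOC_W a b) 1 = (σ : ℂ) := (NLOC_Wd a b ha hb).deriv
  have hd : deriv (NLOC_W a b) 1 ≠ 0 := by rw [hder]; exact hσc
  set X : ℂ → ℂ := hWan.hasStrictDerivAt.localInverse _ _ _ hd with hX
  have hXan : AnalyticAt ℂ X 0 := by
    have := hWan.analyticAt_localInverse hd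
    rw [NLOC_W1] at this
    exact this
  have hX0 : X 0 = 1 := by
    have : X (NLOC_W a b 1) = 1 := HasStrictFDerivAt.localInverse_apply_image ..
    rwa [NLOC_W1] at this
  have hXW : ∀ᶠ x in 𝓝 (1 : ℂ), X (NLOC_W a b x) = x :=
    HasStrictDerivAt.eventually_left_inverse hWan.hasStrictDerivAt hd
  have hWX : ∀ᶠ w in 𝓝 (0 : ℂ), NLOC_W a b (X w) = w := by
    have := HasStrictDerivAt.eventually_right_inverse hWan.hasStrictDerivAt hd
    rw [NLOC_W1] at this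
    exact this
  have hX1 : deriv X 0 = ((σ⁻¹ : ℝ) : ℂ) := by
    have := HasStrictDerivAt.to_localInverse hWan.hasStrictDerivAt hd
    rw [NLOC_W1] at this
    have h2 : deriv X 0 = (deriv (NLOC_W a b) 1)⁻¹ := this.hasDerivAt.deriv
    rw [h2, hder, Complex.ofReal_inv]
  have hXt : Tendsto X (𝓝 0) (𝓝 1) := by
    have := hXan.continuousAt.tendsto
    rwa [hX0] at this
  have hBX : ∀ᶠ w in 𝓝 (0 : ℂ), Bn a b (X w) = w ^ 2 := by
    filter_upwards [hXt.eventually (NLOC_W_sq a b ha hb), hWX] with w h1 h2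
    rw [h1, h2]
  have hsl1 : ∀ᶠ w in 𝓝 (0 : ℂ), X w ∈ slitPlane := by
    apply hXan.continuousAt.eventually (isOpen_slitPlane.mem_nhds _)
    rw [hX0]
    exact one_mem_slitPlane
  have hsl2 : ∀ᶠ w in 𝓝 (0 : ℂ), 2 - ((X w)⁻¹) ^ (a + b) ∈ slitPlane := by
    have h1 : ContinuousAt (fun w => 2 - ((X w)⁻¹) ^ (a + b)) 0 :=
      continuousAt_const.sub ((hXan.continuousAt.inv₀ (by rw [hX0]; exact one_ne_zero)).pow (a + b))
    apply h1.eventually (isOpen_slitPlane.mem_nhds _)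
    simp only [hX0]
    norm_num
  have harg : ∀ᶠ w in 𝓝 (0 : ℂ), |arg (X w)| < Real.pi / b := by
    have h1 : ContinuousAt (fun w => |arg (X w)|) 0 := by
      apply ContinuousAt.abs
      apply ContinuousAt.comp (g := arg)
      · apply Complex.continuousAt_arg
        rw [hX0]
        norm_num
      · exact hXan.continuousAt
    have h2 : |arg (X 0)| < Real.pi / b := by
      rw [hX0]
      simp only [arg_one, abs_zero]
      have : (0 : ℝ) < b := by exact_mod_cast (by omega : 0 < b)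
      have := Real.pi_pos
      positivity
    exact h1.eventually (isOpen_Iio.mem_nhds h2)
  have hgt : ∀ᶠ w in 𝓝 (0 : ℂ), 0 ≤ w.re → w ≠ 0 → 1 < ‖X w‖ := by
    filter_upwards [hXt.eventually (NLOC_sign a b ha hab), hWX] with w h1 h2 h4 h5
    by_contra h6
    push Not at h6
    have h7 : X w ≠ 1 := by
      intro h8
      apply h5
      rw [← h2, h8, NLOC_W1]
    have := h1 h7 h6
    rw [h2] at this
    linarith
  have hge : ∀ᶠ w in 𝓝 (0 : ℂ), 0 ≤ w.re → X w ∈ Dn b := by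
    filter_upwards [hgt, harg] with w h1 h3 h4
    refine ⟨?_, h3.le⟩
    by_cases h5 : w = 0
    · rw [h5, hX0]
      simp
    · exact (h1 h4 h5).le
  have hconj : ∀ᶠ w in 𝓝 (0 : ℂ), X ((starRingEnd ℂ) w) = (starRingEnd ℂ) (X w) := by
    have hct : Tendsto (fun x : ℂ => (starRingEnd ℂ) x) (𝓝 1) (𝓝 1) := by
      have := (Complex.continuous_conj.continuousAt (x := (1 : ℂ))).tendsto
      rwa [map_one] at this
    filter_upwards [hXt.eventually (NLOC_Wconj a b ha hb), hWX,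
      hXt.eventually (hct.eventually hXW)] with w h1 h2 h3
    rw [h1, h2] at h3
    exact h3
  have him := LOC_im X σ⁻¹ (inv_pos.mpr hσ0) (by
    have := hXan.hasStrictDerivAt
    rwa [hX1] at this) hconj
  have hdx : ∀ᶠ w in 𝓝 (0 : ℂ), DifferentiableAt ℂ X w :=
    hXan.eventually_analyticAt.mono (fun w hw => hw.differentiableAt)
  obtain ⟨r, hr, hball⟩ := Metric.eventually_nhds_iff_ball.mp
    (hBX.and (hsl1.and (hsl2.and (hge.and (him.and (hdx.and hgt))))))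
  refine ⟨r, σ⁻¹, X, NLOC_W a b, ?_⟩
  exact
    { r0 := hr
      c0 := inv_pos.mpr hσ0
      dX := fun w hw => (hball w hw).2.2.2.2.2.1.differentiableWithinAt
      X0 := hX0
      X1 := hX1
      BX := fun w hw => (hball w hw).1
      sl := fun w hw => ⟨(hball w hw).2.1, (hball w hw).2.2.1⟩
      ge := fun w hw => (hball w hw).2.2.2.1
      imp := fun w hw => (hball w hw).2.2.2.2.1.1
      imn := fun w hw => (hball w hw).2.2.2.2.1.2
      gt := fun w hw => (hball w hw).2.2.2.2.2.2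
      aW := hWan
      W0 := NLOC_W1 a b
      XW := hXW
      WX := hWX }

end H719FX
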