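import Pool.Agent.H719R4.FX.Neg

/-!
# Task NVA: identities and inequalities for the model (places at infinity), first part
-/

open Complex Set Filter Topology

namespace H719FX

open H738CZ

theorem NVA_deriv (a b : ℕ) (ha : 1 ≤ a) (hab : a < b) (s : ℂ) (hs : s ≠ 0) :
    HasDerivAt (Bn a b) (Bnd a b s) s := by
  have hk0 : (a : ℂ) + b ≠ 0 := by
    have : ((a + b : ℕ) : ℂ) ≠ 0 := by exact_mod_cast (by omega : a + b ≠ 0)
    simpa using this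
  have h1 : HasDerivAt (fun y : ℂ => (y⁻¹) ^ a) ((a : ℂ) * (s⁻¹) ^ (a - 1) * (-(s ^ 2)⁻¹)) s :=
    (hasDerivAt_inv hs).fun_pow a
  have h2 : HasDerivAt (fun y : ℂ => y ^ b) ((b : ℂ) * s ^ (b - 1)) s := hasDerivAt_pow b s
  have h3 := ((h1.const_mul ((b : ℂ) / (a + b))).add (h2.const_mul ((a : ℂ) / (a + b)))).sub_const 1
  have h4 : HasDerivAt (Bn a b) (((b : ℂ) / (a + b)) * ((a : ℂ) * (s⁻¹) ^ (a - 1) * (-(s ^ 2)⁻¹))
      + ((a : ℂ) / (a + b)) * ((b : ℂ) * s ^ (b - 1))) s := h3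
  convert h4 using 1
  unfold Bnd
  have e1 : (s⁻¹) ^ (a + 1) = (s⁻¹) ^ (a - 1) * (s ^ 2)⁻¹ := by
    rw [← inv_pow, ← pow_add]
    congr 1
    omega
  have e2 : (s⁻¹) ^ (a + 1) * s ^ (a + b) = s ^ (b - 1) := by
    have : s ^ (a + b) = s ^ (a + 1) * s ^ (b - 1) := by
      rw [← pow_add]
      congr 1
      omega
    rw [this, ← mul_assoc, ← mul_pow, inv_mul_cancel₀ hs, one_pow, one_mul]
  have e3 : (a : ℂ) * b / (a + b) * (s⁻¹) ^ (a + 1) * (s ^ (a + b) - 1)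
      = (a : ℂ) * b / (a + b) * ((s⁻¹) ^ (a + 1) * s ^ (a + b) - (s⁻¹) ^ (a + 1)) := by ring
  rw [e3, e2, e1]
  ring

theorem NVA_norm (x : ℂ) (hx : ‖x‖ ≤ 1) : 1 ≤ (2 - x).re := by
  have h1 : x.re ≤ ‖x‖ := Complex.re_le_norm x
  have h2 : (2 - x).re = 2 - x.re := by simp
  rw [h2]
  linarith

theorem NVA_ge (x : ℂ) (hx : ‖x‖ ≤ 1) : 1 ≤ ‖2 - x‖ :=
  (NVA_norm x hx).trans (Complex.re_le_norm _)

theorem NVA_le (x : ℂ) (hx : ‖x‖ ≤ 1) : ‖2 - x‖ ≤ 3 := by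
  have h1 : ‖(2 : ℂ) - x‖ ≤ ‖(2 : ℂ)‖ + ‖x‖ := norm_sub_le _ _
  have h2 : ‖(2 : ℂ)‖ = 2 := by simp
  linarith

theorem NVA_strict (x : ℂ) (hx : ‖x‖ ≤ 1) (hx1 : x ≠ 1) : 1 < ‖2 - x‖ := by
  by_contra hcon
  push Not at hcon
  apply hx1
  have h1 : (2 - x).re ≤ 1 := (Complex.re_le_norm _).trans hcon
  have h2 : (2 - x).re = 2 - x.re := by simp
  rw [h2] at h1
  have h3 : x.re ≤ ‖x‖ := Complex.re_le_norm x
  have h4 : x.re = 1 := by linarith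
  have h5 : x.re ^ 2 + x.im ^ 2 ≤ 1 := by
    have h6 : ‖x‖ ^ 2 = x.re ^ 2 + x.im ^ 2 := by
      rw [Complex.sq_norm, Complex.normSq_apply]; ring
    rw [← h6]
    nlinarith [norm_nonneg x]
  have h7 : x.im = 0 := by
    rw [h4] at h5
    nlinarith [sq_nonneg x.im]
  apply Complex.ext
  · simpa using h4
  · simpa using h7

theorem NVA_inv (b n : ℕ) (s : ℂ) (hs : s ∈ Dn b) : ‖(s⁻¹) ^ n‖ ≤ 1 := by
  rw [norm_pow, norm_inv]
  exact pow_le_one₀ (inv_nonneg.2 (norm_nonneg s)) (inv_le_one_of_one_le₀ hs.1)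

theorem NVA_sp (b : ℕ) (hb : 2 ≤ b) (s : ℂ) (hs : s ∈ Dn b) : s ∈ slitPlane := by
  rw [Complex.mem_slitPlane_iff_arg]
  have hs0 : s ≠ 0 := by
    rintro rfl
    have := hs.1
    simp at this
    linarith
  refine ⟨?_, hs0⟩
  intro h
  have h1 := hs.2
  rw [h, abs_of_pos Real.pi_pos] at h1
  have hbR : (2 : ℝ) ≤ b := by exact_mod_cast hb
  rw [le_div_iff₀ (by linarith)] at h1
  nlinarith [Real.pi_pos]

theorem NVA_sl (b n : ℕ) (s : ℂ) (hs : s ∈ Dn b) : 2 - (s⁻¹) ^ n ∈ slitPlane := by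
  rw [Complex.mem_slitPlane_iff]
  left
  have := NVA_norm _ (NVA_inv b n s hs)
  linarith

theorem NVA_Mon (k : ℕ) (s : ℂ) :
    ‖Mon k s‖ = Real.exp (-(Real.log ‖2 - (s⁻¹) ^ k‖ / k)) := by
  unfold Mon
  rw [Complex.norm_exp, Complex.neg_re, Complex.div_natCast_re, Complex.log_re]

/-- `s ^ (a + b) = 1` in the sector only for `s = 1` -/
theorem NVA_one (a b : ℕ) (ha : 1 ≤ a) (hab : a < b) (s : ℂ) (hs : s ∈ Dn b)
    (h : s ^ (a + b) = 1) : s = 1 := by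
  have hn : ‖s‖ = 1 := by
    have h3 : ‖s‖ ^ (a + b) = 1 := by rw [← norm_pow, h, norm_one]
    rwa [pow_eq_one_iff_of_nonneg (norm_nonneg s) (by omega)] at h3
  have hpol : s = cexp (arg s * I) := by
    have h4 := (Complex.norm_mul_exp_arg_mul_I s).symm
    rw [hn] at h4
    simpa using h4
  have hpow : cexp (((((a + b : ℕ) : ℝ) * arg s : ℝ) : ℂ) * I) = 1 := by
    rw [← h]
    conv_rhs => rw [hpol]
    rw [← Complex.exp_nat_mul]
    push_cast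
    ring_nf
  have hcos : Real.cos (((a + b : ℕ) : ℝ) * arg s) = 1 := by
    have h5 := congrArg Complex.re hpow
    rwa [Complex.exp_ofReal_mul_I_re, Complex.one_re] at h5
  have haR : (1 : ℝ) ≤ a := by exact_mod_cast ha
  have habR : (a : ℝ) < b := by exact_mod_cast hab
  have hlt : |((a + b : ℕ) : ℝ) * arg s| < 2 * Real.pi := by
    push_cast
    rw [abs_mul, abs_of_nonneg (by linarith : (0 : ℝ) ≤ (a : ℝ) + b)]
    calc ((a : ℝ) + b) * |arg s| ≤ (a + b) * (Real.pi / b) :=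
          mul_le_mul_of_nonneg_left hs.2 (by linarith)
      _ < 2 * Real.pi := by
          rw [mul_div_assoc', div_lt_iff₀ (by linarith)]
          nlinarith [Real.pi_pos]
  have hz : ((a + b : ℕ) : ℝ) * arg s = 0 :=
    (Real.cos_eq_one_iff_of_lt_of_lt (abs_lt.1 hlt).1 (abs_lt.1 hlt).2).1 hcos
  have harg : arg s = 0 := by
    rcases mul_eq_zero.1 hz with h6 | h6
    · exfalso
      push_cast at h6
      linarith
    · exact h6
  rw [hpol, harg]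
  simp

theorem NVA_gt (a b : ℕ) (ha : 1 ≤ a) (hab : a < b) (s : ℂ) (hs : s ∈ Dn b) (h : s ≠ 1) :
    s ^ (a + b) ≠ 1 ∧ ‖Mon (a + b) s‖ < 1 := by
  have h1 : s ^ (a + b) ≠ 1 := fun h2 => h (NVA_one a b ha hab s hs h2)
  refine ⟨h1, ?_⟩
  rw [NVA_Mon, Real.exp_lt_one_iff]
  have h2 : (s⁻¹) ^ (a + b) ≠ 1 := by
    rw [inv_pow]
    intro h3
    exact h1 (inv_eq_one.1 h3)
  have h3 := NVA_strict _ (NVA_inv b (a + b) s hs) h2
  have hk : (0 : ℝ) < ((a + b : ℕ) : ℝ) := by exact_mod_cast (by omega : 0 < a + b)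
  have h4 := div_pos (Real.log_pos h3) hk
  linarith

theorem NVA_mo (a b : ℕ) (ha : 1 ≤ a) (s : ℂ) (hs : s ∈ Dn b) : ‖Mon (a + b) s‖ ≤ 1 := by
  rw [NVA_Mon, Real.exp_le_one_iff]
  have h3 := NVA_ge _ (NVA_inv b (a + b) s hs)
  have hk : (0 : ℝ) < ((a + b : ℕ) : ℝ) := by exact_mod_cast (by omega : 0 < a + b)
  have h4 := div_nonneg (Real.log_nonneg h3) hk.le
  linarith

theorem NVA_ml (a b : ℕ) (ha : 1 ≤ a) (s : ℂ) (hs : s ∈ Dn b) : 1 / 3 ≤ ‖Mon (a + b) s‖ := by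
  rw [NVA_Mon]
  have h3 := NVA_ge _ (NVA_inv b (a + b) s hs)
  have h5 := NVA_le _ (NVA_inv b (a + b) s hs)
  have hk : (1 : ℝ) ≤ ((a + b : ℕ) : ℝ) := by exact_mod_cast (by omega : 1 ≤ a + b)
  have h6 : Real.log ‖2 - (s⁻¹) ^ (a + b)‖ / ((a + b : ℕ) : ℝ) ≤ Real.log 3 := by
    have h7 : Real.log ‖2 - (s⁻¹) ^ (a + b)‖ / ((a + b : ℕ) : ℝ)
        ≤ Real.log ‖2 - (s⁻¹) ^ (a + b)‖ := div_le_self (Real.log_nonneg h3) hk
    exact h7.trans (Real.log_le_log (by linarith) h5)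
  calc (1 : ℝ) / 3 = Real.exp (-Real.log 3) := by
        rw [Real.exp_neg, Real.exp_log (by norm_num), one_div]
    _ ≤ _ := Real.exp_le_exp.2 (by linarith)

theorem NVA_cj (a b : ℕ) (s : ℂ) :
    Bn a b ((starRingEnd ℂ) s) = (starRingEnd ℂ) (Bn a b s) := by
  unfold Bn
  simp only [map_add, map_sub, map_one, map_mul, map_div₀, map_pow, map_natCast, map_inv₀]

theorem tNVA : StNVA := by
  intro a b ha hab
  exact ⟨NVA_deriv a b ha hab, NVA_sp b (by omega), fun s hs => NVA_sl b (a + b) s hs,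
    NVA_gt a b ha hab, NVA_mo a b ha, NVA_ml a b ha, NVA_cj a b⟩

end H719FX
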