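import Pool.Agent.H719R4.FX.Neg

/-!
# NVB: identities for the model, second part (`p = -a`, `k = a + b`)
-/

open Complex Set Filter Topology

namespace H719FX

open H738CZ

theorem NVB_pow (k : ℕ) (hk : 1 ≤ k) (s : ℂ) (hs : 2 - (s⁻¹) ^ k ∈ slitPlane) :
    Mon k s ^ k * (2 - (s⁻¹) ^ k) = 1 := by
  have hk0 : (k : ℂ) ≠ 0 := by exact_mod_cast (by omega : k ≠ 0)
  have hne : 2 - (s⁻¹) ^ k ≠ 0 := slitPlane_ne_zero hs
  have h1 : Mon k s ^ k = cexp (-log (2 - (s⁻¹) ^ k)) := by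
    unfold Mon
    rw [← Complex.exp_nat_mul]
    congr 1
    field_simp
  rw [h1, Complex.exp_neg, Complex.exp_log hne, inv_mul_cancel₀ hne]

theorem NVB_mo (k : ℕ) (hk : 1 ≤ k) (s : ℂ) (hs0 : s ≠ 0) (hs : 2 - (s⁻¹) ^ k ∈ slitPlane) :
    HasDerivAt (Mon k) (-(Mon k s * s⁻¹) ^ (k + 1)) s := by
  have hk0 : (k : ℂ) ≠ 0 := by exact_mod_cast (by omega : k ≠ 0)
  have hne : 2 - (s⁻¹) ^ k ≠ 0 := slitPlane_ne_zero hs
  have h0 : HasDerivAt (fun y : ℂ => y⁻¹) (-(s ^ 2)⁻¹) s := hasDerivAt_inv hs0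
  have h1 : HasDerivAt (fun y : ℂ => 2 - (y⁻¹) ^ k)
      (-(k * (s⁻¹) ^ (k - 1) * (-(s ^ 2)⁻¹))) s := (h0.fun_pow k).const_sub 2
  have h2 : HasDerivAt (fun y : ℂ => log (2 - (y⁻¹) ^ k))
      (-(k * (s⁻¹) ^ (k - 1) * (-(s ^ 2)⁻¹)) / (2 - (s⁻¹) ^ k)) s := h1.clog hs
  have h3 : HasDerivAt (Mon k) (cexp (-(log (2 - (s⁻¹) ^ k) / k)) *
      -(-(k * (s⁻¹) ^ (k - 1) * (-(s ^ 2)⁻¹)) / (2 - (s⁻¹) ^ k) / k)) s :=
    ((h2.div_const (k : ℂ)).neg).cexp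
  refine h3.congr_deriv ?_
  have h4 : cexp (-(log (2 - (s⁻¹) ^ k) / k)) = Mon k s := rfl
  rw [h4]
  have h5 := NVB_pow k hk s hs
  have h6 : (s⁻¹) ^ (k - 1) * s⁻¹ = (s⁻¹) ^ k := by
    rw [← pow_succ]
    congr 1
    omega
  have h7 : (s ^ 2)⁻¹ = s⁻¹ * s⁻¹ := by rw [sq, mul_inv]
  have h8 : -(-(k * (s⁻¹) ^ (k - 1) * (-(s ^ 2)⁻¹)) / (2 - (s⁻¹) ^ k) / k) =
      -((s⁻¹) ^ k * s⁻¹ * (2 - (s⁻¹) ^ k)⁻¹) := by
    rw [h7, ← h6]
    field_simp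
  have h9 : (2 - (s⁻¹) ^ k)⁻¹ = Mon k s ^ k := (eq_inv_of_mul_eq_one_left h5).symm
  rw [h8, h9]
  ring

theorem NVB_dM (hNVA : StNVA) (a b : ℕ) (ha : 1 ≤ a) (hab : a < b) (s : ℂ) (hs0 : s ≠ 0)
    (hs : 2 - (s⁻¹) ^ (a + b) ∈ slitPlane) :
    HasDerivAt (fun y => Bn a b (Mon (a + b) y))
      (Bnd a b s * (Mon (a + b) s / s) ^ (a + 2 * b)) s := by
  have hM0 : Mon (a + b) s ≠ 0 := Complex.exp_ne_zero _
  have h1 := ((hNVA a b ha hab).dB (Mon (a + b) s) hM0).comp s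
    (NVB_mo (a + b) (by omega) s hs0 hs)
  refine h1.congr_deriv ?_
  have hp := NVB_pow (a + b) (by omega) s hs
  obtain ⟨M, hM⟩ : ∃ M : ℂ, M = Mon (a + b) s := ⟨_, rfl⟩
  obtain ⟨v, hv⟩ : ∃ v : ℂ, v = s⁻¹ := ⟨_, rfl⟩
  rw [← hM, ← hv] at hp
  rw [← hM] at hM0
  unfold Bnd
  rw [div_eq_mul_inv (Mon (a + b) s) s, ← hM, ← hv]
  have hsv : s * v = 1 := by rw [hv]; exact mul_inv_cancel₀ hs0
  have hsvk : s ^ (a + b) * v ^ (a + b) = 1 := by rw [← mul_pow, hsv, one_pow]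
  have h2 : M ^ (a + b) - 1 = (v ^ (a + b) - 1) * M ^ (a + b) := by linear_combination hp
  have h3 : (M⁻¹) ^ (a + 1) * M ^ (a + 1) = 1 := by
    rw [← mul_pow, inv_mul_cancel₀ hM0, one_pow]
  rw [h2]
  have e1 : M ^ (a + b) * (M * v) ^ (a + b + 1) =
      M ^ (a + 1) * (M ^ (a + 2 * b) * v ^ (a + b + 1)) := by
    rw [mul_pow]
    ring
  have e2 : (s ^ (a + b) - 1) * (v ^ (a + 1) * (M * v) ^ (a + 2 * b)) =
      (1 - v ^ (a + b)) * (M ^ (a + 2 * b) * v ^ (a + b + 1)) := by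
    have e3 : v ^ (a + 1) * (M * v) ^ (a + 2 * b) =
        v ^ (a + b) * (M ^ (a + 2 * b) * v ^ (a + b + 1)) := by
      rw [mul_pow]
      ring
    rw [e3]
    linear_combination (M ^ (a + 2 * b) * v ^ (a + b + 1)) * hsvk
  calc (a : ℂ) * b / (a + b) * (M⁻¹) ^ (a + 1) * ((v ^ (a + b) - 1) * M ^ (a + b)) *
        -(M * v) ^ (a + b + 1)
      = (a : ℂ) * b / (a + b) * (M⁻¹) ^ (a + 1) * (1 - v ^ (a + b)) *
          (M ^ (a + b) * (M * v) ^ (a + b + 1)) := by ring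
    _ = (a : ℂ) * b / (a + b) * ((M⁻¹) ^ (a + 1) * M ^ (a + 1)) *
          ((1 - v ^ (a + b)) * (M ^ (a + 2 * b) * v ^ (a + b + 1))) := by rw [e1]; ring
    _ = (a : ℂ) * b / (a + b) *
          ((s ^ (a + b) - 1) * (v ^ (a + 1) * (M * v) ^ (a + 2 * b))) := by rw [h3, e2]; ring
    _ = (a : ℂ) * b / (a + b) * v ^ (a + 1) * (s ^ (a + b) - 1) * (M * v) ^ (a + 2 * b) := by
      ring

theorem tNVB (hNVA : StNVA) : StNVB := by
  intro a b ha hab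
  have ha0 : (a : ℂ) ≠ 0 := by exact_mod_cast (by omega : a ≠ 0)
  have hb0 : (b : ℂ) ≠ 0 := by exact_mod_cast (by omega : b ≠ 0)
  have hab0 : (a : ℂ) + b ≠ 0 := by exact_mod_cast (by omega : a + b ≠ 0)
  have hnz : ∀ s ∈ Dn b, ∑ i ∈ Finset.range (a + b), (s⁻¹) ^ i ≠ 0 := by
    intro s hs h0
    by_cases h1 : s = 1
    · rw [h1] at h0
      simp at h0
      exact hab0 h0
    · have h2 := ((hNVA a b ha hab).gt s hs h1).1
      apply h2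
      have h3 := mul_neg_geom_sum (s⁻¹) (a + b)
      rw [h0, mul_zero] at h3
      have h4 : (s⁻¹) ^ (a + b) = 1 := by linear_combination h3
      rw [inv_pow, inv_eq_one] at h4
      exact h4
  refine ⟨fun s hs0 hs => NVB_dM hNVA a b ha hab s hs0 hs, hnz, ?_⟩
  intro s hs
  have hs0 : s ≠ 0 := by
    intro h
    have := hs.1
    rw [h, norm_zero] at this
    linarith
  have hS := hnz s hs
  obtain ⟨v, hv⟩ : ∃ v : ℂ, v = s⁻¹ := ⟨_, rfl⟩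
  have hsv : s * v = 1 := by rw [hv]; exact mul_inv_cancel₀ hs0
  rw [← hv] at hS
  have hsvk : s ^ (a + b) * v ^ (a + b) = 1 := by rw [← mul_pow, hsv, one_pow]
  have hsva : s ^ a * v ^ a = 1 := by rw [← mul_pow, hsv, one_pow]
  have g1 := mul_neg_geom_sum v (a + b)
  have g2 := mul_neg_geom_sum v a
  unfold vfn hfn Bnd Bn
  rw [← hv]
  generalize (∑ i ∈ Finset.range (a + b), v ^ i) = S at *
  generalize (∑ i ∈ Finset.range a, v ^ i) = T at *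
  have h5 : s * v ^ (a + 1) = v ^ a := by
    rw [pow_succ]
    linear_combination v ^ a * hsv
  have h6 : s * (1 / (b : ℂ) - ((a : ℂ) + b) / (a * b) * v ^ b * T / S) *
      ((a : ℂ) * b / (a + b) * v ^ (a + 1) * (s ^ (a + b) - 1)) =
      (a : ℂ) / (a + b) * (v ^ a * (s ^ (a + b) - 1)) -
        ((s ^ (a + b) - 1) * v ^ (a + b)) * T / S := by
    have e1 : s * (1 / (b : ℂ) - ((a : ℂ) + b) / (a * b) * v ^ b * T / S) *
      ((a : ℂ) * b / (a + b) * v ^ (a + 1) * (s ^ (a + b) - 1)) =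
        (1 / (b : ℂ) - ((a : ℂ) + b) / (a * b) * v ^ b * T / S) *
      ((a : ℂ) * b / (a + b) * (s * v ^ (a + 1)) * (s ^ (a + b) - 1)) := by ring
    rw [e1, h5, pow_add v a b]
    field_simp
  have h7 : ((s ^ (a + b) - 1) * v ^ (a + b)) * T / S = 1 - v ^ a := by
    have h8 : (s ^ (a + b) - 1) * v ^ (a + b) = (1 - v) * S := by
      rw [g1]
      linear_combination hsvk
    rw [h8, div_eq_iff hS]
    linear_combination S * g2
  have h9 : v ^ a * (s ^ (a + b) - 1) = s ^ b - v ^ a := by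
    rw [pow_add]
    linear_combination s ^ b * hsva
  rw [h6, h7, h9]
  field_simp
  ring

end H719FX
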