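import Pool.Agent.H719R4.FX.Defs

/-! Task VC: inequalities for the model, third part. -/

set_option autoImplicit false

open Complex Set Filter Topology

namespace H719FX

open H738CZ

theorem VC_sin {N α : ℝ} (hN : 1 ≤ N) (h0 : 0 ≤ α) (hπ : N * α ≤ Real.pi) :
    Real.sin (N * α) ≤ N * Real.sin α := by
  have hc := strictConcaveOn_sin_Icc.concaveOn
  have hN0 : 0 < N := by linarith
  have h1 : N * α ∈ Icc (0 : ℝ) Real.pi := ⟨by positivity, hπ⟩
  have h2 : (0 : ℝ) ∈ Icc (0 : ℝ) Real.pi := ⟨le_rfl, Real.pi_pos.le⟩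
  have hi : N⁻¹ ≤ 1 := inv_le_one_of_one_le₀ hN
  have h3 := hc.2 h1 h2 (by positivity : (0:ℝ) ≤ N⁻¹) (by linarith : (0:ℝ) ≤ 1 - N⁻¹) (by ring)
  simp only [smul_eq_mul, Real.sin_zero, mul_zero, add_zero] at h3
  rw [← mul_assoc, inv_mul_cancel₀ hN0.ne', one_mul] at h3
  have h4 := mul_le_mul_of_nonneg_left h3 hN0.le
  rwa [← mul_assoc, mul_inv_cancel₀ hN0.ne', one_mul] at h4

/-- the trigonometric inequality for positive angles -/
theorem VC_trig {p k : ℕ} (hp : 1 ≤ p) (hk : 1 ≤ k) {θ : ℝ} (h0 : 0 < θ)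
    (hθ : θ ≤ Real.pi / (p + k)) :
    Real.cos ((p + k) * θ / 2) * (Real.sin (p * θ / 2) / Real.sin (k * θ / 2)) ≤ p / k := by
  have hp' : (1 : ℝ) ≤ p := by exact_mod_cast hp
  have hk' : (1 : ℝ) ≤ k := by exact_mod_cast hk
  have hπ := Real.pi_pos
  have hb : ((p : ℝ) + k) * θ ≤ Real.pi := by
    rw [le_div_iff₀ (by positivity)] at hθ
    linarith
  have hs : 0 < Real.sin (k * θ / 2) := by
    apply Real.sin_pos_of_pos_of_lt_pi (by positivity)
    nlinarith
  rw [← mul_div_assoc, div_le_div_iff₀ hs (by positivity)]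
  have h1 := VC_sin (N := (2 * p + k) / k) (α := k * θ / 2)
    (by rw [le_div_iff₀ (by positivity)]; linarith) (by positivity)
    (by
      have : (2 * (p : ℝ) + k) / k * (k * θ / 2) = (2 * p + k) * θ / 2 := by field_simp
      rw [this]
      nlinarith)
  have e1 : (2 * (p : ℝ) + k) / k * (k * θ / 2) = (p + k) * θ / 2 + p * θ / 2 := by
    field_simp
    ring
  rw [e1] at h1
  have e2 : Real.sin ((p + k) * θ / 2 + p * θ / 2) =
      Real.sin (k * θ / 2) + 2 * (Real.cos ((p + k) * θ / 2) * Real.sin (p * θ / 2)) := by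
    have e3 : (k : ℝ) * θ / 2 = (p + k) * θ / 2 - p * θ / 2 := by ring
    rw [e3, Real.sin_add, Real.sin_sub]
    ring
  rw [e2] at h1
  have h2 : (2 * (p : ℝ) + k) / k * Real.sin (k * θ / 2) =
      Real.sin (k * θ / 2) + 2 * (p / k * Real.sin (k * θ / 2)) := by
    field_simp
    ring
  rw [h2] at h1
  have h3 : Real.cos ((p + k) * θ / 2) * Real.sin (p * θ / 2) ≤ p / k * Real.sin (k * θ / 2) := by
    linarith
  have h4 := mul_le_mul_of_nonneg_right h3 (by positivity : (0 : ℝ) ≤ k)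
  have h5 : (p : ℝ) / k * Real.sin (k * θ / 2) * k = p * Real.sin (k * θ / 2) := by
    field_simp
  rw [h5] at h4
  exact h4

theorem VC_trig' {p k : ℕ} (hp : 1 ≤ p) (hk : 1 ≤ k) {θ : ℝ} (h0 : θ ≠ 0)
    (hθ : |θ| ≤ Real.pi / (p + k)) :
    Real.cos ((p + k) * θ / 2) * (Real.sin (p * θ / 2) / Real.sin (k * θ / 2)) ≤ p / k := by
  rcases lt_or_gt_of_ne h0 with h | h
  · rw [abs_of_neg h] at hθ
    have h1 := VC_trig hp hk (neg_pos.2 h) hθ
    have e1 : ((p : ℝ) + k) * (-θ) / 2 = -((p + k) * θ / 2) := by ring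
    have e2 : (p : ℝ) * (-θ) / 2 = -(p * θ / 2) := by ring
    have e3 : (k : ℝ) * (-θ) / 2 = -(k * θ / 2) := by ring
    rw [e1, e2, e3, Real.cos_neg, Real.sin_neg, Real.sin_neg, neg_div_neg_eq] at h1
    exact h1
  · rw [abs_of_pos h] at hθ
    exact VC_trig hp hk h hθ

theorem VC_ar {p k : ℕ} (hp : 1 ≤ p) (hk : 1 ≤ k) {s : ℂ} (hs : s ∈ Dm p k) (h1 : ‖s‖ = 1) :
    0 ≤ (hf p k s⁻¹).re := by
  obtain ⟨-, harg⟩ := hs
  have hp' : (1 : ℝ) ≤ p := by exact_mod_cast hp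
  have hk' : (1 : ℝ) ≤ k := by exact_mod_cast hk
  have hpc : (p : ℂ) ≠ 0 := by exact_mod_cast (by omega : p ≠ 0)
  have hkc : (k : ℂ) ≠ 0 := by exact_mod_cast (by omega : k ≠ 0)
  have hpkc : (p : ℂ) + k ≠ 0 := by exact_mod_cast (by omega : p + k ≠ 0)
  set θ := arg s with hθ
  have hsE : s = cexp (θ * I) := by
    have := norm_mul_exp_arg_mul_I s
    rw [h1, ofReal_one, one_mul] at this
    exact this.symm
  have hπ := Real.pi_pos
  by_cases h0 : θ = 0
  · have hs1 : s = 1 := by rw [hsE, h0]; simp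
    rw [hs1, inv_one]
    unfold hf
    have e : 1 / ((p : ℂ) + k) - (k : ℂ) / (p * (p + k)) * 1 ^ k *
        (∑ i ∈ Finset.range p, (1 : ℂ) ^ i) / ∑ i ∈ Finset.range k, (1 : ℂ) ^ i = 0 := by
      simp only [one_pow, Finset.sum_const, Finset.card_range, nsmul_eq_mul, mul_one]
      field_simp
      ring
    rw [e, zero_re]
  · have hbk : |(k : ℝ) * θ / 2| < Real.pi / 2 := by
      rw [abs_div, abs_mul, abs_of_pos (by linarith : (0 : ℝ) < k), abs_of_pos (by norm_num : (0 : ℝ) < 2)]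
      rw [le_div_iff₀ (by positivity)] at harg
      have : 0 < |θ| := abs_pos.2 h0
      nlinarith
    have hsk : Real.sin (k * θ / 2) ≠ 0 := by
      have hne : (k : ℝ) * θ / 2 ≠ 0 := by positivity
      intro hsin
      have hb := abs_lt.1 hbk
      rw [Real.sin_eq_zero_iff_of_lt_of_lt (by linarith) (by linarith)] at hsin
      exact hne hsin
    set a : ℂ := cexp (-((p : ℂ) * θ / 2 * I)) with ha
    set b : ℂ := cexp (-((k : ℂ) * θ / 2 * I)) with hb
    have ha0 : a ≠ 0 := exp_ne_zero _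
    have hb0 : b ≠ 0 := exp_ne_zero _
    have hvp : (s⁻¹) ^ p = a ^ 2 := by
      rw [hsE, ← exp_neg, ← exp_nat_mul, ha, ← exp_nat_mul]
      congr 1
      push_cast
      ring
    have hvk : (s⁻¹) ^ k = b ^ 2 := by
      rw [hsE, ← exp_neg, ← exp_nat_mul, hb, ← exp_nat_mul]
      congr 1
      push_cast
      ring
    have hsp' : ((Real.sin (p * θ / 2) : ℝ) : ℂ) = (a - a⁻¹) * I / 2 := by
      rw [ofReal_sin, Complex.sin, ha, ← exp_neg, neg_neg]
      push_cast
      ring_nf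
    have hsk' : ((Real.sin (k * θ / 2) : ℝ) : ℂ) = (b - b⁻¹) * I / 2 := by
      rw [ofReal_sin, Complex.sin, hb, ← exp_neg, neg_neg]
      push_cast
      ring_nf
    have hbb : b - b⁻¹ ≠ 0 := by
      intro h
      rw [h, zero_mul, zero_div] at hsk'
      exact hsk (by exact_mod_cast hsk')
    have hb2 : b ^ 2 - 1 ≠ 0 := by
      intro h
      apply hbb
      have h1 : b ^ 2 = 1 := sub_eq_zero.1 h
      have h' : b⁻¹ = b := inv_eq_of_mul_eq_one_left (by rw [← sq]; exact h1)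
      rw [h', sub_self]
    have hv1 : s⁻¹ ≠ 1 := by
      intro h
      rw [h, one_pow] at hvk
      exact hb2 (by rw [← hvk, sub_self])
    have hv1' : s⁻¹ - 1 ≠ 0 := sub_ne_zero.2 hv1
    have key : hf p k s⁻¹ = 1 / ((p : ℂ) + k) - (k : ℂ) / (p * (p + k)) *
        (a * b * (((Real.sin (p * θ / 2) / Real.sin (k * θ / 2) : ℝ)) : ℂ)) := by
      unfold hf
      rw [geom_sum_eq hv1, geom_sum_eq hv1, hvp, hvk, ofReal_div, hsp', hsk']
      congr 1
      have e1 : (a ^ 2 - 1) = a * (a - a⁻¹) := by field_simp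
      have e2 : (b ^ 2 - 1) = b * (b - b⁻¹) := by field_simp
      rw [e1, e2]
      have hI : (I : ℂ) ≠ 0 := I_ne_zero
      generalize s⁻¹ - 1 = V at *
      generalize a - a⁻¹ = X at *
      generalize b - b⁻¹ = Y at *
      field_simp
    have hab : (a * b).re = Real.cos ((p + k) * θ / 2) := by
      have e : a * b = cexp (((-((p + k) * θ / 2) : ℝ) : ℂ) * I) := by
        rw [ha, hb, ← exp_add]
        congr 1
        push_cast
        ring
      rw [e, exp_ofReal_mul_I_re, Real.cos_neg]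
    have hre : (hf p k s⁻¹).re = 1 / ((p : ℝ) + k) - (k : ℝ) / (p * (p + k)) *
        (Real.cos ((p + k) * θ / 2) * (Real.sin (p * θ / 2) / Real.sin (k * θ / 2))) := by
      rw [key, sub_re]
      have e1 : (1 / ((p : ℂ) + k)).re = 1 / ((p : ℝ) + k) := by
        have : (1 / ((p : ℂ) + k)) = ((1 / ((p : ℝ) + k) : ℝ) : ℂ) := by push_cast; rfl
        rw [this, ofReal_re]
      have e2 : (k : ℂ) / (p * (p + k)) = ((k / (p * (p + k)) : ℝ) : ℂ) := by push_cast; rfl
      rw [e1, e2, re_ofReal_mul, re_mul_ofReal, hab]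
    rw [hre]
    have ht := VC_trig' hp hk h0 harg
    have hc : (0 : ℝ) ≤ k / (p * (p + k)) := by positivity
    have h5 := mul_le_mul_of_nonneg_left ht hc
    have h6 : (k : ℝ) / (p * (p + k)) * (p / k) = 1 / ((p : ℝ) + k) := by
      field_simp
    rw [h6] at h5
    linarith

theorem VC_re (p k : ℕ) (v : ℝ) : (hf p k v).im = 0 := by
  have e : hf p k (v : ℂ) = ((1 / ((p : ℝ) + k) - (k : ℝ) / (p * (p + k)) * v ^ k *
    (∑ i ∈ Finset.range p, v ^ i) / ∑ i ∈ Finset.range k, v ^ i : ℝ) : ℂ) := by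
    unfold hf
    push_cast
    rfl
  rw [e, ofReal_im]

theorem VC_up {p k : ℕ} (hp : 1 ≤ p) (hk : 1 ≤ k) {s : ℂ} (hs : s ∈ Dm p k)
    (ha : arg s = Real.pi / (p + k)) : (Bm p k s).im < 0 := by
  obtain ⟨h1, -⟩ := hs
  have hp' : (1 : ℝ) ≤ p := by exact_mod_cast hp
  have hk' : (1 : ℝ) ≤ k := by exact_mod_cast hk
  have hπ := Real.pi_pos
  have hpow : ∀ n : ℕ, s ^ n = ((‖s‖ ^ n : ℝ) : ℂ) * cexp (((n * (Real.pi / (p + k)) : ℝ) : ℂ) * I) := by
    intro n
    conv_lhs => rw [← norm_mul_exp_arg_mul_I s, mul_pow, ← exp_nat_mul, ha]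
    push_cast
    ring_nf
  have him : ∀ n : ℕ, (s ^ n).im = ‖s‖ ^ n * Real.sin (n * (Real.pi / (p + k))) := by
    intro n
    rw [hpow n, im_ofReal_mul, exp_ofReal_mul_I_im]
  have e : Bm p k s = 1 - ((((p : ℝ) + k) / k : ℝ) : ℂ) * s ^ p + (((p : ℝ) / k : ℝ) : ℂ) * s ^ (p + k) := by
    unfold Bm
    push_cast
    rfl
  rw [e, add_im, sub_im, im_ofReal_mul, im_ofReal_mul, him, him, one_im]
  have e1 : ((p + k : ℕ) : ℝ) * (Real.pi / (p + k)) = Real.pi := by
    push_cast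
    field_simp
  rw [e1, Real.sin_pi]
  have h2 : 0 < Real.sin (p * (Real.pi / (p + k))) := by
    apply Real.sin_pos_of_pos_of_lt_pi (by positivity)
    rw [← mul_div_assoc, div_lt_iff₀ (by positivity)]
    nlinarith
  have h3 : 0 < ‖s‖ ^ p := by positivity
  have h4 : 0 < ((p : ℝ) + k) / k := by positivity
  have h5 : 0 < ((p : ℝ) + k) / k * (‖s‖ ^ p * Real.sin (p * (Real.pi / (p + k)))) := by positivity
  linarith

theorem tVC : StVC := fun _ _ hp hk =>
  ⟨fun _ hs h1 => VC_ar hp hk hs h1, VC_re _ _, fun _ hs ha => VC_up hp hk hs ha⟩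

end H719FX
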