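import Pool.Agent.H719R4.FX.Neg
import Pool.Agent.H719R4.FX.VC

/-! Task NVC: inequalities for the model at infinity, third part. -/

set_option autoImplicit false

open Complex Set Filter Topology

namespace H719FX

open H738CZ

/-- the trigonometric inequality for positive angles -/
theorem NVC_trig {a b : ℕ} (ha : 1 ≤ a) (hab : a < b) {θ : ℝ} (h0 : 0 < θ)
    (hθ : θ ≤ Real.pi / b) :
    Real.cos (b * θ / 2) * (Real.sin (a * θ / 2) / Real.sin ((a + b) * θ / 2)) ≤ a / (a + b) := by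
  have ha' : (1 : ℝ) ≤ a := by exact_mod_cast ha
  have hab' : (a : ℝ) < b := by exact_mod_cast hab
  have hd : 0 < (b : ℝ) - a := by linarith
  have hπ := Real.pi_pos
  have hb0 : (0 : ℝ) < b := by linarith
  have hb : (b : ℝ) * θ ≤ Real.pi := by
    rw [le_div_iff₀ hb0] at hθ
    linarith
  have hkb : ((a : ℝ) + b) * θ < 2 * Real.pi := by nlinarith
  have hs : 0 < Real.sin ((a + b) * θ / 2) := by
    apply Real.sin_pos_of_pos_of_lt_pi (by positivity)
    linarith
  have h1 := VC_sin (N := (a + b) / (b - a)) (α := (b - a) * θ / 2)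
    (by rw [le_div_iff₀ hd]; linarith) (by positivity)
    (by
      have : ((a : ℝ) + b) / (b - a) * ((b - a) * θ / 2) = (a + b) * θ / 2 := by
        field_simp
      rw [this]
      linarith)
  have e1 : ((a : ℝ) + b) / (b - a) * ((b - a) * θ / 2) = (a + b) * θ / 2 := by
    field_simp
  rw [e1] at h1
  have h2 : (b - a) * Real.sin ((a + b) * θ / 2) ≤ (a + b) * Real.sin ((b - a) * θ / 2) := by
    have h3 := mul_le_mul_of_nonneg_left h1 hd.le
    have h4 : ((b : ℝ) - a) * ((a + b) / (b - a) * Real.sin ((b - a) * θ / 2)) =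
        (a + b) * Real.sin ((b - a) * θ / 2) := by
      field_simp
    rwa [h4] at h3
  have e2 : Real.sin ((b - a) * θ / 2) = Real.sin (b * θ / 2) * Real.cos (a * θ / 2) -
      Real.cos (b * θ / 2) * Real.sin (a * θ / 2) := by
    rw [← Real.sin_sub]
    congr 1
    ring
  have e3 : Real.sin ((a + b) * θ / 2) = Real.sin (a * θ / 2) * Real.cos (b * θ / 2) +
      Real.cos (a * θ / 2) * Real.sin (b * θ / 2) := by
    rw [← Real.sin_add]
    congr 1
    ring
  rw [← mul_div_assoc, div_le_div_iff₀ hs (by positivity)]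
  rw [e2] at h2
  rw [e3] at h2 ⊢
  nlinarith

theorem NVC_trig' {a b : ℕ} (ha : 1 ≤ a) (hab : a < b) {θ : ℝ} (h0 : θ ≠ 0)
    (hθ : |θ| ≤ Real.pi / b) :
    Real.cos (b * θ / 2) * (Real.sin (a * θ / 2) / Real.sin ((a + b) * θ / 2)) ≤ a / (a + b) := by
  rcases lt_or_gt_of_ne h0 with h | h
  · rw [abs_of_neg h] at hθ
    have h1 := NVC_trig ha hab (neg_pos.2 h) hθ
    have e1 : ((a : ℝ) + b) * (-θ) / 2 = -((a + b) * θ / 2) := by ring
    have e2 : (a : ℝ) * (-θ) / 2 = -(a * θ / 2) := by ring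
    have e3 : (b : ℝ) * (-θ) / 2 = -(b * θ / 2) := by ring
    rw [e1, e2, e3, Real.cos_neg, Real.sin_neg, Real.sin_neg, neg_div_neg_eq] at h1
    exact h1
  · rw [abs_of_pos h] at hθ
    exact NVC_trig ha hab h hθ

theorem NVC_ar {a b : ℕ} (ha : 1 ≤ a) (hab : a < b) {s : ℂ} (hs : s ∈ Dn b) (h1 : ‖s‖ = 1) :
    0 ≤ (hfn a b s⁻¹).re := by
  obtain ⟨-, harg⟩ := hs
  have ha' : (1 : ℝ) ≤ a := by exact_mod_cast ha
  have hab' : (a : ℝ) < b := by exact_mod_cast hab
  have hb0 : (0 : ℝ) < b := by linarith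
  have hac : (a : ℂ) ≠ 0 := by exact_mod_cast (by omega : a ≠ 0)
  have hbc : (b : ℂ) ≠ 0 := by exact_mod_cast (by omega : b ≠ 0)
  have habc : (a : ℂ) + b ≠ 0 := by exact_mod_cast (by omega : a + b ≠ 0)
  set θ := arg s with hθ
  have hsE : s = cexp (θ * I) := by
    have := norm_mul_exp_arg_mul_I s
    rw [h1, ofReal_one, one_mul] at this
    exact this.symm
  have hπ := Real.pi_pos
  by_cases h0 : θ = 0
  · have hs1 : s = 1 := by rw [hsE, h0]; simp
    rw [hs1, inv_one]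
    unfold hfn
    have e : 1 / (b : ℂ) - ((a : ℂ) + b) / (a * b) * 1 ^ b *
        (∑ i ∈ Finset.range a, (1 : ℂ) ^ i) / ∑ i ∈ Finset.range (a + b), (1 : ℂ) ^ i = 0 := by
      simp only [one_pow, Finset.sum_const, Finset.card_range, nsmul_eq_mul, mul_one]
      push_cast
      field_simp
      ring
    rw [e, zero_re]
  · have hbk : |((a : ℝ) + b) * θ / 2| < Real.pi := by
      rw [abs_div, abs_mul, abs_of_pos (by linarith : (0 : ℝ) < a + b),
        abs_of_pos (by norm_num : (0 : ℝ) < 2)]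
      rw [le_div_iff₀ hb0] at harg
      have : 0 < |θ| := abs_pos.2 h0
      nlinarith
    have hsk : Real.sin ((a + b) * θ / 2) ≠ 0 := by
      have hne : ((a : ℝ) + b) * θ / 2 ≠ 0 := by positivity
      intro hsin
      have hb := abs_lt.1 hbk
      rw [Real.sin_eq_zero_iff_of_lt_of_lt (by linarith) (by linarith)] at hsin
      exact hne hsin
    set α : ℂ := cexp (-((a : ℂ) * θ / 2 * I)) with hα
    set β : ℂ := cexp (-((b : ℂ) * θ / 2 * I)) with hβ
    set γ : ℂ := cexp (-(((a : ℂ) + b) * θ / 2 * I)) with hγ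
    have ha0 : α ≠ 0 := exp_ne_zero _
    have hb0 : β ≠ 0 := exp_ne_zero _
    have hg0 : γ ≠ 0 := exp_ne_zero _
    have hγe : γ = α * β := by
      rw [hα, hβ, hγ, ← exp_add]
      congr 1
      ring
    have hva : (s⁻¹) ^ a = α ^ 2 := by
      rw [hsE, ← exp_neg, ← exp_nat_mul, hα, ← exp_nat_mul]
      congr 1
      push_cast
      ring
    have hvb : (s⁻¹) ^ b = β ^ 2 := by
      rw [hsE, ← exp_neg, ← exp_nat_mul, hβ, ← exp_nat_mul]
      congr 1
      push_cast
      ring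
    have hvk : (s⁻¹) ^ (a + b) = γ ^ 2 := by
      rw [pow_add, hva, hvb, hγe]
      ring
    have hsa' : ((Real.sin (a * θ / 2) : ℝ) : ℂ) = (α - α⁻¹) * I / 2 := by
      rw [ofReal_sin, Complex.sin, hα, ← exp_neg, neg_neg]
      push_cast
      ring_nf
    have hsk' : ((Real.sin ((a + b) * θ / 2) : ℝ) : ℂ) = (γ - γ⁻¹) * I / 2 := by
      rw [ofReal_sin, Complex.sin, hγ, ← exp_neg, neg_neg]
      push_cast
      ring_nf
    have hbb : γ - γ⁻¹ ≠ 0 := by
      intro h
      rw [h, zero_mul, zero_div] at hsk'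
      exact hsk (by exact_mod_cast hsk')
    have hb2 : γ ^ 2 - 1 ≠ 0 := by
      intro h
      apply hbb
      have h1 : γ ^ 2 = 1 := sub_eq_zero.1 h
      have h' : γ⁻¹ = γ := inv_eq_of_mul_eq_one_left (by rw [← sq]; exact h1)
      rw [h', sub_self]
    have hv1 : s⁻¹ ≠ 1 := by
      intro h
      rw [h, one_pow] at hvk
      exact hb2 (by rw [← hvk, sub_self])
    have hv1' : s⁻¹ - 1 ≠ 0 := sub_ne_zero.2 hv1
    have key : hfn a b s⁻¹ = 1 / (b : ℂ) - ((a : ℂ) + b) / (a * b) *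
        (β * (((Real.sin (a * θ / 2) / Real.sin ((a + b) * θ / 2) : ℝ)) : ℂ)) := by
      unfold hfn
      rw [geom_sum_eq hv1, geom_sum_eq hv1, hva, hvb, hvk, ofReal_div, hsa', hsk']
      congr 1
      have e1 : (α ^ 2 - 1) = α * (α - α⁻¹) := by field_simp
      have e2 : (γ ^ 2 - 1) = α * β * (γ - γ⁻¹) := by rw [← hγe]; field_simp
      rw [e1, e2]
      have hI : (I : ℂ) ≠ 0 := I_ne_zero
      generalize s⁻¹ - 1 = V at *
      generalize α - α⁻¹ = X at *
      generalize γ - γ⁻¹ = Y at *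
      field_simp
    have hab : β.re = Real.cos (b * θ / 2) := by
      have e : β = cexp (((-(b * θ / 2) : ℝ) : ℂ) * I) := by
        rw [hβ]
        congr 1
        push_cast
        ring
      rw [e, exp_ofReal_mul_I_re, Real.cos_neg]
    have hre : (hfn a b s⁻¹).re = 1 / (b : ℝ) - ((a : ℝ) + b) / (a * b) *
        (Real.cos (b * θ / 2) * (Real.sin (a * θ / 2) / Real.sin ((a + b) * θ / 2))) := by
      rw [key, sub_re]
      have e1 : (1 / (b : ℂ)).re = 1 / (b : ℝ) := by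
        have : (1 / (b : ℂ)) = ((1 / (b : ℝ) : ℝ) : ℂ) := by push_cast; rfl
        rw [this, ofReal_re]
      have e2 : ((a : ℂ) + b) / (a * b) = ((((a : ℝ) + b) / (a * b) : ℝ) : ℂ) := by push_cast; rfl
      rw [e1, e2, re_ofReal_mul, re_mul_ofReal, hab]
    rw [hre]
    have ht := NVC_trig' ha (by exact_mod_cast hab') h0 harg
    have hc : (0 : ℝ) ≤ ((a : ℝ) + b) / (a * b) := by positivity
    have h5 := mul_le_mul_of_nonneg_left ht hc
    have h6 : ((a : ℝ) + b) / (a * b) * (a / (a + b)) = 1 / (b : ℝ) := by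
      have : (b : ℝ) ≠ 0 := by linarith
      field_simp
    rw [h6] at h5
    linarith

theorem NVC_re (a b : ℕ) (v : ℝ) : (hfn a b v).im = 0 := by
  have e : hfn a b (v : ℂ) = ((1 / (b : ℝ) - ((a : ℝ) + b) / (a * b) * v ^ b *
    (∑ i ∈ Finset.range a, v ^ i) / ∑ i ∈ Finset.range (a + b), v ^ i : ℝ) : ℂ) := by
    unfold hfn
    push_cast
    rfl
  rw [e, ofReal_im]

theorem NVC_up {a b : ℕ} (ha : 1 ≤ a) (hab : a < b) {s : ℂ} (hs : s ∈ Dn b)
    (har : arg s = Real.pi / b) : (Bn a b s).im < 0 := by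
  obtain ⟨h1, -⟩ := hs
  have ha' : (1 : ℝ) ≤ a := by exact_mod_cast ha
  have hab' : (a : ℝ) < b := by exact_mod_cast hab
  have hb0 : (0 : ℝ) < b := by linarith
  have hπ := Real.pi_pos
  have hpow : ∀ n : ℕ, s ^ n = ((‖s‖ ^ n : ℝ) : ℂ) * cexp (((n * (Real.pi / b) : ℝ) : ℂ) * I) := by
    intro n
    conv_lhs => rw [← norm_mul_exp_arg_mul_I s, mul_pow, ← exp_nat_mul, har]
    push_cast
    ring_nf
  have him : ∀ n : ℕ, (s ^ n).im = ‖s‖ ^ n * Real.sin (n * (Real.pi / b)) := by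
    intro n
    rw [hpow n, im_ofReal_mul, exp_ofReal_mul_I_im]
  have himv : ((s⁻¹) ^ a).im = -((‖s‖ ^ a)⁻¹ * Real.sin (a * (Real.pi / b))) := by
    rw [inv_pow, hpow a, mul_inv, ← exp_neg, ← ofReal_inv, im_ofReal_mul]
    have : (-(((a * (Real.pi / b) : ℝ) : ℂ) * I)) = ((-(a * (Real.pi / b)) : ℝ) : ℂ) * I := by
      push_cast
      ring
    rw [this, exp_ofReal_mul_I_im, Real.sin_neg]
    ring
  have e : Bn a b s = (((b : ℝ) / (a + b) : ℝ) : ℂ) * (s⁻¹) ^ a
      + (((a : ℝ) / (a + b) : ℝ) : ℂ) * s ^ b - 1 := by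
    unfold Bn
    push_cast
    rfl
  rw [e, sub_im, add_im, im_ofReal_mul, im_ofReal_mul, him, himv, one_im]
  have e1 : (b : ℝ) * (Real.pi / b) = Real.pi := by
    field_simp
  rw [e1, Real.sin_pi]
  have h2 : 0 < Real.sin (a * (Real.pi / b)) := by
    apply Real.sin_pos_of_pos_of_lt_pi (by positivity)
    rw [← mul_div_assoc, div_lt_iff₀ (by positivity)]
    nlinarith
  have h3 : 0 < (‖s‖ ^ a)⁻¹ := by positivity
  have h4 : 0 < (b : ℝ) / (a + b) := by positivity
  have h5 : 0 < (b : ℝ) / (a + b) * ((‖s‖ ^ a)⁻¹ * Real.sin (a * (Real.pi / b))) := by positivity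
  linarith

theorem tNVC : StNVC := fun _ _ ha hab =>
  ⟨fun _ hs h1 => NVC_ar ha hab hs h1, NVC_re _ _, fun _ hs h => NVC_up ha hab hs h⟩

end H719FX
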