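import Pool.Agent.H719R4.FX.Fin3
import Pool.Agent.H719R4.FX.NVA
import Pool.Agent.H719R4.FX.NVB
import Pool.Agent.H719R4.FX.NVC
import Pool.Agent.H719R4.FX.NFF
import Pool.Agent.H719R4.FX.NLOC
import Pool.Agent.H719R4.FX.NCRC
import Pool.Agent.H719R4.FX.JVB
import Pool.Agent.H719R4.FX.JRR
import Pool.Agent.H719R4.FX.JEE
import Pool.Agent.H719R4.FX.JG1
import Pool.Agent.H719R4.FX.JG2
import Pool.Agent.H719R4.FX.JPP
import Pool.Agent.H719R4.FX.JSS
import Pool.Agent.H719R4.FX.JTT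
import Pool.Agent.H719R4.FX.JTE
import Pool.Agent.H719R4.FX.JWT
import Pool.Agent.H719R4.FX.JS5
import Pool.Agent.H719R4.FX.JEXT
import Pool.Agent.H719R4.FX.JPRV
import Pool.Agent.H719R4.FX.JLIM
import Pool.Agent.H719R4.FX.JMDL
import Pool.Agent.H719R4.FX.JM4
import Pool.Agent.H719R4.FX.JINT
import Pool.Agent.H719R4.FX.JEND

/-! # Assembly: isotropic places at infinity -/

open Complex Set Filter Topology

namespace H719FX

open H738CZ

theorem fin_jend : StJEND := by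
  obtain ⟨hCHG, hMON, hSTB, hV3C, hPAR, -, -, -, -, -⟩ := cz
  have hVA := tNVA
  have hVB := tNVB hVA
  have hFF := tNFF hVA hVB tNVC
  have hJSS := tJSS tNLOC hVA tJVB
  have hJTT := tJTT hVA hVB tJVB
  have hJPP := tJPP hVA hFF hJSS hJTT
  exact tJEND (tJINT hCHG hMON) (tJEXT tJWT) (tJPRV hCHG hSTB hV3C) tNCRC tJLIM tJMDL
    (tJM4 tNLOC tJTE hPAR) (tJS5 tJRR (tJEE hJPP hVA) (tJG1 hJPP hVA) tJG2)

end H719FX
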