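import Pool.Agent.H719R4.FX.Neg
import Pool.Agent.H719R4.FX.G1

/-! Task NG1: growth (adapted from G1). -/

open Complex Set Filter Topology

namespace H719FX

open H738CZ

theorem NG1_cn1 (a b : ℕ) : ‖(b : ℂ) / (a + b)‖ = (b : ℝ) / (a + b) := by
  have : (b : ℂ) / (a + b) = (((b : ℝ) / (a + b) : ℝ) : ℂ) := by push_cast; ring
  rw [this, Complex.norm_real, Real.norm_eq_abs, abs_of_nonneg (by positivity)]

theorem NG1_cn2 (a b : ℕ) : ‖(a : ℂ) / (a + b)‖ = (a : ℝ) / (a + b) := by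
  have : (a : ℂ) / (a + b) = (((a : ℝ) / (a + b) : ℝ) : ℂ) := by push_cast; ring
  rw [this, Complex.norm_real, Real.norm_eq_abs, abs_of_nonneg (by positivity)]

theorem NG1_Bn_le (a b : ℕ) (ha : 1 ≤ a) {y : ℂ} (hy : ‖y‖ ≤ 1) (hy3 : 1 / 3 ≤ ‖y‖) :
    ‖Bn a b y‖ ≤ 3 ^ a + 2 := by
  have ha1 : (1 : ℝ) ≤ a := by exact_mod_cast ha
  have hb0 : (0 : ℝ) ≤ b := Nat.cast_nonneg b
  have hs : (0 : ℝ) < a + b := by linarith
  unfold Bn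
  have h1 : ‖(y⁻¹) ^ a‖ ≤ 3 ^ a := by
    rw [norm_pow, norm_inv]
    apply pow_le_pow_left₀ (by positivity)
    rw [inv_le_comm₀ (by linarith) (by norm_num)]
    linarith
  have h2 : ‖y ^ b‖ ≤ 1 := by
    rw [norm_pow]; exact pow_le_one₀ (norm_nonneg _) hy
  have f1 : (b : ℝ) / (a + b) ≤ 1 := by
    rw [div_le_one hs]; linarith
  have f2 : (a : ℝ) / (a + b) ≤ 1 := by
    rw [div_le_one hs]; linarith
  have e1 : ‖(b : ℂ) / (a + b) * (y⁻¹) ^ a‖ ≤ 3 ^ a := by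
    rw [norm_mul, NG1_cn1]
    calc (b : ℝ) / (a + b) * ‖(y⁻¹) ^ a‖ ≤ 1 * 3 ^ a :=
          mul_le_mul f1 h1 (norm_nonneg _) zero_le_one
      _ = 3 ^ a := one_mul _
  have e2 : ‖(a : ℂ) / (a + b) * y ^ b‖ ≤ 1 := by
    rw [norm_mul, NG1_cn2]
    calc (a : ℝ) / (a + b) * ‖y ^ b‖ ≤ 1 * 1 :=
          mul_le_mul f2 h2 (norm_nonneg _) zero_le_one
      _ = 1 := one_mul _
  have e3 := norm_sub_le ((b : ℂ) / (a + b) * (y⁻¹) ^ a + (a : ℂ) / (a + b) * y ^ b) 1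
  have e4 := norm_add_le ((b : ℂ) / (a + b) * (y⁻¹) ^ a) ((a : ℂ) / (a + b) * y ^ b)
  rw [norm_one] at e3
  linarith

theorem NG1_Bn_ge (a b : ℕ) (ha : 1 ≤ a) {x : ℂ} (hx : 1 ≤ ‖x‖) :
    ‖x‖ ^ b ≤ 2 * ((a : ℝ) + b) * (1 + ‖Bn a b x‖) := by
  have ha1 : (1 : ℝ) ≤ a := by exact_mod_cast ha
  have hb0 : (0 : ℝ) ≤ b := Nat.cast_nonneg b
  have hs : (0 : ℝ) < a + b := by linarith
  have hB0 := norm_nonneg (Bn a b x)
  have hinv : ‖(x⁻¹) ^ a‖ ≤ 1 := by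
    rw [norm_pow, norm_inv]
    apply pow_le_one₀ (by positivity)
    exact inv_le_one_of_one_le₀ hx
  have f1 : (b : ℝ) / (a + b) ≤ 1 := by
    rw [div_le_one hs]; linarith
  have e : (a : ℂ) / (a + b) * x ^ b = Bn a b x + (1 - (b : ℂ) / (a + b) * (x⁻¹) ^ a) := by
    unfold Bn; ring
  have h1 : (a : ℝ) / (a + b) * ‖x‖ ^ b ≤ ‖Bn a b x‖ + 2 := by
    calc (a : ℝ) / (a + b) * ‖x‖ ^ b = ‖(a : ℂ) / (a + b) * x ^ b‖ := by
          rw [norm_mul, NG1_cn2, norm_pow]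
      _ = ‖Bn a b x + (1 - (b : ℂ) / (a + b) * (x⁻¹) ^ a)‖ := by rw [e]
      _ ≤ ‖Bn a b x‖ + ‖1 - (b : ℂ) / (a + b) * (x⁻¹) ^ a‖ := norm_add_le _ _
      _ ≤ ‖Bn a b x‖ + (‖(1 : ℂ)‖ + ‖(b : ℂ) / (a + b) * (x⁻¹) ^ a‖) :=
          add_le_add le_rfl (norm_sub_le _ _)
      _ ≤ ‖Bn a b x‖ + (1 + 1) := by
          rw [norm_one, norm_mul, NG1_cn1]
          have : (b : ℝ) / (a + b) * ‖(x⁻¹) ^ a‖ ≤ 1 * 1 :=
            mul_le_mul f1 hinv (norm_nonneg _) zero_le_one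
          linarith
      _ = _ := by ring
  have h2 : (a : ℝ) * ‖x‖ ^ b ≤ (a + b) * (‖Bn a b x‖ + 2) := by
    have h3 := mul_le_mul_of_nonneg_left h1 hs.le
    have e1 : ((a : ℝ) + b) * ((a : ℝ) / (a + b) * ‖x‖ ^ b) = a * ‖x‖ ^ b := by
      field_simp
    rw [e1] at h3
    exact h3
  have h3 : ‖x‖ ^ b ≤ (a : ℝ) * ‖x‖ ^ b := le_mul_of_one_le_left (by positivity) ha1
  nlinarith

theorem NG1_Mcn {a b : ℕ} (ha : 1 ≤ a) {s : ℂ} (hs0 : s ≠ 0)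
    (hs : 2 - (s⁻¹) ^ (a + b) ≠ 0) :
    ‖Mcn a b s‖ ^ (3 * (a + b)) =
      ‖s‖ ^ ((2 * a + 4 * b) * (a + b)) * ‖2 - (s⁻¹) ^ (a + b)‖ ^ (2 * a + 4 * b) := by
  have hk0 : (a : ℂ) + b ≠ 0 := by
    have : ((a + b : ℕ) : ℂ) ≠ 0 := by rw [Nat.cast_ne_zero]; omega
    exact_mod_cast this
  rw [← norm_pow, ← norm_pow, ← norm_pow, ← norm_mul]
  unfold Mcn
  rw [← Complex.exp_nat_mul]
  have h1 : ((3 * (a + b) : ℕ) : ℂ) * ((2 * (a : ℂ) + 4 * b) / 3 *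
      (log s + log (2 - (s⁻¹) ^ (a + b)) / (a + b))) =
      (((2 * a + 4 * b) * (a + b) : ℕ) : ℂ) * log s +
        ((2 * a + 4 * b : ℕ) : ℂ) * log (2 - (s⁻¹) ^ (a + b)) := by
    push_cast
    field_simp
  rw [h1, Complex.exp_add, Complex.exp_nat_mul, Complex.exp_nat_mul, Complex.exp_log hs,
    Complex.exp_log hs0]

theorem tNG1 (hPP : StNPP) (hVA : StNVA) : StNG1 := by
  intro a b F ha hab hF hrel
  have ha1 : (1 : ℝ) ≤ a := by exact_mod_cast ha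
  have hb1 : (1 : ℝ) ≤ b := by exact_mod_cast (by omega : 1 ≤ b)
  have hV := hVA a b ha hab
  obtain ⟨K0, hK0⟩ := (isCompact_closedBall (0 : ℂ)
    ((3 : ℝ) ^ a + 2)).exists_bound_of_continuousOn
    hF.continuous.continuousOn
  have hK : 0 ≤ K0 := (norm_nonneg _).trans (hK0 0 (by
    rw [Metric.mem_closedBall, dist_self]; positivity))
  obtain ⟨T, hT⟩ : ∃ T : ℝ, T = 2 * ((a : ℝ) + b) := ⟨_, rfl⟩
  have hT0 : 0 ≤ T := by rw [hT]; positivity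
  obtain ⟨N, hN⟩ : ∃ N : ℕ, N = 3 * (a + b) * b := ⟨_, rfl⟩
  have hN1 : 1 ≤ N := by rw [hN]; exact Nat.mul_pos (by omega) (by omega)
  obtain ⟨M, hM⟩ : ∃ M : ℕ, M = (2 * a + 4 * b) * (a + b) := ⟨_, rfl⟩
  have hMN : M ≤ 2 * N - 1 := by
    have h1 : M + 2 ≤ 2 * N := by
      rw [hM, hN]
      obtain ⟨d, hd⟩ : ∃ d, b = a + 1 + d := ⟨b - (a + 1), by omega⟩
      subst hd
      nlinarith
    omega
  obtain ⟨K1, hK1⟩ : ∃ K1 : ℝ, K1 = K0 ^ N * (3 ^ ((2 * a + 4 * b) * b) * T ^ M) := ⟨_, rfl⟩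
  have hK10 : 0 ≤ K1 := by rw [hK1]; positivity
  refine G1_affine F hF (K1 + ‖F 0‖ ^ N) (by positivity) N hN1 ?_
  intro q
  have hq1 : 1 ≤ 1 + ‖q‖ := by linarith [norm_nonneg q]
  have hone : (1 : ℝ) ≤ (1 + ‖q‖) ^ (2 * N - 1) := one_le_pow₀ hq1
  by_cases hq : q = 0
  · subst hq
    have h2 : 0 ≤ ‖F 0‖ ^ N := by positivity
    calc ‖F 0‖ ^ N ≤ (K1 + ‖F 0‖ ^ N) * 1 := by linarith
      _ ≤ _ := mul_le_mul_of_nonneg_left hone (by positivity)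
  · obtain ⟨x1, hx1, hB, -, hcF⟩ := hPP a b F (‖q‖ + 1) ha hab (by positivity)
      hF.differentiableOn hrel q hq (by linarith)
    have eF := hcF.self_of_nhds (by rw [hB]; linarith)
    rw [hB] at eF
    have ht1 : 1 ≤ ‖x1‖ := hx1.1
    have hx10 : x1 ≠ 0 := by
      intro h
      rw [h, norm_zero] at ht1
      linarith
    have hy : ‖F (Bn a b (Mon (a + b) x1))‖ ≤ K0 := by
      apply hK0
      rw [Metric.mem_closedBall, dist_zero_right]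
      exact NG1_Bn_le a b ha (hV.mo x1 hx1) (hV.ml x1 hx1)
    have h2x : ‖2 - (x1⁻¹) ^ (a + b)‖ ≤ 3 := by
      have : ‖(x1⁻¹) ^ (a + b)‖ ≤ 1 := by
        rw [norm_pow, norm_inv]
        exact pow_le_one₀ (by positivity) (inv_le_one_of_one_le₀ ht1)
      calc ‖2 - (x1⁻¹) ^ (a + b)‖ ≤ ‖(2 : ℂ)‖ + ‖(x1⁻¹) ^ (a + b)‖ := norm_sub_le _ _
        _ ≤ 2 + 1 := by
            have h2 : ‖(2 : ℂ)‖ = 2 := by norm_num
            rw [h2]; linarith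
        _ = 3 := by norm_num
    have hne : 2 - (x1⁻¹) ^ (a + b) ≠ 0 := slitPlane_ne_zero (hV.sl x1 hx1)
    have hMc := NG1_Mcn (b := b) ha hx10 hne
    have hc9 : ‖Mcn a b x1‖ ^ N ≤ 3 ^ ((2 * a + 4 * b) * b) * (T * (1 + ‖q‖)) ^ M := by
      calc ‖Mcn a b x1‖ ^ N = (‖Mcn a b x1‖ ^ (3 * (a + b))) ^ b := by rw [hN, pow_mul]
        _ = (‖x1‖ ^ ((2 * a + 4 * b) * (a + b)) * ‖2 - (x1⁻¹) ^ (a + b)‖ ^ (2 * a + 4 * b)) ^ b := by
            rw [hMc]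
        _ ≤ (‖x1‖ ^ ((2 * a + 4 * b) * (a + b)) * 3 ^ (2 * a + 4 * b)) ^ b := by
            apply pow_le_pow_left₀ (by positivity)
            apply mul_le_mul_of_nonneg_left _ (by positivity)
            exact pow_le_pow_left₀ (norm_nonneg _) h2x _
        _ = 3 ^ ((2 * a + 4 * b) * b) * (‖x1‖ ^ b) ^ M := by
            rw [mul_pow, ← pow_mul, ← pow_mul, ← pow_mul, hM, mul_comm]
            congr 2
            ring
        _ ≤ 3 ^ ((2 * a + 4 * b) * b) * (T * (1 + ‖q‖)) ^ M := by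
            apply mul_le_mul_of_nonneg_left _ (by positivity)
            apply pow_le_pow_left₀ (by positivity)
            have := NG1_Bn_ge a b ha ht1
            rw [hB, ← hT] at this
            exact this
    have hfin : ‖F q‖ ^ N ≤ K1 * (1 + ‖q‖) ^ M := by
      calc ‖F q‖ ^ N = ‖Mcn a b x1‖ ^ N * ‖F (Bn a b (Mon (a + b) x1))‖ ^ N := by
            rw [eF, norm_mul, mul_pow]
        _ ≤ (3 ^ ((2 * a + 4 * b) * b) * (T * (1 + ‖q‖)) ^ M) * K0 ^ N := by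
            apply mul_le_mul hc9 (pow_le_pow_left₀ (norm_nonneg _) hy _) (by positivity)
              (by positivity)
        _ = _ := by rw [mul_pow, hK1]; ring
    refine hfin.trans ?_
    have h3 : (1 + ‖q‖) ^ M ≤ (1 + ‖q‖) ^ (2 * N - 1) := pow_le_pow_right₀ hq1 hMN
    have h4 : 0 ≤ ‖F 0‖ ^ N := by positivity
    calc K1 * (1 + ‖q‖) ^ M ≤ K1 * (1 + ‖q‖) ^ (2 * N - 1) := mul_le_mul_of_nonneg_left h3 hK10
      _ ≤ (K1 + ‖F 0‖ ^ N) * (1 + ‖q‖) ^ (2 * N - 1) :=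
          mul_le_mul_of_nonneg_right (by linarith) (by positivity)

end H719FX
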