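import Pool.Agent.H719R4.FX.Neg

set_option autoImplicit false

/-!
# Task NG2: there is no linear solution at a place at infinity.
-/

open Complex Set Filter Topology

namespace H719FX

open H738CZ

/-- the real function -/
noncomputable def NG2_b (a b : ℕ) (x : ℝ) : ℝ :=
  (b : ℝ) / (a + b) * (x⁻¹) ^ a + (a : ℝ) / (a + b) * x ^ b - 1

theorem NG2_Bn (a b : ℕ) (x : ℝ) : Bn a b (x : ℂ) = (NG2_b a b x : ℂ) := by
  unfold Bn NG2_b
  push_cast
  ring

theorem NG2_log (k : ℕ) (x : ℝ) (hL : 0 < 2 - (x⁻¹) ^ k) :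
    log (2 - ((x : ℂ)⁻¹) ^ k) = ((Real.log (2 - (x⁻¹) ^ k) : ℝ) : ℂ) := by
  rw [Complex.ofReal_log hL.le]
  push_cast
  rfl

theorem NG2_Mon (k : ℕ) (x : ℝ) (hL : 0 < 2 - (x⁻¹) ^ k) :
    Mon k (x : ℂ) = ((Real.exp (-(Real.log (2 - (x⁻¹) ^ k) / k)) : ℝ) : ℂ) := by
  unfold Mon
  rw [NG2_log k x hL]
  push_cast
  rfl

theorem NG2_Mcn (a b : ℕ) (x : ℝ) (hx : 0 < x) (hL : 0 < 2 - (x⁻¹) ^ (a + b)) :
    Mcn a b (x : ℂ) = ((Real.exp ((2 * (a : ℝ) + 4 * b) / 3 *
      (Real.log x + Real.log (2 - (x⁻¹) ^ (a + b)) / (a + b))) : ℝ) : ℂ) := by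
  unfold Mcn
  rw [NG2_log (a + b) x hL, ← Complex.ofReal_log hx.le]
  push_cast
  rfl

theorem NG2_pos (a b : ℕ) (ha : 1 ≤ a) (hb : 1 ≤ b) (s : ℝ) (h0 : 0 < s) (h1 : s < 1) :
    0 < NG2_b a b s := by
  have har : (0 : ℝ) < a := by exact_mod_cast ha
  have hbr : (0 : ℝ) < b := by exact_mod_cast hb
  have hd : ∀ x : ℝ, x ≠ 0 → HasDerivAt (NG2_b a b)
      ((b : ℝ) / (a + b) * (a * (x⁻¹) ^ (a - 1) * (-(x ^ 2)⁻¹)) +
        (a : ℝ) / (a + b) * (b * x ^ (b - 1))) x := by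
    intro x hx
    have e1 : HasDerivAt (fun x : ℝ => (b : ℝ) / (a + b) * (x⁻¹) ^ a)
        ((b : ℝ) / (a + b) * (a * (x⁻¹) ^ (a - 1) * (-(x ^ 2)⁻¹))) x :=
      ((hasDerivAt_inv hx).pow a).const_mul _
    have e2 : HasDerivAt (fun x : ℝ => (a : ℝ) / (a + b) * x ^ b)
        ((a : ℝ) / (a + b) * (b * x ^ (b - 1))) x := (hasDerivAt_pow b x).const_mul _
    exact (e1.add e2).sub_const 1
  have hanti : StrictAntiOn (NG2_b a b) (Ioc 0 1) := by
    apply strictAntiOn_of_deriv_neg (convex_Ioc 0 1)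
    · exact fun x hx => (hd x hx.1.ne').continuousAt.continuousWithinAt
    · intro x hx
      rw [interior_Ioc] at hx
      rw [(hd x hx.1.ne').deriv]
      have h2 : x ^ (b - 1) ≤ 1 := pow_le_one₀ hx.1.le hx.2.le
      have h3 : 1 ≤ (x⁻¹) ^ (a - 1) := one_le_pow₀ ((one_le_inv₀ hx.1).2 hx.2.le)
      have h4 : 1 < (x ^ 2)⁻¹ := (one_lt_inv₀ (by have := hx.1; positivity)).2
        (pow_lt_one₀ hx.1.le hx.2 (by norm_num))
      have h5 : 1 < (x⁻¹) ^ (a - 1) * (x ^ 2)⁻¹ := by nlinarith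
      have h6 : 0 < (a : ℝ) * b / (a + b) := by positivity
      have e : (b : ℝ) / (a + b) * (a * (x⁻¹) ^ (a - 1) * (-(x ^ 2)⁻¹)) +
          (a : ℝ) / (a + b) * (b * x ^ (b - 1)) =
          (a : ℝ) * b / (a + b) * (x ^ (b - 1) - (x⁻¹) ^ (a - 1) * (x ^ 2)⁻¹) := by ring
      rw [e]
      exact mul_neg_of_pos_of_neg h6 (by linarith)
  have h2 := hanti ⟨h0, h1.le⟩ ⟨zero_lt_one, le_rfl⟩ h1
  have h3 : NG2_b a b 1 = 0 := by
    unfold NG2_b
    rw [inv_one, one_pow, one_pow]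
    field_simp
    ring
  linarith

/-- the difference of the two sides -/
noncomputable def NG2_f (a b : ℕ) (z : ℂ) : ℂ := Bn a b z - Mcn a b z * Bn a b (Mon (a + b) z)

theorem NG2_an (a b : ℕ) (z : ℂ) (hz : z ∈ slitPlane) (hz' : 2 - (z⁻¹) ^ (a + b) ∈ slitPlane) :
    AnalyticAt ℂ (NG2_f a b) z := by
  have hz0 : z ≠ 0 := slitPlane_ne_zero hz
  have hB : ∀ w, w ≠ 0 → AnalyticAt ℂ (Bn a b) w := fun w hw => by
    unfold Bn
    have h1 : AnalyticAt ℂ (fun s : ℂ => s⁻¹) w := analyticAt_inv hw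
    exact ((analyticAt_const.mul (h1.pow a)).add
      (analyticAt_const.mul (analyticAt_id.pow b))).sub analyticAt_const
  have hinv : AnalyticAt ℂ (fun z : ℂ => z⁻¹) z := analyticAt_inv hz0
  have hlog : AnalyticAt ℂ (fun z : ℂ => log (2 - (z⁻¹) ^ (a + b))) z :=
    (analyticAt_const.sub (hinv.pow (a + b))).clog hz'
  have hlog0 : AnalyticAt ℂ (fun z : ℂ => log z) z := analyticAt_clog hz
  have hM : AnalyticAt ℂ (Mon (a + b)) z := by
    unfold Mon
    exact (hlog.div_const).neg.cexp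
  have hMc : AnalyticAt ℂ (Mcn a b) z := by
    unfold Mcn
    exact (analyticAt_const.mul (hlog0.add hlog.div_const)).cexp
  have hM0 : Mon (a + b) z ≠ 0 := by
    unfold Mon
    exact Complex.exp_ne_zero _
  exact (hB z hz0).sub (hMc.mul ((hB (Mon (a + b) z) hM0).comp hM))

theorem NG2_L (k : ℕ) (x : ℝ) (h0 : 0 < x) (h : 1 < 2 * x ^ k) : 0 < 2 - (x⁻¹) ^ k := by
  have hxk : 0 < x ^ k := by positivity
  rw [inv_pow, sub_pos, inv_lt_iff_one_lt_mul₀ hxk]
  linarith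

theorem NG2_global (a b : ℕ) (h : Rel1N a b (fun q => q)) (x : ℝ) (hx : 1 ≤ x) :
    Bn a b (x : ℂ) = Mcn a b (x : ℂ) * Bn a b (Mon (a + b) (x : ℂ)) := by
  set k := a + b with hk
  set U : Set ℝ := {x : ℝ | 0 < x ∧ 1 < 2 * x ^ k} with hU
  have hUc : IsPreconnected U := by
    apply Set.OrdConnected.isPreconnected
    constructor
    intro a ha b _ c hc
    have h0 : 0 < c := lt_of_lt_of_le ha.1 hc.1
    exact ⟨h0, lt_of_lt_of_le ha.2 (by
      have := pow_le_pow_left₀ ha.1.le hc.1 k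
      linarith)⟩
  have hUan : AnalyticOnNhd ℝ (fun x : ℝ => NG2_f a b (x : ℂ)) U := by
    intro y hy
    have h1 : (2 - ((y : ℂ)⁻¹) ^ (a + b)) ∈ slitPlane := by
      left
      have : (2 - ((y : ℂ)⁻¹) ^ (a + b)) = ((2 - (y⁻¹) ^ (a + b) : ℝ) : ℂ) := by
        push_cast; rfl
      rw [this, ofReal_re]
      exact NG2_L k y hy.1 hy.2
    have h1' : (y : ℂ) ∈ slitPlane := by
      left
      rw [ofReal_re]
      exact hy.1
    have h2 : AnalyticAt ℝ (NG2_f a b) (y : ℂ) := (NG2_an a b y h1' h1).restrictScalars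
    exact h2.comp (Complex.ofRealCLM.analyticAt y)
  have hU0 : AnalyticOnNhd ℝ (fun _ : ℝ => (0 : ℂ)) U := fun _ _ => analyticAt_const
  have h1U : (1 : ℝ) ∈ U := ⟨one_pos, by norm_num⟩
  have hev : (fun x : ℝ => NG2_f a b (x : ℂ)) =ᶠ[𝓝 1] fun _ => 0 := by
    have ht : Tendsto (fun x : ℝ => (x : ℂ)) (𝓝 1) (𝓝 ((1 : ℝ) : ℂ)) :=
      Complex.continuous_ofReal.tendsto 1
    rw [ofReal_one] at ht
    filter_upwards [ht.eventually h] with y hy
    exact sub_eq_zero.2 hy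
  have key := hUan.eqOn_of_preconnected_of_eventuallyEq hU0 hUc h1U hev
  have hxU : x ∈ U := ⟨by linarith, by
    have := one_le_pow₀ hx (n := k)
    linarith⟩
  exact sub_eq_zero.1 (key hxU)

theorem tNG2 : StNG2 := by
  intro a b ha hab h
  have hb : 1 ≤ b := by omega
  have har : (0 : ℝ) < a := by exact_mod_cast ha
  have hbr : (0 : ℝ) < b := by exact_mod_cast hb
  set c : ℝ := (2 * (a : ℝ) + 4 * b) / 3 with hc
  set δ : ℝ := c - b with hδ
  have hδ0 : 0 < δ := by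
    have : δ = (2 * (a : ℝ) + b) / 3 := by rw [hδ, hc]; ring
    rw [this]; positivity
  set m : ℝ → ℝ := fun x => 2 - (x⁻¹) ^ (a + b) with hm
  set G : ℝ → ℝ := fun x => Real.exp (c * (Real.log (m x) / (a + b))) *
    NG2_b a b (Real.exp (-(Real.log (m x) / ((a + b : ℕ) : ℝ)))) with hG
  have hinv0 : Tendsto (fun x : ℝ => x⁻¹) atTop (𝓝 0) := tendsto_inv_atTop_zero
  have hmlim : Tendsto m atTop (𝓝 2) := by
    have h1 : Tendsto (fun x : ℝ => (x⁻¹) ^ (a + b)) atTop (𝓝 0) := by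
      have := hinv0.pow (a + b)
      rwa [zero_pow (by omega)] at this
    have h2 := (tendsto_const_nhds (x := (2 : ℝ))).sub h1
    rw [sub_zero] at h2
    exact h2
  set sI : ℝ := Real.exp (-(Real.log 2 / ((a + b : ℕ) : ℝ))) with hs
  have hbc : ContinuousAt (NG2_b a b) sI := by
    have hs0 : sI ≠ 0 := (Real.exp_pos _).ne'
    unfold NG2_b
    have h1 : ContinuousAt (fun x : ℝ => x⁻¹) sI := continuousAt_inv₀ hs0
    exact ((continuousAt_const.mul (h1.pow a)).add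
      (continuousAt_const.mul (continuousAt_id.pow b))).sub continuousAt_const
  set γ : ℝ := Real.exp (c * (Real.log 2 / (a + b))) * NG2_b a b sI with hγ
  have hγ0 : 0 < γ := by
    apply mul_pos (Real.exp_pos _)
    apply NG2_pos a b ha hb _ (Real.exp_pos _)
    rw [Real.exp_lt_one_iff]
    have h1 := Real.log_pos (by norm_num : (1 : ℝ) < 2)
    have h2 : (0 : ℝ) < ((a + b : ℕ) : ℝ) := by push_cast; positivity
    have : 0 < Real.log 2 / ((a + b : ℕ) : ℝ) := by positivity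
    linarith
  have hGlim : Tendsto G atTop (𝓝 γ) := by
    have hl : Tendsto (fun x => Real.log (m x)) atTop (𝓝 (Real.log 2)) :=
      ((Real.continuousAt_log (by norm_num)).tendsto).comp hmlim
    have h1 : Tendsto (fun x => Real.exp (c * (Real.log (m x) / (a + b)))) atTop
        (𝓝 (Real.exp (c * (Real.log 2 / (a + b))))) :=
      (Real.continuous_exp.tendsto _).comp ((hl.div_const _).const_mul c)
    have h2 : Tendsto (fun x => NG2_b a b (Real.exp (-(Real.log (m x) / ((a + b : ℕ) : ℝ)))))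
        atTop (𝓝 (NG2_b a b sI)) :=
      hbc.tendsto.comp ((Real.continuous_exp.tendsto _).comp ((hl.div_const _).neg))
    exact h1.mul h2
  set A : ℝ → ℝ := fun x => (b : ℝ) / (a + b) * ((x⁻¹) ^ a * (x⁻¹) ^ b) + (a : ℝ) / (a + b)
    - (x⁻¹) ^ b with hA
  have hAlim : Tendsto A atTop (𝓝 ((a : ℝ) / (a + b))) := by
    have h1 : Tendsto (fun x : ℝ => (x⁻¹) ^ a) atTop (𝓝 0) := by
      have := hinv0.pow a
      rwa [zero_pow (by omega)] at this
    have h2 : Tendsto (fun x : ℝ => (x⁻¹) ^ b) atTop (𝓝 0) := by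
      have := hinv0.pow b
      rwa [zero_pow (by omega)] at this
    have h3 := (((h1.mul h2).const_mul ((b : ℝ) / (a + b))).add_const ((a : ℝ) / (a + b))).sub h2
    rw [mul_zero, mul_zero, zero_add, sub_zero] at h3
    exact h3
  -- the equation
  have heq : ∀ᶠ x : ℝ in atTop, A x = Real.exp (δ * Real.log x) * G x := by
    filter_upwards [eventually_ge_atTop (1 : ℝ)] with x hx
    have hx0 : 0 < x := by linarith
    have hxk : 1 ≤ x ^ (a + b) := one_le_pow₀ hx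
    have hL : 0 < 2 - (x⁻¹) ^ (a + b) := NG2_L _ x hx0 (by linarith)
    have h1 := NG2_global a b h x hx
    rw [NG2_Bn, NG2_Mon (a + b) x hL, NG2_Bn, NG2_Mcn a b x hx0 hL] at h1
    rw [← Complex.ofReal_mul] at h1
    have h2 : NG2_b a b x = Real.exp (c * (Real.log x + Real.log (m x) / (a + b))) *
        NG2_b a b (Real.exp (-(Real.log (m x) / ((a + b : ℕ) : ℝ)))) :=
      Complex.ofReal_injective h1
    have h5 : Real.exp (c * (Real.log x + Real.log (m x) / (a + b))) =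
        x ^ b * (Real.exp (δ * Real.log x) * Real.exp (c * (Real.log (m x) / (a + b)))) := by
      have e2 : x ^ b = Real.exp ((b : ℝ) * Real.log x) := by
        rw [← Real.log_pow, Real.exp_log (by positivity)]
      rw [e2, ← Real.exp_add, ← Real.exp_add]
      congr 1
      rw [hδ]
      ring
    rw [h5] at h2
    have h6 : A x = NG2_b a b x * (x⁻¹) ^ b := by
      show (b : ℝ) / (a + b) * ((x⁻¹) ^ a * (x⁻¹) ^ b) + (a : ℝ) / (a + b)
        - (x⁻¹) ^ b = _
      unfold NG2_b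
      have h7 : x ^ b * (x⁻¹) ^ b = 1 := by rw [← mul_pow, mul_inv_cancel₀ hx0.ne', one_pow]
      linear_combination (-(a : ℝ) / (a + b)) * h7
    have h7 : x ^ b * (x⁻¹) ^ b = 1 := by rw [← mul_pow, mul_inv_cancel₀ hx0.ne', one_pow]
    rw [h6, h2]
    show _ = Real.exp (δ * Real.log x) * (Real.exp (c * (Real.log (m x) / (a + b))) *
      NG2_b a b (Real.exp (-(Real.log (m x) / ((a + b : ℕ) : ℝ)))))
    linear_combination (Real.exp (δ * Real.log x) * (Real.exp (c * (Real.log (m x) / (a + b))) *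
      NG2_b a b (Real.exp (-(Real.log (m x) / ((a + b : ℕ) : ℝ)))))) * h7
  have hratio : Tendsto (fun x : ℝ => Real.exp (δ * Real.log x)) atTop
      (𝓝 ((a : ℝ) / (a + b) / γ)) := by
    have h1 := hAlim.div hGlim hγ0.ne'
    refine h1.congr' ?_
    have hGne : ∀ᶠ x in atTop, G x ≠ 0 := hGlim.eventually_ne hγ0.ne'
    filter_upwards [heq, hGne] with x hx hne
    show A x / G x = _
    rw [hx]
    exact mul_div_cancel_right₀ _ hne
  have h1 : Tendsto (fun x : ℝ => Real.exp (δ * Real.log x)) atTop atTop :=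
    Real.tendsto_exp_atTop.comp (Real.tendsto_log_atTop.const_mul_atTop hδ0)
  exact not_tendsto_nhds_of_tendsto_atTop h1 _ hratio

end H719FX
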