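import Pool.Agent.H719R4.FX.Neg
import Pool.Agent.H719R4.FX.LIM

/-!
# NLIM: the leading coefficients satisfy the model law (adapted from LIM)
-/

open Complex Set Filter Topology

namespace H719FX

open H738CZ

/-- the Taylor shift part -/
theorem NLIM_Es {a b : ℕ} (hk : 1 ≤ a + b) {u : ℂ → ℂ} {R : ℝ} (hu : UN u R) (g : ℕ → ℂ → ℂ)
    (G : ℂ → ℂ) (j : ℕ) (hj : 1 ≤ j) (hP : PolN a b R g j G) :
    LIM_PW (a + b) (fun τ => Es (dk (a + b)) (fun t => g j t * ((rn a b u t)⁻¹) ^ j) τ)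
      (3 * b * j - (2 * a + 4 * b))
      (PowerSeries.C (G 0 * ((u 0)⁻¹) ^ j)
        * binS ((2 * (a : ℂ) + 4 * b - 3 * b * j) / (3 * (a + b)))) := by
  have hk0 : (a : ℂ) + b ≠ 0 := by
    have : ((a + b : ℕ) : ℂ) ≠ 0 := by rw [Nat.cast_ne_zero]; omega
    exact_mod_cast this
  intro l
  have hF : DifferentiableOn ℂ (fun τ => G τ * ((u (τ ^ 3))⁻¹) ^ j) (Metric.ball 0 R) :=
    hP.1.mul (((LIM_du hu).inv fun τ hτ => hu.nz _ (LIM_cube hτ)).pow j)
  have h := LIM_lim (a + b) hk R hu.pos (fun t => g j t * ((rn a b u t)⁻¹) ^ j) _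
    (3 * b * j - (2 * a + 4 * b)) hF ?_ l
  · have h2 := h.div_const (l.factorial : ℂ)
    have e : PowerSeries.coeff l (PowerSeries.C (G 0 * ((u 0)⁻¹) ^ j)
        * binS ((2 * (a : ℂ) + 4 * b - 3 * b * j) / (3 * (a + b))))
        = (∏ i ∈ Finset.range l,
            (-(((3 * b * j - (2 * a + 4 * b) : ℤ)) : ℂ) / (3 * ((a + b : ℕ) : ℂ)) - i))
            * ((fun τ => G τ * ((u (τ ^ 3))⁻¹) ^ j) 0) / (l.factorial : ℂ) := by
      rw [PowerSeries.coeff_C_mul, binS, PowerSeries.coeff_mk]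
      have e1 : (2 * (a : ℂ) + 4 * b - 3 * b * j) / (3 * (a + b))
          = -(((3 * b * j - (2 * a + 4 * b) : ℤ)) : ℂ) / (3 * ((a + b : ℕ) : ℂ)) := by
        push_cast
        ring
      rw [e1]
      simp only [ne_eq, OfNat.ofNat_ne_zero, not_false_eq_true, zero_pow]
      ring
    rw [e]
    refine h2.congr fun τ => ?_
    simp only [Es, PowerSeries.coeff_mk]
    ring
  · intro τ hτ
    have hτ0 : τ ≠ 0 := hτ.2
    have hun : u (τ ^ 3) ≠ 0 := hu.nz _ (LIM_cube hτ.1)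
    have hg := hP.2 τ hτ
    show g j τ * ((rn a b u τ)⁻¹) ^ j = G τ * ((u (τ ^ 3))⁻¹) ^ j * _
    rw [← hg, rn]
    have e : τ ^ (-(3 * (b : ℤ) * j - (2 * a + 4 * b)))
        = (τ ^ ((2 * a + 4 * b) * (j - 1)))⁻¹ * (τ ^ (2 * a + b)) ^ j := by
      rw [← pow_mul, ← zpow_natCast τ, ← zpow_natCast τ,
        ← zpow_neg, ← zpow_add₀ hτ0]
      congr 1
      push_cast [Nat.cast_sub hj]
      ring
    rw [e, inv_div, div_eq_mul_inv, mul_pow]
    have hp : τ ^ ((2 * a + 4 * b) * (j - 1)) ≠ 0 := pow_ne_zero _ hτ0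
    field_simp

/-- the arc part -/
theorem NLIM_Ys {kc : ℕ → ℂ} (hkc : Ker kc) {a b : ℕ} (hk : 1 ≤ a + b) {u : ℂ → ℂ} {R : ℝ}
    (hu : UN u R) :
    LIM_PW (a + b) (fun τ => Ys kc (dk (a + b)) (ρn a b u) τ) (-(3 * b)) (Yn a b (u 0)) := by
  have hk0 : (a : ℂ) + b ≠ 0 := by
    have : ((a + b : ℕ) : ℂ) ≠ 0 := by rw [Nat.cast_ne_zero]; omega
    exact_mod_cast this
  have k0 : kc 0 = 0 := by simpa using hkc.even 0
  have hF : DifferentiableOn ℂ (fun τ => u (τ ^ 3) ^ 3) (Metric.ball 0 R) := (LIM_du hu).pow 3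
  have hl := LIM_lim (a + b) hk R hu.pos (ρn a b u) _ (6 * (a : ℤ) + 3 * (b : ℤ)) hF (by
    intro τ hτ
    have hτ0 : τ ≠ 0 := hτ.2
    have e : τ ^ (-(6 * (a : ℤ) + 3 * (b : ℤ))) = ((τ ^ (2 * a + b)) ^ 3)⁻¹ := by
      rw [← pow_mul, ← zpow_natCast τ, ← zpow_neg]
      congr 1
      push_cast
      ring
    rw [ρn, rn, e, div_pow]
    field_simp)
  intro n
  rw [Yn, PowerSeries.coeff_mk]
  rcases n with _ | _ | n
  · simp [Ys]
  · simp [Ys, k0]
  · rw [if_neg (by omega)]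
    have hs : Tendsto (fun τ : ℂ => ∑ l ∈ Finset.range (n + 2),
        kc (n + 2 - 1 - l) * (((DD (dk (a + b)))^[l] (ρn a b u)) τ
            * τ ^ (6 * (a : ℤ) + 3 * (b : ℤ) + 3 * ((a + b : ℕ) : ℤ) * (l : ℤ))
          * τ ^ (3 * ((a + b : ℕ) : ℤ) * (n : ℤ) - 3 * ((a + b : ℕ) : ℤ) * (l : ℤ)))) (𝓝[≠] 0)
        (𝓝 (∑ l ∈ Finset.range (n + 2), if l = n then
          u 0 ^ 3 * ∏ i ∈ Finset.range n, (-(2 * (a : ℂ) + b) / (a + b) - i) else 0)) := by
      refine tendsto_finsetSum _ fun l hln => ?_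
      rw [Finset.mem_range] at hln
      rcases lt_trichotomy l n with h | h | h
      · rw [if_neg (by omega)]
        have h1 : Tendsto (fun τ : ℂ => τ ^ (3 * ((a + b : ℕ) : ℤ) * (n : ℤ) - 3 * ((a + b : ℕ) : ℤ) * (l : ℤ)))
            (𝓝[≠] 0) (𝓝 0) := by
          have e : (3 * ((a + b : ℕ) : ℤ) * (n : ℤ) - 3 * ((a + b : ℕ) : ℤ) * (l : ℤ)) = ((3 * (a + b) * (n - l) : ℕ) : ℤ) := by
            push_cast [Nat.cast_sub h.le]
            ring
          rw [e]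
          simp only [zpow_natCast]
          have hne : 3 * (a + b) * (n - l) ≠ 0 := by
            have h1 : 0 < n - l := by omega
            have h2 : 0 < a + b := by omega
            positivity
          have hc : Tendsto (fun τ : ℂ => τ ^ (3 * (a + b) * (n - l))) (𝓝 0)
              (𝓝 (0 ^ (3 * (a + b) * (n - l)))) :=
            (continuous_pow _).tendsto 0
          rw [zero_pow hne] at hc
          exact hc.mono_left nhdsWithin_le_nhds
        have h2 := ((hl l).mul h1).const_mul (kc (n + 2 - 1 - l))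
        rw [mul_zero, mul_zero] at h2
        exact h2
      · subst h
        rw [if_pos rfl]
        have e : l + 2 - 1 - l = 1 := by omega
        rw [e, hkc.one]
        have h2 := hl l
        have e2 : (∏ i ∈ Finset.range l, (-((6 * (a : ℤ) + 3 * (b : ℤ) : ℤ) : ℂ) / (3 * ((a + b : ℕ) : ℂ)) - i))
            * ((fun τ => u (τ ^ 3) ^ 3) 0)
              = u 0 ^ 3 * ∏ i ∈ Finset.range l, (-(2 * (a : ℂ) + b) / (a + b) - i) := by
          have e3 : -((6 * (a : ℤ) + 3 * (b : ℤ) : ℤ) : ℂ) / (3 * ((a + b : ℕ) : ℂ)) = -(2 * (a : ℂ) + b) / (a + b) := by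
            push_cast
            field_simp
            ring
          rw [e3]
          simp only [ne_eq, OfNat.ofNat_ne_zero, not_false_eq_true, zero_pow]
          ring
        rw [e2] at h2
        refine h2.congr fun τ => ?_
        simp
      · rw [if_neg (by omega)]
        have e : n + 2 - 1 - l = 0 := by omega
        rw [e, k0]
        simp
    rw [Finset.sum_ite_eq' (Finset.range (n + 2)) n, if_pos (by simp)] at hs
    have hs2 := hs.div_const (((n + 2).factorial : ℕ) : ℂ)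
    have e4 : n + 1 + 1 - 2 = n := by omega
    rw [e4]
    refine hs2.congr' ?_
    filter_upwards [self_mem_nhdsWithin] with τ hτ
    have hτ0 : τ ≠ 0 := hτ
    rw [Ys, PowerSeries.coeff_mk, div_mul_eq_mul_div, Finset.sum_mul]
    congr 1
    refine Finset.sum_congr rfl fun l _ => ?_
    have e : τ ^ (-(3 * (b : ℤ)) + 3 * ((a + b : ℕ) : ℤ) * ((n + 1 + 1 : ℕ) : ℤ))
        = τ ^ (6 * (a : ℤ) + 3 * (b : ℤ) + 3 * ((a + b : ℕ) : ℤ) * (l : ℤ))
          * τ ^ (3 * ((a + b : ℕ) : ℤ) * (n : ℤ) - 3 * ((a + b : ℕ) : ℤ) * (l : ℤ)) := by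
      rw [← zpow_add₀ hτ0]
      congr 1
      push_cast
      ring
    rw [e]
    ring

theorem tNLIM : StNLIM := by
  intro kc hkc a b u R ha hab hu g G hFI hP J hJ
  have hk : 1 ≤ a + b := by omega
  have hz : Tendsto (fun τ : ℂ => Cf kc (dk (a + b)) (ρn a b u) (rn a b u) g J (2 * J + 1) τ
      * τ ^ (-(2 * (a : ℤ) + 4 * b) + 3 * ((a + b : ℕ) : ℤ) * ((2 * J + 1 : ℕ) : ℤ))) (𝓝[≠] 0) (𝓝 0) := by
    refine tendsto_const_nhds.congr' ?_
    filter_upwards [LIM_V3_nhds hu.pos] with τ hτ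
    rw [hFI.law J hJ τ hτ, zero_mul]
  have hl : Tendsto (fun τ : ℂ => Cf kc (dk (a + b)) (ρn a b u) (rn a b u) g J (2 * J + 1) τ
      * τ ^ (-(2 * (a : ℤ) + 4 * b) + 3 * ((a + b : ℕ) : ℤ) * ((2 * J + 1 : ℕ) : ℤ))) (𝓝[≠] 0)
      (𝓝 (PowerSeries.coeff (2 * J + 1) (∑ j ∈ Finset.Icc 1 J,
        PowerSeries.C (G j 0 * ((u 0)⁻¹) ^ j)
          * binS ((2 * (a : ℂ) + 4 * b - 3 * b * j) / (3 * (a + b)))
            * (Yn a b (u 0)) ^ j))) := by
    rw [map_sum]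
    have hs := tendsto_finsetSum (Finset.Icc 1 J) fun j (hj : j ∈ Finset.Icc 1 J) =>
      LIM_mul (NLIM_Es hk hu g (G j) j (Finset.mem_Icc.1 hj).1 (hP j (Finset.mem_Icc.1 hj).1))
        (LIM_pow (NLIM_Ys hkc hk hu) j) (2 * J + 1)
    refine hs.congr fun τ => ?_
    rw [Cf, map_sum, Finset.sum_mul]
    refine Finset.sum_congr rfl fun j _ => ?_
    have e : (3 * (b : ℤ) * j - (2 * a + 4 * b) + (j : ℤ) * (-(3 * b))
        + 3 * ((a + b : ℕ) : ℤ) * ((2 * J + 1 : ℕ) : ℤ))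
          = -(2 * (a : ℤ) + 4 * b) + 3 * ((a + b : ℕ) : ℤ) * ((2 * J + 1 : ℕ) : ℤ) := by
      ring
    rw [e, Tm]
  exact tendsto_nhds_unique hl hz

end H719FX
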