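import Pool.Agent.H719R4.FX.Neg
import Pool.Agent.H738R3.CZ.R5

set_option autoImplicit false

/-!
# Task NRR: from the formal relation to the relation for the sum.
-/

open Complex Set Filter Topology

namespace H719FX

open H738CZ

theorem NRR_pow (n : ℕ) : ∃ r : ℂ → ℂ, Continuous r ∧
    ∀ x : ℂ, x ^ n = 1 + n * (x - 1) + (x - 1) ^ 2 * r x := by
  induction n with
  | zero => exact ⟨fun _ => 0, continuous_const, fun x => by simp⟩
  | succ n ih =>
    obtain ⟨r, hr, h⟩ := ih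
    refine ⟨fun x => x * r x + n, by fun_prop, fun x => ?_⟩
    rw [pow_succ, h x]
    push_cast
    ring

theorem NRR_Bn (a b : ℕ) (ha : 1 ≤ a) : ∃ r : ℂ → ℂ, ContinuousAt r 1 ∧
    ∀ x : ℂ, x ≠ 0 → Bn a b x = (x - 1) ^ 2 * r x := by
  obtain ⟨r, hr, h⟩ := NRR_pow a
  obtain ⟨r', hr', h'⟩ := NRR_pow b
  have hk0 : (a : ℂ) + b ≠ 0 := by exact_mod_cast (by omega : a + b ≠ 0)
  refine ⟨fun x => (a : ℂ) * b / (a + b) * x⁻¹ + (b : ℂ) / (a + b) * ((x⁻¹) ^ 2 * r x⁻¹) +
    (a : ℂ) / (a + b) * r' x, ?_, fun x hx => ?_⟩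
  · have hi : ContinuousAt (fun x : ℂ => x⁻¹) 1 := continuousAt_inv₀ one_ne_zero
    have hri : ContinuousAt (fun x : ℂ => r x⁻¹) 1 :=
      ContinuousAt.comp (g := r) (f := fun x : ℂ => x⁻¹) hr.continuousAt hi
    exact ((continuousAt_const.mul hi).add (continuousAt_const.mul ((hi.pow 2).mul hri))).add
      (continuousAt_const.mul hr'.continuousAt)
  · rw [Bn, h x⁻¹, h' x]
    field_simp
    ring

theorem NRR_Bn_one (a b : ℕ) (ha : 1 ≤ a) : Bn a b 1 = 0 := by
  obtain ⟨r, _, h⟩ := NRR_Bn a b ha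
  rw [h 1 one_ne_zero]
  simp

theorem NRR_ne0 : ∀ᶠ x in 𝓝 (1 : ℂ), x ≠ 0 := isOpen_ne.mem_nhds one_ne_zero

theorem NRR_Bn_O (a b : ℕ) (ha : 1 ≤ a) :
    (fun x : ℂ => Bn a b x) =O[𝓝 1] fun x => (x - 1) ^ 2 := by
  obtain ⟨r, hr, h⟩ := NRR_Bn a b ha
  have h1 : r =O[𝓝 1] (fun _ => (1 : ℂ)) := hr.isBigO_one ℂ
  have h2 := (Asymptotics.isBigO_refl (fun x : ℂ => (x - 1) ^ 2) (𝓝 1)).mul h1
  simp only [mul_one] at h2
  refine h2.congr' ?_ (Eventually.of_forall fun x => rfl)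
  filter_upwards [NRR_ne0] with x hx
  exact (h x hx).symm

theorem NRR_Mon_one (k : ℕ) : Mon k 1 = 1 := by
  unfold Mon
  norm_num

theorem NRR_inv_an : AnalyticAt ℂ (fun x : ℂ => x⁻¹) 1 := analyticAt_id.inv one_ne_zero

theorem NRR_log_an (k : ℕ) : AnalyticAt ℂ (fun x : ℂ => log (2 - (x⁻¹) ^ k)) 1 := by
  apply AnalyticAt.clog
  · exact analyticAt_const.sub (NRR_inv_an.pow k)
  · norm_num

theorem NRR_Mon_an (k : ℕ) : AnalyticAt ℂ (Mon k) 1 := by
  have h : Mon k = fun s : ℂ => cexp (-(log (2 - (s⁻¹) ^ k) * ((k : ℂ))⁻¹)) := by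
    funext s
    unfold Mon
    rw [div_eq_mul_inv]
  rw [h]
  exact (((NRR_log_an k).mul analyticAt_const).neg).cexp

theorem NRR_Mon_O (k : ℕ) : (fun x : ℂ => Mon k x - 1) =O[𝓝 1] fun x => (x - 1) := by
  have h := (NRR_Mon_an k).differentiableAt.isBigO_sub
  rw [NRR_Mon_one] at h
  exact h

theorem NRR_BMon_O (a b k : ℕ) (ha : 1 ≤ a) :
    (fun x : ℂ => Bn a b (Mon k x)) =O[𝓝 1] fun x => (x - 1) ^ 2 := by
  have h1 : Tendsto (Mon k) (𝓝 1) (𝓝 1) := by
    have := (NRR_Mon_an k).continuousAt.tendsto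
    rwa [NRR_Mon_one] at this
  have h2 := (NRR_Bn_O a b ha).comp_tendsto h1
  exact h2.trans ((NRR_Mon_O k).pow 2)

theorem NRR_Mcn_an (a b : ℕ) : AnalyticAt ℂ (Mcn a b) 1 := by
  have h : Mcn a b = fun s : ℂ => cexp ((2 * (a : ℂ) + 4 * b) / 3 *
      (log s + log (2 - (s⁻¹) ^ (a + b)) * ((a : ℂ) + b)⁻¹)) := by
    funext s
    unfold Mcn
    rw [div_eq_mul_inv (log _)]
  rw [h]
  apply AnalyticAt.cexp
  apply AnalyticAt.mul analyticAt_const
  apply AnalyticAt.add
  · exact analyticAt_id.clog (by simp)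
  · exact (NRR_log_an (a + b)).mul analyticAt_const

theorem NRR_Bn_an (a b : ℕ) : AnalyticAt ℂ (fun x => Bn a b x) 1 := by
  unfold Bn
  exact ((analyticAt_const.mul (NRR_inv_an.pow a)).add
    (analyticAt_const.mul (analyticAt_id.pow b))).sub analyticAt_const

theorem tNRR : StNRR := by
  intro a b α C ha hab hrel hα0
  set K : ℝ := |C| + 1 with hKdef
  have hK : 1 ≤ K := by have := abs_nonneg C; linarith
  have hK0 : 0 < K := by linarith
  have hα : ∀ j, 1 ≤ j → ‖α j‖ ≤ K ^ j := by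
    intro j hj
    have hC : ‖α j‖ ≤ |C| ^ j := by
      calc ‖α j‖ ≤ C ^ j := hα0 j hj
        _ ≤ |C ^ j| := le_abs_self _
        _ = |C| ^ j := abs_pow _ _
    exact hC.trans (pow_le_pow_left₀ (abs_nonneg C) (by linarith) j)
  have hR : (0 : ℝ) < (2 * K)⁻¹ := by positivity
  have hdiff := R5_diff α K hK hα
  have hF0 : R5_F α 0 = 0 := by
    have := R5_rem α K hK hα 0 (by simp; positivity) 1 le_rfl
    simpa using this
  have hFan : AnalyticAt ℂ (R5_F α) 0 :=
    hdiff.analyticAt (Metric.ball_mem_nhds 0 hR)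
  -- remainders
  have hremO : ∀ N : ℕ, 1 ≤ N → ∀ u : ℂ → ℂ, ContinuousAt u 1 → u 1 = 0 →
      (u =O[𝓝 1] fun x => (x - 1) ^ 2) →
      (fun x => R5_F α (u x) - ∑ j ∈ Finset.Ico 1 N, α j * u x ^ j) =O[𝓝 1]
        fun x => (x - 1) ^ (2 * N) := by
    intro N hN u hu hu1 huO
    have hsmall : ∀ᶠ x in 𝓝 (1 : ℂ), ‖u x‖ ≤ (2 * K)⁻¹ := by
      have h := hu.norm.tendsto
      simp only [hu1, norm_zero] at h
      exact (h.eventually_lt_const hR).mono fun x hx => hx.le
    have h1 : (fun x => R5_F α (u x) - ∑ j ∈ Finset.Ico 1 N, α j * u x ^ j) =O[𝓝 1]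
        fun x => u x ^ N := by
      apply Asymptotics.IsBigO.of_bound (K ^ N * 2)
      filter_upwards [hsmall] with x hx
      refine (R5_rem α K hK hα (u x) hx N hN).trans (le_of_eq ?_)
      rw [norm_pow, mul_pow]; ring
    refine h1.trans ?_
    have h2 := huO.pow N
    simpa [← pow_mul] using h2
  refine ⟨(2 * K)⁻¹, R5_F α, hR, hdiff, hF0, ?_, ?_⟩
  · -- derivative at zero
    have h1 : HasDerivAt (R5_F α) (α 1) 0 := by
      rw [hasDerivAt_iff_isLittleO]
      have h2 : (fun q : ℂ => R5_F α q - R5_F α 0 - (q - 0) • α 1) =O[𝓝 0] fun q => (q - 0) ^ 2 := by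
        apply Asymptotics.IsBigO.of_bound (K ^ 2 * 2)
        have hsmall : ∀ᶠ q in 𝓝 (0 : ℂ), ‖q‖ ≤ (2 * K)⁻¹ := by
          filter_upwards [Metric.ball_mem_nhds (0 : ℂ) hR] with q hq
          rw [mem_ball_zero_iff] at hq
          exact hq.le
        filter_upwards [hsmall] with q hq
        have h3 := R5_rem α K hK hα q hq 2 (by norm_num)
        rw [hF0]
        have e : R5_F α q - 0 - (q - 0) • α 1 =
            R5_F α q - ∑ j ∈ Finset.Ico 1 2, α j * q ^ j := by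
          simp; ring
        rw [e]
        refine h3.trans (le_of_eq ?_)
        rw [norm_pow, sub_zero, mul_pow]; ring
      refine h2.trans_isLittleO ?_
      have h4 : (fun q : ℂ => q ^ 2) =o[𝓝 0] fun q => q ^ 1 :=
        Asymptotics.isLittleO_pow_pow (by norm_num)
      simpa using h4
    exact h1.deriv
  · -- the relation
    have hBan := NRR_Bn_an a b
    have hBMan : AnalyticAt ℂ (fun x => Bn a b (Mon (a + b) x)) 1 := by
      have h : AnalyticAt ℂ (Bn a b) (Mon (a + b) 1) := by rw [NRR_Mon_one]; exact hBan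
      exact h.comp (NRR_Mon_an (a + b))
    have hBM1 : Bn a b (Mon (a + b) 1) = 0 := by rw [NRR_Mon_one, NRR_Bn_one a b ha]
    have hD : AnalyticAt ℂ
        (fun x => R5_F α (Bn a b x) - Mcn a b x * R5_F α (Bn a b (Mon (a + b) x))) 1 := by
      apply AnalyticAt.sub
      · have h : AnalyticAt ℂ (R5_F α) (Bn a b 1) := by rw [NRR_Bn_one a b ha]; exact hFan
        exact AnalyticAt.comp (g := R5_F α) (f := fun x => Bn a b x) h hBan
      · apply (NRR_Mcn_an a b).mul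
        have h : AnalyticAt ℂ (R5_F α) (Bn a b (Mon (a + b) 1)) := by rw [hBM1]; exact hFan
        exact AnalyticAt.comp (g := R5_F α) (f := fun x => Bn a b (Mon (a + b) x)) h hBMan
    have hflat := R5_flat _ 1 hD ?_
    · filter_upwards [hflat] with x hx
      exact sub_eq_zero.mp hx
    intro N hN
    have h1 := hremO N hN (fun x => Bn a b x) hBan.continuousAt (NRR_Bn_one a b ha)
      (NRR_Bn_O a b ha)
    have h2 := hremO N hN (fun x => Bn a b (Mon (a + b) x)) hBMan.continuousAt hBM1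
      (NRR_BMon_O a b (a + b) ha)
    have h3 : (fun x => Mcn a b x * (R5_F α (Bn a b (Mon (a + b) x)) -
        ∑ j ∈ Finset.Ico 1 N, α j * Bn a b (Mon (a + b) x) ^ j)) =O[𝓝 1]
        fun x => (x - 1) ^ (2 * N) := by
      have h4 := ((NRR_Mcn_an a b).continuousAt.isBigO_one ℂ).mul h2
      simpa using h4
    have h5 : (fun x : ℂ => ∑ j ∈ Finset.Ico 1 N, α j * Bn a b x ^ j
      - Mcn a b x * ∑ j ∈ Finset.Ico 1 N, α j * Bn a b (Mon (a + b) x) ^ j)
        =O[𝓝 1] fun x => (x - 1) ^ (2 * N) := by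
      refine (hrel N).trans ?_
      apply Asymptotics.IsBigO.of_bound 1
      have hball : ∀ᶠ x in 𝓝 (1 : ℂ), ‖x - 1‖ ≤ 1 := by
        filter_upwards [Metric.ball_mem_nhds (1 : ℂ) one_pos] with x hx
        rw [Metric.mem_ball, dist_eq_norm] at hx
        exact hx.le
      filter_upwards [hball] with x hx
      rw [norm_pow, norm_pow, one_mul]
      exact pow_le_pow_of_le_one (norm_nonneg _) hx (by omega)
    have h6 := (h1.sub h3).add h5
    refine h6.congr_left ?_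
    intro x
    ring

end H719FX
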