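import Pool.Agent.H719R4.FX.Neg

/-!
# Places at infinity: the model has no convergent solution
-/

open Complex Set Filter Topology

namespace H719FX

open H738CZ

theorem NS5_Bn_one (a b : ℕ) (ha : 1 ≤ a) : Bn a b 1 = 0 := by
  have hk0 : (a : ℂ) + b ≠ 0 := by
    have : a + b ≠ 0 := by omega
    exact_mod_cast this
  unfold Bn
  simp only [inv_one, one_pow, mul_one]
  field_simp
  ring

theorem NS5_Bn_tendsto (a b : ℕ) (ha : 1 ≤ a) : Tendsto (Bn a b) (𝓝 1) (𝓝 0) := by
  have hi : ContinuousAt (fun s : ℂ => s⁻¹) 1 := continuousAt_inv₀ one_ne_zero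
  have h : ContinuousAt (Bn a b) 1 := by
    unfold Bn
    exact ((continuousAt_const.mul (hi.pow a)).add
      (continuousAt_const.mul (continuousAt_id.pow b))).sub continuousAt_const
  have h2 := h.tendsto
  rwa [NS5_Bn_one a b ha] at h2

theorem NS5_Mon_tendsto (k : ℕ) : Tendsto (Mon k) (𝓝 1) (𝓝 1) := by
  have hi : ContinuousAt (fun s : ℂ => s⁻¹) 1 := continuousAt_inv₀ one_ne_zero
  have h : ContinuousAt (Mon k) 1 := by
    unfold Mon
    refine Complex.continuous_exp.continuousAt.comp ?_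
    refine ContinuousAt.neg (ContinuousAt.div_const ?_ _)
    refine ContinuousAt.clog (continuousAt_const.sub (hi.pow k)) ?_
    simp only [inv_one, one_pow]
    norm_num
  have h2 := h.tendsto
  have h3 : Mon k 1 = 1 := by
    unfold Mon
    simp only [inv_one, one_pow]
    norm_num
  rwa [h3] at h2

theorem tNS5 (hRR : StNRR) (hEE : StNEE) (hG1 : StNG1) (hG2 : StNG2) : StNS5 := by
  intro a b α C ha hab hrel hα
  by_contra hne
  obtain ⟨R, F, hR, hF, hF0, hdF, hRel⟩ := hRR a b α C ha hab hrel hα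
  obtain ⟨F', hF', hEq⟩ := hEE a b F R ha hab hR hF hRel
  have hball : Metric.ball (0 : ℂ) R ∈ 𝓝 (0:ℂ) := Metric.ball_mem_nhds _ hR
  have hB := NS5_Bn_tendsto a b ha
  have hRel' : Rel1N a b F' := by
    unfold Rel1N at hRel ⊢
    filter_upwards [hRel, hB.eventually hball,
      (hB.comp (NS5_Mon_tendsto (a + b))).eventually hball] with x h1 h2 h3
    have e2 : F' (Bn a b x) = F (Bn a b x) := hEq h2
    have e3 : F' (Bn a b (Mon (a + b) x)) = F (Bn a b (Mon (a + b) x)) := hEq h3
    rw [e2, e3, h1]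
  have hc := hG1 a b F' ha hab hF' hRel'
  have hd : deriv F' 0 = α 1 := by
    rw [← hdF]
    exact (hEq.eventuallyEq_of_mem hball).deriv_eq
  have h0 : F' 0 = 0 := (hEq (Metric.mem_ball_self hR)).trans hF0
  refine hG2 a b ha hab ?_
  unfold Rel1N at hRel' ⊢
  filter_upwards [hRel'] with x hx
  rw [hc (Bn a b x), hc (Bn a b (Mon (a + b) x)), hd, h0, zero_add, zero_add] at hx
  refine mul_left_cancel₀ hne ?_
  rw [hx]
  ring

end H719FX
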