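import Pool.Agent.H719R4.FX.Neg
import Pool.Agent.H738R3.CZ.TE

open Complex Set Filter Topology

namespace H719FX

open H738CZ

/-- derivative of `Mon` -/
lemma NTE_dMon (k : ℕ) (hk : 1 ≤ k) (s : ℂ) (hs0 : s ≠ 0) (hs : 2 - (s⁻¹) ^ k ∈ slitPlane) :
    HasDerivAt (Mon k) (-(Mon k s * (s⁻¹) ^ (k + 1) / (2 - (s⁻¹) ^ k))) s := by
  have hne : 2 - (s⁻¹) ^ k ≠ 0 := slitPlane_ne_zero hs
  have hk0 : (k : ℂ) ≠ 0 := by
    have : k ≠ 0 := by omega
    exact_mod_cast this
  have d0 := hasDerivAt_inv hs0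
  have d1 := (d0.fun_pow k).const_sub 2
  have d2 := d1.clog hs
  have d3 := (d2.div_const (k : ℂ)).fun_neg.cexp
  have e : -(Mon k s * (s⁻¹) ^ (k + 1) / (2 - (s⁻¹) ^ k)) =
      cexp (-(log (2 - (s⁻¹) ^ k) / k)) *
        -(-(k * (s⁻¹) ^ (k - 1) * -(s ^ 2)⁻¹) / (2 - (s⁻¹) ^ k) / k) := by
    have e1 : (s⁻¹) ^ (k + 1) = (s⁻¹) ^ (k - 1) * (s ^ 2)⁻¹ := by
      rw [← inv_pow, ← pow_add]
      congr 1
      omega
    rw [e1, Mon]
    field_simp
  rw [e]
  exact d3

/-- derivative of `Bn` -/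
lemma NTE_dB (a b : ℕ) (ha : 1 ≤ a) (hb : 1 ≤ b) (s : ℂ) (hs0 : s ≠ 0) :
    HasDerivAt (Bn a b) (Bnd a b s) s := by
  have d0 := hasDerivAt_inv hs0
  have d1 := (d0.fun_pow a).const_mul ((b : ℂ) / (a + b))
  have d2 := (hasDerivAt_pow b s).const_mul ((a : ℂ) / (a + b))
  have d3 := (d1.fun_add d2).sub_const 1
  have e : Bnd a b s = (b : ℂ) / (a + b) * (a * (s⁻¹) ^ (a - 1) * -(s ^ 2)⁻¹) +
      (a : ℂ) / (a + b) * (b * s ^ (b - 1)) := by
    have e1 : (s⁻¹) ^ (a - 1) * (s ^ 2)⁻¹ = (s⁻¹) ^ (a + 1) := by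
      rw [← inv_pow, ← pow_add]
      congr 1
      omega
    have e2 : s ^ (a + b) * (s⁻¹) ^ (a + 1) = s ^ (b - 1) := by
      have e3 : s ^ (a + b) = s ^ (b - 1) * s ^ (a + 1) := by
        rw [← pow_add]
        congr 1
        omega
      rw [e3, mul_assoc, ← mul_pow, mul_inv_cancel₀ hs0, one_pow, mul_one]
    rw [Bnd]
    linear_combination ((b : ℂ) / (a + b) * a) * e1 + ((a : ℂ) * b / (a + b)) * e2
  rw [e]
  exact d3

/-- derivative of `Bn ∘ Mon` -/
lemma NTE_dBM (a b : ℕ) (ha : 1 ≤ a) (hb : 1 ≤ b) (s : ℂ) (hs0 : s ≠ 0)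
    (hs : 2 - (s⁻¹) ^ (a + b) ∈ slitPlane) :
    HasDerivAt (fun y => Bn a b (Mon (a + b) y))
      (Bnd a b s * (Mon (a + b) s / s) ^ (a + 2 * b)) s := by
  have hne : 2 - (s⁻¹) ^ (a + b) ≠ 0 := slitPlane_ne_zero hs
  have hk0 : ((a + b : ℕ) : ℂ) ≠ 0 := by
    have : a + b ≠ 0 := by omega
    exact_mod_cast this
  have hM0 : Mon (a + b) s ≠ 0 := Complex.exp_ne_zero _
  have d1 := (NTE_dB a b ha hb (Mon (a + b) s) hM0).comp s (NTE_dMon (a + b) (by omega) s hs0 hs)
  have hMk : Mon (a + b) s ^ (a + b) * (2 - (s⁻¹) ^ (a + b)) = 1 := by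
    have h1 : Mon (a + b) s ^ (a + b) = (2 - (s⁻¹) ^ (a + b))⁻¹ := by
      rw [Mon, ← Complex.exp_nat_mul]
      have : ((a + b : ℕ) : ℂ) * -(log (2 - (s⁻¹) ^ (a + b)) / ((a + b : ℕ) : ℂ)) =
        -log (2 - (s⁻¹) ^ (a + b)) := by field_simp
      rw [this, Complex.exp_neg, Complex.exp_log hne]
    rw [h1, inv_mul_cancel₀ hne]
  have hinv : (2 - (s⁻¹) ^ (a + b))⁻¹ = Mon (a + b) s ^ (a + b) :=
    (eq_inv_of_mul_eq_one_left hMk).symm
  have e : Bnd a b s * (Mon (a + b) s / s) ^ (a + 2 * b) =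
      Bnd a b (Mon (a + b) s) *
        -(Mon (a + b) s * (s⁻¹) ^ (a + b + 1) / (2 - (s⁻¹) ^ (a + b))) := by
    rw [div_eq_mul_inv (Mon (a + b) s * (s⁻¹) ^ (a + b + 1)), hinv, Bnd, Bnd,
      div_eq_mul_inv (Mon (a + b) s) s]
    have h1 : (Mon (a + b) s)⁻¹ * Mon (a + b) s = 1 := inv_mul_cancel₀ hM0
    have h2 : ((Mon (a + b) s)⁻¹) ^ a * Mon (a + b) s ^ a = 1 := by
      rw [← mul_pow, h1, one_pow]
    have h4 : (s⁻¹) ^ (a + b) * s ^ (a + b) = 1 := by
      rw [← mul_pow, inv_mul_cancel₀ hs0, one_pow]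
    have h3 := hMk
    generalize Mon (a + b) s = M at *
    generalize s⁻¹ = v at *
    generalize hS : s ^ (a + b) = S at *
    generalize M⁻¹ = m at *
    have p1 : M ^ (a + b) = M ^ a * M ^ b := pow_add _ _ _
    have p2 : v ^ (a + b) = v ^ a * v ^ b := pow_add _ _ _
    have p3 : (M * v) ^ (a + 2 * b) = M ^ a * (M ^ b) ^ 2 * (v ^ a * (v ^ b) ^ 2) := by
      rw [mul_pow, pow_add, pow_add, mul_comm 2 b, pow_mul, pow_mul]
    have p4 : v ^ (a + b + 1) = v ^ a * v ^ b * v := by rw [pow_succ, pow_add]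
    have p5 : v ^ (a + 1) = v ^ a * v := pow_succ _ _
    have p6 : m ^ (a + 1) = m ^ a * m := pow_succ _ _
    rw [p1, p3, p4, p5, p6]
    rw [p1, p2] at h3
    rw [p2] at h4
    generalize v ^ a = A at *
    generalize v ^ b = B at *
    generalize M ^ a = P at *
    generalize M ^ b = R at *
    generalize m ^ a = A' at *
    generalize (a : ℂ) * b / (a + b) = c at *
    linear_combination (c * v * P * R ^ 2 * A * B) * h4 -
      (c * (1 - P * R) * A * B * v * R * A' * P) * h1 - (c * (1 - P * R) * A * B * v * R) * h2 +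
      (c * A * B * v * R) * h3
  rw [e]
  exact d1

theorem tNTE : StNTE := by
  intro a b r c1 X W ha hab hL
  have hb' : 1 ≤ b := by omega
  have hr := hL.r0
  obtain ⟨k, hk⟩ : ∃ k, k = a + b := ⟨_, rfl⟩
  have hk1 : 1 ≤ k := by omega
  have hk0 : (k : ℂ) ≠ 0 := by
    have : k ≠ 0 := by omega
    exact_mod_cast this
  have hkab : (a : ℂ) + b ≠ 0 := by
    rw [hk] at hk0
    push_cast at hk0
    exact hk0
  rw [← hk]
  have hc0 : (c1 : ℂ) ≠ 0 := by exact_mod_cast hL.c0.ne'
  have h0r : (0 : ℂ) ∈ Metric.ball (0 : ℂ) r := Metric.mem_ball_self hr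
  have hXa : AnalyticAt ℂ X 0 :=
    hL.dX.analyticAt (Metric.isOpen_ball.mem_nhds h0r)
  have hX0 := hL.X0
  have hWa := hL.aW
  have hXne : ∀ w ∈ Metric.ball (0 : ℂ) r, X w ≠ 0 := fun w hw =>
    slitPlane_ne_zero (hL.sl w hw).1
  have hsl1 : 2 - ((1 : ℂ)⁻¹) ^ k ∈ slitPlane := by
    have : 2 - ((1 : ℂ)⁻¹) ^ k = 1 := by rw [inv_one, one_pow]; norm_num
    rw [this]
    exact one_mem_slitPlane
  -- analyticity
  have hinv : AnalyticAt ℂ (fun s : ℂ => s⁻¹) 1 := analyticAt_inv one_ne_zero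
  have hLg : AnalyticAt ℂ (fun s : ℂ => log (2 - (s⁻¹) ^ k)) 1 := by
    apply AnalyticAt.clog
    · exact analyticAt_const.sub (hinv.pow k)
    · exact hsl1
  have hLs : AnalyticAt ℂ (fun s : ℂ => log s) 1 := by
    apply AnalyticAt.clog
    · exact analyticAt_id
    · exact one_mem_slitPlane
  have hMo : AnalyticAt ℂ (Mon k) 1 := by
    unfold Mon
    exact AnalyticAt.cexp (hLg.div analyticAt_const hk0).neg
  have hMo1 : Mon k 1 = 1 := by unfold Mon; norm_num
  have hMoX : AnalyticAt ℂ (fun w => Mon k (X w)) 0 := by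
    apply AnalyticAt.fun_comp (g := Mon k) (f := X) (by rw [hX0]; exact hMo) hXa
  have hWMoX : AnalyticAt ℂ (fun w => W (Mon k (X w))) 0 := by
    apply AnalyticAt.fun_comp (g := W) (f := fun w => Mon k (X w)) (by rw [hX0, hMo1]; exact hWa)
      hMoX
  have hMc : AnalyticAt ℂ (Mcn a b) 1 := by
    unfold Mcn
    rw [← hk]
    exact AnalyticAt.cexp (analyticAt_const.mul (hLs.add (hLg.div analyticAt_const hkab)))
  have hMcX : AnalyticAt ℂ (fun w => Mcn a b (X w)) 0 := by
    apply AnalyticAt.fun_comp (g := Mcn a b) (f := X) (by rw [hX0]; exact hMc) hXa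
  have dX : HasDerivAt X c1 0 := by
    have := hXa.differentiableAt.hasDerivAt
    rwa [hL.X1] at this
  have dMo1 : HasDerivAt (Mon k) (-1) 1 := by
    have := NTE_dMon k hk1 1 one_ne_zero hsl1
    rw [hMo1, inv_one, one_pow, one_pow] at this
    have e : (-1 : ℂ) = -(1 * 1 / (2 - 1)) := by norm_num
    rw [e]
    exact this
  have dMoX : HasDerivAt (fun w => Mon k (X w)) (-1 * c1) 0 := by
    have := HasDerivAt.comp (h₂ := Mon k) (h := X) (x := (0 : ℂ)) (h₂' := -1)
      (by rw [hX0]; exact dMo1) dX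
    exact this
  refine ⟨hWMoX.neg, hMcX, ?_, ?_⟩
  · -- the return map
    obtain ⟨M, hM⟩ : ∃ M : ℂ → ℂ, M = fun w => - W (Mon k (X w)) := ⟨_, rfl⟩
    have hMa : AnalyticAt ℂ M 0 := by rw [hM]; exact hWMoX.neg
    have hM0 : M 0 = 0 := by rw [hM]; simp only [hX0, hMo1, hL.W0, neg_zero]
    have dW : HasDerivAt W (deriv W 1) 1 := hWa.differentiableAt.hasDerivAt
    have hWc : deriv W 1 * c1 = 1 := by
      have d1 : HasDerivAt (fun w => W (X w)) (deriv W 1 * c1) 0 := by
        have := HasDerivAt.comp (h₂ := W) (h := X) (x := (0 : ℂ)) (h₂' := deriv W 1)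
          (by rw [hX0]; exact dW) dX
        exact this
      have d2 : HasDerivAt (fun w : ℂ => W (X w)) 1 0 :=
        (hasDerivAt_id (0 : ℂ)).congr_of_eventuallyEq hL.WX
      exact d1.unique d2
    have hM1 : deriv M 0 = 1 := by
      have d3 : HasDerivAt (fun w => W (Mon k (X w))) (deriv W 1 * (-1 * c1)) 0 := by
        have := HasDerivAt.comp (h₂ := W) (h := fun w => Mon k (X w)) (x := (0 : ℂ))
          (h₂' := deriv W 1) (by rw [hX0, hMo1]; exact dW) dMoX
        exact this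
      have d4 : HasDerivAt M (-(deriv W 1 * (-1 * c1))) 0 := by
        rw [hM]; exact d3.fun_neg
      rw [d4.deriv]
      linear_combination hWc
    -- the function `E`
    obtain ⟨E, hE⟩ : ∃ E : ℂ → ℂ,
        E = fun w => (Mon k (X w) / X w) ^ (a + 2 * b) := ⟨_, rfl⟩
    have dE : HasDerivAt E (-(2 * ((a : ℂ) + 2 * b) * c1)) 0 := by
      have d1 := (dMoX.fun_div dX (hXne 0 h0r)).fun_pow (a + 2 * b)
      have e : (-(2 * ((a : ℂ) + 2 * b) * c1) : ℂ) = ((a + 2 * b : ℕ) : ℂ) *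
          (Mon k (X 0) / X 0) ^ (a + 2 * b - 1) *
          ((-1 * c1 * X 0 - Mon k (X 0) * c1) / X 0 ^ 2) := by
        rw [hX0, hMo1]
        push_cast
        simp only [div_one, one_pow]
        ring
      rw [hE, e]
      exact d1
    -- `M² = Bn (Mon (X w))`
    have hBW : ∀ᶠ x in 𝓝 (1 : ℂ), Bn a b x = W x ^ 2 := by
      have h1 : ∀ᶠ x in 𝓝 (1 : ℂ), W x ∈ Metric.ball (0 : ℂ) r := by
        apply hWa.continuousAt.eventually
        rw [hL.W0]
        exact Metric.isOpen_ball.mem_nhds h0r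
      filter_upwards [h1, hL.XW] with x hx1 hx2
      have := hL.BX (W x) hx1
      rwa [hx2] at this
    have hMsq : ∀ᶠ w in 𝓝 (0 : ℂ), Bn a b (Mon k (X w)) = M w ^ 2 := by
      have h1 : Tendsto (fun w => Mon k (X w)) (𝓝 0) (𝓝 1) := by
        have := hMoX.continuousAt.tendsto
        rwa [hX0, hMo1] at this
      filter_upwards [h1.eventually hBW] with w hw
      rw [hw, hM, neg_sq]
    -- the differential equation
    have hODE : ∀ᶠ w in 𝓝 (0 : ℂ), M w * deriv M w = w * E w := by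
      filter_upwards [hMsq.eventually_nhds, Metric.isOpen_ball.mem_nhds h0r,
        hMa.eventually_analyticAt] with w hw1 hwr hMw
      have hXw : HasDerivAt X (deriv X w) w :=
        ((hL.dX w hwr).differentiableAt (Metric.isOpen_ball.mem_nhds hwr)).hasDerivAt
      have d1 : HasDerivAt (fun w => Bn a b (X w)) (Bnd a b (X w) * deriv X w) w :=
        (NTE_dB a b ha hb' (X w) (hXne w hwr)).comp w hXw
      have d2 : HasDerivAt (fun w => Bn a b (X w)) (2 * w) w := by
        have h1 : HasDerivAt (fun w : ℂ => w ^ 2) (2 * w) w := by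
          have := hasDerivAt_pow 2 w
          simpa using this
        refine h1.congr_of_eventuallyEq ?_
        filter_upwards [Metric.isOpen_ball.mem_nhds hwr] with v hv
        exact hL.BX v hv
      have e1 := d1.unique d2
      have d3 : HasDerivAt (fun w => Bn a b (Mon k (X w)))
          (Bnd a b (X w) * (Mon k (X w) / X w) ^ (a + 2 * b) * deriv X w) w := by
        have h1 := NTE_dBM a b ha hb' (X w) (hXne w hwr) (hL.sl w hwr).2
        rw [← hk] at h1
        exact HasDerivAt.comp (h₂ := fun y => Bn a b (Mon k y)) (h := X) w h1 hXw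
      have d4 : HasDerivAt (fun w => Bn a b (Mon k (X w))) (2 * M w * deriv M w) w := by
        have h1 : HasDerivAt (fun w : ℂ => M w ^ 2) (2 * M w * deriv M w) w := by
          have := hMw.differentiableAt.hasDerivAt.fun_pow 2
          simpa using this
        exact h1.congr_of_eventuallyEq hw1
      have e2 := d3.unique d4
      have e3 : E w = (Mon k (X w) / X w) ^ (a + 2 * b) := by rw [hE]
      rw [e3]
      linear_combination (-1 / 2 : ℂ) * e2 +
        (1 / 2 : ℂ) * (Mon k (X w) / X w) ^ (a + 2 * b) * e1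
    -- division by `w`
    obtain ⟨N, hN⟩ : ∃ N : ℂ → ℂ, N = dslope M 0 := ⟨_, rfl⟩
    have hNa : AnalyticAt ℂ N 0 := by
      obtain ⟨q, hq⟩ := hMa
      rw [hN]
      exact hq.has_fpower_series_dslope_fslope.analyticAt
    have hMN : ∀ w, M w = w * N w := by
      intro w
      have := sub_smul_dslope M 0 w
      rw [hM0, smul_eq_mul, sub_zero, sub_zero] at this
      rw [hN, this]
    have hN0 : N 0 = 1 := by rw [hN, dslope_same, hM1]
    have hNE : ∀ᶠ w in 𝓝 (0 : ℂ), N w * (N w + w * deriv N w) = E w := by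
      have hd : ∀ᶠ w in 𝓝 (0 : ℂ), deriv M w = N w + w * deriv N w := by
        filter_upwards [hNa.eventually_analyticAt] with w hw
        have h1 : M = fun w => w * N w := funext hMN
        have h2 : HasDerivAt (fun w => w * N w) (1 * N w + w * deriv N w) w :=
          (hasDerivAt_id w).fun_mul hw.differentiableAt.hasDerivAt
        rw [h1, h2.deriv, one_mul]
      have hpt : ∀ᶠ w in 𝓝[≠] (0 : ℂ), N w * (N w + w * deriv N w) = E w := by
        filter_upwards [nhdsWithin_le_nhds hd, nhdsWithin_le_nhds hODE, self_mem_nhdsWithin]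
          with w h1 h2 h3
        have h4 : w ≠ 0 := h3
        rw [h1, hMN w] at h2
        have h5 : w * (N w * (N w + w * deriv N w)) = w * E w := by linear_combination h2
        exact mul_left_cancel₀ h4 h5
      have h0 : N 0 * (N 0 + 0 * deriv N 0) = E 0 := by
        rw [hN0, hE]
        simp only [hX0, hMo1]
        norm_num
      rw [eventually_nhdsWithin_iff] at hpt
      filter_upwards [hpt] with w hw
      by_cases h : w = 0
      · rw [h]; exact h0
      · exact hw h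
    have hb : deriv N 0 = -((2 * (a : ℂ) + 4 * b) / 3 * c1) := by
      have dN : HasDerivAt N (deriv N 0) 0 := hNa.differentiableAt.hasDerivAt
      have dN' : HasDerivAt (deriv N) (deriv (deriv N) 0) 0 :=
        hNa.deriv.differentiableAt.hasDerivAt
      have d1 := dN.fun_mul (dN.fun_add ((hasDerivAt_id (0 : ℂ)).fun_mul dN'))
      have d2 : HasDerivAt (fun w => N w * (N w + w * deriv N w))
          (-(2 * ((a : ℂ) + 2 * b) * c1)) 0 :=
        dE.congr_of_eventuallyEq hNE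
      have e1 := HasDerivAt.unique d1 d2
      rw [hN0] at e1
      simp only [id] at e1
      linear_combination (1 / 3 : ℂ) * e1
    obtain ⟨b', g, hg, hNT⟩ := TE_T N 0 hNa
    have hfin : (fun w : ℂ => - W (Mon k (X w)) - (w - ((2 * (a : ℂ) + 4 * b) / 3 * c1) * w ^ 2)) =
        fun w => w ^ 3 * (b' + w * g w) := by
      funext w
      have e1 : - W (Mon k (X w)) = M w := by rw [hM]
      rw [e1, hMN w, hNT w, hN0, hb]
      ring
    rw [hfin]
    have : (fun w : ℂ => w ^ 3 * (b' + w * g w)) =O[𝓝 0] (fun w => w ^ 3 * (1 : ℂ)) := by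
      refine (Asymptotics.isBigO_refl _ _).mul ?_
      have : ContinuousAt (fun w => b' + w * g w) 0 :=
        continuousAt_const.add (continuousAt_id.mul hg)
      exact this.tendsto.isBigO_one ℂ
    simpa using this
  · obtain ⟨b', g, hg, hF⟩ := TE_T (fun w => Mcn a b (X w)) 0 hMcX
    have h1 : Mcn a b (X 0) = 1 := by
      rw [hX0]; unfold Mcn; norm_num
    have h2 : deriv (fun w => Mcn a b (X w)) 0 = 2 * ((2 * (a : ℂ) + 4 * b) / 3 * c1) := by
      have dI : HasDerivAt (fun w => (X w)⁻¹) (-(c1 : ℂ) / X 0 ^ 2) 0 :=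
        dX.fun_inv (hXne 0 h0r)
      have dQ := (dI.fun_pow k).const_sub 2
      have dL := dQ.clog (by
        have := (hL.sl 0 h0r).2
        rwa [← hk] at this)
      have dS := dX.clog (hL.sl 0 h0r).1
      have d3 := ((dS.fun_add (dL.div_const ((a : ℂ) + b))).const_mul
        ((2 * (a : ℂ) + 4 * b) / 3)).cexp
      have e1 : (fun w => Mcn a b (X w)) = fun w => cexp ((2 * (a : ℂ) + 4 * b) / 3 *
          (log (X w) + log (2 - (X w)⁻¹ ^ k) / (a + b))) := by
        funext w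
        rw [Mcn, ← hk]
      rw [e1, d3.deriv, hX0]
      have hkc : (k : ℂ) = a + b := by rw [hk]; push_cast; rfl
      simp only [inv_one, one_pow, hkc]
      norm_num
      field_simp
      ring
    simp only [h1, h2] at hF
    have : (fun w : ℂ => Mcn a b (X w) - (1 + 2 * ((2 * (a : ℂ) + 4 * b) / 3 * c1) * w))
        =O[𝓝 0] (fun w => w ^ 2 * (1 : ℂ)) := by
      have e : (fun w : ℂ => Mcn a b (X w) - (1 + 2 * ((2 * (a : ℂ) + 4 * b) / 3 * c1) * w))
        = fun w => w ^ 2 * (b' + w * g w) := by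
        funext w
        rw [hF w]; ring
      rw [e]
      refine (Asymptotics.isBigO_refl _ _).mul ?_
      have : ContinuousAt (fun w => b' + w * g w) 0 :=
        continuousAt_const.add (continuousAt_id.mul hg)
      exact this.tendsto.isBigO_one ℂ
    simpa using this

end H719FX
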