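import Pool.Agent.H719R4.FX.Neg

/-!
Task NTT: contraction along trajectories.
-/

open Complex Set Filter Topology

namespace H719FX

open H738CZ

/-- the factor in the derivative of `Bn ∘ Mon` -/
noncomputable def NTT_fac (a b : ℕ) (s : ℂ) : ℂ := (Mon (a + b) s / s) ^ (a + 2 * b)

theorem NTT_fac_le (a b : ℕ) (s : ℂ) (h : ‖Mon (a + b) s‖ ≤ 1) (h' : 1 ≤ ‖s‖) :
    ‖NTT_fac a b s‖ ≤ 1 := by
  unfold NTT_fac
  rw [norm_pow, norm_div]
  apply pow_le_one₀ (by positivity)
  rw [div_le_one (by linarith)]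
  linarith

theorem tNTT (hVA : StNVA) (hVB : StNVB) : StNTT := by
  intro a b x0 x ha hab hT hne hlt s hs
  have hA := hVA a b ha hab
  have hB := hVB a b ha hab
  set φ : ℝ → ℂ := fun s => Bn a b (Mon (a + b) (x s)) with hφ
  have hder : ∀ t, 0 ≤ t →
      HasDerivWithinAt φ (NTT_fac a b (x t) * Bn a b (x t)) (Ici 0) t := by
    intro t ht
    have hm := hT.mem t ht
    have hx0 : x t ≠ 0 := by
      intro h0
      have := hm.1
      rw [h0, norm_zero] at this
      linarith
    have h2 := hB.dM (x t) hx0 (hA.sl (x t) hm)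
    have h3 := hT.der t ht
    have h4 := h2.comp_hasDerivWithinAt t h3
    have h5 := hB.vB (x t) hm
    have h6 : Bnd a b (x t) * (Mon (a + b) (x t) / x t) ^ (a + 2 * b) *
        vfn a b (x t) = NTT_fac a b (x t) * Bn a b (x t) := by
      rw [← h5]
      unfold NTT_fac
      ring
    rw [h6] at h4
    exact h4
  have hcont : ContinuousOn φ (Icc 0 s) := by
    intro t ht
    exact ((hder t ht.1).continuousWithinAt).mono Icc_subset_Ici_self
  have hnorm : ∀ t, 0 ≤ t → ‖Bn a b (x t)‖ = Real.exp t * ‖Bn a b x0‖ := by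
    intro t ht
    rw [hT.val t ht, norm_mul, Complex.norm_real, Real.norm_eq_abs, abs_of_pos (Real.exp_pos t)]
  have key := image_norm_le_of_norm_deriv_right_le_deriv_boundary (f := φ)
    (f' := fun t => NTT_fac a b (x t) * Bn a b (x t)) (a := 0) (b := s) hcont
    (fun t ht => (hder t ht.1).mono (Ici_subset_Ici.2 ht.1))
    (B := fun t => ‖φ 0‖ + (Real.exp t - 1) * ‖Bn a b x0‖)
    (B' := fun t => Real.exp t * ‖Bn a b x0‖) (by simp)
    (fun t => by
      have := ((((Real.hasDerivAt_exp t).sub_const 1).mul_const ‖Bn a b x0‖).const_add ‖φ 0‖)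
      exact this)
    (fun t ht => by
      have h1 := hT.mem t ht.1
      rw [norm_mul, hnorm t ht.1]
      exact mul_le_of_le_one_left (by positivity) (NTT_fac_le a b (x t) (hA.mo _ h1) h1.1))
    (right_mem_Icc.2 hs)
  have h0 : φ 0 = Bn a b (Mon (a + b) x0) := by
    rw [hφ]
    simp only
    rw [hT.ini]
  rw [h0] at key
  rw [hnorm s hs]
  have h6 : ‖φ s‖ = ‖Bn a b (Mon (a + b) (x s))‖ := rfl
  rw [← h6]
  linarith

end H719FX
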