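import Pool.Agent.H719R4.FX.Neg
import Pool.Agent.H719R4.FX.WT

/-!
# NWT: pole order of the inhomogeneous term
-/

open Complex Set Filter Topology

namespace H719FX

open H738CZ

theorem tNWT : StNWT := by
  intro kc hker a b u R ha hab hU g J hJ hg hG
  have hmaps : ∀ τ ∈ Metric.ball (0 : ℂ) R, τ ^ 3 ∈ Metric.ball (0 : ℂ) (R ^ 3) := by
    intro τ hτ
    rw [mem_ball_zero_iff] at hτ ⊢
    rw [norm_pow]
    exact pow_lt_pow_left₀ hτ (norm_nonneg _) (by norm_num)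
  have hu3 : DifferentiableOn ℂ (fun τ : ℂ => u (τ ^ 3)) (Metric.ball 0 R) :=
    hU.df.comp (differentiableOn_pow 3) hmaps
  have hk : 1 ≤ a + b := by omega
  -- weights of the building blocks
  have hρ : WT_W R (3 * (2 * (a : ℤ) + b)) (ρn a b u) := by
    refine ⟨fun τ => u (τ ^ 3) ^ 3, hu3.pow 3, fun τ hτ => ?_⟩
    have h0 := WT_ne hτ
    show (u (τ ^ 3) / τ ^ (2 * a + b)) ^ 3 * τ ^ (3 * (2 * (a : ℤ) + b)) = u (τ ^ 3) ^ 3
    have e : τ ^ (3 * (2 * (a : ℤ) + b)) = (τ ^ (2 * a + b)) ^ 3 := by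
      rw [← pow_mul, show (3 * (2 * (a : ℤ) + b)) = (((2 * a + b) * 3 : ℕ) : ℤ) by
        push_cast; ring, zpow_natCast]
    have h2 : τ ^ (2 * a + b) ≠ 0 := pow_ne_zero _ h0
    rw [e]
    field_simp
  have hr : WT_W R (-(2 * (a : ℤ) + b)) (fun t => (rn a b u t)⁻¹) := by
    refine ⟨fun τ => (u (τ ^ 3))⁻¹, hu3.inv (fun τ hτ => hU.nz _ (hmaps τ hτ)), fun τ hτ => ?_⟩
    have h0 := WT_ne hτ
    have h1 := hU.nz _ (hmaps τ (WT_ball hτ))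
    show (u (τ ^ 3) / τ ^ (2 * a + b))⁻¹ * τ ^ (-(2 * (a : ℤ) + b)) = (u (τ ^ 3))⁻¹
    have e : τ ^ (-(2 * (a : ℤ) + b)) = (τ ^ (2 * a + b))⁻¹ := by
      rw [zpow_neg, show (2 * (a : ℤ) + b) = ((2 * a + b : ℕ) : ℤ) by push_cast; ring,
        zpow_natCast]
    have h3 : τ ^ (2 * a + b) ≠ 0 := pow_ne_zero _ h0
    rw [e]
    field_simp
  have hgj : ∀ j, 1 ≤ j → j < J → WT_W R ((2 * a + 4 * b) * (j - 1) : ℤ) (g j) := by
    intro j h1 h2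
    obtain ⟨G, hG1, hG2⟩ := hG j h1 h2
    refine ⟨G, hG1, fun τ hτ => ?_⟩
    rw [← hG2 τ hτ]
    congr 1
    rw [show ((2 * a + 4 * b) * (j - 1) : ℤ) = (((2 * a + 4 * b) * (j - 1) : ℕ) : ℤ) by
      push_cast [Nat.cast_sub h1]; ring, zpow_natCast]
  have hT : ∀ j ∈ Finset.Ico 1 J, WT_kP R (a + b) (-(2 * a + 4 * b : ℤ))
      (fun t => Tm kc (dk (a + b)) (ρn a b u) (rn a b u) g j t) := by
    intro j hj
    rw [Finset.mem_Ico] at hj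
    have h1 := WT_kEs hk (WT_mul (hgj j hj.1 hj.2) (WT_pow hr j))
    have h2 := WT_kPpow (WT_kYs hker hk hρ) j
    have h3 := WT_kPmul h1 h2
    have e : ((2 * a + 4 * b) * (j - 1) : ℤ) + j * (-(2 * (a : ℤ) + b)) +
        j * (3 * (2 * (a : ℤ) + b) - 6 * ((a + b : ℕ) : ℤ)) = -(2 * a + 4 * b : ℤ) := by
      push_cast
      ring
    rw [e] at h3
    exact h3
  have hL : WT_W R (-(2 * a + 4 * b : ℤ) + 3 * ((a + b : ℕ) : ℤ) * ((2 * J + 1 : ℕ) : ℤ))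
      (fun t => Lo kc (dk (a + b)) (ρn a b u) (rn a b u) g J t) := by
    have h1 := WT_sum (Finset.Ico 1 J) (fun j t => PowerSeries.coeff (2 * J + 1)
      (Tm kc (dk (a + b)) (ρn a b u) (rn a b u) g j t)) (fun j hj => hT j hj (2 * J + 1))
    refine WT_congr (fun t _ => ?_) h1
    show Lo kc (dk (a + b)) (ρn a b u) (rn a b u) g J t = _
    unfold Lo
    rw [map_sum]
  obtain ⟨F, hF1, hF2⟩ := WT_mul (WT_pow hr (2 * J)) hL
  refine ⟨F, hF1, fun τ hτ => ?_⟩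
  rw [← hF2 τ hτ]
  congr 1
  have e : (((2 * J : ℕ) : ℤ) * (-(2 * (a : ℤ) + b)) + (-(2 * a + 4 * b : ℤ) +
      3 * ((a + b : ℕ) : ℤ) * ((2 * J + 1 : ℕ) : ℤ))) =
      (((2 * a + 4 * b) * (J - 1) + 3 * (a + b) : ℕ) : ℤ) := by
    push_cast [Nat.cast_sub (show 1 ≤ J by omega)]
    ring
  rw [e, zpow_natCast]

end H719FX
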