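import Pool.Agent.H719R4.FX.Fin5j
import Pool.Agent.H719R4.FX.NRR
import Pool.Agent.H719R4.FX.NEE
import Pool.Agent.H719R4.FX.NG1
import Pool.Agent.H719R4.FX.NG2
import Pool.Agent.H719R4.FX.NPP
import Pool.Agent.H719R4.FX.NSS
import Pool.Agent.H719R4.FX.NTT
import Pool.Agent.H719R4.FX.NTE
import Pool.Agent.H719R4.FX.NWT
import Pool.Agent.H719R4.FX.NS5
import Pool.Agent.H719R4.FX.NEXT
import Pool.Agent.H719R4.FX.NPRV
import Pool.Agent.H719R4.FX.NLIM
import Pool.Agent.H719R4.FX.NMDL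
import Pool.Agent.H719R4.FX.NM4
import Pool.Agent.H719R4.FX.NINT
import Pool.Agent.H719R4.FX.NEND

/-! # Assembly: non-isotropic places at infinity -/

open Complex Set Filter Topology

namespace H719FX

open H738CZ

theorem fin_nend : StNEND := by
  obtain ⟨hCHG, hMON, hSTB, hV3C, hPAR, -, -, -, -, -⟩ := cz
  have hVA := tNVA
  have hVB := tNVB hVA
  have hFF := tNFF hVA hVB tNVC
  have hSS := tNSS tNLOC hVA hVB
  have hTT := tNTT hVA hVB
  have hPP := tNPP hVA hFF hSS hTT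
  exact tNEND (tNINT hCHG hMON) (tNEXT tNWT) (tNPRV hCHG hSTB hV3C) tNCRC tNLIM tNMDL
    (tNM4 tNLOC tNTE hPAR) (tNS5 tNRR (tNEE hPP hVA) (tNG1 hPP hVA) tNG2)

end H719FX
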