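import Pool.Agent.H719R4.FX.Rat

/-! # GRP: reparametrisation of good points -/

set_option autoImplicit false

open Complex Set Filter Topology

namespace H719FX

open H738CZ

/-- chain rule with the inverse -/
theorem GRP_aux (E e V : ℂ → ℂ) (s : ℂ) (hE : AnalyticAt ℂ E s) (he : AnalyticAt ℂ e (E s))
    (hes : e (E s) = s) (hEe : ∀ᶠ y in 𝓝 (E s), E (e y) = y) (hV : AnalyticAt ℂ V (E s)) :
    ∀ᶠ y in 𝓝 (E s), deriv V y = deriv (fun x => V (E x)) (e y) * deriv e y := by
  have hte : Tendsto e (𝓝 (E s)) (𝓝 s) := by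
    have := he.continuousAt.tendsto
    rwa [hes] at this
  filter_upwards [hEe.eventually_nhds, hte.eventually hE.eventually_analyticAt,
    he.eventually_analyticAt, hV.eventually_analyticAt] with y h1 h2 h3 h4
  have hy : E (e y) = y := h1.self_of_nhds
  have h5 : HasDerivAt (fun x => V (E x)) (deriv V y * deriv E (e y)) (e y) := by
    have h6 : HasDerivAt V (deriv V y) (E (e y)) := by
      rw [hy]
      exact h4.differentiableAt.hasDerivAt
    exact h6.comp (e y) h2.differentiableAt.hasDerivAt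
  have h7 : HasDerivAt (fun z => E (e z)) (deriv E (e y) * deriv e y) y :=
    HasDerivAt.comp y h2.differentiableAt.hasDerivAt h3.differentiableAt.hasDerivAt
  have h8 : HasDerivAt (fun z : ℂ => z) (deriv E (e y) * deriv e y) y :=
    h7.congr_of_eventuallyEq (by filter_upwards [h1] with z hz; exact hz.symm)
  have h9 := h8.unique (hasDerivAt_id y)
  rw [h5.deriv, mul_assoc, h9, mul_one]

theorem tGRP : StGRP := by
  intro Z W E s hE hE1 hZ hW hG
  obtain ⟨Φ1, ρ, hP, hGood⟩ := hG
  set e := hE.hasStrictDerivAt.localInverse _ _ _ hE1 with hedef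
  have he : AnalyticAt ℂ e (E s) := hE.analyticAt_localInverse hE1
  have hes : e (E s) = s := HasStrictFDerivAt.localInverse_apply_image ..
  have hEe : ∀ᶠ y in 𝓝 (E s), E (e y) = y :=
    HasStrictDerivAt.eventually_right_inverse hE.hasStrictDerivAt hE1
  have hte : Tendsto e (𝓝 (E s)) (𝓝 s) := by
    have := he.continuousAt.tendsto
    rwa [hes] at this
  have aΦ1 : AnalyticAt ℂ Φ1 (e (E s)) := by rw [hes]; exact hP.aΦ
  have hde : ∀ᶠ y in 𝓝 (E s), deriv (fun z => Φ1 (e z)) y = deriv Φ1 (e y) * deriv e y := by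
    filter_upwards [hte.eventually hP.aΦ.eventually_analyticAt, he.eventually_analyticAt]
      with y h1 h2
    exact (HasDerivAt.comp y h1.differentiableAt.hasDerivAt
      h2.differentiableAt.hasDerivAt).deriv
  have hne : deriv e (E s) ≠ 0 := by
    have h7 : HasDerivAt (fun z => E (e z)) (deriv E s * deriv e (E s)) (E s) := by
      have h6 : HasDerivAt E (deriv E s) (e (E s)) := by
        rw [hes]; exact hE.differentiableAt.hasDerivAt
      exact h6.comp (E s) he.differentiableAt.hasDerivAt
    have h8 : HasDerivAt (fun z : ℂ => z) (deriv E s * deriv e (E s)) (E s) :=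
      h7.congr_of_eventuallyEq (by filter_upwards [hEe] with z hz; exact hz.symm)
    have h9 := h8.unique (hasDerivAt_id (E s))
    intro h0
    rw [h0, mul_zero] at h9
    exact zero_ne_one h9
  refine ⟨fun y => Φ1 (e y), ρ, ⟨?_, ?_, ?_, ?_, ?_, ?_⟩, ?_⟩
  · exact aΦ1.comp he
  · show AnalyticAt ℂ ρ (Φ1 (e (E s)))
    rw [hes]
    exact hP.aρ
  · rw [hde.self_of_nhds, hes]
    exact mul_ne_zero hP.dΦ hne
  · show ρ (Φ1 (e (E s))) ≠ 0
    rw [hes]
    exact hP.nρ
  · filter_upwards [GRP_aux E e Z s hE he hes hEe hZ, hde, hte.eventually hP.eZ]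
      with y h1 h2 h3
    rw [h1, h2, h3]
    ring
  · filter_upwards [GRP_aux E e W s hE he hes hEe hW, hde, hte.eventually hP.eW]
      with y h1 h2 h3
    rw [h1, h2, h3]
    ring
  · show Good kcs ρ (Φ1 (e (E s)))
    rw [hes]
    exact hGood

end H719FX
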