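import Pool.Agent.H719R4.FX.Rat

/-!
# PCL: classification of places (StPCL)
-/

open Complex Set Filter Topology

namespace H719FX

open H738CZ

/-- normal form of the derivative of a meromorphic function -/
theorem PCL_form (Z : ℂ → ℂ) (t0 : ℂ) (hZ : MeromorphicAt Z t0)
    (hne : ∀ᶠ t in 𝓝[≠] t0, deriv Z t ≠ 0) :
    ((∃ Z' : ℂ → ℂ, AnalyticAt ℂ Z' t0 ∧ ∀ᶠ t in 𝓝[≠] t0, Z t = Z' t) ∧
      ∃ (n : ℕ) (f : ℂ → ℂ), AnalyticAt ℂ f t0 ∧ f t0 ≠ 0 ∧
        ∀ᶠ t in 𝓝[≠] t0, deriv Z t = (t - t0) ^ (n : ℤ) * f t) ∨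
    ∃ (n : ℕ) (f : ℂ → ℂ), 1 ≤ n ∧ AnalyticAt ℂ f t0 ∧ f t0 ≠ 0 ∧
        ∀ᶠ t in 𝓝[≠] t0, deriv Z t = (t - t0) ^ (-((n : ℤ) + 1)) * f t := by
  by_cases htop : meromorphicOrderAt Z t0 = ⊤
  · exfalso
    rw [meromorphicOrderAt_eq_top_iff] at htop
    have h1 : Z =ᶠ[𝓝[≠] t0] fun _ => (0 : ℂ) := htop
    have h2 := h1.nhdsNE_deriv
    have h3 : ∀ᶠ t in 𝓝[≠] t0, False := by
      filter_upwards [h2, hne] with t ht1 ht2
      apply ht2
      rw [ht1]
      simp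
    rw [eventually_false_iff_eq_bot] at h3
    exact (NeBot.ne inferInstance) h3
  · obtain ⟨m, hm⟩ := WithTop.ne_top_iff_exists.mp htop
    obtain ⟨g, hga, hg0, hgZ⟩ := (meromorphicOrderAt_eq_int_iff hZ).1 hm.symm
    rcases le_or_gt 0 m with hm0 | hm0
    · left
      obtain ⟨N, rfl⟩ := Int.eq_ofNat_of_zero_le hm0
      have hZ'a : AnalyticAt ℂ (fun t => (t - t0) ^ N * g t) t0 := by fun_prop
      have hZZ' : Z =ᶠ[𝓝[≠] t0] fun t => (t - t0) ^ N * g t := by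
        filter_upwards [hgZ] with t ht
        rw [ht]
        simp
      refine ⟨⟨_, hZ'a, hZZ'⟩, ?_⟩
      have hd := hZZ'.nhdsNE_deriv
      have hda : AnalyticAt ℂ (deriv fun t => (t - t0) ^ N * g t) t0 := hZ'a.deriv
      have hnz : ¬ ∀ᶠ t in 𝓝 t0, deriv (fun t => (t - t0) ^ N * g t) t = 0 := by
        intro hz
        have h3 : ∀ᶠ t in 𝓝[≠] t0, False := by
          filter_upwards [hd, hne, hz.filter_mono nhdsWithin_le_nhds] with t ht1 ht2 ht3
          apply ht2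
          rw [ht1, ht3]
        rw [eventually_false_iff_eq_bot] at h3
        exact (NeBot.ne inferInstance) h3
      obtain ⟨n, f, hfa, hf0, hf⟩ := hda.exists_eventuallyEq_pow_smul_nonzero_iff.2 hnz
      refine ⟨n, f, hfa, hf0, ?_⟩
      filter_upwards [hd, hf.filter_mono nhdsWithin_le_nhds] with t ht1 ht2
      rw [ht1, ht2]
      simp
    · right
      obtain ⟨N, hN⟩ := Int.eq_ofNat_of_zero_le (show 0 ≤ -m by omega)
      have hmN : m = -(N : ℤ) := by omega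
      subst hmN
      have hN1 : 1 ≤ N := by omega
      refine ⟨N, fun t => (-(N : ℂ)) * g t + (t - t0) * deriv g t, hN1, ?_, ?_, ?_⟩
      · have := hga.deriv
        fun_prop
      · have : (N : ℂ) ≠ 0 := by exact_mod_cast (by omega : N ≠ 0)
        simp [this, hg0]
      · have h1 : Z =ᶠ[𝓝[≠] t0] fun t => (t - t0) ^ (-(N : ℤ)) * g t := by
          filter_upwards [hgZ] with t ht
          rw [ht]
          simp
        have h2 := h1.nhdsNE_deriv
        have h4 : ∀ᶠ t in 𝓝[≠] t0, AnalyticAt ℂ g t :=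
          hga.eventually_analyticAt.filter_mono nhdsWithin_le_nhds
        filter_upwards [h2, h4, self_mem_nhdsWithin] with t ht1 ht2 ht3
        have hne' : t - t0 ≠ 0 := sub_ne_zero.2 ht3
        rw [ht1]
        have hd1 : HasDerivAt (fun t : ℂ => (t - t0) ^ (-(N : ℤ)))
            ((-(N : ℤ) : ℤ) * (t - t0) ^ (-(N : ℤ) - 1) * 1) t := by
          have := (hasDerivAt_zpow (-(N : ℤ)) (t - t0) (Or.inl hne'))
          exact HasDerivAt.comp t this ((hasDerivAt_id t).sub_const t0)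
        have hd2 : HasDerivAt g (deriv g t) t := ht2.differentiableAt.hasDerivAt
        have hd3 := (hd1.mul hd2).deriv
        have hd4 : deriv (fun t => (t - t0) ^ (-(N : ℤ)) * g t) t =
            (((-(N : ℤ) : ℤ) : ℂ) * (t - t0) ^ (-(N : ℤ) - 1) * 1) * g t
              + (t - t0) ^ (-(N : ℤ)) * deriv g t := hd3
        rw [hd4]
        have h5 : (t - t0) ^ (-(N : ℤ)) = (t - t0) ^ (-((N : ℤ) + 1)) * (t - t0) := by
          rw [show (-((N : ℤ) + 1)) = -(N : ℤ) - 1 by ring, zpow_sub_one₀ hne']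
          field_simp
        rw [h5, show (-(N : ℤ) - 1) = (-((N : ℤ) + 1)) by ring]
        push_cast
        ring

/-- the non-isotropic case -/
theorem PCL_br (Z W : ℂ → ℂ) (t0 : ℂ) (a : ℕ)
    (hne : ∀ᶠ t in 𝓝[≠] t0, deriv Z t ≠ 0 ∧ deriv W t ≠ 0 ∧ Wr Z W t ≠ 0)
    (f g : ℂ → ℂ) (hf : AnalyticAt ℂ f t0) (hf0 : f t0 ≠ 0) (hg : AnalyticAt ℂ g t0)
    (hg0 : g t0 ≠ 0)
    (hZ : ∀ᶠ t in 𝓝[≠] t0, deriv Z t = (t - t0) ^ (-((a : ℤ) + 1)) * f t)
    (hW : ∀ᶠ t in 𝓝[≠] t0, deriv W t = (t - t0) ^ (-((a : ℤ) + 1)) * g t) :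
    ∃ k : ℕ, 1 ≤ k ∧ PBr Z W t0 a k := by
  have hea : AnalyticAt ℂ (fun t => g t * f t0 - f t * g t0) t0 := by fun_prop
  have hnz : ¬ ∀ᶠ t in 𝓝 t0, g t * f t0 - f t * g t0 = 0 := by
    intro hz
    have hz' := hz.filter_mono (nhdsWithin_le_nhds (s := {t0}ᶜ))
    have h1 : deriv W =ᶠ[𝓝[≠] t0] fun t => (g t0 / f t0) * deriv Z t := by
      filter_upwards [hz', hZ, hW] with t ht1 ht2 ht3
      rw [ht2, ht3]
      have : g t = (g t0 / f t0) * f t := by
        field_simp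
        linear_combination ht1
      rw [this]
      ring
    have h2 := h1.nhdsNE_deriv
    have h3 : ∀ᶠ t in 𝓝[≠] t0, False := by
      filter_upwards [h1, h2, hne] with t ht1 ht2 ht3
      apply ht3.2.2
      rw [Wr, ht1, ht2, deriv_const_mul_field]
      ring
    rw [eventually_false_iff_eq_bot] at h3
    exact (NeBot.ne inferInstance) h3
  obtain ⟨k, h, hha, hh0, hh⟩ := hea.exists_eventuallyEq_pow_smul_nonzero_iff.2 hnz
  refine ⟨k, ?_, f, g, h, hf, hg, hha, hf0, hg0, hh0, hZ, hW, ?_⟩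
  · rcases Nat.eq_zero_or_pos k with rfl | hk
    · exfalso
      have := hh.self_of_nhds
      simp at this
      apply hh0
      rw [← this]
      ring
    · exact hk
  · filter_upwards [hh] with t ht
    rw [ht]
    simp

theorem tPCL : StPCL := by
  intro Z W t0 hZ hW hne
  have hneZ : ∀ᶠ t in 𝓝[≠] t0, deriv Z t ≠ 0 := hne.mono fun t ht => ht.1
  have hneW : ∀ᶠ t in 𝓝[≠] t0, deriv W t ≠ 0 := hne.mono fun t ht => ht.2.1
  rcases PCL_form Z t0 hZ hneZ with ⟨⟨Z', hZ'a, hZ'⟩, n1, f, hfa, hf0, hf⟩ |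
    ⟨n1, f, hn1, hfa, hf0, hf⟩
  · rcases PCL_form W t0 hW hneW with ⟨⟨W', hW'a, hW'⟩, n2, g, hga, hg0, hg⟩ |
      ⟨n2, g, hn2, hga, hg0, hg⟩
    · left
      exact ⟨Z', W', hZ'a, hW'a, hZ'.and hW'⟩
    · right
      refine ⟨n2, n1 + n2 + 1, hn2, by omega, Or.inr (Or.inl ⟨f, g, hfa, hga, hf0, hg0, ?_, hg⟩)⟩
      filter_upwards [hf] with t ht
      rw [ht]
      congr 2
      push_cast
      ring
  · rcases PCL_form W t0 hW hneW with ⟨⟨W', hW'a, hW'⟩, n2, g, hga, hg0, hg⟩ |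
      ⟨n2, g, hn2, hga, hg0, hg⟩
    · right
      refine ⟨n1, n2 + n1 + 1, hn1, by omega, Or.inr (Or.inr ⟨g, f, hga, hfa, hg0, hf0, ?_, hf⟩)⟩
      filter_upwards [hg] with t ht
      rw [ht]
      congr 2
      push_cast
      ring
    · right
      rcases lt_trichotomy n1 n2 with h12 | h12 | h12
      · refine ⟨n2, n2 - n1, hn2, by omega, Or.inr (Or.inl ⟨f, g, hfa, hga, hf0, hg0, ?_, hg⟩)⟩
        filter_upwards [hf] with t ht
        rw [ht]
        congr 2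
        push_cast [Nat.cast_sub h12.le]
        ring
      · subst h12
        obtain ⟨k, hk, hP⟩ := PCL_br Z W t0 n1 hne f g hfa hf0 hga hg0 hf hg
        exact ⟨n1, k, hn1, hk, Or.inl hP⟩
      · refine ⟨n1, n1 - n2, hn1, by omega, Or.inr (Or.inr ⟨g, f, hga, hfa, hg0, hf0, ?_, hf⟩)⟩
        filter_upwards [hg] with t ht
        rw [ht]
        congr 2
        push_cast [Nat.cast_sub h12.le]
        ring

end H719FX
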