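import Pool.Agent.H719R4.FX.Rat

/-! Task PLC (helper775): all places. -/

open Complex Set Filter Topology

namespace H719FX

open H738CZ

theorem PLC_pair {Z W Φ ρ : ℂ → ℂ} {t : ℂ} (h : Pair Z W t Φ ρ) :
    deriv Z t ≠ 0 ∧ deriv W t ≠ 0 ∧ Wr Z W t ≠ 0 := by
  have hI : (I : ℂ) ≠ 0 := I_ne_zero
  set A : ℂ → ℂ := fun s => ρ (Φ s) * deriv Φ s with hA
  have hAt : A t ≠ 0 := mul_ne_zero h.nρ h.dΦ
  have hAa : AnalyticAt ℂ A t := (h.aρ.comp h.aΦ).mul h.aΦ.deriv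
  have hAd : HasDerivAt A (deriv A t) t := hAa.differentiableAt.hasDerivAt
  have hΦd : HasDerivAt Φ (deriv Φ t) t := h.aΦ.differentiableAt.hasDerivAt
  have hZ : deriv Z =ᶠ[𝓝 t] fun s => A s * (I * cexp (Φ s * I)) := h.eZ
  have hW : deriv W =ᶠ[𝓝 t] fun s => A s * (-(I * cexp (-(Φ s * I)))) := h.eW
  have hZ1 : deriv Z t = A t * (I * cexp (Φ t * I)) := hZ.eq_of_nhds
  have hW1 : deriv W t = A t * (-(I * cexp (-(Φ t * I)))) := hW.eq_of_nhds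
  have hE1 : HasDerivAt (fun s => cexp (Φ s * I)) (cexp (Φ t * I) * (deriv Φ t * I)) t :=
    (hΦd.mul_const I).cexp
  have hE2 : HasDerivAt (fun s => cexp (-(Φ s * I))) (cexp (-(Φ t * I)) * (-(deriv Φ t * I))) t :=
    ((hΦd.mul_const I).neg).cexp
  have hZ2 : deriv (deriv Z) t = deriv A t * (I * cexp (Φ t * I)) +
      A t * (I * (cexp (Φ t * I) * (deriv Φ t * I))) := by
    rw [hZ.deriv_eq]
    exact (hAd.mul (hE1.const_mul I)).deriv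
  have hW2 : deriv (deriv W) t = deriv A t * (-(I * cexp (-(Φ t * I)))) +
      A t * (-(I * (cexp (-(Φ t * I)) * (-(deriv Φ t * I))))) := by
    rw [hW.deriv_eq]
    exact (hAd.mul ((hE2.const_mul I).neg)).deriv
  have hee : cexp (Φ t * I) * cexp (-(Φ t * I)) = 1 := by
    rw [← Complex.exp_add]; simp
  refine ⟨?_, ?_, ?_⟩
  · rw [hZ1]
    exact mul_ne_zero hAt (mul_ne_zero hI (Complex.exp_ne_zero _))
  · rw [hW1]
    exact mul_ne_zero hAt (neg_ne_zero.2 (mul_ne_zero hI (Complex.exp_ne_zero _)))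
  · have key : Wr Z W t = -2 * I * (A t) ^ 2 * deriv Φ t := by
      unfold Wr
      rw [hZ1, hW1, hZ2, hW2]
      have hII : (I : ℂ) * I = -1 := I_mul_I
      have h3 : (I : ℂ) ^ 3 = -I := by rw [pow_succ, pow_two, hII]; ring
      linear_combination (-2 * I * A t ^ 2 * deriv Φ t) * (-(I ^ 2)) * hee * 1 +
        (A t ^ 2 * deriv Φ t) * 2 * h3
    rw [key]
    refine mul_ne_zero (mul_ne_zero (mul_ne_zero (by norm_num) hI) (pow_ne_zero 2 hAt)) h.dΦ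

theorem PLC_good {Z W : ℂ → ℂ} {t : ℂ} (h : GoodAt Z W t) :
    deriv Z t ≠ 0 ∧ deriv W t ≠ 0 ∧ Wr Z W t ≠ 0 := by
  obtain ⟨Φ, ρ, hp, _⟩ := h
  exact PLC_pair hp

theorem PLC_cpair {Z W Z' W' Φ ρ : ℂ → ℂ} {t : ℂ} (h : Pair Z W t Φ ρ) (hZ : Z' =ᶠ[𝓝 t] Z)
    (hW : W' =ᶠ[𝓝 t] W) : Pair Z' W' t Φ ρ where
  aΦ := h.aΦ
  aρ := h.aρ
  dΦ := h.dΦ
  nρ := h.nρ
  eZ := by
    filter_upwards [hZ.deriv, h.eZ] with s h1 h2
    rw [h1, h2]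
  eW := by
    filter_upwards [hW.deriv, h.eW] with s h1 h2
    rw [h1, h2]

theorem PLC_cgood {Z W Z' W' : ℂ → ℂ} {t : ℂ} (h : GoodAt Z W t) (hZ : Z' =ᶠ[𝓝 t] Z)
    (hW : W' =ᶠ[𝓝 t] W) : GoodAt Z' W' t := by
  obtain ⟨Φ, ρ, hp, hg⟩ := h
  exact ⟨Φ, ρ, PLC_cpair hp hZ hW, hg⟩

theorem PLC_Wr {Z W Z' W' : ℂ → ℂ} {t : ℂ} (hZ : Z =ᶠ[𝓝 t] Z') (hW : W =ᶠ[𝓝 t] W') :
    Wr Z W =ᶠ[𝓝 t] Wr Z' W' := by
  filter_upwards [hZ.deriv, hW.deriv, hZ.deriv.deriv, hW.deriv.deriv] with s h1 h2 h3 h4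
  unfold Wr
  rw [h1, h2, h3, h4]

theorem PLC_Mi {Z W Z' W' : ℂ → ℂ} {t : ℂ} (hZ : Z =ᶠ[𝓝 t] Z') (hW : W =ᶠ[𝓝 t] W') :
    Mi Z W t = Mi Z' W' t := by
  have h0 := PLC_Wr hZ hW
  unfold Mi
  rw [h0.eq_of_nhds, h0.deriv.eq_of_nhds, h0.deriv.deriv.eq_of_nhds,
    hZ.deriv.deriv.eq_of_nhds, hW.deriv.deriv.eq_of_nhds, hZ.deriv.deriv.deriv.eq_of_nhds,
    hW.deriv.deriv.deriv.eq_of_nhds]

theorem PLC_Wrs (Z W : ℂ → ℂ) : Wr W Z = -(Wr Z W) := by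
  funext t
  simp only [Pi.neg_apply]
  unfold Wr
  ring

theorem PLC_Mis (Z W : ℂ → ℂ) (t : ℂ) : Mi W Z t = Mi Z W t := by
  unfold Mi
  rw [PLC_Wrs Z W]
  have h1 : deriv (-(Wr Z W)) = -(deriv (Wr Z W)) := by
    funext s
    simp [deriv.neg]
  rw [h1]
  have h2 : deriv (-(deriv (Wr Z W))) = -(deriv (deriv (Wr Z W))) := by
    funext s
    simp [deriv.neg]
  rw [h2]
  simp only [Pi.neg_apply]
  ring

theorem tPLC (hPCL : StPCL) (hPSN : StPSN) (hPSI : StPSI) (hPPB : StPPB) (hPPI : StPPI)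
    (hSIN : StSIN) (hISIN : StISIN) (hGRN : StGRN) (hGRI : StGRI) (hREG : StREG)
    (hREF : StREF) (hTMI : StTMI) : StPLC := by
  intro Z W t0 hZ hW hG
  have hreg : ∀ᶠ t in 𝓝[≠] t0, deriv Z t ≠ 0 ∧ deriv W t ≠ 0 ∧ Wr Z W t ≠ 0 :=
    hG.mono fun t h => PLC_good h
  rcases hPCL Z W t0 hZ hW hreg with ⟨Z', W', hZ', hW', he⟩ | ⟨a, k, ha, hk, h⟩
  · have he2 : ∀ᶠ t in 𝓝[≠] t0, ∀ᶠ s in 𝓝 t, Z s = Z' s ∧ W s = W' s := by
      filter_upwards [eventually_eventually_nhdsWithin.2 he, self_mem_nhdsWithin] with t h1 h2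
      rwa [isOpen_compl_singleton.nhdsWithin_eq h2] at h1
    have hG' : ∀ᶠ t in 𝓝[≠] t0, GoodAt Z' W' t := by
      filter_upwards [hG, he2] with t h1 h2
      exact PLC_cgood h1 (h2.mono fun s h => h.1.symm) (h2.mono fun s h => h.2.symm)
    have hG2 : ∀ᶠ t in 𝓝[≠] t0, GoodAt W' Z' t := hG'.mono fun t h => hREF Z' W' t h
    have hnz : ¬ ∀ᶠ t in 𝓝 t0, Wr Z' W' t = 0 := by
      intro hcon
      obtain ⟨t, h1, h2⟩ := (hG'.and (nhdsWithin_le_nhds hcon)).exists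
      exact (PLC_good h1).2.2 h2
    have hR : Reg Z' W' t0 := by
      refine hREG Z' W' t0 hZ' hW' hnz ?_ ?_ ?_
      · intro m k hk hBr
        exact hGRN Z' W' t0 m k (hSIN Z' W' t0 m k hk hZ' hW' hBr hG') hZ' hW' hBr hG'
      · intro m k hk hBr
        exact hGRI Z' W' t0 m k (hISIN Z' W' t0 m k hk hZ' hW' hBr hG') hZ' hW' hBr hG'
      · intro m k hk hBr
        exact hGRI W' Z' t0 m k (hISIN W' Z' t0 m k hk hW' hZ' hBr hG2) hW' hZ' hBr hG2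
    obtain ⟨C, hC⟩ := hTMI Z' W' t0 hR
    refine ⟨C, ?_⟩
    filter_upwards [he2, nhdsWithin_le_nhds hC] with t h1 h2
    have e1 : Z =ᶠ[𝓝 t] Z' := h1.mono fun s h => h.1
    have e2 : W =ᶠ[𝓝 t] W' := h1.mono fun s h => h.2
    rw [PLC_Mi e1 e2, (PLC_Wr e1 e2).eq_of_nhds]
    exact h2
  · have hG2 : ∀ᶠ t in 𝓝[≠] t0, GoodAt W Z t := hG.mono fun t h => hREF Z W t h
    by_cases hak : 2 * a < k
    · exfalso
      rcases h with h | h | h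
      · exact hPSN Z W t0 a k ha hak h hG
      · exact hPSI Z W t0 a k ha hak h hG
      · exact hPSI W Z t0 a k ha hak h hG2
    · have hak' : k ≤ 2 * a := by omega
      rcases h with h | h | h
      · exact hPPB Z W t0 a k ha hk hak' h
      · exact hPPI Z W t0 a k ha hk hak' h
      · obtain ⟨C, hC⟩ := hPPI W Z t0 a k ha hk hak' h
        refine ⟨C, ?_⟩
        filter_upwards [hC] with t h1
        rw [PLC_Mis Z W, PLC_Wrs Z W, Pi.neg_apply, norm_neg] at h1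
        exact h1

end H719FX
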