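import Pool.Agent.H719R4.FX.Rat

/-! Task PPB: bound in the non-isotropic case. `PPB_main` also contains the isotropic case. -/

open Complex Set Filter Topology

namespace H719FX

open H738CZ

/-- `d/dt (t - t0) ^ n F = (t - t0) ^ (n - 1) PPB_D t0 n F` -/
noncomputable def PPB_D (t0 : ℂ) (n : ℤ) (F : ℂ → ℂ) : ℂ → ℂ :=
  fun t => n * F t + (t - t0) * deriv F t

theorem PPB_Dan {t0 : ℂ} {n : ℤ} {F : ℂ → ℂ} (hF : AnalyticAt ℂ F t0) :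
    AnalyticAt ℂ (PPB_D t0 n F) t0 := by
  unfold PPB_D
  exact (analyticAt_const.mul hF).add ((analyticAt_id.sub analyticAt_const).mul hF.deriv)

theorem PPB_nb {t0 : ℂ} {p : ℂ → Prop} (h : ∀ᶠ t in 𝓝[≠] t0, p t) :
    ∀ᶠ t in 𝓝[≠] t0, ∀ᶠ x in 𝓝 t, p x := by
  have h1 := eventually_eventually_nhdsWithin.2 h
  filter_upwards [h1, self_mem_nhdsWithin] with t ht ht0
  rwa [isOpen_compl_singleton.nhdsWithin_eq ht0] at ht

theorem PPB_hd {t0 : ℂ} (n : ℤ) {F : ℂ → ℂ} (hF : AnalyticAt ℂ F t0) : ∀ᶠ t in 𝓝[≠] t0,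
    HasDerivAt (fun x => (x - t0) ^ n * F x) ((t - t0) ^ (n - 1) * PPB_D t0 n F t) t := by
  have h1 : ∀ᶠ t in 𝓝[≠] t0, AnalyticAt ℂ F t := hF.eventually_analyticAt.filter_mono
    nhdsWithin_le_nhds
  filter_upwards [h1, self_mem_nhdsWithin] with t ht ht0
  have hs : t - t0 ≠ 0 := sub_ne_zero.2 ht0
  have h2 : HasDerivAt (fun x : ℂ => (x - t0) ^ n) (n * (t - t0) ^ (n - 1)) t := by
    have := (hasDerivAt_zpow n (t - t0) (Or.inl hs)).comp t ((hasDerivAt_id t).sub_const t0)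
    rw [mul_one] at this
    exact this
  have h3 := h2.mul ht.differentiableAt.hasDerivAt
  refine h3.congr_deriv ?_
  unfold PPB_D
  have h4 : (t - t0) ^ n = (t - t0) ^ (n - 1) * (t - t0) := by
    rw [← zpow_add_one₀ hs, sub_add_cancel]
  rw [h4]
  ring

/-- derivative of a combination -/
theorem PPB_dd {t0 c : ℂ} {m n : ℤ} {F G f : ℂ → ℂ} (hF : AnalyticAt ℂ F t0)
    (hG : AnalyticAt ℂ G t0)
    (hf : ∀ᶠ t in 𝓝[≠] t0, f t = c * ((t - t0) ^ m * F t) + (t - t0) ^ n * G t) :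
    ∀ᶠ t in 𝓝[≠] t0, deriv f t = c * ((t - t0) ^ (m - 1) * PPB_D t0 m F t) +
      (t - t0) ^ (n - 1) * PPB_D t0 n G t := by
  filter_upwards [PPB_nb hf, PPB_hd m hF, PPB_hd n hG] with t h1 h2 h3
  have h4 : f =ᶠ[𝓝 t] fun x => c * ((x - t0) ^ m * F x) + (x - t0) ^ n * G x := h1
  rw [h4.deriv_eq]
  exact ((h2.const_mul c).add h3).deriv

theorem PPB_main {Z W : ℂ → ℂ} {t0 c : ℂ} {m n : ℤ} {F G : ℂ → ℂ} (hF : AnalyticAt ℂ F t0)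
    (hG : AnalyticAt ℂ G t0) (hF0 : F t0 ≠ 0) (hG0 : G t0 ≠ 0) (hmn : m ≠ n) (hle : m + n ≤ -2)
    (hZ : ∀ᶠ t in 𝓝[≠] t0, deriv Z t = (t - t0) ^ m * F t)
    (hW : ∀ᶠ t in 𝓝[≠] t0, deriv W t = c * ((t - t0) ^ m * F t) + (t - t0) ^ n * G t) :
    Bdd Z W t0 := by
  have hF1 := PPB_Dan (n := m) hF
  have hF2 := PPB_Dan (n := m - 1) hF1
  have hG1 := PPB_Dan (n := n) hG
  have hG2 := PPB_Dan (n := n - 1) hG1
  have hZ' : ∀ᶠ t in 𝓝[≠] t0, deriv Z t = 0 * ((t - t0) ^ m * F t) + (t - t0) ^ m * F t := by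
    filter_upwards [hZ] with t ht
    rw [ht]
    ring
  have hZ2 := PPB_dd hF hF hZ'
  have hZ3 := PPB_dd hF1 hF1 hZ2
  have hW2 := PPB_dd hF hG hW
  have hW3 := PPB_dd hF1 hG1 hW2
  obtain ⟨N, hN⟩ : ∃ N : ℤ, m + n - 1 = N := ⟨_, rfl⟩
  -- the Wronskian
  obtain ⟨H, hH⟩ : ∃ H : ℂ → ℂ, H = fun t => F t * PPB_D t0 n G t - PPB_D t0 m F t * G t :=
    ⟨_, rfl⟩
  have hHa : AnalyticAt ℂ H t0 := by
    rw [hH]
    exact (hF.mul hG1).sub (hF1.mul hG)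
  have hH0 : H t0 ≠ 0 := by
    rw [hH]
    simp only [PPB_D, sub_self, zero_mul, add_zero]
    have e : F t0 * (n * G t0) - m * F t0 * G t0 = ((n : ℂ) - m) * (F t0 * G t0) := by ring
    rw [e]
    refine mul_ne_zero ?_ (mul_ne_zero hF0 hG0)
    rw [sub_ne_zero]
    exact_mod_cast hmn.symm
  have hWr : ∀ᶠ t in 𝓝[≠] t0, Wr Z W t = 0 * ((t - t0) ^ N * H t) + (t - t0) ^ N * H t := by
    filter_upwards [hZ, hW, hZ2, hW2, self_mem_nhdsWithin] with t h1 h2 h3 h4 ht0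
    have hs : t - t0 ≠ 0 := sub_ne_zero.2 ht0
    have e1 : (t - t0) ^ N = (t - t0) ^ m * (t - t0) ^ (n - 1) := by
      rw [← zpow_add₀ hs, ← hN]
      congr 1
      ring
    have e2 : (t - t0) ^ m * (t - t0) ^ (n - 1) = (t - t0) ^ (m - 1) * (t - t0) ^ n := by
      rw [← zpow_add₀ hs, ← zpow_add₀ hs]
      congr 1
      ring
    unfold Wr
    rw [h1, h2, h3, h4, hH]
    have e3 : 0 * ((t - t0) ^ N * (F t * PPB_D t0 n G t - PPB_D t0 m F t * G t)) +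
        (t - t0) ^ N * (F t * PPB_D t0 n G t - PPB_D t0 m F t * G t) =
        (t - t0) ^ N * (F t * PPB_D t0 n G t) - (t - t0) ^ N * (PPB_D t0 m F t * G t) := by ring
    rw [e3]
    nth_rewrite 2 [e1]
    rw [e2]
    rw [e1]
    ring
  have hWr1 := PPB_dd hHa hHa hWr
  have hH1 := PPB_Dan (n := N) hHa
  have hWr2 := PPB_dd hH1 hH1 hWr1
  have hH2 := PPB_Dan (n := N - 1) hH1
  -- the invariant
  obtain ⟨A, hA⟩ : ∃ A : ℂ → ℂ, A = fun t => 5 / 9 * (PPB_D t0 N H t) ^ 2 -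
      1 / 3 * PPB_D t0 (N - 1) (PPB_D t0 N H) t * H t -
      (PPB_D t0 m F t * PPB_D t0 (n - 1) (PPB_D t0 n G) t -
        PPB_D t0 (m - 1) (PPB_D t0 m F) t * PPB_D t0 n G t) * H t := ⟨_, rfl⟩
  have hAa : AnalyticAt ℂ A t0 := by
    rw [hA]
    exact ((analyticAt_const.mul (hH1.pow 2)).sub ((analyticAt_const.mul hH2).mul hHa)).sub
      (((hF1.mul hG2).sub (hF2.mul hG1)).mul hHa)
  have hMi : ∀ᶠ t in 𝓝[≠] t0, Mi Z W t = (t - t0) ^ (2 * N - 2) * A t := by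
    filter_upwards [hZ2, hZ3, hW2, hW3, hWr, hWr1, hWr2, self_mem_nhdsWithin]
      with t z2 z3 w2 w3 r0 r1 r2 ht0
    have hs : t - t0 ≠ 0 := sub_ne_zero.2 ht0
    have e1 : (t - t0) ^ (2 * N - 2) = (t - t0) ^ (N - 1) * (t - t0) ^ (N - 1) := by
      rw [← zpow_add₀ hs]
      congr 1
      ring
    have e2 : (t - t0) ^ (2 * N - 2) = (t - t0) ^ (N - 1 - 1) * (t - t0) ^ N := by
      rw [← zpow_add₀ hs]
      congr 1
      ring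
    have e3 : (t - t0) ^ (N - 1 - 1) = (t - t0) ^ (m - 1) * (t - t0) ^ (n - 1 - 1) := by
      rw [← zpow_add₀ hs, ← hN]
      congr 1
      ring
    have e4 : (t - t0) ^ (N - 1 - 1) = (t - t0) ^ (m - 1 - 1) * (t - t0) ^ (n - 1) := by
      rw [← zpow_add₀ hs, ← hN]
      congr 1
      ring
    unfold Mi
    rw [z2, z3, w2, w3, r0, r1, r2, hA]
    have f1 : (t - t0) ^ (2 * N - 2) * (5 / 9 * (PPB_D t0 N H t) ^ 2 -
      1 / 3 * PPB_D t0 (N - 1) (PPB_D t0 N H) t * H t -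
      (PPB_D t0 m F t * PPB_D t0 (n - 1) (PPB_D t0 n G) t -
        PPB_D t0 (m - 1) (PPB_D t0 m F) t * PPB_D t0 n G t) * H t) =
      (t - t0) ^ (2 * N - 2) * (5 / 9 * (PPB_D t0 N H t) ^ 2) -
      (t - t0) ^ (2 * N - 2) * (1 / 3 * PPB_D t0 (N - 1) (PPB_D t0 N H) t * H t) -
      (t - t0) ^ (2 * N - 2) * (PPB_D t0 m F t * PPB_D t0 (n - 1) (PPB_D t0 n G) t * H t) +
      (t - t0) ^ (2 * N - 2) * (PPB_D t0 (m - 1) (PPB_D t0 m F) t * PPB_D t0 n G t * H t) := by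
      ring
    have f2 : (t - t0) ^ (2 * N - 2) * (5 / 9 * (PPB_D t0 N H t) ^ 2) =
      (t - t0) ^ (N - 1) * (t - t0) ^ (N - 1) * (5 / 9 * (PPB_D t0 N H t) ^ 2) := by rw [e1]
    have f3 : (t - t0) ^ (2 * N - 2) * (1 / 3 * PPB_D t0 (N - 1) (PPB_D t0 N H) t * H t) =
      (t - t0) ^ (N - 1 - 1) * (t - t0) ^ N *
        (1 / 3 * PPB_D t0 (N - 1) (PPB_D t0 N H) t * H t) := by rw [e2]
    have f4 : (t - t0) ^ (2 * N - 2) *
        (PPB_D t0 m F t * PPB_D t0 (n - 1) (PPB_D t0 n G) t * H t) =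
      (t - t0) ^ (m - 1) * (t - t0) ^ (n - 1 - 1) * (t - t0) ^ N *
        (PPB_D t0 m F t * PPB_D t0 (n - 1) (PPB_D t0 n G) t * H t) := by rw [e2, e3]
    have f5 : (t - t0) ^ (2 * N - 2) *
        (PPB_D t0 (m - 1) (PPB_D t0 m F) t * PPB_D t0 n G t * H t) =
      (t - t0) ^ (m - 1 - 1) * (t - t0) ^ (n - 1) * (t - t0) ^ N *
        (PPB_D t0 (m - 1) (PPB_D t0 m F) t * PPB_D t0 n G t * H t) := by rw [e2, e4]
    simp only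
    rw [f1, f2, f3, f4, f5]
    ring
  -- the bound
  obtain ⟨e, he⟩ : ∃ e : ℕ, (e : ℤ) = -2 * N - 6 := ⟨(-2 * N - 6).toNat, by omega⟩
  have hHpos : 0 < ‖H t0‖ := norm_pos_iff.2 hH0
  refine ⟨(‖A t0‖ + 1) ^ 3 / (‖H t0‖ / 2) ^ 8, ?_⟩
  have b1 : ∀ᶠ t in 𝓝[≠] t0, ‖A t‖ < ‖A t0‖ + 1 :=
    (hAa.continuousAt.norm.eventually (gt_mem_nhds (by linarith))).filter_mono nhdsWithin_le_nhds
  have b2 : ∀ᶠ t in 𝓝[≠] t0, ‖H t0‖ / 2 < ‖H t‖ :=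
    (hHa.continuousAt.norm.eventually (lt_mem_nhds (by linarith))).filter_mono nhdsWithin_le_nhds
  have b3 : ∀ᶠ t in 𝓝[≠] t0, ‖t - t0‖ ≤ 1 := by
    have : ∀ᶠ t in 𝓝 t0, t ∈ Metric.ball t0 1 := Metric.ball_mem_nhds t0 one_pos
    filter_upwards [this.filter_mono nhdsWithin_le_nhds] with t ht
    rw [← dist_eq_norm]
    exact (Metric.mem_ball.1 ht).le
  filter_upwards [hMi, hWr, b1, b2, b3, self_mem_nhdsWithin] with t h1 h2 h3 h4 h5 ht0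
  have hs : t - t0 ≠ 0 := sub_ne_zero.2 ht0
  rw [zero_mul, zero_add] at h2
  rw [h1, h2, norm_mul, norm_mul, mul_pow, mul_pow]
  have e1 : ((t - t0) ^ (2 * N - 2)) ^ 3 = ((t - t0) ^ N) ^ 8 * (t - t0) ^ e := by
    rw [← zpow_natCast ((t - t0) ^ (2 * N - 2)) 3, ← zpow_natCast ((t - t0) ^ N) 8, ← zpow_mul,
      ← zpow_mul, ← zpow_natCast (t - t0) e, ← zpow_add₀ hs, he]
    congr 1
    push_cast
    ring
  have e2 : ‖(t - t0) ^ (2 * N - 2)‖ ^ 3 = ‖(t - t0) ^ N‖ ^ 8 * ‖t - t0‖ ^ e := by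
    rw [← norm_pow, e1, norm_mul, norm_pow, norm_pow]
  rw [e2]
  have h6 : ‖t - t0‖ ^ e ≤ 1 := pow_le_one₀ (norm_nonneg _) h5
  have h7 : ‖A t‖ ^ 3 ≤ (‖A t0‖ + 1) ^ 3 := pow_le_pow_left₀ (norm_nonneg _) h3.le 3
  have h8 : (‖H t0‖ / 2) ^ 8 ≤ ‖H t‖ ^ 8 := pow_le_pow_left₀ (by positivity) h4.le 8
  have h9 : 0 < (‖H t0‖ / 2) ^ 8 := by positivity
  have h10 : 0 ≤ ‖(t - t0) ^ N‖ ^ 8 := by positivity
  calc ‖(t - t0) ^ N‖ ^ 8 * ‖t - t0‖ ^ e * ‖A t‖ ^ 3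
      ≤ ‖(t - t0) ^ N‖ ^ 8 * 1 * (‖A t0‖ + 1) ^ 3 := by gcongr
    _ = (‖A t0‖ + 1) ^ 3 / (‖H t0‖ / 2) ^ 8 * (‖(t - t0) ^ N‖ ^ 8 * (‖H t0‖ / 2) ^ 8) := by
        field_simp
    _ ≤ (‖A t0‖ + 1) ^ 3 / (‖H t0‖ / 2) ^ 8 * (‖(t - t0) ^ N‖ ^ 8 * ‖H t‖ ^ 8) := by gcongr

/-- Task PPB. -/
theorem tPPB : StPPB := by
  intro Z W t0 a k ha hk hka ⟨f, g, h, hf, hg, hh, hf0, hg0, hh0, hZ, hW, hgf⟩
  refine PPB_main (m := -((a : ℤ) + 1)) (n := (k : ℤ) - a - 1) (c := g t0 / f t0) hf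
    (G := fun t => h t / f t0) (hh.div analyticAt_const hf0) hf0 (div_ne_zero hh0 hf0)
    (by omega) (by omega) hZ ?_
  filter_upwards [hW, hgf.filter_mono nhdsWithin_le_nhds, self_mem_nhdsWithin] with t h1 h2 ht0
  have hs : t - t0 ≠ 0 := sub_ne_zero.2 ht0
  have e1 : (t - t0) ^ ((k : ℤ) - a - 1) = (t - t0) ^ (-((a : ℤ) + 1)) * (t - t0) ^ k := by
    rw [← zpow_natCast (t - t0) k, ← zpow_add₀ hs]
    congr 1
    ring
  have e2 : (t - t0) ^ k * h t = g t * f t0 - f t * g t0 := h2.symm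
  rw [h1, e1]
  have e3 : g t0 / f t0 * ((t - t0) ^ (-((a : ℤ) + 1)) * f t) +
      (t - t0) ^ (-((a : ℤ) + 1)) * (t - t0) ^ k * (h t / f t0) =
      (t - t0) ^ (-((a : ℤ) + 1)) * (g t0 * f t + (t - t0) ^ k * h t) / f t0 := by ring
  rw [e3, e2, eq_div_iff hf0]
  ring

end H719FX
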