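import Pool.Agent.H719R4.FX.Rat

/-!
# PPI: bound at a place at infinity, isotropic direction
-/

open Complex Set Filter Topology

namespace H719FX

open H738CZ

/-- `F` is `(t - t0)^n` times an analytic function near `t0` -/
def PPI_MZ (t0 : ℂ) (n : ℤ) (F : ℂ → ℂ) : Prop :=
  ∃ h : ℂ → ℂ, AnalyticAt ℂ h t0 ∧ ∀ᶠ t in 𝓝[≠] t0, F t = (t - t0) ^ n * h t

theorem PPI_deriv {t0 : ℂ} {n : ℤ} {F h : ℂ → ℂ} (hh : AnalyticAt ℂ h t0)
    (hF : ∀ᶠ t in 𝓝[≠] t0, F t = (t - t0) ^ n * h t) :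
    ∀ᶠ t in 𝓝[≠] t0, deriv F t = (t - t0) ^ (n - 1) * ((n : ℂ) * h t + (t - t0) * deriv h t) := by
  have h1 := eventually_eventually_nhdsWithin.2 hF
  have h2 : ∀ᶠ t in 𝓝[≠] t0, AnalyticAt ℂ h t :=
    hh.eventually_analyticAt.filter_mono nhdsWithin_le_nhds
  filter_upwards [h1, h2, self_mem_nhdsWithin] with t ht hat hne
  have hne' : t - t0 ≠ 0 := sub_ne_zero.2 hne
  rw [IsOpen.nhdsWithin_eq isOpen_compl_singleton hne] at ht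
  have h3 : F =ᶠ[𝓝 t] fun x => (x - t0) ^ n * h x := ht
  rw [h3.deriv_eq]
  have h4 : HasDerivAt (fun x : ℂ => (x - t0) ^ n) ((n : ℂ) * (t - t0) ^ (n - 1)) t :=
    (hasDerivAt_zpow n (t - t0) (Or.inl hne')).comp_sub_const t t0
  have h4' : HasDerivAt (fun x : ℂ => (x - t0) ^ n * h x)
      ((n : ℂ) * (t - t0) ^ (n - 1) * h t + (t - t0) ^ n * deriv h t) t :=
    h4.mul hat.differentiableAt.hasDerivAt
  rw [h4'.deriv]
  have h5 : (t - t0) ^ n = (t - t0) ^ (n - 1) * (t - t0) := by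
    rw [← zpow_add_one₀ hne']; congr 1; ring
  rw [h5]
  ring

theorem PPI_MZ.deriv {t0 : ℂ} {n : ℤ} {F : ℂ → ℂ} (h : PPI_MZ t0 n F) :
    PPI_MZ t0 (n - 1) (deriv F) := by
  obtain ⟨h, hh, hF⟩ := h
  refine ⟨fun t => (n : ℂ) * h t + (t - t0) * _root_.deriv h t, ?_, PPI_deriv hh hF⟩
  have := hh.deriv
  fun_prop

theorem PPI_MZ.mul {t0 : ℂ} {n m : ℤ} {F G : ℂ → ℂ} (hF : PPI_MZ t0 n F) (hG : PPI_MZ t0 m G) :
    PPI_MZ t0 (n + m) (fun t => F t * G t) := by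
  obtain ⟨h, hh, hF⟩ := hF
  obtain ⟨g, hg, hG⟩ := hG
  refine ⟨fun t => h t * g t, hh.mul hg, ?_⟩
  filter_upwards [hF, hG, self_mem_nhdsWithin] with t h1 h2 hne
  have hne' : t - t0 ≠ 0 := sub_ne_zero.2 hne
  rw [h1, h2, zpow_add₀ hne']
  ring

theorem PPI_MZ.sub {t0 : ℂ} {n : ℤ} {F G : ℂ → ℂ} (hF : PPI_MZ t0 n F) (hG : PPI_MZ t0 n G) :
    PPI_MZ t0 n (fun t => F t - G t) := by
  obtain ⟨h, hh, hF⟩ := hF
  obtain ⟨g, hg, hG⟩ := hG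
  refine ⟨fun t => h t - g t, hh.sub hg, ?_⟩
  filter_upwards [hF, hG] with t h1 h2
  rw [h1, h2]
  ring

theorem PPI_MZ.const_mul {t0 : ℂ} {n : ℤ} {F : ℂ → ℂ} (c : ℂ) (hF : PPI_MZ t0 n F) :
    PPI_MZ t0 n (fun t => c * F t) := by
  obtain ⟨h, hh, hF⟩ := hF
  refine ⟨fun t => c * h t, analyticAt_const.mul hh, ?_⟩
  filter_upwards [hF] with t h1
  rw [h1]
  ring

theorem PPI_MZ.cast {t0 : ℂ} {n m : ℤ} {F : ℂ → ℂ} (hF : PPI_MZ t0 n F) (h : n = m) :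
    PPI_MZ t0 m F := h ▸ hF

theorem PPI_MZ.bound {t0 : ℂ} {n : ℤ} {F : ℂ → ℂ} (hF : PPI_MZ t0 n F) :
    ∃ C : ℝ, 0 ≤ C ∧ ∀ᶠ t in 𝓝[≠] t0, ‖F t‖ ≤ C * ‖t - t0‖ ^ n := by
  obtain ⟨h, hh, hF⟩ := hF
  refine ⟨‖h t0‖ + 1, by positivity, ?_⟩
  have h1 : ∀ᶠ t in 𝓝 t0, ‖h t‖ < ‖h t0‖ + 1 :=
    hh.continuousAt.norm.eventually_lt continuousAt_const (by simp)
  filter_upwards [hF, h1.filter_mono nhdsWithin_le_nhds] with t h2 h3
  rw [h2, norm_mul, norm_zpow, mul_comm]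
  exact mul_le_mul_of_nonneg_right h3.le (by positivity)

/-- main estimate: from the orders of `Wr` and `Mi` to boundedness -/
theorem PPI_bdd {Z W : ℂ → ℂ} {t0 : ℂ} {N : ℤ} (hN : N ≤ -3) {w : ℂ → ℂ} (hw : AnalyticAt ℂ w t0)
    (hw0 : w t0 ≠ 0) (hWr : ∀ᶠ t in 𝓝[≠] t0, Wr Z W t = (t - t0) ^ N * w t)
    (hMi : PPI_MZ t0 (2 * N - 2) (Mi Z W)) : Bdd Z W t0 := by
  obtain ⟨C, hC, hCb⟩ := hMi.bound
  have hw1 : ∀ᶠ t in 𝓝 t0, ‖w t0‖ / 2 < ‖w t‖ :=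
    continuousAt_const.eventually_lt hw.continuousAt.norm (by
      have := norm_pos_iff.2 hw0
      linarith)
  have hball : ∀ᶠ t in 𝓝 t0, ‖t - t0‖ < 1 := by
    have : ContinuousAt (fun t : ℂ => ‖t - t0‖) t0 := by fun_prop
    exact this.eventually_lt continuousAt_const (by simp)
  set c := ‖w t0‖ / 2 with hc
  have hc0 : 0 < c := by
    have := norm_pos_iff.2 hw0
    rw [hc]; linarith
  refine ⟨C ^ 3 / c ^ 8, ?_⟩
  filter_upwards [hCb, hWr, hw1.filter_mono nhdsWithin_le_nhds,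
    hball.filter_mono nhdsWithin_le_nhds, self_mem_nhdsWithin] with t h1 h2 h3 h4 hne
  have hne' : t - t0 ≠ 0 := sub_ne_zero.2 hne
  have hs : 0 < ‖t - t0‖ := norm_pos_iff.2 hne'
  set s := ‖t - t0‖ with hsd
  have h5 : c * s ^ N ≤ ‖Wr Z W t‖ := by
    rw [h2, norm_mul, norm_zpow, mul_comm]
    exact mul_le_mul_of_nonneg_left h3.le (by positivity)
  have h6 : (c * s ^ N) ^ 8 ≤ ‖Wr Z W t‖ ^ 8 := pow_le_pow_left₀ (by positivity) h5 8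
  have h7 : ‖Mi Z W t‖ ^ 3 ≤ (C * s ^ (2 * N - 2)) ^ 3 := pow_le_pow_left₀ (norm_nonneg _) h1 3
  have h8 : (s ^ (2 * N - 2)) ^ 3 ≤ (s ^ N) ^ 8 := by
    rw [← zpow_natCast, ← zpow_natCast, ← zpow_mul, ← zpow_mul]
    exact zpow_le_zpow_right_of_le_one₀ hs h4.le (by push_cast; linarith)
  calc ‖Mi Z W t‖ ^ 3 ≤ (C * s ^ (2 * N - 2)) ^ 3 := h7
    _ = C ^ 3 * (s ^ (2 * N - 2)) ^ 3 := by ring
    _ ≤ C ^ 3 * (s ^ N) ^ 8 := mul_le_mul_of_nonneg_left h8 (by positivity)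
    _ = C ^ 3 / c ^ 8 * (c * s ^ N) ^ 8 := by
        rw [mul_pow]; field_simp
    _ ≤ C ^ 3 / c ^ 8 * ‖Wr Z W t‖ ^ 8 := mul_le_mul_of_nonneg_left h6 (by positivity)

theorem tPPI : StPPI := by
  intro Z W t0 a k ha hk hka ⟨f, g, hf, hg, hf0, hg0, hZ, hW⟩
  have e1 : (-((a : ℤ) + 1)) = -(a : ℤ) - 1 := by ring
  have hZ1 := PPI_deriv hf hZ
  have hW1 := PPI_deriv hg hW
  have mZ : PPI_MZ t0 ((k : ℤ) - a - 1) (deriv Z) := ⟨f, hf, hZ⟩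
  have mW : PPI_MZ t0 (-((a : ℤ) + 1)) (deriv W) := ⟨g, hg, hW⟩
  have mZ2 := mZ.deriv
  have mW2 := mW.deriv
  have mZ3 := mZ2.deriv
  have mW3 := mW2.deriv
  have hWr : ∀ᶠ t in 𝓝[≠] t0, Wr Z W t = (t - t0) ^ ((k : ℤ) - 2 * a - 3) *
      (-(k : ℂ) * (f t * g t) + (t - t0) * (f t * deriv g t - deriv f t * g t)) := by
    filter_upwards [hZ, hW, hZ1, hW1, self_mem_nhdsWithin] with t h1 h2 h3 h4 hne
    have hne' : t - t0 ≠ 0 := sub_ne_zero.2 hne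
    unfold Wr
    rw [h1, h2, h3, h4]
    have e2 : (t - t0) ^ ((k : ℤ) - a - 1) = (t - t0) ^ ((k : ℤ) - a - 1 - 1) * (t - t0) := by
      rw [← zpow_add_one₀ hne']; congr 1; ring
    have e3 : (t - t0) ^ (-((a : ℤ) + 1)) = (t - t0) ^ (-((a : ℤ) + 1) - 1) * (t - t0) := by
      rw [← zpow_add_one₀ hne', sub_add_cancel]
    have e4 : (t - t0) ^ ((k : ℤ) - 2 * a - 3) = (t - t0) ^ ((k : ℤ) - a - 1 - 1) *
        (t - t0) ^ (-((a : ℤ) + 1) - 1) * (t - t0) := by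
      rw [← zpow_add₀ hne', ← zpow_add_one₀ hne']; congr 1; ring
    rw [e2, e3, e4]
    push_cast
    ring
  have hwan : AnalyticAt ℂ (fun t => -(k : ℂ) * (f t * g t) +
      (t - t0) * (f t * deriv g t - deriv f t * g t)) t0 := by
    have := hf.deriv
    have := hg.deriv
    fun_prop
  have hw0 : (fun t => -(k : ℂ) * (f t * g t) +
      (t - t0) * (f t * deriv g t - deriv f t * g t)) t0 ≠ 0 := by
    have hk0 : (k : ℂ) ≠ 0 := by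
      have : k ≠ 0 := by omega
      exact_mod_cast this
    simp only [sub_self, zero_mul, add_zero]
    exact mul_ne_zero (neg_ne_zero.2 hk0) (mul_ne_zero hf0 hg0)
  have mWr : PPI_MZ t0 ((k : ℤ) - 2 * a - 3) (Wr Z W) := ⟨_, hwan, hWr⟩
  have mWr1 := mWr.deriv
  have mWr2 := mWr1.deriv
  have mA : PPI_MZ t0 (2 * ((k : ℤ) - 2 * a - 3) - 2)
      (fun t => 5 / 9 * (deriv (Wr Z W) t * deriv (Wr Z W) t)) :=
    ((mWr1.mul mWr1).const_mul (5 / 9)).cast (by ring)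
  have mB : PPI_MZ t0 (2 * ((k : ℤ) - 2 * a - 3) - 2)
      (fun t => 1 / 3 * (deriv (deriv (Wr Z W)) t * Wr Z W t)) :=
    ((mWr2.mul mWr).const_mul (1 / 3)).cast (by ring)
  have mD : PPI_MZ t0 ((k : ℤ) - 2 * a - 5)
      (fun t => deriv (deriv Z) t * deriv (deriv (deriv W)) t
        - deriv (deriv (deriv Z)) t * deriv (deriv W) t) :=
    ((mZ2.mul mW3).cast (by ring)).sub ((mZ3.mul mW2).cast (by ring))
  have mE := (mD.mul mWr).cast (m := 2 * ((k : ℤ) - 2 * a - 3) - 2) (by ring)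
  have mMi : PPI_MZ t0 (2 * ((k : ℤ) - 2 * a - 3) - 2) (Mi Z W) := by
    have h := (mA.sub mB).sub mE
    obtain ⟨h', hh', hF⟩ := h
    refine ⟨h', hh', ?_⟩
    filter_upwards [hF] with t ht
    rw [← ht]
    unfold Mi
    ring
  exact PPI_bdd (by omega) hwan hw0 hWr mMi

end H719FX
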