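import Pool.Agent.H719R4.FX.Rat
import Pool.Agent.H719R4.FX.SIC

/-! # PSI: inflectional asymptotes are impossible, isotropic direction (helper799, adapted from
`ISIN.lean`) -/

set_option autoImplicit false

open Complex Set Filter Topology

namespace H719FX

open H738CZ

/-- the angle from the pair -/
theorem PSI_alg (q E1 E2 z w x f g : ℂ) (a c : ℕ) (hx : x ≠ 0) (hg : g ≠ 0)
    (h12 : E1 * E2 = 1) (hz : z = q * (I * E1)) (hw : w = q * (-(I * E2)))
    (hz' : z = x ^ c * f) (hw' : w = x ^ (-((a : ℤ) + 1)) * g) :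
    E1 * E1 = x ^ (a + (c + 1)) * (-f / g) := by
  have h1 : E1 * E1 * w = -z := by
    rw [hw, hz]
    linear_combination (-(q * I * E1)) * h12
  rw [hz', hw'] at h1
  have h2 : x ^ (a + 1) ≠ 0 := pow_ne_zero _ hx
  have h3 : x ^ (-((a : ℤ) + 1)) = (x ^ (a + 1))⁻¹ := by
    rw [zpow_neg]
    norm_cast
  rw [h3] at h1
  rw [mul_div_assoc', eq_div_iff hg]
  have h4 : x ^ (a + (c + 1)) = x ^ (a + 1) * x ^ c := by
    rw [← pow_add]; congr 1; ring
  rw [h4]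
  have h5 : E1 * E1 * g = x ^ (a + 1) * (E1 * E1 * ((x ^ (a + 1))⁻¹ * g)) := by
    field_simp
  rw [h5, h1]
  ring

theorem tPSI (hJEND : StJEND) : StPSI := by
  intro Z W t0 a k ha hak hB hgood
  obtain ⟨c, rfl⟩ : ∃ c, k = a + (c + 1) := ⟨k - a - 1, by omega⟩
  obtain ⟨f, g, af, ag, nf, ng, eZ0, eW0⟩ := hB
  have hexpo : (((a + (c + 1) : ℕ) : ℤ) - a - 1) = (c : ℤ) := by push_cast; ring
  rw [hexpo] at eZ0
  have eZ := eventually_nhdsWithin_iff.1 eZ0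
  have eW := eventually_nhdsWithin_iff.1 eW0
  obtain ⟨h1, ah1, nh1, eh1⟩ := SIC_root (fun t => -f t / g t) t0 (af.neg.div ag ng)
    (div_ne_zero (neg_ne_zero.2 nf) ng) (a + (c + 1)) (by omega)
  set S : ℂ → ℂ := fun t => (t - t0) * h1 t with hS
  have aS : AnalyticAt ℂ S t0 := (analyticAt_id.sub analyticAt_const).mul ah1
  have S0 : S t0 = 0 := by simp [hS]
  have dS : deriv S t0 ≠ 0 := by
    have hd : HasDerivAt S (1 * h1 t0 + (t0 - t0) * deriv h1 t0) t0 := by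
      refine HasDerivAt.mul ?_ ah1.differentiableAt.hasDerivAt
      exact (hasDerivAt_id t0).sub_const t0
    rw [hd.deriv]
    simpa using nh1
  obtain ⟨T, aT, T0, eT⟩ := SIC_inv S t0 aS S0 dS
  have cT : ContinuousAt T 0 := aT.continuousAt
  have cT' : Tendsto T (𝓝 0) (𝓝 t0) := by
    have := cT.tendsto
    rwa [T0] at this
  have dT : deriv T 0 ≠ 0 := by
    intro h0
    have h1' : HasDerivAt T 0 0 := by
      have := aT.differentiableAt.hasDerivAt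
      rwa [h0] at this
    have h3 : HasDerivAt S (deriv S t0) (T 0) := by
      rw [T0]; exact aS.differentiableAt.hasDerivAt
    have h2' := HasDerivAt.comp (0 : ℂ) h3 h1'
    have h4 : HasDerivAt (fun s : ℂ => s) (deriv S t0 * 0) 0 :=
      h2'.congr_of_eventuallyEq (by filter_upwards [eT] with s hs; exact hs.symm)
    have h5 := h4.unique (hasDerivAt_id (0 : ℂ))
    simp at h5
  have hkc : ((a + (c + 1) : ℕ) : ℂ) ≠ 0 := by
    have : a + (c + 1) ≠ 0 := by omega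
    exact_mod_cast this
  set A : ℂ → ℂ := fun s => 2 / ((a + (c + 1) : ℕ) : ℂ) *
    (f (T s) * deriv T s / h1 (T s) ^ c) with hA
  have aA : AnalyticAt ℂ A 0 := by
    have a1 : AnalyticAt ℂ (fun s => f (T s)) 0 := by
      have : AnalyticAt ℂ f (T 0) := by rw [T0]; exact af
      exact this.comp aT
    have a2 : AnalyticAt ℂ (fun s => h1 (T s)) 0 := by
      have : AnalyticAt ℂ h1 (T 0) := by rw [T0]; exact ah1
      exact this.comp aT
    refine analyticAt_const.mul (AnalyticAt.div (a1.mul aT.deriv) (a2.pow c) ?_)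
    show h1 (T 0) ^ c ≠ 0
    rw [T0]
    exact pow_ne_zero _ nh1
  have nA : A 0 ≠ 0 := by
    simp only [hA]
    rw [T0]
    exact mul_ne_zero (div_ne_zero two_ne_zero hkc)
      (div_ne_zero (mul_ne_zero nf dT) (pow_ne_zero _ nh1))
  obtain ⟨v, av, nv, ev⟩ := SIC_root A 0 aA nA 3 (by norm_num)
  have hE : ∀ᶠ t in 𝓝 t0, (t ∈ ({t0}ᶜ : Set ℂ) → deriv Z t = (t - t0) ^ (c : ℤ) * f t) ∧
      (t ∈ ({t0}ᶜ : Set ℂ) → deriv W t = (t - t0) ^ (-((a : ℤ) + 1)) * g t) ∧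
      f t ≠ 0 ∧ g t ≠ 0 ∧ h1 t ≠ 0 ∧ h1 t ^ (a + (c + 1)) = -f t / g t := by
    filter_upwards [eZ, eW, af.continuousAt.eventually_ne nf, ag.continuousAt.eventually_ne ng,
      ah1.continuousAt.eventually_ne nh1, eh1] with t h2 h3 h4 h5 h6 h7
    exact ⟨h2, h3, h4, h5, h6, h7⟩
  have hev : ∀ᶠ s in 𝓝 (0 : ℂ), AnalyticAt ℂ T s ∧ AnalyticAt ℂ v s ∧ v s ≠ 0 ∧
      (∀ᶠ s' in 𝓝 s, S (T s') = s' ∧ v s' ^ 3 = A s') ∧
      (∀ᶠ t in 𝓝 (T s), (t ∈ ({t0}ᶜ : Set ℂ) → deriv Z t = (t - t0) ^ (c : ℤ) * f t) ∧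
      (t ∈ ({t0}ᶜ : Set ℂ) → deriv W t = (t - t0) ^ (-((a : ℤ) + 1)) * g t) ∧
      f t ≠ 0 ∧ g t ≠ 0 ∧ h1 t ≠ 0 ∧ h1 t ^ (a + (c + 1)) = -f t / g t) := by
    filter_upwards [aT.eventually_analyticAt, av.eventually_analyticAt,
      av.continuousAt.eventually_ne nv, (eT.and ev).eventually_nhds,
      cT'.eventually hE.eventually_nhds] with s h1 h2 h3 h4 h5
    exact ⟨h1, h2, h3, h4, h5⟩
  obtain ⟨δ, hδ, hball⟩ := Metric.eventually_nhds_iff_ball.1 hev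
  set R : ℝ := δ ^ ((1 : ℝ) / 6) with hR
  have hR6 : R ^ 6 = δ := by
    rw [hR, ← Real.rpow_natCast, ← Real.rpow_mul hδ.le]
    norm_num
  have hUI : UI v R := by
    refine ⟨Real.rpow_pos_of_pos hδ _, ?_, ?_⟩
    · intro z hz
      rw [hR6] at hz
      exact (hball z hz).2.1.differentiableAt.differentiableWithinAt
    · intro z hz
      rw [hR6] at hz
      exact (hball z hz).2.2.1
  have hTne : ∀ s ∈ Metric.ball (0 : ℂ) δ, s ≠ 0 → T s ≠ t0 := by
    intro s hs hs0 hTs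
    have := (hball s hs).2.2.2.1.self_of_nhds.1
    rw [hTs, S0] at this
    exact hs0 this.symm
  have hev1 : ∀ᶠ s in 𝓝[≠] (0 : ℂ), s ∈ Metric.ball (0 : ℂ) δ :=
    mem_nhdsWithin_of_mem_nhds (Metric.ball_mem_nhds _ hδ)
  have hev2 : ∀ᶠ s in 𝓝[≠] (0 : ℂ), s ≠ 0 := eventually_mem_nhdsWithin
  have htend : Tendsto T (𝓝[≠] (0 : ℂ)) (𝓝[≠] t0) := by
    refine tendsto_nhdsWithin_iff.2 ⟨cT'.mono_left nhdsWithin_le_nhds, ?_⟩
    filter_upwards [hev1, hev2] with s hs1 hs2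
    exact hTne s hs1 hs2
  obtain ⟨s1, ⟨hs1, hs0⟩, hs3⟩ := ((hev1.and hev2).and (htend.eventually hgood)).exists
  obtain ⟨Φ, ρ, hP, hG⟩ := hs3
  obtain ⟨aTs, avs, nvs, hsu, hEs⟩ := hball s1 hs1
  have hT : Tendsto T (𝓝 s1) (𝓝 (T s1)) := aTs.continuousAt
  have hTs : T s1 ≠ t0 := hTne s1 hs1 hs0
  have hne' : ∀ᶠ t in 𝓝 (T s1), t ≠ t0 := continuousAt_id.eventually_ne hTs
  -- the exponential of the angle
  have hexp : ∀ᶠ s in 𝓝 s1, cexp (2 * I * Φ (T s)) = s ^ (a + (c + 1)) := by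
    filter_upwards [hsu, hT.eventually hEs, hT.eventually hne', hT.eventually hP.eZ,
      hT.eventually hP.eW] with s h2 h3 h4 h5 h6
    obtain ⟨t1, t2, t3, t4, t5, t6⟩ := h3
    have t1' := t1 h4
    have t2' := t2 h4
    rw [zpow_natCast] at t1'
    have e1 : cexp (2 * I * Φ (T s)) = cexp (Φ (T s) * I) * cexp (Φ (T s) * I) := by
      rw [← Complex.exp_add]; congr 1; ring
    have e2 : cexp (Φ (T s) * I) * cexp (-(Φ (T s) * I)) = 1 := by
      rw [← Complex.exp_add]; simp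
    rw [e1, PSI_alg (ρ (Φ (T s)) * deriv Φ (T s)) (cexp (Φ (T s) * I))
      (cexp (-(Φ (T s) * I))) (deriv Z (T s)) (deriv W (T s)) (T s - t0) (f (T s)) (g (T s)) a c
      (sub_ne_zero.2 h4) t4 e2 h5 h6 t1' t2', ← t6, ← mul_pow]
    have h7 : (T s - t0) * h1 (T s) = s := h2.1
    rw [h7]
  have aΨ : AnalyticAt ℂ (fun s => Φ (T s)) s1 := hP.aΦ.comp aTs
  have hs0' : ∀ᶠ s in 𝓝 s1, s ≠ 0 := continuousAt_id.eventually_ne hs0
  have hI := I_ne_zero
  -- the derivative of the angle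
  have hder : ∀ᶠ s in 𝓝 s1, deriv Φ (T s) * deriv T s * (2 * I * s) =
      ((a + (c + 1) : ℕ) : ℂ) := by
    filter_upwards [hexp.eventually_nhds, hs0', aTs.eventually_analyticAt,
      hT.eventually hP.aΦ.eventually_analyticAt] with s h2 h3 h4 h5
    have h6 := HasDerivAt.comp s h5.differentiableAt.hasDerivAt h4.differentiableAt.hasDerivAt
    have h7 : HasDerivAt (fun s' => cexp (2 * I * Φ (T s')))
        (cexp (2 * I * Φ (T s)) * (2 * I * (deriv Φ (T s) * deriv T s))) s :=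
      (h6.const_mul (2 * I)).cexp
    have h8 : HasDerivAt (fun s' => cexp (2 * I * Φ (T s')))
        (((a + (c + 1) : ℕ) : ℂ) * s ^ (a + (c + 1) - 1)) s :=
      (hasDerivAt_pow (a + (c + 1)) s).congr_of_eventuallyEq h2
    have h9 := h7.unique h8
    rw [h2.self_of_nhds] at h9
    have e4 : s ^ (a + (c + 1)) = s * s ^ (a + (c + 1) - 1) := by
      rw [← pow_succ']; congr 1
    have h10 : s ^ (a + (c + 1) - 1) ≠ 0 := pow_ne_zero _ h3
    apply mul_left_cancel₀ h10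
    rw [e4] at h9
    linear_combination h9
  refine hJEND a (c + 1) v R ρ (fun s => Φ (T s)) s1 ha (by omega) hUI (by rwa [hR6]) hs0 aΨ ?_
    hG
  filter_upwards [hexp, hder, hsu, hT.eventually hEs, hT.eventually hP.eZ, hs0',
    hT.eventually hne'] with s h2 h3 h4 h5 h6 h7 h7'
  refine ⟨h2, ?_⟩
  obtain ⟨t1, t2, t3, t4, t5, t6⟩ := h5
  have t1' := t1 h7'
  rw [zpow_natCast] at t1'
  obtain ⟨h4a, h4b⟩ := h4
  have e3 : T s - t0 = s / h1 (T s) := by
    rw [eq_div_iff t5]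
    exact h4a
  have e5 : cexp (I * Φ (T s)) = cexp (Φ (T s) * I) := by
    congr 1; ring
  rw [h4b, e5]
  simp only [hA]
  rw [t1', e3] at h6
  have h8 : (s / h1 (T s)) ^ c * f (T s) * deriv T s * (2 * s) =
      ρ (Φ (T s)) * cexp (Φ (T s) * I) * ((a + (c + 1) : ℕ) : ℂ) := by
    rw [h6, ← h3]
    ring
  have h9 : ρ (Φ (T s)) * cexp (Φ (T s) * I) =
      (s / h1 (T s)) ^ c * f (T s) * deriv T s * (2 * s) / ((a + (c + 1) : ℕ) : ℂ) := by
    rw [h8, mul_div_assoc, div_self hkc, mul_one]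
  rw [h9, div_pow]
  field_simp
  ring

end H719FX
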