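import Pool.Agent.H719R4.FX.Rat
import Pool.Agent.H719R4.FX.SIC
import Pool.Agent.H719R4.FX.SIN

/-! # PSN: inflectional asymptotes are impossible, non-isotropic direction -/

set_option autoImplicit false

open Complex Set Filter Topology

namespace H719FX

open H738CZ

/-- the coordinates near `t0` -/
theorem PSN_loc (t0 : ℂ) (k : ℕ) (hk : 1 ≤ k) (f g h : ℂ → ℂ) (af : AnalyticAt ℂ f t0)
    (ag : AnalyticAt ℂ g t0) (ah : AnalyticAt ℂ h t0) (nf : f t0 ≠ 0) (ng : g t0 ≠ 0)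
    (nh : h t0 ≠ 0) (eh : ∀ᶠ t in 𝓝 t0, g t * f t0 - f t * g t0 = (t - t0) ^ k * h t) :
    ∃ (Φ0 : ℂ) (Ψ S h2 : ℂ → ℂ), AnalyticAt ℂ S t0 ∧ S t0 = 0 ∧ deriv S t0 ≠ 0 ∧
      AnalyticAt ℂ h2 t0 ∧ AnalyticAt ℂ Ψ t0 ∧ h2 t0 ≠ 0 ∧
      ∀ᶠ t in 𝓝 t0, f t ≠ 0 ∧ g t ≠ 0 ∧ h2 t ≠ 0 ∧ S t = (t - t0) * h2 t ∧
        Ψ t = Φ0 + S t ^ k ∧ cexp (2 * I * Ψ t) = - f t / g t ∧ AnalyticAt ℂ Ψ t := by
  set H : ℂ → ℂ := fun t => h t / (g t * f t0) with hH
  have aH : AnalyticAt ℂ H t0 := ah.div (ag.mul analyticAt_const) (mul_ne_zero ng nf)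
  have nH : H t0 ≠ 0 := div_ne_zero nh (mul_ne_zero ng nf)
  set Φ0 : ℂ := log (-(f t0) / g t0) / (2 * I) with hΦ0
  have hI : (2 * I : ℂ) ≠ 0 := mul_ne_zero two_ne_zero I_ne_zero
  have eΦ0 : cexp (2 * I * Φ0) = -(f t0) / g t0 := by
    rw [hΦ0, mul_div_cancel₀ _ hI, exp_log]
    exact div_ne_zero (neg_ne_zero.2 nf) ng
  set F : ℂ → ℂ := fun w => log (1 - w) / (2 * I) with hF
  have aF : AnalyticAt ℂ F 0 := by
    refine AnalyticAt.div_const ?_
    refine AnalyticAt.clog (analyticAt_const.sub analyticAt_id) ?_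
    simp [one_mem_slitPlane]
  have F0 : F 0 = 0 := by simp [hF]
  have F1 : deriv F 0 ≠ 0 := by
    have hd : HasDerivAt F ((-1 / (1 - 0)) / (2 * I)) 0 := by
      refine HasDerivAt.div_const ?_ _
      refine HasDerivAt.clog ?_ ?_
      · simpa using (hasDerivAt_id (0 : ℂ)).const_sub 1
      · simp [one_mem_slitPlane]
    rw [hd.deriv]
    simp
  obtain ⟨L, aL, nL, eL⟩ := SIC_div F 0 aF F0 F1
  set P : ℂ → ℂ := fun t => (t - t0) ^ k * H t with hP
  have aP : AnalyticAt ℂ P t0 := ((analyticAt_id.sub analyticAt_const).pow k).mul aH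
  have P0 : P t0 = 0 := by
    simp only [hP, sub_self]
    rw [zero_pow (by omega), zero_mul]
  have aLP : AnalyticAt ℂ (fun t => L (P t)) t0 := by
    have : AnalyticAt ℂ L (P t0) := by rw [P0]; exact aL
    exact this.comp aP
  obtain ⟨h2, ah2, nh2, eh2⟩ := SIC_root (fun t => H t * L (P t)) t0 (aH.mul aLP)
    (mul_ne_zero nH (by rw [P0]; exact nL)) k (by omega)
  set S : ℂ → ℂ := fun t => (t - t0) * h2 t with hS
  have aS : AnalyticAt ℂ S t0 := (analyticAt_id.sub analyticAt_const).mul ah2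
  have dS : deriv S t0 ≠ 0 := by
    have hd : HasDerivAt S (1 * h2 t0 + (t0 - t0) * deriv h2 t0) t0 := by
      refine HasDerivAt.mul ?_ ah2.differentiableAt.hasDerivAt
      exact (hasDerivAt_id t0).sub_const t0
    rw [hd.deriv]
    simpa using nh2
  set Ψ : ℂ → ℂ := fun t => Φ0 + F (P t) with hΨ
  have aΨ : AnalyticAt ℂ Ψ t0 := by
    have : AnalyticAt ℂ F (P t0) := by rw [P0]; exact aF
    exact analyticAt_const.add (this.comp aP)
  refine ⟨Φ0, Ψ, S, h2, aS, by simp [hS], dS, ah2, aΨ, nh2, ?_⟩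
  have n1 : ∀ᶠ t in 𝓝 t0, f t ≠ 0 := af.continuousAt.eventually_ne nf
  have n2 : ∀ᶠ t in 𝓝 t0, g t ≠ 0 := ag.continuousAt.eventually_ne ng
  have n3 : ∀ᶠ t in 𝓝 t0, h2 t ≠ 0 := ah2.continuousAt.eventually_ne nh2
  filter_upwards [eh, n1, n2, n3, eh2, aΨ.eventually_analyticAt] with
    t th t1 t2 t3 th2 tΨ
  refine ⟨t1, t2, t3, rfl, ?_, ?_, tΨ⟩
  · simp only [hΨ]
    rw [eL, sub_zero]
    simp only [hS]
    rw [mul_pow, th2]
    simp only [hP]
    ring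
  · simp only [hΨ]
    have e1 : 1 - P t = f t * g t0 / (g t * f t0) := by
      simp only [hP, hH]
      field_simp
      linear_combination th
    rw [mul_add, Complex.exp_add, eΦ0]
    simp only [hF]
    rw [mul_div_cancel₀ _ hI, exp_log, e1]
    · field_simp
    · rw [e1]
      exact div_ne_zero (mul_ne_zero t1 ng) (mul_ne_zero t2 nf)

/-- the angle -/
theorem PSN_mod (f g q Φ Ψ ρ dΦ : ℂ) (hq : q ≠ 0) (hf : f ≠ 0) (hg : g ≠ 0)
    (hZ : q * f = ρ * dΦ * (I * cexp (Φ * I)))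
    (hW : q * g = ρ * dΦ * (-(I * cexp (-(Φ * I)))))
    (hΨ : cexp (2 * I * Ψ) = - f / g) : ∃ n : ℤ, Φ = Ψ + Real.pi * n := by
  apply SIC_exp_int
  rw [hΨ]
  have hρ : ρ * dΦ ≠ 0 := by
    intro h0
    rw [h0, zero_mul] at hZ
    exact mul_ne_zero hq hf hZ
  have e1 : cexp (2 * I * Φ) = cexp (Φ * I) * cexp (Φ * I) := by
    rw [← Complex.exp_add]; congr 1; ring
  have e2 : cexp (Φ * I) * cexp (-(Φ * I)) = 1 := by
    rw [← Complex.exp_add]; simp
  rw [e1, eq_div_iff hg]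
  apply mul_left_cancel₀ (mul_ne_zero hq (mul_ne_zero hρ I_ne_zero))
  have h3 : q * g * (ρ * dΦ * (I * cexp (Φ * I))) =
      q * f * (ρ * dΦ * (-(I * cexp (-(Φ * I))))) := by
    rw [← hZ, ← hW]; ring
  calc q * (ρ * dΦ * I) * (cexp (Φ * I) * cexp (Φ * I) * g)
      = (q * g * (ρ * dΦ * (I * cexp (Φ * I)))) * cexp (Φ * I) := by ring
    _ = (q * f * (ρ * dΦ * (-(I * cexp (-(Φ * I)))))) * cexp (Φ * I) := by rw [h3]
    _ = -(q * f * (ρ * dΦ * I)) * (cexp (Φ * I) * cexp (-(Φ * I))) := by ring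
    _ = q * (ρ * dΦ * I) * (-f) := by rw [e2]; ring

theorem tPSN (hNEND : StNEND) : StPSN := by
  intro Z W t0 a k ha hak hPB hgood
  obtain ⟨f, g, h, af, ag, ah, nf, ng, nh, eZ, eW, eh⟩ := hPB
  have hk : 1 ≤ k := by omega
  obtain ⟨Φ0, Ψ, S, h2, aS, S0, dS, ah2, aΨ, nh2, hE⟩ :=
    PSN_loc t0 k hk f g h af ag ah nf ng nh eh
  obtain ⟨T, aT, T0, eT⟩ := SIC_inv S t0 aS S0 dS
  have cT : ContinuousAt T 0 := aT.continuousAt
  have cT' : Tendsto T (𝓝 0) (𝓝 t0) := by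
    have := cT.tendsto
    rwa [T0] at this
  rw [eventually_nhdsWithin_iff] at eZ eW
  -- the function A
  set A : ℂ → ℂ := fun s => f (T s) * deriv T s * h2 (T s) ^ (a + 1) /
    (I * cexp (I * Ψ (T s))) / k with hA
  have dT : deriv T 0 ≠ 0 := by
    intro h0
    have h1 : HasDerivAt T 0 0 := by
      have := aT.differentiableAt.hasDerivAt
      rwa [h0] at this
    have h3 : HasDerivAt S (deriv S t0) (T 0) := by
      rw [T0]; exact aS.differentiableAt.hasDerivAt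
    have h2' := HasDerivAt.comp (0 : ℂ) h3 h1
    have h4 : HasDerivAt (fun s : ℂ => s) (deriv S t0 * 0) 0 :=
      h2'.congr_of_eventuallyEq (by filter_upwards [eT] with s hs; exact hs.symm)
    have h5 := h4.unique (hasDerivAt_id (0 : ℂ))
    simp at h5
  have hkc : (k : ℂ) ≠ 0 := by
    have : k ≠ 0 := by omega
    exact_mod_cast this
  have aA : AnalyticAt ℂ A 0 := by
    have a1 : AnalyticAt ℂ (fun s => f (T s)) 0 := by
      have : AnalyticAt ℂ f (T 0) := by rw [T0]; exact af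
      exact this.comp aT
    have a2 : AnalyticAt ℂ (fun s => h2 (T s)) 0 := by
      have : AnalyticAt ℂ h2 (T 0) := by rw [T0]; exact ah2
      exact this.comp aT
    have a3 : AnalyticAt ℂ (fun s => Ψ (T s)) 0 := by
      have : AnalyticAt ℂ Ψ (T 0) := by rw [T0]; exact aΨ
      exact this.comp aT
    refine AnalyticAt.div_const (AnalyticAt.div ((a1.mul aT.deriv).mul (a2.pow (a + 1)))
      (analyticAt_const.mul (analyticAt_const.mul a3).cexp) ?_)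
    exact mul_ne_zero I_ne_zero (exp_ne_zero _)
  have nA : A 0 ≠ 0 := by
    simp only [hA]
    rw [T0]
    exact div_ne_zero (div_ne_zero (mul_ne_zero (mul_ne_zero nf dT) (pow_ne_zero _ nh2))
      (mul_ne_zero I_ne_zero (exp_ne_zero _))) hkc
  obtain ⟨u, au, nu, eu⟩ := SIC_root A 0 aA nA 3 (by norm_num)
  -- collect all the local statements
  have hev : ∀ᶠ s in 𝓝 (0 : ℂ), AnalyticAt ℂ T s ∧ AnalyticAt ℂ u s ∧ u s ≠ 0 ∧
      (∀ᶠ s' in 𝓝 s, S (T s') = s' ∧ u s' ^ 3 = A s') ∧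
      (∀ᶠ t in 𝓝 (T s), (t ∈ ({t0}ᶜ : Set ℂ) → deriv Z t = (t - t0) ^ (-((a : ℤ) + 1)) * f t) ∧
        (t ∈ ({t0}ᶜ : Set ℂ) → deriv W t = (t - t0) ^ (-((a : ℤ) + 1)) * g t) ∧
        f t ≠ 0 ∧ g t ≠ 0 ∧ h2 t ≠ 0 ∧ S t = (t - t0) * h2 t ∧ Ψ t = Φ0 + S t ^ k ∧
        cexp (2 * I * Ψ t) = - f t / g t ∧ AnalyticAt ℂ Ψ t) := by
    filter_upwards [aT.eventually_analyticAt, au.eventually_analyticAt,
      au.continuousAt.eventually_ne nu, (eT.and eu).eventually_nhds,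
      cT'.eventually (eZ.and (eW.and hE)).eventually_nhds] with s h1 h2 h3 h4 h5
    exact ⟨h1, h2, h3, h4, h5⟩
  obtain ⟨δ, hδ, hball⟩ := Metric.eventually_nhds_iff_ball.1 hev
  set R : ℝ := δ ^ ((1 : ℝ) / 3) with hR
  have hR3 : R ^ 3 = δ := by
    rw [hR, ← Real.rpow_natCast, ← Real.rpow_mul hδ.le]
    norm_num
  have hUN : UN u R := by
    refine ⟨Real.rpow_pos_of_pos hδ _, ?_, ?_⟩
    · intro z hz
      rw [hR3] at hz
      exact (hball z hz).2.1.differentiableAt.differentiableWithinAt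
    · intro z hz
      rw [hR3] at hz
      exact (hball z hz).2.2.1
  have hTne : ∀ s ∈ Metric.ball (0 : ℂ) δ, s ≠ 0 → T s ≠ t0 := by
    intro s hs hs0 hTs
    have := (hball s hs).2.2.2.1.self_of_nhds.1
    rw [hTs, S0] at this
    exact hs0 this.symm
  -- choice of the point
  have hev1 : ∀ᶠ s in 𝓝[≠] (0 : ℂ), s ∈ Metric.ball (0 : ℂ) δ :=
    mem_nhdsWithin_of_mem_nhds (Metric.ball_mem_nhds _ hδ)
  have hev2 : ∀ᶠ s in 𝓝[≠] (0 : ℂ), s ≠ 0 := eventually_mem_nhdsWithin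
  have htend : Tendsto T (𝓝[≠] (0 : ℂ)) (𝓝[≠] t0) := by
    refine tendsto_nhdsWithin_iff.2 ⟨cT'.mono_left nhdsWithin_le_nhds, ?_⟩
    filter_upwards [hev1, hev2] with s hs1 hs2
    exact hTne s hs1 hs2
  obtain ⟨s, ⟨hs, hs0⟩, hs3⟩ := ((hev1.and hev2).and (htend.eventually hgood)).exists
  obtain ⟨Φ, ρ, hP, hG⟩ := hs3
  obtain ⟨aTs, aus, nus, hsu, hEs⟩ := hball s hs
  have hTs : T s ≠ t0 := hTne s hs hs0
  have hne : ∀ᶠ t in 𝓝 (T s), t ≠ t0 := continuousAt_id.eventually_ne hTs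
  have hmod : ∀ᶠ t in 𝓝 (T s), ∃ n : ℤ, Φ t = Ψ t + Real.pi * n := by
    filter_upwards [hEs, hne, hP.eZ, hP.eW] with t ht htn hZ hW
    obtain ⟨t1, t2, t3, t4, -, -, -, t8, -⟩ := ht
    rw [t1 htn] at hZ
    rw [t2 htn] at hW
    exact PSN_mod _ _ _ _ _ _ _ (zpow_ne_zero _ (sub_ne_zero.2 htn)) t3 t4 hZ hW t8
  have aΨs : AnalyticAt ℂ Ψ (T s) := hEs.self_of_nhds.2.2.2.2.2.2.2.2
  obtain ⟨j, hj⟩ := SIC_const Φ Ψ (T s) hP.aΦ.continuousAt aΨs.continuousAt hmod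
  set ω : ℂ := cexp (Real.pi * j * I) with hω
  have hω2 : ω ^ 2 = 1 := SIC_exp_pi j
  have hω0 : ω ≠ 0 := exp_ne_zero _
  have heq : Φ (T s) = Φ0 + Real.pi * j + s ^ k := by
    rw [hj.self_of_nhds, hEs.self_of_nhds.2.2.2.2.2.2.1, hsu.self_of_nhds.1]
    ring
  have hT : Tendsto T (𝓝 s) (𝓝 (T s)) := aTs.continuousAt
  have hjd : ∀ᶠ t in 𝓝 (T s), deriv Φ t = deriv Ψ t := by
    filter_upwards [hj.eventually_nhds] with t ht
    have h1 : Φ =ᶠ[𝓝 t] fun t => Ψ t + Real.pi * j := ht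
    rw [h1.deriv_eq, deriv_add_const]
  have hchain : ∀ᶠ s' in 𝓝 s, deriv Ψ (T s') * deriv T s' = k * s' ^ (k - 1) := by
    filter_upwards [hT.eventually hEs.eventually_nhds, hsu.eventually_nhds,
      aTs.eventually_analyticAt] with s' h1 h3 h4
    have h5 : AnalyticAt ℂ Ψ (T s') := h1.self_of_nhds.2.2.2.2.2.2.2.2
    have h6 := HasDerivAt.comp s' h5.differentiableAt.hasDerivAt
      h4.differentiableAt.hasDerivAt
    have h7 : Tendsto T (𝓝 s') (𝓝 (T s')) := h4.continuousAt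
    have h8 : ∀ᶠ s'' in 𝓝 s', Φ0 + s'' ^ k = (Ψ ∘ T) s'' := by
      filter_upwards [h7.eventually h1, h3] with s'' h9 h10
      rw [Function.comp, h9.2.2.2.2.2.2.1, h10.1]
    have h9 := h6.congr_of_eventuallyEq h8
    have h10 : HasDerivAt (fun s'' : ℂ => Φ0 + s'' ^ k) (k * s' ^ (k - 1)) s' :=
      (hasDerivAt_pow k s').const_add Φ0
    exact h9.unique h10
  have hs0' : ∀ᶠ s' in 𝓝 s, s' ≠ 0 := continuousAt_id.eventually_ne hs0
  have hfin : ∀ᶠ s' in 𝓝 s, ρ (Φ0 + Real.pi * j + s' ^ k) * s' ^ (a + k) =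
      (ω * u s') ^ 3 := by
    filter_upwards [hchain, hsu, hT.eventually hEs, hT.eventually hj, hT.eventually hjd,
      hT.eventually hP.eZ, hs0', hT.eventually hne] with s' h1 h3 h4 h5 h6 h7 h8 hTn
    obtain ⟨t1, t2, t3, t4, t5, t6, t7, t8, -⟩ := h4
    obtain ⟨h3a, h3b⟩ := h3
    have e1 : Φ (T s') = Φ0 + Real.pi * j + s' ^ k := by
      rw [h5, t7, h3a]; ring
    have e2 : cexp (Φ (T s') * I) = cexp (I * Ψ (T s')) * ω := by
      rw [h5, hω, ← Complex.exp_add]; congr 1; ring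
    have e3 : (T s' - t0) * h2 (T s') = s' := by
      rw [← t6, h3a]
    have e4 : s' ^ (a + k) = s' ^ (a + 1) * s' ^ (k - 1) := by
      rw [← pow_add]; congr 1; omega
    rw [h6, e2, e1, t1 hTn] at h7
    have hz0 : T s' - t0 ≠ 0 := sub_ne_zero.2 hTn
    have e5 : (T s' - t0) ^ (-((a : ℤ) + 1)) = ((T s' - t0) ^ (a + 1))⁻¹ := by
      rw [zpow_neg]
      congr 1
    rw [e5] at h7
    -- multiply by `s' ^ (a + 1)` and the derivative of `T`
    have h9 : h2 (T s') ^ (a + 1) * f (T s') * deriv T s' =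
        ρ (Φ0 + Real.pi * j + s' ^ k) * (s' ^ (a + 1) * (k * s' ^ (k - 1))) *
          (I * (cexp (I * Ψ (T s')) * ω)) := by
      have h10 : s' ^ (a + 1) = (T s' - t0) ^ (a + 1) * h2 (T s') ^ (a + 1) := by
        rw [← mul_pow, e3]
      have h11 : ((T s' - t0) ^ (a + 1)) ≠ 0 := pow_ne_zero _ hz0
      calc h2 (T s') ^ (a + 1) * f (T s') * deriv T s'
          = ((T s' - t0) ^ (a + 1) * h2 (T s') ^ (a + 1)) *
            (((T s' - t0) ^ (a + 1))⁻¹ * f (T s')) * deriv T s' := by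
            field_simp
        _ = s' ^ (a + 1) * (ρ (Φ0 + Real.pi * j + s' ^ k) * deriv Ψ (T s') *
            (I * (cexp (I * Ψ (T s')) * ω))) * deriv T s' := by rw [← h10, h7]
        _ = ρ (Φ0 + Real.pi * j + s' ^ k) * (s' ^ (a + 1) * (deriv Ψ (T s') * deriv T s')) *
            (I * (cexp (I * Ψ (T s')) * ω)) := by ring
        _ = _ := by rw [h1]
    rw [mul_pow, h3b]
    simp only [hA]
    have hE0 : cexp (I * Ψ (T s')) ≠ 0 := exp_ne_zero _
    have h10 : ω ^ 3 = ω := by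
      calc ω ^ 3 = ω ^ 2 * ω := by ring
        _ = ω := by rw [hω2, one_mul]
    rw [h10, e4]
    have h12 : f (T s') * deriv T s' * h2 (T s') ^ (a + 1) =
        h2 (T s') ^ (a + 1) * f (T s') * deriv T s' := by ring
    rw [h12, h9]
    have hI0 := I_ne_zero
    field_simp
    rw [hω2, mul_one]
  have hTRL := tTRL tCHG tMON
  have hG' := hTRL kcs ρ (fun t => ρ (t + (Φ0 + Real.pi * j))) (Φ (T s)) (Φ0 + Real.pi * j) hG
    (Filter.Eventually.of_forall fun t => rfl)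
  have hsub : Φ (T s) - (Φ0 + Real.pi * j) = s ^ k := by rw [heq]; ring
  rw [hsub] at hG'
  have hs' : s ∈ Metric.ball (0 : ℂ) (R ^ 3) := by rw [hR3]; exact hs
  have hab : a + (k - a) = k := by omega
  have hab2 : 2 * a + (k - a) = a + k := by omega
  have hN := hNEND kcs SIN_ker a (k - a) (fun z => ω * u z) R
    (fun t => ρ (t + (Φ0 + Real.pi * j))) s ha (by omega)
    ⟨hUN.pos, hUN.df.const_mul ω, fun z hz => mul_ne_zero hω0 (hUN.nz z hz)⟩ hs' hs0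
  rw [hab, hab2] at hN
  refine hN ?_ hG'
  filter_upwards [hfin] with t ht
  have : t ^ k + (Φ0 + Real.pi * j) = Φ0 + Real.pi * j + t ^ k := by ring
  simp only [this]
  exact ht

end H719FX
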