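import Pool.Agent.H719R4.FX.Rat
import Pool.Agent.H719R4.FX.LC

/-! # RGA: good points of rational curves -/

set_option autoImplicit false

open Complex Set Filter Topology

namespace H719FX

open H738CZ

/-- derivative of a rational function -/
theorem RGA_deriv (P Q : Polynomial ℂ) (x : ℂ) (hQ : Q.eval x ≠ 0) :
    HasDerivAt (rf P Q)
      (((P.derivative * Q - P * Q.derivative).eval x) / (Q ^ 2).eval x) x := by
  have h := (P.hasDerivAt x).div (Q.hasDerivAt x) hQ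
  have e : (P.derivative * Q - P * Q.derivative).eval x / (Q ^ 2).eval x =
      (P.derivative.eval x * Q.eval x - P.eval x * Q.derivative.eval x) / Q.eval x ^ 2 := by
    simp
  rw [e]
  exact h

theorem RGA_ev (Q : Polynomial ℂ) (x : ℂ) (hQ : Q.eval x ≠ 0) : ∀ᶠ y in 𝓝 x, Q.eval y ≠ 0 :=
  Q.continuous.continuousAt.eventually_ne hQ

/-- second derivative of a rational function -/
theorem RGA_deriv2 (P Q : Polynomial ℂ) (x : ℂ) (hQ : Q.eval x ≠ 0) :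
    deriv (deriv (rf P Q)) x =
      ((P.derivative * Q - P * Q.derivative).derivative * Q ^ 2 -
        (P.derivative * Q - P * Q.derivative) * (Q ^ 2).derivative).eval x /
        ((Q ^ 2) ^ 2).eval x := by
  have h1 : deriv (rf P Q) =ᶠ[𝓝 x] rf (P.derivative * Q - P * Q.derivative) (Q ^ 2) := by
    filter_upwards [RGA_ev Q x hQ] with y hy
    exact (RGA_deriv P Q y hy).deriv
  rw [h1.deriv_eq]
  exact (RGA_deriv _ _ x (by rw [Polynomial.eval_pow]; exact pow_ne_zero 2 hQ)).deriv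

theorem tRGA (hSEG : StSEG) (hRSG : StRSG) : StRGA := by
  intro P Q P1 Q1 hQ hQ1 hex
  obtain ⟨ζ0, hq, hq1, hG⟩ := hex
  set N := P.derivative * Q - P * Q.derivative with hN
  set N1 := P1.derivative * Q1 - P1 * Q1.derivative with hN1
  set D := N.derivative * Q ^ 2 - N * (Q ^ 2).derivative with hD
  set D1 := N1.derivative * Q1 ^ 2 - N1 * (Q1 ^ 2).derivative with hD1
  set V := N * Q ^ 2 * D1 - D * (N1 * Q1 ^ 2) with hV
  have d1 : ∀ x, Q.eval x ≠ 0 → deriv (rf P Q) x = N.eval x / (Q ^ 2).eval x := fun x hx =>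
    (RGA_deriv P Q x hx).deriv
  have d2 : ∀ x, Q1.eval x ≠ 0 → deriv (rf P1 Q1) x = N1.eval x / (Q1 ^ 2).eval x := fun x hx =>
    (RGA_deriv P1 Q1 x hx).deriv
  have dd1 : ∀ x, Q.eval x ≠ 0 → deriv (deriv (rf P Q)) x = D.eval x / ((Q ^ 2) ^ 2).eval x :=
    fun x hx => RGA_deriv2 P Q x hx
  have dd2 : ∀ x, Q1.eval x ≠ 0 →
      deriv (deriv (rf P1 Q1)) x = D1.eval x / ((Q1 ^ 2) ^ 2).eval x :=
    fun x hx => RGA_deriv2 P1 Q1 x hx
  have hWr : ∀ x, Q.eval x ≠ 0 → Q1.eval x ≠ 0 → Wr (rf P Q) (rf P1 Q1) x =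
      V.eval x / (((Q ^ 2) ^ 2).eval x * ((Q1 ^ 2) ^ 2).eval x) := by
    intro x hx hx1
    unfold Wr
    rw [d1 x hx, d2 x hx1, dd1 x hx, dd2 x hx1, hV]
    simp only [Polynomial.eval_sub, Polynomial.eval_mul, Polynomial.eval_pow]
    field_simp
  obtain ⟨g1, g2, g3⟩ := LC_good hG
  rw [d1 _ hq] at g1
  rw [d2 _ hq1] at g2
  rw [hWr _ hq hq1] at g3
  have n1 : N.eval ζ0 ≠ 0 := fun h => g1 (by rw [h, zero_div])
  have n2 : N1.eval ζ0 ≠ 0 := fun h => g2 (by rw [h, zero_div])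
  have n3 : V.eval ζ0 ≠ 0 := fun h => g3 (by rw [h, zero_div])
  set M := Q * Q1 * N * N1 * V with hM
  have hM0 : M.eval ζ0 ≠ 0 := by
    rw [hM]
    simp only [Polynomial.eval_mul]
    exact mul_ne_zero (mul_ne_zero (mul_ne_zero (mul_ne_zero hq hq1) n1) n2) n3
  have hMne : M ≠ 0 := by
    intro h
    rw [h, Polynomial.eval_zero] at hM0
    exact hM0 rfl
  set B : Set ℂ := {x | M.eval x = 0} with hB
  have hBf : B.Finite := by
    have : B = {x | M.IsRoot x} := rfl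
    rw [this]
    exact Polynomial.finite_setOfPred_isRoot hMne
  have hBx : ∀ x, x ∉ B → Q.eval x ≠ 0 ∧ Q1.eval x ≠ 0 ∧ N.eval x ≠ 0 ∧ N1.eval x ≠ 0 ∧
      V.eval x ≠ 0 := by
    intro x hx
    have hx' : M.eval x ≠ 0 := hx
    rw [hM] at hx'
    simp only [Polynomial.eval_mul] at hx'
    refine ⟨?_, ?_, ?_, ?_, ?_⟩ <;> · intro h; apply hx'; rw [h]; ring
  have hder : ∀ t ∈ Bᶜ, deriv (rf P Q) t ≠ 0 ∧ deriv (rf P1 Q1) t ≠ 0 ∧
      Wr (rf P Q) (rf P1 Q1) t ≠ 0 := by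
    intro t ht
    obtain ⟨b1, b2, b3, b4, b5⟩ := hBx t ht
    rw [d1 t b1, d2 t b2, hWr t b1 b2]
    refine ⟨div_ne_zero b3 ?_, div_ne_zero b4 ?_, div_ne_zero b5 (mul_ne_zero ?_ ?_)⟩ <;>
      simp only [Polynomial.eval_pow] <;> positivity
  have hZ : DifferentiableOn ℂ (rf P Q) Bᶜ := fun t ht =>
    (RGA_deriv P Q t (hBx t ht).1).differentiableAt.differentiableWithinAt
  have hW : DifferentiableOn ℂ (rf P1 Q1) Bᶜ := fun t ht =>
    (RGA_deriv P1 Q1 t (hBx t ht).2.1).differentiableAt.differentiableWithinAt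
  refine ⟨B, hBf, fun ζ hζ => ⟨(hBx ζ hζ).1, (hBx ζ hζ).2.1, (hder ζ hζ).2.2, ?_⟩⟩
  obtain ⟨p, hp1, hp2⟩ := hRSG B ζ0 ζ hBf hM0 hζ
  have hGp := hSEG _ _ Bᶜ ζ0 p hBf.isClosed.isOpen_compl hZ hW hder hp1 hG
  exact hSEG _ _ Bᶜ p ζ hBf.isClosed.isOpen_compl hZ hW hder hp2 hGp

end H719FX
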