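import Pool.Agent.H719R4.FX.Rat
import Pool.Agent.H719R4.FX.TMI

/-!
# Task RIN of project FX: the bound at infinity

Proved by helper973 for project FX (helper719).
-/

open Complex Set Filter Topology

namespace H719FX

open H738CZ

/-- transformation of the Wronskian and of the affine curvature numerator -/
lemma RIN_trans {A B h : ℂ → ℂ} {t0 : ℂ} (hA : AnalyticAt ℂ A (h t0))
    (hB : AnalyticAt ℂ B (h t0)) (hh : AnalyticAt ℂ h t0) :
    Wr (fun t => A (h t)) (fun t => B (h t)) t0 = deriv h t0 ^ 3 * Wr A B (h t0) ∧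
      Mi (fun t => A (h t)) (fun t => B (h t)) t0 = deriv h t0 ^ 8 * Mi A B (h t0) := by
  set Z : ℂ → ℂ := fun t => A (h t) with hZdef
  set W : ℂ → ℂ := fun t => B (h t) with hWdef
  have hZ : ∀ᶠ t in 𝓝 t0, Z t = A (h t) := Eventually.of_forall fun _ => rfl
  have hW : ∀ᶠ t in 𝓝 t0, W t = B (h t) := Eventually.of_forall fun _ => rfl
  -- the Wronskian
  have eW : Wr Z W =ᶠ[𝓝 t0] fun t => deriv h t ^ 3 * Wr A B (h t) := by
    filter_upwards [TMI_three hA hh hZ, TMI_three hB hh hW] with t ⟨a1, a2, a3⟩ ⟨b1, b2, b3⟩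
    simp only [Wr]
    rw [a1, a2, b1, b2]
    ring
  have hwa := TMI_wr_an hA hB
  have eW1 : deriv (Wr Z W) =ᶠ[𝓝 t0] fun t => 3 * deriv h t ^ 2 * deriv (deriv h) t *
      Wr A B (h t) + deriv h t ^ 4 * deriv (Wr A B) (h t) := by
    filter_upwards [eW.deriv, TMI_chain hwa hh, TMI_self hh.deriv] with t b1 b2 b3
    rw [b1, ((b3.fun_pow 3).fun_mul b2).deriv]
    push_cast
    ring
  have eW2 : deriv (deriv (Wr Z W)) =ᶠ[𝓝 t0] fun t =>
      (6 * deriv h t * deriv (deriv h) t ^ 2 + 3 * deriv h t ^ 2 * deriv (deriv (deriv h)) t) *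
        Wr A B (h t) + 7 * deriv h t ^ 3 * deriv (deriv h) t * deriv (Wr A B) (h t) +
        deriv h t ^ 5 * deriv (deriv (Wr A B)) (h t) := by
    filter_upwards [eW1.deriv, TMI_chain hwa hh, TMI_chain hwa.deriv hh, TMI_self hh.deriv,
      TMI_self hh.deriv.deriv] with t b1 b2 b3 b4 b5
    rw [b1, ((((((b4.fun_pow 2).const_mul 3).fun_mul b5)).fun_mul b2).fun_add
      ((b4.fun_pow 4).fun_mul b3)).deriv]
    push_cast
    ring
  have hwd : ∀ᶠ t in 𝓝 t0, deriv (Wr A B) (h t) =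
      deriv A (h t) * deriv (deriv (deriv B)) (h t) -
        deriv (deriv (deriv A)) (h t) * deriv B (h t) :=
    hh.continuousAt.eventually (TMI_wr_deriv hA hB)
  have eM : ∀ᶠ t in 𝓝 t0, Mi Z W t = deriv h t ^ 8 * Mi A B (h t) := by
    filter_upwards [TMI_three hA hh hZ, TMI_three hB hh hW, eW, eW1, eW2, hwd] with t
      ⟨a1, a2, a3⟩ ⟨b1, b2, b3⟩ c0 c1 c2 c3
    simp only [Mi]
    rw [c0, c1, c2, a2, a3, b2, b3, c3]
    simp only [Wr]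
    ring
  exact ⟨eW.self_of_nhds, eM.self_of_nhds⟩

/-- nonzero polynomials do not vanish far from the origin -/
lemma RIN_far {Q : Polynomial ℂ} (hQ : Q ≠ 0) : ∃ R : ℝ, ∀ ζ : ℂ, R < ‖ζ‖ → Q.eval ζ ≠ 0 := by
  classical
  have hfin : (Q.roots.toFinset : Set ℂ).Finite := Finset.finite_toSet _
  obtain ⟨R, hR⟩ := hfin.isBounded.exists_norm_le
  refine ⟨R, fun ζ hζ h0 => ?_⟩
  have hm : ζ ∈ (Q.roots.toFinset : Set ℂ) := by
    simp only [Finset.mem_coe, Multiset.mem_toFinset]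
    exact (Polynomial.mem_roots hQ).mpr h0
  exact absurd (hR ζ hm) (not_le.mpr hζ)

/-- rational functions are analytic off the zeros of the denominator -/
lemma RIN_an (P Q : Polynomial ℂ) {ζ : ℂ} (h : Q.eval ζ ≠ 0) : AnalyticAt ℂ (rf P Q) ζ := by
  have hp : ∀ R : Polynomial ℂ, AnalyticAt ℂ (fun z => R.eval z) ζ := fun R =>
    R.differentiable.analyticAt ζ
  exact (hp P).fun_div (hp Q) h

theorem tRIN : StRIN := by
  intro P Q P1 Q1 hQ hQ1 ⟨C, hC⟩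
  obtain ⟨R1, hR1⟩ := RIN_far hQ
  obtain ⟨R2, hR2⟩ := RIN_far hQ1
  rw [eventually_nhdsWithin_iff, Metric.eventually_nhds_iff] at hC
  obtain ⟨ε, hε, hC⟩ := hC
  refine ⟨C, max (max R1 R2) ε⁻¹, fun ζ hζ => ?_⟩
  have hz1 : Q.eval ζ ≠ 0 := hR1 ζ (lt_of_le_of_lt (le_trans (le_max_left _ _) (le_max_left _ _)) hζ)
  have hz2 : Q1.eval ζ ≠ 0 :=
    hR2 ζ (lt_of_le_of_lt (le_trans (le_max_right _ _) (le_max_left _ _)) hζ)
  have hz3 : ε⁻¹ < ‖ζ‖ := lt_of_le_of_lt (le_max_right _ _) hζ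
  have hpos : 0 < ‖ζ‖ := lt_trans (inv_pos.mpr hε) hz3
  have hζ0 : ζ ≠ 0 := norm_pos_iff.mp hpos
  have hη0 : ζ⁻¹ ≠ 0 := inv_ne_zero hζ0
  have hdist : dist ζ⁻¹ 0 < ε := by
    rw [dist_zero_right, norm_inv]
    exact inv_lt_of_inv_lt₀ hε hz3
  have hb := hC hdist hη0
  have hh : AnalyticAt ℂ (fun η : ℂ => η⁻¹) ζ⁻¹ := analyticAt_inv hη0
  have hii : (fun η : ℂ => η⁻¹) ζ⁻¹ = ζ := inv_inv ζ
  have hA : AnalyticAt ℂ (rf P Q) ((fun η : ℂ => η⁻¹) ζ⁻¹) := by rw [hii]; exact RIN_an P Q hz1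
  have hB : AnalyticAt ℂ (rf P1 Q1) ((fun η : ℂ => η⁻¹) ζ⁻¹) := by rw [hii]; exact RIN_an P1 Q1 hz2
  obtain ⟨eW, eM⟩ := RIN_trans hA hB hh
  simp only [inv_inv] at eW eM
  have hd : deriv (fun η : ℂ => η⁻¹) ζ⁻¹ ≠ 0 := by
    rw [deriv_inv]
    exact neg_ne_zero.mpr (inv_ne_zero (pow_ne_zero 2 hη0))
  set d := deriv (fun η : ℂ => η⁻¹) ζ⁻¹ with hddef
  rw [eW, eM, norm_mul, norm_mul, norm_pow, norm_pow, mul_pow, mul_pow, ← pow_mul, ← pow_mul] at hb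
  norm_num at hb
  have hdp : (0 : ℝ) < ‖d‖ ^ 24 := pow_pos (norm_pos_iff.mpr hd) 24
  have hb' : ‖d‖ ^ 24 * ‖Mi (rf P Q) (rf P1 Q1) ζ‖ ^ 3 ≤
      ‖d‖ ^ 24 * (C * ‖Wr (rf P Q) (rf P1 Q1) ζ‖ ^ 8) := by
    refine hb.trans (le_of_eq ?_)
    ring
  exact le_of_mul_le_mul_left hb' hdp

end H719FX
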