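import Pool.Agent.H719R4.FX.Rat

open Complex Set Filter Topology

namespace H719FX

open H738CZ

/-- removable singularities at finitely many points and Liouville's theorem -/
lemma RLV_const (q : ℂ → ℂ) (B : Set ℂ) (hB : B.Finite) (hq : DifferentiableOn ℂ q Bᶜ)
    (hb : ∀ ζ0 : ℂ, ∃ C : ℝ, ∀ᶠ t in 𝓝[≠] ζ0, ‖q t‖ ≤ C)
    (hi : ∃ C R : ℝ, ∀ ζ : ℂ, R < ‖ζ‖ → ζ ∉ B → ‖q ζ‖ ≤ C) :
    ∃ m0 : ℂ, ∀ ζ ∉ B, q ζ = m0 := by
  classical
  obtain ⟨q', hq'⟩ : ∃ q' : ℂ → ℂ, q' = fun ζ => if ζ ∈ B then limUnder (𝓝[≠] ζ) q else q ζ :=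
    ⟨_, rfl⟩
  have hq'B : ∀ ζ ∉ B, q' ζ = q ζ := fun ζ h => by rw [hq']; simp only [if_neg h]
  have hBo : IsOpen Bᶜ := hB.isClosed.isOpen_compl
  -- `q'` is entire
  have hd : Differentiable ℂ q' := by
    intro ζ0
    by_cases h0 : ζ0 ∈ B
    · have hB' : (B \ {ζ0}).Finite := hB.subset sdiff_subset
      obtain ⟨C, hC⟩ := hb ζ0
      rw [eventually_nhdsWithin_iff] at hC
      have hU : ∀ᶠ t in 𝓝 ζ0, t ∉ B \ {ζ0} :=
        hB'.isClosed.isOpen_compl.mem_nhds (by simp)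
      obtain ⟨s, hs, hso, hs0⟩ := eventually_nhds_iff.mp (hC.and hU)
      have hsn : s ∈ 𝓝 ζ0 := hso.mem_nhds hs0
      have hnB : ∀ t ∈ s \ {ζ0}, t ∉ B := by
        intro t ht htB
        exact (hs t ht.1).2 ⟨htB, ht.2⟩
      have h1 : DifferentiableOn ℂ q (s \ {ζ0}) := hq.mono fun t ht => hnB t ht
      have h2 : BddAbove (norm ∘ q '' (s \ {ζ0})) := by
        refine ⟨C, ?_⟩
        rintro _ ⟨t, ht, rfl⟩
        exact (hs t ht.1).1 ht.2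
      have h3 := Complex.differentiableOn_update_limUnder_of_bddAbove hsn h1 h2
      have h4 : EqOn q' (Function.update q ζ0 (limUnder (𝓝[≠] ζ0) q)) s := by
        intro t ht
        by_cases ht0 : t = ζ0
        · rw [ht0, Function.update_self, hq']
          simp only [if_pos h0]
        · rw [Function.update_of_ne ht0, hq'B t (hnB t ⟨ht, ht0⟩)]
      exact (h3.congr h4).differentiableAt hsn
    · have h1 : DifferentiableAt ℂ q ζ0 := hq.differentiableAt (hBo.mem_nhds h0)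
      refine h1.congr_of_eventuallyEq ?_
      filter_upwards [hBo.mem_nhds h0] with t ht
      exact hq'B t ht
  -- `q'` is bounded
  have hbd : Bornology.IsBounded (range q') := by
    obtain ⟨C, R, hCR⟩ := hi
    obtain ⟨R', hR'⟩ := hB.isBounded.subset_closedBall (0 : ℂ)
    obtain ⟨C', hC'⟩ := (isCompact_closedBall (0 : ℂ) (max R R')).exists_bound_of_continuousOn
      hd.continuous.continuousOn
    rw [isBounded_iff_forall_norm_le]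
    refine ⟨max C C', ?_⟩
    rintro _ ⟨ζ, rfl⟩
    by_cases hζ : ζ ∈ Metric.closedBall (0 : ℂ) (max R R')
    · exact (hC' ζ hζ).trans (le_max_right _ _)
    · rw [mem_closedBall_zero_iff, not_le, max_lt_iff] at hζ
      have hn : ζ ∉ B := by
        intro h
        have := hR' h
        rw [mem_closedBall_zero_iff] at this
        linarith [hζ.2]
      rw [hq'B ζ hn]
      exact (hCR ζ hζ.1 hn).trans (le_max_left _ _)
  obtain ⟨m0, hm0⟩ := hd.exists_const_forall_eq_of_bounded hbd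
  exact ⟨m0, fun ζ h => by rw [← hq'B ζ h, hm0]⟩

lemma RLV_quot {a b : ℂ} {C : ℝ} (hb : b ≠ 0) (h : ‖a‖ ^ 3 ≤ C * ‖b‖ ^ 8) :
    ‖a ^ 3 / b ^ 8‖ ≤ C := by
  have hb' : 0 < ‖b‖ := norm_pos_iff.mpr hb
  rw [norm_div, norm_pow, norm_pow, div_le_iff₀ (by positivity)]
  exact h

theorem tRLV : StRLV := by
  intro P Q P1 Q1 _ _ hB hbd hinf
  obtain ⟨B, hBf, hB⟩ := hB
  have hBo : IsOpen Bᶜ := hBf.isClosed.isOpen_compl
  have hZ : DifferentiableOn ℂ (rf P Q) Bᶜ := by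
    intro ζ hζ
    unfold rf
    exact (P.differentiable.differentiableAt.div Q.differentiable.differentiableAt
      (hB ζ hζ).1).differentiableWithinAt
  have hW : DifferentiableOn ℂ (rf P1 Q1) Bᶜ := by
    intro ζ hζ
    unfold rf
    exact (P1.differentiable.differentiableAt.div Q1.differentiable.differentiableAt
      (hB ζ hζ).2.1).differentiableWithinAt
  have hZ1 := hZ.deriv hBo
  have hW1 := hW.deriv hBo
  have hZ2 := hZ1.deriv hBo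
  have hW2 := hW1.deriv hBo
  have hWr : DifferentiableOn ℂ (Wr (rf P Q) (rf P1 Q1)) Bᶜ := by
    unfold Wr
    exact (hZ1.mul hW2).sub (hZ2.mul hW1)
  have hZ3 := hZ2.deriv hBo
  have hW3 := hW2.deriv hBo
  have hWr1 := hWr.deriv hBo
  have hWr2 := hWr1.deriv hBo
  have hMi : DifferentiableOn ℂ (Mi (rf P Q) (rf P1 Q1)) Bᶜ := by
    unfold Mi
    exact (((hWr1.pow 2).const_mul (5 / 9)).sub ((hWr2.const_mul (1 / 3)).mul hWr)).sub
      (((hZ2.mul hW3).sub (hZ3.mul hW2)).mul hWr)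
  have h1 : ∀ ζ0 : ℂ, ∃ C : ℝ, ∀ᶠ t in 𝓝[≠] ζ0,
      ‖Mi (rf P Q) (rf P1 Q1) t ^ 3 / Wr (rf P Q) (rf P1 Q1) t ^ 8‖ ≤ C := by
    intro ζ0
    obtain ⟨C, hC⟩ := hbd ζ0
    refine ⟨C, ?_⟩
    have hU : ∀ᶠ t in 𝓝 ζ0, t ∉ B \ {ζ0} :=
      (hBf.subset sdiff_subset).isClosed.isOpen_compl.mem_nhds (by simp)
    filter_upwards [hC, nhdsWithin_le_nhds hU, self_mem_nhdsWithin] with t h1 h2 h3
    exact RLV_quot (hB t fun h => h2 ⟨h, h3⟩).2.2 h1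
  have h2 : ∃ C R : ℝ, ∀ ζ : ℂ, R < ‖ζ‖ → ζ ∉ B →
      ‖Mi (rf P Q) (rf P1 Q1) ζ ^ 3 / Wr (rf P Q) (rf P1 Q1) ζ ^ 8‖ ≤ C := by
    obtain ⟨C, R, hCR⟩ := hinf
    exact ⟨C, R, fun ζ h1 h2 => RLV_quot (hB ζ h2).2.2 (hCR ζ h1)⟩
  obtain ⟨m0, hm0⟩ := RLV_const
    (fun ζ => Mi (rf P Q) (rf P1 Q1) ζ ^ 3 / Wr (rf P Q) (rf P1 Q1) ζ ^ 8) B hBf
    ((hMi.pow 3).fun_div (hWr.pow 8) fun ζ hζ => pow_ne_zero 8 (hB ζ hζ).2.2) h1 h2
  refine ⟨m0, B, hBf, fun ζ hζ => ?_⟩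
  have h := hm0 ζ hζ
  rwa [div_eq_iff (pow_ne_zero 8 (hB ζ hζ).2.2)] at h

end H719FX
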