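import Pool.Agent.H719R4.FX.Rat

set_option autoImplicit false

open Complex Set Filter Topology

namespace H719FX

/-- the condition that `t + i t²` lies on the line through `a` with direction `d` -/
noncomputable def RSG_P (a d : ℂ) : Polynomial ℝ :=
  Polynomial.C d.re * Polynomial.X ^ 2 - Polynomial.C d.im * Polynomial.X -
    Polynomial.C ((a * (starRingEnd ℂ) d).im)

lemma RSG_P_ne (a d : ℂ) (hd : d ≠ 0) : RSG_P a d ≠ 0 := by
  intro h
  have h2 : (RSG_P a d).coeff 2 = 0 := by rw [h]; simp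
  have h1 : (RSG_P a d).coeff 1 = 0 := by rw [h]; simp
  have e2 : (RSG_P a d).coeff 2 = d.re := by
    simp [RSG_P, Polynomial.coeff_X, Polynomial.coeff_C]
  have e1 : (RSG_P a d).coeff 1 = -d.im := by
    simp [RSG_P, Polynomial.coeff_X, Polynomial.coeff_C, Polynomial.coeff_X_pow]
  rw [e2] at h2
  rw [e1] at h1
  apply hd
  apply Complex.ext
  · simpa using h2
  · simpa using h1

lemma RSG_eval (a d : ℂ) (t : ℝ) : (RSG_P a d).eval t =
    (((⟨t, t ^ 2⟩ : ℂ) - a) * (starRingEnd ℂ) d).im := by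
  simp [RSG_P, Complex.mul_im]
  ring

lemma RSG_seg (a x p : ℂ) (h : x ∈ segment ℝ a p) :
    ((p - a) * (starRingEnd ℂ) (x - a)).im = 0 := by
  rw [segment_eq_image'] at h
  obtain ⟨θ, _, hθ⟩ := h
  have h1 : x - a = (θ : ℂ) * (p - a) := by
    rw [← hθ]
    simp only [Complex.real_smul]
    ring
  rw [h1, map_mul, Complex.conj_ofReal]
  have h2 : (p - a) * ((θ : ℂ) * (starRingEnd ℂ) (p - a)) =
      ((θ * Complex.normSq (p - a) : ℝ) : ℂ) := by
    rw [Complex.ofReal_mul, ← Complex.mul_conj]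
    ring
  rw [h2, Complex.ofReal_im]

theorem tRSG : StRSG := by
  classical
  intro B a b hB ha hb
  set S := hB.toFinset with hS
  have hP : (∏ x ∈ S, (RSG_P a (x - a) * RSG_P b (x - b))) ≠ 0 := by
    rw [Finset.prod_ne_zero_iff]
    intro x hx
    have hxB : x ∈ B := by rw [hS, Set.Finite.mem_toFinset] at hx; exact hx
    refine mul_ne_zero (RSG_P_ne _ _ ?_) (RSG_P_ne _ _ ?_)
    · intro h
      rw [sub_eq_zero] at h
      exact ha (h ▸ hxB)
    · intro h
      rw [sub_eq_zero] at h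
      exact hb (h ▸ hxB)
  have hex : ∃ t : ℝ, (∏ x ∈ S, (RSG_P a (x - a) * RSG_P b (x - b))).eval t ≠ 0 := by
    by_contra hc
    push Not at hc
    apply hP
    apply Polynomial.funext
    intro t
    rw [hc t, Polynomial.eval_zero]
  obtain ⟨t, ht⟩ := hex
  rw [Polynomial.eval_prod, Finset.prod_ne_zero_iff] at ht
  refine ⟨⟨t, t ^ 2⟩, ?_, ?_⟩
  · intro x hx hxB
    have h1 := ht x (by rw [hS, Set.Finite.mem_toFinset]; exact hxB)
    rw [Polynomial.eval_mul, RSG_eval, RSG_eval, RSG_seg a x _ hx, zero_mul] at h1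
    exact h1 rfl
  · intro x hx hxB
    have h1 := ht x (by rw [hS, Set.Finite.mem_toFinset]; exact hxB)
    rw [segment_symm] at hx
    rw [Polynomial.eval_mul, RSG_eval, RSG_eval, RSG_seg b x _ hx, mul_zero] at h1
    exact h1 rfl

end H719FX
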