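import Pool.Agent.H719R4.FX.Fin5n
import Pool.Agent.H719R4.FX.PLC
import Pool.Agent.H719R4.FX.PCL
import Pool.Agent.H719R4.FX.PSN
import Pool.Agent.H719R4.FX.PSI
import Pool.Agent.H719R4.FX.PPB
import Pool.Agent.H719R4.FX.PPI
import Pool.Agent.H719R4.FX.GRP
import Pool.Agent.H719R4.FX.RSG
import Pool.Agent.H719R4.FX.RGA
import Pool.Agent.H719R4.FX.RIN
import Pool.Agent.H719R4.FX.RLV
import Pool.Agent.H719R4.FX.CQU
import Pool.Agent.H719R4.FX.CEL
import Pool.Agent.H719R4.FX.RAX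
import Pool.Agent.H719R4.FX.TMI

/-! # Assembly, sixth part: rational ovals -/

open Complex Set Filter Topology

namespace H719FX

open H738CZ

theorem fin_seg : StSEG := by
  obtain ⟨-, -, -, -, -, -, -, -, hTRL, hDSC⟩ := cz
  exact tSEG tPA tSGN hTRL hDSC

theorem fin_plc : StPLC :=
  tPLC tPCL (tPSN fin_nend) (tPSI fin_jend) tPPB tPPI fin_sin (tISIN fin_iend)
    (tGRN tSIR fin_nex tGIN) (tGRI tISR fin_iex tGIN) tREG tREF tTMI

theorem fin_rax : StRAX :=
  tRAX fin_sta tSTZ tGRP (tRGA fin_seg tRSG) fin_plc tRIN tRLV tCQU tCEL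

end H719FX
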