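import Pool.Agent.H719R4.FX.Iso

/-!
Task ITT: contraction along trajectories (isotropic case).
-/

open Complex Set Filter Topology

namespace H719FX

open H738CZ

theorem ITT_fac_le (n : ℕ) (s : ℂ) (h : 1 ≤ ‖s‖) : ‖(s⁻¹) ^ n‖ ≤ 1 := by
  rw [norm_pow, norm_inv]
  exact pow_le_one₀ (by positivity) (inv_le_one_of_one_le₀ h)

theorem tITT (_hVA : StVA) (hVB : StVB) (hIVB : StIVB) : StITT := by
  intro p k x0 x hp hk hT hne hlt s hs
  have hB := hVB p k hp hk
  have hge : ∀ t, 0 ≤ t → 1 ≤ ‖x t‖ := fun t ht => (hT.mem t ht).1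
  set φ : ℝ → ℂ := fun s => Bm p k (x s)⁻¹ with hφ
  have hder : ∀ t, 0 ≤ t →
      HasDerivWithinAt φ (((x t)⁻¹) ^ (2 * p + k) * Bm p k (x t)) (Ici 0) t := by
    intro t ht
    have hm := hT.mem t ht
    have hx0 : x t ≠ 0 := by
      intro h
      have := hge t ht
      rw [h, norm_zero] at this
      linarith
    have h2 := hIVB p k (x t) hp hk hx0
    have h3 := hT.der t ht
    have h4 := h2.comp_hasDerivWithinAt t h3
    have h5 := hB.vB (x t) hm
    have h6 : Bd p k (x t) * ((x t)⁻¹) ^ (2 * p + k) * vf p k (x t) =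
        ((x t)⁻¹) ^ (2 * p + k) * Bm p k (x t) := by
      rw [← h5]
      ring
    rw [h6] at h4
    exact h4
  have hcont : ContinuousOn φ (Icc 0 s) := by
    intro t ht
    exact ((hder t ht.1).continuousWithinAt).mono Icc_subset_Ici_self
  have hnorm : ∀ t, 0 ≤ t → ‖Bm p k (x t)‖ = Real.exp t * ‖Bm p k x0‖ := by
    intro t ht
    rw [hT.val t ht, norm_mul, Complex.norm_real, Real.norm_eq_abs, abs_of_pos (Real.exp_pos t)]
  have key := image_norm_le_of_norm_deriv_right_le_deriv_boundary (f := φ)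
    (f' := fun t => ((x t)⁻¹) ^ (2 * p + k) * Bm p k (x t)) (a := 0) (b := s) hcont
    (fun t ht => (hder t ht.1).mono (Ici_subset_Ici.2 ht.1))
    (B := fun t => ‖φ 0‖ + (Real.exp t - 1) * ‖Bm p k x0‖)
    (B' := fun t => Real.exp t * ‖Bm p k x0‖) (by simp)
    (fun t => by
      have := ((((Real.hasDerivAt_exp t).sub_const 1).mul_const ‖Bm p k x0‖).const_add ‖φ 0‖)
      exact this)
    (fun t ht => by
      rw [norm_mul, hnorm t ht.1]
      exact mul_le_of_le_one_left (by positivity) (ITT_fac_le _ (x t) (hge t ht.1)))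
    (right_mem_Icc.2 hs)
  have h0 : φ 0 = Bm p k x0⁻¹ := by
    rw [hφ]
    simp only
    rw [hT.ini]
  rw [h0] at key
  rw [hnorm s hs]
  have h6 : ‖φ s‖ = ‖Bm p k (x s)⁻¹‖ := rfl
  rw [← h6]
  linarith

end H719FX
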