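import Pool.Agent.H719R4.FX.Neg
import Pool.Agent.H719R4.FX.MDL

/-! NMDL (helper509, adapted from helper666): from the model law to the model relation. -/

open Complex Set Filter Topology

namespace H719FX

open H738CZ Asymptotics

/-- the exponent `ν` -/
noncomputable def NMDL_nu (a b : ℕ) : ℂ := (b : ℂ) / (a + b)

/-- the exponent `κ` -/
noncomputable def NMDL_ka (a b : ℕ) : ℂ := (2 * (a : ℂ) + 4 * b) / (3 * (a + b))

theorem NMDL_Yn (a b : ℕ) (ha : 1 ≤ a) (hb : a < b) (υ : ℂ) :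
    Yn a b υ = PowerSeries.C (υ ^ 3 * (a + b) ^ 2 / (a * b)) * (-MDLx_P (NMDL_nu a b)) := by
  have h1 : (a : ℂ) ≠ 0 := by exact_mod_cast (by omega : a ≠ 0)
  have h2 : (b : ℂ) ≠ 0 := by exact_mod_cast (by omega : b ≠ 0)
  have h3 : (a : ℂ) + b ≠ 0 := by exact_mod_cast (by omega : a + b ≠ 0)
  ext j
  rw [PowerSeries.coeff_C_mul, map_neg, MDLx_P_coeff, Yn, PowerSeries.coeff_mk]
  by_cases hj : j < 2
  · rw [if_pos hj, if_pos hj, neg_zero, mul_zero]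
  · rw [if_neg hj, if_neg hj]
    have h4 : (j.factorial : ℂ) ≠ 0 := by exact_mod_cast j.factorial_ne_zero
    have h5 : -(2 * (a : ℂ) + b) / (a + b) = NMDL_nu a b - 2 := by
      unfold NMDL_nu; field_simp; ring
    have h6 : NMDL_nu a b * (NMDL_nu a b - 1) = -((a : ℂ) * b / (a + b) ^ 2) := by
      unfold NMDL_nu; field_simp; ring
    rw [h5, h6]
    field_simp

theorem NMDL_S_dvd (ν : ℂ) (j : ℕ) :
    (PowerSeries.X : PowerSeries ℂ) ^ (2 * j) ∣ (-MDLx_S ν) ^ j := by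
  rw [neg_pow]
  exact (MDLx_S_dvd ν j).mul_left _

theorem NMDL_term (a b : ℕ) (ha : 1 ≤ a) (hb : a < b) (υ c : ℂ) (j : ℕ) :
    PowerSeries.C c * binS ((2 * (a : ℂ) + 4 * b - 3 * b * j) / (3 * (a + b))) *
        (Yn a b υ) ^ j =
      binS (NMDL_ka a b) *
        (PowerSeries.C (c * (υ ^ 3 * (a + b) ^ 2 / (a * b)) ^ j) *
          (-MDLx_S (NMDL_nu a b)) ^ j) := by
  have h3 : (a : ℂ) + b ≠ 0 := by exact_mod_cast (by omega : a + b ≠ 0)
  have h1 : (2 * (a : ℂ) + 4 * b - 3 * b * j) / (3 * (a + b)) =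
      NMDL_ka a b + -(NMDL_nu a b) * j := by
    unfold NMDL_ka NMDL_nu; field_simp; ring
  have h4 : (-MDLx_S (NMDL_nu a b)) = binS (-(NMDL_nu a b)) * (-MDLx_P (NMDL_nu a b)) := by
    rw [MDLx_S]; ring
  rw [h1, MDL_binS_add, ← MDL_binS_pow, NMDL_Yn a b ha hb, mul_pow, ← map_pow, map_mul, h4,
    mul_pow]
  ring

theorem NMDL_coeff {a b : ℕ} (ha : 1 ≤ a) (hb : a < b) {υ : ℂ} {β : ℕ → ℂ} (h : MLawN a b υ β)
    (N i : ℕ) (hi : i < N) :
    PowerSeries.coeff (2 * i + 1) (binS (NMDL_ka a b) *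
      ∑ j ∈ Finset.Ico 1 N,
        PowerSeries.C (β j * (υ ^ 3 * (a + b) ^ 2 / (a * b)) ^ j) *
          (-MDLx_S (NMDL_nu a b)) ^ j) = 0 := by
  have h1 : Finset.Ico 1 N = Finset.Ico 1 (i + 1) ∪ Finset.Ico (i + 1) N := by
    rw [Finset.Ico_union_Ico_eq_Ico (by omega) (by omega)]
  rw [h1, Finset.sum_union (Finset.Ico_disjoint_Ico_consecutive _ _ _), mul_add, map_add]
  have h2 : PowerSeries.coeff (2 * i + 1) (binS (NMDL_ka a b) *
      ∑ j ∈ Finset.Ico (i + 1) N,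
        PowerSeries.C (β j * (υ ^ 3 * (a + b) ^ 2 / (a * b)) ^ j) *
          (-MDLx_S (NMDL_nu a b)) ^ j) = 0 := by
    have h3 : (PowerSeries.X : PowerSeries ℂ) ^ (2 * (i + 1)) ∣ binS (NMDL_ka a b) *
      ∑ j ∈ Finset.Ico (i + 1) N,
        PowerSeries.C (β j * (υ ^ 3 * (a + b) ^ 2 / (a * b)) ^ j) *
          (-MDLx_S (NMDL_nu a b)) ^ j := by
      refine Dvd.dvd.mul_left (Finset.dvd_sum fun j hj => Dvd.dvd.mul_left ?_ _) _
      rw [Finset.mem_Ico] at hj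
      exact (pow_dvd_pow _ (by omega)).trans (NMDL_S_dvd _ j)
    exact PowerSeries.X_pow_dvd_iff.1 h3 _ (by omega)
  rw [h2, add_zero]
  rcases Nat.eq_zero_or_pos i with rfl | hpos
  · simp
  · have h4 := h i hpos
    rw [← h4]
    congr 1
    have h5 : Finset.Ico 1 (i + 1) = Finset.Icc 1 i := by
      ext x; simp only [Finset.mem_Ico, Finset.mem_Icc]; omega
    rw [h5, Finset.mul_sum]
    refine Finset.sum_congr rfl fun j _ => ?_
    rw [NMDL_term a b ha hb]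

theorem NMDL_s_eq (a b : ℕ) (ha : 1 ≤ a) {y : ℂ} (hy : y ≠ 0)
    (hre : 0 < (y ^ (a + b)).re)
    (hpow : (y ^ (a + b)) ^ (NMDL_nu a b) = y ^ b) :
    -MDLx_s (NMDL_nu a b) (-(1 - 1 / y ^ (a + b))) = Bn a b y := by
  unfold MDLx_s Bn
  have h3' : (a : ℂ) + b ≠ 0 := by exact_mod_cast (by omega : a + b ≠ 0)
  have h1 : 1 + -(1 - 1 / y ^ (a + b)) = (y ^ (a + b))⁻¹ := by ring
  have harg : (y ^ (a + b)).arg ≠ Real.pi := by
    intro h
    have := MDL_re hre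
    rw [h, abs_of_pos Real.pi_pos] at this
    linarith [Real.pi_pos]
  rw [h1, Complex.cpow_neg, Complex.inv_cpow _ _ harg, inv_inv, hpow]
  have h3 : y ^ b ≠ 0 := pow_ne_zero _ hy
  have h5 : y ^ b * (1 / y ^ (a + b)) = (y⁻¹) ^ a := by
    rw [pow_add, inv_pow]; field_simp
  have h6 : (a : ℂ) / (a + b) = 1 - NMDL_nu a b := by unfold NMDL_nu; field_simp; ring
  have h7 : (b : ℂ) / (a + b) = NMDL_nu a b := rfl
  rw [h6, h7]
  rw [← h5, mul_sub, mul_sub, mul_inv_cancel₀ h3]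
  ring

/-- the function `Θ` -/
noncomputable def NMDL_T (ν κ : ℂ) (α : ℕ → ℂ) (N : ℕ) (d : ℂ) : ℂ :=
  (1 + d) ^ κ * ∑ j ∈ Finset.Ico 1 N, α j * (-MDLx_s ν d) ^ j

theorem NMDL_neg (ν : ℂ) : MDL_R (fun d => -MDLx_s ν d) (-MDLx_S ν) := by
  have h := MDL_mul (MDL_const (-1)) (MDLx_s_R ν)
  have e1 : PowerSeries.C (-1 : ℂ) * MDLx_S ν = -MDLx_S ν := by
    rw [map_neg, map_one]; ring
  rw [e1] at h
  intro K
  refine (h K).congr_left fun d => ?_
  ring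

theorem NMDL_T_R (ν κ : ℂ) (α : ℕ → ℂ) (N : ℕ) :
    MDL_R (NMDL_T ν κ α N) (binS κ *
      ∑ j ∈ Finset.Ico 1 N, PowerSeries.C (α j) * (-MDLx_S ν) ^ j) := by
  unfold NMDL_T
  exact MDL_mul (MDL_cpow _) (MDL_sum _ _ _ fun j _ =>
    MDL_mul (MDL_const _) (MDL_pow (NMDL_neg ν) j))

theorem NMDL_eq (a b : ℕ) (ha : 1 ≤ a) (α : ℕ → ℂ) (N : ℕ) {s : ℂ} (hs : s ≠ 0)
    (hx : 0 < (s ^ (a + b)).re) (hx2 : 0 < (1 + (1 - 1 / s ^ (a + b))).re)
    (hpow : (s ^ (a + b)) ^ (NMDL_nu a b) = s ^ b)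
    (hlog : log (s ^ (a + b)) = ((a + b : ℕ) : ℂ) * log s)
    (hs' : Mon (a + b) s ≠ 0) (hx' : 0 < ((Mon (a + b) s) ^ (a + b)).re)
    (hpow' : ((Mon (a + b) s) ^ (a + b)) ^ (NMDL_nu a b) = (Mon (a + b) s) ^ b) :
    ∑ j ∈ Finset.Ico 1 N, α j * Bn a b s ^ j
      - Mcn a b s * ∑ j ∈ Finset.Ico 1 N, α j * Bn a b (Mon (a + b) s) ^ j =
    (s ^ (a + b)) ^ (NMDL_ka a b) *
      (NMDL_T (NMDL_nu a b) (NMDL_ka a b) α N (-(1 - 1 / s ^ (a + b))) -
        NMDL_T (NMDL_nu a b) (NMDL_ka a b) α N (1 - 1 / s ^ (a + b))) := by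
  have hk0 : ((a + b : ℕ) : ℂ) ≠ 0 := by exact_mod_cast (by omega : a + b ≠ 0)
  have hk0' : (a : ℂ) + b ≠ 0 := by exact_mod_cast (by omega : a + b ≠ 0)
  have h21 : 2 - (s⁻¹) ^ (a + b) ≠ 0 := by
    intro h
    have h1 : 1 + (1 - 1 / s ^ (a + b)) = 2 - (s⁻¹) ^ (a + b) := by
      rw [inv_pow]; ring
    rw [h1, h] at hx2
    simp at hx2
  have hMk : (Mon (a + b) s) ^ (a + b) = (2 - (s⁻¹) ^ (a + b))⁻¹ := by
    unfold Mon
    rw [← Complex.exp_nat_mul]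
    have : ((a + b : ℕ) : ℂ) * -(log (2 - (s⁻¹) ^ (a + b)) / ((a + b : ℕ) : ℂ)) =
        -log (2 - (s⁻¹) ^ (a + b)) := by
      field_simp
    rw [this, Complex.exp_neg, Complex.exp_log h21]
  have e1 : -MDLx_s (NMDL_nu a b) (-(1 - 1 / s ^ (a + b))) = Bn a b s :=
    NMDL_s_eq a b ha hs hx hpow
  have e2' := NMDL_s_eq a b ha hs' hx' hpow'
  have e2 : -MDLx_s (NMDL_nu a b) (1 - 1 / s ^ (a + b)) = Bn a b (Mon (a + b) s) := by
    rw [← e2', hMk]
    congr 2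
    rw [one_div, one_div, inv_inv, inv_pow]
    ring
  set x := s ^ (a + b) with hxd
  have hx0 : x ≠ 0 := pow_ne_zero _ hs
  have h1 : 1 + (1 - 1 / x) ≠ 0 := by
    intro h
    rw [h] at hx2
    simp at hx2
  have e3 : x ^ (NMDL_ka a b) * (1 + -(1 - 1 / x)) ^ (NMDL_ka a b) = 1 := by
    have : 1 + -(1 - 1 / x) = x⁻¹ := by ring
    rw [this, Complex.inv_cpow _ _ (fun h => ?_), mul_inv_cancel₀]
    · rw [Complex.cpow_ne_zero_iff]
      exact Or.inl hx0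
    · have := MDL_re hx
      rw [h, abs_of_pos Real.pi_pos] at this
      linarith [Real.pi_pos]
  have e4 : x ^ (NMDL_ka a b) * (1 + (1 - 1 / x)) ^ (NMDL_ka a b) = Mcn a b s := by
    unfold Mcn
    have h5 : 2 - (s⁻¹) ^ (a + b) = 1 + (1 - 1 / x) := by
      rw [inv_pow, ← hxd]; ring
    rw [h5, Complex.cpow_def_of_ne_zero hx0, Complex.cpow_def_of_ne_zero h1, ← Complex.exp_add,
      hlog]
    congr 1
    unfold NMDL_ka
    push_cast
    field_simp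
  unfold NMDL_T
  rw [e1, e2, mul_sub, ← mul_assoc, ← mul_assoc, e3, e4, one_mul]

/-- the principal powers near 1 -/
theorem NMDL_ev (a b : ℕ) (ha : 1 ≤ a) : ∀ᶠ t : ℂ in 𝓝 1,
    t ≠ 0 ∧ 0 < (t ^ (a + b)).re ∧ (t ^ (a + b)) ^ (NMDL_nu a b) = t ^ b ∧
      log (t ^ (a + b)) = ((a + b : ℕ) : ℂ) * log t := by
  have hk0 : (a : ℂ) + b ≠ 0 := by exact_mod_cast (by omega : a + b ≠ 0)
  have g1 : ∀ᶠ t : ℂ in 𝓝 1, 0 < (t ^ (a + b)).re := by
    have hc : Continuous fun t : ℂ => (t ^ (a + b)).re :=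
      Complex.continuous_re.comp (continuous_pow (a + b))
    refine (hc.tendsto 1).eventually (lt_mem_nhds ?_)
    simp
  have g2 : ∀ᶠ t : ℂ in 𝓝 1, -Real.pi < (((a + b : ℕ) : ℂ) * log t).im ∧
      (((a + b : ℕ) : ℂ) * log t).im < Real.pi := by
    have hc : ContinuousAt (fun t : ℂ => (((a + b : ℕ) : ℂ) * log t).im) 1 := by
      refine Complex.continuous_im.continuousAt.comp (ContinuousAt.mul continuousAt_const ?_)
      exact continuousAt_clog (by simp [slitPlane])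
    have h0 : (((a + b : ℕ) : ℂ) * log 1).im = 0 := by simp
    refine (hc.tendsto.eventually (lt_mem_nhds ?_)).and (hc.tendsto.eventually (gt_mem_nhds ?_))
    · rw [h0]; linarith [Real.pi_pos]
    · rw [h0]; exact Real.pi_pos
  filter_upwards [g1, g2, eventually_ne_nhds (one_ne_zero (α := ℂ))] with t h1 h2 h3
  have h4 : log (t ^ (a + b)) = ((a + b : ℕ) : ℂ) * log t := by
    rw [← Complex.log_exp h2.1 h2.2.le, Complex.exp_nat_mul, Complex.exp_log h3]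
  refine ⟨h3, h1, ?_, h4⟩
  rw [Complex.cpow_def_of_ne_zero (pow_ne_zero _ h3), h4]
  have h5 : ((a + b : ℕ) : ℂ) * log t * NMDL_nu a b = (b : ℂ) * log t := by
    unfold NMDL_nu
    push_cast
    field_simp
  rw [h5, Complex.exp_nat_mul, Complex.exp_log h3]

theorem NMDL_Mon (k : ℕ) : Tendsto (Mon k) (𝓝 1) (𝓝 1) := by
  have hc : ContinuousAt (Mon k) 1 := by
    unfold Mon
    refine Complex.continuous_exp.continuousAt.comp (ContinuousAt.neg (ContinuousAt.div_const ?_ _))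
    refine ContinuousAt.clog ?_ ?_
    · refine ContinuousAt.sub continuousAt_const (ContinuousAt.pow ?_ _)
      exact continuousAt_inv₀ one_ne_zero
    · rw [inv_one, one_pow]
      norm_num
  have h1 : Mon k 1 = 1 := by
    unfold Mon
    rw [inv_one, one_pow]
    norm_num
  have := hc.tendsto
  rwa [h1] at this

theorem tNMDL : StNMDL := by
  intro a b υ β ha hb hυ h N
  set α : ℕ → ℂ := fun j => β j * (υ ^ 3 * (a + b) ^ 2 / (a * b)) ^ j with hα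
  set T := NMDL_T (NMDL_nu a b) (NMDL_ka a b) α N with hT
  have h1 : (fun d => T (-d) - T d) =O[𝓝 0] fun d : ℂ => d ^ (2 * N + 1) :=
    MDL_parity (NMDL_T_R _ _ α N) N fun i hi => NMDL_coeff ha hb h N i hi
  have hD : HasDerivAt (fun x : ℂ => 1 - 1 / x ^ (a + b))
      (-(-(((a + b : ℕ) : ℂ) * 1 ^ (a + b - 1)) / (1 ^ (a + b)) ^ 2)) 1 := by
    have h2 : HasDerivAt (fun x : ℂ => x ^ (a + b)) (((a + b : ℕ) : ℂ) * 1 ^ (a + b - 1)) 1 :=
      hasDerivAt_pow (a + b) 1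
    have h3 := h2.inv (by simp)
    have h4 := h3.const_sub 1
    refine h4.congr_of_eventuallyEq (Eventually.of_forall fun x => ?_)
    simp [one_div]
  have ht : Tendsto (fun x : ℂ => 1 - 1 / x ^ (a + b)) (𝓝 1) (𝓝 0) := by
    have := hD.continuousAt.tendsto
    simpa using this
  have h2 := h1.comp_tendsto ht
  have h3 : (fun x : ℂ => (1 - 1 / x ^ (a + b)) ^ (2 * N + 1)) =O[𝓝 1]
      fun x => (x - 1) ^ (2 * N + 1) := by
    refine IsBigO.pow ?_ _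
    have h4 := hD.isBigO_sub
    refine h4.congr_left fun x => ?_
    simp
  have h6 : (fun x : ℂ => (x ^ (a + b)) ^ (NMDL_ka a b)) =O[𝓝 1] fun _ => (1 : ℂ) := by
    have : ContinuousAt (fun x : ℂ => (x ^ (a + b)) ^ (NMDL_ka a b)) 1 := by
      have h8 : ContinuousAt (fun y : ℂ => y ^ (NMDL_ka a b)) ((1 : ℂ) ^ (a + b)) :=
        continuousAt_cpow_const (by rw [one_pow]; simp [slitPlane])
      exact ContinuousAt.comp (f := fun x : ℂ => x ^ (a + b)) h8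
        (continuous_pow (a + b)).continuousAt
    exact this.tendsto.isBigO_one ℂ
  have h7 := h6.mul (h2.trans h3)
  refine h7.congr' ?_ (Eventually.of_forall fun x => one_mul _)
  have g2 : ∀ᶠ x : ℂ in 𝓝 1, 0 < (1 + (1 - 1 / x ^ (a + b))).re := by
    have : Tendsto (fun x : ℂ => (1 + (1 - 1 / x ^ (a + b))).re) (𝓝 1) (𝓝 ((1 + 0 : ℂ)).re) :=
      (Complex.continuous_re.tendsto _).comp (tendsto_const_nhds.add ht)
    refine this.eventually (lt_mem_nhds ?_)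
    simp
  filter_upwards [NMDL_ev a b ha, (NMDL_Mon (a + b)).eventually (NMDL_ev a b ha), g2]
    with s hs hs' hx2
  exact (NMDL_eq a b ha α N hs.1 hs.2.1 hx2 hs.2.2.1 hs.2.2.2 hs'.1 hs'.2.1 hs'.2.2.1).symm

end H719FX
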