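import Pool.Agent.H719R4.FX.Iso

/-!
# Places at infinity with an inflectional asymptote, non-isotropic direction

Definitions and statements (`Prop`s) only; no proofs.  This is the version of `FX/Defs.lean` for
`p = -a`, `k = a + b`, `1 ≤ a < b`: `x ~ s ^ (-a)`, `y ~ s ^ b`, `φ = t ^ k`,
`ρ = t ^ (-a - k) * u t ^ 3`, `t = τ ^ 3`.
-/

open Complex Set Filter Topology

namespace H719FX

open H738CZ

/-- cube root of `ρ` -/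
noncomputable def rn (a b : ℕ) (u : ℂ → ℂ) : ℂ → ℂ := fun τ => u (τ ^ 3) / τ ^ (2 * a + b)

noncomputable def ρn (a b : ℕ) (u : ℂ → ℂ) : ℂ → ℂ := fun τ => (rn a b u τ) ^ 3

/-- NINT: passing to the coordinate `τ` (from INT). -/
def StNINT : Prop := ∀ (kc : ℕ → ℂ) (a b : ℕ) (u : ℂ → ℂ) (R : ℝ) (ρ : ℂ → ℂ) (t1 : ℂ), 1 ≤ a →
  a < b → UN u R → t1 ∈ Metric.ball (0 : ℂ) (R ^ 3) → t1 ≠ 0 →
  (∀ᶠ t in 𝓝 t1, ρ (t ^ (a + b)) * t ^ (2 * a + b) = u t ^ 3) → Good kc ρ (t1 ^ (a + b)) →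
    ∃ (ω τ1 : ℂ) (η : ℝ) (g : ℕ → ℂ → ℂ), ω ^ 3 = 1 ∧ 0 < η ∧ Metric.ball τ1 η ⊆ V3 R ∧
      FI kc (dk (a + b)) (ρn a b (fun z => ω * u z)) (rn a b (fun z => ω * u z)) g
        (Metric.ball τ1 η) ∧ SG g (Metric.ball τ1 η)

/-- pole order condition for `g j` -/
def PolN (a b : ℕ) (R : ℝ) (g : ℕ → ℂ → ℂ) (j : ℕ) (G : ℂ → ℂ) : Prop :=
  DifferentiableOn ℂ G (Metric.ball 0 R) ∧
    ∀ τ ∈ V3 R, g j τ * τ ^ ((2 * a + 4 * b) * (j - 1)) = G τ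

/-- NWT: pole order of the inhomogeneous term (from WT). -/
def StNWT : Prop := ∀ (kc : ℕ → ℂ), Ker kc → ∀ (a b : ℕ) (u : ℂ → ℂ) (R : ℝ), 1 ≤ a → a < b →
  UN u R → ∀ (g : ℕ → ℂ → ℂ) (J : ℕ), 2 ≤ J →
  (∀ j, 1 ≤ j → j < J → DifferentiableOn ℂ (g j) (V3 R)) →
  (∀ j, 1 ≤ j → j < J → ∃ G, PolN a b R g j G) →
    ∃ F : ℂ → ℂ, DifferentiableOn ℂ F (Metric.ball 0 R) ∧ ∀ τ ∈ V3 R,
      ((rn a b u τ)⁻¹) ^ (2 * J) * Lo kc (dk (a + b)) (ρn a b u) (rn a b u) g J τ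
        * τ ^ ((2 * a + 4 * b) * (J - 1) + 3 * (a + b)) = F τ

/-- NEXT: extension to the punctured disc (no logarithms), with pole orders (from EXT). -/
def StNEXT : Prop := ∀ (kc : ℕ → ℂ), Ker kc → ∀ (a b : ℕ) (u : ℂ → ℂ) (R : ℝ), 1 ≤ a → a < b →
  UN u R → ∀ (g : ℕ → ℂ → ℂ) (τ1 : ℂ) (η : ℝ), 0 < η → Metric.ball τ1 η ⊆ V3 R →
  FI kc (dk (a + b)) (ρn a b u) (rn a b u) g (Metric.ball τ1 η) →
    ∃ g' : ℕ → ℂ → ℂ, FI kc (dk (a + b)) (ρn a b u) (rn a b u) g' (V3 R) ∧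
      (∀ j, 1 ≤ j → EqOn (g' j) (g j) (Metric.ball τ1 η)) ∧
      ∃ G : ℕ → ℂ → ℂ, ∀ j, 1 ≤ j → PolN a b R g' j (G j)

/-- NPRV: sub-Gevrey bounds propagate in the punctured disc (from PRV). -/
def StNPRV : Prop := ∀ (kc : ℕ → ℂ), Ker kc → ∀ (a b : ℕ) (u : ℂ → ℂ) (R : ℝ), 1 ≤ a → a < b →
  UN u R → ∀ (g : ℕ → ℂ → ℂ), FI kc (dk (a + b)) (ρn a b u) (rn a b u) g (V3 R) →
  ∀ (τ1 : ℂ) (η : ℝ), 0 < η → Metric.ball τ1 η ⊆ V3 R → SG g (Metric.ball τ1 η) →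
    ∀ τ ∈ V3 R, ∃ η' > 0, Metric.ball τ η' ⊆ V3 R ∧ SG g (Metric.ball τ η')

/-- NCRC: sub-Gevrey bounds for the leading coefficients, general weight (from CRC). -/
def StNCRC : Prop := ∀ (w : ℕ) (R : ℝ) (g G : ℕ → ℂ → ℂ), 0 < R →
  (∀ τ ∈ V3 R, ∃ η' > 0, Metric.ball τ η' ⊆ V3 R ∧ SG g (Metric.ball τ η')) →
  (∀ j, 1 ≤ j → DifferentiableOn ℂ (G j) (Metric.ball 0 R) ∧
    ∀ τ ∈ V3 R, g j τ * τ ^ (w * (j - 1)) = G j τ) →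
    ∃ C s : ℝ, 1 ≤ C ∧ 0 ≤ s ∧ s < 1 ∧
      ∀ j, 1 ≤ j → ‖G j 0‖ ≤ C ^ j * ((2 * j).factorial : ℝ) ^ s

/-- Taylor series of `υ³ ∫₀^X (1+s)^σ (X-s) ds`, `σ = -(2 a + b) / (a + b)` -/
noncomputable def Yn (a b : ℕ) (υ : ℂ) : PowerSeries ℂ :=
  PowerSeries.mk fun n => if n < 2 then 0 else
    υ ^ 3 * (∏ i ∈ Finset.range (n - 2), (-(2 * (a : ℂ) + b) / (a + b) - i)) / (n.factorial : ℂ)

/-- the homogeneous (model) law -/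
def MLawN (a b : ℕ) (υ : ℂ) (β : ℕ → ℂ) : Prop := ∀ J, 1 ≤ J →
  PowerSeries.coeff (2 * J + 1) (∑ j ∈ Finset.Icc 1 J,
    PowerSeries.C (β j) * binS ((2 * (a : ℂ) + 4 * b - 3 * b * j) / (3 * (a + b)))
      * (Yn a b υ) ^ j) = 0

/-- NLIM: the leading coefficients satisfy the model law (from LIM). -/
def StNLIM : Prop := ∀ (kc : ℕ → ℂ), Ker kc → ∀ (a b : ℕ) (u : ℂ → ℂ) (R : ℝ), 1 ≤ a → a < b →
  UN u R → ∀ (g G : ℕ → ℂ → ℂ), FI kc (dk (a + b)) (ρn a b u) (rn a b u) g (V3 R) →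
  (∀ j, 1 ≤ j → PolN a b R g j (G j)) → MLawN a b (u 0) (fun j => G j 0 * ((u 0)⁻¹) ^ j)

/-! ## The model -/

noncomputable def Bn (a b : ℕ) (s : ℂ) : ℂ :=
  (b : ℂ) / (a + b) * (s⁻¹) ^ a + (a : ℂ) / (a + b) * s ^ b - 1

/-- derivative of `Bn` -/
noncomputable def Bnd (a b : ℕ) (s : ℂ) : ℂ :=
  (a : ℂ) * b / (a + b) * (s⁻¹) ^ (a + 1) * (s ^ (a + b) - 1)

noncomputable def Mon (k : ℕ) (s : ℂ) : ℂ := cexp (-(log (2 - (s⁻¹) ^ k) / k))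

noncomputable def Mcn (a b : ℕ) (s : ℂ) : ℂ :=
  cexp ((2 * (a : ℂ) + 4 * b) / 3 * (log s + log (2 - (s⁻¹) ^ (a + b)) / (a + b)))

/-- the model relation for coefficients `α` (`α 0` is not used) -/
def MRelN (a b : ℕ) (α : ℕ → ℂ) : Prop := ∀ N : ℕ,
  (fun s : ℂ => ∑ j ∈ Finset.Ico 1 N, α j * Bn a b s ^ j
      - Mcn a b s * ∑ j ∈ Finset.Ico 1 N, α j * Bn a b (Mon (a + b) s) ^ j)
    =O[𝓝 1] fun s => (s - 1) ^ (2 * N + 1)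

/-- NMDL: from the model law to the model relation (from MDL). -/
def StNMDL : Prop := ∀ (a b : ℕ) (υ : ℂ) (β : ℕ → ℂ), 1 ≤ a → a < b → υ ≠ 0 → MLawN a b υ β →
  MRelN a b (fun j => β j * (υ ^ 3 * (a + b) ^ 2 / (a * b)) ^ j)

/-- the closed sector in the exterior of the unit disc -/
def Dn (b : ℕ) : Set ℂ := {s | 1 ≤ ‖s‖ ∧ |arg s| ≤ Real.pi / b}

/-- local uniformising coordinate `w`, `Bn (X w) = w²` -/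
structure LocN (a b : ℕ) (r c1 : ℝ) (X W : ℂ → ℂ) : Prop where
  r0 : 0 < r
  c0 : 0 < c1
  dX : DifferentiableOn ℂ X (Metric.ball 0 r)
  X0 : X 0 = 1
  X1 : deriv X 0 = c1
  BX : ∀ w ∈ Metric.ball (0 : ℂ) r, Bn a b (X w) = w ^ 2
  sl : ∀ w ∈ Metric.ball (0 : ℂ) r, X w ∈ slitPlane ∧ 2 - ((X w)⁻¹) ^ (a + b) ∈ slitPlane
  ge : ∀ w ∈ Metric.ball (0 : ℂ) r, 0 ≤ w.re → X w ∈ Dn b
  imp : ∀ w ∈ Metric.ball (0 : ℂ) r, 0 ≤ w.im → 0 ≤ (X w).im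
  imn : ∀ w ∈ Metric.ball (0 : ℂ) r, w.im ≤ 0 → (X w).im ≤ 0
  gt : ∀ w ∈ Metric.ball (0 : ℂ) r, 0 ≤ w.re → w ≠ 0 → 1 < ‖X w‖
  aW : AnalyticAt ℂ W 1
  W0 : W 1 = 0
  XW : ∀ᶠ x in 𝓝 (1 : ℂ), X (W x) = x
  WX : ∀ᶠ w in 𝓝 (0 : ℂ), W (X w) = w

/-- NLOC: existence of the local coordinate (from LOC, ILG). -/
def StNLOC : Prop := ∀ a b : ℕ, 1 ≤ a → a < b →
  ∃ (r c1 : ℝ) (X W : ℂ → ℂ), LocN a b r c1 X W

/-- NTE: expansions of the return map and the factor in the local coordinate (from TE). -/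
def StNTE : Prop := ∀ (a b : ℕ) (r c1 : ℝ) (X W : ℂ → ℂ), 1 ≤ a → a < b → LocN a b r c1 X W →
  AnalyticAt ℂ (fun w => - W (Mon (a + b) (X w))) 0 ∧ AnalyticAt ℂ (fun w => Mcn a b (X w)) 0 ∧
  (fun w : ℂ => - W (Mon (a + b) (X w)) - (w - ((2 * (a : ℂ) + 4 * b) / 3 * c1) * w ^ 2))
    =O[𝓝 0] (fun w => w ^ 3) ∧
  (fun w : ℂ => Mcn a b (X w) - (1 + 2 * ((2 * (a : ℂ) + 4 * b) / 3 * c1) * w))
    =O[𝓝 0] (fun w => w ^ 2)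

/-- NM4: convergence in the model (from M4). -/
def StNM4 : Prop := ∀ (a b : ℕ) (α : ℕ → ℂ), 1 ≤ a → a < b → MRelN a b α →
  (∃ C s : ℝ, 1 ≤ C ∧ 0 ≤ s ∧ s < 1 ∧ ∀ j, 1 ≤ j → ‖α j‖ ≤ C ^ j * ((2 * j).factorial : ℝ) ^ s) →
    ∃ C : ℝ, ∀ j, 1 ≤ j → ‖α j‖ ≤ C ^ j

/-- the vector field `Bn / Bnd` divided by `s`, as a function of `v = 1 / s` -/
noncomputable def hfn (a b : ℕ) (v : ℂ) : ℂ :=
  1 / (b : ℂ) - ((a : ℂ) + b) / (a * b) * v ^ b *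
    (∑ i ∈ Finset.range a, v ^ i) / ∑ i ∈ Finset.range (a + b), v ^ i

noncomputable def vfn (a b : ℕ) (s : ℂ) : ℂ := s * hfn a b s⁻¹

/-- identities and inequalities, first part -/
structure VAN (a b : ℕ) : Prop where
  /-- derivative of `Bn` -/
  dB : ∀ s : ℂ, s ≠ 0 → HasDerivAt (Bn a b) (Bnd a b s) s
  sp : ∀ s ∈ Dn b, s ∈ slitPlane
  sl : ∀ s ∈ Dn b, 2 - (s⁻¹) ^ (a + b) ∈ slitPlane
  gt : ∀ s ∈ Dn b, s ≠ 1 → s ^ (a + b) ≠ 1 ∧ ‖Mon (a + b) s‖ < 1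
  mo : ∀ s ∈ Dn b, ‖Mon (a + b) s‖ ≤ 1
  ml : ∀ s ∈ Dn b, 1 / 3 ≤ ‖Mon (a + b) s‖
  cj : ∀ s : ℂ, Bn a b ((starRingEnd ℂ) s) = (starRingEnd ℂ) (Bn a b s)

/-- identities, second part -/
structure VBN (a b : ℕ) : Prop where
  /-- derivative of `Bn ∘ Mon` -/
  dM : ∀ s : ℂ, s ≠ 0 → 2 - (s⁻¹) ^ (a + b) ∈ slitPlane →
    HasDerivAt (fun y => Bn a b (Mon (a + b) y))
      (Bnd a b s * (Mon (a + b) s / s) ^ (a + 2 * b)) s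
  /-- the denominator of `hfn` -/
  nz : ∀ s ∈ Dn b, ∑ i ∈ Finset.range (a + b), (s⁻¹) ^ i ≠ 0
  vB : ∀ s ∈ Dn b, vfn a b s * Bnd a b s = Bn a b s

/-- inequalities, third part -/
structure VCN (a b : ℕ) : Prop where
  /-- positivity on the unit circle -/
  ar : ∀ s ∈ Dn b, ‖s‖ = 1 → 0 ≤ (hfn a b s⁻¹).re
  /-- `hfn` is real on the real axis -/
  re : ∀ v : ℝ, (hfn a b v).im = 0
  /-- sign of `Im Bn` on the boundary ray -/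
  up : ∀ s ∈ Dn b, arg s = Real.pi / b → (Bn a b s).im < 0

/-- NVA -/
def StNVA : Prop := ∀ a b : ℕ, 1 ≤ a → a < b → VAN a b

/-- NVB -/
def StNVB : Prop := ∀ a b : ℕ, 1 ≤ a → a < b → VBN a b

/-- NVC -/
def StNVC : Prop := ∀ a b : ℕ, 1 ≤ a → a < b → VCN a b

/-- same half plane condition -/
def SgN (a b : ℕ) (s : ℂ) : Prop :=
  (0 ≤ s.im ∧ 0 ≤ (Bn a b s).im) ∨ (s.im ≤ 0 ∧ (Bn a b s).im ≤ 0)

/-- a trajectory of `vfn` in the sector -/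
structure TrajN (a b : ℕ) (x0 : ℂ) (x : ℝ → ℂ) : Prop where
  ini : x 0 = x0
  der : ∀ s, 0 ≤ s → HasDerivWithinAt x (vfn a b (x s)) (Ici 0) s
  mem : ∀ s, 0 ≤ s → x s ∈ Dn b
  val : ∀ s : ℝ, 0 ≤ s → Bn a b (x s) = Real.exp s * Bn a b x0

/-- NFF: global trajectories (from FF). -/
def StNFF : Prop := ∀ (a b : ℕ) (x0 : ℂ), 1 ≤ a → a < b → x0 ∈ Dn b → SgN a b x0 →
  ∃ x : ℝ → ℂ, TrajN a b x0 x

/-- NSS: starting points (from SS). -/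
def StNSS : Prop := ∀ (a b : ℕ) (ε : ℝ), 1 ≤ a → a < b → 0 < ε → ∃ r > 0, ∀ q : ℂ, 0 < ‖q‖ →
  ‖q‖ < r → ∃ x0 : ℂ, x0 ∈ Dn b ∧ SgN a b x0 ∧ ‖x0 - 1‖ < ε ∧ Bn a b x0 = q ∧
    ‖Bn a b (Mon (a + b) x0)‖ < ‖q‖

/-- NTT: contraction along trajectories (from TT). -/
def StNTT : Prop := ∀ (a b : ℕ) (x0 : ℂ) (x : ℝ → ℂ), 1 ≤ a → a < b → TrajN a b x0 x →
  Bn a b x0 ≠ 0 → ‖Bn a b (Mon (a + b) x0)‖ < ‖Bn a b x0‖ →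
    ∀ s, 0 ≤ s → ‖Bn a b (Mon (a + b) (x s))‖ < ‖Bn a b (x s)‖

/-- local relation at `1` -/
def Rel1N (a b : ℕ) (F : ℂ → ℂ) : Prop :=
  ∀ᶠ x in 𝓝 (1 : ℂ), F (Bn a b x) = Mcn a b x * F (Bn a b (Mon (a + b) x))

/-- relation near `x1`, where the left side is defined only for `‖Bn x‖ < R` -/
def RelAtN (a b : ℕ) (F : ℂ → ℂ) (R : ℝ) (x1 : ℂ) : Prop :=
  ∀ᶠ x in 𝓝 x1, ‖Bn a b x‖ < R → F (Bn a b x) = Mcn a b x * F (Bn a b (Mon (a + b) x))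

/-- NPP: continuation of the relation along trajectories (from PP). -/
def StNPP : Prop := ∀ (a b : ℕ) (F : ℂ → ℂ) (R : ℝ), 1 ≤ a → a < b → 0 < R →
  DifferentiableOn ℂ F (Metric.ball 0 R) → Rel1N a b F → ∀ q1 : ℂ, q1 ≠ 0 → ‖q1‖ ≤ R →
    ∃ x1 : ℂ, x1 ∈ Dn b ∧ Bn a b x1 = q1 ∧ ‖Bn a b (Mon (a + b) x1)‖ < ‖q1‖ ∧ RelAtN a b F R x1

/-- NEE: extension to an entire function (from EE). -/
def StNEE : Prop := ∀ (a b : ℕ) (F : ℂ → ℂ) (R : ℝ), 1 ≤ a → a < b → 0 < R →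
  DifferentiableOn ℂ F (Metric.ball 0 R) → Rel1N a b F →
    ∃ F' : ℂ → ℂ, Differentiable ℂ F' ∧ EqOn F' F (Metric.ball 0 R)

/-- NG1: growth, hence `F` is affine (from G1). -/
def StNG1 : Prop := ∀ (a b : ℕ) (F : ℂ → ℂ), 1 ≤ a → a < b → Differentiable ℂ F → Rel1N a b F →
  ∀ q, F q = F 0 + deriv F 0 * q

/-- NG2: there is no linear solution (from G2). -/
def StNG2 : Prop := ∀ (a b : ℕ), 1 ≤ a → a < b → ¬ Rel1N a b (fun q => q)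

/-- NRR: from the formal relation to the relation for the sum (from RR). -/
def StNRR : Prop := ∀ (a b : ℕ) (α : ℕ → ℂ) (C : ℝ), 1 ≤ a → a < b → MRelN a b α →
  (∀ j, 1 ≤ j → ‖α j‖ ≤ C ^ j) →
  ∃ (R : ℝ) (F : ℂ → ℂ), 0 < R ∧ DifferentiableOn ℂ F (Metric.ball 0 R) ∧ F 0 = 0 ∧
    deriv F 0 = α 1 ∧ Rel1N a b F

/-- NS5: the model has no convergent solution (from S5). -/
def StNS5 : Prop := ∀ (a b : ℕ) (α : ℕ → ℂ) (C : ℝ), 1 ≤ a → a < b → MRelN a b α →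
  (∀ j, 1 ≤ j → ‖α j‖ ≤ C ^ j) → α 1 = 0

/-- NEND: no sub-Gevrey formal integral near such a place (from END). -/
def StNEND : Prop := ∀ (kc : ℕ → ℂ), Ker kc → ∀ (a b : ℕ) (u : ℂ → ℂ) (R : ℝ) (ρ : ℂ → ℂ)
  (t1 : ℂ), 1 ≤ a → a < b → UN u R → t1 ∈ Metric.ball (0 : ℂ) (R ^ 3) → t1 ≠ 0 →
  (∀ᶠ t in 𝓝 t1, ρ (t ^ (a + b)) * t ^ (2 * a + b) = u t ^ 3) → ¬ Good kc ρ (t1 ^ (a + b))

end H719FX
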