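import Pool.Agent.H719R4.FX.Neg

/-!
# Places at infinity with an inflectional asymptote, isotropic direction

Definitions and statements (`Prop`s) only; no proofs.  Version of `FX/Iso.lean` for `p = -a`,
`k = a + b`, `1 ≤ a < b`, so `2 p + k = b - a`, `p + k = b`, `p (p + k) = - a b`.
-/

open Complex Set Filter Topology

namespace H719FX

open H738CZ

/-- cube root of `ρ` -/
noncomputable def rj (a b : ℕ) (u : ℂ → ℂ) : ℂ → ℂ := fun τ => τ ^ (b - a) * u (τ ^ 6)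

noncomputable def ρj (a b : ℕ) (u : ℂ → ℂ) : ℂ → ℂ := fun τ => (rj a b u τ) ^ 3

/-- JINT: passing to the coordinate `τ` (from IINT). -/
def StJINT : Prop := ∀ (a b : ℕ) (v : ℂ → ℂ) (R : ℝ) (ρ Ψ : ℂ → ℂ) (s1 : ℂ), 1 ≤ a →
  a < b → UI v R → s1 ∈ Metric.ball (0 : ℂ) (R ^ 6) → s1 ≠ 0 → AnalyticAt ℂ Ψ s1 →
  (∀ᶠ s in 𝓝 s1, cexp (2 * I * Ψ s) = s ^ (a + b) ∧
    ρ (Ψ s) * cexp (I * Ψ s) = s ^ b * v s ^ 3) → Good kcs ρ (Ψ s1) →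
    ∃ (ω τ1 : ℂ) (η : ℝ) (g : ℕ → ℂ → ℂ), ω ≠ 0 ∧ 0 < η ∧ Metric.ball τ1 η ⊆ V3 R ∧
      FI kcs (di (a + b)) (ρj a b (fun z => ω * v z)) (rj a b (fun z => ω * v z)) g
        (Metric.ball τ1 η) ∧ SG g (Metric.ball τ1 η)

/-- pole order condition for `g j` -/
def PolJ (a b : ℕ) (R : ℝ) (g : ℕ → ℂ → ℂ) (j : ℕ) (G : ℂ → ℂ) : Prop :=
  DifferentiableOn ℂ G (Metric.ball 0 R) ∧
    ∀ τ ∈ V3 R, g j τ * τ ^ ((2 * (b - a)) * (j - 1)) = G τ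

/-- JWT: pole order of the inhomogeneous term (from IWT). -/
def StJWT : Prop := ∀ (a b : ℕ) (u : ℂ → ℂ) (R : ℝ), 1 ≤ a → a < b →
  UI u R → ∀ (g : ℕ → ℂ → ℂ) (J : ℕ), 2 ≤ J →
  (∀ j, 1 ≤ j → j < J → DifferentiableOn ℂ (g j) (V3 R)) →
  (∀ j, 1 ≤ j → j < J → ∃ G, PolJ a b R g j G) →
    ∃ F : ℂ → ℂ, DifferentiableOn ℂ F (Metric.ball 0 R) ∧ ∀ τ ∈ V3 R,
      ((rj a b u τ)⁻¹) ^ (2 * J) * Lo kcs (di (a + b)) (ρj a b u) (rj a b u) g J τ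
        * τ ^ ((2 * (b - a)) * (J - 1)) = F τ

/-- JEXT: extension to the punctured disc (no logarithms), with pole orders (from IEXT). -/
def StJEXT : Prop := ∀ (a b : ℕ) (u : ℂ → ℂ) (R : ℝ), 1 ≤ a → a < b →
  UI u R → ∀ (g : ℕ → ℂ → ℂ) (τ1 : ℂ) (η : ℝ), 0 < η → Metric.ball τ1 η ⊆ V3 R →
  FI kcs (di (a + b)) (ρj a b u) (rj a b u) g (Metric.ball τ1 η) →
    ∃ g' : ℕ → ℂ → ℂ, FI kcs (di (a + b)) (ρj a b u) (rj a b u) g' (V3 R) ∧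
      (∀ j, 1 ≤ j → EqOn (g' j) (g j) (Metric.ball τ1 η)) ∧
      ∃ G : ℕ → ℂ → ℂ, ∀ j, 1 ≤ j → PolJ a b R g' j (G j)

/-- JPRV: sub-Gevrey bounds propagate in the punctured disc (from IPRV). -/
def StJPRV : Prop := ∀ (a b : ℕ) (u : ℂ → ℂ) (R : ℝ), 1 ≤ a → a < b →
  UI u R → ∀ (g : ℕ → ℂ → ℂ), FI kcs (di (a + b)) (ρj a b u) (rj a b u) g (V3 R) →
  ∀ (τ1 : ℂ) (η : ℝ), 0 < η → Metric.ball τ1 η ⊆ V3 R → SG g (Metric.ball τ1 η) →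
    ∀ τ ∈ V3 R, ∃ η' > 0, Metric.ball τ η' ⊆ V3 R ∧ SG g (Metric.ball τ η')

/-- Taylor series of `υ³ ∫₀^X exp(i ν s) sin(X-s) ds`, `ν = (b - a) / (a + b)` -/
noncomputable def Yj (a b : ℕ) (υ : ℂ) : PowerSeries ℂ :=
  PowerSeries.mk fun n =>
    υ ^ 3 * (∑ l ∈ Finset.range n, kcs (n - 1 - l) * (I * ((b : ℂ) - a) / (a + b)) ^ l)
      / (n.factorial : ℂ)

/-- the homogeneous (model) law -/
def MLawJ (a b : ℕ) (υ : ℂ) (β : ℕ → ℂ) : Prop := ∀ J, 1 ≤ J →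
  PowerSeries.coeff (2 * J + 1) (∑ j ∈ Finset.Icc 1 J,
    PowerSeries.C (β j) * expS (I * ((b : ℂ) - a) * (2 - 3 * j) / (3 * (a + b)))
      * (Yj a b υ) ^ j) = 0

/-- JLIM: the leading coefficients satisfy the model law (from ILIM). -/
def StJLIM : Prop := ∀ (a b : ℕ) (u : ℂ → ℂ) (R : ℝ), 1 ≤ a → a < b →
  UI u R → ∀ (g G : ℕ → ℂ → ℂ), FI kcs (di (a + b)) (ρj a b u) (rj a b u) g (V3 R) →
  (∀ j, 1 ≤ j → PolJ a b R g j (G j)) → MLawJ a b (u 0) (fun j => G j 0 * ((u 0)⁻¹) ^ j)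

/-! ## The model -/

noncomputable def McJ (a b : ℕ) (s : ℂ) : ℂ := cexp (2 * ((b : ℂ) - a) / 3 * log s)

/-- the model relation for coefficients `α` (`α 0` is not used) -/
def MRelJ (a b : ℕ) (α : ℕ → ℂ) : Prop := ∀ N : ℕ,
  (fun s : ℂ => ∑ j ∈ Finset.Ico 1 N, α j * Bn a b s ^ j
      - McJ a b s * ∑ j ∈ Finset.Ico 1 N, α j * Bn a b s⁻¹ ^ j)
    =O[𝓝 1] fun s => (s - 1) ^ (2 * N + 1)

/-- JMDL: from the model law to the model relation (from IMDL). -/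
def StJMDL : Prop := ∀ (a b : ℕ) (υ : ℂ) (β : ℕ → ℂ), 1 ≤ a → a < b → υ ≠ 0 → MLawJ a b υ β →
  MRelJ a b (fun j => β j * (-(υ ^ 3 * (a + b) ^ 2 / (4 * a * b))) ^ j)

/-- JTE: expansions of the return map and the factor in the local coordinate (from ITE). -/
def StJTE : Prop := ∀ (a b : ℕ) (r c1 : ℝ) (X W : ℂ → ℂ), 1 ≤ a → a < b → LocN a b r c1 X W →
  AnalyticAt ℂ (fun w => - W (X w)⁻¹) 0 ∧ AnalyticAt ℂ (fun w => McJ a b (X w)) 0 ∧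
  (fun w : ℂ => - W (X w)⁻¹ - (w - (((b : ℂ) - a) / 3 * c1) * w ^ 2))
    =O[𝓝 0] (fun w => w ^ 3) ∧
  (fun w : ℂ => McJ a b (X w) - (1 + 2 * (((b : ℂ) - a) / 3 * c1) * w))
    =O[𝓝 0] (fun w => w ^ 2)

/-- JM4: convergence in the model (from IM4). -/
def StJM4 : Prop := ∀ (a b : ℕ) (α : ℕ → ℂ), 1 ≤ a → a < b → MRelJ a b α →
  (∃ C s : ℝ, 1 ≤ C ∧ 0 ≤ s ∧ s < 1 ∧ ∀ j, 1 ≤ j → ‖α j‖ ≤ C ^ j * ((2 * j).factorial : ℝ) ^ s) →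
    ∃ C : ℝ, ∀ j, 1 ≤ j → ‖α j‖ ≤ C ^ j

/-- JVB: derivative of `Bn (1 / s)` (from IVB). -/
def StJVB : Prop := ∀ (a b : ℕ) (s : ℂ), 1 ≤ a → a < b → s ≠ 0 →
  HasDerivAt (fun y => Bn a b y⁻¹) (Bnd a b s * (s⁻¹) ^ (b - a)) s

/-- JSS: starting points (from ISS). -/
def StJSS : Prop := ∀ (a b : ℕ) (ε : ℝ), 1 ≤ a → a < b → 0 < ε → ∃ r > 0, ∀ q : ℂ, 0 < ‖q‖ →
  ‖q‖ < r → ∃ x0 : ℂ, x0 ∈ Dn b ∧ SgN a b x0 ∧ ‖x0 - 1‖ < ε ∧ Bn a b x0 = q ∧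
    ‖Bn a b x0⁻¹‖ < ‖q‖

/-- JTT: contraction along trajectories (from ITT). -/
def StJTT : Prop := ∀ (a b : ℕ) (x0 : ℂ) (x : ℝ → ℂ), 1 ≤ a → a < b → TrajN a b x0 x →
  Bn a b x0 ≠ 0 → ‖Bn a b x0⁻¹‖ < ‖Bn a b x0‖ →
    ∀ s, 0 ≤ s → ‖Bn a b (x s)⁻¹‖ < ‖Bn a b (x s)‖

/-- local relation at `1` -/
def Rel1J (a b : ℕ) (F : ℂ → ℂ) : Prop :=
  ∀ᶠ x in 𝓝 (1 : ℂ), F (Bn a b x) = McJ a b x * F (Bn a b x⁻¹)

/-- relation near `x1`, where the left side is defined only for `‖Bn x‖ < R` -/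
def RelAtJ (a b : ℕ) (F : ℂ → ℂ) (R : ℝ) (x1 : ℂ) : Prop :=
  ∀ᶠ x in 𝓝 x1, ‖Bn a b x‖ < R → F (Bn a b x) = McJ a b x * F (Bn a b x⁻¹)

/-- JPP: continuation of the relation along trajectories (from IPP). -/
def StJPP : Prop := ∀ (a b : ℕ) (F : ℂ → ℂ) (R : ℝ), 1 ≤ a → a < b → 0 < R →
  DifferentiableOn ℂ F (Metric.ball 0 R) → Rel1J a b F → ∀ q1 : ℂ, q1 ≠ 0 → ‖q1‖ ≤ R →
    ∃ x1 : ℂ, x1 ∈ Dn b ∧ Bn a b x1 = q1 ∧ ‖Bn a b x1⁻¹‖ < ‖q1‖ ∧ RelAtJ a b F R x1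

/-- JEE: extension to an entire function (from IEE). -/
def StJEE : Prop := ∀ (a b : ℕ) (F : ℂ → ℂ) (R : ℝ), 1 ≤ a → a < b → 0 < R →
  DifferentiableOn ℂ F (Metric.ball 0 R) → Rel1J a b F →
    ∃ F' : ℂ → ℂ, Differentiable ℂ F' ∧ EqOn F' F (Metric.ball 0 R)

/-- JG1: growth, hence `F` is affine (new growth argument: `Bn (1 / x)` is not bounded). -/
def StJG1 : Prop := ∀ (a b : ℕ) (F : ℂ → ℂ), 1 ≤ a → a < b → Differentiable ℂ F →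
  Rel1J a b F → ∀ q, F q = F 0 + deriv F 0 * q

/-- JG2: there is no linear solution (from IG2). -/
def StJG2 : Prop := ∀ (a b : ℕ), 1 ≤ a → a < b → ¬ Rel1J a b (fun q => q)

/-- JRR: from the formal relation to the relation for the sum (from IRR). -/
def StJRR : Prop := ∀ (a b : ℕ) (α : ℕ → ℂ) (C : ℝ), 1 ≤ a → a < b → MRelJ a b α →
  (∀ j, 1 ≤ j → ‖α j‖ ≤ C ^ j) →
  ∃ (R : ℝ) (F : ℂ → ℂ), 0 < R ∧ DifferentiableOn ℂ F (Metric.ball 0 R) ∧ F 0 = 0 ∧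
    deriv F 0 = α 1 ∧ Rel1J a b F

/-- JS5: the model has no convergent solution (from IS5). -/
def StJS5 : Prop := ∀ (a b : ℕ) (α : ℕ → ℂ) (C : ℝ), 1 ≤ a → a < b → MRelJ a b α →
  (∀ j, 1 ≤ j → ‖α j‖ ≤ C ^ j) → α 1 = 0

/-- JEND: no sub-Gevrey formal integral near such a place (from IEND). -/
def StJEND : Prop := ∀ (a b : ℕ) (v : ℂ → ℂ) (R : ℝ) (ρ Ψ : ℂ → ℂ) (s1 : ℂ),
  1 ≤ a → a < b → UI v R → s1 ∈ Metric.ball (0 : ℂ) (R ^ 6) → s1 ≠ 0 →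
  AnalyticAt ℂ Ψ s1 → (∀ᶠ s in 𝓝 s1, cexp (2 * I * Ψ s) = s ^ (a + b) ∧
    ρ (Ψ s) * cexp (I * Ψ s) = s ^ b * v s ^ 3) → ¬ Good kcs ρ (Ψ s1)

end H719FX
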