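import Pool.Agent.H719R4.FX.Cov
import Pool.Agent.H738R3.CZ.OUT

/-!
# Outer billiards

Definitions and statements (`Prop`s) only; no proofs.  Fourth wave.
-/

open Complex Set Filter Topology

namespace H719FX

open H738CZ

/-- good point for the outer billiard, in the coordinate `x` -/
def GoodO (X Y : ℂ → ℂ) (t : ℂ) : Prop :=
  deriv X t ≠ 0 ∧ Wr X Y t ≠ 0 ∧ ∃ ρ : ℂ → ℂ, AnalyticAt ℂ ρ (X t) ∧
    (∀ᶠ s in 𝓝 t, ρ (X s) * deriv X s ^ 3 = Wr X Y s) ∧ Good OUT_kc ρ (X t)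

/-- OSG: propagation along a segment. -/
def StOSG : Prop := ∀ (X Y : ℂ → ℂ) (U : Set ℂ) (a b : ℂ), IsOpen U → DifferentiableOn ℂ X U →
  DifferentiableOn ℂ Y U → (∀ t ∈ U, deriv X t ≠ 0 ∧ Wr X Y t ≠ 0) →
  segment ℝ a b ⊆ U → GoodO X Y a → GoodO X Y b

/-- OLC: propagation in a disc. -/
def StOLC : Prop := ∀ (X Y : ℂ → ℂ) (c : ℂ) (r : ℝ) (a b : ℂ),
  DifferentiableOn ℂ X (Metric.ball c r) → DifferentiableOn ℂ Y (Metric.ball c r) →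
  a ∈ Metric.ball c r → b ∈ Metric.ball c r → GoodO X Y a →
  deriv X b ≠ 0 → Wr X Y b ≠ 0 → GoodO X Y b

/-- OCH: propagation along a chain of discs. -/
def StOCH : Prop := ∀ (n : ℕ) (a : ℕ → ℂ) (r : ℕ → ℝ) (X Y : ℕ → ℂ → ℂ), Chain2 n a r X Y →
  (∃ z ∈ Metric.ball (a 0) (r 0), GoodO (X 0) (Y 0) z) →
    ∃ z ∈ Metric.ball (a n) (r n), GoodO (X n) (Y n) z

/-- OGD: start for a graph. -/
def StOGD : Prop := ∀ (f f' f2 : ℝ → ℝ) (x0 x1 : ℝ), x0 < x1 →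
  (∀ x ∈ Ioo x0 x1, HasDerivAt f (f' x) x ∧ HasDerivAt f' (f2 x) x ∧ 0 < f2 x) →
  ∀ (K : ℝ → ℝ → ℝ) (U : Set (ℝ × ℝ)), IsOpen U → IsPreconnected U →
  (∀ x ∈ Ioo x0 x1, (x, f x) ∈ U) → AnalyticOnNhd ℝ (Function.uncurry K) U →
  (∀ x ∈ Ioo x0 x1, ∃ ε > 0, ∀ δ : ℝ, 0 < δ → δ < ε →
    K (x + δ) (f x + f' x * δ) = K (x - δ) (f x - f' x * δ)) →
  (¬ ∃ c, ∀ z ∈ U, K z.1 z.2 = c) →
  ∀ (R : ℂ → ℂ) (x η : ℝ), 0 < η → x ∈ Ioo x0 x1 → DifferentiableOn ℂ R (Metric.ball (x : ℂ) η) →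
  (∀ v : ℝ, (v : ℂ) ∈ Metric.ball (x : ℂ) η → v ∈ Ioo x0 x1 → R v = f2 v) → Good OUT_kc R x

/-- a first integral of the outer billiard near the oval -/
structure OInt (γ : ℝ → ℂ) (K : ℝ → ℝ → ℝ) (U : Set (ℝ × ℝ)) : Prop where
  op : IsOpen U
  pc : IsPreconnected U
  mem : ∀ s, ((γ s).re, (γ s).im) ∈ U
  an : AnalyticOnNhd ℝ (Function.uncurry K) U
  inv : ∀ s : ℝ, ∃ ε > 0, ∀ δ : ℝ, 0 < δ → δ < ε →
    K ((γ s).re - δ * Real.sin s) ((γ s).im + δ * Real.cos s)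
      = K ((γ s).re + δ * Real.sin s) ((γ s).im - δ * Real.cos s)
  nc : ¬ ∃ c, ∀ z ∈ U, K z.1 z.2 = c

/-- OST: start for an oval, in the coordinate `x` and in the coordinate `y`. -/
def StOST : Prop := ∀ (γ : ℝ → ℂ) (ρ : ℝ → ℝ), IsOval γ ρ → ∀ (K : ℝ → ℝ → ℝ)
  (U : Set (ℝ × ℝ)), OInt γ K U →
  ∀ (R X Y : ℂ → ℂ) (y η : ℝ), 0 < η → DifferentiableOn ℂ R (Metric.ball (y : ℂ) η) →
  (∀ v : ℝ, (v : ℂ) ∈ Metric.ball (y : ℂ) η → R v = ρ v) →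
  (∀ z ∈ Metric.ball (y : ℂ) η, HasDerivAt X (-(R z * Complex.sin z)) z ∧
    HasDerivAt Y (R z * Complex.cos z) z) →
    ∀ v : ℝ, (v : ℂ) ∈ Metric.ball (y : ℂ) η →
      (Real.sin v ≠ 0 → GoodO X Y v) ∧ (Real.cos v ≠ 0 → GoodO Y X v)

/-- OTP: invariance of good points under reparametrisation and translation. -/
def StOTP : Prop := ∀ (X Y X1 Y1 Φ : ℂ → ℂ) (t : ℂ), AnalyticAt ℂ X t → AnalyticAt ℂ Y t →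
  AnalyticAt ℂ Φ t → deriv Φ t ≠ 0 → AnalyticAt ℂ X1 (Φ t) → AnalyticAt ℂ Y1 (Φ t) →
  (∀ᶠ s in 𝓝 t, deriv X s = deriv X1 (Φ s) * deriv Φ s ∧
    deriv Y s = deriv Y1 (Φ s) * deriv Φ s) → GoodO X1 Y1 (Φ t) → GoodO X Y t

/-- OBR: places with good points nearby are regular. -/
def StOBR : Prop := ∀ (X Y : ℂ → ℂ) (t0 : ℂ), AnalyticAt ℂ X t0 → AnalyticAt ℂ Y t0 →
  (¬ ∀ᶠ t in 𝓝 t0, Wr X Y t = 0) →
  analyticOrderAt (deriv X) t0 ≤ analyticOrderAt (deriv Y) t0 →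
  (∀ᶠ t in 𝓝[≠] t0, GoodO X Y t) → Reg X Y t0

/-- RLI: linear invariance of regular places. -/
def StRLI : Prop := ∀ (X Y Z W : ℂ → ℂ) (t0 : ℂ), Reg X Y t0 →
  (∀ᶠ t in 𝓝 t0, Z t = X t + I * Y t ∧ W t = X t - I * Y t) → Reg Z W t0

/-- OFO: every place of the complexified oval is regular if the outer billiard has an analytic
first integral near the oval. -/
def StOFO : Prop := ∀ (γ : ℝ → ℂ) (ρ : ℝ → ℝ), IsOval γ ρ → ∀ (K : ℝ → ℝ → ℝ)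
  (U : Set (ℝ × ℝ)), OInt γ K U →
  ∀ (n : ℕ) (a : ℕ → ℂ) (r : ℕ → ℝ) (Z W : ℕ → ℂ → ℂ), Chain2 n a r Z W →
  ∀ (θ : ℝ → ℝ) (x0 x1 : ℝ), ContinuousOn θ (Ioo x0 x1) →
  (∀ t ∈ Ioo x0 x1, (t : ℂ) ∈ Metric.ball (a 0) (r 0) ∧ Z 0 t = γ (θ t) ∧
    W 0 t = (starRingEnd ℂ) (γ (θ t))) →
  (∃ s ∈ Ioo x0 x1, ∃ t ∈ Ioo x0 x1, γ (θ s) ≠ γ (θ t)) →
    ∀ t0 ∈ Metric.ball (a n) (r n), (¬ ∀ᶠ t in 𝓝 t0, Wr (Z n) (W n) t = 0) ∧ Reg (Z n) (W n) t0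

/-- TRG: a trigonometric polynomial oval all of whose complex places are regular is an ellipse. -/
def StTRG : Prop := ∀ (γ : ℝ → ℂ) (ρ : ℝ → ℝ), IsOval γ ρ →
  ∀ (N : ℕ) (c : ℤ → ℂ) (θ : ℝ → ℝ), Function.Surjective θ →
  (∀ t : ℝ, γ (θ t) = ∑ k ∈ Finset.Icc (-(N : ℤ)) N, c k * cexp (k * t * I)) →
  (∀ t0 : ℂ, (¬ ∀ᶠ t in 𝓝 t0, Wr (tp N c) (tp N (cjc c)) t = 0) ∧
    Reg (tp N c) (tp N (cjc c)) t0) →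
    ∃ (c : ℂ) (a b d : ℝ), 0 < a ∧ 0 < a * d - b ^ 2 ∧
      Set.range γ = {x : ℂ | a * (x.re - c.re) ^ 2 + 2 * b * (x.re - c.re) * (x.im - c.im)
        + d * (x.im - c.im) ^ 2 = 1}

/-- OTX: the final theorem for trigonometric polynomials, outer billiards. -/
def StOTX : Prop := ∀ (γ : ℝ → ℂ) (ρ : ℝ → ℝ), IsOval γ ρ → ∀ (K : ℝ → ℝ → ℝ)
  (U : Set (ℝ × ℝ)), OInt γ K U →
  ∀ (N : ℕ) (c : ℤ → ℂ) (θ : ℝ → ℝ), Continuous θ → Function.Surjective θ →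
  (∀ t : ℝ, γ (θ t) = ∑ k ∈ Finset.Icc (-(N : ℤ)) N, c k * cexp (k * t * I)) →
    ∃ (c : ℂ) (a b d : ℝ), 0 < a ∧ 0 < a * d - b ^ 2 ∧
      Set.range γ = {x : ℂ | a * (x.re - c.re) ^ 2 + 2 * b * (x.re - c.re) * (x.im - c.im)
        + d * (x.im - c.im) ^ 2 = 1}

end H719FX
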