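import Pool.Agent.H719R4.FX.Rat

/-! # The final theorem for rational ovals: assembly -/

open Complex Set Filter Topology

namespace H719FX

open H738CZ

theorem RAX_refl (P : Polynomial ℂ) (n : ℕ) (hn : P.natDegree ≤ n) (ζ : ℂ)
    (hζ : ζ * (starRingEnd ℂ) ζ = 1) :
    ((P.map (starRingEnd ℂ)).reflect n).eval ζ = ζ ^ n * (starRingEnd ℂ) (P.eval ζ) := by
  have hζ' : (starRingEnd ℂ) ζ * ζ = 1 := by rw [mul_comm]; exact hζ
  letI : Invertible ((starRingEnd ℂ) ζ) := ⟨ζ, hζ, hζ'⟩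
  have h1 := Polynomial.eval₂_reflect_mul_pow (RingHom.id ℂ) ((starRingEnd ℂ) ζ) n
    (P.map (starRingEnd ℂ)) (Polynomial.natDegree_map_le.trans hn)
  have h2 : ⅟((starRingEnd ℂ) ζ) = ζ := rfl
  rw [h2] at h1
  have h3 : Polynomial.eval₂ (RingHom.id ℂ) ((starRingEnd ℂ) ζ) (P.map (starRingEnd ℂ)) =
      (starRingEnd ℂ) (P.eval ζ) := by
    change ((P.map (starRingEnd ℂ))).eval ((starRingEnd ℂ) ζ) = _
    exact Polynomial.eval_map_apply (f := starRingEnd ℂ) ..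
  rw [h3] at h1
  rw [← h1]
  change _ = ζ ^ n * (Polynomial.eval ζ _ * _)
  have h4 : ζ ^ n * ((starRingEnd ℂ) ζ) ^ n = 1 := by rw [← mul_pow, hζ, one_pow]
  linear_combination (-(Polynomial.eval ζ ((P.map (starRingEnd ℂ)).reflect n))) * h4

theorem RAX_E (t : ℝ) : cexp (t * I) * (starRingEnd ℂ) (cexp (t * I)) = 1 := by
  rw [Complex.mul_conj, Complex.normSq_eq_norm_sq, Complex.norm_exp_ofReal_mul_I]
  simp

theorem RAX_an (P Q : Polynomial ℂ) (ζ : ℂ) (h : Q.eval ζ ≠ 0) : AnalyticAt ℂ (rf P Q) ζ := by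
  have h1 : AnalyticAt ℂ (fun ζ => P.eval ζ) ζ := P.differentiable.analyticAt ζ
  have h2 : AnalyticAt ℂ (fun ζ => Q.eval ζ) ζ := Q.differentiable.analyticAt ζ
  exact h1.div h2 h

theorem RAX_mer (P Q : Polynomial ℂ) (ζ : ℂ) : MeromorphicAt (rf P Q) ζ := by
  have h1 : AnalyticAt ℂ (fun ζ => P.eval ζ) ζ := P.differentiable.analyticAt ζ
  have h2 : AnalyticAt ℂ (fun ζ => Q.eval ζ) ζ := Q.differentiable.analyticAt ζ
  exact h1.meromorphicAt.div h2.meromorphicAt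

theorem RAX_meri (P : Polynomial ℂ) : MeromorphicAt (fun η : ℂ => P.eval η⁻¹) 0 := by
  have hinv : MeromorphicAt (fun η : ℂ => η⁻¹) 0 := (MeromorphicAt.id 0).inv
  induction P using Polynomial.induction_on' with
  | add p q hp hq =>
    have h := hp.add hq
    refine h.congr (Filter.Eventually.of_forall fun η => ?_)
    simp [Polynomial.eval_add]
  | monomial n a =>
    have h := (MeromorphicAt.const a (0 : ℂ)).mul (hinv.pow n)
    refine h.congr (Filter.Eventually.of_forall fun η => ?_)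
    simp [Polynomial.eval_monomial]

theorem RAX_fin (B : Set ℂ) (hB : B.Finite) (z : ℂ) : ∀ᶠ w in 𝓝[≠] z, w ∉ B := by
  have h1 : (B \ {z})ᶜ ∈ 𝓝 z :=
    (hB.subset sdiff_subset).isClosed.isOpen_compl.mem_nhds (by simp)
  filter_upwards [mem_nhdsWithin_of_mem_nhds h1, self_mem_nhdsWithin] with w hw hw2 hwB
  exact hw ⟨hwB, hw2⟩

/-- a polynomial vanishing at all points `exp (i t)`, `t` in an interval, is zero -/
theorem RAX_zero (T : Polynomial ℂ) (r : ℝ) (hr : 0 < r)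
    (h : ∀ t ∈ Ioo (-r) r, T.eval (cexp ((t : ℝ) * I)) = 0) : T = 0 := by
  apply Polynomial.eq_zero_of_infinite_isRoot
  have hinj : InjOn (fun t : ℝ => cexp (t * I)) (Ioo (-(min r 1)) (min r 1)) := by
    intro s hs t ht hst
    have h1 := Complex.exp_eq_exp_iff_exists_int.1 hst
    obtain ⟨k, hk⟩ := h1
    have h2 : (s : ℂ) = t + k * (2 * Real.pi) := by
      have h3 : (s : ℂ) * I = (t + k * (2 * Real.pi)) * I := by
        rw [hk]
        ring
      exact mul_right_cancel₀ I_ne_zero h3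
    have h4 : s = t + k * (2 * Real.pi) := by exact_mod_cast h2
    have h5 : |s - t| < 2 := by
      rw [abs_lt]
      have := min_le_right r 1
      constructor <;> linarith [hs.1, hs.2, ht.1, ht.2]
    have h6 : k = 0 := by
      by_contra hk0
      have h7 : (1 : ℝ) ≤ |(k : ℝ)| := by
        have := Int.one_le_abs hk0
        exact_mod_cast this
      have h8 : |s - t| = |(k : ℝ)| * (2 * Real.pi) := by
        have h9 : s - t = k * (2 * Real.pi) := by linarith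
        rw [h9, abs_mul, abs_of_pos (by positivity : (0 : ℝ) < 2 * Real.pi)]
      have := Real.pi_gt_three
      nlinarith
    rw [h4, h6]
    simp
  have hinf : (Ioo (-(min r 1)) (min r 1)).Infinite := by
    apply Set.Ioo_infinite
    have : 0 < min r 1 := lt_min hr one_pos
    linarith
  have h1 : ((fun t : ℝ => cexp (t * I)) '' (Ioo (-(min r 1)) (min r 1))).Infinite :=
    hinf.image hinj
  refine h1.mono ?_
  rintro _ ⟨t, ht, rfl⟩
  apply h
  have := min_le_left r 1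
  exact ⟨by linarith [ht.1], by linarith [ht.2]⟩

theorem tRAX (hSTA : StSTA) (hSTZ : StSTZ) (hGRP : StGRP) (hRGA : StRGA) (hPLC : StPLC)
    (hRIN : StRIN) (hRLV : StRLV) (hCQU : StCQU) (hCEL : StCEL) : StRAX := by
  intro γ ρ ho K ε hε hK hrefl hnc P Q θ hQ hθc hθs hγ
  set n := max P.natDegree Q.natDegree with hn
  set P1 := (P.map (starRingEnd ℂ)).reflect n with hP1
  set Q1 := (Q.map (starRingEnd ℂ)).reflect n with hQ1
  let E : ℂ → ℂ := fun s => cexp (s * I)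
  have hP1e : ∀ t : ℝ, P1.eval (E t) = (E t) ^ n * (starRingEnd ℂ) (P.eval (E t)) := fun t =>
    RAX_refl P n (le_max_left _ _) _ (RAX_E t)
  have hQ1e : ∀ t : ℝ, Q1.eval (E t) = (E t) ^ n * (starRingEnd ℂ) (Q.eval (E t)) := fun t =>
    RAX_refl Q n (le_max_right _ _) _ (RAX_E t)
  have hE0 : ∀ s : ℂ, E s ≠ 0 := fun s => Complex.exp_ne_zero _
  have hQ1n : ∀ t : ℝ, Q1.eval (E t) ≠ 0 := by
    intro t
    rw [hQ1e]
    refine mul_ne_zero (pow_ne_zero _ (hE0 _)) ?_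
    intro h
    exact hQ t ((map_eq_zero (starRingEnd ℂ)).1 h)
  have hQn : ∀ t : ℝ, Q.eval (E t) ≠ 0 := hQ
  have hQ0 : Q ≠ 0 := by
    rintro h
    apply hQn 0
    rw [h]
    simp
  have hQ10 : Q1 ≠ 0 := by
    intro h
    apply hQ1n 0
    rw [h]
    simp
  have hZr : ∀ t : ℝ, rf P Q (E t) = γ (θ t) := fun t => (hγ t).symm
  have hWr : ∀ t : ℝ, rf P1 Q1 (E t) = (starRingEnd ℂ) (γ (θ t)) := by
    intro t
    rw [hγ t]
    unfold rf
    rw [hP1e, hQ1e, map_div₀]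
    rw [mul_div_mul_left _ _ (pow_ne_zero _ (hE0 _))]
  -- analyticity of `E`
  have hEd : ∀ s, HasDerivAt E (cexp (s * I) * I) s := by
    intro s
    have h1 : HasDerivAt (fun s : ℂ => s * I) I s := by
      simpa using (hasDerivAt_id s).mul_const I
    exact h1.cexp
  have hEdiff : Differentiable ℂ E := fun s => (hEd s).differentiableAt
  -- a disc around `0`
  obtain ⟨r, hr, hrb⟩ : ∃ r > 0, ∀ s ∈ Metric.ball (0 : ℂ) r, Q.eval (E s) ≠ 0 ∧
      Q1.eval (E s) ≠ 0 := by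
    have hc1 : Continuous fun s => Q.eval (E s) := Q.continuous.comp hEdiff.continuous
    have hc2 : Continuous fun s => Q1.eval (E s) := Q1.continuous.comp hEdiff.continuous
    have h1 : ∀ᶠ s in 𝓝 (0 : ℂ), Q.eval (E s) ≠ 0 := by
      apply hc1.continuousAt.eventually_ne
      have := hQn 0
      simpa using this
    have h2 : ∀ᶠ s in 𝓝 (0 : ℂ), Q1.eval (E s) ≠ 0 := by
      apply hc2.continuousAt.eventually_ne
      have := hQ1n 0
      simpa using this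
    obtain ⟨r, hr, h3⟩ := Metric.eventually_nhds_iff_ball.1 (h1.and h2)
    exact ⟨r, hr, h3⟩
  have hZd : DifferentiableOn ℂ (fun s => rf P Q (E s)) (Metric.ball (0 : ℂ) r) := by
    intro s hs
    have h1 := (RAX_an P Q (E s) (hrb s hs).1).differentiableAt
    exact (DifferentiableAt.comp s h1 (hEdiff s)).differentiableWithinAt
  have hWd : DifferentiableOn ℂ (fun s => rf P1 Q1 (E s)) (Metric.ball (0 : ℂ) r) := by
    intro s hs
    have h1 := (RAX_an P1 Q1 (E s) (hrb s hs).2).differentiableAt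
    exact (DifferentiableAt.comp s h1 (hEdiff s)).differentiableWithinAt
  have hIoo : ∀ t ∈ Ioo (-r) r, (t : ℂ) ∈ Metric.ball (0 : ℂ) r := by
    intro t ht
    rw [Metric.mem_ball, dist_zero_right, Complex.norm_real, Real.norm_eq_abs, abs_lt]
    exact ht
  -- the curve is not constant on `(-r, r)`
  have hne : ∃ s ∈ Ioo (-r) r, ∃ t ∈ Ioo (-r) r, γ (θ s) ≠ γ (θ t) := by
    by_contra hcon
    push Not at hcon
    have h0 : (0 : ℝ) ∈ Ioo (-r) r := ⟨by linarith, hr⟩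
    have h1 : ∀ t ∈ Ioo (-r) r, (P - Polynomial.C (γ (θ 0)) * Q).eval (cexp ((t : ℝ) * I)) = 0 := by
      intro t ht
      have h2 := hγ t
      rw [hcon t ht 0 h0, eq_div_iff (hQ t)] at h2
      rw [Polynomial.eval_sub, Polynomial.eval_mul, Polynomial.eval_C, ← h2, sub_self]
    have h2 := RAX_zero _ r hr h1
    have h3 : ∀ t, γ (θ t) = γ (θ 0) := by
      intro t
      rw [hγ t]
      rw [div_eq_iff (hQ t)]
      have h4 := congrArg (Polynomial.eval (cexp ((t : ℝ) * I))) h2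
      rw [Polynomial.eval_sub, Polynomial.eval_mul, Polynomial.eval_C, Polynomial.eval_zero,
        sub_eq_zero] at h4
      exact h4
    have h5 : ∀ φ, γ φ = γ (θ 0) := by
      intro φ
      obtain ⟨t, rfl⟩ := hθs φ
      exact h3 t
    have h6 := ho.der 0
    have h7 : γ = fun _ => γ (θ 0) := funext h5
    rw [h7] at h6
    have h8 := h6.unique (hasDerivAt_const (0 : ℝ) (γ (θ 0)))
    have h9 : (ρ 0 : ℂ) * I * cexp ((0 : ℝ) * I) ≠ 0 := by
      refine mul_ne_zero (mul_ne_zero ?_ I_ne_zero) (Complex.exp_ne_zero _)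
      exact_mod_cast (ho.pos 0).ne'
    exact h9 h8
  obtain ⟨x, Φ, R, y, η, hx, hP, hΦ, hη, hR, hRρ⟩ := hSTZ γ ρ ho (fun s => rf P Q (E s))
    (fun s => rf P1 Q1 (E s)) 0 r θ (-r) r hZd hWd hθc.continuousOn
    (fun t ht => ⟨hIoo t ht, hZr t, hWr t⟩) hne
  have hg : Good kcs R y := hSTA γ ρ ho K ε hε hK hrefl hnc R y η hη hR hRρ
  have hG0 : GoodAt (fun s => rf P Q (E s)) (fun s => rf P1 Q1 (E s)) x :=
    ⟨Φ, R, hP, by rw [hΦ]; exact hg⟩
  have hG1 : GoodAt (rf P Q) (rf P1 Q1) (E x) := by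
    refine hGRP (rf P Q) (rf P1 Q1) E x (hEdiff.analyticAt x) ?_ (RAX_an P Q _ (hQn x))
      (RAX_an P1 Q1 _ (hQ1n x)) hG0
    rw [(hEd x).deriv]
    exact mul_ne_zero (Complex.exp_ne_zero _) I_ne_zero
  obtain ⟨B, hB, hBall⟩ := hRGA P Q P1 Q1 hQ0 hQ10 ⟨E x, hQn x, hQ1n x, hG1⟩
  have hbdd : ∀ ζ0 : ℂ, Bdd (rf P Q) (rf P1 Q1) ζ0 := by
    intro ζ0
    refine hPLC _ _ ζ0 (RAX_mer P Q ζ0) (RAX_mer P1 Q1 ζ0) ?_
    filter_upwards [RAX_fin B hB ζ0] with w hw
    exact (hBall w hw).2.2.2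
  -- infinity
  have hinf : Bdd (fun η => rf P Q η⁻¹) (fun η => rf P1 Q1 η⁻¹) 0 := by
    refine hPLC _ _ 0 ((RAX_meri P).div (RAX_meri Q)) ((RAX_meri P1).div (RAX_meri Q1)) ?_
    have hBi : ((fun z : ℂ => z⁻¹) '' B).Finite := hB.image _
    filter_upwards [RAX_fin _ hBi 0, self_mem_nhdsWithin] with w hw hw0
    have hw0' : w ≠ 0 := hw0
    have hwB : w⁻¹ ∉ B := by
      intro h
      exact hw ⟨w⁻¹, h, inv_inv w⟩
    obtain ⟨h1, h2, h3, h4⟩ := hBall _ hwB
    have hia : ∀ z : ℂ, z ≠ 0 → AnalyticAt ℂ (fun z : ℂ => z⁻¹) z := fun z hz =>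
      analyticAt_id.inv hz
    have h5 := hGRP (fun η => rf P Q η⁻¹) (fun η => rf P1 Q1 η⁻¹) (fun z : ℂ => z⁻¹) w⁻¹
      (hia _ (inv_ne_zero hw0')) (by
        rw [deriv_inv]
        simp [hw0']) (by
        rw [inv_inv]
        exact AnalyticAt.comp (g := rf P Q) (f := fun z : ℂ => z⁻¹) (RAX_an P Q _ h1) (hia w hw0'))
      (by
        rw [inv_inv]
        exact AnalyticAt.comp (g := rf P1 Q1) (f := fun z : ℂ => z⁻¹) (RAX_an P1 Q1 _ h2)
          (hia w hw0')) (by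
        have e2 : (fun x : ℂ => (fun η : ℂ => rf P Q η⁻¹) ((fun z : ℂ => z⁻¹) x)) = rf P Q := by
          funext z
          simp
        have e3 : (fun x : ℂ => (fun η : ℂ => rf P1 Q1 η⁻¹) ((fun z : ℂ => z⁻¹) x)) =
            rf P1 Q1 := by
          funext z
          simp
        rw [e2, e3]
        exact h4)
    rw [inv_inv] at h5
    exact h5
  have hInf := hRIN P Q P1 Q1 hQ0 hQ10 hinf
  obtain ⟨m0, B', hB', hm0⟩ := hRLV P Q P1 Q1 hQ0 hQ10
    ⟨B, hB, fun ζ hζ => ⟨(hBall ζ hζ).1, (hBall ζ hζ).2.1, (hBall ζ hζ).2.2.1⟩⟩ hbdd hInf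
  -- a good disc
  have hBB : (B ∪ B').Finite := hB.union hB'
  obtain ⟨c, hc⟩ : ∃ c : ℂ, c ∉ B ∪ B' := hBB.exists_notMem
  obtain ⟨r', hr', hrb'⟩ := Metric.isOpen_iff.1 hBB.isClosed.isOpen_compl c hc
  obtain ⟨q0, q1, q2, q3, q4, q5, hq, hconic⟩ := hCQU (rf P Q) (rf P1 Q1) c m0 r' hr' (by
      intro z hz
      have h1 : z ∉ B := fun h => hrb' hz (Or.inl h)
      exact (RAX_an P Q z (hBall z h1).1).differentiableAt.differentiableWithinAt) (by
      intro z hz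
      have h1 : z ∉ B := fun h => hrb' hz (Or.inl h)
      exact (RAX_an P1 Q1 z (hBall z h1).2.1).differentiableAt.differentiableWithinAt) (by
      intro z hz
      have h1 : z ∉ B := fun h => hrb' hz (Or.inl h)
      have h2 : z ∉ B' := fun h => hrb' hz (Or.inr h)
      exact ⟨(hBall z h1).2.2.1, hm0 z h2⟩)
  -- the polynomial identity
  let T : Polynomial ℂ := Polynomial.C q0 * P ^ 2 * Q1 ^ 2 + Polynomial.C q1 * P * P1 * Q * Q1 +
    Polynomial.C q2 * P1 ^ 2 * Q ^ 2 + Polynomial.C q3 * P * Q * Q1 ^ 2 +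
    Polynomial.C q4 * P1 * Q1 * Q ^ 2 + Polynomial.C q5 * Q ^ 2 * Q1 ^ 2
  have hTe : ∀ ζ : ℂ, Q.eval ζ ≠ 0 → Q1.eval ζ ≠ 0 → T.eval ζ = (Q.eval ζ) ^ 2 *
      (Q1.eval ζ) ^ 2 * (q0 * rf P Q ζ ^ 2 + q1 * rf P Q ζ * rf P1 Q1 ζ + q2 * rf P1 Q1 ζ ^ 2 +
        q3 * rf P Q ζ + q4 * rf P1 Q1 ζ + q5) := by
    intro ζ h1 h2
    simp only [T, rf, Polynomial.eval_add, Polynomial.eval_mul, Polynomial.eval_pow,
      Polynomial.eval_C]
    field_simp
  have hT0 : T = 0 := by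
    apply Polynomial.eq_zero_of_infinite_isRoot
    have h1 : {z : ℂ | T.eval z = 0} ∈ 𝓝 c := by
      filter_upwards [hconic, Metric.ball_mem_nhds c hr'] with z hz hz2
      have h2 : z ∉ B := fun h => hrb' hz2 (Or.inl h)
      change T.eval z = 0
      rw [hTe z (hBall z h2).1 (hBall z h2).2.1, hz, mul_zero]
    exact infinite_of_mem_nhds c h1
  have hrel : ∀ t : ℝ, q0 * γ (θ t) ^ 2 + q1 * γ (θ t) * (starRingEnd ℂ) (γ (θ t)) +
      q2 * (starRingEnd ℂ) (γ (θ t)) ^ 2 + q3 * γ (θ t) + q4 * (starRingEnd ℂ) (γ (θ t)) +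
        q5 = 0 := by
    intro t
    have h1 := hTe (E t) (hQn t) (hQ1n t)
    rw [hT0, Polynomial.eval_zero, hZr, hWr] at h1
    rcases mul_eq_zero.1 h1.symm with h2 | h2
    · exfalso
      exact mul_ne_zero (pow_ne_zero 2 (hQn t)) (pow_ne_zero 2 (hQ1n t)) h2
    · exact h2
  exact hCEL γ ρ ho q0 q1 q2 q3 q4 q5 hq (fun φ => by
    obtain ⟨t, rfl⟩ := hθs φ
    exact hrel t)

end H719FX
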