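import Pool.Agent.H719R4.FX.Cov
import Pool.Agent.H719R4.FX.NegI

/-!
# Rational ovals

Definitions and statements (`Prop`s) only; no proofs.  Sixth wave.
-/

open Complex Set Filter Topology

namespace H719FX

open H738CZ

/-- the affine curvature is bounded near `t0` -/
def Bdd (Z W : ℂ → ℂ) (t0 : ℂ) : Prop :=
  ∃ C : ℝ, ∀ᶠ t in 𝓝[≠] t0, ‖Mi Z W t‖ ^ 3 ≤ C * ‖Wr Z W t‖ ^ 8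

/-- place at infinity, non-isotropic direction -/
def PBr (Z W : ℂ → ℂ) (t0 : ℂ) (a k : ℕ) : Prop :=
  ∃ f g h : ℂ → ℂ, AnalyticAt ℂ f t0 ∧ AnalyticAt ℂ g t0 ∧ AnalyticAt ℂ h t0 ∧
    f t0 ≠ 0 ∧ g t0 ≠ 0 ∧ h t0 ≠ 0 ∧
    (∀ᶠ t in 𝓝[≠] t0, deriv Z t = (t - t0) ^ (-((a : ℤ) + 1)) * f t) ∧
    (∀ᶠ t in 𝓝[≠] t0, deriv W t = (t - t0) ^ (-((a : ℤ) + 1)) * g t) ∧
    ∀ᶠ t in 𝓝 t0, g t * f t0 - f t * g t0 = (t - t0) ^ k * h t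

/-- place at infinity, isotropic direction -/
def PBI (Z W : ℂ → ℂ) (t0 : ℂ) (a k : ℕ) : Prop :=
  ∃ f g : ℂ → ℂ, AnalyticAt ℂ f t0 ∧ AnalyticAt ℂ g t0 ∧ f t0 ≠ 0 ∧ g t0 ≠ 0 ∧
    (∀ᶠ t in 𝓝[≠] t0, deriv Z t = (t - t0) ^ ((k : ℤ) - a - 1) * f t) ∧
    ∀ᶠ t in 𝓝[≠] t0, deriv W t = (t - t0) ^ (-((a : ℤ) + 1)) * g t

/-- PCL: classification of places. -/
def StPCL : Prop := ∀ (Z W : ℂ → ℂ) (t0 : ℂ), MeromorphicAt Z t0 → MeromorphicAt W t0 →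
  (∀ᶠ t in 𝓝[≠] t0, deriv Z t ≠ 0 ∧ deriv W t ≠ 0 ∧ Wr Z W t ≠ 0) →
    (∃ Z' W' : ℂ → ℂ, AnalyticAt ℂ Z' t0 ∧ AnalyticAt ℂ W' t0 ∧
      ∀ᶠ t in 𝓝[≠] t0, Z t = Z' t ∧ W t = W' t) ∨
    ∃ a k : ℕ, 1 ≤ a ∧ 1 ≤ k ∧ (PBr Z W t0 a k ∨ PBI Z W t0 a k ∨ PBI W Z t0 a k)

/-- PSN: inflectional asymptotes are impossible, non-isotropic direction. -/
def StPSN : Prop := ∀ (Z W : ℂ → ℂ) (t0 : ℂ) (a k : ℕ), 1 ≤ a → 2 * a < k → PBr Z W t0 a k →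
  (∀ᶠ t in 𝓝[≠] t0, GoodAt Z W t) → False

/-- PSI: inflectional asymptotes are impossible, isotropic direction. -/
def StPSI : Prop := ∀ (Z W : ℂ → ℂ) (t0 : ℂ) (a k : ℕ), 1 ≤ a → 2 * a < k → PBI Z W t0 a k →
  (∀ᶠ t in 𝓝[≠] t0, GoodAt Z W t) → False

/-- PPB: bound at the other places, non-isotropic direction. -/
def StPPB : Prop := ∀ (Z W : ℂ → ℂ) (t0 : ℂ) (a k : ℕ), 1 ≤ a → 1 ≤ k → k ≤ 2 * a →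
  PBr Z W t0 a k → Bdd Z W t0

/-- PPI: bound at the other places, isotropic direction. -/
def StPPI : Prop := ∀ (Z W : ℂ → ℂ) (t0 : ℂ) (a k : ℕ), 1 ≤ a → 1 ≤ k → k ≤ 2 * a →
  PBI Z W t0 a k → Bdd Z W t0

/-- PLC: all places. -/
def StPLC : Prop := ∀ (Z W : ℂ → ℂ) (t0 : ℂ), MeromorphicAt Z t0 → MeromorphicAt W t0 →
  (∀ᶠ t in 𝓝[≠] t0, GoodAt Z W t) → Bdd Z W t0

/-- GRP: invariance of good points under reparametrisation. -/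
def StGRP : Prop := ∀ (Z W E : ℂ → ℂ) (s : ℂ), AnalyticAt ℂ E s → deriv E s ≠ 0 →
  AnalyticAt ℂ Z (E s) → AnalyticAt ℂ W (E s) →
  GoodAt (fun x => Z (E x)) (fun x => W (E x)) s → GoodAt Z W (E s)

/-- RSG: avoiding finitely many points. -/
def StRSG : Prop := ∀ (B : Set ℂ) (a b : ℂ), B.Finite → a ∉ B → b ∉ B →
  ∃ p : ℂ, segment ℝ a p ⊆ Bᶜ ∧ segment ℝ p b ⊆ Bᶜ

/-- a rational function -/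
noncomputable def rf (P Q : Polynomial ℂ) (ζ : ℂ) : ℂ := P.eval ζ / Q.eval ζ

/-- RGA: good points of rational curves. -/
def StRGA : Prop := ∀ P Q P1 Q1 : Polynomial ℂ, Q ≠ 0 → Q1 ≠ 0 →
  (∃ ζ : ℂ, Q.eval ζ ≠ 0 ∧ Q1.eval ζ ≠ 0 ∧ GoodAt (rf P Q) (rf P1 Q1) ζ) →
    ∃ B : Set ℂ, B.Finite ∧ ∀ ζ ∉ B, Q.eval ζ ≠ 0 ∧ Q1.eval ζ ≠ 0 ∧
      Wr (rf P Q) (rf P1 Q1) ζ ≠ 0 ∧ GoodAt (rf P Q) (rf P1 Q1) ζ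

/-- RIN: bound at infinity. -/
def StRIN : Prop := ∀ P Q P1 Q1 : Polynomial ℂ, Q ≠ 0 → Q1 ≠ 0 →
  Bdd (fun η => rf P Q η⁻¹) (fun η => rf P1 Q1 η⁻¹) 0 →
    ∃ C R : ℝ, ∀ ζ : ℂ, R < ‖ζ‖ →
      ‖Mi (rf P Q) (rf P1 Q1) ζ‖ ^ 3 ≤ C * ‖Wr (rf P Q) (rf P1 Q1) ζ‖ ^ 8

/-- RLV: the affine curvature is constant. -/
def StRLV : Prop := ∀ P Q P1 Q1 : Polynomial ℂ, Q ≠ 0 → Q1 ≠ 0 →
  (∃ B : Set ℂ, B.Finite ∧ ∀ ζ ∉ B, Q.eval ζ ≠ 0 ∧ Q1.eval ζ ≠ 0 ∧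
      Wr (rf P Q) (rf P1 Q1) ζ ≠ 0) →
  (∀ ζ0 : ℂ, Bdd (rf P Q) (rf P1 Q1) ζ0) →
  (∃ C R : ℝ, ∀ ζ : ℂ, R < ‖ζ‖ →
      ‖Mi (rf P Q) (rf P1 Q1) ζ‖ ^ 3 ≤ C * ‖Wr (rf P Q) (rf P1 Q1) ζ‖ ^ 8) →
    ∃ m0 : ℂ, ∃ B : Set ℂ, B.Finite ∧ ∀ ζ ∉ B,
      Mi (rf P Q) (rf P1 Q1) ζ ^ 3 = m0 * Wr (rf P Q) (rf P1 Q1) ζ ^ 8

/-- CQU: constant affine curvature means conic. -/
def StCQU : Prop := ∀ (Z W : ℂ → ℂ) (c m0 : ℂ) (r : ℝ), 0 < r →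
  DifferentiableOn ℂ Z (Metric.ball c r) → DifferentiableOn ℂ W (Metric.ball c r) →
  (∀ t ∈ Metric.ball c r, Wr Z W t ≠ 0 ∧ Mi Z W t ^ 3 = m0 * Wr Z W t ^ 8) →
    ∃ q0 q1 q2 q3 q4 q5 : ℂ, ¬ (q0 = 0 ∧ q1 = 0 ∧ q2 = 0 ∧ q3 = 0 ∧ q4 = 0 ∧ q5 = 0) ∧
      ∀ᶠ t in 𝓝 c, q0 * Z t ^ 2 + q1 * Z t * W t + q2 * W t ^ 2 + q3 * Z t + q4 * W t + q5 = 0

/-- CEL: an oval on a conic is an ellipse. -/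
def StCEL : Prop := ∀ (γ : ℝ → ℂ) (ρ : ℝ → ℝ), IsOval γ ρ → ∀ q0 q1 q2 q3 q4 q5 : ℂ,
  ¬ (q0 = 0 ∧ q1 = 0 ∧ q2 = 0 ∧ q3 = 0 ∧ q4 = 0 ∧ q5 = 0) →
  (∀ φ : ℝ, q0 * γ φ ^ 2 + q1 * γ φ * (starRingEnd ℂ) (γ φ) + q2 * (starRingEnd ℂ) (γ φ) ^ 2
    + q3 * γ φ + q4 * (starRingEnd ℂ) (γ φ) + q5 = 0) →
    ∃ (c : ℂ) (a b d : ℝ), 0 < a ∧ 0 < a * d - b ^ 2 ∧
      Set.range γ = {x : ℂ | a * (x.re - c.re) ^ 2 + 2 * b * (x.re - c.re) * (x.im - c.im)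
        + d * (x.im - c.im) ^ 2 = 1}

/-- RAX: the final theorem for rational ovals. -/
def StRAX : Prop := ∀ (γ : ℝ → ℂ) (ρ : ℝ → ℝ), IsOval γ ρ → ∀ (K : ℝ → ℝ → ℝ) (ε : ℝ), 0 < ε →
  AnalyticOnNhd ℝ (Function.uncurry K) {z | |z.2 - sup (γ z.1) z.1| < ε} →
  (∀ s : ℝ, ∃ εs > 0, ∀ δ : ℝ, 0 < δ → δ < εs →
    K (s + δ) (sup (γ s) (s + δ)) = K (s - δ) (sup (γ s) (s - δ))) →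
  (¬ ∃ c, ∀ φ p : ℝ, |p - sup (γ φ) φ| < ε → K φ p = c) →
  ∀ (P Q : Polynomial ℂ) (θ : ℝ → ℝ), (∀ t : ℝ, Q.eval (cexp (t * I)) ≠ 0) → Continuous θ →
  Function.Surjective θ → (∀ t : ℝ, γ (θ t) = P.eval (cexp (t * I)) / Q.eval (cexp (t * I))) →
    ∃ (c : ℂ) (a b d : ℝ), 0 < a ∧ 0 < a * d - b ^ 2 ∧
      Set.range γ = {x : ℂ | a * (x.re - c.re) ^ 2 + 2 * b * (x.re - c.re) * (x.im - c.im)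
        + d * (x.im - c.im) ^ 2 = 1}

end H719FX
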