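import Pool.Agent.H719R4.FX.Geo

/-!
# SEG: propagation along a segment (helper913)
-/

open Complex Set Filter Topology

namespace H719FX

open H738CZ

theorem SEG_ker : Ker kcs := by
  refine ⟨fun i => ?_, ?_, fun i => ?_⟩
  · unfold kcs
    rw [if_pos ⟨i, by ring⟩]
  · unfold kcs
    rw [if_neg (by decide)]
    norm_num
  · unfold kcs
    split_ifs
    · simp
    · rw [norm_pow, norm_neg, norm_one, one_pow]

/-- change of the pair at the same point -/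
theorem SEG_chg (hTRL : StTRL) (hSGN : StSGN) (ρ ρ' : ℂ → ℂ) (x x' : ℂ) (j : ℤ)
    (hx : x' = x + Real.pi * j)
    (h : ∀ᶠ φ in 𝓝 x, ρ' (φ + Real.pi * j) = (-1) ^ j * ρ φ) (hG : Good kcs ρ' x') :
    Good kcs ρ x := by
  have h1 : x' - Real.pi * j = x := by rw [hx]; ring
  have h2 : Good kcs (fun φ => (-1 : ℂ) ^ j * ρ φ) x := by
    have := hTRL kcs ρ' (fun φ => (-1 : ℂ) ^ j * ρ φ) x' (Real.pi * j) hG (by
      rw [h1]
      filter_upwards [h] with φ hφ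
      exact hφ.symm)
    rwa [h1] at this
  rcases Int.even_or_odd j with hj | hj
  · have h3 : (fun φ => (-1 : ℂ) ^ j * ρ φ) = ρ := by
      funext φ
      rw [hj.neg_one_zpow, one_mul]
    rwa [h3] at h2
  · have h4 := hSGN kcs _ x h2
    have h3 : (fun t => -((-1 : ℂ) ^ j * ρ t)) = ρ := by
      funext φ
      rw [hj.neg_one_zpow]
      ring
    rwa [h3] at h4

theorem SEG_loc (hPA : StPA) (hSGN : StSGN) (hTRL : StTRL) (hDSC : StDSC) (Z W : ℂ → ℂ) (t : ℂ)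
    (hZ : AnalyticAt ℂ Z t) (hW : AnalyticAt ℂ W t) (h1 : deriv Z t ≠ 0) (h2 : deriv W t ≠ 0)
    (h3 : Wr Z W t ≠ 0) :
    ∀ᶠ s in 𝓝 t, (GoodAt Z W t → GoodAt Z W s) ∧ (GoodAt Z W s → GoodAt Z W t) := by
  obtain ⟨Φ, ρ, η, hη, hP, hd, hn, hev⟩ := hPA Z W t hZ hW h1 h2 h3
  have hρa : ∀ x ∈ Metric.ball (Φ t) η, AnalyticAt ℂ ρ x := fun x hx =>
    hd.analyticAt (Metric.isOpen_ball.mem_nhds hx)
  have hPs : ∀ᶠ s in 𝓝 t, Pair Z W s Φ ρ := by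
    have e1 := hP.aΦ.eventually_analyticAt
    have e2 : ∀ᶠ s in 𝓝 t, deriv Φ s ≠ 0 :=
      hP.aΦ.deriv.continuousAt.eventually_ne hP.dΦ
    filter_upwards [e1, e2, hev, hP.eZ.eventually_nhds, hP.eW.eventually_nhds] with s a1 a2 a3 a4 a5
    exact ⟨a1, hρa _ a3.1, a2, hn _ a3.1, a4, a5⟩
  have key : ∀ s s' : ℂ, (Φ s ∈ Metric.ball (Φ t) η ∧ ∀ Φ' ρ' : ℂ → ℂ, Pair Z W s Φ' ρ' →
        ∃ j : ℤ, Φ' s = Φ s + Real.pi * j ∧
          ∀ᶠ φ in 𝓝 (Φ s), ρ' (φ + Real.pi * j) = (-1) ^ j * ρ φ) →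
      Φ s' ∈ Metric.ball (Φ t) η → Pair Z W s' Φ ρ → GoodAt Z W s → GoodAt Z W s' := by
    rintro s s' ⟨b1, b2⟩ b3 b4 ⟨Φ', ρ', hP', hG⟩
    obtain ⟨j, hj, hj2⟩ := b2 Φ' ρ' hP'
    have hG2 := SEG_chg hTRL hSGN ρ ρ' (Φ s) (Φ' s) j hj hj2 hG
    exact ⟨Φ, ρ, b4, hDSC kcs SEG_ker ρ (Φ t) η (Φ s) (Φ s') hd b1 b3 (hn _ b3) hG2⟩
  have hevt := hev.self_of_nhds
  filter_upwards [hev, hPs] with s c1 c2
  exact ⟨key t s hevt c1.1 c2, key s t c1 hevt.1 hP⟩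

theorem tSEG (hPA : StPA) (hSGN : StSGN) (hTRL : StTRL) (hDSC : StDSC) : StSEG := by
  intro Z W U a b hU hZ hW hne hsub hG
  have hpre : IsPreconnected (segment ℝ a b) := (convex_segment a b).isPreconnected
  have hloc : ∀ t ∈ segment ℝ a b, ∀ᶠ s in 𝓝[segment ℝ a b] t,
      (GoodAt Z W t → GoodAt Z W s) ∧ (GoodAt Z W s → GoodAt Z W t) := by
    intro t ht
    have htU := hsub ht
    obtain ⟨h1, h2, h3⟩ := hne t htU
    exact mem_nhdsWithin_of_mem_nhds (SEG_loc hPA hSGN hTRL hDSC Z W t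
      (hZ.analyticAt (hU.mem_nhds htU)) (hW.analyticAt (hU.mem_nhds htU)) h1 h2 h3)
  have := hpre.induction₂' (fun x y => GoodAt Z W x → GoodAt Z W y) hloc
    (fun x y z _ _ _ h1 h2 h3 => h2 (h1 h3)) (left_mem_segment ℝ a b) (right_mem_segment ℝ a b)
  exact this hG

end H719FX
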