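import Pool.Agent.H719R4.FX.Cov

/-!
# Sturm comparison
-/

open Complex Set Filter Topology

namespace H719FX

open H738CZ

theorem STU_aux (c : ℝ) (hc : 0 < c) (u u' u'' : ℝ → ℝ)
    (h1 : ∀ x ∈ Icc Real.pi (2 * Real.pi), HasDerivAt u (u' x) x)
    (h2 : ∀ x ∈ Icc Real.pi (2 * Real.pi), HasDerivAt u' (u'' x) x)
    (hode : ∀ x ∈ Icc Real.pi (2 * Real.pi), u'' x = -(1 - c / x ^ 2) * u x)
    (h0 : u Real.pi = 0) (h3 : u (2 * Real.pi) = 0) : ∀ x ∈ Icc Real.pi (2 * Real.pi), u x ≤ 0 := by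
  intro x0 hx0
  by_contra hpos
  push Not at hpos
  have hpi := Real.pi_pos
  have hcont : ContinuousOn u (Icc Real.pi (2 * Real.pi)) := fun x hx => (h1 x hx).continuousAt.continuousWithinAt
  -- left end
  have hKa : IsCompact (Icc Real.pi x0 ∩ u ⁻¹' (Iic 0)) := by
    have : IsClosed (Icc Real.pi x0 ∩ u ⁻¹' (Iic 0)) :=
      (hcont.mono (Icc_subset_Icc le_rfl hx0.2)).preimage_isClosed_of_isClosed isClosed_Icc isClosed_Iic
    exact isCompact_Icc.of_isClosed_subset this inter_subset_left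
  have hKb : IsCompact (Icc x0 (2 * Real.pi) ∩ u ⁻¹' (Iic 0)) := by
    have : IsClosed (Icc x0 (2 * Real.pi) ∩ u ⁻¹' (Iic 0)) :=
      (hcont.mono (Icc_subset_Icc hx0.1 le_rfl)).preimage_isClosed_of_isClosed isClosed_Icc isClosed_Iic
    exact isCompact_Icc.of_isClosed_subset this inter_subset_left
  obtain ⟨a, ⟨⟨ha1, ha2⟩, ha3⟩, haM⟩ := hKa.exists_isGreatest ⟨Real.pi, ⟨le_rfl, hx0.1⟩, by simp [h0]⟩
  obtain ⟨b, ⟨⟨hb1, hb2⟩, hb3⟩, hbM⟩ := hKb.exists_isLeast ⟨2 * Real.pi, ⟨hx0.2, le_rfl⟩, by simp [h3]⟩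
  have ha3' : u a ≤ 0 := ha3
  have hb3' : u b ≤ 0 := hb3
  have hax : a < x0 := lt_of_le_of_ne ha2 (by rintro rfl; linarith)
  have hxb : x0 < b := lt_of_le_of_ne hb1 (by rintro rfl; linarith)
  have hab : a < b := hax.trans hxb
  have hsub : Icc a b ⊆ Icc Real.pi (2 * Real.pi) := Icc_subset_Icc ha1 hb2
  have hupos : ∀ x ∈ Ioo a b, 0 < u x := by
    intro x hx
    by_contra h
    push Not at h
    rcases le_total x x0 with hxx | hxx
    · have := haM (⟨⟨ha1.trans hx.1.le, hxx⟩, h⟩ : x ∈ Icc Real.pi x0 ∩ u ⁻¹' (Iic 0))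
      linarith [hx.1]
    · have := hbM (⟨⟨hxx, hx.2.le.trans hb2⟩, h⟩ : x ∈ Icc x0 (2 * Real.pi) ∩ u ⁻¹' (Iic 0))
      linarith [hx.2]
  have hua : u a = 0 := by
    apply le_antisymm ha3'
    have ht : Filter.Tendsto u (nhdsWithin a (Ioi a)) (nhds (u a)) :=
      ((h1 a (hsub ⟨le_rfl, hab.le⟩)).continuousAt.continuousWithinAt)
    apply ge_of_tendsto ht
    filter_upwards [Ioo_mem_nhdsGT hab] with x hx using (hupos x hx).le
  have hub : u b = 0 := by
    apply le_antisymm hb3'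
    have ht : Filter.Tendsto u (nhdsWithin b (Iio b)) (nhds (u b)) :=
      ((h1 b (hsub ⟨hab.le, le_rfl⟩)).continuousAt.continuousWithinAt)
    apply ge_of_tendsto ht
    filter_upwards [Ioo_mem_nhdsLT hab] with x hx using (hupos x hx).le
  have hub' : u' b ≤ 0 := by
    have hd := h1 b (hsub ⟨hab.le, le_rfl⟩)
    have ht := (hasDerivAt_iff_tendsto_slope.1 hd).mono_left
      (nhdsWithin_mono b (fun x (hx : x ∈ Iio b) => ne_of_lt hx))
    apply le_of_tendsto ht
    filter_upwards [Ioo_mem_nhdsLT hab] with x hx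
    rw [slope_def_field, hub, sub_zero]
    have h4 : 0 < u x := hupos x hx
    have h5 : x - b < 0 := by linarith [hx.2]
    -- slope b x = (u x - u b) / (x - b)
    exact (div_neg_of_pos_of_neg h4 h5).le
  -- Wronskian
  have hW : ∀ x ∈ Icc a b, HasDerivAt (fun x => u' x * Real.sin (x - a) - u x * Real.cos (x - a))
      (c / x ^ 2 * u x * Real.sin (x - a)) x := by
    intro x hx
    have e1 := h1 x (hsub hx)
    have e2 := h2 x (hsub hx)
    have e3 : HasDerivAt (fun x => Real.sin (x - a)) (Real.cos (x - a)) x := by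
      simpa using ((hasDerivAt_id x).sub_const a).sin
    have e4 : HasDerivAt (fun x => Real.cos (x - a)) (-Real.sin (x - a)) x := by
      simpa using ((hasDerivAt_id x).sub_const a).cos
    have e5 := (e2.mul e3).sub (e1.mul e4)
    rw [hode x (hsub hx)] at e5
    have e6 : c / x ^ 2 * u x * Real.sin (x - a) =
        -(1 - c / x ^ 2) * u x * Real.sin (x - a) + u' x * Real.cos (x - a) -
          (u' x * Real.cos (x - a) + u x * -Real.sin (x - a)) := by ring
    rw [e6]
    exact e5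
  have hmono : StrictMonoOn (fun x => u' x * Real.sin (x - a) - u x * Real.cos (x - a)) (Icc a b) := by
    apply strictMonoOn_of_deriv_pos (convex_Icc a b)
    · exact fun x hx => (hW x hx).continuousAt.continuousWithinAt
    · intro x hx
      rw [interior_Icc] at hx
      rw [(hW x (Ioo_subset_Icc_self hx)).deriv]
      have h6 : 0 < Real.sin (x - a) := by
        apply Real.sin_pos_of_pos_of_lt_pi
        · linarith [hx.1]
        · linarith [hx.2]
      have h7 : 0 < x := by linarith [hx.1]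
      have h8 := hupos x hx
      positivity
  have h9 := hmono (left_mem_Icc.2 hab.le) (right_mem_Icc.2 hab.le) hab
  simp only [sub_self, Real.sin_zero, Real.cos_zero, hua, hub, mul_zero, zero_mul, sub_zero] at h9
  have h10 : 0 ≤ Real.sin (b - a) := Real.sin_nonneg_of_nonneg_of_le_pi (by linarith) (by linarith)
  nlinarith

theorem STU_le (σ : ℝ) (y y' : ℝ → ℝ) (hσ : 0 < σ)
    (hy : ∀ x ∈ Icc Real.pi (2 * Real.pi), HasDerivAt y (y' x) x ∧
      HasDerivAt y' ((2 * σ + 2) * y' x / x - y x) x) (h0 : y Real.pi = 0)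
    (h3 : y (2 * Real.pi) = 0) : ∀ x ∈ Icc Real.pi (2 * Real.pi), y x ≤ 0 := by
  intro x hx
  have hpi := Real.pi_pos
  have hp : ∀ x ∈ Icc Real.pi (2 * Real.pi), 0 < x := fun x hx => lt_of_lt_of_le hpi hx.1
  have hr : ∀ x ∈ Icc Real.pi (2 * Real.pi), HasDerivAt (fun x : ℝ => x ^ (-(σ + 1)))
      (-(σ + 1) * x ^ (-(σ + 1)) / x) x := by
    intro x hx
    have e1 := Real.hasDerivAt_rpow_const (p := -(σ + 1)) (Or.inl (hp x hx).ne')
    rw [Real.rpow_sub_one (hp x hx).ne', ← mul_div_assoc] at e1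
    exact e1
  have hu := STU_aux ((σ + 1) * (σ + 2)) (by positivity)
    (fun x => x ^ (-(σ + 1)) * y x)
    (fun x => -(σ + 1) * x ^ (-(σ + 1)) / x * y x + x ^ (-(σ + 1)) * y' x)
    (fun x => -(1 - (σ + 1) * (σ + 2) / x ^ 2) * (x ^ (-(σ + 1)) * y x))
    (fun x hx => (hr x hx).mul (hy x hx).1)
    (fun x hx => ?_) (fun x _ => rfl) (by simp [h0]) (by simp [h3]) x hx
  · have h4 : 0 < x ^ (-(σ + 1)) := Real.rpow_pos_of_pos (hp x hx) _
    have h5 : x ^ (-(σ + 1)) * y x ≤ 0 := hu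
    by_contra h6
    push Not at h6
    have := mul_pos h4 h6
    linarith
  · have hx0 := hp x hx
    have e1 := ((((hr x hx).const_mul (-(σ + 1))).div (hasDerivAt_id x) hx0.ne').mul
      (hy x hx).1).add ((hr x hx).mul (hy x hx).2)
    refine HasDerivAt.congr_deriv e1 ?_
    simp only [Pi.div_apply, id]
    field_simp
    ring

theorem tSTU : StSTU := by
  intro σ y y' hσ hy h0 h3 x hx
  apply le_antisymm (STU_le σ y y' hσ hy h0 h3 x hx)
  have := STU_le σ (fun x => -y x) (fun x => -y' x) hσ (fun x hx => ⟨(hy x hx).1.neg, ?_⟩)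
    (by simp [h0]) (by simp [h3]) x hx
  · simpa using this
  · have e := (hy x hx).2.neg
    refine e.congr_deriv ?_
    ring

end H719FX
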